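import Pool.Agent.Lib.EUL.Blue

/-! Absorption of the large obstacles. -/

namespace Pool.Agent.Lib.EUL

open MeasureTheory Set Filter Topology
open scoped ContDiff Classical

namespace ABS

theorem mult_comp {ι κ : Type} [Fintype ι] [Fintype κ] {P : ι → Prop} {p : ι → ℂ} {r M : ℝ}
    (h : Mult P p r M) (f : κ → ι) (hf : Function.Injective f) {Q : κ → Prop} {r' M' : ℝ}
    (hQ : ∀ k, Q k → P (f k)) (hr : r' ≤ r) (hM : M ≤ M') : Mult Q (fun k => p (f k)) r' M' := by
  intro y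
  refine le_trans ?_ ((h y).trans hM)
  have : (Finset.univ.filter fun k => Q k ∧ pn (p (f k) - y) ≤ r').card ≤
      (Finset.univ.filter fun i => P i ∧ pn (p i - y) ≤ r).card := by
    refine Finset.card_le_card_of_injOn f (fun k hk => ?_) hf.injOn
    simp only [Finset.coe_filter, Finset.mem_univ, true_and, mem_ofPred_eq] at hk ⊢
    exact ⟨hQ k hk.1, hk.2.trans hr⟩
  exact_mod_cast this

theorem sub_le {ι : Type} [Fintype ι] (P : ι → Prop) (f : ι → ℝ) (hf : ∀ i, 0 ≤ f i) :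
    ∑ k : {i // P i}, f k.1 ≤ ∑ i, f i := by
  rw [← Fintype.sum_subtype_add_sum_subtype P f]
  exact le_add_of_nonneg_right (Finset.sum_nonneg fun k _ => hf _)

theorem nD_zero (j : ℕ) (y : ℂ) : nD j (fun _ => (0 : ℂ)) y = 0 := by
  unfold nD
  rw [iteratedFDeriv_fun_zero]
  simp

theorem tau_nonneg (k : ℕ) {r : ℝ} (hr : 0 < r) (s : ℝ) : 0 ≤ tau k r s :=
  pow_nonneg (div_nonneg hr.le (hr.le.trans (le_max_left _ _))) k

theorem ratio_le {r r' : ℝ} (hr : 0 < r) (h : r ≤ r') (s : ℝ) : r / max r s ≤ r' / max r' s := by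
  have h1 : 0 < max r s := hr.trans_le (le_max_left _ _)
  have h2 : 0 < max r' s := (hr.trans_le h).trans_le (le_max_left _ _)
  rw [div_le_div_iff₀ h1 h2]
  rcases le_total r' s with hs | hs
  · rw [max_eq_right hs, max_eq_right (h.trans hs)]
    exact mul_le_mul_of_nonneg_right h ((hr.le.trans h).trans hs)
  · rw [max_eq_left hs, mul_comm]
    exact mul_le_mul_of_nonneg_left (le_max_left _ _) (hr.le.trans h)

theorem dom {o : Ob} (ho : o.Good) {s r : ℝ} (hs : 0 ≤ s) (h1 : s ≤ o.rho) (h2 : o.rho ≤ r)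
    (t : ℝ) : Dom 2 (o.W t) (o.x t) (o.a t * o.u) r s := by
  intro j hj y
  have hr : 0 < r := ho.rpos.trans_le h2
  by_cases ht : t ∈ Icc o.s o.e
  · rw [ho.aone t ht, one_mul]
    have e := ho.env t j hj y
    obtain ⟨m, hm⟩ : ∃ m, m = max o.rho (pn (y - o.x t)) := ⟨_, rfl⟩
    have hm1 : o.rho ≤ m := hm ▸ le_max_left _ _
    have hm0 : 0 < m := ho.rpos.trans_le hm1
    have a1 : s ^ j ≤ m ^ j := pow_le_pow_left₀ hs (h1.trans hm1) j
    have a2 : (o.rho / m) ^ 2 ≤ tau 2 r (pn (y - o.x t)) :=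
      pow_le_pow_left₀ (div_nonneg ho.rpos.le hm0.le) (hm ▸ ratio_le ho.rpos h2 _) 2
    rw [← hm] at e
    have u0 := ho.u0
    calc s ^ j * nD j (o.W t) y ≤ m ^ j * (o.u * o.rho ^ 2 / m ^ (2 + j)) :=
          mul_le_mul a1 e (norm_nonneg _) (by positivity)
      _ = o.u * (o.rho / m) ^ 2 := by field_simp; ring
      _ ≤ _ := mul_le_mul_of_nonneg_left a2 u0
  · have e : o.W t = fun _ => 0 := funext (ho.Wts t ht)
    rw [e, nD_zero, mul_zero]
    exact mul_nonneg (mul_nonneg (ho.a0 t) ho.u0) (tau_nonneg 2 hr _)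

end ABS

open ABS in
theorem st_ABS (hMAJ : St_MAJ) (hMJ : St_MJ) : St_ABS := by
  obtain ⟨C, hC, -, hmaj⟩ := hMAJ
  obtain ⟨m1, m2, m3, m4, -⟩ := hMJ
  refine ⟨2 * C, by linarith, ?_⟩
  intro v a b l D rho Y Xi Z M l' D' rho' Y' Xi' Z' M' ⟨ι, _, o, V, h⟩ hD hDD hDl hll hl hrho hY hXi hZ hM
  have hl0 : 0 < l' := by linarith
  obtain ⟨B, hB⟩ : ∃ B : ι → ℝ → ℂ → ℂ,
      B = fun i => if (o i).rho ≤ D' then fun _ _ => 0 else (o i).W := ⟨_, rfl⟩
  obtain ⟨c, hc⟩ : ∃ c : ι → ℝ → ℝ,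
      c = fun i => if (o i).rho ≤ D' then fun _ => 0 else fun t => (o i).a t * (o i).u := ⟨_, rfl⟩
  have B1 : ∀ i, (o i).rho ≤ D' → B i = fun _ _ => 0 := fun i hi => by rw [hB]; exact if_pos hi
  have B2 : ∀ i, ¬ (o i).rho ≤ D' → B i = (o i).W := fun i hi => by rw [hB]; exact if_neg hi
  have c1 : ∀ i, (o i).rho ≤ D' → c i = fun _ => 0 := fun i hi => by rw [hc]; exact if_pos hi
  have c2 : ∀ i, ¬ (o i).rho ≤ D' → c i = fun t => (o i).a t * (o i).u := fun i hi => by
    rw [hc]; exact if_neg hi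
  have Bsp : ∀ i, SP (B i) := fun i => by
    by_cases hi : (o i).rho ≤ D'
    · rw [B1 i hi]; exact ⟨contDiff_const, fun _ _ _ => rfl⟩
    · rw [B2 i hi]; exact (h.good i).Wsp
  have Asm : Sm fun t y => ∑ i, B i t y := ContDiff.sum fun i _ => (Bsp i).1
  have mu : ∀ t, Mult (fun i => (o i).a t ≠ 0) (fun i => (o i).x t) l' M := fun t =>
    mult_comp (h.mult t) id Function.injective_id (fun _ hk => hk) (by linarith) le_rfl
  have hal : 0 ≤ 2 - al := by unfold al; norm_num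
  have hsum : ∀ t, ∑ i, c i t ^ 2 ≤ D' ^ (al - 2) * Xi := fun t => by
    refine le_trans ?_ (mul_le_mul_of_nonneg_left (h.xi t) (Real.rpow_nonneg hD.le _))
    rw [Finset.mul_sum]
    refine Finset.sum_le_sum fun i _ => ?_
    have r0 := (h.good i).rpos
    by_cases hi : (o i).rho ≤ D'
    · rw [c1 i hi]
      have := Real.rpow_nonneg hD.le (al - 2)
      have := Real.rpow_nonneg r0.le (2 - al)
      simp only [ne_eq, OfNat.ofNat_ne_zero, not_false_eq_true, zero_pow]
      positivity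
    · rw [c2 i hi]
      have a1 : D' ^ (2 - al) ≤ (o i).rho ^ (2 - al) := Real.rpow_le_rpow hD.le (not_le.1 hi).le hal
      have a2 : D' ^ (al - 2) * D' ^ (2 - al) = 1 := by
        rw [← Real.rpow_add hD]; simp
      have a3 := mul_le_mul_of_nonneg_left a1 (Real.rpow_nonneg hD.le (al - 2))
      have a4 := mul_le_mul_of_nonneg_left (a2.symm.le.trans a3) (sq_nonneg ((o i).a t * (o i).u))
      simp only
      linarith
  have h0 := hmaj ι c (fun i => (o i).x) B l' D' M (D' ^ (al - 2) * Xi) hl0 (hll.trans hl) hD.le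
    (fun i => by
      by_cases hi : (o i).rho ≤ D'
      · rw [c1 i hi]; exact continuous_const
      · rw [c2 i hi]; exact (h.good i).acont.mul continuous_const)
    (fun i => (h.good i).xsm.continuous)
    (fun i t => by
      by_cases hi : (o i).rho ≤ D'
      · rw [c1 i hi]
      · rw [c2 i hi]; exact mul_nonneg ((h.good i).a0 t) (h.good i).u0)
    (fun i => (Bsp i).1)
    (fun t => mult_comp (mu t) id Function.injective_id (fun i hi => by
      by_cases hi' : (o i).rho ≤ D'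
      · rw [c1 i hi'] at hi; exact absurd rfl hi
      · rw [c2 i hi'] at hi; exact left_ne_zero_of_mul hi) le_rfl le_rfl)
    hsum
    (fun i t => by
      by_cases hi : (o i).rho ≤ D'
      · rw [B1 i hi, c1 i hi]
        intro j _ y
        simp only [nD_zero, mul_zero, zero_mul, le_refl]
      · rw [B2 i hi, c2 i hi]
        exact dom (h.good i) hD.le (not_le.1 hi).le ((h.size i).2.trans hDl) t)
  have e4 : D' ^ (al - 4) = D' ^ (al - 2) / D' ^ 2 := by
    rw [show al - 4 = al - 2 - (2 : ℕ) by push_cast; ring, Real.rpow_sub_natCast hD.ne']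
  refine ⟨{i // (o i).rho ≤ D'}, inferInstance, fun k => o k.1, fun t y => V t y + ∑ i, B i t y,
    ⟨h.Vsp.1.add Asm, fun t n z => ?_⟩, fun t ht x => ?_, fun t x => ?_, ?_, fun k => h.good k.1,
    fun k => h.life k.1, fun k => ⟨hrho.trans (h.size k.1).1, k.2⟩,
    fun k => hDD.trans (h.long k.1), fun t => ?_, fun t => ?_, fun t => ?_⟩
  · simp only [h.Vsp.2 t n z, fun i => (Bsp i).2 t n z]
  · rw [h.Vts t ht x, zero_add]
    refine Finset.sum_eq_zero fun i _ => ?_
    by_cases hi : (o i).rho ≤ D'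
    · rw [B1 i hi]
    · rw [B2 i hi]
      exact (h.good i).Wts t (fun ht' => ht ⟨(h.life i).1.trans ht'.1, ht'.2.trans (h.life i).2⟩) x
  · rw [h.eq t x, ← Fintype.sum_subtype_add_sum_subtype (fun i => (o i).rho ≤ D') fun i => (o i).W t x,
      ← Fintype.sum_subtype_add_sum_subtype (fun i => (o i).rho ≤ D') fun i => B i t x,
      Finset.sum_eq_zero (f := fun k : {i // (o i).rho ≤ D'} => B k.1 t x) fun k _ => by
        rw [B1 k.1 k.2],
      Finset.sum_congr rfl (f := fun k : {i // ¬ (o i).rho ≤ D'} => B k.1 t x) fun k _ => by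
        rw [B2 k.1 k.2]]
    ring
  · refine m1 _ _ _ _ _ _ _ (m2 V _ l' D' Y _ h.Vsp.1 Asm hl0.le hD.le
      (m1 V l D Y l' D' Y h.maj hll hD.le hDD le_rfl) (m3 _ _ _ _ D' h0 hD hD.le le_rfl))
      le_rfl hD.le le_rfl (le_trans (le_of_eq ?_) hY)
    rw [e4]; ring
  · exact mult_comp (h.mult t) Subtype.val Subtype.val_injective (fun _ hk => hk) (by linarith) hM
  · refine le_trans (sub_le (fun i => (o i).rho ≤ D')
      (fun i => ((o i).a t * (o i).u) ^ 2 * (o i).rho ^ (2 - al)) fun i => ?_) ((h.xi t).trans hXi)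
    exact mul_nonneg (sq_nonneg _) (Real.rpow_nonneg (h.good i).rpos.le _)
  · obtain ⟨g, -, hg⟩ := h0
    have k1 := m4 _ _ _ _ _ M ι (fun i => (o i).a t) (fun i => (o i).x t) (hg t) hl0 (hll.trans hl)
      (fun i => (h.good i).a0 t) (fun i => (h.good i).a1 t) (mu t)
    have k2 := h.drift t
    refine le_trans (sub_le (fun i => (o i).rho ≤ D') (fun i => ((o i).a t *
      ‖deriv (o i).x t - (V t ((o i).x t) + ∑ j, B j t ((o i).x t))‖) ^ 2) fun i => sq_nonneg _) ?_
    have k3 : ∑ i, ((o i).a t * ‖deriv (o i).x t - (V t ((o i).x t) + ∑ j, B j t ((o i).x t))‖) ^ 2 ≤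
        ∑ i, (2 * ((o i).a t * ‖deriv (o i).x t - V t ((o i).x t)‖) ^ 2 +
          2 * ((o i).a t * ‖∑ j, B j t ((o i).x t)‖) ^ 2) := by
      refine Finset.sum_le_sum fun i _ => ?_
      have a0 := (h.good i).a0 t
      have n1 := norm_sub_le (deriv (o i).x t - V t ((o i).x t)) (∑ j, B j t ((o i).x t))
      rw [sub_sub] at n1
      have n2 := pow_le_pow_left₀ (mul_nonneg a0 (norm_nonneg _)) (mul_le_mul_of_nonneg_left n1 a0) 2
      nlinarith [sq_nonneg ((o i).a t * ‖deriv (o i).x t - V t ((o i).x t)‖ -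
        (o i).a t * ‖∑ j, B j t ((o i).x t)‖)]
    rw [Finset.sum_add_distrib, ← Finset.mul_sum, ← Finset.mul_sum] at k3
    have e : M * (C * M * lg l' ^ 2 * l' ^ 2 * (D' ^ (al - 2) * Xi)) / l' ^ 2 =
        C * M ^ 2 * lg l' ^ 2 * D' ^ (al - 2) * Xi := by field_simp
    rw [e] at k1
    linarith

end Pool.Agent.Lib.EUL
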