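import Pool.Agent.Lib.EUL.BasicB

/-! Proved API for the cutoffs, the mollifier and the small scalar functions. -/

set_option autoImplicit false

namespace Pool.Agent.Lib.EUL

open MeasureTheory Set Filter Topology
open scoped ContDiff Classical

noncomputable section

/-! ### compactly supported smooth functions and scaling -/

theorem hcs_of {E : Type} [Zero E] {f : ℂ → E} {r : ℝ} (h : ∀ y, r < ‖y‖ → f y = 0) :
    HasCompactSupport f :=
  .intro (isCompact_closedBall 0 r) fun y hy => h y (by simpa using hy)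

theorem nD_continuous {f : ℂ → ℂ} (hf : ContDiff ℝ ∞ f) (k : ℕ) : Continuous (nD k f) :=
  (hf.continuous_iteratedFDeriv (nat_le_inf k)).norm

theorem nD_zero_of_supp {f : ℂ → ℂ} {r : ℝ} (h : ∀ y, r < ‖y‖ → f y = 0) (k : ℕ) {y : ℂ}
    (hy : r < ‖y‖) : nD k f y = 0 :=
  nD_eq_zero_of_eventually
    ((continuous_norm.continuousAt.eventually (lt_mem_nhds hy)).mono fun w hw => h w hw) k

theorem nD_integrable {f : ℂ → ℂ} (hf : ContDiff ℝ ∞ f) {r : ℝ} (h : ∀ y, r < ‖y‖ → f y = 0)
    (k : ℕ) : Integrable (nD k f) :=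
  (nD_continuous hf k).integrable_of_hasCompactSupport (hcs_of fun _ hy => nD_zero_of_supp h k hy)

/-- uniform bounds for the first `N` derivatives, in sup norm and in `L¹` -/
theorem exists_nD_bound {f : ℂ → ℂ} (hf : ContDiff ℝ ∞ f) {r : ℝ} (h : ∀ y, r < ‖y‖ → f y = 0)
    (N : ℕ) : ∃ C : ℝ, 1 ≤ C ∧ ∀ k ≤ N, (∀ y, nD k f y ≤ C) ∧ ∫ y, nD k f y ≤ C := by
  have h1 : ∀ k : ℕ, ∃ C : ℝ, 0 ≤ C ∧ (∀ y, nD k f y ≤ C) ∧ ∫ y, nD k f y ≤ C := fun k => by
    obtain ⟨C, hC⟩ := (nD_continuous hf k).bounded_above_of_compact_support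
      (hcs_of (r := r) fun _ hy => nD_zero_of_supp h k hy)
    refine ⟨max (max C (∫ y, nD k f y)) 0, le_max_right _ _, fun y => ?_,
      (le_max_right _ _).trans (le_max_left _ _)⟩
    exact ((le_abs_self _).trans (hC y)).trans ((le_max_left _ _).trans (le_max_left _ _))
  choose C C0 hC using h1
  refine ⟨1 + ∑ k ∈ Finset.range (N + 1), C k,
    le_add_of_nonneg_right (Finset.sum_nonneg fun k _ => C0 k), fun k hk => ?_⟩
  have h2 : C k ≤ ∑ k ∈ Finset.range (N + 1), C k :=
    Finset.single_le_sum (fun k _ => C0 k) (Finset.mem_range.2 (by omega))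
  exact ⟨fun y => by linarith [(hC k).1 y], by linarith [(hC k).2]⟩

theorem div_eq_smul (s : ℝ) (y : ℂ) : y / (s : ℂ) = s⁻¹ • y := by
  rw [Complex.real_smul, Complex.ofReal_inv, div_eq_inv_mul]

theorem norm_div_real {s : ℝ} (hs : 0 < s) (y : ℂ) : ‖y / (s : ℂ)‖ = ‖y‖ / s := by
  rw [norm_div, Complex.norm_real, Real.norm_of_nonneg hs.le]

theorem integral_comp_div (g : ℂ → ℝ) {s : ℝ} (hs : 0 < s) :
    ∫ y : ℂ, g (y / (s : ℂ)) = s ^ 2 * ∫ y, g y := by
  simp only [div_eq_smul]
  rw [Measure.integral_comp_inv_smul_of_nonneg volume g hs.le, Complex.finrank_real_complex,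
    smul_eq_mul]

theorem contDiff_comp_div {E : Type} [NormedAddCommGroup E] [NormedSpace ℝ E] {f : ℂ → E}
    (hf : ContDiff ℝ ∞ f) (s : ℝ) : ContDiff ℝ ∞ fun y => f (y / (s : ℂ)) :=
  hf.comp (contDiff_id.div_const _)

theorem supp_comp_div {E : Type} [Zero E] {f : ℂ → E} {r s : ℝ} (hs : 0 < s)
    (h : ∀ y, r < ‖y‖ → f y = 0) (y : ℂ) (hy : r * s < ‖y‖) : f (y / (s : ℂ)) = 0 :=
  h _ (by rwa [norm_div_real hs, lt_div_iff₀ hs])

theorem integral_nD_comp_div_le {f : ℂ → ℂ} (hf : ContDiff ℝ ∞ f) {r : ℝ}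
    (h : ∀ y, r < ‖y‖ → f y = 0) {s : ℝ} (hs : 0 < s) (k : ℕ) :
    ∫ y, nD k (fun w => f (w / (s : ℂ))) y ≤ s ^ 2 / s ^ k * ∫ y, nD k f y := by
  have hi : Integrable fun y : ℂ => nD k f (y / (s : ℂ)) / s ^ k := by
    simp only [div_eq_smul]
    exact ((nD_integrable hf h k).comp_smul (inv_pos.2 hs).ne').div_const _
  refine (integral_mono (nD_integrable (contDiff_comp_div hf s) (supp_comp_div hs h) k) hi
    fun y => nD_comp_div_le hf hs k y).trans (le_of_eq ?_)
  rw [integral_div, integral_comp_div _ hs]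
  ring

/-! ### the cutoff `th` -/

theorem th_smooth : ContDiff ℝ ∞ th :=
  Real.smoothTransition.contDiff.comp ((contDiff_const.sub (contDiff_norm_sq ℝ)).div_const _)

theorem thC_smooth : ContDiff ℝ ∞ fun y => (th y : ℂ) := Complex.ofRealCLM.contDiff.comp th_smooth

theorem th_continuous : Continuous th := th_smooth.continuous

theorem th_nonneg (y : ℂ) : 0 ≤ th y := Real.smoothTransition.nonneg _

theorem th_le_one (y : ℂ) : th y ≤ 1 := Real.smoothTransition.le_one _

theorem norm_thC_le (y : ℂ) : ‖(th y : ℂ)‖ ≤ 1 := by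
  rw [Complex.norm_real, Real.norm_of_nonneg (th_nonneg y)]; exact th_le_one y

theorem th_one {y : ℂ} (h : ‖y‖ ≤ 1) : th y = 1 :=
  Real.smoothTransition.one_of_one_le (by nlinarith [norm_nonneg y])

theorem th_zero {y : ℂ} (h : 2 ≤ ‖y‖) : th y = 0 :=
  Real.smoothTransition.zero_of_nonpos (by nlinarith)

theorem th_rad {y z : ℂ} (h : ‖y‖ = ‖z‖) : th y = th z := by rw [th, th, h]

theorem th_neg (y : ℂ) : th (-y) = th y := th_rad (norm_neg y)

theorem th_div_smooth (s : ℝ) : ContDiff ℝ ∞ fun y => th (y / (s : ℂ)) := contDiff_comp_div th_smooth s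

theorem thC_div_smooth (s : ℝ) : ContDiff ℝ ∞ fun y => (th (y / (s : ℂ)) : ℂ) :=
  contDiff_comp_div thC_smooth s

theorem th_div_one {s : ℝ} (hs : 0 < s) {y : ℂ} (h : ‖y‖ ≤ s) : th (y / (s : ℂ)) = 1 :=
  th_one (by rwa [norm_div_real hs, div_le_one hs])

theorem th_div_zero {s : ℝ} (hs : 0 < s) {y : ℂ} (h : 2 * s ≤ ‖y‖) : th (y / (s : ℂ)) = 0 :=
  th_zero (by rwa [norm_div_real hs, le_div_iff₀ hs])

/-- derivative bounds for the rescaled cutoff -/
theorem th_bound (N : ℕ) : ∃ C : ℝ, 1 ≤ C ∧ ∀ s : ℝ, 0 < s → ∀ k ≤ N,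
    (∀ y, nD k (fun w => (th (w / (s : ℂ)) : ℂ)) y ≤ C / s ^ k) ∧
      ∫ y, nD k (fun w => (th (w / (s : ℂ)) : ℂ)) y ≤ C * s ^ 2 / s ^ k := by
  have h0 : ∀ y : ℂ, 2 < ‖y‖ → (th y : ℂ) = 0 := fun y hy => by rw [th_zero hy.le, Complex.ofReal_zero]
  obtain ⟨C, C1, hC⟩ := exists_nD_bound thC_smooth h0 N
  refine ⟨C, C1, fun s hs k hk => ⟨fun y => ?_, ?_⟩⟩
  · exact (nD_comp_div_le thC_smooth hs k y).trans
      (div_le_div_of_nonneg_right ((hC k hk).1 _) (by positivity))
  · refine (integral_nD_comp_div_le thC_smooth h0 hs k).trans ?_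
    calc _ ≤ s ^ 2 / s ^ k * C := mul_le_mul_of_nonneg_left (hC k hk).2 (by positivity)
      _ = _ := by ring

/-- the derivatives of the rescaled cutoff vanish inside the disc and outside the double disc -/
theorem nD_th_div_zero {s : ℝ} (hs : 0 < s) {k : ℕ} {y : ℂ}
    (h : k ≠ 0 ∧ ‖y‖ < s ∨ 2 * s < ‖y‖) : nD k (fun w => (th (w / (s : ℂ)) : ℂ)) y = 0 := by
  rcases h with ⟨hk, h⟩ | h
  · rw [nD_congr (g := fun _ => 1) ((continuous_norm.continuousAt.eventually (gt_mem_nhds h)).mono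
      fun w hw => by simp only [th_div_one hs hw.le, Complex.ofReal_one]) k, nD_const hk]
  · exact nD_zero_of_supp (r := 2 * s)
      (fun w hw => by rw [th_div_zero hs hw.le, Complex.ofReal_zero]) k h

/-! ### the mollifier -/

theorem bump_smooth : ContDiff ℝ ∞ bump :=
  expNegInvGlue.contDiff.comp (contDiff_const.sub (contDiff_norm_sq ℝ))

theorem bump_zero {y : ℂ} (h : 1 ≤ ‖y‖) : bump y = 0 :=
  expNegInvGlue.zero_of_nonpos (by nlinarith)

theorem bump_int_pos : 0 < ∫ w, bump w :=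
  bump_smooth.continuous.integral_pos_of_hasCompactSupport_nonneg_nonzero
    (hcs_of (r := 1) fun _ hy => bump_zero hy.le) (fun _ => expNegInvGlue.nonneg _) (x := 0)
    (expNegInvGlue.pos_of_pos (by simp)).ne'

theorem eta_smooth : ContDiff ℝ ∞ eta := bump_smooth.div_const _

theorem etaC_smooth : ContDiff ℝ ∞ fun y => (eta y : ℂ) := Complex.ofRealCLM.contDiff.comp eta_smooth

theorem eta_nonneg (y : ℂ) : 0 ≤ eta y := div_nonneg (expNegInvGlue.nonneg _) bump_int_pos.le

theorem eta_zero {y : ℂ} (h : 1 ≤ ‖y‖) : eta y = 0 := by rw [eta, bump_zero h, zero_div]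

theorem eta_rad {y z : ℂ} (h : ‖y‖ = ‖z‖) : eta y = eta z := by simp only [eta, bump, h]

theorem integral_eta : ∫ y, eta y = 1 := by
  unfold eta
  rw [integral_div, div_self bump_int_pos.ne']

theorem etas_eq_mul (s : ℝ) :
    etas s = fun y => (((s ^ 2)⁻¹ : ℝ) : ℂ) * (eta (y / (s : ℂ)) : ℂ) := by
  funext y
  simp [etas, div_eq_inv_mul]

theorem etas_smooth (s : ℝ) : ContDiff ℝ ∞ (etas s) := by
  rw [etas_eq_mul]
  exact contDiff_const.mul (contDiff_comp_div etaC_smooth s)

theorem etas_continuous (s : ℝ) : Continuous (etas s) := (etas_smooth s).continuous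

theorem etas_zero {s : ℝ} (hs : 0 < s) {y : ℂ} (h : s ≤ ‖y‖) : etas s y = 0 := by
  rw [etas, eta_zero (by rwa [norm_div_real hs, one_le_div hs]), zero_div, Complex.ofReal_zero]

theorem etas_supp {s : ℝ} (hs : 0 < s) : HasCompactSupport (etas s) :=
  hcs_of (r := s) fun _ hy => etas_zero hs hy.le

theorem etas_rad (s : ℝ) {y z : ℂ} (h : ‖y‖ = ‖z‖) : etas s y = etas s z := by
  rw [etas, etas, eta_rad (z := z / (s : ℂ)) (by rw [norm_div, norm_div, h])]

theorem etas_neg (s : ℝ) (y : ℂ) : etas s (-y) = etas s y := etas_rad s (norm_neg y)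

theorem etas_im (s : ℝ) (y : ℂ) : (etas s y).im = 0 := Complex.ofReal_im _

theorem conj_etas (s : ℝ) (y : ℂ) : (starRingEnd ℂ) (etas s y) = etas s y := Complex.conj_ofReal _

theorem norm_etas (s : ℝ) (y : ℂ) : ‖etas s y‖ = eta (y / (s : ℂ)) / s ^ 2 := by
  rw [etas, Complex.norm_real, Real.norm_of_nonneg (div_nonneg (eta_nonneg _) (sq_nonneg _))]

theorem integral_norm_etas {s : ℝ} (hs : 0 < s) : ∫ y, ‖etas s y‖ = 1 := by
  simp only [norm_etas]
  rw [integral_div, integral_comp_div _ hs, integral_eta, mul_one, div_self (by positivity)]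

theorem integral_etas {s : ℝ} (hs : 0 < s) : ∫ y, etas s y = 1 := by
  have h := integral_norm_etas hs
  simp only [norm_etas] at h
  unfold etas
  rw [integral_complex_ofReal, h, Complex.ofReal_one]

theorem integrable_etas {s : ℝ} (hs : 0 < s) : Integrable (etas s) :=
  (etas_continuous s).integrable_of_hasCompactSupport (etas_supp hs)

theorem nD_etas_zero {s : ℝ} (hs : 0 < s) (k : ℕ) {y : ℂ} (h : s < ‖y‖) : nD k (etas s) y = 0 :=
  nD_zero_of_supp (fun _ hy => etas_zero hs hy.le) k h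

theorem integrable_nD_etas {s : ℝ} (hs : 0 < s) (k : ℕ) : Integrable (nD k (etas s)) :=
  nD_integrable (etas_smooth s) (fun _ hy => etas_zero hs hy.le) k

/-- derivative bounds for the mollifier -/
theorem etas_bound (N : ℕ) : ∃ C : ℝ, 1 ≤ C ∧ ∀ s : ℝ, 0 < s → ∀ k ≤ N,
    (∀ y, nD k (etas s) y ≤ C / s ^ (2 + k)) ∧ ∫ y, nD k (etas s) y ≤ C / s ^ k := by
  have h0 : ∀ y : ℂ, 1 < ‖y‖ → (eta y : ℂ) = 0 := fun y hy => by rw [eta_zero hy.le, Complex.ofReal_zero]
  obtain ⟨C, C1, hC⟩ := exists_nD_bound etaC_smooth h0 N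
  refine ⟨C, C1, fun s hs k hk => ?_⟩
  have e : ∀ y, nD k (etas s) y = (s ^ 2)⁻¹ * nD k (fun w => (eta (w / (s : ℂ)) : ℂ)) y := fun y => by
    rw [etas_eq_mul, nD_const_mul (contDiff_comp_div etaC_smooth s).contDiffAt, Complex.norm_real,
      Real.norm_of_nonneg (by positivity)]
  simp only [e]
  refine ⟨fun y => ?_, ?_⟩
  · calc _ ≤ (s ^ 2)⁻¹ * (C / s ^ k) := mul_le_mul_of_nonneg_left
          ((nD_comp_div_le etaC_smooth hs k y).trans
            (div_le_div_of_nonneg_right ((hC k hk).1 _) (by positivity))) (by positivity)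
      _ = _ := by rw [pow_add]; field_simp
  · rw [integral_const_mul]
    calc _ ≤ (s ^ 2)⁻¹ * (s ^ 2 / s ^ k * C) := mul_le_mul_of_nonneg_left
          ((integral_nD_comp_div_le etaC_smooth h0 hs k).trans
            (mul_le_mul_of_nonneg_left (hC k hk).2 (by positivity))) (by positivity)
      _ = _ := by field_simp

/-! ### mollification -/

theorem mol_eq_conv (s : ℝ) (f : ℂ → ℂ) :
    mol s f = convolution (etas s) f (ContinuousLinearMap.mul ℝ ℂ) volume := rfl

/-- the mollified function with the kernel evaluated at the difference -/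
theorem mol_eq_swap (s : ℝ) (f : ℂ → ℂ) (x : ℂ) : mol s f x = ∫ w, etas s (x - w) * f w := by
  rw [mol_eq_conv, convolution_eq_swap]
  rfl

theorem integrable_mol {s : ℝ} (hs : 0 < s) {f : ℂ → ℂ} (hf : LocallyIntegrable f) (x : ℂ) :
    Integrable fun y => etas s y * f (x - y) :=
  (etas_supp hs).convolutionExists_left (ContinuousLinearMap.mul ℝ ℂ) (etas_continuous s) hf x

theorem mol_smooth {s : ℝ} (hs : 0 < s) {f : ℂ → ℂ} (hf : LocallyIntegrable f) :
    ContDiff ℝ ∞ (mol s f) := by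
  rw [mol_eq_conv]
  exact (etas_supp hs).contDiff_convolution_left _ (etas_smooth s) hf

theorem mol_add {s : ℝ} (hs : 0 < s) {f g : ℂ → ℂ} (hf : LocallyIntegrable f)
    (hg : LocallyIntegrable g) (x : ℂ) : mol s (fun y => f y + g y) x = mol s f x + mol s g x := by
  simp only [mol, mul_add]
  exact integral_add (integrable_mol hs hf x) (integrable_mol hs hg x)

theorem mol_sub {s : ℝ} (hs : 0 < s) {f g : ℂ → ℂ} (hf : LocallyIntegrable f)
    (hg : LocallyIntegrable g) (x : ℂ) : mol s (fun y => f y - g y) x = mol s f x - mol s g x := by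
  simp only [mol, mul_sub]
  exact integral_sub (integrable_mol hs hf x) (integrable_mol hs hg x)

theorem mol_const_mul (s : ℝ) (c : ℂ) (f : ℂ → ℂ) (x : ℂ) :
    mol s (fun y => c * f y) x = c * mol s f x := by
  simp only [mol, mul_left_comm _ c]
  exact integral_const_mul _ _

theorem mol_sum {s : ℝ} (hs : 0 < s) {ι : Type} (t : Finset ι) {f : ι → ℂ → ℂ}
    (hf : ∀ i ∈ t, LocallyIntegrable (f i)) (x : ℂ) :
    mol s (fun y => ∑ i ∈ t, f i y) x = ∑ i ∈ t, mol s (f i) x := by
  simp only [mol, Finset.mul_sum]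
  exact integral_finsetSum _ fun i hi => integrable_mol hs (hf i hi) x

theorem mol_const {s : ℝ} (hs : 0 < s) (c x : ℂ) : mol s (fun _ => c) x = c := by
  rw [mol, integral_mul_const, integral_etas hs, one_mul]

theorem mol_cj (s : ℝ) (f : ℂ → ℂ) (x : ℂ) : mol s (cj f) x = cj (mol s f) x := by
  simp only [mol, cj, ← integral_conj, map_mul, conj_etas]

theorem mol_shift (s : ℝ) (f : ℂ → ℂ) (a x : ℂ) : mol s (fun y => f (y - a)) x = mol s f (x - a) := by
  simp only [mol, sub_right_comm]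

theorem mol_peri (s : ℝ) {f : ℂ → ℂ} (hf : Peri f) : Peri (mol s f) := fun n z => by
  simp only [mol, add_sub_right_comm, hf n]

/-- the mollified function only sees the closed disc of radius `s` -/
theorem mol_congr {s : ℝ} (hs : 0 < s) {f g : ℂ → ℂ} {x : ℂ} (h : ∀ w, ‖w - x‖ < s → f w = g w) :
    mol s f x = mol s g x := by
  refine integral_congr_ae (ae_of_all _ fun y => ?_)
  rcases le_or_gt s ‖y‖ with h1 | h1
  · simp only [etas_zero hs h1, zero_mul]
  · simp only [h (x - y) (by simpa using h1)]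

theorem mol_eq_zero {s r : ℝ} (hs : 0 < s) {f : ℂ → ℂ} (hf : ∀ y, r < ‖y‖ → f y = 0) (x : ℂ)
    (hx : r + s ≤ ‖x‖) : mol s f x = 0 := by
  rw [mol_congr hs (g := fun _ => 0) fun w hw => hf w ?_, mol_const hs]
  linarith [norm_sub_norm_le x w, norm_sub_rev x w]

theorem norm_mol_le {s B : ℝ} (hs : 0 < s) {f : ℂ → ℂ} {x : ℂ} (h : ∀ w, ‖w - x‖ < s → ‖f w‖ ≤ B) :
    ‖mol s f x‖ ≤ B := by
  have h1 : ∫ y, ‖etas s y‖ * B = B := by rw [integral_mul_const, integral_norm_etas hs, one_mul]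
  rw [← h1]
  refine norm_integral_le_of_norm_le ((integrable_etas hs).norm.mul_const _) (ae_of_all _ fun y => ?_)
  rcases le_or_gt s ‖y‖ with h2 | h2
  · simp only [etas_zero hs h2, zero_mul, norm_zero, le_refl]
  · rw [norm_mul]
    exact mul_le_mul_of_nonneg_left (h _ (by simpa using h2)) (norm_nonneg _)

theorem norm_mol_sub_le {s B : ℝ} (hs : 0 < s) {f : ℂ → ℂ} (hf : LocallyIntegrable f) {x c : ℂ}
    (h : ∀ w, ‖w - x‖ < s → ‖f w - c‖ ≤ B) : ‖mol s f x - c‖ ≤ B := by
  rw [← mol_const hs c x, ← mol_sub hs hf (locallyIntegrable_const c)]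
  exact norm_mol_le hs h

/-- mollification commutes with the derivative of a `C¹` function -/
theorem fderiv_mol {s : ℝ} (hs : 0 < s) {f : ℂ → ℂ} (hf : ContDiff ℝ 1 f) (x v : ℂ) :
    fderiv ℝ (mol s f) x v = mol s (fun y => fderiv ℝ f y v) x := by
  have hc : Continuous (fderiv ℝ f) := hf.continuous_fderiv one_ne_zero
  obtain ⟨B, hB⟩ := (isCompact_closedBall x (s + 1)).exists_bound_of_continuousOn hc.continuousOn
  have hd : HasFDerivAt (mol s f) (∫ y, etas s y • fderiv ℝ f (x - y)) x := by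
    refine hasFDerivAt_integral_of_dominated_of_fderiv_le (s := Metric.ball x 1)
      (F' := fun z y => etas s y • fderiv ℝ f (z - y)) (bound := fun y => ‖etas s y‖ * B)
      (Metric.ball_mem_nhds x one_pos) (Eventually.of_forall fun z => ?_)
      (integrable_mol hs hf.continuous.locallyIntegrable x) ?_ (ae_of_all _ fun y z hz => ?_)
      ((integrable_etas hs).norm.mul_const _) (ae_of_all _ fun y z _ => ?_)
    · exact (integrable_mol hs hf.continuous.locallyIntegrable z).aestronglyMeasurable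
    · exact ((etas_continuous s).smul (hc.comp (continuous_const.sub continuous_id))).aestronglyMeasurable
    · rcases le_or_gt s ‖y‖ with h2 | h2
      · simp only [etas_zero hs h2, zero_smul, norm_zero, zero_mul, le_refl]
      · rw [norm_smul]
        refine mul_le_mul_of_nonneg_left (hB _ ?_) (norm_nonneg _)
        rw [Metric.mem_ball, dist_eq_norm] at hz
        rw [Metric.mem_closedBall, dist_eq_norm, sub_right_comm]
        linarith [norm_sub_le (z - x) y]
    · have h1 : HasFDerivAt (fun z => f (z - y)) (fderiv ℝ f (z - y)) z :=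
        (((hf.differentiable one_ne_zero) (z - y)).hasFDerivAt.comp z
          ((hasFDerivAt_id z).sub_const y)).congr_fderiv (ContinuousLinearMap.comp_id _)
      exact h1.const_mul (etas s y)
  have hi : Integrable fun y => etas s y • fderiv ℝ f (x - y) :=
    ((etas_continuous s).smul (hc.comp (continuous_const.sub continuous_id))).integrable_of_hasCompactSupport
      (etas_supp hs).smul_right
  rw [hd.fderiv, ContinuousLinearMap.integral_apply hi]
  rfl

theorem dz_mol {s : ℝ} (hs : 0 < s) {f : ℂ → ℂ} (hf : ContDiff ℝ 1 f) (x : ℂ) :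
    dz (mol s f) x = mol s (dz f) x := by
  have hc : ∀ v : ℂ, LocallyIntegrable fun y => fderiv ℝ f y v := fun v =>
    ((hf.continuous_fderiv one_ne_zero).clm_apply continuous_const).locallyIntegrable
  have e : dz f = fun y => 2⁻¹ * (fderiv ℝ f y 1 - Complex.I * fderiv ℝ f y Complex.I) := by
    funext y; rw [dz]; ring
  have hc' : LocallyIntegrable fun y => Complex.I * fderiv ℝ f y Complex.I :=
    (continuous_const.mul ((hf.continuous_fderiv one_ne_zero).clm_apply
      continuous_const)).locallyIntegrable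
  rw [e, mol_const_mul, mol_sub hs (hc 1) hc', mol_const_mul, dz, fderiv_mol hs hf, fderiv_mol hs hf]
  ring

theorem dzb_mol {s : ℝ} (hs : 0 < s) {f : ℂ → ℂ} (hf : ContDiff ℝ 1 f) (x : ℂ) :
    dzb (mol s f) x = mol s (dzb f) x := by
  have hc : ∀ v : ℂ, LocallyIntegrable fun y => fderiv ℝ f y v := fun v =>
    ((hf.continuous_fderiv one_ne_zero).clm_apply continuous_const).locallyIntegrable
  have e : dzb f = fun y => 2⁻¹ * (fderiv ℝ f y 1 + Complex.I * fderiv ℝ f y Complex.I) := by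
    funext y; rw [dzb]; ring
  have hc' : LocallyIntegrable fun y => Complex.I * fderiv ℝ f y Complex.I :=
    (continuous_const.mul ((hf.continuous_fderiv one_ne_zero).clm_apply
      continuous_const)).locallyIntegrable
  rw [e, mol_const_mul, mol_add hs (hc 1) hc', mol_const_mul, dzb, fderiv_mol hs hf, fderiv_mol hs hf]
  ring

theorem conv_iter_le (f : ℂ → ℂ) (hf : Integrable f) (B : ℝ) (k : ℕ) :
    ∀ (E : Type) [NormedAddCommGroup E] [NormedSpace ℝ E] (F : Type) [NormedAddCommGroup F]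
      [NormedSpace ℝ F] (L : ℂ →L[ℝ] E →L[ℝ] F) (g : ℂ → E), ContDiff ℝ ∞ g → HasCompactSupport g →
      (∀ y, ‖iteratedFDeriv ℝ k g y‖ ≤ B) →
      ∀ y, ‖iteratedFDeriv ℝ k (convolution f g L volume) y‖ ≤ ‖L‖ * B * ∫ w, ‖f w‖ := by
  induction k with
  | zero =>
    intro E _ _ F _ _ L g _ _ hB y
    simp only [norm_iteratedFDeriv_zero] at hB ⊢
    rw [← integral_const_mul]
    refine norm_integral_le_of_norm_le (hf.norm.const_mul _) (ae_of_all _ fun w => ?_)
    rw [mul_right_comm]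
    exact (L.le_opNorm₂ _ _).trans (mul_le_mul_of_nonneg_left (hB _) (by positivity))
  | succ k ih =>
    intro E _ _ F _ _ L g hg hc hB y
    have e : fderiv ℝ (convolution f g L volume) = convolution f (fderiv ℝ g) (L.precompR ℂ) volume :=
      funext fun x =>
        (hc.hasFDerivAt_convolution_right L hf.locallyIntegrable (hg.of_le (by simp)) x).fderiv
    rw [← norm_iteratedFDeriv_fderiv, e]
    refine (ih _ _ _ _ (hg.fderiv_right (m := ∞) le_rfl) (hc.fderiv ℝ)
      (fun y => by rw [norm_iteratedFDeriv_fderiv]; exact hB y) y).trans ?_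
    exact mul_le_mul_of_nonneg_right (mul_le_mul_of_nonneg_right (L.norm_precompR_le ℂ)
      ((norm_nonneg _).trans (hB y))) (integral_nonneg fun _ => norm_nonneg _)

/-- derivatives of a mollified integrable function -/
theorem nD_mol_le_global {s B : ℝ} {k : ℕ} (hs : 0 < s) (hB : ∀ y, nD k (etas s) y ≤ B) {f : ℂ → ℂ}
    (hf : Integrable f) (x : ℂ) : nD k (mol s f) x ≤ B * ∫ w, ‖f w‖ := by
  have e : mol s f = convolution f (etas s) (ContinuousLinearMap.mul ℝ ℂ) volume := by
    funext y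
    rw [mol_eq_swap]
    simp only [convolution, ContinuousLinearMap.mul_apply', mul_comm]
  rw [e]
  refine (conv_iter_le f hf B k _ _ _ _ (etas_smooth s) (etas_supp hs) hB x).trans ?_
  refine mul_le_mul_of_nonneg_right ?_ (integral_nonneg fun _ => norm_nonneg _)
  exact mul_le_of_le_one_left ((nD_nonneg _ _ _).trans (hB 0)) (ContinuousLinearMap.opNorm_mul_le ℝ ℂ)

/-- derivatives of a mollified function are bounded by a local `L¹` norm -/
theorem nD_mol_le_local {s r B : ℝ} {k : ℕ} (hs : 0 < s) (hr : s < r) (hB : ∀ y, nD k (etas s) y ≤ B)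
    {f : ℂ → ℂ} (hf : LocallyIntegrable f) (x : ℂ) :
    nD k (mol s f) x ≤ B * ∫ w in Metric.closedBall x r, ‖f w‖ := by
  have hm : MeasurableSet (Metric.closedBall x r) := measurableSet_closedBall
  have hi : Integrable ((Metric.closedBall x r).indicator f) :=
    (integrable_indicator_iff hm).2 (hf.integrableOn_isCompact (isCompact_closedBall x r))
  have e : mol s f =ᶠ[𝓝 x] mol s ((Metric.closedBall x r).indicator f) := by
    filter_upwards [Metric.ball_mem_nhds x (sub_pos.2 hr)] with z hz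
    refine mol_congr hs fun w hw => (indicator_of_mem ?_ f).symm
    rw [Metric.mem_ball, dist_eq_norm] at hz
    rw [Metric.mem_closedBall, dist_eq_norm]
    linarith [norm_sub_le_norm_sub_add_norm_sub w z x]
  rw [nD_congr e]
  refine (nD_mol_le_global hs hB hi x).trans (le_of_eq ?_)
  simp only [norm_indicator_eq_indicator_norm]
  rw [integral_indicator hm]

/-- packaged form of the local bound -/
theorem mol_bound (N : ℕ) : ∃ C : ℝ, 1 ≤ C ∧ ∀ s : ℝ, 0 < s → ∀ k ≤ N, ∀ f : ℂ → ℂ,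
    LocallyIntegrable f → ∀ x : ℂ,
      nD k (mol s f) x ≤ C / s ^ (2 + k) * ∫ w in Metric.closedBall x (2 * s), ‖f w‖ := by
  obtain ⟨C, C1, hC⟩ := etas_bound N
  exact ⟨C, C1, fun s hs k hk f hf x => nD_mol_le_local hs (by linarith) (hC s hs k hk).1 hf x⟩

/-- derivatives of a mollified function that is within `A` of a constant on the double disc -/
theorem mol_bound_sup (N : ℕ) : ∃ C : ℝ, 1 ≤ C ∧ ∀ s : ℝ, 0 < s → ∀ k ≤ N, ∀ f : ℂ → ℂ,
    LocallyIntegrable f → ∀ (x : ℂ) (A : ℝ), (∀ w, ‖w - x‖ ≤ 2 * s → ‖f w‖ ≤ A) →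
      nD k (mol s f) x ≤ C * A / s ^ k := by
  obtain ⟨C, C1, hC⟩ := mol_bound N
  refine ⟨16 * C, by linarith, fun s hs k hk f hf x A hA => (hC s hs k hk f hf x).trans ?_⟩
  have A0 : 0 ≤ A := (norm_nonneg _).trans (hA x (by simp; positivity))
  have h1 : ‖∫ w in Metric.closedBall x (2 * s), ‖f w‖‖ ≤ A * volume.real (Metric.closedBall x (2 * s)) :=
    norm_setIntegral_le_of_norm_le_const measure_closedBall_lt_top fun w hw => by
      rw [norm_norm]; exact hA w (by rwa [Metric.mem_closedBall, dist_eq_norm] at hw)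
  have h2 : volume.real (Metric.closedBall x (2 * s)) ≤ 16 * s ^ 2 := by
    rw [Measure.real, Complex.volume_closedBall, ENNReal.toReal_mul, ENNReal.toReal_pow,
      ENNReal.toReal_ofReal (by positivity), ENNReal.coe_toReal, NNReal.coe_real_pi]
    nlinarith [Real.pi_le_four, sq_nonneg s]
  calc _ ≤ C / s ^ (2 + k) * (A * (16 * s ^ 2)) :=
        mul_le_mul_of_nonneg_left (((le_abs_self _).trans h1).trans
          (mul_le_mul_of_nonneg_left h2 A0)) (by positivity)
    _ = _ := by rw [pow_add]; field_simp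

/-! ### scalar functions -/

theorem actf_continuous (c T : ℝ) : Continuous (actf c T) := by unfold actf; fun_prop

theorem actf_nonneg (c T t : ℝ) : 0 ≤ actf c T t := le_max_left _ _

theorem actf_le_one (c T t : ℝ) : actf c T t ≤ 1 := max_le zero_le_one (min_le_left _ _)

theorem actf_one {c T t : ℝ} (hT : 0 < T) (h : |t - c| ≤ T) : actf c T t = 1 := by
  have : |t - c| / T ≤ 1 := (div_le_one hT).2 h
  rw [actf, min_eq_left (by linarith), max_eq_right zero_le_one]

theorem actf_zero {c T t : ℝ} (hT : 0 < T) (h : 2 * T ≤ |t - c|) : actf c T t = 0 := by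
  have : 2 ≤ |t - c| / T := (le_div_iff₀ hT).2 h
  exact max_eq_left ((min_le_right _ _).trans (by linarith))

theorem actf_ne_zero {c T t : ℝ} (hT : 0 < T) (h : actf c T t ≠ 0) : |t - c| ≤ 2 * T :=
  (not_le.1 fun h1 => h (actf_zero hT h1)).le

theorem tau_nonneg (k : ℕ) {r : ℝ} (hr : 0 < r) (s : ℝ) : 0 ≤ tau k r s :=
  pow_nonneg (div_nonneg hr.le (hr.le.trans (le_max_left _ _))) _

theorem tau_pos (k : ℕ) {r : ℝ} (hr : 0 < r) (s : ℝ) : 0 < tau k r s :=
  pow_pos (div_pos hr (hr.trans_le (le_max_left _ _))) _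

theorem tau_le_one (k : ℕ) {r : ℝ} (hr : 0 < r) (s : ℝ) : tau k r s ≤ 1 :=
  pow_le_one₀ (div_nonneg hr.le (hr.le.trans (le_max_left _ _)))
    ((div_le_one (hr.trans_le (le_max_left _ _))).2 (le_max_left _ _))

theorem tau_of_le (k : ℕ) {r s : ℝ} (hr : 0 < r) (h : s ≤ r) : tau k r s = 1 := by
  rw [tau, max_eq_left h, div_self hr.ne', one_pow]

theorem tau_of_ge (k : ℕ) {r s : ℝ} (h : r ≤ s) : tau k r s = (r / s) ^ k := by
  rw [tau, max_eq_right h]

theorem tau_anti (k : ℕ) {r s s' : ℝ} (hr : 0 < r) (h : s ≤ s') : tau k r s' ≤ tau k r s :=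
  pow_le_pow_left₀ (div_nonneg hr.le (hr.le.trans (le_max_left _ _)))
    (div_le_div_of_nonneg_left hr.le (hr.trans_le (le_max_left _ _)) (max_le_max le_rfl h)) _

theorem tau_anti_exp {k j : ℕ} (h : j ≤ k) {r : ℝ} (hr : 0 < r) (s : ℝ) : tau k r s ≤ tau j r s :=
  pow_le_pow_of_le_one (div_nonneg hr.le (hr.le.trans (le_max_left _ _)))
    ((div_le_one (hr.trans_le (le_max_left _ _))).2 (le_max_left _ _)) h

theorem tau_mono_rad (k : ℕ) {r r' : ℝ} (hr : 0 < r) (h : r ≤ r') (s : ℝ) : tau k r s ≤ tau k r' s := by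
  refine pow_le_pow_left₀ (div_nonneg hr.le (hr.le.trans (le_max_left _ _))) ?_ _
  have hr' := hr.trans_le h
  rw [div_le_div_iff₀ (hr.trans_le (le_max_left _ _)) (hr'.trans_le (le_max_left _ _)),
    mul_max_of_nonneg _ _ hr.le, mul_max_of_nonneg _ _ hr'.le, mul_comm r r']
  rcases le_total s 0 with h0 | h0
  · exact max_le (le_max_left _ _) ((by nlinarith : r * s ≤ r' * r).trans (le_max_left _ _))
  · exact max_le_max le_rfl (mul_le_mul_of_nonneg_right h h0)

/-- general shift rule -/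
theorem tau_shift_mul (k : ℕ) {r s s' c : ℝ} (hr : 0 < r) (hc : 0 ≤ c) (h : s ≤ s' + c * r) :
    tau k r s' ≤ (1 + c) ^ k * tau k r s := by
  rw [tau, tau, ← mul_pow]
  refine pow_le_pow_left₀ (div_nonneg hr.le (hr.le.trans (le_max_left _ _))) ?_ _
  have h1 := le_max_left r s'
  have h2 := le_max_right r s'
  have h3 : max r s ≤ (1 + c) * max r s' := max_le (by nlinarith) (by nlinarith)
  rw [mul_div_assoc', div_le_div_iff₀ (hr.trans_le h1) (hr.trans_le (le_max_left _ _))]
  nlinarith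

theorem tau_shift (k : ℕ) {r s s' : ℝ} (hr : 0 < r) (h : s ≤ s' + r) :
    tau k r s' ≤ 2 ^ k * tau k r s := by
  have := tau_shift_mul k hr zero_le_one (s := s) (s' := s') (by linarith)
  rwa [one_add_one_eq_two] at this

theorem tau_continuous (k : ℕ) {r : ℝ} (hr : 0 < r) : Continuous (tau k r) :=
  (continuous_const.div (continuous_const.max continuous_id)
    fun _ => (hr.trans_le (le_max_left _ _)).ne').pow _

theorem one_le_lg (r : ℝ) : 1 ≤ lg r := le_add_of_nonneg_right (abs_nonneg _)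

theorem lg_pos (r : ℝ) : 0 < lg r := one_pos.trans_le (one_le_lg r)

theorem lg_of_le_one {r : ℝ} (hr : 0 ≤ r) (h : r ≤ 1) : lg r = 1 - Real.log r := by
  rw [lg, abs_of_nonpos (Real.log_nonpos hr h), sub_eq_add_neg]

theorem lg_anti {r s : ℝ} (hr : 0 < r) (h : r ≤ s) (h1 : s ≤ 1) : lg s ≤ lg r := by
  rw [lg_of_le_one hr.le (h.trans h1), lg_of_le_one (hr.le.trans h) h1]
  linarith [Real.log_le_log hr h]

theorem norm_ex (a : ℝ) : ‖ex a‖ = 1 := Complex.norm_exp_ofReal_mul_I a

theorem ex_zero : ex 0 = 1 := by simp [ex]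

theorem ex_add (a b : ℝ) : ex (a + b) = ex a * ex b := by
  rw [ex, ex, ex, ← Complex.exp_add, Complex.ofReal_add, add_mul]

theorem ex_ne_zero (a : ℝ) : ex a ≠ 0 := Complex.exp_ne_zero _

theorem ex_neg (a : ℝ) : ex (-a) = (ex a)⁻¹ := by
  rw [ex, ex, ← Complex.exp_neg, Complex.ofReal_neg, neg_mul]

theorem conj_ex (a : ℝ) : (starRingEnd ℂ) (ex a) = ex (-a) := by
  rw [ex, ex, ← Complex.exp_conj, map_mul, Complex.conj_ofReal, Complex.conj_I, Complex.ofReal_neg,
    neg_mul, mul_neg]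

theorem ex_mul_neg (a : ℝ) : ex a * ex (-a) = 1 := by rw [← ex_add, add_neg_cancel, ex_zero]

theorem ex_two_mul (a : ℝ) : ex (2 * a) = ex a ^ 2 := by rw [two_mul, ex_add, sq]

theorem ex_smooth : ContDiff ℝ ∞ ex := (Complex.ofRealCLM.contDiff.mul contDiff_const).cexp

theorem ex_continuous : Continuous ex := ex_smooth.continuous

theorem hasDerivAt_ex {φ : ℝ → ℝ} {φ' t : ℝ} (h : HasDerivAt φ φ' t) :
    HasDerivAt (fun s => ex (φ s)) (ex (φ t) * ((φ' : ℂ) * Complex.I)) t :=
  (h.ofReal_comp.mul_const Complex.I).cexp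

end

end Pool.Agent.Lib.EUL
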