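import Pool.Agent.Lib.EUL.Blue

set_option autoImplicit false

namespace Pool.Agent.Lib.EUL

open MeasureTheory Set Filter Topology
open scoped ContDiff Classical

noncomputable section

namespace C13

theorem pn_neg_le (z : ℂ) : pn z ≤ pn (-z) := by
  unfold pn
  refine (Metric.le_infDist (range_nonempty lat)).2 ?_
  rintro _ ⟨n, rfl⟩
  have h : dist (-z) (lat n) = dist z (lat (-n)) := by
    have h1 : lat (-n) = -lat n := by
      simp only [lat, Prod.fst_neg, Prod.snd_neg, Int.cast_neg]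
      ring
    rw [h1, ← dist_neg_neg, neg_neg]
  rw [h]
  exact Metric.infDist_le_dist_of_mem ⟨-n, rfl⟩

theorem cst_mono {l c c' : ℝ} {f : ℂ → ℂ} (h : Cst l f c) (hl : 0 < l) (hc : c ≤ c') :
    Cst l f c' := by
  refine ⟨h.1.trans hc, fun y => (h.2 y).trans ?_⟩
  have h1 : 0 < l ^ al := Real.rpow_pos_of_pos hl _
  have h2 : 0 ≤ ‖y‖ ^ al := Real.rpow_nonneg (norm_nonneg _) _
  gcongr

theorem iq_half {f g : ℂ → ℂ} (h : ∀ x, g x = f x / 2) :
    IQ (fun x => ‖g x‖) ≤ IQ (fun x => ‖f x‖) := by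
  have h1 : ∀ x, ‖g x‖ = ‖f x‖ / 2 := fun x => by rw [h, norm_div, Complex.norm_ofNat]
  have h2 : 0 ≤ IQ (fun x => ‖f x‖) := integral_nonneg fun x => norm_nonneg _
  unfold IQ at h2 ⊢
  simp only [h1]
  rw [integral_div]
  linarith

theorem cst_half {l c : ℝ} {f : ℂ → ℂ} (h : Cst l f c) : Cst l (fun y => f y / 2) c :=
  ⟨(iq_half fun _ => rfl).trans h.1, fun y => (iq_half fun x => by ring).trans (h.2 y)⟩

theorem mult_mono {ι : Type} [Fintype ι] {P Q : ι → Prop} {p : ι → ℂ} {r r' M : ℝ}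
    (h : Mult P p r M) (hQ : ∀ i, Q i → P i) (hr : r' ≤ r) : Mult Q p r' M := by
  intro y
  refine le_trans ?_ (h y)
  exact_mod_cast Finset.card_le_card fun i hi => by
    rw [Finset.mem_filter] at hi ⊢
    exact ⟨hi.1, hQ i hi.2.1, hi.2.2.trans hr⟩

theorem sp_sm {f : ℝ → ℂ → ℂ} (h : SP f) (t : ℝ) : ContDiff ℝ ∞ (f t) :=
  h.1.comp (contDiff_const.prodMk contDiff_id)

theorem supp_mono {W : ℂ → ℂ} {p : ℂ} {r r' : ℝ} (h : Supp W p r) (hr : r ≤ r') : Supp W p r' :=
  fun y hy => h y (hr.trans_lt hy)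

theorem lg_one (r : ℝ) : 1 ≤ lg r := le_add_of_nonneg_right (abs_nonneg _)

theorem lg_anti {r s : ℝ} (hr : 0 < r) (h : r ≤ s) (h1 : s ≤ 1) : lg s ≤ lg r := by
  unfold lg
  rw [abs_of_nonpos (Real.log_nonpos (hr.le.trans h) h1),
    abs_of_nonpos (Real.log_nonpos hr.le (h.trans h1))]
  linarith [Real.log_le_log hr h]

theorem env_dom {W : ℂ → ℂ} {p : ℂ} {c r : ℝ} (h : Env W p c r) (hr : 0 < r) :
    Dom 2 W p c r r := by
  intro j hj y
  have h1 := h j hj y
  have h2 : r ≤ max r (pn (y - p)) := le_max_left _ _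
  unfold tau
  generalize max r (pn (y - p)) = m at h1 h2
  have hm : 0 < m := hr.trans_le h2
  calc r ^ j * nD j W y ≤ m ^ j * (c * r ^ 2 / m ^ (2 + j)) := by
        have : 0 ≤ nD j W y := norm_nonneg _
        gcongr
    _ = c * (r / m) ^ 2 := by
        rw [pow_add]
        field_simp

theorem env_zero {W : ℂ → ℂ} (h : ∀ y, W y = 0) (p : ℂ) (r : ℝ) : Env W p 0 r := by
  intro j _ y
  have h1 : W = fun _ => 0 := funext h
  rw [h1, zero_mul, zero_div]
  unfold nD
  rw [iteratedFDeriv_fun_zero]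
  simp

theorem sqrt_le {x R a : ℝ} (ha : 0 ≤ a) (h : x ≤ a ^ 2 * R) : √x ≤ a * √R := by
  refine (Real.sqrt_le_sqrt h).trans (le_of_eq ?_)
  rw [Real.sqrt_mul (sq_nonneg a), Real.sqrt_sq ha]

end C13

open C13 in
theorem st_C13 (hN : St_NMAJ) (hC : St_CORE) (hF : St_FF) (hP : St_PAIR) : St_C13 := by
  obtain ⟨C0, hC0, hN⟩ := hN
  obtain ⟨C1, hC1, hC⟩ := hC
  obtain ⟨C2, hC2, hF⟩ := hF
  obtain ⟨C3, hC3, hP⟩ := hP
  refine ⟨C0 + 4 + C1 * C2 + C1 * C3, by nlinarith, ?_⟩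
  intro P v q V ι _ o a b β _ B hO hD hB t
  have hL := lg_one P.rho
  have hbig := hO.big
  have p12 : 0 ≤ C1 * C2 * lg P.rho := by positivity
  have p13 : 0 ≤ C1 * C3 * lg P.rho := by positivity
  have p0 : 0 ≤ C0 * lg P.rho := by positivity
  have g0 : C0 * lg P.rho ≤ P.G := by linarith
  have g4 : 4 ≤ P.G := by linarith
  have g12 : C1 * C2 * lg P.rho ≤ P.G := by linarith
  have g13 : C1 * C3 * lg P.rho ≤ P.G := by linarith
  have g3 : C3 * lg P.rho ≤ P.G := by
    refine le_trans ?_ g13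
    rw [mul_assoc]
    exact le_mul_of_one_le_left (by positivity) hC1
  obtain ⟨⟨g, -, hg⟩, -, hM⟩ := hN P v q ι o a b β B { hO with big := g0 } hB
  have hr := hO.rpos
  have hS := hO.Spos
  have hrD := hO.rD
  have hD0 : 0 < P.D := hr.trans_le hrD
  have hDd : 12 * P.D ≤ P.d := hO.Dd2.trans hO.d2d
  have hdl : 4 * P.d ≤ P.l :=
    (mul_le_mul_of_nonneg_right g4 (by linarith)).trans (hO.dh.trans hO.hl)
  have hl1 := hO.lsmall
  have hl : 0 < P.l := by linarith
  have hG : 0 < P.G := by linarith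
  have hG1 : 1 ≤ P.G := by linarith
  have hLam : 0 ≤ P.Lam := by
    have := hO.n1
    have := hO.thpos
    unfold Par.Lam
    positivity
  have hbt : 0 ≤ P.bt := by
    unfold Par.bt
    positivity
  have hu : ∀ k, 0 ≤ B.u P k := fun k => div_nonneg hLam (hB.Tpos k).le
  have hal : 0 ≤ 2 - al := by norm_num [al]
  have pR : 0 < P.rho ^ al := Real.rpow_pos_of_pos hr _
  have pD : 0 < P.D ^ (2 - al) := Real.rpow_pos_of_pos hD0 _
  have pl : 0 < P.l ^ al := Real.rpow_pos_of_pos hl _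
  have hco := fun i => hC (o i) P.D P.l (hD.good i) (hD.size i).2 (by linarith) (by linarith)
  have hc0 : ∀ i, 0 ≤ C1 * ((o i).a t * (o i).u) := fun i =>
    mul_nonneg (by linarith) (mul_nonneg ((hD.good i).a0 t) (hD.good i).u0)
  have hlg : ∀ i, lg (o i).rho ≤ lg P.rho := fun i =>
    lg_anti hr (hD.size i).1 ((hD.size i).2.trans (by linarith))
  have hMo : Mult (fun i => C1 * ((o i).a t * (o i).u) ≠ 0) (fun i => (o i).x t) P.l P.G :=
    mult_mono (hD.mult t) (fun i hi h => hi (by rw [h, zero_mul, mul_zero])) (by linarith)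
  have hOm : ∑ i, (C1 * ((o i).a t * (o i).u) * (o i).rho ^ (2 - al)) ^ 2 ≤
      C1 ^ 2 * P.D ^ (2 - al) * (P.G ^ 10 * P.S / P.rho ^ al) := by
    refine le_trans ?_ (mul_le_mul_of_nonneg_left (hD.xi t) (by positivity))
    rw [Finset.mul_sum]
    refine Finset.sum_le_sum fun i _ => ?_
    have h1 := (hD.good i).rpos
    have h2 : (o i).rho ^ (2 - al) ≤ P.D ^ (2 - al) := Real.rpow_le_rpow h1.le (hD.size i).2 hal
    have h3 : 0 < (o i).rho ^ (2 - al) := Real.rpow_pos_of_pos h1 _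
    calc (C1 * ((o i).a t * (o i).u) * (o i).rho ^ (2 - al)) ^ 2
        = C1 ^ 2 * (o i).rho ^ (2 - al) * (((o i).a t * (o i).u) ^ 2 * (o i).rho ^ (2 - al)) := by
          ring
      _ ≤ _ := by gcongr
  obtain ⟨c, hc⟩ : ∃ c : β → ℝ, c = fun k => if B.act k t then P.G ^ 2 * B.u P k else 0 := ⟨_, rfl⟩
  have hoff : ∀ k, ¬ B.act k t → ∀ y, B.w k t y = 0 := fun k hk => hB.wts k t fun h => hk (by
    have h1 := hB.life k
    have h2 := hB.Tpos k
    unfold BD.act
    rw [abs_le]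
    constructor <;> linarith [h.1, h.2])
  have hcn : ∀ k, 0 ≤ c k := fun k => by
    have := hu k
    rw [hc]
    simp only []
    split_ifs
    · positivity
    · exact le_rfl
  have henv : ∀ k, Env (B.w k t) (B.x k t) (c k) P.rho := fun k => by
    rw [hc]
    simp only []
    split_ifs with h
    · exact hB.env k t
    · exact env_zero (hoff k h) _ _
  have hMn : Mult (fun k => c k ≠ 0) (fun k => B.x k t) P.l P.G :=
    mult_mono (hM t) (fun k hk => by
      by_contra h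
      exact hk (by rw [hc]; exact if_neg h)) le_rfl
  have hZ : ∑ k, c k ^ 2 ≤ P.G ^ 9 * P.S / P.rho ^ 2 := by
    have h1 := mul_le_mul_of_nonneg_left (hB.sumU t) (pow_pos hG 4).le
    rw [Finset.mul_sum, Finset.sum_filter] at h1
    refine le_trans (le_of_eq (Finset.sum_congr rfl fun k _ => ?_)) (h1.trans (le_of_eq (by ring)))
    rw [hc]
    simp only []
    split_ifs
    · ring
    · ring
  have hw : ∀ k, ContDiff ℝ ∞ (B.w k t) ∧ Peri (B.w k t) ∧ 0 ≤ c k ∧
      Env (B.w k t) (B.x k t) (c k) P.rho ∧ Supp (B.w k t) (B.x k t) (P.l / 2) := fun k =>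
    ⟨sp_sm (hB.wsp k) t, (hB.wsp k).2 t, hcn k, henv k, supp_mono (hB.supp k t) (by linarith)⟩
  have pQ : 0 ≤ √(P.D ^ (2 - al) / P.rho ^ al) := Real.sqrt_nonneg _
  refine ⟨?_, ?_, ?_⟩
  · have h1 := hF ι (fun i => (o i).core P.D t) (fun i => (o i).x t)
      (fun i => C1 * ((o i).a t * (o i).u)) (fun i => (o i).rho) (B.Wb t) (g t) P.l P.d _ P.G
      (lg P.rho) _ (by linarith) (by linarith) hl (by linarith)
      (ContDiff.sum fun k _ => sp_sm (hB.wbsp k) t)
      (fun n z => Finset.sum_congr rfl fun k _ => (hB.wbsp k).2 t n z) (hg t)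
      (fun i => ⟨sp_sm (hco i).1 t, (hco i).1.2 t, hc0 i, (hD.good i).rpos,
        (hD.size i).2.trans (by linarith), hlg i, ((hco i).2 t).2.1,
        supp_mono ((hco i).2 t).1 (by linarith)⟩) hMo hOm
    refine cst_mono h1 hl ?_
    have h2 : √(C1 ^ 2 * P.D ^ (2 - al) * (P.G ^ 10 * P.S / P.rho ^ al) * P.G *
        (P.G ^ 12 * P.bt ^ 2 * P.l ^ 2 * P.S / P.rho ^ 2)) ≤
        C1 * P.G ^ 12 * P.S * P.bt * P.l / P.rho * √(P.D ^ (2 - al) / P.rho ^ al) := by
      refine sqrt_le (by positivity) ?_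
      calc _ = (C1 * P.S * P.bt * P.l / P.rho) ^ 2 * (P.D ^ (2 - al) / P.rho ^ al) * P.G ^ 23 := by
            ring
        _ ≤ (C1 * P.S * P.bt * P.l / P.rho) ^ 2 * (P.D ^ (2 - al) / P.rho ^ al) * P.G ^ 24 := by
            gcongr
            norm_num
        _ = _ := by ring
    calc _ ≤ C2 * lg P.rho * P.l ^ al * (C1 * P.G ^ 12 * P.S * P.bt * P.l / P.rho *
          √(P.D ^ (2 - al) / P.rho ^ al)) / P.l := by gcongr
      _ = P.S * (C1 * C2 * lg P.rho * P.G ^ 12) *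
          (P.bt * P.l ^ al * √(P.D ^ (2 - al) / P.rho ^ al) / P.rho) := by field_simp
      _ ≤ P.S * (P.G * P.G ^ 14) *
          (P.bt * P.l ^ al * √(P.D ^ (2 - al) / P.rho ^ al) / P.rho) := by
          gcongr
          norm_num
      _ = _ := by ring
  · have h1 := hP ι β (fun i => (o i).core P.D t) (fun i => (o i).x t)
      (fun i => C1 * ((o i).a t * (o i).u)) (fun i => (o i).rho) (fun k => B.w k t)
      (fun k => B.x k t) c Finset.univ P.l P.D P.rho (2 * P.D) P.G (lg P.rho) _ _ hr hrD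
      (by linarith) (by linarith) (by linarith) le_rfl
      (fun i => ⟨sp_sm (hco i).1 t, (hco i).1.2 t, hc0 i, (hD.good i).rpos,
        (hD.size i).2, hlg i, ((hco i).2 t).2.1, ((hco i).2 t).1⟩) hw (Or.inl le_rfl)
      (fun p _ => by
        by_cases h1 : t ∈ Icc (o p.1).s (o p.1).e
        · by_cases h2 : t ∈ Icc (B.s p.2) (B.e p.2)
          · refine Or.inr (Or.inr (((hB.sepO p.2 p.1 t h2 h1).trans (pn_neg_le _)).trans ?_))
            rw [neg_sub]
          · exact Or.inr (Or.inl (hB.wts p.2 t h2))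
        · refine Or.inl fun y => ?_
          unfold Ob.core
          rw [(hD.good p.1).Wts t h1 y, mul_zero]) hMo hMn hOm hZ
    have e1 : (fun y => Core o P.D t y * B.W t y) =
        fun y => ∑ p : ι × β, (o p.1).core P.D t y * B.w p.2 t y := by
      funext y
      unfold Core BD.W
      rw [Finset.sum_mul_sum, Fintype.sum_prod_type]
    rw [e1]
    refine cst_mono h1 hl ?_
    have h2 : √(C1 ^ 2 * P.D ^ (2 - al) * (P.G ^ 10 * P.S / P.rho ^ al) *
        (P.G ^ 9 * P.S / P.rho ^ 2)) ≤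
        C1 * P.G ^ 10 * P.S / P.rho * √(P.D ^ (2 - al) / P.rho ^ al) := by
      refine sqrt_le (by positivity) ?_
      calc _ = (C1 * P.S / P.rho) ^ 2 * (P.D ^ (2 - al) / P.rho ^ al) * P.G ^ 19 := by ring
        _ ≤ (C1 * P.S / P.rho) ^ 2 * (P.D ^ (2 - al) / P.rho ^ al) * P.G ^ 20 := by
            gcongr
            norm_num
        _ = _ := by ring
    calc _ ≤ C3 * lg P.rho * P.G * (P.rho / P.D) ^ 2 * P.l ^ al *
          (C1 * P.G ^ 10 * P.S / P.rho * √(P.D ^ (2 - al) / P.rho ^ al)) := by gcongr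
      _ = P.S * (C1 * C3 * lg P.rho * P.G ^ 11) *
          (P.rho / P.D ^ 2 * P.l ^ al * √(P.D ^ (2 - al) / P.rho ^ al)) := by field_simp
      _ ≤ P.S * (P.G * P.G ^ 14) *
          (P.rho / P.D ^ 2 * P.l ^ al * √(P.D ^ (2 - al) / P.rho ^ al)) := by
          gcongr
          norm_num
      _ = _ := by ring
  · have pr : 0 < P.rho ^ (2 - al) := Real.rpow_pos_of_pos hr _
    have hOm' : ∑ k, (c k * P.rho ^ (2 - al)) ^ 2 ≤
        P.G ^ 9 * P.S / P.rho ^ 2 * (P.rho ^ (2 - al)) ^ 2 := by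
      simp only [mul_pow]
      rw [← Finset.sum_mul]
      exact mul_le_mul_of_nonneg_right hZ (sq_nonneg _)
    have h1 := hP β β (fun k => B.w k t) (fun k => B.x k t) c (fun _ => P.rho) (fun k => B.w k t)
      (fun k => B.x k t) c Finset.univ.offDiag P.l P.D P.rho (P.l / 2) P.G (lg P.rho) _ _ hr hrD
      (by linarith) (by linarith) le_rfl le_rfl
      (fun k => ⟨(hw k).1, (hw k).2.1, hcn k, hr, hrD, le_rfl, env_dom (henv k) hr,
        (hw k).2.2.2.2⟩) hw (Or.inr fun _ => rfl)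
      (fun p hp => by
        by_cases h1 : t ∈ Icc (B.s p.1) (B.e p.1)
        · by_cases h2 : t ∈ Icc (B.s p.2) (B.e p.2)
          · exact Or.inr (Or.inr (hB.sepN p.1 p.2 t (Finset.mem_offDiag.1 hp).2.2 h1 h2))
          · exact Or.inr (Or.inl (hB.wts p.2 t h2))
        · exact Or.inl (hB.wts p.1 t h1)) hMn hMn hOm' hZ
    have e1 : (fun y => (B.W t y ^ 2 - ∑ i, B.w i t y ^ 2) / 2) =
        fun y => (∑ p ∈ Finset.univ.offDiag, B.w p.1 t y * B.w p.2 t y) / 2 := by
      funext y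
      unfold BD.W
      rw [sq, Finset.sum_mul_sum, ← Finset.sum_product', ← Finset.diag_union_offDiag,
        Finset.sum_union (Finset.disjoint_diag_offDiag _), Finset.sum_diag]
      simp only [sq]
      ring
    rw [e1]
    refine cst_mono (cst_half h1) hl ?_
    have h3 : P.rho ^ (2 - al) = P.rho ^ 2 / P.rho ^ al := by
      rw [Real.rpow_sub hr, Real.rpow_two]
    have h2 : √(P.G ^ 9 * P.S / P.rho ^ 2 * (P.rho ^ (2 - al)) ^ 2 * (P.G ^ 9 * P.S / P.rho ^ 2)) =
        P.G ^ 9 * P.S / P.rho ^ al := by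
      rw [Real.sqrt_eq_iff_mul_self_eq (by positivity) (by positivity), h3]
      field_simp
    rw [h2, Real.div_rpow hl.le hr.le]
    calc _ = P.S * (C3 * lg P.rho * P.G ^ 10) *
          ((P.rho / P.D) ^ 2 * (P.l ^ al / P.rho ^ al)) := by ring
      _ ≤ P.S * (P.G * P.G ^ 14) * ((P.rho / P.D) ^ 2 * (P.l ^ al / P.rho ^ al)) := by
          gcongr
          norm_num
      _ = _ := by ring

end

end Pool.Agent.Lib.EUL
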