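import Pool.Agent.Lib.EUL.Blue

/-! Costs of the errors made by the new fields. -/

set_option autoImplicit false

namespace Pool.Agent.Lib.EUL

open MeasureTheory Set Filter Topology
open scoped ContDiff Classical

noncomputable section

namespace C78

theorem intg {f : ℂ → ℝ} (hf : Continuous f) : IntegrableOn f cell := by
  refine (hf.continuousOn.integrableOn_compact (isCompact_closedBall (0 : ℂ) 1)).mono_set ?_
  rintro z ⟨⟨h1, h2⟩, h3, h4⟩
  rw [mem_closedBall_zero_iff]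
  refine (Complex.norm_le_abs_re_add_abs_im z).trans ?_
  have a : |z.re| ≤ 1 / 2 := abs_le.2 ⟨by linarith, h2⟩
  have b : |z.im| ≤ 1 / 2 := abs_le.2 ⟨by linarith, h4⟩
  linarith

theorem iq_sum {ι : Type} [Fintype ι] {f : ι → ℂ → ℂ} (hf : ∀ i, Continuous (f i)) :
    IQ (fun x => ‖∑ i, f i x‖) ≤ ∑ i, IQ fun x => ‖f i x‖ := by
  unfold IQ
  rw [← integral_finsetSum _ fun i _ => intg (hf i).norm]
  exact integral_mono (intg (continuous_finsetSum _ fun i _ => hf i).norm)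
    (intg (continuous_finsetSum _ fun i _ => (hf i).norm)) fun x => norm_sum_le _ _

theorem cst_sum {ι : Type} [Fintype ι] {l : ℝ} {f : ι → ℂ → ℂ} {c : ι → ℝ}
    (hf : ∀ i, Continuous (f i)) (h : ∀ i, Cst l (f i) (c i)) :
    Cst l (fun x => ∑ i, f i x) (∑ i, c i) := by
  refine ⟨(iq_sum hf).trans (Finset.sum_le_sum fun i _ => (h i).1), fun y => ?_⟩
  have e : (fun x => ‖∑ i, f i (x + y) + ∑ i, f i (x - y) - 2 * ∑ i, f i x‖) =
      fun x => ‖∑ i, (f i (x + y) + f i (x - y) - 2 * f i x)‖ := by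
    funext x
    rw [Finset.sum_sub_distrib, Finset.sum_add_distrib, Finset.mul_sum]
  rw [e, Finset.sum_div, Finset.sum_mul]
  refine (iq_sum (f := fun i x => f i (x + y) + f i (x - y) - 2 * f i x) fun i => ?_).trans
    (Finset.sum_le_sum fun i _ => (h i).2 y)
  have := hf i
  fun_prop

theorem cst_mono {l c c' : ℝ} {f : ℂ → ℂ} (hl : 0 < l) (h : Cst l f c) (hc : c ≤ c') :
    Cst l f c' :=
  ⟨h.1.trans hc, fun y => (h.2 y).trans (mul_le_mul_of_nonneg_right
    (div_le_div_of_nonneg_right hc (by positivity)) (by positivity))⟩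

theorem cst_zero (l : ℝ) : Cst l (fun _ => 0) 0 := by
  constructor <;> simp [IQ]

theorem mult_mono {ι : Type} [Fintype ι] {P Q : ι → Prop} {p : ι → ℂ} {r r' M : ℝ}
    (h : Mult P p r M) (hPQ : ∀ i, Q i → P i) (hr : r' ≤ r) : Mult Q p r' M := fun y => by
  refine le_trans ?_ (h y)
  refine Nat.cast_le.2 (Finset.card_le_card fun i hi => ?_)
  simp only [Finset.mem_filter, Finset.mem_univ, true_and] at hi ⊢
  exact ⟨hPQ i hi.1, hi.2.trans hr⟩

theorem nD_zero (j : ℕ) (y : ℂ) : nD j (fun _ => 0) y = 0 := by simp [nD]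

theorem sm_at {f : ℝ → ℂ → ℂ} (h : Sm f) (t : ℝ) : ContDiff ℝ ∞ (f t) :=
  h.comp (contDiff_const.prodMk contDiff_id)

theorem one_le_lg (r : ℝ) : 1 ≤ lg r := le_add_of_nonneg_right (abs_nonneg _)

theorem lg_anti {r s : ℝ} (hr : 0 < r) (hrs : r ≤ s) (hs : s ≤ 1) : lg s ≤ lg r := by
  unfold lg
  rw [abs_of_nonpos (Real.log_nonpos (hr.le.trans hrs) hs),
    abs_of_nonpos (Real.log_nonpos hr.le (hrs.trans hs))]
  linarith [Real.log_le_log hr hrs]

theorem dom_env {W : ℂ → ℂ} {p : ℂ} {c r : ℝ} (hr : 0 < r) (hc : 0 ≤ c) (h : Env W p c r) :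
    Dom 2 W p c r r := fun j hj y => by
  have hm : r ≤ max r (pn (y - p)) := le_max_left _ _
  have h0 : 0 < max r (pn (y - p)) := hr.trans_le hm
  refine (mul_le_mul_of_nonneg_left (h j hj y) (by positivity)).trans ?_
  have e : r ^ j * (c * r ^ 2 / max r (pn (y - p)) ^ (2 + j)) =
      c * tau 2 r (pn (y - p)) * (r / max r (pn (y - p))) ^ j := by
    unfold tau
    rw [div_pow, div_pow, pow_add]
    field_simp
  rw [e]
  refine mul_le_of_le_one_right (by unfold tau; positivity) ?_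
  exact pow_le_one₀ (by positivity) (div_le_one_of_le₀ hm h0.le)

theorem sq_sum {β : Type} [Fintype β] (A : β → Prop) (u : β → ℝ) (k : ℝ) :
    ∑ i, (if A i then k * u i else 0) ^ 2 = k ^ 2 * ∑ i ∈ Finset.univ.filter A, u i ^ 2 := by
  rw [Finset.sum_filter, Finset.mul_sum]
  refine Finset.sum_congr rfl fun i _ => ?_
  split_ifs <;> ring

end C78

open C78 in
theorem st_C78 (hN : St_NMAJ) (hSH : St_SHEAR) (hFA : St_FAR) (hSQ : St_SQ) (hFF : St_FF) :
    St_C78 := by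
  obtain ⟨C0, c0, hN⟩ := hN
  obtain ⟨C1, c1, hSH⟩ := hSH
  obtain ⟨C2, c2, hFA⟩ := hFA
  obtain ⟨C3, c3, hSQ⟩ := hSQ
  obtain ⟨C4, c4, hFF⟩ := hFF
  refine ⟨C0 + C1 + C2 + C3 + C4, by linarith, ?_⟩
  intro P v q ι _ o a b β _ B hP hB t
  have r0 := hP.rpos
  have S0 := hP.Spos
  have n1 := hP.n1
  have L1 := one_le_lg P.rho
  have big : ∀ C, C ≤ C0 + C1 + C2 + C3 + C4 → C * lg P.rho ≤ P.G := fun C h =>
    (mul_le_mul_of_nonneg_right h (by linarith)).trans hP.big
  have G4 : 4 ≤ P.G := le_trans (by linarith) (big 4 (by linarith))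
  have G1 : 1 ≤ P.G := by linarith
  have G0 : 0 < P.G := by linarith
  have D0 : 0 < P.D := r0.trans_le hP.rD
  have Dd : P.D ≤ P.d := by linarith [hP.Dd2, hP.d2d]
  have d0 : 0 < P.d := D0.trans_le Dd
  have dl : 4 * P.d ≤ P.l :=
    ((mul_le_mul_of_nonneg_right G4 d0.le).trans hP.dh).trans hP.hl
  have l0 : 0 < P.l := by linarith
  have l4 : P.l ≤ 1 / 4 := by linarith [hP.lsmall]
  have rl : P.rho ≤ P.l := by linarith [hP.rD]
  have h0 : 0 < P.h := lt_of_lt_of_le (by positivity) hP.dh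
  have d20 : 0 < P.d2 := by linarith [hP.Dd2]
  have La0 : 0 < P.Lam := by
    have := hP.thpos
    unfold Par.Lam
    positivity
  have bt0 : 0 < P.bt := by unfold Par.bt; positivity
  have u0 : ∀ i, 0 < B.u P i := fun i => div_pos La0 (hB.Tpos i)
  have gp : ∀ j k : ℕ, j ≤ k → P.G ^ j ≤ P.G ^ k := fun j k h => pow_le_pow_right₀ G1 h
  obtain ⟨⟨g, -, hg⟩, -, hM⟩ := hN P v q ι o a b β B { hP with big := big C0 (by linarith) } hB
  have out : ∀ i, ¬ B.act i t → t ∉ Icc (B.tb i - B.Tb i) (B.tb i + B.Tb i) := fun i h ht => by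
    have := hB.Tpos i
    exact h (abs_le.2 ⟨by linarith [ht.1], by linarith [ht.2]⟩)
  have zw : ∀ i, ¬ B.act i t → B.w i t = fun _ => 0 := fun i h => funext <|
    hB.wts i t fun ht => out i h ⟨(hB.life i).1.trans ht.1, ht.2.trans (hB.life i).2.2⟩
  have zb : ∀ i, ¬ B.act i t → B.wb i t = fun _ => 0 := fun i h => funext (hB.wbts i t (out i h))
  have zE : ∀ i, ¬ B.act i t → B.E i t = fun _ => 0 := fun i h => funext (hB.Ets i t (out i h))
  have sU := hB.sumU t
  set c : β → ℝ := fun i => if B.act i t then P.G ^ 2 * B.u P i else 0 with hc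
  set cb : β → ℝ := fun i => if B.act i t then P.G * P.bt * B.u P i else 0 with hcb
  have cn : ∀ i, 0 ≤ c i := fun i => by
    have := u0 i
    simp only [hc]; split_ifs <;> positivity
  have cbn : ∀ i, 0 ≤ cb i := fun i => by
    have := u0 i
    simp only [hcb]; split_ifs <;> positivity
  have env : ∀ i, Env (B.w i t) (B.x i t) (c i) P.rho := fun i => by
    simp only [hc]
    split_ifs with h
    · exact hB.env i t
    · intro j _ y; rw [zw i h, nD_zero]; simp
  have dom : ∀ i, Dom 3 (B.wb i t) (B.z i t) (cb i) P.l P.d := fun i => by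
    simp only [hcb]
    split_ifs with h
    · exact hB.dom i t
    · intro j _ y; rw [zb i h, nD_zero]; simp
  have sup : ∀ i, Supp (B.w i t) (B.x i t) (P.l / 2) := fun i y hy =>
    hB.supp i t y (by linarith)
  have mx : Mult (fun i => c i ≠ 0) (fun i => B.x i t) P.l P.G :=
    mult_mono (hM t) (fun i hi => by by_contra h; exact hi (if_neg h)) le_rfl
  have mz : Mult (fun i => cb i ≠ 0) (fun i => B.z i t) P.l P.G :=
    mult_mono (hB.mult t) (fun i hi => by by_contra h; exact hi (if_neg h)) (by linarith)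
  have sc : ∑ i, c i ^ 2 ≤ P.G ^ 9 * P.S / P.rho ^ 2 := by
    rw [hc, sq_sum]
    refine (mul_le_mul_of_nonneg_left sU (by positivity)).trans (le_of_eq ?_)
    ring
  have scb : ∑ i, cb i ^ 2 ≤ P.G ^ 7 * P.bt ^ 2 * P.S / P.rho ^ 2 := by
    rw [hcb, sq_sum]
    refine (mul_le_mul_of_nonneg_left sU (by positivity)).trans (le_of_eq ?_)
    ring
  have Vs := sm_at hB.Vsp.1 t
  have Ws : ContDiff ℝ ∞ (B.Wb t) := ContDiff.sum fun i _ => sm_at (hB.wbsp i).1 t
  have Wp : Peri (B.Wb t) := fun n z => Finset.sum_congr rfl fun i _ => (hB.wbsp i).2 t n z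
  refine ⟨?_, ?_, ?_, ?_, ?_⟩
  · set Γ := Gam P.l P.rho P.d P.h P.d2 (2 * P.d2) P.e1 P.f P.Lam with hΓ
    have Γ0 : 0 ≤ Γ := by
      have := hP.e1pos
      have := hP.fpos
      rw [hΓ]
      unfold Gam
      positivity
    refine cst_mono l0 (cst_sum (c := fun i => if B.act i t then
      P.G ^ 5 * P.rho ^ 2 * Γ * B.u P i ^ 2 else 0) (fun i => (sm_at (hB.Esp i).1 t).continuous)
      fun i => ?_) ?_
    · split_ifs with h
      · exact cst_mono l0 (hB.cost i t) (le_of_eq (by ring))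
      · rw [zE i h]; exact cst_zero _
    · rw [← Finset.sum_filter, ← Finset.mul_sum]
      refine (mul_le_mul_of_nonneg_left sU (by positivity)).trans ?_
      have e : P.G ^ 5 * P.rho ^ 2 * Γ * (P.G ^ 5 * P.S / P.rho ^ 2) = P.S * P.G ^ 10 * Γ := by
        field_simp
      rw [e]
      gcongr
      norm_num
  · refine cst_mono l0 (hSH β (fun i => B.w i t) (fun i => B.x i t) c _ (B.g t) P.l P.D (4 * P.Y)
      P.rho P.G _ r0 hP.rD rl l4 Vs (hB.Vsp.2 t) (hB.gm t)
      (fun i => ⟨sm_at (hB.wsp i).1 t, (hB.wsp i).2 t, cn i, env i, sup i⟩) mx sc) ?_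
    have e : √(P.G * (4 * P.Y) * (P.G ^ 9 * P.S / P.rho ^ 2)) =
        2 * P.G ^ 5 * P.S / (P.n * P.rho ^ 2) := by
      rw [Real.sqrt_eq_iff_mul_self_eq (by unfold Par.Y; positivity) (by positivity)]
      unfold Par.Y
      field_simp
      ring
    rw [e]
    have k1 := big C1 (by linarith)
    have k2 : P.G * 2 * P.G ^ 5 ≤ P.G ^ 15 := by
      have := gp 7 15 (by norm_num)
      nlinarith [pow_pos G0 6]
    calc C1 * lg P.rho * (2 * P.G ^ 5 * P.S / (P.n * P.rho ^ 2)) * P.rho ^ 2 *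
          (P.l / P.rho) ^ (al - 1)
        = P.S * (C1 * lg P.rho * 2 * P.G ^ 5) * ((P.l / P.rho) ^ (al - 1) / P.n) := by
          field_simp
      _ ≤ P.S * (P.G * 2 * P.G ^ 5) * ((P.l / P.rho) ^ (al - 1) / P.n) := by gcongr
      _ ≤ _ := by gcongr
  · refine cst_mono l0 (hFA β (fun i => B.wb i t) (fun i => B.z i t) cb _ (B.g t) P.l P.d P.D
      (4 * P.Y) P.G _ D0 Dd (by linarith) l4 Vs (hB.Vsp.2 t) (hB.gm t)
      (fun i => ⟨sm_at (hB.wbsp i).1 t, (hB.wbsp i).2 t, cbn i, dom i⟩) mz scb) ?_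
    have e : √(P.G * (4 * P.Y) * (P.G ^ 7 * P.bt ^ 2 * P.S / P.rho ^ 2)) =
        2 * P.G ^ 4 * P.bt * P.S / (P.n * P.rho ^ 2) := by
      rw [Real.sqrt_eq_iff_mul_self_eq (by unfold Par.Y; positivity) (by positivity)]
      unfold Par.Y
      field_simp
      ring
    rw [e]
    have k1 : C2 * lg P.l ≤ P.G :=
      (mul_le_mul_of_nonneg_left (lg_anti r0 rl (by linarith)) (by linarith)).trans
        (big C2 (by linarith))
    have k2 : P.G * 2 * P.G ^ 4 ≤ P.G ^ 15 := by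
      have := gp 6 15 (by norm_num)
      nlinarith [pow_pos G0 5]
    calc C2 * lg P.l * P.l ^ 2 * (2 * P.G ^ 4 * P.bt * P.S / (P.n * P.rho ^ 2)) * (P.l / P.d) *
          (P.l / P.D) ^ (al - 1)
        = P.S * (C2 * lg P.l * 2 * P.G ^ 4) *
          (P.bt * (P.l / P.rho) ^ 2 / P.n * (P.l / P.d) * (P.l / P.D) ^ (al - 1)) := by
          field_simp
      _ ≤ P.S * (P.G * 2 * P.G ^ 4) *
          (P.bt * (P.l / P.rho) ^ 2 / P.n * (P.l / P.d) * (P.l / P.D) ^ (al - 1)) := by gcongr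
      _ ≤ _ := by gcongr
  · refine cst_mono l0 (hSQ (B.Wb t) (g t) P.l P.d _ d0 (by linarith) Ws Wp (hg t)) ?_
    have k1 : C3 ≤ P.G := le_trans (le_mul_of_one_le_right (by linarith) L1) (big C3 (by linarith))
    have k2 : P.G * P.G ^ 12 ≤ P.G ^ 15 := by
      rw [← pow_succ']; exact gp _ _ (by norm_num)
    calc C3 * (P.G ^ 12 * P.bt ^ 2 * P.l ^ 2 * P.S / P.rho ^ 2) * (P.l / P.d) ^ al
        = P.S * (C3 * P.G ^ 12) * (P.bt ^ 2 * (P.l / P.rho) ^ 2 * (P.l / P.d) ^ al) := by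
          field_simp
      _ ≤ P.S * (P.G * P.G ^ 12) * (P.bt ^ 2 * (P.l / P.rho) ^ 2 * (P.l / P.d) ^ al) := by gcongr
      _ ≤ _ := by gcongr
  · have ra : 0 < P.rho ^ al := by positivity
    have e0 : P.rho ^ (2 - al) = P.rho ^ 2 / P.rho ^ al := by
      rw [Real.rpow_sub r0, Real.rpow_two]
    have so : ∑ i, (c i * P.rho ^ (2 - al)) ^ 2 ≤
        P.G ^ 9 * P.S / P.rho ^ 2 * (P.rho ^ 2 / P.rho ^ al) ^ 2 := by
      simp only [mul_pow]
      rw [← Finset.sum_mul, e0]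
      exact mul_le_mul_of_nonneg_right sc (sq_nonneg _)
    refine cst_mono l0 (hFF β (fun i => B.w i t) (fun i => B.x i t) c (fun _ => P.rho) (B.Wb t)
      (g t) P.l P.d _ P.G (lg P.rho) _ (by linarith) (by linarith) l0 l4 Ws Wp (hg t)
      (fun i => ⟨sm_at (hB.wsp i).1 t, (hB.wsp i).2 t, cn i, r0, hP.rD.trans Dd, le_rfl,
        dom_env r0 (cn i) (env i), sup i⟩) mx so) ?_
    have e : √(P.G ^ 9 * P.S / P.rho ^ 2 * (P.rho ^ 2 / P.rho ^ al) ^ 2 * P.G *
        (P.G ^ 12 * P.bt ^ 2 * P.l ^ 2 * P.S / P.rho ^ 2)) =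
        P.G ^ 11 * P.S * P.bt * P.l / P.rho ^ al := by
      rw [Real.sqrt_eq_iff_mul_self_eq (by positivity) (by positivity)]
      field_simp
    rw [e]
    have k1 := big C4 (by linarith)
    have k2 : P.G * P.G ^ 11 ≤ P.G ^ 15 := by
      rw [← pow_succ']; exact gp _ _ (by norm_num)
    calc C4 * lg P.rho * P.l ^ al * (P.G ^ 11 * P.S * P.bt * P.l / P.rho ^ al) / P.l
        = P.S * (C4 * lg P.rho * P.G ^ 11) * (P.bt * (P.l / P.rho) ^ al) := by
          rw [Real.div_rpow l0.le r0.le]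
          field_simp
      _ ≤ P.S * (P.G * P.G ^ 11) * (P.bt * (P.l / P.rho) ^ al) := by gcongr
      _ ≤ _ := by gcongr

end

end Pool.Agent.Lib.EUL
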