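import Pool.Agent.Lib.EUL.Blue

/-! Block SRC: the localised and mollified stress. -/

namespace Pool.Agent.Lib.EUL

open MeasureTheory Set Filter Topology
open scoped ContDiff Classical

namespace SRC

theorem conv_bd (f : ℂ → ℂ) (hf : Integrable f) (B : ℝ) (k : ℕ) : ∀ (E : Type) [NormedAddCommGroup E]
    [NormedSpace ℝ E] (F : Type) [NormedAddCommGroup F] [NormedSpace ℝ F] (L : ℂ →L[ℝ] E →L[ℝ] F) (g : ℂ → E),
    ContDiff ℝ ∞ g → HasCompactSupport g → (∀ y, ‖iteratedFDeriv ℝ k g y‖ ≤ B) →
    ∀ y, ‖iteratedFDeriv ℝ k (convolution f g L volume) y‖ ≤ ‖L‖ * B * ∫ w, ‖f w‖ := by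
  induction k with
  | zero =>
    intro E _ _ F _ _ L g _ _ hB y
    simp only [norm_iteratedFDeriv_zero] at hB ⊢
    rw [← integral_const_mul]
    refine norm_integral_le_of_norm_le (hf.norm.const_mul _) (ae_of_all _ fun w => ?_)
    rw [mul_right_comm]
    exact (L.le_opNorm₂ _ _).trans (mul_le_mul_of_nonneg_left (hB _) (by positivity))
  | succ k ih =>
    intro E _ _ F _ _ L g hg hc hB y
    have e : fderiv ℝ (convolution f g L volume) = convolution f (fderiv ℝ g) (L.precompR ℂ) volume :=
      funext fun x => (hc.hasFDerivAt_convolution_right L hf.locallyIntegrable (hg.of_le (by simp)) x).fderiv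
    rw [← norm_iteratedFDeriv_fderiv, e]
    refine (ih _ _ _ _ (hg.fderiv_right (m := ∞) le_rfl) (hc.fderiv ℝ)
      (fun y => by rw [norm_iteratedFDeriv_fderiv]; exact hB y) y).trans ?_
    exact mul_le_mul_of_nonneg_right (mul_le_mul_of_nonneg_right (L.norm_precompR_le ℂ)
      ((norm_nonneg _).trans (hB y))) (integral_nonneg fun _ => norm_nonneg _)

theorem eta_sm : ContDiff ℝ ∞ fun y => (eta y : ℂ) :=
  Complex.ofRealCLM.contDiff.comp
    ((expNegInvGlue.contDiff.comp (contDiff_const.sub (contDiff_norm_sq ℝ))).div_const _)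

theorem eta_zero {y : ℂ} (h : 1 ≤ ‖y‖) : eta y = 0 := by
  rw [eta, bump, expNegInvGlue.zero_of_nonpos (by nlinarith), zero_div]

theorem etas_eq (s : ℝ) : etas s = (s ^ 2)⁻¹ • fun y => (eta (s⁻¹ • y) : ℂ) := by
  funext y
  simp [etas, div_eq_inv_mul]

theorem eta_sm' (s : ℝ) : ContDiff ℝ ∞ fun y : ℂ => (eta (s • y) : ℂ) := eta_sm.comp (contDiff_const_smul s)

theorem etas_sm (s : ℝ) : ContDiff ℝ ∞ (etas s) := by
  rw [etas_eq]
  exact (eta_sm' s⁻¹).const_smul (s ^ 2)⁻¹

theorem etas_zero {s : ℝ} (hs : 0 < s) {y : ℂ} (h : s ≤ ‖y‖) : etas s y = 0 := by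
  rw [etas, eta_zero, zero_div, Complex.ofReal_zero]
  rwa [norm_div, Complex.norm_real, Real.norm_of_nonneg hs.le, one_le_div hs]

theorem cs {E : Type} [Zero E] {f : ℂ → E} {r : ℝ} (h : ∀ y, r < ‖y‖ → f y = 0) : HasCompactSupport f :=
  .intro (isCompact_closedBall 0 r) fun y hy => h y (by simpa using hy)

theorem etas_bd : ∃ C : ℝ, 1 ≤ C ∧ ∀ s : ℝ, 0 < s → ∀ k ≤ 4, ∀ y,
    ‖iteratedFDeriv ℝ k (etas s) y‖ ≤ C / (s ^ k * s ^ 2) := by
  have h : ∀ k : ℕ, ∃ C, ∀ y, ‖iteratedFDeriv ℝ k (fun y => (eta y : ℂ)) y‖ ≤ C := fun k =>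
    (eta_sm.continuous_iteratedFDeriv (by exact_mod_cast le_top)).bounded_above_of_compact_support
      ((cs (r := 1) fun y hy => by rw [eta_zero hy.le, Complex.ofReal_zero]).iteratedFDeriv k)
  choose C hC using h
  have C0 : ∀ k, 0 ≤ C k := fun k => (norm_nonneg _).trans (hC k 0)
  refine ⟨1 + ∑ k ∈ Finset.range 5, C k, le_add_of_nonneg_right (Finset.sum_nonneg fun k _ => C0 k),
    fun s hs k hk y => ?_⟩
  have h1 : C k ≤ ∑ k ∈ Finset.range 5, C k :=
    Finset.single_le_sum (fun k _ => C0 k) (Finset.mem_range.2 (by omega))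
  rw [etas_eq, iteratedFDeriv_const_smul_apply ((eta_sm' s⁻¹).of_le (by exact_mod_cast le_top)).contDiffAt,
    iteratedFDeriv_comp_const_smul _ (eta_sm.of_le (by exact_mod_cast le_top)), norm_smul, norm_smul,
    Real.norm_of_nonneg (by positivity), Real.norm_of_nonneg (by positivity), ← mul_assoc, inv_pow, ← mul_inv,
    mul_comm (s ^ 2), div_eq_inv_mul]
  exact mul_le_mul_of_nonneg_left (by linarith [hC k (s⁻¹ • y)]) (by positivity)

theorem fin_lat (x : ℂ) (R : ℝ) : {n | ‖x - lat n‖ ≤ R}.Finite := by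
  refine ((finite_Icc (-⌈‖x‖ + R⌉) ⌈‖x‖ + R⌉).prod (finite_Icc (-⌈‖x‖ + R⌉) ⌈‖x‖ + R⌉)).subset fun n hn => ?_
  have h : ‖lat n‖ ≤ ⌈‖x‖ + R⌉ :=
    ((norm_le_norm_add_norm_sub x (lat n)).trans (add_le_add_right hn _)).trans (Int.le_ceil _)
  have h1 := (Complex.abs_re_le_norm _).trans h
  have h2 := (Complex.abs_im_le_norm _).trans h
  simp only [lat, Complex.add_re, Complex.intCast_re, Complex.mul_I_re, Complex.intCast_im,
    Complex.add_im, Complex.mul_I_im, neg_zero, add_zero, zero_add] at h1 h2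
  exact ⟨abs_le.1 (by exact_mod_cast h1), abs_le.1 (by exact_mod_cast h2)⟩

theorem mol_zero {l r : ℝ} (hl : 0 < l) {G : ℂ → ℂ} (hG : ∀ y, r < ‖y‖ → G y = 0) (y : ℂ) (hy : r + l < ‖y‖) :
    mol l G y = 0 := by
  refine (integral_congr_ae (ae_of_all _ fun w => ?_)).trans (integral_zero _ _)
  rcases le_or_gt l ‖w‖ with h | h
  · exact mul_eq_zero_of_left (etas_zero hl h) _
  · exact mul_eq_zero_of_right _ (hG _ (by linarith [norm_sub_norm_le y w]))

theorem int_mol {l : ℝ} (hl : 0 < l) {g : ℂ → ℂ} (hg : Continuous g) : Integrable fun w => etas l w * g w :=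
  ((etas_sm l).continuous.mul hg).integrable_of_hasCompactSupport
    (cs (r := l) fun _ hy => mul_eq_zero_of_left (etas_zero hl hy.le) _)

/-- unfolding of one periodised box -/
theorem per_mol {l r : ℝ} (hl : 0 < l) {c : ℂ → ℝ} {q : ℂ → ℂ} (hc : Continuous c) (hq : Continuous q)
    (hp : Peri q) (h0 : ∀ y, r < ‖y‖ → c y = 0) (z x : ℂ) :
    (Integrable fun w => etas l w * (((Per c (x - w - z) : ℝ) : ℂ) * q (x - w))) ∧
    Per (mol l fun y => c y * q (y + z)) (x - z) =
      ∫ w, etas l w * (((Per c (x - w - z) : ℝ) : ℂ) * q (x - w)) := by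
  have hN : ∀ n ∉ (fin_lat (x - z) (r + l)).toFinset, r + l < ‖x - z - lat n‖ := fun n hn => by simpa using hn
  generalize (fin_lat (x - z) (r + l)).toFinset = N at hN
  have hI : ∀ n ∈ N, Integrable fun w => etas l w * (c (x - z - lat n - w) * q (x - z - lat n - w + z)) :=
    fun n _ => int_mol hl (by fun_prop)
  have e : (fun w => etas l w * (((Per c (x - w - z) : ℝ) : ℂ) * q (x - w))) =
      fun w => ∑ n ∈ N, etas l w * (c (x - z - lat n - w) * q (x - z - lat n - w + z)) := by
    funext w
    rcases le_or_gt l ‖w‖ with h | h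
    · simp [etas_zero hl h]
    · rw [Per, tsum_eq_sum (s := N) fun n hn => h0 _ (by
        have := norm_sub_norm_le (x - z - lat n) w
        rw [show x - z - lat n - w = x - w - z - lat n by ring] at this
        linarith [hN n hn]), Complex.ofReal_sum, Finset.sum_mul, Finset.mul_sum]
      refine Finset.sum_congr rfl fun n _ => ?_
      rw [← hp n (x - z - lat n - w + z)]
      ring_nf
  rw [e, integral_finsetSum _ hI, Per, tsum_eq_sum (s := N) fun n hn =>
    mol_zero hl (fun y hy => by rw [h0 y hy, Complex.ofReal_zero, zero_mul]) _ (hN n hn)]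
  exact ⟨integrable_finsetSum _ hI, rfl⟩

theorem shift (f : ℂ → ℝ) (z : ℂ) (R : ℝ) :
    ∫ x in Metric.closedBall z R, f x = ∫ x in Metric.closedBall 0 R, f (x + z) := by
  rw [← (measurePreserving_add_right volume z).setIntegral_preimage_emb
    (Homeomorph.addRight z).measurableEmbedding]
  simp

end SRC

open SRC in
theorem st_SRC : St_SRC := by
  obtain ⟨C, C1, hC⟩ := etas_bd
  refine ⟨C, C1, fun u q F l th0 T0 a b Mz Zg kq β _ tb Tb z chi B l0 _ k0 Fc F0 hq hts hF => ?_⟩
  have Gs : ∀ i, ContDiff ℝ ∞ fun p : ℝ × ℂ => (chi i p.1 p.2 : ℂ) * q p.1 (p.2 + z i p.1) := fun i =>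
    (Complex.ofRealCLM.contDiff.comp (B.loc i).1).mul
      (hq.1.comp (contDiff_fst.prodMk (contDiff_snd.add ((B.zsm i).comp contDiff_fst))))
  have G0 : ∀ i t y, 2 * l < ‖y‖ → (chi i t y : ℂ) * q t (y + z i t) = 0 := fun i t y hy => by
    rw [(B.loc i).2 t y hy, Complex.ofReal_zero, zero_mul]
  have St : ∀ i, TS (fun t => mol l fun y => chi i t y * q t (y + z i t)) (tb i - Tb i) (tb i + Tb i) :=
    fun i t ht x => by simp [mol, B.ts i t ht]
  refine ⟨fun i t => mol l fun y => chi i t y * q t (y + z i t), fun i => ⟨⟨?_, fun t y hy =>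
    mol_zero l0 (G0 i t) y (by linarith)⟩, St i, fun k hk y => ?_⟩, fun t x => ?_⟩
  · have h := contDiffOn_convolution_right_with_param (μ := volume) (n := ⊤) (ContinuousLinearMap.mul ℝ ℂ)
      (g := fun t y => (chi i t y : ℂ) * q t (y + z i t)) isOpen_univ (isCompact_closedBall 0 (2 * l))
      (fun t y _ hy => G0 i t y (by simpa using hy)) (etas_sm l).continuous.locallyIntegrable (Gs i).contDiffOn
    rwa [univ_prod_univ, contDiffOn_univ] at h
  · have T0 := B.Tpos i
    have zc := (B.zsm i).continuous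
    have ac : Continuous fun t => avg F 500 l t (z i t) := by
      simp only [avg, shift _ (z i _)]
      exact (continuous_parametric_integral_of_continuous (f := fun t x => F t (x + z i t))
        (Fc.comp (continuous_fst.prodMk (continuous_snd.add (zc.comp continuous_fst))))
        (isCompact_closedBall 0 _)).div_const _
    have a0 : ∀ t, 0 ≤ avg F 500 l t (z i t) := fun t =>
      div_nonneg (integral_nonneg fun x => F0 t x) (by positivity)
    have hb : ∀ t, nD k (mol l fun y => chi i t y * q t (y + z i t)) y ≤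
        C * kq / l ^ k * avg F 500 l t (z i t) := fun t => by
      have Gc : Continuous fun y => (chi i t y : ℂ) * q t (y + z i t) :=
        (Gs i).continuous.comp (Continuous.prodMk_right t)
      have h1 := conv_bd _ (Gc.integrable_of_hasCompactSupport (cs (G0 i t))) _ k ℂ ℂ
        (ContinuousLinearMap.mul ℝ ℂ).flip (etas l) (etas_sm l) (cs (r := l) fun _ hy => etas_zero l0 hy.le)
        (hC l l0 k hk) y
      rw [convolution_flip, ContinuousLinearMap.opNorm_flip, ContinuousLinearMap.opNorm_mul, one_mul] at h1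
      refine h1.trans ?_
      rw [avg, shift, show ∀ I : ℝ, C * kq / l ^ k * (I / l ^ 2) = C / (l ^ k * l ^ 2) * (kq * I) from
        fun I => by ring, ← integral_const_mul kq, ← setIntegral_eq_integral_of_forall_compl_eq_zero
          (s := Metric.closedBall 0 (500 * l)) fun y hy => norm_eq_zero.2 (G0 i t y (by
            rw [mem_closedBall_zero_iff, not_le] at hy
            linarith))]
      refine mul_le_mul_of_nonneg_left (setIntegral_mono
        (Gc.norm.continuousOn.integrableOn_compact (isCompact_closedBall _ _))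
        (ContinuousOn.integrableOn_compact (isCompact_closedBall _ _) (Continuous.continuousOn
          (continuous_const.mul (Fc.comp ((Continuous.prodMk_right t).comp (continuous_add_const _))))))
        fun y => ?_) (by positivity)
      beta_reduce
      rw [norm_mul, Complex.norm_real, Real.norm_of_nonneg (B.chi0 i t y)]
      exact (mul_le_of_le_one_left (norm_nonneg _) (B.chi1 i t y)).trans (hF _ _)
    have h2 := integral_mono_of_nonneg (μ := volume.restrict (Ioc (tb i - 2 * Tb i) (tb i + 2 * Tb i)))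
      (ae_of_all _ fun t => norm_nonneg _) ((ac.integrableOn_Ioc).const_mul _) (ae_of_all _ hb)
    rw [integral_const_mul, ← intervalIntegral.integral_of_le (f := fun t => avg F 500 l t (z i t))
      (by linarith)] at h2
    rw [← setIntegral_eq_integral_of_forall_compl_eq_zero (s := Ioc (tb i - 2 * Tb i) (tb i + 2 * Tb i))
      fun t ht => ?_, ← le_div_iff₀' (by positivity)]
    · refine h2.trans ((mul_le_mul_of_nonneg_left (B.acc i) (by positivity)).trans (le_of_eq ?_))
      ring
    · have e : (mol l fun y => chi i t y * q t (y + z i t)) = fun _ => 0 :=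
        funext (St i t fun h => ht ⟨by linarith [h.1], by linarith [h.2]⟩)
      simp [nD, e]
  · have h := fun i => per_mol (c := chi i t) (q := q t) l0
      ((B.loc i).1.continuous.comp (Continuous.prodMk_right t))
      (hq.1.continuous.comp (Continuous.prodMk_right t)) (hq.2 t) ((B.loc i).2 t) (z i t) x
    refine (Finset.sum_congr rfl fun i _ => (h i).2).trans ?_
    rw [← integral_finsetSum _ fun i _ => (h i).1]
    refine integral_congr_ae (ae_of_all _ fun w => ?_)
    by_cases ht : t ∈ Icc a b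
    · beta_reduce
      rw [← Finset.mul_sum, ← Finset.sum_mul, ← Complex.ofReal_sum]
      exact congrArg _ ((congrArg (fun r : ℝ => (r : ℂ) * _) (B.part t ht (x - w))).trans (by simp))
    · simp [hts t ht]

end Pool.Agent.Lib.EUL
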