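import Pool.Agent.Lib.EUL.BasicA
import Pool.Agent.Lib.EUL.B_SRC

/-! Block CELL: the dipole, the corrector and the error of one box. -/

set_option autoImplicit false

namespace Pool.Agent.Lib.EUL

open MeasureTheory Set Filter Topology
open scoped ContDiff Classical

noncomputable section

namespace CELL

lemma Cst_mul {l a b : ℝ} {f : ℂ → ℂ} {c : ℂ} (h : Cst l f a) (hl : 0 < l) (hc : ‖c‖ ≤ b) :
    Cst l (fun y => c * f y) (b * a) :=
  (h.const_mul c).mono hl (mul_le_mul_of_nonneg_right hc h.nonneg)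

lemma etas_facts : ∃ C : ℝ, 1 ≤ C ∧ ∀ s : ℝ, 0 < s → ContDiff ℝ ∞ (etas s) ∧
    (∀ y, s < ‖y‖ → etas s y = 0) ∧ ∀ k ≤ 4, ∀ y, nD k (etas s) y ≤ C / s ^ (2 + k) := by
  obtain ⟨C, h1, h⟩ := SRC.etas_bd
  refine ⟨C, h1, fun s hs => ⟨SRC.etas_sm s, fun y hy => SRC.etas_zero hs hy.le, fun k hk y => ?_⟩⟩
  rw [pow_add, mul_comm]
  exact h s hs k hk y

section
variable {E : Type} [NormedAddCommGroup E] [NormedSpace ℝ E]

lemma sm_t {D : ℝ → ℂ → E} (h : Sm D) (t : ℝ) : ContDiff ℝ ∞ (D t) :=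
  ContDiff.comp (f := fun y : ℂ => (t, y)) h (contDiff_const.prodMk contDiff_id)

lemma sm_fd {D : ℝ → ℂ → E} (h : Sm D) : Sm fun t y => fderiv ℝ (D t) y :=
  ContDiff.fderiv (f := fun (p : ℝ × ℂ) y => D p.1 y) (g := fun p => p.2) (m := ∞)
    (h.comp (f := fun q : (ℝ × ℂ) × ℂ => (q.1.1, q.2)) (contDiff_fst.fst.prodMk contDiff_snd))
    contDiff_snd le_rfl

lemma ts_fd {D : ℝ → ℂ → E} {a b : ℝ} (ht : TS D a b) : TS (fun t y => fderiv ℝ (D t) y) a b := by
  intro t h y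
  have : D t = fun _ => 0 := funext (ht t h)
  simp [this]

omit [NormedSpace ℝ E] in
lemma intg_t {F : ℝ → E} {a b : ℝ} (hc : Continuous F)
    (h0 : ∀ t, t ∉ Icc a b → F t = 0) : Integrable F :=
  hc.integrable_of_hasCompactSupport (HasCompactSupport.intro isCompact_Icc h0)

lemma intg_D {D : ℝ → ℂ → E} {a b : ℝ} (h : Sm D) (ht : TS D a b) (y : ℂ) :
    Integrable fun t => D t y :=
  intg_t (h.continuous.comp (continuous_id.prodMk continuous_const)) fun t h' => ht t h' y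

lemma has_int {D : ℝ → ℂ → E} {a b : ℝ} (h : Sm D) (ht : TS D a b) (x : ℂ) :
    HasFDerivAt (fun y => ∫ t, D t y) (∫ t, fderiv ℝ (D t) x) x := by
  obtain ⟨B, hB⟩ := ((isCompact_Icc (a := a) (b := b)).prod
    (isCompact_closedBall x 1)).exists_bound_of_continuousOn (sm_fd h).continuous.continuousOn
  refine hasFDerivAt_integral_of_dominated_of_fderiv_le (F := fun y t => D t y)
    (F' := fun y t => fderiv ℝ (D t) y) (bound := (Icc a b).indicator fun _ => B)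
    (Metric.closedBall_mem_nhds x one_pos)
    (Eventually.of_forall fun y => (intg_D h ht y).aestronglyMeasurable) (intg_D h ht x)
    (intg_D (sm_fd h) (ts_fd ht) x).aestronglyMeasurable (ae_of_all _ fun t y hy => ?_)
    ((integrable_indicator_iff measurableSet_Icc).2 (integrableOn_const (by simp)))
    (ae_of_all _ fun t y _ => ((sm_t h t).differentiable (by simp) y).hasFDerivAt)
  by_cases m : t ∈ Icc a b
  · rw [indicator_of_mem m]; exact hB (t, y) ⟨m, hy⟩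
  · rw [indicator_of_notMem m]
    exact le_of_eq (norm_eq_zero.2 (ts_fd ht t m y))

end

lemma cont_gen (k : ℕ) : ∀ {E : Type} [NormedAddCommGroup E] [NormedSpace ℝ E] {D : ℝ → ℂ → E},
    Sm D → Continuous fun p : ℝ × ℂ => ‖iteratedFDeriv ℝ k (D p.1) p.2‖ := by
  induction k with
  | zero =>
    intro E _ _ D h
    simp only [norm_iteratedFDeriv_zero]
    exact h.continuous.norm
  | succ k ih =>
    intro E _ _ D h
    simp only [← norm_iteratedFDeriv_fderiv]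
    exact ih (sm_fd h)

lemma int_sm {a b : ℝ} (k : ℕ) : ∀ {E : Type} [NormedAddCommGroup E] [NormedSpace ℝ E]
    {D : ℝ → ℂ → E}, Sm D → TS D a b → ContDiff ℝ k fun y => ∫ t, D t y := by
  induction k with
  | zero =>
    intro E _ _ D h ht
    exact contDiff_zero.2 (continuous_iff_continuousAt.2 fun x => (has_int h ht x).continuousAt)
  | succ k ih =>
    intro E _ _ D h ht
    have e : fderiv ℝ (fun y => ∫ t, D t y) = fun y => ∫ t, fderiv ℝ (D t) y :=
      funext fun x => (has_int h ht x).fderiv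
    push_cast
    refine contDiff_succ_iff_fderiv.2 ⟨fun x => (has_int h ht x).differentiableAt, by simp, ?_⟩
    rw [e]
    exact ih (sm_fd h) (ts_fd ht)

lemma int_bd {a b : ℝ} (k : ℕ) : ∀ {E : Type} [NormedAddCommGroup E] [NormedSpace ℝ E]
    {D : ℝ → ℂ → E}, Sm D → TS D a b → ∀ y, ‖iteratedFDeriv ℝ k (fun y => ∫ t, D t y) y‖ ≤
      ∫ t, ‖iteratedFDeriv ℝ k (D t) y‖ := by
  induction k with
  | zero =>
    intro E _ _ D h ht y
    simp only [norm_iteratedFDeriv_zero]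
    exact norm_integral_le_integral_norm _
  | succ k ih =>
    intro E _ _ D h ht y
    have e : fderiv ℝ (fun y => ∫ t, D t y) = fun y => ∫ t, fderiv ℝ (D t) y :=
      funext fun x => (has_int h ht x).fderiv
    simp only [← norm_iteratedFDeriv_fderiv]
    rw [e]
    exact ih (sm_fd h) (ts_fd ht) y

lemma par_int {D : ℝ → ℂ → ℂ} {a b : ℝ} (h : Sm D) (ht : TS D a b) :
    ContDiff ℝ ∞ (fun y => ∫ t, D t y) ∧
      ∀ k y, nD k (fun y => ∫ t, D t y) y ≤ ∫ t, nD k (D t) y :=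
  ⟨contDiff_infty.2 fun k => int_sm k h ht, fun k y => int_bd k h ht y⟩

lemma cont_nD {D : ℝ → ℂ → ℂ} (h : Sm D) (k : ℕ) :
    Continuous fun p : ℝ × ℂ => nD k (D p.1) p.2 := cont_gen k h

lemma nD_nn (k : ℕ) (f : ℂ → ℂ) (x : ℂ) : 0 ≤ nD k f x := norm_nonneg _

lemma cd {f : ℂ → ℂ} (hf : ContDiff ℝ ∞ f) (k : ℕ) (x : ℂ) : ContDiffAt ℝ k f x :=
  (hf.of_le (by exact_mod_cast le_top)).contDiffAt

lemma nD_add' {f g : ℂ → ℂ} (hf : ContDiff ℝ ∞ f) (hg : ContDiff ℝ ∞ g) (k : ℕ) (x : ℂ) :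
    nD k (fun y => f y + g y) x ≤ nD k f x + nD k g x := by
  unfold nD
  rw [fun_iteratedFDeriv_add_apply (cd hf k x) (cd hg k x)]
  exact norm_add_le _ _

lemma nD_mul {f : ℂ → ℂ} (hf : ContDiff ℝ ∞ f) (c : ℂ) (k : ℕ) (x : ℂ) :
    nD k (fun y => c * f y) x = ‖c‖ * nD k f x := by
  unfold nD
  have : (fun y => c * f y) = fun y => c • f y := rfl
  rw [this, iteratedFDeriv_const_smul_apply' (cd hf k x), norm_smul]

lemma nD_sh (f : ℂ → ℂ) (a : ℂ) (k : ℕ) (x : ℂ) : nD k (fun y => f (y - a)) x = nD k f (x - a) := by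
  unfold nD
  rw [iteratedFDeriv_comp_sub]

lemma nD_ev {f : ℂ → ℂ} {x : ℂ} (h : ∀ᶠ y in 𝓝 x, f y = 0) (k : ℕ) : nD k f x = 0 := by
  unfold nD
  have e : f =ᶠ[𝓝 x] fun _ => 0 := h
  rw [(e.iteratedFDeriv ℝ k).eq_of_nhds]
  simp

lemma nD_out {f : ℂ → ℂ} {r : ℝ} (h : ∀ y, r < ‖y‖ → f y = 0) (k : ℕ) {x : ℂ} (hx : r < ‖x‖) :
    nD k f x = 0 :=
  nD_ev (((isOpen_lt continuous_const continuous_norm).eventually_mem hx).mono h) k

lemma nD_diff {g : ℂ → ℂ} (hg : ContDiff ℝ ∞ g) (k : ℕ) {M : ℝ} (hM : ∀ w, nD (k + 1) g w ≤ M)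
    (a b x : ℂ) : nD k (fun y => g (y - a) - g (y - b)) x ≤ M * ‖a - b‖ := by
  unfold nD
  have sh : ∀ a : ℂ, ContDiff ℝ ∞ fun y => g (y - a) := fun a =>
    hg.comp (contDiff_id.sub contDiff_const)
  rw [fun_iteratedFDeriv_sub_apply (cd (sh a) k x) (cd (sh b) k x), iteratedFDeriv_comp_sub,
    iteratedFDeriv_comp_sub]
  have dd : Differentiable ℝ fun x => iteratedFDeriv ℝ k g x :=
    hg.differentiable_iteratedFDeriv (by exact_mod_cast WithTop.coe_lt_top (k : ℕ))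
  have := (convex_univ (𝕜 := ℝ) (E := ℂ)).norm_image_sub_le_of_norm_fderiv_le
    (f := fun x => iteratedFDeriv ℝ k g x) (C := M) (fun x _ => dd x)
    (fun x _ => by rw [norm_fderiv_iteratedFDeriv]; exact hM x) (mem_univ (x - b)) (mem_univ (x - a))
  rwa [show x - a - (x - b) = -(a - b) by ring, norm_neg] at this

lemma int_t {F : ℝ → ℝ} {a b B : ℝ} (hab : a ≤ b) (h0 : ∀ t, t ∉ Icc a b → F t = 0)
    (hn : ∀ t, 0 ≤ F t) (hB : ∀ t, F t ≤ B) : ∫ t, F t ≤ B * (b - a) := by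
  rw [← setIntegral_eq_integral_of_forall_compl_eq_zero h0]
  have := norm_setIntegral_le_of_norm_le_const (μ := volume) (s := Icc a b) (f := F) (C := B)
    (by simp) fun t _ => by rw [Real.norm_of_nonneg (hn t)]; exact hB t
  rw [Real.volume_real_Icc_of_le hab] at this
  exact (le_abs_self _).trans this

lemma int_two {F : ℂ → ℝ} {a b : ℂ} {d B : ℝ} (hd : 0 ≤ d)
    (h0 : ∀ y, d < ‖y - a‖ → d < ‖y - b‖ → F y = 0) (hn : ∀ y, 0 ≤ F y) (hB : ∀ y, F y ≤ B) :
    ∫ y, F y ≤ B * (8 * d ^ 2) := by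
  have v : ∀ a : ℂ, volume.real (Metric.closedBall a d) ≤ 4 * d ^ 2 := by
    intro a
    rw [Measure.real, Complex.volume_closedBall, ENNReal.toReal_mul, ENNReal.toReal_pow,
      ENNReal.toReal_ofReal hd, ENNReal.coe_toReal, NNReal.coe_real_pi]
    nlinarith [Real.pi_le_four, sq_nonneg d]
  rw [← setIntegral_eq_integral_of_forall_compl_eq_zero
    (s := Metric.closedBall a d ∪ Metric.closedBall b d) fun y hy => by
      simp only [mem_union, mem_closedBall_iff_norm, not_or, not_le] at hy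
      exact h0 y hy.1 hy.2]
  have := norm_setIntegral_le_of_norm_le_const (μ := volume)
    (s := Metric.closedBall a d ∪ Metric.closedBall b d) (f := F) (C := B)
    (((isCompact_closedBall a d).union (isCompact_closedBall b d)).measure_lt_top)
    fun t _ => by rw [Real.norm_of_nonneg (hn t)]; exact hB t
  refine ((le_abs_self _).trans this).trans (mul_le_mul_of_nonneg_left ?_ ((hn 0).trans (hB 0)))
  refine (measureReal_union_le _ _).trans ?_
  linarith [v a, v b]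

lemma nD_ts {D : ℝ → ℂ → ℂ} {a b : ℝ} (ht : TS D a b) (k : ℕ) {t : ℝ} (h : t ∉ Icc a b) (y : ℂ) :
    nD k (D t) y = 0 := nD_ev (Eventually.of_forall (ht t h)) k

lemma intg_nD {D : ℝ → ℂ → ℂ} {a b : ℝ} (h : Sm D) (ht : TS D a b) (k : ℕ) (y : ℂ) :
    Integrable fun t => nD k (D t) y :=
  intg_t ((cont_nD h k).comp (continuous_id.prodMk continuous_const)) fun _ h' => nD_ts ht k h' y

lemma intg_y {f : ℂ → ℂ} {r : ℝ} (hf : ContDiff ℝ ∞ f) (h0 : ∀ y, r < ‖y‖ → f y = 0) (k : ℕ) :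
    Integrable (nD k f) := by
  have c : Continuous (nD k f) :=
    (hf.continuous_iteratedFDeriv (by exact_mod_cast le_top)).norm
  exact c.integrable_of_hasCompactSupport (HasCompactSupport.intro (isCompact_closedBall 0 r)
    fun y hy => nD_out h0 k (by simpa using hy))

lemma fub {D : ℝ → ℂ → ℂ} {R a b B : ℝ} (h : Loc D R) (ht : TS D a b) (hab : a ≤ b) (k : ℕ)
    (hB : ∀ t, ∫ y, nD k (D t) y ≤ B) : ∫ y, nD k (fun y => ∫ t, D t y) y ≤ B * (b - a) := by
  have I : Integrable (fun p : ℝ × ℂ => nD k (D p.1) p.2) (volume.prod volume) := by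
    refine (cont_nD h.1 k).integrable_of_hasCompactSupport (HasCompactSupport.intro
      ((isCompact_Icc (a := a) (b := b)).prod (isCompact_closedBall (0 : ℂ) R)) fun p hp => ?_)
    by_cases h1 : p.1 ∈ Icc a b
    · have : R < ‖p.2‖ := by
        by_contra h2
        exact hp ⟨h1, by simpa using h2⟩
      exact nD_out (h.2 p.1) k this
    · exact nD_ts ht k h1 _
  calc _ ≤ ∫ y, ∫ t, nD k (D t) y :=
        integral_mono_of_nonneg (Eventually.of_forall fun y => nD_nn _ _ _) I.integral_prod_right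
          (Eventually.of_forall fun y => (par_int h.1 ht).2 k y)
    _ = ∫ t, ∫ y, nD k (D t) y := (integral_integral_swap (f := fun t y => nD k (D t) y) I).symm
    _ ≤ _ := int_t hab (fun t h' => by simp [nD_ts ht k h'])
        (fun t => integral_nonneg fun y => nD_nn _ _ _) hB

lemma df {f : ℂ → ℂ} (hf : ContDiff ℝ ∞ f) (x : ℂ) : DifferentiableAt ℝ f x :=
  hf.differentiable (by simp) x

lemma dz_add' {f g : ℂ → ℂ} (hf : ContDiff ℝ ∞ f) (hg : ContDiff ℝ ∞ g) (x : ℂ) :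
    dz (fun y => f y + g y) x = dz f x + dz g x := by
  unfold dz
  rw [fderiv_fun_add (df hf x) (df hg x)]
  simp only [add_apply]
  ring

lemma dz_mul {f : ℂ → ℂ} (hf : ContDiff ℝ ∞ f) (c x : ℂ) :
    dz (fun y => c * f y) x = c * dz f x := by
  unfold dz
  rw [fderiv_const_mul (df hf x)]
  simp only [smul_apply, smul_eq_mul]
  ring

lemma isG_add {f g : ℂ → ℂ} (hf : IsG f) (hg : IsG g) : IsG fun y => f y + g y := by
  obtain ⟨p, p1, p2, p3⟩ := hf
  obtain ⟨q, q1, q2, q3⟩ := hg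
  refine ⟨fun y => p y + q y, p1.add q1, fun n z => by simp only [p2 n z, q2 n z], fun x => ?_⟩
  have a : ContDiff ℝ ∞ fun y => (p y : ℂ) := Complex.ofRealCLM.contDiff.comp p1
  have b : ContDiff ℝ ∞ fun y => (q y : ℂ) := Complex.ofRealCLM.contDiff.comp q1
  simp only [p3, q3]
  unfold grad dzb
  simp only [Complex.ofReal_add]
  rw [fderiv_fun_add (df a x) (df b x)]
  simp only [add_apply]
  ring

lemma Per_zero {f : ℂ → ℂ} (h : ∀ y, f y = 0) (x : ℂ) : Per f x = 0 := by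
  simp [Per, h]

lemma norm_ex' (a : ℝ) : ‖ex a‖ = 1 := Complex.norm_exp_ofReal_mul_I a

lemma ofr {U : ℝ → ℝ} (h : ContDiff ℝ ∞ U) : ContDiff ℝ ∞ fun t => (U t : ℂ) :=
  Complex.ofRealCLM.contDiff.comp h

lemma sm_ex {φ : ℝ → ℝ} (h : ContDiff ℝ ∞ φ) : ContDiff ℝ ∞ fun t => ex (φ t) :=
  Complex.contDiff_exp.comp ((ofr h).mul contDiff_const)

lemma loc_mul {c : ℝ → ℂ} {f : ℝ → ℂ → ℂ} {r : ℝ} (hc : ContDiff ℝ ∞ c) (hf : Loc f r) :
    Loc (fun t y => c t * f t y) r :=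
  ⟨(hc.comp contDiff_fst).mul hf.1, fun t y h => by simp only [hf.2 t y h, mul_zero]⟩

lemma loc_add {f g : ℝ → ℂ → ℂ} {r : ℝ} (hf : Loc f r) (hg : Loc g r) :
    Loc (fun t y => f t y + g t y) r :=
  ⟨hf.1.add hg.1, fun t y h => by simp only [hf.2 t y h, hg.2 t y h, add_zero]⟩

lemma loc_mono {f : ℝ → ℂ → ℂ} {r s : ℝ} (hf : Loc f r) (h : r ≤ s) : Loc f s :=
  ⟨hf.1, fun t y h' => hf.2 t y (h.trans_lt h')⟩

lemma sp_add {f g : ℝ → ℂ → ℂ} (hf : SP f) (hg : SP g) : SP fun t y => f t y + g t y :=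
  ⟨hf.1.add hg.1, fun t n z => by simp only [hf.2 t n z, hg.2 t n z]⟩

lemma sp_mul {f : ℝ → ℂ → ℂ} (c : ℂ) (hf : SP f) : SP fun t y => c * f t y :=
  ⟨contDiff_const.mul hf.1, fun t n z => by simp only [hf.2 t n z]⟩

lemma cst_mv (hCS : St_CS) {f : ℝ → ℂ → ℂ} {r l s a : ℝ} {z : ℝ → ℂ} (hf : Loc f r)
    (hz : ContDiff ℝ ∞ z) (hr : r ≤ 1 / 4) (hs : 0 < s) (hl : s ≤ l) (t : ℝ)
    (h0 : ∫ y, nD 0 (f t) y ≤ a) (h2 : ∫ y, nD 2 (f t) y ≤ a / s ^ 2) :
    Cst l (mv f z t) (4 * a * (l / s) ^ al) :=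
  hCS.1 _ l s a (sm_t (hf.sp_mv hr hz).1 t) ((hf.sp_mv hr hz).2 t) hs hl
    ((IQ_nD_Per hr (hf.2 t) 0 (z t)).trans_le h0) ((IQ_nD_Per hr (hf.2 t) 2 (z t)).trans_le h2)

lemma lg_anti {a b : ℝ} (ha : 0 < a) (hab : a ≤ b) (hb : b ≤ 1) : lg b ≤ lg a := by
  unfold lg
  rw [abs_of_nonpos (Real.log_nonpos (ha.le.trans hab) hb),
    abs_of_nonpos (Real.log_nonpos ha.le (hab.trans hb))]
  linarith [Real.log_le_log ha hab]

lemma one_le_lg' (a : ℝ) : 1 ≤ lg a := by
  unfold lg; linarith [abs_nonneg (Real.log a)]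

lemma lg_div {rho d : ℝ} (h0 : 0 < rho) (h1 : rho ≤ d) (h2 : d ≤ 1) : lg (d / rho) ≤ lg rho := by
  have hd : 0 < d := h0.trans_le h1
  unfold lg
  rw [Real.log_div hd.ne' h0.ne', abs_of_nonneg (sub_nonneg.2 (Real.log_le_log h0 h1)),
    abs_of_nonpos (Real.log_nonpos h0.le (h1.trans h2))]
  linarith [Real.log_nonpos hd.le h2]

lemma tau60 {l s : ℝ} (hl : 0 < l) : tau 3 (60 * l) s ≤ 60 ^ 3 * tau 3 l s := by
  unfold tau
  rw [← mul_pow, ← mul_div_assoc]
  have a : 0 < max l s := lt_max_of_lt_left hl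
  exact pow_le_pow_left₀ (by positivity) (div_le_div_of_nonneg_left (by positivity) a
    (max_le_max_right s (by linarith))) 3

lemma deriv_out {U : ℝ → ℝ} {a b t : ℝ} (h : ∀ t, t ∉ Icc a b → U t = 0) (ht : t ∉ Icc a b) :
    deriv U t = 0 := by
  have e : U =ᶠ[𝓝 t] fun _ => 0 := (isClosed_Icc.isOpen_compl.eventually_mem ht).mono h
  rw [e.deriv_eq, deriv_const]

lemma int_mul {f : ℂ → ℂ} (hf : ContDiff ℝ ∞ f) {c : ℂ} {b B : ℝ} {k : ℕ} (hc : ‖c‖ ≤ b)
    (h : ∫ y, nD k f y ≤ B) : ∫ y, nD k (fun y => c * f y) y ≤ b * B := by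
  simp only [nD_mul hf]
  rw [integral_const_mul]
  exact mul_le_mul hc h (integral_nonneg fun y => nD_nn _ _ _) ((norm_nonneg _).trans hc)

/-- the moving mollifier -/
def Nf (c0 d : ℝ) (U φ : ℝ → ℝ) (p : ℝ → ℂ) (t : ℝ) (y : ℂ) : ℂ :=
  (c0 * (U t ^ 2 * ex (2 * φ t))) * etas d (y - p t)

lemma coef_le {c0 u : ℝ} {U φ : ℝ → ℝ} (hc : 0 ≤ c0) (hU : ∀ t, 0 ≤ U t ∧ U t ≤ u) (t : ℝ) :
    ‖(c0 * (U t ^ 2 * ex (2 * φ t)) : ℂ)‖ ≤ c0 * u ^ 2 := by
  rw [norm_mul, norm_mul, norm_ex', mul_one, norm_pow, Complex.norm_real, Complex.norm_real,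
    Real.norm_of_nonneg hc, Real.norm_of_nonneg (hU t).1]
  exact mul_le_mul_of_nonneg_left (pow_le_pow_left₀ (hU t).1 (hU t).2 2) hc

lemma coef_sm (c0 : ℝ) {U φ : ℝ → ℝ} (hU : ContDiff ℝ ∞ U) (hφ : ContDiff ℝ ∞ φ) :
    ContDiff ℝ ∞ fun t => (c0 * (U t ^ 2 * ex (2 * φ t)) : ℂ) :=
  contDiff_const.mul (((ofr hU).pow 2).mul (sm_ex (contDiff_const.mul hφ)))

lemma Nf_loc {c0 d R r : ℝ} {U φ : ℝ → ℝ} {p : ℝ → ℂ} (hU : ContDiff ℝ ∞ U) (hφ : ContDiff ℝ ∞ φ)
    (hp : ContDiff ℝ ∞ p) (he : ContDiff ℝ ∞ (etas d)) (h0 : ∀ y, d < ‖y‖ → etas d y = 0)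
    (hr : ∀ t, U t ≠ 0 → ‖p t‖ ≤ r) (hR : r + d ≤ R) : Loc (Nf c0 d U φ p) R := by
  refine ⟨((coef_sm c0 hU hφ).comp contDiff_fst).mul
    (he.comp (contDiff_snd.sub (hp.comp contDiff_fst))), fun t y hy => ?_⟩
  unfold Nf
  by_cases h : U t = 0
  · simp [h]
  · rw [h0, mul_zero]
    have := norm_sub_norm_le y (p t)
    linarith [hr t h]

lemma Nf_ts {c0 d a b : ℝ} {U φ : ℝ → ℝ} {p : ℝ → ℂ} (h : ∀ t, t ∉ Icc a b → U t = 0) :
    TS (Nf c0 d U φ p) a b := fun t ht y => by simp [Nf, h t ht]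

lemma Nf_nD {c0 d u M : ℝ} {U φ : ℝ → ℝ} {p : ℝ → ℂ} (hc : 0 ≤ c0) (hU : ∀ t, 0 ≤ U t ∧ U t ≤ u)
    (he : ContDiff ℝ ∞ (etas d)) {k : ℕ} (hM : ∀ y, nD k (etas d) y ≤ M) (t : ℝ) (y : ℂ) :
    nD k (Nf c0 d U φ p t) y ≤ c0 * u ^ 2 * M := by
  unfold Nf
  rw [nD_mul (f := fun y => etas d (y - p t)) (he.comp (contDiff_id.sub contDiff_const)), nD_sh]
  exact mul_le_mul (coef_le hc hU t) (hM _) (nD_nn _ _ _) (by positivity)

lemma Nf_diff {c0 d u M del : ℝ} {U φ : ℝ → ℝ} {p q : ℝ → ℂ} (hc : 0 ≤ c0) (hd : 0 ≤ d)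
    (hU : ∀ t, 0 ≤ U t ∧ U t ≤ u) (he : ContDiff ℝ ∞ (etas d)) (h0 : ∀ y, d < ‖y‖ → etas d y = 0)
    {k : ℕ} (hM : ∀ y, nD (k + 1) (etas d) y ≤ M) (hdel : 0 ≤ del)
    (hpq : ∀ t, U t ≠ 0 → ‖p t - q t‖ ≤ del) (t : ℝ) :
    ∫ y, nD k (fun y => Nf c0 d U φ p t y - Nf c0 d U φ q t y) y ≤
      c0 * u ^ 2 * (M * del) * (8 * d ^ 2) := by
  have M0 : 0 ≤ M := (nD_nn _ _ _).trans (hM 0)
  refine int_two (a := p t) (b := q t) hd (fun y h1 h2 => nD_ev ?_ k) (fun y => nD_nn _ _ _)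
    fun y => ?_
  · have o : ∀ a : ℂ, IsOpen {y : ℂ | d < ‖y - a‖} := fun a =>
      isOpen_lt continuous_const (by fun_prop)
    filter_upwards [(o _).eventually_mem h1, (o _).eventually_mem h2] with w a b
    simp [Nf, h0 _ a, h0 _ b]
  · by_cases h : U t = 0
    · rw [nD_ev (Eventually.of_forall fun y => by simp [Nf, h])]
      positivity
    · have sh : ∀ a : ℂ, ContDiff ℝ ∞ fun y => etas d (y - a) := fun a =>
        he.comp (contDiff_id.sub contDiff_const)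
      simp only [Nf, ← mul_sub]
      rw [nD_mul ((sh _).sub (sh _))]
      exact mul_le_mul (coef_le hc hU t) ((nD_diff he k hM _ _ y).trans
        (mul_le_mul_of_nonneg_left (hpq t h) M0)) (nD_nn _ _ _) (by positivity)

lemma fin3 {k K L X a : ℝ} (m : ℕ) (hm : m ≤ 3) (hL : 1 ≤ L) (hk : k ≤ K) (hK : 0 ≤ K) (hX : 0 ≤ X)
    (h : a ≤ k * L ^ m * X) : a ≤ K * L ^ 3 * X :=
  h.trans (mul_le_mul_of_nonneg_right (mul_le_mul hk (pow_le_pow_right₀ hL hm) (by positivity) hK)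
    hX)

end CELL

open CELL in
theorem st_CELL (hKER : St_KER) (hCAU : St_CAU) (hCS : St_CS) (hCSC : St_CSC) (hDIP : St_DIP)
    (hPATH : St_PATH) (hCORR : St_CORR) : St_CELL := by
  obtain ⟨K, CK, hK⟩ := hKER
  obtain ⟨-, cau1, cau2, -⟩ := hCAU K CK hK
  obtain ⟨CS, hCS1, csc⟩ := hCSC K CK hK
  obtain ⟨CD, M0, hCD, hM1, hM2, dip⟩ := hDIP
  obtain ⟨CP, hCP, path⟩ := hPATH
  obtain ⟨CC, hCC, corr⟩ := hCORR
  obtain ⟨Ce, hCe, eta⟩ := etas_facts
  have hM0 : 0 < M0 := by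
    by_contra h
    nlinarith
  obtain ⟨J, J0, J1, J2, J3⟩ : ∃ J : ℝ, 0 ≤ J ∧ 2 * CC * CD * (CP + 16 * Ce) ≤ J ∧ 2 * CD ≤ J ∧
      CS * CP * CD ≤ J := by
    have a : 0 ≤ 2 * CC * CD * (CP + 16 * Ce) := by positivity
    have b : 0 ≤ CS * CP * CD := by positivity
    exact ⟨2 * CC * CD * (CP + 16 * Ce) + 2 * CD + CS * CP * CD, by positivity, by linarith,
      by linarith, by linarith⟩
  obtain ⟨C, C2, C3, C4, C5, C6, C7⟩ : ∃ C : ℝ, 2 ≤ C ∧ CD ≤ C ∧ CP ≤ C ∧ 2 * CP * CD ≤ C ∧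
      60 ^ 4 * CC * (1 + CD * Ce) ≤ C ∧ 2 * J ≤ C := by
    have a : 0 ≤ 2 * CP * CD := by positivity
    have b : 0 ≤ 60 ^ 4 * CC * (1 + CD * Ce) := by positivity
    exact ⟨2 + CD + CP + 2 * CP * CD + 60 ^ 4 * CC * (1 + CD * Ce) + 2 * J, by linarith,
      by linarith, by linarith, by linarith, by linarith, by linarith⟩
  refine ⟨C, by linarith, fun l rho d h d2 del e1 f u T tb L S r0 rd d20 d2d dh hl l4 del0 dell e0
    e11 f0 f4 u0 T0 hf h3 hL Sl St Sb => ?_⟩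
  have d0 : 0 < d := d20.trans_le d2d
  have rd1 : rho ≤ d := by nlinarith
  have dh2 : 2 * d ≤ h := by nlinarith
  have h0 : 0 < h := by linarith
  have l0 : 0 < l := by linarith
  have dl : d ≤ l := by linarith
  have L1 : 1 ≤ L := (one_le_lg' rho).trans hL
  obtain ⟨es, ez, eb⟩ := eta d d0
  set c0 : ℝ := rho ^ 2 * M0 / 2 with hc0
  have c00 : 0 < c0 := by positivity
  have c01 : c0 ≤ rho ^ 2 * CD / 2 := by rw [hc0]; gcongr
  set A : ℝ := rho ^ 2 * u ^ 2 * T / (C * l ^ 2) with hA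
  have SA : ∀ k ≤ 4, ∀ y, l ^ k * ∫ t, nD k (S t) y ≤ A := fun k hk y => by
    rw [hA, le_div_iff₀' (by positivity)]; exact Sb k hk y
  obtain ⟨msm, mb⟩ := par_int Sl.1 St
  obtain ⟨U, φ, Y, e, R1, R2, Us, φs, Ys, te1, te2, Ub, Uz, Ud, YD, Yb, R1s, R2s, Rz, Rid, Rb⟩ :=
    path l h d d2 u T (f * T) c0 A (tb - T) (fun y => ∫ t, S t y) d20 d2d (by linarith) hl u0
      (by positivity) (by nlinarith) c00 (by linarith) (by
        refine le_trans ?_ h3; gcongr) msm (fun y hy => by simp [Sl.2 _ y hy])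
      (fun k hk y => (mul_le_mul_of_nonneg_left (mb k y) (by positivity)).trans
        (SA k (by omega) y)) (by
        have e : CP * A * l ^ 2 = CP / C * (rho ^ 2 * u ^ 2 * T) := by
          rw [hA]; field_simp
        have e' : c0 * u ^ 2 * T = M0 / 2 * (rho ^ 2 * u ^ 2 * T) := by rw [hc0]; ring
        rw [e, e']
        refine mul_le_mul_of_nonneg_right ?_ (by positivity)
        rw [div_le_div_iff₀ (by linarith) two_pos]
        nlinarith [mul_le_mul_of_nonneg_left C5 hM0.le, mul_le_mul_of_nonneg_left hM1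
          (by linarith : (0 : ℝ) ≤ 2 * CP)])
  have Uz' : ∀ t, t ∉ Icc (tb - T) (tb + T) → U t = 0 := fun t ht =>
    Uz t fun h' => ht ⟨h'.1, by linarith [h'.2]⟩
  have φz : ∀ t, U t = 0 → deriv φ t = 0 := fun t ht => by
    have := (Ud t).2.1
    rw [ht, mul_zero] at this
    exact abs_nonpos_iff.1 (nonpos_of_mul_nonpos_left this h0)
  obtain ⟨w1, w0, XA, XB, XC, w1l, w0l, XAl, XBl, XCl, wi, Xi, Xz, wb', did⟩ :=
    dip rho d e1 L U φ r0 (by nlinarith) (by linarith) e0 e11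
      ((lg_div r0 rd1 (by linarith)).trans hL) Us φs fun t => by
        have a := (Ud t).2.1
        have b := (Ub t).1
        rw [abs_of_nonneg b]
        have : C * (|deriv φ t| * d) ≤ C * U t := by
          nlinarith [abs_nonneg (deriv φ t), mul_le_mul_of_nonneg_left dh (abs_nonneg (deriv φ t)),
            mul_le_mul_of_nonneg_right C4 b]
        exact le_of_mul_le_mul_left this (by linarith)
  refine ⟨fun t => U t * ex (φ t), Y, tb - T, e, (ofr Us).mul (sm_ex φs), YD, fun t => ⟨?_, Yb t⟩,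
    le_rfl, te1, by linarith, fun x z c xs zs cs xd xz => ?_⟩
  · rw [norm_mul, norm_ex', mul_one, Complex.norm_real, Real.norm_of_nonneg (Ub t).1]
    exact (Ub t).2
  obtain ⟨dv, G1⟩ := did x c xs cs xd
  have near : ∀ t, U t ≠ 0 → ‖x t - z t - Y t‖ ≤ del := fun t ht => by
    have : t ∈ Icc (tb - T) (tb + T) := by
      by_contra h'
      exact ht (Uz' t h')
    exact xz t (abs_le.2 ⟨by linarith [this.1], by linarith [this.2]⟩)
  have Ml : Loc (Nf c0 d U φ fun t => x t - z t) (60 * l) :=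
    Nf_loc (r := 51 * l) Us φs (xs.sub zs) es ez (fun t ht => by
      have := norm_sub_norm_le (x t - z t) (Y t)
      linarith [near t ht, Yb t]) (by linarith)
  have MYl : Loc (Nf c0 d U φ Y) (60 * l) :=
    Nf_loc (r := 50 * l) Us φs Ys es ez (fun t _ => Yb t) (by linarith)
  have Mt : TS (Nf c0 d U φ fun t => x t - z t) (tb - T) (tb + T) := Nf_ts Uz'
  have MYt : TS (Nf c0 d U φ Y) (tb - T) (tb + T) := Nf_ts Uz'
  have Sl' : Loc S (60 * l) := loc_mono Sl (by linarith)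
  set M := Nf c0 d U φ fun t => x t - z t with hM
  have Zl : Loc (fun t y => S t y + M t y) (60 * l) := loc_add Sl' Ml
  have Zt : TS (fun t y => S t y + M t y) (tb - T) (tb + T) := fun t ht y => by
    simp only [St t ht y, Mt t ht y, add_zero]
  obtain ⟨wb, fb, fs, fbd, fz, rs, wbs, wbd, wbt, wdom, G2⟩ :=
    corr (fun t y => S t y + M t y) z (60 * l) d ((1 + CD * Ce) * (rho ^ 2 * u ^ 2 * T) / d ^ 2) tb T
      Zl Zt T0 d0 (by linarith) (by linarith) zs fun k hk y => by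
        have a1 : ∫ t, nD k (fun y => S t y + M t y) y ≤
            (∫ t, nD k (S t) y) + ∫ t, nD k (M t) y := by
          rw [← integral_add (intg_nD Sl.1 St k y) (intg_nD Ml.1 Mt k y)]
          exact integral_mono (intg_nD Zl.1 Zt k y) ((intg_nD Sl.1 St k y).add (intg_nD Ml.1 Mt k y))
            fun t => nD_add' (sm_t Sl.1 t) (sm_t Ml.1 t) k y
        have a2 : d ^ k * ∫ t, nD k (S t) y ≤ rho ^ 2 * u ^ 2 * T / d ^ 2 := by
          refine (mul_le_mul_of_nonneg_right (pow_le_pow_left₀ d0.le dl k)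
            (integral_nonneg fun t => nD_nn _ _ _)).trans ((SA k hk y).trans ?_)
          refine div_le_div_of_nonneg_left (by positivity) (by positivity) ?_
          nlinarith [pow_le_pow_left₀ d0.le dl 2, sq_nonneg l]
        have a3 : ∫ t, nD k (M t) y ≤ c0 * u ^ 2 * (Ce / d ^ (2 + k)) * (tb + T - (tb - T)) :=
          int_t (by linarith) (fun t ht => nD_ts Mt k ht y) (fun t => nD_nn _ _ _)
            fun t => Nf_nD c00.le Ub es (eb k hk) t y
        have a4 : d ^ k * ∫ t, nD k (M t) y ≤ CD * Ce * (rho ^ 2 * u ^ 2 * T) / d ^ 2 := by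
          refine (mul_le_mul_of_nonneg_left a3 (by positivity)).trans ?_
          calc _ = c0 * (2 * Ce * u ^ 2 * T / d ^ 2) := by rw [pow_add]; field_simp; ring
            _ ≤ rho ^ 2 * CD / 2 * (2 * Ce * u ^ 2 * T / d ^ 2) := by gcongr
            _ = _ := by ring
        calc _ ≤ d ^ k * ((∫ t, nD k (S t) y) + ∫ t, nD k (M t) y) := by gcongr
          _ ≤ rho ^ 2 * u ^ 2 * T / d ^ 2 + CD * Ce * (rho ^ 2 * u ^ 2 * T) / d ^ 2 := by
            rw [mul_add]; exact add_le_add a2 a4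
          _ = _ := by ring
  -- the remainder
  have Dl : Loc (fun t y => M t y - Nf c0 d U φ Y t y) (60 * l) :=
    ⟨Ml.1.sub MYl.1, fun t y hy => by simp only [Ml.2 t y hy, MYl.2 t y hy, sub_zero]⟩
  have Dt : TS (fun t y => M t y - Nf c0 d U φ Y t y) (tb - T) (tb + T) := fun t ht y => by
    simp only [Mt t ht y, MYt t ht y, sub_zero]
  obtain ⟨R3, hR3⟩ : ∃ R3 : ℂ → ℂ, R3 = fun y => ∫ t, (M t y - Nf c0 d U φ Y t y) := ⟨_, rfl⟩
  have R3s : ContDiff ℝ ∞ R3 := hR3 ▸ (par_int Dl.1 Dt).1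
  have R3z : ∀ y, 60 * l < ‖y‖ → R3 y = 0 := fun y hy => by
    rw [hR3]; simp only [Ml.2 _ y hy, MYl.2 _ y hy, sub_zero, integral_zero]
  have R3b : ∀ k ≤ 2, ∫ y, nD k R3 y ≤ 16 * Ce * c0 * u ^ 2 * T * (del / d) / d ^ k := by
    intro k hk
    rw [hR3]
    refine (fub Dl Dt (by linarith) k
      (Nf_diff c00.le d0.le Ub es ez (eb (k + 1) (by omega)) del0 near)).trans (le_of_eq ?_)
    rw [pow_add, pow_add]; field_simp; ring
  have rid : (fun y => ∫ s, (S s y + M s y)) = fun y => R1 y + (R2 y + R3 y) := by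
    funext y
    have e1 : (c0 : ℂ) * ∫ t, (U t : ℂ) ^ 2 * ex (2 * φ t) * etas d (y - Y t) =
        ∫ t, Nf c0 d U φ Y t y := by
      rw [← integral_const_mul]
      refine integral_congr_ae (Eventually.of_forall fun t => ?_)
      simp only [Nf]; ring
    rw [← add_assoc, ← Rid y, e1, hR3, integral_add (intg_D Sl.1 St y) (intg_D Ml.1 Mt y)]
    simp only
    rw [integral_sub (intg_D Ml.1 Mt y) (intg_D MYl.1 MYt y)]
    ring
  simp only [congrFun rid] at G2
  have R1l : Loc (fun (_ : ℝ) y => R1 y) (60 * l) :=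
    ⟨R1s.comp contDiff_snd, fun _ y hy => (Rz y hy).1⟩
  have R2l : Loc (fun (_ : ℝ) y => R2 y + R3 y) (60 * l) :=
    ⟨(R2s.add R3s).comp contDiff_snd, fun _ y hy => by simp only [(Rz y hy).2, R3z y hy, add_zero]⟩
  have Fl : Loc (fun t y => (fb t : ℂ) * (R1 y + (R2 y + R3 y))) (60 * l) :=
    loc_mul (ofr fs) (loc_add R1l R2l)
  have U's : ContDiff ℝ ∞ (deriv U) := Us.iterate_deriv 1
  have φ's : ContDiff ℝ ∞ (deriv φ) := φs.iterate_deriv 1
  have φ''s : ContDiff ℝ ∞ (deriv (deriv φ)) := φs.iterate_deriv 2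
  have Wl : Loc (fun t y => U t * w1 t y + deriv φ t * w0 t y) (2 * d) :=
    loc_add (loc_mul (ofr Us) w1l) (loc_mul (ofr φ's) w0l)
  have F1l : Loc (fun t y => deriv U t * w1 t y) (2 * d) := loc_mul (ofr U's) w1l
  have F0l : Loc (fun t y => deriv (deriv φ) t * w0 t y) (2 * d) := loc_mul (ofr φ''s) w0l
  have q60 : 60 * l ≤ 1 / 4 := by linarith
  have q4 : 4 * d ≤ 1 / 4 := by linarith
  have q2 : 2 * d ≤ 1 / 4 := by linarith
  have sF := Fl.sp_mv q60 zs
  have sA := XAl.sp_mv q4 xs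
  have sB := XBl.sp_mv q4 xs
  have sC := XCl.sp_mv q4 xs
  have s1 := F1l.sp_mv q2 xs
  have s0 := F0l.sp_mv q2 xs
  have k1 := (cau1 _ s1).1
  have k0 := (cau1 _ s0).1
  refine ⟨mv (fun t y => U t * w1 t y + deriv φ t * w0 t y) x, wb, fun t y =>
    mv (fun t y => (fb t : ℂ) * (R1 y + (R2 y + R3 y))) z t y + 1 / 2 *
      (mv XA x t y + mv XB x t y + mv XC x t y + Cau K (mv (fun t y => deriv U t * w1 t y) x t) y +
        Cau K (mv (fun t y => deriv (deriv φ) t * w0 t y) x t) y), Wl.sp_mv q2 xs, wbs,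
    sp_add sF (sp_mul _ (sp_add (sp_add (sp_add (sp_add sA sB) sC) k1) k0)), dv, wbd,
    fun t ht y => Per_zero (fun y => by simp [Uz t ht, φz t (Uz t ht)]) _, wbt, fun t ht y => ?_,
    fun t => ⟨fun j hj y => ?_, fun y hy => per_eq_zero q2 (Wl.2 t) hy, fun j hj y => ?_, ?_⟩, fun t => ?_⟩
  · have z1 : mv (fun t y => deriv U t * w1 t y) x t = fun _ => 0 :=
      funext fun y => Per_zero (fun y => by simp [deriv_out Uz' ht]) _
    have z0 : mv (fun t y => deriv (deriv φ) t * w0 t y) x t = fun _ => 0 :=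
      funext fun y => Per_zero (fun y => by simp [deriv_out (fun t ht => φz t (Uz' t ht)) ht]) _
    have zF : mv (fun t y => (fb t : ℂ) * (R1 y + (R2 y + R3 y))) z t y = 0 :=
      Per_zero (fun y => by simp [fz t ht]) _
    have zA : mv XA x t y = 0 := Per_zero (fun y => (Xz t (Uz' t ht) y).1) _
    have zB : mv XB x t y = 0 := Per_zero (fun y => (Xz t (Uz' t ht) y).2.1) _
    have zC : mv XC x t y = 0 := Per_zero (fun y => (Xz t (Uz' t ht) y).2.2) _
    simp [z1, z0, zF, zA, zB, zC, Cau]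
  · obtain ⟨w, hw, hw'⟩ := nD_Per_pn q2 (Wl.2 t) (x t) y
    refine (hw' j).trans_le ((wb' t j hj w).trans ?_)
    rw [hw, abs_of_nonneg (Ub t).1]
    have := (Ub t).1
    have := (Ub t).2
    have : 0 < max rho (pn (y - x t)) := lt_max_of_lt_left r0
    gcongr
  · refine (wdom t j hj y).trans ((mul_le_mul_of_nonneg_left (tau60 l0) (by positivity)).trans ?_)
    have : 0 ≤ tau 3 l (pn (y - z t)) := by
      unfold tau
      have : 0 < max l (pn (y - z t)) := lt_max_of_lt_left l0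
      positivity
    calc _ = 60 ^ 4 * CC * (1 + CD * Ce) * (rho ^ 2 * u ^ 2 * T * l / d ^ 4) *
          tau 3 l (pn (y - z t)) := by field_simp
      _ ≤ C * (rho ^ 2 * u ^ 2 * T * l / d ^ 4) * tau 3 l (pn (y - z t)) := by gcongr
      _ = _ := by ring
  · have al0 : ∀ a b : ℝ, 0 ≤ a → 0 ≤ a ^ b := fun a b h => Real.rpow_nonneg h b
    have U2 : U t ^ 2 ≤ u ^ 2 := pow_le_pow_left₀ (Ub t).1 (Ub t).2 2
    have fbn : ‖(fb t : ℂ)‖ ≤ CC / T := by
      rw [Complex.norm_real, Real.norm_of_nonneg (fbd t).1]; exact (fbd t).2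
    have se : 0 < √e1 := Real.sqrt_pos.2 e0
    have se1 : √e1 ≤ 1 := Real.sqrt_le_one.2 e11
    obtain ⟨-, -, i1, i2, i3, i4⟩ := wi t
    obtain ⟨x1, x2, x3, x4, x5, x6⟩ := Xi t
    obtain ⟨g, hg⟩ : ∃ g : ℝ, g = l ^ 3 / (u * T * d2 ^ 2) + (d2 + del) / d + f + rho / d :=
      ⟨_, rfl⟩
    have g1 : 0 ≤ l ^ 3 / (u * T * d2 ^ 2) := by positivity
    have g2 : 0 ≤ d2 / d := by positivity
    have g3 : 0 ≤ del / d := by positivity
    have g4 : 0 ≤ rho / d := by positivity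
    have g5 : g = l ^ 3 / (u * T * d2 ^ 2) + d2 / d + del / d + f + rho / d := by rw [hg]; ring
    have g0 : 0 ≤ g := by linarith
    -- the slow remainder
    have T1 : Cst l (mv (fun _ y => R1 y) z t)
        (4 * (CP * c0 * u ^ 2 * T * (h / l)) * (l / l) ^ al) :=
      cst_mv hCS R1l zs q60 l0 le_rfl t (by simpa using (Rb 0 (Or.inl rfl)).1)
        (Rb 2 (Or.inr rfl)).1
    have b23 : ∀ k : ℕ, k = 0 ∨ k = 2 → ∫ y, nD k (fun y => R2 y + R3 y) y ≤
        (CP + 16 * Ce) * c0 * u ^ 2 * T * g / d ^ k := by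
      intro k hk
      have j2 := intg_y R2s (fun y hy => (Rz y hy).2) k
      have j3 := intg_y R3s R3z k
      have a1 := integral_mono (intg_y (R2s.add R3s) (R2l.2 t) k) (j2.add j3)
        fun y => nD_add' R2s R3s k y
      rw [integral_add' j2 j3] at a1
      have a2 := (Rb k hk).2
      rw [mul_div_assoc f, div_self T0.ne', mul_one] at a2
      refine (a1.trans (add_le_add a2 (R3b k (by omega)))).trans ?_
      rw [← add_div]
      refine div_le_div_of_nonneg_right ?_ (by positivity)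
      calc _ ≤ CP * c0 * u ^ 2 * T * g + 16 * Ce * c0 * u ^ 2 * T * g := by
            gcongr <;> linarith
        _ = _ := by ring
    have T2 : Cst l (mv (fun _ y => R2 y + R3 y) z t)
        (4 * ((CP + 16 * Ce) * c0 * u ^ 2 * T * g) * (l / d) ^ al) :=
      cst_mv hCS R2l zs q60 d0 dl t (by simpa using b23 0 (Or.inl rfl)) (b23 2 (Or.inr rfl))
    have TA : Cst l (mv XA x t) (4 * (CD * U t ^ 2 * rho ^ 2 * e1) * (l / (rho * √e1)) ^ al) :=
      cst_mv hCS XAl xs q4 (by positivity) (by nlinarith) t x1 (x2.trans (le_of_eq (by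
        rw [mul_pow, Real.sq_sqrt e0.le]; field_simp)))
    have TB : Cst l (mv XB x t)
        (4 * (CD * U t ^ 2 * rho ^ 2 * L ^ 2 * (rho / d) ^ 2) * (l / rho) ^ al) :=
      cst_mv hCS XBl xs q4 r0 (by linarith) t x3 (x4.trans (le_of_eq (by field_simp)))
    have TC : Cst l (mv XC x t)
        (4 * (CD * U t ^ 2 * rho ^ 2 * L ^ 2 * (rho / d)) * (l / d) ^ al) :=
      cst_mv hCS XCl xs q4 d0 dl t x5 x6
    have n1 : ‖((deriv U t : ℝ) : ℂ)‖ ≤ CP * u / (f * T) := by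
      rw [Complex.norm_real]; exact (Ud t).1
    have n0 : ‖((deriv (deriv φ) t : ℝ) : ℂ)‖ ≤ CP * u ^ 2 / h ^ 2 := by
      rw [Complex.norm_real]; exact (Ud t).2.2
    have T6 := csc _ (2 * d) rho l (CP * u / (f * T) * (CD * rho ^ 2 * L ^ 2)) (x t) (sm_t F1l.1 t)
      (F1l.2 t) r0 (by linarith) (by linarith) (by linarith)
      (by rw [integral_const_mul, (wi t).1, mul_zero]) (int_mul (sm_t w1l.1 t) n1 i1)
      ((int_mul (sm_t w1l.1 t) n1 i2).trans (by
        rw [mul_div_assoc (CP * u / (f * T))]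
        refine mul_le_mul_of_nonneg_left ?_ (by positivity)
        calc CD * rho * L ≤ CD * rho * L ^ 2 := by gcongr; nlinarith
          _ = _ := by field_simp))
    have T7 := csc _ (2 * d) d l (CP * u ^ 2 / h ^ 2 * (CD * rho ^ 2 * d * L)) (x t) (sm_t F0l.1 t)
      (F0l.2 t) d0 (by linarith) (by linarith) (by linarith)
      (by rw [integral_const_mul, (wi t).2.1, mul_zero])
      ((int_mul (sm_t w0l.1 t) n0 i3).trans (mul_le_mul_of_nonneg_left
        (le_mul_of_one_le_right (by positivity) L1) (by positivity)))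
      ((int_mul (sm_t w0l.1 t) n0 i4).trans (le_of_eq (by field_simp)))
    have cA := (sm_t sA.1 t).continuous
    have cB := (sm_t sB.1 t).continuous
    have cC := (sm_t sC.1 t).continuous
    have c1 := (sm_t k1.1 t).continuous
    have c0' := (sm_t k0.1 t).continuous
    have cR1 := (sm_t (R1l.sp_mv q60 zs).1 t).continuous
    have cR2 := (sm_t (R2l.sp_mv q60 zs).1 t).continuous
    have hf' : ‖(1 / 2 : ℂ)‖ ≤ 1 / 2 := by simp
    have TT := Cst.add (continuous_const.mul (cR1.add cR2))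
      (continuous_const.mul ((((cA.add cB).add cC).add c1).add c0'))
      (Cst_mul (Cst.add cR1 cR2 T1 T2) l0 fbn)
      (Cst_mul (Cst.add (((cA.add cB).add cC).add c1) c0' (Cst.add ((cA.add cB).add cC) c1
        (Cst.add (cA.add cB) cC (Cst.add cA cB TA TB) TC) T6) T7) l0 hf')
    refine (TT.congr fun y => ?_).mono l0 ?_
    · refine congrArg₂ (· + ·) ?_ rfl
      simp only [mv]
      rw [per_const_mul, per_add q60 (R1l.2 t) (R2l.2 t)]
      rfl
    have p1 := al0 (l / d) al (by positivity)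
    have p2 := al0 (l / (rho * √e1)) al (by positivity)
    have p3 := al0 (l / rho) al (by positivity)
    have p4 := al0 (l / rho) (al - 1) (by positivity)
    have p5 := al0 (l / d) (al - 1) (by positivity)
    have lgd : lg d ≤ L := (lg_anti r0 rd1 (by linarith)).trans hL
    have J4 : 2 * CC * CD * CP ≤ J := by
      refine le_trans ?_ J1
      gcongr
      linarith
    have B1 : CC / T * (4 * (CP * c0 * u ^ 2 * T * (h / l)) * (l / l) ^ al) ≤
        J * L ^ 3 * (u ^ 2 * rho ^ 2 * (h / l)) := by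
      refine fin3 0 (by omega) L1 J4 J0 (by positivity) ?_
      rw [div_self l0.ne', Real.one_rpow]
      calc _ ≤ CC / T * (4 * (CP * (rho ^ 2 * CD / 2) * u ^ 2 * T * (h / l)) * 1) := by gcongr
        _ = _ := by field_simp; ring
    have B2 : CC / T * (4 * ((CP + 16 * Ce) * c0 * u ^ 2 * T * g) * (l / d) ^ al) ≤
        J * L ^ 3 * (u ^ 2 * rho ^ 2 * (g * (l / d) ^ al)) := by
      refine fin3 0 (by omega) L1 J1 J0 (by positivity) ?_
      calc _ ≤ CC / T * (4 * ((CP + 16 * Ce) * (rho ^ 2 * CD / 2) * u ^ 2 * T * g) *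
            (l / d) ^ al) := by gcongr
        _ = _ := by field_simp; ring
    have B3 : 1 / 2 * (4 * (CD * U t ^ 2 * rho ^ 2 * e1) * (l / (rho * √e1)) ^ al) ≤
        J * L ^ 3 * (u ^ 2 * rho ^ 2 * (e1 * (l / (rho * √e1)) ^ al)) := by
      refine fin3 0 (by omega) L1 J2 J0 (by positivity) ?_
      calc _ ≤ 1 / 2 * (4 * (CD * u ^ 2 * rho ^ 2 * e1) * (l / (rho * √e1)) ^ al) := by gcongr
        _ = _ := by ring
    have B4 : 1 / 2 * (4 * (CD * U t ^ 2 * rho ^ 2 * L ^ 2 * (rho / d) ^ 2) * (l / rho) ^ al) ≤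
        J * L ^ 3 * (u ^ 2 * rho ^ 2 * ((rho / d) ^ 2 * (l / rho) ^ al)) := by
      refine fin3 2 (by omega) L1 J2 J0 (by positivity) ?_
      calc _ ≤ 1 / 2 * (4 * (CD * u ^ 2 * rho ^ 2 * L ^ 2 * (rho / d) ^ 2) * (l / rho) ^ al) := by
            gcongr
        _ = _ := by ring
    have B5 : 1 / 2 * (4 * (CD * U t ^ 2 * rho ^ 2 * L ^ 2 * (rho / d)) * (l / d) ^ al) ≤
        J * L ^ 3 * (u ^ 2 * rho ^ 2 * (g * (l / d) ^ al)) := by
      refine fin3 2 (by omega) L1 J2 J0 (by positivity) ?_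
      have : rho / d ≤ g := by linarith
      calc _ ≤ 1 / 2 * (4 * (CD * u ^ 2 * rho ^ 2 * L ^ 2 * g) * (l / d) ^ al) := by gcongr
        _ = _ := by ring
    have B6 : CS * (CP * u / (f * T) * (CD * rho ^ 2 * L ^ 2)) * lg rho * l * (l / rho) ^ (al - 1) ≤
        J * L ^ 3 * (u ^ 2 * rho ^ 2 * (l * (l / rho) ^ (al - 1) / (f * (u * T)))) := by
      refine fin3 3 (by omega) L1 J3 J0 (by positivity) ?_
      calc _ ≤ CS * (CP * u / (f * T) * (CD * rho ^ 2 * L ^ 2)) * L * l * (l / rho) ^ (al - 1) := by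
            gcongr
        _ = _ := by field_simp
    have B7 : CS * (CP * u ^ 2 / h ^ 2 * (CD * rho ^ 2 * d * L)) * lg d * l * (l / d) ^ (al - 1) ≤
        J * L ^ 3 * (u ^ 2 * rho ^ 2 * (d * l * (l / d) ^ (al - 1) / h ^ 2)) := by
      refine fin3 2 (by omega) L1 J3 J0 (by positivity) ?_
      calc _ ≤ CS * (CP * u ^ 2 / h ^ 2 * (CD * rho ^ 2 * d * L)) * L * l * (l / d) ^ (al - 1) := by
            gcongr
        _ = _ := by field_simp
    have gam0 : 0 ≤ Gam l rho d h d2 del e1 f (u * T) := by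
      unfold Gam; positivity
    have fin : 2 * J * L ^ 3 * u ^ 2 * rho ^ 2 * Gam l rho d h d2 del e1 f (u * T) ≤
        C * L ^ 3 * u ^ 2 * rho ^ 2 * Gam l rho d h d2 del e1 f (u * T) := by gcongr
    refine le_trans ?_ fin
    unfold Gam
    rw [← hg]
    have n1 : 0 ≤ J * L ^ 3 * (u ^ 2 * rho ^ 2 * (h / l)) := by positivity
    have n3 : 0 ≤ J * L ^ 3 * (u ^ 2 * rho ^ 2 * (e1 * (l / (rho * √e1)) ^ al)) := by positivity
    have n4 : 0 ≤ J * L ^ 3 * (u ^ 2 * rho ^ 2 * ((rho / d) ^ 2 * (l / rho) ^ al)) := by positivity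
    have n6 : 0 ≤ J * L ^ 3 * (u ^ 2 * rho ^ 2 * (l * (l / rho) ^ (al - 1) / (f * (u * T)))) := by
      positivity
    have n7 : 0 ≤ J * L ^ 3 * (u ^ 2 * rho ^ 2 * (d * l * (l / d) ^ (al - 1) / h ^ 2)) := by
      positivity
    linarith
  · have Nl : Loc (Nf c0 d U φ fun _ => 0) (4 * d) :=
      Nf_loc (r := 0) Us φs contDiff_const es ez (fun t _ => by simp) (by linarith)
    have sN := sm_t (Nl.sp_mv q4 xs).1 t
    have sS := sm_t (Sl'.sp_mv q60 zs).1 t
    have e1 : mv (fun t y => S t y + M t y) z t =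
        fun y => mv S z t y + mv (Nf c0 d U φ fun _ => 0) x t y := by
      funext y
      refine (per_add q60 (Sl'.2 t) (Ml.2 t) _).trans (congrArg _ (tsum_congr fun n => ?_))
      simp only [hM, Nf]
      rw [show y - z t - lat n - (x t - z t) = y - x t - lat n - 0 by ring]
    have e2 : mv (fun t y => U t ^ 2 * rho ^ 2 * M0 * ex (2 * φ t) * etas d y
        + XA t y + XB t y + XC t y) x t = fun y => 2 * mv (Nf c0 d U φ fun _ => 0) x t y +
          mv XA x t y + mv XB x t y + mv XC x t y := by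
      funext y
      have n2 := loc_mul (contDiff_const (c := (2 : ℂ))) Nl
      have e : (fun y => (U t : ℂ) ^ 2 * rho ^ 2 * M0 * ex (2 * φ t) * etas d y
          + XA t y + XB t y + XC t y) = fun y => 2 * Nf c0 d U φ (fun _ => 0) t y
          + XA t y + XB t y + XC t y := by
        funext y
        simp only [Nf, hc0, sub_zero]
        push_cast
        ring
      simp only [mv]
      rw [e, per_add q4 ((loc_add (loc_add n2 XAl) XBl).2 t) (XCl.2 t),
        per_add q4 ((loc_add n2 XAl).2 t) (XBl.2 t), per_add q4 (n2.2 t) (XAl.2 t), per_const_mul]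
    have m1 : ∫ y in cell, mv (fun t y => deriv U t * w1 t y) x t y = 0 := by
      refine (integral_cell_Per q2 (F1l.2 t) (x t)).trans ?_
      rw [integral_const_mul, (wi t).1, mul_zero]
    have m0 : ∫ y in cell, mv (fun t y => deriv (deriv φ) t * w0 t y) x t y = 0 := by
      refine (integral_cell_Per q2 (F0l.2 t) (x t)).trans ?_
      rw [integral_const_mul, (wi t).2.1, mul_zero]
    have g := isG_add (G1 t) (G2 t)
    refine (congrArg IsG (funext fun y => ?_)).mp g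
    have tA := sm_t sA.1 t
    have tB := sm_t sB.1 t
    have tC := sm_t sC.1 t
    have t1 := sm_t k1.1 t
    have t0 := sm_t k0.1 t
    have p1 : mv (fun t y => deriv U t * w1 t y) x t y = deriv U t * mv w1 x t y :=
      per_const_mul _ _ _
    have p0 : mv (fun t y => deriv (deriv φ) t * w0 t y) x t y = deriv (deriv φ) t * mv w0 x t y :=
      per_const_mul _ _ _
    simp only []
    rw [e1, e2, dz_add' sS sN, dz_add' (((contDiff_const.mul sN).add tA).add tB) tC,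
      dz_add' ((contDiff_const.mul sN).add tA) tB, dz_add' (contDiff_const.mul sN) tA, dz_mul sN,
      dz_add' (sm_t sF.1 t) (contDiff_const.mul ((((tA.add tB).add tC).add t1).add t0)),
      dz_mul ((((tA.add tB).add tC).add t1).add t0), dz_add' (((tA.add tB).add tC).add t1) t0,
      dz_add' ((tA.add tB).add tC) t1, dz_add' (tA.add tB) tC, dz_add' tA tB,
      (cau2 _ (sm_t s1.1 t) (s1.2 t)).2.2.2.2 y, (cau2 _ (sm_t s0.1 t) (s0.2 t)).2.2.2.2 y, m1, m0,
      p1, p0]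
    ring

end

end Pool.Agent.Lib.EUL
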