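import Pool.Agent.Lib.EUL.Defs

set_option autoImplicit false

namespace Pool.Agent.Lib.EUL

open MeasureTheory Set Filter Topology
open scoped ContDiff Classical

noncomputable section

/-! ### lattice -/

@[simp] theorem lat_re (n : ℤ × ℤ) : (lat n).re = n.1 := by simp [lat]
@[simp] theorem lat_im (n : ℤ × ℤ) : (lat n).im = n.2 := by simp [lat]
@[simp] theorem lat_zero : lat 0 = 0 := by simp [lat]
theorem lat_add (m n : ℤ × ℤ) : lat (m + n) = lat m + lat n := by
  apply Complex.ext <;> simp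
theorem lat_neg (n : ℤ × ℤ) : lat (-n) = -lat n := by apply Complex.ext <;> simp
theorem lat_sub (m n : ℤ × ℤ) : lat (m - n) = lat m - lat n := by apply Complex.ext <;> simp

theorem one_le_norm_lat {n : ℤ × ℤ} (hn : n ≠ 0) : 1 ≤ ‖lat n‖ := by
  by_cases h1 : n.1 = 0
  · have h2 : n.2 ≠ 0 := fun h => hn (Prod.ext h1 h)
    have : (1 : ℝ) ≤ |(n.2 : ℝ)| := by exact_mod_cast Int.one_le_abs h2
    simpa using this.trans (by simpa using Complex.abs_im_le_norm (lat n))
  · have : (1 : ℝ) ≤ |(n.1 : ℝ)| := by exact_mod_cast Int.one_le_abs h1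
    simpa using this.trans (by simpa using Complex.abs_re_le_norm (lat n))

theorem one_le_norm_lat_sub {m n : ℤ × ℤ} (h : m ≠ n) : 1 ≤ ‖lat m - lat n‖ := by
  rw [← lat_sub]; exact one_le_norm_lat (sub_ne_zero.2 h)

theorem lat_injective : Function.Injective lat := fun m n h => by
  by_contra hne
  have := one_le_norm_lat_sub hne
  rw [h, sub_self, norm_zero] at this
  linarith

/-! ### the cell -/

theorem mem_cell {z : ℂ} : z ∈ cell ↔
    (-1 / 2 < z.re ∧ z.re ≤ 1 / 2) ∧ (-1 / 2 < z.im ∧ z.im ≤ 1 / 2) := Iff.rfl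

theorem measurableSet_cell : MeasurableSet cell :=
  (Complex.measurable_re measurableSet_Ioc).inter (Complex.measurable_im measurableSet_Ioc)

theorem volume_cell : volume cell = 1 := by
  have h := Complex.volume_preserving_equiv_real_prod.measure_preimage
    (s := Ioc (-1 / 2 : ℝ) (1 / 2) ×ˢ Ioc (-1 / 2 : ℝ) (1 / 2))
    (measurableSet_Ioc.prod measurableSet_Ioc).nullMeasurableSet
  have e : Complex.measurableEquivRealProd ⁻¹' (Ioc (-1 / 2 : ℝ) (1 / 2) ×ˢ Ioc (-1 / 2 : ℝ) (1 / 2))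
      = cell := by
    ext z; simp [cell]
  rw [e, Measure.volume_eq_prod, Measure.prod_prod, Real.volume_Ioc] at h
  rw [h]; norm_num

instance : IsProbabilityMeasure (volume.restrict cell : Measure ℂ) :=
  ⟨by rw [Measure.restrict_apply_univ, volume_cell]⟩

theorem norm_le_of_mem_cell {z : ℂ} (h : z ∈ cell) : ‖z‖ ≤ 3 / 4 := by
  obtain ⟨⟨h1, h2⟩, h3, h4⟩ := mem_cell.1 h
  have : ‖z‖ ^ 2 ≤ (3 / 4) ^ 2 := by
    rw [Complex.sq_norm, Complex.normSq_apply]; nlinarith
  exact (pow_le_pow_iff_left₀ (norm_nonneg _) (by norm_num) two_ne_zero).1 this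

theorem cell_subset_closedBall : cell ⊆ Metric.closedBall 0 (3 / 4) := fun z hz => by
  simpa using norm_le_of_mem_cell hz

theorem mem_cell_of_norm_lt {z : ℂ} (h : ‖z‖ < 1 / 2) : z ∈ cell := by
  have h1 := abs_lt.1 ((Complex.abs_re_le_norm z).trans_lt h)
  have h2 := abs_lt.1 ((Complex.abs_im_le_norm z).trans_lt h)
  exact mem_cell.2 ⟨⟨by linarith [h1.1], h1.2.le⟩, by linarith [h2.1], h2.2.le⟩

theorem exists_mem_cell (z : ℂ) : ∃ n, z - lat n ∈ cell := by
  refine ⟨(⌈z.re - 1 / 2⌉, ⌈z.im - 1 / 2⌉), mem_cell.2 ?_⟩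
  have a1 := Int.le_ceil (z.re - 1 / 2)
  have a2 := Int.ceil_lt_add_one (z.re - 1 / 2)
  have b1 := Int.le_ceil (z.im - 1 / 2)
  have b2 := Int.ceil_lt_add_one (z.im - 1 / 2)
  simp only [Complex.sub_re, Complex.sub_im, lat_re, lat_im]
  exact ⟨⟨by linarith, by linarith⟩, by linarith, by linarith⟩

theorem cell_unique {z : ℂ} {m n : ℤ × ℤ} (hm : z - lat m ∈ cell) (hn : z - lat n ∈ cell) :
    m = n := by
  obtain ⟨⟨h1, h2⟩, h3, h4⟩ := mem_cell.1 hm
  obtain ⟨⟨k1, k2⟩, k3, k4⟩ := mem_cell.1 hn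
  simp only [Complex.sub_re, Complex.sub_im, lat_re, lat_im] at *
  have e1 : ((m.1 - n.1 : ℤ) : ℝ) < 1 ∧ (-1 : ℝ) < ((m.1 - n.1 : ℤ) : ℝ) := by
    push_cast; constructor <;> linarith
  have e2 : ((m.2 - n.2 : ℤ) : ℝ) < 1 ∧ (-1 : ℝ) < ((m.2 - n.2 : ℤ) : ℝ) := by
    push_cast; constructor <;> linarith
  have f1 : m.1 - n.1 < 1 := by exact_mod_cast e1.1
  have f2 : -1 < m.1 - n.1 := by exact_mod_cast e1.2
  have f3 : m.2 - n.2 < 1 := by exact_mod_cast e2.1
  have f4 : -1 < m.2 - n.2 := by exact_mod_cast e2.2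
  exact Prod.ext (by omega) (by omega)

/-! ### distance to the lattice -/

theorem pn_nonneg (z : ℂ) : 0 ≤ pn z := Metric.infDist_nonneg

theorem pn_le (z : ℂ) (n : ℤ × ℤ) : pn z ≤ ‖z - lat n‖ := by
  rw [← dist_eq_norm]; exact Metric.infDist_le_dist_of_mem ⟨n, rfl⟩

theorem pn_le_norm (z : ℂ) : pn z ≤ ‖z‖ := by simpa using pn_le z 0

theorem continuous_pn : Continuous pn := Metric.continuous_infDist_pt _

theorem pn_le_add (a b : ℂ) : pn a ≤ pn b + ‖a - b‖ := by
  rw [← dist_eq_norm]; exact Metric.infDist_le_infDist_add_dist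

theorem le_pn {z : ℂ} {r : ℝ} (h : ∀ n, r ≤ ‖z - lat n‖) : r ≤ pn z :=
  (Metric.le_infDist (range_nonempty _)).2 (by rintro _ ⟨n, rfl⟩; rw [dist_eq_norm]; exact h n)

theorem pn_add_lat (z : ℂ) (n : ℤ × ℤ) : pn (z + lat n) = pn z := by
  apply le_antisymm
  · refine le_pn fun m => (pn_le _ (m + n)).trans_eq ?_
    rw [lat_add]; congr 1; ring
  · refine le_pn fun m => (pn_le _ (m - n)).trans_eq ?_
    rw [lat_sub]; congr 1; ring

theorem pn_sub_lat (z : ℂ) (n : ℤ × ℤ) : pn (z - lat n) = pn z := by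
  rw [sub_eq_add_neg, ← lat_neg, pn_add_lat]

theorem pn_neg (z : ℂ) : pn (-z) = pn z := by
  have h : ∀ w : ℂ, pn (-w) ≤ pn w := fun w => le_pn fun m => (pn_le _ (-m)).trans_eq (by
    rw [lat_neg, ← norm_neg]; congr 1; ring)
  exact le_antisymm (h z) (by simpa using h (-z))

theorem pn_sub_comm (a b : ℂ) : pn (a - b) = pn (b - a) := by rw [← pn_neg]; congr 1; ring

theorem sq_le_sq_sub_int {a : ℝ} (h1 : -1 / 2 ≤ a) (h2 : a ≤ 1 / 2) (k : ℤ) :
    a * a ≤ (a - k) * (a - k) := by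
  rcases lt_trichotomy k 0 with h | h | h
  · have : (k : ℝ) ≤ -1 := by exact_mod_cast Int.le_sub_one_of_lt h
    nlinarith
  · simp [h]
  · have : (1 : ℝ) ≤ k := by exact_mod_cast h
    nlinarith

theorem pn_of_abs_le {z : ℂ} (h1 : |z.re| ≤ 1 / 2) (h2 : |z.im| ≤ 1 / 2) : pn z = ‖z‖ := by
  refine le_antisymm (pn_le_norm z) (le_pn fun n => ?_)
  have a := abs_le.1 h1
  have b := abs_le.1 h2
  have : ‖z‖ ^ 2 ≤ ‖z - lat n‖ ^ 2 := by
    rw [Complex.sq_norm, Complex.sq_norm, Complex.normSq_apply, Complex.normSq_apply]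
    simp only [Complex.sub_re, Complex.sub_im, lat_re, lat_im]
    exact add_le_add (sq_le_sq_sub_int (by linarith [a.1]) a.2 _)
      (sq_le_sq_sub_int (by linarith [b.1]) b.2 _)
  exact (pow_le_pow_iff_left₀ (norm_nonneg _) (norm_nonneg _) two_ne_zero).1 this

theorem pn_of_mem_cell {z : ℂ} (h : z ∈ cell) : pn z = ‖z‖ := by
  obtain ⟨⟨h1, h2⟩, h3, h4⟩ := mem_cell.1 h
  exact pn_of_abs_le (abs_le.2 ⟨by linarith, h2⟩) (abs_le.2 ⟨by linarith, h4⟩)

theorem pn_of_norm_le {z : ℂ} (h : ‖z‖ ≤ 1 / 2) : pn z = ‖z‖ :=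
  pn_of_abs_le ((Complex.abs_re_le_norm z).trans h) ((Complex.abs_im_le_norm z).trans h)

theorem exists_pn (z : ℂ) : ∃ n, z - lat n ∈ cell ∧ pn z = ‖z - lat n‖ := by
  obtain ⟨n, hn⟩ := exists_mem_cell z
  exact ⟨n, hn, by rw [← pn_of_mem_cell hn, pn_sub_lat]⟩

theorem pn_le_34 (z : ℂ) : pn z ≤ 3 / 4 := by
  obtain ⟨n, hn, e⟩ := exists_pn z
  rw [e]; exact norm_le_of_mem_cell hn

theorem pn_add_le (a b : ℂ) : pn (a + b) ≤ pn a + pn b := by
  obtain ⟨m, -, e⟩ := exists_pn a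
  obtain ⟨n, -, e'⟩ := exists_pn b
  rw [e, e']
  refine (pn_le _ (m + n)).trans ((le_of_eq ?_).trans (norm_add_le _ _))
  rw [lat_add]; congr 1; ring

theorem pn_triangle (a b c : ℂ) : pn (a - c) ≤ pn (a - b) + pn (b - c) := by
  have := pn_add_le (a - b) (b - c)
  rwa [sub_add_sub_cancel] at this

@[simp] theorem pn_zero : pn 0 = 0 := le_antisymm (by simpa using pn_le_norm 0) (pn_nonneg 0)

/-! ### periodic functions -/

theorem Peri.sub_lat {E : Type} {f : ℂ → E} (h : Peri f) (n : ℤ × ℤ) (z : ℂ) :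
    f (z - lat n) = f z := by rw [sub_eq_add_neg, ← lat_neg, h]

theorem Peri.comp {E F : Type} {f : ℂ → E} (h : Peri f) (g : E → F) : Peri fun x => g (f x) :=
  fun n z => by simp only [h n z]

theorem Peri.comp₂ {E F G : Type} {f : ℂ → E} {f' : ℂ → F} (h : Peri f) (h' : Peri f')
    (g : E → F → G) : Peri fun x => g (f x) (f' x) := fun n z => by simp only [h n z, h' n z]

theorem peri_const {E : Type} (c : E) : Peri fun _ : ℂ => c := fun _ _ => rfl

theorem Peri.add_right {E : Type} {f : ℂ → E} (h : Peri f) (y : ℂ) : Peri fun x => f (x + y) :=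
  fun n z => by simp only [add_right_comm z (lat n) y, h n]

theorem Peri.sub_right {E : Type} {f : ℂ → E} (h : Peri f) (y : ℂ) : Peri fun x => f (x - y) := by
  simpa only [sub_eq_add_neg] using h.add_right (-y)

theorem Peri.sub_left {E : Type} {f : ℂ → E} (h : Peri f) (y : ℂ) : Peri fun x => f (y - x) :=
  fun n z => by simp only [← sub_sub, h.sub_lat n]

theorem Peri.add {E : Type} [Add E] {f g : ℂ → E} (hf : Peri f) (hg : Peri g) :
    Peri fun x => f x + g x := hf.comp₂ hg (· + ·)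

theorem Peri.sub {E : Type} [Sub E] {f g : ℂ → E} (hf : Peri f) (hg : Peri g) :
    Peri fun x => f x - g x := hf.comp₂ hg (· - ·)

theorem Peri.mul {E : Type} [Mul E] {f g : ℂ → E} (hf : Peri f) (hg : Peri g) :
    Peri fun x => f x * g x := hf.comp₂ hg (· * ·)

theorem peri_sum {E ι : Type} [AddCommMonoid E] (s : Finset ι) {f : ι → ℂ → E}
    (h : ∀ i ∈ s, Peri (f i)) : Peri fun x => ∑ i ∈ s, f i x :=
  fun n z => Finset.sum_congr rfl fun i hi => h i hi n z

theorem peri_pn : Peri pn := fun n z => pn_add_lat z n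

theorem peri_pn_sub (p : ℂ) : Peri fun x => pn (x - p) := peri_pn.sub_right p

theorem Peri.iteratedFDeriv {E : Type} [NormedAddCommGroup E] [NormedSpace ℝ E] {f : ℂ → E}
    (h : Peri f) (k : ℕ) : Peri (iteratedFDeriv ℝ k f) := fun n z => by
  have e : (fun x => f (x + lat n)) = f := funext fun x => h n x
  rw [← iteratedFDeriv_comp_add_right, e]

theorem Peri.fderiv {E : Type} [NormedAddCommGroup E] [NormedSpace ℝ E] {f : ℂ → E}
    (h : Peri f) : Peri (fderiv ℝ f) := fun n z => by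
  have e : (fun x => f (x + lat n)) = f := funext fun x => h n x
  rw [← fderiv_comp_add_right, e]

theorem Peri.nD {f : ℂ → ℂ} (h : Peri f) (k : ℕ) : Peri (nD k f) := (h.iteratedFDeriv k).comp norm

theorem Peri.dz {f : ℂ → ℂ} (h : Peri f) : Peri (dz f) := fun n z => by
  simp only [EUL.dz, h.fderiv n z]

theorem Peri.dzb {f : ℂ → ℂ} (h : Peri f) : Peri (dzb f) := fun n z => by
  simp only [EUL.dzb, h.fderiv n z]

theorem Peri.cj {f : ℂ → ℂ} (h : Peri f) : Peri (cj f) := h.comp _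

/-- a continuous periodic function is bounded -/
theorem Peri.bdd {E : Type} [NormedAddCommGroup E] {f : ℂ → E} (h : Peri f) (hf : Continuous f) :
    ∃ C, ∀ x, ‖f x‖ ≤ C := by
  obtain ⟨C, hC⟩ := (isCompact_closedBall (0 : ℂ) (3 / 4)).exists_bound_of_continuousOn
    hf.continuousOn
  refine ⟨C, fun x => ?_⟩
  obtain ⟨n, hn⟩ := exists_mem_cell x
  rw [← h.sub_lat n]; exact hC _ (cell_subset_closedBall hn)

/-- uniform bound on a compact time interval -/
theorem bdd_Icc {E : Type} [NormedAddCommGroup E] {f : ℝ → ℂ → E}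
    (hf : Continuous fun p : ℝ × ℂ => f p.1 p.2) (h : ∀ t, Peri (f t)) (a b : ℝ) :
    ∃ C, ∀ t ∈ Icc a b, ∀ x, ‖f t x‖ ≤ C := by
  obtain ⟨C, hC⟩ := ((isCompact_Icc (a := a) (b := b)).prod
    (isCompact_closedBall (0 : ℂ) (3 / 4))).exists_bound_of_continuousOn hf.continuousOn
  refine ⟨C, fun t ht x => ?_⟩
  obtain ⟨n, hn⟩ := exists_mem_cell x
  rw [← (h t).sub_lat n]; exact hC (t, _) ⟨ht, cell_subset_closedBall hn⟩

/-! ### integrals over the cell -/

/-- the lattice as a group acting on the plane -/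
def Lz : Type := ℤ × ℤ

instance : AddCommGroup Lz := inferInstanceAs (AddCommGroup (ℤ × ℤ))
instance : Countable Lz := inferInstanceAs (Countable (ℤ × ℤ))
instance : MeasurableSpace Lz := ⊤
instance : AddAction Lz ℂ where
  vadd n z := z + lat n
  zero_vadd z := by
    change z + lat 0 = z
    simp
  add_vadd m n z := by
    have h : ∀ a b : ℤ × ℤ, z + lat (a + b) = z + lat b + lat a := fun a b => by
      rw [lat_add]; ring
    exact h m n

theorem lz_vadd (n : Lz) (z : ℂ) : n +ᵥ z = z + lat n := rfl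

instance : MeasurableConstVAdd Lz ℂ := ⟨fun n => measurable_add_const (lat n)⟩

instance : VAddInvariantMeasure Lz ℂ volume :=
  ⟨fun n s _ => measure_preimage_add_right volume (lat n) s⟩

theorem fd_of_map {φ : ℂ → ℂ} (hm : Measurable φ) (σ : ℤ × ℤ ≃ ℤ × ℤ)
    (hφ : ∀ z n, φ (z + lat n) = φ z - lat (σ n)) :
    IsAddFundamentalDomain Lz (φ ⁻¹' cell) (volume : Measure ℂ) := by
  refine IsAddFundamentalDomain.mk' (hm measurableSet_cell).nullMeasurableSet fun x => ?_
  obtain ⟨n, hn⟩ := exists_mem_cell (φ x)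
  refine ⟨σ.symm n, ?_, fun m hm' => ?_⟩
  · change φ (x + lat (σ.symm n)) ∈ cell
    rwa [hφ, σ.apply_symm_apply]
  · change φ (x + lat m) ∈ cell at hm'
    rw [hφ] at hm'
    have := cell_unique hm' hn
    exact σ.eq_symm_apply.2 this

theorem fd_cell : IsAddFundamentalDomain Lz cell (volume : Measure ℂ) :=
  fd_of_map (φ := id) measurable_id (Equiv.neg _) fun z n => by
    simp [lat_neg]

section
variable {E : Type} [NormedAddCommGroup E] [NormedSpace ℝ E]

theorem integral_cell_shift {f : ℂ → E} (h : Peri f) (y : ℂ) :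
    ∫ x in cell, f (x + y) = ∫ x in cell, f x := by
  have h1 := fd_of_map (φ := fun z => z - y) (by fun_prop) (Equiv.neg _) fun z n => by
    simp only [Equiv.neg_apply, lat_neg]; ring
  rw [fd_cell.setIntegral_eq h1 (f := f) fun n x => h n x]
  have h2 := (measurePreserving_sub_right (volume : Measure ℂ) y).setIntegral_preimage_emb
    (measurableEmbedding_subRight y) (fun x => f (x + y)) cell
  simpa using h2.symm

theorem integral_cell_sub_right {f : ℂ → E} (h : Peri f) (y : ℂ) :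
    ∫ x in cell, f (x - y) = ∫ x in cell, f x := by
  simpa only [sub_eq_add_neg] using integral_cell_shift h (-y)

theorem integral_cell_sub_left {f : ℂ → E} (h : Peri f) (y : ℂ) :
    ∫ x in cell, f (y - x) = ∫ x in cell, f x := by
  have h1 := fd_of_map (φ := fun z => y - z) (by fun_prop) (Equiv.refl _) fun z n => by
    simp only [Equiv.refl_apply]; ring
  rw [fd_cell.setIntegral_eq h1 (f := f) fun n x => h n x]
  have h2 := (Measure.measurePreserving_sub_left (volume : Measure ℂ) y).setIntegral_preimage_emb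
    (measurableEmbedding_subLeft y) (fun x => f (y - x)) cell
  simpa using h2.symm

omit [NormedSpace ℝ E] in
theorem integrableOn_cell_shift {f : ℂ → E} (h : Peri f) (hf : IntegrableOn f cell) (y : ℂ) :
    IntegrableOn (fun x => f (x + y)) cell := by
  have h1 := fd_of_map (φ := fun z => z - y) (by fun_prop) (Equiv.neg _) fun z n => by
    simp only [Equiv.neg_apply, lat_neg]; ring
  have h2 := (fd_cell.integrableOn_iff h1 (f := f) fun n x => h n x).1 hf
  have h3 := (measurePreserving_sub_right (volume : Measure ℂ) y).integrableOn_comp_preimage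
    (measurableEmbedding_subRight y) (f := fun x => f (x + y)) (s := cell)
  refine h3.1 ?_
  simpa [Function.comp_def] using h2

omit [NormedSpace ℝ E] in
theorem integrableOn_cell_sub_left {f : ℂ → E} (h : Peri f) (hf : IntegrableOn f cell) (y : ℂ) :
    IntegrableOn (fun x => f (y - x)) cell := by
  have h1 := fd_of_map (φ := fun z => y - z) (by fun_prop) (Equiv.refl _) fun z n => by
    simp only [Equiv.refl_apply]; ring
  have h2 := (fd_cell.integrableOn_iff h1 (f := f) fun n x => h n x).1 hf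
  have h3 := (Measure.measurePreserving_sub_left (volume : Measure ℂ) y).integrableOn_comp_preimage
    (measurableEmbedding_subLeft y) (f := fun x => f (y - x)) (s := cell)
  refine h3.1 ?_
  simpa [Function.comp_def] using h2

omit [NormedSpace ℝ E] in
theorem integrableOn_cell {f : ℂ → E} (hf : Continuous f) : IntegrableOn f cell :=
  (hf.continuousOn.integrableOn_compact (isCompact_closedBall 0 (3 / 4))).mono_set
    cell_subset_closedBall

/-- a function supported in a small disc: the cell sees all of it -/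
theorem integral_cell_of_supp {f : ℂ → E} {r : ℝ} (hr : r < 1 / 2) (h : ∀ y, r < ‖y‖ → f y = 0) :
    ∫ x in cell, f x = ∫ x, f x :=
  setIntegral_eq_integral_of_forall_compl_eq_zero fun x hx =>
    h x (hr.trans_le (not_lt.1 fun hlt => hx (mem_cell_of_norm_lt hlt)))

end

theorem IQ_shift {f : ℂ → ℝ} (h : Peri f) (y : ℂ) : IQ (fun x => f (x + y)) = IQ f :=
  integral_cell_shift h y

theorem IQ_sub_right {f : ℂ → ℝ} (h : Peri f) (y : ℂ) : IQ (fun x => f (x - y)) = IQ f :=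
  integral_cell_sub_right h y

theorem IQ_nonneg {f : ℂ → ℝ} (h : ∀ x, 0 ≤ f x) : 0 ≤ IQ f := integral_nonneg h

/-- monotonicity: only the larger function has to be integrable -/
theorem IQ_mono_of_nonneg {f g : ℂ → ℝ} (h0 : ∀ x, 0 ≤ f x) (hg : IntegrableOn g cell)
    (h : ∀ x ∈ cell, f x ≤ g x) : IQ f ≤ IQ g :=
  integral_mono_of_nonneg (Eventually.of_forall h0) hg
    ((ae_restrict_iff' measurableSet_cell).2 (Eventually.of_forall h))

theorem IQ_mono {f g : ℂ → ℝ} (hf : Continuous f) (hg : Continuous g) (h : ∀ x, f x ≤ g x) :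
    IQ f ≤ IQ g := integral_mono (integrableOn_cell hf) (integrableOn_cell hg) h

theorem IQ_add {f g : ℂ → ℝ} (hf : Continuous f) (hg : Continuous g) :
    IQ (fun x => f x + g x) = IQ f + IQ g :=
  integral_add (integrableOn_cell hf) (integrableOn_cell hg)

theorem IQ_sum {ι : Type} (s : Finset ι) {f : ι → ℂ → ℝ} (hf : ∀ i ∈ s, Continuous (f i)) :
    IQ (fun x => ∑ i ∈ s, f i x) = ∑ i ∈ s, IQ (f i) :=
  integral_finsetSum s fun i hi => integrableOn_cell (hf i hi)

theorem IQ_const_mul (c : ℝ) (f : ℂ → ℝ) : IQ (fun x => c * f x) = c * IQ f :=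
  integral_const_mul c f

theorem IQ_mul_const (c : ℝ) (f : ℂ → ℝ) : IQ (fun x => f x * c) = IQ f * c :=
  integral_mul_const c f

theorem IQ_const (c : ℝ) : IQ (fun _ => c) = c := by simp [IQ]

theorem IQ_le_const {f : ℂ → ℝ} {c : ℝ} (h0 : ∀ x, 0 ≤ f x) (h : ∀ x, f x ≤ c) : IQ f ≤ c :=
  (IQ_mono_of_nonneg h0 (integrableOn_cell continuous_const) fun x _ => h x).trans_eq (IQ_const c)

theorem ball_le_IQ {g : ℂ → ℝ} (hg : Continuous g) (hp : Peri g) (h0 : ∀ x, 0 ≤ g x) (z : ℂ)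
    {r : ℝ} (hr : r < 1 / 2) : ∫ x in Metric.closedBall z r, g x ≤ IQ g := by
  have h2 := (measurePreserving_add_right (volume : Measure ℂ) z).setIntegral_preimage_emb
    (measurableEmbedding_addRight z) g (Metric.closedBall z r)
  rw [← h2, ← IQ_shift hp z]
  refine setIntegral_mono_set (integrableOn_cell (by fun_prop)) (Eventually.of_forall fun x => h0 _)
    (LE.le.eventuallyLE fun x hx => mem_cell_of_norm_lt ?_)
  have : ‖x‖ ≤ r := by simpa [dist_eq_norm] using hx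
  linarith

theorem continuous_IQ {X : Type} [TopologicalSpace X] [FirstCountableTopology X]
    [LocallyCompactSpace X] {f : X → ℂ → ℝ} (hf : Continuous fun p : X × ℂ => f p.1 p.2) :
    Continuous fun t => IQ (f t) := by
  refine continuous_iff_continuousAt.2 fun t0 => ?_
  obtain ⟨K, hK, hKt⟩ := exists_compact_mem_nhds t0
  obtain ⟨C, hC⟩ := (hK.prod (isCompact_closedBall (0 : ℂ) (3 / 4))).exists_bound_of_continuousOn
    hf.continuousOn
  refine continuousAt_of_dominated (bound := fun _ => C)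
    (Eventually.of_forall fun t => (hf.comp (Continuous.prodMk_right t)).aestronglyMeasurable)
    (mem_of_superset hKt fun t ht => (ae_restrict_iff' measurableSet_cell).2
      (Eventually.of_forall fun x hx => hC (t, x) ⟨ht, cell_subset_closedBall hx⟩))
    (integrable_const _) (Eventually.of_forall fun x =>
      (hf.comp (Continuous.prodMk_left x)).continuousAt)

/-! ### periodisation -/

section
variable {E : Type} [NormedAddCommGroup E]

theorem per_apply {f : ℂ → E} {r : ℝ} (h : ∀ y, r < ‖y‖ → f y = 0) {x : ℂ} {n : ℤ × ℤ}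
    (hx : ‖x - lat n‖ < 1 - r) : Per f x = f (x - lat n) := by
  refine tsum_eq_single n fun m hm => h _ ?_
  have h1 := one_le_norm_lat_sub hm.symm
  have h2 : ‖lat n - lat m‖ ≤ ‖x - lat m‖ + ‖x - lat n‖ := by
    have : lat n - lat m = (x - lat m) - (x - lat n) := by ring
    rw [this]; exact norm_sub_le _ _
  linarith

theorem per_eventually {f : ℂ → E} {r : ℝ} (h : ∀ y, r < ‖y‖ → f y = 0) {x : ℂ} {n : ℤ × ℤ}
    (hx : ‖x - lat n‖ < 1 - r) : Per f =ᶠ[𝓝 x] fun y => f (y - lat n) := by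
  have : ∀ᶠ y in 𝓝 x, ‖y - lat n‖ < 1 - r :=
    (by fun_prop : Continuous fun y : ℂ => ‖y - lat n‖).continuousAt.eventually_lt_const hx
  exact this.mono fun y hy => per_apply h hy

/-- every point has a lattice point that realises `pn` and lies within `3/4` -/
theorem exists_near (x : ℂ) {r : ℝ} (hr : r < 1 / 4 ∨ r = 1 / 4) :
    ∃ n, pn x = ‖x - lat n‖ ∧ ‖x - lat n‖ < 1 - r := by
  obtain ⟨n, hn, e⟩ := exists_pn x
  refine ⟨n, e, ?_⟩
  obtain ⟨⟨h1, h2⟩, h3, h4⟩ := mem_cell.1 hn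
  have : ‖x - lat n‖ ^ 2 < (3 / 4) ^ 2 := by
    rw [Complex.sq_norm, Complex.normSq_apply]; nlinarith
  have := (pow_lt_pow_iff_left₀ (norm_nonneg _) (by norm_num) two_ne_zero).1 this
  rcases hr with hr | hr <;> linarith

theorem exists_near' (x : ℂ) {r : ℝ} (hr : r ≤ 1 / 4) :
    ∃ n, pn x = ‖x - lat n‖ ∧ ‖x - lat n‖ < 1 - r := exists_near x hr.lt_or_eq

theorem peri_Per (f : ℂ → E) : Peri (Per f) := fun n z => by
  unfold Per
  rw [← (Equiv.addRight n).tsum_eq]
  refine tsum_congr fun m => ?_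
  simp only [Equiv.coe_addRight, lat_add]
  congr 1; ring

theorem per_of_mem_cell {f : ℂ → E} {r : ℝ} (hr : r ≤ 1 / 4) (h : ∀ y, r < ‖y‖ → f y = 0) {x : ℂ}
    (hx : x ∈ cell) : Per f x = f x := by
  obtain ⟨⟨h1, h2⟩, h3, h4⟩ := mem_cell.1 hx
  have : ‖x‖ ^ 2 < (3 / 4) ^ 2 := by
    rw [Complex.sq_norm, Complex.normSq_apply]; nlinarith
  have := (pow_lt_pow_iff_left₀ (norm_nonneg _) (by norm_num) two_ne_zero).1 this
  simpa using per_apply h (x := x) (n := 0) (by simp; linarith)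

theorem per_eq_zero {f : ℂ → E} {r : ℝ} (hr : r ≤ 1 / 4) (h : ∀ y, r < ‖y‖ → f y = 0) {x : ℂ}
    (hx : r < pn x) : Per f x = 0 := by
  obtain ⟨n, e, hn⟩ := exists_near' x hr
  rw [per_apply h hn, h _ (e ▸ hx)]

/-- a pointwise operation that keeps the supports commutes with periodisation -/
theorem per_map₂ {F G : Type} [NormedAddCommGroup F] [NormedAddCommGroup G] {f : ℂ → E} {g : ℂ → F}
    {r : ℝ} (hr : r ≤ 1 / 4) (hf : ∀ y, r < ‖y‖ → f y = 0) (hg : ∀ y, r < ‖y‖ → g y = 0)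
    (Φ : E → F → G) (h0 : Φ 0 0 = 0) (x : ℂ) :
    Per (fun y => Φ (f y) (g y)) x = Φ (Per f x) (Per g x) := by
  obtain ⟨n, -, hn⟩ := exists_near' x hr
  rw [per_apply hf hn, per_apply hg hn,
    per_apply (r := r) (fun y hy => by rw [hf y hy, hg y hy, h0]) hn]

theorem per_map {G : Type} [NormedAddCommGroup G] {f : ℂ → E} {r : ℝ} (hr : r ≤ 1 / 4)
    (hf : ∀ y, r < ‖y‖ → f y = 0) (Φ : E → G) (h0 : Φ 0 = 0) (x : ℂ) :
    Per (fun y => Φ (f y)) x = Φ (Per f x) := per_map₂ hr hf hf (fun a _ => Φ a) h0 x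

theorem per_add {f g : ℂ → E} {r : ℝ} (hr : r ≤ 1 / 4) (hf : ∀ y, r < ‖y‖ → f y = 0)
    (hg : ∀ y, r < ‖y‖ → g y = 0) (x : ℂ) : Per (fun y => f y + g y) x = Per f x + Per g x :=
  per_map₂ hr hf hg (· + ·) (by simp) x

theorem per_const_mul (c : ℂ) (f : ℂ → ℂ) (x : ℂ) : Per (fun y => c * f y) x = c * Per f x :=
  tsum_mul_left

theorem per_mul_peri {f g : ℂ → ℂ} (hg : Peri g) (x : ℂ) :
    Per (fun y => f y * g y) x = Per f x * g x := by
  unfold Per
  rw [← tsum_mul_right]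
  exact tsum_congr fun n => by simp only [hg.sub_lat]

theorem per_shift (f : ℂ → E) (p x : ℂ) : Per (fun y => f (y - p)) x = Per f (x - p) :=
  tsum_congr fun n => by rw [sub_right_comm]

theorem per_zero (x : ℂ) : Per (fun _ : ℂ => (0 : E)) x = 0 := tsum_zero

theorem mv_eventually {f : ℝ → ℂ → E} {r : ℝ} (h : ∀ t y, r < ‖y‖ → f t y = 0) {z : ℝ → ℂ}
    (hz : Continuous z) {t : ℝ} {x : ℂ} {n : ℤ × ℤ} (hx : ‖x - z t - lat n‖ < 1 - r) :
    (fun q : ℝ × ℂ => mv f z q.1 q.2) =ᶠ[𝓝 (t, x)] fun q => f q.1 (q.2 - z q.1 - lat n) := by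
  have : ∀ᶠ q : ℝ × ℂ in 𝓝 (t, x), ‖q.2 - z q.1 - lat n‖ < 1 - r :=
    (by fun_prop : Continuous fun q : ℝ × ℂ => ‖q.2 - z q.1 - lat n‖).continuousAt.eventually_lt_const
      hx
  exact this.mono fun q hq => per_apply (h q.1) hq

theorem peri_mv (f : ℝ → ℂ → E) (z : ℝ → ℂ) (t : ℝ) : Peri (mv f z t) := (peri_Per (f t)).sub_right _

theorem continuous_Per {f : ℂ → E} {r : ℝ} (hr : r ≤ 1 / 4) (h : ∀ y, r < ‖y‖ → f y = 0)
    (hf : Continuous f) : Continuous (Per f) := by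
  refine continuous_iff_continuousAt.2 fun x => ?_
  obtain ⟨n, -, hn⟩ := exists_near' x hr
  exact (ContinuousAt.congr (f := fun y => f (y - lat n)) (by fun_prop) (per_eventually h hn).symm)

variable [NormedSpace ℝ E]

theorem contDiff_Per {f : ℂ → E} {r : ℝ} {k : WithTop ℕ∞} (hr : r ≤ 1 / 4)
    (h : ∀ y, r < ‖y‖ → f y = 0) (hf : ContDiff ℝ k f) : ContDiff ℝ k (Per f) := by
  refine contDiff_iff_contDiffAt.2 fun x => ?_
  obtain ⟨n, -, hn⟩ := exists_near' x hr
  exact ((hf.comp (contDiff_id.sub contDiff_const)).contDiffAt).congr_of_eventuallyEq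
    (per_eventually h hn)

theorem Loc.sp_mv {f : ℝ → ℂ → E} {r : ℝ} (h : Loc f r) (hr : r ≤ 1 / 4) {z : ℝ → ℂ}
    (hz : ContDiff ℝ ∞ z) : SP (mv f z) := by
  refine ⟨contDiff_iff_contDiffAt.2 fun q => ?_, peri_mv f z⟩
  obtain ⟨n, -, hn⟩ := exists_near' (q.2 - z q.1) hr
  have h1 : ContDiff ℝ ∞ fun q : ℝ × ℂ => f q.1 (q.2 - z q.1 - lat n) :=
    ContDiff.comp (g := fun p : ℝ × ℂ => f p.1 p.2)
      (f := fun q : ℝ × ℂ => (q.1, q.2 - z q.1 - lat n)) h.1 (by fun_prop)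
  exact h1.contDiffAt.congr_of_eventuallyEq (mv_eventually h.2 hz.continuous hn)

theorem Loc.sp_Per {f : ℝ → ℂ → E} {r : ℝ} (h : Loc f r) (hr : r ≤ 1 / 4) :
    SP fun t => Per (f t) := by
  have := h.sp_mv hr (z := fun _ => 0) contDiff_const
  have e : mv f (fun _ => 0) = fun t => Per (f t) := by
    funext t x; simp [mv]
  rwa [e] at this

theorem iteratedFDeriv_Per {f : ℂ → E} {r : ℝ} (h : ∀ y, r < ‖y‖ → f y = 0) (k : ℕ) {p x : ℂ}
    {n : ℤ × ℤ} (hx : ‖x - p - lat n‖ < 1 - r) :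
    iteratedFDeriv ℝ k (fun y => Per f (y - p)) x = iteratedFDeriv ℝ k f (x - p - lat n) := by
  rw [iteratedFDeriv_comp_sub, ((per_eventually h hx).iteratedFDeriv ℝ k).eq_of_nhds,
    iteratedFDeriv_comp_sub]

theorem fderiv_Per {f : ℂ → E} {r : ℝ} (h : ∀ y, r < ‖y‖ → f y = 0) {p x : ℂ}
    {n : ℤ × ℤ} (hx : ‖x - p - lat n‖ < 1 - r) :
    fderiv ℝ (fun y => Per f (y - p)) x = fderiv ℝ f (x - p - lat n) := by
  rw [fderiv_comp_sub, (per_eventually h hx).fderiv_eq, fderiv_comp_sub]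

theorem iteratedFDeriv_supp {f : ℂ → E} {r : ℝ} (h : ∀ y, r < ‖y‖ → f y = 0) (k : ℕ) (y : ℂ)
    (hy : r < ‖y‖) : iteratedFDeriv ℝ k f y = 0 := by
  have : f =ᶠ[𝓝 y] fun _ => 0 :=
    (continuous_norm.continuousAt.eventually_const_lt hy).mono fun w hw => h w hw
  rw [(this.iteratedFDeriv ℝ k).eq_of_nhds]; simp

theorem fderiv_supp {f : ℂ → E} {r : ℝ} (h : ∀ y, r < ‖y‖ → f y = 0) (y : ℂ)
    (hy : r < ‖y‖) : fderiv ℝ f y = 0 := by
  have : f =ᶠ[𝓝 y] fun _ => 0 :=
    (continuous_norm.continuousAt.eventually_const_lt hy).mono fun w hw => h w hw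
  rw [this.fderiv_eq]; simp

theorem integral_cell_Per {f : ℂ → E} {r : ℝ} (hr : r ≤ 1 / 4) (h : ∀ y, r < ‖y‖ → f y = 0)
    (p : ℂ) : ∫ x in cell, Per f (x - p) = ∫ x, f x := by
  rw [integral_cell_sub_right (peri_Per f),
    setIntegral_congr_fun measurableSet_cell fun x hx => per_of_mem_cell hr h hx]
  exact integral_cell_of_supp (by linarith) h

omit [NormedSpace ℝ E] in
theorem hasCompactSupport_of_supp {f : ℂ → E} {r : ℝ} (h : ∀ y, r < ‖y‖ → f y = 0) :
    HasCompactSupport f :=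
  HasCompactSupport.intro (isCompact_closedBall (0 : ℂ) r) fun y hy => h y (by simpa using hy)

omit [NormedSpace ℝ E] in
theorem integrable_of_supp {f : ℂ → E} {r : ℝ} (hf : Continuous f) (h : ∀ y, r < ‖y‖ → f y = 0) :
    Integrable f := hf.integrable_of_hasCompactSupport (hasCompactSupport_of_supp h)

end

theorem nD_supp {f : ℂ → ℂ} {r : ℝ} (h : ∀ y, r < ‖y‖ → f y = 0) (k : ℕ) (y : ℂ) (hy : r < ‖y‖) :
    nD k f y = 0 := by rw [nD, iteratedFDeriv_supp h k y hy, norm_zero]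

theorem nD_Per {f : ℂ → ℂ} {r : ℝ} (h : ∀ y, r < ‖y‖ → f y = 0) (k : ℕ) {p x : ℂ} {n : ℤ × ℤ}
    (hx : ‖x - p - lat n‖ < 1 - r) :
    nD k (fun y => Per f (y - p)) x = nD k f (x - p - lat n) := by
  rw [nD, nD, iteratedFDeriv_Per h k hx]

theorem nD_Per_eq {f : ℂ → ℂ} {r : ℝ} (hr : r ≤ 1 / 4) (h : ∀ y, r < ‖y‖ → f y = 0) (k : ℕ)
    (p x : ℂ) : nD k (fun y => Per f (y - p)) x = Per (nD k f) (x - p) := by
  obtain ⟨n, -, hn⟩ := exists_near' (x - p) hr
  rw [nD_Per h k hn, per_apply (nD_supp h k) hn]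

/-- the form used for envelopes: a lattice translate with norm `pn (x - p)` -/
theorem nD_Per_pn {f : ℂ → ℂ} {r : ℝ} (hr : r ≤ 1 / 4) (h : ∀ y, r < ‖y‖ → f y = 0) (p x : ℂ) :
    ∃ w : ℂ, ‖w‖ = pn (x - p) ∧ ∀ k, nD k (fun y => Per f (y - p)) x = nD k f w := by
  obtain ⟨n, e, hn⟩ := exists_near' (x - p) hr
  exact ⟨_, e.symm, fun k => nD_Per h k hn⟩

theorem IQ_nD_Per {f : ℂ → ℂ} {r : ℝ} (hr : r ≤ 1 / 4) (h : ∀ y, r < ‖y‖ → f y = 0) (k : ℕ)
    (p : ℂ) : IQ (nD k fun y => Per f (y - p)) = ∫ y, nD k f y := by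
  rw [← integral_cell_Per hr (nD_supp h k) p]
  exact setIntegral_congr_fun measurableSet_cell fun x _ => nD_Per_eq hr h k p x

theorem dz_Per {f : ℂ → ℂ} {r : ℝ} (hr : r ≤ 1 / 4) (h : ∀ y, r < ‖y‖ → f y = 0) (p x : ℂ) :
    dz (fun y => Per f (y - p)) x = Per (dz f) (x - p) := by
  obtain ⟨n, -, hn⟩ := exists_near' (x - p) hr
  rw [per_apply (r := r) (fun y hy => by simp [dz, fderiv_supp h y hy]) hn, dz, dz, fderiv_Per h hn]

theorem dzb_Per {f : ℂ → ℂ} {r : ℝ} (hr : r ≤ 1 / 4) (h : ∀ y, r < ‖y‖ → f y = 0) (p x : ℂ) :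
    dzb (fun y => Per f (y - p)) x = Per (dzb f) (x - p) := by
  obtain ⟨n, -, hn⟩ := exists_near' (x - p) hr
  rw [per_apply (r := r) (fun y hy => by simp [dzb, fderiv_supp h y hy]) hn, dzb, dzb,
    fderiv_Per h hn]

theorem dz_supp {f : ℂ → ℂ} {r : ℝ} (h : ∀ y, r < ‖y‖ → f y = 0) (y : ℂ) (hy : r < ‖y‖) :
    dz f y = 0 := by simp [dz, fderiv_supp h y hy]

theorem dzb_supp {f : ℂ → ℂ} {r : ℝ} (h : ∀ y, r < ‖y‖ → f y = 0) (y : ℂ) (hy : r < ‖y‖) :
    dzb f y = 0 := by simp [dzb, fderiv_supp h y hy]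

/-- outside its periodic support a field has vanishing derivatives -/
theorem Supp.nD_eq_zero {W : ℂ → ℂ} {p : ℂ} {r : ℝ} (h : Supp W p r) (k : ℕ) {y : ℂ}
    (hy : r < pn (y - p)) : nD k W y = 0 := by
  have : W =ᶠ[𝓝 y] fun _ => 0 :=
    ((continuous_pn.comp (continuous_sub_right p)).continuousAt.eventually_const_lt hy).mono
      fun w hw => h w hw
  rw [nD, (this.iteratedFDeriv ℝ k).eq_of_nhds]; simp

/-! ### multiplicity -/

section
variable {ι : Type} [Fintype ι] {P P' : ι → Prop} {p p' : ι → ℂ} {r r' M M' : ℝ}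

theorem Mult.nonneg (h : Mult P p r M) : 0 ≤ M := (Nat.cast_nonneg _).trans (h 0)

/-- fewer points, moved by at most `δ`, smaller radius, larger bound -/
theorem Mult.of_near (h : Mult P p r M) {δ : ℝ} (hP : ∀ i, P' i → P i)
    (hp : ∀ i, P' i → pn (p i - p' i) ≤ δ) (hr : r' + δ ≤ r) (hM : M ≤ M') : Mult P' p' r' M' := by
  intro y
  refine le_trans ?_ ((h y).trans hM)
  refine Nat.cast_le.2 (Finset.card_le_card fun i hi => ?_)
  simp only [Finset.mem_filter, Finset.mem_univ, true_and] at hi ⊢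
  exact ⟨hP i hi.1, by linarith [pn_triangle (p i) (p' i) y, hp i hi.1, hi.2]⟩

theorem Mult.mono (h : Mult P p r M) (hP : ∀ i, P' i → P i) (hr : r' ≤ r) (hM : M ≤ M') :
    Mult P' p r' M' := h.of_near (δ := 0) hP (fun i _ => by simp) (by linarith) hM

theorem Mult.shift (h : Mult P p r M) (c : ℂ) : Mult P (fun i => p i + c) r M := fun y => by
  have := h (y - c)
  have e : ∀ i, p i - (y - c) = p i + c - y := fun i => by ring
  simpa only [e] using this

theorem Mult.sum_le (h : Mult P p r M) (y : ℂ) {c : ι → ℝ} {b : ℝ} (hb : 0 ≤ b)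
    (hc : ∀ i, c i ≤ b) (h0 : ∀ i, ¬(P i ∧ pn (p i - y) ≤ r) → c i ≤ 0) : ∑ i, c i ≤ M * b := by
  rw [← Finset.sum_filter_add_sum_filter_not Finset.univ fun i => P i ∧ pn (p i - y) ≤ r]
  have h1 := Finset.sum_le_card_nsmul (Finset.univ.filter fun i => P i ∧ pn (p i - y) ≤ r) c b
    fun i _ => hc i
  have h2 : ∑ i ∈ Finset.univ.filter fun i => ¬(P i ∧ pn (p i - y) ≤ r), c i ≤ 0 :=
    Finset.sum_nonpos fun i hi => h0 i (Finset.mem_filter.1 hi).2
  rw [nsmul_eq_mul] at h1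
  nlinarith [h y]

theorem Mult.sumType {κ : Type} [Fintype κ] {Q : κ → Prop} {q : κ → ℂ} (h : Mult P p r M)
    (h' : Mult Q q r M') : Mult (Sum.elim P Q) (Sum.elim p q) r (M + M') := fun y => by
  have e : ∀ (α : Type) [Fintype α] (R : α → Prop) [DecidablePred R],
      ((Finset.univ.filter R).card : ℝ) = ∑ i, if R i then (1 : ℝ) else 0 := fun α _ R _ => by
    simp
  have a := h y
  have b := h' y
  rw [e] at a b ⊢
  rw [Fintype.sum_sum_type]
  exact add_le_add (le_of_eq_of_le (Finset.sum_congr rfl fun i _ => by simp) a)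
    (le_of_eq_of_le (Finset.sum_congr rfl fun i _ => by simp) b)

theorem Mult.subtype (h : Mult P p r M) (R : ι → Prop) [Fintype {i // R i}] :
    Mult (fun i : {i // R i} => P i.1) (fun i => p i.1) r M := fun y => by
  refine le_trans (Nat.cast_le.2 ?_) (h y)
  refine Finset.card_le_card_of_injOn Subtype.val (fun i hi => ?_) Subtype.val_injective.injOn
  simpa using hi

end

/-! ### the Besov bound -/

theorem Bes.B_nonneg {f : ℂ → ℂ} {S B : ℝ} (h : Bes f S B) : 0 ≤ B := by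
  have := (IQ_nonneg fun _ => norm_nonneg _).trans (h.2 1)
  simpa using this

theorem Bes.S_nonneg {f : ℂ → ℂ} {S B : ℝ} (h : Bes f S B) : 0 ≤ S :=
  (IQ_nonneg fun _ => norm_nonneg _).trans h.1

theorem Bes.mono {f : ℂ → ℂ} {S B S' B' : ℝ} (h : Bes f S B) (hS : S ≤ S') (hB : B ≤ B') :
    Bes f S' B' :=
  ⟨h.1.trans hS, fun y => (h.2 y).trans (mul_le_mul_of_nonneg_right hB (by positivity))⟩

theorem Bes.add {f g : ℂ → ℂ} {S B S' B' : ℝ} (hf : Continuous f) (hg : Continuous g)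
    (h : Bes f S B) (h' : Bes g S' B') : Bes (fun x => f x + g x) (S + S') (B + B') := by
  refine ⟨?_, fun y => ?_⟩
  · refine (IQ_mono (by fun_prop) (by fun_prop) fun x => norm_add_le (f x) (g x)).trans ?_
    rw [IQ_add (by fun_prop) (by fun_prop)]; exact add_le_add h.1 h'.1
  · refine (IQ_mono (g := fun x => ‖f (x + y) + f (x - y) - 2 * f x‖
      + ‖g (x + y) + g (x - y) - 2 * g x‖) (by fun_prop) (by fun_prop) fun x =>
        (le_of_eq (by congr 1; ring)).trans (norm_add_le _ _)).trans ?_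
    rw [IQ_add (by fun_prop) (by fun_prop), add_mul]; exact add_le_add (h.2 y) (h'.2 y)

theorem bes_zero {S B : ℝ} (hS : 0 ≤ S) (hB : 0 ≤ B) : Bes (fun _ => 0) S B :=
  ⟨by simpa [IQ] using hS, fun y => by simpa [IQ] using mul_nonneg hB (by positivity)⟩

theorem Bes.const_mul {f : ℂ → ℂ} {S B : ℝ} (h : Bes f S B) (c : ℂ) :
    Bes (fun x => c * f x) (‖c‖ * S) (‖c‖ * B) := by
  refine ⟨?_, fun y => ?_⟩
  · simp only [norm_mul]; rw [IQ_const_mul]; exact mul_le_mul_of_nonneg_left h.1 (norm_nonneg _)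
  · have e : ∀ x, ‖c * f (x + y) + c * f (x - y) - 2 * (c * f x)‖
        = ‖c‖ * ‖f (x + y) + f (x - y) - 2 * f x‖ := fun x => by
      rw [← norm_mul]; congr 1; ring
    simp only [e]; rw [IQ_const_mul, mul_assoc]
    exact mul_le_mul_of_nonneg_left (h.2 y) (norm_nonneg _)

theorem Cst.nonneg {l c : ℝ} {f : ℂ → ℂ} (h : Cst l f c) : 0 ≤ c := Bes.S_nonneg h

theorem Cst.mono {l c c' : ℝ} {f : ℂ → ℂ} (h : Cst l f c) (hl : 0 < l) (hc : c ≤ c') :
    Cst l f c' := Bes.mono h hc (div_le_div_of_nonneg_right hc (by positivity))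

theorem Cst.add {l c c' : ℝ} {f g : ℂ → ℂ} (hf : Continuous f) (hg : Continuous g)
    (h : Cst l f c) (h' : Cst l g c') : Cst l (fun x => f x + g x) (c + c') := by
  have := Bes.add hf hg h h'
  rwa [← add_div] at this

theorem cst_zero {l c : ℝ} (hl : 0 < l) (hc : 0 ≤ c) : Cst l (fun _ => 0) c :=
  bes_zero hc (by positivity)

theorem Cst.const_mul {l c : ℝ} {f : ℂ → ℂ} (h : Cst l f c) (a : ℂ) :
    Cst l (fun x => a * f x) (‖a‖ * c) := by
  have := Bes.const_mul h a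
  rwa [← mul_div_assoc] at this

theorem Cst.congr {l c : ℝ} {f g : ℂ → ℂ} (h : Cst l f c) (e : ∀ x, g x = f x) : Cst l g c := by
  rwa [show g = f from funext e]

theorem cst_sum {ι : Type} (s : Finset ι) {l : ℝ} (hl : 0 < l) {f : ι → ℂ → ℂ} {c : ι → ℝ}
    (hf : ∀ i ∈ s, Continuous (f i)) (h : ∀ i ∈ s, Cst l (f i) (c i)) :
    Cst l (fun x => ∑ i ∈ s, f i x) (∑ i ∈ s, c i) := by
  induction s using Finset.induction_on with
  | empty => simpa using cst_zero hl le_rfl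
  | insert a s ha ih =>
    simp only [Finset.sum_insert ha]
    exact Cst.add (hf a (Finset.mem_insert_self _ _))
      (continuous_finsetSum _ fun i hi => hf i (Finset.mem_insert_of_mem hi))
      (h a (Finset.mem_insert_self _ _))
      (ih (fun i hi => hf i (Finset.mem_insert_of_mem hi))
        fun i hi => h i (Finset.mem_insert_of_mem hi))

theorem TS.mono {E : Type} [Zero E] {f : ℝ → ℂ → E} {a b a' b' : ℝ} (h : TS f a b) (ha : a' ≤ a)
    (hb : b ≤ b') : TS f a' b' := fun t ht => h t fun hm => ht ⟨ha.trans hm.1, hm.2.trans hb⟩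

end

end Pool.Agent.Lib.EUL
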