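import Pool.Agent.Lib.EUL.Defs

set_option autoImplicit false

namespace Pool.Agent.Lib.EUL

open MeasureTheory Set Filter Topology
open scoped ContDiff Classical

noncomputable section

theorem nat_le_inf (k : ℕ) : ((k : ℕ) : WithTop ℕ∞) ≤ ∞ := by exact_mod_cast le_top

theorem nat_lt_inf (k : ℕ) : ((k : ℕ) : WithTop ℕ∞) < ∞ := by
  exact_mod_cast (WithTop.coe_lt_top k : ((k : ℕ) : ℕ∞) < ⊤)

theorem one_le_inf : (1 : WithTop ℕ∞) ≤ ∞ := by exact_mod_cast le_top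

theorem two_le_inf : (2 : WithTop ℕ∞) ≤ ∞ := by simpa using nat_le_inf 2

theorem inf_ne_zero : (∞ : WithTop ℕ∞) ≠ 0 := by simp

theorem inf_add_one_le : (∞ : WithTop ℕ∞) + 1 ≤ ∞ := by simp

section generic
variable {E F : Type} [NormedAddCommGroup E] [NormedSpace ℝ E] [NormedAddCommGroup F]
  [NormedSpace ℝ F]

theorem diffAt {f : E → F} {x : E} (hf : ContDiffAt ℝ ∞ f x) : DifferentiableAt ℝ f x :=
  hf.differentiableAt inf_ne_zero

theorem diff_of {f : E → F} (hf : ContDiff ℝ ∞ f) : Differentiable ℝ f :=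
  hf.differentiable inf_ne_zero

theorem contDiff_fderiv {f : E → F} (hf : ContDiff ℝ ∞ f) : ContDiff ℝ ∞ (fderiv ℝ f) :=
  hf.fderiv_right inf_add_one_le

theorem contDiffAt_fderiv {f : E → F} {x : E} (hf : ContDiffAt ℝ ∞ f x) :
    ContDiffAt ℝ ∞ (fderiv ℝ f) x :=
  hf.fderiv_right inf_add_one_le

theorem contDiff_fderiv_apply {f : E → F} (hf : ContDiff ℝ ∞ f) (v : E) :
    ContDiff ℝ ∞ (fun x => fderiv ℝ f x v) :=
  (contDiff_fderiv hf).clm_apply contDiff_const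

theorem contDiffAt_fderiv_apply {f : E → F} {x : E} (hf : ContDiffAt ℝ ∞ f x) (v : E) :
    ContDiffAt ℝ ∞ (fun y => fderiv ℝ f y v) x :=
  (contDiffAt_fderiv hf).clm_apply contDiffAt_const

end generic

theorem contDiff_ofReal {E : Type} [NormedAddCommGroup E] [NormedSpace ℝ E] {p : E → ℝ}
    (hp : ContDiff ℝ ∞ p) : ContDiff ℝ ∞ (fun y => (p y : ℂ)) :=
  Complex.ofRealCLM.contDiff.comp hp

theorem contDiff_conj {E : Type} [NormedAddCommGroup E] [NormedSpace ℝ E] {f : E → ℂ}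
    (hf : ContDiff ℝ ∞ f) : ContDiff ℝ ∞ (fun y => (starRingEnd ℂ) (f y)) :=
  Complex.conjCLE.contDiff.comp hf

theorem contDiff_re {E : Type} [NormedAddCommGroup E] [NormedSpace ℝ E] {f : E → ℂ}
    (hf : ContDiff ℝ ∞ f) : ContDiff ℝ ∞ (fun y => (f y).re) :=
  Complex.reCLM.contDiff.comp hf

theorem contDiff_im {E : Type} [NormedAddCommGroup E] [NormedSpace ℝ E] {f : E → ℂ}
    (hf : ContDiff ℝ ∞ f) : ContDiff ℝ ∞ (fun y => (f y).im) :=
  Complex.imCLM.contDiff.comp hf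

theorem contDiff_cj {f : ℂ → ℂ} (hf : ContDiff ℝ ∞ f) : ContDiff ℝ ∞ (cj f) := contDiff_conj hf

theorem contDiffAt_cj {f : ℂ → ℂ} {x : ℂ} (hf : ContDiffAt ℝ ∞ f x) : ContDiffAt ℝ ∞ (cj f) x :=
  Complex.conjCLE.contDiff.contDiffAt.comp x hf

theorem cj_cj (f : ℂ → ℂ) : cj (cj f) = f := by
  funext x; simp [cj]

/-! ### the norms `nD` -/

theorem nD_nonneg (k : ℕ) (f : ℂ → ℂ) (x : ℂ) : 0 ≤ nD k f x := norm_nonneg _

theorem nD_zero (f : ℂ → ℂ) (x : ℂ) : nD 0 f x = ‖f x‖ := norm_iteratedFDeriv_zero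

theorem nD_one (f : ℂ → ℂ) (x : ℂ) : nD 1 f x = ‖fderiv ℝ f x‖ := norm_iteratedFDeriv_one f

theorem nD_succ (k : ℕ) (f : ℂ → ℂ) (x : ℂ) :
    nD (k + 1) f x = ‖iteratedFDeriv ℝ k (fderiv ℝ f) x‖ := norm_iteratedFDeriv_fderiv.symm

theorem nD_succ' (k : ℕ) (f : ℂ → ℂ) (x : ℂ) :
    nD (k + 1) f x = ‖fderiv ℝ (iteratedFDeriv ℝ k f) x‖ := norm_fderiv_iteratedFDeriv.symm

theorem nD_two (f : ℂ → ℂ) (x : ℂ) : nD 2 f x = ‖fderiv ℝ (fderiv ℝ f) x‖ := by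
  rw [nD_succ 1 f x, norm_iteratedFDeriv_one]

theorem nD_congr {f g : ℂ → ℂ} {x : ℂ} (h : f =ᶠ[𝓝 x] g) (k : ℕ) : nD k f x = nD k g x := by
  unfold nD; rw [(h.iteratedFDeriv ℝ k).eq_of_nhds]

theorem nD_fun_zero (k : ℕ) (x : ℂ) : nD k (fun _ => 0) x = 0 := by
  unfold nD; rw [iteratedFDeriv_fun_zero]; simp

theorem nD_eq_zero_of_eventually {f : ℂ → ℂ} {x : ℂ} (h : ∀ᶠ y in 𝓝 x, f y = 0) (k : ℕ) :
    nD k f x = 0 := by
  rw [nD_congr (g := fun _ => 0) h k, nD_fun_zero]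

theorem nD_const {k : ℕ} (hk : k ≠ 0) (c x : ℂ) : nD k (fun _ => c) x = 0 := by
  unfold nD; rw [iteratedFDeriv_const_of_ne hk]; simp

theorem nD_add_le {f g : ℂ → ℂ} {x : ℂ} (hf : ContDiffAt ℝ ∞ f x) (hg : ContDiffAt ℝ ∞ g x)
    (k : ℕ) : nD k (fun y => f y + g y) x ≤ nD k f x + nD k g x := by
  unfold nD
  rw [fun_iteratedFDeriv_add_apply (hf.of_le (nat_le_inf k)) (hg.of_le (nat_le_inf k))]
  exact norm_add_le _ _

theorem nD_neg (k : ℕ) (f : ℂ → ℂ) (x : ℂ) : nD k (fun y => -f y) x = nD k f x := by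
  unfold nD
  have : (fun y => -f y) = -f := rfl
  rw [this, iteratedFDeriv_neg_apply, norm_neg]

theorem nD_sub_le {f g : ℂ → ℂ} {x : ℂ} (hf : ContDiffAt ℝ ∞ f x) (hg : ContDiffAt ℝ ∞ g x)
    (k : ℕ) : nD k (fun y => f y - g y) x ≤ nD k f x + nD k g x := by
  unfold nD
  rw [fun_iteratedFDeriv_sub_apply (hf.of_le (nat_le_inf k)) (hg.of_le (nat_le_inf k))]
  exact norm_sub_le _ _

theorem nD_sub_const {f : ℂ → ℂ} {x : ℂ} (hf : ContDiffAt ℝ ∞ f x) {k : ℕ} (hk : k ≠ 0) (c : ℂ) :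
    nD k (fun y => f y - c) x = nD k f x := by
  unfold nD
  rw [fun_iteratedFDeriv_sub_apply (hf.of_le (nat_le_inf k)) contDiffAt_const,
    iteratedFDeriv_const_of_ne hk]
  simp

theorem nD_sum_le {ι : Type} (s : Finset ι) {f : ι → ℂ → ℂ} {x : ℂ}
    (hf : ∀ i ∈ s, ContDiffAt ℝ ∞ (f i) x) (k : ℕ) :
    nD k (fun y => ∑ i ∈ s, f i y) x ≤ ∑ i ∈ s, nD k (f i) x := by
  unfold nD
  rw [iteratedFDeriv_fun_sum_apply fun i hi => (hf i hi).of_le (nat_le_inf k)]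
  exact norm_sum_le _ _

theorem nD_const_mul {f : ℂ → ℂ} {x : ℂ} (hf : ContDiffAt ℝ ∞ f x) (c : ℂ) (k : ℕ) :
    nD k (fun y => c * f y) x = ‖c‖ * nD k f x := by
  unfold nD
  have := iteratedFDeriv_const_smul_apply' (a := c) (hf.of_le (nat_le_inf k))
  simp only [smul_eq_mul] at this
  rw [this, norm_smul]

theorem nD_mul_const {f : ℂ → ℂ} {x : ℂ} (hf : ContDiffAt ℝ ∞ f x) (c : ℂ) (k : ℕ) :
    nD k (fun y => f y * c) x = ‖c‖ * nD k f x := by
  simp only [mul_comm _ c]; exact nD_const_mul hf c k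

theorem nD_cj (k : ℕ) (f : ℂ → ℂ) (x : ℂ) : nD k (cj f) x = nD k f x :=
  Complex.conjLIE.norm_iteratedFDeriv_comp_left f x k

theorem nD_add_right (k : ℕ) (f : ℂ → ℂ) (a x : ℂ) :
    nD k (fun y => f (y + a)) x = nD k f (x + a) := by
  unfold nD; rw [iteratedFDeriv_comp_add_right]

theorem nD_sub_right (k : ℕ) (f : ℂ → ℂ) (a x : ℂ) :
    nD k (fun y => f (y - a)) x = nD k f (x - a) := by
  unfold nD; rw [iteratedFDeriv_comp_sub]

theorem nD_comp_neg (k : ℕ) (f : ℂ → ℂ) (x : ℂ) : nD k (fun y => f (-y)) x = nD k f (-x) :=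
  (LinearIsometryEquiv.neg ℝ (E := ℂ)).norm_iteratedFDeriv_comp_right f x k

theorem nD_sub_left (k : ℕ) (f : ℂ → ℂ) (a x : ℂ) :
    nD k (fun y => f (a - y)) x = nD k f (a - x) := by
  have h1 := nD_comp_neg k (fun y => f (y + a)) x
  have h2 : (fun y => f (a - y)) = fun y => f (-y + a) := by
    funext y; rw [neg_add_eq_sub]
  rw [h2, h1, nD_add_right, neg_add_eq_sub]

theorem nD_peri {f : ℂ → ℂ} (hf : Peri f) (k : ℕ) : Peri (nD k f) := by
  intro n z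
  rw [← nD_add_right]
  have : (fun y => f (y + lat n)) = f := funext fun y => hf n y
  rw [this]

theorem nD_comp_clm_le {f : ℂ → ℂ} (hf : ContDiff ℝ ∞ f) (L : ℂ →L[ℝ] ℂ) (k : ℕ) (x : ℂ) :
    nD k (fun y => f (L y)) x ≤ ‖L‖ ^ k * nD k f (L x) := by
  unfold nD
  have h := L.iteratedFDeriv_comp_right hf x (nat_le_inf k)
  have h2 : (fun y => f (L y)) = f ∘ L := rfl
  rw [h2, h]
  refine (ContinuousMultilinearMap.norm_compContinuousLinearMap_le _ _).trans ?_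
  simp [mul_comm]

theorem nD_comp_mul_le {f : ℂ → ℂ} (hf : ContDiff ℝ ∞ f) (c : ℂ) (k : ℕ) (x : ℂ) :
    nD k (fun y => f (c * y)) x ≤ ‖c‖ ^ k * nD k f (c * x) := by
  have h := nD_comp_clm_le hf (ContinuousLinearMap.mul ℝ ℂ c) k x
  simp only [ContinuousLinearMap.mul_apply'] at h
  refine h.trans (mul_le_mul_of_nonneg_right ?_ (nD_nonneg _ _ _))
  exact pow_le_pow_left₀ (norm_nonneg _) (ContinuousLinearMap.opNorm_mul_apply_le ℝ ℂ c) k

theorem nD_comp_div_le {f : ℂ → ℂ} (hf : ContDiff ℝ ∞ f) {s : ℝ} (hs : 0 < s) (k : ℕ) (x : ℂ) :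
    nD k (fun y => f (y / (s : ℂ))) x ≤ nD k f (x / (s : ℂ)) / s ^ k := by
  have h := nD_comp_mul_le hf ((s : ℂ)⁻¹) k x
  simp only [← div_eq_inv_mul] at h
  refine h.trans (le_of_eq ?_)
  rw [norm_inv, Complex.norm_real, Real.norm_of_nonneg hs.le, inv_pow, inv_mul_eq_div]

theorem nD_mul_le {f g : ℂ → ℂ} {x : ℂ} (hf : ContDiffAt ℝ ∞ f x) (hg : ContDiffAt ℝ ∞ g x)
    (k : ℕ) : nD k (fun y => f y * g y) x ≤
      ∑ i ∈ Finset.range (k + 1), (k.choose i : ℝ) * nD i f x * nD (k - i) g x := by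
  obtain ⟨u, hu, hfu⟩ := (hf.of_le (nat_le_inf k)).contDiffOn le_rfl (by simp)
  obtain ⟨w, hw, hgw⟩ := (hg.of_le (nat_le_inf k)).contDiffOn le_rfl (by simp)
  obtain ⟨s, hs, hso, hxs⟩ := mem_nhds_iff.1 (inter_mem hu hw)
  have h := norm_iteratedFDerivWithin_mul_le (hfu.mono fun y hy => (hs hy).1)
    (hgw.mono fun y hy => (hs hy).2) hso.uniqueDiffOn hxs (le_refl (k : WithTop ℕ∞))
  unfold nD
  rw [iteratedFDerivWithin_of_isOpen k hso hxs] at h
  refine h.trans (le_of_eq (Finset.sum_congr rfl fun i _ => ?_))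
  rw [iteratedFDerivWithin_of_isOpen i hso hxs, iteratedFDerivWithin_of_isOpen (k - i) hso hxs]

theorem nD_mul_zero (f g : ℂ → ℂ) (x : ℂ) :
    nD 0 (fun y => f y * g y) x = nD 0 f x * nD 0 g x := by
  simp only [nD_zero, norm_mul]

theorem nD_mul_one_le {f g : ℂ → ℂ} {x : ℂ} (hf : ContDiffAt ℝ ∞ f x) (hg : ContDiffAt ℝ ∞ g x) :
    nD 1 (fun y => f y * g y) x ≤ nD 0 f x * nD 1 g x + nD 1 f x * nD 0 g x := by
  have h := nD_mul_le hf hg 1
  simpa [Finset.sum_range_succ] using h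

theorem nD_mul_two_le {f g : ℂ → ℂ} {x : ℂ} (hf : ContDiffAt ℝ ∞ f x) (hg : ContDiffAt ℝ ∞ g x) :
    nD 2 (fun y => f y * g y) x ≤
      nD 0 f x * nD 2 g x + 2 * nD 1 f x * nD 1 g x + nD 2 f x * nD 0 g x := by
  have h := nD_mul_le hf hg 2
  simpa [Finset.sum_range_succ] using h

/-- Leibniz rule with scaled envelopes -/
theorem nD_mul_scaled {f g : ℂ → ℂ} {x : ℂ} (hf : ContDiffAt ℝ ∞ f x) (hg : ContDiffAt ℝ ∞ g x)
    {k : ℕ} {s a b : ℝ} (hs : 0 ≤ s) (ha : ∀ j ≤ k, s ^ j * nD j f x ≤ a)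
    (hb : ∀ j ≤ k, s ^ j * nD j g x ≤ b) :
    s ^ k * nD k (fun y => f y * g y) x ≤ 2 ^ k * (a * b) := by
  have ha0 : 0 ≤ a := le_trans (by simpa using nD_nonneg 0 f x) (ha 0 (Nat.zero_le _))
  refine (mul_le_mul_of_nonneg_left (nD_mul_le hf hg k) (pow_nonneg hs k)).trans ?_
  have h2 : (2 : ℝ) ^ k = ∑ i ∈ Finset.range (k + 1), (k.choose i : ℝ) := by
    exact_mod_cast (Nat.sum_range_choose k).symm
  rw [h2, Finset.mul_sum, Finset.sum_mul]
  refine Finset.sum_le_sum fun i hi => ?_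
  have hik : i ≤ k := Nat.lt_succ_iff.1 (Finset.mem_range.1 hi)
  have e : s ^ k = s ^ i * s ^ (k - i) := by rw [← pow_add, Nat.add_sub_cancel' hik]
  have h3 : (s ^ i * nD i f x) * (s ^ (k - i) * nD (k - i) g x) ≤ a * b :=
    mul_le_mul (ha i hik) (hb _ (Nat.sub_le _ _))
      (mul_nonneg (pow_nonneg hs _) (nD_nonneg _ _ _)) ha0
  calc s ^ k * ((k.choose i : ℝ) * nD i f x * nD (k - i) g x)
      = (k.choose i : ℝ) * ((s ^ i * nD i f x) * (s ^ (k - i) * nD (k - i) g x)) := by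
        rw [e]; ring
    _ ≤ _ := mul_le_mul_of_nonneg_left h3 (Nat.cast_nonneg _)

theorem continuous_nD {f : ℂ → ℂ} (hf : ContDiff ℝ ∞ f) (k : ℕ) : Continuous (nD k f) :=
  (hf.continuous_iteratedFDeriv (nat_le_inf k)).norm

theorem nD_fderiv_apply_le {f : ℂ → ℂ} {x : ℂ} (hf : ContDiffAt ℝ ∞ f x) (v : ℂ) (k : ℕ) :
    nD k (fun y => fderiv ℝ f y v) x ≤ ‖v‖ * nD (k + 1) f x := by
  rw [nD_succ]
  exact norm_iteratedFDeriv_clm_apply_const (contDiffAt_fderiv hf) (nat_le_inf k)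

/-- mean value inequality for `D^k f` on a convex set -/
theorem iterated_sub_le {f : ℂ → ℂ} {s : Set ℂ} (hs : Convex ℝ s)
    (hf : ∀ w ∈ s, ContDiffAt ℝ ∞ f w) (k : ℕ) {M : ℝ} (hM : ∀ w ∈ s, nD (k + 1) f w ≤ M)
    {x y : ℂ} (hx : x ∈ s) (hy : y ∈ s) :
    ‖iteratedFDeriv ℝ k f y - iteratedFDeriv ℝ k f x‖ ≤ M * ‖y - x‖ :=
  hs.norm_image_sub_le_of_norm_fderiv_le
    (fun w hw => (hf w hw).differentiableAt_iteratedFDeriv (nat_lt_inf k))
    (fun w hw => by rw [← nD_succ']; exact hM w hw) hx hy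

theorem nD_le_add_mul {f : ℂ → ℂ} {s : Set ℂ} (hs : Convex ℝ s)
    (hf : ∀ w ∈ s, ContDiffAt ℝ ∞ f w) (k : ℕ) {M : ℝ} (hM : ∀ w ∈ s, nD (k + 1) f w ≤ M)
    {x y : ℂ} (hx : x ∈ s) (hy : y ∈ s) : nD k f y ≤ nD k f x + M * ‖y - x‖ := by
  have h := iterated_sub_le hs hf k hM hx hy
  have h2 := norm_sub_norm_le (iteratedFDeriv ℝ k f y) (iteratedFDeriv ℝ k f x)
  unfold nD; linarith

theorem norm_sub_le_nD {f : ℂ → ℂ} {s : Set ℂ} (hs : Convex ℝ s)
    (hf : ∀ w ∈ s, DifferentiableAt ℝ f w) {M : ℝ} (hM : ∀ w ∈ s, nD 1 f w ≤ M)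
    {x y : ℂ} (hx : x ∈ s) (hy : y ∈ s) : ‖f y - f x‖ ≤ M * ‖y - x‖ :=
  hs.norm_image_sub_le_of_norm_fderiv_le hf (fun w hw => by rw [← nD_one]; exact hM w hw) hx hy

/-- mean value inequality when the gradient is bounded on the disc around `x` through `y` -/
theorem norm_sub_le_ball {f : ℂ → ℂ} (hf : ContDiff ℝ ∞ f) {x y : ℂ} {M : ℝ}
    (hM : ∀ w, ‖w - x‖ ≤ ‖y - x‖ → nD 1 f w ≤ M) : ‖f y - f x‖ ≤ M * ‖y - x‖ :=
  norm_sub_le_nD (convex_closedBall x ‖y - x‖) (fun w _ => diff_of hf w)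
    (fun w hw => hM w (by simpa [dist_eq_norm] using hw))
    (Metric.mem_closedBall_self (norm_nonneg _)) (by simp [dist_eq_norm])

/-! ### Wirtinger derivatives -/

theorem fderiv_eq_dz (f : ℂ → ℂ) (x v : ℂ) :
    fderiv ℝ f x v = v * dz f x + (starRingEnd ℂ) v * dzb f x := by
  have hv : v = v.re • (1 : ℂ) + v.im • Complex.I := by
    apply Complex.ext <;> simp
  have h1 : fderiv ℝ f x v = v.re * fderiv ℝ f x 1 + v.im * fderiv ℝ f x Complex.I := by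
    conv_lhs => rw [hv]
    rw [map_add, map_smul, map_smul]; simp
  have h2 : (starRingEnd ℂ) v = v.re - v.im * Complex.I := by
    apply Complex.ext <;> simp
  have h3 : v = v.re + v.im * Complex.I := (Complex.re_add_im v).symm
  rw [h1, h2]
  unfold dz dzb
  generalize fderiv ℝ f x 1 = A
  generalize fderiv ℝ f x Complex.I = B
  nth_rewrite 3 [h3]
  have hI : Complex.I * Complex.I = -1 := Complex.I_mul_I
  linear_combination ((v.im : ℂ) * B) * hI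

theorem dz_congr {f g : ℂ → ℂ} {x : ℂ} (h : f =ᶠ[𝓝 x] g) : dz f x = dz g x := by
  unfold dz; rw [h.fderiv_eq]

theorem dzb_congr {f g : ℂ → ℂ} {x : ℂ} (h : f =ᶠ[𝓝 x] g) : dzb f x = dzb g x := by
  unfold dzb; rw [h.fderiv_eq]

theorem dz_const (c x : ℂ) : dz (fun _ => c) x = 0 := by simp [dz]

theorem dzb_const (c x : ℂ) : dzb (fun _ => c) x = 0 := by simp [dzb]

theorem dz_add {f g : ℂ → ℂ} {x : ℂ} (hf : DifferentiableAt ℝ f x) (hg : DifferentiableAt ℝ g x) :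
    dz (fun y => f y + g y) x = dz f x + dz g x := by
  unfold dz; rw [fderiv_fun_add hf hg]; simp only [_root_.add_apply]; ring

theorem dzb_add {f g : ℂ → ℂ} {x : ℂ} (hf : DifferentiableAt ℝ f x) (hg : DifferentiableAt ℝ g x) :
    dzb (fun y => f y + g y) x = dzb f x + dzb g x := by
  unfold dzb; rw [fderiv_fun_add hf hg]; simp only [_root_.add_apply]; ring

theorem dz_sub {f g : ℂ → ℂ} {x : ℂ} (hf : DifferentiableAt ℝ f x) (hg : DifferentiableAt ℝ g x) :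
    dz (fun y => f y - g y) x = dz f x - dz g x := by
  unfold dz; rw [fderiv_fun_sub hf hg]; simp only [_root_.sub_apply]; ring

theorem dzb_sub {f g : ℂ → ℂ} {x : ℂ} (hf : DifferentiableAt ℝ f x) (hg : DifferentiableAt ℝ g x) :
    dzb (fun y => f y - g y) x = dzb f x - dzb g x := by
  unfold dzb; rw [fderiv_fun_sub hf hg]; simp only [_root_.sub_apply]; ring

theorem dz_neg (f : ℂ → ℂ) (x : ℂ) : dz (fun y => -f y) x = -dz f x := by
  unfold dz; rw [fderiv_fun_neg]; simp only [_root_.neg_apply]; ring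

theorem dzb_neg (f : ℂ → ℂ) (x : ℂ) : dzb (fun y => -f y) x = -dzb f x := by
  unfold dzb; rw [fderiv_fun_neg]; simp only [_root_.neg_apply]; ring

theorem dz_sum {ι : Type} (s : Finset ι) {f : ι → ℂ → ℂ} {x : ℂ}
    (hf : ∀ i ∈ s, DifferentiableAt ℝ (f i) x) :
    dz (fun y => ∑ i ∈ s, f i y) x = ∑ i ∈ s, dz (f i) x := by
  unfold dz; rw [fderiv_fun_sum hf]
  simp only [_root_.sum_apply, Finset.mul_sum, ← Finset.sum_sub_distrib,
    Finset.sum_div]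

theorem dzb_sum {ι : Type} (s : Finset ι) {f : ι → ℂ → ℂ} {x : ℂ}
    (hf : ∀ i ∈ s, DifferentiableAt ℝ (f i) x) :
    dzb (fun y => ∑ i ∈ s, f i y) x = ∑ i ∈ s, dzb (f i) x := by
  unfold dzb; rw [fderiv_fun_sum hf]
  simp only [_root_.sum_apply, Finset.mul_sum, ← Finset.sum_add_distrib,
    Finset.sum_div]

theorem dz_mul {f g : ℂ → ℂ} {x : ℂ} (hf : DifferentiableAt ℝ f x) (hg : DifferentiableAt ℝ g x) :
    dz (fun y => f y * g y) x = f x * dz g x + dz f x * g x := by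
  unfold dz; rw [fderiv_fun_mul hf hg]
  simp only [_root_.add_apply, _root_.smul_apply, smul_eq_mul]; ring

theorem dzb_mul {f g : ℂ → ℂ} {x : ℂ} (hf : DifferentiableAt ℝ f x) (hg : DifferentiableAt ℝ g x) :
    dzb (fun y => f y * g y) x = f x * dzb g x + dzb f x * g x := by
  unfold dzb; rw [fderiv_fun_mul hf hg]
  simp only [_root_.add_apply, _root_.smul_apply, smul_eq_mul]; ring

theorem dz_const_mul {f : ℂ → ℂ} {x : ℂ} (hf : DifferentiableAt ℝ f x) (c : ℂ) :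
    dz (fun y => c * f y) x = c * dz f x := by
  rw [dz_mul (differentiableAt_const c) hf, dz_const]; ring

theorem dzb_const_mul {f : ℂ → ℂ} {x : ℂ} (hf : DifferentiableAt ℝ f x) (c : ℂ) :
    dzb (fun y => c * f y) x = c * dzb f x := by
  rw [dzb_mul (differentiableAt_const c) hf, dzb_const]; ring

theorem dz_sq {f : ℂ → ℂ} {x : ℂ} (hf : DifferentiableAt ℝ f x) :
    dz (fun y => f y ^ 2) x = 2 * f x * dz f x := by
  simp only [sq]; rw [dz_mul hf hf]; ring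

theorem dzb_sq {f : ℂ → ℂ} {x : ℂ} (hf : DifferentiableAt ℝ f x) :
    dzb (fun y => f y ^ 2) x = 2 * f x * dzb f x := by
  simp only [sq]; rw [dzb_mul hf hf]; ring

theorem fderiv_cj (f : ℂ → ℂ) (x v : ℂ) :
    fderiv ℝ (cj f) x v = (starRingEnd ℂ) (fderiv ℝ f x v) := by
  have h := Complex.conjCLE.comp_fderiv (f := f) (x := x)
  have h2 : cj f = Complex.conjCLE ∘ f := rfl
  rw [h2, h]; rfl

theorem dz_cj (f : ℂ → ℂ) (x : ℂ) : dz (cj f) x = (starRingEnd ℂ) (dzb f x) := by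
  unfold dz dzb; rw [fderiv_cj, fderiv_cj]; simp [map_ofNat]; ring

theorem dzb_cj (f : ℂ → ℂ) (x : ℂ) : dzb (cj f) x = (starRingEnd ℂ) (dz f x) := by
  unfold dz dzb; rw [fderiv_cj, fderiv_cj]; simp [map_ofNat]

theorem dzb_cj_cj (f : ℂ → ℂ) (x : ℂ) : cj (dz (cj f)) x = dzb f x := by
  unfold cj; rw [show (fun x => (starRingEnd ℂ) (f x)) = cj f from rfl, dz_cj]; simp

theorem dz_add_right (f : ℂ → ℂ) (a x : ℂ) : dz (fun y => f (y + a)) x = dz f (x + a) := by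
  unfold dz; rw [fderiv_comp_add_right]

theorem dzb_add_right (f : ℂ → ℂ) (a x : ℂ) : dzb (fun y => f (y + a)) x = dzb f (x + a) := by
  unfold dzb; rw [fderiv_comp_add_right]

theorem dz_sub_right (f : ℂ → ℂ) (a x : ℂ) : dz (fun y => f (y - a)) x = dz f (x - a) := by
  unfold dz; rw [fderiv_comp_sub]

theorem dzb_sub_right (f : ℂ → ℂ) (a x : ℂ) : dzb (fun y => f (y - a)) x = dzb f (x - a) := by
  unfold dzb; rw [fderiv_comp_sub]

theorem fderiv_peri {E : Type} [NormedAddCommGroup E] [NormedSpace ℝ E] {f : ℂ → E}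
    (hf : Peri f) : Peri (fderiv ℝ f) := by
  intro n z
  rw [← fderiv_comp_add_right]
  have : (fun y => f (y + lat n)) = f := funext fun y => hf n y
  rw [this]

theorem dz_peri {f : ℂ → ℂ} (hf : Peri f) : Peri (dz f) := by
  intro n z; unfold dz; rw [fderiv_peri hf n z]

theorem dzb_peri {f : ℂ → ℂ} (hf : Peri f) : Peri (dzb f) := by
  intro n z; unfold dzb; rw [fderiv_peri hf n z]

theorem cj_peri {f : ℂ → ℂ} (hf : Peri f) : Peri (cj f) := by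
  intro n z; unfold cj; rw [hf n z]

theorem contDiffAt_dz {f : ℂ → ℂ} {x : ℂ} (hf : ContDiffAt ℝ ∞ f x) : ContDiffAt ℝ ∞ (dz f) x :=
  ((contDiffAt_fderiv_apply hf 1).sub
    (contDiffAt_const.mul (contDiffAt_fderiv_apply hf Complex.I))).div_const 2

theorem contDiffAt_dzb {f : ℂ → ℂ} {x : ℂ} (hf : ContDiffAt ℝ ∞ f x) : ContDiffAt ℝ ∞ (dzb f) x :=
  ((contDiffAt_fderiv_apply hf 1).add
    (contDiffAt_const.mul (contDiffAt_fderiv_apply hf Complex.I))).div_const 2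

theorem contDiff_dz {f : ℂ → ℂ} (hf : ContDiff ℝ ∞ f) : ContDiff ℝ ∞ (dz f) :=
  contDiff_iff_contDiffAt.2 fun _ => contDiffAt_dz hf.contDiffAt

theorem contDiff_dzb {f : ℂ → ℂ} (hf : ContDiff ℝ ∞ f) : ContDiff ℝ ∞ (dzb f) :=
  contDiff_iff_contDiffAt.2 fun _ => contDiffAt_dzb hf.contDiffAt

theorem norm_dz_le (f : ℂ → ℂ) (x : ℂ) : ‖dz f x‖ ≤ nD 1 f x := by
  rw [nD_one]; unfold dz
  have h1 := (fderiv ℝ f x).le_opNorm 1
  have h2 := (fderiv ℝ f x).le_opNorm Complex.I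
  have h3 := norm_sub_le (fderiv ℝ f x 1) (Complex.I * fderiv ℝ f x Complex.I)
  simp only [norm_one, Complex.norm_I, mul_one, norm_mul, one_mul] at h1 h2 h3
  rw [norm_div, Complex.norm_two]; linarith

theorem norm_dzb_le (f : ℂ → ℂ) (x : ℂ) : ‖dzb f x‖ ≤ nD 1 f x := by
  rw [nD_one]; unfold dzb
  have h1 := (fderiv ℝ f x).le_opNorm 1
  have h2 := (fderiv ℝ f x).le_opNorm Complex.I
  have h3 := norm_add_le (fderiv ℝ f x 1) (Complex.I * fderiv ℝ f x Complex.I)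
  simp only [norm_one, Complex.norm_I, mul_one, norm_mul, one_mul] at h1 h2 h3
  rw [norm_div, Complex.norm_two]; linarith

theorem nD_one_le (f : ℂ → ℂ) (x : ℂ) : nD 1 f x ≤ ‖dz f x‖ + ‖dzb f x‖ := by
  rw [nD_one]
  refine ContinuousLinearMap.opNorm_le_bound _ (by positivity) fun v => ?_
  rw [fderiv_eq_dz]
  refine (norm_add_le _ _).trans (le_of_eq ?_)
  rw [norm_mul, norm_mul, Complex.norm_conj]; ring

theorem nD_dz_le {f : ℂ → ℂ} {x : ℂ} (hf : ContDiffAt ℝ ∞ f x) (k : ℕ) :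
    nD k (dz f) x ≤ nD (k + 1) f x := by
  have e : dz f = fun y => (1 / 2 : ℂ) * (fderiv ℝ f y 1 - Complex.I * fderiv ℝ f y Complex.I) := by
    funext y; unfold dz; ring
  have c1 := contDiffAt_fderiv_apply hf 1
  have c2 := contDiffAt_fderiv_apply hf Complex.I
  rw [e, nD_const_mul (c1.sub (contDiffAt_const.mul c2))]
  have h1 := nD_sub_le c1 (contDiffAt_const.mul c2 :
    ContDiffAt ℝ ∞ (fun y => Complex.I * fderiv ℝ f y Complex.I) x) k
  rw [nD_const_mul c2] at h1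
  have h2 := nD_fderiv_apply_le hf 1 k
  have h3 := nD_fderiv_apply_le hf Complex.I k
  simp only [norm_one, Complex.norm_I, one_mul, norm_div, Complex.norm_two] at h1 h2 h3 ⊢
  linarith

theorem nD_dzb_le {f : ℂ → ℂ} {x : ℂ} (hf : ContDiffAt ℝ ∞ f x) (k : ℕ) :
    nD k (dzb f) x ≤ nD (k + 1) f x := by
  have e : dzb f = cj (dz (cj f)) := by
    funext y; rw [dzb_cj_cj]
  rw [e, nD_cj, ← nD_cj (k + 1) f]
  exact nD_dz_le (contDiffAt_cj hf) k

theorem fderiv_fderiv_comm {f : ℂ → ℂ} {x : ℂ} (hf : ContDiffAt ℝ 2 f x) (v w : ℂ) :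
    fderiv ℝ (fun y => fderiv ℝ f y v) x w = fderiv ℝ (fun y => fderiv ℝ f y w) x v := by
  have hd : DifferentiableAt ℝ (fderiv ℝ f) x :=
    (hf.fderiv_right (m := 1) (by norm_num)).differentiableAt (by simp)
  have e : ∀ a b : ℂ, fderiv ℝ (fun y => fderiv ℝ f y a) x b = fderiv ℝ (fderiv ℝ f) x b a := by
    intro a b
    rw [fderiv_clm_apply hd (differentiableAt_const a)]; simp
  rw [e, e]
  exact (hf.isSymmSndFDerivAt (by simp)).eq w v

theorem dz_dzb_comm {f : ℂ → ℂ} {x : ℂ} (hf : ContDiffAt ℝ 2 f x) :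
    dz (dzb f) x = dzb (dz f) x := by
  have hd : ∀ v, DifferentiableAt ℝ (fun y => fderiv ℝ f y v) x := fun v =>
    ((hf.fderiv_right (m := 1) (by norm_num)).differentiableAt (by simp)).clm_apply
      (differentiableAt_const v)
  have e1 : dzb f = fun y => (1 / 2 : ℂ) * (fderiv ℝ f y 1 + Complex.I * fderiv ℝ f y Complex.I) := by
    funext y; unfold dzb; ring
  have e2 : dz f = fun y => (1 / 2 : ℂ) * (fderiv ℝ f y 1 - Complex.I * fderiv ℝ f y Complex.I) := by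
    funext y; unfold dz; ring
  have hI : DifferentiableAt ℝ (fun y => Complex.I * fderiv ℝ f y Complex.I) x :=
    (differentiableAt_const _).mul (hd _)
  rw [e1, e2, dz_const_mul ((hd 1).fun_add hI), dzb_const_mul ((hd 1).fun_sub hI), dz_add (hd 1) hI,
    dzb_sub (hd 1) hI, dz_const_mul (hd _), dzb_const_mul (hd _)]
  unfold dz dzb
  rw [fderiv_fderiv_comm hf 1 Complex.I]
  ring

/-! ### jointly smooth fields -/

section Smooth
variable {E : Type} [NormedAddCommGroup E] [NormedSpace ℝ E]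

theorem Sm.slice {f : ℝ → ℂ → E} (hf : Sm f) (t : ℝ) : ContDiff ℝ ∞ (f t) :=
  ContDiff.comp (g := fun p : ℝ × ℂ => f p.1 p.2) (f := fun x : ℂ => (t, x)) hf
    (contDiff_const.prodMk contDiff_id)

theorem Sm.time {f : ℝ → ℂ → E} (hf : Sm f) (x : ℂ) : ContDiff ℝ ∞ (fun t => f t x) :=
  ContDiff.comp (g := fun p : ℝ × ℂ => f p.1 p.2) (f := fun t : ℝ => (t, x)) hf
    (contDiff_id.prodMk contDiff_const)

theorem Sm.continuous {f : ℝ → ℂ → E} (hf : Sm f) : Continuous (fun p : ℝ × ℂ => f p.1 p.2) :=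
  ContDiff.continuous hf

theorem Sm.comp {X : Type} [NormedAddCommGroup X] [NormedSpace ℝ X] {f : ℝ → ℂ → E} (hf : Sm f)
    {a : X → ℝ} {b : X → ℂ} (ha : ContDiff ℝ ∞ a) (hb : ContDiff ℝ ∞ b) :
    ContDiff ℝ ∞ (fun p => f (a p) (b p)) :=
  ContDiff.comp (g := fun p : ℝ × ℂ => f p.1 p.2) (f := fun p => (a p, b p)) hf (ha.prodMk hb)

theorem Sm.path {f : ℝ → ℂ → E} (hf : Sm f) {z : ℝ → ℂ} (hz : ContDiff ℝ ∞ z) :
    ContDiff ℝ ∞ (fun t => f t (z t)) := hf.comp contDiff_id hz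

theorem Sm.of_space {g : ℂ → E} (hg : ContDiff ℝ ∞ g) : Sm (fun _ x => g x) :=
  hg.comp contDiff_snd

theorem Sm.of_time {c : ℝ → E} (hc : ContDiff ℝ ∞ c) : Sm (fun t (_ : ℂ) => c t) :=
  hc.comp contDiff_fst

theorem Sm.const (c : E) : Sm (fun _ _ => c) := contDiff_const

theorem Sm.add {f g : ℝ → ℂ → E} (hf : Sm f) (hg : Sm g) : Sm (fun t x => f t x + g t x) :=
  ContDiff.add hf hg

theorem Sm.sub {f g : ℝ → ℂ → E} (hf : Sm f) (hg : Sm g) : Sm (fun t x => f t x - g t x) :=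
  ContDiff.sub hf hg

theorem Sm.neg {f : ℝ → ℂ → E} (hf : Sm f) : Sm (fun t x => -f t x) := ContDiff.neg hf

theorem Sm.sum {ι : Type} (s : Finset ι) {f : ι → ℝ → ℂ → E} (hf : ∀ i ∈ s, Sm (f i)) :
    Sm (fun t x => ∑ i ∈ s, f i t x) := ContDiff.sum hf

theorem Sm.smul {a : ℝ → ℂ → ℝ} {f : ℝ → ℂ → E} (ha : Sm a) (hf : Sm f) :
    Sm (fun t x => a t x • f t x) := ContDiff.smul ha hf

theorem Sm.shift {f : ℝ → ℂ → E} (hf : Sm f) {z : ℝ → ℂ} (hz : ContDiff ℝ ∞ z) :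
    Sm (fun t x => f t (x - z t)) :=
  hf.comp contDiff_fst (contDiff_snd.sub (hz.comp contDiff_fst))

theorem Sm.shift_add {f : ℝ → ℂ → E} (hf : Sm f) {z : ℝ → ℂ} (hz : ContDiff ℝ ∞ z) :
    Sm (fun t x => f t (x + z t)) :=
  hf.comp contDiff_fst (contDiff_snd.add (hz.comp contDiff_fst))

theorem Sm.fderiv {f : ℝ → ℂ → E} (hf : Sm f) : Sm (fun t x => fderiv ℝ (f t) x) :=
  ContDiff.fderiv (f := fun (p : ℝ × ℂ) (y : ℂ) => f p.1 y) (g := fun p => p.2)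
    (hf.comp (contDiff_fst.comp contDiff_fst) contDiff_snd) contDiff_snd inf_add_one_le

theorem Sm.fderiv_apply {f : ℝ → ℂ → E} (hf : Sm f) (v : ℂ) :
    Sm (fun t x => _root_.fderiv ℝ (f t) x v) := ContDiff.clm_apply hf.fderiv contDiff_const

theorem Sm.deriv {f : ℝ → ℂ → E} (hf : Sm f) : Sm (fun t x => deriv (fun s => f s x) t) :=
  ContDiff.clm_apply (ContDiff.fderiv (f := fun (p : ℝ × ℂ) (s : ℝ) => f s p.2) (g := fun p => p.1)
    (hf.comp contDiff_snd (contDiff_snd.comp contDiff_fst)) contDiff_fst inf_add_one_le)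
    (contDiff_const (c := (1 : ℝ)))

theorem Sm.iterated {f : ℝ → ℂ → E} (hf : Sm f) (k : ℕ) :
    Sm (fun t x => iteratedFDeriv ℝ k (f t) x) := by
  induction k with
  | zero =>
    exact (continuousMultilinearCurryFin0 ℝ ℂ E).symm.contDiff.comp hf
  | succ k ih =>
    exact (continuousMultilinearCurryLeftEquiv ℝ (fun _ : Fin (k + 1) => ℂ) E).symm.contDiff.comp
      ih.fderiv

theorem SP.add {f g : ℝ → ℂ → E} (hf : SP f) (hg : SP g) : SP (fun t x => f t x + g t x) :=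
  ⟨hf.1.add hg.1, fun t n z => by simp only [hf.2 t n z, hg.2 t n z]⟩

theorem SP.sub {f g : ℝ → ℂ → E} (hf : SP f) (hg : SP g) : SP (fun t x => f t x - g t x) :=
  ⟨hf.1.sub hg.1, fun t n z => by simp only [hf.2 t n z, hg.2 t n z]⟩

theorem SP.neg {f : ℝ → ℂ → E} (hf : SP f) : SP (fun t x => -f t x) :=
  ⟨hf.1.neg, fun t n z => by simp only [hf.2 t n z]⟩

theorem SP.sum {ι : Type} (s : Finset ι) {f : ι → ℝ → ℂ → E} (hf : ∀ i ∈ s, SP (f i)) :
    SP (fun t x => ∑ i ∈ s, f i t x) :=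
  ⟨Sm.sum s fun i hi => (hf i hi).1, fun t n z =>
    Finset.sum_congr rfl fun i hi => (hf i hi).2 t n z⟩

theorem SP.of_time {c : ℝ → E} (hc : ContDiff ℝ ∞ c) : SP (fun t (_ : ℂ) => c t) :=
  ⟨Sm.of_time hc, fun _ _ _ => rfl⟩

theorem SP.of_space {g : ℂ → E} (hg : ContDiff ℝ ∞ g) (hp : Peri g) : SP (fun _ x => g x) :=
  ⟨Sm.of_space hg, fun _ => hp⟩

theorem SP.const (c : E) : SP (fun _ _ => c) := ⟨Sm.const c, fun _ _ _ => rfl⟩

theorem SP.shift {f : ℝ → ℂ → E} (hf : SP f) {z : ℝ → ℂ} (hz : ContDiff ℝ ∞ z) :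
    SP (fun t x => f t (x - z t)) :=
  ⟨hf.1.shift hz, fun t n x => by
    have := hf.2 t n (x - z t)
    rwa [show x - z t + lat n = x + lat n - z t by ring] at this⟩

theorem SP.shift_add {f : ℝ → ℂ → E} (hf : SP f) {z : ℝ → ℂ} (hz : ContDiff ℝ ∞ z) :
    SP (fun t x => f t (x + z t)) :=
  ⟨hf.1.shift_add hz, fun t n x => by
    have := hf.2 t n (x + z t)
    rwa [show x + z t + lat n = x + lat n + z t by ring] at this⟩

theorem Loc.mono {f : ℝ → ℂ → E} {r r' : ℝ} (hf : Loc f r) (h : r ≤ r') : Loc f r' :=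
  ⟨hf.1, fun t y hy => hf.2 t y (h.trans_lt hy)⟩

theorem Loc.add {f g : ℝ → ℂ → E} {r : ℝ} (hf : Loc f r) (hg : Loc g r) :
    Loc (fun t x => f t x + g t x) r :=
  ⟨hf.1.add hg.1, fun t y hy => by simp only [hf.2 t y hy, hg.2 t y hy, add_zero]⟩

theorem Loc.sub {f g : ℝ → ℂ → E} {r : ℝ} (hf : Loc f r) (hg : Loc g r) :
    Loc (fun t x => f t x - g t x) r :=
  ⟨hf.1.sub hg.1, fun t y hy => by simp only [hf.2 t y hy, hg.2 t y hy, sub_zero]⟩

theorem Loc.neg {f : ℝ → ℂ → E} {r : ℝ} (hf : Loc f r) : Loc (fun t x => -f t x) r :=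
  ⟨hf.1.neg, fun t y hy => by simp only [hf.2 t y hy, neg_zero]⟩

theorem Loc.sum {ι : Type} (s : Finset ι) {f : ι → ℝ → ℂ → E} {r : ℝ} (hf : ∀ i ∈ s, Loc (f i) r) :
    Loc (fun t x => ∑ i ∈ s, f i t x) r :=
  ⟨Sm.sum s fun i hi => (hf i hi).1, fun t y hy =>
    Finset.sum_eq_zero fun i hi => (hf i hi).2 t y hy⟩

theorem Loc.eventually {f : ℝ → ℂ → E} {r : ℝ} (hf : Loc f r) (t : ℝ) {y : ℂ} (hy : r < ‖y‖) :
    ∀ᶠ w in 𝓝 y, f t w = 0 :=
  Filter.Eventually.mono ((isOpen_lt continuous_const continuous_norm).mem_nhds hy)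
    fun w hw => hf.2 t w hw

/-- a field carried along the path `z` -/
theorem Loc.shift {f : ℝ → ℂ → E} {r R : ℝ} (hf : Loc f r) {z : ℝ → ℂ} (hz : ContDiff ℝ ∞ z)
    (hR : ∀ t, ‖z t‖ ≤ R ∨ ∀ y, f t y = 0) : Loc (fun t x => f t (x - z t)) (r + R) :=
  ⟨hf.1.shift hz, fun t y hy => by
    rcases hR t with h | h
    · refine hf.2 t _ ?_
      have := norm_sub_norm_le y (z t)
      linarith
    · exact h _⟩

end Smooth

theorem Sm.mul {A : Type} [NormedRing A] [NormedAlgebra ℝ A] {f g : ℝ → ℂ → A} (hf : Sm f)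
    (hg : Sm g) : Sm (fun t x => f t x * g t x) := ContDiff.mul hf hg

theorem Sm.pow {A : Type} [NormedRing A] [NormedAlgebra ℝ A] {f : ℝ → ℂ → A} (hf : Sm f) (n : ℕ) :
    Sm (fun t x => f t x ^ n) := ContDiff.pow hf n

theorem SP.mul {A : Type} [NormedRing A] [NormedAlgebra ℝ A] {f g : ℝ → ℂ → A} (hf : SP f)
    (hg : SP g) : SP (fun t x => f t x * g t x) :=
  ⟨hf.1.mul hg.1, fun t n z => by simp only [hf.2 t n z, hg.2 t n z]⟩

theorem SP.pow {A : Type} [NormedRing A] [NormedAlgebra ℝ A] {f : ℝ → ℂ → A} (hf : SP f) (n : ℕ) :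
    SP (fun t x => f t x ^ n) := ⟨hf.1.pow n, fun t m z => by simp only [hf.2 t m z]⟩

theorem Loc.mul_left {A : Type} [NormedRing A] [NormedAlgebra ℝ A] {f g : ℝ → ℂ → A} {r : ℝ}
    (hf : Sm f) (hg : Loc g r) : Loc (fun t x => f t x * g t x) r :=
  ⟨hf.mul hg.1, fun t y hy => by simp only [hg.2 t y hy, mul_zero]⟩

theorem Loc.mul_right {A : Type} [NormedRing A] [NormedAlgebra ℝ A] {f g : ℝ → ℂ → A} {r : ℝ}
    (hf : Loc f r) (hg : Sm g) : Loc (fun t x => f t x * g t x) r :=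
  ⟨hf.1.mul hg, fun t y hy => by simp only [hf.2 t y hy, zero_mul]⟩

theorem Sm.ofReal {p : ℝ → ℂ → ℝ} (hp : Sm p) : Sm (fun t x => (p t x : ℂ)) := contDiff_ofReal hp

theorem Sm.re {f : ℝ → ℂ → ℂ} (hf : Sm f) : Sm (fun t x => (f t x).re) := contDiff_re hf

theorem Sm.cj {f : ℝ → ℂ → ℂ} (hf : Sm f) : Sm (fun t => cj (f t)) := contDiff_conj hf

theorem Sm.dz {f : ℝ → ℂ → ℂ} (hf : Sm f) : Sm (fun t => dz (f t)) :=
  ContDiff.div_const (ContDiff.sub (hf.fderiv_apply 1)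
    (ContDiff.mul contDiff_const (hf.fderiv_apply Complex.I))) 2

theorem Sm.dzb {f : ℝ → ℂ → ℂ} (hf : Sm f) : Sm (fun t => dzb (f t)) :=
  ContDiff.div_const (ContDiff.add (hf.fderiv_apply 1)
    (ContDiff.mul contDiff_const (hf.fderiv_apply Complex.I))) 2

theorem Sm.dt {f : ℝ → ℂ → ℂ} (hf : Sm f) : Sm (dt f) := hf.deriv

theorem Sm.continuous_nD {f : ℝ → ℂ → ℂ} (hf : Sm f) (k : ℕ) :
    Continuous (fun p : ℝ × ℂ => nD k (f p.1) p.2) := (hf.iterated k).continuous.norm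

theorem SP.ofReal {p : ℝ → ℂ → ℝ} (hp : SP p) : SP (fun t x => (p t x : ℂ)) :=
  ⟨hp.1.ofReal, fun t n z => by simp only [hp.2 t n z]⟩

theorem SP.cj {f : ℝ → ℂ → ℂ} (hf : SP f) : SP (fun t => cj (f t)) :=
  ⟨hf.1.cj, fun t => cj_peri (hf.2 t)⟩

theorem SP.dz {f : ℝ → ℂ → ℂ} (hf : SP f) : SP (fun t => dz (f t)) :=
  ⟨hf.1.dz, fun t => dz_peri (hf.2 t)⟩

theorem SP.dzb {f : ℝ → ℂ → ℂ} (hf : SP f) : SP (fun t => dzb (f t)) :=
  ⟨hf.1.dzb, fun t => dzb_peri (hf.2 t)⟩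

theorem SP.dt {f : ℝ → ℂ → ℂ} (hf : SP f) : SP (dt f) :=
  ⟨hf.1.dt, fun t n z => by
    unfold Pool.Agent.Lib.EUL.dt
    simp only [fun s => hf.2 s n z]⟩

theorem Loc.ofReal {p : ℝ → ℂ → ℝ} {r : ℝ} (hp : Loc p r) : Loc (fun t x => (p t x : ℂ)) r :=
  ⟨hp.1.ofReal, fun t y hy => by simp only [hp.2 t y hy, Complex.ofReal_zero]⟩

theorem Loc.cj {f : ℝ → ℂ → ℂ} {r : ℝ} (hf : Loc f r) : Loc (fun t => cj (f t)) r :=
  ⟨hf.1.cj, fun t y hy => by simp only [Pool.Agent.Lib.EUL.cj, hf.2 t y hy, map_zero]⟩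

theorem Loc.dz {f : ℝ → ℂ → ℂ} {r : ℝ} (hf : Loc f r) : Loc (fun t => dz (f t)) r :=
  ⟨hf.1.dz, fun t y hy =>
    (dz_congr (g := fun _ => 0) (hf.eventually t hy)).trans (dz_const 0 y)⟩

theorem Loc.dzb {f : ℝ → ℂ → ℂ} {r : ℝ} (hf : Loc f r) : Loc (fun t => dzb (f t)) r :=
  ⟨hf.1.dzb, fun t y hy =>
    (dzb_congr (g := fun _ => 0) (hf.eventually t hy)).trans (dzb_const 0 y)⟩

theorem Loc.dt {f : ℝ → ℂ → ℂ} {r : ℝ} (hf : Loc f r) : Loc (dt f) r :=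
  ⟨hf.1.dt, fun t y hy => by
    unfold Pool.Agent.Lib.EUL.dt
    simp only [fun s => hf.2 s y hy, deriv_const]⟩

theorem Loc.nD_eq_zero {f : ℝ → ℂ → ℂ} {r : ℝ} (hf : Loc f r) (k : ℕ) (t : ℝ) {y : ℂ}
    (hy : r < ‖y‖) : nD k (f t) y = 0 := nD_eq_zero_of_eventually (hf.eventually t hy) k

/-! ### time derivatives -/

theorem Sm.hasDerivAt {f : ℝ → ℂ → ℂ} (hf : Sm f) (t : ℝ) (x : ℂ) :
    HasDerivAt (fun s => f s x) (Pool.Agent.Lib.EUL.dt f t x) t :=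
  (diff_of (hf.time x) t).hasDerivAt

theorem Sm.diff {f : ℝ → ℂ → ℂ} (hf : Sm f) (t : ℝ) (x : ℂ) : DifferentiableAt ℝ (f t) x :=
  diff_of (hf.slice t) x

theorem dt_eq_of_hasDerivAt {f : ℝ → ℂ → ℂ} {t : ℝ} {x c : ℂ} (h : HasDerivAt (fun s => f s x) c t) :
    dt f t x = c := h.deriv

theorem dt_add {f g : ℝ → ℂ → ℂ} (hf : Sm f) (hg : Sm g) (t : ℝ) (x : ℂ) :
    dt (fun s y => f s y + g s y) t x = dt f t x + dt g t x :=
  ((hf.hasDerivAt t x).fun_add (hg.hasDerivAt t x)).deriv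

theorem dt_sub {f g : ℝ → ℂ → ℂ} (hf : Sm f) (hg : Sm g) (t : ℝ) (x : ℂ) :
    dt (fun s y => f s y - g s y) t x = dt f t x - dt g t x :=
  ((hf.hasDerivAt t x).fun_sub (hg.hasDerivAt t x)).deriv

theorem dt_neg {f : ℝ → ℂ → ℂ} (hf : Sm f) (t : ℝ) (x : ℂ) :
    dt (fun s y => -f s y) t x = -dt f t x := (hf.hasDerivAt t x).fun_neg.deriv

theorem dt_mul {f g : ℝ → ℂ → ℂ} (hf : Sm f) (hg : Sm g) (t : ℝ) (x : ℂ) :
    dt (fun s y => f s y * g s y) t x = dt f t x * g t x + f t x * dt g t x :=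
  ((hf.hasDerivAt t x).fun_mul (hg.hasDerivAt t x)).deriv

theorem dt_sum {ι : Type} (s : Finset ι) {f : ι → ℝ → ℂ → ℂ} (hf : ∀ i ∈ s, Sm (f i)) (t : ℝ)
    (x : ℂ) : dt (fun r y => ∑ i ∈ s, f i r y) t x = ∑ i ∈ s, dt (f i) t x :=
  (HasDerivAt.fun_sum fun i hi => (hf i hi).hasDerivAt t x).deriv

theorem dt_space (g : ℂ → ℂ) (t : ℝ) (x : ℂ) : dt (fun _ y => g y) t x = 0 := by simp [dt]

theorem dt_time (c : ℝ → ℂ) (t : ℝ) (x : ℂ) : dt (fun s _ => c s) t x = deriv c t := rfl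

theorem dt_cj {f : ℝ → ℂ → ℂ} (hf : Sm f) (t : ℝ) (x : ℂ) :
    dt (fun s => cj (f s)) t x = (starRingEnd ℂ) (dt f t x) :=
  (Complex.conjCLE.hasFDerivAt.comp_hasDerivAt t (hf.hasDerivAt t x)).deriv

theorem dt_eq_zero_of_TS {f : ℝ → ℂ → ℂ} {a b : ℝ} (hf : TS f a b) : TS (dt f) a b := by
  intro t ht x
  have h : (fun s => f s x) =ᶠ[𝓝 t] fun _ => 0 :=
    Filter.Eventually.mono (isClosed_Icc.isOpen_compl.mem_nhds ht) fun s hs => hf s hs x
  unfold dt; rw [h.deriv_eq]; simp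

theorem Sm.fderiv_pair {f : ℝ → ℂ → ℂ} (hf : Sm f) (t : ℝ) (x : ℂ) (a : ℝ) (v : ℂ) :
    _root_.fderiv ℝ (fun p : ℝ × ℂ => f p.1 p.2) (t, x) (a, v) =
      a * Pool.Agent.Lib.EUL.dt f t x + _root_.fderiv ℝ (f t) x v := by
  have hF := (diff_of hf (t, x)).hasFDerivAt
  have h1 : HasDerivAt (fun s : ℝ => (s, x)) ((1 : ℝ), (0 : ℂ)) t :=
    (hasDerivAt_id t).prodMk (hasDerivAt_const t x)
  have h2 := (hF.comp_hasDerivAt t h1).deriv
  have h3 : HasFDerivAt (fun y : ℂ => (t, y)) (ContinuousLinearMap.inr ℝ ℝ ℂ) x :=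
    hasFDerivAt_prodMk_right t x
  have h4 := (HasFDerivAt.comp x (g := fun p : ℝ × ℂ => f p.1 p.2) hF h3).fderiv
  have e1 : Pool.Agent.Lib.EUL.dt f t x =
      _root_.fderiv ℝ (fun p : ℝ × ℂ => f p.1 p.2) (t, x) (1, 0) := h2
  have e2 : _root_.fderiv ℝ (f t) x v =
      _root_.fderiv ℝ (fun p : ℝ × ℂ => f p.1 p.2) (t, x) (0, v) := by
    have : _root_.fderiv ℝ (f t) x = _ := h4
    rw [this]; rfl
  have e3 : ((a, v) : ℝ × ℂ) = a • ((1 : ℝ), (0 : ℂ)) + ((0 : ℝ), v) := by simp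
  rw [e1, e2, e3, map_add, map_smul]; simp

/-- derivative of a field along a path -/
theorem Sm.hasDerivAt_path {f : ℝ → ℂ → ℂ} (hf : Sm f) {z : ℝ → ℂ} {t : ℝ} {z' : ℂ}
    (hz : HasDerivAt z z' t) :
    HasDerivAt (fun s => f s (z s))
      (Pool.Agent.Lib.EUL.dt f t (z t) + _root_.fderiv ℝ (f t) (z t) z') t := by
  have hF := (diff_of hf (t, z t)).hasFDerivAt
  have h1 : HasDerivAt (fun s : ℝ => (s, z s)) ((1 : ℝ), z') t := (hasDerivAt_id t).prodMk hz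
  have h2 := hF.comp_hasDerivAt t h1
  rw [hf.fderiv_pair, Complex.ofReal_one, one_mul] at h2
  exact h2

/-- time derivative of a field written in a moving frame -/
theorem dt_shift {f : ℝ → ℂ → ℂ} (hf : Sm f) {z : ℝ → ℂ} {t : ℝ} {z' : ℂ}
    (hz : HasDerivAt z z' t) (x : ℂ) :
    dt (fun s y => f s (y - z s)) t x = dt f t (x - z t) - fderiv ℝ (f t) (x - z t) z' := by
  have h := hf.hasDerivAt_path (z := fun s => x - z s) (hz.const_sub x)
  rw [map_neg, ← sub_eq_add_neg] at h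
  exact h.deriv

theorem dt_shift_dz {f : ℝ → ℂ → ℂ} (hf : Sm f) {z : ℝ → ℂ} {t : ℝ} {z' : ℂ}
    (hz : HasDerivAt z z' t) (x : ℂ) :
    dt (fun s y => f s (y - z s)) t x = dt f t (x - z t)
      - (z' * dz (f t) (x - z t) + (starRingEnd ℂ) z' * dzb (f t) (x - z t)) := by
  rw [dt_shift hf hz, fderiv_eq_dz]

theorem dt_fderiv {f : ℝ → ℂ → ℂ} (hf : Sm f) (v : ℂ) (t : ℝ) (x : ℂ) :
    dt (fun s y => fderiv ℝ (f s) y v) t x = fderiv ℝ (dt f t) x v := by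
  set F : ℝ × ℂ → ℂ := fun p => f p.1 p.2 with hFdef
  have hF : ContDiff ℝ ∞ F := hf
  have hd : DifferentiableAt ℝ (fderiv ℝ F) (t, x) := diff_of (contDiff_fderiv hF) _
  have e : ∀ a b : ℝ × ℂ, fderiv ℝ (fun p => fderiv ℝ F p a) (t, x) b
      = fderiv ℝ (fderiv ℝ F) (t, x) b a := by
    intro a b
    rw [fderiv_clm_apply hd (differentiableAt_const a)]; simp
  have hsym := (hF.contDiffAt (x := (t, x))).isSymmSndFDerivAt (by simpa using two_le_inf)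
  have s1 : Sm (fun s y => fderiv ℝ (f s) y v) := hf.fderiv_apply v
  have s2 : Sm (dt f) := hf.dt
  have p1 := s1.fderiv_pair t x 1 0
  have p2 := s2.fderiv_pair t x 0 v
  have q1 : (fun p : ℝ × ℂ => fderiv ℝ (f p.1) p.2 v) = fun p => fderiv ℝ F p (0, v) := by
    funext p; have := hf.fderiv_pair p.1 p.2 0 v; simpa using this.symm
  have q2 : (fun p : ℝ × ℂ => dt f p.1 p.2) = fun p => fderiv ℝ F p (1, 0) := by
    funext p; have := hf.fderiv_pair p.1 p.2 1 0; simpa using this.symm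
  rw [q1, e] at p1
  rw [q2, e] at p2
  have := hsym.eq ((1 : ℝ), (0 : ℂ)) ((0 : ℝ), v)
  rw [p1, p2] at this
  simpa using this

theorem dt_dz {f : ℝ → ℂ → ℂ} (hf : Sm f) (t : ℝ) (x : ℂ) :
    dt (fun s => dz (f s)) t x = dz (dt f t) x := by
  have h1 := (hf.fderiv_apply 1).hasDerivAt t x
  have h2 := (hf.fderiv_apply Complex.I).hasDerivAt t x
  have h := ((h1.fun_sub (h2.const_mul Complex.I)).div_const 2).deriv
  rw [dt_fderiv hf, dt_fderiv hf] at h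
  exact h

theorem dt_dzb {f : ℝ → ℂ → ℂ} (hf : Sm f) (t : ℝ) (x : ℂ) :
    dt (fun s => dzb (f s)) t x = dzb (dt f t) x := by
  have h1 := (hf.fderiv_apply 1).hasDerivAt t x
  have h2 := (hf.fderiv_apply Complex.I).hasDerivAt t x
  have h := ((h1.fun_add (h2.const_mul Complex.I)).div_const 2).deriv
  rw [dt_fderiv hf, dt_fderiv hf] at h
  exact h

/-! ### gradients -/

theorem IsG.congr {E E' : ℂ → ℂ} (h : IsG E) (e : ∀ x, E' x = E x) : IsG E' := by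
  obtain ⟨p, h1, h2, h3⟩ := h
  exact ⟨p, h1, h2, fun x => (e x).trans (h3 x)⟩

theorem IsG.zero : IsG (fun _ => 0) :=
  ⟨fun _ => 0, contDiff_const, fun _ _ => rfl, fun x => by simp [grad, dzb]⟩

theorem IsG.add {E E' : ℂ → ℂ} (h : IsG E) (h' : IsG E') : IsG (fun x => E x + E' x) := by
  obtain ⟨p, h1, h2, h3⟩ := h
  obtain ⟨q, k1, k2, k3⟩ := h'
  refine ⟨fun y => p y + q y, h1.add k1, fun n z => by simp only [h2 n z, k2 n z], fun x => ?_⟩
  beta_reduce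
  rw [h3, k3]; unfold grad
  simp only [Complex.ofReal_add]
  rw [dzb_add (diff_of (contDiff_ofReal h1) x) (diff_of (contDiff_ofReal k1) x)]; ring

theorem IsG.real_mul {E : ℂ → ℂ} (h : IsG E) (c : ℝ) : IsG (fun x => (c : ℂ) * E x) := by
  obtain ⟨p, h1, h2, h3⟩ := h
  refine ⟨fun y => c * p y, contDiff_const.mul h1, fun n z => by simp only [h2 n z], fun x => ?_⟩
  beta_reduce
  rw [h3]; unfold grad
  simp only [Complex.ofReal_mul]
  rw [dzb_const_mul (diff_of (contDiff_ofReal h1) x)]; ring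

theorem IsG.neg {E : ℂ → ℂ} (h : IsG E) : IsG (fun x => -E x) :=
  (h.real_mul (-1)).congr fun x => by simp

theorem IsG.sub {E E' : ℂ → ℂ} (h : IsG E) (h' : IsG E') : IsG (fun x => E x - E' x) :=
  (h.add h'.neg).congr fun x => sub_eq_add_neg _ _

theorem IsG.sum {ι : Type} (s : Finset ι) {E : ι → ℂ → ℂ} (h : ∀ i ∈ s, IsG (E i)) :
    IsG (fun x => ∑ i ∈ s, E i x) := by
  induction s using Finset.induction_on with
  | empty => simpa using IsG.zero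
  | insert a s ha ih =>
    refine ((h a (Finset.mem_insert_self _ _)).add
      (ih fun i hi => h i (Finset.mem_insert_of_mem hi))).congr fun x => ?_
    rw [Finset.sum_insert ha]

theorem IsG.shift {E : ℂ → ℂ} (h : IsG E) (a : ℂ) : IsG (fun x => E (x - a)) := by
  obtain ⟨p, h1, h2, h3⟩ := h
  refine ⟨fun y => p (y - a), h1.comp (contDiff_id.sub contDiff_const), fun n z => ?_, fun x => ?_⟩
  · have := h2 n (z - a)
    rwa [show z - a + lat n = z + lat n - a by ring] at this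
  · beta_reduce
    rw [h3]; unfold grad
    rw [dzb_sub_right (fun y => (p y : ℂ)) a x]

theorem IsG.of_grad {p : ℂ → ℝ} (h1 : ContDiff ℝ ∞ p) (h2 : Peri p) : IsG (grad p) :=
  ⟨p, h1, h2, fun _ => rfl⟩

theorem grad_re {f : ℂ → ℂ} {x : ℂ} (hf : DifferentiableAt ℝ f x) :
    grad (fun y => (f y).re) x = dzb f x + (starRingEnd ℂ) (dz f x) := by
  have e : (fun y => (((f y).re : ℝ) : ℂ)) = fun y => (1 / 2 : ℂ) * (f y + cj f y) := by
    funext y; unfold cj; rw [Complex.add_conj]; push_cast; ring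
  have hc : DifferentiableAt ℝ (cj f) x := Complex.conjCLE.differentiableAt.comp x hf
  unfold grad
  rw [e, dzb_const_mul (hf.fun_add hc), dzb_add hf hc, dzb_cj]; ring

/-- `dzb f + conj (dz f)` is the gradient of `Re f` -/
theorem isG_re {f : ℂ → ℂ} (hf : ContDiff ℝ ∞ f) (hp : Peri f) :
    IsG (fun x => dzb f x + (starRingEnd ℂ) (dz f x)) :=
  ⟨fun y => (f y).re, contDiff_re hf, fun n z => by simp only [hp n z],
    fun x => (grad_re (diff_of hf x)).symm⟩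

/-- `dzb` of a real valued function is a gradient -/
theorem isG_dzb_real {f : ℂ → ℂ} (hf : ContDiff ℝ ∞ f) (hp : Peri f) (hr : ∀ y, (f y).im = 0) :
    IsG (dzb f) := by
  have e : f = fun y => (((f y).re : ℝ) : ℂ) := by
    funext y; apply Complex.ext <;> simp [hr y]
  refine ((IsG.of_grad (contDiff_re hf) fun n z => by simp only [hp n z]).real_mul
    (1 / 2)).congr fun x => ?_
  unfold grad; rw [← e]; push_cast; ring

theorem conj_dz_of_div {w : ℂ → ℂ} {x : ℂ} (h : (dz w x).re = 0) :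
    (starRingEnd ℂ) (dz w x) = -dz w x := by
  apply Complex.ext <;> simp [h]

/-- transport of a divergence free field by a constant velocity -/
theorem isG_transport {w : ℂ → ℂ} (hw : ContDiff ℝ ∞ w) (hp : Peri w) (hd : ∀ x, (dz w x).re = 0)
    (c : ℂ) :
    IsG (fun x => c * dz w x + (starRingEnd ℂ) c * dzb w x - dz (fun y => 2 * c * w y) x) := by
  refine (isG_re (f := fun y => (starRingEnd ℂ) c * w y) (contDiff_const.mul hw)
    (fun n z => by simp only [hp n z])).congr fun x => ?_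
  rw [dz_const_mul (diff_of hw x), dz_const_mul (diff_of hw x), dzb_const_mul (diff_of hw x),
    map_mul, conj_dz_of_div (hd x), Complex.conj_conj]
  ring

theorem isG_transport' {w : ℂ → ℂ} (hw : ContDiff ℝ ∞ w) (hp : Peri w) (hd : ∀ x, (dz w x).re = 0)
    (c : ℂ) : IsG (fun x => fderiv ℝ w x c - dz (fun y => 2 * c * w y) x) :=
  (isG_transport hw hp hd c).congr fun x => by rw [fderiv_eq_dz]

theorem IsGrad.congr {E E' : ℝ → ℂ → ℂ} (h : IsGrad E) (e : ∀ t x, E' t x = E t x) : IsGrad E' :=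
  fun t => (h t).congr (e t)

theorem IsGrad.add {E E' : ℝ → ℂ → ℂ} (h : IsGrad E) (h' : IsGrad E') :
    IsGrad (fun t x => E t x + E' t x) := fun t => (h t).add (h' t)

theorem IsGrad.sub {E E' : ℝ → ℂ → ℂ} (h : IsGrad E) (h' : IsGrad E') :
    IsGrad (fun t x => E t x - E' t x) := fun t => (h t).sub (h' t)

theorem IsGrad.sum {ι : Type} (s : Finset ι) {E : ι → ℝ → ℂ → ℂ} (h : ∀ i ∈ s, IsGrad (E i)) :
    IsGrad (fun t x => ∑ i ∈ s, E i t x) := fun t => IsG.sum s fun i hi => h i hi t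

theorem DivF.add {v w : ℝ → ℂ → ℂ} (hv : DivF v) (hw : DivF w) (sv : Sm v) (sw : Sm w) :
    DivF (fun t x => v t x + w t x) := fun t x => by
  rw [dz_add (sv.diff t x) (sw.diff t x), Complex.add_re, hv t x, hw t x, add_zero]

theorem DivF.sum {ι : Type} (s : Finset ι) {v : ι → ℝ → ℂ → ℂ} (hv : ∀ i ∈ s, DivF (v i))
    (sv : ∀ i ∈ s, Sm (v i)) : DivF (fun t x => ∑ i ∈ s, v i t x) := fun t x => by
  rw [dz_sum s fun i hi => (sv i hi).diff t x, Complex.re_sum]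
  exact Finset.sum_eq_zero fun i hi => hv i hi t x

end

end Pool.Agent.Lib.EUL
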