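import Pool.Agent.Lib.EUL.Blue
import Pool.Agent.Lib.EUL.BasicA
import Pool.Agent.Lib.EUL.BasicB

set_option autoImplicit false

namespace Pool.Agent.Lib.EUL

open MeasureTheory Set Filter Topology
open scoped ContDiff Classical

namespace CS

theorem IQ_int {F : ℝ → ℂ → ℝ} (hF : Continuous fun p : ℝ × ℂ => F p.1 p.2) :
    IQ (fun x => ∫ t in (0 : ℝ)..1, F t x) = ∫ t in (0 : ℝ)..1, IQ (F t) := by
  unfold IQ
  symm
  apply intervalIntegral_integral_swap
  rw [Measure.prod_restrict]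
  have hc : IsCompact (Icc (0 : ℝ) 1 ×ˢ Metric.closedBall (0 : ℂ) (3 / 4)) :=
    isCompact_Icc.prod (isCompact_closedBall _ _)
  have h1 : IntegrableOn (Function.uncurry F) (Icc (0 : ℝ) 1 ×ˢ Metric.closedBall (0 : ℂ) (3 / 4))
      ((volume : Measure ℝ).prod (volume : Measure ℂ)) :=
    (hF.continuousOn.integrableOn_compact hc)
  refine h1.mono_set (prod_mono ?_ cell_subset_closedBall)
  rw [uIoc_of_le zero_le_one]
  exact Ioc_subset_Icc_self

/-- first order bound for translations in the integral norm -/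
theorem shift_le {E : Type} [NormedAddCommGroup E] [NormedSpace ℝ E] [CompleteSpace E]
    {g : ℂ → E} (hg : ContDiff ℝ ∞ g) (hp : Peri g) (y : ℂ) :
    IQ (fun x => ‖g (x + y) - g x‖) ≤ ‖y‖ * IQ (fun x => ‖fderiv ℝ g x‖) := by
  have hd : Continuous (fderiv ℝ g) := (contDiff_fderiv hg).continuous
  have hgc : Continuous g := hg.continuous
  have hF : Continuous fun p : ℝ × ℂ => ‖y‖ * ‖fderiv ℝ g (p.2 + p.1 • y)‖ := by fun_prop
  have hpt : ∀ x, ‖g (x + y) - g x‖ ≤ ∫ t in (0 : ℝ)..1, ‖y‖ * ‖fderiv ℝ g (x + t • y)‖ := by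
    intro x
    have hder : ∀ t ∈ uIcc (0 : ℝ) 1,
        HasDerivAt (fun t : ℝ => g (x + t • y)) (fderiv ℝ g (x + t • y) y) t := by
      intro t _
      have h1 : HasDerivAt (fun t : ℝ => x + t • y) y t := by
        simpa using ((hasDerivAt_id t).smul_const y).const_add x
      exact (diff_of hg (x + t • y)).hasFDerivAt.comp_hasDerivAt t h1
    have hint : IntervalIntegrable (fun t : ℝ => fderiv ℝ g (x + t • y) y) volume 0 1 :=
      Continuous.intervalIntegrable (by fun_prop) 0 1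
    have h2 := intervalIntegral.integral_eq_sub_of_hasDerivAt hder hint
    simp only [one_smul, zero_smul, add_zero] at h2
    rw [← h2]
    refine (intervalIntegral.norm_integral_le_integral_norm zero_le_one).trans ?_
    refine intervalIntegral.integral_mono_on zero_le_one
      (Continuous.intervalIntegrable (by fun_prop) 0 1)
      (Continuous.intervalIntegrable (by fun_prop) 0 1) fun t _ => ?_
    rw [mul_comm]
    exact ContinuousLinearMap.le_opNorm _ _
  have hc : Continuous fun x : ℂ => ∫ t in (0 : ℝ)..1, ‖y‖ * ‖fderiv ℝ g (x + t • y)‖ :=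
    intervalIntegral.continuous_parametric_intervalIntegral_of_continuous'
      (f := fun (x : ℂ) (t : ℝ) => ‖y‖ * ‖fderiv ℝ g (x + t • y)‖) (by fun_prop) 0 1
  refine (IQ_mono (by fun_prop) hc hpt).trans ?_
  rw [IQ_int (F := fun t x => ‖y‖ * ‖fderiv ℝ g (x + t • y)‖) hF]
  have h3 : ∀ t : ℝ, IQ (fun x => ‖y‖ * ‖fderiv ℝ g (x + t • y)‖)
      = ‖y‖ * IQ (fun x => ‖fderiv ℝ g x‖) := by
    intro t
    rw [IQ_const_mul]
    exact congrArg _ (IQ_shift (hp.fderiv.comp norm) (t • y))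
  simp only [h3]
  simp

theorem nD0_eq (f : ℂ → ℂ) : nD 0 f = fun x => ‖f x‖ := funext (nD_zero f)

theorem nD1_eq (f : ℂ → ℂ) : nD 1 f = fun x => ‖fderiv ℝ f x‖ := funext (nD_one f)

theorem nD2_eq (f : ℂ → ℂ) : nD 2 f = fun x => ‖fderiv ℝ (fderiv ℝ f) x‖ := funext (nD_two f)

theorem d2_zero {f : ℂ → ℂ} (hf : ContDiff ℝ ∞ f) (hp : Peri f) (y : ℂ) :
    IQ (fun x => ‖f (x + y) + f (x - y) - 2 * f x‖) ≤ 4 * IQ (nD 0 f) := by
  have hc := hf.continuous
  have h1 : IQ (fun x => ‖f (x + y) + f (x - y) - 2 * f x‖)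
      ≤ IQ (fun x => (‖f (x + y)‖ + ‖f (x - y)‖) + 2 * ‖f x‖) := by
    refine IQ_mono (by fun_prop) (by fun_prop) fun x => ?_
    refine (norm_sub_le _ _).trans (add_le_add (norm_add_le _ _) ?_)
    simp
  rw [IQ_add (by fun_prop) (by fun_prop), IQ_add (by fun_prop) (by fun_prop), IQ_const_mul,
    IQ_shift (hp.comp norm) y, IQ_sub_right (hp.comp norm) y] at h1
  rw [nD0_eq]
  linarith

theorem d2_one {f : ℂ → ℂ} (hf : ContDiff ℝ ∞ f) (hp : Peri f) (y : ℂ) :
    IQ (fun x => ‖f (x + y) + f (x - y) - 2 * f x‖) ≤ 2 * ‖y‖ * IQ (nD 1 f) := by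
  have hc := hf.continuous
  have h1 : IQ (fun x => ‖f (x + y) + f (x - y) - 2 * f x‖)
      ≤ IQ (fun x => ‖f (x + y) - f x‖ + ‖f (x + -y) - f x‖) := by
    refine IQ_mono (by fun_prop) (by fun_prop) fun x => ?_
    refine le_trans (le_of_eq ?_) (norm_add_le _ _)
    rw [← sub_eq_add_neg]
    exact congrArg _ (by ring)
  rw [IQ_add (by fun_prop) (by fun_prop)] at h1
  have h2 := shift_le hf hp y
  have h3 := shift_le hf hp (-y)
  rw [norm_neg] at h3
  rw [nD1_eq]
  linarith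

theorem d2_two {f : ℂ → ℂ} (hf : ContDiff ℝ ∞ f) (hp : Peri f) (y : ℂ) :
    IQ (fun x => ‖f (x + y) + f (x - y) - 2 * f x‖) ≤ ‖y‖ ^ 2 * IQ (nD 2 f) := by
  have hs : ContDiff ℝ ∞ fun x => f (x + y) := hf.comp (contDiff_id.add contDiff_const)
  have hh : ContDiff ℝ ∞ fun x => f (x + y) - f x := hs.sub hf
  have hhp : Peri fun x => f (x + y) - f x := (hp.add_right y).sub hp
  have h1 := shift_le hh hhp (-y)
  have h2 := shift_le (contDiff_fderiv hf) hp.fderiv y
  have e1 : (fun x => ‖f (x + y) + f (x - y) - 2 * f x‖)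
      = fun x => ‖(f (x + -y + y) - f (x + -y)) - (f (x + y) - f x)‖ := by
    funext x
    rw [← norm_neg, neg_add_cancel_right, ← sub_eq_add_neg]
    exact congrArg _ (by ring)
  have e2 : (fun x => ‖fderiv ℝ (fun x => f (x + y) - f x) x‖)
      = fun x => ‖fderiv ℝ f (x + y) - fderiv ℝ f x‖ := by
    funext x
    rw [fderiv_fun_sub (diff_of hs x) (diff_of hf x), fderiv_comp_add_right]
  rw [e2, norm_neg] at h1
  rw [e1, nD2_eq]
  refine h1.trans ?_
  rw [sq, mul_assoc]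
  exact mul_le_mul_of_nonneg_left h2 (norm_nonneg _)

theorem scale {l s : ℝ} (hl : 0 < l) (hs : 0 < s) (c : ℝ) (y : ℂ) :
    c * (l / s) ^ al / l ^ al * ‖y‖ ^ al = c * (‖y‖ / s) ^ al := by
  have h1 : 0 < l ^ al := Real.rpow_pos_of_pos hl _
  have h2 : 0 < s ^ al := Real.rpow_pos_of_pos hs _
  rw [Real.div_rpow hl.le hs.le, Real.div_rpow (norm_nonneg _) hs.le]
  field_simp

theorem sq_le_al {u : ℝ} (h0 : 0 ≤ u) (h1 : u ≤ 1) : u ^ 2 ≤ u ^ al := by
  have h := Real.rpow_le_rpow_of_exponent_ge' (y := 2) (z := al) h0 h1 (by unfold al; norm_num)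
    (by unfold al; norm_num)
  rwa [Real.rpow_two] at h

theorem le_al {u : ℝ} (h1 : 1 ≤ u) : u ≤ u ^ al := by
  have h := Real.rpow_le_rpow_of_exponent_le (y := 1) (z := al) h1 (by unfold al; norm_num)
  rwa [Real.rpow_one] at h

end CS

theorem st_CS : St_CS := by
  refine ⟨fun f l s a hf hp hs hsl h0 h2 => ?_, fun f l s a0 A hf hp hs hl h0 h1 h2 => ?_⟩
  · have hl : 0 < l := hs.trans_le hsl
    have ha : 0 ≤ a := (IQ_nonneg (nD_nonneg 0 f)).trans h0
    have hls : 1 ≤ l / s := (one_le_div hs).2 hsl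
    have hone : 1 ≤ (l / s) ^ al := hls.trans (CS.le_al hls)
    refine ⟨?_, fun y => ?_⟩
    · rw [← CS.nD0_eq]
      nlinarith
    · rw [CS.scale hl hs]
      have hu : 0 ≤ ‖y‖ / s := by positivity
      have hp0 : 0 ≤ (‖y‖ / s) ^ al := Real.rpow_nonneg hu _
      rcases le_total (‖y‖ / s) 1 with h | h
      · have h3 := CS.d2_two hf hp y
        have h4 := CS.sq_le_al hu h
        have h5 : ‖y‖ ^ 2 * IQ (nD 2 f) ≤ a * (‖y‖ / s) ^ 2 := by
          refine (mul_le_mul_of_nonneg_left h2 (sq_nonneg _)).trans (le_of_eq ?_)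
          field_simp
        nlinarith [mul_le_mul_of_nonneg_left h4 ha, mul_nonneg ha hp0]
      · have h3 := CS.d2_zero hf hp y
        have h4 := h.trans (CS.le_al h)
        nlinarith [mul_le_mul_of_nonneg_left h4 ha]
  · have ha : 0 ≤ a0 := (IQ_nonneg (nD_nonneg 0 f)).trans h0
    have hA : 0 ≤ A := by
      have h := (IQ_nonneg (nD_nonneg 1 f)).trans h1
      exact (div_nonneg_iff.1 h).elim (fun h => h.1) fun h => absurd h.2 (not_le.2 hs)
    have hq : 0 ≤ (l / s) ^ al := Real.rpow_nonneg (by positivity) _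
    refine ⟨?_, fun y => ?_⟩
    · rw [← CS.nD0_eq]
      nlinarith [mul_nonneg hA hq]
    · have hu : 0 ≤ ‖y‖ / s := by positivity
      have hp0 : 0 ≤ (‖y‖ / s) ^ al := Real.rpow_nonneg hu _
      have hb : 0 ≤ a0 / l ^ al * ‖y‖ ^ al :=
        mul_nonneg (div_nonneg ha (Real.rpow_nonneg hl.le _)) (Real.rpow_nonneg (norm_nonneg _) _)
      rw [add_div, add_mul, CS.scale hl hs]
      rcases le_total (‖y‖ / s) 1 with h | h
      · have h3 := CS.d2_two hf hp y
        have h4 := CS.sq_le_al hu h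
        have h5 : ‖y‖ ^ 2 * IQ (nD 2 f) ≤ A * (‖y‖ / s) ^ 2 := by
          refine (mul_le_mul_of_nonneg_left h2 (sq_nonneg _)).trans (le_of_eq ?_)
          field_simp
        nlinarith [mul_le_mul_of_nonneg_left h4 hA, mul_nonneg hA hp0]
      · have h3 := CS.d2_one hf hp y
        have h4 := CS.le_al h
        have h5 : 2 * ‖y‖ * IQ (nD 1 f) ≤ 2 * A * (‖y‖ / s) := by
          refine (mul_le_mul_of_nonneg_left h1 (by positivity)).trans (le_of_eq ?_)
          field_simp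
        nlinarith [mul_le_mul_of_nonneg_left h4 hA]

end Pool.Agent.Lib.EUL
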