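import Pool.Agent.Lib.EUL.Blue

/-! Block CSC: cost of the Cauchy transform of a local field of mean zero. -/

namespace Pool.Agent.Lib.EUL

open MeasureTheory Set Filter Topology
open scoped ContDiff Classical

namespace CSC

theorem meas_cell : MeasurableSet cell :=
  (measurableSet_Ioc.preimage Complex.measurable_re).inter
    (measurableSet_Ioc.preimage Complex.measurable_im)

/-- the lattice as a homomorphism -/
noncomputable def latH : ℤ × ℤ →+ ℂ where
  toFun := lat
  map_zero' := by simp [lat]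
  map_add' a b := by simp only [lat, Prod.fst_add, Prod.snd_add, Int.cast_add]; ring

theorem uniq (x : ℂ) : ∃! g : latH.range, g +ᵥ x ∈ cell := by
  have key : ∀ n : ℤ × ℤ, lat n + x ∈ cell ↔ n = (-⌈x.re - 1 / 2⌉, -⌈x.im - 1 / 2⌉) := by
    rintro ⟨a, b⟩
    have e1 : (lat (a, b) + x).re = a + x.re := by simp [lat]
    have e2 : (lat (a, b) + x).im = b + x.im := by simp [lat]
    have k : ∀ (c : ℤ) (t : ℝ), (c : ℝ) + t ∈ Ioc (-1 / 2 : ℝ) (1 / 2) ↔ c = -⌈t - 1 / 2⌉ := by
      intro c t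
      rw [eq_neg_iff_add_eq_zero, add_comm c, ← eq_neg_iff_add_eq_zero, Int.ceil_eq_iff, mem_Ioc]
      push_cast
      constructor <;> rintro ⟨h1, h2⟩ <;> constructor <;> linarith
    show (lat (a, b) + x).re ∈ _ ∧ (lat (a, b) + x).im ∈ _ ↔ _
    rw [e1, e2, k, k, Prod.mk.injEq]
  refine ⟨⟨lat (-⌈x.re - 1 / 2⌉, -⌈x.im - 1 / 2⌉), _, rfl⟩, (key _).2 rfl, ?_⟩
  rintro ⟨_, n, rfl⟩ hn
  have := (key n).1 hn
  subst this
  rfl

theorem fd (a : ℂ) : IsAddFundamentalDomain latH.range ((fun x => x - a) ⁻¹' cell) volume :=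
  IsAddFundamentalDomain.mk' (meas_cell.preimage (measurable_sub_const a)).nullMeasurableSet
    fun x => by
      have h := uniq (x - a)
      have e : ∀ g : latH.range, (g +ᵥ x ∈ (fun x => x - a) ⁻¹' cell) = (g +ᵥ (x - a) ∈ cell) := by
        intro g
        show ((g : ℂ) + x - a ∈ cell) = ((g : ℂ) + (x - a) ∈ cell)
        rw [add_sub_assoc]
      simpa only [e] using h

theorem shift {E : Type} [NormedAddCommGroup E] [NormedSpace ℝ E] {g : ℂ → E} (hg : Peri g)
    (a : ℂ) : (IntegrableOn g cell → IntegrableOn (fun x => g (x + a)) cell) ∧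
      ∫ x in cell, g (x + a) = ∫ x in cell, g x := by
  have : Countable latH.range := (Set.countable_range lat).to_subtype
  have hp : ∀ (n : latH.range) (x : ℂ), g (n +ᵥ x) = g x := by
    rintro ⟨_, n, rfl⟩ x
    show g (lat n + x) = g x
    rw [add_comm, hg]
  have h0 : (fun x : ℂ => x - 0) ⁻¹' cell = cell := by simp
  have h1 : (fun x : ℂ => x + a) ⁻¹' ((fun x => x - a) ⁻¹' cell) = cell := by
    ext x
    simp
  have f0 := fd 0
  rw [h0] at f0
  have mp := measurePreserving_add_right (volume : Measure ℂ) a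
  have me := measurableEmbedding_addRight a
  constructor
  · intro h
    have h2 := (mp.integrableOn_comp_preimage me).2 ((f0.integrableOn_iff (fd a) hp).1 h)
    rw [h1] at h2
    exact h2
  · have h2 := mp.setIntegral_preimage_emb me g ((fun x => x - a) ⁻¹' cell)
    rw [h1] at h2
    rw [h2, f0.setIntegral_eq (fd a) hp]

theorem conv (Φ : ℂ → ℂ → ℂ) (hΦ : Measurable fun p : ℂ × ℂ => Φ p.1 p.2) (h : ℂ → ℂ)
    (hm : Measurable h) (hi : Integrable h) (b : ℝ)
    (hI : ∀ w, IntegrableOn (fun x => Φ x w) cell)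
    (hb : ∀ w, h w ≠ 0 → IQ (fun x => ‖Φ x w‖) ≤ b) :
    IQ (fun x => ‖∫ w, Φ x w * h w‖) ≤ b * ∫ w, ‖h w‖ := by
  have hle : ∀ w, ∫ x in cell, ‖Φ x w * h w‖ ≤ b * ‖h w‖ := by
    intro w
    by_cases h0 : h w = 0
    · simp [h0]
    · simp only [norm_mul]
      rw [integral_mul_const]
      exact mul_le_mul_of_nonneg_right (hb w h0) (norm_nonneg _)
  have hM : Measurable fun p : ℂ × ℂ => Φ p.1 p.2 * h p.2 := hΦ.mul (hm.comp measurable_snd)
  have hP : Integrable (fun p : ℂ × ℂ => Φ p.1 p.2 * h p.2) ((volume.restrict cell).prod volume) := by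
    refine (integrable_prod_iff' hM.aestronglyMeasurable).2
      ⟨ae_of_all _ fun w => (hI w).mul_const (h w), (hi.norm.const_mul b).mono'
        hM.norm.stronglyMeasurable.integral_prod_left'.aestronglyMeasurable (ae_of_all _ fun w => ?_)⟩
    rw [Real.norm_of_nonneg (integral_nonneg fun _ => norm_nonneg _)]
    exact hle w
  calc IQ (fun x => ‖∫ w, Φ x w * h w‖) ≤ ∫ x in cell, ∫ w, ‖Φ x w * h w‖ :=
        integral_mono_of_nonneg (ae_of_all _ fun _ => norm_nonneg _) hP.integral_norm_prod_left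
          (ae_of_all _ fun x => norm_integral_le_integral_norm _)
    _ = ∫ w, ∫ x in cell, ‖Φ x w * h w‖ := integral_integral_swap hP.norm
    _ ≤ ∫ w, b * ‖h w‖ := integral_mono hP.integral_norm_prod_right (hi.norm.const_mul b) hle
    _ = b * ∫ w, ‖h w‖ := integral_const_mul _ _

theorem trans_le (f : ℂ → ℂ) (hf : ContDiff ℝ ∞ f) (hc : HasCompactSupport f) (y : ℂ) :
    ∫ w, ‖f w - f (w - y)‖ ≤ ‖y‖ * ∫ w, nD 1 f w := by
  have hd : Continuous (fderiv ℝ f) := hf.continuous_fderiv (by simp)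
  have hi : Integrable fun w => ‖fderiv ℝ f w‖ :=
    (hd.integrable_of_hasCompactSupport (hc.fderiv ℝ)).norm
  have hC : Continuous fun p : ℝ × ℂ => ‖y‖ * ‖fderiv ℝ f (p.2 - p.1 • y)‖ := by fun_prop
  have hs : ∀ t : ℝ, ∫ w, ‖y‖ * ‖fderiv ℝ f (w - t • y)‖ = ‖y‖ * ∫ w, ‖fderiv ℝ f w‖ := fun t => by
    rw [integral_const_mul, integral_sub_right_eq_self (fun w => ‖fderiv ℝ f w‖)]
  have hP : Integrable (fun p : ℝ × ℂ => ‖y‖ * ‖fderiv ℝ f (p.2 - p.1 • y)‖)
      ((volume.restrict (Ioc (0 : ℝ) 1)).prod volume) := by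
    refine (integrable_prod_iff hC.aestronglyMeasurable).2
      ⟨ae_of_all _ fun t => ?_, ?_⟩
    · show Integrable fun w => ‖y‖ * ‖fderiv ℝ f (w - t • y)‖
      exact (hi.comp_sub_right (t • y)).const_mul ‖y‖
    show Integrable (fun t : ℝ => ∫ w, ‖‖y‖ * ‖fderiv ℝ f (w - t • y)‖‖) _
    have e : (fun t : ℝ => ∫ w, ‖‖y‖ * ‖fderiv ℝ f (w - t • y)‖‖) =
        fun _ => ‖y‖ * ∫ w, ‖fderiv ℝ f w‖ := by
      funext t
      rw [← hs t]
      simp only [norm_mul, norm_norm]
    rw [e]
    exact integrable_const _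
  have hpt : ∀ w, ‖f w - f (w - y)‖ ≤ ∫ t in Ioc (0 : ℝ) 1, ‖y‖ * ‖fderiv ℝ f (w - t • y)‖ := by
    intro w
    have h1 : ∀ t : ℝ, HasDerivAt (fun t : ℝ => f (w - t • y)) (fderiv ℝ f (w - t • y) (-y)) t := by
      intro t
      have h2 : HasDerivAt (fun t : ℝ => w - t • y) (-y) t := by
        simpa using ((hasDerivAt_id t).smul_const y).const_sub w
      exact ((hf.differentiable (by simp)) _).hasFDerivAt.comp_hasDerivAt t h2
    have h3 : Continuous fun t : ℝ => fderiv ℝ f (w - t • y) (-y) := by fun_prop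
    have h4 := intervalIntegral.integral_eq_sub_of_hasDerivAt (a := 0) (b := 1) (fun t _ => h1 t)
      (h3.intervalIntegrable _ _)
    rw [one_smul, zero_smul, sub_zero, intervalIntegral.integral_of_le zero_le_one] at h4
    rw [norm_sub_rev, ← h4]
    refine norm_integral_le_of_norm_le ?_ (ae_of_all _ fun t => ?_)
    · have h5 : Continuous fun t : ℝ => ‖y‖ * ‖fderiv ℝ f (w - t • y)‖ := by fun_prop
      exact (h5.intervalIntegrable 0 1).1
    · rw [mul_comm, ← norm_neg y]
      exact ContinuousLinearMap.le_opNorm _ _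
  calc ∫ w, ‖f w - f (w - y)‖ ≤ ∫ w, ∫ t in Ioc (0 : ℝ) 1, ‖y‖ * ‖fderiv ℝ f (w - t • y)‖ :=
        integral_mono_of_nonneg (ae_of_all _ fun _ => norm_nonneg _) hP.integral_prod_right
          (ae_of_all _ hpt)
    _ = ∫ t in Ioc (0 : ℝ) 1, ∫ w, ‖y‖ * ‖fderiv ℝ f (w - t • y)‖ :=
        (integral_integral_swap (f := fun (t : ℝ) (w : ℂ) => ‖y‖ * ‖fderiv ℝ f (w - t • y)‖) hP).symm
    _ = ‖y‖ * ∫ w, nD 1 f w := by
        simp only [hs, nD, norm_iteratedFDeriv_one]
        simp

theorem lg_eq {t : ℝ} (h0 : 0 < t) (h1 : t ≤ 1) : lg t = 1 - Real.log t := by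
  rw [lg, abs_of_nonpos (Real.log_nonpos h0.le h1), sub_eq_add_neg]

theorem one_le_lg (t : ℝ) : 1 ≤ lg t := le_add_of_nonneg_right (abs_nonneg _)

theorem lg_anti {s t : ℝ} (h0 : 0 < s) (h : s ≤ t) (h1 : t ≤ 1) : lg t ≤ lg s := by
  rw [lg_eq h0 (h.trans h1), lg_eq (h0.trans_le h) h1]
  linarith [Real.log_le_log h0 h]

theorem lg_small {s t : ℝ} (h0 : 0 < t) (h : t ≤ s) (h1 : s ≤ 1) {e : ℝ} (he : 0 < e) :
    (t / s) ^ e * lg t ≤ lg s + 1 / e := by
  have hs : 0 < s := h0.trans_le h
  have hu : 0 < t / s := div_pos h0 hs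
  have hu1 : (t / s) ^ e ≤ 1 := Real.rpow_le_one hu.le ((div_le_one hs).2 h) he.le
  have hp : 0 < (t / s) ^ e := Real.rpow_pos_of_pos hu e
  have h2 : Real.log (t / s)⁻¹ ≤ (t / s)⁻¹ ^ e / e := Real.log_le_rpow_div (inv_pos.2 hu).le he
  rw [Real.inv_rpow hu.le] at h2
  have h3 : lg t = lg s + Real.log (t / s)⁻¹ := by
    rw [lg_eq h0 (h.trans h1), lg_eq hs h1, Real.log_inv, Real.log_div h0.ne' hs.ne']
    ring
  have h4 := mul_le_mul_of_nonneg_left h2 hp.le
  rw [← mul_div_assoc, mul_inv_cancel₀ hp.ne'] at h4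
  have h5 := mul_le_mul_of_nonneg_right hu1 (zero_le_one.trans (one_le_lg s))
  rw [h3, mul_add]
  linarith

theorem first {s l t : ℝ} (hs : 0 < s) (hl : s ≤ l) (h1 : l ≤ 1) (h0 : 0 ≤ t) (ht : t ≤ l) :
    t * lg t ≤ 2 * (l * lg s) := by
  have a1 := one_le_lg s
  have a2 : 0 ≤ l * lg s := mul_nonneg (hs.le.trans hl) (zero_le_one.trans a1)
  rcases h0.eq_or_lt with rfl | h0
  · linarith
  rcases le_total s t with h | h
  · have := mul_le_mul ht (lg_anti hs h (ht.trans h1)) (zero_le_one.trans (one_le_lg t))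
      (hs.le.trans hl)
    linarith
  · have h2 := lg_small h0 h (hl.trans h1) one_pos
    rw [Real.rpow_one, div_mul_eq_mul_div, div_le_iff₀ hs] at h2
    have h3 := mul_le_mul_of_nonneg_right hl (zero_le_one.trans a1)
    nlinarith

theorem second {s t C A X Y : ℝ} (hs : 0 < s) (h1 : s ≤ 1) (h0 : 0 ≤ t) (hC : 0 ≤ C) (hA : 0 ≤ A)
    (hY0 : 0 ≤ Y) (hX1 : X ≤ C) (hX2 : t ≤ 1 → X ≤ C * t * lg t) (hY1 : Y ≤ 2 * A)
    (hY2 : Y ≤ t * (A / s)) (hX0 : 0 ≤ X) : X * Y ≤ 3 * C * A * lg s * (s * (t / s) ^ al) := by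
  have a1 := one_le_lg s
  have hCA : 0 ≤ C * A := mul_nonneg hC hA
  rcases h0.eq_or_lt with rfl | h0
  · have : Y = 0 := le_antisymm (by simpa using hY2) hY0
    rw [this, mul_zero]
    have : 0 ≤ (0 / s) ^ al := Real.rpow_nonneg (by simp) _
    positivity
  have hu : 0 < t / s := div_pos h0 hs
  have hp : 0 < (t / s) ^ al := Real.rpow_pos_of_pos hu _
  rcases le_total t s with h | h
  · have h2 := lg_small h0 h h1 (e := 8 / 9) (by norm_num)
    have h3 : (t / s) ^ al * (t / s) ^ (8 / 9 : ℝ) = (t / s) ^ 2 := by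
      rw [← Real.rpow_add hu, al, ← Real.rpow_natCast]
      norm_num
    have h4 : X * Y ≤ C * t * lg t * (t * (A / s)) :=
      mul_le_mul (hX2 (h.trans h1)) hY2 hY0 (hX0.trans (hX2 (h.trans h1)))
    have h5 : C * t * lg t * (t * (A / s)) =
        C * A * (s * (t / s) ^ al) * ((t / s) ^ (8 / 9 : ℝ) * lg t) := by
      have : C * A * (s * (t / s) ^ al) * ((t / s) ^ (8 / 9 : ℝ) * lg t) =
          C * A * s * ((t / s) ^ al * (t / s) ^ (8 / 9 : ℝ)) * lg t := by ring
      rw [this, h3]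
      field_simp
    have h6 : (t / s) ^ (8 / 9 : ℝ) * lg t ≤ 3 * lg s := by linarith
    have h7 := mul_le_mul_of_nonneg_left h6 (mul_nonneg hCA (mul_pos hs hp).le)
    linarith
  · have h2 : t ≤ s * (t / s) ^ al := by
      have := Real.rpow_le_rpow_of_exponent_le ((one_le_div hs).2 h) (show (1 : ℝ) ≤ al by norm_num [al])
      rw [Real.rpow_one, div_le_iff₀ hs] at this
      linarith
    have h3 : X ≤ C * t * lg s := by
      rcases le_total t 1 with h4 | h4
      · exact (hX2 h4).trans (mul_le_mul_of_nonneg_left (lg_anti hs h h4) (mul_nonneg hC h0.le))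
      · have : 1 ≤ t * lg s := one_le_mul_of_one_le_of_one_le h4 a1
        nlinarith
    have h4 : X * Y ≤ C * t * lg s * (2 * A) := mul_le_mul h3 hY1 hY0 (hX0.trans h3)
    have h5 : 0 ≤ C * A * lg s := mul_nonneg hCA (zero_le_one.trans a1)
    have h6 := mul_le_mul_of_nonneg_left h2 h5
    have h7 := mul_nonneg h5 (mul_pos hs hp).le
    nlinarith

end CSC

open CSC in
theorem st_CSC (hCAU : St_CAU) (hK5 : St_K5) : St_CSC := by
  intro K CK hK
  obtain ⟨C, C1, hC⟩ := hK5 K CK hK
  obtain ⟨hKi, -, -, h4⟩ := hCAU K CK hK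
  have C0 : 0 ≤ C := zero_le_one.trans C1
  refine ⟨3 * C, by linarith, ?_⟩
  intro f r s l A p hf hr hs hsr hrl hl hm hA0 hA1
  have hsl : s ≤ l := hsr.trans hrl
  have hl0 : 0 < l := hs.trans_le hsl
  have hl1 : l ≤ 1 := by linarith
  have hcs : HasCompactSupport f :=
    HasCompactSupport.intro (isCompact_closedBall 0 r) fun y hy =>
      hr y (not_le.1 fun h => hy (mem_closedBall_zero_iff.2 h))
  have hfi : Integrable f := hf.continuous.integrable_of_hasCompactSupport hcs
  have hfm : Measurable f := hf.continuous.measurable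
  simp only [nD, norm_iteratedFDeriv_zero] at hA0
  have A0 : 0 ≤ A := (integral_nonneg fun _ => norm_nonneg _).trans hA0
  have h5 := h4 f r hf.continuous (hrl.trans hl) hr
  have e : ∀ x, Cau K (fun y => Per f (y - p)) x = ∫ w, K (x - p - w) * f w := fun x => by
    rw [← (h5 (x - p)).2]
    exact congrArg _ (funext fun y => by rw [sub_right_comm])
  have hS : ∀ a : ℂ, IntegrableOn (fun x => K (x + a)) cell := fun a => (shift hK.per a).1 hKi
  have hT : ∀ a b : ℂ, IntegrableOn (fun x => K (x + a + b)) cell := fun a b => by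
    rw [show (fun x => K (x + a + b)) = fun x => K (x + (a + b)) from
      funext fun x => by rw [add_assoc]]
    exact hS _
  have hD : ∀ y a : ℂ, IQ (fun x => ‖K (x + a + y) - K (x + a)‖) = IQ fun x => ‖K (x + y) - K x‖ :=
    fun y a => (shift (g := fun x => ‖K (x + y) - K x‖)
      (fun n z => by simp only [add_right_comm z (lat n) y, hK.per n]) a).2
  have a1 := one_le_lg s
  constructor
  · have e1 : ∀ x, Cau K (fun y => Per f (y - p)) x =
        ∫ w, (K (x + -p + -w) - K (x + -p)) * f w := fun x => by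
      simp only [sub_mul, ← sub_eq_add_neg]
      rw [integral_sub (h5 (x - p)).1 (hfi.const_mul _), integral_const_mul, hm, mul_zero, sub_zero, e]
    simp only [e1]
    have hm1 : Measurable fun q : ℂ × ℂ => K (q.1 + -p + -q.2) - K (q.1 + -p) :=
      (hK.meas.comp (by fun_prop)).sub (hK.meas.comp (by fun_prop))
    refine (conv _ hm1 f hfm hfi (C * (2 * (l * lg s))) (fun w => ?_) fun w hw => ?_).trans ?_
    · exact (hT _ _).sub (hS _)
    · have h6 : ‖-w‖ ≤ l := by
        rw [norm_neg]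
        exact (not_lt.1 fun h => hw (hr w h)).trans hrl
      rw [hD]
      refine ((hC (-w)).2 (h6.trans hl1)).trans ?_
      rw [mul_assoc]
      exact mul_le_mul_of_nonneg_left (first hs hsl hl1 (norm_nonneg _) h6) C0
    · have h6 : 1 ≤ (l / s) ^ (al - 1) :=
        Real.one_le_rpow ((one_le_div hs).2 hsl) (by norm_num [al])
      have h7 : 0 ≤ C * (l * lg s) := by positivity
      have h8 := mul_le_mul_of_nonneg_left hA0 h7
      have h9 := mul_le_mul_of_nonneg_left h6 (mul_nonneg h7 A0)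
      have h10 := mul_nonneg h7 A0
      nlinarith
  · intro y
    have e2 : ∀ x, Cau K (fun y => Per f (y - p)) (x + y) + Cau K (fun y => Per f (y - p)) (x - y)
        - 2 * Cau K (fun y => Per f (y - p)) x =
        ∫ w, (K (x + (-p - w) + y) - K (x + (-p - w))) * (f w - f (w - y)) := fun x => by
      have i1 := (h5 (x + y - p)).1
      have i2 := (h5 (x - p)).1
      have i3 := (h5 (x - p)).1.comp_sub_right y
      have i4 := (h5 (x - y - p)).1.comp_sub_right y
      have j3 := integral_sub_right_eq_self (μ := volume) (fun w => K (x - p - w) * f w) y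
      have j4 := integral_sub_right_eq_self (μ := volume) (fun w => K (x - y - p - w) * f w) y
      have k : (fun w => (K (x + (-p - w) + y) - K (x + (-p - w))) * (f w - f (w - y))) =
          fun w => (K (x + y - p - w) * f w - K (x - p - w) * f w) -
            (K (x - p - (w - y)) * f (w - y) - K (x - y - p - (w - y)) * f (w - y)) := by
        funext w
        rw [show x + (-p - w) + y = x + y - p - w by ring, show x + (-p - w) = x - p - w by ring,
          show x - p - (w - y) = x + y - p - w by ring, show x - y - p - (w - y) = x - p - w by ring]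
        ring
      have i5 : Integrable fun w => K (x + y - p - w) * f w - K (x - p - w) * f w := i1.sub i2
      have i6 : Integrable fun w =>
          K (x - p - (w - y)) * f (w - y) - K (x - y - p - (w - y)) * f (w - y) := i3.sub i4
      rw [k, integral_sub i5 i6, integral_sub i1 i2, integral_sub i3 i4, j3, j4, e, e, e]
      ring
    simp only [e2]
    have hm1 : Measurable fun q : ℂ × ℂ => K (q.1 + (-p - q.2) + y) - K (q.1 + (-p - q.2)) :=
      (hK.meas.comp (by fun_prop)).sub (hK.meas.comp (by fun_prop))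
    have hi2 : Integrable fun w => f w - f (w - y) := hfi.sub (hfi.comp_sub_right y)
    refine (conv _ hm1 _ (hfm.sub (hfm.comp (measurable_sub_const y))) hi2
      (IQ fun x => ‖K (x + y) - K x‖) (fun w => ?_) fun w _ => (hD y _).le).trans ?_
    · exact (hT _ _).sub (hS _)
    · have y1 : ∫ w, ‖f w - f (w - y)‖ ≤ 2 * A := by
        refine (integral_mono hi2.norm (hfi.norm.add (hfi.comp_sub_right y).norm)
          fun w => norm_sub_le _ _).trans ?_
        rw [integral_add' hfi.norm (hfi.comp_sub_right y).norm,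
          integral_sub_right_eq_self (fun w => ‖f w‖)]
        linarith
      have y2 : ∫ w, ‖f w - f (w - y)‖ ≤ ‖y‖ * (A / s) :=
        (trans_le f hf hcs y).trans (mul_le_mul_of_nonneg_left hA1 (norm_nonneg _))
      refine (second hs (hsl.trans hl1) (norm_nonneg y) C0 A0
        (integral_nonneg fun _ => norm_nonneg _) (hC y).1 (hC y).2 y1 y2
        (integral_nonneg fun _ => norm_nonneg _)).trans_eq ?_
      have p1 : 0 < l ^ al := Real.rpow_pos_of_pos hl0 _
      have p2 : 0 < s ^ al := Real.rpow_pos_of_pos hs _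
      rw [Real.rpow_sub_one (div_pos hl0 hs).ne', Real.div_rpow hl0.le hs.le,
        Real.div_rpow (norm_nonneg y) hs.le]
      field_simp

end Pool.Agent.Lib.EUL
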