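import Pool.Agent.Lib.EUL.Blue

set_option autoImplicit false

namespace Pool.Agent.Lib.EUL

open MeasureTheory Set Filter Topology
open scoped ContDiff Classical

namespace FAR

theorem lat_add (m n : ℤ × ℤ) : lat (m + n) = lat m + lat n := by
  simp only [lat, Prod.fst_add, Prod.snd_add]; push_cast; ring

theorem lat_neg (n : ℤ × ℤ) : lat (-n) = -lat n := by
  simp only [lat, Prod.fst_neg, Prod.snd_neg]; push_cast; ring

theorem pn_le (z : ℂ) (n : ℤ × ℤ) : pn z ≤ ‖z - lat n‖ := by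
  rw [← dist_eq_norm]
  exact Metric.infDist_le_dist_of_mem ⟨n, rfl⟩

theorem le_pn {z : ℂ} {a : ℝ} (h : ∀ n, a ≤ ‖z - lat n‖) : a ≤ pn z := by
  refine (Metric.le_infDist (range_nonempty lat)).2 ?_
  rintro _ ⟨n, rfl⟩
  rw [dist_eq_norm]; exact h n

theorem pn_nonneg (z : ℂ) : 0 ≤ pn z := Metric.infDist_nonneg

theorem pn_add_lat (n : ℤ × ℤ) (z : ℂ) : pn (z + lat n) = pn z := by
  apply le_antisymm
  · refine le_pn fun m => ?_
    have h := pn_le (z + lat n) (m + n)
    rw [lat_add] at h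
    have e : z + lat n - (lat m + lat n) = z - lat m := by ring
    rwa [e] at h
  · refine le_pn fun m => ?_
    have h := pn_le z (m + -n)
    rw [lat_add, lat_neg] at h
    have e : z - (lat m + -lat n) = z + lat n - lat m := by ring
    rwa [e] at h

theorem cont_pn : Continuous pn := Metric.continuous_infDist_pt _

theorem intOn {F : ℂ → ℝ} (hF : Continuous F) : IntegrableOn F cell := by
  refine (hF.continuousOn.integrableOn_compact (isCompact_closedBall (0 : ℂ) 1)).mono_set ?_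
  rintro z ⟨⟨h1, h2⟩, h3, h4⟩
  rw [mem_closedBall_zero_iff]
  refine (Complex.norm_le_abs_re_add_abs_im z).trans ?_
  have a : |z.re| ≤ 1 / 2 := abs_le.2 ⟨by linarith, h2⟩
  have b : |z.im| ≤ 1 / 2 := abs_le.2 ⟨by linarith, h4⟩
  linarith

theorem meas_cell : MeasurableSet cell :=
  (Complex.measurable_re measurableSet_Ioc).inter (Complex.measurable_im measurableSet_Ioc)

theorem IQ_eq {F : ℂ → ℝ} (hF : Continuous F) :
    IQ F = ∫ a in (-1 / 2 : ℝ)..(-1 / 2 + 1), ∫ b in (-1 / 2 : ℝ)..(-1 / 2 + 1),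
      F ((a : ℂ) + (b : ℂ) * Complex.I) := by
  have hp := Complex.volume_preserving_equiv_real_prod.symm Complex.measurableEquivRealProd
  have he := Complex.measurableEquivRealProd.symm.measurableEmbedding
  have hpre : Complex.measurableEquivRealProd.symm ⁻¹' cell
      = Ioc (-1 / 2 : ℝ) (1 / 2) ×ˢ Ioc (-1 / 2 : ℝ) (1 / 2) := by
    ext ⟨a, b⟩
    simp [cell]
  have h1 := hp.setIntegral_preimage_emb he F cell
  have h2 := (hp.integrableOn_comp_preimage he (f := F) (s := cell)).2 (intOn hF)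
  rw [hpre] at h1 h2
  have e : (-1 / 2 : ℝ) + 1 = 1 / 2 := by norm_num
  have le : (-1 / 2 : ℝ) ≤ 1 / 2 := by norm_num
  rw [IQ, ← h1, e, intervalIntegral.integral_of_le le]
  rw [Measure.volume_eq_prod] at h2 ⊢
  rw [setIntegral_prod (fun x => F (Complex.measurableEquivRealProd.symm x)) h2]
  refine integral_congr_ae (Eventually.of_forall fun a => ?_)
  simp only
  rw [intervalIntegral.integral_of_le le]
  refine integral_congr_ae (Eventually.of_forall fun b => ?_)
  simp only [Complex.measurableEquivRealProd_symm_apply]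
  rw [Complex.mk_eq_add_mul_I]

theorem IQ_shift {F : ℂ → ℝ} (hF : Continuous F) (hP : Peri F) (p : ℂ) :
    IQ (fun y => F (y + p)) = IQ F := by
  rw [IQ_eq hF, IQ_eq (F := fun y => F (y + p)) (by fun_prop)]
  have inner : ∀ a : ℝ, ∫ b in (-1 / 2 : ℝ)..(-1 / 2 + 1), F ((a : ℂ) + (b : ℂ) * Complex.I + p)
      = ∫ b in (-1 / 2 : ℝ)..(-1 / 2 + 1), F (((a + p.re : ℝ) : ℂ) + (b : ℂ) * Complex.I) := by
    intro a
    have per : Function.Periodic
        (fun b : ℝ => F (((a + p.re : ℝ) : ℂ) + (b : ℂ) * Complex.I)) 1 := by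
      intro b
      have h := hP (0, 1) (((a + p.re : ℝ) : ℂ) + (b : ℂ) * Complex.I)
      refine Eq.trans (congrArg F ?_) h
      simp only [lat]; push_cast; ring
    rw [← per.intervalIntegral_add_eq (-1 / 2 + p.im) (-1 / 2)]
    have e : (-1 / 2 + p.im + 1 : ℝ) = -1 / 2 + 1 + p.im := by ring
    rw [e, ← intervalIntegral.integral_comp_add_right
      (fun b : ℝ => F (((a + p.re : ℝ) : ℂ) + (b : ℂ) * Complex.I)) p.im]
    refine intervalIntegral.integral_congr fun b _ => ?_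
    refine congrArg F ?_
    conv_lhs => rw [← Complex.re_add_im p]
    push_cast; ring
  simp only [inner]
  have per : Function.Periodic (fun a : ℝ => ∫ b in (-1 / 2 : ℝ)..(-1 / 2 + 1),
      F ((a : ℂ) + (b : ℂ) * Complex.I)) 1 := by
    intro a
    refine intervalIntegral.integral_congr fun b _ => ?_
    have h := hP (1, 0) ((a : ℂ) + (b : ℂ) * Complex.I)
    rw [← h]
    refine congrArg F ?_
    simp only [lat]; push_cast; ring
  rw [← per.intervalIntegral_add_eq (-1 / 2 + p.re) (-1 / 2)]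
  have e : (-1 / 2 + p.re + 1 : ℝ) = -1 / 2 + 1 + p.re := by ring
  rw [e, ← intervalIntegral.integral_comp_add_right (fun a : ℝ =>
    ∫ b in (-1 / 2 : ℝ)..(-1 / 2 + 1), F ((a : ℂ) + (b : ℂ) * Complex.I)) p.re]

theorem IQ_mono {F G : ℂ → ℝ} (hF : Continuous F) (hG : Continuous G) (h : ∀ y, F y ≤ G y) :
    IQ F ≤ IQ G :=
  setIntegral_mono_on (intOn hF) (intOn hG) meas_cell fun y _ => h y

theorem IQ_sum_shift {ι : Type} [Fintype ι] (φ : ι → ℂ → ℝ) (p : ι → ℂ)
    (hc : ∀ i, Continuous (φ i)) (hp : ∀ i, Peri (φ i)) :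
    IQ (fun y => ∑ i, φ i y) = IQ (fun y => ∑ i, φ i (y + p i)) := by
  have h1 : IQ (fun y => ∑ i, φ i y) = ∑ i, IQ (φ i) :=
    integral_finsetSum _ fun i _ => intOn (hc i)
  have h2 : IQ (fun y => ∑ i, φ i (y + p i)) = ∑ i, IQ (fun y => φ i (y + p i)) :=
    integral_finsetSum _ fun i _ => intOn ((hc i).comp (continuous_add_const (p i)))
  rw [h1, h2]
  exact Finset.sum_congr rfl fun i _ => (IQ_shift (hc i) (hp i) (p i)).symm

theorem cont_nD {V : ℂ → ℂ} (hV : ContDiff ℝ ∞ V) (k : ℕ) : Continuous (nD k V) :=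
  (hV.continuous_iteratedFDeriv (by exact_mod_cast le_top)).norm

theorem peri_nD {V : ℂ → ℂ} (hP : Peri V) (k : ℕ) : Peri (nD k V) := by
  intro n z
  have e : (fun w => V (w + lat n)) = V := funext fun w => hP n w
  unfold nD
  rw [← iteratedFDeriv_comp_add_right, e]

theorem nD_nonneg (k : ℕ) (V : ℂ → ℂ) (y : ℂ) : 0 ≤ nD k V y := norm_nonneg _

theorem nD_sub_const (V : ℂ → ℂ) (a : ℂ) (k : ℕ) (y : ℂ) :
    ‖iteratedFDeriv ℝ (k + 1) (fun w => V w - a) y‖ = nD (k + 1) V y := by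
  unfold nD
  rw [← norm_iteratedFDeriv_fderiv, ← norm_iteratedFDeriv_fderiv]
  have e : fderiv ℝ (fun w => V w - a) = fderiv ℝ V := funext fun w => fderiv_sub_const a
  rw [e]

theorem nD_sum_le {ι : Type} [Fintype ι] (f : ι → ℂ → ℂ) (hf : ∀ i, ContDiff ℝ ∞ (f i)) (k : ℕ)
    (y : ℂ) : nD k (fun w => ∑ i, f i w) y ≤ ∑ i, nD k (f i) y := by
  unfold nD
  rw [iteratedFDeriv_fun_sum_apply
    (fun i _ => ((hf i).of_le (by exact_mod_cast le_top)).contDiffAt)]
  exact norm_sum_le _ _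

theorem natle (k : ℕ) : (k : WithTop ℕ∞) ≤ ∞ := by exact_mod_cast le_top

theorem leib0 (V B : ℂ → ℂ) (a y : ℂ) :
    nD 0 (fun w => (V w - a) * B w) y = ‖V y - a‖ * nD 0 B y := by
  simp [nD]

theorem leib1 {V B : ℂ → ℂ} (hV : ContDiff ℝ ∞ V) (hB : ContDiff ℝ ∞ B) (a y : ℂ) :
    nD 1 (fun w => (V w - a) * B w) y ≤ ‖V y - a‖ * nD 1 B y + nD 1 V y * nD 0 B y := by
  have h := norm_iteratedFDeriv_mul_le (𝕜 := ℝ) (hV.sub (contDiff_const (c := a))) hB y (n := 1)
    (by exact_mod_cast le_top)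
  have e := nD_sub_const V a 0 y
  simp only [Finset.sum_range_succ, Finset.sum_range_zero, zero_add] at h e
  rw [e] at h
  simpa [nD] using h

theorem leib2 {V B : ℂ → ℂ} (hV : ContDiff ℝ ∞ V) (hB : ContDiff ℝ ∞ B) (a y : ℂ) :
    nD 2 (fun w => (V w - a) * B w) y
      ≤ ‖V y - a‖ * nD 2 B y + 2 * nD 1 V y * nD 1 B y + nD 2 V y * nD 0 B y := by
  have h := norm_iteratedFDeriv_mul_le (𝕜 := ℝ) (hV.sub (contDiff_const (c := a))) hB y (n := 2)
    (natle 2)
  have e := nD_sub_const V a 0 y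
  have e2 := nD_sub_const V a 1 y
  simp only [Finset.sum_range_succ, Finset.sum_range_zero, zero_add] at h e e2
  have e3 : (1 + 1 : ℕ) = 2 := rfl
  rw [e3] at e2
  rw [e, e2] at h
  simpa [nD] using h

theorem mult_shift {ι : Type} [Fintype ι] {P : ι → Prop} {p : ι → ℂ} {r M : ℝ} (h : Mult P p r M)
    (y : ℂ) : Mult P (fun i => p i + y) r M := by
  intro w
  have h1 := h (w - y)
  have e : ∀ i, p i - (w - y) = p i + y - w := fun i => by ring
  simpa only [e] using h1

/-- the common majorant of the first two derivatives -/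
noncomputable def hh (V : ℂ → ℂ) (D : ℝ) (y : ℂ) : ℝ := max (nD 1 V y) (D * nD 2 V y)

theorem hh_nonneg (V : ℂ → ℂ) (D : ℝ) (y : ℂ) : 0 ≤ hh V D y :=
  (nD_nonneg 1 V y).trans (le_max_left _ _)

theorem key (hPTS : St_PTS) {ι : Type} [Fintype ι] {p : ι → ℂ} {c : ι → ℝ} {V : ℂ → ℂ}
    {g : ℂ → ℝ} {l D Y M Z : ℝ} (hl : 0 < l) (hl4 : l ≤ 1 / 4) (hg : GM V g l D Y)
    (hM : Mult (fun i => c i ≠ 0) p l M) (hZ : ∑ i, c i ^ 2 ≤ Z) (y : ℂ) :
    ∑ i, c i * hh V D (y + p i) ≤ √(M * Y * Z) / l := by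
  obtain ⟨gc, gp, gb, gY⟩ := hg
  have M0 : 0 ≤ M := le_trans (Nat.cast_nonneg _) (hM 0)
  have h1 := hPTS ι (fun i => c i ≠ 0) (fun i => p i + y) l M (fun i => hh V D (y + p i) ^ 2)
    (fun x => g x ^ 2) hl hl4 (mult_shift hM y) (gc.pow 2) (fun n z => by simp only [gp n z])
    (fun x => sq_nonneg _) (fun i _ x hx => by
      have h := gb x (y + p i) (by rwa [add_comm y])
      exact pow_le_pow_left₀ (hh_nonneg _ _ _) (max_le h.1 h.2) 2)
  obtain ⟨s, hs, h1⟩ : ∃ s : Finset ι, (∀ i, i ∉ s → c i = 0) ∧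
      l ^ 2 * ∑ i ∈ s, hh V D (y + p i) ^ 2 ≤ M * IQ fun x => g x ^ 2 :=
    ⟨_, fun i hi => by simpa using hi, h1⟩
  have e : ∑ i, c i * hh V D (y + p i) = ∑ i ∈ s, c i * hh V D (y + p i) :=
    (Finset.sum_subset (Finset.subset_univ _) fun i _ hi => by rw [hs i hi, zero_mul]).symm
  have h2 := Finset.sum_mul_sq_le_sq_mul_sq s c (fun i => hh V D (y + p i))
  have h3 : ∑ i ∈ s, c i ^ 2 ≤ Z :=
    (Finset.sum_le_sum_of_subset_of_nonneg (Finset.subset_univ _) fun i _ _ => sq_nonneg _).trans hZ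
  have h4 : l ^ 2 * ∑ i ∈ s, hh V D (y + p i) ^ 2 ≤ M * Y :=
    h1.trans (mul_le_mul_of_nonneg_left gY M0)
  have h5 : 0 ≤ ∑ i ∈ s, hh V D (y + p i) ^ 2 := Finset.sum_nonneg fun i _ => sq_nonneg _
  have h6 : 0 ≤ ∑ i ∈ s, c i ^ 2 := Finset.sum_nonneg fun i _ => sq_nonneg _
  rw [e, le_div_iff₀ hl]
  apply Real.le_sqrt_of_sq_le
  calc ((∑ i ∈ s, c i * hh V D (y + p i)) * l) ^ 2
      = l ^ 2 * (∑ i ∈ s, c i * hh V D (y + p i)) ^ 2 := by ring
    _ ≤ l ^ 2 * ((∑ i ∈ s, c i ^ 2) * ∑ i ∈ s, hh V D (y + p i) ^ 2) :=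
        mul_le_mul_of_nonneg_left h2 (sq_nonneg _)
    _ = (l ^ 2 * ∑ i ∈ s, hh V D (y + p i) ^ 2) * ∑ i ∈ s, c i ^ 2 := by ring
    _ ≤ (M * Y) * Z := mul_le_mul h4 h3 h6 ((mul_nonneg (sq_nonneg _) h5).trans h4)

theorem diff_le {ι : Type} [Fintype ι] {p : ι → ℂ} {c : ι → ℝ} {V : ℂ → ℂ} {R : ℝ}
    (hV : ContDiff ℝ ∞ V) (hc : ∀ i, 0 ≤ c i) (hk : ∀ y, ∑ i, c i * nD 1 V (y + p i) ≤ R) (y : ℂ) :
    ∑ i, c i * ‖V (y + p i) - V (p i)‖ ≤ R * ‖y‖ := by
  have hu : ∀ i, ∃ u : ℂ, ‖u‖ = 1 ∧ u * (V (y + p i) - V (p i)) = ‖V (y + p i) - V (p i)‖ := by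
    intro i
    obtain ⟨u, h1, h2⟩ := Complex.exists_norm_mul_eq_self (V (y + p i) - V (p i))
    by_cases h0 : V (y + p i) - V (p i) = 0
    · exact ⟨1, by simp, by simp [h0]⟩
    · refine ⟨(starRingEnd ℂ) u, by simpa using h1, ?_⟩
      have h3 : (starRingEnd ℂ) u * u = 1 := by
        rw [Complex.conj_mul', h1]; simp
      calc (starRingEnd ℂ) u * (V (y + p i) - V (p i))
          = (starRingEnd ℂ) u * (u * ‖V (y + p i) - V (p i)‖) := by rw [h2]
        _ = _ := by rw [← mul_assoc, h3, one_mul]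
  choose u hu1 hu2 using hu
  have hd : Differentiable ℝ V := hV.differentiable (by simp)
  have hF : ∀ w, HasFDerivAt (fun w => ∑ i, ((c i : ℂ) * u i) * V (w + p i))
      (∑ i, ((c i : ℂ) * u i) • fderiv ℝ V (w + p i)) w := by
    intro w
    refine HasFDerivAt.fun_sum fun i _ => ?_
    have h := ((hd (w + p i)).hasFDerivAt.comp w ((hasFDerivAt_id w).add_const (p i)))
    simpa using h.const_mul ((c i : ℂ) * u i)
  have hb : ∀ w, ‖∑ i, ((c i : ℂ) * u i) • fderiv ℝ V (w + p i)‖ ≤ R := by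
    intro w
    refine (norm_sum_le _ _).trans (le_trans (Finset.sum_le_sum fun i _ => ?_) (hk w))
    rw [norm_smul, norm_mul, hu1, mul_one, Complex.norm_real, Real.norm_of_nonneg (hc i)]
    unfold nD
    rw [norm_iteratedFDeriv_one]
  have hm := (convex_univ (𝕜 := ℝ) (E := ℂ)).norm_image_sub_le_of_norm_hasFDerivWithin_le
    (fun w _ => (hF w).hasFDerivWithinAt) (fun w _ => hb w) (mem_univ 0) (mem_univ y)
  have e : ∑ i, ((c i : ℂ) * u i) * V (y + p i) - ∑ i, ((c i : ℂ) * u i) * V (0 + p i)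
      = ((∑ i, c i * ‖V (y + p i) - V (p i)‖ : ℝ) : ℂ) := by
    rw [← Finset.sum_sub_distrib]
    push_cast
    refine Finset.sum_congr rfl fun i _ => ?_
    rw [← hu2 i, zero_add]; ring
  rw [e, sub_zero, Complex.norm_real] at hm
  exact (le_abs_self _).trans hm

theorem diff_le_pn {ι : Type} [Fintype ι] {p : ι → ℂ} {c : ι → ℝ} {V : ℂ → ℂ} {R : ℝ}
    (hV : ContDiff ℝ ∞ V) (hP : Peri V) (hc : ∀ i, 0 ≤ c i) (hR : 0 ≤ R)
    (hk : ∀ y, ∑ i, c i * nD 1 V (y + p i) ≤ R) (y : ℂ) :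
    ∑ i, c i * ‖V (y + p i) - V (p i)‖ ≤ R * pn y := by
  have h : ∀ n, ∑ i, c i * ‖V (y + p i) - V (p i)‖ ≤ R * ‖y - lat n‖ := by
    intro n
    have h1 := diff_le hV hc hk (y - lat n)
    have e : ∀ i, V (y - lat n + p i) = V (y + p i) := fun i => by
      rw [← hP n (y - lat n + p i)]
      refine congrArg V ?_
      ring
    simpa only [e] using h1
  rcases hR.eq_or_lt with h0 | h0
  · have := h 0
    rw [← h0] at this ⊢
    simpa using this
  · rw [mul_comm, ← div_le_iff₀ h0]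
    refine le_pn fun n => ?_
    rw [div_le_iff₀ h0, mul_comm]
    exact h n

theorem tau_nonneg {k : ℕ} {r : ℝ} (hr : 0 < r) (s : ℝ) : 0 ≤ tau k r s :=
  pow_nonneg (div_nonneg hr.le (hr.le.trans (le_max_left _ _))) _

theorem cont_tau (k : ℕ) {r : ℝ} (hr : 0 < r) : Continuous fun y : ℂ => tau k r (pn y) := by
  unfold tau
  refine Continuous.pow (continuous_const.div (continuous_const.max cont_pn) fun y => ?_) _
  exact (lt_of_lt_of_le hr (le_max_left _ _)).ne'

theorem IQ_const_mul (a : ℝ) (F : ℂ → ℝ) : IQ (fun y => a * F y) = a * IQ F :=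
  integral_const_mul _ _

theorem IQ_comb (a b : ℝ) {F G : ℂ → ℝ} (hF : Continuous F) (hG : Continuous G) :
    IQ (fun y => a * F y + b * G y) = a * IQ F + b * IQ G := by
  rw [← IQ_const_mul, ← IQ_const_mul]
  exact integral_add (intOn (by fun_prop)) (intOn (by fun_prop))

end FAR

open FAR in
theorem st_FAR (hCS : St_CS) (hENV : St_ENV) (hPTS : St_PTS) : St_FAR := by
  obtain ⟨C, hC1, hE⟩ := hENV
  refine ⟨9 * C, by linarith, ?_⟩
  intro ι _ B p c V g l d D Y M Z hD hDd hdl hl4 hV hP hg hB hM hZ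
  have hd : 0 < d := hD.trans_le hDd
  have hl : 0 < l := hd.trans_le hdl
  obtain ⟨-, E3, E4, -⟩ := hE l 0 hl (by linarith)
  simp only [sub_zero] at E3 E4
  set R := √(M * Y * Z) with hR
  have R0 : 0 ≤ R := Real.sqrt_nonneg _
  have hc : ∀ i, 0 ≤ c i := fun i => (hB i).2.2.1
  have hk := key hPTS hl hl4 hg hM hZ
  have hk1 : ∀ y, ∑ i, c i * nD 1 V (y + p i) ≤ R / l := fun y =>
    (Finset.sum_le_sum fun i _ => mul_le_mul_of_nonneg_left (le_max_left _ _) (hc i)).trans (hk y)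
  have hdf := diff_le_pn hV hP hc (div_nonneg R0 hl.le) hk1
  have ct := cont_tau 3 hl
  have cV := hV.continuous
  have ch : Continuous (hh V D) := (cont_nD hV 1).max (continuous_const.mul (cont_nD hV 2))
  have ph : Peri (hh V D) := fun n z => by
    simp only [hh, peri_nD hP 1 n z, peri_nD hP 2 n z]
  have pt : ∀ (q : ℂ) (n : ℤ × ℤ) (z : ℂ), pn (z + lat n - q) = pn (z - q) := fun q n z => by
    rw [← pn_add_lat n (z - q)]
    refine congrArg pn ?_
    ring
  set F0 : ℂ → ℝ := fun y => ∑ i, c i * ‖V y - V (p i)‖ * tau 3 l (pn (y - p i)) with hF0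
  set F1 : ℂ → ℝ := fun y => ∑ i, c i * hh V D y * tau 3 l (pn (y - p i)) with hF1
  have ctp : ∀ i, Continuous fun y : ℂ => tau 3 l (pn (y - p i)) := fun i =>
    ct.comp (continuous_id.sub continuous_const)
  have c0 : ∀ i, Continuous fun y => c i * ‖V y - V (p i)‖ * tau 3 l (pn (y - p i)) := fun i =>
    (continuous_const.mul (cV.sub continuous_const).norm).mul (ctp i)
  have c1 : ∀ i, Continuous fun y => c i * hh V D y * tau 3 l (pn (y - p i)) := fun i =>
    (continuous_const.mul ch).mul (ctp i)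
  have cF0 : Continuous F0 := continuous_finsetSum _ fun i _ => c0 i
  have cF1 : Continuous F1 := continuous_finsetSum _ fun i _ => c1 i
  have lg1 : 1 ≤ lg l := by unfold lg; linarith [abs_nonneg (Real.log l)]
  set a := C * lg l * l ^ 2 * R with ha
  have a0 : 0 ≤ a := by positivity
  have T0 : IQ F0 ≤ a := by
    rw [hF0, IQ_sum_shift _ p c0 (fun i n z => by simp only [hP n z, pt])]
    refine (IQ_mono (G := fun y => R / l * (pn y * tau 3 l (pn y)))
      (continuous_finsetSum _ fun i _ => (c0 i).comp (continuous_add_const (p i)))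
      (continuous_const.mul (cont_pn.mul ct)) fun y => ?_).trans ?_
    · simp only [Function.comp_def, add_sub_cancel_right]
      rw [← Finset.sum_mul, ← mul_assoc]
      exact mul_le_mul_of_nonneg_right (hdf y) (tau_nonneg hl _)
    · rw [IQ_const_mul]
      refine (mul_le_mul_of_nonneg_left E4 (div_nonneg R0 hl.le)).trans (le_of_eq ?_)
      rw [ha]; field_simp
  have T1 : IQ F1 ≤ a / l := by
    rw [hF1, IQ_sum_shift _ p c1 (fun i n z => by simp only [ph n z, pt])]
    refine (IQ_mono (G := fun y => R / l * tau 3 l (pn y))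
      (continuous_finsetSum _ fun i _ => (c1 i).comp (continuous_add_const (p i)))
      (continuous_const.mul ct) fun y => ?_).trans ?_
    · simp only [Function.comp_def, add_sub_cancel_right]
      rw [← Finset.sum_mul]
      exact mul_le_mul_of_nonneg_right (hk y) (tau_nonneg hl _)
    · rw [IQ_const_mul]
      refine (mul_le_mul_of_nonneg_left E3 (div_nonneg R0 hl.le)).trans ?_
      have e : a / l = R / l * (C * l ^ 2) * lg l := by rw [ha]; field_simp
      rw [e]
      exact le_mul_of_one_le_right (by positivity) lg1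
  have sm : ∀ i, ContDiff ℝ ∞ fun y => (V y - V (p i)) * B i y := fun i =>
    (hV.sub contDiff_const).mul (hB i).1
  have smf : ContDiff ℝ ∞ fun y => ∑ i, (V y - V (p i)) * B i y := ContDiff.sum fun i _ => sm i
  have pf : Peri fun y => ∑ i, (V y - V (p i)) * B i y := fun n z => by
    simp only [hP n z, fun i => (hB i).2.1 n z]
  have b0 : ∀ i y, nD 0 (B i) y ≤ c i * tau 3 l (pn (y - p i)) := fun i y => by
    simpa using (hB i).2.2.2 0 (by norm_num) y
  have b1 : ∀ i y, nD 1 (B i) y ≤ c i * tau 3 l (pn (y - p i)) / d := fun i y => by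
    rw [le_div_iff₀ hd, mul_comm]
    simpa using (hB i).2.2.2 1 (by norm_num) y
  have b2 : ∀ i y, nD 2 (B i) y ≤ c i * tau 3 l (pn (y - p i)) / d ^ 2 := fun i y => by
    rw [le_div_iff₀ (by positivity), mul_comm]
    exact (hB i).2.2.2 2 le_rfl y
  have v1 : ∀ y, nD 1 V y ≤ hh V D y := fun y => le_max_left _ _
  have v2 : ∀ y, nD 2 V y ≤ hh V D y / D := fun y => by
    rw [le_div_iff₀ hD, mul_comm]; exact le_max_right _ _
  have n0 : IQ (nD 0 fun y => ∑ i, (V y - V (p i)) * B i y) ≤ a := by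
    refine (IQ_mono (cont_nD smf 0) cF0 fun y => ?_).trans T0
    refine (nD_sum_le _ sm 0 y).trans (Finset.sum_le_sum fun i _ => ?_)
    rw [leib0]
    refine (mul_le_mul_of_nonneg_left (b0 i y) (norm_nonneg _)).trans (le_of_eq (by ring))
  have hal : a / l ≤ a / d := div_le_div_of_nonneg_left a0 hd hdl
  have haD : a / d ≤ a / D := div_le_div_of_nonneg_left a0 hD hDd
  have hiD : 1 / d ≤ 1 / D := one_div_le_one_div_of_le hD hDd
  have ad0 : 0 ≤ a / d := div_nonneg a0 hd.le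
  have n1 : IQ (nD 1 fun y => ∑ i, (V y - V (p i)) * B i y) ≤ 4 * a * D / d / D := by
    refine (IQ_mono (G := fun y => 1 / d * F0 y + 1 * F1 y) (cont_nD smf 1) (by fun_prop)
      fun y => ?_).trans ?_
    · refine (nD_sum_le _ sm 1 y).trans ?_
      simp only [hF0, hF1, Finset.mul_sum, ← Finset.sum_add_distrib]
      refine Finset.sum_le_sum fun i _ => (leib1 hV (hB i).1 _ y).trans ?_
      have h1 := mul_le_mul_of_nonneg_left (b1 i y) (norm_nonneg (V y - V (p i)))
      have h2 := mul_le_mul (v1 y) (b0 i y) (nD_nonneg _ _ _) (hh_nonneg _ _ _)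
      refine (add_le_add h1 h2).trans (le_of_eq (by ring))
    · rw [IQ_comb _ _ cF0 cF1]
      have h1 := mul_le_mul_of_nonneg_left T0 (one_div_pos.2 hd).le
      have e : 4 * a * D / d / D = 4 * (a / d) := by field_simp
      have e2 : 1 / d * a = a / d := by ring
      rw [e]; linarith
  have n2 : IQ (nD 2 fun y => ∑ i, (V y - V (p i)) * B i y) ≤ 4 * a * D / d / D ^ 2 := by
    refine (IQ_mono (G := fun y => 1 / d ^ 2 * F0 y + (2 / d + 1 / D) * F1 y) (cont_nD smf 2)
      (by fun_prop) fun y => ?_).trans ?_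
    · refine (nD_sum_le _ sm 2 y).trans ?_
      simp only [hF0, hF1, Finset.mul_sum, ← Finset.sum_add_distrib]
      refine Finset.sum_le_sum fun i _ => (leib2 hV (hB i).1 _ y).trans ?_
      have h1 := mul_le_mul_of_nonneg_left (b2 i y) (norm_nonneg (V y - V (p i)))
      have h2 := mul_le_mul (v1 y) (b1 i y) (nD_nonneg _ _ _) (hh_nonneg _ _ _)
      have h3 := mul_le_mul (v2 y) (b0 i y) (nD_nonneg _ _ _) (div_nonneg (hh_nonneg _ _ _) hD.le)
      have e : 1 / d ^ 2 * (c i * ‖V y - V (p i)‖ * tau 3 l (pn (y - p i)))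
          + (2 / d + 1 / D) * (c i * hh V D y * tau 3 l (pn (y - p i)))
          = ‖V y - V (p i)‖ * (c i * tau 3 l (pn (y - p i)) / d ^ 2)
            + 2 * (hh V D y * (c i * tau 3 l (pn (y - p i)) / d))
            + hh V D y / D * (c i * tau 3 l (pn (y - p i))) := by ring
      rw [e]; linarith
    · rw [IQ_comb _ _ cF0 cF1]
      have h1 := mul_le_mul_of_nonneg_left T0 (one_div_pos.2 (pow_pos hd 2)).le
      have h2 := mul_le_mul_of_nonneg_left (T1.trans hal)
        (by positivity : (0 : ℝ) ≤ 2 / d + 1 / D)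
      have h3 := mul_le_mul_of_nonneg_right hiD ad0
      have e : 4 * a * D / d / D ^ 2 = 4 * (1 / D * (a / d)) := by field_simp
      have e2 : 1 / d ^ 2 * a = 1 / d * (a / d) := by field_simp
      have e3 : (2 / d + 1 / D) * (a / d) = 2 * (1 / d * (a / d)) + 1 / D * (a / d) := by ring
      rw [e]; linarith
  have hfin := hCS.2 _ l D a (4 * a * D / d) smf pf hD hl n0 n1 n2
  have lD : 1 ≤ l / D := (one_le_div hD).2 (hDd.trans hdl)
  have ld : 1 ≤ l / d := (one_le_div hd).2 hdl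
  have hp1 : 1 ≤ (l / D) ^ (al - 1) := Real.one_le_rpow lD (by unfold al; norm_num)
  have hp2 : (l / D) ^ al = (l / D) ^ (al - 1) * (l / D) := by
    rw [Real.rpow_sub_one (by positivity)]; field_simp
  have hle : a + 2 * (4 * a * D / d) * (l / D) ^ al
      ≤ 9 * C * lg l * l ^ 2 * R * (l / d) * (l / D) ^ (al - 1) := by
    have e : 9 * C * lg l * l ^ 2 * R * (l / d) * (l / D) ^ (al - 1)
        = a * ((l / d) * (l / D) ^ (al - 1)) + 2 * (4 * a * D / d) * (l / D) ^ al := by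
      rw [hp2, ha]; field_simp; ring
    rw [e]
    have h1 : a ≤ a * ((l / d) * (l / D) ^ (al - 1)) :=
      le_mul_of_one_le_right a0 (one_le_mul_of_one_le_of_one_le ld hp1)
    linarith
  refine ⟨hfin.1.trans hle, fun y => (hfin.2 y).trans ?_⟩
  exact mul_le_mul_of_nonneg_right
    (div_le_div_of_nonneg_right hle (Real.rpow_nonneg hl.le _)) (Real.rpow_nonneg (norm_nonneg _) _)

end Pool.Agent.Lib.EUL
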