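import Pool.Agent.Lib.EUL.B_SQ
import Pool.Agent.Lib.EUL.BasicA

set_option autoImplicit false

namespace Pool.Agent.Lib.EUL

open MeasureTheory Set Filter Topology
open scoped ContDiff Classical

noncomputable section

namespace FF

lemma cont_tau (k : ℕ) {r : ℝ} (hr : 0 < r) (p : ℂ) : Continuous fun x => tau k r (pn (x - p)) := by
  unfold tau
  have hp : Continuous fun x : ℂ => pn (x - p) := continuous_pn.comp (continuous_sub_right p)
  exact (continuous_const.div (continuous_const.max hp)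
    fun x => (hr.trans_le (le_max_left _ _)).ne').pow k

lemma tau_nonneg (k : ℕ) {r : ℝ} (hr : 0 < r) (s : ℝ) : 0 ≤ tau k r s :=
  pow_nonneg (div_nonneg hr.le (hr.le.trans (le_max_left _ _))) k

/-- one product, with the smooth factor bounded by `m` on the support -/
lemma one (hCS : St_CS) {C : ℝ} (hC : 0 ≤ C) {W B : ℂ → ℂ} {p : ℂ} {c r l L m : ℝ}
    (hE : IQ (fun x => tau 2 r (pn (x - p))) ≤ C * r ^ 2 * lg r) (hL0 : 0 ≤ L)
    (hW : ContDiff ℝ ∞ W) (hWp : Peri W) (hB : ContDiff ℝ ∞ B) (hBp : Peri B) (hc : 0 ≤ c)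
    (hr : 0 < r) (hrl : r ≤ l) (hL : lg r ≤ L) (hD : Dom 2 W p c r r) (hS : Supp W p (l / 2))
    (hm0 : 0 ≤ m) (hm : ∀ y, pn (y - p) ≤ l / 2 → ∀ j ≤ 2, r ^ j * nD j B y ≤ m) :
    Cst l (fun y => W y * B y) (16 * C * L * l ^ al * ((c * r ^ (2 - al)) * m)) := by
  have hl : 0 < l := hr.trans_le hrl
  have hr2 : 0 < r ^ 2 := by positivity
  have hf : ContDiff ℝ ∞ fun y => W y * B y := hW.mul hB
  have hE' : IQ (fun x => tau 2 r (pn (x - p))) ≤ C * r ^ 2 * L :=
    hE.trans (mul_le_mul_of_nonneg_left hL (by positivity))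
  have hcm : 0 ≤ c * m := mul_nonneg hc hm0
  have pt : ∀ y, nD 0 (fun y => W y * B y) y ≤ c * m * tau 2 r (pn (y - p)) ∧
      nD 2 (fun y => W y * B y) y ≤ 4 * (c * m) / r ^ 2 * tau 2 r (pn (y - p)) := by
    intro y
    have ht := tau_nonneg 2 hr (pn (y - p))
    have h2 := SQ.nD_two_mul hW hB y
    rw [SQ.nD_zero_mul]
    rcases le_or_gt (pn (y - p)) (l / 2) with hy | hy
    · have w0 : nD 0 W y ≤ c * tau 2 r (pn (y - p)) := by simpa using hD 0 (by norm_num) y
      have w1 : r * nD 1 W y ≤ c * tau 2 r (pn (y - p)) := by simpa using hD 1 (by norm_num) y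
      have w2 : r ^ 2 * nD 2 W y ≤ c * tau 2 r (pn (y - p)) := hD 2 le_rfl y
      have b0 : nD 0 B y ≤ m := by simpa using hm y hy 0 (by norm_num)
      have b1 : r * nD 1 B y ≤ m := by simpa using hm y hy 1 (by norm_num)
      have b2 : r ^ 2 * nD 2 B y ≤ m := hm y hy 2 le_rfl
      have hct : 0 ≤ c * tau 2 r (pn (y - p)) := mul_nonneg hc ht
      have n0 := SQ.nD_nonneg 0 B y
      have n1 := SQ.nD_nonneg 1 B y
      have n2 := SQ.nD_nonneg 2 B y
      have q0 := mul_le_mul w0 b0 n0 hct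
      have q1 := mul_le_mul w0 b2 (by positivity) hct
      have q2 := mul_le_mul w1 b1 (by positivity) hct
      have q3 := mul_le_mul w2 b0 n0 hct
      refine ⟨by linarith, ?_⟩
      rw [div_mul_eq_mul_div, le_div_iff₀ hr2]
      nlinarith [mul_le_mul_of_nonneg_right h2 hr2.le]
    · rw [hS.nD_eq_zero 0 hy, hS.nD_eq_zero 1 hy, hS.nD_eq_zero 2 hy] at h2
      rw [hS.nD_eq_zero 0 hy]
      refine ⟨by rw [zero_mul]; positivity, h2.trans ?_⟩
      simp only [zero_mul, mul_zero, add_zero]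
      positivity
  have key := hCS.1 (fun y => W y * B y) l r (4 * (c * m) * (C * r ^ 2 * L)) hf (hWp.mul hBp) hr hrl
    ?_ ?_
  · refine key.mono hl (le_of_eq ?_)
    rw [Real.div_rpow hl.le hr.le, Real.rpow_sub hr, Real.rpow_two]
    ring
  · refine le_trans (IQ_mono (SQ.cont_nD hf 0) (continuous_const.mul (cont_tau 2 hr p))
      (g := fun x => c * m * tau 2 r (pn (x - p))) fun y => (pt y).1) ?_
    rw [IQ_const_mul]
    have h1 := mul_le_mul_of_nonneg_left hE' hcm
    have h2 : 0 ≤ c * m * (C * r ^ 2 * L) := by positivity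
    linarith
  · refine le_trans (IQ_mono (SQ.cont_nD hf 2) (continuous_const.mul (cont_tau 2 hr p))
      (g := fun x => 4 * (c * m) / r ^ 2 * tau 2 r (pn (x - p))) fun y => (pt y).2) ?_
    rw [IQ_const_mul]
    refine (mul_le_mul_of_nonneg_left hE' (by positivity)).trans (le_of_eq ?_)
    ring

end FF

open FF in
theorem st_FF (hCS : St_CS) (hENV : St_ENV) (hPTS : St_PTS) : St_FF := by
  obtain ⟨C, hC, hE⟩ := hENV
  refine ⟨32 * C, by linarith, ?_⟩
  intro ι _ W p c r B g l s X M L Om hL hsl hl hl4 hB hBp ⟨hgc, hgp, hg, hX⟩ hW hM hOm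
  have hg0 : ∀ x, 0 ≤ g x := fun x => by
    have h := hg x x (by simpa using hl.le) 0 (by norm_num)
    have := SQ.nD_nonneg 0 B x
    simp only [pow_zero, one_mul] at h
    linarith
  have ex : ∀ i, ∃ x ∈ Metric.closedBall (p i) (l / 2), IsMinOn g (Metric.closedBall (p i) (l / 2)) x :=
    fun i => (isCompact_closedBall (p i) (l / 2)).exists_isMinOn
      ⟨p i, Metric.mem_closedBall_self (by positivity)⟩ hgc.continuousOn
  choose x hx hmin using ex
  have hM0 : 0 ≤ M := hM.nonneg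
  have hX0 : 0 ≤ X := (IQ_nonneg fun x => sq_nonneg (g x)).trans hX
  have hOm0 : 0 ≤ Om := (Finset.sum_nonneg fun i _ => sq_nonneg _).trans hOm
  have each : ∀ i, Cst l (fun y => W i y * B y)
      (16 * C * L * l ^ al * ((c i * r i ^ (2 - al)) * g (x i))) := by
    intro i
    obtain ⟨w1, w2, w3, w4, w5, w6, w7, w8⟩ := hW i
    refine one hCS (by linarith) (hE (r i) (p i) w4 (by linarith)).1 hL w1 w2 hB hBp w3 w4
      (w5.trans hsl) w6 w7 w8 (hg0 _) fun y hy j hj => ?_
    obtain ⟨n, -, hn⟩ := exists_pn (y - p i)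
    have h1 : ‖x i - (y - lat n)‖ ≤ l := by
      have e : x i - (y - lat n) = (x i - p i) - (y - p i - lat n) := by ring
      have h2 : ‖x i - p i‖ ≤ l / 2 := mem_closedBall_iff_norm.1 (hx i)
      rw [e]
      refine (norm_sub_le _ _).trans ?_
      rw [← hn]
      linarith
    have h3 := hg (x i) (y - lat n) h1 j hj
    rw [(hBp.nD j).sub_lat n y] at h3
    exact (mul_le_mul_of_nonneg_right (pow_le_pow_left₀ w4.le w5 j) (SQ.nD_nonneg j B y)).trans h3
  have tot := cst_sum Finset.univ hl (f := fun i y => W i y * B y)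
    (fun i _ => ((hW i).1.mul hB).continuous) fun i _ => each i
  refine (tot.congr fun y => Finset.sum_mul _ _ _).mono hl ?_
  rw [← Finset.mul_sum]
  have hP := hPTS ι (fun i => c i ≠ 0) p (l / 2) M (fun i => g (x i) ^ 2) (fun y => g y ^ 2)
    (by positivity) (by linarith) (hM.mono (fun _ h => h) (by linarith) le_rfl) (hgc.pow 2)
    (hgp.comp fun a => a ^ 2) (fun y => sq_nonneg _)
    fun i _ y hy => pow_le_pow_left₀ (hg0 _) (hmin i (mem_closedBall_iff_norm.2 hy)) 2
  have s1 : ∑ i, (c i * r i ^ (2 - al)) * g (x i) =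
      ∑ i ∈ Finset.univ.filter (fun i => c i ≠ 0), (c i * r i ^ (2 - al)) * g (x i) := by
    symm
    apply Finset.sum_filter_of_ne
    intro i _ h hc
    apply h
    rw [hc, zero_mul, zero_mul]
  have s2 := Real.sum_mul_le_sqrt_mul_sqrt (Finset.univ.filter fun i => c i ≠ 0)
    (fun i => c i * r i ^ (2 - al)) (fun i => g (x i))
  have s3 : ∑ i ∈ Finset.univ.filter (fun i => c i ≠ 0), (c i * r i ^ (2 - al)) ^ 2 ≤ Om :=
    (Finset.sum_le_sum_of_subset_of_nonneg (Finset.filter_subset _ _)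
      fun i _ _ => sq_nonneg _).trans hOm
  have s4 : ∑ i ∈ Finset.univ.filter (fun i => c i ≠ 0), g (x i) ^ 2 ≤ (2 / l) ^ 2 * (M * X) := by
    have h1 : (l / 2) ^ 2 * ∑ i ∈ Finset.univ.filter (fun i => c i ≠ 0), g (x i) ^ 2 ≤ M * X := by
      refine le_trans (le_of_eq ?_) (hP.trans (mul_le_mul_of_nonneg_left hX hM0))
      congr
    have h2 := mul_le_mul_of_nonneg_left h1 (sq_nonneg (2 / l))
    rw [← mul_assoc, ← mul_pow] at h2
    have e : 2 / l * (l / 2) = 1 := by field_simp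
    rwa [e, one_pow, one_mul] at h2
  have s5 : ∑ i, (c i * r i ^ (2 - al)) * g (x i) ≤ 2 * √(Om * M * X) / l := by
    rw [s1]
    refine s2.trans ((mul_le_mul (Real.sqrt_le_sqrt s3) (Real.sqrt_le_sqrt s4) (Real.sqrt_nonneg _)
      (Real.sqrt_nonneg _)).trans (le_of_eq ?_))
    rw [Real.sqrt_mul (sq_nonneg _), Real.sqrt_sq (by positivity), mul_assoc Om,
      Real.sqrt_mul hOm0]
    ring
  have hpos : 0 ≤ 16 * C * L * l ^ al := by
    have : 0 ≤ C := by linarith
    positivity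
  refine (mul_le_mul_of_nonneg_left s5 hpos).trans (le_of_eq ?_)
  ring

end

end Pool.Agent.Lib.EUL
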