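import Pool.Agent.Lib.EUL.Blue
import Pool.Agent.Lib.MP_fea353_an.Fourier

set_option autoImplicit false

namespace Pool.Agent.Lib.EUL

open MeasureTheory Set Filter Topology
open scoped ContDiff Classical

noncomputable section

namespace HS

open MP_fea353_an

/-- the weight of a frequency -/
def wt (k : Fin 3 → ℤ) : ℝ := (1 + ∑ j, (k j : ℝ) ^ 2) ^ (11 / 20 : ℝ)

theorem wt_nonneg (k : Fin 3 → ℤ) : 0 ≤ wt k := by
  unfold wt
  exact Real.rpow_nonneg (by positivity) _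

/-- weighted coefficients on a finite set of frequencies -/
def vec (F : Finset (Fin 3 → ℤ)) (c : (Fin 3 → ℤ) → ℂ) : EuclideanSpace ℂ F :=
  WithLp.toLp 2 (fun k : F => ((√(wt k) : ℝ) : ℂ) * c k)

theorem vec_add (F : Finset (Fin 3 → ℤ)) (c d : (Fin 3 → ℤ) → ℂ) :
    vec F (fun k => c k + d k) = vec F c + vec F d := by
  unfold vec
  rw [← WithLp.toLp_add]
  refine congrArg _ ?_
  funext k
  simp only [Pi.add_apply]
  ring

theorem norm_vec_sq (F : Finset (Fin 3 → ℤ)) (c : (Fin 3 → ℤ) → ℂ) :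
    ‖vec F c‖ ^ 2 = ∑ k ∈ F, wt k * ‖c k‖ ^ 2 := by
  rw [EuclideanSpace.norm_sq_eq, ← Finset.sum_coe_sort F (fun k => wt k * ‖c k‖ ^ 2)]
  refine Finset.sum_congr rfl fun k _ => ?_
  unfold vec
  simp only [norm_mul, Complex.norm_real, Real.norm_eq_abs, mul_pow, sq_abs]
  rw [Real.sq_sqrt (wt_nonneg _)]

theorem hs_eq (g : T3 → ℝ) :
    HsNormSq (11 / 20) g = ∑' k, ENNReal.ofReal (wt k * ‖fc g k‖ ^ 2) := rfl

theorem vec_le_of_hs {g : T3 → ℝ} {B : ℝ} (hB : 0 ≤ B)
    (h : HsNormSq (11 / 20) g ≤ ENNReal.ofReal (B ^ 2)) (F : Finset (Fin 3 → ℤ)) :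
    ‖vec F (fc g)‖ ≤ B := by
  have h1 : ∑ k ∈ F, ENNReal.ofReal (wt k * ‖fc g k‖ ^ 2) ≤ ENNReal.ofReal (B ^ 2) :=
    (ENNReal.sum_le_tsum F).trans (hs_eq g ▸ h)
  rw [← ENNReal.ofReal_sum_of_nonneg (fun k _ => mul_nonneg (wt_nonneg k) (sq_nonneg _)),
    ENNReal.ofReal_le_ofReal_iff (sq_nonneg _), ← norm_vec_sq] at h1
  exact (pow_le_pow_iff_left₀ (norm_nonneg _) hB two_ne_zero).1 h1

theorem hs_le_of_sum {g : T3 → ℝ} {M : ℝ}
    (h : ∀ F : Finset (Fin 3 → ℤ), ∑ k ∈ F, wt k * ‖fc g k‖ ^ 2 ≤ M) :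
    HsNormSq (11 / 20) g ≤ ENNReal.ofReal M := by
  rw [hs_eq, ENNReal.tsum_eq_iSup_sum]
  refine iSup_le fun F => ?_
  rw [← ENNReal.ofReal_sum_of_nonneg (fun k _ => mul_nonneg (wt_nonneg k) (sq_nonneg _))]
  exact ENNReal.ofReal_le_ofReal (h F)

theorem abs_lift_le (f : ℂ → ℂ) (x : T3) (i : Fin 3) : |liftU f x i| ≤ ‖f (pr x)‖ := by
  fin_cases i
  · exact Complex.abs_re_le_norm _
  · exact Complex.abs_im_le_norm _
  · simp [liftU]

theorem lift_sub (f g : ℂ → ℂ) (x : T3) (i : Fin 3) :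
    liftU (fun y => f y - g y) x i = liftU f x i - liftU g x i := by
  fin_cases i
  · simp [liftU]
  · simp [liftU]
  · simp [liftU]

theorem memLp_lift (hPR : St_PR) {f : ℂ → ℂ} (hf : MemLp f 2 (volume.restrict cell)) (i : Fin 3) :
    MemLp (fun x => liftU f x i) 2 mu := by
  have h : MemLp (fun x => f (pr x)) 2 mu := hf.comp_measurePreserving hPR.1
  fin_cases i
  · exact h.re
  · exact h.im
  · simpa [liftU] using (memLp_const (μ := mu) (p := 2) (0 : ℝ))

theorem meas_cell : MeasurableSet cell :=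
  (measurableSet_Ioc.preimage Complex.measurable_re).inter
    (measurableSet_Ioc.preimage Complex.measurable_im)

theorem norm_le_of_cell {x : ℂ} (hx : x ∈ cell) : ‖x‖ ≤ 1 := by
  obtain ⟨⟨h1, h2⟩, h3, h4⟩ := hx
  have h5 := Complex.norm_le_abs_re_add_abs_im x
  have h6 : |x.re| ≤ 1 / 2 := abs_le.2 ⟨by linarith, h2⟩
  have h7 : |x.im| ≤ 1 / 2 := abs_le.2 ⟨by linarith, h4⟩
  linarith

theorem prob_cell (hPR : St_PR) : IsProbabilityMeasure (volume.restrict cell : Measure ℂ) := by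
  rw [← hPR.1.map_eq]
  exact Measure.isProbabilityMeasure_map hPR.1.measurable.aemeasurable

theorem memLp_cont (hPR : St_PR) {f : ℂ → ℂ} (hf : Continuous f) :
    MemLp f 2 (volume.restrict cell) := by
  haveI := prob_cell hPR
  obtain ⟨C, hC⟩ := (isCompact_closedBall (0 : ℂ) 1).exists_bound_of_continuousOn hf.continuousOn
  refine MemLp.of_bound hf.aestronglyMeasurable C ?_
  filter_upwards [ae_restrict_mem meas_cell] with x hx
  exact hC x (mem_closedBall_zero_iff.2 (norm_le_of_cell hx))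

theorem IQ_le_const (hPR : St_PR) {f : ℂ → ℝ} {C : ℝ} (h : ∀ x ∈ cell, |f x| ≤ C) : IQ f ≤ C := by
  haveI := prob_cell hPR
  have h1 : ‖∫ x in cell, f x‖ ≤ C * (volume.restrict cell : Measure ℂ).real univ := by
    refine norm_integral_le_of_norm_le_const ?_
    filter_upwards [ae_restrict_mem meas_cell] with x hx
    exact h x hx
  rw [probReal_univ, mul_one] at h1
  exact (le_abs_self _).trans h1

theorem fc_sq_le (hPR : St_PR) {f : ℂ → ℂ} (hf : MemLp f 2 (volume.restrict cell)) (i : Fin 3)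
    (k : Fin 3 → ℤ) : ‖fc (fun x => liftU f x i) k‖ ^ 2 ≤ IQ fun x => ‖f x‖ ^ 2 := by
  have h1 := le_hasSum (hasSum_sq (memLp_lift hPR hf i)) k (fun _ _ => sq_nonneg _)
  refine h1.trans ?_
  have h2 : MemLp (fun x => f (pr x)) 2 mu := hf.comp_measurePreserving hPR.1
  have h3 : Integrable (fun x => ‖f (pr x)‖ ^ 2) mu := (memLp_two_iff_integrable_sq_norm h2.1).1 h2
  have h4 : Integrable (fun x => ‖f x‖ ^ 2) (volume.restrict cell) :=
    (memLp_two_iff_integrable_sq_norm hf.1).1 hf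
  have h5 : ∫ x, ‖f (pr x)‖ ^ 2 ∂mu = IQ fun x => ‖f x‖ ^ 2 := by
    unfold IQ
    rw [← hPR.1.map_eq, integral_map hPR.1.measurable.aemeasurable]
    rw [hPR.1.map_eq]
    exact h4.1
  rw [← h5]
  refine integral_mono_of_nonneg (Eventually.of_forall fun x => sq_nonneg _) h3
    (Eventually.of_forall fun x => ?_)
  show liftU f x i ^ 2 ≤ ‖f (pr x)‖ ^ 2
  rw [← sq_abs]
  exact pow_le_pow_left₀ (abs_nonneg _) (abs_lift_le f x i) 2

theorem sm_slice {v : ℝ → ℂ → ℂ} (h : Sm v) (t : ℝ) : ContDiff ℝ ∞ (v t) :=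
  h.comp (contDiff_const.prodMk contDiff_id)

theorem fc_lift_sub (hPR : St_PR) {f g : ℂ → ℂ} (hf : MemLp f 2 (volume.restrict cell))
    (hg : MemLp g 2 (volume.restrict cell)) (i : Fin 3) (k : Fin 3 → ℤ) :
    fc (fun x => liftU (fun y => f y - g y) x i) k
      = fc (fun x => liftU f x i) k - fc (fun x => liftU g x i) k := by
  rw [← fc_sub ((memLp_lift hPR hf i).integrable one_le_two)
    ((memLp_lift hPR hg i).integrable one_le_two)]
  refine congrArg (fun h => fc h k) ?_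
  funext x
  exact lift_sub f g x i

/-- uniform bounds for the first field -/
theorem start_bound (hPR : St_PR) {v : ℝ → ℂ → ℂ} (h : Sm v) {a b : ℝ} (hts : TS v a b) :
    ∃ A : ℝ, 0 ≤ A ∧ ∀ t, IQ (fun x => ‖v t x‖ ^ 2) ≤ A ^ 2 ∧
      IQ (fun x => nD 1 (v t) x ^ 2) ≤ A ^ 2 / 1 ^ 2 := by
  have hK : IsCompact (Icc a b ×ˢ Metric.closedBall (0 : ℂ) 1) :=
    isCompact_Icc.prod (isCompact_closedBall _ _)
  have hc1 : Continuous (fderiv ℝ (fun p : ℝ × ℂ => v p.1 p.2)) :=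
    ContDiff.continuous_fderiv h (by simp)
  obtain ⟨C0, hC0⟩ := hK.exists_bound_of_continuousOn (ContDiff.continuous h).continuousOn
  obtain ⟨C1, hC1⟩ := hK.exists_bound_of_continuousOn hc1.continuousOn
  refine ⟨|C0| + |C1|, by positivity, fun t => ?_⟩
  have hb0 : ∀ x ∈ cell, ‖v t x‖ ≤ |C0| + |C1| := by
    intro x hx
    by_cases ht : t ∈ Icc a b
    · have := hC0 (t, x) ⟨ht, mem_closedBall_zero_iff.2 (norm_le_of_cell hx)⟩
      have h2 := le_abs_self C0
      have h3 := abs_nonneg C1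
      simp only at this
      linarith
    · rw [hts t ht x, norm_zero]
      positivity
  have hb1 : ∀ x ∈ cell, nD 1 (v t) x ≤ |C0| + |C1| := by
    intro x hx
    unfold nD
    rw [norm_iteratedFDeriv_one]
    by_cases ht : t ∈ Icc a b
    · have h1 := hC1 (t, x) ⟨ht, mem_closedBall_zero_iff.2 (norm_le_of_cell hx)⟩
      have hd : HasFDerivAt (fun p : ℝ × ℂ => v p.1 p.2)
          (fderiv ℝ (fun p : ℝ × ℂ => v p.1 p.2) (t, x)) (t, x) :=
        ((ContDiff.differentiable h (by simp)) (t, x)).hasFDerivAt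
      have hd2 : HasFDerivAt (v t) ((fderiv ℝ (fun p : ℝ × ℂ => v p.1 p.2) (t, x)).comp
          (ContinuousLinearMap.inr ℝ ℝ ℂ)) x :=
        hd.comp x (hasFDerivAt_prodMk_right t x)
      rw [hd2.fderiv]
      have h4 : ‖(fderiv ℝ (fun p : ℝ × ℂ => v p.1 p.2) (t, x)).comp
          (ContinuousLinearMap.inr ℝ ℝ ℂ)‖ ≤ ‖fderiv ℝ (fun p : ℝ × ℂ => v p.1 p.2) (t, x)‖ := by
        refine ContinuousLinearMap.opNorm_le_bound _ (norm_nonneg _) fun y => ?_
        refine ((fderiv ℝ (fun p : ℝ × ℂ => v p.1 p.2) (t, x)).le_opNorm _).trans (le_of_eq ?_)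
        simp
      have h2 := le_abs_self C1
      have h3 := abs_nonneg C0
      linarith
    · have : v t = fun _ => 0 := funext fun y => hts t ht y
      rw [this]
      simp only [fderiv_fun_const, Pi.zero_apply, norm_zero]
      positivity
  constructor
  · refine IQ_le_const hPR fun x hx => ?_
    rw [abs_of_nonneg (sq_nonneg _)]
    exact pow_le_pow_left₀ (norm_nonneg _) (hb0 x hx) 2
  · rw [one_pow, div_one]
    refine IQ_le_const hPR fun x hx => ?_
    rw [abs_of_nonneg (sq_nonneg _)]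
    exact pow_le_pow_left₀ (norm_nonneg _) (hb1 x hx) 2

end HS

open HS MP_fea353_an in
theorem st_HS (hPR : St_PR) (hHS1 : St_HS1) : St_HS := by
  intro v q S A rho u H hu
  obtain ⟨A0, hA0, hst⟩ := start_bound hPR (H.er 0).1.1 (H.ts 0)
  have hterm : ∀ m, 0 ≤ A m * rho m ^ (-(11 / 20 : ℝ)) := fun m =>
    mul_nonneg (H.A0 m) (Real.rpow_nonneg (H.rpos m).le _)
  set B : ℝ := 2 * A0 + 2 * ∑' m, A m * rho m ^ (-(11 / 20 : ℝ)) with hB
  refine ⟨B ^ 2, fun t i => hs_le_of_sum fun F => ?_⟩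
  have hsm : ∀ m, ContDiff ℝ ∞ (v m t) := fun m => sm_slice (H.er m).1.1 t
  have hL : ∀ m, MemLp (v m t) 2 (volume.restrict cell) := fun m =>
    memLp_cont hPR (hsm m).continuous
  have hN : ∀ N, ‖vec F (fc fun x => liftU (v N t) x i)‖
      ≤ 2 * A0 + 2 * ∑ m ∈ Finset.range N, A m * rho m ^ (-(11 / 20 : ℝ)) := by
    intro N
    induction N with
    | zero =>
      have h0 := hHS1 (v 0 t) A0 1 i (hsm 0) ((H.er 0).1.2 t) one_pos le_rfl hA0 (hst t).1 (hst t).2
      rw [Real.one_rpow, mul_one] at h0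
      simpa using vec_le_of_hs (by positivity) h0 F
    | succ N ih =>
      have hper : Peri (fun x => v (N + 1) t x - v N t x) := fun n z => by
        show v (N + 1) t (z + lat n) - v N t (z + lat n) = v (N + 1) t z - v N t z
        rw [(H.er (N + 1)).1.2 t n z, (H.er N).1.2 t n z]
      have h0 := hHS1 (fun x => v (N + 1) t x - v N t x) (A N) (rho N) i
        ((hsm (N + 1)).sub (hsm N)) hper (H.rpos N) (H.r1 N) (H.A0 N) (H.inc N t).1 (H.inc N t).2.1
      have h1 := vec_le_of_hs (by have := hterm N; rw [mul_assoc]; positivity) h0 F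
      have h2 : (fc fun x => liftU (v (N + 1) t) x i) = fun k =>
          fc (fun x => liftU (v N t) x i) k
            + fc (fun x => liftU (fun y => v (N + 1) t y - v N t y) x i) k := by
        funext k
        rw [fc_lift_sub hPR (hL (N + 1)) (hL N)]
        ring
      rw [h2, vec_add, Finset.sum_range_succ]
      refine (norm_add_le _ _).trans ?_
      have h3 : ‖vec F (fc fun x => liftU (fun y => v (N + 1) t y - v N t y) x i)‖
          ≤ 2 * (A N * rho N ^ (-(11 / 20 : ℝ))) := by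
        rw [← mul_assoc]
        exact h1
      linarith
  have hN2 : ∀ N, ∑ k ∈ F, wt k * ‖fc (fun x => liftU (v N t) x i) k‖ ^ 2 ≤ B ^ 2 := by
    intro N
    rw [← norm_vec_sq]
    refine pow_le_pow_left₀ (norm_nonneg _) ((hN N).trans ?_) 2
    have := H.sum.sum_le_tsum (Finset.range N) (fun m _ => hterm m)
    linarith
  have hlim : ∀ k, Tendsto (fun N => fc (fun x => liftU (v N t) x i) k) atTop
      (𝓝 (fc (fun x => liftU (u t) x i) k)) := by
    intro k
    rw [tendsto_iff_norm_sub_tendsto_zero]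
    have h1 : Tendsto (fun N => √(IQ fun x => ‖u t x - v N t x‖ ^ 2)) atTop (𝓝 0) := by
      simpa using (hu t).2.sqrt
    refine squeeze_zero (fun _ => norm_nonneg _) (fun N => ?_) h1
    rw [norm_sub_rev, ← fc_lift_sub hPR (hu t).1 (hL N)]
    exact Real.le_sqrt_of_sq_le (fc_sq_le hPR ((hu t).1.sub (hL N)) i k)
  have hlim2 : Tendsto (fun N => ∑ k ∈ F, wt k * ‖fc (fun x => liftU (v N t) x i) k‖ ^ 2) atTop
      (𝓝 (∑ k ∈ F, wt k * ‖fc (fun x => liftU (u t) x i) k‖ ^ 2)) :=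
    tendsto_finset_sum F fun k _ => ((hlim k).norm.pow 2).const_mul _
  exact le_of_tendsto' hlim2 hN2

end

end Pool.Agent.Lib.EUL
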