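import Pool.Agent.Lib.EUL.Blue
import Pool.Agent.Lib.MP_fea353_an.Fourier

set_option autoImplicit false

namespace Pool.Agent.Lib.EUL

open MeasureTheory Set Filter Topology
open scoped ContDiff Classical

namespace HS1

open MP_fea353_an

theorem quot : IsOpenQuotientMap (fun (y : Fin 3 → ℝ) (i : Fin 3) => (y i : UnitAddCircle)) :=
  IsOpenQuotientMap.piMap fun _ => QuotientAddGroup.isOpenQuotientMap_mk

theorem cont_pr (hPR : St_PR) {E : Type} [TopologicalSpace E] {F : ℂ → E} (hc : Continuous F)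
    (hp : Peri F) : Continuous fun x : T3 => F (pr x) := by
  refine quot.isQuotientMap.continuous_iff.2 ?_
  have : (fun x : T3 => F (pr x)) ∘ (fun (y : Fin 3 → ℝ) (i : Fin 3) => (y i : UnitAddCircle)) =
      fun y => F (y 0 + y 1 * Complex.I) := funext fun y => hPR.2 E F hp y
  rw [this]
  fun_prop

theorem int_pr (hPR : St_PR) {F : ℂ → ℝ} (hc : Continuous F) : ∫ x, F (pr x) ∂mu = IQ F := by
  unfold IQ
  rw [← hPR.1.map_eq, integral_map hPR.1.measurable.aemeasurable hc.aestronglyMeasurable]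

/-- coordinate directions -/
def ev (j : Fin 3) : ℂ := ![1, Complex.I, 0] j

theorem ev_norm (j : Fin 3) : ‖ev j‖ ≤ 1 := by fin_cases j <;> simp [ev]

theorem peri_fderiv {f : ℂ → ℂ} (hp : Peri f) : Peri (fderiv ℝ f) := fun n z => by
  rw [← fderiv_comp_add_right]
  congr 1
  exact funext (hp n)

theorem hasPD (hPR : St_PR) {f : ℂ → ℂ} (hf : ContDiff ℝ ∞ f) (hp : Peri f) (L : ℂ →L[ℝ] ℝ)
    (j : Fin 3) : HasPD j (fun x => L (f (pr x))) (fun x => L (fderiv ℝ f (pr x) (ev j))) := by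
  intro x
  obtain ⟨y, rfl⟩ := quot.surjective x
  have h1 : ∀ s : ℝ, f (pr ((fun i => (y i : UnitAddCircle)) + Pi.single j (s : UnitAddCircle))) =
      f (y 0 + y 1 * Complex.I + s • ev j) := fun s => by
    have h2 : ((fun i => (y i : UnitAddCircle)) + Pi.single j (s : UnitAddCircle) : T3) =
        fun i => (((y + Pi.single j s : Fin 3 → ℝ) i : ℝ) : UnitAddCircle) := by
      funext i
      by_cases h : i = j
      · subst h; simp
      · simp [Pi.single_eq_of_ne h]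
    rw [h2, hPR.2 ℂ f hp]
    congr 1
    fin_cases j <;> simp [ev] <;> ring
  simp only [h1]
  rw [hPR.2 _ _ (peri_fderiv hp) y]
  have h3 : HasDerivAt (fun s : ℝ => (y 0 + y 1 * Complex.I + s • ev j : ℂ)) (ev j) 0 := by
    simpa using ((hasDerivAt_id (0 : ℝ)).smul_const (ev j)).const_add (y 0 + y 1 * Complex.I : ℂ)
  have h4 : HasFDerivAt f (fderiv ℝ f (y 0 + y 1 * Complex.I))
      (y 0 + y 1 * Complex.I + (0 : ℝ) • ev j) := by
    simpa using (hf.differentiable (by simp) _).hasFDerivAt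
  exact L.hasFDerivAt.comp_hasDerivAt 0 (h4.comp_hasDerivAt 0 h3)

theorem interp {X r : ℝ} (hX : 0 < X) (hr : 0 < r) :
    X ^ (11 / 20 : ℝ) ≤ (r ^ (-(11 / 20 : ℝ))) ^ 2 * (1 + r ^ 2 * X) := by
  have h1 : X ^ (11 / 20 : ℝ) = (r ^ (-(11 / 20 : ℝ))) ^ 2 * (r ^ 2 * X) ^ (11 / 20 : ℝ) := by
    rw [Real.mul_rpow (by positivity) hX.le, ← mul_assoc, ← Real.rpow_natCast r 2,
      ← Real.rpow_natCast _ 2, ← Real.rpow_mul hr.le, ← Real.rpow_mul hr.le, ← Real.rpow_add hr]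
    norm_num
  rw [h1]
  gcongr
  have hY : 0 < r ^ 2 * X := by positivity
  rcases le_total (r ^ 2 * X) 1 with h | h
  · linarith [Real.rpow_le_one hY.le h (by norm_num : (0 : ℝ) ≤ 11 / 20)]
  · have := Real.rpow_le_rpow_of_exponent_le h (by norm_num : (11 / 20 : ℝ) ≤ 1)
    rw [Real.rpow_one] at this
    linarith

theorem main (hPR : St_PR) {f : ℂ → ℂ} {A rho : ℝ} (hf : ContDiff ℝ ∞ f) (hp : Peri f)
    (hr : 0 < rho) (hr1 : rho ≤ 1) (h0 : IQ (fun x => ‖f x‖ ^ 2) ≤ A ^ 2)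
    (h1 : IQ (fun x => nD 1 f x ^ 2) ≤ A ^ 2 / rho ^ 2) (L : ℂ →L[ℝ] ℝ) (hL : ∀ z, |L z| ≤ ‖z‖) :
    HsNormSq (11 / 20) (fun x => L (f (pr x))) ≤
      ENNReal.ofReal ((2 * A * rho ^ (-(11 / 20 : ℝ))) ^ 2) := by
  have hc := hf.continuous
  have hc' : Continuous (fderiv ℝ f) := hf.continuous_fderiv (by simp)
  have hnD : ∀ z, nD 1 f z = ‖fderiv ℝ f z‖ := fun z => by
    rw [nD, ← norm_iteratedFDeriv_fderiv, norm_iteratedFDeriv_zero]
  simp only [hnD] at h1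
  have c0 := cont_pr hPR hc hp
  have c1 := cont_pr hPR hc' (peri_fderiv hp)
  set u : T3 → ℝ := fun x => L (f (pr x)) with hu
  set u' : Fin 3 → T3 → ℝ := fun j x => L (fderiv ℝ f (pr x) (ev j)) with hu'
  have cu : Continuous u := L.continuous.comp c0
  have cu' : ∀ j, Continuous (u' j) := fun j => L.continuous.comp (c1.clm_apply continuous_const)
  have s0 := hasSum_sq (cont_memLp cu 2)
  have s1 := fun j => hasSum_sq (cont_memLp (cu' j) 2)
  have b0 : ∫ x, u x ^ 2 ∂mu ≤ A ^ 2 := by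
    refine le_trans ?_ h0
    rw [← int_pr hPR (F := fun x => ‖f x‖ ^ 2) (hc.norm.pow 2)]
    refine integral_mono (cont_int (cu.pow 2)) (cont_int (c0.norm.pow 2)) fun x => ?_
    exact sq_le_sq.2 ((hL _).trans (le_abs_self _))
  have b1 : ∀ j, ∫ x, u' j x ^ 2 ∂mu ≤ A ^ 2 / rho ^ 2 := fun j => by
    refine le_trans ?_ h1
    rw [← int_pr hPR (F := fun x => ‖fderiv ℝ f x‖ ^ 2) (hc'.norm.pow 2)]
    refine integral_mono (cont_int ((cu' j).pow 2)) (cont_int (c1.norm.pow 2)) fun x => ?_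
    refine sq_le_sq.2 ((hL _).trans (le_trans ?_ (le_abs_self _)))
    exact (ContinuousLinearMap.le_opNorm _ _).trans
      (mul_le_of_le_one_right (norm_nonneg _) (ev_norm j))
  have e1 : ∀ j k, 4 * ((k j : ℝ) ^ 2 * ‖fc u k‖ ^ 2) ≤ ‖fc (u' j) k‖ ^ 2 := fun j k => by
    rw [fc_pd (hasPD hPR hf hp L j) cu (cu' j) k]
    have h2 : ‖(2 * Real.pi * Complex.I * k j : ℂ)‖ = 2 * Real.pi * |(k j : ℝ)| := by
      simp [abs_of_pos Real.pi_pos]
    rw [norm_mul, h2, mul_pow, mul_pow, mul_pow, sq_abs]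
    have h3 : 1 ≤ Real.pi ^ 2 := one_le_pow₀ (by linarith [Real.pi_gt_three])
    have h4 : 0 ≤ (k j : ℝ) ^ 2 * ‖fc u k‖ ^ 2 := by positivity
    nlinarith
  set c : ℝ := (rho ^ (-(11 / 20 : ℝ))) ^ 2 with hc0
  have hcp : 0 ≤ c := by positivity
  have S := ((s0.mul_left 2).add ((hasSum_sum (s := Finset.univ) fun j _ => s1 j).mul_left
    (rho ^ 2 / 4))).mul_left c
  have hr2 : rho ^ 2 ≤ 1 := pow_le_one₀ hr.le hr1
  have key : ∀ k : Fin 3 → ℤ, (1 + ∑ j, (k j : ℝ) ^ 2) ^ (11 / 20 : ℝ) * ‖fc u k‖ ^ 2 ≤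
      c * (2 * ‖fc u k‖ ^ 2 + rho ^ 2 / 4 * ∑ j, ‖fc (u' j) k‖ ^ 2) := fun k => by
    have h2 := interp (X := 1 + ∑ j, (k j : ℝ) ^ 2) (by positivity) hr
    have h3 : 4 * ((∑ j, (k j : ℝ) ^ 2) * ‖fc u k‖ ^ 2) ≤ ∑ j, ‖fc (u' j) k‖ ^ 2 := by
      rw [Finset.sum_mul, Finset.mul_sum]
      exact Finset.sum_le_sum fun j _ => e1 j k
    calc _ ≤ c * (1 + rho ^ 2 * (1 + ∑ j, (k j : ℝ) ^ 2)) * ‖fc u k‖ ^ 2 := by gcongr
      _ = c * ((1 + rho ^ 2) * ‖fc u k‖ ^ 2 +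
          rho ^ 2 / 4 * (4 * ((∑ j, (k j : ℝ) ^ 2) * ‖fc u k‖ ^ 2))) := by ring
      _ ≤ _ := by
          gcongr
          linarith
  calc HsNormSq (11 / 20) u ≤ ∑' k : Fin 3 → ℤ, ENNReal.ofReal
        (c * (2 * ‖fc u k‖ ^ 2 + rho ^ 2 / 4 * ∑ j, ‖fc (u' j) k‖ ^ 2)) :=
        ENNReal.tsum_le_tsum fun k => ENNReal.ofReal_le_ofReal (key k)
    _ = ENNReal.ofReal _ := by
        rw [← ENNReal.ofReal_tsum_of_nonneg (fun k => by positivity) S.summable, S.tsum_eq]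
    _ ≤ _ := by
        refine ENNReal.ofReal_le_ofReal ?_
        have h2 : ∑ j, ∫ x, u' j x ^ 2 ∂mu ≤ 3 * (A ^ 2 / rho ^ 2) := by
          rw [Fin.sum_univ_three]
          linarith [b1 0, b1 1, b1 2]
        calc _ ≤ c * (2 * A ^ 2 + rho ^ 2 / 4 * (3 * (A ^ 2 / rho ^ 2))) := by gcongr
          _ = c * (11 / 4 * A ^ 2) := by field_simp; ring
          _ ≤ c * (4 * A ^ 2) := by gcongr; norm_num
          _ = _ := by rw [hc0]; ring

end HS1

open HS1 in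
theorem st_HS1 (hPR : St_PR) : St_HS1 := by
  intro f A rho i hf hp hr hr1 _ h0 h1
  fin_cases i
  · exact main hPR hf hp hr hr1 h0 h1 Complex.reCLM Complex.abs_re_le_norm
  · exact main hPR hf hp hr hr1 h0 h1 Complex.imCLM Complex.abs_im_le_norm
  · exact main hPR hf hp hr hr1 h0 h1 0 (by simp)

end Pool.Agent.Lib.EUL
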