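import Pool.Agent.Lib.EUL.Blue

/-! Block MOL: mollification of a periodic stress. -/

open MeasureTheory Set Filter Topology
open scoped ContDiff Classical

noncomputable section

namespace Pool.Agent.Lib.EUL

namespace MOL

/-- the lattice as a homomorphism -/
def latH : ℤ × ℤ →+ ℂ where
  toFun := lat
  map_zero' := by simp [lat]
  map_add' a b := by simp only [lat, Prod.fst_add, Prod.snd_add]; push_cast; ring

theorem meas_cell : MeasurableSet cell :=
  (Complex.measurable_re measurableSet_Ioc).inter (Complex.measurable_im measurableSet_Ioc)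

theorem cell_sub : cell ⊆ Metric.closedBall 0 1 := fun z hz => by
  rw [mem_closedBall_zero_iff]
  have h1 : |z.re| ≤ 1 / 2 := abs_le.2 ⟨by linarith [hz.1.1], hz.1.2⟩
  have h2 : |z.im| ≤ 1 / 2 := abs_le.2 ⟨by linarith [hz.2.1], hz.2.2⟩
  linarith [Complex.norm_le_abs_re_add_abs_im z]

theorem int_ex (a : ℝ) : ∃ n : ℤ, (n : ℝ) + a ∈ Ioc (-1 / 2 : ℝ) (1 / 2) :=
  ⟨⌊1 / 2 - a⌋, by linarith [Int.lt_floor_add_one (1 / 2 - a)], by linarith [Int.floor_le (1 / 2 - a)]⟩

theorem int_un {a : ℝ} {n m : ℤ} (h1 : (n : ℝ) + a ∈ Ioc (-1 / 2 : ℝ) (1 / 2))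
    (h2 : (m : ℝ) + a ∈ Ioc (-1 / 2 : ℝ) (1 / 2)) : n = m := by
  have a1 : ((n : ℝ)) < ((m + 1 : ℤ) : ℝ) := by push_cast; linarith [h1.2, h2.1]
  have a2 : ((m : ℝ)) < ((n + 1 : ℤ) : ℝ) := by push_cast; linarith [h1.1, h2.2]
  have b1 : n < m + 1 := Int.cast_lt.1 a1
  have b2 : m < n + 1 := Int.cast_lt.1 a2
  omega

theorem mem_iff (n : ℤ × ℤ) (x : ℂ) : lat n + x ∈ cell ↔
    (n.1 : ℝ) + x.re ∈ Ioc (-1 / 2 : ℝ) (1 / 2) ∧ (n.2 : ℝ) + x.im ∈ Ioc (-1 / 2 : ℝ) (1 / 2) := by
  simp [cell, lat]

theorem fund (w : ℂ) : IsAddFundamentalDomain latH.range ((fun x => x + w) ⁻¹' cell) volume := by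
  refine IsAddFundamentalDomain.mk' (measurable_add_const w meas_cell).nullMeasurableSet fun x => ?_
  obtain ⟨n, hn⟩ := int_ex (x + w).re
  obtain ⟨m, hm⟩ := int_ex (x + w).im
  refine ⟨⟨lat (n, m), (n, m), rfl⟩, ?_, ?_⟩
  · show lat (n, m) + x + w ∈ cell
    rw [add_assoc, mem_iff]; exact ⟨hn, hm⟩
  · rintro ⟨_, k, rfl⟩ hk
    have hk' : lat k + x + w ∈ cell := hk
    rw [add_assoc, mem_iff] at hk'
    have e : k = (n, m) := Prod.ext (int_un hk'.1 hn) (int_un hk'.2 hm)
    subst e
    rfl

theorem shift {g : ℂ → ℝ} (hg : Peri g) (w : ℂ) : IQ (fun x => g (x - w)) = IQ g := by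
  have : Countable latH.range := (countable_range latH).to_subtype
  have h1 := (fund w).setIntegral_eq (fund 0) (f := g) (by
    rintro ⟨_, k, rfl⟩ x
    show g (lat k + x) = g x
    rw [add_comm]; exact hg k x)
  have h2 := (measurePreserving_add_right (volume : Measure ℂ) w).setIntegral_preimage_emb
    (measurableEmbedding_addRight w) (fun x => g (x - w)) cell
  simp only [add_sub_cancel_right] at h2
  simp only [add_zero, preimage_id'] at h1
  unfold IQ
  rw [← h2, h1]

theorem bump_smooth : ContDiff ℝ ∞ bump :=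
  expNegInvGlue.contDiff.comp (contDiff_const.sub (contDiff_norm_sq ℝ))

theorem bump_zero {y : ℂ} (h : 1 ≤ ‖y‖) : bump y = 0 :=
  expNegInvGlue.zero_of_nonpos (by nlinarith)

theorem bump_supp : HasCompactSupport bump :=
  HasCompactSupport.intro (isCompact_closedBall (0 : ℂ) 1) fun _ hy =>
    bump_zero (not_le.1 fun h => hy (mem_closedBall_zero_iff.2 h)).le

theorem bump_int : 0 < ∫ w, bump w :=
  bump_smooth.continuous.integral_pos_of_hasCompactSupport_nonneg_nonzero bump_supp
    (fun _ => expNegInvGlue.nonneg _) (x := 0)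
    (expNegInvGlue.pos_of_pos (by simp)).ne'

theorem eta_nonneg (y : ℂ) : 0 ≤ eta y := div_nonneg (expNegInvGlue.nonneg _) bump_int.le

theorem etas_smooth (l : ℝ) : ContDiff ℝ ∞ (etas l) :=
  Complex.ofRealCLM.contDiff.comp
    (((bump_smooth.comp (contDiff_id.div_const _)).div_const _).div_const _)

theorem etas_zero {l : ℝ} (hl : 0 < l) {y : ℂ} (h : l ≤ ‖y‖) : etas l y = 0 := by
  have : bump (y / (l : ℂ)) = 0 := bump_zero (by
    rw [norm_div, Complex.norm_real, Real.norm_eq_abs, abs_of_pos hl, le_div_iff₀ hl, one_mul]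
    exact h)
  simp [etas, eta, this]

theorem etas_neg (l : ℝ) (y : ℂ) : etas l (-y) = etas l y := by
  simp only [etas, eta, bump, neg_div, norm_neg]

theorem etas_supp {l : ℝ} (hl : 0 < l) : HasCompactSupport (etas l) :=
  HasCompactSupport.intro (isCompact_closedBall (0 : ℂ) l) fun _ hy =>
    etas_zero hl (not_le.1 fun h => hy (mem_closedBall_zero_iff.2 h)).le

theorem int_re {l : ℝ} (hl : 0 < l) : ∫ y : ℂ, eta (y / (l : ℂ)) / l ^ 2 = 1 := by
  have e : ∀ y : ℂ, y / (l : ℂ) = l⁻¹ • y := fun y => by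
    rw [Complex.real_smul, Complex.ofReal_inv, div_eq_inv_mul]
  simp only [e]
  rw [integral_div, Measure.integral_comp_inv_smul_of_nonneg volume eta hl.le,
    Complex.finrank_real_complex]
  have : ∫ y, eta y = 1 := by
    unfold eta
    rw [integral_div, div_self bump_int.ne']
  rw [this, smul_eq_mul, mul_one, div_self (by positivity)]

theorem int_etas {l : ℝ} (hl : 0 < l) : ∫ y, etas l y = 1 := by
  unfold etas
  rw [integral_complex_ofReal, int_re hl, Complex.ofReal_one]

theorem int_norm {l : ℝ} (hl : 0 < l) : ∫ y, ‖etas l y‖ = 1 := by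
  rw [← int_re hl]
  refine integral_congr_ae (Eventually.of_forall fun y => ?_)
  show ‖etas l y‖ = _
  rw [etas, Complex.norm_real, Real.norm_eq_abs,
    abs_of_nonneg (div_nonneg (eta_nonneg _) (sq_nonneg _))]

theorem intg {l : ℝ} (hl : 0 < l) {f : ℂ → ℂ} (hf : Continuous f) :
    Integrable fun y => etas l y * f y :=
  ((etas_smooth l).continuous.mul hf).integrable_of_hasCompactSupport (etas_supp hl).mul_right

/-- Minkowski's inequality for averages -/
theorem mink {l c : ℝ} (hl : 0 < l) {G : ℂ → ℂ → ℂ} (hG : Continuous fun p : ℂ × ℂ => G p.1 p.2)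
    (hc : ∀ y, ‖y‖ ≤ l → IQ (fun x => ‖G x y‖) ≤ c) :
    IQ (fun x => ‖∫ y, etas l y * G x y‖) ≤ c := by
  have hcont : Continuous fun p : ℂ × ℂ => ‖etas l p.2‖ * ‖G p.1 p.2‖ :=
    ((etas_smooth l).continuous.comp continuous_snd).norm.mul hG.norm
  have h1 : IntegrableOn (fun p : ℂ × ℂ => ‖etas l p.2‖ * ‖G p.1 p.2‖) (cell ×ˢ univ)
      (volume.prod volume) := by
    refine (hcont.continuousOn.integrableOn_compact
      ((isCompact_closedBall (0 : ℂ) 1).prod (isCompact_closedBall (0 : ℂ) l))).of_forall_sdiff_eq_zero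
      (meas_cell.prod MeasurableSet.univ) fun p hp => ?_
    have : l ≤ ‖p.2‖ := (not_le.1 fun h =>
      hp.2 ⟨cell_sub hp.1.1, mem_closedBall_zero_iff.2 h⟩).le
    rw [etas_zero hl this, norm_zero, zero_mul]
  have h2 : Integrable (Function.uncurry fun x y => ‖etas l y‖ * ‖G x y‖)
      ((volume.restrict cell).prod volume) := by
    rw [IntegrableOn, ← Measure.prod_restrict, Measure.restrict_univ] at h1
    exact h1
  have h3 : Integrable fun y => ‖etas l y‖ * c :=
    ((etas_smooth l).continuous.integrable_of_hasCompactSupport (etas_supp hl)).norm.mul_const c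
  calc IQ (fun x => ‖∫ y, etas l y * G x y‖)
      ≤ ∫ x in cell, ∫ y, ‖etas l y‖ * ‖G x y‖ := by
        refine integral_mono_of_nonneg (Eventually.of_forall fun _ => norm_nonneg _)
          h2.integral_prod_left (Eventually.of_forall fun x => ?_)
        simpa only [norm_mul] using norm_integral_le_integral_norm fun y => etas l y * G x y
    _ = ∫ y, ∫ x in cell, ‖etas l y‖ * ‖G x y‖ := integral_integral_swap h2
    _ ≤ ∫ y, ‖etas l y‖ * c := by
        refine integral_mono_of_nonneg (Eventually.of_forall fun _ =>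
          integral_nonneg fun _ => by positivity) h3 (Eventually.of_forall fun y => ?_)
        show ∫ x in cell, ‖etas l y‖ * ‖G x y‖ ≤ ‖etas l y‖ * c
        rw [integral_const_mul]
        by_cases hy : ‖y‖ ≤ l
        · exact mul_le_mul_of_nonneg_left (hc y hy) (norm_nonneg _)
        · rw [etas_zero hl (not_le.1 hy).le, norm_zero, zero_mul, zero_mul]
    _ = c := by rw [integral_mul_const, int_norm hl, one_mul]

theorem sm {q : ℝ → ℂ → ℂ} {l : ℝ} (hq : Sm q) (hl : 0 < l) : Sm fun t => mol l (q t) := by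
  have h := contDiffOn_convolution_right_with_param_comp (𝕜 := ℝ) (n := ⊤) (μ := volume)
    (ContinuousLinearMap.mul ℝ ℂ) (s := (univ : Set (ℝ × ℂ))) (v := fun _ => (0 : ℂ))
    contDiffOn_const (f := fun _ : ℂ => (1 : ℂ))
    (g := fun (p : ℝ × ℂ) (y : ℂ) => etas l y * q p.1 (p.2 + y)) (k := Metric.closedBall 0 l)
    isOpen_univ (isCompact_closedBall _ _)
    (fun p y _ hy => by
      rw [etas_zero hl (not_le.1 fun h => hy (mem_closedBall_zero_iff.2 h)).le, zero_mul])
    (locallyIntegrable_const _)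
    (ContDiff.contDiffOn (((etas_smooth l).comp contDiff_snd).mul
      (hq.comp (f := fun z : (ℝ × ℂ) × ℂ => (z.1.1, z.1.2 + z.2)) (by fun_prop))))
  rw [contDiffOn_univ] at h
  have e : (fun p : ℝ × ℂ => mol l (q p.1) p.2) = fun p : ℝ × ℂ => convolution (fun _ : ℂ => (1 : ℂ))
      (fun y => etas l y * q p.1 (p.2 + y)) (ContinuousLinearMap.mul ℝ ℂ) volume 0 := by
    funext p
    simp only [mol, convolution, ContinuousLinearMap.mul_apply', one_mul, etas_neg,
      sub_eq_add_neg, zero_add]
  unfold Sm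
  rw [e]
  exact h

theorem IQ_add_le {f g h : ℂ → ℝ} (hf : ∀ x, 0 ≤ f x) (hg : Continuous g) (hh : Continuous h)
    (e : ∀ x, f x ≤ g x + h x) : IQ f ≤ IQ g + IQ h := by
  have i1 : IntegrableOn g cell :=
    (hg.continuousOn.integrableOn_compact (isCompact_closedBall 0 1)).mono_set cell_sub
  have i2 : IntegrableOn h cell :=
    (hh.continuousOn.integrableOn_compact (isCompact_closedBall 0 1)).mono_set cell_sub
  unfold IQ
  rw [← integral_add i1 i2]
  exact integral_mono_of_nonneg (Eventually.of_forall hf) (i1.add i2) (Eventually.of_forall e)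

theorem bes {f : ℂ → ℂ} {l S B : ℝ} (hl : 0 < l) (hf : Continuous f) (hp : Peri f)
    (hm : Continuous (mol l f)) (h : Bes f S B) :
    Bes (fun x => f x - mol l f x) (B * l ^ al / 2) (2 * B) := by
  have hB : 0 ≤ B := by
    have := h.2 1
    rw [norm_one, Real.one_rpow, mul_one] at this
    exact (integral_nonneg fun _ => norm_nonneg _).trans this
  have i1 : ∀ x : ℂ, Integrable fun y => etas l y * f (x - y) := fun x => intg hl (by fun_prop)
  have i2 : ∀ x : ℂ, Integrable fun y => etas l y * f (x + y) := fun x => intg hl (by fun_prop)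
  constructor
  · have e : ∀ x, f x - mol l f x =
        ∫ y, etas l y * (-(1 / 2) * (f (x + y) + f (x - y) - 2 * f x)) := fun x => by
      have a1 : ∫ y, etas l y * f (x + y) = mol l f x := by
        rw [mol, ← integral_neg_eq_self]
        simp only [etas_neg, sub_eq_add_neg]
      have a2 : ∫ y, etas l y * f x = f x := by rw [integral_mul_const, int_etas hl, one_mul]
      have i3 : Integrable fun y => etas l y * f x := intg hl continuous_const
      have a3 : (fun y => etas l y * (-(1 / 2) * (f (x + y) + f (x - y) - 2 * f x))) =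
          fun y => etas l y * f x - (1 / 2) * (etas l y * f (x + y) + etas l y * f (x - y)) := by
        funext y; ring
      have i4 : Integrable fun y => etas l y * f (x + y) + etas l y * f (x - y) := (i2 x).add (i1 x)
      rw [a3, integral_sub i3 (i4.const_mul _), integral_const_mul,
        integral_add (i2 x) (i1 x), a1, a2]
      show _ = f x - 1 / 2 * (mol l f x + mol l f x)
      ring
    simp only [e]
    refine mink hl (by fun_prop) fun y hy => ?_
    have e2 : ∀ x, ‖-(1 / 2) * (f (x + y) + f (x - y) - 2 * f x)‖ =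
        1 / 2 * ‖f (x + y) + f (x - y) - 2 * f x‖ := fun x => by
      rw [norm_mul]; simp
    simp only [e2]
    unfold IQ
    rw [integral_const_mul]
    have b1 : ‖y‖ ^ al ≤ l ^ al := Real.rpow_le_rpow (norm_nonneg _) hy (by norm_num [al])
    have b2 := h.2 y
    have b3 := mul_le_mul_of_nonneg_left b1 hB
    unfold IQ at b2
    linarith
  · intro y
    have e : ∀ x, mol l f (x + y) + mol l f (x - y) - 2 * mol l f x =
        ∫ w, etas l w * (f (x - w + y) + f (x - w - y) - 2 * f (x - w)) := fun x => by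
      have a3 : (fun w => etas l w * (f (x - w + y) + f (x - w - y) - 2 * f (x - w))) =
          fun w => etas l w * f (x + y - w) + etas l w * f (x - y - w) -
            2 * (etas l w * f (x - w)) := by
        funext w
        rw [show x - w + y = x + y - w by ring, show x - w - y = x - y - w by ring]; ring
      have i4 : Integrable fun w => etas l w * f (x + y - w) + etas l w * f (x - y - w) :=
        (i1 _).add (i1 _)
      rw [a3, integral_sub i4 ((i1 x).const_mul _), integral_const_mul,
        integral_add (i1 _) (i1 _)]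
      rfl
    have b1 : IQ (fun x => ‖mol l f (x + y) + mol l f (x - y) - 2 * mol l f x‖) ≤ B * ‖y‖ ^ al := by
      simp only [e]
      refine mink hl (by fun_prop) fun w _ => le_trans (le_of_eq ?_) (h.2 y)
      refine shift (g := fun x => ‖f (x + y) + f (x - y) - 2 * f x‖) (fun n z => ?_) w
      show ‖f (z + lat n + y) + f (z + lat n - y) - 2 * f (z + lat n)‖ = _
      rw [add_right_comm z, add_sub_right_comm z, hp, hp, hp]
    have b2 := IQ_add_le
      (f := fun x => ‖f (x + y) - mol l f (x + y) + (f (x - y) - mol l f (x - y)) -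
        2 * (f x - mol l f x)‖)
      (g := fun x => ‖f (x + y) + f (x - y) - 2 * f x‖)
      (h := fun x => ‖mol l f (x + y) + mol l f (x - y) - 2 * mol l f x‖)
      (fun _ => norm_nonneg _) (by fun_prop) (by fun_prop) fun x => by
        refine le_trans (le_of_eq ?_) (norm_sub_le _ _)
        congr 1; ring
    have b3 := h.2 y
    linarith

end MOL

theorem st_MOL : St_MOL := by
  intro q l hq hl
  have h1 := MOL.sm hq.1 hl
  refine ⟨⟨h1, fun t n z => ?_⟩, fun t S B h => ?_⟩
  · show ∫ y, etas l y * q t (z + lat n - y) = ∫ y, etas l y * q t (z - y)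
    simp only [add_sub_right_comm, hq.2 t n]
  · exact MOL.bes hl (hq.1.continuous.comp (f := fun x : ℂ => (t, x)) (by fun_prop)) (hq.2 t)
      (h1.continuous.comp (f := fun x : ℂ => (t, x)) (by fun_prop)) h

end Pool.Agent.Lib.EUL
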