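import Pool.Agent.Lib.EUL.Blue

set_option autoImplicit false

namespace Pool.Agent.Lib.EUL

open MeasureTheory Set Filter Topology
open scoped ContDiff Classical

namespace NEWD

lemma intOn {f : ℂ → ℝ} (hf : Continuous f) : IntegrableOn f cell := by
  refine (hf.continuousOn.integrableOn_compact (isCompact_closedBall (0 : ℂ) 1)).mono_set ?_
  intro z hz
  rw [mem_closedBall_zero_iff]
  refine (Complex.norm_le_abs_re_add_abs_im z).trans ?_
  have h1 : |z.re| ≤ 1 / 2 := abs_le.2 ⟨by linarith [hz.1.1], hz.1.2⟩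
  have h2 : |z.im| ≤ 1 / 2 := abs_le.2 ⟨by linarith [hz.2.1], hz.2.2⟩
  linarith

lemma IQ_two {f g h : ℂ → ℝ} (hf : Continuous f) (hg : Continuous g) (hh : Continuous h)
    (f0 : ∀ x, 0 ≤ f x) (H : ∀ x, f x ≤ g x + h x) :
    IQ (fun x => f x ^ 2) ≤ 2 * IQ (fun x => g x ^ 2) + 2 * IQ (fun x => h x ^ 2) := by
  have i1 := (intOn (f := fun x => g x ^ 2) (hg.pow 2)).const_mul 2
  have i2 := (intOn (f := fun x => h x ^ 2) (hh.pow 2)).const_mul 2
  unfold IQ
  rw [← integral_const_mul, ← integral_const_mul, ← integral_add i1 i2]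
  refine integral_mono (intOn (hf.pow 2)) (i1.add i2) fun x => ?_
  have := pow_le_pow_left₀ (f0 x) (H x) 2
  show f x ^ 2 ≤ 2 * g x ^ 2 + 2 * h x ^ 2
  nlinarith [sq_nonneg (g x - h x)]

lemma sm_slice {f : ℝ → ℂ → ℂ} (h : Sm f) (t : ℝ) : ContDiff ℝ ∞ (f t) :=
  ContDiff.comp (g := fun p : ℝ × ℂ => f p.1 p.2) (f := fun y : ℂ => (t, y)) h
    (contDiff_const.prodMk contDiff_id)

lemma cont_nD {f : ℂ → ℂ} (h : ContDiff ℝ ∞ f) (k : ℕ) : Continuous (nD k f) :=
  (h.continuous_iteratedFDeriv (by exact_mod_cast le_top)).norm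

lemma nD_add {f g : ℂ → ℂ} (hf : ContDiff ℝ ∞ f) (hg : ContDiff ℝ ∞ g) (k : ℕ) (x : ℂ) :
    nD k (fun y => f y + g y) x ≤ nD k f x + nD k g x := by
  unfold nD
  rw [show (fun y => f y + g y) = f + g from rfl, iteratedFDeriv_add_apply
    (hf.of_le (by exact_mod_cast le_top)).contDiffAt (hg.of_le (by exact_mod_cast le_top)).contDiffAt]
  exact norm_add_le _ _

lemma sp_sum {β : Type} [Fintype β] {f : β → ℝ → ℂ → ℂ} (h : ∀ i, SP (f i)) :
    SP fun t y => ∑ i, f i t y :=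
  ⟨ContDiff.sum fun i _ => (h i).1, fun t n z => Finset.sum_congr rfl fun i _ => (h i).2 t n z⟩

lemma sp_add {f g : ℝ → ℂ → ℂ} (hf : SP f) (hg : SP g) : SP fun t y => f t y + g t y :=
  ⟨ContDiff.add hf.1 hg.1, fun t n z => by
    show f t _ + g t _ = _
    rw [hf.2 t n z, hg.2 t n z]⟩

lemma actf_cont (c T : ℝ) : Continuous (actf c T) := by
  unfold actf; fun_prop

lemma actf_nonneg (c T t : ℝ) : 0 ≤ actf c T t := le_max_left _ _

lemma actf_le (c T t : ℝ) : actf c T t ≤ 1 := max_le zero_le_one (min_le_left _ _)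

lemma actf_one {c T t : ℝ} (hT : 0 < T) (h : |t - c| ≤ T) : actf c T t = 1 := by
  have : |t - c| / T ≤ 1 := (div_le_one hT).2 h
  unfold actf
  rw [min_eq_left (by linarith), max_eq_right zero_le_one]

lemma actf_ne {c T t : ℝ} (hT : 0 < T) (h : actf c T t ≠ 0) : |t - c| ≤ 2 * T := by
  by_contra hc
  have : 2 < |t - c| / T := (lt_div_iff₀ hT).2 (not_le.1 hc)
  exact h (max_eq_left ((min_le_right _ _).trans (by linarith)))

lemma one_le_lg (r : ℝ) : 1 ≤ lg r := le_add_of_nonneg_right (abs_nonneg _)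

lemma mult_mono {ι : Type} [Fintype ι] {P Q : ι → Prop} {p : ι → ℂ} {r r' M : ℝ}
    (h : Mult P p r M) (hQ : ∀ i, Q i → P i) (hr : r' ≤ r) : Mult Q p r' M := fun y =>
  le_trans (Nat.cast_le.2 (Finset.card_le_card fun i hi => by
    simp only [Finset.mem_filter, Finset.mem_univ, true_and] at hi ⊢
    exact ⟨hQ i hi.1, hi.2.trans hr⟩)) (h y)

lemma mult_sum {ι β : Type} [Fintype ι] [Fintype β] {P : ι ⊕ β → Prop} {p : ι ⊕ β → ℂ}
    {r M M' : ℝ} (h : Mult (fun i => P (.inl i)) (fun i => p (.inl i)) r M)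
    (h' : Mult (fun i => P (.inr i)) (fun i => p (.inr i)) r M') : Mult P p r (M + M') := by
  intro y
  have h1 := h y
  have h2 := h' y
  rw [Finset.card_filter] at h1 h2 ⊢
  rw [Fintype.sum_sum_type]
  push_cast at h1 h2 ⊢
  linarith

lemma sum_act {β : Type} [Fintype β] {a u : β → ℝ} {P : β → Prop} (a0 : ∀ i, 0 ≤ a i)
    (a1 : ∀ i, a i ≤ 1) (hP : ∀ i, a i ≠ 0 → P i) :
    ∑ i, (a i * u i) ^ 2 ≤ ∑ i ∈ Finset.univ.filter P, u i ^ 2 := by
  rw [Finset.sum_filter]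
  refine Finset.sum_le_sum fun i _ => ?_
  by_cases h : a i = 0
  · rw [h]
    split_ifs
    · simpa using sq_nonneg (u i)
    · simp
  · rw [if_pos (hP i h), mul_pow]
    exact mul_le_of_le_one_left (sq_nonneg _) (pow_le_one₀ (a0 i) (a1 i))

lemma sq_two {a x y z : ℝ} (ha : 0 ≤ a) (hx : 0 ≤ x) (h : x ≤ y + z) :
    (a * x) ^ 2 ≤ 2 * (a * y) ^ 2 + 2 * (a * z) ^ 2 := by
  have := pow_le_pow_left₀ (mul_nonneg ha hx) (mul_le_mul_of_nonneg_left h ha) 2
  nlinarith [sq_nonneg (a * y - a * z)]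

lemma sq_three {a x y z w : ℝ} (ha : 0 ≤ a) (hx : 0 ≤ x) (h : x ≤ y + z + w) :
    (a * x) ^ 2 ≤ 3 * (a * y) ^ 2 + 3 * (a * z) ^ 2 + 3 * (a * w) ^ 2 := by
  have := pow_le_pow_left₀ (mul_nonneg ha hx) (mul_le_mul_of_nonneg_left h ha) 2
  nlinarith [sq_nonneg (a * y - a * z), sq_nonneg (a * y - a * w), sq_nonneg (a * z - a * w)]

/-- the new dipoles as obstacles -/
noncomputable def nob {β : Type} (B : BD β) (P : Par) (i : β) : Ob :=
  ⟨B.s i, B.e i, actf (B.tb i) (B.Tb i), P.G ^ 2 * B.u P i, P.rho, B.x i, B.w i⟩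

end NEWD

open NEWD in
theorem st_NEWD (hN : St_NMAJ) (hM : St_MJ) : St_NEWD := by
  obtain ⟨C, hC, hN⟩ := hN
  obtain ⟨m1, m2, m3, m4, m5⟩ := hM
  refine ⟨max C 4, hC.trans (le_max_left _ _), ?_⟩
  intro P v q V ι _ o a b β _ B hP hD hB
  have hlg := one_le_lg P.rho
  have hG : 4 ≤ P.G := by
    have := hP.big
    have h4 := le_max_right C 4
    nlinarith
  have hP' : P.OK C := { hP with
    big := (mul_le_mul_of_nonneg_right (le_max_left C 4) (by linarith)).trans hP.big }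
  obtain ⟨nb, nw, nm⟩ := hN P v q ι o a b β B hP' hB
  have hr := hP.rpos
  have hS := hP.Spos
  have hn := hP.n1
  have hDp : 0 < P.D := hr.trans_le hP.rD
  have hDd : P.D ≤ P.d := by linarith [hP.Dd2, hP.d2d]
  have hd : 0 < P.d := hDp.trans_le hDd
  have hdl : P.d ≤ P.l := by nlinarith [hP.dh, hP.hl]
  have hl : 0 < P.l := hd.trans_le hdl
  have hl4 : P.l ≤ 1 / 4 := by linarith [hP.lsmall]
  have hrd : P.rho ≤ P.d := hP.rD.trans hDd
  have hrl : P.rho ≤ P.l := hrd.trans hdl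
  have hG1 : 1 ≤ P.G := by linarith
  have hT0 : 0 ≤ P.T0 := div_nonneg hP.thpos.le (Real.sqrt_nonneg _)
  have hq : 0 < P.S / P.rho ^ 2 := by positivity
  set X := P.G ^ 12 * P.bt ^ 2 * P.l ^ 2 * P.S / P.rho ^ 2 with hX
  have hXS : X ≤ P.S := by
    rw [hX, div_le_iff₀ (by positivity)]
    nlinarith [hP.corr]
  have hXd : X / P.d ^ 2 ≤ P.S / P.rho ^ 2 :=
    div_le_div₀ hS.le hXS (by positivity) (pow_le_pow_left₀ hr.le hrd 2)
  have hXl : X / P.l ^ 2 ≤ P.S / P.rho ^ 2 :=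
    div_le_div₀ hS.le hXS (by positivity) (pow_le_pow_left₀ hr.le hrl 2)
  have hXY : X / P.d ^ 2 ≤ P.Y := by
    refine div_le_div₀ hS.le hXS (by positivity) (pow_le_pow_left₀ (by positivity) ?_ 2)
    have h1 : 0 ≤ P.n * P.rho := by positivity
    nlinarith [hP.rd]
  have hWb : SP B.Wb := sp_sum hB.wbsp
  have hW : SP B.W := sp_sum hB.wsp
  have hu : ∀ i, 0 ≤ B.u P i := fun i => by
    have := hB.Tpos i
    have := hP.thpos
    unfold BD.u Par.Lam
    positivity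
  have hact : ∀ i t, actf (B.tb i) (B.Tb i) t ≠ 0 → B.act i t := fun i t h =>
    actf_ne (hB.Tpos i) h
  have hlife : ∀ i, a - 2 * P.T0 ≤ B.tb i - B.Tb i ∧ B.tb i + B.Tb i ≤ b + 2 * P.T0 := fun i => by
    have := hB.tmem i
    have := hB.Tle i
    constructor <;> linarith [(hB.tmem i).1, (hB.tmem i).2]
  have hsumU : ∀ t, ∑ i, (actf (B.tb i) (B.Tb i) t * B.u P i) ^ 2 ≤
      P.G ^ 5 * P.S / P.rho ^ 2 := fun t =>
    (sum_act (fun i => actf_nonneg _ _ _) (fun i => actf_le _ _ _) fun i => hact i t).trans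
      (hB.sumU t)
  have hmo : ∀ t, Mult (fun i => (o i).a t ≠ 0) (fun i => (o i).x t) P.l P.G := fun t =>
    mult_mono (hD.mult t) (fun _ h => h) (by linarith)
  have hmn : ∀ t, Mult (fun i => actf (B.tb i) (B.Tb i) t ≠ 0) (fun i => B.x i t) P.l P.G :=
    fun t => mult_mono (nm t) (fun i => hact i t) le_rfl
  have pG : ∀ j k : ℕ, j ≤ k → P.G ^ j ≤ P.G ^ k := fun j k h => pow_le_pow_right₀ hG1 h
  refine ⟨⟨ι ⊕ β, inferInstance, Sum.elim o (nob B P), fun t y => V t y + B.Wb t y,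
    sp_add hD.Vsp hWb, ?_, ?_, ?_, ?_, ?_, ?_, ?_, ?_, ?_, ?_⟩, ?_⟩
  · intro t ht x
    have h1 : V t x = 0 := hD.Vts t (fun h => ht ⟨by linarith [h.1], by linarith [h.2]⟩) x
    have h2 : B.Wb t x = 0 := Finset.sum_eq_zero fun i _ => hB.wbts i t
      (fun h => ht ⟨(hlife i).1.trans h.1, h.2.trans (hlife i).2⟩) x
    show V t x + B.Wb t x = 0
    rw [h1, h2, add_zero]
  · intro t x
    rw [Fintype.sum_sum_type, hD.eq t x]
    simp only [Sum.elim_inl, Sum.elim_inr, nob, BD.W]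
    ring
  · refine m1 _ P.l P.D _ _ _ _ (m2 V B.Wb P.l P.D _ _ hD.Vsp.1 hWb.1 hl.le hDp.le hD.maj
      (m3 _ _ _ _ _ nb hd hDp.le hDd)) (by linarith) hDp.le le_rfl (by linarith)
  · rintro (i | i)
    · exact hD.good i
    · refine ⟨(hB.life i).2.1, actf_cont _ _, actf_nonneg _ _, actf_le _ _, fun t ht => ?_,
        mul_nonneg (by positivity) (hu i), hr, hB.xsm i, hB.wsp i, hB.wts i, hB.env i⟩
      refine actf_one (hB.Tpos i) (abs_le.2 ⟨?_, ?_⟩)
      · linarith [(hB.life i).1, show B.s i ≤ t from ht.1]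
      · linarith [(hB.life i).2.2, show t ≤ B.e i from ht.2]
  · rintro (i | i)
    · exact ⟨(show a - 2 * P.T0 ≤ a by linarith).trans (hD.life i).1,
        (hD.life i).2.trans (show b ≤ b + 2 * P.T0 by linarith)⟩
    · exact ⟨(hlife i).1.trans (hB.life i).1, (hB.life i).2.2.trans (hlife i).2⟩
  · rintro (i | i)
    · exact hD.size i
    · exact ⟨le_rfl, hP.rD⟩
  · rintro (i | i)
    · exact hD.long i
    · show P.D ≤ P.G ^ 2 * B.u P i * (B.e i - B.s i)
      have h1 := hB.long i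
      have h2 : 1 ≤ P.G ^ 2 := one_le_pow₀ hG1
      rw [mul_assoc]
      nlinarith
  · intro t
    rw [show 60 * (P.l / 60) = P.l by ring, two_mul]
    exact mult_sum (hmo t) (hmn t)
  · intro t
    rw [Fintype.sum_sum_type, two_mul]
    refine add_le_add (hD.xi t) ?_
    simp only [Sum.elim_inr, nob]
    rw [← Finset.sum_mul]
    have h1 : ∑ i, (actf (B.tb i) (B.Tb i) t * (P.G ^ 2 * B.u P i)) ^ 2 =
        P.G ^ 4 * ∑ i, (actf (B.tb i) (B.Tb i) t * B.u P i) ^ 2 := by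
      rw [Finset.mul_sum]
      exact Finset.sum_congr rfl fun i _ => by ring
    have h2 : P.rho ^ (2 - al) = P.rho ^ 2 / P.rho ^ al := by
      rw [Real.rpow_sub hr, Real.rpow_two]
    have h3 : 0 < P.rho ^ al := Real.rpow_pos_of_pos hr _
    rw [h1, h2]
    refine (mul_le_mul_of_nonneg_right (mul_le_mul_of_nonneg_left (hsumU t) (by positivity))
      (by positivity)).trans ?_
    have h4 : P.G ^ 4 * (P.G ^ 5 * P.S / P.rho ^ 2) * (P.rho ^ 2 / P.rho ^ al) =
        P.G ^ 9 * P.S / P.rho ^ al := by field_simp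
    rw [h4, Par.Xi]
    exact div_le_div_of_nonneg_right (mul_le_mul_of_nonneg_right (pG 9 10 (by norm_num)) hS.le)
      h3.le
  · intro t
    obtain ⟨g1, -, hg1⟩ := nb
    obtain ⟨g2, -, hg2⟩ := hB.far
    have e1 := m4 _ _ _ _ _ _ ι (fun i => (o i).a t) (fun i => (o i).x t) (hg1 t) hl hl4
      (fun i => (hD.good i).a0 t) (fun i => (hD.good i).a1 t) (hmo t)
    have e2 := m4 _ _ _ _ _ _ β (fun i => actf (B.tb i) (B.Tb i) t) (fun i => B.x i t) (hg1 t) hl
      hl4 (fun i => actf_nonneg _ _ _) (fun i => actf_le _ _ _) (hmn t)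
    have e3 := m4 _ _ _ _ _ _ β (fun i => actf (B.tb i) (B.Tb i) t) (fun i => B.x i t) (hg2 t) hl
      hl4 (fun i => actf_nonneg _ _ _) (fun i => actf_le _ _ _) (hmn t)
    have e4 : P.G * X / P.l ^ 2 ≤ P.G * (P.S / P.rho ^ 2) := by
      rw [mul_div_assoc]
      exact mul_le_mul_of_nonneg_left hXl (by linarith)
    have e5 : P.G * (P.G ^ 16 * P.l ^ 2 * P.D ^ (al - 2) * P.S / P.rho ^ al) / P.l ^ 2 ≤
        P.G ^ 17 * (P.S / P.rho ^ 2) := by
      have h1 : P.D ^ (al - 2) ≤ P.rho ^ (al - 2) :=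
        Real.rpow_le_rpow_of_nonpos hr hP.rD (by unfold al; norm_num)
      have h3 : 0 < P.rho ^ al := Real.rpow_pos_of_pos hr _
      rw [Real.rpow_sub hr, Real.rpow_two] at h1
      have h4 : P.G * (P.G ^ 16 * P.l ^ 2 * P.D ^ (al - 2) * P.S / P.rho ^ al) / P.l ^ 2 =
          P.G ^ 17 * P.S / P.rho ^ al * P.D ^ (al - 2) := by field_simp
      have h5 : P.G ^ 17 * (P.S / P.rho ^ 2) =
          P.G ^ 17 * P.S / P.rho ^ al * (P.rho ^ al / P.rho ^ 2) := by field_simp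
      rw [h4, h5]
      exact mul_le_mul_of_nonneg_left h1 (by positivity)
    have f1 : ∑ i, ((o i).a t * ‖deriv (o i).x t - (V t ((o i).x t) + B.Wb t ((o i).x t))‖) ^ 2 ≤
        2 * ∑ i, ((o i).a t * ‖deriv (o i).x t - V t ((o i).x t)‖) ^ 2 +
          2 * ∑ i, ((o i).a t * ‖B.Wb t ((o i).x t)‖) ^ 2 := by
      rw [Finset.mul_sum, Finset.mul_sum, ← Finset.sum_add_distrib]
      refine Finset.sum_le_sum fun i _ => sq_two ((hD.good i).a0 t) (norm_nonneg _) ?_
      rw [← sub_sub]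
      exact norm_sub_le _ _
    have f2 : ∑ i, (actf (B.tb i) (B.Tb i) t *
        ‖deriv (B.x i) t - (V t (B.x i t) + B.Wb t (B.x i t))‖) ^ 2 ≤
        3 * ∑ i, (actf (B.tb i) (B.Tb i) t * B.u P i) ^ 2 +
          3 * ∑ i, (actf (B.tb i) (B.Tb i) t * ‖Ot o P.D t (B.x i t)‖) ^ 2 +
          3 * ∑ i, (actf (B.tb i) (B.Tb i) t * ‖B.Wb t (B.x i t)‖) ^ 2 := by
      rw [Finset.mul_sum, Finset.mul_sum, Finset.mul_sum, ← Finset.sum_add_distrib,
        ← Finset.sum_add_distrib]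
      refine Finset.sum_le_sum fun i _ => sq_three (actf_nonneg _ _ _) (norm_nonneg _) ?_
      have h1 : deriv (B.x i) t - (V t (B.x i t) + B.Wb t (B.x i t)) =
          (deriv (B.x i) t - Vh v o P.D t (B.x i t)) + Ot o P.D t (B.x i t) -
            B.Wb t (B.x i t) := by
        unfold Vh Ot
        rw [hD.eq t]
        ring
      rw [h1]
      exact (norm_sub_le _ _).trans (add_le_add_left ((norm_add_le _ _).trans
        (add_le_add_left (hB.xdrift i t) _)) _)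
    have f3 := hD.drift t
    have f4 := hsumU t
    rw [Par.Z, mul_div_assoc] at f3
    rw [mul_div_assoc] at f4
    rw [Fintype.sum_sum_type, mul_div_assoc]
    simp only [Sum.elim_inl, Sum.elim_inr, nob]
    have p1 := mul_le_mul_of_nonneg_right (pG 10 17 (by norm_num)) hq.le
    have p2 := mul_le_mul_of_nonneg_right (pG 5 17 (by norm_num)) hq.le
    have p3 := mul_le_mul_of_nonneg_right (pG 1 17 (by norm_num)) hq.le
    have p4 : 13 * P.G ^ 17 ≤ P.G ^ 19 := by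
      have : 0 < P.G ^ 17 := by positivity
      rw [show P.G ^ 19 = P.G ^ 2 * P.G ^ 17 by ring]
      exact mul_le_mul_of_nonneg_right (by nlinarith) this.le
    have p5 := mul_le_mul_of_nonneg_right p4 hq.le
    rw [pow_one] at p3
    linarith
  · intro t
    obtain ⟨g1, -, hg1⟩ := nb
    obtain ⟨g2, -, hg2⟩ := nw
    have s1 := sm_slice hW.1 t
    have s2 := sm_slice hWb.1 t
    obtain ⟨a1, a2, a3⟩ := m5 _ _ _ _ _ s1 (hg2 t) hr (hrl.trans hl4) hr
    obtain ⟨b1, b2, b3⟩ := m5 _ _ _ _ _ s2 (hg1 t) hl hl4 hd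
    have hA : (P.G ^ 7 * √P.S) ^ 2 = P.G ^ 14 * P.S := by
      rw [mul_pow, Real.sq_sqrt hS.le]; ring
    have p1 : 2 * P.G ^ 13 + 2 ≤ P.G ^ 14 := by
      have h1 : 1 ≤ P.G ^ 13 := one_le_pow₀ hG1
      rw [show P.G ^ 14 = P.G * P.G ^ 13 by ring]
      nlinarith
    have p2 := mul_le_mul_of_nonneg_right p1 hS.le
    have p3 := mul_le_mul_of_nonneg_right p1 hq.le
    rw [mul_div_assoc] at a2
    refine ⟨?_, ?_, fun x => ?_⟩
    · have := IQ_two (s1.continuous.add s2.continuous).norm s1.continuous.norm s2.continuous.norm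
        (fun x => norm_nonneg _) fun x => norm_add_le _ _
      rw [hA]
      refine le_trans this ?_
      linarith
    · have := IQ_two (cont_nD (s1.add s2) 1) (cont_nD s1 1) (cont_nD s2 1)
        (fun x => norm_nonneg _) fun x => nD_add s1 s2 1 x
      rw [hA, mul_div_assoc]
      refine le_trans this ?_
      linarith
    · refine le_of_sq_le_sq ?_ (by positivity)
      have h1 := a3 x
      have h2 := b3 x
      have h3 := sq_two zero_le_one (norm_nonneg _) (norm_add_le (B.W t x) (B.Wb t x))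
      rw [mul_div_assoc] at h1
      rw [div_pow, hA, mul_div_assoc]
      simp only [one_mul] at h3
      linarith

end Pool.Agent.Lib.EUL
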