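import Pool.Agent.Lib.EUL.Blue

set_option autoImplicit false

open MeasureTheory Set Filter Topology
open scoped ContDiff Classical

namespace Pool.Agent.Lib.EUL.NUM

noncomputable section

/-- a power of the basic large number -/
def E (a t : ℝ) : ℝ := Real.exp (a * t)

theorem E_pos (a t : ℝ) : 0 < E a t := Real.exp_pos _

theorem E_mul (a b t : ℝ) : E a t * E b t = E (a + b) t := by
  unfold E; rw [← Real.exp_add]; congr 1; ring

theorem E_div (a b t : ℝ) : E a t / E b t = E (a - b) t := by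
  unfold E; rw [← Real.exp_sub]; congr 1; ring

theorem E_pow (a t : ℝ) (n : ℕ) : E a t ^ n = E (n * a) t := by
  unfold E; rw [← Real.exp_nat_mul]; congr 1; ring

theorem E_rpow (a t y : ℝ) : E a t ^ y = E (a * y) t := by
  unfold E; rw [← Real.exp_mul]; congr 1; ring

theorem E_sqrt (a t : ℝ) : √(E a t) = E (a / 2) t := by
  unfold E; rw [← Real.exp_half]; congr 1; ring

theorem E_sc (a b t : ℝ) : E a (b * t) = E (a * b) t := by
  unfold E; congr 1; ring

theorem E_zero (t : ℝ) : E 0 t = 1 := by unfold E; simp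

theorem E_le {a b t : ℝ} (ht : 0 ≤ t) (h : a ≤ b) : E a t ≤ E b t :=
  Real.exp_le_exp.2 (mul_le_mul_of_nonneg_right h ht)

theorem E_le_one {a t : ℝ} (ht : 0 ≤ t) (h : a ≤ 0) : E a t ≤ 1 := by
  rw [← E_zero t]; exact E_le ht h

theorem one_le_E {a t : ℝ} (ht : 0 ≤ t) (h : 0 ≤ a) : 1 ≤ E a t := by
  rw [← E_zero t]; exact E_le ht h

def gam : ℝ := 1 / 10 ^ 13
def gg : ℝ := 1 / 10 ^ 6
def bb : ℝ := 1 + 1 / 10 ^ 7

theorem key {a b c t : ℝ} (ht : 0 ≤ t) (hc : c ≤ E gam t) (h : gam + a ≤ b) :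
    c * E a t ≤ E b t :=
  calc c * E a t ≤ E gam t * E a t := mul_le_mul_of_nonneg_right hc (E_pos _ _).le
    _ = E (gam + a) t := E_mul _ _ _
    _ ≤ E b t := E_le ht h

/-- the parameters of a stage -/
def PP (t : ℝ) : Par where
  l := E (-1000) t
  rho := E (-1004) t
  D := E (-2001 / 2) t
  d := E (-1000 - 4 / 1000) t
  h := E (-1000 - 1 / 1000) t
  d2 := E (-1000 - 1 / 100) t
  th0 := E (-54 / 100) t
  kap := E (1000 - 101 / 100) t
  f := E (-6 / 1000) t
  e1 := E (-11) t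
  n := E 1 t
  G := E gg t
  S := E (-1110) t

/-- largeness of the logarithm -/
structure Big (C t : ℝ) : Prop where
  C1 : 1 ≤ C
  t1 : 10 ^ 7 ≤ t
  w : 10 ^ 5 * C ^ 2 * (1 + 2000 * t) ^ 2 ≤ E gam t

theorem exists_big {C : ℝ} (hC : 1 ≤ C) : ∃ t0 : ℝ, ∀ t, t0 ≤ t → Big C t := by
  refine ⟨max (10 ^ 7) (6 * (10 ^ 5 * C ^ 2 * 2001 ^ 2) / gam ^ 3), fun t ht => ?_⟩
  have h1 : (10 : ℝ) ^ 7 ≤ t := le_trans (le_max_left _ _) ht
  have h2 : 6 * (10 ^ 5 * C ^ 2 * 2001 ^ 2) / gam ^ 3 ≤ t := le_trans (le_max_right _ _) ht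
  have hg : 0 < gam := by unfold gam; positivity
  have ht0 : 0 ≤ t := le_trans (by norm_num) h1
  refine ⟨hC, h1, ?_⟩
  have h3 := Real.pow_div_factorial_le_exp (gam * t) (by positivity) 3
  rw [div_le_iff₀ (by positivity)] at h2
  have h4 : (1 + 2000 * t) ^ 2 ≤ (2001 * t) ^ 2 :=
    pow_le_pow_left₀ (by positivity) (by linarith) 2
  have h5 : ((Nat.factorial 3 : ℕ) : ℝ) = 6 := by norm_num [Nat.factorial]
  rw [h5] at h3
  calc 10 ^ 5 * C ^ 2 * (1 + 2000 * t) ^ 2 ≤ 10 ^ 5 * C ^ 2 * (2001 * t) ^ 2 :=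
        mul_le_mul_of_nonneg_left h4 (by positivity)
    _ = (6 * (10 ^ 5 * C ^ 2 * 2001 ^ 2)) * (t ^ 2 / 6) := by ring
    _ ≤ (t * gam ^ 3) * (t ^ 2 / 6) := mul_le_mul_of_nonneg_right h2 (by positivity)
    _ = (gam * t) ^ 3 / 6 := by ring
    _ ≤ E gam t := h3

theorem Big.t0 {C t : ℝ} (h : Big C t) : 0 ≤ t := le_trans (by norm_num) h.t1

theorem Big.cw {C t : ℝ} (h : Big C t) {c x : ℝ} (hc : c ≤ 10 ^ 5) (hx0 : 0 ≤ x)
    (hx : x ≤ 1 + 2000 * t) : c * C ^ 2 * x ^ 2 ≤ E gam t := by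
  refine le_trans ?_ h.w
  have h1 : x ^ 2 ≤ (1 + 2000 * t) ^ 2 := pow_le_pow_left₀ hx0 hx 2
  have h2 : c * C ^ 2 ≤ 10 ^ 5 * C ^ 2 := mul_le_mul_of_nonneg_right hc (by positivity)
  exact mul_le_mul h2 h1 (by positivity) (by positivity)

theorem Big.cC {C t : ℝ} (h : Big C t) {c x : ℝ} (hc0 : 0 ≤ c) (hc : c ≤ 10 ^ 5) (hx0 : 0 ≤ x)
    (hx : x ≤ 1 + 2000 * t) : c * C * x ^ 2 ≤ E gam t := by
  refine le_trans ?_ (h.cw hc hx0 hx)
  have h1 : C ≤ C ^ 2 := by nlinarith [h.C1]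
  exact mul_le_mul_of_nonneg_right (mul_le_mul_of_nonneg_left h1 hc0) (by positivity)

theorem Big.c {C t : ℝ} (h : Big C t) {c : ℝ} (hc0 : 0 ≤ c) (hc : c ≤ 10 ^ 5) : c ≤ E gam t := by
  refine le_trans ?_ (h.cC hc0 hc zero_le_one (by linarith [h.t0]))
  nlinarith [h.C1]

theorem Big.k {C t : ℝ} (h : Big C t) {a b c : ℝ} (hc0 : 0 ≤ c) (hc : c ≤ 10 ^ 5)
    (hab : gam + a ≤ b) : c * E a t ≤ E b t := key h.t0 (h.c hc0 hc) hab

theorem lg_E {a t : ℝ} (ht : 0 ≤ t) (ha : a ≤ 0) : lg (E a t) = 1 - a * t := by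
  unfold lg E
  rw [Real.log_exp, abs_of_nonpos (mul_nonpos_of_nonpos_of_nonneg ha ht)]
  ring

theorem Lam_eq (t : ℝ) : (PP t).Lam = E (gg - 99954 / 100) t := by
  simp only [Par.Lam, PP, E_mul]; congr 1; ring

theorem bt_eq (t : ℝ) : (PP t).bt = E (gg - 7524 / 1000) t := by
  unfold Par.bt; rw [Lam_eq]; simp only [PP, E_mul, E_pow, E_div]; congr 1; push_cast; ring

theorem Y_eq (t : ℝ) : (PP t).Y = E 896 t := by
  simp only [Par.Y, PP, E_mul, E_pow, E_div]; congr 1; push_cast; ring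

theorem Xi_eq (t : ℝ) : (PP t).Xi = E (10 * gg + 50 / 9) t := by
  simp only [Par.Xi, PP, E_mul, E_pow, E_div, E_rpow, al]; congr 1; push_cast; ring

theorem Z_eq (t : ℝ) : (PP t).Z = E (10 * gg + 898) t := by
  simp only [Par.Z, PP, E_mul, E_pow, E_div]; congr 1; push_cast; ring

theorem ok {C t : ℝ} (h : Big C t) : (PP t).OK C := by
  have ht := h.t0
  have hL := Lam_eq t
  have hb := bt_eq t
  refine ⟨E_pos _ _, E_pos _ _, one_le_E ht zero_le_one, ?_, ?_, ?_, ?_, ?_, ?_, ?_, ?_, E_pos _ _,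
    ?_, E_pos _ _, ?_, E_pos _ _, ?_, E_pos _ _, ?_, ?_, ?_, ?_, ?_, ?_⟩
  · show C * lg (E (-1004) t) ≤ E gg t
    rw [lg_E ht (by norm_num)]
    have h1 := h.cC zero_le_one (by norm_num) (x := 1 - -1004 * t) (by linarith) (by linarith)
    have h2 : E gam t ≤ E gg t := E_le ht (by norm_num [gam, gg])
    have h3 : 1 - -1004 * t ≤ (1 - -1004 * t) ^ 2 := by nlinarith
    have h4 := mul_le_mul_of_nonneg_left h3 (le_trans zero_le_one h.C1)
    linarith
  · exact E_le ht (by norm_num)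
  · exact h.k (by norm_num) (by norm_num) (by norm_num [gam])
  · exact E_le ht (by norm_num)
  · simp only [PP, E_mul]; exact E_le ht (by norm_num [gg])
  · exact E_le ht (by norm_num)
  · have h1 : 10000 * E (-1000) t ≤ E 0 t := h.k (by norm_num) (by norm_num) (by norm_num [gam])
    rw [E_zero] at h1
    show E (-1000) t ≤ 1 / 10000
    linarith
  · simp only [PP, E_mul]; exact E_le ht (by norm_num [gg])
  · simp only [PP, mul_assoc, E_mul]; exact h.k (by norm_num) (by norm_num) (by norm_num [gam])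
  · have h1 : 4 * E (-6 / 1000) t ≤ E 0 t := h.k (by norm_num) (by norm_num) (by norm_num [gam])
    rw [E_zero] at h1
    show E (-6 / 1000) t ≤ 1 / 4
    linarith
  · exact E_le_one ht (by norm_num)
  · rw [hL]; simp only [PP, E_mul]; exact E_le ht (by norm_num [gg])
  · rw [hL]; simp only [PP, E_mul, E_pow]; exact E_le ht (by norm_num [gg])
  · simp only [PP, E_mul, E_pow, E_rpow]; exact E_le_one ht (by norm_num [gg, al])
  · simp only [PP, E_mul, E_pow]; exact E_le_one ht (by norm_num [gg])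
  · rw [hL]
    have e : 2 * ((PP t).G * (PP t).th0 / (PP t).kap + 2 * (PP t).G * (104 * (PP t).l * (PP t).th0
        + 4 * E (gg - 99954 / 100) t)) / (PP t).D + 4 * (PP t).G =
        2 * ((PP t).G * (PP t).th0 / (PP t).kap / (PP t).D)
          + 416 * ((PP t).G * (PP t).l * (PP t).th0 / (PP t).D)
          + 16 * ((PP t).G * E (gg - 99954 / 100) t / (PP t).D) + 4 * (PP t).G := by ring
    have e2 : ((PP t).d2 / (50 * (PP t).D)) ^ 2 = ((PP t).d2 / (PP t).D) ^ 2 / 2500 := by ring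
    rw [e, e2]
    have a1 : (PP t).G * (PP t).th0 / (PP t).kap / (PP t).D ≤ E (975 / 1000) t := by
      simp only [PP, E_mul, E_div]; exact E_le ht (by norm_num [gg])
    have a2 : (PP t).G * (PP t).l * (PP t).th0 / (PP t).D ≤ E (975 / 1000) t := by
      simp only [PP, E_mul, E_div]; exact E_le ht (by norm_num [gg])
    have a3 : (PP t).G * E (gg - 99954 / 100) t / (PP t).D ≤ E (975 / 1000) t := by
      simp only [PP, E_mul, E_div]; exact E_le ht (by norm_num [gg])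
    have a4 : (PP t).G ≤ E (975 / 1000) t := E_le ht (by norm_num [gg])
    have a5 : 500 * E (975 / 1000) t ≤ E (976 / 1000) t :=
      h.k (by norm_num) (by norm_num) (by norm_num [gam])
    have a6 : 2500 * E (976 / 1000) t ≤ ((PP t).d2 / (PP t).D) ^ 2 := by
      simp only [PP, E_div, E_pow]; exact h.k (by norm_num) (by norm_num) (by norm_num [gam])
    have a7 := E_pos (975 / 1000) t
    linarith
  · rw [hb]; simp only [PP, E_mul, E_pow]; exact E_le ht (by norm_num [gg])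

theorem tot_le {t : ℝ} (ht : 0 ≤ t) : (PP t).tot ≤ 18 * E (-1 / 1000) t := by
  unfold Par.tot Gam
  rw [Lam_eq, bt_eq]
  have a1 : (PP t).h / (PP t).l ≤ E (-1 / 1000) t := by
    simp only [PP, E_div]; exact E_le ht (by norm_num)
  have a2 : (PP t).l ^ 3 / (E (gg - 99954 / 100) t * (PP t).d2 ^ 2) * ((PP t).l / (PP t).d) ^ al
      ≤ E (-1 / 1000) t := by
    simp only [PP, E_div, E_mul, E_pow, E_rpow]; exact E_le ht (by norm_num [gg, al])
  have a3 : (PP t).d2 / (PP t).d * ((PP t).l / (PP t).d) ^ al ≤ E (-1 / 1000) t := by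
    simp only [PP, E_div, E_mul, E_rpow]; exact E_le ht (by norm_num [gg, al])
  have a4 : (PP t).f * ((PP t).l / (PP t).d) ^ al ≤ E (-1 / 1000) t := by
    simp only [PP, E_div, E_mul, E_rpow]; exact E_le ht (by norm_num [gg, al])
  have a5 : (PP t).rho / (PP t).d * ((PP t).l / (PP t).d) ^ al ≤ E (-1 / 1000) t := by
    simp only [PP, E_div, E_mul, E_rpow]; exact E_le ht (by norm_num [gg, al])
  have a6 : (PP t).e1 * ((PP t).l / ((PP t).rho * √(PP t).e1)) ^ al ≤ E (-1 / 1000) t := by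
    simp only [PP, E_div, E_mul, E_rpow, E_sqrt]; exact E_le ht (by norm_num [gg, al])
  have a7 : ((PP t).rho / (PP t).d) ^ 2 * ((PP t).l / (PP t).rho) ^ al ≤ E (-1 / 1000) t := by
    simp only [PP, E_div, E_mul, E_rpow, E_pow]; exact E_le ht (by norm_num [gg, al])
  have a8 : (PP t).l * ((PP t).l / (PP t).rho) ^ (al - 1) / ((PP t).f * E (gg - 99954 / 100) t)
      ≤ E (-1 / 1000) t := by
    simp only [PP, E_div, E_mul, E_rpow]; exact E_le ht (by norm_num [gg, al])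
  have a9 : (PP t).d * (PP t).l * ((PP t).l / (PP t).d) ^ (al - 1) / (PP t).h ^ 2
      ≤ E (-1 / 1000) t := by
    simp only [PP, E_div, E_mul, E_rpow, E_pow]; exact E_le ht (by norm_num [gg, al])
  have a10 : ((PP t).l / (PP t).rho) ^ (al - 1) / (PP t).n ≤ E (-1 / 1000) t := by
    simp only [PP, E_div, E_rpow]; exact E_le ht (by norm_num [gg, al])
  have a11 : E (gg - 7524 / 1000) t * ((PP t).l / (PP t).rho) ^ 2 / (PP t).n
      * ((PP t).l / (PP t).d) * ((PP t).l / (PP t).D) ^ (al - 1) ≤ E (-1 / 1000) t := by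
    simp only [PP, E_div, E_mul, E_rpow, E_pow]; exact E_le ht (by norm_num [gg, al])
  have a12 : E (gg - 7524 / 1000) t ^ 2 * ((PP t).l / (PP t).rho) ^ 2
      * ((PP t).l / (PP t).d) ^ al ≤ E (-1 / 1000) t := by
    simp only [PP, E_div, E_mul, E_rpow, E_pow]; exact E_le ht (by norm_num [gg, al])
  have a13 : E (gg - 7524 / 1000) t * ((PP t).l / (PP t).rho) ^ al ≤ E (-1 / 1000) t := by
    simp only [PP, E_div, E_mul, E_rpow]; exact E_le ht (by norm_num [gg, al])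
  have a14 : E (gg - 7524 / 1000) t * (PP t).l ^ al * √((PP t).D ^ (2 - al) / (PP t).rho ^ al)
      / (PP t).rho ≤ E (-1 / 1000) t := by
    simp only [PP, E_div, E_mul, E_rpow, E_sqrt]; exact E_le ht (by norm_num [gg, al])
  have a15 : (PP t).rho / (PP t).D ^ 2 * (PP t).l ^ al * √((PP t).D ^ (2 - al) / (PP t).rho ^ al)
      ≤ E (-1 / 1000) t := by
    simp only [PP, E_div, E_mul, E_rpow, E_sqrt, E_pow]; exact E_le ht (by norm_num [gg, al])
  have a16 : ((PP t).rho / (PP t).D) ^ 2 * ((PP t).l / (PP t).rho) ^ al ≤ E (-1 / 1000) t := by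
    simp only [PP, E_div, E_mul, E_rpow, E_pow]; exact E_le ht (by norm_num [gg, al])
  have e : ((PP t).l ^ 3 / (E (gg - 99954 / 100) t * (PP t).d2 ^ 2)
      + ((PP t).d2 + 2 * (PP t).d2) / (PP t).d + (PP t).f + (PP t).rho / (PP t).d)
      * ((PP t).l / (PP t).d) ^ al =
      (PP t).l ^ 3 / (E (gg - 99954 / 100) t * (PP t).d2 ^ 2) * ((PP t).l / (PP t).d) ^ al
      + 3 * ((PP t).d2 / (PP t).d * ((PP t).l / (PP t).d) ^ al)
      + (PP t).f * ((PP t).l / (PP t).d) ^ al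
      + (PP t).rho / (PP t).d * ((PP t).l / (PP t).d) ^ al := by ring
  rw [e]
  linarith

/-- the second Besov constant -/
def BB (t : ℝ) : ℝ := E (10000 / 9 - 1110 * bb) t

theorem cost_le {C t : ℝ} (h : Big C t) :
    2 * ((PP t).S * (PP t).G ^ 15 * (PP t).tot) ≤ E (-1110 * bb) t := by
  have h1 := mul_le_mul_of_nonneg_left (tot_le h.t0)
    (show 0 ≤ (PP t).S * (PP t).G ^ 15 from (mul_pos (E_pos _ _) (pow_pos (E_pos _ _) _)).le)
  have h2 : 36 * ((PP t).S * (PP t).G ^ 15 * E (-1 / 1000) t) ≤ E (-1110 * bb) t := by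
    simp only [PP, E_mul, E_pow]
    exact h.k (by norm_num) (by norm_num) (by norm_num [gg, gam, bb])
  linarith

theorem step {C t : ℝ} (h : Big C t) :
    BB t * (PP t).l ^ al / 2 + (PP t).S * (PP t).G ^ 15 * (PP t).tot ≤ (PP (bb * t)).S ∧
      2 * BB t + (PP t).S * (PP t).G ^ 15 * (PP t).tot / (PP t).l ^ al ≤ BB (bb * t) ∧
      (PP (bb * t)).D ≤ (PP t).D ∧ (PP t).D ≤ (PP (bb * t)).l ∧ (PP (bb * t)).l ≤ (PP t).l / 60 ∧
      (PP (bb * t)).rho ≤ (PP t).rho ∧
      2 * (4 * (PP t).Y) + C * (2 * (PP t).G) * lg (PP (bb * t)).l ^ 2 * (PP (bb * t)).l ^ 2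
        * (PP (bb * t)).D ^ (al - 4) * (2 * (PP t).Xi) ≤ (PP (bb * t)).Y ∧
      2 * (PP t).Xi ≤ (PP (bb * t)).Xi ∧
      2 * ((PP t).G ^ 19 * (PP t).S / (PP t).rho ^ 2)
        + C * (2 * (PP t).G) ^ 2 * lg (PP (bb * t)).l ^ 2
        * (PP (bb * t)).D ^ (al - 2) * (2 * (PP t).Xi) ≤ (PP (bb * t)).Z ∧
      2 * (PP t).G ≤ (PP (bb * t)).G := by
  have ht := h.t0
  have hc := cost_le h
  have hlg : lg (PP (bb * t)).l = 1 - -1000 * bb * t := by
    show lg (E (-1000) (bb * t)) = _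
    rw [E_sc, lg_E ht (by norm_num [bb])]
  have x0 : 0 ≤ 1 - -1000 * bb * t := by unfold bb; nlinarith
  have x1 : 1 - -1000 * bb * t ≤ 1 + 2000 * t := by unfold bb; nlinarith
  have h8 := h.cC (c := 8) (by norm_num) (by norm_num) x0 x1
  have h16 := h.cC (c := 16) (by norm_num) (by norm_num) x0 x1
  refine ⟨?_, ?_, ?_, ?_, ?_, ?_, ?_, ?_, ?_, ?_⟩
  · have e1 : BB t * (PP t).l ^ al = E (-1110 * bb) t := by
      simp only [BB, PP, E_rpow, E_mul, al]; congr 1; ring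
    have e2 : (PP (bb * t)).S = E (-1110 * bb) t := E_sc _ _ _
    rw [e1, e2]; linarith
  · have e1 : E (-1110 * bb) t / (PP t).l ^ al = BB t := by
      simp only [BB, PP, E_rpow, E_div, al]; congr 1; ring
    have p : 0 < (PP t).l ^ al := Real.rpow_pos_of_pos (E_pos _ _) _
    have h1 := div_le_div_of_nonneg_right hc p.le
    rw [e1, mul_div_assoc] at h1
    have h2 : 3 * BB t ≤ BB (bb * t) := by
      simp only [BB, E_sc]; exact h.k (by norm_num) (by norm_num) (by norm_num [gam, bb])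
    have h3 : 0 < BB t := E_pos _ _
    linarith
  · simp only [PP, E_sc]; exact E_le ht (by norm_num [bb])
  · simp only [PP, E_sc]; exact E_le ht (by norm_num [bb])
  · have h1 : 60 * (PP (bb * t)).l ≤ (PP t).l := by
      simp only [PP, E_sc]; exact h.k (by norm_num) (by norm_num) (by norm_num [gam, bb])
    linarith
  · simp only [PP, E_sc]; exact E_le ht (by norm_num [bb])
  · rw [hlg, Y_eq, Y_eq, Xi_eq, E_sc]
    have h1 : 16 * E 896 t ≤ E (896 * bb) t :=
      h.k (by norm_num) (by norm_num) (by norm_num [gam, bb])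
    have h2 : 8 * C * (1 - -1000 * bb * t) ^ 2 * ((PP t).G * (PP (bb * t)).l ^ 2
        * (PP (bb * t)).D ^ (al - 4) * E (10 * gg + 50 / 9) t) ≤ E (896 * bb) t := by
      simp only [PP, E_sc, E_mul, E_pow, E_rpow]
      exact key ht h8 (by norm_num [gam, bb, gg, al])
    linarith
  · rw [Xi_eq, Xi_eq, E_sc]; exact h.k (by norm_num) (by norm_num) (by norm_num [gam, bb, gg])
  · rw [hlg, Z_eq, Xi_eq, E_sc]
    have h1 : 4 * ((PP t).G ^ 19 * (PP t).S / (PP t).rho ^ 2) ≤ E ((10 * gg + 898) * bb) t := by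
      simp only [PP, E_mul, E_pow, E_div]
      exact h.k (by norm_num) (by norm_num) (by norm_num [gam, bb, gg])
    have h2 : 16 * C * (1 - -1000 * bb * t) ^ 2 * ((PP t).G ^ 2
        * (PP (bb * t)).D ^ (al - 2) * E (10 * gg + 50 / 9) t) ≤ E ((10 * gg + 898) * bb) t := by
      simp only [PP, E_sc, E_mul, E_pow, E_rpow]
      exact key ht h16 (by norm_num [gam, bb, gg, al])
    linarith
  · simp only [PP, E_sc]; exact h.k (by norm_num) (by norm_num) (by norm_num [gam, bb, gg])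

theorem grow {t : ℝ} (ht : 10 ^ 7 ≤ t) (m : ℕ) : t + m ≤ bb ^ m * t := by
  have h1 : 1 + (m : ℝ) * (1 / 10 ^ 7) ≤ bb ^ m := one_add_mul_le_pow (by norm_num) m
  have h2 := mul_le_mul_of_nonneg_right h1 (le_trans (by norm_num) ht : (0 : ℝ) ≤ t)
  have h3 : (m : ℝ) * (10 ^ 7) ≤ m * t := mul_le_mul_of_nonneg_left ht (Nat.cast_nonneg m)
  linarith

theorem E_geo {a c t : ℝ} (ht : 10 ^ 7 ≤ t) (hc : 1 ≤ c) (ha : a ≤ -c) (m : ℕ) :
    E a (bb ^ m * t) ≤ E (-c) t * (1 / 2) ^ m := by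
  have h0 : (0 : ℝ) ≤ t := le_trans (by norm_num) ht
  have hm : (0 : ℝ) ≤ m := Nat.cast_nonneg m
  have h1 := grow ht m
  have h2 : E a (bb ^ m * t) ≤ E (-c) (bb ^ m * t) := E_le (by linarith) ha
  have h3 : Real.exp (-1) ≤ 1 / 2 := by
    have := Real.add_one_le_exp (1 : ℝ)
    rw [Real.exp_neg, inv_eq_one_div]
    exact one_div_le_one_div_of_le (by norm_num) (by linarith)
  have h4 : E (-c) (bb ^ m * t) ≤ E (-c) t * Real.exp (-1) ^ m := by
    unfold E
    rw [← Real.exp_nat_mul, ← Real.exp_add]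
    refine Real.exp_le_exp.2 ?_
    nlinarith
  have h5 : Real.exp (-1) ^ m ≤ (1 / 2) ^ m := pow_le_pow_left₀ (Real.exp_pos _).le h3 m
  exact h2.trans (h4.trans (mul_le_mul_of_nonneg_left h5 (E_pos _ _).le))

theorem geo_sum (x : ℝ) : HasSum (fun m : ℕ => x * (1 / 2) ^ m) (x * 2) :=
  hasSum_geometric_two.mul_left x

theorem E_summable {a c t : ℝ} (ht : 10 ^ 7 ≤ t) (hc : 1 ≤ c) (ha : a ≤ -c) :
    Summable fun m : ℕ => E a (bb ^ m * t) :=
  Summable.of_nonneg_of_le (fun _ => (E_pos _ _).le) (E_geo ht hc ha) (geo_sum _).summable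

theorem E_tsum {a c t : ℝ} (ht : 10 ^ 7 ≤ t) (hc : 1 ≤ c) (ha : a ≤ -c) :
    ∑' m : ℕ, E a (bb ^ m * t) ≤ E (-c) t * 2 := by
  rw [← (geo_sum (E (-c) t)).tsum_eq]
  exact (E_summable ht hc ha).tsum_le_tsum (E_geo ht hc ha) (geo_sum _).summable

theorem T0_le (t : ℝ) : (PP t).T0 ≤ E (-54 / 100 - 448) t := by
  unfold Par.T0
  rw [Y_eq]
  have h1 : √(E 896 t) ≤ √(6 * E 896 t) := Real.sqrt_le_sqrt (by linarith [E_pos 896 t])
  have h2 : (PP t).th0 / √(6 * E 896 t) ≤ (PP t).th0 / √(E 896 t) :=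
    div_le_div_of_nonneg_left (E_pos _ _).le (Real.sqrt_pos.2 (E_pos _ _)) h1
  refine h2.trans (le_of_eq ?_)
  simp only [PP, E_sqrt, E_div]; congr 1; ring

end

end Pool.Agent.Lib.EUL.NUM

namespace Pool.Agent.Lib.EUL

open NUM in
theorem st_NUM : St_NUM := by
  intro C hC
  obtain ⟨t, hb⟩ := exists_big hC
  have h0 := hb t le_rfl
  have ht := h0.t0
  have hm : ∀ m : ℕ, Big C (bb ^ m * t) := fun m =>
    hb _ (le_trans (by linarith [(Nat.cast_nonneg m : (0 : ℝ) ≤ m)]) (grow h0.t1 m))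
  have e0 : bb ^ 0 * t = t := by simp
  have k1 : E 700 t ≤ (⌈E 700 t⌉₊ : ℝ) := Nat.le_ceil _
  have k0 : 1 ≤ E 700 t := one_le_E ht (by norm_num)
  have k2 : (⌈E 700 t⌉₊ : ℝ) ≤ E 701 t := by
    have a1 := Nat.ceil_lt_add_one (E_pos 700 t).le
    have a2 : 2 * E 700 t ≤ E 701 t := h0.k (by norm_num) (by norm_num) (by norm_num [gam])
    linarith
  have hCE : C ≤ E gam t := by
    have := h0.cC (c := 1) (x := 1) zero_le_one (by norm_num) zero_le_one (by linarith)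
    linarith
  have C0 : 0 ≤ C := le_trans zero_le_one hC
  refine ⟨fun m => PP (bb ^ m * t), fun m => BB (bb ^ m * t), E (-500) t, ⌈E 700 t⌉₊,
    fun m => ok (hm m), fun m => ?_, fun N => ?_, ?_, ?_, E_pos _ _, ?_, ?_, ?_, ?_, ?_, ?_⟩
  · have e : bb ^ (m + 1) * t = bb * (bb ^ m * t) := by ring
    simp only [e]
    exact step (hm m)
  · have hs := E_summable (a := -54 / 100 - 448) (c := 1) h0.t1 le_rfl (by norm_num)
    have h1 := hs.sum_le_tsum (Finset.range N) (fun _ _ => (E_pos _ _).le)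
    have h2 := E_tsum (a := -54 / 100 - 448) (c := 1) h0.t1 le_rfl (by norm_num)
    have h3 : 32 * E (-1) t ≤ E 0 t := h0.k (by norm_num) (by norm_num) (by norm_num [gam])
    rw [E_zero] at h3
    have h4 : ∑ m ∈ Finset.range N, (PP (bb ^ m * t)).T0 ≤
        ∑ m ∈ Finset.range N, E (-54 / 100 - 448) (bb ^ m * t) :=
      Finset.sum_le_sum fun m _ => T0_le _
    linarith
  · exact (E_summable (a := -1110) (c := 1) h0.t1 le_rfl (by norm_num)).tendsto_atTop_zero
  · simp only [PP, E_pow, E_sqrt, E_rpow, E_mul]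
    exact E_summable (c := 1) h0.t1 le_rfl (by norm_num [gg])
  · exact_mod_cast le_trans k0 k1
  · simp only [e0]
    refine le_trans (mul_le_mul_of_nonneg_left k2 (E_pos _ _).le) ?_
    simp only [PP, E_mul]; exact E_le_one ht (by norm_num)
  · simp only [e0]
    refine le_trans (div_le_div_of_nonneg_left (mul_nonneg C0 (E_pos _ _).le) (E_pos _ _) k1) ?_
    simp only [PP, mul_div_assoc, E_div]; exact key ht hCE (by norm_num [gam])
  · simp only [e0]
    have h1 : (⌈E 700 t⌉₊ : ℝ) ^ (al - 1) ≤ E 701 t ^ (al - 1) :=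
      Real.rpow_le_rpow (Nat.cast_nonneg _) k2 (by norm_num [al])
    refine le_trans (mul_le_mul_of_nonneg_left h1 (mul_nonneg C0 (E_pos _ _).le)) ?_
    simp only [BB, mul_assoc, E_rpow, E_mul]; exact key ht hCE (by norm_num [gam, al, bb])
  · simp only [e0]
    have h1 : C * E (-500) t * (⌈E 700 t⌉₊ : ℝ) ≤ E 448 t := by
      refine le_trans (mul_le_mul_of_nonneg_left k2 (mul_nonneg C0 (E_pos _ _).le)) ?_
      simp only [mul_assoc, E_mul]; exact key ht hCE (by norm_num [gam])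
    refine le_trans (pow_le_pow_left₀
      (mul_nonneg (mul_nonneg C0 (E_pos _ _).le) (Nat.cast_nonneg _)) h1 2) ?_
    rw [Y_eq, E_pow]; exact E_le ht (by norm_num)
  · simp only [PP, E_pow, E_sqrt, E_mul]
    refine lt_of_le_of_lt (E_tsum (c := 554) h0.t1 (by norm_num) (by norm_num [gg])) ?_
    have h1 : 8 * E (-554) t ≤ E (-500) t := h0.k (by norm_num) (by norm_num) (by norm_num [gam])
    have h2 := E_pos (-554) t
    linarith

end Pool.Agent.Lib.EUL
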