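import Pool.Agent.Lib.EUL.Blue
import Pool.Agent.Lib.EUL.BasicA

set_option autoImplicit false

namespace Pool.Agent.Lib.EUL

open MeasureTheory Set Filter Topology
open scoped ContDiff Classical

namespace PAIR

theorem nD0 (k : ℕ) (V : ℂ → ℂ) (y : ℂ) : 0 ≤ nD k V y := norm_nonneg _

theorem leib0 (V B : ℂ → ℂ) (y : ℂ) : nD 0 (fun w => V w * B w) y = nD 0 V y * nD 0 B y := by
  simp [nD]

theorem natle (k : ℕ) : (k : WithTop ℕ∞) ≤ ∞ := by exact_mod_cast le_top

theorem leib2 {V B : ℂ → ℂ} (hV : ContDiff ℝ ∞ V) (hB : ContDiff ℝ ∞ B) (y : ℂ) :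
    nD 2 (fun w => V w * B w) y
      ≤ nD 0 V y * nD 2 B y + 2 * nD 1 V y * nD 1 B y + nD 2 V y * nD 0 B y := by
  have h := norm_iteratedFDeriv_mul_le (𝕜 := ℝ) hV hB y (n := 2) (natle 2)
  simp only [Finset.sum_range_succ, Finset.sum_range_zero, zero_add] at h
  simpa [nD] using h

theorem tau0 (k : ℕ) {r : ℝ} (hr : 0 < r) (s : ℝ) : 0 ≤ tau k r s :=
  pow_nonneg (div_nonneg hr.le (hr.le.trans (le_max_left _ _))) _

theorem cont_tau (k : ℕ) {r : ℝ} (hr : 0 < r) (p : ℂ) :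
    Continuous fun y : ℂ => tau k r (pn (y - p)) := by
  unfold tau
  refine Continuous.pow (continuous_const.div
    (continuous_const.max (continuous_pn.comp (continuous_sub_right p))) fun y => ?_) _
  exact (lt_of_lt_of_le hr (le_max_left _ _)).ne'

/-- the envelope, measured at a scale `r` not larger than the distance scale -/
theorem env_le {W : ℂ → ℂ} {p : ℂ} {c rho r : ℝ} (h : Env W p c rho)
    (hr : 0 < r) {j : ℕ} (hj : j ≤ 2) (y : ℂ) (hm : r ≤ max rho (pn (y - p))) :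
    r ^ j * nD j W y ≤ c * tau 2 rho (pn (y - p)) := by
  have h1 := h j hj y
  unfold tau
  obtain ⟨m, hme⟩ : ∃ m, m = max rho (pn (y - p)) := ⟨_, rfl⟩
  rw [← hme] at h1 hm ⊢
  have m0 : 0 < m := hr.trans_le hm
  have h2 : r ^ j ≤ m ^ j := pow_le_pow_left₀ hr.le hm j
  calc r ^ j * nD j W y ≤ m ^ j * (c * rho ^ 2 / m ^ (2 + j)) :=
        mul_le_mul h2 h1 (nD0 _ _ _) (pow_nonneg m0.le _)
    _ = c * (rho / m) ^ 2 := by rw [pow_add]; field_simp

theorem tau_far {rho D s : ℝ} (hrho : 0 < rho) (hD : 0 < D) (hs : D ≤ s) :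
    tau 2 rho s ≤ (rho / D) ^ 2 := by
  unfold tau
  have m0 : 0 < max rho s := hrho.trans_le (le_max_left _ _)
  exact pow_le_pow_left₀ (div_nonneg hrho.le m0.le)
    (div_le_div_of_nonneg_left hrho.le hD (hs.trans (le_max_right _ _))) 2

/-- pointwise bound for the products of derivatives of a separated pair -/
theorem point {W W' : ℂ → ℂ} {p p' : ℂ} {c c' r rho D R : ℝ} (hrho : 0 < rho) (hD : 0 < D)
    (hc : 0 ≤ c) (hc' : 0 ≤ c') (hr : 0 < r) (hrD : r ≤ D) (hW : Dom 2 W p c r r)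
    (hS : Supp W p R) (hW' : Env W' p' c' rho) (hcase : R ≤ 2 * D ∨ r = rho)
    (hsep : 4 * D ≤ pn (p - p')) {j k : ℕ} (hj : j ≤ 2) (hk : k ≤ 2) (y : ℂ) :
    (r ^ j * nD j W y) * (r ^ k * nD k W' y)
      ≤ c * c' * (rho / D) ^ 2 * (tau 2 r (pn (y - p)) + tau 2 r (pn (y - p'))) := by
  have t1 := tau0 2 hr (pn (y - p))
  have t2 := tau0 2 hr (pn (y - p'))
  have K0 : 0 ≤ c * c' * (rho / D) ^ 2 := by positivity
  have b0 : 0 ≤ r ^ k * nD k W' y := mul_nonneg (by positivity) (nD0 _ _ _)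
  have tri : 4 * D ≤ pn (y - p) + pn (y - p') := by
    have := pn_triangle p y p'
    rw [pn_sub_comm p y] at this
    linarith
  have a1 := hW j hj y
  by_cases hfar : D ≤ pn (y - p')
  · have h1 := env_le hW' hr hk y ((hrD.trans hfar).trans (le_max_right _ _))
    have h2 := h1.trans (mul_le_mul_of_nonneg_left (tau_far hrho hD hfar) hc')
    calc _ ≤ (c * tau 2 r (pn (y - p))) * (c' * (rho / D) ^ 2) :=
          mul_le_mul a1 h2 b0 (mul_nonneg hc t1)
      _ = c * c' * (rho / D) ^ 2 * tau 2 r (pn (y - p)) := by ring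
      _ ≤ _ := mul_le_mul_of_nonneg_left (le_add_of_nonneg_right t2) K0
  · rw [not_le] at hfar
    rcases hcase with h | h
    · rw [hS.nD_eq_zero j (by linarith), mul_zero, zero_mul]
      exact mul_nonneg K0 (add_nonneg t1 t2)
    · subst h
      have h1 := env_le hW' hr hk y (le_max_left _ _)
      have h2 := a1.trans (mul_le_mul_of_nonneg_left
        (tau_far (s := pn (y - p)) hr hD (by linarith)) hc)
      calc _ ≤ (c * (r / D) ^ 2) * (c' * tau 2 r (pn (y - p'))) :=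
            mul_le_mul h2 h1 b0 (by positivity)
        _ = c * c' * (r / D) ^ 2 * tau 2 r (pn (y - p')) := by ring
        _ ≤ _ := mul_le_mul_of_nonneg_left (le_add_of_nonneg_left t1) K0

/-- the cost of one separated pair -/
theorem one (hCS : St_CS) {C : ℝ} (hC : 1 ≤ C)
    (hE : ∀ (r : ℝ) (p : ℂ), 0 < r → r ≤ 1 →
      IQ (fun x => tau 2 r (pn (x - p))) ≤ C * r ^ 2 * lg r)
    {W W' : ℂ → ℂ} {p p' : ℂ} {c c' r rho D R l L : ℝ} (hrho : 0 < rho) (hD : 0 < D)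
    (hDl : D ≤ l) (hl : l ≤ 1 / 4) (hL : lg r ≤ L) (sW : ContDiff ℝ ∞ W) (pW : Peri W)
    (sW' : ContDiff ℝ ∞ W') (pW' : Peri W')
    (hc : 0 ≤ c) (hc' : 0 ≤ c') (hr : 0 < r) (hrD : r ≤ D) (hW : Dom 2 W p c r r)
    (hS : Supp W p R) (hW' : Env W' p' c' rho) (hcase : R ≤ 2 * D ∨ r = rho)
    (hsep : 4 * D ≤ pn (p - p')) :
    Cst l (fun y => W y * W' y)
      (32 * C * L * (rho / D) ^ 2 * l ^ al * (c * r ^ (2 - al) * c')) := by
  have pt := fun (j k : ℕ) (hj : j ≤ 2) (hk : k ≤ 2) (y : ℂ) =>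
    point hrho hD hc hc' hr hrD hW hS hW' hcase hsep hj hk y
  obtain ⟨K, hK⟩ : ∃ K, K = c * c' * (rho / D) ^ 2 := ⟨_, rfl⟩
  have K0 : 0 ≤ K := by rw [hK]; positivity
  rw [← hK] at pt
  have c1 := cont_tau 2 hr p
  have c2 := cont_tau 2 hr p'
  have lg1 : 1 ≤ lg r := by unfold lg; linarith [abs_nonneg (Real.log r)]
  have r1 : r ≤ 1 := by linarith
  have hT : IQ (fun y => tau 2 r (pn (y - p)) + tau 2 r (pn (y - p'))) ≤ 2 * (C * r ^ 2 * L) := by
    rw [IQ_add c1 c2]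
    have h1 := hE r p hr r1
    have h2 := hE r p' hr r1
    have h3 : C * r ^ 2 * lg r ≤ C * r ^ 2 * L := mul_le_mul_of_nonneg_left hL (by positivity)
    linarith
  obtain ⟨T, hTe⟩ : ∃ T : ℂ → ℝ, T = fun y => tau 2 r (pn (y - p)) + tau 2 r (pn (y - p')) :=
    ⟨_, rfl⟩
  have cT : Continuous T := by rw [hTe]; exact c1.add c2
  have pt' : ∀ j k : ℕ, j ≤ 2 → k ≤ 2 → ∀ y,
      (r ^ j * nD j W y) * (r ^ k * nD k W' y) ≤ K * T y := by
    intro j k hj hk y; rw [hTe]; exact pt j k hj hk y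
  rw [← hTe] at hT
  have X0 : 0 ≤ C * r ^ 2 * L := by
    have : 0 ≤ L := by linarith
    positivity
  have n0 : IQ (nD 0 fun y => W y * W' y) ≤ 8 * K * (C * r ^ 2 * L) := by
    refine (IQ_mono_of_nonneg (g := fun y => K * T y) (nD0 _ _)
      (integrableOn_cell (continuous_const.mul cT)) fun y _ => ?_).trans ?_
    · rw [leib0]
      simpa using pt' 0 0 (by norm_num) (by norm_num) y
    · rw [IQ_const_mul]
      have h1 := mul_le_mul_of_nonneg_left hT K0
      have h2 := mul_nonneg K0 X0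
      linarith
  have n2 : IQ (nD 2 fun y => W y * W' y) ≤ 8 * K * (C * r ^ 2 * L) / r ^ 2 := by
    refine (IQ_mono_of_nonneg (g := fun y => 4 * K / r ^ 2 * T y) (nD0 _ _)
      (integrableOn_cell (continuous_const.mul cT)) fun y _ => ?_).trans ?_
    · refine (leib2 sW sW' y).trans ?_
      have h1 := pt' 0 2 (by norm_num) (by norm_num) y
      have h2 := pt' 1 1 (by norm_num) (by norm_num) y
      have h3 := pt' 2 0 (by norm_num) (by norm_num) y
      rw [div_mul_eq_mul_div, le_div_iff₀ (by positivity)]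
      have e : (nD 0 W y * nD 2 W' y + 2 * nD 1 W y * nD 1 W' y + nD 2 W y * nD 0 W' y) * r ^ 2
          = (r ^ 0 * nD 0 W y) * (r ^ 2 * nD 2 W' y) + 2 * ((r ^ 1 * nD 1 W y) * (r ^ 1 * nD 1 W' y))
            + (r ^ 2 * nD 2 W y) * (r ^ 0 * nD 0 W' y) := by ring
      rw [e]; linarith
    · rw [IQ_const_mul]
      refine (mul_le_mul_of_nonneg_left hT (by positivity)).trans (le_of_eq ?_)
      field_simp
      ring
  have hfin := hCS.1 _ l r _ (sW.mul sW') (pW.mul pW') hr (hrD.trans hDl) n0 n2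
  have hl0 : 0 < l := hD.trans_le hDl
  refine hfin.mono hl0 (le_of_eq ?_)
  have e1 : r ^ (2 - al) = r ^ 2 / r ^ al := by
    rw [Real.rpow_sub hr, Real.rpow_two]
  have e2 : 0 < r ^ al := Real.rpow_pos_of_pos hr _
  rw [Real.div_rpow hl0.le hr.le, e1, hK]
  field_simp
  ring

/-- Schur test -/
theorem schur {ι κ : Type} [Fintype ι] [Fintype κ] {P : ι → Prop} {Q : κ → Prop} {p : ι → ℂ}
    {q : κ → ℂ} {x : ι → ℝ} {y : κ → ℝ} {l M Om Z : ℝ} (hP : Mult P p l M) (hQ : Mult Q q l M)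
    (hx : ∑ i, x i ^ 2 ≤ Om) (hy : ∑ k, y k ^ 2 ≤ Z) :
    ∑ a : ι × κ, (if P a.1 ∧ Q a.2 ∧ pn (p a.1 - q a.2) ≤ l then x a.1 * y a.2 else 0)
      ≤ M * √(Om * Z) := by
  have M0 := hP.nonneg
  have h := Finset.sum_mul_sq_le_sq_mul_sq (Finset.univ : Finset (ι × κ))
    (fun a => if P a.1 ∧ Q a.2 ∧ pn (p a.1 - q a.2) ≤ l then x a.1 else 0)
    (fun a => if P a.1 ∧ Q a.2 ∧ pn (p a.1 - q a.2) ≤ l then y a.2 else 0)
  have e : ∀ a : ι × κ, (if P a.1 ∧ Q a.2 ∧ pn (p a.1 - q a.2) ≤ l then x a.1 * y a.2 else 0)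
      = (if P a.1 ∧ Q a.2 ∧ pn (p a.1 - q a.2) ≤ l then x a.1 else 0)
        * (if P a.1 ∧ Q a.2 ∧ pn (p a.1 - q a.2) ≤ l then y a.2 else 0) := fun a => by
    split_ifs <;> simp
  have h1 : ∑ a : ι × κ, (if P a.1 ∧ Q a.2 ∧ pn (p a.1 - q a.2) ≤ l then x a.1 else 0) ^ 2
      ≤ M * Om := by
    rw [Fintype.sum_prod_type]
    refine (Finset.sum_le_sum (g := fun i => M * x i ^ 2) fun i _ => ?_).trans ?_
    · refine hQ.sum_le (p i) (sq_nonneg _) (fun k => ?_) fun k hk => ?_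
      · split_ifs
        · exact le_rfl
        · simpa using sq_nonneg _
      · rw [if_neg fun h => hk ⟨h.2.1, by rw [pn_sub_comm]; exact h.2.2⟩]
        simp
    · rw [← Finset.mul_sum]; exact mul_le_mul_of_nonneg_left hx M0
  have h2 : ∑ a : ι × κ, (if P a.1 ∧ Q a.2 ∧ pn (p a.1 - q a.2) ≤ l then y a.2 else 0) ^ 2
      ≤ M * Z := by
    rw [Fintype.sum_prod_type_right]
    refine (Finset.sum_le_sum (g := fun k => M * y k ^ 2) fun k _ => ?_).trans ?_
    · refine hP.sum_le (q k) (sq_nonneg _) (fun i => ?_) fun i hi => ?_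
      · split_ifs
        · exact le_rfl
        · simpa using sq_nonneg _
      · rw [if_neg fun h => hi ⟨h.1, h.2.2⟩]
        simp
    · rw [← Finset.mul_sum]; exact mul_le_mul_of_nonneg_left hy M0
  have Om0 : 0 ≤ Om := (Finset.sum_nonneg fun i _ => sq_nonneg _).trans hx
  have h3 := h.trans (mul_le_mul h1 h2 (Finset.sum_nonneg fun a _ => sq_nonneg _)
    (mul_nonneg M0 Om0))
  simp only [e]
  have e2 : M * √(Om * Z) = √(M * Om * (M * Z)) := by
    rw [show M * Om * (M * Z) = M ^ 2 * (Om * Z) by ring, Real.sqrt_mul (sq_nonneg _),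
      Real.sqrt_sq M0]
  rw [e2]
  exact Real.le_sqrt_of_sq_le h3

end PAIR

open PAIR in
theorem st_PAIR (hCS : St_CS) (hE : St_ENV) : St_PAIR := by
  obtain ⟨C, hC, hE⟩ := hE
  refine ⟨32 * C, by linarith, ?_⟩
  intro ι κ _ _ W p c r W' p' c' A l D rho R M L Om Z hrho hrD hDl hl hR hL hW hW' hcase hA hM hM'
    hOm hZ
  have hD : 0 < D := hrho.trans_le hrD
  have hl0 : 0 < l := hD.trans_le hDl
  have L0 : 0 ≤ L := by
    have : 1 ≤ lg rho := by unfold lg; linarith [abs_nonneg (Real.log rho)]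
    linarith
  obtain ⟨K, hK⟩ : ∃ K, K = 32 * C * L * (rho / D) ^ 2 * l ^ al := ⟨_, rfl⟩
  have K0 : 0 ≤ K := by
    have : 0 ≤ C := by linarith
    rw [hK]; positivity
  obtain ⟨g, hg⟩ : ∃ g : ι × κ → ℝ, g = fun a =>
      if c a.1 ≠ 0 ∧ c' a.2 ≠ 0 ∧ pn (p a.1 - p' a.2) ≤ l then c a.1 * r a.1 ^ (2 - al) * c' a.2
      else 0 := ⟨_, rfl⟩
  have g0 : ∀ a, 0 ≤ g a := fun a => by
    rw [hg]
    dsimp only
    split_ifs
    · exact mul_nonneg (mul_nonneg (hW _).2.2.1 (Real.rpow_nonneg (hW _).2.2.2.1.le _))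
        (hW' _).2.2.1
    · exact le_rfl
  have hs : ∑ a, g a ≤ M * √(Om * Z) := by
    rw [hg]
    refine le_of_eq_of_le (Finset.sum_congr rfl fun a _ => ?_)
      (schur (x := fun i => c i * r i ^ (2 - al)) (y := c') hM hM' hOm hZ)
    dsimp only
    split_ifs <;> rfl
  have each : ∀ a ∈ A, Cst l (fun y => W a.1 y * W' a.2 y) (K * g a) := by
    rintro ⟨i, k⟩ ha
    obtain ⟨sW, pW, hc, hr, hrD', hlg, hDom, hS⟩ := hW i
    obtain ⟨sW', pW', hc', hEnv, hS'⟩ := hW' k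
    have z : (∀ y, W i y * W' k y = 0) → Cst l (fun y => W i y * W' k y) (K * g (i, k)) :=
      fun h => (cst_zero hl0 (mul_nonneg K0 (g0 _))).congr h
    rcases hA _ ha with h | h | h
    · exact z fun y => by rw [h y, zero_mul]
    · exact z fun y => by rw [h y, mul_zero]
    by_cases hn : pn (p i - p' k) ≤ l
    · have h1 := one hCS hC (fun r p h0 h1 => (hE r p h0 h1).1) hrho hD hDl hl hlg sW pW sW' pW'
        hc hc' hr hrD' hDom hS hEnv (hcase.imp id fun h => h i) h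
      rw [← hK] at h1
      refine h1.mono hl0 (le_of_eq ?_)
      rw [hg]
      dsimp only
      split_ifs with h2
      · rfl
      · by_cases h3 : c i = 0
        · simp [h3]
        · by_cases h4 : c' k = 0
          · simp [h4]
          · exact absurd ⟨h3, h4, hn⟩ h2
    · refine z fun y => ?_
      rw [not_le] at hn
      have tri := pn_triangle (p i) y (p' k)
      rw [pn_sub_comm (p i) y] at tri
      by_cases h1 : R < pn (y - p i)
      · rw [hS y h1, zero_mul]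
      · rw [hS' y (by linarith [not_lt.1 h1]), mul_zero]
  have hsum := cst_sum A hl0 (f := fun a y => W a.1 y * W' a.2 y)
    (fun a _ => (hW a.1).1.continuous.mul (hW' a.2).1.continuous) each
  refine hsum.mono hl0 ?_
  rw [← Finset.mul_sum]
  have h1 : ∑ a ∈ A, g a ≤ ∑ a, g a :=
    Finset.sum_le_sum_of_subset_of_nonneg (Finset.subset_univ _) fun a _ _ => g0 a
  refine (mul_le_mul_of_nonneg_left (h1.trans hs) K0).trans (le_of_eq ?_)
  rw [hK]; ring

end Pool.Agent.Lib.EUL
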