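import Pool.Agent.Lib.EUL.Blue

set_option autoImplicit false

namespace Pool.Agent.Lib.EUL

open MeasureTheory Set Filter Topology
open scoped ContDiff Classical

noncomputable section

namespace PATH

section Par

variable {E : Type} [NormedAddCommGroup E] [NormedSpace ℝ E] {F : ℝ → ℂ → E}

lemma sm_fderiv (hF : ContDiff ℝ ∞ (Function.uncurry F)) :
    ContDiff ℝ ∞ (Function.uncurry fun t y => fderiv ℝ (F t) y) :=
  ContDiff.fderiv (f := fun p : ℝ × ℂ => F p.1) (g := Prod.snd)
    (hF.comp (contDiff_fst.fst.prodMk contDiff_snd)) contDiff_snd le_rfl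

lemma par_fderiv (hF : ContDiff ℝ ∞ (Function.uncurry F)) (α β : ℝ) (y : ℂ) :
    HasFDerivAt (fun y => ∫ t in α..β, F t y) (∫ t in α..β, fderiv ℝ (F t) y) y := by
  have hc := (sm_fderiv hF).continuous
  have h1 : ∀ y, Continuous fun t => F t y := fun y => hF.continuous.comp (Continuous.prodMk_left y)
  have h2 : Continuous fun t => fderiv ℝ (F t) y := hc.comp (Continuous.prodMk_left y)
  obtain ⟨M, hM⟩ := ((isCompact_uIcc (a := α) (b := β)).prod (isCompact_closedBall y 1)).exists_bound_of_continuousOn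
    hc.continuousOn
  refine intervalIntegral.hasFDerivAt_integral_of_dominated_of_fderiv_le (F := fun y t => F t y)
    (F' := fun y t => fderiv ℝ (F t) y) (bound := fun _ => M) (Metric.closedBall_mem_nhds y one_pos)
    (Eventually.of_forall fun y => (h1 y).aestronglyMeasurable) ((h1 y).intervalIntegrable _ _)
    h2.aestronglyMeasurable (Eventually.of_forall fun t ht x hx => hM (t, x) ⟨uIoc_subset_uIcc ht, hx⟩)
    intervalIntegrable_const (Eventually.of_forall fun t _ x _ => ?_)
  exact ((hF.comp (contDiff_const.prodMk contDiff_id)).differentiable (by simp) x).hasFDerivAt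

end Par

lemma par_nat (α β : ℝ) (n : ℕ) : ∀ (E : Type) [NormedAddCommGroup E] [NormedSpace ℝ E] (F : ℝ → ℂ → E),
    ContDiff ℝ ∞ (Function.uncurry F) → ContDiff ℝ n fun y => ∫ t in α..β, F t y := by
  induction n with
  | zero =>
    intro E _ _ F hF
    exact contDiff_zero.2 (continuous_iff_continuousAt.2 fun y => (par_fderiv hF α β y).continuousAt)
  | succ n ih =>
    intro E _ _ F hF
    rw [Nat.cast_succ, contDiff_succ_iff_fderiv]
    refine ⟨fun y => (par_fderiv hF α β y).differentiableAt, by simp, ?_⟩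
    rw [funext fun y => (par_fderiv hF α β y).fderiv]
    exact ih _ _ (sm_fderiv hF)

lemma par_nD {α β : ℝ} (h : α ≤ β) (n : ℕ) : ∀ (E : Type) [NormedAddCommGroup E] [NormedSpace ℝ E]
    (F : ℝ → ℂ → E), ContDiff ℝ ∞ (Function.uncurry F) → ∀ y,
    ‖iteratedFDeriv ℝ n (fun y => ∫ t in α..β, F t y) y‖ ≤ ∫ t in α..β, ‖iteratedFDeriv ℝ n (F t) y‖ := by
  induction n with
  | zero =>
    intro E _ _ F _ y
    simp only [norm_iteratedFDeriv_zero]
    exact intervalIntegral.norm_integral_le_integral_norm h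
  | succ n ih =>
    intro E _ _ F hF y
    simp only [← norm_iteratedFDeriv_fderiv]
    rw [funext fun y => (par_fderiv hF α β y).fderiv]
    exact ih _ _ (sm_fderiv hF) y

lemma nD_cont {g : ℂ → ℂ} (hg : ContDiff ℝ ∞ g) (k : ℕ) : Continuous (nD k g) :=
  (hg.continuous_iteratedFDeriv (by exact_mod_cast le_top)).norm

lemma nD_zero {g : ℂ → ℂ} {r : ℝ} (h : ∀ y, r < ‖y‖ → g y = 0) (k : ℕ) {y : ℂ} (hy : r < ‖y‖) :
    nD k g y = 0 := by
  have : g =ᶠ[𝓝 y] fun _ => 0 :=
    ((isOpen_lt continuous_const continuous_norm).eventually_mem hy).mono h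
  rw [nD, (this.iteratedFDeriv ℝ k).eq_of_nhds]
  simp

lemma nD_int {g : ℂ → ℂ} (hg : ContDiff ℝ ∞ g) {r : ℝ} (h : ∀ y, r < ‖y‖ → g y = 0) (k : ℕ) :
    Integrable (nD k g) :=
  (nD_cont hg k).integrable_of_hasCompactSupport (HasCompactSupport.intro (isCompact_closedBall 0 r)
    fun y hy => nD_zero h k (by simpa using hy))

lemma nD_mul {g : ℂ → ℂ} (hg : ContDiff ℝ ∞ g) (c : ℂ) (k : ℕ) (y : ℂ) :
    nD k (fun y => c * g y) y = ‖c‖ * nD k g y := by
  have := iteratedFDeriv_const_smul_apply' (𝕜 := ℝ) (a := c) (i := k) (x := y)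
    (hg.contDiffAt.of_le (by exact_mod_cast le_top))
  simp only [smul_eq_mul] at this
  rw [nD, this, norm_smul, nD]

lemma nD_add {f g : ℂ → ℂ} (hf : ContDiff ℝ ∞ f) (hg : ContDiff ℝ ∞ g) (k : ℕ) (y : ℂ) :
    nD k (fun y => f y + g y) y ≤ nD k f y + nD k g y := by
  rw [nD, fun_iteratedFDeriv_add_apply (hf.contDiffAt.of_le (by exact_mod_cast le_top))
    (hg.contDiffAt.of_le (by exact_mod_cast le_top))]
  exact norm_add_le _ _

/-- a smooth bump dragged along a path -/
lemma drag {g : ℂ → ℂ} (hg : ContDiff ℝ ∞ g) {r ρ : ℝ} (h0 : ∀ y, r < ‖y‖ → g y = 0) {a Y : ℝ → ℂ}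
    (ha : ContDiff ℝ ∞ a) (hY : ContDiff ℝ ∞ Y) (hρ : ∀ t, ‖Y t‖ ≤ ρ) {α β : ℝ} (h : α ≤ β)
    (ha0 : ∀ t, t ∉ Icc α β → a t = 0) :
    ContDiff ℝ ∞ (fun y => ∫ t in α..β, a t * g (y - Y t)) ∧
      (∀ y, r + ρ < ‖y‖ → ∫ t in α..β, a t * g (y - Y t) = 0) ∧
      ∀ k, ∫ y, nD k (fun y => ∫ t in α..β, a t * g (y - Y t)) y ≤ (∫ t in α..β, ‖a t‖) * ∫ y, nD k g y := by
  have hF : ContDiff ℝ ∞ (Function.uncurry fun t y => a t * g (y - Y t)) :=
    (ha.comp contDiff_fst).mul (hg.comp (contDiff_snd.sub (hY.comp contDiff_fst)))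
  have far : ∀ y t, r + ρ < ‖y‖ → r < ‖y - Y t‖ := fun y t hy => by
    have := norm_sub_norm_le y (Y t)
    linarith [hρ t]
  have h1 : ContDiff ℝ ∞ fun y => ∫ t in α..β, a t * g (y - Y t) :=
    contDiff_infty.2 fun n => par_nat α β n _ _ hF
  have h2 : ∀ y, r + ρ < ‖y‖ → ∫ t in α..β, a t * g (y - Y t) = 0 := fun y hy => by
    simp [h0 _ (far y _ hy)]
  refine ⟨h1, h2, fun k => ?_⟩
  have hs : ∀ φ : ℝ → ℝ, ∫ t in α..β, ‖a t‖ * φ t = ∫ t, ‖a t‖ * φ t := fun φ => by
    rw [intervalIntegral.integral_of_le h, ← integral_Icc_eq_integral_Ioc]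
    exact setIntegral_eq_integral_of_forall_compl_eq_zero fun t ht => by simp [ha0 t ht]
  have hc : Continuous (Function.uncurry fun y t => ‖a t‖ * nD k g (y - Y t)) :=
    (ha.continuous.comp continuous_snd).norm.mul
      ((nD_cont hg k).comp (continuous_fst.sub (hY.continuous.comp continuous_snd)))
  have hk : HasCompactSupport (Function.uncurry fun y t => ‖a t‖ * nD k g (y - Y t)) := by
    refine HasCompactSupport.intro ((isCompact_closedBall 0 (r + ρ)).prod (isCompact_Icc (a := α) (b := β)))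
      fun p hp => ?_
    rcases not_and_or.1 hp with hp | hp
    · exact mul_eq_zero_of_right _ (nD_zero h0 k (far _ _ (by simpa using hp)))
    · exact mul_eq_zero_of_left (by simp [ha0 _ hp]) _
  calc _ ≤ ∫ y, ∫ t, ‖a t‖ * nD k g (y - Y t) := by
        refine integral_mono (nD_int h1 h2 k) (hc.integrable_of_hasCompactSupport
          (μ := Measure.prod volume volume) hk).integral_prod_left fun y => ?_
        refine (par_nD h k _ _ hF y).trans (le_of_eq ?_)
        rw [← hs]
        refine intervalIntegral.integral_congr fun t _ => ?_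
        have := nD_mul (g := fun y => g (y - Y t)) (hg.comp (contDiff_id.sub contDiff_const)) (a t) k y
        rw [nD, nD, iteratedFDeriv_comp_sub] at this
        exact this
    _ = _ := by
        rw [integral_integral_swap_of_hasCompactSupport hc hk]
        simp only [integral_const_mul, integral_sub_right_eq_self]
        rw [← hs, intervalIntegral.integral_mul_const]

lemma eta_sm : ContDiff ℝ ∞ fun y => (eta y : ℂ) :=
  Complex.ofRealCLM.contDiff.comp
    ((expNegInvGlue.contDiff.comp (contDiff_const.sub (contDiff_norm_sq ℝ))).div_const _)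

lemma eta_zero (y : ℂ) (hy : 1 < ‖y‖) : (eta y : ℂ) = 0 := by
  rw [eta, bump, expNegInvGlue.zero_of_nonpos (by nlinarith), zero_div, Complex.ofReal_zero]

lemma etas_eq (d : ℝ) : etas d = fun y => ((d ^ 2)⁻¹ : ℝ) *
    ((fun y => (eta y : ℂ)) ∘ (d⁻¹ • ContinuousLinearMap.id ℝ ℂ)) y := by
  funext y
  simp [etas, div_eq_inv_mul]

lemma etas_sm (d : ℝ) : ContDiff ℝ ∞ (etas d) := by
  rw [etas_eq]
  exact contDiff_const.mul (eta_sm.comp (ContinuousLinearMap.contDiff _))

lemma etas_zero {d : ℝ} (hd : 0 < d) (y : ℂ) (hy : d < ‖y‖) : etas d y = 0 := by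
  have := eta_zero (y / d) (by rwa [norm_div, Complex.norm_real, Real.norm_of_nonneg hd.le, one_lt_div hd])
  rw [etas, Complex.ofReal_div, this, zero_div]

lemma etas_int (k : ℕ) {d : ℝ} (hd : 0 < d) :
    ∫ y, nD k (etas d) y ≤ (∫ y, nD k (fun y => (eta y : ℂ)) y) / d ^ k := by
  have h1 : ∀ y, nD k (etas d) y ≤ (d ^ 2)⁻¹ * d⁻¹ ^ k * nD k (fun y => (eta y : ℂ)) (d⁻¹ • y) := fun y => by
    rw [etas_eq, nD_mul (eta_sm.comp (ContinuousLinearMap.contDiff _)), Complex.norm_real,
      Real.norm_of_nonneg (by positivity), mul_assoc, nD,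
      ContinuousLinearMap.iteratedFDeriv_comp_right _ eta_sm y (by exact_mod_cast le_top)]
    refine mul_le_mul_of_nonneg_left ((ContinuousMultilinearMap.norm_compContinuousLinearMap_le _ _).trans
      (le_of_eq ?_)) (by positivity)
    simp [nD, norm_smul, abs_of_pos hd, mul_comm]
  refine (integral_mono (nD_int (etas_sm d) (etas_zero hd) k)
    (((nD_int eta_sm eta_zero k).comp_smul (inv_pos.2 hd).ne').const_mul _) h1).trans (le_of_eq ?_)
  rw [integral_const_mul, Measure.integral_comp_smul, Complex.finrank_real_complex,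
    abs_of_pos (by positivity), smul_eq_mul, inv_pow, inv_pow]
  field_simp

lemma ex_sm {φ : ℝ → ℝ} (h : ContDiff ℝ ∞ φ) : ContDiff ℝ ∞ fun s => ex (φ s) :=
  ((Complex.ofRealCLM.contDiff.comp h).mul contDiff_const).cexp

lemma norm_ex (a : ℝ) : ‖ex a‖ = 1 := Complex.norm_exp_ofReal_mul_I a

lemma st_bd : ∃ M, 0 ≤ M ∧ ∀ t, |deriv Real.smoothTransition t| ≤ M := by
  have hc := (Real.smoothTransition.contDiff (n := 1)).continuous_deriv le_rfl
  obtain ⟨M, hM⟩ := (isCompact_Icc (a := (0 : ℝ)) (b := 1)).exists_bound_of_continuousOn hc.continuousOn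
  have h0 : 0 ≤ M := (norm_nonneg _).trans (hM 0 ⟨le_rfl, zero_le_one⟩)
  refine ⟨M, h0, fun t => ?_⟩
  rcases lt_or_ge t 0 with h | h
  · have : Real.smoothTransition =ᶠ[𝓝 t] fun _ => 0 :=
      (gt_mem_nhds h).mono fun s hs => Real.smoothTransition.zero_of_nonpos hs.le
    rw [this.deriv_eq]; simpa using h0
  rcases lt_or_ge 1 t with h' | h'
  · have : Real.smoothTransition =ᶠ[𝓝 t] fun _ => 1 :=
      (lt_mem_nhds h').mono fun s hs => Real.smoothTransition.one_of_one_le hs.le
    rw [this.deriv_eq]; simpa using h0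
  · exact hM t ⟨h, h'⟩

/-- the speed profile and the arclength -/
lemma speed : ∃ M, 0 ≤ M ∧ ∀ (u τ lam t0 : ℝ), 0 < u → 0 < τ → 0 ≤ lam → ∃ U s : ℝ → ℝ,
    ContDiff ℝ ∞ U ∧ (∀ t, HasDerivAt s (U t) t) ∧ (∀ t, 0 ≤ U t ∧ U t ≤ u) ∧
    (∀ t, t ∉ Icc t0 (t0 + lam + τ) → U t = 0) ∧ (∀ t, |deriv U t| ≤ M * u / τ) ∧
    (∀ t, s t ∈ Icc 0 (u * lam)) ∧ s t0 = 0 ∧ s (t0 + lam + τ) = u * lam := by
  obtain ⟨M, h0, hM⟩ := st_bd
  refine ⟨2 * M, by positivity, fun u τ lam t0 hu hτ hl => ?_⟩
  set G : ℝ → ℝ := fun t => Real.smoothTransition ((t - t0) / τ) with hG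
  have Gs : ContDiff ℝ ∞ G := Real.smoothTransition.contDiff.comp ((contDiff_id.sub contDiff_const).div_const _)
  have G0 : ∀ t, t ≤ t0 → G t = 0 := fun t ht =>
    Real.smoothTransition.zero_of_nonpos (div_nonpos_of_nonpos_of_nonneg (by linarith) hτ.le)
  have G1 : ∀ t, t0 + τ ≤ t → G t = 1 := fun t ht =>
    Real.smoothTransition.one_of_one_le ((one_le_div hτ).2 (by linarith))
  have Gn : ∀ t, 0 ≤ G t := fun t => Real.smoothTransition.nonneg _
  have Gl : ∀ t, G t ≤ 1 := fun t => Real.smoothTransition.le_one _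
  have Gm : ∀ t, G (t - lam) ≤ G t := fun t => Real.smoothTransition.monotone (by gcongr; linarith)
  have Gd : ∀ t, HasDerivAt G (deriv Real.smoothTransition ((t - t0) / τ) * (1 / τ)) t := fun t =>
    ((Real.smoothTransition.contDiff (n := 1)).differentiable one_ne_zero _).hasDerivAt.comp t
      (((hasDerivAt_id t).sub_const t0).div_const τ)
  have Gi : ∀ a b, IntervalIntegrable G volume a b := Gs.continuous.intervalIntegrable
  have P : ∀ t, HasDerivAt (fun t => ∫ r in t0..t, G r) (G t) t := fun t =>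
    (Gs.continuous.integral_hasStrictDerivAt t0 t).hasDerivAt
  have e : ∀ t, (∫ r in t0..t, G r) - ∫ r in t0..t - lam, G r = ∫ r in t - lam..t, G r := fun t =>
    intervalIntegral.integral_interval_sub_left (Gi _ _) (Gi _ _)
  refine ⟨fun t => u * (G t - G (t - lam)), fun t => u * ((∫ r in t0..t, G r) - ∫ r in t0..t - lam, G r),
    contDiff_const.mul (Gs.sub (Gs.comp (contDiff_id.sub contDiff_const))),
    fun t => ((P t).sub ((P (t - lam)).comp_sub_const t lam)).const_mul u,
    fun t => ⟨mul_nonneg hu.le (sub_nonneg.2 (Gm t)), mul_le_of_le_one_right hu.le (by linarith [Gl t, Gn (t - lam)])⟩,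
    fun t ht => ?_, fun t => ?_, fun t => ?_, ?_, ?_⟩
  · rcases not_and_or.1 ht with h | h
    · simp [G0 t (not_le.1 h).le, G0 (t - lam) (by linarith [not_le.1 h])]
    · simp [G1 t (by linarith [not_le.1 h]), G1 (t - lam) (by linarith [not_le.1 h])]
  · rw [(((Gd t).fun_sub ((Gd (t - lam)).comp_sub_const t lam)).const_mul u).deriv, ← sub_mul, abs_mul, abs_mul,
      abs_of_pos hu, abs_of_pos (one_div_pos.2 hτ)]
    have := (abs_sub _ _).trans (add_le_add (hM ((t - t0) / τ)) (hM ((t - lam - t0) / τ)))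
    calc _ ≤ u * ((M + M) * (1 / τ)) := by gcongr
      _ = _ := by ring
  · have h1 := intervalIntegral.integral_mono_on (by linarith : t - lam ≤ t) (Gi _ _)
      (intervalIntegrable_const (c := (1 : ℝ))) fun r _ => Gl r
    simp only [intervalIntegral.integral_const, smul_eq_mul, mul_one, sub_sub_cancel] at h1
    simp only [e]
    exact ⟨mul_nonneg hu.le (intervalIntegral.integral_nonneg (by linarith) fun r _ => Gn r),
      mul_le_mul_of_nonneg_left h1 hu.le⟩
  · simp only [e]
    rw [intervalIntegral.integral_congr (g := fun _ => 0) fun r hr => G0 r (by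
      rw [uIcc_of_le (by linarith)] at hr; exact hr.2)]
    simp
  · simp only [e]
    rw [intervalIntegral.integral_congr (g := fun _ => 1) fun r hr => G1 r (by
      rw [uIcc_of_le (by linarith)] at hr; linarith [hr.1])]
    simp

end PATH

open PATH in
theorem st_PATH (h0 : St_PATH0) : St_PATH := by
  obtain ⟨C0, hC0, H⟩ := h0
  obtain ⟨M, hM, hS⟩ := speed
  set E : ℕ → ℝ := fun k => ∫ y, nD k (fun y => (eta y : ℂ)) y with hE
  have E0 : ∀ k, 0 ≤ E k := fun k => integral_nonneg fun _ => norm_nonneg _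
  set C : ℝ := 2 * C0 * (1 + M) + E 0 + E 2 with hC
  have c1 : 2 * C0 ≤ C := by nlinarith [E0 0, E0 2, mul_nonneg (zero_le_one.trans hC0) hM]
  have c2 : C0 * (1 + M) ≤ C := by nlinarith [E0 0, E0 2, mul_nonneg (zero_le_one.trans hC0) hM]
  have c3 : M ≤ C := by nlinarith [E0 0, E0 2]
  refine ⟨C, by linarith, fun l h d d2 u T τ c0 A t0 m hd2 h2d hdh hhl hu hτ hτT hc0 hh hl3 hm hm0 hmA hA => ?_⟩
  have hd : 0 < d := by linarith
  have hh0 : 0 < h := by linarith
  have hl : 0 < l := by linarith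
  have hT : 0 < T := by linarith
  have hC0' : 0 < C0 := by linarith
  have hA0 : 0 ≤ A := le_trans (by simp [nD])
    (hmA 0 (by norm_num) 0)
  set N0 : ℝ := u * T * d2 ^ 2 / (2 * C0 * h * l ^ 2) with hN
  set κ : ℝ := C0 * l ^ 2 / (c0 * u ^ 2 * T) with hκ
  have hκ0 : 0 < κ := by positivity
  have eN : N0 * h * l ^ 2 / d2 ^ 2 = u * T / (2 * C0) := by rw [hN]; field_simp
  obtain ⟨Λ, φ, Y, R1, R2, L0, L1, φs, φb, Yd, Yb, R1s, R2s, R0, Rid, Rb⟩ := H l h d d2 N0
    (fun y => (-κ : ℝ) * m y) hd2 h2d hdh hhl (by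
      rw [hN, div_mul_eq_mul_div, le_div_iff₀ (by positivity)]
      have := mul_le_mul_of_nonneg_right c1 (by positivity : 0 ≤ l ^ 3)
      nlinarith) (contDiff_const.mul hm) (fun y hy => by simp [hm0 y hy]) fun k hk y => by
      rw [nD_mul hm, Complex.norm_real, norm_neg, Real.norm_of_nonneg hκ0.le, mul_left_comm]
      refine (mul_le_mul_of_nonneg_left (hmA k hk y) hκ0.le).trans ?_
      rw [hκ, div_mul_eq_mul_div, div_le_iff₀ (by positivity)]
      have := mul_le_mul_of_nonneg_right c1 (by positivity : 0 ≤ A * l ^ 2)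
      nlinarith
  have L2 : Λ / u ≤ T / 2 := by
    rw [div_le_iff₀ hu]
    refine L1.trans (le_of_eq ?_)
    rw [hN]; field_simp
  obtain ⟨U, s, Us, sd, Ub, U0, Ud, sb, s0, s1⟩ := hS u τ (Λ / u) t0 hu hτ (by positivity)
  rw [mul_div_cancel₀ _ hu.ne'] at sb s1
  have hl0 : 0 ≤ Λ / u := by positivity
  set e0 := t0 + Λ / u + τ with he0
  have hte : t0 ≤ e0 := by linarith
  have ss : ContDiff ℝ ∞ s := contDiff_infty_iff_deriv.2
    ⟨fun t => (sd t).differentiableAt, by rw [funext fun t => (sd t).deriv]; exact Us⟩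
  have Ys : ContDiff ℝ ∞ Y := contDiff_infty_iff_deriv.2
    ⟨fun t => (Yd t).differentiableAt, by rw [funext fun t => (Yd t).deriv]; exact ex_sm φs⟩
  have φ1 := contDiff_infty_iff_deriv.1 φs
  have d1 : ∀ t, HasDerivAt (fun t => φ (s t)) (deriv φ (s t) * U t) t := fun t =>
    (φ1.1 (s t)).hasDerivAt.comp t (sd t)
  have d2' : ∀ t, HasDerivAt (fun t => deriv φ (s t) * U t)
      (deriv (deriv φ) (s t) * U t * U t + deriv φ (s t) * deriv U t) t := fun t =>
    (((contDiff_infty_iff_deriv.1 φ1.2).1 (s t)).hasDerivAt.comp t (sd t)).mul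
      ((contDiff_infty_iff_deriv.1 Us).1 t).hasDerivAt
  have exs : ContDiff ℝ ∞ fun t => ex (2 * φ (s t)) := ex_sm (contDiff_const.mul (φs.comp ss))
  have Uc : ContDiff ℝ ∞ fun t => (U t : ℂ) := Complex.ofRealCLM.contDiff.comp Us
  set a : ℝ → ℂ := fun t => (U t ^ 2 - u * U t) * ex (2 * φ (s t)) with ha
  have as : ContDiff ℝ ∞ a := ((Uc.pow 2).sub (contDiff_const.mul Uc)).mul exs
  obtain ⟨R3s, R30, R3b⟩ := drag (etas_sm d) (etas_zero hd) as (Ys.comp ss) (fun t => Yb _ (sb t)) hte
    fun t ht => by simp [ha, U0 t ht]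
  set R3 : ℂ → ℂ := fun y => ∫ t in t0..e0, a t * etas d (y - (Y ∘ s) t) with hR3
  have ab : ∫ t in t0..e0, ‖a t‖ ≤ u ^ 2 * τ := by
    have i1 : ∫ t in t0..e0, U t = Λ := by
      rw [intervalIntegral.integral_eq_sub_of_hasDerivAt (fun t _ => sd t) (Us.continuous.intervalIntegrable _ _),
        s0, s1, sub_zero]
    have hc : Continuous fun t => u * U t := continuous_const.mul Us.continuous
    have i2 := intervalIntegral.integral_mono_on (μ := volume) (g := fun t => u ^ 2 - u * U t) hte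
      (as.continuous.norm.intervalIntegrable _ _)
      (intervalIntegrable_const.sub (hc.intervalIntegrable _ _)) fun t _ => by
        have e : (U t ^ 2 - u * U t : ℂ) = -((U t * (u - U t) : ℝ) : ℂ) := by push_cast; ring
        have := Ub t
        rw [ha, norm_mul, norm_ex, mul_one, e, norm_neg, Complex.norm_real,
          Real.norm_of_nonneg (mul_nonneg this.1 (sub_nonneg.2 this.2))]
        nlinarith [sq_nonneg (u - U t)]
    rw [intervalIntegral.integral_sub intervalIntegrable_const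
      (hc.intervalIntegrable _ _), intervalIntegral.integral_const_mul, i1,
      intervalIntegral.integral_const, smul_eq_mul] at i2
    refine i2.trans (le_of_eq ?_)
    rw [he0]; field_simp; ring
  have R1s' : ContDiff ℝ ∞ fun y => ((c0 * u : ℝ) : ℂ) * R1 y := contDiff_const.mul R1s
  have R2s' : ContDiff ℝ ∞ fun y => ((c0 * u : ℝ) : ℂ) * R2 y := contDiff_const.mul R2s
  have R3s' : ContDiff ℝ ∞ fun y => (c0 : ℂ) * R3 y := contDiff_const.mul R3s
  have R30' : ∀ y, 60 * l < ‖y‖ → R3 y = 0 := fun y hy => R30 y (by linarith)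
  refine ⟨U, fun t => φ (s t), fun t => Y (s t), e0, fun y => ((c0 * u : ℝ) : ℂ) * R1 y,
    fun y => ((c0 * u : ℝ) : ℂ) * R2 y + c0 * R3 y, Us, φs.comp ss, Ys.comp ss, by linarith, by linarith, Ub, U0,
    fun t => ⟨(Ud t).trans (by gcongr), ?_, ?_⟩, fun t => ?_, fun t => Yb _ (sb t), R1s', R2s'.add R3s',
    fun y hy => by simp [R0 y hy, R30' y hy], fun y => ?_, fun k hk => ⟨?_, ?_⟩⟩
  · rw [(d1 t).deriv, abs_mul, abs_of_nonneg (Ub t).1, mul_right_comm]
    exact mul_le_mul_of_nonneg_right (((le_div_iff₀ hh0).1 (φb _).1).trans (by linarith)) (Ub t).1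
  · rw [funext fun t => (d1 t).deriv, (d2' t).deriv]
    have b1 := Ub t
    have b2 : M * u / τ ≤ M * u ^ 2 / h := by
      rw [div_le_div_iff₀ hτ hh0]
      nlinarith [mul_le_mul_of_nonneg_left hh (by positivity : 0 ≤ M * u)]
    refine (abs_add_le _ _).trans ?_
    rw [abs_mul, abs_mul, abs_mul, abs_of_nonneg b1.1]
    calc _ ≤ C0 / h ^ 2 * u * u + C0 / h * (M * u ^ 2 / h) :=
          add_le_add (mul_le_mul (mul_le_mul (φb _).2 b1.2 b1.1 (by positivity)) b1.2 b1.1 (by positivity))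
            (mul_le_mul (φb _).1 ((Ud t).trans b2) (abs_nonneg _) (by positivity))
      _ = C0 * (1 + M) * u ^ 2 / h ^ 2 := by field_simp
      _ ≤ _ := by gcongr
  · exact ((Yd (s t)).scomp t (sd t)).congr_deriv Complex.real_smul
  · have gc : Continuous fun r => ex (2 * φ r) * etas d (y - Y r) :=
      (ex_sm (contDiff_const.mul φs)).continuous.mul
        ((etas_sm d).continuous.comp (continuous_const.sub Ys.continuous))
    have i1 := intervalIntegral.integral_deriv_smul_comp (fun t _ => sd t) Us.continuous.continuousOn gc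
      (a := t0) (b := e0)
    rw [s0, s1, Rid y] at i1
    have i2 : ∫ t, U t ^ 2 * ex (2 * φ (s t)) * etas d (y - Y (s t)) =
        ∫ t in t0..e0, U t ^ 2 * ex (2 * φ (s t)) * etas d (y - Y (s t)) := by
      rw [intervalIntegral.integral_of_le hte, ← integral_Icc_eq_integral_Ioc]
      exact (setIntegral_eq_integral_of_forall_compl_eq_zero fun t ht => by simp [U0 t ht]).symm
    have i3 : ∫ t in t0..e0, U t ^ 2 * ex (2 * φ (s t)) * etas d (y - Y (s t)) =
        u * (∫ t in t0..e0, U t • ((fun r => ex (2 * φ r) * etas d (y - Y r)) ∘ s) t) + R3 y := by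
      have k1 : Continuous fun t => (u : ℂ) * U t • ((fun r => ex (2 * φ r) * etas d (y - Y r)) ∘ s) t :=
        continuous_const.mul (Us.continuous.smul (gc.comp ss.continuous))
      have k2 : Continuous fun t => a t * etas d (y - (Y ∘ s) t) := as.continuous.mul
        ((etas_sm d).continuous.comp (continuous_const.sub (Ys.comp ss).continuous))
      rw [hR3, ← intervalIntegral.integral_const_mul, ← intervalIntegral.integral_add
        (k1.intervalIntegrable _ _) (k2.intervalIntegrable _ _)]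
      refine intervalIntegral.integral_congr fun t _ => ?_
      simp only [ha, Function.comp, Complex.real_smul]
      ring
    have e : c0 * u * (2 * h * N0 / d2 ^ 2) * κ = 1 := by rw [hN, hκ]; field_simp
    have e' : (c0 * u * (2 * h * N0 / d2 ^ 2) * κ : ℂ) = 1 := by exact_mod_cast e
    rw [i2, i3, i1]
    push_cast
    linear_combination (-m y) * e'
  · simp only [nD_mul R1s, integral_const_mul]
    rw [Complex.norm_real, Real.norm_of_nonneg (by positivity)]
    refine (mul_le_mul_of_nonneg_left (Rb k hk).1 (by positivity)).trans ?_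
    rw [eN]
    calc _ = 1 / 2 * c0 * u ^ 2 * T * (h / l) / l ^ k := by field_simp
      _ ≤ _ := by gcongr; linarith
  · have i2 := nD_int R2s (fun y hy => (R0 y hy).2) k
    have i3 := nD_int R3s R30' k
    have Ek : E k ≤ C := by
      have := mul_nonneg (zero_le_one.trans hC0) hM
      rcases hk with rfl | rfl <;> nlinarith [E0 0, E0 2]
    have b3 : ∫ y, nD k R3 y ≤ u ^ 2 * τ * (C / d ^ k) := (R3b k).trans (mul_le_mul ab
      ((etas_int k hd).trans (by gcongr)) (integral_nonneg fun _ => norm_nonneg _) (by positivity))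
    refine (integral_mono (nD_int (R2s'.add R3s') (r := 60 * l) (fun y hy => by simp [R0 y hy, R30' y hy]) k)
      ((i2.const_mul (c0 * u)).add (i3.const_mul c0)) fun y => (nD_add R2s' R3s' k y).trans (le_of_eq ?_)).trans ?_
    · rw [nD_mul R2s, nD_mul R3s, Complex.norm_real, Complex.norm_real, Real.norm_of_nonneg (by positivity),
        Real.norm_of_nonneg hc0.le]
      rfl
    · simp only [Pi.add_apply]
      rw [integral_add (i2.const_mul _) (i3.const_mul _), integral_const_mul, integral_const_mul]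
      refine (add_le_add (mul_le_mul_of_nonneg_left (Rb k hk).2 (by positivity))
        (mul_le_mul_of_nonneg_left b3 hc0.le)).trans ?_
      rw [eN]
      calc _ = c0 * u ^ 2 * T * (C0 * (l ^ 3 / (u * T * d2 ^ 2)) + 1 / 2 * (d2 / d) + C * (τ / T)) / d ^ k := by
            rw [hN]; field_simp
        _ ≤ c0 * u ^ 2 * T * (C * (l ^ 3 / (u * T * d2 ^ 2)) + C * (d2 / d) + C * (τ / T)) / d ^ k := by
            gcongr <;> linarith
        _ = _ := by ring

end

end Pool.Agent.Lib.EUL
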