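import Pool.Agent.Lib.EUL.Blue

/-! Block ROUND: one turn along a rounded hexagon. -/

set_option autoImplicit false

namespace Pool.Agent.Lib.EUL

open MeasureTheory Set Filter Topology
open scoped ContDiff Classical

noncomputable section

namespace ROUND

theorem smT : ContDiff ℝ ∞ Real.smoothTransition := Real.smoothTransition.contDiff

theorem bdd : ∃ B : ℝ, 0 ≤ B ∧ ∀ x, |deriv Real.smoothTransition x| ≤ B ∧
    |deriv (deriv Real.smoothTransition) x| ≤ B := by
  have h1 : ContDiff ℝ ∞ (deriv Real.smoothTransition) := (contDiff_infty_iff_deriv.1 smT).2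
  have h2 : ContDiff ℝ ∞ (deriv (deriv Real.smoothTransition)) :=
    (contDiff_infty_iff_deriv.1 h1).2
  have hc : HasCompactSupport (deriv Real.smoothTransition) := by
    refine HasCompactSupport.intro (isCompact_Icc (a := (0 : ℝ)) (b := 1)) fun x hx => ?_
    rw [mem_Icc, not_and_or, not_le, not_le] at hx
    rcases hx with hx | hx
    · have : Real.smoothTransition =ᶠ[𝓝 x] fun _ => (0 : ℝ) := by
        filter_upwards [Iio_mem_nhds hx] with y hy
        exact Real.smoothTransition.zero_of_nonpos (le_of_lt hy)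
      rw [this.deriv_eq, deriv_const]
    · have : Real.smoothTransition =ᶠ[𝓝 x] fun _ => (1 : ℝ) := by
        filter_upwards [Ioi_mem_nhds hx] with y hy
        exact Real.smoothTransition.one_of_one_le (le_of_lt hy)
      rw [this.deriv_eq, deriv_const]
  obtain ⟨B1, hB1⟩ := h1.continuous.bounded_above_of_compact_support hc
  obtain ⟨B2, hB2⟩ := h2.continuous.bounded_above_of_compact_support hc.deriv
  refine ⟨max 0 (max B1 B2), le_max_left _ _, fun x => ⟨?_, ?_⟩⟩
  · exact (hB1 x).trans ((le_max_left _ _).trans (le_max_right _ _))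
  · exact (hB2 x).trans ((le_max_right _ _).trans (le_max_right _ _))

/-- start of the flat piece number `n` -/
def aa (h : ℝ) (σ : ℕ → ℝ) (n : ℕ) : ℝ := ∑ j ∈ Finset.range n, (σ j + h)

def sm (f : ℝ → ℝ) (h : ℝ) (σ : ℕ → ℝ) (s : ℝ) : ℝ :=
  ∑ j ∈ Finset.range 6, f ((s - (aa h σ j + σ j)) / h)

def ph (h : ℝ) (σ : ℕ → ℝ) (s : ℝ) : ℝ := Real.pi / 3 * sm Real.smoothTransition h σ s

theorem aa_succ (h : ℝ) (σ : ℕ → ℝ) (n : ℕ) : aa h σ (n + 1) = aa h σ n + (σ n + h) :=
  Finset.sum_range_succ _ _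

theorem aa_mono {h : ℝ} {σ : ℕ → ℝ} (hh : 0 < h) (hσ : ∀ j, 0 ≤ σ j) : Monotone (aa h σ) :=
  monotone_nat_of_le_succ fun n => by
    rw [aa_succ]
    linarith [hσ n]

theorem sm_deriv (f : ℝ → ℝ) (hf : Differentiable ℝ f) (h : ℝ) (σ : ℕ → ℝ) (s : ℝ) :
    HasDerivAt (sm f h σ) (h⁻¹ * sm (deriv f) h σ s) s := by
  unfold sm
  rw [Finset.mul_sum]
  refine HasDerivAt.fun_sum fun j _ => ?_
  have h1 : HasDerivAt (fun s : ℝ => (s - (aa h σ j + σ j)) / h) (1 / h) s :=
    ((hasDerivAt_id s).sub_const _).div_const h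
  have h2 := (hf _).hasDerivAt.comp s h1
  rw [one_div, mul_comm] at h2
  exact h2

theorem sm_le (f : ℝ → ℝ) (B : ℝ) (hB : ∀ x, |f x| ≤ B) (h : ℝ) (σ : ℕ → ℝ) (s : ℝ) :
    |sm f h σ s| ≤ 6 * B := by
  unfold sm
  refine (Finset.abs_sum_le_sum_abs _ _).trans ?_
  refine (Finset.sum_le_sum fun j _ => hB _).trans ?_
  simp

theorem ph_smooth (h : ℝ) (σ : ℕ → ℝ) : ContDiff ℝ ∞ (ph h σ) := by
  unfold ph sm
  refine contDiff_const.mul (ContDiff.sum fun j _ => smT.comp ?_)
  exact (contDiff_id.sub contDiff_const).div_const h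

theorem ph_val {h : ℝ} {σ : ℕ → ℝ} (hh : 0 < h) (hσ : ∀ j, 0 ≤ σ j) (n : ℕ) (hn : n < 6) (s : ℝ)
    (h1 : aa h σ n ≤ s) (h2 : s ≤ aa h σ (n + 1)) : ph h σ s =
      n * Real.pi / 3 + Real.pi / 3 * Real.smoothTransition ((s - (aa h σ n + σ n)) / h) := by
  have e : ∀ j ∈ Finset.range 6, Real.smoothTransition ((s - (aa h σ j + σ j)) / h) =
      (if j < n then 1 else 0) +
        if j = n then Real.smoothTransition ((s - (aa h σ n + σ n)) / h) else 0 := by
    intro j _
    rcases lt_trichotomy j n with hj | rfl | hj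
    · rw [if_pos hj, if_neg hj.ne, add_zero]
      apply Real.smoothTransition.one_of_one_le
      rw [le_div_iff₀ hh]
      have := aa_mono hh hσ (show j + 1 ≤ n from hj)
      rw [aa_succ] at this
      linarith
    · simp
    · rw [if_neg (by omega), if_neg hj.ne', add_zero]
      apply Real.smoothTransition.zero_of_nonpos
      apply div_nonpos_of_nonpos_of_nonneg _ hh.le
      have := aa_mono hh hσ (show n + 1 ≤ j from hj)
      linarith [hσ j]
  unfold ph sm
  rw [Finset.sum_congr rfl e, Finset.sum_add_distrib, Finset.sum_ite_eq',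
    if_pos (Finset.mem_range.2 hn)]
  have : ∑ j ∈ Finset.range 6, (if j < n then (1 : ℝ) else 0) = n := by
    simp only [Finset.sum_range_succ, Finset.sum_range_zero]
    interval_cases n <;> norm_num
  rw [this]
  ring

theorem ex_add (a b : ℝ) : ex (a + b) = ex a * ex b := by
  unfold ex
  rw [← Complex.exp_add]
  congr 1
  push_cast
  ring

theorem ex_cont : Continuous ex := by
  unfold ex
  fun_prop

def cc (m : ℝ) : ℂ := ∫ x in (0 : ℝ)..1, ex (m * (Real.pi / 3 * Real.smoothTransition x))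

theorem piece {h : ℝ} {σ : ℕ → ℝ} (hh : 0 < h) (hσ : ∀ j, 0 ≤ σ j) (m : ℝ) (n : ℕ) (hn : n < 6) :
    ∫ s in aa h σ n..aa h σ (n + 1), ex (m * ph h σ s) =
      ex (m * (n * Real.pi / 3)) * (σ n + h * cc m) := by
  have hle : aa h σ n ≤ aa h σ (n + 1) := aa_mono hh hσ (Nat.le_succ n)
  set b := aa h σ n + σ n with hb
  set g : ℝ → ℂ := fun x => ex (m * (Real.pi / 3 * Real.smoothTransition x)) with hg
  have hgc : Continuous g :=
    ex_cont.comp (continuous_const.mul (continuous_const.mul smT.continuous))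
  have hgc' : Continuous fun s => g ((s - b) / h) :=
    hgc.comp ((continuous_id.sub continuous_const).div_const h)
  have e1 : ∫ s in aa h σ n..aa h σ (n + 1), ex (m * ph h σ s) =
      ∫ s in aa h σ n..aa h σ (n + 1), ex (m * (n * Real.pi / 3)) * g ((s - b) / h) := by
    refine intervalIntegral.integral_congr fun s hs => ?_
    rw [uIcc_of_le hle] at hs
    simp only [hg]
    rw [ph_val hh hσ n hn s hs.1 hs.2, mul_add, ex_add]
  have e2 : ∫ s in aa h σ n..b, g ((s - b) / h) = σ n := by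
    have : ∫ s in aa h σ n..b, g ((s - b) / h) = ∫ _ in aa h σ n..b, (1 : ℂ) := by
      refine intervalIntegral.integral_congr fun s hs => ?_
      rw [uIcc_of_le (by rw [hb]; linarith [hσ n])] at hs
      have h0 : Real.smoothTransition ((s - b) / h) = 0 :=
        Real.smoothTransition.zero_of_nonpos
          (div_nonpos_of_nonpos_of_nonneg (by linarith [hs.2]) hh.le)
      simp [hg, h0, ex]
    rw [this, intervalIntegral.integral_const, hb]
    simp
  have e3 : ∫ s in b..aa h σ (n + 1), g ((s - b) / h) = h * cc m := by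
    have h1 := intervalIntegral.integral_comp_sub_right (a := b) (b := aa h σ (n + 1))
      (fun x => g (x / h)) b
    rw [h1, intervalIntegral.integral_comp_div _ hh.ne']
    have h2 : (aa h σ (n + 1) - b) / h = 1 := by
      rw [aa_succ, hb, div_eq_one_iff_eq hh.ne']
      ring
    rw [h2, sub_self, zero_div]
    simp [cc, hg]
  rw [e1, intervalIntegral.integral_const_mul,
    ← intervalIntegral.integral_add_adjacent_intervals (b := b) (hgc'.intervalIntegrable _ _)
      (hgc'.intervalIntegrable _ _), e2, e3]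

theorem total {h : ℝ} {σ : ℕ → ℝ} (hh : 0 < h) (hσ : ∀ j, 0 ≤ σ j) (m : ℝ) :
    ∫ s in (0 : ℝ)..aa h σ 6, ex (m * ph h σ s) =
      ∑ j ∈ Finset.range 6, σ j * ex (m * (j * Real.pi / 3)) +
        h * cc m * ∑ j ∈ Finset.range 6, ex (m * (j * Real.pi / 3)) := by
  have hc : Continuous fun s => ex (m * ph h σ s) :=
    ex_cont.comp (continuous_const.mul (ph_smooth h σ).continuous)
  have h0 : aa h σ 0 = 0 := by simp [aa]
  have := intervalIntegral.sum_integral_adjacent_intervals (μ := volume) (a := aa h σ) (n := 6)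
    (f := fun s => ex (m * ph h σ s)) fun k _ => hc.intervalIntegrable _ _
  rw [h0] at this
  rw [← this, Finset.mul_sum, ← Finset.sum_add_distrib]
  refine Finset.sum_congr rfl fun j hj => ?_
  rw [piece hh hσ m j (Finset.mem_range.1 hj)]
  ring

theorem ex_nat (a : ℝ) (j : ℕ) : ex (j * a) = ex a ^ j := by
  unfold ex
  rw [← Complex.exp_nat_mul]
  congr 1
  push_cast
  ring

theorem ex_pi : ex Real.pi = -1 := Complex.exp_pi_mul_I

theorem cube : ex (Real.pi / 3) ^ 3 = -1 := by
  rw [← ex_nat, ← ex_pi]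
  congr 1
  push_cast
  ring

theorem ex_re : (ex (Real.pi / 3)).re = 1 / 2 := by
  unfold ex
  rw [Complex.exp_ofReal_mul_I_re, Real.cos_pi_div_three]

theorem quad : ex (Real.pi / 3) ^ 2 - ex (Real.pi / 3) + 1 = 0 := by
  have h1 : ex (Real.pi / 3) + 1 ≠ 0 := by
    intro h
    have := congrArg Complex.re h
    rw [Complex.add_re, ex_re] at this
    norm_num at this
  apply mul_left_cancel₀ h1
  linear_combination cube

theorem e1 (j : ℕ) : ex (1 * (j * Real.pi / 3)) = ex (Real.pi / 3) ^ j := by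
  rw [← ex_nat]
  congr 1
  ring

theorem e2 (j : ℕ) : ex (2 * (j * Real.pi / 3)) = (ex (Real.pi / 3) ^ j) ^ 2 := by
  rw [← ex_nat, ← ex_nat]
  congr 1
  push_cast
  ring

theorem ej_eq (j : ℕ) : ej j = ex (Real.pi / 3) ^ j := by
  rw [← e1, one_mul]
  rfl

end ROUND

open ROUND in
theorem st_ROUND : St_ROUND := by
  obtain ⟨B, hB0, hB⟩ := bdd
  have hpi := Real.pi_pos
  refine ⟨1 + 2 * Real.pi * B, le_add_of_nonneg_right (by positivity), fun h σ hh hσ => ?_⟩
  set τ : ℕ → ℝ := fun j => if hj : j < 6 then σ ⟨j, hj⟩ else 0 with hτ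
  have hτ0 : ∀ j, 0 ≤ τ j := fun j => by
    simp only [hτ]
    split_ifs
    · exact hσ _
    · exact le_rfl
  have hτσ : ∀ j : Fin 6, τ j = σ j := fun j => by simp [hτ, j.2]
  have h6 : ∑ j, σ j + 6 * h = aa h τ 6 := by
    unfold aa
    rw [Finset.sum_add_distrib, ← Fin.sum_univ_eq_sum_range]
    simp [hτσ]
  have hd0 : Differentiable ℝ Real.smoothTransition := smT.differentiable (by simp)
  have hd1 : Differentiable ℝ (deriv Real.smoothTransition) :=
    (contDiff_infty_iff_deriv.1 smT).2.differentiable (by simp)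
  have d1 : deriv (ph h τ) =
      fun s => Real.pi / 3 * (h⁻¹ * sm (deriv Real.smoothTransition) h τ s) := by
    funext s
    exact ((sm_deriv _ hd0 h τ s).const_mul _).deriv
  have d2 : ∀ s, deriv (deriv (ph h τ)) s =
      Real.pi / 3 * (h⁻¹ * (h⁻¹ * sm (deriv (deriv Real.smoothTransition)) h τ s)) := by
    intro s
    rw [d1]
    exact (((sm_deriv _ hd1 h τ s).const_mul _).const_mul _).deriv
  have hi : 0 < h⁻¹ := inv_pos.2 hh
  refine ⟨ph h τ, ph_smooth h τ, fun s hs => ?_, fun s hs => ?_, fun s => ⟨?_, ?_⟩, ?_, ?_⟩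
  · unfold ph sm
    rw [Finset.sum_eq_zero, mul_zero]
    intro j _
    apply Real.smoothTransition.zero_of_nonpos
    apply div_nonpos_of_nonpos_of_nonneg _ hh.le
    have := aa_mono hh hτ0 (Nat.zero_le j)
    have h0 : aa h τ 0 = 0 := by simp [aa]
    linarith [hτ0 j]
  · rw [h6] at hs
    unfold ph sm
    rw [Finset.sum_congr rfl (g := fun _ => (1 : ℝ))]
    · simp
      ring
    · intro j hj
      apply Real.smoothTransition.one_of_one_le
      rw [le_div_iff₀ hh]
      have := aa_mono hh hτ0 (show j + 1 ≤ 6 from Finset.mem_range.1 hj)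
      rw [aa_succ] at this
      linarith
  · rw [d1]
    have := sm_le _ B (fun x => (hB x).1) h τ s
    simp only [abs_mul]
    rw [abs_of_pos (by positivity : 0 < Real.pi / 3), abs_of_pos hi, div_eq_mul_inv _ h]
    have h2 : Real.pi / 3 * (h⁻¹ * |sm (deriv Real.smoothTransition) h τ s|) ≤
        Real.pi / 3 * (h⁻¹ * (6 * B)) := by gcongr
    nlinarith
  · rw [d2]
    have := sm_le _ B (fun x => (hB x).2) h τ s
    simp only [abs_mul]
    rw [abs_of_pos (by positivity : 0 < Real.pi / 3), abs_of_pos hi, div_eq_mul_inv _ (h ^ 2),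
      ← inv_pow]
    have h2 : Real.pi / 3 * (h⁻¹ * (h⁻¹ * |sm (deriv (deriv Real.smoothTransition)) h τ s|)) ≤
        Real.pi / 3 * (h⁻¹ * (h⁻¹ * (6 * B))) := by gcongr
    nlinarith [pow_pos hi 2]
  · have := total hh hτ0 1
    simp only [e1] at this
    simp only [one_mul] at this
    have hz : ∑ j ∈ Finset.range 6, ex (Real.pi / 3) ^ j = 0 := by
      simp only [Finset.sum_range_succ, Finset.sum_range_zero]
      linear_combination (1 + ex (Real.pi / 3) + ex (Real.pi / 3) ^ 2) * cube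
    rw [h6, this, hz, mul_zero, add_zero, ← Fin.sum_univ_eq_sum_range
      (fun j => (τ j : ℂ) * ex (Real.pi / 3) ^ j)]
    simp only [hτσ, ej_eq]
  · have := total hh hτ0 2
    simp only [e2] at this
    have hz : ∑ j ∈ Finset.range 6, (ex (Real.pi / 3) ^ j) ^ 2 = 0 := by
      simp only [Finset.sum_range_succ, Finset.sum_range_zero]
      linear_combination (1 + ex (Real.pi / 3) ^ 6) *
        (ex (Real.pi / 3) ^ 2 + ex (Real.pi / 3) + 1) * quad
    rw [h6, this, hz, mul_zero, add_zero, ← Fin.sum_univ_eq_sum_range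
      (fun j => (τ j : ℂ) * (ex (Real.pi / 3) ^ j) ^ 2)]
    simp only [hτσ, ej_eq]

end

end Pool.Agent.Lib.EUL
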