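import Pool.Agent.Lib.EUL.H69Nice
import Pool.Agent.Lib.EUL.B_ROUND

/-! Block PATH0: a path whose occupation density reproduces a given stress. -/

open MeasureTheory Set Filter Topology
open scoped ContDiff ComplexConjugate

namespace Pool.Agent.Lib.EUL

namespace PATH0

open SM

noncomputable section

def om (k : Fin 3) : ℂ := ej k ^ 2

lemma norm_om (k : Fin 3) : ‖om k‖ = 1 := by
  rw [om, norm_pow, ej, Complex.norm_exp_ofReal_mul_I, one_pow]

lemma om_conj (k : Fin 3) : conj (om k) * om k = 1 := by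
  rw [Complex.conj_mul', norm_om]; simp

lemma sum_om : ∑ k, om k = 0 ∧ ∑ k, om k ^ 2 = 0 := by
  have h := ROUND.quad
  simp only [Fin.sum_univ_three, om, ROUND.ej_eq]
  generalize ex (Real.pi / 3) = e at h
  constructor
  · change (e ^ 0) ^ 2 + (e ^ 1) ^ 2 + (e ^ 2) ^ 2 = 0
    linear_combination (e ^ 2 + e + 1) * h
  · change ((e ^ 0) ^ 2) ^ 2 + ((e ^ 1) ^ 2) ^ 2 + ((e ^ 2) ^ 2) ^ 2 = 0
    linear_combination (e ^ 2 + e + 1) * (e ^ 4 - e ^ 2 + 1) * h

/-- the weights of the three stadium types -/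
def BB (l : ℝ) (μ : ℂ → ℂ) (k : Fin 3) (y : ℂ) : ℂ :=
  (1 / 3 : ℂ) * (th (y / (3 * l : ℝ)) : ℂ) +
    (conj (om k) / 3 * μ y + om k / 3 * conj (μ y))

def bb (l : ℝ) (μ : ℂ → ℂ) (k : Fin 3) (y : ℂ) : ℝ :=
  th (y / (3 * l : ℝ)) / 3 + 2 / 3 * (conj (om k) * μ y).re

lemma BB_eq (l : ℝ) (μ : ℂ → ℂ) (k : Fin 3) (y : ℂ) : BB l μ k y = bb l μ k y := by
  have h := Complex.add_conj (conj (om k) * μ y)
  rw [map_mul, Complex.conj_conj] at h
  unfold BB bb
  push_cast at h ⊢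
  linear_combination h / 3

lemma sum_BB (l : ℝ) (μ : ℂ → ℂ) (y : ℂ) : ∑ k, om k * BB l μ k y = μ y := by
  have h1 := sum_om.1
  have h2 := sum_om.2
  simp only [Fin.sum_univ_three, BB] at h1 h2 ⊢
  linear_combination (th (y / (3 * l : ℝ)) : ℂ) / 3 * h1 + conj (μ y) / 3 * h2 +
    μ y / 3 * (om_conj 0 + om_conj 1 + om_conj 2)

variable {l : ℝ} {μ : ℂ → ℂ}

lemma bb_mem (hl : 0 < l) (hs : ∀ y, 3 * l < ‖y‖ → μ y = 0) (hb : ∀ y, ‖μ y‖ ≤ 1 / 2) (k : Fin 3)
    (y : ℂ) : 0 ≤ bb l μ k y ∧ bb l μ k y ≤ 1 := by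
  have h1 : |(conj (om k) * μ y).re| ≤ 1 / 2 := by
    refine (Complex.abs_re_le_norm _).trans ?_
    rw [norm_mul, Complex.norm_conj, norm_om, one_mul]
    exact hb y
  have h2 : 0 ≤ th (y / (3 * l : ℝ)) := Real.smoothTransition.nonneg _
  have h3 : th (y / (3 * l : ℝ)) ≤ 1 := Real.smoothTransition.le_one _
  rw [abs_le] at h1
  unfold bb
  refine ⟨?_, by linarith [h1.2]⟩
  by_cases hy : 3 * l < ‖y‖
  · rw [hs y hy]; simp only [mul_zero, Complex.zero_re]; linarith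
  · rw [th_one]
    · linarith [h1.1]
    · rw [norm_div, Complex.norm_real, Real.norm_of_nonneg (by linarith), div_le_one (by linarith)]
      exact not_lt.1 hy

lemma nice_ths (hl : 0 < l) : Nice (fun y => (th (y / (3 * l : ℝ)) : ℂ)) (6 * l) :=
  ⟨nice_th.1.comp (contDiff_id.div_const _), fun y hy => nice_th.2 _ (by
    rw [norm_div, Complex.norm_real, Real.norm_of_nonneg (by linarith), lt_div_iff₀ (by linarith)]
    linarith)⟩

lemma nice_BB (hl : 0 < l) (hμ : Nice μ (3 * l)) (k : Fin 3) : Nice (BB l μ k) (6 * l) :=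
  ((nice_ths hl).cmul _).add (((hμ.cmul _).add (hμ.conj.cmul _)).mono (by linarith))

lemma nD_BB {C : ℝ} (hl : 0 < l) (hμ : Nice μ (3 * l))
    (hC : ∀ s : ℝ, 0 < s → ∀ k ≤ 3, ∀ y, nD k (fun y => (th (y / s) : ℂ)) y ≤ C / s ^ k)
    (hb : ∀ k ≤ 3, ∀ y, l ^ k * nD k μ y ≤ 1 / 2) (k : Fin 3) (j : ℕ) (hj : j ≤ 3) (y : ℂ) :
    nD j (BB l μ k) y ≤ (C + 1) / l ^ j := by
  have h1 := nD_add ((nice_ths hl).cmul (1 / 3)).1
    ((hμ.cmul (conj (om k) / 3)).add (hμ.conj.cmul (om k / 3))).1 j y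
  have h2 := nD_add (hμ.cmul (conj (om k) / 3)).1 (hμ.conj.cmul (om k / 3)).1 j y
  rw [nD_cmul (nice_ths hl).1] at h1
  rw [nD_cmul hμ.1, nD_cmul hμ.conj.1, nD_conj] at h2
  have h3 := hC (3 * l) (by linarith) j hj y
  have h0 : 0 ≤ C / (3 * l) ^ j := (nD_nonneg _ _ _).trans h3
  have hC0 : 0 ≤ C := by
    by_contra hc
    exact absurd h0 (not_le.2 (div_neg_of_neg_of_pos (not_le.1 hc) (by positivity)))
  have h4 : C / (3 * l) ^ j ≤ C / l ^ j :=
    div_le_div_of_nonneg_left hC0 (by positivity) (pow_le_pow_left₀ hl.le (by linarith) j)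
  have h5 : nD j μ y ≤ 1 / l ^ j := by
    rw [le_div_iff₀ (by positivity)]
    linarith [hb j hj y]
  have h6 := nD_nonneg j μ y
  have h7 := nD_nonneg j (fun y => (th (y / (3 * l : ℝ)) : ℂ)) y
  simp only [norm_div, Complex.norm_conj, norm_om, norm_one, Complex.norm_ofNat] at h1 h2
  rw [add_div]
  refine le_trans h1 ?_
  linarith

end

end PATH0

open SM PATH0 in
theorem st_PATH0 (hT : St_TOUR) (hR : St_RIEM) : St_PATH0 := by
  obtain ⟨CT, hCT, hT⟩ := hT
  obtain ⟨CR, hCR, hR⟩ := hR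
  obtain ⟨Ce, hCe, he⟩ := exists_etas
  obtain ⟨Ct, hCt, ht⟩ := exists_th
  have p1 : 0 ≤ CR * Ce := by positivity
  have p2 : 0 ≤ Ce * (Ct + 1) := by positivity
  have p3 : 0 ≤ CR * Ce * (Ct + 2) := by positivity
  refine ⟨CT + 84 * CR + 194400 * (Ce * (Ct + 1)) + 84 * (CR * Ce) + 24 * (CR * Ce * (Ct + 2)),
    by linarith, fun l h d d2 N0 μ hd2 h2d hdh hhl hN hμ hμs hμb => ?_⟩
  have hd : 0 < d := by linarith
  have hh : 0 < h := by linarith
  have hl : 0 < l := by linarith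
  have hN0 : 0 < N0 := by
    by_contra hc
    nlinarith [mul_nonneg (neg_nonneg.2 (not_lt.1 hc)) hh.le]
  have hμn : Nice μ (3 * l) := ⟨hμ, hμs⟩
  have hb := bb_mem hl hμs fun y => by simpa [nD] using hμb 0 (by norm_num) y
  have hB := nice_BB hl hμn
  have hBD := nD_BB hl hμn ht hμb
  obtain ⟨φk, Yk, hk, hT⟩ := hT h hh
  obtain ⟨A, hA1, hA2, hR⟩ := hR l d2 hd2 (by linarith)
  obtain ⟨Λ, φ, Y, L, ψ, Z, h0, h1, h2, h3, h4, h5, h6, h7⟩ := hT A (fun i => d2 * lat i)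
    (fun i k => ⌊N0 * bb l μ k (d2 * lat i)⌋₊) (12 * l) (by linarith) fun i => hA2 i i.2
  choose G hG1 hG2 hG3 hG4 using fun k : Fin 3 =>
    curve hd (by linarith : 0 ≤ 8 * h) (hk k).1 (hk k).2.1 (hk k).2.2.1
  choose H hH1 hH2 hH3 hH4 using fun j =>
    curve hd (h6 j).1 (h6 j).2.2.1 (h6 j).2.2.2.1 (h6 j).2.2.2.2
  have hG5 : ∀ k, ∫ y, G k y = 2 * h * om k := fun k => (hG4 k).trans (hk k).2.2.2
  have hG6 : ∀ k, ∀ j ≤ 3, IN j (G k) ≤ 8 * h * (Ce / d ^ j) := fun k j hj =>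
    (hG3 k j).trans (mul_le_mul_of_nonneg_left (he d hd j hj) (by linarith))
  have hGz : ∀ k, ∀ᵐ w : ℂ, G k w = 0 ∨ ‖id w‖ ≤ 9 * h := fun k =>
    Eventually.of_forall fun w => (lt_or_ge (d + 8 * h) ‖w‖).imp ((hG2 k).2 w)
      fun hw => by simp only [id]; linarith
  have hBz : ∀ k, ∀ᵐ w : ℂ, BB l μ k w = 0 ∨ ‖id w‖ ≤ 6 * l := fun k =>
    Eventually.of_forall fun w => (lt_or_ge (6 * l) ‖w‖).imp ((hB k).2 w) id
  have hfl : ∀ (i : A) k, ‖((⌊N0 * bb l μ k (d2 * lat i)⌋₊ : ℕ) : ℂ) - N0 * BB l μ k (d2 * lat i)‖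
      ≤ 1 := fun i k => by
    have a0 := mul_nonneg hN0.le (hb k (d2 * lat i)).1
    have a1 := Nat.floor_le a0
    have a2 := Nat.lt_floor_add_one (N0 * bb l μ k (d2 * lat i))
    rw [BB_eq, ← Complex.ofReal_natCast, ← Complex.ofReal_mul, ← Complex.ofReal_sub,
      Complex.norm_real, Real.norm_eq_abs, abs_le]
    constructor <;> linarith
  have hcard : (Fintype.card A : ℝ) ≤ CR * l ^ 2 / d2 ^ 2 := by rwa [Fintype.card_coe]
  -- the pieces
  have n1 : ∀ k, Nice (fun y => sm volume (G k) id (BB l μ k) y - (∫ w, G k w) * BB l μ k y)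
      (15 * l) := fun k =>
    (((hB k).sm (hG2 k).int measurable_id (hGz k)).mono (by linarith)).sub
      (((hB k).cmul _).mono (by linarith))
  have n2 : ∀ (i : A) k, Nice (fun y => (((⌊N0 * bb l μ k (d2 * lat i)⌋₊ : ℕ) : ℂ) -
      N0 * BB l μ k (d2 * lat i)) * G k (y - d2 * lat i)) (60 * l) := fun i k =>
    (((hG2 k).shift (hA2 i i.2)).cmul _).mono (by linarith)
  have n3 : ∀ j, Nice (H j) (60 * l) := fun j => (hH2 j).mono (by linarith)
  have n4 : ∀ k, Nice (fun y => ∑ n ∈ A, (d2 : ℂ) ^ 2 * BB l μ k (d2 * lat n) * G k (y - d2 * lat n)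
      - ∫ w, BB l μ k w * G k (y - w)) (60 * l) := fun k =>
    (nice_sum A fun n hn => (((hG2 k).shift (hA2 n hn)).cmul _).mono (by linarith)).sub
      (((hG2 k).sm (hB k).int measurable_id (hBz k)).mono (by linarith))
  have m1 := (nice_sum Finset.univ fun k _ => n1 k).cmul ((N0 / d2 ^ 2 : ℝ) : ℂ)
  have m2 := nice_sum Finset.univ fun i _ => nice_sum Finset.univ fun k _ => n2 i k
  have m3 := nice_sum Finset.univ fun j _ => n3 j
  have m4 := (nice_sum Finset.univ fun k _ => n4 k).cmul ((N0 / d2 ^ 2 : ℝ) : ℂ)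
  have m5 := (m2.add m3).add m4
  have hnn : ‖((N0 / d2 ^ 2 : ℝ) : ℂ)‖ = N0 / d2 ^ 2 := by
    rw [Complex.norm_real, Real.norm_of_nonneg (by positivity)]
  have hX : 0 < N0 * h * l ^ 2 / d2 ^ 2 := by positivity
  refine ⟨Λ, φ, Y, _, _, h0, h1.trans ?_, h2, fun s => ⟨(h3 s).1.trans ?_, (h3 s).2.trans ?_⟩, h4,
    fun s hs => (h5 s hs).trans (by linarith), m1.1, m5.1,
    fun y hy => ⟨m1.2 y (by linarith), m5.2 y hy⟩, fun y => ?_, fun k hk2 => ⟨?_, ?_⟩⟩
  · refine (Finset.sum_le_card_nsmul _ _ (84 * (N0 * h)) fun i _ => ?_).trans ?_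
    · have a : ∀ k, ((⌊N0 * bb l μ k (d2 * lat i)⌋₊ : ℕ) : ℝ) ≤ N0 := fun k =>
        (Nat.floor_le (mul_nonneg hN0.le (hb k _).1)).trans
          (mul_le_of_le_one_right hN0.le (hb k _).2)
      rw [Fin.sum_univ_three]
      nlinarith [a 0, a 1, a 2]
    · rw [nsmul_eq_mul, Finset.card_univ]
      refine (mul_le_mul_of_nonneg_right hcard (by positivity)).trans ?_
      rw [show CR * l ^ 2 / d2 ^ 2 * (84 * (N0 * h)) = 84 * CR * (N0 * h * l ^ 2 / d2 ^ 2) by ring,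
        mul_assoc _ N0, mul_assoc _ (N0 * h), mul_div_assoc _ (N0 * h * l ^ 2)]
      exact mul_le_mul_of_nonneg_right (by linarith) hX.le
  · exact div_le_div_of_nonneg_right (by linarith) hh.le
  · exact div_le_div_of_nonneg_right (by linarith) (by positivity)
  · have e0 := h7 (fun z => etas d (y - z))
      ((nice_etas hd).1.continuous.comp (continuous_const.sub continuous_id))
    have e1 : ∀ k, sm volume (G k) id (BB l μ k) y = ∫ w, BB l μ k w * G k (y - w) := fun k => by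
      rw [← integral_sub_left_eq_self (fun w => BB l μ k w * G k (y - w)) volume y]
      simp only [sm, id, sub_sub_cancel, mul_comm]
    have e2 : ∀ k, ∑ n ∈ A, (d2 : ℂ) ^ 2 * BB l μ k (d2 * lat n) * G k (y - d2 * lat n) =
        (d2 : ℂ) ^ 2 * ∑ i : A, BB l μ k (d2 * lat i) * G k (y - d2 * lat i) := fun k => by
      rw [Finset.mul_sum, ← Finset.sum_coe_sort A]
      exact Finset.sum_congr rfl fun i _ => mul_assoc _ _ _
    have e3 := sum_BB l μ y
    have e4 : (d2 : ℂ) ≠ 0 := Complex.ofReal_ne_zero.2 hd2.ne'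
    simp only [← sub_sub, ← hG1, ← hH1] at e0
    rw [e0]
    simp only [e2]
    simp only [e1, hG5, Fin.sum_univ_three, sub_mul, mul_assoc, Finset.sum_add_distrib,
      Finset.sum_sub_distrib, ← Finset.mul_sum] at e3 ⊢
    rw [← e3]
    push_cast
    field_simp
    ring
  · have hk3 : k + 1 ≤ 3 := by omega
    have a : ∀ j, IN k (fun y => sm volume (G j) id (BB l μ j) y - (∫ w, G j w) * BB l μ j y) ≤
        4 * (15 * l) ^ 2 * (8 * h * Ce * ((Ct + 1) / l ^ (k + 1) * (9 * h))) := fun j => by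
      refine IN_le_sup (n1 j) (by linarith) k fun y => ?_
      refine (nD_sm_sub (hG2 j).int measurable_id (hB j).1 (hB j).cs k (hBD j _ hk3) (hGz j)
        y).trans (mul_le_mul_of_nonneg_right ?_ (by positivity))
      simpa [IN, nD] using hG6 j 0 (by norm_num)
    have b := IN_sum Finset.univ (fun k _ => n1 k) k fun j _ => a j
    refine (le_of_eq (IN_cmul (nice_sum Finset.univ fun k _ => n1 k).1 _ k)).trans ?_
    rw [hnn]
    refine (mul_le_mul_of_nonneg_left b (by positivity)).trans ?_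
    rw [Finset.card_univ, Fintype.card_fin, mul_assoc _ (N0 * h * l ^ 2 / d2 ^ 2),
      mul_div_assoc _ _ (l ^ k)]
    refine le_trans (le_of_eq ?_) (mul_le_mul_of_nonneg_right
      (by linarith : 194400 * (Ce * (Ct + 1)) ≤ _) (by positivity))
    push_cast
    field_simp
    ring
  · have hk3 : k + 1 ≤ 3 := by omega
    have hP : 0 < 1 / d ^ k := by positivity
    have a2 : ∀ (i : A) j, IN k (fun y => (((⌊N0 * bb l μ j (d2 * lat i)⌋₊ : ℕ) : ℂ) -
        N0 * BB l μ j (d2 * lat i)) * G j (y - d2 * lat i)) ≤ 8 * l * (Ce / d ^ k) := fun i j => by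
      rw [IN_cmul ((hG2 j).shift (hA2 i i.2)).1, IN_shift]
      refine (mul_le_of_le_one_left (IN_nonneg _ _) (hfl i j)).trans
        ((hG6 j k (by omega)).trans ?_)
      gcongr
    have b2 := IN_sum Finset.univ (fun i _ => nice_sum Finset.univ fun k _ => n2 i k) k
      fun i _ => IN_sum Finset.univ (fun k _ => n2 i k) k fun j _ => a2 i j
    have a3 : ∀ j, IN k (H j) ≤ 30 * l * (Ce / d ^ k) := fun j =>
      (hH3 j k).trans (mul_le_mul (by linarith [(h6 j).2.1]) (he d hd k (by omega))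
        (IN_nonneg _ _) (by linarith))
    have b3 := IN_sum Finset.univ (fun j _ => n3 j) k fun j _ => a3 j
    have a4 : ∀ j, IN k (fun y => ∑ n ∈ A, (d2 : ℂ) ^ 2 * BB l μ j (d2 * lat n) *
        G j (y - d2 * lat n) - ∫ w, BB l μ j w * G j (y - w)) ≤
        CR * l ^ 2 * d2 * ((Ct + 2) / d * (8 * h * (Ce / d ^ k))) := fun j => by
      refine (hR (BB l μ j) (G j) ((Ct + 1) / l ^ 1) k (hB j).1 (hG2 j).1 (hG2 j).cs (hB j).2
        (fun y => ?_) (hBD j 1 (by norm_num))).trans (mul_le_mul_of_nonneg_left ?_ (by positivity))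
      · rw [BB_eq, Complex.norm_real, Real.norm_of_nonneg (hb j y).1]; exact (hb j y).2
      · have c1 : (Ct + 1) / l ^ 1 * IN k (G j) ≤ (Ct + 1) / d * (8 * h * (Ce / d ^ k)) :=
          mul_le_mul (div_le_div_of_nonneg_left (by linarith) hd (by linarith))
            (hG6 j k (by omega)) (IN_nonneg _ _) (by positivity)
        have c2 := hG6 j (k + 1) hk3
        refine (add_le_add c1 c2).trans (le_of_eq ?_)
        field_simp
        ring
    have b4 := IN_sum Finset.univ (fun k _ => n4 k) k fun j _ => a4 j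
    have c4 := IN_cmul (nice_sum Finset.univ fun k _ => n4 k).1 ((N0 / d2 ^ 2 : ℝ) : ℂ) k
    rw [hnn] at c4
    have d4 := mul_le_mul_of_nonneg_left b4 (by positivity : 0 ≤ N0 / d2 ^ 2)
    have s1 := IN_add (m2.add m3) m4 k
    have s2 := IN_add m2 m3 k
    simp only [Finset.card_univ, Fintype.card_fin, Fintype.card_prod, Fintype.card_bool] at b2 b3 d4
    push_cast at b2 b3 d4
    rw [← c4] at d4
    have q := mul_le_mul_of_nonneg_right hcard (by positivity : 0 ≤ 84 * l * (Ce / d ^ k))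
    have u1 : CR * l ^ 2 / d2 ^ 2 * (84 * l * (Ce / d ^ k)) =
        84 * (CR * Ce) * (N0 * h * l ^ 2 / d2 ^ 2 * (l / (N0 * h)) / d ^ k) := by
      field_simp
    have u2 : N0 / d2 ^ 2 * (3 * (CR * l ^ 2 * d2 * ((Ct + 2) / d * (8 * h * (Ce / d ^ k))))) =
        24 * (CR * Ce * (Ct + 2)) * (N0 * h * l ^ 2 / d2 ^ 2 * (d2 / d) / d ^ k) := by
      field_simp
      ring
    have v1 : 0 ≤ N0 * h * l ^ 2 / d2 ^ 2 * (l / (N0 * h)) / d ^ k := by positivity
    have v2 : 0 ≤ N0 * h * l ^ 2 / d2 ^ 2 * (d2 / d) / d ^ k := by positivity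
    rw [u1] at q
    rw [u2] at d4
    refine s1.trans ?_
    rw [mul_assoc _ (N0 * h * l ^ 2 / d2 ^ 2), mul_div_assoc _ _ (d ^ k),
      mul_add (N0 * h * l ^ 2 / d2 ^ 2), add_div, mul_add]
    refine add_le_add (le_trans (by linarith) (q.trans ?_)) (d4.trans ?_)
    · exact mul_le_mul_of_nonneg_right (by linarith) v1
    · exact mul_le_mul_of_nonneg_right (by linarith) v2

end Pool.Agent.Lib.EUL
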