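import Pool.Agent.Lib.EUL.Blue

set_option autoImplicit false

namespace Pool.Agent.Lib.EUL

open MeasureTheory Set Filter Topology
open scoped ContDiff Classical

noncomputable section

namespace PLACE

lemma pn_lip (a b : ℂ) : pn a ≤ pn b + ‖a - b‖ := by
  rw [← dist_eq_norm]; exact Metric.infDist_le_infDist_add_dist

lemma pn_cont : Continuous pn := Metric.continuous_infDist_pt _

lemma pn_0 (z : ℂ) : 0 ≤ pn z := Metric.infDist_nonneg

lemma pn_ex {z : ℂ} {r : ℝ} (h : pn z < r) : ∃ n, ‖z - lat n‖ < r := by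
  obtain ⟨_, ⟨n, rfl⟩, h⟩ := (Metric.infDist_lt_iff (range_nonempty lat)).1 h
  exact ⟨n, by rwa [← dist_eq_norm]⟩

lemma pn_le' (z : ℂ) (n : ℤ × ℤ) : pn z ≤ ‖z - lat n‖ := by
  rw [← dist_eq_norm]; exact Metric.infDist_le_dist_of_mem ⟨n, rfl⟩

lemma pn_neg_le (z : ℂ) : pn (-z) ≤ pn z := le_of_forall_gt_imp_ge_of_dense fun r h => by
  obtain ⟨n, h⟩ := pn_ex h
  have : -z - lat (-n) = -(z - lat n) := by simp [lat]; ring
  refine (pn_le' _ (-n)).trans ?_
  rw [this, norm_neg]; exact h.le

lemma pn_comm (a b : ℂ) : pn (a - b) = pn (b - a) :=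
  le_antisymm (by simpa using pn_neg_le (b - a)) (by simpa using pn_neg_le (a - b))

lemma mvt {f : ℂ → ℂ} (hf : ContDiff ℝ ∞ f) (hp : Peri f) {z x : ℂ} {G r : ℝ}
    (hG : ∀ y, ‖y - z‖ ≤ r → nD 1 f y ≤ G) (h : pn (x - z) < r) : ‖f x - f z‖ ≤ G * r := by
  obtain ⟨n, hn⟩ := pn_ex h
  have r0 : 0 ≤ r := (norm_nonneg _).trans hn.le
  have e : f x = f (x - lat n) := by rw [← hp n (x - lat n), sub_add_cancel]
  have e2 : x - lat n - z = x - z - lat n := by ring
  have G0 : 0 ≤ G := (norm_nonneg _).trans (hG z (by simpa using r0))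
  have := (convex_closedBall z r).norm_image_sub_le_of_norm_fderiv_le (𝕜 := ℝ) (f := f) (C := G)
    (fun y _ => hf.differentiable (by simp) y)
    (fun y hy => by
      have := hG y (by rwa [Metric.mem_closedBall, dist_eq_norm] at hy)
      rwa [nD, norm_iteratedFDeriv_one] at this)
    (Metric.mem_closedBall_self r0) (y := x - lat n)
    (by rw [Metric.mem_closedBall, dist_eq_norm, e2]; exact hn.le)
  rw [e]
  refine this.trans (mul_le_mul_of_nonneg_left ?_ G0)
  rw [e2]; exact hn.le

lemma actf_cont (c T : ℝ) : Continuous (actf c T) := by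
  unfold actf; fun_prop

lemma actf_0 (c T t : ℝ) : 0 ≤ actf c T t := le_max_left _ _

lemma actf_1 (c T t : ℝ) : actf c T t ≤ 1 := max_le zero_le_one (min_le_left _ _)

lemma actf_one {c T t : ℝ} (hT : 0 < T) (h : |t - c| ≤ T) : actf c T t = 1 := by
  have : |t - c| / T ≤ 1 := (div_le_one hT).2 h
  rw [actf, min_eq_left (by linarith), max_eq_right zero_le_one]

lemma actf_ne {c T t : ℝ} (hT : 0 < T) (h : actf c T t ≠ 0) : |t - c| ≤ 2 * T := by
  by_contra h1
  have : 2 ≤ |t - c| / T := (le_div_iff₀ hT).2 (not_le.1 h1).le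
  exact h (max_eq_left ((min_le_right _ _).trans (by linarith)))

lemma mult_le {ι : Type} [Fintype ι] {P : ι → Prop} {p : ι → ℂ} {r M : ℝ} (h : Mult P p r M)
    (y : ℂ) (A : Finset ι) (hA : ∀ i ∈ A, P i ∧ pn (p i - y) ≤ r) : (A.card : ℝ) ≤ M := by
  refine le_trans (Nat.cast_le.2 (Finset.card_le_card fun j hj => ?_)) (h y)
  simp only [Finset.mem_filter, Finset.mem_univ, true_and]
  exact hA j hj

/-- one placement -/
lemma step (hAV : St_AV) {κ : Type} (S : Finset κ) (u : ℝ → ℂ → ℂ) (X X' : κ → ℝ → ℂ)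
    (a lam : κ → ℝ → ℝ) (s e : κ → ℝ) (z ξ Y : ℝ → ℂ) (G H : ℝ → ℝ) (l D ub sb eb α om M W : ℝ)
    (Gr : Finset ℂ) (hu : SP u) (hD : 0 < D) (hl0 : 0 < l) (hl : l ≤ 1 / 4)
    (hX : ∀ k t, HasDerivAt (X k) (X' k t) t) (cX : ∀ k, Continuous (X' k))
    (ca : ∀ k, Continuous (a k)) (a0 : ∀ k t, 0 ≤ a k t) (a1 : ∀ k t, a k t ≤ 1)
    (aone : ∀ k, ∀ t ∈ Icc (s k) (e k), a k t = 1)
    (cl : ∀ k, Continuous (lam k)) (l0 : ∀ k t, 0 ≤ lam k t) (hse : ∀ k, s k ≤ e k)
    (dr : ∀ k, ∀ t ∈ Icc (s k) (e k), ‖X' k t - u t (X k t)‖ ≤ lam k t)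
    (long : ∀ k, D ≤ ∫ t in (s k)..(e k), lam k t)
    (hz : ∀ t, HasDerivAt z (u t (z t)) t) (cξ : Continuous ξ) (hY : ∀ t, HasDerivAt Y (ξ t) t)
    (bξ : ∀ t, ‖ξ t‖ ≤ ub ∧ ‖Y t‖ ≤ 50 * l) (cG : Continuous G) (cH : Continuous H)
    (hG : ∀ t y, ‖y - z t‖ ≤ 400 * l → nD 1 (u t) y ≤ G t)
    (h1 : α ≤ sb) (h2 : sb ≤ eb) (h3 : eb ≤ om)
    (hH : ∀ t, ∑ k ∈ S.filter (fun k => a k t ≠ 0 ∧ pn (X k t - z t) ≤ 52 * l), lam k t ≤ H t)
    (hM : ∀ t, ((S.filter (fun k => a k t ≠ 0 ∧ pn (X k t - z t) ≤ 52 * l)).card : ℝ) ≤ M)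
    (hW : ∫ t in α..om, (H t + M * (52 * l * G t + ub)) ≤ W)
    (g1 : ∀ p ∈ Gr, ‖p‖ ≤ l - 6 * D) (g2 : ∀ p ∈ Gr, ∀ p' ∈ Gr, p ≠ p' → 12 * D ≤ ‖p - p'‖)
    (hc : 2 * W / D + 2 * M < Gr.card) :
    ∃ p ∈ Gr, ∀ k ∈ S, ∀ t ∈ Icc (s k) (e k), t ∈ Icc sb eb →
      5 * D ≤ pn (X k t - z t - Y t - p) := by
  have cz : Continuous z := continuous_iff_continuousAt.2 fun t => (hz t).continuousAt
  have cY : Continuous Y := continuous_iff_continuousAt.2 fun t => (hY t).continuousAt
  have cX0 : ∀ k, Continuous (X k) := fun k =>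
    continuous_iff_continuousAt.2 fun t => (hX k t).continuousAt
  have cu : Continuous fun t => u t (z t) :=
    hu.1.continuous.comp (continuous_id.prodMk cz)
  have su : ∀ t, ContDiff ℝ ∞ (u t) := fun t =>
    hu.1.comp (contDiff_const.prodMk contDiff_id)
  have G0 : ∀ t, 0 ≤ G t := fun t => (norm_nonneg _).trans (hG t (z t) (by simp; linarith))
  have u0 : 0 ≤ ub := (norm_nonneg _).trans (bξ 0).1
  have c0 : ∀ t, 0 ≤ 52 * l * G t + ub := fun t => by have := G0 t; positivity
  have near : ∀ k t, pn (X k t - z t) ≤ pn (X k t - z t - Y t) + 50 * l := fun k t => by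
    have := pn_lip (X k t - z t) (X k t - z t - Y t)
    rw [sub_sub_cancel] at this
    linarith [(bξ t).2]
  set L : κ → ℝ → ℝ := fun k t =>
    a k t * actf 0 l (pn (X k t - z t - Y t)) * (lam k t + (52 * l * G t + ub)) with hL
  have cL : ∀ k, Continuous (L k) := fun k =>
    ((ca k).mul ((actf_cont 0 l).comp (pn_cont.comp (((cX0 k).sub cz).sub cY)))).mul
      ((cl k).add ((continuous_const.mul cG).add continuous_const))
  have L0 : ∀ k t, 0 ≤ L k t := fun k t =>
    mul_nonneg (mul_nonneg (a0 k t) (actf_0 _ _ _)) (add_nonneg (l0 k t) (c0 t))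
  have L1 : ∀ k, ∀ t ∈ Icc (s k) (e k), pn (X k t - z t - Y t) ≤ l →
      L k t = lam k t + (52 * l * G t + ub) := fun k t ht h => by
    simp only [hL]
    rw [aone k t ht, actf_one hl0 (by rwa [sub_zero, abs_of_nonneg (pn_0 _)]), one_mul, one_mul]
  have Ls : ∀ t, ∑ k ∈ S, L k t ≤ H t + M * (52 * l * G t + ub) := fun t => by
    have b1 : ∑ k ∈ S, L k t ≤ ∑ k ∈ S.filter
        (fun k => a k t ≠ 0 ∧ pn (X k t - z t) ≤ 52 * l), (lam k t + (52 * l * G t + ub)) := by
      rw [Finset.sum_filter]
      refine Finset.sum_le_sum fun k _ => ?_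
      split_ifs with h
      · exact mul_le_of_le_one_left (add_nonneg (l0 k t) (c0 t))
          (mul_le_one₀ (a1 k t) (actf_0 _ _ _) (actf_1 _ _ _))
      · by_contra h'
        have h4 : L k t ≠ 0 := fun h0 => h' h0.le
        have h5 := left_ne_zero_of_mul h4
        have h6 := actf_ne hl0 (right_ne_zero_of_mul h5)
        rw [sub_zero, abs_of_nonneg (pn_0 _)] at h6
        exact h ⟨left_ne_zero_of_mul h5, by linarith [near k t]⟩
    rw [Finset.sum_add_distrib, Finset.sum_const, nsmul_eq_mul] at b1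
    linarith [hH t, mul_le_mul_of_nonneg_right (hM t) (c0 t)]
  set T := S.filter fun k => s k ≤ eb ∧ sb ≤ e k with hT
  have hTS : T ⊆ S := Finset.filter_subset _ _
  have hJ : ∀ k ∈ T, max (s k) sb ≤ min (e k) eb := fun k hk => by
    obtain ⟨-, b1, b2⟩ := Finset.mem_filter.1 hk
    exact max_le (le_min (hse k) b1) (le_min b2 h2)
  set E : ℝ → Finset T := fun t => Finset.univ.filter fun k =>
    a k t ≠ 0 ∧ pn (X k t - z t) ≤ 52 * l with hE
  have cE : ∀ t, ((E t).card : ℝ) ≤ M := fun t => by
    refine le_trans (Nat.cast_le.2 ?_) (hM t)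
    refine Finset.card_le_card_of_injOn Subtype.val (fun k hk => ?_) Subtype.val_injective.injOn
    exact Finset.mem_coe.2 (Finset.mem_filter.2 ⟨hTS k.2, (Finset.mem_filter.1 hk).2⟩)
  obtain ⟨p, hp, h⟩ := hAV T (fun k t => X k t - z t - Y t) (fun k t => X' k t - u t (z t) - ξ t)
    (fun k => L k) (fun k => max (s k) sb) (fun k => min (e k) eb) (E sb ∪ E eb) Gr D l hD hl
    (fun k t => ((hX k t).sub (hz t)).sub (hY t)) (fun k => ((cX k).sub cu).sub cξ)
    (fun k => cL k) (fun k => L0 k) (fun k => hJ k k.2)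
    (fun k t ht h => by
      have ht' : t ∈ Icc (s k) (e k) := ⟨le_of_max_le_left ht.1, ht.2.trans (min_le_left _ _)⟩
      have b1 := mvt (su t) (hu.2 t) (r := 52 * l) (x := X k t)
        (fun y hy => hG t y (by linarith)) (by linarith [near k t])
      have b2 : X' k t - u t (z t) - ξ t =
          X' k t - u t (X k t) + (u t (X k t) - u t (z t) - ξ t) := by ring
      show ‖X' k t - u t (z t) - ξ t‖ ≤ L k t
      rw [L1 k t ht' h, b2]
      refine norm_add_le_of_le (dr k t ht') (norm_sub_le_of_le ?_ (bξ t).1)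
      linarith)
    g1 g2
    (fun k hk h => by
      obtain ⟨-, b1, b2⟩ := Finset.mem_filter.1 k.2
      have hj := hJ k k.2
      rw [Finset.mem_union, not_or] at hk
      have key : ∀ t ∈ Icc (max (s k) sb) (min (e k) eb), k ∈ E t := fun t ht =>
        Finset.mem_filter.2 ⟨Finset.mem_univ _, by
          rw [aone k t ⟨le_of_max_le_left ht.1, ht.2.trans (min_le_left _ _)⟩]
          exact one_ne_zero, by linarith [near k t, h t ht]⟩
      have e1 : max (s k) sb = s k := max_eq_left (by
        by_contra h'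
        have := max_eq_right (not_le.1 h').le
        exact hk.1 (key sb ⟨this.le, this ▸ hj⟩))
      have e2 : min (e k) eb = e k := min_eq_left (by
        by_contra h'
        have := min_eq_right (not_le.1 h').le
        exact hk.2 (key eb ⟨this ▸ hj, this.ge⟩))
      show D ≤ ∫ t in (max (s k) sb)..(min (e k) eb), L k t
      simp only [e1, e2] at h ⊢
      refine (long k).trans (intervalIntegral.integral_mono_on (hse k)
        ((cl k).intervalIntegrable _ _) ((cL k).intervalIntegrable _ _) fun t ht => ?_)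
      rw [L1 k t ht (h t ht)]
      linarith [c0 t])
    (by
      have b1 : ∑ k : T, ∫ t in (max (s k) sb)..(min (e k) eb), L k t ≤ W := by
        rw [Finset.sum_coe_sort T fun k => ∫ t in (max (s k) sb)..(min (e k) eb), L k t]
        have hao : α ≤ om := h1.trans (h2.trans h3)
        calc _ ≤ ∑ k ∈ T, ∫ t in α..om, L k t := Finset.sum_le_sum fun k hk =>
              intervalIntegral.integral_mono_interval (h1.trans (le_max_right _ _)) (hJ k hk)
                ((min_le_right _ _).trans h3) (Eventually.of_forall fun t => L0 k t)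
                ((cL k).intervalIntegrable _ _)
          _ = ∫ t in α..om, ∑ k ∈ T, L k t :=
              (intervalIntegral.integral_finsetSum fun k _ => (cL k).intervalIntegrable _ _).symm
          _ ≤ ∫ t in α..om, (H t + M * (52 * l * G t + ub)) :=
              intervalIntegral.integral_mono_on hao
                ((continuous_finsetSum T fun k _ => cL k).intervalIntegrable _ _)
                ((cH.add (continuous_const.mul ((continuous_const.mul cG).add
                  continuous_const))).intervalIntegrable _ _) fun t _ =>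
                (Finset.sum_le_sum_of_subset_of_nonneg hTS fun k _ _ => L0 k t).trans (Ls t)
          _ ≤ W := hW
      have b2 : ((E sb ∪ E eb).card : ℝ) ≤ 2 * M := by
        have : ((E sb ∪ E eb).card : ℝ) ≤ (E sb).card + (E eb).card := by
          exact_mod_cast Finset.card_union_le _ _
        linarith [cE sb, cE eb]
      have b3 := div_le_div_of_nonneg_right (mul_le_mul_of_nonneg_left b1 zero_le_two) hD.le
      exact lt_of_le_of_lt (add_le_add b3 b2) hc)
  refine ⟨p, hp, fun k hk t ht ht' => ?_⟩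
  exact h ⟨k, Finset.mem_filter.2 ⟨hk, ht.1.trans ht'.2, ht'.1.trans ht.2⟩⟩ t
    ⟨max_le ht.1 ht'.1, le_min ht.2 ht'.2⟩

/-- the grid of start points -/
lemma grid {D d0 : ℝ} (hD : 0 < D) (hd : 0 ≤ d0) : ∃ Gr : Finset ℂ, (∀ p ∈ Gr, ‖p‖ ≤ d0) ∧
    (∀ p ∈ Gr, ∀ p' ∈ Gr, p ≠ p' → 12 * D ≤ ‖p - p'‖) ∧ (d0 / (24 * D)) ^ 2 ≤ Gr.card := by
  set N := ⌊d0 / (24 * D)⌋₊ with hN
  have q0 : 0 ≤ d0 / (24 * D) := by positivity
  set f : ℕ × ℕ → ℂ := fun n => ⟨12 * D * n.1, 12 * D * n.2⟩ with hf
  have sep : ∀ i j : ℕ, i ≠ j → 12 * D ≤ |12 * D * i - 12 * D * j| := fun i j h => by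
    rw [← mul_sub, abs_mul, abs_of_pos (by positivity)]
    refine le_mul_of_one_le_right (by positivity) ?_
    have : (1 : ℤ) ≤ |(i : ℤ) - j| := Int.one_le_abs (by omega)
    exact_mod_cast this
  have sp : ∀ n m, n ≠ m → 12 * D ≤ ‖f n - f m‖ := fun n m h => by
    by_cases h1 : n.1 = m.1
    · exact (sep n.2 m.2 fun h2 => h (Prod.ext h1 h2)).trans (Complex.abs_im_le_norm (f n - f m))
    · exact (sep n.1 m.1 h1).trans (Complex.abs_re_le_norm (f n - f m))
  have inj : Function.Injective f := fun n m h => by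
    by_contra h'
    have := sp n m h'
    rw [h, sub_self, norm_zero] at this
    linarith
  refine ⟨(Finset.range (N + 1) ×ˢ Finset.range (N + 1)).image f, fun p hp => ?_,
    fun p hp p' hp' h => ?_, ?_⟩
  · obtain ⟨n, hn, rfl⟩ := Finset.mem_image.1 hp
    obtain ⟨n1, n2⟩ := Finset.mem_product.1 hn
    have b : ∀ i ∈ Finset.range (N + 1), |12 * D * i| ≤ d0 / 2 := fun i hi => by
      have b1 : (i : ℝ) ≤ N := Nat.cast_le.2 (Nat.lt_succ_iff.1 (Finset.mem_range.1 hi))
      have b2 := (le_div_iff₀ (by positivity)).1 (b1.trans (Nat.floor_le q0))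
      rw [abs_of_nonneg (by positivity)]
      linarith
    refine (Complex.norm_le_abs_re_add_abs_im _).trans ?_
    linarith [b _ n1, b _ n2]
  · obtain ⟨n, -, rfl⟩ := Finset.mem_image.1 hp
    obtain ⟨m, -, rfl⟩ := Finset.mem_image.1 hp'
    exact sp n m fun h' => h (by rw [h'])
  · rw [Finset.card_image_of_injective _ inj, Finset.card_product, Finset.card_range]
    push_cast
    rw [← sq]
    exact pow_le_pow_left₀ q0 (Nat.lt_floor_add_one _).le 2

end PLACE

open PLACE in
theorem st_PLACE (hAV : St_AV) (hGR : St_GR) (hODE : St_ODE) : St_PLACE := by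
  intro u ι β _ _ o lam tb Tb s e ub z ξ Y G H l D d0 th1 LL Lam M hu ⟨ua, ue, hts⟩ hD hd hdl hl hth
    good cl l0 dr long mo T0 life hz sξ hY bξ longb hLam cG cH hG iG hH iH mb hc
  have d00 : 0 < d0 := by linarith
  have hl0 : 0 < l := by linarith
  have G0 : ∀ i t, 0 ≤ G i t := fun i t =>
    (norm_nonneg _).trans (hG i t (z i t) (by simp; linarith))
  have H0 : ∀ i t, 0 ≤ H i t := fun i t =>
    (Finset.sum_nonneg fun j _ => l0 j t).trans (hH i t)
  have M0 : 0 ≤ M := (Nat.cast_nonneg _).trans (mo 0 0)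
  have u0 : ∀ i, 0 ≤ ub i := fun i => (norm_nonneg _).trans (bξ i 0).1
  have ab : ∀ i, tb i - 2 * Tb i ≤ tb i + 2 * Tb i := fun i => by linarith [T0 i]
  have ex1 : ∀ i (p : ℂ), ∃ x : ℝ → ℂ, ContDiff ℝ ∞ x ∧
      (∀ t, HasDerivAt x (u t (x t) + ξ i t) t) ∧
      (‖p‖ ≤ d0 → ∀ t, |t - tb i| ≤ 2 * Tb i → ‖x t - z i t - Y i t - p‖ ≤ D) := by
    intro i p
    obtain ⟨x, x1, x2, x3⟩ := hODE u ua ue (ξ i) (tb i - 2 * Tb i)
      (z i (tb i - 2 * Tb i) + (Y i (tb i - 2 * Tb i) + p)) hu hts (sξ i)
    refine ⟨x, x1, x3, fun hp t ht => ?_⟩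
    have b1 : 0 + (51 * l + l) * ∫ t in (tb i - 2 * Tb i)..(tb i + 2 * Tb i), G i t ≤ D := by
      have := mul_le_mul_of_nonneg_left (iG i) (by positivity : 0 ≤ 52 * l)
      linarith
    have := hGR u (z i) x (fun t => Y i t + p) (ξ i) (G i) _ _ (tb i - 2 * Tb i) 0 (51 * l) l hu.1
      (cG i) (sξ i).continuous (hz i) (fun t => (hY i t).add_const p) x3 ⟨le_rfl, ab i⟩ hl0
      (fun t _ => (norm_add_le_of_le (bξ i t).2 hp).trans (by linarith))
      (by rw [x2]; simp) (fun t _ y hy => hG i t y (by linarith)) (by linarith) t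
      ⟨by linarith [(abs_le.1 ht).1], by linarith [(abs_le.1 ht).2]⟩
    rw [← sub_sub] at this
    exact this.trans b1
  choose X X1 X2 X3 using ex1
  obtain ⟨Gr, g1, g2, g3⟩ := grid hD d00.le
  have act : ∀ i t, t ∈ Icc (s i) (e i) → |t - tb i| ≤ Tb i := fun i t ht =>
    abs_le.2 ⟨by linarith [ht.1, (life i).1], by linarith [ht.2, (life i).2.2]⟩
  have close : ∀ i p, ‖p‖ ≤ d0 → ∀ t, |t - tb i| ≤ 2 * Tb i →
      ‖X i p t - z i t - Y i t‖ ≤ d0 + D := fun i p hp t ht => by
    have := norm_add_le_of_le hp (X3 i p hp t ht)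
    rwa [add_sub_cancel] at this
  have main : ∀ A : Finset β, ∃ p : β → ℂ, (∀ i, ‖p i‖ ≤ d0) ∧
      (∀ i ∈ A, ∀ j t, t ∈ Icc (s i) (e i) → t ∈ Icc (o j).s (o j).e →
        4 * D ≤ pn (X i (p i) t - (o j).x t)) ∧
      ∀ i ∈ A, ∀ j ∈ A, ∀ t, i ≠ j → t ∈ Icc (s i) (e i) → t ∈ Icc (s j) (e j) →
        4 * D ≤ pn (X i (p i) t - X j (p j) t) := by
    intro A
    induction A using Finset.induction_on_max_value ub with
    | empty => exact ⟨0, fun _ => by simpa using d00.le, by simp, by simp⟩
    | insert b A hb hmax ih =>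
      obtain ⟨p, p0, p1, p2⟩ := ih
      have cO : ∀ t, ((Finset.univ.filter fun j =>
          (o j).a t ≠ 0 ∧ pn ((o j).x t - z b t) ≤ 52 * l).card : ℝ) ≤ M := fun t => by
        refine mult_le (mo t) (z b t) _ fun j hj => ?_
        obtain ⟨-, b1, b2⟩ := Finset.mem_filter.1 hj
        exact ⟨b1, by linarith⟩
      have cB : ∀ t, ((A.filter fun i => actf (tb i) (Tb i) t ≠ 0 ∧
          pn (X i (p i) t - z b t) ≤ 52 * l).card : ℝ) ≤ M := fun t => by
        refine mult_le (mb t) (z b t) _ fun i hi => ?_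
        obtain ⟨-, b1, b2⟩ := Finset.mem_filter.1 hi
        have b3 := actf_ne (T0 i) b1
        refine ⟨b3, ?_⟩
        have b4 := pn_lip (z i t - z b t) (X i (p i) t - z b t)
        have b5 := norm_add_le_of_le (close i (p i) (p0 i) t b3) (bξ i t).2
        rw [sub_add_cancel, norm_sub_rev] at b5
        rw [sub_sub_sub_cancel_right] at b4
        linarith
      have iW : ∫ t in (tb b - 2 * Tb b)..(tb b + 2 * Tb b),
          (H b t + M * ub b + 2 * M * (52 * l * G b t + ub b)) ≤
          LL + 104 * M * l * th1 + 12 * M * Lam := by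
        have e1 : ∀ t, H b t + M * ub b + 2 * M * (52 * l * G b t + ub b) =
            H b t + (104 * M * l * G b t + 3 * M * ub b) := fun t => by ring
        simp only [e1]
        have c1 : Continuous fun t => 104 * M * l * G b t := continuous_const.mul (cG b)
        have c2 : Continuous fun t => 104 * M * l * G b t + 3 * M * ub b := c1.add continuous_const
        rw [intervalIntegral.integral_add ((cH b).intervalIntegrable _ _)
          (c2.intervalIntegrable _ _), intervalIntegral.integral_add (c1.intervalIntegrable _ _)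
            (continuous_const.intervalIntegrable _ _), intervalIntegral.integral_const_mul,
          intervalIntegral.integral_const, smul_eq_mul]
        have b1 := mul_le_mul_of_nonneg_left (iG b) (by positivity : 0 ≤ 104 * M * l)
        have b2 := mul_le_mul_of_nonneg_left (hLam b) (by positivity : 0 ≤ 12 * M)
        linarith [iH b]
      have hcc : 2 * (LL + 104 * M * l * th1 + 12 * M * Lam) / D + 2 * (2 * M) < Gr.card := by
        have b1 : 0 ≤ LL := (intervalIntegral.integral_nonneg (ab b) fun t _ => H0 b t).trans (iH b)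
        have b2 : 0 ≤ th1 :=
          (intervalIntegral.integral_nonneg (ab b) fun t _ => G0 b t).trans (iG b)
        have b3 : 0 ≤ Lam := (mul_nonneg (u0 b) (T0 b).le).trans (hLam b)
        have b4 : 2 * (LL + 104 * M * l * th1 + 12 * M * Lam) / D ≤
            2 * (2 * (LL + 2 * M * (52 * l * th1 + 4 * Lam)) / D) := by
          rw [← mul_div_assoc]
          refine div_le_div_of_nonneg_right ?_ hD.le
          have : 0 ≤ M * l * th1 := by positivity
          have : 0 ≤ M * Lam := by positivity
          linarith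
        have b5 : 2 * (d0 / (50 * D)) ^ 2 ≤ (d0 / (24 * D)) ^ 2 := by
          have e1 : d0 / (24 * D) = 50 / 24 * (d0 / (50 * D)) := by field_simp
          rw [e1, mul_pow]
          exact mul_le_mul_of_nonneg_right (by norm_num) (sq_nonneg _)
        linarith
      obtain ⟨q, hq, h⟩ := step hAV (Finset.univ.disjSum A) u
        (Sum.elim (fun j => (o j).x) fun i => X i (p i))
        (Sum.elim (fun j => deriv (o j).x) fun i t => u t (X i (p i) t) + ξ i t)
        (Sum.elim (fun j => (o j).a) fun i => actf (tb i) (Tb i))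
        (Sum.elim lam fun i _ => ub i) (Sum.elim (fun j => (o j).s) s)
        (Sum.elim (fun j => (o j).e) e) (z b) (ξ b) (Y b) (G b) (fun t => H b t + M * ub b)
        l D (ub b) (s b) (e b) (tb b - 2 * Tb b) (tb b + 2 * Tb b) (2 * M) _ Gr hu hD hl0
        (by linarith)
        (by
          rintro (j | i) t
          · exact ((good j).xsm.differentiable (by simp) t).hasDerivAt
          · exact X2 i (p i) t)
        (by
          rintro (j | i)
          · exact (good j).xsm.continuous_deriv (by simp)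
          · exact (hu.1.continuous.comp (continuous_id.prodMk (X1 i (p i)).continuous)).add
              (sξ i).continuous)
        (by
          rintro (j | i)
          · exact (good j).acont
          · exact actf_cont _ _)
        (by
          rintro (j | i) t
          · exact (good j).a0 t
          · exact actf_0 _ _ _)
        (by
          rintro (j | i) t
          · exact (good j).a1 t
          · exact actf_1 _ _ _)
        (by
          rintro (j | i) t ht
          · exact (good j).aone t ht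
          · exact actf_one (T0 i) (act i t ht))
        (by
          rintro (j | i)
          · exact cl j
          · exact continuous_const)
        (by
          rintro (j | i) t
          · exact l0 j t
          · exact u0 i)
        (by
          rintro (j | i)
          · exact (good j).le
          · exact (life i).2.1)
        (by
          rintro (j | i) t ht
          · exact (dr j t ht).1
          · simpa using (bξ i t).1)
        (by
          rintro (j | i)
          · refine (long j).trans (le_trans ?_ (intervalIntegral.integral_mono_on (good j).le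
              (continuous_const.intervalIntegrable _ _) ((cl j).intervalIntegrable _ _)
              fun t ht => (dr j t ht).2))
            rw [intervalIntegral.integral_const, smul_eq_mul, mul_comm]
            exact le_rfl
          · simpa [mul_comm] using longb i)
        (hz b) (sξ b).continuous (hY b) (bξ b) (cG b) ((cH b).add continuous_const) (hG b)
        (by linarith [(life b).1, T0 b]) (life b).2.1 (by linarith [(life b).2.2, T0 b])
        (fun t => by
          rw [Finset.sum_filter, Finset.sum_disjSum]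
          simp only [Sum.elim_inl, Sum.elim_inr]
          rw [← Finset.sum_filter, ← Finset.sum_filter]
          refine add_le_add (le_trans (Finset.sum_le_sum_of_subset_of_nonneg (fun j hj => ?_)
            fun j _ _ => l0 j t) (hH b t)) ?_
          · exact Finset.mem_filter.2 ⟨Finset.mem_univ _, (Finset.mem_filter.1 hj).2.2⟩
          · refine (Finset.sum_le_card_nsmul _ _ (ub b) fun i hi =>
              hmax i (Finset.mem_filter.1 hi).1).trans ?_
            rw [nsmul_eq_mul]
            exact mul_le_mul_of_nonneg_right (cB t) (u0 b))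
        (fun t => by
          rw [Finset.card_filter, Finset.sum_disjSum]
          have b1 := cO t
          have b2 := cB t
          rw [Finset.card_filter] at b1 b2
          rw [Nat.cast_add, two_mul]
          exact add_le_add b1 b2)
        iW (fun r hr => (g1 r hr).trans (by linarith)) g2 hcc
      have fin : ∀ t y, t ∈ Icc (s b) (e b) → 5 * D ≤ pn (y - z b t - Y b t - q) →
          4 * D ≤ pn (y - X b q t) := fun t y ht h => by
        have b1 := pn_lip (y - z b t - Y b t - q) (y - X b q t)
        have b2 : y - z b t - Y b t - q - (y - X b q t) = X b q t - z b t - Y b t - q := by ring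
        have b3 := X3 b q (g1 q hq) t ((act b t ht).trans (by linarith [T0 b]))
        rw [b2] at b1
        linarith
      have up : ∀ i ∈ A, Function.update p b q i = p i := fun i hi =>
        Function.update_of_ne (fun h : i = b => hb (h ▸ hi)) _ _
      have new : ∀ i ∈ A, ∀ t, t ∈ Icc (s i) (e i) → t ∈ Icc (s b) (e b) →
          4 * D ≤ pn (X i (p i) t - X b q t) := fun i hi t ht ht' =>
        fin t _ ht' (h (Sum.inr i) (Finset.inr_mem_disjSum.2 hi) t ht ht')
      refine ⟨Function.update p b q, fun i => ?_, fun i hi j t ht ht' => ?_,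
        fun i hi j hj t hij ht ht' => ?_⟩
      · by_cases h : i = b
        · rw [h, Function.update_self]; exact g1 q hq
        · rw [Function.update_of_ne h]; exact p0 i
      · rcases Finset.mem_insert.1 hi with rfl | hi
        · rw [Function.update_self, pn_comm]
          exact fin t _ ht (h (Sum.inl j) (Finset.inl_mem_disjSum.2 (Finset.mem_univ _)) t ht' ht)
        · rw [up i hi]; exact p1 i hi j t ht ht'
      · rcases Finset.mem_insert.1 hi with rfl | hi'
        · rcases Finset.mem_insert.1 hj with rfl | hj'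
          · exact (hij rfl).elim
          · rw [Function.update_self, up j hj', pn_comm]
            exact new j hj' t ht' ht
        · rcases Finset.mem_insert.1 hj with rfl | hj'
          · rw [Function.update_self, up i hi']
            exact new i hi' t ht ht'
          · rw [up i hi', up j hj']; exact p2 i hi' j hj' t hij ht ht'
  obtain ⟨p, p0, p1, p2⟩ := main Finset.univ
  exact ⟨fun i => X i (p i), fun i => ⟨X1 i _, X2 i _⟩, fun i => close i _ (p0 i),
    fun i => p1 i (Finset.mem_univ _),
    fun i j => p2 i (Finset.mem_univ _) j (Finset.mem_univ _)⟩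

end

end Pool.Agent.Lib.EUL
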