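import Pool.Agent.Lib.EUL.Blue

/-! Block PREP: majorants, drift weights and the density of the box construction. -/

namespace Pool.Agent.Lib.EUL

open MeasureTheory Set Filter Topology
open scoped ContDiff Classical

namespace PREP

theorem mult_mono {ι : Type} [Fintype ι] {P Q : ι → Prop} {p : ι → ℂ} {r r' M : ℝ}
    (h : Mult P p r M) (hQ : ∀ k, Q k → P k) (hr : r' ≤ r) : Mult Q p r' M := by
  intro y
  refine le_trans ?_ (h y)
  have : (Finset.univ.filter fun k => Q k ∧ pn (p k - y) ≤ r').card ≤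
      (Finset.univ.filter fun i => P i ∧ pn (p i - y) ≤ r).card := by
    refine Finset.card_le_card fun k hk => ?_
    simp only [Finset.mem_filter, Finset.mem_univ, true_and] at hk ⊢
    exact ⟨hQ k hk.1, hk.2.trans hr⟩
  exact_mod_cast this

theorem pn_neg (z : ℂ) : pn (-z) = pn z := by
  have h : (fun w : ℂ => -w) '' range lat = range lat := by
    ext w
    constructor
    · rintro ⟨_, ⟨n, rfl⟩, rfl⟩
      exact ⟨-n, by simp [lat]; ring⟩
    · rintro ⟨n, rfl⟩
      exact ⟨_, ⟨-n, rfl⟩, by simp [lat]; ring⟩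
  have hi : Isometry (fun w : ℂ => -w) := isometry_neg
  have := Metric.infDist_image (x := z) (t := range lat) hi
  rwa [h] at this

theorem pn_lat (n : ℤ × ℤ) (z : ℂ) : pn (z + lat n) = pn z := by
  have h : (fun w : ℂ => w + lat n) '' range lat = range lat := by
    ext w
    constructor
    · rintro ⟨_, ⟨m, rfl⟩, rfl⟩
      exact ⟨m + n, by simp [lat]; ring⟩
    · rintro ⟨m, rfl⟩
      exact ⟨_, ⟨m - n, rfl⟩, by simp [lat]; ring⟩
  have hi : Isometry (fun w : ℂ => w + lat n) := isometry_add_right _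
  have := Metric.infDist_image (x := z) (t := range lat) hi
  rwa [h] at this

theorem pn_le (x y : ℂ) : pn x ≤ pn y + ‖x - y‖ := by
  rw [← dist_eq_norm]; exact Metric.infDist_le_infDist_add_dist

theorem pn_cont : Continuous pn := Metric.continuous_infDist_pt _

theorem intQ {f : ℂ → ℝ} (hf : Continuous f) : IntegrableOn f cell :=
  (hf.continuousOn.integrableOn_compact (isCompact_closedBall 0 1)).mono_set fun z hz => by
    rw [mem_closedBall_zero_iff]
    have h1 : |z.re| ≤ 1 / 2 := abs_le.2 ⟨by linarith [hz.1.1], hz.1.2⟩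
    have h2 : |z.im| ≤ 1 / 2 := abs_le.2 ⟨by linarith [hz.2.1], hz.2.2⟩
    linarith [Complex.norm_le_abs_re_add_abs_im z]

theorem tau_nonneg (k : ℕ) {r : ℝ} (hr : 0 < r) (s : ℝ) : 0 ≤ tau k r s :=
  pow_nonneg (div_nonneg hr.le (hr.le.trans (le_max_left _ _))) k

theorem tau_cont (k : ℕ) {r : ℝ} (hr : 0 < r) : Continuous (tau k r) :=
  (continuous_const.div (continuous_const.max continuous_id)
    fun _ => (hr.trans_le (le_max_left _ _)).ne').pow k

theorem tau_ge {r s : ℝ} (hr : 0 < r) (hs : s ≤ 61 * r) : 1 / 3721 ≤ tau 2 r s := by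
  have h1 : 0 < max r s := hr.trans_le (le_max_left _ _)
  have h2 : max r s ≤ 61 * r := max_le (by linarith) hs
  have h3 : 1 / 61 ≤ r / max r s := by
    rw [div_le_div_iff₀ (by norm_num) h1]; linarith
  have := pow_le_pow_left₀ (by norm_num) h3 2
  unfold tau
  linarith

theorem lg_le {r s : ℝ} (hr : 0 < r) (h : r ≤ s) (hs : s ≤ 1) : lg s ≤ lg r := by
  have h1 : Real.log s ≤ 0 := Real.log_nonpos (hr.le.trans h) hs
  have h2 : Real.log r ≤ Real.log s := Real.log_le_log hr h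
  unfold lg
  rw [abs_of_nonpos h1, abs_of_nonpos (h2.trans h1)]
  linarith

theorem one_le_lg (r : ℝ) : 1 ≤ lg r := le_add_of_nonneg_right (abs_nonneg _)

theorem ratio {r D : ℝ} (hr : 0 < r) (h : r ≤ D) :
    ((r / D) ^ 2) ^ 2 ≤ D ^ (al - 2) * r ^ (2 - al) := by
  have hD : 0 < D := hr.trans_le h
  have h0 : 0 < r / D := div_pos hr hD
  have h1 : r / D ≤ 1 := (div_le_one hD).2 h
  have h2 : (r / D) ^ ((4 : ℕ) : ℝ) ≤ (r / D) ^ (2 - al) :=
    Real.rpow_le_rpow_of_exponent_ge h0 h1 (by unfold al; norm_num)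
  rw [Real.rpow_natCast, Real.div_rpow hr.le hD.le] at h2
  have h3 : D ^ (al - 2) = (D ^ (2 - al))⁻¹ := by
    rw [← Real.rpow_neg hD.le]; congr 1; ring
  rw [h3, ← pow_mul, mul_comm (D ^ (2 - al))⁻¹, ← div_eq_mul_inv]
  exact h2

end PREP

open PREP in
theorem st_PREP (hCORE : St_CORE) (hMAJ : St_MAJ) (hMJ : St_MJ) (hAVG : St_AVG) : St_PREP := by
  obtain ⟨C1, hC1, hcore⟩ := hCORE
  obtain ⟨C2, hC2, hmaj1, hmaj2⟩ := hMAJ
  obtain ⟨m1, m2, m3, m4, -⟩ := hMJ
  refine ⟨C1 + C2 + 9, by linarith, ?_⟩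
  intro P v q V ι _ o a b ok hq hqS h
  have r0 := ok.rpos
  have S0 := ok.Spos
  have n0 : 0 < P.n := by linarith [ok.n1]
  have k0 := ok.kpos
  have hlg := one_le_lg P.rho
  have hG : C1 + C2 + 9 ≤ P.G := le_trans (le_mul_of_one_le_right (by linarith) hlg) ok.big
  have hGl : lg P.rho ≤ P.G := le_trans (le_mul_of_one_le_left (by linarith) (by linarith)) ok.big
  have G1 : C1 ≤ P.G := by linarith
  have G2 : C2 ≤ P.G := by linarith
  have G9 : 9 ≤ P.G := by linarith
  have G0 : 0 < P.G := by linarith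
  have D0 : 0 < P.D := r0.trans_le ok.rD
  have d0 : 0 < P.d := by linarith [ok.Dd2, ok.d2d]
  have Dl : 12 * P.D ≤ P.l := by
    have : P.d ≤ P.G * P.d := le_mul_of_one_le_left d0.le (by linarith)
    linarith [ok.Dd2, ok.d2d, ok.dh, ok.hl]
  have l0 : 0 < P.l := by linarith
  have l1 := ok.lsmall
  have Gl : lg P.l ≤ P.G := (lg_le r0 (by linarith [ok.rD]) (by linarith)).trans hGl
  have lg0 : 0 ≤ lg P.l := by linarith [one_le_lg P.l]
  have Y0 : 0 < P.Y := by unfold Par.Y; positivity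
  have ra : 0 < P.rho ^ al := Real.rpow_pos_of_pos r0 _
  have Da : 0 < P.D ^ (al - 2) := Real.rpow_pos_of_pos D0 _
  have hal : 0 ≤ 2 - al := by unfold al; norm_num
  have hc := fun i => hcore (o i) P.D P.l (h.good i) (h.size i).2 (by linarith) (by linarith)
  have mu : ∀ t, Mult (fun i => (o i).a t ≠ 0) (fun i => (o i).x t) P.l P.G := fun t =>
    mult_mono (h.mult t) (fun _ hk => hk) (by linarith)
  -- the far field
  have eO : Ot o P.D = fun t y => ∑ i, ((o i).W t y - (o i).core P.D t y) := by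
    funext t y
    simp only [Ot, Core, Finset.sum_sub_distrib]
  have eV : Vh v o P.D = fun t y => V t y + Ot o P.D t y := by
    funext t y
    simp only [Vh, Ot, h.eq t y]
    ring
  have Bsm : ∀ i, Sm fun t y => (o i).W t y - (o i).core P.D t y := fun i =>
    ContDiff.sub (h.good i).Wsp.1 (hc i).1.1
  have Osm : Sm (Ot o P.D) := by
    rw [eO]; exact ContDiff.sum fun i _ => Bsm i
  have Osp : SP (Ot o P.D) := by
    refine ⟨Osm, fun t n z => ?_⟩
    rw [eO]
    exact Finset.sum_congr rfl fun i _ => by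
      rw [(h.good i).Wsp.2 t n z, (hc i).1.2 t n z]
  have Vsp : SP (Vh v o P.D) := by
    rw [eV]
    exact ⟨ContDiff.add h.Vsp.1 Osm, fun t n z => by
      show V t _ + Ot o P.D t _ = _
      rw [h.Vsp.2 t n z, Osp.2 t n z]⟩
  have Vts : TS (Vh v o P.D) a b := by
    intro t ht y
    have hW : ∀ i, (o i).W t y = 0 := fun i => (h.good i).Wts t
      (fun hi => ht ⟨(h.life i).1.trans hi.1, hi.2.trans (h.life i).2⟩) y
    simp only [Vh, Core, Ob.core, h.eq t y, h.Vts t ht y, hW, mul_zero, Finset.sum_const_zero,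
      add_zero, sub_zero]
  obtain ⟨X, hX⟩ : ∃ X, X = P.G ^ 16 * P.l ^ 2 * P.D ^ (al - 2) * P.S / P.rho ^ al := ⟨_, rfl⟩
  have hfar : Maj0 (Ot o P.D) P.l P.D X := by
    have h0 := hmaj2 ι (fun i t => C1 * ((o i).a t * (o i).u) * ((o i).rho / P.D) ^ 2)
      (fun i => (o i).x) (fun i t y => (o i).W t y - (o i).core P.D t y) P.l P.D P.G
      (C1 ^ 2 * (P.D ^ (al - 2) * P.Xi)) l0 (by linarith) D0.le
      (fun i => (continuous_const.mul ((h.good i).acont.mul continuous_const)).mul continuous_const)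
      (fun i => (h.good i).xsm.continuous)
      (fun i t => mul_nonneg (mul_nonneg (by linarith) (mul_nonneg ((h.good i).a0 t) (h.good i).u0))
        (sq_nonneg _)) Bsm
      (fun t => mult_mono (mu t) (fun i hi => left_ne_zero_of_mul
        (right_ne_zero_of_mul (left_ne_zero_of_mul hi))) le_rfl)
      (fun t => by
        refine le_trans ?_ (mul_le_mul_of_nonneg_left
          (mul_le_mul_of_nonneg_left (h.xi t) Da.le) (sq_nonneg C1))
        rw [Finset.mul_sum, Finset.mul_sum]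
        refine Finset.sum_le_sum fun i _ => ?_
        have a1 := mul_le_mul_of_nonneg_left (ratio (h.good i).rpos (h.size i).2)
          (sq_nonneg (C1 * ((o i).a t * (o i).u)))
        calc _ = (C1 * ((o i).a t * (o i).u)) ^ 2 * (((o i).rho / P.D) ^ 2) ^ 2 := by ring
          _ ≤ _ := a1
          _ = _ := by ring)
      (fun i t => ((hc i).2 t).2.2)
    rw [eO]
    obtain ⟨g, gc, hg⟩ := h0
    refine ⟨g, gc, fun t => ⟨(hg t).1, (hg t).2.1, (hg t).2.2.1, (hg t).2.2.2.trans ?_⟩⟩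
    have a1 : C2 * P.G * lg P.l ^ 2 * C1 ^ 2 ≤ P.G * P.G * P.G ^ 2 * P.G ^ 2 := by gcongr
    have a2 := mul_le_mul_of_nonneg_right a1
      (show 0 ≤ P.l ^ 2 * P.D ^ (al - 2) * (P.G ^ 10 * P.S / P.rho ^ al) by positivity)
    rw [hX, Par.Xi]
    calc _ = C2 * P.G * lg P.l ^ 2 * C1 ^ 2 *
          (P.l ^ 2 * P.D ^ (al - 2) * (P.G ^ 10 * P.S / P.rho ^ al)) := by ring
      _ ≤ _ := a2
      _ = _ := by ring
  have e4 : P.D ^ (al - 4) = P.D ^ (al - 2) / P.D ^ 2 := by
    rw [show al - 4 = al - 2 - (2 : ℕ) by push_cast; ring, Real.rpow_sub_natCast D0.ne']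
  have e2 : P.rho ^ (2 - al) = P.rho ^ 2 / P.rho ^ al := by
    rw [Real.rpow_sub r0, Real.rpow_two]
  have hXY : X / P.D ^ 2 ≤ P.Y := by
    have a1 := mul_le_mul_of_nonneg_right ok.far Y0.le
    rw [e4, e2, one_mul] at a1
    refine le_trans (le_of_eq ?_) a1
    rw [hX, Par.Y]
    field_simp
  obtain ⟨g, gc, hg⟩ : Maj (Vh v o P.D) P.l P.D (4 * P.Y) := by
    rw [eV]
    exact m1 _ _ _ _ _ _ _ (m2 V (Ot o P.D) P.l P.D P.Y (X / P.D ^ 2) h.Vsp.1 Osm l0.le D0.le h.maj
      (m3 _ _ _ _ _ hfar D0 D0.le le_rfl)) le_rfl D0.le le_rfl (by linarith)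
  -- the weights
  obtain ⟨lam, hlam⟩ : ∃ lam : ι → ℝ → ℝ, lam = fun j t => (o j).a t *
      ((o j).u + ‖deriv (o j).x t - Vh v o P.D t ((o j).x t)‖) := ⟨_, rfl⟩
  have lc : ∀ j, Continuous (lam j) := fun j => by
    rw [hlam]
    exact (h.good j).acont.mul (continuous_const.add
      (((h.good j).xsm.continuous_deriv (by simp)).sub (Vsp.1.continuous.comp
        (continuous_id.prodMk (h.good j).xsm.continuous))).norm)
  have lpos : ∀ j t, 0 ≤ lam j t := fun j t => by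
    rw [hlam]
    exact mul_nonneg ((h.good j).a0 t) (add_nonneg (h.good j).u0 (norm_nonneg _))
  have lsum : ∀ t, ∑ j, lam j t ^ 2 ≤ P.G ^ 18 * P.S / P.rho ^ 2 := fun t => by
    obtain ⟨g0, -, hg0⟩ := hfar
    have s3 := m4 _ _ _ _ _ P.G ι (fun i => (o i).a t) (fun i => (o i).x t) (hg0 t) l0 (by linarith)
      (fun i => (h.good i).a0 t) (fun i => (h.good i).a1 t) (mu t)
    have s2 := h.drift t
    have s1 : ∑ i, ((o i).a t * (o i).u) ^ 2 ≤ P.G ^ 10 * P.S / P.rho ^ 2 := by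
      have a1 : (∑ i, ((o i).a t * (o i).u) ^ 2) * P.rho ^ (2 - al) ≤ P.Xi := by
        refine le_trans ?_ (h.xi t)
        rw [Finset.sum_mul]
        exact Finset.sum_le_sum fun i _ => mul_le_mul_of_nonneg_left
          (Real.rpow_le_rpow r0.le (h.size i).1 hal) (sq_nonneg _)
      rw [e2, Par.Xi, ← mul_div_assoc, div_le_div_iff_of_pos_right ra] at a1
      rwa [le_div_iff₀ (by positivity)]
    have s4 : P.G * X / P.l ^ 2 ≤ P.G ^ 17 * P.S / P.rho ^ 2 := by
      have a1 : P.D ^ (al - 2) ≤ P.rho ^ (al - 2) :=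
        Real.rpow_le_rpow_of_nonpos r0 ok.rD (by linarith)
      have a2 : P.rho ^ (al - 2) = P.rho ^ al / P.rho ^ 2 := by
        rw [Real.rpow_sub r0, Real.rpow_two]
      calc _ = P.G ^ 17 * P.S / P.rho ^ al * P.D ^ (al - 2) := by rw [hX]; field_simp
        _ ≤ P.G ^ 17 * P.S / P.rho ^ al * P.rho ^ (al - 2) := by gcongr
        _ = _ := by rw [a2]; field_simp
    have s5 : P.G ^ 10 * P.S / P.rho ^ 2 ≤ P.G ^ 17 * P.S / P.rho ^ 2 := by
      gcongr
      · linarith
      · norm_num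
    have s6 : 9 * (P.G ^ 17 * P.S / P.rho ^ 2) ≤ P.G ^ 18 * P.S / P.rho ^ 2 := by
      calc _ ≤ P.G * (P.G ^ 17 * P.S / P.rho ^ 2) := by gcongr
        _ = _ := by ring
    have s7 : ∑ j, lam j t ^ 2 ≤ 3 * (∑ i, ((o i).a t * (o i).u) ^ 2 +
        ∑ i, ((o i).a t * ‖deriv (o i).x t - V t ((o i).x t)‖) ^ 2 +
        ∑ i, ((o i).a t * ‖Ot o P.D t ((o i).x t)‖) ^ 2) := by
      rw [← Finset.sum_add_distrib, ← Finset.sum_add_distrib, Finset.mul_sum]
      refine Finset.sum_le_sum fun i _ => ?_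
      have a1 : ‖deriv (o i).x t - Vh v o P.D t ((o i).x t)‖ ≤
          ‖deriv (o i).x t - V t ((o i).x t)‖ + ‖Ot o P.D t ((o i).x t)‖ := by
        rw [eV]
        show ‖_ - (_ + _)‖ ≤ _
        rw [← sub_sub]
        exact norm_sub_le _ _
      have a2 : lam i t ≤ (o i).a t * (o i).u + (o i).a t * ‖deriv (o i).x t - V t ((o i).x t)‖ +
          (o i).a t * ‖Ot o P.D t ((o i).x t)‖ := by
        rw [hlam]
        have := mul_le_mul_of_nonneg_left a1 ((h.good i).a0 t)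
        show (o i).a t * _ ≤ _
        linarith
      refine (pow_le_pow_left₀ (lpos i t) a2 2).trans ?_
      generalize (o i).a t * (o i).u = x1
      generalize (o i).a t * ‖deriv (o i).x t - V t ((o i).x t)‖ = x2
      generalize (o i).a t * ‖Ot o P.D t ((o i).x t)‖ = x3
      nlinarith [sq_nonneg (x1 - x2), sq_nonneg (x1 - x3), sq_nonneg (x2 - x3)]
    rw [Par.Z] at s2
    linarith
  -- the density
  obtain ⟨L, hL⟩ : ∃ L : ℝ → ℂ → ℝ,
      L = fun t x => ∑ j, lam j t * tau 2 P.l (pn (x - (o j).x t)) := ⟨_, rfl⟩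
  have Lc : Continuous fun p : ℝ × ℂ => L p.1 p.2 := by
    rw [hL]
    exact continuous_finset_sum _ fun j _ => ((lc j).comp continuous_fst).mul
      ((tau_cont 2 l0).comp (pn_cont.comp (continuous_snd.sub
        ((h.good j).xsm.continuous.comp continuous_fst))))
  have LI : ∀ t, P.kap ^ 2 * IQ (fun x => L t x ^ 2) ≤ P.Y := fun t => by
    have a0 := hmaj1 ι (fun j => lam j t) (fun j => (o j).x t) P.l P.G _ l0 (by linarith)
      (fun j => lpos j t) (mult_mono (mu t) (fun i hi => by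
        rw [hlam] at hi; exact left_ne_zero_of_mul hi) le_rfl) (lsum t)
    have a1 : C2 * P.G * lg P.l ^ 2 ≤ P.G * P.G * P.G ^ 2 := by gcongr
    have a2 := mul_le_mul_of_nonneg_right ok.kapp Y0.le
    rw [hL]
    calc _ ≤ P.kap ^ 2 * (C2 * P.G * lg P.l ^ 2 * P.l ^ 2 * (P.G ^ 18 * P.S / P.rho ^ 2)) := by
          gcongr
      _ ≤ P.kap ^ 2 * (P.G * P.G * P.G ^ 2 * P.l ^ 2 * (P.G ^ 18 * P.S / P.rho ^ 2)) := by gcongr
      _ = P.G ^ 22 * P.kap ^ 2 * P.l ^ 2 * P.n ^ 2 * P.Y := by rw [Par.Y]; field_simp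
      _ ≤ _ := by linarith
  obtain ⟨F, hF⟩ : ∃ F : ℝ → ℂ → ℝ,
      F = fun t x => g t x ^ 2 + P.kap ^ 2 * L t x ^ 2 + ‖q t x‖ / (P.n * P.rho) ^ 2 := ⟨_, rfl⟩
  have nr : 0 < (P.n * P.rho) ^ 2 := by positivity
  have Fc : Continuous fun p : ℝ × ℂ => F p.1 p.2 := by
    rw [hF]
    exact ((gc.pow 2).add (continuous_const.mul (Lc.pow 2))).add
      (hq.1.continuous.norm.div_const _)
  have Fp : ∀ t, Peri (F t) := fun t n z => by
    rw [hF, hL]
    simp only [(hg t).2.1 n z, hq.2 t n z, add_sub_right_comm, pn_lat]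
  have F1 : ∀ t x, g t x ^ 2 ≤ F t x ∧ P.kap ^ 2 * L t x ^ 2 ≤ F t x ∧
      ‖q t x‖ / (P.n * P.rho) ^ 2 ≤ F t x := fun t x => by
    rw [hF]
    have a1 := sq_nonneg (g t x)
    have a2 : 0 ≤ P.kap ^ 2 * L t x ^ 2 := by positivity
    have a3 : 0 ≤ ‖q t x‖ / (P.n * P.rho) ^ 2 := by positivity
    refine ⟨?_, ?_, ?_⟩ <;> simp only <;> linarith
  have F0 : ∀ t x, 0 ≤ F t x := fun t x => (sq_nonneg _).trans (F1 t x).1
  have FI : ∀ t, IQ (F t) ≤ 6 * P.Y := fun t => by
    have i1 : IntegrableOn (fun x => g t x ^ 2) cell := intQ ((hg t).1.pow 2)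
    have i2 : IntegrableOn (fun x => P.kap ^ 2 * L t x ^ 2) cell :=
      intQ (continuous_const.mul ((Lc.comp (Continuous.prodMk_right t)).pow 2))
    have i3 : IntegrableOn (fun x => ‖q t x‖ / (P.n * P.rho) ^ 2) cell :=
      intQ ((hq.1.continuous.comp (Continuous.prodMk_right t)).norm.div_const _)
    have a1 : IQ (F t) = IQ (fun x => g t x ^ 2) + P.kap ^ 2 * IQ (fun x => L t x ^ 2) +
        IQ (fun x => ‖q t x‖) / (P.n * P.rho) ^ 2 := by
      have i4 : IntegrableOn (fun x => g t x ^ 2 + P.kap ^ 2 * L t x ^ 2) cell := i1.add i2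
      rw [hF]
      unfold IQ
      simp only
      rw [integral_add i4 i3, integral_add i1 i2, integral_const_mul, integral_div]
    have a2 : IQ (fun x => ‖q t x‖) / (P.n * P.rho) ^ 2 ≤ P.Y :=
      div_le_div_of_nonneg_right (hqS t) nr.le
    linarith [(hg t).2.2.2, LI t]
  refine ⟨g, F, lam, Vts, gc, hg, hX ▸ hfar,
    ⟨Vsp, ⟨a, b, Vts⟩, Fc, Fp, F0, FI, fun t x y hxy => le_trans ?_ (F1 t x).1, l0, l1, by linarith⟩,
    fun t x => ?_, lc, lpos, fun j t ht => ?_, fun t z => ?_⟩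
  · exact pow_le_pow_left₀ (norm_nonneg _) ((hg t).2.2.1 x y hxy).1 2
  · rw [mul_comm]
    exact (div_le_iff₀ nr).1 (F1 t x).2.2
  · rw [hlam]
    simp only [(h.good j).aone t ht, one_mul]
    exact ⟨le_add_of_nonneg_left (h.good j).u0, le_add_of_nonneg_right (norm_nonneg _)⟩
  · obtain ⟨A, hA⟩ : ∃ A, A = ∑ j ∈ Finset.univ.filter (fun j => pn ((o j).x t - z) ≤ 52 * P.l),
        lam j t := ⟨_, rfl⟩
    have A0 : 0 ≤ A := hA ▸ Finset.sum_nonneg fun j _ => lpos j t
    have a1 := (hAVG F P.l Fc Fp F0 l0 l1).2.2.2.2.2.2 500 t z z ((P.kap * (A / 3721)) ^ 2)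
      (by rw [sub_self, norm_zero]; linarith) (fun x hx => by
        refine le_trans ?_ (F1 t x).2.1
        rw [mul_pow]
        refine mul_le_mul_of_nonneg_left (pow_le_pow_left₀ (by positivity) ?_ 2) (sq_nonneg _)
        rw [hL, hA, Finset.sum_div]
        refine le_trans (Finset.sum_le_sum fun j hj => ?_) (Finset.sum_le_sum_of_subset_of_nonneg
          (Finset.filter_subset _ _) fun j _ _ => mul_nonneg (lpos j t) (tau_nonneg 2 l0 _))
        rw [div_eq_mul_one_div]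
        refine mul_le_mul_of_nonneg_left (tau_ge l0 ?_) (lpos j t)
        have b1 := pn_le ((o j).x t - x) ((o j).x t - z)
        rw [sub_sub_sub_cancel_left, ← pn_neg, neg_sub] at b1
        rw [norm_sub_rev] at hx
        linarith [(Finset.mem_filter.1 hj).2])
    have a2 := Real.le_sqrt_of_sq_le a1
    rw [← hA, div_mul_eq_mul_div, le_div_iff₀ k0]
    linarith

end Pool.Agent.Lib.EUL
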