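import Pool.Agent.Lib.EUL.Blue

set_option autoImplicit false

namespace Pool.Agent.Lib.EUL

open MeasureTheory Set Filter Topology
open scoped ContDiff Classical

namespace SHEAR

theorem cont_pn : Continuous pn := Metric.continuous_infDist_pt _

theorem closed_lat : IsClosed (range lat) := by
  refine Metric.isClosed_of_pairwise_le_dist (ε := 1) one_pos ?_
  rintro _ ⟨n, rfl⟩ _ ⟨m, rfl⟩ hne
  rw [dist_eq_norm]
  have hre : (lat n - lat m).re = ((n.1 - m.1 : ℤ) : ℝ) := by simp [lat]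
  have him : (lat n - lat m).im = ((n.2 - m.2 : ℤ) : ℝ) := by simp [lat]
  by_cases h1 : n.1 = m.1
  · have h2 : n.2 ≠ m.2 := fun h2 => hne (by rw [Prod.ext h1 h2])
    refine le_trans ?_ (Complex.abs_im_le_norm _)
    rw [him, ← Int.cast_abs]
    exact_mod_cast Int.one_le_abs (sub_ne_zero.2 h2)
  · refine le_trans ?_ (Complex.abs_re_le_norm _)
    rw [hre, ← Int.cast_abs]
    exact_mod_cast Int.one_le_abs (sub_ne_zero.2 h1)

theorem ex_pn (z : ℂ) : ∃ n, ‖z - lat n‖ = pn z := by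
  obtain ⟨_, ⟨n, rfl⟩, h⟩ := closed_lat.exists_infDist_eq_dist ⟨_, ⟨(0, 0), rfl⟩⟩ z
  exact ⟨n, by rw [pn, h, dist_eq_norm]⟩

theorem pn_nonneg (z : ℂ) : 0 ≤ pn z := Metric.infDist_nonneg

theorem nD_nonneg (k : ℕ) (f : ℂ → ℂ) (y : ℂ) : 0 ≤ nD k f y := norm_nonneg _

theorem nD_per {V : ℂ → ℂ} (hV : Peri V) (k : ℕ) (n : ℤ × ℤ) (y : ℂ) :
    nD k V (y + lat n) = nD k V y := by
  unfold nD
  rw [← iteratedFDeriv_comp_add_right]
  have : (fun z => V (z + lat n)) = V := funext fun z => hV n z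
  rw [this]

theorem cell_sub : cell ⊆ Metric.closedBall (0 : ℂ) 1 := by
  rintro z ⟨⟨h1, h2⟩, h3, h4⟩
  rw [Metric.mem_closedBall, dist_zero_right]
  refine (Complex.norm_le_abs_re_add_abs_im z).trans ?_
  have a : |z.re| ≤ 1 / 2 := abs_le.2 ⟨by linarith, h2⟩
  have b : |z.im| ≤ 1 / 2 := abs_le.2 ⟨by linarith, h4⟩
  linarith

theorem int_cont {f : ℂ → ℝ} (hf : Continuous f) : IntegrableOn f cell :=
  (hf.continuousOn.integrableOn_compact (isCompact_closedBall 0 1)).mono_set cell_sub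

theorem cont_tau (k : ℕ) {r : ℝ} (hr : 0 < r) (p : ℂ) :
    Continuous fun x => tau k r (pn (x - p)) := by
  unfold tau
  have h : Continuous fun x : ℂ => pn (x - p) := cont_pn.comp (continuous_id.sub continuous_const)
  exact (continuous_const.div (continuous_const.max h)
    fun x => (lt_of_lt_of_le hr (le_max_left _ _)).ne').pow k

theorem tau_nonneg (k : ℕ) {r : ℝ} (hr : 0 < r) (s : ℝ) : 0 ≤ tau k r s :=
  pow_nonneg (div_nonneg hr.le (hr.le.trans (le_max_left _ _))) k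

theorem int_tr {r : ℝ} (hr : 0 < r) (R : ℝ) (p : ℂ) :
    IntegrableOn (fun x => if pn (x - p) ≤ R then tau 1 r (pn (x - p)) else 0) cell := by
  have h : Continuous fun x : ℂ => pn (x - p) := cont_pn.comp (continuous_id.sub continuous_const)
  have hm : MeasurableSet {x : ℂ | pn (x - p) ≤ R} := (isClosed_le h continuous_const).measurableSet
  have := (int_cont (cont_tau 1 hr p)).indicator hm
  refine this.congr_fun (fun x _ => ?_) ?_
  · simp [indicator]
  · exact (measurableSet_Ioc.preimage Complex.measurable_re).inter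
      (measurableSet_Ioc.preimage Complex.measurable_im)

theorem le_inf (k : ℕ) : (k : WithTop ℕ∞) ≤ ∞ := by exact_mod_cast le_top

theorem nD_sub_const {V : ℂ → ℂ} (hV : ContDiff ℝ ∞ V) (a : ℂ) {k : ℕ} (hk : k ≠ 0) (y : ℂ) :
    ‖iteratedFDeriv ℝ k (fun y => V y - a) y‖ = nD k V y := by
  unfold nD
  rw [fun_iteratedFDeriv_sub_apply (hV.contDiffAt.of_le (by exact_mod_cast le_top))
    contDiffAt_const, iteratedFDeriv_const_of_ne hk]
  simp

theorem pt {V W : ℂ → ℂ} {p : ℂ} {c G l rho : ℝ} (hr : 0 < rho) (hl : 0 < l) (hc : 0 ≤ c)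
    (hG0 : 0 ≤ G) (hV : ContDiff ℝ ∞ V) (hVp : Peri V) (hW : ContDiff ℝ ∞ W)
    (hE : Env W p c rho) (hS : Supp W p (l / 2))
    (hG : ∀ y, ‖y - p‖ ≤ l / 2 → nD 1 V y ≤ G ∧ rho * nD 2 V y ≤ G) (y : ℂ) :
    nD 0 (fun y => (V y - V p) * W y) y ≤
        G * c * rho * (if pn (y - p) ≤ l / 2 then tau 1 rho (pn (y - p)) else 0) ∧
      nD 1 (fun y => (V y - V p) * W y) y ≤ 2 * (G * c) * tau 2 rho (pn (y - p)) ∧
      nD 2 (fun y => (V y - V p) * W y) y ≤ 4 * (G * c) / rho * tau 2 rho (pn (y - p)) := by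
  have hGc : 0 ≤ G * c := mul_nonneg hG0 hc
  by_cases h : pn (y - p) ≤ l / 2
  · obtain ⟨n, hn⟩ := ex_pn (y - p)
    set s := pn (y - p) with hs
    have hy : y = (y - lat n) + lat n := by ring
    have hn' : ‖(y - lat n) - p‖ = s := by rw [← hn]; congr 1; ring
    have a0 : ‖V y - V p‖ ≤ G * s := by
      have h1 : V y = V (y - lat n) := by
        conv_lhs => rw [hy]
        exact hVp n _
      rw [h1, ← hn']
      refine (convex_closedBall p (l / 2)).norm_image_sub_le_of_norm_fderiv_le (𝕜 := ℝ)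
        (fun x _ => (hV.differentiable (by simp)).differentiableAt) (fun x hx => ?_)
        (Metric.mem_closedBall_self (by linarith)) ?_
      · rw [← norm_iteratedFDeriv_one]
        exact (hG x (by rwa [Metric.mem_closedBall, dist_eq_norm] at hx)).1
      · rw [Metric.mem_closedBall, dist_eq_norm, hn']; exact h
    have a12 := hG (y - lat n) (by rw [hn']; exact h)
    have a1 : nD 1 V y ≤ G := by rw [hy, nD_per hVp]; exact a12.1
    have a2 : nD 2 V y ≤ G / rho := by
      rw [hy, nD_per hVp, le_div_iff₀ hr, mul_comm]; exact a12.2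
    set m := max rho s with hm
    have hrm : rho ≤ m := le_max_left _ _
    have hsm : s ≤ m := le_max_right _ _
    have hm0 : 0 < m := lt_of_lt_of_le hr hrm
    have a0' : ‖V y - V p‖ ≤ G * m := a0.trans (mul_le_mul_of_nonneg_left hsm hG0)
    have w0 := hE 0 (by norm_num) y
    have w1 := hE 1 (by norm_num) y
    have w2 := hE 2 (by norm_num) y
    rw [← hs, ← hm] at w0 w1 w2
    have hVa : ContDiff ℝ ∞ fun y => V y - V p := hV.sub contDiff_const
    have L1 := norm_iteratedFDeriv_mul_le hVa hW y (le_inf 1)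
    have L2 := norm_iteratedFDeriv_mul_le hVa hW y (le_inf 2)
    simp only [Finset.sum_range_succ, Finset.range_zero, Finset.sum_empty, zero_add,
      nD_sub_const hV (V p) one_ne_zero, nD_sub_const hV (V p) two_ne_zero,
      norm_iteratedFDeriv_zero (f := fun y => V y - V p), Nat.choose_zero_right, Nat.choose_self,
      Nat.choose_one_right, Nat.cast_one, one_mul, Nat.cast_ofNat] at L1 L2
    have L1' : nD 1 (fun y => (V y - V p) * W y) y ≤
      ‖V y - V p‖ * nD 1 W y + nD 1 V y * nD 0 W y := L1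
    have L2' : nD 2 (fun y => (V y - V p) * W y) y ≤
      ‖V y - V p‖ * nD 2 W y + 2 * nD 1 V y * nD 1 W y + nD 2 V y * nD 0 W y := L2
    have t1 : tau 1 rho s = rho / m := by simp [tau, hm]
    have t2 : tau 2 rho s = (rho / m) ^ 2 := rfl
    have nW0 : ‖W y‖ = nD 0 W y := by simp [nD]
    have p0 := nD_nonneg 0 W y
    have p1 := nD_nonneg 1 W y
    have p2 := nD_nonneg 2 W y
    have q1 := nD_nonneg 1 V y
    have q2 := nD_nonneg 2 V y
    have hGm : 0 ≤ G * m := by positivity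
    have hGr : 0 ≤ G / rho := by positivity
    have b00 : ‖V y - V p‖ * nD 0 W y ≤ G * m * (c * rho ^ 2 / m ^ (2 + 0)) :=
      mul_le_mul a0' w0 p0 hGm
    have b01 : ‖V y - V p‖ * nD 1 W y ≤ G * m * (c * rho ^ 2 / m ^ (2 + 1)) :=
      mul_le_mul a0' w1 p1 hGm
    have b02 : ‖V y - V p‖ * nD 2 W y ≤ G * m * (c * rho ^ 2 / m ^ (2 + 2)) :=
      mul_le_mul a0' w2 p2 hGm
    have b10 : nD 1 V y * nD 0 W y ≤ G * (c * rho ^ 2 / m ^ (2 + 0)) := mul_le_mul a1 w0 p0 hG0
    have b11 : nD 1 V y * nD 1 W y ≤ G * (c * rho ^ 2 / m ^ (2 + 1)) := mul_le_mul a1 w1 p1 hG0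
    have b20 : nD 2 V y * nD 0 W y ≤ G / rho * (c * rho ^ 2 / m ^ (2 + 0)) :=
      mul_le_mul a2 w0 p0 hGr
    have e00 : G * m * (c * rho ^ 2 / m ^ (2 + 0)) = G * c * rho * (rho / m) := by
      field_simp; ring
    have e01 : G * m * (c * rho ^ 2 / m ^ (2 + 1)) = G * c * (rho / m) ^ 2 := by
      field_simp; ring
    have e02 : G * m * (c * rho ^ 2 / m ^ (2 + 2)) = G * c * (rho / m) ^ 2 / m := by
      field_simp; ring
    have e10 : G * (c * rho ^ 2 / m ^ (2 + 0)) = G * c * (rho / m) ^ 2 := by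
      field_simp
    have e11 : G * (c * rho ^ 2 / m ^ (2 + 1)) = G * c * (rho / m) ^ 2 / m := by
      field_simp
    have e20 : G / rho * (c * rho ^ 2 / m ^ (2 + 0)) = G * c * (rho / m) ^ 2 / rho := by
      field_simp
    have cmp : G * c * (rho / m) ^ 2 / m ≤ G * c * (rho / m) ^ 2 / rho :=
      div_le_div_of_nonneg_left (by positivity) hr hrm
    rw [if_pos h, t1, t2]
    refine ⟨?_, ?_, ?_⟩
    · have : nD 0 (fun y => (V y - V p) * W y) y = ‖V y - V p‖ * nD 0 W y := by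
        rw [← nW0, ← norm_mul]; simp [nD]
      linarith
    · linarith
    · have e : 4 * (G * c) / rho * (rho / m) ^ 2 = 4 * (G * c * (rho / m) ^ 2 / rho) := by ring
      rw [e]
      linarith
  · have hev : (fun y => (V y - V p) * W y) =ᶠ[𝓝 y] fun _ => (0 : ℂ) := by
      have hc' : Continuous fun x : ℂ => pn (x - p) :=
        cont_pn.comp (continuous_id.sub continuous_const)
      filter_upwards [(isOpen_lt continuous_const hc').mem_nhds (not_le.1 h)] with x hx
      rw [hS x hx, mul_zero]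
    have z : ∀ k, nD k (fun y => (V y - V p) * W y) y = 0 := fun k => by
      unfold nD
      rw [(hev.iteratedFDeriv ℝ k).eq_of_nhds, iteratedFDeriv_fun_zero]
      simp
    rw [z, z, z, if_neg h]
    have := tau_nonneg 2 hr (pn (y - p))
    exact ⟨by simp, by positivity, by positivity⟩

theorem nD_sum_le {ι : Type} [Fintype ι] {f : ι → ℂ → ℂ} (hf : ∀ i, ContDiff ℝ ∞ (f i)) (k : ℕ)
    (y : ℂ) : nD k (fun y => ∑ i, f i y) y ≤ ∑ i, nD k (f i) y := by
  unfold nD
  rw [iteratedFDeriv_fun_sum_apply fun i _ => (hf i).contDiffAt.of_le (by exact_mod_cast le_top)]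
  exact norm_sum_le _ _

theorem IQ_le {ι : Type} [Fintype ι] {F : ℂ → ℝ} {a : ι → ℝ} {T : ι → ℂ → ℝ} {b : ℝ}
    (hF : ∀ y, 0 ≤ F y) (ha : ∀ i, 0 ≤ a i) (hT : ∀ i, IntegrableOn (T i) cell)
    (hb : ∀ i, IQ (T i) ≤ b) (h : ∀ y, F y ≤ ∑ i, a i * T i y) : IQ F ≤ (∑ i, a i) * b := by
  unfold IQ at *
  refine (integral_mono_of_nonneg (Eventually.of_forall hF)
    (integrable_finsetSum _ fun i _ => (hT i).const_mul (a i)) (Eventually.of_forall h)).trans ?_
  rw [integral_finsetSum _ fun i _ => (hT i).const_mul (a i), Finset.sum_mul]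
  refine Finset.sum_le_sum fun i _ => ?_
  rw [integral_const_mul]
  exact mul_le_mul_of_nonneg_left (hb i) (ha i)

theorem cst_mono {l c c' : ℝ} {f : ℂ → ℂ} (hl : 0 < l) (h : Cst l f c) (hc : c ≤ c') :
    Cst l f c' :=
  ⟨h.1.trans hc, fun y => (h.2 y).trans (mul_le_mul_of_nonneg_right
    (div_le_div_of_nonneg_right hc (Real.rpow_nonneg hl.le _)) (Real.rpow_nonneg (norm_nonneg _) _))⟩

end SHEAR

open SHEAR in
theorem st_SHEAR (hCS : St_CS) (hENV : St_ENV) (hPTS : St_PTS) : St_SHEAR := by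
  obtain ⟨C, hC1, hC⟩ := hENV
  refine ⟨17 * C, by linarith, ?_⟩
  intro ι _ W p c V g l D Y rho M Z hr hrD hrl hl hV hVp hGM hW hM hZ
  obtain ⟨gc, gp, gm, gY⟩ := hGM
  have hl0 : 0 < l := lt_of_lt_of_le hr hrl
  have hex : ∀ i, ∃ x ∈ Metric.closedBall (p i) (l / 2), IsMinOn g (Metric.closedBall (p i) (l / 2)) x :=
    fun i => (isCompact_closedBall (p i) (l / 2)).exists_isMinOn
      ⟨p i, Metric.mem_closedBall_self (by linarith)⟩ gc.continuousOn
  choose x hx hmin using hex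
  have g0 : ∀ y, 0 ≤ g y := fun y => (nD_nonneg 1 V y).trans (gm y y (by simp [hl0.le])).1
  have hG : ∀ i y, ‖y - p i‖ ≤ l / 2 → nD 1 V y ≤ g (x i) ∧ rho * nD 2 V y ≤ g (x i) := by
    intro i y hy
    have h1 := hx i
    rw [Metric.mem_closedBall, dist_eq_norm] at h1
    have h2 : ‖x i - y‖ ≤ l := by
      have : x i - y = (x i - p i) - (y - p i) := by ring
      rw [this]
      exact (norm_sub_le _ _).trans (by linarith)
    exact ⟨(gm _ _ h2).1, (mul_le_mul_of_nonneg_right hrD (nD_nonneg 2 V y)).trans (gm _ _ h2).2⟩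
  have hM0 : 0 ≤ M := le_trans (Nat.cast_nonneg _) (hM 0)
  have hM' : Mult (fun i => c i ≠ 0) p (l / 2) M := by
    intro y
    refine le_trans (Nat.cast_le.2 (Finset.card_le_card fun i hi => ?_)) (hM y)
    simp only [Finset.mem_filter] at hi ⊢
    exact ⟨hi.1, hi.2.1, hi.2.2.trans (by linarith)⟩
  obtain ⟨F, hF, hP⟩ : ∃ F : Finset ι, (∀ i, i ∈ F ↔ c i ≠ 0) ∧
      (l / 2) ^ 2 * ∑ i ∈ F, g (x i) ^ 2 ≤ M * IQ fun y => g y ^ 2 :=
    ⟨_, fun i => by simp, hPTS ι (fun i => c i ≠ 0) p (l / 2) M (fun i => g (x i) ^ 2)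
      (fun y => g y ^ 2) (by linarith) (by linarith) hM' (gc.pow 2)
      (fun n z => by simp only [gp n z]) (fun y => sq_nonneg _)
      (fun i _ y hy => pow_le_pow_left₀ (g0 _)
        (hmin i (by rwa [Metric.mem_closedBall, dist_eq_norm])) 2)⟩
  have hMY : M * IQ (fun y => g y ^ 2) ≤ M * Y := mul_le_mul_of_nonneg_left gY hM0
  have hY0 : 0 ≤ M * Y := le_trans (mul_nonneg hM0 (integral_nonneg fun y => sq_nonneg _)) hMY
  have hsum : ∑ i, g (x i) * c i ≤ 2 / l * √(M * Y * Z) := by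
    have e1 : ∑ i, g (x i) * c i = ∑ i ∈ F, g (x i) * c i := by
      refine (Finset.sum_subset (Finset.subset_univ F) fun i _ hi => ?_).symm
      rw [not_not.1 (mt (hF i).2 hi), mul_zero]
    rw [e1]
    refine (Real.sum_mul_le_sqrt_mul_sqrt _ _ _).trans ?_
    have s1 : ∑ i ∈ F, g (x i) ^ 2 ≤ (2 / l) ^ 2 * (M * Y) := by
      have : (2 / l) ^ 2 * (M * Y) = (M * Y) / (l / 2) ^ 2 := by field_simp
      rw [this, le_div_iff₀ (by positivity), mul_comm]
      exact hP.trans hMY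
    have s2 : ∑ i ∈ F, c i ^ 2 ≤ Z :=
      (Finset.sum_le_sum_of_subset_of_nonneg (Finset.subset_univ F)
        fun i _ _ => sq_nonneg _).trans hZ
    refine (mul_le_mul (Real.sqrt_le_sqrt s1) (Real.sqrt_le_sqrt s2) (Real.sqrt_nonneg _)
      (Real.sqrt_nonneg _)).trans (le_of_eq ?_)
    rw [Real.sqrt_mul (sq_nonneg _), Real.sqrt_sq (by positivity), Real.sqrt_mul hY0 Z]
    ring
  set Q := √(M * Y * Z) with hQ
  have hQ0 : 0 ≤ Q := Real.sqrt_nonneg _
  have hsm : ∀ i, ContDiff ℝ ∞ fun y => (V y - V (p i)) * W i y :=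
    fun i => (hV.sub contDiff_const).mul (hW i).1
  have hpt := fun i => pt hr hl0 (hW i).2.2.1 (g0 (x i)) hV hVp (hW i).1 (hW i).2.2.2.1
    (hW i).2.2.2.2 (hG i)
  have ha : ∀ i, 0 ≤ g (x i) * c i := fun i => mul_nonneg (g0 _) (hW i).2.2.1
  have hlg : 1 ≤ lg rho := by unfold lg; linarith [abs_nonneg (Real.log rho)]
  have hr1 : rho ≤ 1 := by linarith
  have i0 : IQ (nD 0 fun y => ∑ i, (V y - V (p i)) * W i y) ≤
      (∑ i, g (x i) * c i * rho) * (C * rho * (l / 2)) :=
    IQ_le (nD_nonneg 0 _) (fun i => mul_nonneg (ha i) hr.le) (fun i => int_tr hr (l / 2) (p i))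
      (fun i => (hC rho (p i) hr hr1).2.2.2 (l / 2) (by linarith))
      fun y => (nD_sum_le hsm 0 y).trans (Finset.sum_le_sum fun i _ => (hpt i y).1)
  have i1 : IQ (nD 1 fun y => ∑ i, (V y - V (p i)) * W i y) ≤
      (∑ i, 2 * (g (x i) * c i)) * (C * rho ^ 2 * lg rho) :=
    IQ_le (nD_nonneg 1 _) (fun i => mul_nonneg zero_le_two (ha i))
      (fun i => int_cont (cont_tau 2 hr (p i))) (fun i => (hC rho (p i) hr hr1).1)
      fun y => (nD_sum_le hsm 1 y).trans (Finset.sum_le_sum fun i _ => (hpt i y).2.1)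
  have i2 : IQ (nD 2 fun y => ∑ i, (V y - V (p i)) * W i y) ≤
      (∑ i, 4 * (g (x i) * c i) / rho) * (C * rho ^ 2 * lg rho) :=
    IQ_le (nD_nonneg 2 _) (fun i => div_nonneg (mul_nonneg (by norm_num) (ha i)) hr.le)
      (fun i => int_cont (cont_tau 2 hr (p i))) (fun i => (hC rho (p i) hr hr1).1)
      fun y => (nD_sum_le hsm 2 y).trans (Finset.sum_le_sum fun i _ => (hpt i y).2.2)
  rw [← Finset.sum_mul] at i0
  rw [← Finset.mul_sum] at i1
  rw [← Finset.sum_div, ← Finset.mul_sum] at i2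
  set S := ∑ i, g (x i) * c i with hS
  have hS0 : 0 ≤ S := Finset.sum_nonneg fun i _ => ha i
  have hC0 : 0 < C := by linarith
  have hlg0 : 0 < lg rho := by linarith
  have key := hCS.2 (fun y => ∑ i, (V y - V (p i)) * W i y) l rho (C * rho ^ 2 * Q)
    (8 * C * lg rho * rho ^ 3 * Q / l) (ContDiff.sum fun i _ => hsm i)
    (fun n z => by simp only [hVp n z, (hW _).2.1 n z]) hr hl0
    (i0.trans (by
      have e : S * rho * (C * rho * (l / 2)) = S * (C * rho ^ 2 * (l / 2)) := by ring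
      rw [e]
      refine (mul_le_mul_of_nonneg_right hsum (by positivity)).trans (le_of_eq ?_)
      field_simp))
    (i1.trans (by
      have e : 2 * S * (C * rho ^ 2 * lg rho) = S * (2 * C * rho ^ 2 * lg rho) := by ring
      rw [e]
      refine (mul_le_mul_of_nonneg_right hsum (by positivity)).trans ?_
      have e2 : 8 * C * lg rho * rho ^ 3 * Q / l / rho
          = 2 * (2 / l * Q * (2 * C * rho ^ 2 * lg rho)) := by
        field_simp; ring
      have : 0 ≤ 2 / l * Q * (2 * C * rho ^ 2 * lg rho) := by positivity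
      linarith))
    (i2.trans (by
      have e : 4 * S / rho * (C * rho ^ 2 * lg rho) = S * (4 * C * rho * lg rho) := by
        field_simp
      rw [e]
      refine (mul_le_mul_of_nonneg_right hsum (by positivity)).trans (le_of_eq ?_)
      field_simp; ring))
  refine cst_mono hl0 key ?_
  have hlr : 1 ≤ l / rho := (one_le_div hr).2 hrl
  have hp1 : 1 ≤ (l / rho) ^ (al - 1) := Real.one_le_rpow hlr (by unfold al; norm_num)
  have hp : (l / rho) ^ al = (l / rho) ^ (al - 1) * (l / rho) := by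
    rw [Real.rpow_sub_one (by positivity)]
    field_simp
  rw [hp]
  set P := (l / rho) ^ (al - 1) with hP'
  have e : 2 * (8 * C * lg rho * rho ^ 3 * Q / l) * (P * (l / rho))
      = 16 * (C * lg rho * Q * rho ^ 2 * P) := by
    field_simp; ring
  have e' : C * rho ^ 2 * Q ≤ C * lg rho * Q * rho ^ 2 * P := by
    have : C * lg rho * Q * rho ^ 2 * P = C * rho ^ 2 * Q * (lg rho * P) := by ring
    rw [this]
    exact le_mul_of_one_le_right (by positivity) (one_le_mul_of_one_le_of_one_le hlg hp1)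
  rw [e]
  linarith

end Pool.Agent.Lib.EUL
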