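import Pool.Agent.Lib.EUL.B_AVG

set_option autoImplicit false

namespace Pool.Agent.Lib.EUL

open MeasureTheory Set Filter Topology
open scoped ContDiff Classical

noncomputable section

namespace SQ

lemma nD_nonneg (k : ℕ) (f : ℂ → ℂ) (x : ℂ) : 0 ≤ nD k f x := norm_nonneg _

lemma nD_zero (f : ℂ → ℂ) (x : ℂ) : nD 0 f x = ‖f x‖ := by
  simp [nD]

lemma cont_nD {f : ℂ → ℂ} (hf : ContDiff ℝ ∞ f) (k : ℕ) : Continuous (nD k f) :=
  (hf.continuous_iteratedFDeriv (by exact_mod_cast le_top)).norm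

lemma nD_two_mul {f g : ℂ → ℂ} (hf : ContDiff ℝ ∞ f) (hg : ContDiff ℝ ∞ g) (x : ℂ) :
    nD 2 (fun y => f y * g y) x ≤
      nD 0 f x * nD 2 g x + 2 * (nD 1 f x * nD 1 g x) + nD 2 f x * nD 0 g x := by
  have h2 : ∀ k : ℕ, (k : WithTop ℕ∞) ≤ ∞ := fun k => by exact_mod_cast le_top
  have h := norm_iteratedFDeriv_mul_le (𝕜 := ℝ) (N := ∞) hf hg x (n := 2) (h2 2)
  simp only [Finset.sum_range_succ, Finset.sum_range_zero] at h
  have e0 : 2 - 0 = 2 := rfl
  have e1 : 2 - 1 = 1 := rfl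
  have e2 : 2 - 2 = 0 := rfl
  have c0 : ((Nat.choose 2 0 : ℕ) : ℝ) = 1 := by norm_num
  have c1 : ((Nat.choose 2 1 : ℕ) : ℝ) = 2 := by norm_num
  have c2 : ((Nat.choose 2 2 : ℕ) : ℝ) = 1 := by norm_num
  rw [e0, e1, e2, c0, c1, c2] at h
  simp only [nD]
  linarith

lemma nD_zero_mul (f g : ℂ → ℂ) (x : ℂ) :
    nD 0 (fun y => f y * g y) x = nD 0 f x * nD 0 g x := by
  simp only [nD_zero, norm_mul]

lemma IQ_mono {f g : ℂ → ℝ} (hf : Continuous f) (hg : Continuous g) (h : ∀ x, f x ≤ g x) :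
    IQ f ≤ IQ g :=
  integral_mono (AVG.intOn_cell hf) (AVG.intOn_cell hg) h

lemma IQ_const_mul (c : ℝ) (f : ℂ → ℝ) : IQ (fun x => c * f x) = c * IQ f :=
  integral_const_mul c f

lemma nD_half {f : ℂ → ℂ} (hf : ContDiff ℝ ∞ f) (k : ℕ) (x : ℂ) :
    nD k (fun y => f y / 2) x = nD k f x / 2 := by
  have e : (fun y => f y / 2) = fun y => (1 / 2 : ℝ) • f y := by
    funext y
    rw [Complex.real_smul]
    push_cast
    ring
  rw [e, nD, iteratedFDeriv_const_smul_apply' (hf.contDiffAt.of_le (by exact_mod_cast le_top)),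
    norm_smul, nD]
  norm_num
  ring

end SQ

open SQ in
theorem st_SQ (hCS : St_CS) : St_SQ := by
  refine ⟨8, by norm_num, ?_⟩
  intro B g l s X hs hsl hB hP ⟨hgc, _, hg, hX⟩
  have hBB : ContDiff ℝ ∞ fun y => B y * B y := hB.mul hB
  have e : (fun y => B y ^ 2 / 2) = fun y => (B y * B y) / 2 := by
    funext y; ring
  have hl : 0 ≤ l := hs.le.trans hsl
  have hf : ContDiff ℝ ∞ fun y => B y ^ 2 / 2 := by
    rw [e]; exact hBB.div_const _
  have b0 : ∀ x, nD 0 B x ≤ g x := fun x => by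
    simpa using hg x x (by simpa using hl) 0 (by norm_num)
  have b1 : ∀ x, s * nD 1 B x ≤ g x := fun x => by
    simpa using hg x x (by simpa using hl) 1 (by norm_num)
  have b2 : ∀ x, s ^ 2 * nD 2 B x ≤ g x := fun x => hg x x (by simpa using hl) 2 le_rfl
  have hs2 : 0 < s ^ 2 := by positivity
  have key := hCS.1 (fun y => B y ^ 2 / 2) l s (2 * X) hf (fun n z => by simp only [hP n z]) hs hsl
    ?_ ?_
  · have e2 : 4 * (2 * X) * (l / s) ^ al = 8 * X * (l / s) ^ al := by ring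
    rwa [e2] at key
  · refine le_trans (IQ_mono (cont_nD hf 0) (continuous_const.mul (hgc.pow 2))
      (g := fun x => 2 * g x ^ 2) fun x => ?_) ?_
    · rw [e, nD_half hBB, nD_zero_mul]
      have := nD_nonneg 0 B x
      have := b0 x
      nlinarith
    · rw [IQ_const_mul]; linarith
  · refine le_trans (IQ_mono (cont_nD hf 2) (continuous_const.mul (hgc.pow 2))
      (g := fun x => 2 / s ^ 2 * g x ^ 2) fun x => ?_) ?_
    · rw [e, nD_half hBB]
      have h := nD_two_mul hB hB x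
      have p0 := nD_nonneg 0 B x
      have p1 := nD_nonneg 1 B x
      have p2 := nD_nonneg 2 B x
      have q1 : nD 0 B x * (s ^ 2 * nD 2 B x) ≤ g x * g x :=
        mul_le_mul (b0 x) (b2 x) (by positivity) (p0.trans (b0 x))
      have q2 : (s * nD 1 B x) * (s * nD 1 B x) ≤ g x * g x :=
        mul_le_mul (b1 x) (b1 x) (by positivity) (p0.trans (b0 x))
      rw [div_mul_eq_mul_div, le_div_iff₀ hs2]
      nlinarith [mul_le_mul_of_nonneg_right h hs2.le]
    · rw [IQ_const_mul, div_mul_eq_mul_div]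
      exact div_le_div_of_nonneg_right (by linarith) hs2.le

end

end Pool.Agent.Lib.EUL
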