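import Pool.Agent.Lib.EUL.Blue

set_option autoImplicit false

namespace Pool.Agent.Lib.EUL

open MeasureTheory Set Filter Topology
open scoped ContDiff Classical

namespace POU

theorem lat_add (n m : ℤ × ℤ) : lat (n + m) = lat n + lat m := by
  simp only [lat, Prod.fst_add, Prod.snd_add, Int.cast_add]
  ring

theorem lat_neg (n : ℤ × ℤ) : lat (-n) = -lat n := by
  simp only [lat, Prod.fst_neg, Prod.snd_neg, Int.cast_neg]
  ring

theorem lat_re (n : ℤ × ℤ) : (lat n).re = n.1 := by simp [lat]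

theorem lat_im (n : ℤ × ℤ) : (lat n).im = n.2 := by simp [lat]

theorem far (x : ℂ) (R : ℝ) : ∃ s : Finset (ℤ × ℤ), ∀ n ∉ s, R < ‖x - lat n‖ := by
  obtain ⟨M, hM⟩ := exists_nat_ge (‖x‖ + R)
  refine ⟨Finset.Icc (-(M : ℤ)) M ×ˢ Finset.Icc (-(M : ℤ)) M, fun n hn => ?_⟩
  by_contra h
  push Not at h
  apply hn
  have h1 : ‖lat n‖ ≤ M := by
    have := norm_sub_le x (x - lat n)
    rw [sub_sub_cancel] at this
    linarith
  have h2 := (Complex.abs_re_le_norm (lat n)).trans h1
  have h3 := (Complex.abs_im_le_norm (lat n)).trans h1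
  rw [lat_re, abs_le] at h2
  rw [lat_im, abs_le] at h3
  simp only [Finset.mem_product, Finset.mem_Icc]
  refine ⟨⟨?_, ?_⟩, ?_, ?_⟩
  · exact_mod_cast h2.1
  · exact_mod_cast h2.2
  · exact_mod_cast h3.1
  · exact_mod_cast h3.2

theorem sep {n m : ℤ × ℤ} (h : ‖lat n - lat m‖ < 1) : n = m := by
  have h2 := (Complex.abs_re_le_norm (lat n - lat m)).trans_lt h
  have h3 := (Complex.abs_im_le_norm (lat n - lat m)).trans_lt h
  rw [Complex.sub_re, lat_re, lat_re] at h2
  rw [Complex.sub_im, lat_im, lat_im] at h3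
  have h4 : |n.1 - m.1| < 1 := by exact_mod_cast h2
  have h5 : |n.2 - m.2| < 1 := by exact_mod_cast h3
  rw [Int.abs_lt_one_iff] at h4 h5
  ext <;> omega

theorem contDiff_per {f : ℂ → ℝ} {r : ℝ} (hf : ContDiff ℝ ∞ f) (h0 : ∀ y, r < ‖y‖ → f y = 0) :
    ContDiff ℝ ∞ (Per f) := by
  rw [contDiff_iff_contDiffAt]
  intro x0
  obtain ⟨s, hs⟩ := far x0 (r + 1)
  have h1 : ContDiff ℝ ∞ fun x => ∑ n ∈ s, f (x - lat n) :=
    ContDiff.sum fun n _ => hf.comp (contDiff_id.sub contDiff_const)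
  refine h1.contDiffAt.congr_of_eventuallyEq ?_
  filter_upwards [Metric.ball_mem_nhds x0 one_pos] with x hx
  refine tsum_eq_sum fun n hn => h0 _ ?_
  have h2 := hs n hn
  rw [mem_ball_iff_norm] at hx
  have h3 := norm_sub_le (x - lat n) (x - x0)
  have e : x - lat n - (x - x0) = x0 - lat n := by ring
  rw [e] at h3
  linarith

theorem peri_per (f : ℂ → ℝ) : Peri (Per f) := by
  intro m x
  unfold Per
  rw [← (Equiv.addRight m).tsum_eq]
  refine tsum_congr fun n => ?_
  simp only [Equiv.coe_addRight, lat_add]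
  congr 1
  ring

theorem per_single {f : ℂ → ℝ} (h0 : ∀ y, 1 / 4 < ‖y‖ → f y = 0) {x : ℂ} {n : ℤ × ℤ}
    (hn : ‖x - lat n‖ ≤ 1 / 4) : Per f x = f (x - lat n) := by
  refine tsum_eq_single n fun m hm => h0 _ ?_
  by_contra h
  push Not at h
  apply hm
  refine sep ?_
  have h3 := norm_sub_le (x - lat n) (x - lat m)
  have e : x - lat n - (x - lat m) = lat m - lat n := by ring
  rw [e] at h3
  linarith

theorem per_range {f : ℂ → ℝ} (h0 : ∀ y, 1 / 4 < ‖y‖ → f y = 0) (h1 : ∀ y, 0 ≤ f y ∧ f y ≤ 1)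
    (x : ℂ) : 0 ≤ Per f x ∧ Per f x ≤ 1 := by
  by_cases h : ∃ n, ‖x - lat n‖ ≤ 1 / 4
  · obtain ⟨n, hn⟩ := h
    rw [per_single h0 hn]
    exact h1 _
  · push Not at h
    have : Per f x = 0 := by
      unfold Per
      simp [fun n => h0 _ (h n)]
    rw [this]
    exact ⟨le_rfl, zero_le_one⟩

noncomputable def tht (l : ℝ) (y : ℂ) : ℝ := Real.smoothTransition ((4 * l ^ 2 - ‖y‖ ^ 2) / (2 * l ^ 2))

noncomputable def ph (c T t : ℝ) : ℝ := Real.smoothTransition ((T ^ 2 - (t - c) ^ 2) / (3 / 4 * T ^ 2))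

theorem tht_smooth (l : ℝ) : ContDiff ℝ ∞ (tht l) :=
  Real.smoothTransition.contDiff.comp ((contDiff_const.sub (contDiff_norm_sq ℝ)).div_const _)

theorem tht_range (l : ℝ) (y : ℂ) : 0 ≤ tht l y ∧ tht l y ≤ 1 :=
  ⟨Real.smoothTransition.nonneg _, Real.smoothTransition.le_one _⟩

theorem tht_zero {l : ℝ} (hl : 0 < l) {y : ℂ} (hy : 2 * l < ‖y‖) : tht l y = 0 := by
  refine Real.smoothTransition.zero_of_nonpos (div_nonpos_of_nonpos_of_nonneg ?_ (by positivity))
  nlinarith

theorem tht_one {l : ℝ} (hl : 0 < l) {y : ℂ} (hy : ‖y‖ < 6 / 5 * l) : tht l y = 1 := by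
  refine Real.smoothTransition.one_of_one_le ?_
  rw [le_div_iff₀ (by positivity)]
  nlinarith [norm_nonneg y]

theorem ph_smooth (c T : ℝ) : ContDiff ℝ ∞ (ph c T) :=
  Real.smoothTransition.contDiff.comp
    ((contDiff_const.sub ((contDiff_id.sub contDiff_const).pow 2)).div_const _)

theorem ph_range (c T t : ℝ) : 0 ≤ ph c T t ∧ ph c T t ≤ 1 :=
  ⟨Real.smoothTransition.nonneg _, Real.smoothTransition.le_one _⟩

theorem ph_zero {c T t : ℝ} (hT : 0 < T) (ht : t ∉ Icc (c - T) (c + T)) : ph c T t = 0 := by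
  refine Real.smoothTransition.zero_of_nonpos (div_nonpos_of_nonpos_of_nonneg ?_ (by positivity))
  rw [mem_Icc, not_and_or, not_le, not_le] at ht
  rcases ht with h | h <;> nlinarith

theorem ph_one {c T t : ℝ} (hT : 0 < T) (ht : |t - c| ≤ T / 2) : ph c T t = 1 := by
  refine Real.smoothTransition.one_of_one_le ?_
  rw [le_div_iff₀ (by positivity)]
  obtain ⟨h1, h2⟩ := abs_le.1 ht
  nlinarith

end POU

open POU in
theorem st_POU : St_POU := by
  intro N tb Tb z l a b hl hl8 hT hz hcov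
  have h0 : ∀ y : ℂ, 1 / 4 < ‖y‖ → tht l y = 0 := fun y hy => tht_zero hl (by linarith)
  have hP : ContDiff ℝ ∞ (Per (tht l)) := contDiff_per (tht_smooth l) h0
  set g : Fin N → ℝ → ℂ → ℝ := fun j t x => ph (tb j) (Tb j) t * Per (tht l) (x - z j t) with hg
  have hg01 : ∀ j t x, 0 ≤ g j t x ∧ g j t x ≤ 1 := fun j t x =>
    ⟨mul_nonneg (ph_range _ _ _).1 (per_range h0 (tht_range l) _).1,
      mul_le_one₀ (ph_range _ _ _).2 (per_range h0 (tht_range l) _).1
        (per_range h0 (tht_range l) _).2⟩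
  have hgp : ∀ j t n x, g j t (x - lat n) = g j t x := fun j t n x => by
    simp only [hg]
    rw [← peri_per (tht l) n (x - lat n - z j t)]
    congr 2
    ring
  refine ⟨fun i t y => tht l y * (ph (tb i) (Tb i) t *
    ∏ j ∈ Finset.univ.filter (· < i), (1 - g j t (y + z i t))), fun i => ⟨?_, ?_⟩, ?_, ?_, ?_⟩
  · refine ((tht_smooth l).comp contDiff_snd).mul (((ph_smooth _ _).comp contDiff_fst).mul ?_)
    refine contDiff_prod fun j _ => contDiff_const.sub ?_
    refine ((ph_smooth _ _).comp contDiff_fst).mul (hP.comp ?_)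
    exact (contDiff_snd.add ((hz i).comp contDiff_fst)).sub ((hz j).comp contDiff_fst)
  · intro t y hy
    simp [tht_zero hl hy]
  · intro i t y
    have h1 : 0 ≤ ∏ j ∈ Finset.univ.filter (· < i), (1 - g j t (y + z i t)) :=
      Finset.prod_nonneg fun j _ => sub_nonneg.2 (hg01 _ _ _).2
    have h2 : ∏ j ∈ Finset.univ.filter (· < i), (1 - g j t (y + z i t)) ≤ 1 :=
      Finset.prod_le_one (fun j _ => sub_nonneg.2 (hg01 _ _ _).2)
        fun j _ => sub_le_self _ (hg01 _ _ _).1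
    have h3 := mul_nonneg (ph_range (tb i) (Tb i) t).1 h1
    exact ⟨mul_nonneg (tht_range _ _).1 h3,
      mul_le_one₀ (tht_range _ _).2 h3 (mul_le_one₀ (ph_range _ _ _).2 h1 h2)⟩
  · intro i t ht y
    simp [ph_zero (hT i) ht]
  · intro t ht x
    have e : ∀ i, mv (fun t y => tht l y * (ph (tb i) (Tb i) t *
        ∏ j ∈ Finset.univ.filter (· < i), (1 - g j t (y + z i t)))) (z i) t x =
        g i t x * ∏ j ∈ Finset.univ.filter (· < i), (1 - g j t x) := by
      intro i
      have e1 : ∀ (n : ℤ × ℤ) (j : Fin N), g j t (x - z i t - lat n + z i t) = g j t x := by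
        intro n j
        rw [← hgp j t n x]
        congr 1
        ring
      unfold mv
      conv_lhs => unfold Per
      simp only [e1]
      rw [tsum_mul_right]
      simp only [hg, Per]
      ring
    simp only [e]
    have h1 := Finset.prod_one_sub_ordered (Finset.univ : Finset (Fin N)) fun j => g j t x
    obtain ⟨i, hi1, hi2⟩ := hcov t ht x
    have h2 : g i t x = 1 := by
      have h3 : Metric.infDist (x - z i t) (range lat) < 6 / 5 * l := lt_of_le_of_lt hi2 (by linarith)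
      obtain ⟨_, ⟨n, rfl⟩, hn⟩ := (Metric.infDist_lt_iff (range_nonempty lat)).1 h3
      rw [dist_eq_norm] at hn
      simp only [hg]
      rw [ph_one (hT i) hi1, per_single h0 (n := n) (by linarith), tht_one hl hn, mul_one]
    rw [Finset.prod_eq_zero (Finset.mem_univ i) (by rw [h2, sub_self])] at h1
    linarith

end Pool.Agent.Lib.EUL
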