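import Pool.Agent.Lib.EUL.BasicA
import Pool.Agent.Lib.EUL.B_POU

set_option autoImplicit false

namespace Pool.Agent.Lib.EUL

open MeasureTheory Set Filter Topology
open scoped ContDiff Classical

namespace START

theorem hasF {F : ℝ → ℂ} {F' : ℂ} {x : ℂ} (h : HasDerivAt F F' x.im) :
    fderiv ℝ (fun y : ℂ => F y.im) x 1 = 0 ∧ fderiv ℝ (fun y : ℂ => F y.im) x Complex.I = F' := by
  have h1 : HasFDerivAt (fun y : ℂ => F y.im) _ x :=
    h.hasFDerivAt.comp x Complex.imCLM.hasFDerivAt
  rw [h1.fderiv]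
  simp

theorem dz_im {F : ℝ → ℂ} {F' : ℂ} {x : ℂ} (h : HasDerivAt F F' x.im) :
    dz (fun y : ℂ => F y.im) x = -Complex.I * F' / 2 := by
  rw [dz, (hasF h).1, (hasF h).2]
  ring

theorem dzb_im {F : ℝ → ℂ} {F' : ℂ} {x : ℂ} (h : HasDerivAt F F' x.im) :
    dzb (fun y : ℂ => F y.im) x = Complex.I * F' / 2 := by
  rw [dzb, (hasF h).1, (hasF h).2]
  ring

theorem d_sin (c a s : ℝ) : HasDerivAt (fun s => c * Real.sin (a * s)) (c * (Real.cos (a * s) * a)) s := by
  have h := ((hasDerivAt_id s).const_mul a).sin.const_mul c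
  simpa using h

theorem d_cos (c a s : ℝ) :
    HasDerivAt (fun s => c * Real.cos (a * s)) (c * (-Real.sin (a * s) * a)) s := by
  have h := ((hasDerivAt_id s).const_mul a).cos.const_mul c
  simpa using h

theorem nD_le {F : ℝ → ℂ} (hF : ContDiff ℝ ∞ F) (j : ℕ) (x : ℂ) :
    nD j (fun y : ℂ => F y.im) x ≤ ‖iteratedDeriv j F x.im‖ := by
  have h := Complex.imCLM.iteratedFDeriv_comp_right (f := F) (n := ∞) hF x (i := j)
    (by exact_mod_cast le_top)
  have e : (fun y : ℂ => F y.im) = F ∘ Complex.imCLM := rfl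
  rw [nD, e, h]
  refine (ContinuousMultilinearMap.norm_compContinuousLinearMap_le _ _).trans ?_
  simp [norm_iteratedFDeriv_eq_norm_iteratedDeriv]

theorem nD_sin (c a : ℝ) (x : ℂ) :
    nD 1 (fun y : ℂ => ((c * Real.sin (a * y.im) : ℝ) : ℂ)) x ≤ |c| * |a| ∧
    nD 2 (fun y : ℂ => ((c * Real.sin (a * y.im) : ℝ) : ℂ)) x ≤ |c| * a ^ 2 := by
  have hF : ContDiff ℝ ∞ fun s : ℝ => ((c * Real.sin (a * s) : ℝ) : ℂ) :=
    Complex.ofRealCLM.contDiff.comp (contDiff_const.mul (contDiff_const.mul contDiff_id).sin)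
  have e1 : deriv (fun s : ℝ => ((c * Real.sin (a * s) : ℝ) : ℂ)) =
      fun s => (((c * a) * Real.cos (a * s) : ℝ) : ℂ) := by
    funext s
    rw [(d_sin c a s).ofReal_comp.deriv]
    congr 1
    ring
  refine ⟨(nD_le hF 1 x).trans ?_, (nD_le hF 2 x).trans ?_⟩
  · rw [iteratedDeriv_one, e1, Complex.norm_real, Real.norm_eq_abs, abs_mul, abs_mul]
    exact mul_le_of_le_one_right (by positivity) (Real.abs_cos_le_one _)
  · rw [iteratedDeriv_succ, iteratedDeriv_one, e1, (d_cos (c * a) a _).ofReal_comp.deriv,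
      Complex.norm_real, Real.norm_eq_abs]
    have e : c * a * (-Real.sin (a * x.im) * a) = -(c * a ^ 2 * Real.sin (a * x.im)) := by ring
    rw [e, abs_neg, abs_mul, abs_mul, abs_of_nonneg (sq_nonneg a)]
    exact mul_le_of_le_one_right (by positivity) (Real.abs_sin_le_one _)

theorem cos_bound (b : ℝ) : |Real.cos b - 1| ≤ 2 * |b| ^ al := by
  have h0 : Real.cos b - 1 ≤ 0 := sub_nonpos.2 (Real.cos_le_one b)
  rw [abs_of_nonpos h0]
  rcases le_total |b| 1 with h | h
  · have h1 := Real.one_sub_sq_div_two_le_cos (x := b)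
    have h2 : |b| ^ (2 : ℝ) ≤ |b| ^ al :=
      Real.rpow_le_rpow_of_exponent_ge' (abs_nonneg b) h (by norm_num [al]) (by norm_num [al])
    rw [Real.rpow_two, sq_abs] at h2
    nlinarith [sq_nonneg b]
  · have h2 : 1 ≤ |b| ^ al := Real.one_le_rpow h (by norm_num [al])
    linarith [Real.neg_one_le_cos b]

theorem per_sin (k : ℕ) (n : ℤ × ℤ) (z : ℂ) :
    Real.sin (2 * Real.pi * k * (z + lat n).im) = Real.sin (2 * Real.pi * k * z.im) := by
  rw [← Real.sin_add_int_mul_two_pi (2 * Real.pi * k * z.im) (k * n.2), Complex.add_im, lat_im]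
  congr 1
  push_cast
  ring

theorem per_cos (k : ℕ) (n : ℤ × ℤ) (z : ℂ) :
    Real.cos (2 * Real.pi * k * (z + lat n).im) = Real.cos (2 * Real.pi * k * z.im) := by
  rw [← Real.cos_add_int_mul_two_pi (2 * Real.pi * k * z.im) (k * n.2), Complex.add_im, lat_im]
  congr 1
  push_cast
  ring

theorem IQ_sin_sq {k : ℕ} (hk : 1 ≤ k) :
    IQ (fun x => Real.sin (2 * Real.pi * k * x.im) ^ 2) = 1 / 2 := by
  have hk' : (0 : ℝ) < k := by exact_mod_cast hk
  have h1 := IQ_shift (f := fun x => Real.sin (2 * Real.pi * k * x.im) ^ 2)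
    (fun n z => by simp only [per_sin]) (((1 / (4 * k) : ℝ) : ℂ) * Complex.I)
  have e : ∀ x : ℂ, Real.sin (2 * Real.pi * k * (x + ((1 / (4 * k) : ℝ) : ℂ) * Complex.I).im) =
      Real.cos (2 * Real.pi * k * x.im) := by
    intro x
    rw [← Real.sin_add_pi_div_two]
    congr 1
    simp only [Complex.add_im, Complex.mul_im, Complex.ofReal_re, Complex.ofReal_im, Complex.I_re,
      Complex.I_im]
    field_simp
    ring
  simp only [e] at h1
  have h2 := IQ_add (f := fun x => Real.sin (2 * Real.pi * k * x.im) ^ 2)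
    (g := fun x => Real.cos (2 * Real.pi * k * x.im) ^ 2) (by fun_prop) (by fun_prop)
  simp only [Real.sin_sq_add_cos_sq, IQ_const] at h2
  linarith

theorem exists_e : ∃ (e : ℝ → ℝ) (E : ℝ), 0 ≤ E ∧ ContDiff ℝ ∞ e ∧ (∀ t, |e t| ≤ 1) ∧
    (∀ t, |deriv e t| ≤ E) ∧ (∀ t, t ∉ Icc (1 / 4 : ℝ) (3 / 4) → e t = 0 ∧ deriv e t = 0) ∧
    ∀ t ∈ Icc (9 / 20 : ℝ) (11 / 20), e t = 1 := by
  have hs := POU.ph_smooth (1 / 2) (1 / 4)
  have h0 : ∀ t, t ∉ Icc (1 / 4 : ℝ) (3 / 4) → POU.ph (1 / 2) (1 / 4) t = 0 := fun t ht =>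
    POU.ph_zero (by norm_num) (by norm_num at ht ⊢; exact ht)
  have h1 : ∀ t, t ∉ Icc (1 / 4 : ℝ) (3 / 4) → deriv (POU.ph (1 / 2) (1 / 4)) t = 0 := by
    intro t ht
    have : POU.ph (1 / 2) (1 / 4) =ᶠ[𝓝 t] fun _ => 0 := by
      filter_upwards [isClosed_Icc.isOpen_compl.mem_nhds ht] with s hs using h0 s hs
    rw [this.deriv_eq, deriv_const]
  have hc : Continuous (deriv (POU.ph (1 / 2) (1 / 4))) := hs.continuous_deriv (by simp)
  obtain ⟨E, hE⟩ := (isCompact_Icc (a := (1 / 4 : ℝ)) (b := 3 / 4)).exists_bound_of_continuousOn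
    hc.continuousOn
  refine ⟨_, max E 0, le_max_right _ _, hs, fun t => ?_, fun t => ?_, fun t ht => ⟨h0 t ht, h1 t ht⟩,
    fun t ht => POU.ph_one (by norm_num) ?_⟩
  · rw [abs_of_nonneg (POU.ph_range _ _ _).1]
    exact (POU.ph_range _ _ _).2
  · by_cases ht : t ∈ Icc (1 / 4 : ℝ) (3 / 4)
    · exact (hE t ht).trans (le_max_left _ _)
    · rw [h1 t ht]; simp
  · rw [abs_le]
    constructor <;> linarith [ht.1, ht.2]

end START

open START in
theorem st_START : St_START := by
  obtain ⟨e, E, hE0, he, he1, heE, he0, heone⟩ := exists_e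
  refine ⟨40 + 40 * E, by linarith, ?_⟩
  intro δ k l D rho S B Y Xi Z M hδ hk hD hDk hS hB hY hXi hZ hM
  have hk' : (1 : ℝ) ≤ k := by exact_mod_cast hk
  have hpi := Real.pi_gt_three
  have hpi' := Real.pi_lt_d2
  set a : ℝ := 2 * Real.pi * k with ha
  have ha0 : 0 < a := by positivity
  have hak : k ≤ a := by nlinarith
  have hak' : a ≤ 6.3 * k := by nlinarith
  have he' : ContDiff ℝ ∞ (deriv e) := (contDiff_infty_iff_deriv.1 he).2
  have hed : ∀ t, HasDerivAt e (deriv e t) t := fun t =>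
    (he.differentiable (by simp) t).hasDerivAt
  set v : ℝ → ℂ → ℂ := fun t x => ((e t * δ * Real.sin (a * x.im) : ℝ) : ℂ) with hv
  set q : ℝ → ℂ → ℂ := fun t x => -Complex.I * ((deriv e t * δ / a * Real.cos (a * x.im) : ℝ) : ℂ)
    with hq
  have him : ContDiff ℝ ∞ fun p : ℝ × ℂ => a * p.2.im :=
    contDiff_const.mul (Complex.imCLM.contDiff.comp contDiff_snd)
  have hvsp : SP v := by
    refine ⟨Complex.ofRealCLM.contDiff.comp ?_, fun t n z => ?_⟩
    · exact ((he.comp contDiff_fst).mul contDiff_const).mul him.sin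
    · simp only [hv, ha, per_sin]
  have hqsp : SP q := by
    refine ⟨contDiff_const.mul (Complex.ofRealCLM.contDiff.comp ?_), fun t n z => ?_⟩
    · exact (((he'.comp contDiff_fst).mul contDiff_const).div_const _).mul him.cos
    · simp only [hq, ha, per_cos]
  refine ⟨v, q, ⟨⟨hvsp, hqsp, fun t x => ?_, fun t => ?_⟩, fun t ht x => ?_, fun t => ⟨?_, fun y => ?_⟩,
    Empty, inferInstance, Empty.elim, v, ?_⟩, fun t ht => ?_⟩
  · rw [dz_im (F := fun s => ((e t * δ * Real.sin (a * s) : ℝ) : ℂ)) (d_sin _ a _).ofReal_comp]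
    generalize e t * δ * (Real.cos (a * x.im) * a) = w
    simp
  · refine ⟨fun x => -(e t * δ * Real.sin (a * x.im)) ^ 2 / 2, ?_, fun n z => ?_, fun x => ?_⟩
    · have : ContDiff ℝ ∞ fun x : ℂ => a * x.im := contDiff_const.mul Complex.imCLM.contDiff
      exact ((contDiff_const.mul this.sin).pow 2).neg.div_const _
    · simp only [ha, per_sin]
    · have h1 : dt v t x = ((deriv e t * δ * Real.sin (a * x.im) : ℝ) : ℂ) :=
        (((hed t).mul_const δ).mul_const _).ofReal_comp.deriv
      have h2 := dz_im (F := fun s => ((e t * δ * Real.sin (a * s) : ℝ) : ℂ) ^ 2) (x := x)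
        ((d_sin (e t * δ) a _).ofReal_comp.pow 2)
      have h3 := dz_im (F := fun s => -Complex.I * ((deriv e t * δ / a * Real.cos (a * s) : ℝ) : ℂ))
        (x := x) ((d_cos (deriv e t * δ / a) a _).ofReal_comp.const_mul _)
      have h4 := dzb_im (F := fun s => ((-(e t * δ * Real.sin (a * s)) ^ 2 / 2 : ℝ) : ℂ)) (x := x)
        ((((d_sin (e t * δ) a _).pow 2).neg.div_const 2).ofReal_comp)
      change dt v t x + dz (fun y => ((e t * δ * Real.sin (a * y.im) : ℝ) : ℂ) ^ 2) x -
        2 * dz (fun y => -Complex.I * ((deriv e t * δ / a * Real.cos (a * y.im) : ℝ) : ℂ)) x =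
        2 * dzb (fun y => ((-(e t * δ * Real.sin (a * y.im)) ^ 2 / 2 : ℝ) : ℂ)) x
      rw [h1, h2, h3, h4]
      have ha' : (a : ℂ) ≠ 0 := by exact_mod_cast ha0.ne'
      have e1 : ((deriv e t * δ / a * (-Real.sin (a * x.im) * a) : ℝ) : ℂ) =
          -((deriv e t * δ * Real.sin (a * x.im) : ℝ) : ℂ) := by
        rw [← Complex.ofReal_neg]
        congr 1
        field_simp
      rw [e1]
      generalize ((deriv e t * δ * Real.sin (a * x.im) : ℝ) : ℂ) = w
      push_cast
      linear_combination (w) * Complex.I_mul_I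
  · simp [hq, (he0 t ht).2]
  · refine (IQ_le_const (c := E * δ / k) (fun _ => norm_nonneg _) fun x => ?_).trans ?_
    · simp only [hq, norm_mul, norm_neg, Complex.norm_I, one_mul, Complex.norm_real,
        Real.norm_eq_abs, abs_mul, abs_div, abs_of_pos hδ, abs_of_pos ha0]
      refine (mul_le_of_le_one_right (by positivity) (Real.abs_cos_le_one _)).trans ?_
      gcongr
      exact heE t
    · refine le_trans ?_ hS
      gcongr
      linarith
  · refine IQ_le_const (fun _ => norm_nonneg _) fun x => ?_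
    have e1 : q t (x + y) + q t (x - y) - 2 * q t x = -Complex.I *
        ((2 * (deriv e t * δ / a) * Real.cos (a * x.im) * (Real.cos (a * y.im) - 1) : ℝ) : ℂ) := by
      simp only [hq, Complex.add_im, Complex.sub_im, mul_add, mul_sub, Real.cos_add, Real.cos_sub]
      push_cast
      ring
    rw [e1]
    simp only [norm_mul, norm_neg, Complex.norm_I, one_mul, Complex.norm_real,
      Real.norm_eq_abs, abs_mul, abs_div, abs_of_pos hδ, abs_of_pos ha0, abs_two]
    have h1 := cos_bound (a * y.im)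
    have hal : (0 : ℝ) ≤ al := by norm_num [al]
    have h2 : |a * y.im| ^ al ≤ a * a ^ (al - 1) * ‖y‖ ^ al := by
      rw [abs_mul, abs_of_pos ha0, Real.mul_rpow ha0.le (abs_nonneg _), Real.rpow_sub_one ha0.ne',
        mul_div_cancel₀ _ ha0.ne']
      gcongr
      exact Complex.abs_im_le_norm y
    have h3 : a ^ (al - 1) ≤ 7 * (k : ℝ) ^ (al - 1) := by
      have h4 : a ^ (al - 1) ≤ (7 * (k : ℝ)) ^ (al - 1) :=
        Real.rpow_le_rpow ha0.le (by linarith) (by norm_num [al])
      rw [Real.mul_rpow (x := 7) (by norm_num) (by positivity)] at h4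
      refine h4.trans ?_
      gcongr
      calc (7 : ℝ) ^ (al - 1) ≤ 7 ^ (1 : ℝ) :=
            Real.rpow_le_rpow_of_exponent_le (by norm_num) (by norm_num [al])
        _ = 7 := Real.rpow_one 7
    calc 2 * (|deriv e t| * δ / a) * |Real.cos (a * x.im)| * |Real.cos (a * y.im) - 1|
        ≤ 2 * (E * δ / a) * 1 * (2 * (a * (7 * (k : ℝ) ^ (al - 1)) * ‖y‖ ^ al)) := by
          gcongr
          · exact heE t
          · exact Real.abs_cos_le_one _
          · refine h1.trans ?_
            gcongr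
            refine h2.trans ?_
            gcongr
      _ = 28 * E * δ * (k : ℝ) ^ (al - 1) * ‖y‖ ^ al := by
          field_simp
          ring
      _ ≤ B * ‖y‖ ^ al := by
          gcongr
          refine le_trans ?_ hB
          gcongr
          linarith
  · refine ⟨hvsp, fun t ht x => ?_, fun t x => by simp, ?_, fun i => i.elim, fun i => i.elim,
      fun i => i.elim, fun i => i.elim, fun t y => by simpa using hM, fun t => by simpa using hXi,
      fun t => by simpa using hZ⟩
    · simp [hv, (he0 t ht).1]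
    · refine ⟨fun _ _ => 40 * δ * k, continuous_const, fun t => ⟨continuous_const, fun _ _ => rfl,
        fun x y _ => ?_, ?_⟩⟩
      · obtain ⟨h1, h2⟩ := nD_sin (e t * δ) a y
        have h3 : |e t * δ| ≤ δ := by
          rw [abs_mul, abs_of_pos hδ]
          exact mul_le_of_le_one_left hδ.le (he1 t)
        rw [abs_of_pos ha0] at h1
        constructor
        · refine h1.trans ?_
          calc |e t * δ| * a ≤ δ * (6.3 * k) := by gcongr
            _ ≤ 40 * δ * k := by nlinarith
        · calc D * nD 2 (v t) y ≤ D * (δ * (6.3 * k) ^ 2) := by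
                gcongr
                refine h2.trans ?_
                gcongr
            _ = 39.69 * δ * k * (D * k) := by ring
            _ ≤ 40 * δ * k * 1 := by gcongr; norm_num
            _ = 40 * δ * k := mul_one _
      · rw [IQ_const]
        refine le_trans ?_ hY
        gcongr
        linarith
  · have e1 : ∀ x, ‖v t x‖ ^ 2 = δ ^ 2 * Real.sin (2 * Real.pi * k * x.im) ^ 2 := by
      intro x
      simp only [hv, heone t ht, Complex.norm_real, Real.norm_eq_abs, sq_abs]
      ring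
    simp only [e1]
    rw [IQ_const_mul, IQ_sin_sq hk]
    nlinarith

end Pool.Agent.Lib.EUL
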