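import Mathlib

/-! Steering through a sequence of rounds while avoiding discs. -/

set_option autoImplicit false

namespace Pool.Agent.Lib.EUL.STEER

open Finset
open scoped Classical

/-- grid point -/
def gp (g : ℝ) (n : ℤ × ℤ) : ℂ := ⟨g * n.1, g * n.2⟩

lemma norm_le_of_sq {z : ℂ} {r : ℝ} (hr : 0 ≤ r) (h : z.re ^ 2 + z.im ^ 2 ≤ r ^ 2) : ‖z‖ ≤ r := by
  refine (pow_le_pow_iff_left₀ (norm_nonneg _) hr two_ne_zero).1 ?_
  rw [Complex.sq_norm, Complex.normSq_apply]; nlinarith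

lemma gp_sep {g : ℝ} (hg : 0 < g) {n m : ℤ × ℤ} (h : n ≠ m) : g ≤ ‖gp g n - gp g m‖ := by
  have key : ∀ a b : ℤ, a ≠ b → g ≤ |g * a - g * b| := by
    intro a b hab
    have h1 : (1 : ℝ) ≤ |(a : ℝ) - b| := by
      have := Int.one_le_abs (sub_ne_zero.2 hab)
      exact_mod_cast this
    rw [← mul_sub, abs_mul, abs_of_pos hg]; nlinarith
  by_cases h1 : n.1 = m.1
  · have h2 : n.2 ≠ m.2 := fun h2 => h (Prod.ext h1 h2)
    exact (key _ _ h2).trans (Complex.abs_im_le_norm (gp g n - gp g m))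
  · exact (key _ _ h1).trans (Complex.abs_re_le_norm (gp g n - gp g m))

lemma floor_close {x y s : ℝ} (hs : 0 < s) (h : ⌊x / s⌋ = ⌊y / s⌋) : |x - y| ≤ s := by
  have h1 := Int.abs_sub_lt_one_of_floor_eq_floor h
  rw [← sub_div, abs_div, abs_of_pos hs, div_lt_one hs] at h1
  exact h1.le

lemma card_Icc_le {y : ℝ} (hy : 0 ≤ y) : ((Icc (0 : ℤ) ⌊y⌋).card : ℝ) ≤ y + 1 := by
  have h0 : 0 ≤ ⌊y⌋ := Int.floor_nonneg.2 hy
  have h1 : (((⌊y⌋ + 1 - 0).toNat : ℤ) : ℝ) = ((⌊y⌋ + 1 - 0 : ℤ) : ℝ) := by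
    rw [Int.toNat_of_nonneg (by omega)]
  rw [Int.card_Icc]
  have h2 := Int.floor_le y
  push_cast at h1 ⊢
  linarith

/-- points of a set with the given separation inside a disc -/
lemma card_disc {α : Type} {s r : ℝ} (hs : 0 < s) (hr : 0 ≤ r) (P : Finset α) (E : α → ℂ) (c : ℂ)
    (hsep : ∀ a ∈ P, ∀ b ∈ P, a ≠ b → 3 / 2 * s ≤ ‖E a - E b‖) (hP : ∀ a ∈ P, ‖E a - c‖ ≤ r) :
    (P.card : ℝ) ≤ (2 * r / s + 1) ^ 2 := by
  have hmem : ∀ t : ℝ, |t| ≤ r → ⌊(t + r) / s⌋ ∈ Icc (0 : ℤ) ⌊2 * r / s⌋ := by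
    intro t ht
    obtain ⟨h1, h2⟩ := abs_le.1 ht
    exact mem_Icc.2 ⟨Int.floor_nonneg.2 (div_nonneg (by linarith) hs.le),
      Int.floor_mono (div_le_div_of_nonneg_right (by linarith) hs.le)⟩
  have h1 : P.card ≤ (Icc (0 : ℤ) ⌊2 * r / s⌋ ×ˢ Icc (0 : ℤ) ⌊2 * r / s⌋).card := by
    refine card_le_card_of_injOn
      (fun a => (⌊((E a - c).re + r) / s⌋, ⌊((E a - c).im + r) / s⌋)) (fun a ha => ?_) ?_
    · exact mem_coe.2 (mem_product.2 ⟨hmem _ ((Complex.abs_re_le_norm _).trans (hP a ha)),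
        hmem _ ((Complex.abs_im_le_norm _).trans (hP a ha))⟩)
    · intro a ha b hb hab
      by_contra hne
      have h2 := floor_close hs (congrArg Prod.fst hab)
      have h3 := floor_close hs (congrArg Prod.snd hab)
      have h4 := hsep a ha b hb hne
      have e1 : (E a - c).re + r - ((E b - c).re + r) = (E a - E b).re := by simp
      have e2 : (E a - c).im + r - ((E b - c).im + r) = (E a - E b).im := by simp
      rw [e1] at h2; rw [e2] at h3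
      have h5 : ‖E a - E b‖ ≤ 143 / 100 * s := by
        refine norm_le_of_sq (by positivity) ?_
        have a1 := sq_le_sq' (abs_le.1 h2).1 (abs_le.1 h2).2
        have a2 := sq_le_sq' (abs_le.1 h3).1 (abs_le.1 h3).2
        nlinarith [sq_nonneg s]
      linarith
  have h2 := card_Icc_le (y := 2 * r / s) (by positivity)
  have h3 : (P.card : ℝ) ≤ ((Icc (0 : ℤ) ⌊2 * r / s⌋).card : ℝ) ^ 2 := by
    rw [card_product] at h1
    rw [sq]; exact_mod_cast h1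
  exact h3.trans (pow_le_pow_left₀ (Nat.cast_nonneg _) h2 2)

/-- the admissible controls on the grid -/
noncomputable def grid (g d0 : ℝ) : Finset (ℤ × ℤ) :=
  (Icc (-⌈3 * d0 / g⌉) ⌈3 * d0 / g⌉ ×ˢ Icc (-⌈3 * d0 / g⌉) ⌈3 * d0 / g⌉).filter
    fun n => ‖gp g n‖ ≤ 3 * d0

lemma mem_grid {g d0 : ℝ} (hg : 0 < g) {n : ℤ × ℤ} : n ∈ grid g d0 ↔ ‖gp g n‖ ≤ 3 * d0 := by
  refine ⟨fun h => (mem_filter.1 h).2, fun h => mem_filter.2 ⟨?_, h⟩⟩
  have key : ∀ a : ℤ, |g * a| ≤ 3 * d0 → a ∈ Icc (-⌈3 * d0 / g⌉) ⌈3 * d0 / g⌉ := by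
    intro a ha
    rw [abs_mul, abs_of_pos hg, mul_comm, ← le_div_iff₀ hg] at ha
    have h2 : |(a : ℝ)| ≤ (⌈3 * d0 / g⌉ : ℝ) := ha.trans (Int.le_ceil _)
    rw [mem_Icc, ← abs_le]
    exact_mod_cast h2
  exact mem_product.2 ⟨key _ ((Complex.abs_re_le_norm (gp g n)).trans h),
    key _ ((Complex.abs_im_le_norm (gp g n)).trans h)⟩

lemma card_grid {g d0 : ℝ} (hg : 0 < g) (hd : 5 * g ≤ d0) :
    ((grid g d0).card : ℝ) ≤ 85 * (d0 / g) ^ 2 := by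
  have hx : 5 ≤ d0 / g := by rw [le_div_iff₀ hg]; exact hd
  have h := card_disc (s := 2 / 3 * g) (r := 3 * d0) (by positivity) (by linarith) (grid g d0)
    (gp g) 0 (fun a _ b _ hab => by have := gp_sep hg hab; linarith)
    fun a ha => by rw [sub_zero]; exact (mem_grid hg).1 ha
  have e : 2 * (3 * d0) / (2 / 3 * g) = 9 * (d0 / g) := by field_simp; ring
  rw [e] at h
  nlinarith

/-- candidates for the control at the point `a` -/
lemma exists_cand {g d0 : ℝ} (hg : 0 < g) (hd : 5 * g ≤ d0) (a : ℂ) :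
    ∃ Q : Finset (ℤ × ℤ), (d0 / g) ^ 2 / 4 ≤ Q.card ∧ ∀ n ∈ Q, ‖a + gp g n‖ ≤ d0 / 2 := by
  have hx : 5 ≤ d0 / g := by rw [le_div_iff₀ hg]; exact hd
  set q : ℕ := ⌊7 / 10 * (d0 / g)⌋₊ with hq
  have q1 : (q : ℝ) ≤ 7 / 10 * (d0 / g) := Nat.floor_le (by positivity)
  have q2 : 7 / 10 * (d0 / g) < q + 1 := Nat.lt_floor_add_one _
  have q3 : g * q ≤ 7 / 10 * d0 := by
    have := mul_le_mul_of_nonneg_left q1 hg.le
    rwa [show g * (7 / 10 * (d0 / g)) = 7 / 10 * d0 by field_simp] at this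
  have key : ∀ t : ℝ, ∃ m : ℤ, ∀ i ∈ Ico m (m + q), (t + g * i) ^ 2 ≤ (35 / 100 * d0) ^ 2 := by
    intro t
    refine ⟨⌈(-t - 35 / 100 * d0) / g⌉, fun i hi => ?_⟩
    obtain ⟨h1, h2⟩ := mem_Ico.1 hi
    have a1 : (-t - 35 / 100 * d0) / g ≤ i := (Int.le_ceil _).trans (by exact_mod_cast h1)
    have a2 : (i : ℝ) + 1 ≤ (⌈(-t - 35 / 100 * d0) / g⌉ : ℝ) + q := by exact_mod_cast h2
    have a3 := Int.ceil_lt_add_one ((-t - 35 / 100 * d0) / g)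
    have a4 : (i : ℝ) - q ≤ (-t - 35 / 100 * d0) / g := by linarith
    rw [div_le_iff₀ hg] at a1
    rw [le_div_iff₀ hg] at a4
    exact sq_le_sq' (by linarith) (by linarith)
  obtain ⟨m1, h1⟩ := key a.re
  obtain ⟨m2, h2⟩ := key a.im
  refine ⟨Ico m1 (m1 + q) ×ˢ Ico m2 (m2 + q), ?_, fun n hn => ?_⟩
  · rw [card_product, Int.card_Ico, Int.card_Ico, add_sub_cancel_left, add_sub_cancel_left,
      Int.toNat_natCast]
    push_cast
    have : d0 / g / 2 ≤ q := by linarith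
    nlinarith
  · obtain ⟨a1, a2⟩ := mem_product.1 hn
    refine norm_le_of_sq (by linarith) ?_
    have b1 := h1 _ a1
    have b2 := h2 _ a2
    change (a.re + g * n.1) ^ 2 + (a.im + g * n.2) ^ 2 ≤ _
    nlinarith [sq_nonneg d0]

/-- the controls for which the point `a` is covered -/
noncomputable def cov (g d0 : ℝ) (D : ℤ × ℤ → Finset (ℂ × ℝ)) (a : ℂ) : Finset (ℤ × ℤ) :=
  (grid g d0).filter fun n => ∃ x ∈ D n, ‖a - x.1‖ ≤ x.2

/-- few separated points are covered for many controls -/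
lemma few_bad {g d0 A : ℝ} (hg : 0 < g) (hd : 5 * g ≤ d0) (hA : 400000 * A ≤ d0 ^ 2)
    (D : ℤ × ℤ → Finset (ℂ × ℝ)) (hr : ∀ n, ∀ x ∈ D n, g ≤ x.2)
    (hs : ∀ n, ∑ x ∈ D n, x.2 ^ 2 ≤ A) (Q : Finset (ℤ × ℤ)) (E : ℤ × ℤ → ℂ)
    (hsep : ∀ a ∈ Q, ∀ b ∈ Q, a ≠ b → g / 2 ≤ ‖E a - E b‖) :
    ((Q.filter fun w => (d0 / g) ^ 2 / 10 < ((cov g d0 D (E w)).card : ℝ)).card : ℝ) ≤
      (d0 / g) ^ 2 / 9 := by
  have hx : 5 ≤ d0 / g := by rw [le_div_iff₀ hg]; exact hd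
  have hA0 : 0 ≤ A := (sum_nonneg fun _ _ => sq_nonneg _).trans (hs 0)
  set B := Q.filter fun w => (d0 / g) ^ 2 / 10 < ((cov g d0 D (E w)).card : ℝ) with hB
  have h1 : ∀ n, ((B.filter fun w => ∃ x ∈ D n, ‖E w - x.1‖ ≤ x.2).card : ℝ) ≤ 49 * A / g ^ 2 := by
    intro n
    have a1 : (B.filter fun w => ∃ x ∈ D n, ‖E w - x.1‖ ≤ x.2) ⊆
        (D n).biUnion fun x => Q.filter fun w => ‖E w - x.1‖ ≤ x.2 := by
      intro w hw
      obtain ⟨hw1, x, hx1, hx2⟩ := mem_filter.1 hw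
      exact mem_biUnion.2 ⟨x, hx1, mem_filter.2 ⟨(mem_filter.1 hw1).1, hx2⟩⟩
    have a2 : ((B.filter fun w => ∃ x ∈ D n, ‖E w - x.1‖ ≤ x.2).card : ℝ) ≤
        ∑ x ∈ D n, ((Q.filter fun w => ‖E w - x.1‖ ≤ x.2).card : ℝ) := by
      exact_mod_cast (card_le_card a1).trans card_biUnion_le
    have a3 : ∀ x ∈ D n, ((Q.filter fun w => ‖E w - x.1‖ ≤ x.2).card : ℝ) ≤
        49 / g ^ 2 * x.2 ^ 2 := by
      intro x hx1
      have b0 := hr n x hx1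
      have b1 := card_disc (s := g / 3) (r := x.2) (by positivity) (by linarith)
        (Q.filter fun w => ‖E w - x.1‖ ≤ x.2) E x.1
        (fun a ha b hb hab => by
          have := hsep a (mem_filter.1 ha).1 b (mem_filter.1 hb).1 hab; linarith)
        fun a ha => (mem_filter.1 ha).2
      have b2 : 1 ≤ x.2 / g := by rw [le_div_iff₀ hg]; linarith
      have e1 : 2 * x.2 / (g / 3) = 6 * (x.2 / g) := by field_simp; ring
      have e2 : 49 / g ^ 2 * x.2 ^ 2 = 49 * (x.2 / g) ^ 2 := by field_simp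
      rw [e1] at b1; rw [e2]
      nlinarith
    refine a2.trans ((sum_le_sum a3).trans ?_)
    rw [← mul_sum, div_mul_eq_mul_div]
    exact div_le_div_of_nonneg_right (by linarith [hs n]) (by positivity)
  have h2 : ∑ w ∈ B, ((cov g d0 D (E w)).card : ℝ) =
      ∑ n ∈ grid g d0, ((B.filter fun w => ∃ x ∈ D n, ‖E w - x.1‖ ≤ x.2).card : ℝ) := by
    simp only [cov, card_filter]
    push_cast
    exact sum_comm
  have h3 : (B.card : ℝ) * ((d0 / g) ^ 2 / 10) ≤ 85 * (d0 / g) ^ 2 * (49 * A / g ^ 2) := by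
    have a1 := card_nsmul_le_sum B (fun w => ((cov g d0 D (E w)).card : ℝ)) ((d0 / g) ^ 2 / 10)
      fun w hw => (mem_filter.1 hw).2.le
    have a2 := sum_le_card_nsmul (grid g d0) (fun n =>
      ((B.filter fun w => ∃ x ∈ D n, ‖E w - x.1‖ ≤ x.2).card : ℝ)) _ fun n _ => h1 n
    rw [nsmul_eq_mul] at a1 a2
    rw [h2] at a1
    exact (a1.trans a2).trans (mul_le_mul_of_nonneg_right (card_grid hg hd) (by positivity))
  have h4 : 400000 * (A / g ^ 2) ≤ (d0 / g) ^ 2 := by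
    rw [div_pow, ← mul_div_assoc]; exact div_le_div_of_nonneg_right hA (by positivity)
  have h5 : 0 < (d0 / g) ^ 2 := by positivity
  rw [mul_div_assoc] at h3
  have h6 : (B.card : ℝ) ≤ 41650 * (A / g ^ 2) := by
    refine le_of_mul_le_mul_right ?_ h5
    linarith
  linarith

/-- steering, discs given as a finite set of pairs (centre, radius) -/
theorem steer0 {g d0 A : ℝ} (N : ℕ) (Safe : ℕ → ℂ → ℂ → Prop) (End : ℕ → ℂ → ℂ → ℂ) (hg : 0 < g)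
    (hd : 5 * g ≤ d0) (hA : 400000 * A ≤ d0 ^ 2)
    (hS : ∀ k < N, ∀ v : ℂ, ‖v‖ ≤ 3 * d0 → ∃ D : Finset (ℂ × ℝ), (∀ x ∈ D, g ≤ x.2) ∧
      ∑ x ∈ D, x.2 ^ 2 ≤ A ∧ ∀ a : ℂ, ‖a‖ ≤ d0 → ¬ Safe k a v → ∃ x ∈ D, ‖a - x.1‖ ≤ x.2)
    (h1 : ∀ k < N, ∀ a v v' : ℂ, ‖a‖ ≤ d0 → ‖v‖ ≤ 3 * d0 → ‖v'‖ ≤ 3 * d0 →
      ‖v - v'‖ / 2 ≤ ‖End k a v - End k a v'‖)
    (h2 : ∀ k < N, ∀ a v : ℂ, ‖a‖ ≤ d0 → ‖v‖ ≤ 3 * d0 → ‖End k a v - a - v‖ ≤ d0 / 2) :
    ∃ a v : ℕ → ℂ, (∀ k ≤ N, ‖a k‖ ≤ d0) ∧ (∀ k, ‖v k‖ ≤ 3 * d0) ∧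
      ∀ k < N, a (k + 1) = End k (a k) (v k) ∧ Safe k (a k) (v k) := by
  have hd0 : 0 < d0 := by linarith
  have hA' : 400000 * max A 0 ≤ d0 ^ 2 := by
    rcases le_total A 0 with h | h
    · rw [max_eq_right h, mul_zero]; positivity
    · rwa [max_eq_left h]
  have hD : ∀ (k : ℕ) (n : ℤ × ℤ), ∃ D : Finset (ℂ × ℝ), (∀ x ∈ D, g ≤ x.2) ∧
      ∑ x ∈ D, x.2 ^ 2 ≤ max A 0 ∧ (k < N → ‖gp g n‖ ≤ 3 * d0 →
        ∀ a : ℂ, ‖a‖ ≤ d0 → ¬ Safe k a (gp g n) → ∃ x ∈ D, ‖a - x.1‖ ≤ x.2) := by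
    intro k n
    by_cases h : k < N ∧ ‖gp g n‖ ≤ 3 * d0
    · obtain ⟨D, a1, a2, a3⟩ := hS k h.1 _ h.2
      exact ⟨D, a1, a2.trans (le_max_left _ _), fun _ _ => a3⟩
    · exact ⟨∅, by simp, by simp, fun a1 a2 => absurd ⟨a1, a2⟩ h⟩
  choose D hr hs hc using hD
  set good : ℕ → ℂ → Prop := fun k a => ‖a‖ ≤ d0 ∧
    ((cov g d0 (D k) a).card : ℝ) ≤ (d0 / g) ^ 2 / 10 with hgood
  have hx : 0 < (d0 / g) ^ 2 := by positivity
  have start : ∃ a, good 0 a := by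
    obtain ⟨Q, hQ, hq⟩ := exists_cand hg hd 0
    have hb := few_bad hg hd hA' (D 0) (hr 0) (hs 0) Q (gp g)
      fun a _ b _ hab => by have := gp_sep hg hab; linarith
    by_contra hn
    rw [filter_true_of_mem] at hb
    · linarith
    · intro w hw
      have := hq w hw
      rw [zero_add] at this
      exact not_le.1 fun h => hn ⟨gp g w, by linarith, h⟩
  have step : ∀ k a, ∃ v : ℂ, ‖v‖ ≤ 3 * d0 ∧ (k < N → good k a →
      Safe k a v ∧ good (k + 1) (End k a v)) := by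
    intro k a
    by_cases hk : k < N ∧ good k a
    swap
    · exact ⟨0, by rw [norm_zero]; positivity, fun a1 a2 => absurd ⟨a1, a2⟩ hk⟩
    obtain ⟨hk, ha, hf⟩ := hk
    obtain ⟨Q, hQ, hq⟩ := exists_cand hg hd a
    have hn : ∀ w ∈ Q, ‖gp g w‖ ≤ 3 * d0 := by
      intro w hw
      have a1 := hq w hw
      have a2 := norm_sub_le (a + gp g w) a
      rw [add_sub_cancel_left] at a2
      linarith
    have hb := few_bad hg hd hA' (D (k + 1)) (hr (k + 1)) (hs (k + 1)) Q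
      (fun w => End k a (gp g w)) fun w hw w' hw' hab => by
        have a1 := gp_sep hg hab
        have a2 := h1 k hk a _ _ ha (hn w hw) (hn w' hw')
        linarith
    by_contra hcon
    have hsub : Q ⊆ cov g d0 (D k) a ∪ Q.filter fun w =>
        (d0 / g) ^ 2 / 10 < ((cov g d0 (D (k + 1)) (End k a (gp g w))).card : ℝ) := by
      intro w hw
      by_cases hsafe : Safe k a (gp g w)
      · refine mem_union_right _ (mem_filter.2 ⟨hw, not_le.1 fun h => hcon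
          ⟨gp g w, hn w hw, fun _ _ => ⟨hsafe, ?_, h⟩⟩⟩)
        have a1 := hq w hw
        have a2 := h2 k hk a _ ha (hn w hw)
        have a3 := norm_add_le (End k a (gp g w) - a - gp g w) (a + gp g w)
        rw [show End k a (gp g w) - a - gp g w + (a + gp g w) = End k a (gp g w) by ring] at a3
        linarith
      · exact mem_union_left _ (mem_filter.2 ⟨(mem_grid hg).2 (hn w hw),
          hc k w hk (hn w hw) a ha hsafe⟩)
    have hcard := (Nat.cast_le (α := ℝ)).2 ((card_le_card hsub).trans (card_union_le _ _))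
    rw [Nat.cast_add] at hcard
    linarith
  choose nx hn1 hn2 using step
  obtain ⟨a0, ha0⟩ := start
  let a : ℕ → ℂ := fun k => Nat.rec a0 (fun k x => End k x (nx k x)) k
  have hga : ∀ k ≤ N, good k (a k) := by
    intro k
    induction k with
    | zero => exact fun _ => ha0
    | succ k ih => exact fun hk => (hn2 k (a k) hk (ih (by omega))).2
  exact ⟨a, fun k => nx k (a k), fun k hk => (hga k hk).1, fun k => hn1 _ _,
    fun k hk => ⟨rfl, (hn2 k (a k) hk (hga k hk.le)).1⟩⟩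

/-- an indexed family of discs as a finite set of pairs -/
lemma discs_of_family {ι : Type} (s : Finset ι) (c : ι → ℂ) (r : ι → ℝ) :
    ∃ D : Finset (ℂ × ℝ), (∀ x ∈ D, ∃ i ∈ s, x = (c i, r i)) ∧ (∀ i ∈ s, (c i, r i) ∈ D) ∧
      ∑ x ∈ D, x.2 ^ 2 ≤ ∑ i ∈ s, r i ^ 2 := by
  refine ⟨s.image fun i => (c i, r i), fun x hx => ?_, fun i hi => mem_image_of_mem _ hi, ?_⟩
  · obtain ⟨i, hi, rfl⟩ := mem_image.1 hx
    exact ⟨i, hi, rfl⟩
  · exact sum_image_le_of_nonneg (f := fun x : ℂ × ℝ => x.2 ^ 2) fun _ _ => sq_nonneg _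

/-- steering, discs given as an indexed family -/
theorem steer {g d0 A : ℝ} (N : ℕ) (Safe : ℕ → ℂ → ℂ → Prop) (End : ℕ → ℂ → ℂ → ℂ) (hg : 0 < g)
    (hd : 5 * g ≤ d0) (hA : 400000 * A ≤ d0 ^ 2)
    (hS : ∀ k < N, ∀ v : ℂ, ‖v‖ ≤ 3 * d0 → ∃ (ι : Type) (s : Finset ι) (c : ι → ℂ) (r : ι → ℝ),
      (∀ i ∈ s, g ≤ r i) ∧ ∑ i ∈ s, r i ^ 2 ≤ A ∧
        ∀ a : ℂ, ‖a‖ ≤ d0 → ¬ Safe k a v → ∃ i ∈ s, ‖a - c i‖ ≤ r i)
    (h1 : ∀ k < N, ∀ a v v' : ℂ, ‖a‖ ≤ d0 → ‖v‖ ≤ 3 * d0 → ‖v'‖ ≤ 3 * d0 →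
      ‖v - v'‖ / 2 ≤ ‖End k a v - End k a v'‖)
    (h2 : ∀ k < N, ∀ a v : ℂ, ‖a‖ ≤ d0 → ‖v‖ ≤ 3 * d0 → ‖End k a v - a - v‖ ≤ d0 / 2) :
    ∃ a v : ℕ → ℂ, (∀ k ≤ N, ‖a k‖ ≤ d0) ∧ (∀ k, ‖v k‖ ≤ 3 * d0) ∧
      ∀ k < N, a (k + 1) = End k (a k) (v k) ∧ Safe k (a k) (v k) := by
  refine steer0 N Safe End hg hd hA (fun k hk v hv => ?_) h1 h2
  obtain ⟨ι, s, c, r, a1, a2, a3⟩ := hS k hk v hv
  obtain ⟨D, b1, b2, b3⟩ := discs_of_family s c r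
  refine ⟨D, fun x hx => ?_, b3.trans a2, fun a ha hs => ?_⟩
  · obtain ⟨i, hi, rfl⟩ := b1 x hx
    exact a1 i hi
  · obtain ⟨i, hi, h⟩ := a3 a ha hs
    exact ⟨_, b2 i hi, h⟩

end Pool.Agent.Lib.EUL.STEER
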