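import Pool.Agent.Lib.EUL.Blue

namespace Pool.Agent.Lib.EUL

open MeasureTheory Set Filter Topology
open scoped ContDiff

noncomputable section

namespace TOUR

theorem cex {φ : ℝ → ℝ} (h : Continuous φ) : Continuous fun s => ex (φ s) := by
  unfold ex
  fun_prop

theorem ex_two (a : ℝ) : ex (2 * a) = ex a ^ 2 := by
  rw [ex, ex, ← Complex.exp_nat_mul]
  congr 1
  push_cast
  ring

theorem ex_per (a : ℝ) (m : ℤ) : ex (m * (2 * Real.pi) + a) = ex a := by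
  rw [ex, ex, Complex.ofReal_add, add_mul, Complex.exp_add,
    show ((m * (2 * Real.pi) : ℝ) : ℂ) * Complex.I = m * (2 * Real.pi * Complex.I) by
      push_cast; ring, Complex.exp_int_mul_two_pi_mul_I, one_mul]

def pos (φ : ℝ → ℝ) (s : ℝ) : ℂ := ∫ t in (0 : ℝ)..s, ex (φ t)

theorem pos_deriv {φ : ℝ → ℝ} (h : Continuous φ) (s : ℝ) : HasDerivAt (pos φ) (ex (φ s)) s :=
  ((cex h).integral_hasStrictDerivAt 0 s).hasDerivAt

theorem cpos {φ : ℝ → ℝ} (h : Continuous φ) : Continuous (pos φ) :=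
  continuous_iff_continuousAt.2 fun s => (pos_deriv h s).continuousAt

theorem pos_le (φ : ℝ → ℝ) {s : ℝ} (h : 0 ≤ s) : ‖pos φ s‖ ≤ s := by
  simpa [abs_of_nonneg h, pos] using intervalIntegral.norm_integral_le_of_norm_le_const (a := 0) (b := s)
    (C := 1) (f := fun t => ex (φ t)) fun t _ => (Complex.norm_exp_ofReal_mul_I _).le

theorem dz {f : ℝ → ℝ} (hf : ContDiff ℝ ∞ f) {S : Set ℝ} (hS : UniqueDiffOn ℝ S) {c : ℝ}
    (h : ∀ s ∈ S, f s = c) : ∀ s ∈ S, deriv f s = 0 := fun s hs =>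
  (hS s hs).eq_deriv _ (hf.differentiable (by simp) s).hasDerivAt.hasDerivWithinAt
    ((hasDerivWithinAt_const s S c).congr h (h s hs))

/-- a path from `a` to `b` of length at most `M` -/
def Tr (K K' B : ℝ) (a b : ℂ) (M : ℝ) (F : (ℂ → ℂ) → ℂ) : Prop :=
  ∃ (Λ : ℝ) (φ : ℝ → ℝ), 0 ≤ Λ ∧ Λ ≤ M ∧ ContDiff ℝ ∞ φ ∧ (∀ s ≤ 0, φ s = 0) ∧
    (∃ m : ℤ, ∀ s, Λ ≤ s → φ s = m * (2 * Real.pi)) ∧
    (∀ s, |deriv φ s| ≤ K ∧ |deriv (deriv φ) s| ≤ K') ∧ a + pos φ Λ = b ∧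
    (∀ s ∈ Icc 0 Λ, ‖a + pos φ s‖ ≤ B) ∧
    ∀ g : ℂ → ℂ, Continuous g → ∫ s in (0 : ℝ)..Λ, ex (2 * φ s) * g (a + pos φ s) = F g

variable {K K' B M M' : ℝ} {a b c : ℂ} {F F' : (ℂ → ℂ) → ℂ}

theorem Tr.nil (hK : 0 ≤ K) (hK' : 0 ≤ K') (ha : ‖a‖ ≤ B) : Tr K K' B a a 0 fun _ => 0 :=
  ⟨0, fun _ => 0, le_rfl, le_rfl, contDiff_const, fun _ _ => rfl, ⟨0, by simp⟩, by simp [hK, hK'],
    by simp [pos], fun s hs => by simpa [le_antisymm hs.2 hs.1, pos] using ha, by simp⟩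

theorem Tr.mono (h : Tr K K' B a b M F) (hM : M ≤ M') (hF : ∀ g, F g = F' g) :
    Tr K K' B a b M' F' := by
  obtain ⟨Λ, φ, h1, h2, h3⟩ := h
  exact (funext hF : F = F') ▸ ⟨Λ, φ, h1, h2.trans hM, h3⟩

theorem Tr.app (h : Tr K K' B a b M F) (h' : Tr K K' B b c M' F') :
    Tr K K' B a c (M + M') fun g => F g + F' g := by
  obtain ⟨Λ, φ, a1, a2, a3, a4, ⟨m, a5⟩, a6, a7, a8, a9⟩ := h
  obtain ⟨Λ', ψ, b1, b2, b3, b4, ⟨n, b5⟩, b6, b7, b8, b9⟩ := h'
  have c3 : ContDiff ℝ ∞ fun s => φ s + ψ (s - Λ) := by fun_prop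
  have a3' := (contDiff_infty_iff_deriv.1 a3).2
  have b3' := (contDiff_infty_iff_deriv.1 b3).2
  have dd : ∀ {f g : ℝ → ℝ}, ContDiff ℝ ∞ f → ContDiff ℝ ∞ g →
      (deriv fun s => f s + g (s - Λ)) = fun s => deriv f s + deriv g (s - Λ) := fun hf hg =>
    funext fun s => ((hf.differentiable (by simp) s).hasDerivAt.add
      ((hg.differentiable (by simp) _).hasDerivAt.comp_sub_const s Λ)).deriv
  have l1 : ∀ s ≤ Λ, φ s + ψ (s - Λ) = φ s := fun s hs => by rw [b4 _ (by linarith), add_zero]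
  have r1 : ∀ s, Λ ≤ s → ex (φ s + ψ (s - Λ)) = ex (ψ (s - Λ)) := fun s hs => by
    rw [a5 s hs, ex_per]
  have l2 : ∀ s ∈ Icc 0 Λ, pos (fun s => φ s + ψ (s - Λ)) s = pos φ s := fun s hs =>
    intervalIntegral.integral_congr fun t ht => by
      rw [uIcc_of_le hs.1] at ht
      simp only [l1 t (ht.2.trans hs.2)]
  have r2 : ∀ s, Λ ≤ s → a + pos (fun s => φ s + ψ (s - Λ)) s = b + pos ψ (s - Λ) := fun s hs => by
    rw [pos, ← intervalIntegral.integral_add_adjacent_intervals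
      ((cex c3.continuous).intervalIntegrable 0 Λ) ((cex c3.continuous).intervalIntegrable Λ s),
      ← add_assoc, ← a7, ← l2 Λ ⟨a1, le_rfl⟩, pos, pos, ← sub_self Λ,
      ← intervalIntegral.integral_comp_sub_right fun t => ex (ψ t)]
    congr 1
    exact intervalIntegral.integral_congr fun t ht => r1 t (by rw [uIcc_of_le hs] at ht; exact ht.1)
  refine ⟨Λ + Λ', _, by positivity, add_le_add a2 b2, c3, fun s hs => ?_, ⟨m + n, fun s hs => ?_⟩,
    fun s => ?_, ?_, fun s hs => ?_, fun g hg => ?_⟩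
  · rw [l1 s (hs.trans a1), a4 s hs]
  · rw [a5 s (by linarith), b5 _ (by linarith)]
    push_cast
    ring
  · rw [dd a3 b3, dd a3' b3']
    dsimp only
    rcases le_total s Λ with hs | hs
    · have := dz b3 (uniqueDiffOn_Iic 0) b4
      rw [this _ (sub_nonpos.2 hs), dz b3' (uniqueDiffOn_Iic 0) this _ (sub_nonpos.2 hs), add_zero,
        add_zero]
      exact a6 s
    · have := dz a3 (uniqueDiffOn_Ici Λ) a5
      rw [this _ hs, dz a3' (uniqueDiffOn_Ici Λ) this _ hs, zero_add, zero_add]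
      exact b6 _
  · rw [r2 _ (by linarith), add_sub_cancel_left, b7]
  · rcases le_total s Λ with h | h
    · rw [l2 s ⟨hs.1, h⟩]
      exact a8 s ⟨hs.1, h⟩
    · rw [r2 s h]
      exact b8 _ ⟨by linarith, by linarith [hs.2]⟩
  · have ct : Continuous fun s => ex (2 * (φ s + ψ (s - Λ))) *
        g (a + pos (fun s => φ s + ψ (s - Λ)) s) :=
      (cex (continuous_const.mul c3.continuous)).mul
        (hg.comp (continuous_const.add (cpos c3.continuous)))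
    have e := intervalIntegral.integral_comp_sub_right (a := Λ) (b := Λ + Λ')
      (fun s => ex (2 * ψ s) * g (b + pos ψ s)) Λ
    rw [sub_self, add_sub_cancel_left] at e
    dsimp only
    rw [← intervalIntegral.integral_add_adjacent_intervals (ct.intervalIntegrable 0 Λ)
      (ct.intervalIntegrable Λ _), ← a9 g hg, ← b9 g hg, ← e]
    congr 1
    · refine intervalIntegral.integral_congr fun t ht => ?_
      rw [uIcc_of_le a1] at ht
      simp only [l1 t ht.2, l2 t ht]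
    · refine intervalIntegral.integral_congr fun t ht => ?_
      rw [uIcc_of_le (by linarith)] at ht
      simp only [ex_two, r1 t ht.1, r2 t ht.1]

theorem Tr.sum {ι : Type} (hK : 0 ≤ K) (hK' : 0 ≤ K') (ha : ‖a‖ ≤ B) {m : ι → ℝ}
    {f : ι → (ℂ → ℂ) → ℂ} (h : ∀ i, Tr K K' B a a (m i) (f i)) (s : Finset ι) :
    Tr K K' B a a (∑ i ∈ s, m i) fun g => ∑ i ∈ s, f i g := by
  induction s using Finset.cons_induction with
  | empty => exact Tr.nil hK hK' ha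
  | cons i s hi ih =>
    exact ((h i).app ih).mono (Finset.sum_cons _).ge fun g => by rw [Finset.sum_cons]

theorem ej3 (j : ℕ) : ej (j + 3) = -ej j := by
  rw [ej, ej, ← Complex.exp_add_pi_mul_I]
  congr 1
  push_cast
  ring

theorem ej0 : ej 0 = 1 := by simp [ej]

theorem ej1 : ej 1 = ⟨1 / 2, √3 / 2⟩ := Complex.ext
  (by rw [ej, Complex.exp_ofReal_mul_I_re]; simp) (by rw [ej, Complex.exp_ofReal_mul_I_im]; simp)

theorem ej2 : ej 2 = ⟨-1 / 2, √3 / 2⟩ := by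
  have e : ((2 : ℕ) : ℝ) * Real.pi / 3 = Real.pi - Real.pi / 3 := by push_cast; ring
  exact Complex.ext (by rw [ej, Complex.exp_ofReal_mul_I_re, e]; simp; ring)
    (by rw [ej, Complex.exp_ofReal_mul_I_im, e]; simp)

theorem six (f : ℕ → ℂ → ℂ) : ∑ j : Fin 6, f j (ej j) =
    f 0 (ej 0) + f 1 (ej 1) + f 2 (ej 2) + f 3 (-ej 0) + f 4 (-ej 1) + f 5 (-ej 2) := by
  rw [Fin.sum_univ_six, ← ej3, ← ej3, ← ej3]
  rfl

theorem shift (v : ℂ) : ∃ σ : Fin 6 → ℝ, (∀ j, 0 ≤ σ j) ∧ ∑ j, σ j = 2 * ‖v‖ ∧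
    ∑ j : Fin 6, σ j * ej j = v := by
  refine ⟨fun j => (‖v‖ + (v * (starRingEnd ℂ) (ej j)).re) / 3, fun j => ?_, ?_, ?_⟩
  · have := Complex.abs_re_le_norm (v * (starRingEnd ℂ) (ej j))
    rw [norm_mul, Complex.norm_conj, ej, Complex.norm_exp_ofReal_mul_I, mul_one, ← ej] at this
    linarith [(abs_le.1 this).1]
  · have := six fun _ e => (((‖v‖ + (v * (starRingEnd ℂ) e).re) / 3 : ℝ) : ℂ)
    refine Complex.ofReal_injective ?_
    rw [Complex.ofReal_sum, this]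
    simp only [map_neg, mul_neg, Complex.neg_re]
    push_cast
    ring
  · rw [six fun _ e => (((‖v‖ + (v * (starRingEnd ℂ) e).re) / 3 : ℝ) : ℂ) * e, ej0, ej1, ej2]
    have := Real.mul_self_sqrt (show (0 : ℝ) ≤ 3 by norm_num)
    refine Complex.ext ?_ ?_ <;>
      simp only [Complex.add_re, Complex.add_im, Complex.re_ofReal_mul, Complex.im_ofReal_mul] <;>
      simp
    · ring
    · linear_combination v.im / 3 * this

end TOUR

open TOUR in
theorem st_TOUR (hR : St_ROUND) : St_TOUR := by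
  obtain ⟨C, hC, hR⟩ := hR
  refine ⟨C, hC, fun h hh => ?_⟩
  have rd : ∀ σ : Fin 6 → ℝ, (∀ j, 0 ≤ σ j) → ∃ φ : ℝ → ℝ, Continuous φ ∧
      ∫ s in (0 : ℝ)..(∑ j, σ j + 6 * h), ex (2 * φ s) = ∑ j : Fin 6, σ j * ej j ^ 2 ∧
      ∀ (a : ℂ) (B : ℝ), ‖a‖ + (∑ j, σ j + 6 * h) ≤ B →
        Tr (C / h) (C / h ^ 2) B a (a + ∑ j : Fin 6, σ j * ej j) (∑ j, σ j + 6 * h) fun g =>
          ∫ s in (0 : ℝ)..(∑ j, σ j + 6 * h), ex (2 * φ s) * g (a + pos φ s) := fun σ hσ => by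
    obtain ⟨φ, p1, p2, p3, p4, p5, p6⟩ := hR h σ hh hσ
    have := Finset.sum_nonneg fun j (_ : j ∈ Finset.univ) => hσ j
    exact ⟨φ, p1.continuous, p6, fun a B hB => ⟨_, φ, by positivity, le_rfl, p1, p2,
      ⟨1, by simpa using p3⟩, p4, congrArg _ p5, fun s hs => (norm_add_le _ _).trans
        (by linarith [pos_le φ hs.1, hs.2]), fun _ _ => rfl⟩⟩
  have st : ∀ k : Fin 3, ∃ φ : ℝ → ℝ, Continuous φ ∧
      ∫ s in (0 : ℝ)..(8 * h), ex (2 * φ s) = 2 * h * ej k ^ 2 ∧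
      ∀ (a : ℂ) (B : ℝ), ‖a‖ + 8 * h ≤ B → Tr (C / h) (C / h ^ 2) B a a (8 * h) fun g =>
          ∫ s in (0 : ℝ)..(8 * h), ex (2 * φ s) * g (a + pos φ s) := fun k => by
    have := rd (fun j => if (j : ℕ) % 3 = k then h else 0) fun j => by split_ifs <;> positivity
    have e1 : ∑ j : Fin 6, (if (j : ℕ) % 3 = k then h else 0) + 6 * h = 8 * h := by
      fin_cases k <;> simp [Fin.sum_univ_six] <;> ring
    have e2 : ∑ j : Fin 6, ((if (j : ℕ) % 3 = k then h else 0 : ℝ) : ℂ) * ej j = 0 := by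
      rw [six fun j e => ((if j % 3 = k then h else 0 : ℝ) : ℂ) * e]
      fin_cases k <;> simp
    have e3 : ∑ j : Fin 6, ((if (j : ℕ) % 3 = k then h else 0 : ℝ) : ℂ) * ej j ^ 2 =
        2 * h * ej k ^ 2 := by
      rw [six fun j e => ((if j % 3 = k then h else 0 : ℝ) : ℂ) * e ^ 2]
      fin_cases k <;> simp <;> ring
    simpa only [e1, e2, e3, add_zero] using this
  choose φk k1 k2 k3 using st
  refine ⟨φk, fun k => pos (φk k), fun k => ⟨k1 k, cpos (k1 k), fun s hs =>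
    (pos_le _ hs.1).trans hs.2, k2 k⟩, fun ι _ c N R h0 hc => ?_⟩
  have sh : ∀ a v : ℂ, ‖a‖ ≤ R → ‖v‖ ≤ R → ∃ (L : ℝ) (ψ : ℝ → ℝ), 0 ≤ L ∧ L ≤ 6 * h + 2 * R ∧
      Continuous ψ ∧ Tr (C / h) (C / h ^ 2) (3 * R + 8 * h) a (a + v) L fun g =>
        ∫ s in (0 : ℝ)..L, ex (2 * ψ s) * g (a + pos ψ s) := fun a v ha hv => by
    obtain ⟨σ, s1, s2, s3⟩ := shift v
    obtain ⟨φ, p1, -, p2⟩ := rd σ s1
    rw [s2, s3] at p2
    exact ⟨_, φ, by positivity, by linarith, p1, p2 a _ (by linarith)⟩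
  have n1 : ∀ j : ι × Bool, ‖if j.2 then 0 else c j.1‖ ≤ R := fun j => by
    split_ifs
    exacts [by simpa, hc _]
  choose L ψ l1 l2 l3 l4 using fun j : ι × Bool => sh (if j.2 then 0 else c j.1)
    (if j.2 then c j.1 else -c j.1) (n1 j) (by split_ifs <;> simp [hc])
  have K0 : 0 ≤ C / h := by positivity
  have K1 : 0 ≤ C / h ^ 2 := by positivity
  have cell : ∀ i, Tr (C / h) (C / h ^ 2) (3 * R + 8 * h) 0 0
      (8 * h * ∑ k, (N i k : ℝ) + 12 * h + 4 * R) fun g => ∑ k, (N i k : ℂ) *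
        (∫ s in (0 : ℝ)..(8 * h), ex (2 * φk k s) * g (c i + pos (φk k) s)) +
        ∑ b, ∫ s in (0 : ℝ)..(L (i, b)), ex (2 * ψ (i, b) s) *
          g ((if b then 0 else c i) + pos (ψ (i, b)) s) := fun i => by
    have q : ‖c i‖ ≤ 3 * R + 8 * h := by linarith [hc i]
    have t1 := l4 (i, true)
    have t2 := l4 (i, false)
    rw [if_pos rfl, if_pos rfl, zero_add] at t1
    rw [if_neg Bool.false_ne_true, if_neg Bool.false_ne_true, add_neg_cancel] at t2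
    refine ((t1.app (Tr.sum K0 K1 q (fun k => Tr.sum K0 K1 q (fun _ : ℕ => k3 k (c i) _
      (by linarith [hc i])) (Finset.range (N i k))) Finset.univ)).app t2).mono ?_ fun g => ?_
    · simp only [Finset.sum_const, Finset.card_range, nsmul_eq_mul, ← Finset.sum_mul]
      linarith [l2 (i, true), l2 (i, false)]
    · simp only [Finset.sum_const, Finset.card_range, nsmul_eq_mul, Fintype.sum_bool, if_true,
        Bool.false_eq_true, if_false]
      ring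
  obtain ⟨Λ, φ, a1, a2, a3, -, -, a6, -, a8, a9⟩ :=
    Tr.sum K0 K1 (by rw [norm_zero]; positivity) cell Finset.univ
  simp only [zero_add] at a8 a9
  refine ⟨Λ, φ, pos φ, L, ψ, fun j s => (if j.2 then 0 else c j.1) + pos (ψ j) s, a1, a2, a3, a6,
    pos_deriv a3.continuous, a8, fun j => ⟨l1 j, l2 j, l3 j, continuous_const.add (cpos (l3 j)),
      fun s hs => (norm_add_le _ _).trans ?_⟩, fun g hg => ?_⟩
  · linarith [n1 j, pos_le (ψ j) hs.1, hs.2, l2 j]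
  · rw [a9 g hg, Finset.sum_add_distrib, Fintype.sum_prod_type]

end

end Pool.Agent.Lib.EUL
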