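import Pool.Agent.Lib.EUL.Blue

/-! The algebra of one stage: the new pair solves the Euler-Reynolds system. -/

set_option autoImplicit false

namespace Pool.Agent.Lib.EUL

open MeasureTheory Set Filter Topology
open scoped ContDiff Classical

namespace ALG

variable {f g : ℝ → ℂ → ℂ}

lemma sp_add (hf : SP f) (hg : SP g) : SP fun t y => f t y + g t y :=
  ⟨ContDiff.add hf.1 hg.1, fun t n z => by simp only [hf.2 t n z, hg.2 t n z]⟩

lemma sp_sub (hf : SP f) (hg : SP g) : SP fun t y => f t y - g t y :=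
  ⟨ContDiff.sub hf.1 hg.1, fun t n z => by simp only [hf.2 t n z, hg.2 t n z]⟩

lemma sp_mul (hf : SP f) (hg : SP g) : SP fun t y => f t y * g t y :=
  ⟨ContDiff.mul hf.1 hg.1, fun t n z => by simp only [hf.2 t n z, hg.2 t n z]⟩

lemma sp_sq (hf : SP f) : SP fun t y => f t y ^ 2 :=
  ⟨ContDiff.pow hf.1 2, fun t n z => by simp only [hf.2 t n z]⟩

lemma sp_half (hf : SP f) : SP fun t y => f t y / 2 :=
  ⟨ContDiff.div_const hf.1 2, fun t n z => by simp only [hf.2 t n z]⟩

lemma sp_time {c : ℝ → ℂ} (hc : ContDiff ℝ ∞ c) : SP fun t (_ : ℂ) => c t :=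
  ⟨hc.comp contDiff_fst, fun _ _ _ => rfl⟩

lemma sp_sum {β : Type} [Fintype β] {F : β → ℝ → ℂ → ℂ} (h : ∀ i, SP (F i)) :
    SP fun t y => ∑ i, F i t y :=
  ⟨ContDiff.sum fun i _ => (h i).1, fun t n z =>
    Finset.sum_congr rfl fun i _ => (h i).2 t n z⟩

lemma dx (hf : SP f) (t : ℝ) : Differentiable ℝ (f t) :=
  (ContDiff.comp hf.1 (contDiff_const.prodMk contDiff_id)).differentiable (by simp)

lemma dtm (hf : SP f) (x : ℂ) : Differentiable ℝ fun s => f s x :=
  (ContDiff.comp hf.1 (contDiff_id.prodMk contDiff_const)).differentiable (by simp)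

variable {a b : ℂ → ℂ}

lemma dz_add (ha : Differentiable ℝ a) (hb : Differentiable ℝ b) (x : ℂ) :
    dz (fun y => a y + b y) x = dz a x + dz b x := by
  unfold dz
  rw [fderiv_fun_add (ha x) (hb x)]
  simp only [add_apply]
  ring

lemma dz_sub (ha : Differentiable ℝ a) (hb : Differentiable ℝ b) (x : ℂ) :
    dz (fun y => a y - b y) x = dz a x - dz b x := by
  unfold dz
  rw [fderiv_fun_sub (ha x) (hb x)]
  simp only [sub_apply]
  ring

lemma dz_two (ha : Differentiable ℝ a) (x : ℂ) : dz (fun y => 2 * a y) x = 2 * dz a x := by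
  simp only [two_mul]
  exact dz_add ha ha x

lemma dz_sum {β : Type} [Fintype β] {F : β → ℂ → ℂ} (h : ∀ i, Differentiable ℝ (F i)) (x : ℂ) :
    dz (fun y => ∑ i, F i y) x = ∑ i, dz (F i) x := by
  unfold dz
  rw [fderiv_fun_sum fun i _ => h i x]
  simp only [sum_apply]
  rw [Finset.mul_sum, ← Finset.sum_sub_distrib, Finset.sum_div]

lemma isG_add (ha : IsG a) (hb : IsG b) : IsG fun y => a y + b y := by
  obtain ⟨p, p1, p2, p3⟩ := ha
  obtain ⟨q, q1, q2, q3⟩ := hb
  refine ⟨fun y => p y + q y, p1.add q1, fun n z => by simp only [p2 n z, q2 n z], fun x => ?_⟩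
  have hp : Differentiable ℝ fun y => (p y : ℂ) :=
    Complex.ofRealCLM.differentiable.comp (p1.differentiable (by simp))
  have hq : Differentiable ℝ fun y => (q y : ℂ) :=
    Complex.ofRealCLM.differentiable.comp (q1.differentiable (by simp))
  simp only [p3, q3]
  unfold grad dzb
  simp only [Complex.ofReal_add]
  rw [fderiv_fun_add (hp x) (hq x)]
  simp only [add_apply]
  ring

lemma isG_sum {β : Type} (s : Finset β) {F : β → ℂ → ℂ} (h : ∀ i, IsG (F i)) :
    IsG fun y => ∑ i ∈ s, F i y := by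
  induction s using Finset.induction_on with
  | empty =>
    refine ⟨fun _ => 0, contDiff_const, fun _ _ => rfl, fun x => ?_⟩
    simp [grad, dzb]
  | insert i s hi ih =>
    simp only [Finset.sum_insert hi]
    exact isG_add (h i) ih

end ALG

open ALG in
theorem st_ALG : St_ALG := by
  intro v q β _ w wb E Sg c cb ⟨hv, hq, hd, hG⟩ h
  have hw := fun i => (h i).1
  have hwb := fun i => (h i).2.1
  have hE := fun i => (h i).2.2.1
  have hS := fun i => (h i).2.2.2.1
  have hdw := fun i => (h i).2.2.2.2.1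
  have hdb := fun i => (h i).2.2.2.2.2.1
  have hc := fun i => sp_time (h i).2.2.2.2.2.2.1
  have hcb := fun i => sp_time (h i).2.2.2.2.2.2.2.1
  have hC := fun i => (h i).2.2.2.2.2.2.2.2
  have hW := sp_sum hw
  have hB := sp_sum hwb
  have hq' := sp_add (sp_add (sp_add (sp_add (sp_add (sp_add (sp_sub hq (sp_sum hS)) (sp_sum hE))
    (sp_sum fun i => sp_mul (sp_sub hv (hc i)) (hw i)))
    (sp_sum fun i => sp_mul (sp_sub hv (hcb i)) (hwb i)))
    (sp_half (sp_sub (sp_sq hW) (sp_sum fun i => sp_sq (hw i))))) (sp_mul hW hB))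
    (sp_half (sp_sq hB))
  refine ⟨sp_add (sp_add hv hW) hB, hq', fun t x => ?_, fun t => ?_⟩
  · have e : dz (fun y => v t y + ∑ i, w i t y + ∑ i, wb i t y) x =
        dz (v t) x + ∑ i, dz (w i t) x + ∑ i, dz (wb i t) x := by
      rw [dz_add (dx (sp_add hv hW) t) (dx hB t), dz_add (dx hv t) (dx hW t),
        dz_sum fun i => dx (hw i) t, dz_sum fun i => dx (hwb i) t]
    simp only [e, Complex.add_re, Complex.re_sum, hd t x, fun i => hdw i t x,
      fun i => hdb i t x, Finset.sum_const_zero, add_zero]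
  · have key := isG_add (hG t) (isG_sum Finset.univ fun i => hC i t)
    refine (congrArg IsG (funext fun x => ?_)).mp key
    have two : SP fun (_ : ℝ) (_ : ℂ) => (2 : ℂ) := sp_time contDiff_const
    have h1 := fun i => dx (sp_mul (sp_mul two (hc i)) (hw i)) t
    have h2 := fun i => dx (sp_sq (hw i)) t
    have h3 := fun i => dx (sp_mul (sp_mul two (hcb i)) (hwb i)) t
    have h4 := fun i => dx (sp_mul two (hS i)) t
    have h5 := fun i => dx (sp_mul two (hE i)) t
    have e1 : dt (fun t y => v t y + ∑ i, w i t y + ∑ i, wb i t y) t x =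
        dt v t x + ∑ i, dt (w i) t x + ∑ i, dt (wb i) t x := by
      unfold dt
      rw [deriv_fun_add (dtm (sp_add hv hW) x t) (dtm hB x t),
        deriv_fun_add (dtm hv x t) (dtm hW x t), deriv_fun_sum fun i _ => dtm (hw i) x t,
        deriv_fun_sum fun i _ => dtm (hwb i) x t]
    have e2 : ∀ i, dz (fun y => 2 * c i t * w i t y + w i t y ^ 2 + 2 * cb i t * wb i t y +
        2 * Sg i t y - 2 * E i t y) x = dz (fun y => 2 * c i t * w i t y) x +
          dz (fun y => w i t y ^ 2) x + dz (fun y => 2 * cb i t * wb i t y) x +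
          2 * dz (Sg i t) x - 2 * dz (E i t) x := by
      intro i
      rw [dz_sub ((((h1 i).fun_add (h2 i)).fun_add (h3 i)).fun_add (h4 i)) (h5 i),
        dz_add (((h1 i).fun_add (h2 i)).fun_add (h3 i)) (h4 i),
        dz_add ((h1 i).fun_add (h2 i)) (h3 i), dz_add (h1 i) (h2 i), dz_two (dx (hS i) t),
        dz_two (dx (hE i) t)]
    have d2 := fun i => ((((h1 i).fun_add (h2 i)).fun_add (h3 i)).fun_add (h4 i)).fun_sub (h5 i)
    obtain ⟨Q, hQ⟩ : ∃ Q : ℂ → ℂ, Q = fun y => q t y - ∑ i, Sg i t y + ∑ i, E i t y +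
        ∑ i, (v t y - c i t) * w i t y + ∑ i, (v t y - cb i t) * wb i t y +
        ((∑ i, w i t y) ^ 2 - ∑ i, w i t y ^ 2) / 2 + (∑ i, w i t y) * (∑ i, wb i t y) +
        (∑ i, wb i t y) ^ 2 / 2 := ⟨_, rfl⟩
    have dQ : Differentiable ℝ Q := hQ ▸ dx hq' t
    have e3 : (fun y => (v t y + ∑ i, w i t y + ∑ i, wb i t y) ^ 2) = fun y =>
        2 * Q y + (v t y ^ 2 - 2 * q t y) + ∑ i, (2 * c i t * w i t y + w i t y ^ 2 +
          2 * cb i t * wb i t y + 2 * Sg i t y - 2 * E i t y) := by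
      funext y
      simp only [hQ, sub_mul, Finset.sum_sub_distrib, Finset.sum_add_distrib, mul_assoc,
        ← Finset.mul_sum]
      ring
    have d3 : Differentiable ℝ fun y => 2 * Q y := dQ.const_mul 2
    have d4 := dx (sp_sq hv) t
    have d5 := dx (sp_mul two hq) t
    have d6 : Differentiable ℝ fun y => ∑ i, (2 * c i t * w i t y + w i t y ^ 2 +
          2 * cb i t * wb i t y + 2 * Sg i t y - 2 * E i t y) :=
      Differentiable.fun_sum fun i _ => d2 i
    simp only []
    rw [e1, e3, ← hQ, dz_add (d3.fun_add (d4.fun_sub d5)) d6, dz_add d3 (d4.fun_sub d5),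
      dz_sub d4 d5, dz_two dQ, dz_two (dx hq t), dz_sum d2]
    simp only [e2, Finset.sum_sub_distrib, Finset.sum_add_distrib]
    ring

end Pool.Agent.Lib.EUL
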