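import Pool.Agent.Lib.EUL.Blue

set_option autoImplicit false

namespace Pool.Agent.Lib.EUL

open MeasureTheory Set Filter Topology
open scoped ContDiff Classical Pointwise

noncomputable section

namespace AVG

lemma lat_re (n : ℤ × ℤ) : (lat n).re = n.1 := by simp [lat]

lemma lat_im (n : ℤ × ℤ) : (lat n).im = n.2 := by simp [lat]

/-- the lattice map as an additive homomorphism -/
def latH : ℤ × ℤ →+ ℂ where
  toFun := lat
  map_zero' := by simp [lat]
  map_add' := by
    intro a b
    simp only [lat, Prod.fst_add, Prod.snd_add]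
    push_cast
    ring

lemma isClosed_range_lat : IsClosed (range lat) := by
  have h : range lat = Complex.re ⁻¹' (range ((↑) : ℤ → ℝ)) ∩ Complex.im ⁻¹' (range ((↑) : ℤ → ℝ)) := by
    ext z
    constructor
    · rintro ⟨n, rfl⟩
      exact ⟨⟨n.1, (lat_re n).symm⟩, ⟨n.2, (lat_im n).symm⟩⟩
    · rintro ⟨⟨a, ha⟩, ⟨b, hb⟩⟩
      refine ⟨(a, b), Complex.ext ?_ ?_⟩
      · rw [lat_re]; exact ha
      · rw [lat_im]; exact hb
  rw [h]
  exact (Int.isClosedEmbedding_coe_real.isClosed_range.preimage Complex.continuous_re).inter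
    (Int.isClosedEmbedding_coe_real.isClosed_range.preimage Complex.continuous_im)

lemma exists_pn (z : ℂ) : ∃ n : ℤ × ℤ, pn z = ‖z - lat n‖ := by
  obtain ⟨y, ⟨n, rfl⟩, hy⟩ := isClosed_range_lat.exists_infDist_eq_dist ⟨lat 0, 0, rfl⟩ z
  exact ⟨n, by rw [pn, hy, dist_eq_norm]⟩

lemma measurableSet_cell : MeasurableSet cell :=
  (measurableSet_Ioc.preimage Complex.measurable_re).inter
    (measurableSet_Ioc.preimage Complex.measurable_im)

lemma cell_subset : cell ⊆ Metric.closedBall (0 : ℂ) 1 := by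
  rintro z ⟨⟨h1, h2⟩, ⟨h3, h4⟩⟩
  rw [mem_closedBall_zero_iff]
  have h := Complex.norm_le_abs_re_add_abs_im z
  have a1 : |z.re| ≤ 1 / 2 := abs_le.2 ⟨by linarith, h2⟩
  have a2 : |z.im| ≤ 1 / 2 := abs_le.2 ⟨by linarith, h4⟩
  linarith

lemma ball_subset_cell {R : ℝ} (hR : R ≤ 1 / 10) : Metric.closedBall (0 : ℂ) R ⊆ cell := by
  intro z hz
  rw [mem_closedBall_zero_iff] at hz
  have a1 := abs_le.1 (Complex.abs_re_le_norm z)
  have a2 := abs_le.1 (Complex.abs_im_le_norm z)
  exact ⟨⟨by linarith [a1.1], by linarith [a1.2]⟩, ⟨by linarith [a2.1], by linarith [a2.2]⟩⟩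

lemma exu (x : ℝ) : ∃! n : ℤ, (n : ℝ) + x ∈ Ioc (-1 / 2 : ℝ) (1 / 2) := by
  have h := existsUnique_add_zsmul_mem_Ioc (one_pos : (0 : ℝ) < 1) x (-1 / 2)
  have e : (-1 / 2 : ℝ) + 1 = 1 / 2 := by norm_num
  simpa only [e, zsmul_eq_mul, mul_one, add_comm x] using h

instance : Countable latH.range := by
  have : (range lat).Countable := countable_range lat
  exact this.to_subtype

lemma fund : IsAddFundamentalDomain latH.range cell (volume : Measure ℂ) := by
  refine IsAddFundamentalDomain.mk' measurableSet_cell.nullMeasurableSet fun x => ?_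
  obtain ⟨a, ha, ha'⟩ := exu x.re
  obtain ⟨b, hb, hb'⟩ := exu x.im
  refine ⟨⟨lat (a, b), (a, b), rfl⟩, ?_, ?_⟩
  · show lat (a, b) + x ∈ cell
    refine ⟨?_, ?_⟩
    · rw [Complex.add_re, lat_re]; exact ha
    · rw [Complex.add_im, lat_im]; exact hb
  · rintro ⟨y, n, rfl⟩ hy
    have hy' : lat n + x ∈ cell := hy
    have e1 : n.1 = a := ha' _ (by have := hy'.1; rwa [Complex.add_re, lat_re] at this)
    have e2 : n.2 = b := hb' _ (by have := hy'.2; rwa [Complex.add_im, lat_im] at this)
    have e : n = (a, b) := Prod.ext e1 e2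
    subst e
    rfl

lemma shift_set (f : ℂ → ℝ) (z : ℂ) (s : Set ℂ) :
    ∫ x in (fun w => z + w) ⁻¹' s, f (z + x) = ∫ x in s, f x :=
  (measurePreserving_add_left volume z).setIntegral_preimage_emb
    (measurableEmbedding_addLeft z) f s

lemma IQ_shift {f : ℂ → ℝ} (hf : Peri f) (z : ℂ) : ∫ x in cell, f (z + x) = IQ f := by
  have h2 : IsAddFundamentalDomain latH.range (z +ᵥ cell) (volume : Measure ℂ) :=
    fund.vadd_of_comm z
  have h3 : ∫ x in z +ᵥ cell, f x = ∫ x in cell, f x := by
    refine h2.setIntegral_eq fund fun g x => ?_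
    obtain ⟨y, n, rfl⟩ := g
    show f (lat n + x) = f x
    rw [add_comm]; exact hf n x
  have h4 : (fun w => z + w) ⁻¹' (z +ᵥ cell) = cell := by
    ext w
    exact Set.vadd_mem_vadd_set_iff
  rw [IQ, ← h3, ← shift_set f z, h4]

lemma ball_shift (f : ℂ → ℝ) (z : ℂ) (R : ℝ) :
    ∫ x in Metric.closedBall z R, f x = ∫ w in Metric.closedBall (0 : ℂ) R, f (z + w) := by
  rw [← shift_set f z]
  have h : (fun w => z + w) ⁻¹' Metric.closedBall z R = Metric.closedBall (0 : ℂ) R := by
    ext w
    simp [Metric.mem_closedBall, dist_eq_norm]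
  rw [h]

lemma intOn_ball {f : ℂ → ℝ} (hf : Continuous f) (z : ℂ) (R : ℝ) :
    IntegrableOn f (Metric.closedBall z R) :=
  hf.continuousOn.integrableOn_compact (isCompact_closedBall z R)

lemma intOn_cell {f : ℂ → ℝ} (hf : Continuous f) : IntegrableOn f cell :=
  (intOn_ball hf 0 1).mono_set cell_subset

lemma real_ball (z : ℂ) {R : ℝ} (hR : 0 ≤ R) :
    (volume : Measure ℂ).real (Metric.closedBall z R) = R ^ 2 * Real.pi := by
  rw [Measure.real, Complex.volume_closedBall, ENNReal.toReal_mul, ENNReal.toReal_pow,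
    ENNReal.toReal_ofReal hR]
  rfl

lemma IQ_ball {f : ℂ → ℝ} (hf : Continuous f) (hp : Peri f) {R : ℝ} (hR : 0 ≤ R) :
    ∫ z in cell, (∫ w in Metric.closedBall (0 : ℂ) R, f (z + w)) = R ^ 2 * Real.pi * IQ f := by
  have hc : Continuous fun p : ℂ × ℂ => f (p.1 + p.2) := hf.comp (continuous_fst.add continuous_snd)
  have hi : Integrable (Function.uncurry fun z w : ℂ => f (z + w))
      ((volume.restrict cell).prod (volume.restrict (Metric.closedBall (0 : ℂ) R))) := by
    rw [Measure.prod_restrict]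
    have h1 : IntegrableOn (fun p : ℂ × ℂ => f (p.1 + p.2))
        (Metric.closedBall (0 : ℂ) 1 ×ˢ Metric.closedBall (0 : ℂ) R) (volume.prod volume) :=
      hc.continuousOn.integrableOn_compact ((isCompact_closedBall _ _).prod (isCompact_closedBall _ _))
    exact h1.mono_set (prod_mono cell_subset subset_rfl)
  rw [integral_integral_swap hi]
  have h2 : ∀ w : ℂ, ∫ z in cell, f (z + w) = IQ f := fun w => by
    rw [← IQ_shift hp w]
    simp only [add_comm]
  simp only [h2]
  rw [setIntegral_const, real_ball 0 hR, smul_eq_mul]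

end AVG

open AVG in
theorem st_AVG : St_AVG := by
  intro F l hF hP h0 hl hl'
  have hl2 : 0 < l ^ 2 := by positivity
  have hFt : ∀ t, Continuous (F t) := fun t => hF.comp (Continuous.prodMk_right t)
  have hper : ∀ r t, Peri (avg F r l t) := by
    intro r t n z
    simp only [avg]
    rw [ball_shift _ (z + lat n), ball_shift _ z]
    have e : ∀ w, F t (z + lat n + w) = F t (z + w) := fun w => by
      rw [add_right_comm]; exact hP t n _
    simp only [e]
  have hnn : ∀ r t z, 0 ≤ avg F r l t z := fun r t z =>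
    div_nonneg (integral_nonneg fun x => h0 t x) hl2.le
  have hmono : ∀ t (z z' : ℂ) (R R' : ℝ), Metric.closedBall z R ⊆ Metric.closedBall z' R' →
      ∫ x in Metric.closedBall z R, F t x ≤ ∫ x in Metric.closedBall z' R', F t x :=
    fun t z z' R R' h => setIntegral_mono_set (intOn_ball (hFt t) _ _)
      (Eventually.of_forall fun x => h0 t x) h.eventuallyLE
  have hIQ : ∀ t, 0 ≤ IQ (F t) := fun t => integral_nonneg fun x => h0 t x
  refine ⟨?_, hper, hnn, ?_, ?_, ?_, ?_⟩
  · intro r
    have e : (fun p : ℝ × ℂ => avg F r l p.1 p.2) =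
        fun p : ℝ × ℂ => (∫ w in Metric.closedBall (0 : ℂ) (r * l), F p.1 (p.2 + w)) / l ^ 2 := by
      funext p
      simp only [avg]
      rw [ball_shift]
    rw [e]
    refine Continuous.div_const ?_ _
    refine continuous_parametric_integral_of_continuous
      (f := fun (p : ℝ × ℂ) (w : ℂ) => F p.1 (p.2 + w)) ?_ (isCompact_closedBall _ _)
    exact hF.comp (f := fun q : (ℝ × ℂ) × ℂ => (q.1.1, q.1.2 + q.2)) (by fun_prop)
  · intro r s t z z' h
    obtain ⟨n, hn⟩ := exists_pn (z - z')
    rw [← hper (r + s) t n z']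
    simp only [avg]
    refine div_le_div_of_nonneg_right (hmono t _ _ _ _ ?_) hl2.le
    refine Metric.closedBall_subset_closedBall' ?_
    rw [dist_eq_norm]
    have e : z - (z' + lat n) = z - z' - lat n := by ring
    rw [e, ← hn]
    linarith
  · intro r t z hr
    simp only [avg]
    refine div_le_div_of_nonneg_right ?_ hl2.le
    rw [ball_shift, ← IQ_shift (hP t) z]
    have hR : r * l ≤ 1 / 10 := by nlinarith
    exact setIntegral_mono_set (intOn_cell ((hFt t).comp (continuous_const.add continuous_id)))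
      (Eventually.of_forall fun x => h0 t _) (ball_subset_cell hR).eventuallyLE
  · intro r t hr
    have e : avg F r l t =
        fun z => (∫ w in Metric.closedBall (0 : ℂ) (r * l), F t (z + w)) / l ^ 2 := by
      funext z
      simp only [avg]
      rw [ball_shift]
    rw [e, IQ, integral_div, IQ_ball (hFt t) (hP t) (mul_nonneg hr hl.le), div_le_iff₀ hl2]
    have h4 : Real.pi ≤ 4 := Real.pi_le_four
    have h5 : 0 ≤ (r * l) ^ 2 * IQ (F t) := mul_nonneg (sq_nonneg _) (hIQ t)
    nlinarith
  · intro r t z y c hy hc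
    rcases le_or_gt c 0 with hc0 | hc0
    · exact hc0.trans (hnn r t z)
    simp only [avg]
    rw [le_div_iff₀ hl2]
    refine le_trans ?_ (hmono t y z l (r * l) ?_)
    · have h1 : ∫ _ in Metric.closedBall y l, c ≤ ∫ x in Metric.closedBall y l, F t x :=
        setIntegral_mono_on (intOn_ball continuous_const _ _) (intOn_ball (hFt t) _ _)
          measurableSet_closedBall fun x hx => hc x (by rwa [mem_closedBall_iff_norm] at hx)
      rw [setIntegral_const, real_ball y hl.le, smul_eq_mul] at h1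
      have h3 : 3 < Real.pi := Real.pi_gt_three
      have h4 : 0 < c * l ^ 2 := mul_pos hc0 hl2
      nlinarith
    · refine Metric.closedBall_subset_closedBall' ?_
      rw [dist_eq_norm]
      linarith

end

end Pool.Agent.Lib.EUL
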