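import Pool.Agent.Lib.EUL.Blue

/-! Block BES: the Bessel function of order zero as an entire function of the square. -/

open MeasureTheory Set Filter Topology
open scoped ContDiff Classical Nat

noncomputable section

namespace Pool.Agent.Lib.EUL

namespace BES

/-- the terms of the series -/
def a (m k : ℕ) (u : ℝ) : ℝ := (-u / 4) ^ k / ((k ! : ℝ) * ((k + m)! : ℝ))

/-- the series -/
def f (m : ℕ) (u : ℝ) : ℝ := ∑' k, a m k u

lemma fpos (k : ℕ) : (0 : ℝ) < (k ! : ℝ) := by exact_mod_cast Nat.factorial_pos k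

lemma a_le (m k : ℕ) (u R : ℝ) (h : |u| ≤ R) : ‖a m k u‖ ≤ R ^ k / (k ! : ℝ) := by
  have h1 : (1 : ℝ) ≤ ((k + m)! : ℝ) := by exact_mod_cast Nat.factorial_pos (k + m)
  have h2 := fpos k
  have h3 : |-u / 4| ≤ R := by
    rw [abs_div, abs_neg, abs_of_pos (by norm_num : (0 : ℝ) < 4)]
    linarith [abs_nonneg u]
  have hR : 0 ≤ R := (abs_nonneg u).trans h
  unfold a
  rw [Real.norm_eq_abs, abs_div, abs_pow, abs_of_pos (by positivity : (0 : ℝ) < (k ! : ℝ) * ((k + m)! : ℝ))]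
  exact div_le_div₀ (pow_nonneg hR k) (pow_le_pow_left₀ (abs_nonneg _) h3 k) h2 (by nlinarith)

lemma summ (m : ℕ) (u : ℝ) : Summable fun k => a m k u :=
  Summable.of_norm_bounded (Real.summable_pow_div_factorial |u|) fun k => a_le m k u _ le_rfl

lemma summ1 (m : ℕ) (u : ℝ) : Summable fun k => a m (k + 1) u :=
  (summable_nat_add_iff 1).2 (summ m u)

lemma f_eq (m : ℕ) (u : ℝ) : f m u = 1 / (m ! : ℝ) + ∑' k, a m (k + 1) u := by
  unfold f
  rw [(summ m u).tsum_eq_zero_add]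
  simp [a]

lemma hd_a (m k : ℕ) (y : ℝ) : HasDerivAt (a m (k + 1)) (-(1 / 4) * a (m + 1) k y) y := by
  have h0 : HasDerivAt (fun u : ℝ => -u / 4) (-1 / 4) y := (hasDerivAt_neg' y).div_const 4
  have h1 := (h0.fun_pow (k + 1)).div_const (((k + 1)! : ℝ) * ((k + 1 + m)! : ℝ))
  refine h1.congr_deriv ?_
  unfold a
  have e : k + (m + 1) = k + 1 + m := by ring
  rw [e, Nat.add_sub_cancel, Nat.factorial_succ k]
  have h2 := fpos k
  have h3 := fpos (k + 1 + m)
  push_cast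
  field_simp

lemma hd_f (m : ℕ) (y : ℝ) : HasDerivAt (f m) (-(1 / 4) * f (m + 1) y) y := by
  have hy : y ∈ Ioo (-(|y| + 1)) (|y| + 1) := by
    constructor <;> linarith [neg_abs_le y, le_abs_self y]
  have h := hasDerivAt_tsum_of_isPreconnected (g := fun k => a m (k + 1))
    (g' := fun k z => -(1 / 4) * a (m + 1) k z) (Real.summable_pow_div_factorial (|y| + 1))
    isOpen_Ioo isPreconnected_Ioo (fun k z _ => hd_a m k z) (fun k z hz => by
      have h1 := a_le (m + 1) k z (|y| + 1) (abs_le.2 ⟨hz.1.le, hz.2.le⟩)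
      rw [norm_mul, norm_neg, Real.norm_of_nonneg (by norm_num : (0 : ℝ) ≤ 1 / 4)]
      linarith [norm_nonneg (a (m + 1) k z)]) hy (summ1 m y) hy
  have e : f m = fun z => 1 / (m ! : ℝ) + ∑' k, a m (k + 1) z := funext (f_eq m)
  rw [tsum_mul_left] at h
  rw [e]
  exact h.const_add _

lemma deriv_f (m : ℕ) : deriv (f m) = fun y => -(1 / 4) * f (m + 1) y :=
  funext fun y => (hd_f m y).deriv

lemma cd_f (n : ℕ) : ∀ m, ContDiff ℝ n (f m) := by
  induction n with
  | zero =>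
    intro m
    exact contDiff_zero.2 (continuous_iff_continuousAt.2 fun y => (hd_f m y).continuousAt)
  | succ n ih =>
    intro m
    push_cast
    rw [contDiff_succ_iff_deriv]
    refine ⟨fun y => (hd_f m y).differentiableAt, by simp, ?_⟩
    rw [deriv_f]
    exact contDiff_const.mul (ih (m + 1))

lemma f_zero (m : ℕ) : f m 0 = 1 / (m ! : ℝ) := by
  rw [f_eq]; simp [a]

lemma rel (u : ℝ) : f 0 u - f 1 u = -u / 4 * f 2 u := by
  rw [f_eq 0, f_eq 1]
  have e : ∀ k, a 0 (k + 1) u = a 1 (k + 1) u + -u / 4 * a 2 k u := by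
    intro k
    unfold a
    have e1 : k + 1 + 1 = k + 2 := rfl
    rw [Nat.add_zero, e1, Nat.factorial_succ (k + 1), Nat.factorial_succ k]
    have h2 := fpos k
    push_cast
    field_simp
    ring
  rw [tsum_congr e, (summ1 1 u).tsum_add ((summ 2 u).mul_left _), tsum_mul_left]
  simp [f]

lemma tail (k : ℕ) : a 1 (k + 6) 24 ≤ 1 / 50 * (1 / 2) ^ k := by
  have key : (6 : ℝ) ^ (k + 6) / (((k + 6)! : ℝ) * ((k + 6 + 1)! : ℝ)) ≤ 1 / 50 * (1 / 2) ^ k := by
    induction k with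
    | zero => norm_num [Nat.factorial]
    | succ k ih =>
      have e1 : k + 1 + 6 = k + 6 + 1 := by ring
      have h1 := fpos (k + 6)
      have h2 := fpos (k + 6 + 1)
      have e : (6 : ℝ) ^ (k + 1 + 6) / (((k + 1 + 6)! : ℝ) * ((k + 1 + 6 + 1)! : ℝ)) =
          6 ^ (k + 6) / (((k + 6)! : ℝ) * ((k + 6 + 1)! : ℝ)) * (6 / (((k : ℝ) + 7) * (k + 8))) := by
        rw [e1, Nat.factorial_succ (k + 6 + 1)]
        nth_rewrite 1 [Nat.factorial_succ (k + 6)]
        push_cast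
        field_simp
        ring
      have hk : (0 : ℝ) ≤ k := Nat.cast_nonneg k
      have h3 : 6 / (((k : ℝ) + 7) * (k + 8)) ≤ 1 / 2 := by
        rw [div_le_iff₀ (by positivity)]; nlinarith
      rw [e, pow_succ (1 / 2 : ℝ) k, ← mul_assoc]
      exact mul_le_mul ih h3 (by positivity) (by positivity)
  refine le_trans ?_ key
  unfold a
  refine div_le_div_of_nonneg_right ?_ (by positivity)
  refine (le_abs_self _).trans ?_
  rw [abs_pow]
  norm_num

lemma f1_neg : f 1 24 < 0 := by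
  unfold f
  rw [← (summ 1 24).sum_add_tsum_nat_add 6]
  have h1 : ∑' k, a 1 (k + 6) 24 ≤ ∑' k : ℕ, (1 / 50 : ℝ) * (1 / 2) ^ k :=
    ((summable_nat_add_iff 6).2 (summ 1 24)).tsum_le_tsum tail (summable_geometric_two.mul_left _)
  rw [tsum_mul_left, tsum_geometric_two] at h1
  have h2 : ∑ i ∈ Finset.range 6, a 1 i 24 = -(7 / 50) := by
    simp only [Finset.sum_range_succ, Finset.sum_range_zero, a]
    norm_num [Nat.factorial]
  rw [h2]
  linarith

lemma hd_F (u : ℝ) : HasDerivAt (fun u => u ^ 2 / 4 * f 1 u ^ 2 + u * f 0 u ^ 2) (f 0 u ^ 2) u := by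
  have h := ((((hasDerivAt_id' u).fun_pow 2).div_const 4).fun_mul ((hd_f 1 u).fun_pow 2)).fun_add
    ((hasDerivAt_id' u).fun_mul ((hd_f 0 u).fun_pow 2))
  refine h.congr_deriv ?_
  have e := rel u
  norm_num
  linear_combination (-(u / 2 * f 1 u)) * e

lemma ne_zero (u0 : ℝ) (h0 : 0 < u0) (h1 : f 1 u0 = 0) : f 0 u0 ≠ 0 := by
  intro h
  have hm : Monotone fun u => u ^ 2 / 4 * f 1 u ^ 2 + u * f 0 u ^ 2 :=
    monotone_of_deriv_nonneg (fun u => (hd_F u).differentiableAt) fun u => by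
      rw [(hd_F u).deriv]; exact sq_nonneg _
  have hc : ContinuousAt (f 0) 0 := (hd_f 0 0).continuousAt
  have hp : ∀ᶠ x in 𝓝 (0 : ℝ), 0 < f 0 x := hc.eventually (lt_mem_nhds (by rw [f_zero]; norm_num))
  have hev : ∀ᶠ x in 𝓝[>] (0 : ℝ), 0 < f 0 x ∧ x ∈ Ioo 0 u0 :=
    (hp.filter_mono nhdsWithin_le_nhds).and (Ioo_mem_nhdsGT h0)
  obtain ⟨x, hx, hx0, hx1⟩ := hev.exists
  have h2 := hm hx1.le
  simp only [h, h1] at h2
  have h3 : 0 < x * f 0 x ^ 2 := by positivity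
  have h4 : 0 ≤ x ^ 2 / 4 * f 1 x ^ 2 := by positivity
  nlinarith

end BES

open BES in
theorem st_BES : St_BES := by
  have hc : ContinuousOn (f 1) (Icc 0 24) := fun y _ => (hd_f 1 y).continuousAt.continuousWithinAt
  have hz : (0 : ℝ) ∈ Ioo (f 1 24) (f 1 0) := ⟨f1_neg, by rw [f_zero]; norm_num⟩
  obtain ⟨u0, hu0, h1⟩ := intermediate_value_Ioo' (by norm_num : (0 : ℝ) ≤ 24) hc hz
  refine ⟨f 0, u0, contDiff_infty.2 fun n => cd_f n 0, fun u => ?_, by rw [f_zero]; norm_num, hu0.1,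
    ?_, ne_zero u0 hu0.1 h1⟩
  · rw [deriv_f 0, ((hd_f (0 + 1) u).const_mul (-(1 / 4))).deriv]
    have e := rel u
    norm_num
    linear_combination e
  · rw [deriv_f 0]
    show -(1 / 4) * f 1 u0 = 0
    rw [h1, mul_zero]

end Pool.Agent.Lib.EUL
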