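import Pool.Agent.Lib.EUL.Blue

set_option autoImplicit false

namespace Pool.Agent.Lib.EUL

open MeasureTheory Set Filter Topology
open scoped ContDiff Classical

namespace BEU

lemma cell_sub : cell ⊆ Icc (-1 / 2 : ℝ) (1 / 2) ×ℂ Icc (-1 / 2 : ℝ) (1 / 2) := fun _ hz =>
  ⟨Ioc_subset_Icc_self hz.1, Ioc_subset_Icc_self hz.2⟩

lemma intOn {E : Type} [NormedAddCommGroup E] {f : ℂ → E} (hf : Continuous f) :
    IntegrableOn f cell :=
  (hf.continuousOn.integrableOn_compact (isCompact_Icc.reProdIm isCompact_Icc)).mono_set cell_sub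

lemma vol_cell : volume cell = 1 := by
  have h : cell = Complex.measurableEquivRealProd ⁻¹'
      (Ioc (-1 / 2 : ℝ) (1 / 2) ×ˢ Ioc (-1 / 2 : ℝ) (1 / 2)) := rfl
  rw [h, Complex.volume_preserving_equiv_real_prod.measure_preimage_equiv, Measure.volume_eq_prod,
    Measure.prod_prod, Real.volume_Ioc]
  norm_num

lemma sm_app {F : ℂ → ℂ} (hF : ContDiff ℝ ∞ F) (v : ℂ) : ContDiff ℝ ∞ fun x => fderiv ℝ F x v :=
  (hF.fderiv_right (m := ∞) (by simp)).clm_apply contDiff_const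

lemma sm_dz {F : ℂ → ℂ} (hF : ContDiff ℝ ∞ F) : ContDiff ℝ ∞ (dz F) :=
  ((sm_app hF 1).sub (contDiff_const.mul (sm_app hF Complex.I))).div_const 2

lemma sm_dzb {F : ℂ → ℂ} (hF : ContDiff ℝ ∞ F) : ContDiff ℝ ∞ (dzb F) :=
  ((sm_app hF 1).add (contDiff_const.mul (sm_app hF Complex.I))).div_const 2

lemma per_fd {F : ℂ → ℂ} (hF : Peri F) (n : ℤ × ℤ) (z : ℂ) :
    fderiv ℝ F (z + lat n) = fderiv ℝ F z := by
  rw [← fderiv_comp_add_right]
  congr 1
  exact funext (hF n)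

lemma per_dz {F : ℂ → ℂ} (hF : Peri F) : Peri (dz F) := fun n z => by
  simp only [dz, per_fd hF]

lemma per_dzb {F : ℂ → ℂ} (hF : Peri F) : Peri (dzb F) := fun n z => by
  simp only [dzb, per_fd hF]

lemma sm_cj {F : ℂ → ℂ} (hF : ContDiff ℝ ∞ F) : ContDiff ℝ ∞ (cj F) :=
  Complex.conjCLE.contDiff.comp hF

lemma fd_mul {G H : ℂ → ℂ} (hG : ContDiff ℝ ∞ G) (hH : ContDiff ℝ ∞ H) (x v : ℂ) :
    fderiv ℝ (fun y => cj G y * H y) x v =
      (starRingEnd ℂ) (fderiv ℝ G x v) * H x + cj G x * fderiv ℝ H x v := by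
  have h1 := (hG.differentiable (by simp) x).hasFDerivAt
  have h2 := (hH.differentiable (by simp) x).hasFDerivAt
  have h3 : HasFDerivAt (cj G) _ x := Complex.conjCLE.toContinuousLinearMap.hasFDerivAt.comp x h1
  have h4 : HasFDerivAt (fun y => cj G y * H y) _ x := h3.mul h2
  rw [h4.fderiv]
  simp
  ring

lemma dz_mul {G H : ℂ → ℂ} (hG : ContDiff ℝ ∞ G) (hH : ContDiff ℝ ∞ H) (x : ℂ) :
    dz (fun y => cj G y * H y) x = (starRingEnd ℂ) (dzb G x) * H x + cj G x * dz H x := by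
  simp only [dz, dzb, fd_mul hG hH, map_div₀, map_add, map_mul, Complex.conj_I, map_ofNat]
  ring

lemma dzb_mul {G H : ℂ → ℂ} (hG : ContDiff ℝ ∞ G) (hH : ContDiff ℝ ∞ H) (x : ℂ) :
    dzb (fun y => cj G y * H y) x = (starRingEnd ℂ) (dz G x) * H x + cj G x * dzb H x := by
  simp only [dz, dzb, fd_mul hG hH, map_div₀, map_sub, map_mul, Complex.conj_I, map_ofNat]
  ring

lemma IQ_sq (f : ℂ → ℂ) :
    ((IQ fun x => ‖f x‖ ^ 2 : ℝ) : ℂ) = ∫ x in cell, (starRingEnd ℂ) (f x) * f x := by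
  rw [IQ, ← integral_complex_ofReal]
  refine integral_congr_ae (Eventually.of_forall fun x => ?_)
  simp [Complex.conj_mul']

lemma jac (hI : St_IBP) {G : ℂ → ℂ} (hG : ContDiff ℝ ∞ G) (hp : Peri G)
    (hc : ∀ x, dz (dzb G) x = dzb (dz G) x) :
    IQ (fun x => ‖dzb G x‖ ^ 2) = IQ (fun x => ‖dz G x‖ ^ 2) := by
  have s1 := sm_dz hG
  have s2 := sm_dzb hG
  have s3 := sm_cj hG
  have c1 := s1.continuous
  have c2 := s2.continuous
  have c3 := s3.continuous
  have c4 := (sm_dzb s1).continuous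
  have a := (hI.1 (fun y => cj G y * dzb G y) ((s3.mul s2).of_le (by simp))
    (fun n z => by simp only [cj, hp n z, per_dzb hp n z])).1
  have b := (hI.1 (fun y => cj G y * dz G y) ((s3.mul s1).of_le (by simp))
    (fun n z => by simp only [cj, hp n z, per_dz hp n z])).2
  simp only [dz_mul hG s2, hc] at a
  simp only [dzb_mul hG s1] at b
  rw [integral_add (intOn (by fun_prop)) (intOn (by fun_prop))] at a b
  have : ((IQ fun x => ‖dzb G x‖ ^ 2 : ℝ) : ℂ) = ((IQ fun x => ‖dz G x‖ ^ 2 : ℝ) : ℂ) := by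
    rw [IQ_sq, IQ_sq]
    linear_combination a - b
  exact_mod_cast this

lemma var {F : ℂ → ℂ} (hF : Continuous F) :
    IQ (fun x => ‖F x - ∫ y in cell, F y‖ ^ 2) ≤ IQ (fun x => ‖F x‖ ^ 2) := by
  set m := ∫ y in cell, F y with hm
  have e : ∀ x, ‖F x - m‖ ^ 2 =
      ‖F x‖ ^ 2 - (2 * ((starRingEnd ℂ) m * F x).re - ‖m‖ ^ 2) := by
    intro x
    simp only [Complex.sq_norm, Complex.normSq_apply, Complex.sub_re, Complex.sub_im,
      Complex.mul_re, Complex.conj_re, Complex.conj_im]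
    ring
  have i1 : IntegrableOn (fun x => (starRingEnd ℂ) m * F x) cell := intOn (by fun_prop)
  have h1 : ∫ x in cell, ((starRingEnd ℂ) m * F x).re = ‖m‖ ^ 2 := by
    have := integral_re i1
    simp only [RCLike.re_to_complex] at this
    rw [this, integral_const_mul, ← hm, Complex.conj_mul']
    norm_cast
  have hv : volume.real cell = 1 := by simp [Measure.real, vol_cell]
  simp only [IQ, e]
  rw [integral_sub (intOn (by fun_prop)) (intOn (by fun_prop)),
    integral_sub (intOn (by fun_prop)) (intOn (by fun_prop)), integral_const_mul, h1,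
    setIntegral_const, hv, one_smul]
  nlinarith [sq_nonneg ‖m‖]

end BEU

theorem st_BEU (hC : St_CAU) (hI : St_IBP) : St_BEU := by
  intro K CK hK F hF hp
  obtain ⟨g1, g2, _, g4, g5⟩ := (hC K CK hK).2.2.1 F hF hp
  obtain ⟨_, _, _, _, k5⟩ := (hC K CK hK).2.2.1 (dzb F) (BEU.sm_dzb hF) (BEU.per_dzb hp)
  have e1 : dzb (Cau K F) = Cau K (dzb F) := funext g4
  have e2 : dz (Cau K F) = fun x => F x - ∫ y in cell, F y := funext g5
  rw [BEU.jac hI g1 g2, e2]
  · exact BEU.var hF.continuous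
  · intro x
    rw [e1, e2, k5, (hI.1 F (hF.of_le (by simp)) hp).2, sub_zero]
    simp only [dzb, fderiv_sub_const]

end Pool.Agent.Lib.EUL
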