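import Pool.Agent.Lib.EUL.Blue

set_option autoImplicit false

namespace Pool.Agent.Lib.EUL

open MeasureTheory Set Filter Topology
open scoped ContDiff Classical

noncomputable section

namespace CAU

lemma lat_re (n : ℤ × ℤ) : (lat n).re = n.1 := by simp [lat]
lemma lat_im (n : ℤ × ℤ) : (lat n).im = n.2 := by simp [lat]

lemma meas_cell : MeasurableSet cell :=
  (Complex.measurable_re measurableSet_Ioc).inter (Complex.measurable_im measurableSet_Ioc)

lemma norm_lt_one {y : ℂ} (hy : y ∈ cell) : ‖y‖ < 1 := by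
  obtain ⟨⟨h1, h2⟩, h3, h4⟩ := hy
  have e : ‖y‖ ^ 2 = y.re ^ 2 + y.im ^ 2 := by
    rw [Complex.sq_norm, Complex.normSq_apply]; ring
  have : ‖y‖ ^ 2 < 1 ^ 2 := by rw [e]; nlinarith
  exact lt_of_pow_lt_pow_left₀ 2 zero_le_one this

lemma sq_le_sub {a : ℝ} (h1 : -1 / 2 < a) (h2 : a ≤ 1 / 2) (n : ℤ) : a ^ 2 ≤ (a - n) ^ 2 := by
  rcases lt_trichotomy n 0 with h | h | h
  · have : (n : ℝ) ≤ -1 := by exact_mod_cast (by omega : n ≤ -1)
    nlinarith
  · simp [h]
  · have : (1 : ℝ) ≤ n := by exact_mod_cast (by omega : 1 ≤ n)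
    nlinarith

lemma norm_le_pn {y : ℂ} (hy : y ∈ cell) : ‖y‖ ≤ pn y := by
  unfold pn
  rw [Metric.le_infDist (range_nonempty _)]
  rintro _ ⟨n, rfl⟩
  rw [dist_eq_norm]
  obtain ⟨⟨h1, h2⟩, h3, h4⟩ := hy
  have e : ∀ z : ℂ, ‖z‖ ^ 2 = z.re ^ 2 + z.im ^ 2 := fun z => by
    rw [Complex.sq_norm, Complex.normSq_apply]; ring
  have : ‖y‖ ^ 2 ≤ ‖y - lat n‖ ^ 2 := by
    rw [e, e, Complex.sub_re, Complex.sub_im, lat_re, lat_im]
    exact add_le_add (sq_le_sub h1 h2 _) (sq_le_sub h3 h4 _)
  exact le_of_pow_le_pow_left₀ two_ne_zero (norm_nonneg _) this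

lemma intOn {K : ℂ → ℂ} {C : ℝ} (h : IsKer K C) : IntegrableOn K cell := by
  have h1 : IntegrableOn (cell.indicator K) (Metric.ball 0 1) volume := by
    refine integrableOn_ball_of_norm_le_rpow (C := C) (α := 1) (by simp) (by simp) ?_
      (h.meas.indicator meas_cell).aestronglyMeasurable
    refine ae_restrict_of_ae ?_
    have h0 : ∀ᵐ y : ℂ, y ≠ 0 := by
      simp [ae_iff]
    filter_upwards [h0] with y hy
    have hpos : 0 < ‖y‖ := norm_pos_iff.2 hy
    have hC : 0 ≤ C := zero_le_one.trans h.one_le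
    by_cases hc : y ∈ cell
    · rw [indicator_of_mem hc]
      have h2 := norm_le_pn hc
      have h3 := h.bound 0 (by norm_num) y (hpos.trans_le h2)
      rw [nD, norm_iteratedFDeriv_zero] at h3
      rw [Real.rpow_neg_one, ← div_eq_mul_inv]
      simp only [add_zero, pow_one] at h3
      exact h3.trans (div_le_div_of_nonneg_left hC hpos h2)
    · rw [indicator_of_notMem hc, norm_zero]
      positivity
  have h2 : IntegrableOn (cell.indicator K) cell volume :=
    h1.mono_set fun y hy => mem_ball_zero_iff.2 (norm_lt_one hy)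
  exact h2.congr_fun (fun y hy => indicator_of_mem hy K) meas_cell

/-- a kernel integrable on the cell times a continuous function -/
lemma intMul {K : ℂ → ℂ} (hK : IntegrableOn K cell) {g : ℂ → ℂ} (hg : Continuous g) :
    IntegrableOn (fun y => K y * g y) cell := by
  obtain ⟨M, hM⟩ := (isCompact_closedBall (0 : ℂ) 1).exists_bound_of_continuousOn hg.continuousOn
  refine Integrable.mul_bdd (c := M) hK hg.aestronglyMeasurable ?_
  rw [ae_restrict_iff' meas_cell]
  exact Eventually.of_forall fun y hy => hM y (mem_closedBall_zero_iff.2 (norm_lt_one hy).le)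

/-- smoothness in a parameter -/
lemma smooth_param {P : Type} [NormedAddCommGroup P] [NormedSpace ℝ P] {K : ℂ → ℂ}
    (hK : IntegrableOn K cell) {G : P → ℂ → ℂ} (hG : ContDiff ℝ ∞ fun q : P × ℂ => G q.1 q.2) :
    ContDiff ℝ ∞ fun p => ∫ y in cell, K y * G p y := by
  let χ : ContDiffBump (0 : ℂ) := ⟨1, 2, one_pos, one_lt_two⟩
  have hf : LocallyIntegrable (cell.indicator K) volume :=
    ((integrable_indicator_iff meas_cell).2 hK).locallyIntegrable
  have hg : ContDiff ℝ ∞ fun q : P × ℂ => ((χ q.2 : ℝ) : ℂ) * G q.1 (-q.2) := by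
    refine ContDiff.mul ?_ ?_
    · exact Complex.ofRealCLM.contDiff.comp (χ.contDiff.comp contDiff_snd)
    · exact hG.comp (contDiff_fst.prodMk contDiff_snd.neg)
  have key := contDiffOn_convolution_right_with_param_comp (𝕜 := ℝ) (n := ⊤) (μ := volume)
    (ContinuousLinearMap.mul ℝ ℂ) (s := (univ : Set P)) (v := fun _ => (0 : ℂ)) contDiffOn_const
    (f := cell.indicator K) (g := fun p w => ((χ w : ℝ) : ℂ) * G p (-w))
    (k := Metric.closedBall 0 2) isOpen_univ (isCompact_closedBall _ _)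
    (fun p x _ hx => by
      have : χ x = 0 := χ.zero_of_le_dist (by
        have := not_le.1 (fun h => hx (Metric.mem_closedBall.2 h))
        exact this.le)
      simp [this]) hf hg.contDiffOn
  rw [contDiffOn_univ] at key
  have e : (fun p => ∫ y in cell, K y * G p y) = fun p =>
      convolution (cell.indicator K) (fun w => ((χ w : ℝ) : ℂ) * G p (-w))
        (ContinuousLinearMap.mul ℝ ℂ) volume 0 := by
    funext p
    rw [convolution_def, ← integral_indicator meas_cell]
    refine integral_congr_ae (Eventually.of_forall fun y => ?_)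
    by_cases hy : y ∈ cell
    · have h1 : χ (-y) = 1 := χ.one_of_mem_closedBall (by
        rw [mem_closedBall_zero_iff, norm_neg]; exact (norm_lt_one hy).le)
      simp [indicator_of_mem hy, h1]
    · simp [indicator_of_notMem hy]
  rw [e]
  exact key

/-- derivative in a real parameter -/
lemma deriv_param {K : ℂ → ℂ} (hK : IntegrableOn K cell) {G : ℝ → ℂ → ℂ}
    (hG : ContDiff ℝ ∞ fun q : ℝ × ℂ => G q.1 q.2) (t : ℝ) :
    HasDerivAt (fun s => ∫ y in cell, K y * G s y)
      (∫ y in cell, K y * deriv (fun s => G s y) t) t := by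
  let D : ℝ × ℂ → ℂ := fun q => fderiv ℝ (fun q : ℝ × ℂ => G q.1 q.2) q (1, 0)
  have hD : Continuous D := (hG.continuous_fderiv (by simp)).clm_apply continuous_const
  have hd : ∀ s y, HasDerivAt (fun s => G s y) (D (s, y)) s := by
    intro s y
    have h1 : HasFDerivAt (fun q : ℝ × ℂ => G q.1 q.2)
        (fderiv ℝ (fun q : ℝ × ℂ => G q.1 q.2) (s, y)) (s, y) :=
      (hG.differentiable (by simp) _).hasFDerivAt
    have h2 : HasDerivAt (fun s : ℝ => (s, y)) ((1 : ℝ), (0 : ℂ)) s :=
      (hasDerivAt_id s).prodMk (hasDerivAt_const s y)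
    exact h1.comp_hasDerivAt s h2
  obtain ⟨M, hM⟩ := ((isCompact_closedBall t 1).prod
    (isCompact_closedBall (0 : ℂ) 1)).exists_bound_of_continuousOn hD.continuousOn
  have hc : ∀ s, Continuous fun y => G s y := fun s =>
    hG.continuous.comp (continuous_const.prodMk continuous_id)
  have key := hasDerivAt_integral_of_dominated_loc_of_deriv_le (μ := volume.restrict cell)
    (F := fun s y => K y * G s y) (F' := fun s y => K y * D (s, y)) (x₀ := t)
    (bound := fun y => ‖K y‖ * M) (Metric.closedBall_mem_nhds t one_pos)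
    (Eventually.of_forall fun s => (intMul hK (hc s)).aestronglyMeasurable) (intMul hK (hc t))
    (intMul hK (hD.comp (continuous_const.prodMk continuous_id))).aestronglyMeasurable
    (by
      rw [ae_restrict_iff' meas_cell]
      refine Eventually.of_forall fun y hy s hs => ?_
      rw [norm_mul]
      exact mul_le_mul_of_nonneg_left
        (hM (s, y) ⟨hs, mem_closedBall_zero_iff.2 (norm_lt_one hy).le⟩) (norm_nonneg _))
    (hK.norm.mul_const M)
    (Eventually.of_forall fun y s _ => (hd s y).const_mul (K y))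
  simp only [(hd t _).deriv]
  exact key.2

lemma smooth_Cau {K : ℂ → ℂ} (hK : IntegrableOn K cell) {F : ℂ → ℂ} (hF : ContDiff ℝ ∞ F) :
    ContDiff ℝ ∞ (Cau K F) :=
  smooth_param hK (G := fun x y => F (x - y)) (hF.comp (contDiff_fst.sub contDiff_snd))

lemma peri_Cau (K : ℂ → ℂ) {F : ℂ → ℂ} (hF : Peri F) : Peri (Cau K F) := by
  intro n z
  unfold Cau
  refine integral_congr_ae (Eventually.of_forall fun y => ?_)
  show K y * F (z + lat n - y) = K y * F (z - y)
  rw [add_sub_right_comm, hF n]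

lemma line_deriv {F : ℂ → ℂ} (hF : ContDiff ℝ ∞ F) (x v : ℂ) :
    HasDerivAt (fun s : ℝ => F (x + s • v)) (fderiv ℝ F x v) 0 := by
  have h1 : HasFDerivAt F (fderiv ℝ F x) (x + (0 : ℝ) • v) := by
    simpa using (hF.differentiable (by simp) x).hasFDerivAt
  have h2 : HasDerivAt (fun s : ℝ => x + s • v) v 0 := by
    simpa using ((hasDerivAt_id (0 : ℝ)).smul_const v).const_add x
  exact h1.comp_hasDerivAt 0 h2

lemma fderiv_Cau {K : ℂ → ℂ} (hK : IntegrableOn K cell) {F : ℂ → ℂ} (hF : ContDiff ℝ ∞ F)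
    (x v : ℂ) : fderiv ℝ (Cau K F) x v = ∫ y in cell, K y * fderiv ℝ F (x - y) v := by
  have h1 := line_deriv (smooth_Cau hK hF) x v
  have h2 := deriv_param hK (G := fun s y => F (x + s • v - y))
    (hF.comp ((contDiff_const.add (contDiff_fst.smul contDiff_const)).sub contDiff_snd)) 0
  rw [h1.unique h2]
  refine integral_congr_ae (Eventually.of_forall fun y => ?_)
  have h3 := line_deriv hF (x - y) v
  show K y * deriv (fun s : ℝ => F (x + s • v - y)) 0 = _
  simp only [add_sub_right_comm x _ y]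
  rw [h3.deriv]

lemma intD {K : ℂ → ℂ} (hK : IntegrableOn K cell) {F : ℂ → ℂ} (hF : ContDiff ℝ ∞ F)
    (x v : ℂ) : IntegrableOn (fun y => K y * fderiv ℝ F (x - y) v) cell :=
  intMul hK (((hF.continuous_fderiv (by simp)).comp (continuous_const.sub continuous_id)).clm_apply
    continuous_const)

lemma dz_Cau {K : ℂ → ℂ} (hK : IntegrableOn K cell) {F : ℂ → ℂ} (hF : ContDiff ℝ ∞ F) (x : ℂ) :
    dz (Cau K F) x = Cau K (dz F) x := by
  rw [dz, fderiv_Cau hK hF, fderiv_Cau hK hF, ← integral_const_mul,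
    ← integral_sub (intD hK hF x 1) ((intD hK hF x Complex.I).const_mul _), ← integral_div]
  refine integral_congr_ae (Eventually.of_forall fun y => ?_)
  simp only [dz]; ring

lemma dzb_Cau {K : ℂ → ℂ} (hK : IntegrableOn K cell) {F : ℂ → ℂ} (hF : ContDiff ℝ ∞ F) (x : ℂ) :
    dzb (Cau K F) x = Cau K (dzb F) x := by
  rw [dzb, fderiv_Cau hK hF, fderiv_Cau hK hF, ← integral_const_mul,
    ← integral_add (intD hK hF x 1) ((intD hK hF x Complex.I).const_mul _), ← integral_div]
  refine integral_congr_ae (Eventually.of_forall fun y => ?_)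
  simp only [dzb]; ring

lemma exists_cell (w : ℂ) : ∃ n : ℤ × ℤ, w - lat n ∈ cell := by
  refine ⟨(⌈w.re - 1 / 2⌉, ⌈w.im - 1 / 2⌉), ?_, ?_⟩
  · rw [Complex.sub_re, lat_re]
    have h1 := Int.le_ceil (w.re - 1 / 2)
    have h2 := Int.ceil_lt_add_one (w.re - 1 / 2)
    constructor <;> simp only <;> linarith
  · rw [Complex.sub_im, lat_im]
    have h1 := Int.le_ceil (w.im - 1 / 2)
    have h2 := Int.ceil_lt_add_one (w.im - 1 / 2)
    constructor <;> simp only <;> linarith

lemma unique_cell {w : ℂ} {n m : ℤ × ℤ} (hn : w - lat n ∈ cell) (hm : w - lat m ∈ cell) :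
    n = m := by
  obtain ⟨⟨a1, a2⟩, a3, a4⟩ := hn
  obtain ⟨⟨b1, b2⟩, b3, b4⟩ := hm
  rw [Complex.sub_re, lat_re] at a1 a2 b1 b2
  rw [Complex.sub_im, lat_im] at a3 a4 b3 b4
  have c1 : (n.1 : ℝ) < m.1 + 1 := by linarith
  have c2 : (m.1 : ℝ) < n.1 + 1 := by linarith
  have c3 : (n.2 : ℝ) < m.2 + 1 := by linarith
  have c4 : (m.2 : ℝ) < n.2 + 1 := by linarith
  have d1 : n.1 < m.1 + 1 := by exact_mod_cast c1
  have d2 : m.1 < n.1 + 1 := by exact_mod_cast c2
  have d3 : n.2 < m.2 + 1 := by exact_mod_cast c3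
  have d4 : m.2 < n.2 + 1 := by exact_mod_cast c4
  exact Prod.ext (by omega) (by omega)

/-- only finitely many lattice points are near a given point -/
lemma exists_near (x : ℂ) : ∃ N : Finset (ℤ × ℤ), ∀ n, n ∉ N → 2 < ‖x - lat n‖ := by
  refine ⟨Finset.Icc (⌊x.re⌋ - 3) (⌊x.re⌋ + 3) ×ˢ Finset.Icc (⌊x.im⌋ - 3) (⌊x.im⌋ + 3),
    fun n hn => ?_⟩
  by_contra hc
  have hc := not_lt.1 hc
  have h1 := abs_le.1 ((Complex.abs_re_le_norm _).trans hc)
  have h2 := abs_le.1 ((Complex.abs_im_le_norm _).trans hc)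
  rw [Complex.sub_re, lat_re] at h1
  rw [Complex.sub_im, lat_im] at h2
  have e1 := Int.floor_le x.re
  have e2 := Int.lt_floor_add_one x.re
  have e3 := Int.floor_le x.im
  have e4 := Int.lt_floor_add_one x.im
  refine hn (Finset.mem_product.2 ⟨Finset.mem_Icc.2 ⟨?_, ?_⟩, Finset.mem_Icc.2 ⟨?_, ?_⟩⟩)
  · have : ((⌊x.re⌋ - 3 : ℤ) : ℝ) ≤ n.1 := by push_cast; linarith [h1.2]
    exact_mod_cast this
  · have : (n.1 : ℝ) ≤ ((⌊x.re⌋ + 3 : ℤ) : ℝ) := by push_cast; linarith [h1.1]
    exact_mod_cast this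
  · have : ((⌊x.im⌋ - 3 : ℤ) : ℝ) ≤ n.2 := by push_cast; linarith [h2.2]
    exact_mod_cast this
  · have : (n.2 : ℝ) ≤ ((⌊x.im⌋ + 3 : ℤ) : ℝ) := by push_cast; linarith [h2.1]
    exact_mod_cast this

lemma unfold_ {K : ℂ → ℂ} (hK : IntegrableOn K cell) (hp : Peri K) {f : ℂ → ℂ} {r : ℝ}
    (hf : Continuous f) (hr : r ≤ 1 / 4) (h0 : ∀ y, r < ‖y‖ → f y = 0) (x : ℂ) :
    Integrable (fun y => K (x - y) * f y) ∧ Cau K (Per f) x = ∫ y, K (x - y) * f y := by
  obtain ⟨N, hN⟩ := exists_near x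
  have far : ∀ y ∈ cell, ∀ n, n ∉ N → f (x - y - lat n) = 0 := by
    intro y hy n hn
    refine h0 _ ?_
    have h1 := hN n hn
    have h2 := norm_lt_one hy
    have h3 : ‖x - lat n‖ ≤ ‖x - y - lat n‖ + ‖y‖ := by
      have := norm_add_le (x - y - lat n) y
      rwa [show x - y - lat n + y = x - lat n by ring] at this
    linarith
  let g : ℤ × ℤ → ℂ → ℂ := fun n => cell.indicator fun y => K y * f (x - y - lat n)
  have hI : ∀ n, IntegrableOn (fun y => K y * f (x - y - lat n)) cell := fun n =>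
    intMul hK (hf.comp ((continuous_const.sub continuous_id).sub continuous_const))
  have hg : ∀ n, Integrable (g n) := fun n => (integrable_indicator_iff meas_cell).2 (hI n)
  have hsum : ∀ w, K w * f (x - w) = ∑ n ∈ N, g n (w - lat n) := by
    intro w
    obtain ⟨m, hm⟩ := exists_cell w
    have e : g m (w - lat m) = K w * f (x - w) := by
      simp only [g, indicator_of_mem hm]
      rw [← hp m (w - lat m), sub_add_cancel, show x - (w - lat m) - lat m = x - w by ring]
    rw [Finset.sum_eq_single m, e]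
    · intro n _ hn
      exact indicator_of_notMem (fun h => hn (unique_cell h hm)) _
    · intro hm'
      simp only [g, indicator_of_mem hm]
      rw [far _ hm m hm', mul_zero]
  have hint : Integrable fun w => K w * f (x - w) := by
    simp only [hsum]
    exact integrable_finsetSum _ fun n _ => (hg n).comp_sub_right (lat n)
  constructor
  · simpa only [sub_sub_cancel] using hint.comp_sub_left x
  · have e1 : ∫ y, K (x - y) * f y = ∫ w, K w * f (x - w) := by
      have := integral_sub_left_eq_self (fun w => K w * f (x - w)) volume x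
      simpa only [sub_sub_cancel] using this
    rw [e1]
    simp only [hsum]
    rw [integral_finsetSum _ fun n _ => (hg n).comp_sub_right (lat n)]
    simp only [integral_sub_right_eq_self, g, integral_indicator meas_cell]
    rw [← integral_finsetSum _ fun n _ => hI n]
    refine setIntegral_congr_fun meas_cell fun y hy => ?_
    show K y * Per f (x - y) = _
    rw [Per, tsum_eq_sum fun n hn => far y hy n hn, Finset.mul_sum]

end CAU

theorem st_CAU : St_CAU := by
  intro K C h
  have hK := CAU.intOn h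
  refine ⟨hK, fun F hF => ⟨⟨?_, fun t => CAU.peri_Cau K (hF.2 t)⟩, fun t x => ?_⟩,
    fun F hF hP => ⟨CAU.smooth_Cau hK hF, CAU.peri_Cau K hP, CAU.dz_Cau hK hF, CAU.dzb_Cau hK hF,
      fun x => ?_⟩, fun f r hf hr h0 x => CAU.unfold_ hK h.per hf hr h0 x⟩
  · exact CAU.smooth_param hK (G := fun (p : ℝ × ℂ) y => F p.1 (p.2 - y))
      (hF.1.comp (contDiff_fst.fst.prodMk (contDiff_fst.snd.sub contDiff_snd)))
  · exact (CAU.deriv_param hK (G := fun s y => F s (x - y))
      (hF.1.comp (contDiff_fst.prodMk (contDiff_const.sub contDiff_snd))) t).deriv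
  · rw [CAU.dz_Cau hK hF]
    exact h.solve F hF hP x

end

end Pool.Agent.Lib.EUL
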