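import Pool.Agent.Lib.EUL.Blue
import Pool.Agent.Lib.EUL.BasicA
import Pool.Agent.Lib.EUL.BasicB

set_option autoImplicit false

namespace Pool.Agent.Lib.EUL

open MeasureTheory Set Filter Topology
open scoped ContDiff Classical

noncomputable section

namespace CORE

lemma th_smooth : ContDiff ℝ ∞ th :=
  Real.smoothTransition.contDiff.comp ((contDiff_const.sub (contDiff_norm_sq ℝ)).div_const _)

lemma th_zero {y : ℂ} (hy : 2 < ‖y‖) : th y = 0 :=
  Real.smoothTransition.zero_of_nonpos (by nlinarith)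

lemma th_one {y : ℂ} (hy : ‖y‖ ≤ 1) : th y = 1 :=
  Real.smoothTransition.one_of_one_le (by nlinarith [norm_nonneg y])

lemma thc_smooth : ContDiff ℝ ∞ fun y => (th y : ℂ) := contDiff_ofReal th_smooth

lemma th_bound : ∃ C : ℝ, 1 ≤ C ∧ ∀ j ≤ 2, ∀ y, nD j (fun y => (th y : ℂ)) y ≤ C := by
  have h : ∀ j : ℕ, ∃ C : ℝ, ∀ y, nD j (fun y => (th y : ℂ)) y ≤ C := by
    intro j
    have hs : HasCompactSupport (nD j fun y => (th y : ℂ)) :=
      hasCompactSupport_of_supp (r := 2)
        (nD_supp (r := 2) (fun y hy => by rw [th_zero hy, Complex.ofReal_zero]) j)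
    obtain ⟨C, hC⟩ := (continuous_nD thc_smooth j).bounded_above_of_compact_support hs
    exact ⟨C, fun y => (le_abs_self _).trans (hC y)⟩
  choose c hc using h
  refine ⟨max 1 (max (c 0) (max (c 1) (c 2))), le_max_left _ _, fun j hj y => ?_⟩
  refine (hc j y).trans ?_
  interval_cases j <;> simp

lemma nrm_div {D : ℝ} (hD : 0 < D) (w : ℂ) : ‖w / (D : ℂ)‖ = ‖w‖ / D := by
  rw [norm_div, Complex.norm_real, Real.norm_of_nonneg hD.le]

lemma supp {D : ℝ} (hD : 0 < D) (w : ℂ) (hw : 2 * D < ‖w‖) : th (w / (D : ℂ)) = 0 := by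
  refine th_zero ?_
  rw [nrm_div hD, lt_div_iff₀ hD]
  exact hw

lemma suppc {D : ℝ} (hD : 0 < D) (w : ℂ) (hw : 2 * D < ‖w‖) : ((th (w / (D : ℂ)) : ℝ) : ℂ) = 0 := by
  rw [supp hD w hw, Complex.ofReal_zero]

/-- the periodic cutoff -/
def chi (D : ℝ) (p y : ℂ) : ℂ := Per (fun w => ((th (w / (D : ℂ)) : ℝ) : ℂ)) (y - p)

lemma chi_eq {D : ℝ} (hD : 0 < D) (h8 : D ≤ 1 / 8) (p y : ℂ) :
    ((Per (fun w => th (w / (D : ℂ))) (y - p) : ℝ) : ℂ) = chi D p y :=
  (per_map (r := 2 * D) (by linarith) (supp hD) (fun a : ℝ => (a : ℂ)) Complex.ofReal_zero _).symm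

lemma thD_smooth (D : ℝ) : ContDiff ℝ ∞ fun w : ℂ => ((th (w / (D : ℂ)) : ℝ) : ℂ) :=
  thc_smooth.comp (contDiff_id.div_const _)

lemma chi_smooth {D : ℝ} (hD : 0 < D) (h8 : D ≤ 1 / 8) (p : ℂ) : ContDiff ℝ ∞ (chi D p) :=
  (contDiff_Per (r := 2 * D) (by linarith) (suppc hD) (thD_smooth D)).comp
    (contDiff_id.sub contDiff_const)

lemma chi_bound {C D : ℝ} (hC : ∀ j ≤ 2, ∀ y, nD j (fun y => (th y : ℂ)) y ≤ C) (hD : 0 < D)
    (h8 : D ≤ 1 / 8) (p y : ℂ) : ∀ j ≤ 2, D ^ j * nD j (chi D p) y ≤ C := by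
  intro j hj
  obtain ⟨w, -, hw⟩ := nD_Per_pn (r := 2 * D) (by linarith) (suppc hD) p y
  have h1 : nD j (chi D p) y = _ := hw j
  have h2 := nD_comp_div_le thc_smooth hD j w
  rw [le_div_iff₀ (by positivity), mul_comm] at h2
  rw [h1]
  exact h2.trans (hC j hj _)

lemma chi_one {D : ℝ} (hD : 0 < D) (h8 : D ≤ 1 / 8) (p y : ℂ) (hy : pn (y - p) < D) :
    chi D p y = 1 := by
  obtain ⟨n, e, hn⟩ := exists_near' (r := 2 * D) (y - p) (by linarith)
  rw [chi, per_apply (suppc hD) hn, th_one, Complex.ofReal_one]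
  rw [nrm_div hD, div_le_one hD, ← e]
  exact hy.le

lemma env_scaled {W : ℂ → ℂ} {p : ℂ} {c rho s : ℝ} (h : Env W p c rho) (hc : 0 ≤ c) (hr : 0 < rho)
    (y : ℂ) (hs0 : 0 ≤ s) (hs : s ≤ max rho (pn (y - p))) :
    ∀ j ≤ 2, s ^ j * nD j W y ≤ c * tau 2 rho (pn (y - p)) := by
  intro j hj
  have hm : 0 < max rho (pn (y - p)) := hr.trans_le (le_max_left _ _)
  have h1 : s ^ j * nD j W y
      ≤ max rho (pn (y - p)) ^ j * (c * rho ^ 2 / max rho (pn (y - p)) ^ (2 + j)) :=
    mul_le_mul (pow_le_pow_left₀ hs0 hs j) (h j hj y) (nD_nonneg _ _ _) (by positivity)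
  refine h1.trans (le_of_eq ?_)
  rw [tau, pow_add, div_pow]
  field_simp

lemma tau_nonneg {r : ℝ} (hr : 0 < r) (k : ℕ) (s : ℝ) : 0 ≤ tau k r s :=
  pow_nonneg (div_nonneg hr.le (hr.le.trans (le_max_left _ _))) k

lemma two_pow {j : ℕ} (hj : j ≤ 2) : (2 : ℝ) ^ j ≤ 4 := by
  interval_cases j <;> norm_num

end CORE

open CORE in
theorem st_CORE : St_CORE := by
  obtain ⟨C, hC1, hC⟩ := th_bound
  refine ⟨4 * (C + 1), by linarith, fun o D l ho hrD hDl h8 => ?_⟩
  have hr := ho.rpos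
  have hD : 0 < D := hr.trans_le hrD
  have hl : 0 < l := hD.trans_le hDl
  have hu := ho.u0
  have ec : ∀ t, o.core D t = fun y => chi D (o.x t) y * o.W t y := fun t => by
    funext y
    rw [Ob.core, chi_eq hD h8]
  refine ⟨?_, fun t => ⟨fun y hy => ?_, ?_⟩⟩
  · have h1 : Loc (fun (_ : ℝ) (w : ℂ) => th (w / (D : ℂ))) (2 * D) :=
      ⟨Sm.of_space (th_smooth.comp (contDiff_id.div_const _)), fun _ => supp hD⟩
    exact (h1.sp_mv (by linarith) ho.xsm).ofReal.mul ho.Wsp
  · rw [Ob.core, per_eq_zero (r := 2 * D) (by linarith) (supp hD) hy, Complex.ofReal_zero, zero_mul]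
  have ha := ho.a0 t
  by_cases ht : t ∈ Icc o.s o.e
  swap
  · have h0 := ho.Wts t ht
    refine ⟨fun j _ y => ?_, fun j _ y => ?_⟩
    · rw [nD_eq_zero_of_eventually (Eventually.of_forall fun w => by simp only [ec, h0, mul_zero]),
        mul_zero]
      have := tau_nonneg hr 2 (pn (y - o.x t))
      positivity
    · rw [nD_eq_zero_of_eventually (Eventually.of_forall fun w => by
        simp only [ec, h0, mul_zero, sub_zero]), mul_zero]
      have := tau_nonneg hl 2 (pn (y - o.x t))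
      positivity
  rw [ho.aone t ht, one_mul]
  have hW := ho.Wsp.1.slice t
  have hχ := chi_smooth hD h8 (o.x t)
  refine ⟨fun j hj y => ?_, fun j hj y => ?_⟩
  · have ht0 := tau_nonneg hr 2 (pn (y - o.x t))
    have h1 := nD_mul_scaled hχ.contDiffAt hW.contDiffAt (x := y) (k := j) (s := o.rho) (a := C)
      (b := o.u * tau 2 o.rho (pn (y - o.x t))) hr.le
      (fun i hi => le_trans (mul_le_mul_of_nonneg_right (pow_le_pow_left₀ hr.le hrD i)
        (nD_nonneg _ _ _)) (chi_bound hC hD h8 _ y i (hi.trans hj)))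
      (fun i hi => env_scaled (ho.env t) hu hr y hr.le (le_max_left _ _) i (hi.trans hj))
    rw [ec]
    refine h1.trans ?_
    have h2 : 0 ≤ o.u * tau 2 o.rho (pn (y - o.x t)) := by positivity
    have h3 : (2 : ℝ) ^ j * (C * (o.u * tau 2 o.rho (pn (y - o.x t))))
        ≤ 4 * (C * (o.u * tau 2 o.rho (pn (y - o.x t)))) :=
      mul_le_mul_of_nonneg_right (two_pow hj) (by positivity)
    nlinarith
  · have htl := tau_nonneg hl 2 (pn (y - o.x t))
    by_cases hy : pn (y - o.x t) < D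
    · have hev : ∀ᶠ w in 𝓝 y, pn (w - o.x t) < D :=
        (continuous_pn.comp (continuous_sub_right _)).continuousAt.eventually_lt_const hy
      rw [nD_eq_zero_of_eventually (hev.mono fun w hw => by
        simp only [ec, chi_one hD h8 _ w hw, one_mul, sub_self]), mul_zero]
      positivity
    rw [not_lt] at hy
    have ht0 := tau_nonneg hr 2 (pn (y - o.x t))
    have e : (fun w => o.W t w - o.core D t w) = fun w => (1 - chi D (o.x t) w) * o.W t w := by
      funext w
      rw [ec]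
      ring
    have h1 := nD_mul_scaled (f := fun w => 1 - chi D (o.x t) w) (contDiff_const.sub hχ).contDiffAt
      hW.contDiffAt (x := y) (k := j) (s := D) (a := C + 1)
      (b := o.u * tau 2 o.rho (pn (y - o.x t))) hD.le
      (fun i hi => by
        have a1 := nD_sub_le (f := fun _ => (1 : ℂ)) (x := y) contDiffAt_const hχ.contDiffAt i
        have a2 := chi_bound hC hD h8 (o.x t) y i (hi.trans hj)
        have a3 : D ^ i * nD i (fun _ => (1 : ℂ)) y ≤ 1 := by
          rcases Nat.eq_zero_or_pos i with h | h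
          · simp [h, nD_zero]
          · rw [nD_const h.ne', mul_zero]
            exact zero_le_one
        have a4 := mul_le_mul_of_nonneg_left a1 (pow_nonneg hD.le i)
        linarith)
      (fun i hi => env_scaled (ho.env t) hu hr y hD.le (hy.trans (le_max_right _ _)) i (hi.trans hj))
    rw [e]
    refine h1.trans ?_
    have h4 : tau 2 o.rho (pn (y - o.x t)) ≤ (o.rho / D) ^ 2 * tau 2 l (pn (y - o.x t)) := by
      have hp : 0 < pn (y - o.x t) := hD.trans_le hy
      have hm : 0 < max l (pn (y - o.x t)) := hl.trans_le (le_max_left _ _)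
      rw [tau, tau, ← mul_pow, max_eq_right (hrD.trans hy)]
      refine pow_le_pow_left₀ (by positivity) ?_ 2
      rw [div_mul_div_comm, div_le_div_iff₀ hp (by positivity), mul_assoc]
      refine mul_le_mul_of_nonneg_left ?_ hr.le
      rcases le_total l (pn (y - o.x t)) with h | h
      · rw [max_eq_right h]
        exact mul_le_mul_of_nonneg_right hDl hp.le
      · rw [max_eq_left h, mul_comm]
        exact mul_le_mul_of_nonneg_left hy hl.le
    calc (2 : ℝ) ^ j * ((C + 1) * (o.u * tau 2 o.rho (pn (y - o.x t))))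
        ≤ 4 * ((C + 1) * (o.u * ((o.rho / D) ^ 2 * tau 2 l (pn (y - o.x t))))) :=
          mul_le_mul (two_pow hj) (mul_le_mul_of_nonneg_left (mul_le_mul_of_nonneg_left h4 hu)
            (by linarith)) (by positivity) (by norm_num)
      _ = _ := by ring

end

end Pool.Agent.Lib.EUL
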