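import Pool.Agent.Lib.EUL.Blue

set_option autoImplicit false

namespace Pool.Agent.Lib.EUL

open MeasureTheory Set Filter Topology
open scoped ContDiff Classical

noncomputable section

namespace CORR

section Param

variable {X : Type} [NormedAddCommGroup X] [NormedSpace ℝ X] [ProperSpace X]

omit [ProperSpace X] in
lemma sm_fd {E : Type} [NormedAddCommGroup E] [NormedSpace ℝ E] {F : ℝ → X → E}
    (hF : ContDiff ℝ ∞ fun p : ℝ × X => F p.1 p.2) :
    ContDiff ℝ ∞ fun p : ℝ × X => fderiv ℝ (F p.1) p.2 := by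
  refine ContDiff.fderiv (m := ∞) (f := fun (p : ℝ × X) y => F p.1 y) (g := fun p => p.2) ?_
    contDiff_snd (by simp)
  exact hF.comp ((contDiff_fst.comp contDiff_fst).prodMk contDiff_snd)

omit [ProperSpace X] in
lemma sm_sec {E : Type} [NormedAddCommGroup E] [NormedSpace ℝ E] {F : ℝ → X → E}
    (hF : ContDiff ℝ ∞ fun p : ℝ × X => F p.1 p.2) (s : ℝ) : ContDiff ℝ ∞ (F s) :=
  hF.comp (contDiff_const.prodMk contDiff_id)

omit [ProperSpace X] in
lemma ct_sec {E : Type} [NormedAddCommGroup E] [NormedSpace ℝ E] {F : ℝ → X → E}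
    (hF : ContDiff ℝ ∞ fun p : ℝ × X => F p.1 p.2) (x : X) : Continuous fun s => F s x :=
  hF.continuous.comp (continuous_id.prodMk continuous_const)

omit [ProperSpace X] in
lemma ae_sec {E : Type} [NormedAddCommGroup E] [NormedSpace ℝ E] {F : ℝ → X → E}
    (hF : ContDiff ℝ ∞ fun p : ℝ × X => F p.1 p.2) (x : X) (μ : Measure ℝ) :
    AEStronglyMeasurable (fun s => F s x) μ :=
  (ct_sec hF x).aestronglyMeasurable

lemma fd_int {E : Type} [NormedAddCommGroup E] [NormedSpace ℝ E] {F : ℝ → X → E}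
    (hF : ContDiff ℝ ∞ fun p : ℝ × X => F p.1 p.2) (a b : ℝ) (x : X) :
    HasFDerivAt (fun y => ∫ s in a..b, F s y) (∫ s in a..b, fderiv ℝ (F s) x) x := by
  have h1 := sm_fd hF
  obtain ⟨B, hB⟩ := (isCompact_uIcc.prod (isCompact_closedBall x 1) :
    IsCompact (uIcc a b ×ˢ Metric.closedBall x 1)).exists_bound_of_continuousOn
      h1.continuous.continuousOn
  refine intervalIntegral.hasFDerivAt_integral_of_dominated_of_fderiv_le (𝕜 := ℝ)
    (F := fun y s => F s y) (F' := fun y s => fderiv ℝ (F s) y) (bound := fun _ => B)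
    (Metric.closedBall_mem_nhds x one_pos) (Eventually.of_forall fun y => ?_)
    ((ct_sec hF x).intervalIntegrable _ _) (ae_sec h1 x _)
    (Eventually.of_forall fun s hs y hy => hB (s, y) ⟨uIoc_subset_uIcc hs, hy⟩)
    intervalIntegrable_const (Eventually.of_forall fun s _ y _ => ?_)
  · exact ae_sec hF y _
  · exact ((sm_sec hF s).differentiable (by simp) y).hasFDerivAt

lemma sm_int_nat (a b : ℝ) (n : ℕ) : ∀ (E : Type) [NormedAddCommGroup E] [NormedSpace ℝ E]
    (F : ℝ → X → E), (ContDiff ℝ ∞ fun p : ℝ × X => F p.1 p.2) →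
    ContDiff ℝ n fun y => ∫ s in a..b, F s y := by
  induction n with
  | zero =>
    intro E _ _ F hF
    have : Differentiable ℝ fun y => ∫ s in a..b, F s y :=
      fun x => (fd_int hF a b x).differentiableAt
    simpa using this.continuous
  | succ n ih =>
    intro E _ _ F hF
    have e : fderiv ℝ (fun y => ∫ s in a..b, F s y) = fun x => ∫ s in a..b, fderiv ℝ (F s) x :=
      funext fun x => (fd_int hF a b x).fderiv
    rw [Nat.cast_succ, contDiff_succ_iff_fderiv]
    refine ⟨fun x => (fd_int hF a b x).differentiableAt, by simp, ?_⟩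
    rw [e]
    exact ih _ _ (sm_fd hF)

lemma sm_int {E : Type} [NormedAddCommGroup E] [NormedSpace ℝ E] {F : ℝ → X → E}
    (hF : ContDiff ℝ ∞ fun p : ℝ × X => F p.1 p.2) (a b : ℝ) :
    ContDiff ℝ ∞ fun y => ∫ s in a..b, F s y :=
  contDiff_infty.2 fun n => sm_int_nat a b n E F hF

lemma nd_int (a b : ℝ) (hab : a ≤ b) (n : ℕ) : ∀ (E : Type) [NormedAddCommGroup E]
    [NormedSpace ℝ E] (F : ℝ → X → E), (ContDiff ℝ ∞ fun p : ℝ × X => F p.1 p.2) → ∀ x,
    (Continuous fun s => ‖iteratedFDeriv ℝ n (F s) x‖) ∧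
    ‖iteratedFDeriv ℝ n (fun y => ∫ s in a..b, F s y) x‖ ≤
      ∫ s in a..b, ‖iteratedFDeriv ℝ n (F s) x‖ := by
  induction n with
  | zero =>
    intro E _ _ F hF x
    simp only [norm_iteratedFDeriv_zero]
    exact ⟨(ct_sec hF x).norm, intervalIntegral.norm_integral_le_integral_norm hab⟩
  | succ n ih =>
    intro E _ _ F hF x
    have e : fderiv ℝ (fun y => ∫ s in a..b, F s y) = fun x => ∫ s in a..b, fderiv ℝ (F s) x :=
      funext fun x => (fd_int hF a b x).fderiv
    simp only [← norm_iteratedFDeriv_fderiv]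
    rw [e]
    exact ih _ _ (sm_fd hF) x

end Param

lemma sec {f : ℝ → ℂ → ℂ} (h : Sm f) (t : ℝ) : ContDiff ℝ ∞ (f t) := sm_sec (F := f) h t

lemma lat_add (n m : ℤ × ℤ) : lat (n + m) = lat n + lat m := by
  simp only [lat, Prod.fst_add, Prod.snd_add]; push_cast; ring

lemma per_loc (x0 : ℂ) : ∃ S : Finset (ℤ × ℤ), ∀ f : ℂ → ℂ, (∀ y, 1 / 8 < ‖y‖ → f y = 0) →
    ∀ x ∈ Metric.ball x0 1, Per f x = ∑ n ∈ S, f (x - lat n) := by
  obtain ⟨N, hN⟩ := exists_nat_ge (‖x0‖ + 2)
  refine ⟨Finset.Icc (-(N : ℤ)) N ×ˢ Finset.Icc (-(N : ℤ)) N, fun f hf x hx => ?_⟩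
  refine tsum_eq_sum fun n hn => hf _ ?_
  have h1 : (N : ℝ) ≤ ‖lat n‖ := by
    by_contra h
    push Not at h
    have a1 := (Complex.abs_re_le_norm (lat n)).trans_lt h
    have a2 := (Complex.abs_im_le_norm (lat n)).trans_lt h
    simp only [lat, Complex.add_re, Complex.intCast_re, Complex.mul_re, Complex.I_re, mul_zero,
      Complex.intCast_im, Complex.I_im, mul_one, sub_self, add_zero, Complex.add_im,
      Complex.mul_im, zero_add] at a1 a2
    rw [abs_lt] at a1 a2
    apply hn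
    simp only [Finset.mem_product, Finset.mem_Icc]
    refine ⟨⟨?_, ?_⟩, ?_, ?_⟩
    · exact_mod_cast a1.1.le
    · exact_mod_cast a1.2.le
    · exact_mod_cast a2.1.le
    · exact_mod_cast a2.2.le
  have h2 : ‖x - x0‖ < 1 := by simpa [dist_eq_norm] using hx
  have h3 : ‖lat n‖ ≤ ‖x - lat n‖ + ‖x - x0‖ + ‖x0‖ := by
    calc ‖lat n‖ = ‖-(x - lat n) + (x - x0) + x0‖ := by congr 1; ring
      _ ≤ _ := by
        refine (norm_add_le _ _).trans (add_le_add_left ((norm_add_le _ _).trans ?_) _)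
        rw [norm_neg]
  linarith

lemma peri_per (f : ℂ → ℂ) : Peri (Per f) := fun m z => by
  unfold Per
  rw [← (Equiv.addRight m).tsum_eq]
  refine tsum_congr fun n => ?_
  rw [Equiv.coe_addRight, lat_add]
  congr 1; ring

lemma sp_per {f : ℝ → ℂ → ℂ} {R : ℝ} (h : Loc f R) (hR : R ≤ 1 / 8) : SP fun t => Per (f t) := by
  refine ⟨contDiff_iff_contDiffAt.2 fun p => ?_, fun t => peri_per _⟩
  obtain ⟨S, hS⟩ := per_loc p.2
  have h1 : ContDiff ℝ ∞ fun q : ℝ × ℂ => ∑ n ∈ S, f q.1 (q.2 - lat n) :=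
    ContDiff.sum fun n _ => h.1.comp (contDiff_fst.prodMk (contDiff_snd.sub contDiff_const))
  refine h1.contDiffAt.congr_of_eventuallyEq ?_
  have : ∀ᶠ q : ℝ × ℂ in 𝓝 p, q.2 ∈ Metric.ball p.2 1 :=
    continuous_snd.continuousAt.eventually (Metric.ball_mem_nhds _ one_pos)
  filter_upwards [this] with q hq
  exact hS _ (fun y hy => h.2 _ _ (hR.trans_lt hy)) _ hq

/-- the time cutoff -/
def Th (tb T t : ℝ) : ℝ := Real.smoothTransition ((t - (tb - T)) / (2 * T))

lemma th_sm (tb T : ℝ) : ContDiff ℝ ∞ (Th tb T) :=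
  Real.smoothTransition.contDiff.comp ((contDiff_id.sub contDiff_const).div_const _)

lemma th_lo {tb T t : ℝ} (hT : 0 < T) (h : t ≤ tb - T) : Th tb T t = 0 :=
  Real.smoothTransition.zero_of_nonpos (div_nonpos_of_nonpos_of_nonneg (by linarith) (by linarith))

lemma th_hi {tb T t : ℝ} (hT : 0 < T) (h : tb + T ≤ t) : Th tb T t = 1 :=
  Real.smoothTransition.one_of_one_le (by rw [le_div_iff₀ (by linarith)]; linarith)

lemma th_out {tb T t : ℝ} (hT : 0 < T) (h : t ∉ Icc (tb - T) (tb + T)) : deriv (Th tb T) t = 0 := by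
  rw [mem_Icc, not_and_or, not_le, not_le] at h
  rcases h with h | h
  · have : Th tb T =ᶠ[𝓝 t] fun _ => 0 := by
      filter_upwards [Iio_mem_nhds h] with s hs using th_lo hT (le_of_lt hs)
    rw [this.deriv_eq, deriv_const]
  · have : Th tb T =ᶠ[𝓝 t] fun _ => 1 := by
      filter_upwards [Ioi_mem_nhds h] with s hs using th_hi hT (le_of_lt hs)
    rw [this.deriv_eq, deriv_const]

lemma th_bd : ∃ C : ℝ, 1 ≤ C ∧ ∀ tb T t : ℝ, 0 < T →
    0 ≤ deriv (Th tb T) t ∧ deriv (Th tb T) t ≤ C / T := by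
  have hs : ContDiff ℝ ∞ Real.smoothTransition := Real.smoothTransition.contDiff
  obtain ⟨B, hB⟩ := (isCompact_Icc : IsCompact (Icc (0 : ℝ) 1)).exists_bound_of_continuousOn
    (hs.continuous_deriv (by simp)).continuousOn
  refine ⟨max B 1, le_max_right _ _, fun tb T t hT => ⟨Monotone.deriv_nonneg ?_, ?_⟩⟩
  · intro s s' h
    exact Real.smoothTransition.monotone (div_le_div_of_nonneg_right (by linarith) (by linarith))
  · by_cases ht : t ∈ Icc (tb - T) (tb + T)
    · have h1 : HasDerivAt (Th tb T)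
          (deriv Real.smoothTransition ((t - (tb - T)) / (2 * T)) * (1 / (2 * T))) t :=
        (hs.differentiable (by simp) _).hasDerivAt.comp t
          (((hasDerivAt_id t).sub_const (tb - T)).div_const (2 * T))
      have h2 := hB ((t - (tb - T)) / (2 * T)) ⟨div_nonneg (by linarith [ht.1]) (by linarith),
        by rw [div_le_one (by linarith)]; linarith [ht.2]⟩
      have h3 := (le_abs_self _).trans (h2.trans (le_max_left B 1))
      have h4 : (0 : ℝ) ≤ max B 1 := zero_le_one.trans (le_max_right _ _)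
      rw [h1.deriv]
      calc _ ≤ max B 1 * (1 / (2 * T)) := mul_le_mul_of_nonneg_right h3 (by positivity)
        _ ≤ max B 1 * (1 / T) :=
          mul_le_mul_of_nonneg_left (one_div_le_one_div_of_le hT (by linarith)) h4
        _ = _ := by ring
    · rw [th_out hT ht]
      have h4 : (0 : ℝ) ≤ max B 1 := zero_le_one.trans (le_max_right _ _)
      positivity

lemma dz_shift (f : ℂ → ℂ) (a y : ℂ) : dz (fun x => f (x - a)) y = dz f (y - a) := by
  unfold dz; rw [fderiv_comp_sub]

lemma dz_sub {f g : ℂ → ℂ} (hf : ContDiff ℝ ∞ f) (hg : ContDiff ℝ ∞ g) (y : ℂ) :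
    dz (fun x => f x - g x) y = dz f y - dz g y := by
  unfold dz
  rw [fderiv_fun_sub (hf.differentiable (by simp) y) (hg.differentiable (by simp) y)]
  simp only [sub_apply]; ring

/-- the transported corrector -/
lemma transport {L : ℝ → ℂ → ℂ} (hL : SP L) (hd : DivF L) {z : ℝ → ℂ} (hz : ContDiff ℝ ∞ z)
    {A : ℝ → ℂ → ℂ} (hA : IsGrad fun t x => A t x - dt L t x) :
    IsGrad fun t y => dt (fun t x => -L t (x - z t)) t y
      + dz (fun x => 2 * deriv z t * -L t (x - z t)) y + A t (y - z t) := by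
  intro t
  obtain ⟨p, hp, hpp, he⟩ := hA t
  have hw := sm_sec hL.1 t
  set c := deriv z t with hc
  have hq : ContDiff ℝ ∞ fun x => ((starRingEnd ℂ) c * L t x).re :=
    Complex.reCLM.contDiff.comp (contDiff_const.mul hw)
  refine ⟨fun x => p (x - z t) + ((starRingEnd ℂ) c * L t (x - z t)).re,
    (hp.add hq).comp (contDiff_id.sub contDiff_const), fun n x => ?_, fun y => ?_⟩
  · have : x + lat n - z t = x - z t + lat n := by ring
    simp only [this, hpp n, hL.2 t n]
  · have hB := (hL.1.differentiable (by simp) (t, y - z t)).hasFDerivAt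
    set B := fderiv ℝ (fun p : ℝ × ℂ => L p.1 p.2) (t, y - z t) with hBd
    have hA1 : HasFDerivAt (L t) (B.comp (ContinuousLinearMap.inr ℝ ℝ ℂ)) (y - z t) :=
      hB.comp (y - z t) (hasFDerivAt_prodMk_right t (y - z t))
    have hA2 : HasDerivAt (fun s => L s (y - z t)) (B (1, 0)) t :=
      HasFDerivAt.comp_hasDerivAt (l := fun p : ℝ × ℂ => L p.1 p.2)
        (f := fun s => (s, y - z t)) t hB ((hasDerivAt_id t).prodMk (hasDerivAt_const t (y - z t)))
    have hA3 : HasDerivAt (fun s => -L s (y - z s)) (-B (1, -c)) t :=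
      (hB.comp_hasDerivAt t ((hasDerivAt_id t).prodMk
        ((hz.differentiable (by simp) t).hasDerivAt.const_sub y))).neg
    have hs : HasFDerivAt (fun x : ℂ => x - z t) (ContinuousLinearMap.id ℝ ℂ) y :=
      (hasFDerivAt_id y).sub_const _
    have hA4 := ((hA1.comp y hs).neg).const_mul (2 * c)
    have hP := (hp.differentiable (by simp) (y - z t)).hasFDerivAt
    have hA5 := Complex.ofRealCLM.hasFDerivAt.comp y ((hP.comp y hs).add
      (Complex.reCLM.hasFDerivAt.comp y ((hA1.comp y hs).const_mul ((starRingEnd ℂ) c))))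
    have hA6 := Complex.ofRealCLM.hasFDerivAt.comp (y - z t) hP
    have e1 := he (y - z t)
    have e2 := hd t (y - z t)
    have e3 : B (1, -c) = B (1, 0) - (c.re : ℂ) * B (0, 1) - (c.im : ℂ) * B (0, Complex.I) := by
      have : ((1 : ℝ), -c) = ((1 : ℝ), (0 : ℂ)) - c.re • ((0 : ℝ), (1 : ℂ))
          - c.im • ((0 : ℝ), Complex.I) := by
        ext
        · simp
        · apply Complex.ext <;> simp
      rw [this, map_sub, map_sub, map_smul, map_smul, Complex.real_smul, Complex.real_smul]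
    simp only [dt, dz, grad, dzb] at e1 e2 ⊢
    rw [hA1.fderiv] at e2
    rw [hA2.deriv] at e1
    erw [hA6.fderiv] at e1
    erw [hA3.deriv, hA4.fderiv, hA5.fderiv]
    rw [e3]
    simp at e1 e2 ⊢
    rw [eq_add_of_sub_eq e1]
    generalize B (0, 1) = u at e2 ⊢
    generalize B (0, Complex.I) = v at e2 ⊢
    have e4 : v.im = -u.re := by linarith
    apply Complex.ext
    · simp [e4]; ring
    · simp [e4]; ring

/-- primitive in time of the source minus its redistributed mean -/
def Qf (Z : ℝ → ℂ → ℂ) (tb T t : ℝ) (y : ℂ) : ℂ :=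
  (∫ s in (tb - T - 1)..t, Z s y) - Th tb T t * ∫ s, Z s y

lemma sm_prim {Z : ℝ → ℂ → ℂ} (hZ : Sm Z) (a : ℝ) : Sm fun t y => ∫ s in a..t, Z s y := by
  have h := sm_int (X := ℝ × ℂ) (F := fun σ p => (p.1 - a) • Z ((p.1 - a) * σ + a) p.2)
    (((contDiff_fst.comp contDiff_snd).sub contDiff_const).smul
      (ContDiff.comp (f := fun q : ℝ × ℝ × ℂ => ((q.2.1 - a) * q.1 + a, q.2.2)) hZ
        (by fun_prop))) 0 1
  have e : (fun p : ℝ × ℂ => ∫ s in a..p.1, Z s p.2) =
      fun p : ℝ × ℂ => ∫ σ in (0 : ℝ)..1, (p.1 - a) • Z ((p.1 - a) * σ + a) p.2 := by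
    funext p
    rw [intervalIntegral.integral_smul,
      intervalIntegral.smul_integral_comp_mul_add (fun s => Z s p.2)]
    simp
  unfold Sm
  rw [e]; exact h

lemma full {E : Type} [NormedAddCommGroup E] [NormedSpace ℝ E] {g : ℝ → E} {tb T t : ℝ}
    (h : ∀ s, s ∉ Icc (tb - T) (tb + T) → g s = 0) (ht : tb + T ≤ t) :
    ∫ s in (tb - T - 1)..t, g s = ∫ s, g s := by
  refine intervalIntegral.integral_eq_integral_of_support_subset fun s hs => ?_
  by_contra h2
  refine hs (h s fun h3 => h2 ⟨by linarith [h3.1], h3.2.trans ht⟩)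

lemma early {E : Type} [NormedAddCommGroup E] [NormedSpace ℝ E] {g : ℝ → E} {tb T t : ℝ}
    (h : ∀ s, s ∉ Icc (tb - T) (tb + T) → g s = 0) (ht : t < tb - T) :
    ∫ s in (tb - T - 1)..t, g s = 0 := by
  rw [intervalIntegral.integral_congr (g := fun _ => 0), intervalIntegral.integral_zero]
  intro s hs
  refine h s fun h3 => ?_
  have := hs.2
  rcases le_max_iff.1 this with h4 | h4 <;> linarith [h3.1]

lemma q_out {Z : ℝ → ℂ → ℂ} {tb T t : ℝ} (hT : 0 < T) (h : TS Z (tb - T) (tb + T))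
    (ht : t ∉ Icc (tb - T) (tb + T)) : Qf Z tb T t = fun _ => 0 := by
  funext y
  rw [mem_Icc, not_and_or, not_le, not_le] at ht
  unfold Qf
  rcases ht with ht | ht
  · rw [early (fun s hs => h s hs y) ht, th_lo hT ht.le]; simp
  · rw [full (fun s hs => h s hs y) ht.le, th_hi hT ht.le]; simp

lemma prim_bd {Z : ℝ → ℂ → ℂ} {tb T t : ℝ} (hZ : Sm Z) (h : TS Z (tb - T) (tb + T))
    (ht : tb - T ≤ t) (k : ℕ) (y : ℂ) :
    nD k (fun y => ∫ s in (tb - T - 1)..t, Z s y) y ≤ ∫ s, nD k (Z s) y := by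
  have hle : tb - T - 1 ≤ t := by linarith
  obtain ⟨h1, h2⟩ := nd_int (tb - T - 1) t hle k ℂ Z hZ y
  refine h2.trans ?_
  rw [intervalIntegral.integral_of_le hle]
  refine setIntegral_le_integral (h1.integrable_of_hasCompactSupport ?_)
    (Eventually.of_forall fun s => norm_nonneg _)
  refine HasCompactSupport.intro (isCompact_Icc : IsCompact (Icc (tb - T) (tb + T))) fun s hs => ?_
  have : Z s = fun _ => 0 := funext (h s hs)
  rw [this]
  simp

end CORR

open CORR in
theorem st_CORR (hK : St_KER) (hA : St_LERA) (hB : St_LERB) : St_CORR := by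
  obtain ⟨K, CK, hK⟩ := hK
  obtain ⟨C, hC, hB⟩ := hB K CK hK
  obtain ⟨C1, hC1, hth⟩ := th_bd
  refine ⟨2 * C + C1, by linarith, fun Z z R d a tb T hZ hts hT hd hdR hR hz ha => ?_⟩
  have hr0 : (fun y => ∫ s, Z s y) = fun y => ∫ s in (tb - T - 1)..(tb + T), Z s y :=
    funext fun y => (full (fun s hs => hts s hs y) le_rfl).symm
  have hr : ContDiff ℝ ∞ fun y => ∫ s, Z s y := by rw [hr0]; exact sm_int hZ.1 _ _
  have hrz : ∀ y, R < ‖y‖ → ∫ s, Z s y = 0 := fun y hy => by simp [hZ.2 _ y hy]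
  have hfb : ContDiff ℝ ∞ (deriv (Th tb T)) := (contDiff_infty_iff_deriv.1 (th_sm tb T)).2
  have hre : ∀ {g : ℝ → ℝ}, ContDiff ℝ ∞ g → Loc (fun t y => (g t : ℂ) * ∫ s, Z s y) R :=
    fun hg => ⟨(Complex.ofRealCLM.contDiff.comp (hg.comp contDiff_fst)).mul (hr.comp contDiff_snd),
      fun t y hy => by simp only [hrz y hy, mul_zero]⟩
  have hQ : Loc (Qf Z tb T) R := ⟨(sm_prim hZ.1 _).sub (hre (th_sm tb T)).1, fun t y hy => by
    simp [Qf, hZ.2 _ y hy]⟩
  have ha0 : 0 ≤ a := by
    have := ha 0 (by norm_num) 0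
    rw [pow_zero, one_mul] at this
    exact (integral_nonneg fun s => norm_nonneg _).trans this
  have hQb : ∀ t, ∀ k ≤ 4, ∀ y, d ^ k * nD k (Qf Z tb T t) y ≤ 2 * a := by
    intro t k hk y
    by_cases ht : t ∈ Icc (tb - T) (tb + T)
    · have h1 := prim_bd hZ.1 hts ht.1 k y
      have h2 := prim_bd hZ.1 hts (t := tb + T) (by linarith) k y
      rw [← hr0] at h2
      have h3 : nD k (Qf Z tb T t) y ≤ nD k (fun y => ∫ s in (tb - T - 1)..t, Z s y) y +
          nD k (fun y => ∫ s, Z s y) y := by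
        have e : Qf Z tb T t = fun y => (∫ s in (tb - T - 1)..t, Z s y) -
            Th tb T t • ∫ s, Z s y := funext fun y => by simp [Qf]
        have hk' : (k : WithTop ℕ∞) ≤ ∞ := by exact_mod_cast le_top
        unfold nD
        rw [e, fun_iteratedFDeriv_sub_apply ((sec (sm_prim hZ.1 _) t).of_le hk').contDiffAt
          ((hr.const_smul _).of_le hk').contDiffAt,
          iteratedFDeriv_const_smul_apply' (hr.of_le hk').contDiffAt]
        refine (norm_sub_le _ _).trans (add_le_add_right ?_ _)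
        rw [norm_smul]
        refine mul_le_of_le_one_left (norm_nonneg _) ?_
        rw [Th, Real.norm_of_nonneg (Real.smoothTransition.nonneg _)]
        exact Real.smoothTransition.le_one _
      have h4 := ha k hk y
      have h5 : 0 ≤ d ^ k := by positivity
      nlinarith [mul_le_mul_of_nonneg_left (h3.trans (add_le_add h1 h2)) h5]
    · rw [q_out hT hts ht]
      have : nD k (fun _ : ℂ => (0 : ℂ)) y = 0 := by simp [nD]
      rw [this]; linarith
  have hG := sp_per hQ hR
  have hP1 := sp_per hZ hR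
  have hP2 := sp_per (hre hfb) hR
  have hP : SP fun t x => Per (Z t) x - Per (fun y => ((deriv (Th tb T) t : ℝ) : ℂ) * ∫ s, Z s y) x :=
    ⟨hP1.1.sub hP2.1, fun t n x => by simp only [hP1.2 t n x, hP2.2 t n x]⟩
  obtain ⟨l1, l2, -, l4⟩ := hA K CK hK _ hG
  obtain ⟨-, -, l3, -⟩ := hA K CK hK _ hP
  have hdt : ∀ t, dt (fun t => Per (Qf Z tb T t)) t = fun x =>
      Per (Z t) x - Per (fun y => ((deriv (Th tb T) t : ℝ) : ℂ) * ∫ s, Z s y) x := by
    intro t
    funext x
    obtain ⟨S, hS⟩ := per_loc x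
    have hx := Metric.mem_ball_self (x := x) one_pos
    have e : (fun s => Per (Qf Z tb T s) x) = fun s => ∑ n ∈ S, Qf Z tb T s (x - lat n) :=
      funext fun s => hS _ (fun y hy => hQ.2 _ _ (hR.trans_lt hy)) _ hx
    unfold dt
    rw [e, hS _ (fun y hy => hZ.2 _ _ (hR.trans_lt hy)) _ hx,
      hS _ (fun y hy => (hre hfb).2 _ _ (hR.trans_lt hy)) _ hx, ← Finset.sum_sub_distrib]
    refine (HasDerivAt.fun_sum fun n _ => ?_).deriv
    have c1 := ct_sec hZ.1 (x - lat n)
    exact (intervalIntegral.integral_hasDerivAt_right (c1.intervalIntegrable _ _)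
      (c1.stronglyMeasurableAtFilter _ _) c1.continuousAt).sub
      ((((th_sm tb T).differentiable (by simp) t).hasDerivAt.ofReal_comp).mul_const _)
  refine ⟨fun t x => -Ler K (Per (Qf Z tb T t)) (x - z t), deriv (Th tb T), hfb,
    fun t => ⟨(hth tb T t hT).1, (hth tb T t hT).2.trans
      (div_le_div_of_nonneg_right (by linarith) hT.le)⟩, fun t ht => th_out hT ht, hr,
    ⟨(l1.1.comp (contDiff_fst.prodMk (contDiff_snd.sub (hz.comp contDiff_fst)))).neg,
      fun t n x => ?_⟩, fun t x => ?_, fun t ht x => ?_, fun t j hj y => ?_, ?_⟩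
  · have : x + lat n - z t = x - z t + lat n := by ring
    simp only [this, l1.2 t n _]
  · have := l2 t (x - z t)
    rw [← dz_shift] at this
    unfold dz at this ⊢
    rw [fderiv_fun_neg]
    simp only [neg_apply]
    rw [← neg_eq_zero, ← Complex.neg_re, ← this]
    congr 1; ring
  · have e : Per (fun _ : ℂ => (0 : ℂ)) = fun _ => 0 := funext fun y => by simp [Per]
    have e2 : Cau K (cj fun _ => 0) = fun _ => 0 := funext fun y => by simp [Cau, cj]
    have e3 : dzb (fun _ => 0) = fun _ => 0 := funext fun y => by simp [dzb]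
    simp only [q_out hT hts ht, e, Ler, e2, e3]
    simp [dz]
  · have h1 := hB (Qf Z tb T t) R d (2 * a) (sm_sec hQ.1 t) (hQ.2 t) hd hdR hR (hQb t) j hj
      (y - z t)
    have e : nD j (fun x => -Ler K (Per (Qf Z tb T t)) (x - z t)) y =
        nD j (Ler K (Per (Qf Z tb T t))) (y - z t) := by
      unfold nD
      rw [← iteratedFDeriv_comp_sub, ← norm_neg, ← iteratedFDeriv_neg_apply]
      congr 2
      funext x; simp
    rw [e]
    rw [sub_zero] at h1
    refine h1.trans (mul_le_mul_of_nonneg_right ?_ ?_)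
    · have hR0 : 0 < R := hd.trans_le hdR
      refine div_le_div_of_nonneg_right ?_ (by positivity)
      have : 0 ≤ C1 * a * R := by positivity
      nlinarith
    · have hR0 : 0 < R := hd.trans_le hdR
      have : 0 < max R (pn (y - z t)) := lt_max_of_lt_left hR0
      unfold tau; positivity
  · have h1 := transport l1 l2 hz (A := fun t x => 2 * dz (fun x => Per (Z t) x -
      Per (fun y => ((deriv (Th tb T) t : ℝ) : ℂ) * ∫ s, Z s y) x) x) (by
        intro t
        obtain ⟨p, h1, h2, h3⟩ := l3 t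
        refine ⟨p, h1, h2, fun x => ?_⟩
        rw [← h3 x]
        simp only [l4, hdt])
    intro t
    obtain ⟨p, h2, h3, h4⟩ := h1 t
    refine ⟨p, h2, h3, fun y => ?_⟩
    rw [← h4 y]
    have e1 : dz (mv Z z t) y = dz (Per (Z t)) (y - z t) := dz_shift (Per (Z t)) _ _
    have e2 : dz (mv (fun t y => ((deriv (Th tb T) t : ℝ) : ℂ) * ∫ s, Z s y) z t) y =
        dz (Per fun y => ((deriv (Th tb T) t : ℝ) : ℂ) * ∫ s, Z s y) (y - z t) :=
      dz_shift (Per fun y => ((deriv (Th tb T) t : ℝ) : ℂ) * ∫ s, Z s y) _ _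
    simp only [e1, e2]
    rw [dz_sub (sec hP1.1 t) (sec hP2.1 t)]
    ring

end

end Pool.Agent.Lib.EUL
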