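import Pool.Agent.Lib.EUL.Blue

set_option autoImplicit false

namespace Pool.Agent.Lib.EUL

open MeasureTheory Set Filter Topology
open scoped ContDiff Classical

noncomputable section

namespace COVER

lemma pn_le (z : ℂ) (n : ℤ × ℤ) : pn z ≤ ‖z - lat n‖ := by
  rw [← dist_eq_norm]; exact Metric.infDist_le_dist_of_mem ⟨n, rfl⟩

lemma ex_lat {z : ℂ} {c : ℝ} (h : pn z < c) : ∃ n, ‖z - lat n‖ < c := by
  obtain ⟨_, ⟨n, rfl⟩, h⟩ := (Metric.infDist_lt_iff (range_nonempty lat)).1 h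
  exact ⟨n, by rwa [← dist_eq_norm]⟩

lemma pn_nonneg (z : ℂ) : 0 ≤ pn z := Metric.infDist_nonneg

lemma pn_tri (a b c : ℂ) : pn (a - c) ≤ pn (a - b) + pn (b - c) := by
  refine le_of_forall_pos_le_add fun ε hε => ?_
  obtain ⟨n, hn⟩ := ex_lat (z := a - b) (c := pn (a - b) + ε / 2) (by linarith)
  obtain ⟨m, hm⟩ := ex_lat (z := b - c) (c := pn (b - c) + ε / 2) (by linarith)
  have e : a - c - lat (n + m) = (a - b - lat n) + (b - c - lat m) := by
    simp only [lat, Prod.fst_add, Prod.snd_add]; push_cast; ring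
  have h1 := pn_le (a - c) (n + m)
  have h2 := norm_add_le (a - b - lat n) (b - c - lat m)
  rw [e] at h1
  linarith

lemma pn_comm (a b : ℂ) : pn (a - b) = pn (b - a) := by
  have h : ∀ a b : ℂ, pn (a - b) ≤ pn (b - a) := fun a b => le_of_forall_gt fun c hc => by
    obtain ⟨n, hn⟩ := ex_lat hc
    refine (pn_le _ (-n)).trans_lt ?_
    have e : a - b - lat (-n) = -(b - a - lat n) := by
      simp only [lat, Prod.fst_neg, Prod.snd_neg]; push_cast; ring
    rwa [e, norm_neg]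
  exact le_antisymm (h a b) (h b a)

/-- trajectory of the field -/
def Tr (u : ℝ → ℂ → ℂ) (X : ℝ → ℂ) : Prop := ∀ t, HasDerivAt X (u t (X t)) t

lemma Tr.cont {u : ℝ → ℂ → ℂ} {X : ℝ → ℂ} (h : Tr u X) : Continuous X :=
  continuous_iff_continuousAt.2 fun t => (h t).continuousAt

section flow

variable {u : ℝ → ℂ → ℂ} {F : ℝ → ℂ → ℝ} {l Y : ℝ}

lemma cont_avg (hA : St_AVG) (h : BoxIn u F l Y) (R : ℝ) {z : ℝ → ℂ} (hz : Tr u z) :
    Continuous fun t => avg F R l t (z t) := by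
  obtain ⟨-, -, hc, hp, h0, -, -, hl, hl1, -⟩ := h
  exact ((hA F l hc hp h0 hl hl1).1 R).comp (continuous_id.prodMk hz.cont)

lemma int_mono (hA : St_AVG) (h : BoxIn u F l Y) (R : ℝ) {z : ℝ → ℂ} (hz : Tr u z)
    {c e c' e' : ℝ} (h1 : c' ≤ c) (h2 : c ≤ e) (h3 : e ≤ e') :
    ∫ t in c..e, avg F R l t (z t) ≤ ∫ t in c'..e', avg F R l t (z t) := by
  refine intervalIntegral.integral_mono_interval h1 h2 h3 (Eventually.of_forall fun t => ?_)
    ((cont_avg hA h R hz).intervalIntegrable _ _)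
  obtain ⟨-, -, hc, hp, h0, -, -, hl, hl1, -⟩ := h
  exact (hA F l hc hp h0 hl hl1).2.2.1 R t (z t)

/-- trajectories stay close around a trajectory with a small integral -/
lemma grl (hA : St_AVG) (hG : St_GR) (h : BoxIn u F l Y) {th0 T R c e s r0 r : ℝ} {z x : ℝ → ℂ}
    (hz : Tr u z) (hx : Tr u x) (hth : 0 < th0) (hth' : th0 ≤ 1 / 100) (hT : 0 < T)
    (hs : s ∈ Icc c e) (hce : e - c ≤ 6 * T) (hI : ∫ t in c..e, avg F R l t (z t) ≤ th0 ^ 2 / T)
    (h0 : pn (x s - z s) < r0) (hr : r ≤ (R - 1) * l) (hr0 : r0 + r / 25 < r) :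
    ∀ t ∈ Icc c e, pn (x t - z t) ≤ r0 + r / 25 := by
  have hcA := cont_avg hA h R hz
  obtain ⟨hu, -, hc, hp, hF0, -, hD, hl, hl1, -⟩ := h
  obtain ⟨n, hn⟩ := ex_lat h0
  have hr1 : 0 < r := by have := pn_nonneg (x s - z s); linarith
  have hlam : 0 < T / th0 := by positivity
  have hint : ∫ t in c..e, (T / th0 * avg F R l t (z t) + th0 / T) / 2 ≤ 1 / 25 := by
    rw [intervalIntegral.integral_div, intervalIntegral.integral_add
      ((hcA.intervalIntegrable _ _).const_mul _) intervalIntegrable_const,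
      intervalIntegral.integral_const_mul, intervalIntegral.integral_const, smul_eq_mul]
    have a1 : T / th0 * ∫ t in c..e, avg F R l t (z t) ≤ th0 :=
      (mul_le_mul_of_nonneg_left hI hlam.le).trans (le_of_eq (by field_simp))
    have a2 : (e - c) * (th0 / T) ≤ 6 * th0 :=
      (mul_le_mul_of_nonneg_right hce (by positivity)).trans (le_of_eq (by field_simp))
    linarith
  have hb : r0 + (0 + r) * ∫ t in c..e, (T / th0 * avg F R l t (z t) + th0 / T) / 2 ≤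
      r0 + r / 25 := by
    have := mul_le_mul_of_nonneg_left hint hr1.le
    linarith
  have key := hG u z (fun t => x t - lat n) (fun _ => 0) (fun _ => 0)
    (fun t => (T / th0 * avg F R l t (z t) + th0 / T) / 2) c e s r0 0 r hu.1
    (((continuous_const.mul hcA).add continuous_const).div_const _) continuous_const hz
    (fun t => hasDerivAt_const t _) (fun t => by
      have e1 := hu.2 t n (x t - lat n)
      rw [sub_add_cancel] at e1
      rw [add_zero, ← e1]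
      exact (hx t).sub_const _) hs hr1 (fun t _ => by simp)
    (by rw [sub_zero, sub_right_comm]; exact hn.le) (fun t _ y hy => by
      have a1 := (hA F l hc hp hF0 hl hl1).2.2.2.2.2.2 R t (z t) y (nD 1 (u t) y ^ 2)
        (by linarith) fun w hw => hD t w y hw
      have a2 : T / th0 * (th0 / T) = 1 := by field_simp
      have a3 := mul_le_mul_of_nonneg_left a1 hlam.le
      have a4 : 2 * nD 1 (u t) y ≤ T / th0 * nD 1 (u t) y ^ 2 + th0 / T := by
        refine le_of_mul_le_mul_left ?_ hlam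
        nlinarith [sq_nonneg (T / th0 * nD 1 (u t) y - 1)]
      linarith) (hb.trans_lt hr0)
  intro t ht
  have a1 := key t ht
  rw [sub_zero, sub_right_comm] at a1
  exact (pn_le _ n).trans (a1.trans hb)

end flow

/-- points of the fine lattice -/
def pt (N : ℕ) (j : ℤ × ℤ) : ℂ := lat j / (N : ℂ)

def grid (N : ℕ) : Finset (ℤ × ℤ) := Finset.Ico (0 : ℤ) N ×ˢ Finset.Ico (0 : ℤ) N

lemma pt_re (N : ℕ) (j n : ℤ × ℤ) (c : ℂ) :
    (pt N j - c - lat n).re = (j.1 : ℝ) / N - c.re - n.1 := by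
  simp [pt, lat, Complex.div_natCast_re]

lemma pt_im (N : ℕ) (j n : ℤ × ℤ) (c : ℂ) :
    (pt N j - c - lat n).im = (j.2 : ℝ) / N - c.im - n.2 := by
  simp [pt, lat, Complex.div_natCast_im]

lemma near1 {N : ℕ} (hN : 0 < N) (x : ℝ) :
    ∃ j ∈ Finset.Ico (0 : ℤ) N, ∃ n : ℤ, |(j : ℝ) / N - x - n| < 1 / N := by
  have hN' : (0 : ℤ) < N := by exact_mod_cast hN
  have hN0 : (0 : ℝ) < N := by exact_mod_cast hN
  refine ⟨⌊N * x⌋ % N, Finset.mem_Ico.2 ⟨Int.emod_nonneg _ hN'.ne', Int.emod_lt_of_pos _ hN'⟩,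
    -(⌊N * x⌋ / N), ?_⟩
  have e : ((⌊N * x⌋ % N : ℤ) : ℝ) + N * ((⌊N * x⌋ / N : ℤ) : ℝ) = (⌊N * x⌋ : ℝ) := by
    exact_mod_cast Int.emod_add_mul_ediv ⌊N * x⌋ N
  have e2 : ((⌊N * x⌋ % N : ℤ) : ℝ) / N - x - ((-(⌊N * x⌋ / N) : ℤ) : ℝ) =
      ((⌊N * x⌋ : ℝ) - N * x) / N := by
    rw [Int.cast_neg, ← e]
    field_simp
    ring
  rw [e2, abs_div, abs_of_pos hN0]
  refine div_lt_div_of_pos_right ?_ hN0
  have h1 := Int.floor_le (N * x)
  have h2 := Int.lt_floor_add_one (N * x)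
  rw [abs_lt]
  constructor <;> linarith

lemma near {N : ℕ} (hN : 0 < N) (c : ℂ) : ∃ j ∈ grid N, pn (pt N j - c) < 2 / N := by
  obtain ⟨j1, h1, n1, h2⟩ := near1 hN c.re
  obtain ⟨j2, h3, n2, h4⟩ := near1 hN c.im
  refine ⟨(j1, j2), Finset.mem_product.2 ⟨h1, h3⟩, (pn_le _ (n1, n2)).trans_lt
    ((Complex.norm_le_abs_re_add_abs_im _).trans_lt ?_)⟩
  rw [pt_re, pt_im]
  have : (2 : ℝ) / N = 1 / N + 1 / N := by ring
  linarith

lemma count1 {N K : ℕ} (hN : 0 < N) {x ρ : ℝ} (hK : N * ρ ≤ K) {j n : ℤ}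
    (hj : j ∈ Finset.Ico (0 : ℤ) N) (h : |(j : ℝ) / N - x - n| < ρ) :
    ∃ m ∈ Finset.Icc (⌊N * x⌋ - K) (⌊N * x⌋ + K + 1), m % N = j := by
  have hN0 : (0 : ℝ) < N := by exact_mod_cast hN
  have e : (j : ℝ) / N - x - n = ((j : ℝ) - N * n - N * x) / N := by field_simp; ring
  rw [e, abs_div, abs_of_pos hN0, div_lt_iff₀ hN0, abs_lt] at h
  have h1 := Int.floor_le (N * x)
  have h2 := Int.lt_floor_add_one (N * x)
  refine ⟨j - N * n, Finset.mem_Icc.2 ⟨?_, ?_⟩, ?_⟩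
  · have : ((⌊N * x⌋ - K : ℤ) : ℝ) ≤ ((j - N * n : ℤ) : ℝ) := by push_cast; linarith [h.1]
    exact_mod_cast this
  · have : ((j - N * n : ℤ) : ℝ) ≤ ((⌊N * x⌋ + K + 1 : ℤ) : ℝ) := by push_cast; linarith [h.2]
    exact_mod_cast this
  · rw [Int.sub_mul_emod_self_left]
    exact Int.emod_eq_of_lt (Finset.mem_Ico.1 hj).1 (Finset.mem_Ico.1 hj).2

lemma count {N K : ℕ} (hN : 0 < N) {c : ℂ} {ρ : ℝ} (hK : N * ρ ≤ K) (S : Finset (ℤ × ℤ))
    (h : ∀ j ∈ S, j ∈ grid N ∧ pn (pt N j - c) < ρ) : S.card ≤ (2 * K + 2) ^ 2 := by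
  have hs : S ⊆ (Finset.Icc (⌊N * c.re⌋ - K) (⌊N * c.re⌋ + K + 1) ×ˢ
      Finset.Icc (⌊N * c.im⌋ - K) (⌊N * c.im⌋ + K + 1)).image
        fun m : ℤ × ℤ => (m.1 % N, m.2 % N) := by
    intro j hj
    obtain ⟨h1, h2⟩ := h j hj
    obtain ⟨n, hn⟩ := ex_lat h2
    have a1 := (Complex.abs_re_le_norm _).trans_lt hn
    have a2 := (Complex.abs_im_le_norm _).trans_lt hn
    rw [pt_re] at a1
    rw [pt_im] at a2
    obtain ⟨m1, b1, b2⟩ := count1 hN hK (Finset.mem_product.1 h1).1 a1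
    obtain ⟨m2, b3, b4⟩ := count1 hN hK (Finset.mem_product.1 h1).2 a2
    exact Finset.mem_image.2 ⟨(m1, m2), Finset.mem_product.2 ⟨b1, b3⟩, Prod.ext b2 b4⟩
  refine (Finset.card_le_card hs).trans (Finset.card_image_le.trans (le_of_eq ?_))
  have e : ∀ a : ℤ, (a + K + 1 + 1 - (a - K)).toNat = 2 * K + 2 := fun a => by omega
  rw [Finset.card_product, Int.card_Icc, Int.card_Icc, e, e, sq]

/-- boxes: level, slab, lattice point -/
abbrev Bx : Type := ℕ × ℤ × ℤ × ℤ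

lemma card_img {k : ℕ} {i : ℤ} (S : Finset Bx) (h : ∀ b ∈ S, b.1 = k ∧ b.2.1 = i) :
    S.card = (S.image fun b => b.2.2).card :=
  (Finset.card_image_of_injOn fun b hb b' hb' e => Prod.ext ((h b hb).1.trans (h b' hb').1.symm)
    (Prod.ext ((h b hb).2.trans (h b' hb').2.symm) e)).symm

lemma countB {N K : ℕ} (hN : 0 < N) {c : ℂ} {ρ : ℝ} (hK : N * ρ ≤ K) {k : ℕ} {i : ℤ}
    (S : Finset Bx) (h : ∀ b ∈ S, b.1 = k ∧ b.2.1 = i)
    (h' : ∀ b ∈ S, b.2.2 ∈ grid N ∧ pn (pt N b.2.2 - c) < ρ) :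
    (S.card : ℝ) ≤ (2 * K + 2) ^ 2 := by
  have := count hN hK (S.image fun b => b.2.2) fun j hj => by
    obtain ⟨b, hb, rfl⟩ := Finset.mem_image.1 hj
    exact h' b hb
  rw [← card_img S h] at this
  exact_mod_cast this

lemma fib (S : Finset Bx) (w : Bx → ℝ) (L : ℕ) (T : ℕ → ℝ) (hT : ∀ k, 0 < T k) (t B : ℝ)
    (hS : ∀ b ∈ S, b.1 ≤ L ∧ |t - b.2.1 * T b.1| ≤ 2 * T b.1)
    (h : ∀ (k : ℕ) (i : ℤ) (S' : Finset Bx), S' ⊆ S → (∀ b ∈ S', b.1 = k ∧ b.2.1 = i) →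
      ∑ b ∈ S', w b ≤ B) : ∑ b ∈ S, w b ≤ (L + 1) * 5 * B := by
  rw [← Finset.sum_fiberwise_of_maps_to (g := fun b : Bx => (b.1, b.2.1 - ⌊t / T b.1⌋))
    (t := Finset.range (L + 1) ×ˢ Finset.Icc (-2 : ℤ) 2)]
  · refine (Finset.sum_le_card_nsmul _ _ B fun p _ => ?_).trans (le_of_eq ?_)
    · refine h p.1 (p.2 + ⌊t / T p.1⌋) _ (Finset.filter_subset _ _) fun b hb => ?_
      have e := (Finset.mem_filter.1 hb).2
      rw [← e]
      exact ⟨rfl, by simp⟩
    · rw [Finset.card_product, Finset.card_range, Int.card_Icc, nsmul_eq_mul,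
        show ((2 : ℤ) + 1 - -2).toNat = 5 from rfl]
      norm_num
  · intro b hb
    obtain ⟨h1, h2⟩ := hS b hb
    have h3 := hT b.1
    rw [abs_le] at h2
    have a1 : (b.2.1 : ℝ) - 2 ≤ t / T b.1 := by rw [le_div_iff₀ h3]; linarith [h2.1]
    have a2 : t / T b.1 ≤ (b.2.1 : ℝ) + 2 := by rw [div_le_iff₀ h3]; linarith [h2.2]
    have a3 : b.2.1 - 2 ≤ ⌊t / T b.1⌋ := Int.le_floor.2 (by push_cast; exact a1)
    have a4 : ⌊t / T b.1⌋ ≤ b.2.1 + 2 := by
      have : ((⌊t / T b.1⌋ : ℤ) : ℝ) ≤ ((b.2.1 + 2 : ℤ) : ℝ) := by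
        push_cast; exact (Int.floor_le _).trans a2
      exact_mod_cast this
    refine Finset.mem_product.2 ⟨Finset.mem_range.2 (by omega), Finset.mem_Icc.2 ?_⟩
    constructor <;> simp only <;> omega

lemma cand (L N : ℕ) (T : ℕ → ℝ) (hT : ∀ k, 0 < T k) (a b : ℝ) : ∃ U : Finset Bx, ∀ β : Bx,
    β ∈ U ↔ β.1 ≤ L ∧ (β.2.1 : ℝ) * T β.1 ∈ Icc a b ∧ β.2.2 ∈ grid N := by
  refine ⟨(Finset.range (L + 1)).biUnion fun k =>
    (Finset.Icc ⌈a / T k⌉ ⌊b / T k⌋ ×ˢ grid N).image fun p => (k, p), fun β => ?_⟩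
  simp only [Finset.mem_biUnion, Finset.mem_range, Finset.mem_image, Finset.mem_product,
    Finset.mem_Icc, Int.ceil_le, Int.le_floor, div_le_iff₀ (hT _), le_div_iff₀ (hT _), mem_Icc]
  constructor
  · rintro ⟨k, hk, p, ⟨h1, h2⟩, rfl⟩
    exact ⟨by omega, h1, h2⟩
  · rintro ⟨h1, h2, h3⟩
    exact ⟨β.1, by omega, β.2, ⟨h2, h3⟩, rfl⟩

lemma enum {β : Type} (K : Finset β) : ∃ (N : ℕ) (e : Fin N → β), Function.Injective e ∧
    (∀ i, e i ∈ K) ∧ ∀ b ∈ K, ∃ i, e i = b :=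
  ⟨K.card, fun i => K.equivFin.symm i, Subtype.val_injective.comp K.equivFin.symm.injective,
    fun i => (K.equivFin.symm i).2, fun b hb => ⟨K.equivFin ⟨b, hb⟩, by simp⟩⟩

lemma levels {l : ℝ} (hl : 0 < l) (hl1 : l ≤ 1) :
    ∃ L : ℕ, 6 ≤ ((2 : ℝ) ^ L * l) ^ 2 ∧ (L : ℝ) + 1 ≤ 4 * lg l := by
  have h0 : 0 ≤ |Real.log l| := abs_nonneg _
  refine ⟨⌈2 + 2 * |Real.log l|⌉₊, ?_, ?_⟩
  · have h1 : 2 + 2 * |Real.log l| ≤ (⌈2 + 2 * |Real.log l|⌉₊ : ℝ) := Nat.le_ceil _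
    set L := ⌈2 + 2 * |Real.log l|⌉₊
    have h2 : Real.log l ≤ 0 := Real.log_nonpos hl.le hl1
    rw [abs_of_nonpos h2] at h1
    have h3 : Real.exp L ≤ ((2 : ℝ) ^ L) ^ 2 := by
      rw [← pow_mul, mul_comm, pow_mul, ← Real.exp_one_pow]
      refine pow_le_pow_left₀ (Real.exp_pos _).le ?_ _
      have := Real.exp_one_lt_d9
      linarith
    have h4 : Real.exp 2 ≤ Real.exp L * l ^ 2 := by
      rw [← Real.exp_log (pow_pos hl 2), ← Real.exp_add, Real.log_pow]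
      refine Real.exp_le_exp.2 ?_
      push_cast
      linarith
    have h5 : (6 : ℝ) ≤ Real.exp 2 := by
      have e : Real.exp 2 = Real.exp 1 * Real.exp 1 := by rw [← Real.exp_add]; norm_num
      have := Real.exp_one_gt_d9
      nlinarith
    rw [mul_pow]
    exact h5.trans (h4.trans (mul_le_mul_of_nonneg_right h3 (by positivity)))
  · have := Nat.ceil_lt_add_one (a := 2 + 2 * |Real.log l|) (by positivity)
    unfold lg
    linarith

lemma final {c th T l C Q Y : ℝ} (hT : 0 < T) (hl : 0 < l)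
    (h : c * (th ^ 2 / (4 * T)) ≤ C * (7 * T) * Q * Y / l ^ 2) :
    c * (th / T) ^ 2 ≤ 28 * C * Q * Y / l ^ 2 := by
  have e1 : c * (th / T) ^ 2 = c * (th ^ 2 / (4 * T)) * (4 / T) := by field_simp
  rw [e1]
  refine (mul_le_mul_of_nonneg_right h (by positivity)).trans (le_of_eq ?_)
  field_simp
  ring

end COVER

open COVER in
theorem st_COVER (hA : St_AVG) (hG : St_GR) (hO : St_ODE) (hW : St_WIT) : St_COVER := by
  obtain ⟨CW, hCW, hW⟩ := hW
  refine ⟨560 * CW * (2 * (1200 : ℕ) + 2) ^ 2, by push_cast; nlinarith, ?_⟩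
  intro u F l Y th0 a b h hth hth'
  have h' := h
  obtain ⟨hu, ⟨a0, b0, hts⟩, hc, hp, hF0, hFY, -, hl, hl1, hY⟩ := h'
  obtain ⟨-, -, -, hA4, hA5, -, -⟩ := hA F l hc hp hF0 hl hl1
  have htr : ∀ (t0 : ℝ) (x0 : ℂ), ∃ x : ℝ → ℂ, ContDiff ℝ ∞ x ∧ x t0 = x0 ∧ Tr u x := by
    intro t0 x0
    obtain ⟨x, h1, h2, h3⟩ := hO u a0 b0 (fun _ => 0) t0 x0 hu hts contDiff_const
    exact ⟨x, h1, h2, fun t => by simpa using h3 t⟩
  choose tr trs tr0 trT using htr
  obtain ⟨L, hL1, hL2⟩ := levels hl (by linarith)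
  obtain ⟨N, hN, hN1, hN2⟩ : ∃ N : ℕ, 0 < N ∧ 2 / (N : ℝ) ≤ l / 2 ∧ N * l ≤ 5 := by
    have a1 : 4 / l ≤ (⌈4 / l⌉₊ : ℝ) := Nat.le_ceil _
    have a2 : (⌈4 / l⌉₊ : ℝ) < 4 / l + 1 := Nat.ceil_lt_add_one (by positivity)
    have a3 : 0 < ⌈4 / l⌉₊ := Nat.ceil_pos.2 (by positivity)
    have a4 : (0 : ℝ) < ⌈4 / l⌉₊ := by exact_mod_cast a3
    refine ⟨_, a3, ?_, ?_⟩
    · rw [div_le_iff₀ hl] at a1
      rw [div_le_iff₀ a4]
      linarith
    · have a5 := mul_le_mul_of_nonneg_right a2.le hl.le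
      rw [add_mul, div_mul_cancel₀ _ hl.ne'] at a5
      linarith
  have hsY : 0 < √Y := Real.sqrt_pos.2 hY
  have hT0 : 0 < th0 / √Y := by positivity
  obtain ⟨T, hTd⟩ : ∃ T : ℕ → ℝ, ∀ k, T k = th0 / √Y / 2 ^ k := ⟨_, fun _ => rfl⟩
  have hT : ∀ k, 0 < T k := fun k => by rw [hTd]; positivity
  have hTle : ∀ k, T k ≤ th0 / √Y := fun k => by
    rw [hTd]; exact div_le_self hT0.le (one_le_pow₀ (by norm_num))
  have hTs : ∀ k, T k = 2 * T (k + 1) := fun k => by rw [hTd, hTd, pow_succ]; field_simp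
  obtain ⟨U, hU⟩ := cand L N T hT (a - th0 / √Y) (b + th0 / √Y)
  obtain ⟨z, hzd⟩ : ∃ z : Bx → ℝ → ℂ, ∀ β, z β = tr (β.2.1 * T β.1) (pt N β.2.2) :=
    ⟨_, fun _ => rfl⟩
  have hz0 : ∀ β : Bx, z β (β.2.1 * T β.1) = pt N β.2.2 := fun β => by rw [hzd, tr0]
  have hzT : ∀ β : Bx, Tr u (z β) := fun β => by rw [hzd]; exact trT _ _
  obtain ⟨Good, hGood⟩ : ∃ Good : ℕ → ℝ → ℂ → Prop, ∀ k t x, Good k t x ↔ ∃ X, Tr u X ∧ X t = x ∧
      ∫ s in (t - 3 * T k)..(t + 3 * T k), avg F 501 l s (X s) ≤ th0 ^ 2 / T k :=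
    ⟨_, fun _ _ _ => Iff.rfl⟩
  obtain ⟨K, hK⟩ : ∃ K : Finset Bx, ∀ β, β ∈ K ↔ β ∈ U ∧
      (∫ s in (β.2.1 * T β.1 - 2 * T β.1)..(β.2.1 * T β.1 + 2 * T β.1), avg F 500 l s (z β s) ≤
        th0 ^ 2 / T β.1) ∧ (β.1 = 0 ∨ ∃ p : ℝ × ℂ, |p.1 - β.2.1 * T β.1| ≤ T β.1 ∧
          pn (p.2 - z β p.1) ≤ l ∧ ¬ Good (β.1 - 1) p.1 p.2) :=
    ⟨U.filter _, fun _ => Finset.mem_filter⟩
  -- trajectories stay close to a kept box
  have hkeep : ∀ β ∈ K, ∀ (x : ℝ → ℂ) (s r0 r : ℝ), Tr u x → |s - β.2.1 * T β.1| ≤ 2 * T β.1 →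
      pn (x s - z β s) < r0 → r ≤ 499 * l → r0 + r / 25 < r →
      pn (x (β.2.1 * T β.1) - pt N β.2.2) ≤ r0 + r / 25 := by
    intro β hβ x s r0 r hx hs h0 hr hr0
    have hTβ := hT β.1
    rw [abs_le] at hs
    rw [← hz0]
    exact grl hA hG h (hzT β) hx hth hth' hTβ ⟨by linarith [hs.1], by linarith [hs.2]⟩
      (by linarith) ((hK β).1 hβ).2.1 h0 (by linarith) hr0 _ ⟨by linarith, by linarith⟩
  have hNK : (N : ℝ) * (240 * l) ≤ (1200 : ℕ) := by push_cast; linarith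
  have hgrid : ∀ β ∈ K, β.2.2 ∈ grid N := fun β hβ => ((hU β).1 ((hK β).1 hβ).1).2.2
  -- covering
  have hcov : ∀ t ∈ Icc a b, ∀ x, ∃ β ∈ K, |t - β.2.1 * T β.1| ≤ T β.1 / 2 ∧ pn (x - z β t) ≤ l := by
    intro t ht x
    have hL : Good L t x := by
      refine (hGood L t x).2 ⟨tr t x, trT _ _, tr0 _ _, ?_⟩
      have hTL := hT L
      have a1 : ∫ s in (t - 3 * T L)..(t + 3 * T L), avg F 501 l s (tr t x s) ≤
          ∫ _s in (t - 3 * T L)..(t + 3 * T L), Y / l ^ 2 :=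
        intervalIntegral.integral_mono_on (by linarith)
          ((cont_avg hA h 501 (trT t x)).intervalIntegrable _ _) intervalIntegrable_const
          fun s _ => (hA5 501 s _ (by norm_num)).trans
            (div_le_div_of_nonneg_right (hFY s) (by positivity))
      rw [intervalIntegral.integral_const, smul_eq_mul] at a1
      refine a1.trans ?_
      have a2 : th0 ^ 2 = Y * (2 ^ L * T L) ^ 2 := by
        rw [hTd]
        field_simp
        rw [Real.sq_sqrt hY.le]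
      rw [le_div_iff₀ hTL, a2]
      have a3 : (t + 3 * T L - (t - 3 * T L)) * (Y / l ^ 2) * T L = 6 * (Y * T L ^ 2 / l ^ 2) := by
        ring
      have a4 : Y * (2 ^ L * T L) ^ 2 = (2 ^ L * l) ^ 2 * (Y * T L ^ 2 / l ^ 2) := by
        field_simp
      rw [a3, a4]
      exact mul_le_mul_of_nonneg_right hL1 (by positivity)
    have hex : ∃ k, Good k t x := ⟨L, hL⟩
    obtain ⟨k, hkL, hk, hmin⟩ : ∃ k, k ≤ L ∧ Good k t x ∧ ∀ m, m < k → ¬ Good m t x :=
      ⟨Nat.find hex, Nat.find_min' hex hL, Nat.find_spec hex, fun m hm => Nat.find_min hex hm⟩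
    obtain ⟨X, hX, hXt, hXI⟩ := (hGood k t x).1 hk
    have hTk := hT k
    have hTk' := hTle k
    have hi : |t - round (t / T k) * T k| ≤ T k / 2 := by
      have a1 := abs_sub_round (t / T k)
      have a2 : t - round (t / T k) * T k = (t / T k - round (t / T k)) * T k := by field_simp
      rw [a2, abs_mul, abs_of_pos hTk]
      nlinarith
    set i := round (t / T k)
    obtain ⟨j, hj, hjX⟩ := near hN (X (i * T k))
    have hi' := abs_le.1 hi
    have hclose : ∀ s ∈ Icc (t - 3 * T k) (t + 3 * T k), pn (z (k, i, j) s - X s) ≤ l := by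
      intro s hs
      have := grl hA hG h hX (hzT (k, i, j)) hth hth' hTk (s := i * T k) (r0 := l / 2) (r := l)
        ⟨by linarith [hi'.2], by linarith [hi'.1]⟩ (by linarith) hXI
        (by rw [hz0 (k, i, j)]; exact hjX.trans_le hN1) (by linarith) (by linarith) s hs
      linarith
    have hcore : pn (x - z (k, i, j) t) ≤ l := by
      rw [pn_comm, ← hXt]; exact hclose t ⟨by linarith, by linarith⟩
    refine ⟨(k, i, j), (hK _).2 ⟨(hU _).2 ⟨hkL, ⟨?_, ?_⟩, hj⟩, ?_, ?_⟩, hi, hcore⟩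
    · simp only; linarith [ht.1, hi'.2]
    · simp only; linarith [ht.2, hi'.1]
    · refine le_trans (intervalIntegral.integral_mono_on (by simp only; linarith)
        ((cont_avg hA h 500 (hzT _)).intervalIntegrable _ _)
        ((cont_avg hA h 501 hX).intervalIntegrable _ _) fun s hs => ?_)
        ((int_mono hA h 501 hX ?_ ?_ ?_).trans hXI)
      · have := hA4 500 1 s (z (k, i, j) s) (X s) (by
          rw [one_mul]
          exact hclose s ⟨by linarith [hs.1, hi'.2], by linarith [hs.2, hi'.1]⟩)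
        rwa [show (500 : ℝ) + 1 = 501 by norm_num] at this
      · simp only; linarith [hi'.2]
      · simp only; linarith
      · simp only; linarith [hi'.1]
    · rcases Nat.eq_zero_or_pos k with h0 | h0
      · exact Or.inl h0
      · exact Or.inr ⟨(t, x), hi.trans (by simp only; linarith), hcore, hmin _ (by simp only; omega)⟩
  -- multiplicity
  have hmul : ∀ (t : ℝ) (y : ℂ) (S : Finset Bx), (∀ β ∈ S, β ∈ K ∧ |t - β.2.1 * T β.1| ≤ 2 * T β.1 ∧
      pn (z β t - y) ≤ 110 * l) → (S.card : ℝ) ≤ (L + 1) * 5 * (2 * (1200 : ℕ) + 2) ^ 2 := by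
    intro t y S hS
    have := fib S (fun _ => 1) L T hT t ((2 * (1200 : ℕ) + 2) ^ 2)
      (fun β hβ => ⟨((hU β).1 ((hK β).1 (hS β hβ).1).1).1, (hS β hβ).2.1⟩) fun k i S' hS' hki => by
        rw [Finset.sum_const, nsmul_eq_mul, mul_one]
        rcases S'.eq_empty_or_nonempty with rfl | ⟨β0, hβ0⟩
        · rw [Finset.card_empty, Nat.cast_zero]; positivity
        refine countB hN (c := pt N β0.2.2) hNK S' hki fun β hβ => ⟨hgrid β (hS β (hS' hβ)).1, ?_⟩
        obtain ⟨a1, a2, a3⟩ := hS β0 (hS' hβ0)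
        have a4 := (hS β (hS' hβ)).2.2
        have a5 := pn_tri (z β t) y (z β0 t)
        rw [pn_comm y] at a5
        have a6 := hkeep β0 a1 (z β) t (221 * l) (240 * l) (hzT β) a2 (by linarith) (by linarith)
          (by linarith)
        rw [(hki β0 hβ0).1, (hki β0 hβ0).2, ← (hki β hβ).1, ← (hki β hβ).2, hz0] at a6
        linarith
    rwa [Finset.sum_const, nsmul_eq_mul, mul_one] at this
  -- the sum of the squares
  have hsum : ∀ (t : ℝ) (S : Finset Bx), (∀ β ∈ S, β ∈ K ∧ |t - β.2.1 * T β.1| ≤ 2 * T β.1) →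
      ∑ β ∈ S, (th0 / T β.1) ^ 2 ≤
        (L + 1) * 5 * (28 * CW * (2 * (1200 : ℕ) + 2) ^ 2 * Y / l ^ 2) := by
    intro t S hS
    refine fib S _ L T hT t _
      (fun β hβ => ⟨((hU β).1 ((hK β).1 (hS β hβ).1).1).1, (hS β hβ).2⟩) fun k i S' hS' hki => ?_
    rw [Finset.sum_congr rfl fun β hβ => by rw [(hki β hβ).1], Finset.sum_const, nsmul_eq_mul]
    have hTk := hT k
    rcases Nat.eq_zero_or_pos k with rfl | h0
    · have a1 : (S'.card : ℝ) ≤ N * N := by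
        have a2 : (S'.image fun β => β.2.2) ⊆ grid N := fun j hj => by
          obtain ⟨β, hβ, rfl⟩ := Finset.mem_image.1 hj
          exact hgrid β (hS β (hS' hβ)).1
        have a3 := Finset.card_le_card a2
        rw [← card_img S' hki, grid, Finset.card_product, Int.card_Ico] at a3
        simp only [sub_zero, Int.toNat_natCast] at a3
        exact_mod_cast a3
      have a2 : (th0 / T 0) ^ 2 = Y := by
        rw [hTd]
        field_simp
        rw [Real.sq_sqrt hY.le]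
      have a3 : (N : ℝ) * N * l ^ 2 ≤ 25 := by
        have : 0 ≤ (N : ℝ) * l := by positivity
        nlinarith
      rw [a2, le_div_iff₀ (by positivity)]
      have a4 : (S'.card : ℝ) * l ^ 2 ≤ 25 :=
        (mul_le_mul_of_nonneg_right a1 (by positivity)).trans a3
      have a5 : (25 : ℝ) ≤ 28 * CW * (2 * (1200 : ℕ) + 2) ^ 2 := by push_cast; nlinarith
      nlinarith
    · obtain ⟨k, rfl⟩ : ∃ k', k = k' + 1 := ⟨k - 1, by omega⟩
      have hwit : ∀ β : S', ∃ p : ℝ × ℂ, |p.1 - β.1.2.1 * T β.1.1| ≤ T β.1.1 ∧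
          pn (p.2 - z β.1 p.1) ≤ l ∧ ¬ Good (β.1.1 - 1) p.1 p.2 := fun β =>
        ((hK β.1).1 (hS β.1 (hS' β.2)).1).2.2.resolve_left (by rw [(hki β.1 β.2).1]; omega)
      choose p hp1 hp2 hp3 using hwit
      have key := hW u F l Y h S' (fun β => tr (p β).1 (p β).2) (i * T (k + 1)) (7 * T (k + 1))
        (th0 ^ 2 / (4 * T (k + 1))) ((2 * (1200 : ℕ) + 2) ^ 2) (by positivity) (by positivity)
        (by
          have e : 7 * T (k + 1) * (th0 ^ 2 / (4 * T (k + 1))) = 7 / 4 * th0 ^ 2 := by field_simp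
          rw [e]
          nlinarith)
        (fun β => trT _ _)
        (fun y => by
          rw [← Finset.card_image_of_injective _ Subtype.val_injective]
          refine countB hN (c := y) hNK (k := k + 1) (i := i) _ (fun β hβ => ?_) fun β hβ => ?_
          · obtain ⟨γ, -, rfl⟩ := Finset.mem_image.1 hβ
            exact hki _ γ.2
          · obtain ⟨γ, hγ, rfl⟩ := Finset.mem_image.1 hβ
            have a1 : pn (tr (p γ).1 (p γ).2 (i * T (k + 1)) - y) ≤ 4 * l := by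
              simpa only [Finset.mem_filter, Finset.mem_univ, true_and] using hγ
            have a0 := (hS γ.1 (hS' γ.2)).1
            have a2 := hkeep γ.1 a0 (tr (p γ).1 (p γ).2) (p γ).1 (2 * l) (3 * l) (trT _ _)
              ((hp1 γ).trans (by linarith [hT γ.1.1])) (by rw [tr0]; linarith [hp2 γ])
              (by linarith) (by linarith)
            rw [(hki _ γ.2).1, (hki _ γ.2).2, pn_comm] at a2
            have a3 := pn_tri (pt N γ.1.2.2) (tr (p γ).1 (p γ).2 (i * T (k + 1))) y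
            exact ⟨hgrid _ a0, by linarith⟩)
        (fun β => by
          have a1 := hp1 β
          have a3 := hp3 β
          rw [(hki _ β.2).1, (hki _ β.2).2, abs_le] at a1
          rw [(hki _ β.2).1, Nat.add_sub_cancel, hGood] at a3
          have a4 := not_le.1 fun hh => a3 ⟨tr (p β).1 (p β).2, trT _ _, tr0 _ _, hh⟩
          rw [hTs k] at a4
          have e : 2 * (th0 ^ 2 / (4 * T (k + 1))) = th0 ^ 2 / (2 * T (k + 1)) := by
            field_simp; norm_num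
          rw [e]
          exact a4.trans_le (int_mono hA h 501 (trT _ _) (by linarith [a1.1]) (by linarith)
            (by linarith [a1.2])))
      rw [Fintype.card_coe] at key
      exact final hTk hl key
  obtain ⟨M, e, hinj, heK, hsur⟩ := enum K
  have hlg : 0 ≤ lg l := by unfold lg; positivity
  refine ⟨M, fun i => (e i).2.1 * T (e i).1, fun i => T (e i).1, fun i => z (e i),
    fun i => ⟨hT _, hTle _, ((hU _).1 ((hK _).1 (heK i)).1).2.1⟩,
    fun i => ⟨by beta_reduce; rw [hzd]; exact trs _ _, hzT _⟩, fun t ht x => ?_,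
    fun i => ((hK _).1 (heK i)).2.1, fun t => ?_, fun t y => ?_⟩
  · obtain ⟨β, hβ, h1, h2⟩ := hcov t ht x
    obtain ⟨i, rfl⟩ := hsur β hβ
    exact ⟨i, h1, h2⟩
  · rw [← Finset.sum_image (g := e) (f := fun β : Bx => (th0 / T β.1) ^ 2)
      fun _ _ _ _ hh => hinj hh]
    refine (hsum t _ fun β hβ => ?_).trans ?_
    · obtain ⟨i, hi, rfl⟩ := Finset.mem_image.1 hβ
      exact ⟨heK i, (Finset.mem_filter.1 hi).2⟩
    · calc ((L : ℝ) + 1) * 5 * (28 * CW * (2 * (1200 : ℕ) + 2) ^ 2 * Y / l ^ 2)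
          ≤ 4 * lg l * 5 * (28 * CW * (2 * (1200 : ℕ) + 2) ^ 2 * Y / l ^ 2) := by gcongr
        _ = _ := by ring
  · rw [← Finset.card_image_of_injective _ hinj]
    refine (hmul t y _ fun β hβ => ?_).trans ?_
    · obtain ⟨i, hi, rfl⟩ := Finset.mem_image.1 hβ
      exact ⟨heK i, (Finset.mem_filter.1 hi).2⟩
    · calc ((L : ℝ) + 1) * 5 * (2 * (1200 : ℕ) + 2) ^ 2
          ≤ 4 * lg l * (140 * CW) * (2 * (1200 : ℕ) + 2) ^ 2 := by gcongr; linarith
        _ = _ := by ring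

end

end Pool.Agent.Lib.EUL
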