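import Pool.Agent.Lib.EUL.DIPa

set_option autoImplicit false

namespace Pool.Agent.Lib.EUL

open MeasureTheory Set Filter Topology
open scoped ContDiff Classical

namespace DIP

theorem local_eq {W X : ℂ → ℂ} {p : ℂ → ℝ} (hW : Differentiable ℝ W) (hX : Differentiable ℝ X)
    (hp : Differentiable ℝ p) (hdiv : ∀ y, (dz W y).re = 0) {a om rho : ℝ} {E A c z : ℂ}
    (hr : rho ≠ 0) (hE : E * A * rho = 1) (hA : (starRingEnd ℂ) A * rho = E)
    (heq : -(a : ℂ) * fderiv ℝ W (A * z) 1 + ((om * rho : ℝ) : ℂ) * (Complex.I * W (A * z)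
      - fderiv ℝ W (A * z) (Complex.I * (A * z))) + dz (fun w => W w ^ 2) (A * z)
      + grad p (A * z) = dz X (A * z)) :
    E * (om * Complex.I) * W (A * z)
      + E * fderiv ℝ W (A * z) (-(om * Complex.I) * (A * z) - A * (c + a * E))
      + dz (fun y => 2 * c * (E * W (A * y))) z + dz (fun y => (E * W (A * y)) ^ 2) z
      - dz (fun y => E ^ 2 * X (A * y)) z
      = grad (fun y => -p (A * y) - ((starRingEnd ℂ) c * (E * W (A * y))).re) z := by
  have hm : Differentiable ℝ fun y : ℂ => A * y := by fun_prop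
  have hW' : Differentiable ℝ fun y => (starRingEnd ℂ) c * E * W (A * y) :=
    (hW.comp hm).const_mul _
  have h1 := dz_sc (2 * c * E) A z (hW _)
  have h2 := dz_sc (f := fun w => W w ^ 2) (E ^ 2) A z ((hW _).pow 2)
  have h3 := dz_sc (E ^ 2) A z (hX _)
  have h4 := grad_neg_sub (p := fun y => p (A * y))
    (q := fun y => ((starRingEnd ℂ) c * E * W (A * y)).re) (y := z) (hp.comp hm z)
    (Complex.reCLM.differentiableAt.comp z (hW' z))
  rw [grad_sc A z (hp _), grad_re (hW' z), dz_sc _ A z (hW _), dzb_sc _ A z (hW _)] at h4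
  have h5 : (starRingEnd ℂ) (dz W (A * z)) = -dz W (A * z) := by
    apply Complex.ext <;> simp [hdiv]
  have h6 : (starRingEnd ℂ) E * (starRingEnd ℂ) A * rho = 1 := by
    simpa using congrArg (starRingEnd ℂ) hE
  simp only [mul_assoc, mul_pow] at h1 h2 h3 h4 ⊢
  rw [h1, h2, h3, h4, fderiv_eq]
  rw [fderiv_eq, fderiv_eq] at heq
  simp only [map_mul, map_sub, map_add, map_neg, map_one, Complex.conj_I, Complex.conj_ofReal,
    Complex.conj_conj, h5, Complex.ofReal_mul] at heq ⊢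
  have hr' : (rho : ℂ) ≠ 0 := by exact_mod_cast hr
  refine mul_left_cancel₀ hr' ?_
  generalize dz W (A * z) = α at *
  generalize dzb W (A * z) = β at *
  generalize (starRingEnd ℂ) A = A' at *
  generalize (starRingEnd ℂ) E = E' at *
  generalize (starRingEnd ℂ) c = c' at *
  generalize (starRingEnd ℂ) z = z' at *
  generalize dz (fun w => W w ^ 2) (A * z) = D at *
  generalize dz X (A * z) = D' at *
  generalize grad p (A * z) = G at *
  linear_combination E * heq + (c * α - a * E * α + E * D - E * D') * hE + G * hA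
    - (a * E * β + c * α) * h6

/-- the scale factor -/
noncomputable def sA (rho a : ℝ) : ℂ := ex (-a) / rho

theorem norm_sA {rho : ℝ} (hr : 0 < rho) (a : ℝ) : ‖sA rho a‖ = rho⁻¹ := by
  rw [sA, norm_div, norm_ex, Complex.norm_real, Real.norm_of_nonneg hr.le, one_div]

theorem sA_ne {rho : ℝ} (hr : 0 < rho) (a : ℝ) : sA rho a ≠ 0 :=
  norm_pos_iff.1 (by rw [norm_sA hr]; positivity)

theorem sA_mul {rho : ℝ} (hr : 0 < rho) (a : ℝ) : ex a * sA rho a * rho = 1 := by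
  have : (rho : ℂ) ≠ 0 := by exact_mod_cast hr.ne'
  rw [sA, mul_assoc, div_mul_cancel₀ _ this, ex_mul_neg]

theorem sA_conj {rho : ℝ} (hr : 0 < rho) (a : ℝ) : (starRingEnd ℂ) (sA rho a) * rho = ex a := by
  have : (rho : ℂ) ≠ 0 := by exact_mod_cast hr.ne'
  rw [sA, map_div₀, conj_ex, Complex.conj_ofReal, div_mul_cancel₀ _ this]

theorem contDiff_sA (rho : ℝ) : ContDiff ℝ ∞ (sA rho) :=
  (contDiff_ex.comp contDiff_neg).div_const _

theorem hasDerivAt_sA (rho : ℝ) {φ : ℝ → ℝ} {φ' t : ℝ} (h : HasDerivAt φ φ' t) :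
    HasDerivAt (fun s => sA rho (φ s)) (-(φ' * Complex.I) * sA rho (φ t)) t := by
  refine ((hasDerivAt_ex h.fun_neg).div_const (rho : ℂ)).congr_deriv ?_
  rw [sA]; push_cast; ring

theorem lt_sA {rho d k : ℝ} (hr : 0 < rho) (a : ℝ) {y : ℂ} (h : k * d < ‖y‖) :
    k * (d / rho) < ‖sA rho a * y‖ := by
  rw [norm_mul, norm_sA hr, ← mul_div_assoc, inv_mul_eq_div]
  exact div_lt_div_of_pos_right h hr

theorem max_sA {rho : ℝ} (hr : 0 < rho) (a : ℝ) (y : ℂ) :
    max 1 ‖sA rho a * y‖ = max rho ‖y‖ / rho := by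
  rw [norm_mul, norm_sA hr, ← max_div_div_right hr.le, div_self hr.ne', inv_mul_eq_div]

theorem int_sA {rho : ℝ} (hr : 0 < rho) (a : ℝ) {f : ℂ → ℂ} (hf : ContDiff ℝ ∞ f) (b : ℂ) (j : ℕ)
    {K K' : ℝ} (h : ∫ y, nD j f y ≤ K) (h' : ‖b‖ * rho⁻¹ ^ j * rho ^ 2 * K ≤ K') :
    ∫ y, nD j (fun x => b * f (sA rho a * x)) y ≤ K' := by
  rw [integral_nD_sc hf b (sA_ne hr a), norm_sA hr, inv_pow rho 2, inv_inv]
  exact (mul_le_mul_of_nonneg_left h (by positivity)).trans h'

theorem time_deriv {W1 W0 : ℂ → ℂ} (h1 : Differentiable ℝ W1) (h0 : Differentiable ℝ W0)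
    (rho : ℝ) {U φ : ℝ → ℝ} (hU : Differentiable ℝ U) (hφ : Differentiable ℝ φ)
    (hφ' : Differentiable ℝ (deriv φ)) {x : ℝ → ℂ} {x' : ℂ} {t : ℝ} (hx : HasDerivAt x x' t) :
    deriv (fun s => U s * (ex (φ s) * W1 (sA rho (φ s) * x s))
      + deriv φ s * (rho * ex (φ s) * W0 (sA rho (φ s) * x s))) t =
    deriv U t * (ex (φ t) * W1 (sA rho (φ t) * x t))
      + deriv (deriv φ) t * (rho * ex (φ t) * W0 (sA rho (φ t) * x t))
      + (ex (φ t) * (deriv φ t * Complex.I) * (U t * W1 (sA rho (φ t) * x t)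
          + ((deriv φ t * rho : ℝ) : ℂ) * W0 (sA rho (φ t) * x t))
        + ex (φ t) * fderiv ℝ (fun w => U t * W1 w + ((deriv φ t * rho : ℝ) : ℂ) * W0 w)
          (sA rho (φ t) * x t)
          (-(deriv φ t * Complex.I) * (sA rho (φ t) * x t) + sA rho (φ t) * x')) := by
  have a := (hasDerivAt_sA rho (hφ t).hasDerivAt).fun_mul hx
  have e := hasDerivAt_ex (hφ t).hasDerivAt
  have b1 := (h1 _).hasFDerivAt.comp_hasDerivAt t a
  have b0 := (h0 _).hasFDerivAt.comp_hasDerivAt t a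
  have k := ((hU t).hasDerivAt.ofReal_comp.fun_mul (e.fun_mul b1)).fun_add
    ((hφ' t).hasDerivAt.ofReal_comp.fun_mul ((e.const_mul (rho : ℂ)).fun_mul b0))
  have m := (((h1 (sA rho (φ t) * x t)).hasFDerivAt.const_mul (U t : ℂ)).fun_add
    ((h0 (sA rho (φ t) * x t)).hasFDerivAt.const_mul ((deriv φ t * rho : ℝ) : ℂ))).fderiv
  rw [m]
  refine k.deriv.trans ?_
  simp only [Function.comp_apply, add_apply, smul_apply, smul_eq_mul, mul_assoc]
  push_cast
  ring

theorem mv_space {f : ℝ → ℂ → ℂ} {r : ℝ} (hr : r ≤ 1 / 4) (hf : ∀ t y, r < ‖y‖ → f t y = 0)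
    {x : ℝ → ℂ} {t : ℝ} {y : ℂ} {m : ℤ × ℤ}
    (hm : ∀ᶠ z in 𝓝 (y - x t), ∀ n, n ≠ m → 1 / 4 < ‖z - lat n‖) :
    mv f x t =ᶠ[𝓝 y] fun w => f t (w - (x t + lat m)) := by
  have c : ContinuousAt (fun w : ℂ => w - x t) y := by fun_prop
  filter_upwards [c.eventually hm] with w hw
  rw [mv, per_eq hr (hf t) hw, sub_sub]

theorem dz_mv {f : ℝ → ℂ → ℂ} {r : ℝ} (hr : r ≤ 1 / 4) (hf : ∀ t y, r < ‖y‖ → f t y = 0)
    {x : ℝ → ℂ} {t : ℝ} {y : ℂ} {m : ℤ × ℤ}
    (hm : ∀ᶠ z in 𝓝 (y - x t), ∀ n, n ≠ m → 1 / 4 < ‖z - lat n‖) :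
    dz (mv f x t) y = dz (f t) (y - (x t + lat m)) :=
  dz_shift (g := f t) (mv_space hr hf hm)

theorem mv_time {f : ℝ → ℂ → ℂ} {r : ℝ} (hr : r ≤ 1 / 4) (hf : ∀ t y, r < ‖y‖ → f t y = 0)
    {x : ℝ → ℂ} (hx : Continuous x) {t : ℝ} {y : ℂ} {m : ℤ × ℤ}
    (hm : ∀ᶠ z in 𝓝 (y - x t), ∀ n, n ≠ m → 1 / 4 < ‖z - lat n‖) :
    dt (mv f x) t y = deriv (fun s => f s (y - (x s + lat m))) t := by
  have c : ContinuousAt (fun s => y - x s) t := by fun_prop
  refine Filter.EventuallyEq.deriv_eq ?_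
  filter_upwards [c.eventually hm] with s hs
  rw [mv, per_eq hr (hf s) hs, sub_sub]

theorem div_comb {W1 W0 : ℂ → ℂ} (h1 : Differentiable ℝ W1) (h0 : Differentiable ℝ W0)
    (d1 : ∀ y, (dz W1 y).re = 0) (d0 : ∀ y, (dz W0 y).re = 0) (a g : ℝ) (y : ℂ) :
    (dz (fun w => a * W1 w + g * W0 w) y).re = 0 := by
  have m := (((h1 y).hasFDerivAt.const_mul (a : ℂ)).fun_add
    ((h0 y).hasFDerivAt.const_mul (g : ℂ))).fderiv
  have : dz (fun w => a * W1 w + g * W0 w) y = a * dz W1 y + g * dz W0 y := by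
    unfold dz
    rw [m]
    simp only [add_apply, smul_apply, smul_eq_mul]
    ring
  rw [this]
  simp [d1, d0]

end DIP

open DIP in
theorem st_DIP (hP : St_PROF) : St_DIP := by
  obtain ⟨C, M0, hC, hM, hM', hP⟩ := hP
  have M0p : 0 < M0 := by by_contra h; nlinarith
  refine ⟨3 * C, M0, by linarith, by nlinarith, by linarith, ?_⟩
  intro rho d e1 L U φ hr hd hd' he1 he1' hL hU hφ hom
  have rd : rho ≤ d := by nlinarith
  have d0 : 0 < d := hr.trans_le rd
  obtain ⟨W1, W0, p, XA, XB, XC, I, B1, ⟨B2, B3, B4, B5⟩, B6⟩ :=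
    hP e1 (d / rho) he1 he1' (by rw [le_div_iff₀ hr]; nlinarith)
  have l1 : 1 ≤ lg (d / rho) := le_add_of_nonneg_right (abs_nonneg _)
  have l2 : lg (d / rho) ^ 2 ≤ L ^ 2 := pow_le_pow_left₀ (by linarith) hL 2
  have L0 : 0 < L := by linarith
  have hφ' : ContDiff ℝ ∞ (deriv φ) := (contDiff_infty_iff_deriv.1 hφ).2
  have sE : ContDiff ℝ ∞ fun q : ℝ × ℂ => ex (φ q.1) := contDiff_ex.comp (hφ.comp contDiff_fst)
  have sZ : ContDiff ℝ ∞ fun q : ℝ × ℂ => sA rho (φ q.1) * q.2 :=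
    ((contDiff_sA rho).comp (hφ.comp contDiff_fst)).mul contDiff_snd
  have sT : ContDiff ℝ ∞ fun q : ℝ × ℂ =>
      ((U q.1, deriv φ q.1 * rho, sA rho (φ q.1) * q.2) : ℝ × ℝ × ℂ) :=
    (hU.comp contDiff_fst).prodMk (((hφ'.comp contDiff_fst).mul contDiff_const).prodMk sZ)
  have s3 : ∀ {X : ℝ → ℝ → ℂ → ℂ}, Sm3 X → ∀ a g, ContDiff ℝ ∞ (X a g) := fun h a g =>
    h.comp (contDiff_const.prodMk (contDiff_const.prodMk contDiff_id))
  have nE : ∀ t, ‖ex (φ t) ^ 2‖ = 1 := fun t => by rw [norm_pow, norm_ex, one_pow]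
  have nR : ∀ t, ‖rho * ex (φ t)‖ = rho := fun t => by
    rw [norm_mul, norm_ex, mul_one, Complex.norm_real, Real.norm_of_nonneg hr.le]
  have z1 : ∀ t y, 2 * d < ‖y‖ → ex (φ t) * W1 (sA rho (φ t) * y) = 0 := fun t y h => by
    rw [(I.supW _ (lt_sA hr _ h)).1, mul_zero]
  have z0 : ∀ t y, 2 * d < ‖y‖ → rho * ex (φ t) * W0 (sA rho (φ t) * y) = 0 := fun t y h => by
    rw [(I.supW _ (lt_sA hr _ h)).2, mul_zero]
  have zA : ∀ t y, 4 * d < ‖y‖ →
      ex (φ t) ^ 2 * XA (U t) (deriv φ t * rho) (sA rho (φ t) * y) = 0 := fun t y h => by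
    rw [(I.supX _ _ _ (lt_sA hr _ h)).2.1, mul_zero]
  have zB : ∀ t y, 4 * d < ‖y‖ →
      ex (φ t) ^ 2 * XB (U t) (deriv φ t * rho) (sA rho (φ t) * y) = 0 := fun t y h => by
    rw [(I.supX _ _ _ (lt_sA hr _ h)).2.2.1, mul_zero]
  have zC : ∀ t y, 4 * d < ‖y‖ →
      ex (φ t) ^ 2 * XC (U t) (deriv φ t * rho) (sA rho (φ t) * y) = 0 := fun t y h => by
    rw [(I.supX _ _ _ (lt_sA hr _ h)).2.2.2, mul_zero]
  refine ⟨fun t y => ex (φ t) * W1 (sA rho (φ t) * y),
    fun t y => rho * ex (φ t) * W0 (sA rho (φ t) * y),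
    fun t y => ex (φ t) ^ 2 * XA (U t) (deriv φ t * rho) (sA rho (φ t) * y),
    fun t y => ex (φ t) ^ 2 * XB (U t) (deriv φ t * rho) (sA rho (φ t) * y),
    fun t y => ex (φ t) ^ 2 * XC (U t) (deriv φ t * rho) (sA rho (φ t) * y),
    ⟨sE.mul (I.s1.comp sZ), z1⟩, ⟨(contDiff_const.mul sE).mul (I.s0.comp sZ), z0⟩,
    ⟨(sE.pow 2).mul (I.sA.comp sT), zA⟩, ⟨(sE.pow 2).mul (I.sB.comp sT), zB⟩,
    ⟨(sE.pow 2).mul (I.sC.comp sT), zC⟩, fun t => ⟨?_, ?_, ?_, ?_, ?_, ?_⟩, fun t => ?_,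
    fun t h y => ?_, fun t j hj y => ?_, fun x c hx hc hxd => ?_⟩
  · rw [integral_const_mul, integral_sc W1 (sA_ne hr _), I.mean1]; simp
  · rw [integral_const_mul, integral_sc W0 (sA_ne hr _), I.mean0]; simp
  · refine int_sA hr _ I.s1 _ 0 B2 ?_
    rw [norm_ex]
    have : rho ^ 2 * (C * lg (d / rho) ^ 2) ≤ rho ^ 2 * (3 * C * L ^ 2) := by gcongr; linarith
    linarith
  · refine int_sA hr _ I.s1 _ 1 B3 ?_
    rw [norm_ex]
    have : rho * (C * lg (d / rho)) ≤ rho * (3 * C * L) := by gcongr; linarith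
    refine le_of_eq_of_le ?_ (this.trans_eq (by ring))
    field_simp
  · refine int_sA hr _ I.s0 _ 0 B4 ?_
    rw [nR]
    have : rho ^ 2 * d * C ≤ rho ^ 2 * d * (3 * C) := by gcongr; linarith
    refine le_of_eq_of_le ?_ (this.trans_eq (by ring))
    field_simp
  · refine int_sA hr _ I.s0 _ 1 B5 ?_
    rw [nR]
    have : rho ^ 2 * (C * lg (d / rho)) ≤ rho ^ 2 * (3 * C * L) := by gcongr; linarith
    refine le_of_eq_of_le ?_ (this.trans_eq (by ring))
    field_simp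
  · obtain ⟨a1, a2, a3, a4, a5, a6⟩ := B6 (U t) (deriv φ t * rho) (by
      rw [abs_mul, abs_of_pos hr, mul_assoc, mul_div_cancel₀ _ hr.ne']; exact hom t)
    have c3 : C ≤ 3 * C := by linarith
    refine ⟨int_sA hr _ (s3 I.sA _ _) _ 0 a1 ?_, int_sA hr _ (s3 I.sA _ _) _ 2 a2 ?_,
      int_sA hr _ (s3 I.sB _ _) _ 0 a3 ?_, int_sA hr _ (s3 I.sB _ _) _ 2 a4 ?_,
      int_sA hr _ (s3 I.sC _ _) _ 0 a5 ?_, int_sA hr _ (s3 I.sC _ _) _ 2 a6 ?_⟩ <;> rw [nE]
    · calc _ = C * U t ^ 2 * rho ^ 2 * e1 := by ring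
        _ ≤ _ := by gcongr
    · calc _ = C * U t ^ 2 := by field_simp
        _ ≤ _ := by gcongr
    · calc _ = C * U t ^ 2 * rho ^ 2 * lg (d / rho) ^ 2 * (rho / d) ^ 2 := by field_simp
        _ ≤ _ := by gcongr
    · calc _ = C * U t ^ 2 * lg (d / rho) ^ 2 * (rho / d) ^ 2 := by field_simp
        _ ≤ _ := by gcongr
    · calc _ = C * U t ^ 2 * rho ^ 2 * lg (d / rho) ^ 2 * (rho / d) := by field_simp
        _ ≤ _ := by gcongr
    · calc _ = C * U t ^ 2 * rho ^ 2 * lg (d / rho) ^ 2 * (rho / d) / d ^ 2 := by field_simp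
        _ ≤ _ := by gcongr
  · have h1 : deriv φ t = 0 := by
      have a := hom t
      rw [h, abs_zero] at a
      exact abs_nonpos_iff.1 (by by_contra b; nlinarith)
    simp only [h, h1, zero_mul, I.zero, mul_zero, and_self]
  · have c1 : ContDiff ℝ ∞ fun y => U t * ex (φ t) * W1 (sA rho (φ t) * y) :=
      contDiff_const.mul (I.s1.comp (contDiff_const.mul contDiff_id))
    have c0 : ContDiff ℝ ∞ fun y => deriv φ t * (rho * ex (φ t)) * W0 (sA rho (φ t) * y) :=
      contDiff_const.mul (I.s0.comp (contDiff_const.mul contDiff_id))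
    have a := nD_add c1 c0 j y
    have m0 : 0 < max rho ‖y‖ := lt_max_of_lt_left hr
    have a1 : nD j (fun y => U t * ex (φ t) * W1 (sA rho (φ t) * y)) y ≤
        C * L * |U t| * rho ^ 2 / max rho ‖y‖ ^ (2 + j) := by
      rw [nD_sc I.s1 _ (sA_ne hr _), norm_sA hr, norm_mul, norm_ex, mul_one, Complex.norm_real,
        Real.norm_eq_abs]
      refine (mul_le_mul_of_nonneg_left (B1 j hj _).1 (by positivity)).trans ?_
      rw [max_sA hr]
      calc _ = C * lg (d / rho) * |U t| * rho ^ 2 / max rho ‖y‖ ^ (2 + j) := by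
            rw [div_pow, inv_pow, pow_add rho]; field_simp
        _ ≤ _ := by gcongr
    have a0 : nD j (fun y => deriv φ t * (rho * ex (φ t)) * W0 (sA rho (φ t) * y)) y ≤
        2 * C * L * |U t| * rho ^ 2 / max rho ‖y‖ ^ (2 + j) := by
      by_cases hy : 2 * d < ‖y‖
      · rw [nD_zero (r := 2 * d) (fun w hw => by rw [mul_assoc, z0 t w hw, mul_zero]) j hy]
        positivity
      rw [nD_sc I.s0 _ (sA_ne hr _), norm_sA hr, norm_mul, nR, Complex.norm_real,
        Real.norm_eq_abs]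
      refine (mul_le_mul_of_nonneg_left (B1 j hj _).2 (by positivity)).trans ?_
      rw [max_sA hr]
      have b1 : max rho ‖y‖ ≤ 2 * d := max_le (by linarith) (not_lt.1 hy)
      have b2 : |deriv φ t| * max rho ‖y‖ ≤ 2 * L * |U t| := by
        have := mul_le_mul_of_nonneg_left b1 (abs_nonneg (deriv φ t))
        have := hom t
        have := mul_le_mul_of_nonneg_right (l1.trans hL) (abs_nonneg (U t))
        linarith
      calc _ = C * (|deriv φ t| * max rho ‖y‖) * rho ^ 2 / max rho ‖y‖ ^ (2 + j) := by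
            rw [div_pow, inv_pow, pow_add rho, pow_add, pow_add]; field_simp
        _ ≤ C * (2 * L * |U t|) * rho ^ 2 / max rho ‖y‖ ^ (2 + j) := by gcongr
        _ = _ := by ring
    simp only [mul_assoc] at a a0 a1 ⊢
    refine a.trans ((add_le_add a1 a0).trans_eq ?_)
    ring
  · have D1 := I.s1.differentiable (by simp)
    have D0 := I.s0.differentiable (by simp)
    have sW : ∀ a g : ℝ, ContDiff ℝ ∞ fun w => a * W1 w + g * W0 w := fun a g =>
      (contDiff_const.mul I.s1).add (contDiff_const.mul I.s0)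
    have hw : ∀ t, (fun y => U t * (ex (φ t) * W1 (sA rho (φ t) * y))
        + deriv φ t * (rho * ex (φ t) * W0 (sA rho (φ t) * y))) = fun y => ex (φ t) *
          (U t * W1 (sA rho (φ t) * y) + ((deriv φ t * rho : ℝ) : ℂ) * W0 (sA rho (φ t) * y)) :=
      fun t => funext fun y => by push_cast; ring
    have zw : ∀ t y, 2 * d < ‖y‖ → U t * (ex (φ t) * W1 (sA rho (φ t) * y))
        + deriv φ t * (rho * ex (φ t) * W0 (sA rho (φ t) * y)) = 0 := fun t y h => by
      rw [z1 t y h, z0 t y h]; simp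
    have zX : ∀ t y, 4 * d < ‖y‖ → U t ^ 2 * rho ^ 2 * M0 * ex (2 * φ t) * etas d y
        + ex (φ t) ^ 2 * XA (U t) (deriv φ t * rho) (sA rho (φ t) * y)
        + ex (φ t) ^ 2 * XB (U t) (deriv φ t * rho) (sA rho (φ t) * y)
        + ex (φ t) ^ 2 * XC (U t) (deriv φ t * rho) (sA rho (φ t) * y) = 0 := fun t y h => by
      rw [zA t y h, zB t y h, zC t y h, etas_zero d0 (by linarith)]; simp
    have r2 : 2 * d ≤ 1 / 4 := by linarith
    have r4 : 4 * d ≤ 1 / 4 := by linarith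
    refine ⟨fun t y => ?_, fun t => ?_⟩
    · obtain ⟨m, hm⟩ := exists_n (y - x t)
      have k := dz_sc (ex (φ t)) (sA rho (φ t)) (y - (x t + lat m))
        ((sW (U t) (deriv φ t * rho)).differentiable (by simp) _)
      have e : ex (φ t) * sA rho (φ t) = ((rho⁻¹ : ℝ) : ℂ) := by
        push_cast; exact eq_inv_of_mul_eq_one_left (sA_mul hr _)
      rw [dz_mv r2 zw hm, hw t, k, e, Complex.re_ofReal_mul, div_comb D1 D0 I.div1 I.div0,
        mul_zero]
    · have sm : ContDiff ℝ ∞ fun y : ℂ => sA rho (φ t) * y := contDiff_const.mul contDiff_id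
      refine isG_per (P := fun y => -p (U t) (deriv φ t * rho) (sA rho (φ t) * y)
        - ((starRingEnd ℂ) (c t) * (ex (φ t) * (U t * W1 (sA rho (φ t) * y)
          + ((deriv φ t * rho : ℝ) : ℂ) * W0 (sA rho (φ t) * y)))).re)
        (((I.sp _ _).comp sm).neg.sub (Complex.reCLM.contDiff.comp
          (contDiff_const.mul (contDiff_const.mul ((sW _ _).comp sm))))) r4 (fun y h => ?_) (x t)
        fun y m hm => ?_
      · rw [(I.supX _ _ _ (lt_sA hr _ h)).1, ← congrFun (hw t) y, zw t y (by linarith)]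
        simp
      have sX : ContDiff ℝ ∞ fun w => (U t : ℂ) ^ 2 * M0 * etas (d / rho) w
          + XA (U t) (deriv φ t * rho) w + XB (U t) (deriv φ t * rho) w
          + XC (U t) (deriv φ t * rho) w :=
        (((contDiff_const.mul (contDiff_etas _)).add (s3 I.sA _ _)).add (s3 I.sB _ _)).add
          (s3 I.sC _ _)
      have k := local_eq (c := c t) ((sW _ _).differentiable (by simp))
        (sX.differentiable (by simp)) ((I.sp _ _).differentiable (by simp))
        (div_comb D1 D0 I.div1 I.div0 _ _) hr.ne' (sA_mul hr (φ t)) (sA_conj hr (φ t))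
        (I.eq (U t) (deriv φ t * rho) (sA rho (φ t) * (y - (x t + lat m))))
      have hX : (fun y => U t ^ 2 * rho ^ 2 * M0 * ex (2 * φ t) * etas d y
          + ex (φ t) ^ 2 * XA (U t) (deriv φ t * rho) (sA rho (φ t) * y)
          + ex (φ t) ^ 2 * XB (U t) (deriv φ t * rho) (sA rho (φ t) * y)
          + ex (φ t) ^ 2 * XC (U t) (deriv φ t * rho) (sA rho (φ t) * y)) = fun y =>
          ex (φ t) ^ 2 * ((U t : ℂ) ^ 2 * M0 * etas (d / rho) (sA rho (φ t) * y)
            + XA (U t) (deriv φ t * rho) (sA rho (φ t) * y)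
            + XB (U t) (deriv φ t * rho) (sA rho (φ t) * y)
            + XC (U t) (deriv φ t * rho) (sA rho (φ t) * y)) := funext fun y => by
        rw [etas_sc d0 hr (norm_sA hr _), ex_two]; ring
      have v := mv_space r2 zw hm
      have e1 := dz_shift (g := fun y => 2 * c t * (ex (φ t) * (U t * W1 (sA rho (φ t) * y)
        + ((deriv φ t * rho : ℝ) : ℂ) * W0 (sA rho (φ t) * y))))
        (v.mono fun w h => (congrArg (fun u => 2 * c t * u) (h.trans (congrFun (hw t) _))))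
      have e2 := dz_shift (g := fun y => (ex (φ t) * (U t * W1 (sA rho (φ t) * y)
        + ((deriv φ t * rho : ℝ) : ℂ) * W0 (sA rho (φ t) * y))) ^ 2)
        (v.mono fun w h => (congrArg (fun u => u ^ 2) (h.trans (congrFun (hw t) _))))
      have e3 := dz_mv r4 zX hm
      have e4 := (mv_space r2 z1 hm).self_of_nhds
      have e5 := (mv_space r2 z0 hm).self_of_nhds
      have e6 := mv_time r2 zw hx.continuous hm
      have e7 := time_deriv D1 D0 rho (hU.differentiable (by simp)) (hφ.differentiable (by simp))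
        (hφ'.differentiable (by simp)) (((hxd t).add_const (lat m)).const_sub y)
      rw [hX] at e3
      rw [mul_neg, ← sub_eq_add_neg] at e7
      beta_reduce at e4 e5 ⊢
      rw [e1, e2, e3, e4, e5, e6, e7, ← k]
      ring

end Pool.Agent.Lib.EUL
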