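import Pool.Agent.Lib.EUL.B_HS

set_option autoImplicit false

namespace Pool.Agent.Lib.EUL

open MeasureTheory Set Filter Topology
open scoped ContDiff Classical

noncomputable section

namespace EN

open MP_fea353_an HS

/-- the square norm on the cell -/
def nrm (f : ℂ → ℂ) : ℝ := √(IQ fun x => ‖f x‖ ^ 2)

theorem nrm_eq {f : ℂ → ℂ} (hf : MemLp f 2 (volume.restrict cell)) : nrm f = ‖hf.toLp f‖ := by
  rw [Lp.norm_toLp, hf.eLpNorm_eq_integral_rpow_norm two_ne_zero ENNReal.ofNat_ne_top]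
  have h0 : 0 ≤ ∫ a in cell, ‖f a‖ ^ 2 := integral_nonneg fun _ => sq_nonneg _
  simp only [ENNReal.toReal_ofNat, Real.rpow_ofNat]
  rw [ENNReal.toReal_ofReal (Real.rpow_nonneg h0 _)]
  unfold nrm IQ
  rw [Real.sqrt_eq_rpow, one_div]

theorem nrm_sub_le {f g : ℂ → ℂ} (hf : MemLp f 2 (volume.restrict cell))
    (hg : MemLp g 2 (volume.restrict cell)) : nrm g ≤ nrm f + nrm (fun x => f x - g x) := by
  have h3 : MemLp (fun x => f x - g x) 2 (volume.restrict cell) := hf.sub hg
  rw [nrm_eq hf, nrm_eq hg, nrm_eq h3]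
  have h4 : h3.toLp (fun x => f x - g x) = hf.toLp f - hg.toLp g := MemLp.toLp_sub hf hg
  rw [h4]
  have := norm_sub_le (hf.toLp f) (hf.toLp f - hg.toLp g)
  rwa [sub_sub_cancel] at this

theorem energy_eq (hPR : St_PR) {f : ℂ → ℂ} (hf : MemLp f 2 (volume.restrict cell)) :
    energy (liftU f) = 1 / 2 * IQ fun x => ‖f x‖ ^ 2 := by
  have h4 : Integrable (fun x => ‖f x‖ ^ 2) (volume.restrict cell) :=
    (memLp_two_iff_integrable_sq_norm hf.1).1 hf
  have h5 : ∫ x, ‖f (pr x)‖ ^ 2 ∂mu = IQ fun x => ‖f x‖ ^ 2 := by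
    unfold IQ
    rw [← hPR.1.map_eq, integral_map hPR.1.measurable.aemeasurable]
    rw [hPR.1.map_eq]
    exact h4.1
  unfold energy
  rw [← h5]
  refine congrArg (fun r => 1 / 2 * r) (integral_congr_ae (Eventually.of_forall fun x => ?_))
  show ∑ i, liftU f x i ^ 2 = ‖f (pr x)‖ ^ 2
  rw [Fin.sum_univ_three, Complex.sq_norm, Complex.normSq_apply]
  simp [liftU]
  ring

end EN

open EN HS MP_fea353_an in
theorem st_EN (hPR : St_PR) : St_EN := by
  intro v q S A rho u H hu
  have hsm : ∀ m t, ContDiff ℝ ∞ (v m t) := fun m t => sm_slice (H.er m).1.1 t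
  have hL : ∀ m t, MemLp (v m t) 2 (volume.restrict cell) := fun m t =>
    memLp_cont hPR (hsm m t).continuous
  constructor
  · intro t ht
    rw [energy_eq hPR (hu t).1]
    have h0 : (fun N => IQ fun x => ‖u t x - v N t x‖ ^ 2) = fun _ => IQ fun x => ‖u t x‖ ^ 2 := by
      funext N
      refine congrArg IQ (funext fun x => ?_)
      rw [H.ts N t (fun h => absurd h.1 (not_le.2 ht)) x, sub_zero]
    have h1 := (hu t).2
    rw [h0] at h1
    rw [tendsto_nhds_unique tendsto_const_nhds h1, mul_zero]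
  · obtain ⟨c, hc, hbig⟩ := H.big
    have hsum : Summable A := by
      refine Summable.of_nonneg_of_le H.A0 (fun m => ?_) H.sum
      have : 1 ≤ rho m ^ (-(11 / 20 : ℝ)) :=
        Real.one_le_rpow_of_pos_of_le_one_of_nonpos (H.rpos m) (H.r1 m) (by norm_num)
      have h2 := H.A0 m
      nlinarith
    have ht0 : 0 ≤ ∑' m, A m := tsum_nonneg H.A0
    refine ⟨1 / 2 * (c - ∑' m, A m) ^ 2, by have := sub_pos.2 hc; positivity, fun t ht => ?_⟩
    have hN : ∀ N, c - ∑ m ∈ Finset.range N, A m ≤ nrm (v N t) := by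
      intro N
      induction N with
      | zero =>
        rw [Finset.sum_range_zero, sub_zero]
        exact Real.le_sqrt_of_sq_le (hbig t ht)
      | succ N ih =>
        have h1 := nrm_sub_le (hL (N + 1) t) (hL N t)
        have h2 : nrm (fun x => v (N + 1) t x - v N t x) ≤ A N :=
          Real.sqrt_le_iff.2 ⟨H.A0 N, (H.inc N t).1⟩
        rw [Finset.sum_range_succ]
        linarith
    have hN2 : ∀ N, c - ∑' m, A m ≤ nrm (u t) + nrm (fun x => u t x - v N t x) := by
      intro N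
      have h1 := nrm_sub_le (hu t).1 (hL N t)
      have h2 := hsum.sum_le_tsum (Finset.range N) (fun m _ => H.A0 m)
      have h3 := hN N
      linarith
    have hlim : Tendsto (fun N => nrm (u t) + nrm (fun x => u t x - v N t x)) atTop
        (𝓝 (nrm (u t) + 0)) := by
      refine tendsto_const_nhds.add ?_
      have := (hu t).2.sqrt
      rw [Real.sqrt_zero] at this
      exact this
    have h4 : c - ∑' m, A m ≤ nrm (u t) := by
      have := ge_of_tendsto' hlim hN2
      rwa [add_zero] at this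
    rw [energy_eq hPR (hu t).1]
    have h5 : nrm (u t) ^ 2 = IQ fun x => ‖u t x‖ ^ 2 :=
      Real.sq_sqrt (integral_nonneg fun _ => sq_nonneg _)
    rw [← h5]
    have h6 : (c - ∑' m, A m) ^ 2 ≤ nrm (u t) ^ 2 := pow_le_pow_left₀ (sub_pos.2 hc).le h4 2
    linarith

end

end Pool.Agent.Lib.EUL
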