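import Pool.Agent.Lib.EUL.Blue

/-! Comparison of trajectories. -/

namespace Pool.Agent.Lib.EUL

open MeasureTheory Set Filter Topology
open scoped ContDiff Classical

namespace GR

theorem int_mono {g : ℝ → ℝ} {a b c d : ℝ} (hg : Continuous g) (g0 : ∀ t ∈ Icc a b, 0 ≤ g t)
    (h1 : a ≤ c) (h2 : c ≤ d) (h3 : d ≤ b) : ∫ t in c..d, g t ≤ ∫ t in a..b, g t :=
  intervalIntegral.integral_mono_interval h1 h2 h3
    ((ae_restrict_iff' measurableSet_Ioc).2 (Eventually.of_forall fun t ht => g0 t ⟨ht.1.le, ht.2⟩))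
    (hg.intervalIntegrable _ _)

theorem fwd {e e' : ℝ → ℂ} {g : ℝ → ℝ} {a b r0 r : ℝ} (he : ∀ t, HasDerivAt e (e' t) t)
    (hg : Continuous g) (g0 : ∀ t ∈ Icc a b, 0 ≤ g t) (h0 : ‖e a‖ ≤ r0)
    (hb : ∀ t ∈ Icc a b, ‖e t‖ ≤ r → ‖e' t‖ ≤ g t) (hr : r0 + ∫ t in a..b, g t < r) :
    ∀ t ∈ Icc a b, ‖e t‖ ≤ r0 + ∫ t in a..b, g t := by
  intro t ht
  refine le_of_forall_gt_imp_ge_of_dense fun c hc => ?_
  obtain ⟨ε, e0, e1⟩ : ∃ ε : ℝ, 0 < ε ∧ r0 + (∫ t in a..b, g t) + ε * (b - a) ≤ min c r := by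
    have h1 : 0 < min c r - (r0 + ∫ t in a..b, g t) := sub_pos.2 (lt_min hc hr)
    have h2 : 0 < b - a + 1 := by linarith [ht.1, ht.2]
    refine ⟨(min c r - (r0 + ∫ t in a..b, g t)) / (b - a + 1), div_pos h1 h2, ?_⟩
    rw [← le_sub_iff_add_le', div_mul_eq_mul_div, div_le_iff₀ h2]
    nlinarith
  have hB : ∀ x, HasDerivAt (fun x => r0 + (∫ t in a..x, g t) + ε * (x - a)) (g x + ε * 1) x :=
    fun x => ((hg.integral_hasStrictDerivAt a x).hasDerivAt.const_add r0).add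
      (((hasDerivAt_id x).sub_const a).const_mul ε)
  have hle : ∀ x ∈ Icc a b, r0 + (∫ t in a..x, g t) + ε * (x - a) ≤ min c r := fun x hx => by
    have := int_mono hg g0 le_rfl hx.1 hx.2
    nlinarith [hx.2]
  refine le_trans (image_norm_le_of_norm_deriv_right_lt_deriv_boundary (f' := e')
    (fun x _ => (he x).continuousAt.continuousWithinAt) (fun x _ => (he x).hasDerivWithinAt)
    (by simpa using h0) hB (fun x hx h => ?_) ht) ((hle t ht).trans (min_le_left _ _))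
  have hx' := Ico_subset_Icc_self hx
  have := hb x hx' (h.le.trans ((hle x hx').trans (min_le_right _ _)))
  linarith

/-- two-sided form -/
theorem two {e e' : ℝ → ℂ} {g : ℝ → ℝ} {a b s r0 r : ℝ} (he : ∀ t, HasDerivAt e (e' t) t)
    (hg : Continuous g) (g0 : ∀ t ∈ Icc a b, 0 ≤ g t) (hs : s ∈ Icc a b) (h0 : ‖e s‖ ≤ r0)
    (hb : ∀ t ∈ Icc a b, ‖e t‖ ≤ r → ‖e' t‖ ≤ g t) (hr : r0 + ∫ t in a..b, g t < r) :
    ∀ t ∈ Icc a b, ‖e t‖ ≤ r0 + ∫ t in a..b, g t := by
  intro t ht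
  rcases le_total s t with h | h
  · have h1 := int_mono hg g0 hs.1 hs.2 le_rfl
    have := fwd (a := s) (b := b) he hg (fun t ht => g0 t ⟨hs.1.trans ht.1, ht.2⟩) h0
      (fun t ht => hb t ⟨hs.1.trans ht.1, ht.2⟩) (by linarith) t ⟨h, ht.2⟩
    linarith
  · have h1 := int_mono hg g0 le_rfl hs.1 hs.2
    have h2 : ∫ t in (-s)..(-a), g (-t) = ∫ t in a..s, g t := by simp
    have hm : ∀ t ∈ Icc (-s) (-a), -t ∈ Icc a b := fun t ht =>
      ⟨by linarith [ht.2], by linarith [ht.1, hs.2]⟩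
    have := fwd (e := fun t => e (-t)) (e' := fun t => -e' (-t)) (g := fun t => g (-t))
      (a := -s) (b := -a) (r0 := r0) (r := r)
      (fun t => ((he (-t)).scomp t (hasDerivAt_neg t)).congr_deriv (neg_one_smul ℝ _)) (hg.comp continuous_neg)
      (fun t ht => g0 _ (hm t ht)) (by simpa using h0)
      (fun t ht h => by simpa using hb _ (hm t ht) h) (by linarith) (-t)
      ⟨by linarith, by linarith [ht.1]⟩
    simp only [neg_neg] at this
    linarith

end GR

theorem st_GR : St_GR := by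
  intro u z x p p' G a b s r0 r1 r hu hG _ hz hp hx hs hr h1 h0 hg hlt
  have r1n : 0 ≤ r1 := (norm_nonneg _).trans (h1 s hs)
  have g0 : ∀ t ∈ Icc a b, 0 ≤ G t := fun t ht =>
    (norm_nonneg _).trans (hg t ht (z t) (by simp; positivity))
  rw [← intervalIntegral.integral_const_mul] at hlt ⊢
  refine GR.two (e := fun t => x t - z t - p t) (e' := fun t => u t (x t) - u t (z t)) (r := r)
    (fun t => (((hx t).sub (hz t)).sub (hp t)).congr_deriv (by ring)) (continuous_const.mul hG)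
    (fun t ht => mul_nonneg (by positivity) (g0 t ht)) hs h0 (fun t ht h => ?_) hlt
  have hd : Differentiable ℝ (u t) :=
    (hu.comp (contDiff_const.prodMk contDiff_id)).differentiable (by simp)
  have h2 : ‖x t - z t‖ ≤ r1 + r := by
    have := norm_add_le (x t - z t - p t) (p t)
    rw [sub_add_cancel] at this
    linarith [h1 t ht]
  have := (convex_closedBall (z t) (r1 + r)).norm_image_sub_le_of_norm_fderiv_le (𝕜 := ℝ) (C := G t)
    (fun y _ => hd y) (fun y hy => by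
      have := hg t ht y (mem_closedBall_iff_norm.1 hy)
      rwa [nD, norm_iteratedFDeriv_one] at this)
    (Metric.mem_closedBall_self (by positivity)) (mem_closedBall_iff_norm.2 h2)
  nlinarith [g0 t ht]

end Pool.Agent.Lib.EUL
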