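import Pool.Agent.Lib.EUL.Blue

/-! Block IBP: integrals of derivatives vanish on the cell and on the plane. -/

namespace Pool.Agent.Lib.EUL

open MeasureTheory Set Filter Topology
open scoped ContDiff Classical

namespace IBP

lemma cell_eq (g : ℂ → ℂ) : ∫ x in cell, g x =
    ∫ p in Ioc (-1 / 2 : ℝ) (1 / 2) ×ˢ Ioc (-1 / 2 : ℝ) (1 / 2), g (p.1 + p.2 * Complex.I) := by
  have h := (Complex.volume_preserving_equiv_real_prod).setIntegral_preimage_emb
    Complex.measurableEquivRealProd.measurableEmbedding (fun p : ℝ × ℝ => g (p.1 + p.2 * Complex.I))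
    (Ioc (-1 / 2 : ℝ) (1 / 2) ×ˢ Ioc (-1 / 2 : ℝ) (1 / 2))
  rw [← h]
  simp only [Complex.measurableEquivRealProd_apply, Complex.re_add_im]
  rfl

lemma int_sq {g : ℂ → ℂ} (hg : Continuous g) :
    Integrable (fun p : ℝ × ℝ => g (p.1 + p.2 * Complex.I))
      ((volume.restrict (Ioc (-1 / 2 : ℝ) (1 / 2))).prod (volume.restrict (Ioc (-1 / 2 : ℝ) (1 / 2)))) := by
  rw [Measure.prod_restrict]
  have hc : Continuous fun p : ℝ × ℝ => g (p.1 + p.2 * Complex.I) := by fun_prop
  exact (hc.continuousOn.integrableOn_compact (isCompact_Icc.prod isCompact_Icc)).mono_set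
    (prod_mono Ioc_subset_Icc_self Ioc_subset_Icc_self)

lemma int_cell {g : ℂ → ℂ} (hg : Continuous g) : IntegrableOn g cell := by
  refine (hg.continuousOn.integrableOn_compact (isCompact_closedBall (0 : ℂ) 1)).mono_set fun z hz => ?_
  obtain ⟨⟨h1, h2⟩, h3, h4⟩ := hz
  rw [mem_closedBall_zero_iff]
  refine (Complex.norm_le_abs_re_add_abs_im z).trans ?_
  have a1 : |z.re| ≤ 1 / 2 := abs_le.2 ⟨by linarith, h2⟩
  have a2 : |z.im| ≤ 1 / 2 := abs_le.2 ⟨by linarith, h4⟩
  linarith

lemma line {F : ℂ → ℂ} (hF : ContDiff ℝ 1 F) (a v : ℂ) (h : F (a + (1 / 2 : ℝ) * v) = F (a + (-1 / 2 : ℝ) * v)) :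
    ∫ s in Ioc (-1 / 2 : ℝ) (1 / 2), fderiv ℝ F (a + s * v) v = 0 := by
  have hd : ∀ s : ℝ, HasDerivAt (fun s : ℝ => F (a + s * v)) (fderiv ℝ F (a + s * v) v) s := fun s => by
    have h1 : HasDerivAt (fun s : ℝ => a + (s : ℂ) * v) v s := by
      simpa using ((hasDerivAt_id s).ofReal_comp.mul_const v).const_add a
    exact ((hF.differentiable one_ne_zero _).hasFDerivAt).comp_hasDerivAt s h1
  have hc : Continuous fun s : ℝ => fderiv ℝ F (a + s * v) v :=
    ((hF.continuous_fderiv one_ne_zero).comp (by fun_prop)).clm_apply continuous_const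
  rw [← intervalIntegral.integral_of_le (by norm_num),
    intervalIntegral.integral_eq_sub_of_hasDerivAt (fun s _ => hd s) (hc.intervalIntegrable _ _), h, sub_self]

lemma cont_dir {F : ℂ → ℂ} (hF : ContDiff ℝ 1 F) (v : ℂ) : Continuous fun x => fderiv ℝ F x v :=
  (hF.continuous_fderiv one_ne_zero).clm_apply continuous_const

lemma cell_one {F : ℂ → ℂ} (hF : ContDiff ℝ 1 F) (hp : Peri F) : ∫ x in cell, fderiv ℝ F x 1 = 0 := by
  rw [cell_eq, Measure.volume_eq_prod, ← Measure.prod_restrict, integral_prod_symm _ (int_sq (cont_dir hF 1))]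
  have : ∀ y : ℝ, ∫ x in Ioc (-1 / 2 : ℝ) (1 / 2), fderiv ℝ F ((x : ℂ) + y * Complex.I) 1 = 0 := fun y => by
    have := line hF (y * Complex.I) 1 (by
      rw [← hp (1, 0) (y * Complex.I + (-1 / 2 : ℝ) * 1)]
      congr 1
      simp only [lat]
      push_cast
      ring)
    simpa only [mul_one, add_comm] using this
  simp only [this, integral_zero]

lemma cell_I {F : ℂ → ℂ} (hF : ContDiff ℝ 1 F) (hp : Peri F) : ∫ x in cell, fderiv ℝ F x Complex.I = 0 := by
  rw [cell_eq, Measure.volume_eq_prod, ← Measure.prod_restrict, integral_prod _ (int_sq (cont_dir hF Complex.I))]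
  have : ∀ x : ℝ, ∫ y in Ioc (-1 / 2 : ℝ) (1 / 2), fderiv ℝ F ((x : ℂ) + y * Complex.I) Complex.I = 0 := fun x =>
    line hF x Complex.I (by
      rw [← hp (0, 1) (x + (-1 / 2 : ℝ) * Complex.I)]
      congr 1
      simp only [lat]
      push_cast
      ring)
  simp only [this, integral_zero]

lemma int_dir {F : ℂ → ℂ} (hF : ContDiff ℝ 1 F) (hs : HasCompactSupport F) (v : ℂ) :
    Integrable fun x => fderiv ℝ F x v :=
  (cont_dir hF v).integrable_of_hasCompactSupport (hs.fderiv_apply ℝ v)

lemma plane {F : ℂ → ℂ} (hF : ContDiff ℝ 1 F) (hs : HasCompactSupport F) (v : ℂ) : ∫ x, fderiv ℝ F x v = 0 := by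
  have h := integral_mul_fderiv_eq_neg_fderiv_mul_of_integrable (μ := volume) (f := fun _ : ℂ => (1 : ℂ)) (g := F)
    (v := v) (by simp) (by simpa using int_dir hF hs v)
    (by simpa using hF.continuous.integrable_of_hasCompactSupport hs) (fun _ _ => differentiableAt_const _)
    (fun x _ => hF.differentiable one_ne_zero x)
  simpa using h

end IBP

open IBP

theorem st_IBP : St_IBP := by
  refine ⟨fun F hF hp => ?_, fun F hF hs => ?_⟩
  · have i1 := int_cell (cont_dir hF 1)
    have i2 := (int_cell (cont_dir hF Complex.I)).const_mul Complex.I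
    constructor
    · simp only [dz]
      rw [integral_div, integral_sub i1 i2, integral_const_mul, cell_one hF hp, cell_I hF hp]
      simp
    · simp only [dzb]
      rw [integral_div, integral_add i1 i2, integral_const_mul, cell_one hF hp, cell_I hF hp]
      simp
  · have i1 := int_dir hF hs 1
    have i2 := (int_dir hF hs Complex.I).const_mul Complex.I
    constructor
    · simp only [dz]
      rw [integral_div, integral_sub i1 i2, integral_const_mul, plane hF hs, plane hF hs]
      simp
    · simp only [dzb]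
      rw [integral_div, integral_add i1 i2, integral_const_mul, plane hF hs, plane hF hs]
      simp

end Pool.Agent.Lib.EUL
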