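import Pool.Agent.Lib.EUL.Blue

set_option autoImplicit false

namespace Pool.Agent.Lib.EUL

open MeasureTheory Set Filter Topology
open scoped ContDiff Classical

namespace MAJ

theorem pn_iso (Φ : ℂ → ℂ) (h : Isometry Φ) (e : Φ '' range lat = range lat) (z : ℂ) :
    pn (Φ z) = pn z := by
  unfold pn
  rw [← Metric.infDist_image h (x := z) (t := range lat), e]

theorem pn_add_lat (z : ℂ) (n : ℤ × ℤ) : pn (z + lat n) = pn z := by
  refine pn_iso (fun w => w + lat n) (isometry_add_right _) ?_ z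
  ext w
  constructor
  · rintro ⟨_, ⟨m, rfl⟩, rfl⟩
    exact ⟨m + n, by simp [lat]; ring⟩
  · rintro ⟨m, rfl⟩
    exact ⟨lat (m - n), ⟨_, rfl⟩, by simp [lat]; ring⟩

theorem pn_neg (z : ℂ) : pn (-z) = pn z := by
  refine pn_iso (fun w => -w) isometry_neg ?_ z
  ext w
  constructor
  · rintro ⟨_, ⟨m, rfl⟩, rfl⟩
    exact ⟨-m, by simp [lat]; ring⟩
  · rintro ⟨m, rfl⟩
    exact ⟨lat (-m), ⟨_, rfl⟩, by simp [lat]; ring⟩

theorem pn_le (a b : ℂ) : pn a ≤ pn b + ‖a - b‖ := by
  have := Metric.infDist_le_infDist_add_dist (x := a) (y := b) (s := range lat)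
  rwa [dist_eq_norm] at this

theorem continuous_pn : Continuous pn := Metric.continuous_infDist_pt _

theorem tau_nonneg {r : ℝ} (_hr : 0 < r) (s : ℝ) : 0 ≤ tau 2 r s := sq_nonneg _

theorem tau_shift {r s s' : ℝ} (hr : 0 < r) (h : s ≤ s' + r) : tau 2 r s' ≤ 4 * tau 2 r s := by
  have h1 : 0 < max r s := lt_max_of_lt_left hr
  have h2 : 0 < max r s' := lt_max_of_lt_left hr
  have h3 : max r s ≤ 2 * max r s' := by
    have a := le_max_left r s'
    have b := le_max_right r s'
    exact max_le (by linarith) (by linarith)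
  have h4 : r / max r s' ≤ 2 * (r / max r s) := by
    rw [← mul_div_assoc, div_le_div_iff₀ h2 h1]
    nlinarith
  have h5 : 0 ≤ r / max r s' := by positivity
  unfold tau
  nlinarith

theorem continuous_tau {r : ℝ} (hr : 0 < r) : Continuous (tau 2 r) := by
  unfold tau
  exact (continuous_const.div (continuous_const.max continuous_id)
    fun s => (lt_max_of_lt_left hr).ne').pow 2

theorem integrableOn_cell {f : ℂ → ℝ} (hf : Continuous f) : IntegrableOn f cell := by
  refine (hf.continuousOn.integrableOn_compact (isCompact_closedBall (0 : ℂ) 1)).mono_set ?_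
  intro z hz
  obtain ⟨⟨a, b⟩, c, d⟩ := hz
  rw [mem_closedBall_zero_iff]
  refine (Complex.norm_le_abs_re_add_abs_im z).trans ?_
  have e : |z.re| ≤ 1 / 2 := abs_le.2 ⟨by linarith, b⟩
  have e' : |z.im| ≤ 1 / 2 := abs_le.2 ⟨by linarith, d⟩
  linarith

theorem lg_pos (r : ℝ) : 0 < lg r := by unfold lg; positivity

theorem sum_tau (hP : St_PTS) {C : ℝ}
    (hE : ∀ (r : ℝ) (p : ℂ), 0 < r → r ≤ 1 →
      IQ (fun x => tau 2 r (pn (x - p))) ≤ C * r ^ 2 * lg r)
    {ι : Type} [Fintype ι] (P : ι → Prop) (p : ι → ℂ) {r M : ℝ} (hr : 0 < r) (hr' : r ≤ 1 / 4)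
    (hM : Mult P p r M) (x : ℂ) (s : Finset ι) (hs : ∀ i, i ∈ s ↔ P i) :
    ∑ i ∈ s, tau 2 r (pn (x - p i)) ≤ 4 * C * M * lg r := by
  obtain rfl : s = Finset.univ.filter P := by ext i; simp [hs]
  have M0 : 0 ≤ M := (Nat.cast_nonneg _).trans (hM 0)
  have h := hP ι P p r M (fun i => tau 2 r (pn (x - p i))) (fun w => 4 * tau 2 r (pn (w - x)))
    hr hr' hM
    (continuous_const.mul ((continuous_tau hr).comp (continuous_pn.comp (by fun_prop))))
    (fun n z => by
      beta_reduce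
      rw [show z + lat n - x = z - x + lat n by ring, pn_add_lat])
    (fun w => mul_nonneg (by norm_num) (tau_nonneg hr _)) (fun i _ w hw => by
      refine tau_shift hr ?_
      have a := pn_le (w - x) (-(x - p i))
      rw [pn_neg, show w - x - -(x - p i) = w - p i by ring] at a
      linarith)
  have h2 : IQ (fun w => 4 * tau 2 r (pn (w - x))) ≤ 4 * (C * r ^ 2 * lg r) := by
    have := hE r x hr (by linarith)
    unfold IQ at this ⊢
    rw [integral_const_mul]
    linarith
  have h3 := h.trans (mul_le_mul_of_nonneg_left h2 M0)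
  refine le_of_mul_le_mul_left (h3.trans_eq ?_) (pow_pos hr 2)
  ring

theorem main (hP : St_PTS) {C : ℝ} (hC : 1 ≤ C)
    (hE : ∀ (r : ℝ) (p : ℂ), 0 < r → r ≤ 1 →
      IQ (fun x => tau 2 r (pn (x - p))) ≤ C * r ^ 2 * lg r)
    {ι : Type} [Fintype ι] (c : ι → ℝ) (p : ι → ℂ) {r M Z : ℝ} (hr : 0 < r) (hr' : r ≤ 1 / 4)
    (hM : Mult (fun i => c i ≠ 0) p r M) (hZ : ∑ i, c i ^ 2 ≤ Z) :
    IQ (fun x => (∑ i, c i * tau 2 r (pn (x - p i))) ^ 2) ≤
      4 * C ^ 2 * M * lg r ^ 2 * r ^ 2 * Z := by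
  have M0 : 0 ≤ M := (Nat.cast_nonneg _).trans (hM 0)
  have L0 := lg_pos r
  have ct : ∀ i, Continuous fun x => tau 2 r (pn (x - p i)) := fun i =>
    (continuous_tau hr).comp (continuous_pn.comp (by fun_prop))
  have h1 : ∀ x, (∑ i, c i * tau 2 r (pn (x - p i))) ^ 2 ≤
      4 * C * M * lg r * ∑ i, c i ^ 2 * tau 2 r (pn (x - p i)) := by
    intro x
    have a : ∑ i, c i * tau 2 r (pn (x - p i)) =
        ∑ i ∈ Finset.univ.filter (fun i => c i ≠ 0), c i * tau 2 r (pn (x - p i)) := by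
      rw [Finset.sum_filter_of_ne]
      intro i _ h; exact left_ne_zero_of_mul h
    have b := Finset.sum_sq_le_sum_mul_sum_of_sq_le_mul (Finset.univ.filter fun i => c i ≠ 0)
      (r := fun i => c i * tau 2 r (pn (x - p i))) (f := fun i => tau 2 r (pn (x - p i)))
      (g := fun i => c i ^ 2 * tau 2 r (pn (x - p i))) (fun i _ => tau_nonneg hr _)
      (fun i _ => mul_nonneg (sq_nonneg _) (tau_nonneg hr _)) (fun i _ => le_of_eq (by ring))
    rw [a]
    refine b.trans (mul_le_mul (sum_tau hP hE _ p hr hr' hM x _ (by simp)) ?_ ?_ (by positivity))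
    · exact Finset.sum_le_sum_of_subset_of_nonneg (Finset.filter_subset _ _)
        fun i _ _ => mul_nonneg (sq_nonneg _) (tau_nonneg hr _)
    · exact Finset.sum_nonneg fun i _ => mul_nonneg (sq_nonneg _) (tau_nonneg hr _)
  have h2 : IQ (fun x => (∑ i, c i * tau 2 r (pn (x - p i))) ^ 2) ≤
      IQ (fun x => 4 * C * M * lg r * ∑ i, c i ^ 2 * tau 2 r (pn (x - p i))) :=
    integral_mono (integrableOn_cell (by fun_prop)) (integrableOn_cell (by fun_prop)) h1
  have h3 : IQ (fun x => 4 * C * M * lg r * ∑ i, c i ^ 2 * tau 2 r (pn (x - p i))) =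
      4 * C * M * lg r * ∑ i, c i ^ 2 * IQ fun x => tau 2 r (pn (x - p i)) := by
    unfold IQ
    rw [integral_const_mul, integral_finsetSum]
    · simp only [integral_const_mul]
    · intro i _; exact integrableOn_cell (by fun_prop)
  have h4 : ∑ i, c i ^ 2 * (IQ fun x => tau 2 r (pn (x - p i))) ≤ Z * (C * r ^ 2 * lg r) := by
    refine (Finset.sum_le_sum fun i _ =>
      mul_le_mul_of_nonneg_left (hE r (p i) hr (by linarith)) (sq_nonneg (c i))).trans ?_
    rw [← Finset.sum_mul]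
    exact mul_le_mul_of_nonneg_right hZ (by positivity)
  refine (h2.trans_eq h3).trans ((mul_le_mul_of_nonneg_left h4 (by positivity)).trans_eq ?_)
  ring

theorem nD_sum {ι : Type} [Fintype ι] (B : ι → ℂ → ℂ) (hB : ∀ i, ContDiff ℝ ∞ (B i)) (j : ℕ)
    (y : ℂ) : nD j (fun x => ∑ i, B i x) y ≤ ∑ i, nD j (B i) y := by
  unfold nD
  rw [iteratedFDeriv_fun_sum_apply fun i _ => ((hB i).of_le (by exact_mod_cast le_top)).contDiffAt]
  exact norm_sum_le _ _

end MAJ

theorem st_MAJ (hE : St_ENV) (hP : St_PTS) : St_MAJ := by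
  obtain ⟨C, hC, hE⟩ := hE
  have hE' := fun r p a b => (hE r p a b).1
  refine ⟨64 * C ^ 2, by nlinarith, ?_, ?_⟩
  · intro ι _ c p r M Z hr hr' _ hM hZ
    have M0 : 0 ≤ M := (Nat.cast_nonneg _).trans (hM 0)
    have Z0 : 0 ≤ Z := (Finset.sum_nonneg fun i _ => sq_nonneg (c i)).trans hZ
    refine (MAJ.main hP hC hE' c p hr hr' hM hZ).trans ?_
    have : 0 ≤ C ^ 2 * M * lg r ^ 2 * r ^ 2 * Z := by positivity
    nlinarith
  · intro ι _ c p B r s M Z hr hr' hs hc hp c0 hB hM hZ hD
    have ct := MAJ.continuous_tau hr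
    have cp := MAJ.continuous_pn
    refine ⟨fun t x => 4 * ∑ i, c i t * tau 2 r (pn (x - p i t)), by fun_prop, fun t =>
      ⟨by fun_prop, fun n z => ?_, fun x y hxy j hj => ?_, ?_⟩⟩
    · refine congrArg (fun u => 4 * u) (Finset.sum_congr rfl fun i _ => ?_)
      rw [show z + lat n - p i t = z - p i t + lat n by ring, MAJ.pn_add_lat]
    · have a := MAJ.nD_sum (fun i => B i t)
        (fun i => (hB i).comp (contDiff_const.prodMk contDiff_id)) j y
      refine (mul_le_mul_of_nonneg_left a (pow_nonneg hs j)).trans ?_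
      beta_reduce
      rw [Finset.mul_sum, Finset.mul_sum]
      refine Finset.sum_le_sum fun i _ => (hD i t j hj y).trans ?_
      have b := MAJ.pn_le (x - p i t) (y - p i t)
      rw [show x - p i t - (y - p i t) = x - y by ring] at b
      have d := MAJ.tau_shift (s := pn (x - p i t)) (s' := pn (y - p i t)) hr (by linarith)
      have e := mul_le_mul_of_nonneg_left d (c0 i t)
      linarith
    · have a := MAJ.main hP hC hE' (fun i => c i t) (fun i => p i t) hr hr' (hM t) (hZ t)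
      unfold IQ at a ⊢
      simp only [mul_pow]
      rw [integral_const_mul]
      linarith

end Pool.Agent.Lib.EUL
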