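import Pool.Agent.Lib.EUL.B_CAU
import Pool.Agent.Lib.EUL.B_MOL
import Pool.Agent.Lib.EUL.B_MAJ

/-! Block K5: the modulus of continuity of the periodic Cauchy kernel in `L¹`. -/

set_option autoImplicit false

namespace Pool.Agent.Lib.EUL

open MeasureTheory Set Filter Topology
open scoped ContDiff Classical

namespace K5

/-- integrals of radial functions on an annulus -/
lemma radial {a b : ℝ} (ha : 0 ≤ a) (hab : a ≤ b) {g k : ℝ → ℝ} (hk : IntervalIntegrable k volume a b)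
    (h : ∀ y ∈ Ioc a b, y * g y = k y) :
    Integrable (fun w : ℂ => (Ioc a b).indicator g ‖w‖) ∧
      ∫ w : ℂ, (Ioc a b).indicator g ‖w‖ = 2 * Real.pi * ∫ y in a..b, k y := by
  have e : (fun y : ℝ => y ^ (Module.finrank ℝ ℂ - 1) • (Ioc a b).indicator g y) = (Ioc a b).indicator k := by
    funext y
    by_cases hy : y ∈ Ioc a b
    · rw [indicator_of_mem hy, indicator_of_mem hy, ← h y hy]
      simp
    · rw [indicator_of_notMem hy, indicator_of_notMem hy, smul_zero]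
  have hi : Integrable ((Ioc a b).indicator k) := (integrable_indicator_iff measurableSet_Ioc).2 hk.1
  refine ⟨(integrable_fun_norm_addHaar volume).2 (by rw [e]; exact hi.integrableOn), ?_⟩
  have hs : Ioi (0 : ℝ) ∩ Ioc a b = Ioc a b := inter_eq_right.2 fun y hy => ha.trans_lt hy.1
  rw [integral_fun_norm_addHaar volume ((Ioc a b).indicator g), e, setIntegral_indicator measurableSet_Ioc, hs,
    intervalIntegral.integral_of_le hab]
  simp only [Complex.finrank_real_complex, Measure.real, Complex.volume_ball, ENNReal.ofReal_one, one_pow, one_mul,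
    ENNReal.coe_toReal, NNReal.coe_real_pi, nsmul_eq_mul, smul_eq_mul, Nat.cast_ofNat]
  ring

lemma shiftInt {g : ℂ → ℝ} (hg : Peri g) (hi : IntegrableOn g cell) (w : ℂ) :
    IntegrableOn (fun x => g (x - w)) cell := by
  have : Countable MOL.latH.range := (countable_range MOL.latH).to_subtype
  have h1 := ((MOL.fund w).integrableOn_iff (MOL.fund 0) (f := g) (by
    rintro ⟨_, k, rfl⟩ x
    show g (lat k + x) = g x
    rw [add_comm]; exact hg k x)).2 (by simpa using hi)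
  have h2 := (measurePreserving_add_right (volume : Measure ℂ) w).integrableOn_comp_preimage
    (measurableEmbedding_addRight w) (f := fun x => g (x - w)) (s := cell)
  refine h2.1 ?_
  simpa [Function.comp_def] using h1

lemma crude {K : ℂ → ℂ} {C : ℝ} (h : IsKer K C) (y : ℂ) :
    IQ (fun x => ‖K (x + y) - K x‖) ≤ 2 * IQ fun x => ‖K x‖ := by
  have hp : Peri fun x => ‖K x‖ := fun n z => congrArg norm (h.per n z)
  have hi : IntegrableOn (fun x => ‖K x‖) cell := (CAU.intOn h).norm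
  have h1 := shiftInt hp hi (-y)
  have h2 := MOL.shift hp (-y)
  simp only [sub_neg_eq_add] at h1 h2
  have h3 : IQ (fun x => ‖K (x + y) - K x‖) ≤ ∫ x in cell, (‖K (x + y)‖ + ‖K x‖) :=
    integral_mono_of_nonneg (Eventually.of_forall fun _ => norm_nonneg _) (h1.add hi)
      (Eventually.of_forall fun _ => norm_sub_le _ _)
  rw [integral_add h1 hi] at h3
  unfold IQ at h2 h3 ⊢
  linarith

lemma small_mem {z : ℂ} (hz : ‖z‖ < 1 / 2) : z ∈ cell := by
  have h1 := abs_lt.1 ((Complex.abs_re_le_norm z).trans_lt hz)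
  have h2 := abs_lt.1 ((Complex.abs_im_le_norm z).trans_lt hz)
  exact ⟨⟨by linarith [h1.1], h1.2.le⟩, by linarith [h2.1], h2.2.le⟩

lemma near {K : ℂ → ℂ} {C : ℝ} (h : IsKer K C) {z : ℂ} (hz : z ∈ cell) (h0 : z ≠ 0) : ‖K z‖ ≤ C * ‖z‖⁻¹ := by
  have hpos : 0 < ‖z‖ := norm_pos_iff.2 h0
  have h2 := CAU.norm_le_pn hz
  have h3 := h.bound 0 (by norm_num) z (hpos.trans_le h2)
  rw [nD, norm_iteratedFDeriv_zero] at h3
  simp only [add_zero, pow_one] at h3
  rw [← div_eq_mul_inv]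
  exact h3.trans (div_le_div_of_nonneg_left (zero_le_one.trans h.one_le) hpos h2)

lemma far {K : ℂ → ℂ} {C : ℝ} (h : IsKer K C) {x y : ℂ} (hx : x ∈ cell) (hxy : 2 * ‖y‖ < ‖x‖) :
    ‖K (x + y) - K x‖ ≤ 4 * C * ‖y‖ * (‖x‖ ^ 2)⁻¹ := by
  have hpos : 0 < ‖x‖ := lt_of_le_of_lt (by positivity) hxy
  have hC : 0 ≤ C := zero_le_one.trans h.one_le
  have h1 : ∀ z ∈ Metric.closedBall x ‖y‖, ‖x‖ / 2 ≤ pn z := fun z hz => by
    have h2 := MAJ.pn_le x z
    have h3 := CAU.norm_le_pn hx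
    rw [Metric.mem_closedBall, dist_comm, dist_eq_norm] at hz
    linarith
  have ho : IsOpen {y : ℂ | 0 < pn y} := isOpen_lt continuous_const MAJ.continuous_pn
  have h4 := (convex_closedBall x ‖y‖).norm_image_sub_le_of_norm_fderiv_le (𝕜 := ℝ) (f := K)
    (C := 4 * C * (‖x‖ ^ 2)⁻¹) (x := x) (y := x + y)
    (fun z hz => (h.smooth.contDiffAt (ho.mem_nhds ((half_pos hpos).trans_le (h1 z hz)))).differentiableAt (by simp))
    (fun z hz => by
      have h5 := h.bound 1 (by norm_num) z ((half_pos hpos).trans_le (h1 z hz))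
      rw [nD, norm_iteratedFDeriv_one] at h5
      refine h5.trans ((div_le_div_of_nonneg_left hC (pow_pos (half_pos hpos) _)
        (pow_le_pow_left₀ (half_pos hpos).le (h1 z hz) _)).trans (le_of_eq ?_))
      field_simp
      ring)
    (Metric.mem_closedBall_self (norm_nonneg _)) (by simp)
  rw [add_sub_cancel_left] at h4
  linarith

lemma fine {K : ℂ → ℂ} {C : ℝ} (h : IsKer K C) {y : ℂ} (h0 : 0 < ‖y‖) (h1 : ‖y‖ ≤ 1 / 8) :
    IQ (fun x => ‖K (x + y) - K x‖) ≤ 48 * C * ‖y‖ * lg ‖y‖ := by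
  have hC : 0 ≤ C := zero_le_one.trans h.one_le
  obtain ⟨i1, e1⟩ := radial (a := 0) (b := 3 * ‖y‖) le_rfl (by positivity) (g := fun s => s⁻¹) (k := fun _ => 1)
    intervalIntegrable_const fun s hs => mul_inv_cancel₀ hs.1.ne'
  have hn : (0 : ℝ) ∉ uIcc (2 * ‖y‖) 1 := notMem_uIcc_of_lt (by positivity) one_pos
  obtain ⟨i2, e2⟩ := radial (a := 2 * ‖y‖) (b := 1) (by positivity) (by linarith) (g := fun s => (s ^ 2)⁻¹)
    (k := fun s => s⁻¹) (intervalIntegral.intervalIntegrable_inv (fun s hs e => hn (e ▸ hs)) continuousOn_id)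
    fun s hs => by
      have : s ≠ 0 := (lt_of_le_of_lt (by positivity) hs.1).ne'
      field_simp
  rw [integral_inv hn] at e2
  simp only [intervalIntegral.integral_const, sub_zero, smul_eq_mul, mul_one] at e1
  set φ : ℂ → ℝ := fun w => (Ioc 0 (3 * ‖y‖)).indicator (fun s : ℝ => s⁻¹) ‖w‖ with hφ
  set ψ : ℂ → ℝ := fun w => (Ioc (2 * ‖y‖) 1).indicator (fun s : ℝ => (s ^ 2)⁻¹) ‖w‖ with hψ
  have φ0 : ∀ w, 0 ≤ φ w := fun w => indicator_nonneg (fun s hs => (inv_pos.2 hs.1).le) _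
  have ψ0 : ∀ w, 0 ≤ ψ w := fun w => indicator_nonneg (fun s _ => by positivity) _
  have i3 : Integrable fun x => φ (x + y) := i1.comp_add_right y
  have e3 : ∫ x, φ (x + y) = 2 * Real.pi * (3 * ‖y‖) := by rw [integral_add_right_eq_self φ y, e1]
  have i4 : Integrable fun x => C * (φ (x + y) + φ x) + 4 * C * ‖y‖ * ψ x :=
    ((i3.add i1).const_mul C).add (i2.const_mul _)
  have h2 : IQ (fun x => ‖K (x + y) - K x‖) ≤ ∫ x in cell, (C * (φ (x + y) + φ x) + 4 * C * ‖y‖ * ψ x) := by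
    refine integral_mono_of_nonneg (Eventually.of_forall fun _ => norm_nonneg _) i4.integrableOn ?_
    have a1 : ∀ᵐ x : ℂ, x ≠ 0 := by simp [ae_iff]
    have a2 : ∀ᵐ x : ℂ, x ≠ -y := by simp [ae_iff]
    filter_upwards [ae_restrict_mem CAU.meas_cell, ae_restrict_of_ae a1, ae_restrict_of_ae a2] with x hx hx0 hxy
    have p1 := mul_nonneg hC (add_nonneg (φ0 (x + y)) (φ0 x))
    have p2 := mul_nonneg (by positivity : 0 ≤ 4 * C * ‖y‖) (ψ0 x)
    by_cases hc : 2 * ‖y‖ < ‖x‖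
    · have h3 : ψ x = (‖x‖ ^ 2)⁻¹ := indicator_of_mem (s := Ioc (2 * ‖y‖) 1) ⟨hc, (CAU.norm_lt_one hx).le⟩ _
      have h4 := far h hx hc
      rw [← h3] at h4
      linarith
    · have h3 : x + y ≠ 0 := fun e => hxy (eq_neg_of_add_eq_zero_left e)
      have h4 : ‖x + y‖ ≤ 3 * ‖y‖ := by linarith [norm_add_le x y]
      have h5 : φ (x + y) = ‖x + y‖⁻¹ := indicator_of_mem (s := Ioc 0 (3 * ‖y‖)) ⟨norm_pos_iff.2 h3, h4⟩ _
      have h6 : φ x = ‖x‖⁻¹ := indicator_of_mem (s := Ioc 0 (3 * ‖y‖)) ⟨norm_pos_iff.2 hx0, by linarith⟩ _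
      have h7 := near h (small_mem (z := x + y) (by linarith)) h3
      have h8 := near h hx hx0
      have h9 := norm_sub_le (K (x + y)) (K x)
      rw [h5, h6] at *
      linarith
  have h3 : ∫ x in cell, (C * (φ (x + y) + φ x) + 4 * C * ‖y‖ * ψ x) ≤
      ∫ x, (C * (φ (x + y) + φ x) + 4 * C * ‖y‖ * ψ x) :=
    setIntegral_le_integral i4 (Eventually.of_forall fun x =>
      add_nonneg (mul_nonneg hC (add_nonneg (φ0 _) (φ0 _))) (mul_nonneg (by positivity) (ψ0 x)))
  have i5 : Integrable fun x => C * (φ (x + y) + φ x) := (i3.add i1).const_mul C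
  rw [integral_add i5 (i2.const_mul _), integral_const_mul, integral_const_mul,
    integral_add i3 i1, e3, e1, e2] at h3
  have h4 : Real.log (1 / (2 * ‖y‖)) ≤ |Real.log ‖y‖| := by
    rw [one_div, Real.log_inv, Real.log_mul two_ne_zero h0.ne']
    have := Real.log_nonneg (one_le_two : (1 : ℝ) ≤ 2)
    linarith [neg_le_abs (Real.log ‖y‖)]
  have h5 := Real.pi_le_four
  have h6 := Real.pi_pos
  have h7 := abs_nonneg (Real.log ‖y‖)
  have h8 : 0 ≤ C * ‖y‖ := by positivity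
  have h9 : 2 * Real.pi * Real.log (1 / (2 * ‖y‖)) ≤ 8 * |Real.log ‖y‖| := by nlinarith
  have h10 := mul_le_mul_of_nonneg_left h9 h8
  have h11 := mul_le_mul_of_nonneg_left h5 h8
  have h12 := mul_nonneg h8 h7
  unfold lg
  nlinarith

end K5

theorem st_K5 (_h : St_CAU) : St_K5 := by
  intro K CK h
  have hN : 0 ≤ IQ fun x => ‖K x‖ := integral_nonneg fun _ => norm_nonneg _
  have hC := h.one_le
  refine ⟨16 * IQ (fun x => ‖K x‖) + 48 * CK, by linarith, fun y => ⟨(K5.crude h y).trans (by linarith), fun _ => ?_⟩⟩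
  have hl : 1 ≤ lg ‖y‖ := le_add_of_nonneg_right (abs_nonneg _)
  rcases (norm_nonneg y).eq_or_lt with h0 | h0
  · rw [norm_eq_zero.1 h0.symm]
    simp [IQ]
  have h2 : 0 ≤ ‖y‖ * lg ‖y‖ := by positivity
  by_cases h1 : ‖y‖ ≤ 1 / 8
  · have := K5.fine h h0 h1
    nlinarith
  · have h3 := K5.crude h y
    have h4 : 1 / 8 ≤ ‖y‖ * lg ‖y‖ := by nlinarith
    nlinarith

end Pool.Agent.Lib.EUL
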