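import Pool.Agent.Lib.MP_9cdd18_an.CXPompeiu

/-! The periodic Cauchy kernel of the square lattice. -/

open Complex Set Metric Filter Topology MeasureTheory
open scoped Real ContDiff ComplexConjugate

noncomputable section

namespace Pool.Agent.Lib.EUL.K95

def cc (z : ℂ) : ℂ := (exp (2 * π * I * z) - 1)⁻¹

def ta (n : ℕ) (z : ℂ) : ℂ := cc (z - (n + 1 : ℕ) * I)

def tb (n : ℕ) (z : ℂ) : ℂ := 1 + cc (z + (n + 1 : ℕ) * I)

/-- a meromorphic function with `ff (z + 1) = ff z`, `ff (z + I) = ff z - 2 I` -/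
def ff (z : ℂ) : ℂ := I + 2 * I * (cc z + ∑' n, ta n z + ∑' n, tb n z)

lemma norm_e (z : ℂ) : ‖exp (2 * π * I * z)‖ = Real.exp (-(2 * π * z.im)) := by
  rw [norm_exp]; congr 1; simp

lemma cc_int (z : ℂ) (n : ℤ) : cc (z + n) = cc z := by
  unfold cc
  rw [mul_add, exp_add, show 2 * π * I * (n : ℂ) = n * (2 * π * I) by ring, exp_int_mul_two_pi_mul_I, mul_one]

lemma two_le {s : ℝ} (hs : 1 / 4 ≤ s) : 2 ≤ Real.exp (2 * π * s) := by
  have := Real.add_one_le_exp (2 * π * s)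
  nlinarith [Real.pi_gt_three]

lemma cc_low {z : ℂ} (hz : z.im ≤ -(1 / 4)) :
    exp (2 * π * I * z) - 1 ≠ 0 ∧ ‖cc z‖ ≤ 2 * Real.exp (2 * π * z.im) := by
  have h1 := two_le (s := -z.im) (by linarith)
  have h2 : Real.exp (2 * π * -z.im) - 1 ≤ ‖exp (2 * π * I * z) - 1‖ := by
    have := norm_sub_norm_le (exp (2 * π * I * z)) 1
    rwa [norm_e, norm_one, ← mul_neg] at this
  refine ⟨norm_pos_iff.1 (by linarith), ?_⟩
  have h3 : Real.exp (2 * π * z.im) * Real.exp (2 * π * -z.im) = 1 := by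
    rw [← Real.exp_add]; simp
  rw [cc, norm_inv, inv_le_comm₀ (by linarith) (by positivity), mul_inv, ← Real.exp_neg, ← mul_neg]
  linarith

lemma cc_high {z : ℂ} (hz : 1 / 4 ≤ z.im) :
    exp (2 * π * I * z) - 1 ≠ 0 ∧ ‖1 + cc z‖ ≤ 2 * Real.exp (-(2 * π * z.im)) := by
  have h1 : Real.exp (-(2 * π * z.im)) ≤ 1 / 2 := by
    rw [Real.exp_neg, one_div]
    exact inv_anti₀ two_pos (two_le hz)
  have h2 : 1 / 2 ≤ ‖exp (2 * π * I * z) - 1‖ := by
    have := norm_sub_norm_le 1 (exp (2 * π * I * z))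
    rw [norm_e, norm_one, norm_sub_rev] at this
    linarith
  have h3 : exp (2 * π * I * z) - 1 ≠ 0 := norm_pos_iff.1 (by linarith)
  refine ⟨h3, ?_⟩
  have e : 1 + cc z = exp (2 * π * I * z) / (exp (2 * π * I * z) - 1) := by
    unfold cc; field_simp; ring
  rw [e, norm_div, norm_e, div_le_iff₀ (by linarith)]
  nlinarith [Real.exp_pos (-(2 * π * z.im))]

lemma geo (a : ℝ) : Summable fun n : ℕ => 2 * Real.exp (a + -(2 * π) * n) := by
  simp only [Real.exp_add]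
  exact ((Real.summable_exp_nat_mul_iff.2 (by linarith [Real.pi_pos] : -(2 * π) < 0)).congr
    (fun n => by rw [mul_comm])).mul_left _ |>.mul_left _

lemma ta_le {z : ℂ} {n : ℕ} {M : ℝ} (hz : z.im ≤ M) (hn : M ≤ n + 3 / 4) :
    exp (2 * π * I * (z - (n + 1 : ℕ) * I)) - 1 ≠ 0 ∧ ‖ta n z‖ ≤ 2 * Real.exp (2 * π * M + -(2 * π) * n) := by
  have e : (z - (n + 1 : ℕ) * I).im = z.im - (n + 1) := by simp
  obtain ⟨h1, h2⟩ := cc_low (z := z - (n + 1 : ℕ) * I) (by rw [e]; linarith)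
  refine ⟨h1, h2.trans ?_⟩
  rw [e]
  gcongr
  nlinarith [Real.pi_pos]

lemma tb_le {z : ℂ} {n : ℕ} {M : ℝ} (hz : -M ≤ z.im) (hn : M ≤ n + 3 / 4) :
    exp (2 * π * I * (z + (n + 1 : ℕ) * I)) - 1 ≠ 0 ∧ ‖tb n z‖ ≤ 2 * Real.exp (2 * π * M + -(2 * π) * n) := by
  have e : (z + (n + 1 : ℕ) * I).im = z.im + (n + 1) := by simp
  obtain ⟨h1, h2⟩ := cc_high (z := z + (n + 1 : ℕ) * I) (by rw [e]; linarith)
  refine ⟨h1, h2.trans ?_⟩
  rw [e]
  gcongr
  nlinarith [Real.pi_pos]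

lemma ev_ge (M : ℝ) : ∀ᶠ n : ℕ in cofinite, M ≤ n + 3 / 4 := by
  rw [Nat.cofinite_eq_atTop]
  filter_upwards [tendsto_natCast_atTop_atTop.eventually_ge_atTop M] with n hn
  linarith

lemma ta_sum (z : ℂ) : Summable fun n => ta n z :=
  (geo (2 * π * z.im)).of_norm_bounded_eventually ((ev_ge z.im).mono fun _ hn => (ta_le le_rfl hn).2)

lemma tb_sum (z : ℂ) : Summable fun n => tb n z :=
  (geo (2 * π * -z.im)).of_norm_bounded_eventually
    ((ev_ge (-z.im)).mono fun _ hn => (tb_le (neg_neg z.im).le hn).2)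

lemma ff_int (z : ℂ) (n : ℤ) : ff (z + n) = ff z := by
  simp only [ff, ta, tb, cc_int, add_sub_right_comm z n, add_right_comm z n]

lemma ff_I (z : ℂ) : ff (z + I) = ff z - 2 * I := by
  have h1 : ∑' n, ta n (z + I) = cc z + ∑' n, ta n z := by
    rw [(ta_sum (z + I)).tsum_eq_zero_add]
    congr 1
    · simp [ta]
    · exact tsum_congr fun n => by unfold ta; congr 1; push_cast; ring
  have h2 : ∑' n, tb n z = 1 + cc (z + I) + ∑' n, tb n (z + I) := by
    rw [(tb_sum z).tsum_eq_zero_add]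
    congr 1
    · simp [tb]
    · exact tsum_congr fun n => by unfold tb; congr 2; push_cast; ring
  rw [ff, ff, h1, h2]
  ring

lemma cc_diff {z : ℂ} (h : exp (2 * π * I * z) - 1 ≠ 0) : DifferentiableAt ℂ cc z := by
  unfold cc
  exact DifferentiableAt.inv (by fun_prop) h

lemma sums_diff : DifferentiableOn ℂ (fun z => ∑' n, ta n z + ∑' n, tb n z) (ball 0 (3 / 4)) := by
  have hb : ∀ z ∈ ball (0 : ℂ) (3 / 4), |z.im| ≤ 3 / 4 := fun z hz =>
    (abs_im_le_norm z).trans (mem_ball_zero_iff.1 hz).le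
  have hn : ∀ n : ℕ, (3 / 4 : ℝ) ≤ n + 3 / 4 := fun n => le_add_of_nonneg_left n.cast_nonneg
  refine DifferentiableOn.add (differentiableOn_tsum_of_summable_norm (geo (2 * π * (3 / 4)))
      (fun n z hz => ?_) isOpen_ball fun n z hz => (ta_le (abs_le.1 (hb z hz)).2 (hn n)).2)
    (differentiableOn_tsum_of_summable_norm (geo (2 * π * (3 / 4)))
      (fun n z hz => ?_) isOpen_ball fun n z hz => (tb_le (abs_le.1 (hb z hz)).1 (hn n)).2)
  · exact ((cc_diff (ta_le (abs_le.1 (hb z hz)).2 (hn n)).1).comp z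
      (differentiableAt_id.sub_const _)).differentiableWithinAt
  · exact (((cc_diff (tb_le (abs_le.1 (hb z hz)).1 (hn n)).1).comp z
      (differentiableAt_id.add_const _)).const_add 1).differentiableWithinAt

lemma cc_split : ∃ g : ℂ → ℂ, DifferentiableOn ℂ g (ball 0 (3 / 4)) ∧
    ∀ z ∈ ball (0 : ℂ) (3 / 4), z ≠ 0 → cc z = (2 * π * I * z)⁻¹ + g z := by
  set e : ℂ → ℂ := fun z => exp (2 * π * I * z) with he
  have hd : Differentiable ℂ e := by fun_prop
  have hp : (2 * π * I : ℂ) ≠ 0 := two_pi_I_ne_zero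
  have h0 : dslope e 0 0 = 2 * π * I := by
    have : HasDerivAt e (exp (2 * π * I * 0) * (2 * π * I * 1)) 0 := ((hasDerivAt_id 0).const_mul _).cexp
    rw [dslope_same, this.deriv]; simp
  have h1 : ∀ z, z ≠ 0 → dslope e 0 z = (e z - 1) / z := fun z hz => by
    rw [dslope_of_ne _ hz, slope_def_field]; simp [he]
  have h2 : ∀ z ∈ ball (0 : ℂ) (3 / 4), z ≠ 0 → e z - 1 ≠ 0 := fun z hz hz0 h => by
    obtain ⟨n, hn⟩ := Complex.exp_eq_one_iff.1 (sub_eq_zero.1 h)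
    have h3 : z = n := mul_left_cancel₀ hp (by rw [hn]; ring)
    rw [h3, mem_ball_zero_iff, norm_intCast] at hz
    have h4 : |n| < 1 := by exact_mod_cast (hz.trans (by norm_num) : |(n : ℝ)| < 1)
    exact hz0 (by rw [h3, Int.abs_lt_one_iff.1 h4]; simp)
  have h3 : DifferentiableOn ℂ (fun z => (dslope e 0 z)⁻¹) (ball 0 (3 / 4)) := by
    refine ((differentiableOn_dslope (ball_mem_nhds 0 (by norm_num))).2 hd.differentiableOn).inv fun z hz => ?_
    rcases eq_or_ne z 0 with rfl | hz0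
    · rwa [h0]
    · rw [h1 z hz0]; exact div_ne_zero (h2 z hz hz0) hz0
  refine ⟨_, (differentiableOn_dslope (ball_mem_nhds 0 (by norm_num))).2 h3, fun z hz hz0 => ?_⟩
  have := h2 z hz hz0
  rw [dslope_of_ne _ hz0, slope_def_field, h0, h1 z hz0]
  change (e z - 1)⁻¹ = _
  field_simp
  ring

lemma ff_split : ∃ g : ℂ → ℂ, DifferentiableOn ℂ g (ball 0 (3 / 4)) ∧
    ∀ z ∈ ball (0 : ℂ) (3 / 4), z ≠ 0 → ff z = (π * z)⁻¹ + g z := by
  obtain ⟨g, h1, h2⟩ := cc_split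
  refine ⟨fun z => I + 2 * I * (g z + (∑' n, ta n z + ∑' n, tb n z)),
    ((h1.add sums_diff).const_mul _).const_add _, fun z hz hz0 => ?_⟩
  have : (π : ℂ) ≠ 0 := ofReal_ne_zero.2 Real.pi_ne_zero
  rw [ff, h2 z hz hz0]
  field_simp
  ring

/-- the kernel -/
def KK (y : ℂ) : ℂ := conj (ff y) + conj y - y

lemma KK_one (y : ℂ) : KK (y + 1) = KK y := by
  have := ff_int y 1
  rw [Int.cast_one] at this
  simp only [KK, this, map_add, map_one]
  ring

lemma KK_I (y : ℂ) : KK (y + I) = KK y := by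
  simp only [KK, ff_I, map_add, map_sub, map_mul, conj_I, map_ofNat]
  ring

/-- near the origin the kernel is `1 / (π conj y)` plus a smooth function `S` with `d S = -1` -/
lemma KK_split : ∃ S : ℂ → ℂ, ContDiffOn ℝ ∞ S (ball 0 (3 / 4)) ∧
    (∀ y ∈ ball (0 : ℂ) (3 / 4), fderiv ℝ S y 1 - I * fderiv ℝ S y I = -2) ∧
    ∀ y ∈ ball (0 : ℂ) (3 / 4), y ≠ 0 → KK y = (π * conj y)⁻¹ + S y := by
  obtain ⟨g, h1, h2⟩ := ff_split
  have h3 : ContDiffOn ℝ ∞ g (ball 0 (3 / 4)) := (h1.contDiffOn isOpen_ball).restrict_scalars ℝ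
  refine ⟨fun y => conjCLE (g y) + conjCLE y - y, ((conjCLE.contDiff.comp_contDiffOn h3).add
    conjCLE.contDiff.contDiffOn).sub contDiffOn_id, fun y hy => ?_, fun y hy h0 => ?_⟩
  · have h4 := ((h1.differentiableAt (isOpen_ball.mem_nhds hy)).hasDerivAt.hasFDerivAt.restrictScalars ℝ)
    have h5 := ((conjCLE.hasFDerivAt.comp y h4).add conjCLE.hasFDerivAt).sub (hasFDerivAt_id y)
    have h6 : fderiv ℝ (fun y => conjCLE (g y) + conjCLE y - y) y = _ := h5.fderiv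
    rw [h6]
    simp
    linear_combination (conj (deriv g y) + 2) * I_mul_I
  · simp [KK, h2 y hy h0]
    ring

end Pool.Agent.Lib.EUL.K95
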