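import Pool.Agent.Lib.EUL.Blue
import Pool.Agent.Lib.EUL.Ker95

set_option autoImplicit false

namespace Pool.Agent.Lib.EUL

open MeasureTheory Set Filter Topology Complex Metric
open scoped ContDiff Classical Real ComplexConjugate

noncomputable section

namespace KER

open K95

lemma KK_per : Peri KK := by
  intro n z
  have h1 : Function.Periodic KK 1 := KK_one
  have h2 : Function.Periodic KK I := KK_I
  have h3 := h1.int_mul n.1 z
  have h4 := h2.int_mul n.2 (z + n.1 * 1)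
  rw [lat, ← h3, ← h4]
  congr 1
  ring

lemma cell_norm {y : ℂ} (hy : y ∈ cell) : ‖y‖ ≤ 5 / 7 := by
  obtain ⟨⟨h1, h2⟩, h3, h4⟩ := hy
  have h5 : ‖y‖ ^ 2 = y.re ^ 2 + y.im ^ 2 := by
    rw [← normSq_eq_norm_sq, normSq_apply]; ring
  refine abs_le_of_sq_le_sq' ?_ (by norm_num) |>.2
  nlinarith

lemma cell_sub : cell ⊆ closedBall (0 : ℂ) (5 / 7) := fun _ hy =>
  mem_closedBall_zero_iff.2 (cell_norm hy)

lemma cb_sub : closedBall (0 : ℂ) (5 / 7) ⊆ ball 0 (3 / 4) :=
  closedBall_subset_ball (by norm_num)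

lemma ex_cell (y : ℂ) : ∃ n, y - lat n ∈ cell := by
  refine ⟨(⌈y.re - 1 / 2⌉, ⌈y.im - 1 / 2⌉), ?_⟩
  have h1 := Int.le_ceil (y.re - 1 / 2)
  have h2 := Int.ceil_lt_add_one (y.re - 1 / 2)
  have h3 := Int.le_ceil (y.im - 1 / 2)
  have h4 := Int.ceil_lt_add_one (y.im - 1 / 2)
  simp only [cell, lat, mem_ofPred_eq, mem_Ioc, sub_re, add_re, intCast_re, mul_re, I_re, I_im,
    intCast_im, sub_im, add_im, mul_im]
  refine ⟨⟨?_, ?_⟩, ?_, ?_⟩ <;> linarith

lemma meas_cell : MeasurableSet cell :=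
  (measurable_re measurableSet_Ioc).inter (measurable_im measurableSet_Ioc)

/-- the planar Cauchy kernel -/
def c0 (y : ℂ) : ℂ := (π * conj y)⁻¹

lemma c0_eq : c0 = conjLIE ∘ fun y : ℂ => ((π : ℂ) * y + 0)⁻¹ := by
  funext y
  simp [c0]

lemma pi_ne : (π : ℂ) ≠ 0 := ofReal_ne_zero.2 Real.pi_ne_zero

lemma inv_sm {y : ℂ} (hy : y ≠ 0) : ContDiffAt ℂ ∞ (fun y : ℂ => ((π : ℂ) * y + 0)⁻¹) y :=
  ContDiffAt.inv (by fun_prop) (by simpa using hy)

lemma c0_sm {y : ℂ} (hy : y ≠ 0) : ContDiffAt ℝ ∞ c0 y := by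
  rw [c0_eq]
  exact conjLIE.contDiff.contDiffAt.comp y ((inv_sm hy).restrict_scalars ℝ)

lemma c0_bd {y : ℂ} (hy : y ≠ 0) (j : ℕ) : nD j c0 y ≤ j.factorial / ‖y‖ ^ (1 + j) := by
  have h0 : 0 < ‖y‖ := norm_pos_iff.2 hy
  have h1 := ((inv_sm hy).of_le (m := j) (by exact_mod_cast le_top)).restrictScalars_iteratedFDeriv
    (𝕜 := ℝ)
  rw [nD, c0_eq, LinearIsometryEquiv.norm_iteratedFDeriv_comp_left, ← h1, Function.comp_apply,
    ContinuousMultilinearMap.norm_restrictScalars, norm_iteratedFDeriv_eq_norm_iteratedDeriv,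
    iteratedDeriv_eq_iterate, iter_deriv_inv_linear]
  have h2 : (-1 - j : ℤ) = -((1 + j : ℕ) : ℤ) := by push_cast; ring
  simp only [h2, zpow_neg, zpow_natCast, norm_mul, norm_pow, norm_neg, norm_one, one_pow, one_mul,
    norm_natCast, add_zero, norm_inv, norm_real, Real.norm_eq_abs, abs_of_pos Real.pi_pos]
  have h3 := Real.pi_gt_three
  have h4 : (j.factorial : ℝ) * π ^ j * ((π * ‖y‖) ^ (1 + j))⁻¹ =
      j.factorial / ‖y‖ ^ (1 + j) * π⁻¹ := by
    rw [mul_pow, pow_add π]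
    field_simp
  rw [h4]
  refine mul_le_of_le_one_right (by positivity) (inv_le_one_of_one_le₀ (by linarith))

lemma c0_dz {y : ℂ} (hy : y ≠ 0) : dz c0 y = 0 := by
  have h1 := ((inv_sm hy).differentiableAt (by simp)).hasDerivAt.hasFDerivAt.restrictScalars ℝ
  have h2 := conjCLE.hasFDerivAt.comp y h1
  have h3 : fderiv ℝ c0 y = _ := c0_eq ▸ h2.fderiv
  rw [dz, h3]
  generalize deriv (fun y : ℂ => ((π : ℂ) * y + 0)⁻¹) y = d
  simp
  linear_combination (conj d) * I_mul_I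

lemma c0_int : IntegrableOn c0 cell := by
  have h : IntegrableOn c0 (ball 0 (3 / 4)) := by
    refine integrableOn_ball_of_norm_le_rpow (C := 1) (α := 1) (by simp) (by simp)
      (Eventually.of_forall fun y => ?_) ?_
    · rw [c0, norm_inv, norm_mul, norm_real, RCLike.norm_conj, Real.rpow_neg_one, one_mul,
        Real.norm_eq_abs, abs_of_pos Real.pi_pos, mul_inv]
      exact mul_le_of_le_one_left (by positivity)
        (inv_le_one_of_one_le₀ (by linarith [Real.pi_gt_three]))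
    · exact ((continuous_const.mul continuous_conj).measurable.inv).aestronglyMeasurable
  exact h.mono_set (cell_sub.trans cb_sub)

lemma dz_mul {f g : ℂ → ℂ} {y : ℂ} (hf : DifferentiableAt ℝ f y) (hg : DifferentiableAt ℝ g y) :
    dz (fun w => f w * g w) y = dz f y * g y + f y * dz g y := by
  simp only [dz, fderiv_fun_mul hf hg, add_apply,
    smul_apply, smul_eq_mul]
  ring

lemma dz_add {f g : ℂ → ℂ} {y : ℂ} (hf : DifferentiableAt ℝ f y) (hg : DifferentiableAt ℝ g y) :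
    dz (fun w => f w + g w) y = dz f y + dz g y := by
  simp only [dz, fderiv_fun_add hf hg, add_apply]
  ring

lemma dz_one_sub (f : ℂ → ℂ) (y : ℂ) : dz (fun w => 1 - f w) y = -dz f y := by
  simp only [dz, fderiv_const_sub, neg_apply]
  ring

lemma dz_refl {F : ℂ → ℂ} (hF : Differentiable ℝ F) (x y : ℂ) :
    dz (fun w => F (x - w)) y = -dz F (x - y) := by
  have h := (hF (x - y)).hasFDerivAt.comp y ((hasFDerivAt_id y).const_sub x)
  have h2 : fderiv ℝ (fun w => F (x - w)) y = _ := h.fderiv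
  simp only [dz, h2, ContinuousLinearMap.comp_apply, neg_apply,
    ContinuousLinearMap.id_apply, map_neg]
  ring

lemma dz_cont {f : ℂ → ℂ} {y : ℂ} (hf : ContDiffAt ℝ ∞ f y) : ContinuousAt (dz f) y := by
  have h : ContinuousAt (fderiv ℝ f) y := hf.continuousAt_fderiv (by simp)
  exact ((h.clm_apply continuousAt_const).sub
    (continuousAt_const.mul (h.clm_apply continuousAt_const))).div_const _

lemma cell_prod {h : ℂ → ℂ} (hh : IntegrableOn h cell) :
    (∫ y in cell, h y = ∫ a in (-1 / 2 : ℝ)..(1 / 2), ∫ b in (-1 / 2 : ℝ)..(1 / 2), h (a + b * I)) ∧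
    ∫ y in cell, h y = ∫ b in (-1 / 2 : ℝ)..(1 / 2), ∫ a in (-1 / 2 : ℝ)..(1 / 2), h (a + b * I) := by
  have hm := volume_preserving_equiv_real_prod.symm
  have he := measurableEquivRealProd.symm.measurableEmbedding
  have hp : measurableEquivRealProd.symm ⁻¹' cell =
      Ioc (-1 / 2 : ℝ) (1 / 2) ×ˢ Ioc (-1 / 2 : ℝ) (1 / 2) := by
    ext p
    simp [cell, measurableEquivRealProd_symm_apply]
  have hv : ∀ p : ℝ × ℝ, measurableEquivRealProd.symm p = p.1 + p.2 * I := fun p => by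
    rw [measurableEquivRealProd_symm_apply]
    apply Complex.ext <;> simp
  have h1 := hm.setIntegral_preimage_emb he h cell
  have h2 := (hm.integrableOn_comp_preimage he (f := h) (s := cell)).2 hh
  rw [hp] at h1 h2
  have hl : (-1 / 2 : ℝ) ≤ 1 / 2 := by norm_num
  simp only [intervalIntegral.integral_of_le hl]
  rw [← h1]
  rw [IntegrableOn, Measure.volume_eq_prod, ← Measure.prod_restrict] at h2
  rw [Measure.volume_eq_prod, ← Measure.prod_restrict]
  have h3 := integral_prod _ h2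
  have h4 := integral_prod_symm _ h2
  simp only [Function.comp_apply, hv] at h3 h4 ⊢
  exact ⟨h3, h4⟩

lemma per1 {g : ℝ → ℂ} (hg : Function.Periodic g 1) (u : ℝ) :
    ∫ b in (-1 / 2 : ℝ)..(1 / 2), g (u - b) = ∫ b in (-1 / 2 : ℝ)..(1 / 2), g b := by
  rw [intervalIntegral.integral_comp_sub_left g u]
  have h := hg.intervalIntegral_add_eq (u - 1 / 2) (-1 / 2)
  rw [show u - 1 / 2 + 1 = u - -1 / 2 by ring, show (-1 / 2 : ℝ) + 1 = 1 / 2 by norm_num] at h
  exact h

lemma int_cont {h : ℂ → ℂ} (hh : ContinuousOn h (closedBall 0 (5 / 7))) : IntegrableOn h cell :=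
  (hh.integrableOn_compact (isCompact_closedBall _ _)).mono_set cell_sub

lemma per_one {F : ℂ → ℂ} (hp : Peri F) (z : ℂ) : F (z + 1) = F z := by
  simpa [lat] using hp (1, 0) z

lemma per_I {F : ℂ → ℂ} (hp : Peri F) (z : ℂ) : F (z + I) = F z := by
  simpa [lat] using hp (0, 1) z

lemma refl_int {F : ℂ → ℂ} (hF : Continuous F) (hp : Peri F) (x : ℂ) :
    ∫ y in cell, F (x - y) = ∫ y in cell, F y := by
  rw [(cell_prod (h := fun y => F (x - y)) (int_cont (by fun_prop))).1,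
    (cell_prod (int_cont hF.continuousOn)).1]
  have h1 : ∀ a : ℝ, ∫ b in (-1 / 2 : ℝ)..(1 / 2), F (x - (a + b * I)) =
      ∫ b in (-1 / 2 : ℝ)..(1 / 2), F ((x.re - a : ℝ) + b * I) := by
    intro a
    rw [← per1 (g := fun b : ℝ => F ((x.re - a : ℝ) + b * I)) (fun b => by
      simp only
      rw [← per_I hp ((x.re - a : ℝ) + b * I)]
      congr 1
      push_cast
      ring) x.im]
    refine intervalIntegral.integral_congr fun b _ => ?_
    congr 1
    apply Complex.ext <;> simp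
  simp only [h1]
  refine per1 (g := fun a : ℝ => ∫ b in (-1 / 2 : ℝ)..(1 / 2), F (a + b * I)) (fun a => ?_) x.re
  refine intervalIntegral.integral_congr fun b _ => ?_
  rw [← per_one hp (a + b * I)]
  congr 1
  push_cast
  ring

lemma sq_mem {a b : ℝ} (ha : a ∈ uIcc (-1 / 2 : ℝ) (1 / 2)) (hb : b ∈ uIcc (-1 / 2 : ℝ) (1 / 2)) :
    (a + b * I : ℂ) ∈ ball (0 : ℂ) (3 / 4) := by
  rw [uIcc_of_le (by norm_num)] at ha hb
  have h5 : ‖(a + b * I : ℂ)‖ ^ 2 = a ^ 2 + b ^ 2 := by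
    rw [← normSq_eq_norm_sq, normSq_add_mul_I]
  rw [mem_ball_zero_iff]
  refine lt_of_pow_lt_pow_left₀ 2 (by norm_num) ?_
  nlinarith [ha.1, ha.2, hb.1, hb.2]

/-- integration by parts on the cell -/
lemma ibp {H : ℂ → ℂ} (hH : ∀ y ∈ ball (0 : ℂ) (3 / 4), ContDiffAt ℝ ∞ H y)
    (h1 : ∀ b ∈ uIcc (-1 / 2 : ℝ) (1 / 2),
      H ((1 / 2 : ℝ) + b * I) = H ((-1 / 2 : ℝ) + b * I))
    (h2 : ∀ a ∈ uIcc (-1 / 2 : ℝ) (1 / 2),
      H (a + (1 / 2 : ℝ) * I) = H (a + (-1 / 2 : ℝ) * I)) : ∫ y in cell, dz H y = 0 := by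
  have hc : ∀ v : ℂ, ∀ y ∈ ball (0 : ℂ) (3 / 4), ContinuousAt (fun y => fderiv ℝ H y v) y :=
    fun v y hy => ((hH y hy).continuousAt_fderiv (by simp)).clm_apply continuousAt_const
  have hi : ∀ v : ℂ, IntegrableOn (fun y => fderiv ℝ H y v) cell := fun v =>
    int_cont fun y hy => (hc v y (cb_sub hy)).continuousWithinAt
  have hd : ∀ y ∈ ball (0 : ℂ) (3 / 4), HasFDerivAt H (fderiv ℝ H y) y := fun y hy =>
    ((hH y hy).differentiableAt (by simp)).hasFDerivAt
  have e1 : ∫ y in cell, fderiv ℝ H y 1 = 0 := by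
    rw [(cell_prod (hi 1)).2, intervalIntegral.integral_congr (g := fun _ => 0) fun b hb => ?_]
    · simp
    · have h3 : ∀ a ∈ uIcc (-1 / 2 : ℝ) (1 / 2), HasDerivAt (fun a : ℝ => H (a + b * I))
          (fderiv ℝ H (a + b * I) 1) a := fun a ha =>
        (hd _ (sq_mem ha hb)).comp_hasDerivAt a
          (by simpa using (hasDerivAt_id a).ofReal_comp.add_const (b * I))
      simp only
      rw [intervalIntegral.integral_eq_sub_of_hasDerivAt h3, h1 b hb, sub_self]
      refine ContinuousOn.intervalIntegrable fun a ha => ?_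
      exact (ContinuousAt.comp (f := fun a : ℝ => (a + b * I : ℂ)) (hc 1 _ (sq_mem ha hb))
        (by fun_prop)).continuousWithinAt
  have e2 : ∫ y in cell, fderiv ℝ H y I = 0 := by
    rw [(cell_prod (hi I)).1, intervalIntegral.integral_congr (g := fun _ => 0) fun a ha => ?_]
    · simp
    · have h3 : ∀ b ∈ uIcc (-1 / 2 : ℝ) (1 / 2), HasDerivAt (fun b : ℝ => H (a + b * I))
          (fderiv ℝ H (a + b * I) I) b := fun b hb =>
        (hd _ (sq_mem ha hb)).comp_hasDerivAt b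
          (by simpa using ((hasDerivAt_id b).ofReal_comp.mul_const I).const_add (a : ℂ))
      simp only
      rw [intervalIntegral.integral_eq_sub_of_hasDerivAt h3, h2 a ha, sub_self]
      refine ContinuousOn.intervalIntegrable fun b hb => ?_
      exact (ContinuousAt.comp (f := fun b : ℝ => (a + b * I : ℂ)) (hc I _ (sq_mem ha hb))
        (by fun_prop)).continuousWithinAt
  simp only [dz]
  rw [integral_div, integral_sub (hi 1) ((hi I).const_mul I), integral_const_mul, e1, e2]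
  simp

/-- the Cauchy-Pompeiu formula -/
lemma pomp {h : ℂ → ℂ} (hh : ContDiff ℝ ∞ h) (hs : ∀ y, 1 / 4 ≤ ‖y‖ → h y = 0) :
    ∫ y in cell, dz h y * c0 y = -h 0 := by
  have hc : HasCompactSupport h := by
    refine HasCompactSupport.intro (isCompact_closedBall (0 : ℂ) (1 / 4)) fun y hy => hs y ?_
    rw [mem_closedBall_zero_iff, not_le] at hy
    exact hy.le
  have h1 := MP_9cdd18_an.CX.pompeiu_aux (g := conjCLE ∘ h)
    (conjCLE.contDiff.comp (hh.of_le (by simp))) (hc.comp_left (by simp)) 0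
  have h2 : ∀ y, dz h y * c0 y =
      (2 * π : ℂ)⁻¹ * conj (MP_9cdd18_an.CX.dbar (conjCLE ∘ h) y / (y - 0)) := by
    intro y
    have h3 := conjCLE.hasFDerivAt.comp y ((hh.differentiable (by simp)) y).hasFDerivAt
    rw [MP_9cdd18_an.CX.dbar, h3.fderiv, dz, c0]
    simp
    ring
  rw [setIntegral_eq_integral_of_forall_compl_eq_zero fun y hy => ?_]
  · simp only [h2]
    rw [integral_const_mul, integral_conj, h1]
    have := pi_ne
    simp [map_ofNat]
    field_simp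
  · have h3 : 1 / 4 < ‖y‖ := by
      by_contra h4
      have h5 := abs_le.1 ((abs_re_le_norm y).trans (not_lt.1 h4))
      have h6 := abs_le.1 ((abs_im_le_norm y).trans (not_lt.1 h4))
      exact hy ⟨⟨by linarith [h5.1], by linarith [h5.2]⟩, by linarith [h6.1], by linarith [h6.2]⟩
    have h4 : h =ᶠ[𝓝 y] fun _ => 0 := by
      filter_upwards [continuous_norm.continuousAt.eventually (lt_mem_nhds h3)] with w hw
      exact hs w hw.le
    simp [dz, h4.fderiv_eq]

lemma ex_chi : ∃ χ : ℂ → ℂ, ContDiff ℝ ∞ χ ∧ (∀ y, 1 / 4 ≤ ‖y‖ → χ y = 0) ∧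
    ∀ y, ‖y‖ ≤ 1 / 8 → χ y = 1 := by
  let b : ContDiffBump (0 : ℂ) := ⟨1 / 8, 1 / 4, by norm_num, by norm_num⟩
  refine ⟨fun y => (b y : ℂ), ofRealCLM.contDiff.comp b.contDiff, fun y hy => ?_, fun y hy => ?_⟩
  · simp only [b.zero_of_le_dist (x := y) (by rwa [dist_zero_right]), ofReal_zero]
  · simp only [b.one_of_mem_closedBall (x := y) (mem_closedBall_zero_iff.2 hy), ofReal_one]

lemma solve (F : ℂ → ℂ) (hF : ContDiff ℝ ∞ F) (hp : Peri F) (x : ℂ) :
    ∫ y in cell, KK y * dz F (x - y) = F x - ∫ y in cell, F y := by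
  obtain ⟨S, hS, hS1, hS2⟩ := KK_split
  obtain ⟨χ, hχ, hχ0, hχ1⟩ := ex_chi
  have hG : ContDiff ℝ ∞ fun y => F (x - y) := hF.comp (contDiff_const.sub contDiff_id)
  have hSa : ∀ y ∈ ball (0 : ℂ) (3 / 4), ContDiffAt ℝ ∞ S y := fun y hy =>
    hS.contDiffAt (isOpen_ball.mem_nhds hy)
  have hq : ∀ y, ContDiffAt ℝ ∞ (fun w => (1 - χ w) * c0 w) y := by
    intro y
    rcases eq_or_ne y 0 with rfl | hy
    · refine (contDiffAt_const (c := (0 : ℂ))).congr_of_eventuallyEq ?_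
      filter_upwards [closedBall_mem_nhds (0 : ℂ) (by norm_num : (0 : ℝ) < 1 / 8)] with w hw
      rw [hχ1 w (mem_closedBall_zero_iff.1 hw), sub_self, zero_mul]
    · exact (contDiffAt_const.sub hχ.contDiffAt).mul (c0_sm hy)
  have hH : ∀ y ∈ ball (0 : ℂ) (3 / 4),
      ContDiffAt ℝ ∞ (fun w => ((1 - χ w) * c0 w + S w) * F (x - w)) y := fun y hy =>
    ((hq y).add (hSa y hy)).mul hG.contDiffAt
  have hK : ∀ y ∈ ball (0 : ℂ) (3 / 4), 1 / 4 ≤ ‖y‖ → (1 - χ y) * c0 y + S y = KK y := by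
    intro y hy h4
    rw [hS2 y hy (norm_pos_iff.1 (by linarith)), hχ0 y h4, sub_zero, one_mul, c0]
  have m1 : (1 / 2 : ℝ) ∈ uIcc (-1 / 2 : ℝ) (1 / 2) := right_mem_uIcc
  have m2 : (-1 / 2 : ℝ) ∈ uIcc (-1 / 2 : ℝ) (1 / 2) := left_mem_uIcc
  have n1 : ∀ a b : ℝ, 1 / 4 ≤ |a| → 1 / 4 ≤ ‖(a + b * I : ℂ)‖ := fun a b h =>
    h.trans (by simpa using abs_re_le_norm (a + b * I))
  have n2 : ∀ a b : ℝ, 1 / 4 ≤ |b| → 1 / 4 ≤ ‖(a + b * I : ℂ)‖ := fun a b h =>
    h.trans (by simpa using abs_im_le_norm (a + b * I))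
  have a1 : (1 / 4 : ℝ) ≤ |1 / 2| := le_abs.2 (Or.inl (by norm_num))
  have a2 : (1 / 4 : ℝ) ≤ |-1 / 2| := le_abs.2 (Or.inr (by norm_num))
  have e1 := ibp hH (fun b hb => by
    rw [hK _ (sq_mem m1 hb) (n1 _ _ a1), hK _ (sq_mem m2 hb) (n1 _ _ a2),
      ← KK_one ((-1 / 2 : ℝ) + b * I), ← per_one hp (x - ((1 / 2 : ℝ) + b * I))]
    congr 2 <;> push_cast <;> ring) (fun a ha => by
    rw [hK _ (sq_mem ha m1) (n2 _ _ a1), hK _ (sq_mem ha m2) (n2 _ _ a2),
      ← KK_I (a + (-1 / 2 : ℝ) * I), ← per_I hp (x - (a + (1 / 2 : ℝ) * I))]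
    congr 2 <;> push_cast <;> ring)
  have e2 := pomp (h := fun w => χ w * F (x - w)) (hχ.mul hG) fun y hy => by
    rw [hχ0 y hy, zero_mul]
  have i1 : IntegrableOn (dz fun w => ((1 - χ w) * c0 w + S w) * F (x - w)) cell :=
    int_cont fun y hy => (dz_cont (hH y (cb_sub hy))).continuousWithinAt
  have i2 : IntegrableOn (fun y => dz (fun w => χ w * F (x - w)) y * c0 y) cell :=
    IntegrableOn.continuousOn_mul_of_subset
      (fun y _ => (dz_cont (hχ.mul hG).contDiffAt).continuousWithinAt) c0_int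
      (isCompact_closedBall _ _) meas_cell cell_sub
  have i3 : IntegrableOn (fun y => F (x - y)) cell := int_cont hG.continuous.continuousOn
  have e3 : ∫ y in cell, KK y * dz F (x - y) = ∫ y in cell,
      (-(dz (fun w => χ w * F (x - w)) y * c0 y) -
        dz (fun w => ((1 - χ w) * c0 w + S w) * F (x - w)) y - F (x - y)) := by
    refine setIntegral_congr_ae meas_cell ?_
    filter_upwards [Measure.ae_ne volume (0 : ℂ)] with y hy0 hy
    have hb := cb_sub (cell_sub hy)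
    have d1 := (hχ.differentiable (by simp)) y
    have d2 := (hG.differentiable (by simp)) y
    have d3 := (c0_sm hy0).differentiableAt (by simp)
    have d4 := (hSa y hb).differentiableAt (by simp)
    have d5 := (hq y).differentiableAt (by simp)
    have d6 : dz S y = -1 := by
      rw [dz, hS1 y hb]
      norm_num
    rw [dz_mul d1 d2, dz_mul (d5.fun_add d4) d2, dz_add d5 d4, dz_mul (d1.const_sub 1) d3, dz_one_sub,
      c0_dz hy0, d6, dz_refl (hF.differentiable (by simp)), hS2 y hb hy0, c0]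
    ring
  have i4 : IntegrableOn (fun y => -(dz (fun w => χ w * F (x - w)) y * c0 y)) cell := i2.neg
  have i5 : IntegrableOn (fun y => -(dz (fun w => χ w * F (x - w)) y * c0 y) -
      dz (fun w => ((1 - χ w) * c0 w + S w) * F (x - w)) y) cell := i4.sub i1
  rw [e3, integral_sub i5 i3, integral_sub i4 i1, integral_neg, e1, e2,
    refl_int hF.continuous hp, hχ1 0 (by simp)]
  simp

lemma shift (n : ℤ × ℤ) : KK = fun w => KK (w - lat n) := by
  funext w
  rw [← KK_per n (w - lat n), sub_add_cancel]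

lemma KK_sm {y : ℂ} (hy : y ∉ range lat) : ContDiffAt ℝ ∞ KK y := by
  obtain ⟨S, hS, -, hS2⟩ := KK_split
  obtain ⟨n, hn⟩ := ex_cell y
  have h0 : y - lat n ≠ 0 := fun h => hy ⟨n, (sub_eq_zero.1 h).symm⟩
  have hb := isOpen_ball.mem_nhds (cb_sub (cell_sub hn))
  have h1 : ContDiffAt ℝ ∞ KK (y - lat n) := by
    refine ((c0_sm h0).add (hS.contDiffAt hb)).congr_of_eventuallyEq ?_
    filter_upwards [hb, isOpen_ne.mem_nhds h0] with w h1 h2
    exact hS2 w h1 h2
  rw [shift n]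
  exact h1.comp y (f := fun w => w - lat n) (contDiffAt_id.sub contDiffAt_const)

lemma not_lat {y : ℂ} (hy : 0 < pn y) : y ∉ range lat := fun h =>
  hy.ne' (infDist_zero_of_mem h)

lemma KK_bd (j : ℕ) : ∃ C : ℝ, 0 ≤ C ∧ ∀ y, 0 < pn y → nD j KK y ≤ C / pn y ^ (1 + j) := by
  obtain ⟨S, hS, -, hS2⟩ := KK_split
  have hSa : ∀ y ∈ ball (0 : ℂ) (3 / 4), ContDiffAt ℝ j S y := fun y hy =>
    (hS.contDiffAt (isOpen_ball.mem_nhds hy)).of_le (by exact_mod_cast le_top)
  obtain ⟨M, hM⟩ := (isCompact_closedBall (0 : ℂ) (5 / 7)).exists_bound_of_continuousOn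
    (f := iteratedFDeriv ℝ j S) fun y hy =>
      ((hSa y (cb_sub hy)).continuousAt_iteratedFDeriv le_rfl).continuousWithinAt
  have hM0 : 0 ≤ M := (norm_nonneg _).trans (hM 0 (mem_closedBall_self (by norm_num)))
  refine ⟨j.factorial + M, by positivity, fun y hy => ?_⟩
  obtain ⟨n, hn⟩ := ex_cell y
  have h0 : y - lat n ≠ 0 := fun h => not_lat hy ⟨n, (sub_eq_zero.1 h).symm⟩
  have hb := cb_sub (cell_sub hn)
  have h1 : KK =ᶠ[𝓝 (y - lat n)] c0 + S := by
    filter_upwards [isOpen_ball.mem_nhds hb, isOpen_ne.mem_nhds h0] with w h1 h2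
    exact hS2 w h1 h2
  have h2 : pn y ≤ ‖y - lat n‖ := by
    rw [← dist_eq_norm]
    exact infDist_le_dist_of_mem ⟨n, rfl⟩
  have h3 : ‖y - lat n‖ ^ (1 + j) ≤ 1 :=
    pow_le_one₀ (norm_nonneg _) ((cell_norm hn).trans (by norm_num))
  have h4 : 0 < ‖y - lat n‖ ^ (1 + j) := pow_pos (norm_pos_iff.2 h0) _
  rw [nD, shift n, iteratedFDeriv_comp_sub, (h1.iteratedFDeriv ℝ j).eq_of_nhds,
    iteratedFDeriv_add_apply ((c0_sm h0).of_le (by exact_mod_cast le_top)) (hSa _ hb)]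
  calc _ ≤ nD j c0 (y - lat n) + M := (norm_add_le _ _).trans (add_le_add le_rfl (hM _ (cell_sub hn)))
    _ ≤ j.factorial / ‖y - lat n‖ ^ (1 + j) + M / ‖y - lat n‖ ^ (1 + j) :=
      add_le_add (c0_bd h0 j) (le_div_self hM0 h4 h3)
    _ = (j.factorial + M) / ‖y - lat n‖ ^ (1 + j) := (add_div _ _ _).symm
    _ ≤ _ := by gcongr

end KER

theorem st_KER : St_KER := by
  choose C h0 hC using KER.KK_bd
  have h1 : 0 ≤ ∑ j ∈ Finset.range 5, C j := Finset.sum_nonneg fun j _ => h0 j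
  refine ⟨K95.KK, 1 + ∑ j ∈ Finset.range 5, C j, by linarith, KER.KK_per, ?_,
    fun y hy => (KER.KK_sm (KER.not_lat hy)).contDiffWithinAt, fun j hj y hy => ?_, KER.solve⟩
  · refine measurable_of_countable_not_continuousAt ((countable_range lat).mono fun y hy => ?_)
    by_contra h
    exact hy (KER.KK_sm h).continuousAt
  · refine (hC j y hy).trans ?_
    have h2 := Finset.single_le_sum (s := Finset.range 5) (fun j _ => h0 j)
      (Finset.mem_range.2 (Nat.lt_succ_of_le hj))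
    gcongr
    linarith

end

end Pool.Agent.Lib.EUL
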