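import Pool.Agent.Lib.EUL.Blue

/-! Block LERA: qualitative properties of the Leray projection. -/

set_option autoImplicit false

namespace Pool.Agent.Lib.EUL

open MeasureTheory Set Filter Topology
open scoped ContDiff Classical

noncomputable section

namespace LERA

section gen
variable {E : Type} [NormedAddCommGroup E] [NormedSpace ℝ E]

/-- first order operator with constant coefficients -/
def Dc (a b : ℂ) (v w : E) (F : E → ℂ) (p : E) : ℂ := a * fderiv ℝ F p v + b * fderiv ℝ F p w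

theorem sm_d {F : E → ℂ} (hF : ContDiff ℝ ∞ F) (v : E) : ContDiff ℝ ∞ fun p => fderiv ℝ F p v :=
  (hF.fderiv_right (m := ∞) (by simp)).clm_apply contDiff_const

theorem sm_Dc {F : E → ℂ} (hF : ContDiff ℝ ∞ F) (a b : ℂ) (v w : E) :
    ContDiff ℝ ∞ (Dc a b v w F) :=
  (contDiff_const.mul (sm_d hF v)).add (contDiff_const.mul (sm_d hF w))

theorem d_Dc {F : E → ℂ} (hF : ContDiff ℝ ∞ F) (a b : ℂ) (v w u p : E) :
    fderiv ℝ (Dc a b v w F) p u =
      a * fderiv ℝ (fderiv ℝ F) p u v + b * fderiv ℝ (fderiv ℝ F) p u w := by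
  have h0 := ((hF.fderiv_right (m := ∞) (by simp)).differentiable (by simp) p).hasFDerivAt
  have h1 := ((h0.clm_apply (hasFDerivAt_const v p)).const_mul a).add
    ((h0.clm_apply (hasFDerivAt_const w p)).const_mul b)
  have h2 : fderiv ℝ (Dc a b v w F) p = _ := h1.fderiv
  rw [h2]
  simp

theorem Dc_comm {F : E → ℂ} (hF : ContDiff ℝ ∞ F) (a b a' b' : ℂ) (v w v' w' : E) :
    Dc a b v w (Dc a' b' v' w' F) = Dc a' b' v' w' (Dc a b v w F) := by
  ext p
  have hs := (hF.contDiffAt (x := p)).isSymmSndFDerivAt (by simp; exact WithTop.coe_le_coe.2 le_top)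
  rw [Dc, Dc, d_Dc hF, d_Dc hF, d_Dc hF, d_Dc hF, hs v v', hs v w', hs w v', hs w w']
  ring

theorem Dc_sub {F G : E → ℂ} (hF : ContDiff ℝ ∞ F) (hG : ContDiff ℝ ∞ G) (a b : ℂ) (v w p : E) :
    Dc a b v w (fun q => F q - G q) p = Dc a b v w F p - Dc a b v w G p := by
  unfold Dc
  rw [fderiv_fun_sub (hF.differentiable (by simp) p) (hG.differentiable (by simp) p)]
  simp only [sub_apply]
  ring

theorem d_conj {F : E → ℂ} (hF : ContDiff ℝ ∞ F) (p v : E) :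
    fderiv ℝ (fun q => (starRingEnd ℂ) (F q)) p v = (starRingEnd ℂ) (fderiv ℝ F p v) := by
  have h : fderiv ℝ (fun q => (starRingEnd ℂ) (F q)) p = _ :=
    ((Complex.conjCLE : ℂ →L[ℝ] ℂ).hasFDerivAt.comp p
      (hF.differentiable (by simp) p).hasFDerivAt).fderiv
  rw [h]; rfl

end gen

theorem dz_eq (f : ℂ → ℂ) : dz f = Dc (1 / 2) (-Complex.I / 2) 1 Complex.I f := by
  ext x; unfold dz Dc; ring

theorem dzb_eq (f : ℂ → ℂ) : dzb f = Dc (1 / 2) (Complex.I / 2) 1 Complex.I f := by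
  ext x; unfold dzb Dc; ring

theorem sm_dz {f : ℂ → ℂ} (h : ContDiff ℝ ∞ f) : ContDiff ℝ ∞ (dz f) := by
  rw [dz_eq]; exact sm_Dc h _ _ _ _

theorem sm_dzb {f : ℂ → ℂ} (h : ContDiff ℝ ∞ f) : ContDiff ℝ ∞ (dzb f) := by
  rw [dzb_eq]; exact sm_Dc h _ _ _ _

theorem dz_dzb {f : ℂ → ℂ} (h : ContDiff ℝ ∞ f) : dz (dzb f) = dzb (dz f) := by
  rw [dz_eq, dzb_eq, dzb_eq, dz_eq, Dc_comm h]

theorem sm_cj {f : ℂ → ℂ} (h : ContDiff ℝ ∞ f) : ContDiff ℝ ∞ (cj f) :=
  Complex.conjCLE.contDiff.comp h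

theorem dzb_cj {f : ℂ → ℂ} (h : ContDiff ℝ ∞ f) : dzb (cj f) = cj (dz f) := by
  ext x
  unfold dzb dz cj
  rw [d_conj h, d_conj h]
  simp only [map_div₀, map_sub, map_mul, Complex.conj_I, map_ofNat]
  ring

theorem peri_Dc {f : ℂ → ℂ} (h : Peri f) (a b v w : ℂ) : Peri (Dc a b v w f) := by
  intro n z
  have e : (fun x => f (x + lat n)) = f := funext (h n)
  unfold Dc
  rw [← fderiv_comp_add_right, e]

theorem sl {f : ℝ → ℂ → ℂ} (h : Sm f) (t : ℝ) : ContDiff ℝ ∞ (f t) :=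
  ContDiff.comp (g := fun p : ℝ × ℂ => f p.1 p.2) (f := fun x => (t, x)) h
    (contDiff_const.prodMk contDiff_id)

theorem Dc_sl {f : ℝ → ℂ → ℂ} (h : Sm f) (a b v w : ℂ) (t : ℝ) (x : ℂ) :
    Dc a b v w (f t) x = Dc a b ((0, v) : ℝ × ℂ) (0, w) (fun p => f p.1 p.2) (t, x) := by
  have h1 : fderiv ℝ (f t) x = _ := ((ContDiff.differentiable h (by simp) (t, x)).hasFDerivAt.comp x
    (hasFDerivAt_prodMk_right t x)).fderiv
  unfold Dc
  rw [h1]; rfl

theorem dt_eq {f : ℝ → ℂ → ℂ} (h : Sm f) (t : ℝ) (x : ℂ) :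
    dt f t x = Dc 1 0 ((1, 0) : ℝ × ℂ) 0 (fun p => f p.1 p.2) (t, x) := by
  have h0 := (ContDiff.differentiable h (by simp) (t, x)).hasFDerivAt.comp_hasDerivAt t
      (f := fun s => (s, x)) ((hasDerivAt_id t).prodMk (hasDerivAt_const t x))
  have h1 : deriv (fun s => f s x) t = _ := h0.deriv
  unfold dt Dc
  rw [h1]; simp

theorem sm_Dc2 {f : ℝ → ℂ → ℂ} (h : Sm f) (a b v w : ℂ) : Sm fun t => Dc a b v w (f t) := by
  unfold Sm
  simp only [Dc_sl h]
  exact sm_Dc h _ _ _ _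

theorem sp_Dc {f : ℝ → ℂ → ℂ} (h : SP f) (a b v w : ℂ) : SP fun t => Dc a b v w (f t) :=
  ⟨sm_Dc2 h.1 a b v w, fun t => peri_Dc (h.2 t) a b v w⟩

theorem sm_dt {f : ℝ → ℂ → ℂ} (h : Sm f) : Sm (dt f) := by
  unfold Sm
  simp only [dt_eq h]
  exact sm_Dc h _ _ _ _

theorem dt_Dc {f : ℝ → ℂ → ℂ} (h : Sm f) (a b v w : ℂ) :
    dt (fun s => Dc a b v w (f s)) = fun t => Dc a b v w (dt f t) := by
  ext t x
  rw [dt_eq (sm_Dc2 h a b v w), Dc_sl (sm_dt h)]
  simp only [Dc_sl h, dt_eq h]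
  exact congrFun (Dc_comm h _ _ _ _ _ _ _ _) _

theorem dt_cj {f : ℝ → ℂ → ℂ} (h : Sm f) : dt (fun s => cj (f s)) = fun t => cj (dt f t) := by
  ext t x
  have h2 : Sm fun s => cj (f s) := Complex.conjCLE.contDiff.comp h
  rw [dt_eq h2, cj, dt_eq h]
  unfold Dc cj
  rw [d_conj h, d_conj h]
  simp

end LERA

open LERA in
theorem st_LERA (hC : St_CAU) : St_LERA := by
  intro K CK hK Q hQ
  obtain ⟨-, h2, h3, -⟩ := hC K CK hK
  have hc : SP fun t => cj (Q t) :=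
    ⟨Complex.conjCLE.contDiff.comp hQ.1, fun t n z => by simp only [cj, hQ.2 t n z]⟩
  obtain ⟨hu, hut⟩ := h2 _ hc
  have s1 : SP fun t => dz (Q t) := by simp only [dz_eq]; exact sp_Dc hQ _ _ _ _
  have s2 : SP fun t => dzb (Cau K (cj (Q t))) := by simp only [dzb_eq]; exact sp_Dc hu _ _ _ _
  have s3 : SP fun t => dzb (dzb (Cau K (cj (Q t)))) := by
    have := sp_Dc s2 (1 / 2) (Complex.I / 2) 1 Complex.I
    simpa only [← dzb_eq] using this
  have key : ∀ t, dz (dzb (Cau K (cj (Q t)))) = cj (dz (Q t)) := by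
    intro t
    have e : dz (Cau K (cj (Q t))) = fun x => cj (Q t) x - ∫ y in cell, cj (Q t) y :=
      funext (h3 _ (sl hc.1 t) (hc.2 t)).2.2.2.2
    rw [dz_dzb (sl hu.1 t), e, ← dzb_cj (sl hQ.1 t)]
    ext x
    unfold dzb
    rw [fderiv_sub_const]
  refine ⟨⟨ContDiff.sub s1.1 s3.1, fun t n z => ?_⟩, fun t x => ?_, fun t => ?_, fun t x => ?_⟩
  · exact congrArg₂ (· - ·) (s1.2 t n z) (s3.2 t n z)
  · have e : dz (Ler K (Q t)) x = dz (dz (Q t)) x - dz (dzb (dzb (Cau K (cj (Q t))))) x := by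
      rw [dz_eq (Ler K (Q t)), dz_eq (dz (Q t)), dz_eq (dzb _)]
      exact Dc_sub (sl s1.1 t) (sl s3.1 t) _ _ _ _ _
    rw [e, dz_dzb (sl s2.1 t), key, dzb_cj (sl s1.1 t)]
    simp [cj]
  · refine ⟨fun y => (dzb (Cau K (cj (Q t))) y).re, Complex.reCLM.contDiff.comp (sl s2.1 t),
      fun n z => congrArg Complex.re (s2.2 t n z), fun x => ?_⟩
    have hB := sl s2.1 t
    have e : (fun y => (((dzb (Cau K (cj (Q t))) y).re : ℝ) : ℂ)) =
        fun y => (1 / 2 : ℂ) * (dzb (Cau K (cj (Q t))) y + cj (dzb (Cau K (cj (Q t)))) y) := by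
      ext y
      rw [cj, Complex.add_conj]
      push_cast
      ring
    have e2 : dzb (cj (dzb (Cau K (cj (Q t))))) x = dz (Q t) x := by
      rw [dzb_cj hB, key]
      simp [cj]
    have d1 := hB.differentiable (by simp) x
    have d2 := (sm_cj hB).differentiable (by simp) x
    unfold grad Ler
    beta_reduce
    rw [e, two_mul (dz (Q t) x)]
    nth_rw 1 [← e2]
    generalize dzb (Cau K (cj (Q t))) = B at d1 d2 ⊢
    unfold dzb
    rw [fderiv_const_mul (d1.fun_add d2), fderiv_fun_add d1 d2]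
    simp only [smul_apply, add_apply, smul_eq_mul]
    ring
  · have e : dt (fun s => Ler K (Q s)) t x =
        dt (fun s => dz (Q s)) t x - dt (fun s => dzb (dzb (Cau K (cj (Q s))))) t x := by
      rw [dt_eq (f := fun s => Ler K (Q s)) (ContDiff.sub s1.1 s3.1), dt_eq s1.1, dt_eq s3.1]
      exact Dc_sub s1.1 s3.1 _ _ _ _ _
    have e1 : dt (fun s => dz (Q s)) = fun t => dz (dt Q t) := by
      simp only [dz_eq]; exact dt_Dc hQ.1 _ _ _ _
    have e2 : dt (fun s => dzb (Cau K (cj (Q s)))) = fun t => dzb (Cau K (cj (dt Q t))) := by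
      have e3 : dt (fun s => Cau K (cj (Q s))) = fun t => Cau K (cj (dt Q t)) := by
        ext t x
        rw [hut, dt_cj hQ.1]
      simp only [dzb_eq]
      rw [dt_Dc hu.1, e3]
    have e4 := dt_Dc s2.1 (1 / 2) (Complex.I / 2) 1 Complex.I
    simp only [← dzb_eq] at e4
    rw [e, e1, e4, e2]
    rfl

end

end Pool.Agent.Lib.EUL
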