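import Pool.Agent.Lib.EUL.Blue

/-! Block LERB: envelope of the Leray projection of a localised stress. -/

set_option autoImplicit false

namespace Pool.Agent.Lib.EUL

open MeasureTheory Set Filter Topology
open scoped ContDiff Classical

noncomputable section

namespace LERB

theorem lat_sep {m n : ℤ × ℤ} (h : m ≠ n) : 1 ≤ ‖lat m - lat n‖ := by
  by_cases h1 : m.1 = n.1
  · have h2 : m.2 ≠ n.2 := fun e => h (Prod.ext h1 e)
    refine le_trans ?_ (Complex.abs_im_le_norm _)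
    have : (lat m - lat n).im = ((m.2 - n.2 : ℤ) : ℝ) := by simp [lat]
    rw [this, ← Int.cast_abs]
    exact_mod_cast Int.one_le_abs (sub_ne_zero.2 h2)
  · refine le_trans ?_ (Complex.abs_re_le_norm _)
    have : (lat m - lat n).re = ((m.1 - n.1 : ℤ) : ℝ) := by simp [lat]
    rw [this, ← Int.cast_abs]
    exact_mod_cast Int.one_le_abs (sub_ne_zero.2 h1)

theorem pn_le (z : ℂ) (n : ℤ × ℤ) : pn z ≤ ‖z - lat n‖ := by
  rw [← dist_eq_norm]; exact Metric.infDist_le_dist_of_mem ⟨n, rfl⟩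

theorem exists_lt {z : ℂ} {r : ℝ} (h : pn z < r) : ∃ n, ‖z - lat n‖ < r := by
  obtain ⟨_, ⟨n, rfl⟩, hn⟩ := (Metric.infDist_lt_iff (range_nonempty lat)).1 h
  exact ⟨n, by rwa [← dist_eq_norm]⟩

theorem le_pn {z : ℂ} {n : ℤ × ℤ} (h : ‖z - lat n‖ ≤ 1 / 2) : ‖z - lat n‖ ≤ pn z := by
  refine (Metric.le_infDist (range_nonempty lat)).2 ?_
  rintro _ ⟨m, rfl⟩
  rw [dist_eq_norm]
  by_cases e : m = n
  · rw [e]
  · have h1 := lat_sep e
    have h2 : ‖lat m - lat n‖ ≤ ‖z - lat n‖ + ‖z - lat m‖ := by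
      have : lat m - lat n = (z - lat n) - (z - lat m) := by ring
      rw [this]; exact norm_sub_le _ _
    linarith

theorem pn_le_add (x y : ℂ) : pn x ≤ pn y + ‖x - y‖ := by
  rw [← dist_eq_norm]; exact Metric.infDist_le_infDist_add_dist

theorem nD_nonneg (k : ℕ) (f : ℂ → ℂ) (x : ℂ) : 0 ≤ nD k f x := norm_nonneg _

theorem nD_zero (f : ℂ → ℂ) (x : ℂ) : nD 0 f x = ‖f x‖ := norm_iteratedFDeriv_zero

theorem nD_congr {f g : ℂ → ℂ} {x : ℂ} (h : f =ᶠ[𝓝 x] g) (k : ℕ) : nD k f x = nD k g x := by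
  simp only [nD, (h.iteratedFDeriv ℝ k).eq_of_nhds]

theorem nD_eq_zero {f : ℂ → ℂ} {x : ℂ} (h : f =ᶠ[𝓝 x] 0) (k : ℕ) : nD k f x = 0 := by
  rw [nD_congr h]; simp [nD]

theorem nD_out {f : ℂ → ℂ} {R : ℝ} (h : ∀ y, R < ‖y‖ → f y = 0) {x : ℂ} (hx : R < ‖x‖) (k : ℕ) :
    nD k f x = 0 := by
  refine nD_eq_zero ?_ k
  filter_upwards [(isOpen_lt continuous_const continuous_norm).mem_nhds hx] with y hy using h y hy

theorem nD_sub_le {f g : ℂ → ℂ} (hf : ContDiff ℝ ∞ f) (hg : ContDiff ℝ ∞ g) (k : ℕ) (x : ℂ) :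
    nD k (fun y => f y - g y) x ≤ nD k f x + nD k g x := by
  have e := iteratedFDeriv_sub_apply (𝕜 := ℝ) (i := k) (x := x)
    (hf.of_le (by exact_mod_cast le_top)).contDiffAt (hg.of_le (by exact_mod_cast le_top)).contDiffAt
  unfold nD
  rw [show (fun y => f y - g y) = f - g from rfl, e]
  exact norm_sub_le _ _

/-- the linear form behind `dz` and `dzb` -/
def Ls (c : ℂ) : (ℂ →L[ℝ] ℂ) →L[ℝ] ℂ :=
  (1 / 2 : ℂ) • (ContinuousLinearMap.apply ℝ ℂ (1 : ℂ) + c • ContinuousLinearMap.apply ℝ ℂ Complex.I)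

theorem Ls_apply (c : ℂ) (A : ℂ →L[ℝ] ℂ) : Ls c A = (A 1 + c * A Complex.I) / 2 := by
  simp [Ls]; ring

theorem norm_Ls {c : ℂ} (hc : ‖c‖ = 1) : ‖Ls c‖ ≤ 1 := by
  refine ContinuousLinearMap.opNorm_le_bound _ zero_le_one fun A => ?_
  rw [Ls_apply, norm_div]
  have h1 := A.le_opNorm 1
  have h2 := A.le_opNorm Complex.I
  have h3 := norm_add_le (A 1) (c * A Complex.I)
  rw [norm_mul, hc] at h3
  simp only [norm_one, Complex.norm_I, mul_one] at h1 h2
  simp only [Complex.norm_ofNat]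
  linarith

theorem dz_eq (f : ℂ → ℂ) : dz f = Ls (-Complex.I) ∘ fderiv ℝ f := by
  funext x; simp only [dz, Function.comp_apply, Ls_apply]; ring

theorem dzb_eq (f : ℂ → ℂ) : dzb f = Ls Complex.I ∘ fderiv ℝ f := by
  funext x; simp only [dzb, Function.comp_apply, Ls_apply]

theorem sm_fderiv {f : ℂ → ℂ} (hf : ContDiff ℝ ∞ f) : ContDiff ℝ ∞ (fderiv ℝ f) :=
  (contDiff_infty_iff_fderiv.1 hf).2

theorem sm_Ls (c : ℂ) {f : ℂ → ℂ} (hf : ContDiff ℝ ∞ f) : ContDiff ℝ ∞ (Ls c ∘ fderiv ℝ f) :=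
  (Ls c).contDiff.comp (sm_fderiv hf)

theorem nD_Ls {c : ℂ} (hc : ‖c‖ = 1) {f : ℂ → ℂ} (hf : ContDiff ℝ ∞ f) (k : ℕ) (x : ℂ) :
    nD k (Ls c ∘ fderiv ℝ f) x ≤ nD (k + 1) f x := by
  have := (Ls c).norm_iteratedFDeriv_comp_left (n := k) (x := x) (sm_fderiv hf).contDiffAt
    (by exact_mod_cast le_top)
  rw [norm_iteratedFDeriv_fderiv] at this
  exact this.trans (mul_le_of_le_one_left (norm_nonneg _) (norm_Ls hc))

theorem sm_dz {f : ℂ → ℂ} (hf : ContDiff ℝ ∞ f) : ContDiff ℝ ∞ (dz f) := by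
  rw [dz_eq]; exact sm_Ls _ hf

theorem sm_dzb {f : ℂ → ℂ} (hf : ContDiff ℝ ∞ f) : ContDiff ℝ ∞ (dzb f) := by
  rw [dzb_eq]; exact sm_Ls _ hf

theorem nD_dz {f : ℂ → ℂ} (hf : ContDiff ℝ ∞ f) (k : ℕ) (x : ℂ) :
    nD k (dz f) x ≤ nD (k + 1) f x := by
  rw [dz_eq]; exact nD_Ls (by simp) hf k x

theorem nD_dzb {f : ℂ → ℂ} (hf : ContDiff ℝ ∞ f) (k : ℕ) (x : ℂ) :
    nD k (dzb f) x ≤ nD (k + 1) f x := by
  rw [dzb_eq]; exact nD_Ls (by simp) hf k x

theorem nD_cj (f : ℂ → ℂ) (k : ℕ) (x : ℂ) : nD k (cj f) x = nD k f x :=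
  Complex.conjLIE.norm_iteratedFDeriv_comp_left f x k

theorem sm_cj {f : ℂ → ℂ} (hf : ContDiff ℝ ∞ f) : ContDiff ℝ ∞ (cj f) :=
  Complex.conjCLE.contDiff.comp hf

/-- convolution on the plane -/
def cv (g h : ℂ → ℂ) (x : ℂ) : ℂ := ∫ w, g w * h (x - w)

theorem cv_eq (g h : ℂ → ℂ) : cv g h = convolution g h (ContinuousLinearMap.mul ℝ ℂ) volume := rfl

theorem sm_cv {g h : ℂ → ℂ} (hg : LocallyIntegrable g volume) (hh : ContDiff ℝ ∞ h)
    (hc : HasCompactSupport h) : ContDiff ℝ ∞ (cv g h) := by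
  rw [cv_eq]; exact hc.contDiff_convolution_right _ hg hh

theorem iter_cv {g : ℂ → ℂ} (hg : LocallyIntegrable g volume) (k : ℕ) :
    ∀ h : ℂ → ℂ, ContDiff ℝ ∞ h → HasCompactSupport h → ∀ (x : ℂ) (m : Fin k → ℂ),
      iteratedFDeriv ℝ k (cv g h) x m = ∫ w, g w * iteratedFDeriv ℝ k h (x - w) m := by
  induction k with
  | zero => intro h _ _ x m; simp [cv]
  | succ k ih =>
    intro h hh hc x m
    have e : (fun y => fderiv ℝ (cv g h) y (m (Fin.last k))) =
        cv g fun a => fderiv ℝ h a (m (Fin.last k)) := by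
      funext y
      rw [cv_eq, (hc.hasFDerivAt_convolution_right _ hg (hh.of_le (by exact_mod_cast le_top)) y).fderiv,
        convolution_precompR_apply _ hg (hc.fderiv ℝ) (sm_fderiv hh).continuous]
      rfl
    rw [iteratedFDeriv_succ_apply_right, ← iteratedFDeriv_clm_apply_const_apply
      (sm_fderiv (sm_cv hg hh hc)) (by exact_mod_cast le_top), e,
      ih _ ((sm_fderiv hh).clm_apply contDiff_const) (hc.fderiv_apply ℝ _)]
    congr 1
    funext w
    rw [iteratedFDeriv_succ_apply_right, iteratedFDeriv_clm_apply_const_apply (sm_fderiv hh)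
      (by exact_mod_cast le_top)]

theorem nD_cv_le {g h : ℂ → ℂ} (hg : LocallyIntegrable g volume) (hh : ContDiff ℝ ∞ h)
    (hc : HasCompactSupport h) (k : ℕ) (x : ℂ) {b : ℂ → ℝ} (hb : Integrable b)
    (hle : ∀ᵐ w, ‖g w‖ * nD k h (x - w) ≤ b w) : nD k (cv g h) x ≤ ∫ w, b w := by
  refine ContinuousMultilinearMap.opNorm_le_bound (integral_nonneg_of_ae ?_) fun m => ?_
  · filter_upwards [hle] with w hw
    exact (mul_nonneg (norm_nonneg _) (nD_nonneg _ _ _)).trans hw
  · rw [iter_cv hg k h hh hc, ← integral_mul_const]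
    refine norm_integral_le_of_norm_le (hb.mul_const _) ?_
    filter_upwards [hle] with w hw
    rw [norm_mul]
    have h0 : 0 ≤ ∏ i, ‖m i‖ := Finset.prod_nonneg fun _ _ => norm_nonneg _
    calc ‖g w‖ * ‖iteratedFDeriv ℝ k h (x - w) m‖
        ≤ ‖g w‖ * (nD k h (x - w) * ∏ i, ‖m i‖) :=
          mul_le_mul_of_nonneg_left (ContinuousMultilinearMap.le_opNorm _ _) (norm_nonneg _)
      _ ≤ b w * ∏ i, ‖m i‖ := by
          rw [← mul_assoc]; exact mul_le_mul_of_nonneg_right hw h0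

/-- the truncated singularity -/
def ph (r : ℝ) (w : ℂ) : ℝ := (Metric.ball (0 : ℂ) r).indicator (fun w => ‖w‖⁻¹) w

theorem ph_nonneg (r : ℝ) (w : ℂ) : 0 ≤ ph r w :=
  indicator_nonneg (fun _ _ => inv_nonneg.2 (norm_nonneg _)) _

theorem int_ph (r : ℝ) : Integrable (ph r) := by
  refine (integrable_indicator_iff Metric.isOpen_ball.measurableSet).2 ?_
  refine integrableOn_ball_of_norm_le_rpow (C := 1) (α := 1) (by simp) (by simp)
    (Eventually.of_forall fun x => ?_) measurable_norm.inv.aestronglyMeasurable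
  simp [Real.rpow_neg_one]

theorem integral_ph {r : ℝ} (hr : 0 ≤ r) : ∫ w, ph r w ≤ 8 * r := by
  have e : ph r = fun w : ℂ => (Iio r).indicator (fun s : ℝ => s⁻¹) ‖w‖ := by
    funext w; simp [ph, indicator]
  rw [e, integral_fun_norm_addHaar volume fun s => (Iio r).indicator (fun s : ℝ => s⁻¹) s]
  have e2 : ∫ y in Ioi (0 : ℝ), y ^ (Module.finrank ℝ ℂ - 1) • (Iio r).indicator (fun s : ℝ => s⁻¹) y
      = r := by
    rw [setIntegral_congr_fun measurableSet_Ioi (g := (Iio r).indicator fun _ => (1 : ℝ)),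
      setIntegral_indicator measurableSet_Iio, Ioi_inter_Iio]
    · simp [hr]
    · intro y hy
      have : y ≠ 0 := ne_of_gt hy
      by_cases h : y < r <;> simp [indicator, h, this]
  rw [e2]
  have e3 : (volume : Measure ℂ).real (Metric.ball 0 1) = Real.pi := by
    simp [Measure.real, Complex.volume_ball]
  rw [e3]
  simp only [Complex.finrank_real_complex, nsmul_eq_mul, smul_eq_mul, Nat.cast_ofNat]
  nlinarith [Real.pi_le_four]

theorem ker_le {K : ℂ → ℂ} {CK : ℝ} (hK : IsKer K CK) (n : ℤ × ℤ) {r : ℝ} (hr : r ≤ 1 / 2) :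
    ∀ᵐ w, ‖w - lat n‖ < r → ‖K w‖ ≤ CK * ph r (w - lat n) := by
  filter_upwards [Measure.ae_ne volume (lat n)] with w hw h
  have h0 : 0 < ‖w - lat n‖ := norm_pos_iff.2 (sub_ne_zero.2 hw)
  have h1 := le_pn (h.le.trans hr)
  have h2 := hK.bound 0 (by norm_num) w (h0.trans_le h1)
  rw [nD_zero, add_zero, pow_one] at h2
  rw [ph, indicator_of_mem (by simpa using h), ← div_eq_mul_inv]
  exact h2.trans (div_le_div_of_nonneg_left (by linarith [hK.one_le]) h0 h1)

theorem ker_loc {K : ℂ → ℂ} {CK : ℝ} (hK : IsKer K CK) : LocallyIntegrable K volume := by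
  intro x
  refine ⟨Metric.ball x (1 / 8), Metric.ball_mem_nhds x (by norm_num), ?_⟩
  by_cases h : pn x < 1 / 4
  · obtain ⟨n, hn⟩ := exists_lt h
    refine Integrable.mono' (((int_ph (1 / 2)).comp_sub_right (lat n)).const_mul CK).integrableOn
      hK.meas.aestronglyMeasurable ?_
    rw [ae_restrict_iff' Metric.isOpen_ball.measurableSet]
    filter_upwards [ker_le hK n le_rfl] with w hw hx
    refine hw ?_
    rw [Metric.mem_ball, dist_eq_norm] at hx
    have : ‖w - lat n‖ ≤ ‖w - x‖ + ‖x - lat n‖ := norm_sub_le_norm_sub_add_norm_sub _ _ _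
    linarith
  · refine Measure.integrableOn_of_bounded (M := CK / (1 / 8)) measure_ball_lt_top.ne
      hK.meas.aestronglyMeasurable ?_
    rw [ae_restrict_iff' Metric.isOpen_ball.measurableSet]
    refine Eventually.of_forall fun w hx => ?_
    rw [Metric.mem_ball, dist_eq_norm, norm_sub_rev] at hx
    have h1 := pn_le_add x w
    have h3 : 1 / 8 ≤ pn w := by linarith [not_lt.1 h]
    have h2 := hK.bound 0 (by norm_num) w (by linarith)
    rw [nD_zero, add_zero, pow_one] at h2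
    exact h2.trans (div_le_div_of_nonneg_left (by linarith [hK.one_le]) (by norm_num) h3)

theorem near_le {K : ℂ → ℂ} {CK : ℝ} (hK : IsKer K CK) {f : ℂ → ℂ} {R A : ℝ} (hf : ContDiff ℝ ∞ f)
    (hs : ∀ y, R < ‖y‖ → f y = 0) (hc : HasCompactSupport f) (hR0 : 0 ≤ R) (hR : R ≤ 1 / 8) {k : ℕ}
    (hA : ∀ y, nD k f y ≤ A) {y : ℂ} {n : ℤ × ℤ} (hy : ‖y - lat n‖ < 2 * R) :
    nD k (cv K f) y ≤ 24 * CK * A * R := by
  have hA0 : 0 ≤ A := (nD_nonneg _ _ _).trans (hA 0)
  have hC : 0 ≤ CK := by linarith [hK.one_le]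
  refine (nD_cv_le (ker_loc hK) hf hc k y
    (((int_ph (3 * R)).comp_sub_right (lat n)).const_mul (CK * A)) ?_).trans ?_
  · filter_upwards [ker_le hK n (r := 3 * R) (by linarith)] with w hw
    by_cases h : R < ‖y - w‖
    · rw [nD_out hs h, mul_zero]
      exact mul_nonneg (mul_nonneg hC hA0) (ph_nonneg _ _)
    · have : ‖w - lat n‖ ≤ ‖w - y‖ + ‖y - lat n‖ := norm_sub_le_norm_sub_add_norm_sub _ _ _
      rw [norm_sub_rev w y] at this
      have h1 := hw (by linarith [not_lt.1 h])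
      calc ‖K w‖ * nD k f (y - w) ≤ CK * ph (3 * R) (w - lat n) * A :=
            mul_le_mul h1 (hA _) (nD_nonneg _ _ _) (mul_nonneg hC (ph_nonneg _ _))
        _ = _ := by ring
  · rw [integral_const_mul, integral_sub_right_eq_self (ph (3 * R)) (lat n)]
    have := mul_le_mul_of_nonneg_left (integral_ph (r := 3 * R) (by linarith)) (mul_nonneg hC hA0)
    linarith

theorem far_le {K : ℂ → ℂ} {CK : ℝ} (hK : IsKer K CK) {f : ℂ → ℂ} {R a : ℝ} (hf : Continuous f)
    (hs : ∀ y, R < ‖y‖ → f y = 0) (hR0 : 0 < R) (ha : ∀ y, ‖f y‖ ≤ a) {k : ℕ} (hk : k ≤ 4) {y : ℂ}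
    (hy : 2 * R ≤ pn y) : nD k (cv K f) y ≤ 4 * a * R ^ 2 * (CK / (pn y / 2) ^ (1 + k)) := by
  have ha0 : 0 ≤ a := (norm_nonneg _).trans (ha 0)
  have hC : 0 ≤ CK := by linarith [hK.one_le]
  have hp : 0 < pn y / 2 := by linarith
  let χ : ContDiffBump y := ⟨3 * R / 2, 7 * R / 4, by linarith, by linarith⟩
  let G : ℂ → ℂ := fun x => (χ x : ℝ) • K x
  have hGc : HasCompactSupport G := χ.hasCompactSupport.smul_right
  have hopen : IsOpen {y : ℂ | 0 < pn y} :=
    isOpen_lt continuous_const (Metric.continuous_infDist_pt _)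
  have hG : ContDiff ℝ ∞ G := by
    refine contDiff_iff_contDiffAt.2 fun x => ?_
    by_cases hx : x ∈ tsupport χ
    · rw [χ.tsupport_eq, Metric.mem_closedBall, dist_eq_norm, norm_sub_rev] at hx
      have h1 := pn_le_add y x
      have h2 : 0 < pn x := by
        have : ‖y - x‖ ≤ 7 * R / 4 := hx
        linarith
      exact χ.contDiff.contDiffAt.smul (hK.smooth.contDiffAt (hopen.mem_nhds h2))
    · refine (contDiffAt_const (c := (0 : ℂ))).congr_of_eventuallyEq ?_
      filter_upwards [notMem_tsupport_iff_eventuallyEq.1 hx] with w hw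
      simp only [G, hw, Pi.zero_apply, zero_smul]
  have hGK : ∀ x, ‖x - y‖ ≤ 3 * R / 2 → G x = K x := by
    intro x hx
    simp only [G]
    rw [χ.one_of_mem_closedBall (by rw [Metric.mem_closedBall, dist_eq_norm]; exact hx), one_smul]
  have e : cv K f =ᶠ[𝓝 y] cv f G := by
    filter_upwards [Metric.ball_mem_nhds y (half_pos hR0)] with x hx
    rw [Metric.mem_ball, dist_eq_norm] at hx
    unfold cv
    rw [← integral_sub_left_eq_self (fun w => K w * f (x - w)) volume x]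
    congr 1
    funext w
    rw [sub_sub_cancel, mul_comm]
    by_cases h : R < ‖w‖
    · rw [hs w h, zero_mul, zero_mul]
    · rw [hGK]
      have : ‖x - w - y‖ ≤ ‖x - y‖ + ‖w‖ := by
        rw [sub_right_comm]; exact norm_sub_le _ _
      linarith [not_lt.1 h]
  rw [nD_congr e]
  set B := CK / (pn y / 2) ^ (1 + k) with hB
  have hB0 : 0 ≤ B := div_nonneg hC (pow_pos hp _).le
  have hi : Integrable ((Metric.closedBall (0 : ℂ) R).indicator fun _ => a * B) :=
    (integrable_indicator_iff Metric.isClosed_closedBall.measurableSet).2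
      (integrableOn_const measure_closedBall_lt_top.ne)
  refine (nD_cv_le hf.locallyIntegrable hG hGc k y hi (Eventually.of_forall fun w => ?_)).trans ?_
  · by_cases h : R < ‖w‖
    · rw [hs w h, norm_zero, zero_mul]
      exact indicator_nonneg (fun _ _ => mul_nonneg ha0 hB0) _
    · have h' := not_lt.1 h
      rw [indicator_of_mem (by simpa using h')]
      refine mul_le_mul (ha w) ?_ (nD_nonneg _ _ _) ha0
      have e2 : G =ᶠ[𝓝 (y - w)] K := by
        filter_upwards [Metric.ball_mem_nhds (y - w) (half_pos hR0)] with x hx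
        rw [Metric.mem_ball, dist_eq_norm] at hx
        refine hGK x ?_
        have : ‖x - y‖ ≤ ‖x - (y - w)‖ + ‖w‖ := by
          rw [show x - y = x - (y - w) - w by ring]; exact norm_sub_le _ _
        linarith
      have h1 := pn_le_add y (y - w)
      rw [sub_sub_cancel] at h1
      have h2 : pn y / 2 ≤ pn (y - w) := by linarith
      rw [nD_congr e2]
      exact (hK.bound k hk _ (hp.trans_le h2)).trans
        (div_le_div_of_nonneg_left hC (pow_pos hp _) (pow_le_pow_left₀ hp.le h2 _))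
  · rw [integral_indicator Metric.isClosed_closedBall.measurableSet, setIntegral_const]
    have e3 : (volume : Measure ℂ).real (Metric.closedBall 0 R) = R ^ 2 * Real.pi := by
      simp [Measure.real, Complex.volume_closedBall, hR0.le]
    rw [e3, smul_eq_mul]
    have := mul_le_mul_of_nonneg_left Real.pi_le_four
      (mul_nonneg (mul_nonneg ha0 hB0) (sq_nonneg R))
    linarith

theorem per_near {Q : ℂ → ℂ} {R : ℝ} (hs : ∀ y, R < ‖y‖ → Q y = 0) (hR : R ≤ 1 / 8) {y : ℂ}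
    {n : ℤ × ℤ} (hy : ‖y - lat n‖ < 2 * R) : Per Q =ᶠ[𝓝 y] fun x => Q (x - lat n) := by
  filter_upwards [Metric.ball_mem_nhds y (show (0 : ℝ) < 1 / 8 by norm_num)] with x hx
  rw [Metric.mem_ball, dist_eq_norm] at hx
  refine tsum_eq_single n fun m hm => hs _ ?_
  have h1 := lat_sep hm
  have h2 : ‖lat m - lat n‖ ≤ ‖y - lat n‖ + ‖x - y‖ + ‖x - lat m‖ := by
    have : lat m - lat n = (y - lat n) + (x - y) - (x - lat m) := by ring
    rw [this]
    exact (norm_sub_le _ _).trans (add_le_add_left (norm_add_le _ _) _)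
  linarith

theorem per_far {Q : ℂ → ℂ} {R : ℝ} (hs : ∀ y, R < ‖y‖ → Q y = 0) (hR : 0 < R) {y : ℂ}
    (hy : 2 * R ≤ pn y) : Per Q =ᶠ[𝓝 y] 0 := by
  filter_upwards [Metric.ball_mem_nhds y hR] with x hx
  rw [Metric.mem_ball, dist_eq_norm, norm_sub_rev] at hx
  have : ∀ m, Q (x - lat m) = 0 := fun m => hs _ (by linarith [pn_le x m, pn_le_add y x])
  simp [Per, this]

theorem dz_congr {f g : ℂ → ℂ} {y : ℂ} (h : f =ᶠ[𝓝 y] g) : dz f =ᶠ[𝓝 y] dz g := by
  filter_upwards [h.fderiv (𝕜 := ℝ)] with x hx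
  simp only [dz, hx]

end LERB

open LERB in
theorem st_LERB (hCAU : St_CAU) (_hENV : St_ENV) : St_LERB := by
  intro K CK hK
  have hC := hK.one_le
  refine ⟨200 * CK, by linarith, fun Q R d a hQ hs hd hdR hR ha => ?_⟩
  have hR0 : 0 < R := hd.trans_le hdR
  have ha0 : 0 ≤ a := (mul_nonneg (pow_pos hd 0).le (nD_nonneg 0 Q 0)).trans (ha 0 (by norm_num) 0)
  have hf := sm_cj hQ
  have hfs : ∀ y, R < ‖y‖ → cj Q y = 0 := fun y hy => by simp [cj, hs y hy]
  have hfc : HasCompactSupport (cj Q) :=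
    HasCompactSupport.intro (isCompact_closedBall (0 : ℂ) R) fun x hx => hfs x (by simpa using hx)
  have e1 : cj (Per Q) = Per (cj Q) := by
    funext x
    simp only [cj, Per]
    exact Complex.conj_tsum _
  have e2 : Cau K (cj (Per Q)) = cv K (cj Q) := by
    funext x
    rw [e1, ((hCAU K CK hK).2.2.2 (cj Q) R hf.continuous (by linarith) hfs x).2, cv,
      ← integral_sub_left_eq_self (fun w => K w * cj Q (x - w)) volume x]
    simp only [sub_sub_cancel]
  have hF := sm_cv (ker_loc hK) hf hfc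
  have hdd : ∀ j y, nD j (dzb (dzb (cv K (cj Q)))) y ≤ nD (j + 2) (cv K (cj Q)) y := fun j y =>
    (nD_dzb (sm_dzb hF) j y).trans (nD_dzb hF (j + 1) y)
  have hq : 0 ≤ a * R / d ^ 2 := by positivity
  intro j hj y
  rw [sub_zero]
  by_cases h : pn y < 2 * R
  · obtain ⟨n, hn⟩ := exists_lt h
    have hQn : ContDiff ℝ ∞ fun x => Q (x - lat n) := hQ.comp (contDiff_id.sub contDiff_const)
    have e : Ler K (Per Q) =ᶠ[𝓝 y]
        fun x => dz (fun x => Q (x - lat n)) x - dzb (dzb (cv K (cj Q))) x := by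
      filter_upwards [dz_congr (per_near hs hR hn)] with x hx
      rw [Ler, hx, e2]
    have b1 : nD j (dz fun x => Q (x - lat n)) y ≤ a / d ^ (j + 1) := by
      refine (nD_dz hQn j y).trans ?_
      rw [nD, iteratedFDeriv_comp_sub, le_div_iff₀' (pow_pos hd _)]
      exact ha (j + 1) (by omega) _
    have b2 : nD (j + 2) (cv K (cj Q)) y ≤ 24 * CK * (a / d ^ (j + 2)) * R := by
      refine near_le hK hf hfs hfc hR0.le hR (fun w => ?_) hn
      rw [nD_cj, le_div_iff₀' (pow_pos hd _)]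
      exact ha (j + 2) (by omega) _
    have b3 := (nD_sub_le (sm_dz hQn) (sm_dzb (sm_dzb hF)) j y).trans
      (add_le_add b1 ((hdd j y).trans b2))
    have t : 1 / 8 ≤ tau 3 R (pn y) := by
      have : 1 / 2 ≤ R / max R (pn y) := by
        rw [le_div_iff₀ (lt_max_of_lt_left hR0)]
        have : max R (pn y) ≤ 2 * R := max_le (by linarith) h.le
        linarith
      calc (1 / 8 : ℝ) = (1 / 2) ^ 3 := by norm_num
        _ ≤ _ := pow_le_pow_left₀ (by norm_num) this 3
    have b4 : a / d ≤ a * R / d ^ 2 := by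
      rw [div_le_div_iff₀ hd (pow_pos hd 2)]
      have := mul_le_mul_of_nonneg_left hdR (mul_nonneg ha0 hd.le)
      nlinarith
    rw [nD_congr e]
    calc d ^ j * nD j (fun x => dz (fun x => Q (x - lat n)) x - dzb (dzb (cv K (cj Q))) x) y
        ≤ d ^ j * (a / d ^ (j + 1) + 24 * CK * (a / d ^ (j + 2)) * R) :=
          mul_le_mul_of_nonneg_left b3 (pow_pos hd _).le
      _ = a / d + 24 * CK * (a * R / d ^ 2) := by field_simp; ring
      _ ≤ 200 * CK * (a * R / d ^ 2) * (1 / 8) := by nlinarith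
      _ ≤ 200 * CK * (a * R / d ^ 2) * tau 3 R (pn y) :=
          mul_le_mul_of_nonneg_left t (by positivity)
      _ = _ := by ring
  · have h' := not_lt.1 h
    have hp : 0 < pn y := by linarith
    have e : Ler K (Per Q) =ᶠ[𝓝 y] fun x => dz 0 x - dzb (dzb (cv K (cj Q))) x := by
      filter_upwards [dz_congr (per_far hs hR0 h')] with x hx
      rw [Ler, hx, e2]
    have z : nD j (dz 0) y = 0 := nD_eq_zero (Eventually.of_forall fun x => by simp [dz]) j
    have b2 := far_le hK hf.continuous hfs hR0 (a := a) (fun w => by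
      have := ha 0 (by norm_num) w
      rwa [pow_zero, one_mul, ← nD_cj, nD_zero] at this) (k := j + 2) (by omega) h'
    have b3 := (nD_sub_le (sm_dz (f := 0) contDiff_const) (sm_dzb (sm_dzb hF)) j y).trans
      (add_le_add z.le ((hdd j y).trans b2))
    rw [nD_congr e, tau, max_eq_right (by linarith)]
    have c1 : (d / (pn y / 2)) ^ j ≤ 1 :=
      pow_le_one₀ (by positivity) ((div_le_one (by positivity)).2 (by linarith))
    have c2 : 1 ≤ R ^ 2 / d ^ 2 := (one_le_div (pow_pos hd 2)).2 (pow_le_pow_left₀ hd.le hdR 2)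
    have c3 : 0 ≤ CK * a * R ^ 2 / pn y ^ 3 := by positivity
    calc d ^ j * nD j (fun x => dz 0 x - dzb (dzb (cv K (cj Q))) x) y
        ≤ d ^ j * (0 + 4 * a * R ^ 2 * (CK / (pn y / 2) ^ (1 + (j + 2)))) :=
          mul_le_mul_of_nonneg_left b3 (pow_pos hd _).le
      _ = 32 * (CK * a * R ^ 2 / pn y ^ 3) * (d / (pn y / 2)) ^ j := by
          rw [show 1 + (j + 2) = j + 3 by ring, pow_add, div_pow d]; field_simp; ring
      _ ≤ 200 * (CK * a * R ^ 2 / pn y ^ 3) * (R ^ 2 / d ^ 2) := by nlinarith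
      _ = _ := by field_simp

end

end Pool.Agent.Lib.EUL
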