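import Pool.Agent.Lib.EUL.Blue

set_option autoImplicit false

namespace Pool.Agent.Lib.EUL

open MeasureTheory Set Filter Topology
open scoped ContDiff Classical

noncomputable section

namespace LIM

lemma meas_cell : MeasurableSet cell :=
  (measurableSet_Ioc.preimage Complex.measurable_re).inter
    (measurableSet_Ioc.preimage Complex.measurable_im)

lemma cell_sub : cell ⊆ Metric.closedBall (0 : ℂ) 1 := by
  rintro z ⟨⟨h1, h2⟩, h3, h4⟩
  rw [mem_closedBall_zero_iff]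
  have h := Complex.norm_le_abs_re_add_abs_im z
  have a1 : |z.re| ≤ 1 / 2 := abs_le.2 ⟨by linarith, h2⟩
  have a2 : |z.im| ≤ 1 / 2 := abs_le.2 ⟨by linarith, h4⟩
  linarith

lemma fin_cell : IsFiniteMeasure (volume.restrict cell) :=
  isFiniteMeasure_restrict.2
    (ne_top_of_le_ne_top measure_closedBall_lt_top.ne (measure_mono cell_sub))

lemma fin_m2 : IsFiniteMeasure m2 := by
  have := fin_cell
  unfold m2
  infer_instance

lemma ae_m2 : ∀ᵐ z ∂m2, z ∈ Ioo (0 : ℝ) 1 ×ˢ cell := by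
  unfold m2
  rw [Measure.prod_restrict]
  exact ae_restrict_mem (measurableSet_Ioo.prod meas_cell)

lemma bdd {E : Type} [NormedAddCommGroup E] (g : ℝ × ℂ → E) (hg : Continuous g) :
    ∃ b : ℝ, 0 ≤ b ∧ ∀ᵐ z ∂m2, ‖g z‖ ≤ b := by
  obtain ⟨b, hb⟩ := ((isCompact_Icc (a := (0 : ℝ)) (b := 1)).prod
    (isCompact_closedBall (0 : ℂ) 1)).exists_bound_of_continuousOn hg.continuousOn
  refine ⟨max b 0, le_max_right _ _, ?_⟩
  filter_upwards [ae_m2] with z hz
  exact (hb z ⟨Ioo_subset_Icc_self hz.1, cell_sub hz.2⟩).trans (le_max_left _ _)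

lemma memLp_cont {E : Type} [NormedAddCommGroup E] [SecondCountableTopology E]
    (g : ℝ × ℂ → E) (hg : Continuous g) (p : ENNReal) : MemLp g p m2 := by
  have := fin_m2
  obtain ⟨b, -, hb⟩ := bdd g hg
  exact MemLp.of_bound hg.aestronglyMeasurable b hb

lemma int_cont {E : Type} [NormedAddCommGroup E] [SecondCountableTopology E]
    (g : ℝ × ℂ → E) (hg : Continuous g) : Integrable g m2 :=
  memLp_one_iff_integrable.1 (memLp_cont g hg 1)

lemma cont_fd (f : ℝ → ℂ → ℂ) (hf : Sm f) (e : ℂ) :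
    Continuous fun p : ℝ × ℂ => fderiv ℝ (f p.1) p.2 e := by
  have h : ContDiff ℝ ∞ (Function.uncurry fun (p : ℝ × ℂ) (y : ℂ) => f p.1 y) :=
    ContDiff.comp (g := fun p : ℝ × ℂ => f p.1 p.2) (f := fun r : (ℝ × ℂ) × ℂ => (r.1.1, r.2)) hf
      (by fun_prop)
  exact (Continuous.fderiv h continuous_snd (by simp)).clm_apply continuous_const

lemma cont_dz (f : ℝ → ℂ → ℂ) (hf : Sm f) : Continuous fun p : ℝ × ℂ => dz (f p.1) p.2 := by
  unfold dz
  exact ((cont_fd f hf 1).sub (continuous_const.mul (cont_fd f hf Complex.I))).div_const _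

lemma cont_dzb (f : ℝ → ℂ → ℂ) (hf : Sm f) : Continuous fun p : ℝ × ℂ => dzb (f p.1) p.2 := by
  unfold dzb
  exact ((cont_fd f hf 1).add (continuous_const.mul (cont_fd f hf Complex.I))).div_const _

lemma cont_dt (f : ℝ → ℂ → ℂ) (hf : Sm f) : Continuous fun p : ℝ × ℂ => dt f p.1 p.2 := by
  have h : ContDiff ℝ ∞ (Function.uncurry fun (p : ℝ × ℂ) (s : ℝ) => f s p.2) :=
    ContDiff.comp (g := fun p : ℝ × ℂ => f p.1 p.2) (f := fun r : (ℝ × ℂ) × ℝ => (r.2, r.1.2)) hf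
      (by fun_prop)
  exact (Continuous.fderiv h continuous_fst (by simp)).clm_apply (continuous_const (y := (1 : ℝ)))

lemma sm_cj (f : ℝ → ℂ → ℂ) (hf : Sm f) : Sm fun t => cj (f t) :=
  Complex.conjCLE.contDiff.comp hf

lemma lim_of_bound (A : ℝ × ℂ → ℝ) (AN h : ℕ → ℝ × ℂ → ℝ) (hA : Integrable A m2)
    (hAN : ∀ N, Integrable (AN N) m2) (hh : ∀ N, Integrable (h N) m2)
    (hle : ∀ N, ∀ᵐ z ∂m2, |AN N z - A z| ≤ h N z)
    (ht : Tendsto (fun N => ∫ z, h N z ∂m2) atTop (𝓝 0)) :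
    Tendsto (fun N => ∫ z, AN N z ∂m2) atTop (𝓝 (∫ z, A z ∂m2)) := by
  rw [tendsto_iff_norm_sub_tendsto_zero]
  refine squeeze_zero (fun N => norm_nonneg _) (fun N => ?_) ht
  rw [← integral_sub (hAN N) hA]
  exact norm_integral_le_of_norm_le (hh N) (hle N)

lemma tend_add {f g : ℕ → ℝ × ℂ → ℝ} (hf : ∀ N, Integrable (f N) m2) (hg : ∀ N, Integrable (g N) m2)
    (tf : Tendsto (fun N => ∫ z, f N z ∂m2) atTop (𝓝 0))
    (tg : Tendsto (fun N => ∫ z, g N z ∂m2) atTop (𝓝 0)) :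
    Tendsto (fun N => ∫ z, (f N z + g N z) ∂m2) atTop (𝓝 0) := by
  simp only [fun N => integral_add (hf N) (hg N)]
  simpa using tf.add tg

lemma tend_mul {f : ℕ → ℝ × ℂ → ℝ} (b : ℝ) (tf : Tendsto (fun N => ∫ z, f N z ∂m2) atTop (𝓝 0)) :
    Tendsto (fun N => ∫ z, b * f N z ∂m2) atTop (𝓝 0) := by
  simp only [integral_const_mul]
  simpa using tf.const_mul b

lemma sq_int {E : Type} [NormedAddCommGroup E] {f : ℝ × ℂ → E} (hf : MemLp f 2 m2) :
    Integrable (fun z => ‖f z‖ ^ 2) m2 :=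
  (memLp_two_iff_integrable_sq_norm hf.1).1 hf

lemma cross_int {f w : ℝ × ℂ → ℂ} (hf : MemLp f 2 m2) (hw : MemLp w 2 m2) :
    Integrable (fun z => ‖f z‖ * ‖w z‖) m2 :=
  hf.norm.integrable_mul hw.norm

lemma cross_lim (f : ℝ × ℂ → ℂ) (w : ℕ → ℝ × ℂ → ℂ) (hf : MemLp f 2 m2)
    (hw : ∀ N, MemLp (w N) 2 m2) (ht : Tendsto (fun N => ∫ z, ‖w N z‖ ^ 2 ∂m2) atTop (𝓝 0)) :
    Tendsto (fun N => ∫ z, ‖f z‖ * ‖w N z‖ ∂m2) atTop (𝓝 0) := by
  set K := ∫ z, ‖f z‖ ^ 2 ∂m2 with hK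
  have hK0 : 0 ≤ K := integral_nonneg fun z => by positivity
  rw [Metric.tendsto_atTop]
  intro ε hε
  set e := ε / (2 * (K + 1)) with he
  have he0 : 0 < e := by positivity
  obtain ⟨N0, hN0⟩ := Metric.tendsto_atTop.1 ht (e * (ε / 2)) (by positivity)
  refine ⟨N0, fun N hN => ?_⟩
  have h1 := hN0 N hN
  rw [Real.dist_eq, sub_zero] at h1 ⊢
  have h2 := (le_abs_self _).trans_lt h1
  rw [abs_of_nonneg (integral_nonneg fun z => by positivity)]
  have h3 : ∫ z, ‖f z‖ * ‖w N z‖ ∂m2 ≤ ∫ z, (e * ‖f z‖ ^ 2 + e⁻¹ * ‖w N z‖ ^ 2) ∂m2 := by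
    refine integral_mono (cross_int hf (hw N))
      (((sq_int hf).const_mul e).add ((sq_int (hw N)).const_mul _)) fun z => ?_
    have a0 := norm_nonneg (f z)
    have b0 := norm_nonneg (w N z)
    have : e * ‖f z‖ ^ 2 + e⁻¹ * ‖w N z‖ ^ 2 - ‖f z‖ * ‖w N z‖
        = e⁻¹ * ((e * ‖f z‖ - ‖w N z‖) ^ 2 + e * ‖f z‖ * ‖w N z‖) := by
      field_simp
      ring
    have h4 : 0 ≤ e⁻¹ * ((e * ‖f z‖ - ‖w N z‖) ^ 2 + e * ‖f z‖ * ‖w N z‖) := by positivity
    show ‖f z‖ * ‖w N z‖ ≤ e * ‖f z‖ ^ 2 + e⁻¹ * ‖w N z‖ ^ 2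
    linarith
  rw [integral_add ((sq_int hf).const_mul e) ((sq_int (hw N)).const_mul _), integral_const_mul,
    integral_const_mul, ← hK] at h3
  have h5 : e⁻¹ * ∫ z, ‖w N z‖ ^ 2 ∂m2 < ε / 2 := by
    rw [inv_mul_lt_iff₀ he0]
    exact h2
  have h6 : e * K ≤ ε / 2 := by
    rw [he, div_mul_eq_mul_div, div_le_div_iff₀ (by positivity) (by positivity)]
    nlinarith
  linarith

lemma re_int {f g : ℝ × ℂ → ℂ} (hf : Integrable f m2) (hg : Continuous g) :
    Integrable (fun z => (f z * g z).re) m2 := by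
  obtain ⟨b, -, hb⟩ := bdd g hg
  exact (hf.mul_bdd hg.aestronglyMeasurable hb).re

lemma re_le (a a' g : ℂ) (b : ℝ) (hb : ‖g‖ ≤ b) : |(a * g).re - (a' * g).re| ≤ b * ‖a' - a‖ := by
  rw [← Complex.sub_re, ← sub_mul, norm_sub_rev]
  refine (Complex.abs_re_le_norm _).trans ?_
  rw [norm_mul, mul_comm]
  exact mul_le_mul_of_nonneg_right hb (norm_nonneg _)

lemma q_le (q : ℝ → ℂ → ℂ) (hq : Sm q) (S : ℝ) (hS : ∀ t, IQ (fun x => ‖q t x‖) ≤ S) :
    ∫ z, ‖q z.1 z.2‖ ∂m2 ≤ S := by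
  have := fin_cell
  have hi : Integrable (fun z : ℝ × ℂ => ‖q z.1 z.2‖) m2 := int_cont _ hq.continuous.norm
  unfold m2 at hi ⊢
  rw [integral_prod _ hi]
  have h := integral_mono hi.integral_prod_left (integrable_const S) (fun t => hS t)
  simpa using h

end LIM

open LIM in
theorem st_LIM (hK : St_KER) (hC : St_CAU) (hW : St_WK) (hV : St_LIMV) (hP : St_LIMP) : St_LIM := by
  intro v q S A rho H
  have := fin_m2
  obtain ⟨K, CK, hk⟩ := hK
  obtain ⟨u, um, u2, ut, ul⟩ := hV v q S A rho H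
  obtain ⟨Pl, pm, p1, pt⟩ := hP K CK hk v q S A rho H
  obtain ⟨hdiv, hmom⟩ := hW K CK hk
  have hv : ∀ N, Continuous fun z : ℝ × ℂ => v N z.1 z.2 := fun N => (H.er N).1.1.continuous
  have hw : ∀ N, MemLp (fun z : ℝ × ℂ => u z.1 z.2 - v N z.1 z.2) 2 m2 := fun N =>
    u2.sub (memLp_cont _ (hv N) 2)
  have u1 : Integrable (fun z : ℝ × ℂ => u z.1 z.2) m2 := u2.integrable (by norm_num)
  have usq : Integrable (fun z : ℝ × ℂ => u z.1 z.2 ^ 2) m2 := by
    simp only [sq]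
    exact u2.integrable_mul u2
  have w1 : ∀ N, Integrable (fun z : ℝ × ℂ => ‖u z.1 z.2 - v N z.1 z.2‖) m2 := fun N =>
    ((hw N).integrable (by norm_num)).norm
  have t1 : Tendsto (fun N => ∫ z, ‖u z.1 z.2 - v N z.1 z.2‖ ∂m2) atTop (𝓝 0) := by
    have := cross_lim (fun _ => 1) _ (memLp_const 1) hw ut
    simpa using this
  have t2 := cross_lim _ _ u2 hw ut
  have hpr : ∀ N, Continuous fun z : ℝ × ℂ => Pr K (v N z.1) z.2 := by
    intro N
    have h1 : SP fun t => cj fun y => v N t y ^ 2 := by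
      refine ⟨sm_cj (fun t y => v N t y ^ 2) (ContDiff.pow (H.er N).1.1 2), fun t n z => ?_⟩
      simp only [cj, (H.er N).1.2 t n z]
    have h2 := (((hC K CK hk).2.1 _ h1).1).1
    exact continuous_const.mul (Complex.continuous_re.comp (cont_dzb _ h2))
  refine ⟨u, fun t x => Pl t x - ‖u t x‖ ^ 2 / 2, ⟨um, ?_, u2, ?_, ?_, ?_⟩, ul⟩
  · exact pm.sub ((um.norm.pow_const 2).div_const 2)
  · exact p1.sub ((sq_int u2).div_const 2)
  · intro ψ hψ
    have hg : Continuous fun z : ℝ × ℂ => (starRingEnd ℂ) (grad (ψ z.1) z.2) := by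
      have h1 : Sm fun t y => (ψ t y : ℂ) := Complex.ofRealCLM.contDiff.comp hψ.1.1
      exact Complex.continuous_conj.comp (continuous_const.mul (cont_dzb _ h1))
    obtain ⟨b, -, hb⟩ := bdd _ hg
    have h := lim_of_bound (fun z => (u z.1 z.2 * (starRingEnd ℂ) (grad (ψ z.1) z.2)).re)
      (fun N z => (v N z.1 z.2 * (starRingEnd ℂ) (grad (ψ z.1) z.2)).re)
      (fun N z => b * ‖u z.1 z.2 - v N z.1 z.2‖) (re_int u1 hg)
      (fun N => re_int (int_cont _ (hv N)) hg) (fun N => (w1 N).const_mul b)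
      (fun N => by
        filter_upwards [hb] with z hz
        exact re_le _ _ _ _ hz)
      (tend_mul b t1)
    have h0 : (fun N => ∫ z, (v N z.1 z.2 * (starRingEnd ℂ) (grad (ψ z.1) z.2)).re ∂m2)
        = fun _ => 0 := funext fun N => hdiv ψ (v N) hψ (H.er N).1 (H.er N).2.2.1
    rw [h0] at h
    exact (tendsto_nhds_unique tendsto_const_nhds h).symm
  · intro Φ hΦ
    obtain ⟨Ξ, c, hΞ, hc, hid⟩ := hmom Φ hΦ
    have g1 : Continuous fun z : ℝ × ℂ => (starRingEnd ℂ) (dt Φ z.1 z.2) :=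
      Complex.continuous_conj.comp (cont_dt _ hΦ.1.1)
    have g2 : Continuous fun z : ℝ × ℂ => dz (cj (Φ z.1)) z.2 := cont_dz _ (sm_cj _ hΦ.1.1)
    have g3 : Continuous fun z : ℝ × ℂ => 2 * (dz (Φ z.1) z.2).re :=
      continuous_const.mul (Complex.continuous_re.comp (cont_dz _ hΦ.1.1))
    obtain ⟨b1, -, hb1⟩ := bdd _ g1
    obtain ⟨b2, b20, hb2⟩ := bdd _ g2
    obtain ⟨b3, -, hb3⟩ := bdd _ g3
    have pd : ∀ N, Integrable (fun z : ℝ × ℂ => |Pl z.1 z.2 - Pr K (v N z.1) z.2|) m2 := fun N =>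
      (p1.sub (int_cont _ (hpr N))).abs
    have h := lim_of_bound
      (fun z => (u z.1 z.2 * (starRingEnd ℂ) (dt Φ z.1 z.2)).re
        + (u z.1 z.2 ^ 2 * dz (cj (Φ z.1)) z.2).re + Pl z.1 z.2 * (2 * (dz (Φ z.1) z.2).re))
      (fun N z => (v N z.1 z.2 * (starRingEnd ℂ) (dt Φ z.1 z.2)).re
        + (v N z.1 z.2 ^ 2 * dz (cj (Φ z.1)) z.2).re
        + Pr K (v N z.1) z.2 * (2 * (dz (Φ z.1) z.2).re))
      (fun N z => b1 * ‖u z.1 z.2 - v N z.1 z.2‖
        + b2 * (‖u z.1 z.2 - v N z.1 z.2‖ ^ 2 + 2 * (‖u z.1 z.2‖ * ‖u z.1 z.2 - v N z.1 z.2‖))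
        + b3 * |Pl z.1 z.2 - Pr K (v N z.1) z.2|)
      (((re_int u1 g1).add (re_int usq g2)).add (p1.mul_bdd g3.aestronglyMeasurable hb3))
      (fun N => ((re_int (int_cont _ (hv N)) g1).add (re_int (int_cont _ ((hv N).pow 2)) g2)).add
        (int_cont _ ((hpr N).mul g3)))
      (fun N => (((w1 N).const_mul b1).add (((sq_int (hw N)).add
        ((cross_int u2 (hw N)).const_mul 2)).const_mul b2)).add ((pd N).const_mul b3))
      (fun N => by
        filter_upwards [hb1, hb2, hb3] with z h1 h2 h3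
        have e1 := re_le (v N z.1 z.2) (u z.1 z.2) _ _ h1
        have e2 := re_le (v N z.1 z.2 ^ 2) (u z.1 z.2 ^ 2) _ _ h2
        have e3 : |Pr K (v N z.1) z.2 * (2 * (dz (Φ z.1) z.2).re)
            - Pl z.1 z.2 * (2 * (dz (Φ z.1) z.2).re)| ≤ b3 * |Pl z.1 z.2 - Pr K (v N z.1) z.2| := by
          rw [← sub_mul, abs_mul, abs_sub_comm, mul_comm]
          exact mul_le_mul_of_nonneg_right h3 (abs_nonneg _)
        have e4 : ‖u z.1 z.2 ^ 2 - v N z.1 z.2 ^ 2‖ ≤ ‖u z.1 z.2 - v N z.1 z.2‖ ^ 2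
            + 2 * (‖u z.1 z.2‖ * ‖u z.1 z.2 - v N z.1 z.2‖) := by
          have : u z.1 z.2 ^ 2 - v N z.1 z.2 ^ 2 = -(u z.1 z.2 - v N z.1 z.2) ^ 2
              + 2 * (u z.1 z.2 * (u z.1 z.2 - v N z.1 z.2)) := by ring
          rw [this]
          refine (norm_add_le _ _).trans (le_of_eq ?_)
          simp
        have e5 := mul_le_mul_of_nonneg_left e4 b20
        rw [abs_le] at e1 e2 e3 ⊢
        constructor <;> linarith [e1.1, e1.2, e2.1, e2.2, e3.1, e3.2])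
      (tend_add (fun N => ((w1 N).const_mul b1).add (((sq_int (hw N)).add
          ((cross_int u2 (hw N)).const_mul 2)).const_mul b2)) (fun N => (pd N).const_mul b3)
        (tend_add (fun N => (w1 N).const_mul b1) (fun N => ((sq_int (hw N)).add
            ((cross_int u2 (hw N)).const_mul 2)).const_mul b2) (tend_mul b1 t1)
          (tend_mul b2 (tend_add (fun N => sq_int (hw N))
            (fun N => (cross_int u2 (hw N)).const_mul 2) ut (tend_mul 2 t2))))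
        (tend_mul b3 pt))
    have c0 : 0 ≤ c := (norm_nonneg _).trans (hc 0 0)
    have h0 : Tendsto (fun N => ∫ z, (q N z.1 z.2 * Ξ z.1 z.2).re ∂m2) atTop (𝓝 0) := by
      rw [tendsto_zero_iff_norm_tendsto_zero]
      have hl := H.lim.const_mul c
      rw [mul_zero] at hl
      refine squeeze_zero (fun N => norm_nonneg _) (fun N => ?_) hl
      have hq : Continuous fun z : ℝ × ℂ => q N z.1 z.2 := (H.er N).2.1.1.continuous
      refine (norm_integral_le_of_norm_le ((int_cont _ hq.norm).const_mul c)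
        (Eventually.of_forall fun z => ?_)).trans ?_
      · refine (Complex.abs_re_le_norm _).trans ?_
        rw [norm_mul, mul_comm]
        exact mul_le_mul_of_nonneg_right (hc _ _) (norm_nonneg _)
      · rw [integral_const_mul]
        exact mul_le_mul_of_nonneg_left (q_le (q N) (H.er N).2.1.1 (S N) (H.small N)) c0
    simp only [fun N => hid (v N) (q N) (H.er N)] at h
    have h1 := tendsto_nhds_unique h h0
    rw [← h1]
    refine integral_congr_ae (Eventually.of_forall fun z => ?_)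
    ring

end

end Pool.Agent.Lib.EUL
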