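import Pool.Agent.Lib.EUL.Blue

/-! The limit pressure. -/

set_option autoImplicit false

namespace Pool.Agent.Lib.EUL

open MeasureTheory Set Filter Topology
open scoped ContDiff Classical

noncomputable section

namespace LIMP

theorem cell_sub : cell ⊆ Metric.closedBall (0 : ℂ) 1 := by
  rintro z ⟨⟨h1, h2⟩, h3, h4⟩
  rw [mem_closedBall_zero_iff]
  have a : |z.re| ≤ 1 / 2 := abs_le.2 ⟨by linarith, h2⟩
  have b : |z.im| ≤ 1 / 2 := abs_le.2 ⟨by linarith, h4⟩
  linarith [Complex.norm_le_abs_re_add_abs_im z]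

theorem meas_cell : MeasurableSet cell :=
  (Complex.measurable_re measurableSet_Ioc).inter (Complex.measurable_im measurableSet_Ioc)

theorem int_cell {E : Type} [NormedAddCommGroup E] {f : ℂ → E} (hf : Continuous f) :
    IntegrableOn f cell :=
  (hf.continuousOn.integrableOn_compact (isCompact_closedBall 0 1)).mono_set cell_sub

theorem int_m2 {f : ℝ × ℂ → ℝ} (hf : Continuous f) : Integrable f m2 := by
  rw [m2, Measure.prod_restrict, ← Measure.volume_eq_prod]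
  exact (hf.continuousOn.integrableOn_compact
    ((isCompact_Icc (a := (0 : ℝ)) (b := 1)).prod (isCompact_closedBall 0 1))).mono_set
      (prod_mono Ioo_subset_Icc_self cell_sub)

theorem IQ_le {f g : ℂ → ℝ} (hf : Continuous f) (hg : Continuous g) (h : ∀ x ∈ cell, f x ≤ g x) :
    IQ f ≤ IQ g := setIntegral_mono_on (int_cell hf) (int_cell hg) meas_cell h

theorem IQ_nn {f : ℂ → ℝ} (h : ∀ x, 0 ≤ f x) : 0 ≤ IQ f := integral_nonneg h

theorem IQ_add {f g : ℂ → ℝ} (hf : Continuous f) (hg : Continuous g) :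
    IQ (fun x => f x + g x) = IQ f + IQ g := integral_add (int_cell hf) (int_cell hg)

theorem IQ_cm (c : ℝ) (f : ℂ → ℝ) : IQ (fun x => c * f x) = c * IQ f := integral_const_mul c f

theorem cs {f g : ℂ → ℝ} (hf : Continuous f) (hg : Continuous g) {a b : ℝ} (ha : 0 ≤ a)
    (hb : 0 ≤ b) (h1 : IQ (fun x => f x ^ 2) ≤ a ^ 2) (h2 : IQ (fun x => g x ^ 2) ≤ b ^ 2) :
    IQ (fun x => f x * g x) ≤ a * b := by
  have key : ∀ s : ℝ, 0 ≤ a ^ 2 * (s * s) + 2 * IQ (fun x => f x * g x) * s + b ^ 2 := by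
    intro s
    have e : IQ (fun x => (s * f x + g x) ^ 2) = s * s * IQ (fun x => f x ^ 2) +
        2 * s * IQ (fun x => f x * g x) + IQ (fun x => g x ^ 2) := by
      rw [← IQ_cm, ← IQ_cm, ← IQ_add (by fun_prop) (by fun_prop),
        ← IQ_add (by fun_prop) (by fun_prop)]
      congr 1
      funext x
      ring
    have h0 : 0 ≤ IQ (fun x => (s * f x + g x) ^ 2) := IQ_nn fun x => sq_nonneg _
    nlinarith [mul_le_mul_of_nonneg_left h1 (mul_self_nonneg s)]
  have hd := discrim_le_zero key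
  rw [discrim] at hd
  refine le_trans (le_abs_self _) (abs_le_of_sq_le_sq' ?_ (mul_nonneg ha hb)).2
  rw [sq_abs]
  nlinarith

/-- bound for the fourth power -/
def N4 (f : ℂ → ℂ) (a : ℝ) : Prop := 0 ≤ a ∧ IQ (fun x => ‖f x‖ ^ 4) ≤ a ^ 4

theorem N4.prod {f g : ℂ → ℂ} (hf : Continuous f) (hg : Continuous g) {a b : ℝ} (h1 : N4 f a)
    (h2 : N4 g b) : IQ (fun x => (‖f x‖ * ‖g x‖) ^ 2) ≤ (a * b) ^ 2 := by
  have := cs (f := fun x => ‖f x‖ ^ 2) (g := fun x => ‖g x‖ ^ 2) (by fun_prop) (by fun_prop)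
    (sq_nonneg a) (sq_nonneg b) (by simpa only [← pow_mul] using h1.2)
    (by simpa only [← pow_mul] using h2.2)
  simpa only [mul_pow] using this

theorem N4.add {f g : ℂ → ℂ} (hf : Continuous f) (hg : Continuous g) {a b : ℝ} (h1 : N4 f a)
    (h2 : N4 g b) : N4 (fun x => f x + g x) (a + b) := by
  have p := N4.prod hf hg h1 h2
  have p1 := cs (f := fun x => ‖f x‖ ^ 2) (g := fun x => ‖f x‖ * ‖g x‖) (by fun_prop)
    (by fun_prop) (sq_nonneg a) (mul_nonneg h1.1 h2.1) (by simpa only [← pow_mul] using h1.2) p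
  have p2 := cs (f := fun x => ‖g x‖ ^ 2) (g := fun x => ‖f x‖ * ‖g x‖) (by fun_prop)
    (by fun_prop) (sq_nonneg b) (mul_nonneg h1.1 h2.1) (by simpa only [← pow_mul] using h2.2) p
  refine ⟨add_nonneg h1.1 h2.1, ?_⟩
  have e : IQ (fun x => (‖f x‖ + ‖g x‖) ^ 4) = IQ (fun x => ‖f x‖ ^ 4) +
      4 * IQ (fun x => ‖f x‖ ^ 2 * (‖f x‖ * ‖g x‖)) + 6 * IQ (fun x => (‖f x‖ * ‖g x‖) ^ 2) +
      4 * IQ (fun x => ‖g x‖ ^ 2 * (‖f x‖ * ‖g x‖)) + IQ (fun x => ‖g x‖ ^ 4) := by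
    rw [← IQ_cm, ← IQ_cm, ← IQ_cm, ← IQ_add (by fun_prop) (by fun_prop),
      ← IQ_add (by fun_prop) (by fun_prop), ← IQ_add (by fun_prop) (by fun_prop),
      ← IQ_add (by fun_prop) (by fun_prop)]
    congr 1
    funext x
    ring
  have h3 : IQ (fun x => ‖f x + g x‖ ^ 4) ≤ IQ (fun x => (‖f x‖ + ‖g x‖) ^ 4) :=
    IQ_le (by fun_prop) (by fun_prop) fun x _ =>
      pow_le_pow_left₀ (norm_nonneg _) (norm_add_le _ _) 4
  have h4 := h1.2
  have h5 := h2.2
  calc IQ (fun x => ‖f x + g x‖ ^ 4) ≤ a ^ 4 + 4 * (a ^ 2 * (a * b)) + 6 * (a * b) ^ 2 +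
        4 * (b ^ 2 * (a * b)) + b ^ 4 := by linarith
    _ = _ := by ring

theorem N4.mono {f : ℂ → ℂ} {a b : ℝ} (h : N4 f a) (hab : a ≤ b) : N4 f b :=
  ⟨h.1.trans hab, h.2.trans (pow_le_pow_left₀ h.1 hab 4)⟩

theorem Sm.slice {E : Type} [NormedAddCommGroup E] [NormedSpace ℝ E] {f : ℝ → ℂ → E} (h : Sm f)
    (t : ℝ) : ContDiff ℝ ∞ (f t) :=
  ContDiff.comp (g := fun p : ℝ × ℂ => f p.1 p.2) (f := fun y : ℂ => (t, y)) h
    (contDiff_const.prodMk contDiff_id)

theorem n4_inc {w : ℝ → ℂ → ℂ} {A rho : ℝ} (hw : ∀ t, Continuous (w t)) (h : Inc w A rho)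
    (hA : 0 ≤ A) (h0 : 0 < rho) (h1 : rho ≤ 1) (t : ℝ) :
    N4 (w t) (A * rho ^ (-(11 / 20 : ℝ))) := by
  obtain ⟨k1, -, k2⟩ := h t
  have c := hw t
  refine ⟨by positivity, ?_⟩
  have a1 : IQ (fun x => ‖w t x‖ ^ 4) ≤ IQ (fun x => (A / rho) ^ 2 * ‖w t x‖ ^ 2) :=
    IQ_le (by fun_prop) (by fun_prop) fun x _ => by
      have := pow_le_pow_left₀ (norm_nonneg _) (k2 x) 2
      nlinarith [sq_nonneg ‖w t x‖]
  rw [IQ_cm] at a1
  have a2 : (rho ^ 2)⁻¹ ≤ (rho ^ (-(11 / 20 : ℝ))) ^ 4 := by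
    rw [← Real.rpow_natCast, ← Real.rpow_natCast, ← Real.rpow_mul h0.le, ← Real.rpow_neg h0.le]
    exact Real.rpow_le_rpow_of_exponent_ge h0 h1 (by norm_num)
  calc IQ (fun x => ‖w t x‖ ^ 4) ≤ (A / rho) ^ 2 * A ^ 2 :=
        a1.trans (mul_le_mul_of_nonneg_left k1 (sq_nonneg _))
    _ = A ^ 4 * (rho ^ 2)⁻¹ := by field_simp
    _ ≤ A ^ 4 * (rho ^ (-(11 / 20 : ℝ))) ^ 4 := by gcongr
    _ = _ := by ring

theorem n4_zero {v : ℝ → ℂ → ℂ} (hv : Sm v) {a b : ℝ} (ht : TS v a b) :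
    ∃ B, ∀ t, N4 (v t) B := by
  obtain ⟨C, hC⟩ := ((isCompact_Icc (a := a) (b := b)).prod
    (isCompact_closedBall (0 : ℂ) 1)).exists_bound_of_continuousOn hv.continuous.continuousOn
  have c0 : 0 ≤ IQ (fun _ => 1) := IQ_nn fun _ => zero_le_one
  refine ⟨|C| * (1 + IQ fun _ => 1), fun t => ⟨by positivity, ?_⟩⟩
  have c := (Sm.slice hv t).continuous
  have a1 : IQ (fun x => ‖v t x‖ ^ 4) ≤ IQ (fun _ => |C| ^ 4 * 1) :=
    IQ_le (by fun_prop) (by fun_prop) fun x hx => by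
      rw [mul_one]
      refine pow_le_pow_left₀ (norm_nonneg _) ?_ 4
      by_cases h : t ∈ Icc a b
      · exact (hC (t, x) ⟨h, cell_sub hx⟩).trans (le_abs_self C)
      · rw [ht t h x, norm_zero]; exact abs_nonneg C
  rw [IQ_cm] at a1
  refine a1.trans ?_
  rw [mul_pow]
  refine mul_le_mul_of_nonneg_left ?_ (by positivity)
  have := one_add_mul_le_pow (a := IQ fun _ => 1) (by linarith) 4
  push_cast at this
  linarith

theorem smooth_cj {F : ℂ → ℂ} (hF : ContDiff ℝ ∞ F) : ContDiff ℝ ∞ (cj F) :=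
  Complex.conjCLE.contDiff.comp hF

theorem int_K {K F : ℂ → ℂ} (hK : IntegrableOn K cell) (hF : Continuous F) (x : ℂ) :
    IntegrableOn (fun y => K y * F (x - y)) cell := by
  have c : Continuous fun y => F (x - y) := by fun_prop
  obtain ⟨C, hC⟩ := (isCompact_closedBall (0 : ℂ) 1).exists_bound_of_continuousOn c.continuousOn
  refine Integrable.mul_bdd (c := C) hK c.aestronglyMeasurable ?_
  exact (ae_restrict_iff' meas_cell).2 (Eventually.of_forall fun y hy => hC y (cell_sub hy))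

theorem dzb_sub {f g : ℂ → ℂ} (hf : ContDiff ℝ ∞ f) (hg : ContDiff ℝ ∞ g) (x : ℂ) :
    dzb (fun y => f y - g y) x = dzb f x - dzb g x := by
  simp only [dzb]
  rw [fderiv_fun_sub (hf.differentiable (by simp) x) (hg.differentiable (by simp) x)]
  simp only [_root_.sub_apply]
  ring

theorem cont_dzb {G : ℝ → ℂ → ℂ} (hG : Sm G) : Continuous fun z : ℝ × ℂ => dzb (G z.1) z.2 := by
  have h : ContDiff ℝ 0 fun z : ℝ × ℂ => fderiv ℝ (G z.1) z.2 :=
    ContDiff.fderiv (m := ∞) (f := fun (p : ℝ × ℂ) y => G p.1 y) (g := Prod.snd)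
      (ContDiff.comp (g := fun p : ℝ × ℂ => G p.1 p.2)
        (f := fun q : (ℝ × ℂ) × ℂ => (q.1.1, q.2)) hG (by fun_prop)) contDiff_snd (by simp)
  have c := h.continuous
  simp only [dzb]
  fun_prop

theorem sp_sq {v : ℝ → ℂ → ℂ} (hv : SP v) : SP fun t => cj fun y => v t y ^ 2 :=
  ⟨Complex.conjCLE.contDiff.comp (ContDiff.pow hv.1 2), fun t n z => by
    simp only [cj, hv.2 t n z]⟩

theorem pr_diff (hCAU : St_CAU) (hBEU : St_BEU) {K : ℂ → ℂ} {CK : ℝ} (hK : IsKer K CK)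
    {V W : ℂ → ℂ} (sV : ContDiff ℝ ∞ V) (sW : ContDiff ℝ ∞ W) (pV : Peri V) (pW : Peri W)
    {a B : ℝ} (h1 : N4 (fun x => W x - V x) a) (h2 : N4 V B) (h3 : N4 W B) :
    IQ (fun x => |Pr K V x - Pr K W x|) ≤ a * B * √(IQ fun _ => 1) := by
  obtain ⟨hi, -, h4, -⟩ := hCAU K CK hK
  have s1 : ContDiff ℝ ∞ (cj fun y => V y ^ 2) := smooth_cj (sV.pow 2)
  have s2 : ContDiff ℝ ∞ (cj fun y => W y ^ 2) := smooth_cj (sW.pow 2)
  have p1 : Peri (cj fun y => V y ^ 2) := fun n z => by simp only [cj, pV n z]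
  have p2 : Peri (cj fun y => W y ^ 2) := fun n z => by simp only [cj, pW n z]
  set F : ℂ → ℂ := fun y => (cj fun y => W y ^ 2) y - (cj fun y => V y ^ 2) y with hF
  have sF : ContDiff ℝ ∞ F := s2.sub s1
  have pF : Peri F := fun n z => by simp only [hF, p1 n z, p2 n z]
  have e1 : Cau K F = fun x => Cau K (cj fun y => W y ^ 2) x - Cau K (cj fun y => V y ^ 2) x := by
    funext x
    simp only [Cau, hF, mul_sub]
    exact integral_sub (int_K hi s2.continuous x) (int_K hi s1.continuous x)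
  have e2 : ∀ x, Pr K V x - Pr K W x = 1 / 2 * (dzb (Cau K F) x).re := fun x => by
    rw [e1, dzb_sub (h4 _ s2 p2).1 (h4 _ s1 p1).1, Pr, Pr, Complex.sub_re]
    ring
  have cT : Continuous fun x => dzb (Cau K F) x := by
    have := ((h4 F sF pF).1.continuous_fderiv (by simp))
    simp only [dzb]
    fun_prop
  have cV := sV.continuous
  have cW := sW.continuous
  have b1 : IQ (fun x => ‖F x‖ ^ 2) ≤ (a * (B + B)) ^ 2 := by
    refine le_trans (le_of_eq ?_) (N4.prod (f := fun x => W x - V x) (g := fun x => W x + V x)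
      (by fun_prop) (by fun_prop) h1 (N4.add cW cV h3 h2))
    congr 1
    funext x
    rw [← norm_mul, hF]
    simp only [cj]
    rw [← map_sub, Complex.norm_conj]
    congr 2
    ring
  have b2 := cs (f := fun x => ‖dzb (Cau K F) x‖) (g := fun _ => 1) (by fun_prop) (by fun_prop)
    (mul_nonneg h1.1 (add_nonneg h2.1 h2.1)) (Real.sqrt_nonneg (IQ fun _ => 1))
    ((hBEU K CK hK F sF pF).trans b1) (by
      rw [Real.sq_sqrt (IQ_nn fun _ => zero_le_one)]; simp)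
  have b3 : IQ (fun x => |Pr K V x - Pr K W x|) ≤ IQ (fun x => 1 / 2 * (‖dzb (Cau K F) x‖ * 1)) := by
    simp only [e2]
    refine IQ_le (by fun_prop) (by fun_prop) fun x _ => ?_
    rw [abs_mul, mul_one, abs_of_pos (by norm_num : (0 : ℝ) < 1 / 2)]
    exact mul_le_mul_of_nonneg_left (Complex.abs_re_le_norm _) (by norm_num)
  rw [IQ_cm] at b3
  linarith

theorem int_le {f : ℝ × ℂ → ℝ} (hf : Continuous f) (h0 : ∀ z, 0 ≤ f z) {c : ℝ}
    (h : ∀ t, IQ (fun x => f (t, x)) ≤ c) : ∫ z, f z ∂m2 ≤ c := by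
  have hi := int_m2 hf
  rw [m2] at hi ⊢
  rw [integral_prod _ hi]
  refine le_trans (integral_mono_of_nonneg (g := fun _ => c)
    (Eventually.of_forall fun t => integral_nonneg fun x => h0 _) (integrable_const c)
    (Eventually.of_forall h)) ?_
  simp

end LIMP

open LIMP in
theorem st_LIMP (hCAU : St_CAU) (hBEU : St_BEU) : St_LIMP := by
  intro K CK hK v q S A rho H
  have sp : ∀ m, SP (v m) := fun m => (H.er m).1
  have sl : ∀ m t, ContDiff ℝ ∞ (v m t) := fun m t => Sm.slice (sp m).1 t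
  set a : ℕ → ℝ := fun m => A m * rho m ^ (-(11 / 20 : ℝ)) with ha
  have hw : ∀ m t, N4 (fun x => v (m + 1) t x - v m t x) (a m) := fun m t =>
    n4_inc (w := fun t x => v (m + 1) t x - v m t x)
      (fun t => (sl _ t).continuous.sub (sl _ t).continuous) (H.inc m) (H.A0 m) (H.rpos m)
      (H.r1 m) t
  obtain ⟨B0, hB0⟩ := n4_zero (sp 0).1 (H.ts 0)
  have hv1 : ∀ t N, N4 (v N t) (B0 + ∑ m ∈ Finset.range N, a m) := by
    intro t N
    induction N with
    | zero => simpa using hB0 t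
    | succ N ih =>
      have := N4.add (sl N t).continuous ((sl (N + 1) t).continuous.sub (sl N t).continuous) ih
        (hw N t)
      rw [Finset.sum_range_succ, ← add_assoc]
      simpa only [Pi.sub_apply, add_sub_cancel] using this
  have hv : ∀ t N, N4 (v N t) (B0 + ∑' m, a m) := fun t N => (hv1 t N).mono
    (add_le_add_right (H.sum.sum_le_tsum _ fun m _ => (hw m 0).1) _)
  have cP : ∀ N, Continuous fun z : ℝ × ℂ => Pr K (v N z.1) z.2 := fun N => by
    have := cont_dzb ((hCAU K CK hK).2.1 _ (sp_sq (sp N))).1.1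
    simp only [Pr]
    fun_prop
  set g : ℕ → Lp ℝ 1 m2 := fun N => (int_m2 (cP N)).toL1 _ with hg
  have hn : ∀ (G : Lp ℝ 1 m2) N, ‖G - g N‖ = ∫ z, |G z - Pr K (v N z.1) z.2| ∂m2 := by
    intro G N
    rw [L1.norm_eq_integral_norm]
    refine integral_congr_ae ?_
    filter_upwards [Lp.coeFn_sub G (g N), (int_m2 (cP N)).coeFn_toL1] with z h1 h2
    rw [h1, Pi.sub_apply, hg, h2, Real.norm_eq_abs]
  have hc : CauchySeq g := by
    refine cauchySeq_of_dist_le_of_summable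
      (fun N => a N * (B0 + ∑' m, a m) * √(IQ fun _ => 1)) (fun N => ?_)
      ((H.sum.mul_right _).mul_right _)
    rw [dist_eq_norm, hn]
    have e : ∫ z, |g N z - Pr K (v N.succ z.1) z.2| ∂m2 =
        ∫ z, |Pr K (v N z.1) z.2 - Pr K (v (N + 1) z.1) z.2| ∂m2 := by
      refine integral_congr_ae ?_
      filter_upwards [(int_m2 (cP N)).coeFn_toL1] with z h2
      rw [hg, h2]
    rw [e]
    exact int_le ((cP N).sub (cP (N + 1))).abs (fun _ => abs_nonneg _) fun t =>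
      pr_diff hCAU hBEU hK (sl N t) (sl (N + 1) t) ((sp N).2 t) ((sp (N + 1)).2 t) (hw N t)
        (hv t N) (hv t (N + 1))
  obtain ⟨G, hG⟩ := cauchySeq_tendsto_of_complete hc
  refine ⟨fun t x => G (t, x), (Lp.stronglyMeasurable G).measurable, L1.integrable_coeFn G, ?_⟩
  have := tendsto_iff_norm_sub_tendsto_zero.1 hG
  refine this.congr fun N => ?_
  rw [norm_sub_rev, hn]

end

end Pool.Agent.Lib.EUL
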