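import Pool.Agent.Lib.EUL.Blue

set_option autoImplicit false

namespace Pool.Agent.Lib.EUL

open MeasureTheory Set Filter Topology
open scoped ContDiff Classical

namespace LIMV

lemma eL2 {X : Type} [MeasurableSpace X] {μ : Measure X} {g : X → ℂ} (hg : MemLp g 2 μ) {a : ℝ}
    (ha : 0 ≤ a) : eLpNorm g 2 μ ≤ ENNReal.ofReal a ↔ ∫ x, ‖g x‖ ^ 2 ∂μ ≤ a ^ 2 := by
  rw [hg.eLpNorm_eq_integral_rpow_norm two_ne_zero ENNReal.ofNat_ne_top,
    ENNReal.ofReal_le_ofReal_iff ha, ENNReal.toReal_ofNat]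
  simp only [Real.rpow_two]
  rw [← one_div, ← Real.sqrt_eq_rpow, Real.sqrt_le_left ha]

lemma main {X : Type} [MeasurableSpace X] (μ : Measure X) (f : ℕ → X → ℂ) (A : ℕ → ℝ)
    (h0 : ∀ m, 0 ≤ A m) (hA : Summable A) (hf : ∀ m, MemLp (f m) 2 μ)
    (hd : ∀ m, ∫ x, ‖f (m + 1) x - f m x‖ ^ 2 ∂μ ≤ A m ^ 2) :
    MemLp (fun x => limUnder atTop fun m => f m x) 2 μ ∧
      Tendsto (fun N => ∫ x, ‖(limUnder atTop fun m => f m x) - f N x‖ ^ 2 ∂μ) atTop (𝓝 0) := by
  have hw : ∀ m, MemLp (fun x => f (m + 1) x - f m x) 2 μ := fun m => (hf _).sub (hf _)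
  have hn : ∀ m, eLpNorm (fun x => f (m + 1) x - f m x) 2 μ ≤ ENNReal.ofReal (A m) :=
    fun m => (eL2 (hw m) (h0 m)).2 (hd m)
  have hs := summable_norm_of_tsum_eLpNorm_ne_top (p := 2) one_le_two (fun m => (hw m).1)
    (ne_top_of_le_ne_top (by
      rw [← ENNReal.ofReal_tsum_of_nonneg h0 hA]; exact ENNReal.ofReal_ne_top)
      (ENNReal.tsum_le_tsum hn))
  have ht : ∀ᵐ x ∂μ, Tendsto (fun m => f m x) atTop (𝓝 (limUnder atTop fun m => f m x)) := by
    filter_upwards [hs] with x hx
    refine tendsto_nhds_limUnder ⟨f 0 x + ∑' m, (f (m + 1) x - f m x), ?_⟩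
    refine (hx.of_norm.tendsto_sum_tsum_nat.const_add (f 0 x)).congr fun n => ?_
    rw [Finset.sum_range_sub (fun m => f m x)]
    ring
  have hU := aestronglyMeasurable_of_tendsto_ae atTop (fun m => (hf m).1) ht
  have hb : ∀ N, eLpNorm (fun x => (limUnder atTop fun m => f m x) - f N x) 2 μ ≤
      ENNReal.ofReal (∑' m, A (m + N)) := by
    intro N
    have sN : Summable fun m => A (m + N) := (summable_nat_add_iff N).2 hA
    refine Lp.eLpNorm_le_of_ae_tendsto (u := atTop) (f := fun n x => f (n + N) x - f N x)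
      (Eventually.of_forall fun n => ?_) (fun n => ((hf _).sub (hf _)).1) ?_
    · have e : (fun x => f (n + N) x - f N x) =
          ∑ m ∈ Finset.range n, fun x => f (m + N + 1) x - f (m + N) x := by
        ext x
        have := Finset.sum_range_sub (fun m => f (m + N) x) n
        simp only [zero_add, Nat.add_right_comm _ 1 N] at this
        rw [Finset.sum_apply, this]
      rw [e]
      refine (eLpNorm_sum_le (fun m _ => (hw _).1) one_le_two).trans
        ((Finset.sum_le_sum fun m _ => hn _).trans ?_)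
      rw [← ENNReal.ofReal_sum_of_nonneg fun m _ => h0 _]
      exact ENNReal.ofReal_le_ofReal (sN.sum_le_tsum _ fun m _ => h0 _)
    · filter_upwards [ht] with x hx
      exact (hx.comp (tendsto_add_atTop_nat N)).sub_const _
  have hm : ∀ N, MemLp (fun x => (limUnder atTop fun m => f m x) - f N x) 2 μ := fun N =>
    ⟨hU.sub (hf N).1, (hb N).trans_lt ENNReal.ofReal_lt_top⟩
  refine ⟨?_, ?_⟩
  · have := (hm 0).add (hf 0)
    refine (memLp_congr_ae (ae_of_all _ fun x => ?_)).1 this
    simp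
  · have h2 : Tendsto (fun N => (∑' m, A (m + N)) ^ 2) atTop (𝓝 0) := by
      simpa using (tendsto_sum_nat_add A).pow 2
    exact squeeze_zero (fun N => integral_nonneg fun x => sq_nonneg _)
      (fun N => (eL2 (hm N) (tsum_nonneg fun m => h0 _)).1 (hb N)) h2

lemma cell_sub : cell ⊆ Metric.closedBall 0 1 := fun z hz => by
  rw [mem_closedBall_zero_iff]
  refine (Complex.norm_le_abs_re_add_abs_im z).trans ?_
  have a : |z.re| ≤ 1 / 2 := abs_le.2 ⟨by linarith [hz.1.1], hz.1.2⟩
  have b : |z.im| ≤ 1 / 2 := abs_le.2 ⟨by linarith [hz.2.1], hz.2.2⟩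
  linarith

lemma mem_cell {g : ℂ → ℂ} (hg : Continuous g) : MemLp g 2 (volume.restrict cell) :=
  (memLp_two_iff_integrable_sq_norm hg.aestronglyMeasurable).2
    (((hg.norm.pow 2).continuousOn.integrableOn_compact (isCompact_closedBall 0 1)).mono_set
      cell_sub)

lemma mem_m2 {g : ℝ × ℂ → ℂ} (hg : Continuous g) : MemLp g 2 m2 := by
  rw [m2, Measure.prod_restrict]
  exact (memLp_two_iff_integrable_sq_norm hg.aestronglyMeasurable).2
    (((hg.norm.pow 2).continuousOn.integrableOn_compact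
      (isCompact_Icc.prod (isCompact_closedBall 0 1))).mono_set
      (prod_mono Ioo_subset_Icc_self cell_sub))

end LIMV

open LIMV in
theorem st_LIMV : St_LIMV := by
  intro v q S A rho h
  have hc : ∀ m, Continuous fun z : ℝ × ℂ => v m z.1 z.2 := fun m => (h.er m).1.1.continuous
  have hA : Summable A := h.sum.of_nonneg_of_le h.A0 fun m => le_mul_of_one_le_right (h.A0 m)
    (Real.one_le_rpow_of_pos_of_le_one_of_nonpos (h.rpos m) (h.r1 m) (by norm_num))
  have key := main m2 (fun m z => v m z.1 z.2) A h.A0 hA (fun m => mem_m2 (hc m)) fun m => by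
    have i1 := (memLp_two_iff_integrable_sq_norm (mem_m2 ((hc (m + 1)).sub (hc m))).1).1
      (mem_m2 ((hc (m + 1)).sub (hc m)))
    rw [m2] at i1 ⊢
    refine (integral_prod _ i1).trans_le ?_
    refine (integral_mono i1.integral_prod_left (integrable_const (A m ^ 2))
      fun t => (h.inc m t).1).trans ?_
    simp
  refine ⟨fun t x => limUnder atTop fun m => v m t x,
    (StronglyMeasurable.limUnder fun m => (hc m).stronglyMeasurable).measurable, key.1, key.2,
    fun t => main _ (fun m => v m t) A h.A0 hA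
      (fun m => mem_cell ((hc m).comp (Continuous.prodMk_right t))) fun m => (h.inc m t).1⟩

end Pool.Agent.Lib.EUL
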