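import Pool.Agent.Lib.EUL.Blue

set_option autoImplicit false

namespace Pool.Agent.Lib.EUL

open MeasureTheory Set Filter Topology
open scoped ContDiff Classical

namespace MJ

theorem int_cell {f : ℂ → ℝ} (hf : Continuous f) : IntegrableOn f cell := by
  refine (hf.continuousOn.integrableOn_compact (isCompact_closedBall (0 : ℂ) 1)).mono_set fun z hz => ?_
  rw [mem_closedBall_zero_iff]
  refine (Complex.norm_le_abs_re_add_abs_im z).trans ?_
  have h1 : |z.re| ≤ 1 / 2 := abs_le.2 ⟨by linarith [hz.1.1], hz.1.2⟩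
  have h2 : |z.im| ≤ 1 / 2 := abs_le.2 ⟨by linarith [hz.2.1], hz.2.2⟩
  linarith

theorem IQ_le {f g : ℂ → ℝ} (h0 : ∀ x, 0 ≤ f x) (hg : Continuous g) (h : ∀ x, f x ≤ g x) : IQ f ≤ IQ g :=
  integral_mono_of_nonneg (Eventually.of_forall h0) (int_cell hg) (Eventually.of_forall h)

theorem nD_nonneg (k : ℕ) (f : ℂ → ℂ) (x : ℂ) : 0 ≤ nD k f x := norm_nonneg _

theorem nD_add {f g : ℂ → ℂ} (hf : ContDiff ℝ ∞ f) (hg : ContDiff ℝ ∞ g) (k : ℕ) (x : ℂ) :
    nD k (fun y => f y + g y) x ≤ nD k f x + nD k g x := by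
  have h := iteratedFDeriv_add_apply (𝕜 := ℝ) (i := k) (x := x) (f := f) (g := g)
    (hf.of_le (by exact_mod_cast le_top)).contDiffAt (hg.of_le (by exact_mod_cast le_top)).contDiffAt
  unfold nD
  have e : (fun y => f y + g y) = f + g := rfl
  rw [e, h]
  exact norm_add_le _ _

theorem sm_at {V : ℝ → ℂ → ℂ} (h : Sm V) (t : ℝ) : ContDiff ℝ ∞ (V t) :=
  h.comp (contDiff_const.prodMk contDiff_id)

theorem norm_le {B : ℂ → ℂ} {g : ℂ → ℝ} {l s X : ℝ} (h : GM0 B g l s X) {x y : ℂ} (hxy : ‖x - y‖ ≤ l) :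
    ‖B y‖ ≤ g x := by
  have := h.2.2.1 x y hxy 0 (by norm_num)
  rwa [pow_zero, one_mul, nD, norm_iteratedFDeriv_zero] at this

theorem pts (hP : St_PTS) (B : ℂ → ℂ) (g : ℂ → ℝ) (l s X M : ℝ) (ι : Type) [Fintype ι] (a : ι → ℝ) (p : ι → ℂ)
    (h : GM0 B g l s X) (hl : 0 < l) (hl4 : l ≤ 1 / 4) (h0 : ∀ i, 0 ≤ a i) (h1 : ∀ i, a i ≤ 1)
    (hM : Mult (fun i => a i ≠ 0) p l M) : ∑ i, (a i * ‖B (p i)‖) ^ 2 ≤ M * X / l ^ 2 := by
  have k := hP ι (fun i => a i ≠ 0) p l M (fun i => ‖B (p i)‖ ^ 2) (fun x => g x ^ 2) hl hl4 hM (h.1.pow 2)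
    (fun n z => by simp only [h.2.1 n z]) (fun x => sq_nonneg _)
    fun i _ x hx => pow_le_pow_left₀ (norm_nonneg _) (norm_le h hx) 2
  have hM0 : 0 ≤ M := (Nat.cast_nonneg _).trans (hM 0)
  rw [le_div_iff₀ (by positivity), mul_comm]
  refine le_trans (mul_le_mul_of_nonneg_left ?_ (by positivity))
    (k.trans (mul_le_mul_of_nonneg_left h.2.2.2 hM0))
  rw [Finset.sum_filter]
  refine Finset.sum_le_sum fun i _ => ?_
  split_ifs with c
  · exact pow_le_pow_left₀ (mul_nonneg (h0 i) (norm_nonneg _))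
      (mul_le_of_le_one_left (norm_nonneg _) (h1 i)) 2
  · rw [not_not.1 c]; simp

end MJ

open MJ in
theorem st_MJ (hP : St_PTS) : St_MJ := by
  refine ⟨?_, ?_, ?_, fun B g l s X M ι _ a p => pts hP B g l s X M ι a p, ?_⟩
  · rintro V l D Y l' D' Y' ⟨g, hg, H⟩ hl h0 hD hY
    refine ⟨g, hg, fun t => ⟨(H t).1, (H t).2.1, fun x y hxy => ?_, (H t).2.2.2.trans hY⟩⟩
    obtain ⟨a, b⟩ := (H t).2.2.1 x y (hxy.trans hl)
    exact ⟨a, (mul_le_mul_of_nonneg_right hD (nD_nonneg _ _ _)).trans b⟩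
  · rintro V W l D Y Y' hV hW - hD ⟨g, hg, H⟩ ⟨g', hg', H'⟩
    refine ⟨fun t x => g t x + g' t x, hg.add hg', fun t => ⟨(H t).1.add (H' t).1,
      fun n z => by simp only [(H t).2.1 n z, (H' t).2.1 n z], fun x y hxy => ?_, ?_⟩⟩
    · obtain ⟨a, b⟩ := (H t).2.2.1 x y hxy
      obtain ⟨a', b'⟩ := (H' t).2.2.1 x y hxy
      have c1 := nD_add (sm_at hV t) (sm_at hW t) 1 y
      have c2 := mul_le_mul_of_nonneg_left (nD_add (sm_at hV t) (sm_at hW t) 2 y) hD
      exact ⟨by linarith, by linarith⟩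
    · have c1 : Continuous fun x => g t x ^ 2 := (H t).1.pow 2
      have c2 : Continuous fun x => g' t x ^ 2 := (H' t).1.pow 2
      have c3 : IQ (fun x => (g t x + g' t x) ^ 2) ≤ IQ (fun x => 2 * g t x ^ 2 + 2 * g' t x ^ 2) :=
        IQ_le (fun x => sq_nonneg _) (by fun_prop) fun x => by nlinarith [sq_nonneg (g t x - g' t x)]
      have c4 : IQ (fun x => 2 * g t x ^ 2 + 2 * g' t x ^ 2) =
          2 * IQ (fun x => g t x ^ 2) + 2 * IQ (fun x => g' t x ^ 2) := by
        unfold IQ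
        rw [integral_add ((int_cell c1).const_mul 2) ((int_cell c2).const_mul 2), integral_const_mul,
          integral_const_mul]
      linarith [(H t).2.2.2, (H' t).2.2.2]
  · rintro B l s X D ⟨g, hg, H⟩ hs h0 hD
    refine ⟨fun t x => g t x / s, hg.div_const s, fun t => ⟨(H t).1.div_const s,
      fun n z => by simp only [(H t).2.1 n z], fun x y hxy => ?_, ?_⟩⟩
    · have a := (H t).2.2.1 x y hxy 1 (by norm_num)
      have b := (H t).2.2.1 x y hxy 2 le_rfl
      have c := mul_le_mul_of_nonneg_right (mul_le_mul_of_nonneg_right hD (nD_nonneg 2 (B t) y)) hs.le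
      rw [le_div_iff₀ hs, le_div_iff₀ hs]
      exact ⟨by linarith, by linarith⟩
    · simp only [div_pow]
      unfold IQ
      rw [integral_div]
      exact div_le_div_of_nonneg_right (H t).2.2.2 (by positivity)
  · intro B g l s X _ h hl hl4 hs
    have z : ∀ x : ℂ, ‖x - x‖ ≤ l := fun x => by rw [sub_self, norm_zero]; exact hl.le
    refine ⟨(IQ_le (fun x => sq_nonneg _) (h.1.pow 2) fun x =>
      pow_le_pow_left₀ (norm_nonneg _) (norm_le h (z x)) 2).trans h.2.2.2, ?_, fun x => ?_⟩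
    · have c : IQ (fun x => nD 1 B x ^ 2) ≤ IQ (fun x => g x ^ 2 / s ^ 2) := by
        refine IQ_le (fun x => sq_nonneg _) ((h.1.pow 2).div_const _) fun x => ?_
        rw [← div_pow]
        refine pow_le_pow_left₀ (nD_nonneg _ _ _) ?_ 2
        have a := h.2.2.1 x x (z x) 1 (by norm_num)
        rw [le_div_iff₀ hs]
        linarith
      refine c.trans ?_
      unfold IQ
      rw [integral_div]
      exact div_le_div_of_nonneg_right h.2.2.2 (by positivity)
    · have c := pts hP B g l s X 1 Unit (fun _ => 1) (fun _ => x) h hl hl4 (fun _ => zero_le_one)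
        (fun _ => le_rfl) fun y => by
          have := Finset.card_le_univ (Finset.univ.filter fun _ : Unit => (1 : ℝ) ≠ 0 ∧ pn (x - y) ≤ l)
          rw [Fintype.card_unit] at this
          exact_mod_cast this
      simpa using c

end Pool.Agent.Lib.EUL
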