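import Pool.Agent.Lib.EUL.Blue

set_option autoImplicit false

namespace Pool.Agent.Lib.EUL

open MeasureTheory Set Filter Topology
open scoped ContDiff Classical

namespace MVP

theorem bump_cont : Continuous bump := by
  unfold bump
  exact (expNegInvGlue.contDiff (n := 0)).continuous.comp (by fun_prop)

theorem bump_zero {y : ℂ} (h : 1 ≤ ‖y‖) : bump y = 0 :=
  expNegInvGlue.zero_of_nonpos (by nlinarith)

theorem bump_pos : 0 < ∫ w, bump w := by
  refine bump_cont.integral_pos_of_hasCompactSupport_nonneg_nonzero (x := 0) ?_
    (fun y => expNegInvGlue.nonneg _) (expNegInvGlue.pos_of_pos (by simp)).ne'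
  refine HasCompactSupport.intro (isCompact_closedBall (0 : ℂ) 1) fun y hy => bump_zero ?_
  simp at hy
  exact hy.le

theorem etas_cont (s : ℝ) : Continuous (etas s) := by
  have := bump_cont
  unfold etas eta
  fun_prop

theorem etas_zero {s : ℝ} (hs : 0 < s) {y : ℂ} (h : s ≤ ‖y‖) : etas s y = 0 := by
  have : 1 ≤ ‖y / (s : ℂ)‖ := by
    rw [norm_div, Complex.norm_real, Real.norm_of_nonneg hs.le, le_div_iff₀ hs, one_mul]
    exact h
  simp [etas, eta, bump_zero this]

theorem etas_rad (s : ℝ) {y z : ℂ} (h : ‖y‖ = ‖z‖) : etas s y = etas s z := by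
  simp only [etas, eta, bump, norm_div, h]

theorem etas_int {s : ℝ} (hs : 0 < s) : ∫ y, etas s y = 1 := by
  unfold etas
  rw [integral_complex_ofReal, integral_div]
  have h1 : ∀ y : ℂ, y / (s : ℂ) = s⁻¹ • y := fun y => by
    rw [Complex.real_smul, Complex.ofReal_inv, div_eq_inv_mul]
  simp only [h1]
  rw [Measure.integral_comp_inv_smul, Complex.finrank_real_complex, abs_of_pos (by positivity)]
  unfold eta
  rw [integral_div, div_self bump_pos.ne']
  simp [hs.ne']

theorem circ {g : ℂ → ℂ} {x : ℂ} {r R : ℝ} (hr : 0 < r) (hR : r < R)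
    (hg : DifferentiableOn ℂ g (Metric.ball x R)) :
    ∫ θ in Ioo (-Real.pi) Real.pi, (g (x - Complex.polarCoord.symm (r, θ)) - g x) = 0 := by
  have hsub : Metric.closedBall x |r| ⊆ Metric.ball x R := by
    rw [abs_of_pos hr]; exact Metric.closedBall_subset_ball hR
  have h1 : Real.circleAverage g x r = g x :=
    circleAverage_of_differentiable_on_off_countable countable_empty (hg.continuousOn.mono hsub)
      fun z hz => hg.differentiableAt (Metric.isOpen_ball.mem_nhds
        (hsub (Metric.ball_subset_closedBall hz.1)))
  have hc : Continuous fun θ : ℝ => g (circleMap x r θ) := by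
    refine hg.continuousOn.comp_continuous (continuous_circleMap x r) fun θ => hsub ?_
    exact Metric.sphere_subset_closedBall (circleMap_mem_sphere' x r θ)
  have h2 : ∀ θ : ℝ, x - Complex.polarCoord.symm (r, θ) = circleMap x r (θ + Real.pi) := fun θ => by
    rw [Complex.polarCoord_symm_apply, circleMap, Complex.exp_mul_I]
    simp [Complex.cos_add_pi, Complex.sin_add_pi]
    ring
  simp only [h2]
  have hpi := Real.pi_pos
  rw [← integral_Ioc_eq_integral_Ioo, ← intervalIntegral.integral_of_le (by linarith),
    intervalIntegral.integral_comp_add_right (fun θ => g (circleMap x r θ) - g x),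
    intervalIntegral.integral_sub (hc.intervalIntegrable _ _) intervalIntegrable_const,
    neg_add_cancel, ← two_mul, intervalIntegral.integral_const]
  rw [Real.circleAverage] at h1
  rw [← h1, smul_smul, sub_zero, mul_inv_cancel₀ (by positivity), one_smul, sub_self]

end MVP

open MVP in
theorem st_MVP : St_MVP := by
  intro g x s R hs hR hg
  have hF0 : ∀ (u : ℂ → ℂ) (y : ℂ), s ≤ ‖y‖ → etas s y * u y = 0 := fun u y hy => by
    rw [etas_zero hs hy, zero_mul]
  have hcs : ∀ u : ℂ → ℂ, HasCompactSupport fun y => etas s y * u y := fun u =>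
    HasCompactSupport.intro (isCompact_closedBall (0 : ℂ) s) fun y hy => hF0 u y (by
      simp at hy
      exact hy.le)
  have hF : Continuous fun y => etas s y * (g (x - y) - g x) := by
    refine continuous_iff_continuousAt.2 fun y => ?_
    by_cases hy : ‖y‖ < R
    · have h1 : ContinuousAt g (x - y) :=
        hg.continuousOn.continuousAt (Metric.isOpen_ball.mem_nhds (by simpa using hy))
      have h2 : ContinuousAt (fun y => g (x - y)) y :=
        ContinuousAt.comp (f := fun y => x - y) h1 (by fun_prop)
      exact (etas_cont s).continuousAt.mul (h2.sub continuousAt_const)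
    · have h1 : ∀ᶠ z in 𝓝 y, s < ‖z‖ :=
        continuous_norm.continuousAt.eventually (lt_mem_nhds (by linarith))
      refine ContinuousAt.congr (continuousAt_const (y := (0 : ℂ))) ?_
      filter_upwards [h1] with z hz using (hF0 (fun y => g (x - y) - g x) z hz.le).symm
  have i1 := hF.integrable_of_hasCompactSupport (μ := volume) (hcs fun y => g (x - y) - g x)
  have i2 : Integrable fun y => etas s y * g x :=
    ((etas_cont s).mul (continuous_const (y := g x))).integrable_of_hasCompactSupport
      (hcs fun _ => g x)
  have hn : ∀ p : ℝ × ℝ, ‖Complex.polarCoord.symm p‖ = |p.1| := Complex.norm_polarCoord_symm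
  have key : ∫ y, etas s y * (g (x - y) - g x) = 0 := by
    rw [← Complex.integral_comp_polarCoord_symm, polarCoord_target]
    have hc : Continuous fun p : ℝ × ℝ => p.1 • (etas s (Complex.polarCoord.symm p) *
        (g (x - Complex.polarCoord.symm p) - g x)) := by
      refine continuous_fst.smul (hF.comp (f := fun p => Complex.polarCoord.symm p) ?_)
      simp only [Complex.polarCoord_symm_apply]
      fun_prop
    have hi : IntegrableOn (fun p : ℝ × ℝ => p.1 • (etas s (Complex.polarCoord.symm p) *
        (g (x - Complex.polarCoord.symm p) - g x))) (Ioi (0 : ℝ) ×ˢ Ioo (-Real.pi) Real.pi) := by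
      refine (hc.continuousOn.integrableOn_compact
        ((isCompact_Icc (a := (0 : ℝ)) (b := s)).prod
          (isCompact_Icc (a := -Real.pi) (b := Real.pi)))).of_forall_sdiff_eq_zero
        (measurableSet_Ioi.prod measurableSet_Ioo) fun p hp => ?_
      have h1 : s ≤ ‖Complex.polarCoord.symm p‖ := by
        rw [hn, abs_of_pos hp.1.1]
        by_contra h
        exact hp.2 ⟨⟨le_of_lt hp.1.1, (not_le.1 h).le⟩, Ioo_subset_Icc_self hp.1.2⟩
      rw [etas_zero hs h1, zero_mul, smul_zero]
    rw [Measure.volume_eq_prod] at hi ⊢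
    rw [setIntegral_prod _ hi]
    refine setIntegral_eq_zero_of_forall_eq_zero fun r hr => ?_
    have hr' : 0 < r := hr
    have h1 : ∀ θ : ℝ, etas s (Complex.polarCoord.symm (r, θ)) = etas s r := fun θ =>
      etas_rad s (by rw [hn]; simp)
    simp only [h1]
    rw [integral_smul, integral_const_mul]
    by_cases h : r < R
    · rw [circ hr' h hg, mul_zero, smul_zero]
    · rw [etas_zero hs (by simp [abs_of_pos hr']; linarith), zero_mul, smul_zero]
  have e : ∀ y, etas s y * g (x - y) = etas s y * (g (x - y) - g x) + etas s y * g x := fun y => by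
    ring
  unfold mol
  rw [funext e, integral_add i1 i2, key, zero_add, integral_mul_const, etas_int hs, one_mul]

end Pool.Agent.Lib.EUL
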