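import Pool.Agent.Lib.EUL.Blue

set_option autoImplicit false

namespace Pool.Agent.Lib.EUL

open MeasureTheory Set Filter Topology
open scoped ContDiff Classical NNReal

namespace ODE

theorem exists_sol_Ioo {v : ℝ → ℂ → ℂ} {K L : ℝ≥0} (hK : ∀ t, LipschitzWith K (v t))
    (hc : ∀ y, Continuous fun t => v t y) (hL : ∀ t x, ‖v t x‖ ≤ L) (t0 : ℝ) (x : ℂ) (n : ℕ) :
    ∃ α : ℝ → ℂ, α t0 = x ∧ ∀ t ∈ Ioo (t0 - ((n : ℝ) + 1)) (t0 + ((n : ℝ) + 1)),
      HasDerivAt α (v t (α t)) t := by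
  have hn : (0 : ℝ) < (n : ℝ) + 1 := by positivity
  have h : IsPicardLindelof v (tmin := t0 - ((n : ℝ) + 1)) (tmax := t0 + ((n : ℝ) + 1))
      ⟨t0, by constructor <;> linarith⟩ x (L * ((n : ℝ≥0) + 1)) 0 L K :=
    { lipschitzOnWith := fun t _ => (hK t).lipschitzOnWith
      continuousOn := fun y _ => (hc y).continuousOn
      norm_le := fun t _ y _ => hL t y
      mul_max_le := by simp }
  obtain ⟨α, h0, hα⟩ := h.exists_eq_forall_mem_Icc_hasDerivWithinAt₀
  exact ⟨α, h0, fun t ht => (hα t (Ioo_subset_Icc_self ht)).hasDerivAt (Icc_mem_nhds ht.1 ht.2)⟩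

theorem exists_global_sol {v : ℝ → ℂ → ℂ} {K L : ℝ≥0} (hK : ∀ t, LipschitzWith K (v t))
    (hc : ∀ y, Continuous fun t => v t y) (hL : ∀ t x, ‖v t x‖ ≤ L) (t0 : ℝ) (x : ℂ) :
    ∃ Φ : ℝ → ℂ, Φ t0 = x ∧ ∀ t, HasDerivAt Φ (v t (Φ t)) t := by
  choose α h0 hα using exists_sol_Ioo hK hc hL t0 x
  have hmem : ∀ (n : ℕ) (t : ℝ), |t - t0| < n + 1 →
      t ∈ Ioo (t0 - ((n : ℝ) + 1)) (t0 + ((n : ℝ) + 1)) :=
    fun n t h => ⟨by linarith [(abs_lt.1 h).1], by linarith [(abs_lt.1 h).2]⟩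
  have huniq : ∀ (n m : ℕ), n ≤ m → ∀ t : ℝ, |t - t0| < n + 1 → α n t = α m t := by
    intro n m hnm t ht
    have hnm' : (n : ℝ) ≤ m := Nat.cast_le.2 hnm
    refine ODE_solution_unique_of_mem_Ioo (v := v) (s := fun _ => univ) (K := K)
      (a := t0 - ((n : ℝ) + 1)) (b := t0 + ((n : ℝ) + 1)) (t₀ := t0)
      (fun s _ => (hK s).lipschitzOnWith) (hmem n t0 (by simp; positivity))
      (fun s hs => ⟨hα n s hs, trivial⟩)
      (fun s hs => ⟨hα m s ⟨by linarith [hs.1], by linarith [hs.2]⟩, trivial⟩)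
      (by rw [h0, h0]) (hmem n t ht)
  have hceil : ∀ t : ℝ, |t - t0| < (⌈|t - t0|⌉₊ : ℝ) + 1 := fun t => by
    linarith [Nat.le_ceil |t - t0|]
  set Φ : ℝ → ℂ := fun t => α ⌈|t - t0|⌉₊ t with hΦ
  have hloc : ∀ (n : ℕ) (t : ℝ), |t - t0| < n + 1 → Φ t = α n t := by
    intro n t ht
    rcases le_total n ⌈|t - t0|⌉₊ with h | h
    · exact (huniq _ _ h t ht).symm
    · exact huniq _ _ h t (hceil t)
  refine ⟨Φ, h0 _, fun t => ?_⟩
  have h1 := hα ⌈|t - t0|⌉₊ t (hmem _ t (hceil t))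
  refine h1.congr_of_eventuallyEq ?_
  have hcont : Continuous fun s : ℝ => |s - t0| := by fun_prop
  have : ∀ᶠ s in 𝓝 t, |s - t0| < (⌈|t - t0|⌉₊ : ℝ) + 1 :=
    (hcont.tendsto t).eventually (gt_mem_nhds (hceil t))
  exact this.mono fun s hs => hloc _ s hs

theorem reduce (z : ℂ) : ∃ (n : ℤ × ℤ) (w : ℂ), ‖w‖ ≤ 1 ∧ z = w + lat n := by
  refine ⟨(round z.re, round z.im), z - lat (round z.re, round z.im), ?_, by ring⟩
  refine (Complex.norm_le_abs_re_add_abs_im _).trans ?_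
  have h1 := abs_sub_round z.re
  have h2 := abs_sub_round z.im
  have e1 : (z - lat (round z.re, round z.im)).re = z.re - round z.re := by simp [lat]
  have e2 : (z - lat (round z.re, round z.im)).im = z.im - round z.im := by simp [lat]
  rw [e1, e2]
  linarith

theorem bdd {E : Type} [NormedAddCommGroup E] (g : ℝ → ℂ → E) (a b : ℝ)
    (hg : Continuous fun p : ℝ × ℂ => g p.1 p.2) (hp : ∀ t, Peri (g t))
    (h0 : ∀ t ∉ Icc a b, ∀ x, g t x = 0) : ∃ L : ℝ≥0, ∀ t x, ‖g t x‖ ≤ L := by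
  have hK : IsCompact (Icc a b ×ˢ Metric.closedBall (0 : ℂ) 1) :=
    isCompact_Icc.prod (isCompact_closedBall _ _)
  obtain ⟨C, hC⟩ := hK.exists_bound_of_continuousOn hg.continuousOn
  refine ⟨⟨max C 0, le_max_right _ _⟩, fun t x => ?_⟩
  change ‖g t x‖ ≤ max C 0
  by_cases ht : t ∈ Icc a b
  · obtain ⟨n, w, hw, rfl⟩ := reduce x
    rw [hp t n w]
    exact (hC (t, w) ⟨ht, by simpa using hw⟩).trans (le_max_left _ _)
  · rw [h0 t ht x]; simp

theorem lip (u : ℝ → ℂ → ℂ) (a b : ℝ) (hu : SP u) (hT : TS u a b) :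
    ∃ K : ℝ≥0, ∀ t, LipschitzWith K (u t) := by
  have hs : ContDiff ℝ ∞ (fun p : ℝ × ℂ => u p.1 p.2) := hu.1
  have hd : ∀ t, Differentiable ℝ (u t) := fun t =>
    (hs.comp (contDiff_const.prodMk contDiff_id)).differentiable (by simp)
  have hc : Continuous fun p : ℝ × ℂ => fderiv ℝ (u p.1) p.2 := by
    have h1 : ContDiff ℝ 0 fun p : ℝ × ℂ => fderiv ℝ (u p.1) p.2 := by
      refine ContDiff.fderiv (𝕜 := ℝ) (f := fun (p : ℝ × ℂ) (y : ℂ) => u p.1 y) (g := fun p => p.2)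
        (m := ∞) ?_ contDiff_snd (by exact_mod_cast le_top)
      exact hs.comp ((contDiff_fst.comp contDiff_fst).prodMk contDiff_snd)
    exact h1.continuous
  obtain ⟨K, hK⟩ := bdd (fun t z => fderiv ℝ (u t) z) a b hc
    (fun t n z => by
      have e : (fun y => u t (y + lat n)) = u t := funext fun y => hu.2 t n y
      have := fderiv_comp_add_right (𝕜 := ℝ) (f := u t) (x := z) (lat n)
      rw [e] at this
      exact this.symm)
    (fun t ht x => by
      have e : u t = fun _ => 0 := funext fun y => hT t ht y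
      simp [e])
  exact ⟨K, fun t => lipschitzWith_of_nnnorm_fderiv_le (hd t) fun x => hK t x⟩

theorem smooth_of_ode {F : ℝ × ℂ → ℂ} (hF : ContDiff ℝ ∞ F) {x : ℝ → ℂ}
    (hx : ∀ t, HasDerivAt x (F (t, x t)) t) : ContDiff ℝ ∞ x := by
  have hder : deriv x = fun t => F (t, x t) := funext fun t => (hx t).deriv
  have hdiff : Differentiable ℝ x := fun t => (hx t).differentiableAt
  rw [contDiff_infty]
  intro n
  induction n with
  | zero => exact contDiff_zero.2 hdiff.continuous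
  | succ n ih =>
    have : ((n + 1 : ℕ) : WithTop ℕ∞) = (n : WithTop ℕ∞) + 1 := by push_cast; rfl
    rw [this, contDiff_succ_iff_deriv]
    refine ⟨hdiff, by simp, ?_⟩
    rw [hder]
    exact (hF.of_le (by exact_mod_cast le_top)).comp (contDiff_id.prodMk ih)

end ODE

theorem st_ODE : St_ODE := by
  intro u a b ξ t0 x0 hu hT hξ
  have hs : ContDiff ℝ ∞ (fun p : ℝ × ℂ => u p.1 p.2) := hu.1
  obtain ⟨K, hK⟩ := ODE.lip u a b hu hT
  obtain ⟨L, hL⟩ := ODE.bdd u a b hs.continuous hu.2 hT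
  set X : ℝ → ℂ := fun t => ∫ s in t0..t, ξ s with hX
  have hXd : ∀ t, HasDerivAt X (ξ t) t := fun t => (hξ.continuous.integral_hasStrictDerivAt t0 t).hasDerivAt
  have hXc : Continuous X := continuous_iff_continuousAt.2 fun t => (hXd t).continuousAt
  obtain ⟨y, hy0, hy⟩ := ODE.exists_global_sol (v := fun t y => u t (y + X t)) (K := K) (L := L)
    (fun t => by
      have h1 : LipschitzWith 1 fun y : ℂ => y + X t := (isometry_add_right (X t)).lipschitz
      have h2 := (hK t).comp h1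
      rw [mul_one] at h2
      exact h2)
    (fun y => hs.continuous.comp (continuous_id.prodMk (continuous_const.add hXc)))
    (fun t y => hL t _) t0 x0
  have hx : ∀ t, HasDerivAt (fun t => y t + X t) (u t (y t + X t) + ξ t) t :=
    fun t => (hy t).add (hXd t)
  refine ⟨fun t => y t + X t, ?_, by simp [hy0, hX], hx⟩
  exact ODE.smooth_of_ode (F := fun p => u p.1 p.2 + ξ p.1) (hs.add (hξ.comp contDiff_fst)) hx

end Pool.Agent.Lib.EUL
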