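import Pool.Agent.Lib.EUL.B_SRC
import Pool.Agent.Lib.EUL.B_MOL

/-! Block PB1: envelopes of the two mollifications of the dipole. -/

namespace Pool.Agent.Lib.EUL

open MeasureTheory Set Filter Topology
open scoped ContDiff Classical

namespace PB1

theorem nD_far (b : ℂ) (m j : ℕ) {y : ℂ} (hy : y ≠ 0) :
    nD j (fun w => (starRingEnd ℂ) (b * w ^ (-(m : ℤ)))) y ≤ ‖b‖ * (m + j) ^ j / ‖y‖ ^ (m + j) := by
  have h1 : ContDiffAt ℂ j (fun w : ℂ => b * w ^ (-(m : ℤ))) y := by
    simp only [zpow_neg, zpow_natCast]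
    exact contDiffAt_const.mul ((contDiffAt_id.pow m).inv (pow_ne_zero _ hy))
  refine (Complex.conjLIE.norm_iteratedFDeriv_comp_left (fun w : ℂ => b * w ^ (-(m : ℤ))) y j).trans_le ?_
  rw [← h1.restrictScalars_iteratedFDeriv, Function.comp_apply, ContinuousMultilinearMap.norm_restrictScalars,
    norm_iteratedFDeriv_eq_norm_iteratedDeriv, iteratedDeriv_const_mul_field, iteratedDeriv_eq_iterate,
    iter_deriv_zpow, norm_mul, norm_mul, norm_zpow, ← neg_add', ← Nat.cast_add, zpow_neg, zpow_natCast,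
    mul_div_assoc, div_eq_mul_inv, norm_prod]
  refine mul_le_mul_of_nonneg_left (mul_le_mul_of_nonneg_right ?_ (by positivity)) (norm_nonneg _)
  refine (Finset.prod_le_prod (fun _ _ => norm_nonneg _) fun i hi => ?_).trans_eq
    (by rw [Finset.prod_const, Finset.card_range])
  have h2 : (i : ℝ) ≤ j := by exact_mod_cast (Finset.mem_range.1 hi).le
  exact (norm_sub_le _ _).trans (by simpa using h2)

theorem int_eta {E : Type} [NormedAddCommGroup E] [NormedSpace ℂ E] {e : ℝ} (he : 0 < e) {g : ℂ → E}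
    (hg : Continuous g) : Integrable fun w => etas e w • g w :=
  ((SRC.etas_sm e).continuous.smul hg).integrable_of_hasCompactSupport
    (SRC.cs (r := e) fun _ hy => by simp [SRC.etas_zero he hy.le])

theorem avg_le {E : Type} [NormedAddCommGroup E] [NormedSpace ℝ E] [NormedSpace ℂ E] {e B : ℝ} (he : 0 < e)
    {g : ℂ → E} (h : ∀ w, ‖w‖ ≤ e → ‖g w‖ ≤ B) : ‖∫ w, etas e w • g w‖ ≤ B := by
  have h1 := norm_integral_le_of_norm_le (μ := volume) (f := fun w => etas e w • g w)
    ((int_eta he (continuous_const (y := (1 : ℂ)))).norm.mul_const B) (ae_of_all _ fun w => ?_)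
  · simpa [integral_mul_const, MOL.int_norm he] using h1
  · rw [norm_smul, smul_eq_mul, mul_one]
    rcases le_total e ‖w‖ with h2 | h2
    · simp [SRC.etas_zero he h2]
    · exact mul_le_mul_of_nonneg_left (h w h2) (norm_nonneg _)

theorem der {W : ℂ → ℂ} (c1 : ContDiff ℝ 1 W) {e : ℝ} (he : 0 < e) :
    fderiv ℝ (mol e W) = fun y => ∫ w, etas e w • fderiv ℝ W (y - w) := by
  funext y
  have c0 := c1.continuous
  have c2 := c1.continuous_fderiv one_ne_zero
  obtain ⟨B, hB⟩ := (isCompact_closedBall y (e + 1)).exists_bound_of_continuousOn c2.continuousOn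
  refine (hasFDerivAt_integral_of_dominated_of_fderiv_le (𝕜 := ℝ) (F := fun x w => etas e w * W (x - w))
    (F' := fun x w => etas e w • fderiv ℝ W (x - w)) (bound := fun w => ‖etas e w • (1 : ℂ)‖ * B)
    (Metric.closedBall_mem_nhds y one_pos)
    (Eventually.of_forall fun x => (SRC.int_mol he (by fun_prop)).aestronglyMeasurable)
    (SRC.int_mol he (by fun_prop)) (int_eta he (by fun_prop)).aestronglyMeasurable
    (ae_of_all _ fun w x hx => ?_) ((int_eta he continuous_const).norm.mul_const B)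
    (ae_of_all _ fun w x _ => ?_)).fderiv
  · rw [norm_smul, smul_eq_mul, mul_one]
    rcases le_total e ‖w‖ with h2 | h2
    · simp [SRC.etas_zero he h2]
    · refine mul_le_mul_of_nonneg_left (hB _ ?_) (norm_nonneg _)
      rw [mem_closedBall_iff_norm] at hx ⊢
      rw [sub_right_comm]
      linarith [norm_sub_le (x - y) w]
  · have h := ((c1.differentiable one_ne_zero (x - w)).hasFDerivAt.comp x
      ((hasFDerivAt_id x).sub_const w)).const_mul (etas e w)
    rwa [ContinuousLinearMap.comp_id] at h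

theorem near {W : ℂ → ℂ} (c1 : ContDiff ℝ 1 W) (lip : ∃ C, LipschitzWith C (fderiv ℝ W)) (R : ℝ) :
    ∃ B : ℝ, 0 ≤ B ∧ ∀ y, ‖y‖ ≤ R → ‖W y‖ ≤ B ∧ ∀ e, 0 < e → e ≤ 1 → ∀ j ≤ 2, nD j (mol e W) y ≤ B := by
  obtain ⟨L, hL⟩ := lip
  have c2 := hL.continuous
  obtain ⟨B0, h0⟩ := (isCompact_closedBall (0 : ℂ) (R + 1)).exists_bound_of_continuousOn c1.continuous.continuousOn
  obtain ⟨B1, h1⟩ := (isCompact_closedBall (0 : ℂ) (R + 1)).exists_bound_of_continuousOn c2.continuousOn
  have l0 := L.2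
  have a0 := le_abs_self B0
  have a1 := le_abs_self B1
  have a2 := abs_nonneg B0
  have a3 := abs_nonneg B1
  refine ⟨|B0| + |B1| + L, by positivity, fun y hy => ⟨(h0 y (mem_closedBall_zero_iff.2 (by linarith))).trans
    (by linarith [L.coe_nonneg]), fun e e0 e1 j hj => ?_⟩⟩
  have hm : ∀ w, ‖w‖ ≤ e → y - w ∈ Metric.closedBall (0 : ℂ) (R + 1) := fun w hw =>
    mem_closedBall_zero_iff.2 (by linarith [norm_sub_le y w])
  rw [nD]
  interval_cases j
  · rw [norm_iteratedFDeriv_zero]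
    exact (avg_le e0 fun w hw => h0 _ (hm w hw)).trans (by linarith [L.coe_nonneg])
  · rw [norm_iteratedFDeriv_one, der c1 e0]
    exact (avg_le e0 fun w hw => h1 _ (hm w hw)).trans (by linarith [L.coe_nonneg])
  · rw [← norm_iteratedFDeriv_fderiv, norm_iteratedFDeriv_one, der c1 e0]
    refine (norm_fderiv_le_of_lipschitz ℝ (C := L) (LipschitzWith.of_dist_le_mul fun x z => ?_)).trans (by linarith)
    rw [dist_eq_norm, ← integral_sub (int_eta e0 (by fun_prop)) (int_eta e0 (by fun_prop))]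
    simp only [← smul_sub]
    exact avg_le e0 fun w _ => by simpa only [dist_eq_norm, sub_sub_sub_cancel_right] using hL.dist_le_mul (x - w) (z - w)

theorem far (hM : St_MVP) {W : ℂ → ℂ} {r e : ℝ} {b : ℂ} {m : ℕ} (hr : 0 < r)
    (out : ∀ y, r ≤ ‖y‖ → W y = (starRingEnd ℂ) (b * y ^ (-(m : ℤ)))) (e0 : 0 < e) (e1 : e ≤ 1) {x : ℂ}
    (hx : r + 1 < ‖x‖) : mol e W x = (starRingEnd ℂ) (b * x ^ (-(m : ℤ))) := by
  rw [← hM (fun w => b * w ^ (-(m : ℤ))) x e ‖x‖ e0 (by linarith) fun w hw =>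
    ((differentiableAt_zpow.2 (Or.inl fun h => by simp [h] at hw)).const_mul b).differentiableWithinAt,
    mol, mol, ← integral_conj]
  refine integral_congr_ae (ae_of_all _ fun w => ?_)
  rcases le_total e ‖w‖ with h2 | h2
  · simp [SRC.etas_zero e0 h2]
  · beta_reduce
    rw [out _ (by linarith [norm_sub_norm_le x w]), map_mul (starRingEnd ℂ) (etas e w), etas, Complex.conj_ofReal]

theorem rad (m : ℕ) (R : ℝ) : ∫ w in Metric.closedBall (0 : ℂ) R, 1 / max 1 ‖w‖ ^ m =
    2 * Real.pi * ∫ r in Ioc 0 R, r / max 1 r ^ m := by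
  have h := integral_fun_norm_addHaar (volume : Measure ℂ) ((Iic R).indicator fun r => 1 / max 1 r ^ m)
  rw [← integral_indicator measurableSet_closedBall, ← Ioi_inter_Iic, inter_comm,
    ← Measure.restrict_restrict measurableSet_Iic, ← integral_indicator measurableSet_Iic]
  refine Eq.trans (integral_congr_ae (ae_of_all _ fun w => ?_)) (h.trans ?_)
  · simp [indicator]
  · simp [Measure.real, indicator, mul_assoc, div_eq_mul_inv]

theorem core (hM : St_MVP) {W : ℂ → ℂ} {r : ℝ} {b : ℂ} {m : ℕ} (hr : 0 < r) (c1 : ContDiff ℝ 1 W)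
    (lip : ∃ C, LipschitzWith C (fderiv ℝ W))
    (out : ∀ y, r ≤ ‖y‖ → W y = (starRingEnd ℂ) (b * y ^ (-(m : ℤ)))) : ∃ C : ℝ, 0 ≤ C ∧
    (∀ y, ‖W y‖ ≤ C / max 1 ‖y‖ ^ m) ∧
    (∀ e, 0 < e → e ≤ 1 → ∀ j ≤ 2, ∀ y, nD j (mol e W) y ≤ C / max 1 ‖y‖ ^ (m + j)) ∧
    ∀ e, 0 < e → ∀ j ≤ 2, ∀ y, ‖y‖ ≤ 4 * e →
      nD j (mol e W) y ≤ C * (∫ r in Ioc 0 (6 * e), r / max 1 r ^ m) / e ^ (2 + j) := by
  obtain ⟨B, B0, hB⟩ := near c1 lip (r + 1)
  obtain ⟨A, A1, hA⟩ := SRC.etas_bd
  obtain ⟨C, C0, h1, h2⟩ : ∃ C : ℝ, 0 ≤ C ∧ (∀ y : ℂ, ‖y‖ ≤ r + 1 → ∀ k ≤ m + 2, B ≤ C / max 1 ‖y‖ ^ k) ∧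
      ∀ j : ℕ, j ≤ 2 → ‖b‖ * ((m : ℝ) + j) ^ j ≤ C := by
    refine ⟨B * (r + 1) ^ (m + 2) + ‖b‖ * (m + 2) ^ 2, by positivity, fun y hy k hk => ?_, fun j hj => ?_⟩
    · rw [le_div_iff₀ (by positivity)]
      refine le_add_of_le_of_nonneg (mul_le_mul_of_nonneg_left ((pow_le_pow_left₀ (by positivity)
        (max_le (by linarith) hy) k).trans (pow_le_pow_right₀ (by linarith) hk)) B0) (by positivity)
    · have j2 : (j : ℝ) ≤ 2 := by exact_mod_cast hj
      have m0 : (0 : ℝ) ≤ m := Nat.cast_nonneg m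
      exact le_add_of_nonneg_of_le (by positivity) (mul_le_mul_of_nonneg_left ((pow_le_pow_left₀ (by positivity)
        (add_le_add_right j2 _) j).trans (pow_le_pow_right₀ (by linarith) hj)) (norm_nonneg _))
  have h3 : ∀ j ≤ 2, ∀ y : ℂ, r + 1 < ‖y‖ →
      nD j (fun w => (starRingEnd ℂ) (b * w ^ (-(m : ℤ)))) y ≤ C / max 1 ‖y‖ ^ (m + j) := fun j hj y hy => by
    rw [max_eq_right (by linarith)]
    exact (nD_far b m j (norm_pos_iff.1 (by linarith))).trans (div_le_div_of_nonneg_right (h2 j hj) (by positivity))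
  have h4 : ∀ y, ‖W y‖ ≤ C / max 1 ‖y‖ ^ m := fun y => by
    rcases le_or_gt ‖y‖ (r + 1) with h | h
    · exact (hB y h).1.trans (h1 y h m (by omega))
    · have := h3 0 (by omega) y h
      rwa [nD, norm_iteratedFDeriv_zero, ← out y (by linarith)] at this
  have k1 : 1 ≤ 2 * Real.pi * A := one_le_mul_of_one_le_of_one_le (by linarith [Real.pi_gt_three]) A1
  have k2 : ∀ x : ℝ, 0 ≤ x → C / x ≤ C * (2 * Real.pi * A) / x := fun x hx =>
    div_le_div_of_nonneg_right (le_mul_of_one_le_right C0 k1) hx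
  refine ⟨C * (2 * Real.pi * A), by positivity, fun y => (h4 y).trans (k2 _ (by positivity)),
    fun e e0 e1 j hj y => le_trans ?_ (k2 _ (by positivity)), fun e e0 j hj y hy => ?_⟩
  · rcases le_or_gt ‖y‖ (r + 1) with h | h
    · exact ((hB y h).2 e e0 e1 j hj).trans (h1 y h _ (by omega))
    · have e2 : mol e W =ᶠ[𝓝 y] fun w => (starRingEnd ℂ) (b * w ^ (-(m : ℤ))) := by
        filter_upwards [continuous_norm.continuousAt.eventually (lt_mem_nhds h)] with x hx
        exact far hM hr out e0 e1 hx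
      rw [nD, (e2.iteratedFDeriv ℝ j).eq_of_nhds]
      exact h3 j hj y h
  · have hI : IntegrableOn W (Metric.closedBall 0 (6 * e)) :=
      c1.continuous.continuousOn.integrableOn_compact (isCompact_closedBall _ _)
    have h5 := SRC.conv_bd _ ((integrable_indicator_iff measurableSet_closedBall).2 hI) _ j ℂ ℂ
      (ContinuousLinearMap.mul ℝ ℂ).flip (etas e) (SRC.etas_sm e) (MOL.etas_supp e0) (hA e e0 j (by omega)) y
    rw [convolution_flip, ContinuousLinearMap.opNorm_flip, ContinuousLinearMap.opNorm_mul, one_mul] at h5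
    have e2 : mol e W =ᶠ[𝓝 y] mol e ((Metric.closedBall 0 (6 * e)).indicator W) := by
      filter_upwards [continuous_norm.continuousAt.eventually (gt_mem_nhds (show ‖y‖ < 5 * e by linarith))] with x hx
      refine integral_congr_ae (ae_of_all _ fun w => ?_)
      rcases le_total e ‖w‖ with h6 | h6
      · simp [SRC.etas_zero e0 h6]
      · beta_reduce
        rw [indicator_of_mem (mem_closedBall_zero_iff.2 (by linarith [norm_sub_le x w]))]
    rw [nD, (e2.iteratedFDeriv ℝ j).eq_of_nhds]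
    refine h5.trans ?_
    simp only [norm_indicator_eq_indicator_norm]
    rw [integral_indicator measurableSet_closedBall]
    refine (mul_le_mul_of_nonneg_left (setIntegral_mono (g := fun w => C * (1 / max 1 ‖w‖ ^ m)) hI.norm
      (ContinuousOn.integrableOn_compact (isCompact_closedBall _ _) (Continuous.continuousOn (continuous_const.mul
        (continuous_const.div (by fun_prop) fun w => by positivity))))
      fun w => (h4 w).trans_eq (mul_one_div _ _).symm) (by positivity)).trans (le_of_eq ?_)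
    rw [integral_const_mul, rad]
    ring

theorem rad1 {R : ℝ} (hR : 0 ≤ R) : ∫ r in Ioc 0 R, r / max 1 r ^ 1 ≤ R := by
  have h := norm_setIntegral_le_of_norm_le_const (μ := volume) (s := Ioc 0 R) (C := 1)
    (f := fun r : ℝ => r / max 1 r ^ 1) measure_Ioc_lt_top fun r hr => by
      rw [Real.norm_of_nonneg (div_nonneg hr.1.le (by positivity)), pow_one]
      exact (div_le_one (by positivity)).2 (le_max_right _ _)
  rw [Real.volume_real_Ioc_of_le hR, one_mul, sub_zero] at h
  exact (le_abs_self _).trans h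

theorem rad2 {e : ℝ} (he : 1 ≤ e) : ∫ r in Ioc 0 (6 * e), r / max 1 r ^ 2 ≤ 12 * lg e := by
  have h1 : ∫ r in (0 : ℝ)..6 * e, 2 * (r + 1)⁻¹ = 2 * Real.log (6 * e + 1) := by
    rw [intervalIntegral.integral_const_mul, intervalIntegral.integral_comp_add_right fun r => r⁻¹,
      integral_inv_of_pos (by norm_num) (by linarith), zero_add, div_one]
  have h2 : Real.log (6 * e + 1) ≤ Real.log 7 + Real.log e := by
    rw [← Real.log_mul (by norm_num) (by linarith)]
    exact Real.log_le_log (by linarith) (by linarith)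
  have h3 := Real.log_le_sub_one_of_pos (show (0 : ℝ) < 7 by norm_num)
  have h4 := Real.log_nonneg he
  rw [lg, abs_of_nonneg h4, ← intervalIntegral.integral_of_le (by linarith)]
  refine (intervalIntegral.integral_mono_on (by linarith)
    ((continuous_id.div (by fun_prop) fun r => by positivity).intervalIntegrable _ _)
    (ContinuousOn.intervalIntegrable_of_Icc (by linarith) (continuousOn_const.mul
      (ContinuousOn.inv₀ (by fun_prop) fun r hr => by linarith [hr.1]))) fun r hr => ?_).trans (h1.trans_le (by linarith))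
  have r0 := hr.1
  have k1 := le_max_left 1 r
  have k2 := le_max_right 1 r
  show r / max 1 r ^ 2 ≤ 2 * (r + 1)⁻¹
  rw [← div_eq_mul_inv, div_le_div_iff₀ (by positivity) (by positivity)]
  nlinarith

end PB1

open PB1 in
theorem st_PB1 (hM : St_MVP) : St_PB1 := by
  intro R G
  have r0 := G.rpos
  obtain ⟨C1, c1, a1, a2, a3⟩ := core hM (b := (R.r0 : ℂ) ^ 2) (m := 2) r0 G.c1 G.l1 fun y hy => by
    rw [G.out1 y hy, zpow_neg, zpow_natCast, div_eq_mul_inv]
  obtain ⟨C0, c0, b1, b2, b3⟩ := core hM (b := -Complex.I * (R.r0 : ℂ) ^ 2) (m := 1) r0 G.c0 G.l0 fun y hy => by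
    rw [G.out0 y hy, mul_assoc, map_mul (starRingEnd ℂ) (-Complex.I), Complex.conj_neg_I, zpow_neg, zpow_natCast,
      pow_one, div_eq_mul_inv]
  have k : ∀ {c x : ℝ}, c ≤ 12 * C1 + 6 * C0 → 0 ≤ x → c / x ≤ (12 * C1 + 6 * C0 + R.r0 + 1) / x :=
    fun h hx => div_le_div_of_nonneg_right (by linarith) hx
  refine ⟨12 * C1 + 6 * C0 + R.r0 + 1, by linarith, by linarith, fun y => ⟨(a1 y).trans (k (by linarith) (by positivity)),
    ((b1 y).trans (k (by linarith) (by positivity))).trans_eq (by rw [pow_one])⟩, fun e e0 e1 j hj y =>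
    ⟨(a2 e e0 e1 j hj y).trans (k (by linarith) (by positivity)), (b2 e e0 e1 j hj y).trans
      (k (by linarith) (by positivity))⟩, fun e e1 j hj y hy => ⟨?_, ?_⟩⟩
  · refine (a3 e (by linarith) j hj y hy).trans (div_le_div_of_nonneg_right ?_ (by positivity))
    have h := mul_le_mul_of_nonneg_left (rad2 e1) c1
    have l0 : 0 ≤ lg e := by unfold lg; positivity
    nlinarith [mul_nonneg c0 l0, mul_nonneg r0.le l0]
  · refine (b3 e (by linarith) j hj y hy).trans ((div_le_div_of_nonneg_right (mul_le_mul_of_nonneg_left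
      (rad1 (by linarith)) c0) (by positivity)).trans (le_trans (le_of_eq ?_) (k (c := 6 * C0) (by linarith) (by positivity))))
    field_simp
    ring

end Pool.Agent.Lib.EUL
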