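import Pool.Agent.Lib.EUL.Defs

/-! Superpositions of translates of a test function: smoothness and derivative bounds. -/

open MeasureTheory Set Filter Topology
open scoped ContDiff

namespace Pool.Agent.Lib.EUL.SM

noncomputable section

variable {S : Type} [MeasurableSpace S] {ν : Measure S} {a Z : S → ℂ} {f : ℂ → ℂ}

/-- superposition of translates -/
def sm (ν : Measure S) (a Z : S → ℂ) (f : ℂ → ℂ) (y : ℂ) : ℂ := ∫ s, a s * f (y - Z s) ∂ν

lemma cont_D (hf : ContDiff ℝ ∞ f) (n : ℕ) : Continuous (iteratedFDeriv ℝ n f) :=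
  hf.continuous_iteratedFDeriv (by exact_mod_cast le_top)

lemma cont_nD (hf : ContDiff ℝ ∞ f) (n : ℕ) : Continuous (nD n f) := (cont_D hf n).norm

lemma nD_nonneg (n : ℕ) (f : ℂ → ℂ) (y : ℂ) : 0 ≤ nD n f y := norm_nonneg _

lemma int_nD (hf : ContDiff ℝ ∞ f) (hc : HasCompactSupport f) (n : ℕ) : Integrable (nD n f) :=
  (cont_nD hf n).integrable_of_hasCompactSupport (hc.iteratedFDeriv n).norm

lemma int_gen {E : Type} [NormedAddCommGroup E] [NormedSpace ℂ E]
    {g : ℂ → E} (ha : Integrable a ν) (hZ : Measurable Z) (hg : Continuous g)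
    (hc : HasCompactSupport g) (y : ℂ) : Integrable (fun s => a s • g (y - Z s)) ν := by
  obtain ⟨B, hB⟩ := hg.bounded_above_of_compact_support hc
  have hm : AEStronglyMeasurable (fun s => g (y - Z s)) ν :=
    hg.comp_aestronglyMeasurable (measurable_const.sub hZ).aestronglyMeasurable
  refine (ha.norm.mul_const B).mono' (ha.1.smul hm) (Eventually.of_forall fun s => ?_)
  rw [norm_smul]
  exact mul_le_mul_of_nonneg_left (hB _) (norm_nonneg _)

lemma der_gen {E : Type} [NormedAddCommGroup E] [NormedSpace ℝ E] [NormedSpace ℂ E]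
    [SMulCommClass ℝ ℂ E] {g : ℂ → E} (ha : Integrable a ν) (hZ : Measurable Z)
    (hg : Differentiable ℝ g) (hcf : Continuous (fderiv ℝ g)) (hc : HasCompactSupport g) (y : ℂ) :
    HasFDerivAt (fun y => ∫ s, a s • g (y - Z s) ∂ν) (∫ s, a s • fderiv ℝ g (y - Z s) ∂ν) y := by
  obtain ⟨B, hB⟩ := hcf.bounded_above_of_compact_support (hc.fderiv ℝ)
  refine hasFDerivAt_integral_of_dominated_of_fderiv_le (μ := ν) (x₀ := y) (s := univ)
    (F := fun y s => a s • g (y - Z s)) (F' := fun y s => a s • fderiv ℝ g (y - Z s))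
    (bound := fun s => ‖a s‖ * B) univ_mem
    (Eventually.of_forall fun x => (int_gen ha hZ hg.continuous hc x).1)
    (int_gen ha hZ hg.continuous hc y) (int_gen ha hZ hcf (hc.fderiv ℝ) y).1
    (Eventually.of_forall fun s x _ => ?_) (ha.norm.mul_const B)
    (Eventually.of_forall fun s x _ => ?_)
  · rw [norm_smul]; exact mul_le_mul_of_nonneg_left (hB _) (norm_nonneg _)
  · have := ((hg (x - Z s)).hasFDerivAt.comp x ((hasFDerivAt_id x).sub_const (Z s))).const_smul
      (a s)
    rw [ContinuousLinearMap.comp_id] at this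
    exact this

lemma int_D (ha : Integrable a ν) (hZ : Measurable Z) (hf : ContDiff ℝ ∞ f)
    (hc : HasCompactSupport f) (n : ℕ) (y : ℂ) :
    Integrable (fun s => a s • iteratedFDeriv ℝ n f (y - Z s)) ν :=
  int_gen ha hZ (cont_D hf n) (hc.iteratedFDeriv n) y

lemma taylor (ha : Integrable a ν) (hZ : Measurable Z) (hf : ContDiff ℝ ∞ f)
    (hc : HasCompactSupport f) :
    HasFTaylorSeriesUpTo ∞ (sm ν a Z f)
      (fun y n => ∫ s, a s • iteratedFDeriv ℝ n f (y - Z s) ∂ν) := by
  have hd : ∀ (n : ℕ) (y : ℂ), HasFDerivAt (fun y => ∫ s, a s • iteratedFDeriv ℝ n f (y - Z s) ∂ν)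
      (∫ s, a s • iteratedFDeriv ℝ (n + 1) f (y - Z s) ∂ν).curryLeft y := by
    intro n y
    have hdf : Differentiable ℝ (iteratedFDeriv ℝ n f) :=
      hf.differentiable_iteratedFDeriv (by exact_mod_cast ENat.natCast_lt_top n)
    have hcf : Continuous (fderiv ℝ (iteratedFDeriv ℝ n f)) := by
      rw [fderiv_iteratedFDeriv]
      exact (LinearIsometryEquiv.continuous _).comp (cont_D hf (n + 1))
    have key := der_gen ha hZ hdf hcf (hc.iteratedFDeriv n) y
    have e : (∫ s, a s • iteratedFDeriv ℝ (n + 1) f (y - Z s) ∂ν).curryLeft =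
        ∫ s, a s • fderiv ℝ (iteratedFDeriv ℝ n f) (y - Z s) ∂ν := by
      have := LinearIsometry.integral_comp_comm (𝕜 := ℝ) (E := ℂ [×(n + 1)]→L[ℝ] ℂ)
        (F := ℂ →L[ℝ] ℂ [×n]→L[ℝ] ℂ) (μ := ν)
        (continuousMultilinearCurryLeftEquiv ℝ (fun _ : Fin (n + 1) => ℂ) ℂ).toLinearIsometry
        (fun s => a s • iteratedFDeriv ℝ (n + 1) f (y - Z s))
      refine Eq.trans this.symm (integral_congr_ae (Eventually.of_forall fun s => ?_))
      rw [fderiv_iteratedFDeriv]
      rfl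
    rw [e]
    exact key
  refine ⟨fun y => ?_, fun n _ y => hd n y, fun n _ => ?_⟩
  · have := (continuousMultilinearCurryFin0 ℝ ℂ ℂ).toLinearIsometry.integral_comp_comm (μ := ν)
      (fun s => a s • iteratedFDeriv ℝ 0 f (y - Z s))
    exact Eq.trans this.symm (integral_congr_ae (Eventually.of_forall fun s => rfl))
  · exact continuous_iff_continuousAt.2 fun y => (hd n y).continuousAt

lemma contDiff_sm (ha : Integrable a ν) (hZ : Measurable Z) (hf : ContDiff ℝ ∞ f)
    (hc : HasCompactSupport f) : ContDiff ℝ ∞ (sm ν a Z f) := (taylor ha hZ hf hc).contDiff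

lemma D_sm (ha : Integrable a ν) (hZ : Measurable Z) (hf : ContDiff ℝ ∞ f)
    (hc : HasCompactSupport f) (n : ℕ) (y : ℂ) :
    iteratedFDeriv ℝ n (sm ν a Z f) y = ∫ s, a s • iteratedFDeriv ℝ n f (y - Z s) ∂ν :=
  ((taylor ha hZ hf hc).eq_iteratedFDeriv (by exact_mod_cast le_top) y).symm

lemma nD_sm (ha : Integrable a ν) (hZ : Measurable Z) (hf : ContDiff ℝ ∞ f)
    (hc : HasCompactSupport f) (n : ℕ) (y : ℂ) :
    nD n (sm ν a Z f) y ≤ ∫ s, ‖a s‖ * nD n f (y - Z s) ∂ν := by
  unfold nD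
  rw [D_sm ha hZ hf hc]
  refine (norm_integral_le_integral_norm _).trans (le_of_eq ?_)
  simp only [norm_smul]

/-- the `L¹` norms of the derivatives -/
lemma int_nD_sm [SFinite ν] (ha : Integrable a ν) (hZ : Measurable Z) (hf : ContDiff ℝ ∞ f)
    (hc : HasCompactSupport f) (n : ℕ) :
    ∫ y, nD n (sm ν a Z f) y ≤ (∫ s, ‖a s‖ ∂ν) * ∫ y, nD n f y := by
  have hi := int_nD hf hc n
  have hm : AEStronglyMeasurable (fun p : S × ℂ => ‖a p.1‖ * nD n f (p.2 - Z p.1))
      (ν.prod volume) :=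
    ha.norm.1.comp_fst.mul ((cont_nD hf n).measurable.comp
      (measurable_snd.sub (hZ.comp measurable_fst))).aestronglyMeasurable
  have e : ∀ s, ∫ y, ‖a s‖ * nD n f (y - Z s) = ‖a s‖ * ∫ y, nD n f y := fun s => by
    rw [integral_const_mul, integral_sub_right_eq_self (nD n f)]
  have hp : Integrable (fun p : S × ℂ => ‖a p.1‖ * nD n f (p.2 - Z p.1)) (ν.prod volume) := by
    refine (integrable_prod_iff hm).2 ⟨Eventually.of_forall fun s =>
      (hi.comp_sub_right (Z s)).const_mul ‖a s‖, ?_⟩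
    refine (ha.norm.mul_const (∫ y, nD n f y)).congr (Eventually.of_forall fun s => ?_)
    simp only [← e s]
    refine integral_congr_ae (Eventually.of_forall fun y => ?_)
    exact (Real.norm_of_nonneg (mul_nonneg (norm_nonneg _) (nD_nonneg _ _ _))).symm
  refine (integral_mono_of_nonneg (Eventually.of_forall fun y => nD_nonneg _ _ y)
    hp.integral_prod_right (Eventually.of_forall fun y => nD_sm ha hZ hf hc n y)).trans ?_
  rw [← integral_integral_swap (f := fun s y => ‖a s‖ * nD n f (y - Z s)) hp]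
  simp only [e]
  rw [integral_mul_const]

/-- the total mass -/
lemma int_sm [SFinite ν] (ha : Integrable a ν) (hZ : Measurable Z) (hf : Continuous f)
    (hc : HasCompactSupport f) : ∫ y, sm ν a Z f y = (∫ s, a s ∂ν) * ∫ y, f y := by
  have hi : Integrable f := hf.integrable_of_hasCompactSupport hc
  have hm : AEStronglyMeasurable (fun p : S × ℂ => a p.1 * f (p.2 - Z p.1)) (ν.prod volume) :=
    ha.1.comp_fst.mul (hf.measurable.comp
      (measurable_snd.sub (hZ.comp measurable_fst))).aestronglyMeasurable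
  have hp : Integrable (fun p : S × ℂ => a p.1 * f (p.2 - Z p.1)) (ν.prod volume) := by
    refine (integrable_prod_iff hm).2 ⟨Eventually.of_forall fun s =>
      (hi.comp_sub_right (Z s)).const_mul (a s), ?_⟩
    refine (ha.norm.mul_const (∫ y, ‖f y‖)).congr (Eventually.of_forall fun s => ?_)
    simp only [norm_mul]
    rw [integral_const_mul, integral_sub_right_eq_self (fun y => ‖f y‖)]
  unfold sm
  rw [← integral_integral_swap (f := fun s y => a s * f (y - Z s)) hp]
  simp only [integral_const_mul, integral_sub_right_eq_self f]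
  rw [integral_mul_const]

lemma sm_eq_zero {r R : ℝ} (hs : ∀ y, r < ‖y‖ → f y = 0) (hZ : ∀ᵐ s ∂ν, a s = 0 ∨ ‖Z s‖ ≤ R) {y : ℂ}
    (hy : r + R < ‖y‖) : sm ν a Z f y = 0 := by
  refine integral_eq_zero_of_ae (hZ.mono fun s h => ?_)
  rcases h with h | h
  · simp [h]
  · have := norm_sub_norm_le y (Z s)
    simp [hs (y - Z s) (by linarith)]

lemma cs_of {E : Type} [Zero E] [TopologicalSpace E] {g : ℂ → E} {r : ℝ}
    (hs : ∀ y, r < ‖y‖ → g y = 0) : HasCompactSupport g :=
  HasCompactSupport.intro (isCompact_closedBall (0 : ℂ) r) fun y hy =>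
    hs y (by simpa using hy)

lemma D_lip (hf : ContDiff ℝ ∞ f) (n : ℕ) {B : ℝ} (hB : ∀ y, nD (n + 1) f y ≤ B) (x y : ℂ) :
    ‖iteratedFDeriv ℝ n f x - iteratedFDeriv ℝ n f y‖ ≤ B * ‖x - y‖ := by
  have hdf : Differentiable ℝ (iteratedFDeriv ℝ n f) :=
    hf.differentiable_iteratedFDeriv (by exact_mod_cast ENat.natCast_lt_top n)
  refine Convex.norm_image_sub_le_of_norm_fderiv_le (s := univ) (fun z _ => hdf z)
    (fun z _ => ?_) convex_univ (mem_univ _) (mem_univ _)
  rw [norm_fderiv_iteratedFDeriv]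
  exact hB z

/-- comparison with the unshifted function -/
lemma nD_sm_sub (ha : Integrable a ν) (hZ : Measurable Z) (hf : ContDiff ℝ ∞ f)
    (hc : HasCompactSupport f) (n : ℕ) {B R : ℝ} (hB : ∀ y, nD (n + 1) f y ≤ B)
    (hZR : ∀ᵐ s ∂ν, a s = 0 ∨ ‖Z s‖ ≤ R) (y : ℂ) :
    nD n (fun y => sm ν a Z f y - (∫ s, a s ∂ν) * f y) y ≤ (∫ s, ‖a s‖ ∂ν) * (B * R) := by
  have hB0 : 0 ≤ B := (nD_nonneg _ _ 0).trans (hB 0)
  have hn : (n : WithTop ℕ∞) ≤ ∞ := by exact_mod_cast le_top
  have e : iteratedFDeriv ℝ n (fun y => sm ν a Z f y - (∫ s, a s ∂ν) * f y) y =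
      ∫ s, (a s • iteratedFDeriv ℝ n f (y - Z s) - a s • iteratedFDeriv ℝ n f y) ∂ν := by
    rw [integral_sub (int_D ha hZ hf hc n y) (ha.smul_const _), integral_smul_const,
      ← D_sm ha hZ hf hc, ← iteratedFDeriv_const_smul_apply (hf.contDiffAt.of_le hn)]
    exact iteratedFDeriv_sub_apply ((contDiff_sm ha hZ hf hc).contDiffAt.of_le hn)
      ((hf.const_smul (∫ s, a s ∂ν)).contDiffAt.of_le hn)
  unfold nD
  rw [e, ← integral_mul_const]
  refine norm_integral_le_of_norm_le (ha.norm.mul_const _) (hZR.mono fun s h => ?_)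
  rw [← smul_sub, norm_smul]
  rcases h with h | h
  · simp [h]
  · refine mul_le_mul_of_nonneg_left ((D_lip hf n hB _ _).trans ?_) (norm_nonneg _)
    rw [sub_sub_cancel_left, norm_neg]
    exact mul_le_mul_of_nonneg_left h hB0

end

end Pool.Agent.Lib.EUL.SM
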