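import Pool.Agent.Lib.EUL.B_SRC
import Pool.Agent.Lib.EUL.H69Smear

/-! Block PB3: the large scale error of the profile. -/

namespace Pool.Agent.Lib.EUL

open MeasureTheory Set Filter Topology
open scoped ContDiff Classical

noncomputable section

namespace PB3

lemma natle (n : ℕ) : (n : WithTop ℕ∞) ≤ ∞ := by exact_mod_cast le_top

/-- bounds of two derivatives at scale `s` -/
def Bd (f : ℂ → ℂ) (A s : ℝ) (y : ℂ) : Prop := ∀ j ≤ 2, nD j f y ≤ A / s ^ j

variable {f g : ℂ → ℂ} {A B s : ℝ} {y : ℂ}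

lemma Bd.nn (h : Bd f A s y) : 0 ≤ A := by
  have := h 0 (by norm_num)
  rw [pow_zero, div_one] at this
  exact (norm_nonneg _).trans this

lemma Bd.mono (h : Bd f A s y) (hs : 0 < s) (hAB : A ≤ B) : Bd f B s y := fun j hj =>
  (h j hj).trans (div_le_div_of_nonneg_right hAB (by positivity))

lemma Bd.add (h : Bd f A s y) (h' : Bd g B s y) (hf : ContDiff ℝ ∞ f) (hg : ContDiff ℝ ∞ g) :
    Bd (fun w => f w + g w) (A + B) s y := fun j hj => by
  have e : iteratedFDeriv ℝ j (fun w => f w + g w) y = iteratedFDeriv ℝ j f y + iteratedFDeriv ℝ j g y :=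
    iteratedFDeriv_add_apply (hf.contDiffAt.of_le (natle j)) (hg.contDiffAt.of_le (natle j))
  unfold nD
  rw [e, add_div]
  exact (norm_add_le _ _).trans (add_le_add (h j hj) (h' j hj))

lemma Bd.cmul (h : Bd f A s y) (hf : ContDiff ℝ ∞ f) (c : ℂ) :
    Bd (fun w => c * f w) (‖c‖ * A) s y := fun j hj => by
  have e : iteratedFDeriv ℝ j (fun w => c * f w) y = c • iteratedFDeriv ℝ j f y :=
    iteratedFDeriv_const_smul_apply (a := c) (f := f) (hf.contDiffAt.of_le (natle j))
  unfold nD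
  rw [e, norm_smul, mul_div_assoc]
  exact mul_le_mul_of_nonneg_left (h j hj) (norm_nonneg _)

lemma Bd.mul (h : Bd f A s y) (h' : Bd g B s y) (hf : ContDiff ℝ ∞ f) (hg : ContDiff ℝ ∞ g)
    (hs : 0 < s) : Bd (fun w => f w * g w) (4 * (A * B)) s y := fun j hj => by
  have hA := h.nn
  have hB := h'.nn
  refine (norm_iteratedFDeriv_mul_le hf hg y (natle j)).trans ?_
  have h1 : ∀ i ∈ Finset.range (j + 1), (j.choose i : ℝ) * ‖iteratedFDeriv ℝ i f y‖ *
      ‖iteratedFDeriv ℝ (j - i) g y‖ ≤ (j.choose i : ℝ) * (A * B / s ^ j) := by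
    intro i hi
    have hi' : i ≤ j := Nat.lt_succ_iff.1 (Finset.mem_range.1 hi)
    have e : A * B / s ^ j = A / s ^ i * (B / s ^ (j - i)) := by
      rw [div_mul_div_comm, ← pow_add, Nat.add_sub_cancel' hi']
    rw [e, mul_assoc]
    exact mul_le_mul_of_nonneg_left (mul_le_mul (h i (by omega)) (h' (j - i) (by omega))
      (norm_nonneg _) (by positivity)) (by positivity)
  refine (Finset.sum_le_sum h1).trans ?_
  rw [← Finset.sum_mul, ← Nat.cast_sum, Nat.sum_range_choose, mul_div_assoc 4]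
  have : 2 ^ j ≤ 2 ^ 2 := Nat.pow_le_pow_right (by norm_num) hj
  have h4 : ((2 ^ j : ℕ) : ℝ) ≤ 4 := by exact_mod_cast this
  have h5 : 0 ≤ A * B / s ^ j := by positivity
  exact mul_le_mul_of_nonneg_right h4 h5

lemma th_sm : ContDiff ℝ ∞ fun y => (th y : ℂ) :=
  Complex.ofRealCLM.contDiff.comp (Real.smoothTransition.contDiff.comp
    ((contDiff_const.sub (contDiff_norm_sq ℝ)).div_const _))

lemma th_zero (h : 2 ≤ ‖y‖) : th y = 0 :=
  Real.smoothTransition.zero_of_nonpos (by nlinarith)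

lemma th_one (h : ‖y‖ ≤ 1) : th y = 1 :=
  Real.smoothTransition.one_of_one_le (by nlinarith [norm_nonneg y])

/-- the cutoff -/
def chi (e : ℝ) (y : ℂ) : ℂ := (th (y / (2 * e : ℝ)) : ℂ)

lemma chi_eq (e : ℝ) : chi e = fun y => (th ((2 * e)⁻¹ • y) : ℂ) := by
  funext y
  simp [chi, div_eq_inv_mul]

lemma chi_sm (e : ℝ) : ContDiff ℝ ∞ (chi e) := by
  rw [chi_eq]; exact th_sm.comp (contDiff_const_smul _)

lemma norm_sc {e : ℝ} (he : 0 < e) (y : ℂ) : ‖y / ((2 * e : ℝ) : ℂ)‖ = ‖y‖ / (2 * e) := by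
  rw [norm_div, Complex.norm_real, Real.norm_of_nonneg (by positivity)]

lemma chi_zero {e : ℝ} (he : 0 < e) (h : 4 * e ≤ ‖y‖) : chi e y = 0 := by
  rw [chi, th_zero, Complex.ofReal_zero]
  rw [norm_sc he, le_div_iff₀ (by positivity)]; linarith

lemma chi_one {e : ℝ} (he : 0 < e) (h : ‖y‖ ≤ 2 * e) : chi e y = 1 := by
  rw [chi, th_one, Complex.ofReal_one]
  rw [norm_sc he, div_le_iff₀ (by positivity)]; linarith

lemma chi_bd : ∃ C : ℝ, 0 ≤ C ∧ ∀ e : ℝ, 0 < e → ∀ y, Bd (chi e) C e y := by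
  have h : ∀ k : ℕ, ∃ C, ∀ y, ‖iteratedFDeriv ℝ k (fun y => (th y : ℂ)) y‖ ≤ C := fun k =>
    (th_sm.continuous_iteratedFDeriv (natle k)).bounded_above_of_compact_support
      ((SRC.cs (r := 2) fun y hy => by rw [th_zero hy.le, Complex.ofReal_zero]).iteratedFDeriv k)
  choose C hC using h
  have C0 : ∀ k, 0 ≤ C k := fun k => (norm_nonneg _).trans (hC k 0)
  have S0 := Finset.sum_nonneg fun k (_ : k ∈ Finset.range 3) => C0 k
  refine ⟨∑ k ∈ Finset.range 3, C k, S0, fun e he y k hk => ?_⟩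
  have h1 : C k ≤ ∑ k ∈ Finset.range 3, C k :=
    Finset.single_le_sum (fun k _ => C0 k) (Finset.mem_range.2 (by omega))
  unfold nD
  rw [chi_eq, iteratedFDeriv_comp_const_smul _ (th_sm.of_le (natle k)), norm_smul,
    Real.norm_of_nonneg (by positivity), div_eq_inv_mul, ← inv_pow]
  exact mul_le_mul (pow_le_pow_left₀ (by positivity) (inv_anti₀ he (by linarith)) k)
    ((hC k _).trans h1) (norm_nonneg _) (by positivity)

/-- the integrable envelope -/
def KK (w : ℂ) : ℝ := 1 / max 1 ‖w‖ ^ 3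

lemma mpos (w : ℂ) : 0 < max 1 ‖w‖ := lt_max_of_lt_left one_pos

lemma KK_nn (w : ℂ) : 0 ≤ KK w := by have := mpos w; unfold KK; positivity

lemma KK_int : Integrable KK := by
  have h : Integrable fun w : ℂ => (1 + ‖w‖) ^ (-(3 : ℝ)) :=
    integrable_one_add_norm (by rw [Complex.finrank_real_complex]; norm_num)
  have hc : Continuous KK :=
    continuous_const.div ((continuous_const.max continuous_norm).pow 3) fun w => (pow_pos (mpos w) 3).ne'
  refine (h.const_mul 8).mono' hc.aestronglyMeasurable (ae_of_all _ fun w => ?_)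
  have h0 := norm_nonneg w
  have hm := mpos w
  have h1 : (1 + ‖w‖) ^ 3 ≤ (2 * max 1 ‖w‖) ^ 3 :=
    pow_le_pow_left₀ (by positivity) (by linarith [le_max_left 1 ‖w‖, le_max_right 1 ‖w‖]) 3
  rw [Real.norm_of_nonneg (KK_nn w), Real.rpow_neg (by positivity), Real.rpow_ofNat, KK,
    ← div_eq_mul_inv, div_le_div_iff₀ (by positivity) (by positivity)]
  linarith

lemma etas_cs {e : ℝ} (he : 0 < e) : HasCompactSupport (etas e) :=
  SRC.cs (r := e) fun _ hy => SRC.etas_zero he hy.le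

lemma sm_sub {a : ℂ → ℂ} (ha : Integrable a) (hf : ContDiff ℝ ∞ f) (hc : HasCompactSupport f) (n : ℕ)
    {c : ℝ} (hB : ∀ y, nD (n + 1) f y ≤ B) (hK : ∀ w, ‖a w‖ * ‖w‖ ≤ c * KK w) (y : ℂ) :
    nD n (fun y => SM.sm volume a id f y - (∫ s, a s) * f y) y ≤ B * (c * ∫ w, KK w) := by
  have hB0 : 0 ≤ B := (norm_nonneg _).trans (hB 0)
  have e : iteratedFDeriv ℝ n (fun y => SM.sm volume a id f y - (∫ s, a s) * f y) y =
      ∫ s, (a s • iteratedFDeriv ℝ n f (y - id s) - a s • iteratedFDeriv ℝ n f y) := by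
    rw [integral_sub (SM.int_D ha measurable_id hf hc n y) (ha.smul_const _), integral_smul_const,
      ← SM.D_sm ha measurable_id hf hc, ← iteratedFDeriv_const_smul_apply (hf.contDiffAt.of_le (natle n))]
    exact iteratedFDeriv_sub_apply ((SM.contDiff_sm ha measurable_id hf hc).contDiffAt.of_le (natle n))
      ((hf.const_smul (∫ s, a s)).contDiffAt.of_le (natle n))
  unfold nD
  rw [e, ← integral_const_mul, ← integral_const_mul]
  refine norm_integral_le_of_norm_le ((KK_int.const_mul c).const_mul B) (ae_of_all _ fun s => ?_)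
  rw [← smul_sub, norm_smul]
  have h1 := SM.D_lip hf n hB (y - id s) y
  rw [sub_sub_cancel_left, norm_neg, id] at h1
  have h2 := mul_le_mul_of_nonneg_left h1 (norm_nonneg (a s))
  have h3 := mul_le_mul_of_nonneg_left (hK s) hB0
  rw [id]
  linarith

lemma sm_bd {a : ℂ → ℂ} (ha : Integrable a) (hf : ContDiff ℝ ∞ f) (hc : HasCompactSupport f) (n : ℕ)
    {c : ℝ} (hB : ∀ y, nD n f y ≤ B) (hK : ∀ w, ‖a w‖ ≤ c * KK w) (y : ℂ) :
    nD n (SM.sm volume a id f) y ≤ B * (c * ∫ w, KK w) := by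
  have hB0 : 0 ≤ B := (norm_nonneg _).trans (hB 0)
  refine (SM.nD_sm ha measurable_id hf hc n y).trans ?_
  rw [← integral_const_mul, ← integral_const_mul]
  refine integral_mono_of_nonneg (ae_of_all _ fun s => mul_nonneg (norm_nonneg _) (norm_nonneg _))
    ((KK_int.const_mul c).const_mul B) (ae_of_all _ fun s => ?_)
  show ‖a s‖ * nD n f (y - id s) ≤ B * (c * KK s)
  rw [mul_comm]
  exact mul_le_mul (hB _) (hK s) (norm_nonneg _) hB0

lemma int_le (k : ℕ) {r M : ℝ} (hr : 0 ≤ r) (hM : 0 ≤ M) (h0 : ∀ y, r < ‖y‖ → f y = 0)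
    (h : ∀ y, ‖y‖ ≤ r → nD k f y ≤ M) : ∫ y, nD k f y ≤ 4 * r ^ 2 * M := by
  have hi : Integrable ((Metric.closedBall (0 : ℂ) r).indicator fun _ => M) :=
    (integrable_indicator_iff measurableSet_closedBall).2
      (integrableOn_const (measure_closedBall_lt_top).ne)
  have h1 : ∫ y, nD k f y ≤ ∫ y, (Metric.closedBall (0 : ℂ) r).indicator (fun _ => M) y := by
    refine integral_mono_of_nonneg (ae_of_all _ fun y => norm_nonneg _) hi (ae_of_all _ fun y => ?_)
    by_cases hy : ‖y‖ ≤ r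
    · rw [indicator_of_mem (mem_closedBall_zero_iff.2 hy)]; exact h y hy
    · rw [indicator_of_notMem (fun hh => hy (mem_closedBall_zero_iff.1 hh))]
      have ev : f =ᶠ[𝓝 y] fun _ => 0 :=
        Filter.Eventually.mono ((isOpen_lt continuous_const continuous_norm).mem_nhds (not_le.1 hy))
          fun w hw => h0 w hw
      show nD k f y ≤ 0
      unfold nD
      rw [(ev.iteratedFDeriv ℝ k).eq_of_nhds]
      simp
  refine h1.trans ?_
  rw [integral_indicator_const _ measurableSet_closedBall, smul_eq_mul, measureReal_def,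
    Complex.volume_closedBall, ENNReal.toReal_mul, ENNReal.toReal_pow, ENNReal.toReal_ofReal hr,
    ENNReal.coe_toReal, NNReal.coe_real_pi]
  refine mul_le_mul_of_nonneg_right ?_ hM
  nlinarith [Real.pi_le_four, sq_nonneg r]

lemma mol_sm {e : ℝ} (he : 0 < e) (hf : Continuous f) : ContDiff ℝ ∞ (mol e f) :=
  (etas_cs he).contDiff_convolution_left (ContinuousLinearMap.mul ℝ ℂ) (SRC.etas_sm e)
    hf.locallyIntegrable

lemma mol_lin {e : ℝ} (he : 0 < e) (hf : Continuous f) (hg : Continuous g) (a b : ℂ) :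
    mol e (fun w => a * f w + b * g w) = fun y => a * mol e f y + b * mol e g y := by
  funext y
  have i1 := SRC.int_mol he (g := fun w => f (y - w)) (by fun_prop)
  have i2 := SRC.int_mol he (g := fun w => g (y - w)) (by fun_prop)
  unfold mol
  rw [← integral_const_mul, ← integral_const_mul, ← integral_add (i1.const_mul a) (i2.const_mul b)]
  exact integral_congr_ae (ae_of_all _ fun w => by ring)

end PB3

open PB3 in
theorem st_PB3 (hPB1 : St_PB1) : St_PB3 := by
  intro R hR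
  obtain ⟨C, C1, -, hW, -, hmol⟩ := hPB1 R hR
  obtain ⟨Ce, Ce1, hCe⟩ := SRC.etas_bd
  obtain ⟨Ct, Ct0, hCt⟩ := chi_bd
  have I0 : 0 ≤ ∫ w, KK w := integral_nonneg KK_nn
  obtain ⟨I, hI⟩ : ∃ I : ℝ, I = ∫ w, KK w := ⟨_, rfl⟩
  rw [← hI] at I0
  obtain ⟨Q, hQ⟩ : ∃ Q : ℝ, Q = 16 * C ^ 2 + 8 * (Ce * C ^ 2 * I) := ⟨_, rfl⟩
  have Q0 : 0 ≤ Q := by rw [hQ]; positivity
  refine ⟨1 + 256 * (Ct * Q), by nlinarith [mul_nonneg Ct0 Q0], fun e a g he hg => ?_⟩
  have e1 : 1 ≤ e := by nlinarith [mul_nonneg Ct0 Q0]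
  have e0 : 0 < e := by linarith
  have c1 := hR.c1.continuous
  have c0 := hR.c0.continuous
  have L1 : 1 ≤ lg e := by unfold lg; linarith [abs_nonneg (Real.log e)]
  have ga : |g| ≤ |a| / e := (le_div_iff₀ e0).2 hg
  have a0 := abs_nonneg a
  have g0 := abs_nonneg g
  obtain ⟨a1, ha1⟩ : ∃ a1 : ℂ → ℂ, a1 = fun w => (a : ℂ) ^ 2 * R.W1 w ^ 2 := ⟨_, rfl⟩
  obtain ⟨b0, hb0⟩ : ∃ b0 : ℂ → ℂ,
      b0 = fun w => 2 * (a : ℂ) * g * (R.W1 w * R.W0 w) + (g : ℂ) ^ 2 * R.W0 w ^ 2 := ⟨_, rfl⟩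
  obtain ⟨b, hb⟩ : ∃ b : ℂ → ℂ, b = (Metric.closedBall (0 : ℂ) (5 * e)).indicator b0 := ⟨_, rfl⟩
  have ia : Integrable a1 := by rw [ha1]; exact hR.int.const_mul _
  have cb0 : Continuous b0 := by rw [hb0]; fun_prop
  have ib : Integrable b := by
    rw [hb]
    exact (integrable_indicator_iff measurableSet_closedBall).2
      (cb0.continuousOn.integrableOn_compact (isCompact_closedBall _ _))
  have ma : ∫ w, a1 w = (a : ℂ) ^ 2 * R.M0 := by rw [ha1, integral_const_mul, hR.mass]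
  have Ka : ∀ w, ‖a1 w‖ * ‖w‖ ≤ a ^ 2 * C ^ 2 * KK w := by
    intro w
    have hm := mpos w
    have h1 : ‖R.W1 w‖ ^ 2 ≤ (C / max 1 ‖w‖ ^ 2) ^ 2 := pow_le_pow_left₀ (norm_nonneg _) (hW w).1 2
    have h2 := mul_le_mul h1 (le_max_right 1 ‖w‖) (norm_nonneg _) (by positivity)
    have h3 : (C / max 1 ‖w‖ ^ 2) ^ 2 * max 1 ‖w‖ = C ^ 2 * KK w := by unfold KK; field_simp
    rw [h3] at h2
    rw [ha1]
    simp only [norm_mul, norm_pow, Complex.norm_real, Real.norm_eq_abs, sq_abs]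
    rw [mul_assoc, mul_assoc]
    exact mul_le_mul_of_nonneg_left h2 (sq_nonneg a)
  have Kb : ∀ w, ‖b w‖ ≤ 7 * (a ^ 2 / e) * C ^ 2 * KK w := by
    intro w
    have hm := mpos w
    have hK := KK_nn w
    rw [hb]
    by_cases hw : w ∈ Metric.closedBall (0 : ℂ) (5 * e)
    · rw [indicator_of_mem hw, hb0]
      have hw' : max 1 ‖w‖ ≤ 5 * e := max_le (by linarith) (mem_closedBall_zero_iff.1 hw)
      have h1 := mul_le_mul (hW w).1 (hW w).2 (norm_nonneg _) (by positivity)
      have h2 : C / max 1 ‖w‖ ^ 2 * (C / max 1 ‖w‖) = C ^ 2 * KK w := by unfold KK; field_simp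
      have h3 : ‖R.W0 w‖ ^ 2 ≤ (C / max 1 ‖w‖) ^ 2 := pow_le_pow_left₀ (norm_nonneg _) (hW w).2 2
      have h4 : (C / max 1 ‖w‖) ^ 2 = max 1 ‖w‖ * (C ^ 2 * KK w) := by unfold KK; field_simp
      have h5 := mul_le_mul_of_nonneg_right hw' (by positivity : 0 ≤ C ^ 2 * KK w)
      rw [h2] at h1
      rw [h4] at h3
      have h6 : |a| * |g| ≤ a ^ 2 / e := by
        rw [← sq_abs, sq, mul_div_assoc]; exact mul_le_mul_of_nonneg_left ga a0
      have h7 : |g| ^ 2 * e ≤ a ^ 2 / e := by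
        have := mul_le_mul_of_nonneg_left hg g0
        nlinarith
      have h8 := mul_le_mul h6 h1 (by positivity) (by positivity)
      have h9 := mul_le_mul_of_nonneg_left (h3.trans h5) (sq_nonneg |g|)
      have h10 := mul_le_mul_of_nonneg_right h7 (by positivity : 0 ≤ C ^ 2 * KK w)
      refine (norm_add_le _ _).trans ?_
      simp only [norm_mul, norm_pow, Complex.norm_real, Real.norm_eq_abs, Complex.norm_ofNat]
      nlinarith
    · rw [indicator_of_notMem hw, norm_zero]; positivity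
  have cW : Continuous (R.W a g) := by unfold Raw.W; fun_prop
  have sW := mol_sm e0 cW
  have sa := SM.contDiff_sm ia measurable_id (SRC.etas_sm e) (etas_cs e0)
  have sb := SM.contDiff_sm ib measurable_id (SRC.etas_sm e) (etas_cs e0)
  have sa' : ContDiff ℝ ∞ fun y => SM.sm volume a1 id (etas e) y - (∫ s, a1 s) * etas e y :=
    sa.sub (contDiff_const.mul (SRC.etas_sm e))
  have key : R.XC e a g = fun y => chi e y * (mol e (R.W a g) y * mol e (R.W a g) y +
      ((SM.sm volume a1 id (etas e) y - (∫ s, a1 s) * etas e y) + SM.sm volume b id (etas e) y)) := by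
    funext y
    have e2 : R.XC e a g y = chi e y * (mol e (R.W a g) y ^ 2 + mol e (fun w => R.W a g w ^ 2) y)
      - a ^ 2 * R.M0 * etas e y := rfl
    rw [e2, ma]
    by_cases hy : ‖y‖ ≤ 4 * e
    · have e3 : mol e (fun w => R.W a g w ^ 2) y =
          SM.sm volume a1 id (etas e) y + SM.sm volume b id (etas e) y := by
        have j1 : Integrable fun s => a1 s * etas e (y - id s) :=
          SM.int_gen ia measurable_id (SRC.etas_sm e).continuous (etas_cs e0) y
        have j2 : Integrable fun s => b s * etas e (y - id s) :=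
          SM.int_gen ib measurable_id (SRC.etas_sm e).continuous (etas_cs e0) y
        unfold mol SM.sm
        rw [← integral_add j1 j2, ← integral_sub_left_eq_self _ volume y]
        refine integral_congr_ae (ae_of_all _ fun w => ?_)
        simp only [id, sub_sub_cancel]
        by_cases hw : w ∈ Metric.closedBall (0 : ℂ) (5 * e)
        · rw [hb, indicator_of_mem hw, hb0, ha1]
          unfold Raw.W
          ring
        · have h1 : 5 * e < ‖w‖ := not_le.1 fun hh => hw (mem_closedBall_zero_iff.2 hh)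
          have h2 := norm_sub_norm_le w y
          rw [norm_sub_rev] at h2
          rw [SRC.etas_zero e0 (by linarith : e ≤ ‖y - w‖)]
          ring
      have e4 : chi e y * etas e y = etas e y := by
        by_cases h2 : ‖y‖ ≤ 2 * e
        · rw [chi_one e0 h2, one_mul]
        · rw [SRC.etas_zero e0 (by linarith : e ≤ ‖y‖), mul_zero]
      rw [e3]
      linear_combination ((a : ℂ) ^ 2 * R.M0) * e4
    · rw [chi_zero e0 (not_le.1 hy).le, SRC.etas_zero e0 (by linarith : e ≤ ‖y‖)]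
      ring
  have hz : ∀ y, 4 * e < ‖y‖ → R.XC e a g y = 0 := fun y hy => by
    rw [key]
    show chi e y * _ = 0
    rw [chi_zero e0 hy.le, zero_mul]
  have bd : ∀ y, ‖y‖ ≤ 4 * e → Bd (R.XC e a g) (4 * (Ct * (Q * (a ^ 2 * lg e ^ 2 / e ^ 3)))) e y := by
    intro y hy
    have b1 : Bd (mol e R.W1) (C * lg e / e ^ 2) e y := fun j hj => by
      rw [div_div, ← pow_add]; exact (hmol e e1 j hj y hy).1
    have b0' : Bd (mol e R.W0) (C / e) e y := fun j hj => by
      rw [div_div, ← pow_succ', add_comm]; exact (hmol e e1 j hj y hy).2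
    have s1 := mol_sm e0 c1
    have s0 := mol_sm e0 c0
    have b2 : Bd (mol e (R.W a g)) (2 * C * |a| * lg e / e ^ 2) e y := by
      have e5 : mol e (R.W a g) = fun y => a * mol e R.W1 y + g * mol e R.W0 y := mol_lin e0 c1 c0 _ _
      rw [e5]
      refine ((b1.cmul s1 a).add (b0'.cmul s0 g) (contDiff_const.mul s1) (contDiff_const.mul s0)).mono
        e0 ?_
      simp only [Complex.norm_real, Real.norm_eq_abs]
      have h1 := mul_le_mul_of_nonneg_right ga (by positivity : 0 ≤ C / e)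
      have h2 : |a| / e * (C / e) ≤ |a| * (C * lg e / e ^ 2) := by
        have : |a| / e * (C / e) = |a| * (C * 1 / e ^ 2) := by field_simp
        rw [this]
        gcongr
      have h3 : 2 * C * |a| * lg e / e ^ 2 = 2 * (|a| * (C * lg e / e ^ 2)) := by ring
      linarith
    have b3 : Bd (fun y => SM.sm volume a1 id (etas e) y - (∫ s, a1 s) * etas e y)
        (Ce * C ^ 2 * I * (a ^ 2 / e ^ 3)) e y := fun j hj => by
      refine (sm_sub ia (SRC.etas_sm e) (etas_cs e0) j (fun w => hCe e e0 (j + 1) (by omega) w)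
        Ka y).trans (le_of_eq ?_)
      rw [← hI]; field_simp; ring
    have b4 : Bd (SM.sm volume b id (etas e)) (7 * (Ce * C ^ 2 * I * (a ^ 2 / e ^ 3))) e y :=
      fun j hj => by
        refine (sm_bd ib (SRC.etas_sm e) (etas_cs e0) j (fun w => hCe e e0 j (by omega) w)
          Kb y).trans (le_of_eq ?_)
        rw [← hI]; field_simp
    have b5 := (b2.mul b2 sW sW e0).add (b3.add b4 sa' sb) (sW.mul sW) (sa'.add sb)
    have b6 := b5.mono (B := Q * (a ^ 2 * lg e ^ 2 / e ^ 3)) e0 (by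
      have h1 : 4 * (2 * C * |a| * lg e / e ^ 2 * (2 * C * |a| * lg e / e ^ 2)) =
          16 * C ^ 2 * (a ^ 2 * lg e ^ 2 / e ^ 4) := by
        rw [← sq_abs a]; field_simp; ring
      have h2 : a ^ 2 * lg e ^ 2 / e ^ 4 ≤ a ^ 2 * lg e ^ 2 / e ^ 3 :=
        div_le_div_of_nonneg_left (by positivity) (by positivity) (pow_le_pow_right₀ e1 (by norm_num))
      have h3 : a ^ 2 / e ^ 3 ≤ a ^ 2 * lg e ^ 2 / e ^ 3 :=
        div_le_div_of_nonneg_right (le_mul_of_one_le_right (sq_nonneg a) (one_le_pow₀ L1))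
          (by positivity)
      have h4 := mul_le_mul_of_nonneg_left h2 (by positivity : 0 ≤ 16 * C ^ 2)
      have h5 := mul_le_mul_of_nonneg_left h3 (by positivity : 0 ≤ Ce * C ^ 2 * I)
      rw [h1, hQ]
      linarith)
    rw [key]
    exact (hCt e e0 y).mul b6 (chi_sm e) ((sW.mul sW).add (sa'.add sb)) e0
  have fin : ∀ k ≤ 2, ∫ y, nD k (R.XC e a g) y ≤
      (1 + 256 * (Ct * Q)) * a ^ 2 * lg e ^ 2 / e ^ (1 + k) := by
    intro k hk
    refine (int_le k (by positivity) (by positivity) hz fun y hy => bd y hy k hk).trans ?_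
    have h1 : 4 * (4 * e) ^ 2 * (4 * (Ct * (Q * (a ^ 2 * lg e ^ 2 / e ^ 3))) / e ^ k) =
        256 * (Ct * Q) * a ^ 2 * lg e ^ 2 / e ^ (1 + k) := by
      field_simp; ring
    rw [h1]
    gcongr
    linarith
  refine ⟨?_, fin 2 le_rfl⟩
  have := fin 0 (by norm_num)
  rwa [add_zero, pow_one] at this

end

end Pool.Agent.Lib.EUL
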