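import Pool.Agent.Lib.EUL.B_MOL

/-! Block PID: the identities satisfied by the smooth profile. -/

open MeasureTheory Set Filter Topology
open scoped ContDiff Classical

noncomputable section

namespace Pool.Agent.Lib.EUL

namespace PID

open Complex (I)

/-! ### mollification -/

theorem intg' {s : ℝ} (hs : 0 < s) {f : ℂ → ℂ} (hf : Continuous f) (x : ℂ) :
    Integrable fun y => etas s y * f (x - y) := MOL.intg hs (by fun_prop)

theorem mol_smooth {s : ℝ} (hs : 0 < s) {f : ℂ → ℂ} (hf : Continuous f) : ContDiff ℝ ∞ (mol s f) :=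
  (MOL.etas_supp hs).contDiff_convolution_left (n := ⊤) (ContinuousLinearMap.mul ℝ ℂ)
    (MOL.etas_smooth s) hf.locallyIntegrable

theorem mol_diff {s : ℝ} (hs : 0 < s) {f : ℂ → ℂ} (hf : Continuous f) (x : ℂ) :
    DifferentiableAt ℝ (mol s f) x := (mol_smooth hs hf).differentiable (by simp) x

theorem mol_add {s : ℝ} (hs : 0 < s) {f g : ℂ → ℂ} (hf : Continuous f) (hg : Continuous g) (x : ℂ) :
    mol s (fun w => f w + g w) x = mol s f x + mol s g x := by
  simp only [mol, mul_add]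
  exact integral_add (intg' hs hf x) (intg' hs hg x)

theorem mol_mul (s : ℝ) (c : ℂ) (f : ℂ → ℂ) (x : ℂ) :
    mol s (fun w => c * f w) x = c * mol s f x := by
  simp only [mol, mul_left_comm _ c]
  exact integral_const_mul _ _

theorem mol_lin {s : ℝ} (hs : 0 < s) {f g : ℂ → ℂ} (hf : Continuous f) (hg : Continuous g)
    (a b x : ℂ) : mol s (fun w => a * f w + b * g w) x = a * mol s f x + b * mol s g x := by
  rw [mol_add hs (f := fun w => a * f w) (g := fun w => b * g w) (continuous_const.mul hf)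
    (continuous_const.mul hg), mol_mul, mol_mul]

theorem mol_zero (s : ℝ) (x : ℂ) : mol s (fun _ => 0) x = 0 := by simp [mol]

theorem mol_cj (s : ℝ) (f : ℂ → ℂ) (x : ℂ) :
    mol s (cj f) x = (starRingEnd ℂ) (mol s f x) := by
  rw [mol, mol, ← integral_conj]
  simp only [cj, map_mul, etas, Complex.conj_ofReal]

theorem mol_fderiv {s : ℝ} (hs : 0 < s) {f : ℂ → ℂ} (hf : ContDiff ℝ 1 f) (y v : ℂ) :
    fderiv ℝ (mol s f) y v = mol s (fun w => fderiv ℝ f w v) y := by
  have hc : Continuous (fderiv ℝ f) := hf.continuous_fderiv one_ne_zero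
  have he := (MOL.etas_smooth s).continuous
  obtain ⟨C, hC⟩ := (isCompact_closedBall y (1 + s)).exists_bound_of_continuousOn hc.continuousOn
  have hi : Integrable fun a => etas s a • fderiv ℝ f (y - a) :=
    (he.smul (by fun_prop)).integrable_of_hasCompactSupport (MOL.etas_supp hs).smul_right
  have h := hasFDerivAt_integral_of_dominated_of_fderiv_le (𝕜 := ℝ) (μ := volume)
    (F := fun x a => etas s a * f (x - a)) (F' := fun x a => etas s a • fderiv ℝ f (x - a))
    (x₀ := y) (s := Metric.ball y 1) (bound := fun a => ‖etas s a‖ * C)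
    (Metric.ball_mem_nhds y one_pos)
    (Eventually.of_forall fun x => (intg' hs hf.continuous x).aestronglyMeasurable)
    (intg' hs hf.continuous y) hi.aestronglyMeasurable
    (Eventually.of_forall fun a x hx => by
      by_cases ha : s ≤ ‖a‖
      · simp [MOL.etas_zero hs ha]
      · rw [norm_smul]
        refine mul_le_mul_of_nonneg_left (hC _ ?_) (norm_nonneg _)
        rw [mem_closedBall_iff_norm, sub_right_comm]
        have := mem_ball_iff_norm.1 hx
        linarith [norm_sub_le (x - y) a])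
    ((he.integrable_of_hasCompactSupport (MOL.etas_supp hs)).norm.mul_const C)
    (Eventually.of_forall fun a x _ => by
      have h1 : HasFDerivAt (fun x => f (x - a)) (fderiv ℝ f (x - a)) x := by
        have := ((hf.differentiable one_ne_zero (x - a)).hasFDerivAt).comp x
          ((hasFDerivAt_id x).sub_const a)
        rwa [ContinuousLinearMap.comp_id] at this
      exact h1.const_mul (etas s a))
  have e : fderiv ℝ (mol s f) y = ∫ a, etas s a • fderiv ℝ f (y - a) := h.fderiv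
  rw [e, ContinuousLinearMap.integral_apply hi]
  rfl

theorem cont_dir {f : ℂ → ℂ} (hf : ContDiff ℝ 1 f) (v : ℂ) : Continuous fun w => fderiv ℝ f w v :=
  (hf.continuous_fderiv one_ne_zero).clm_apply continuous_const

theorem cont_dz {f : ℂ → ℂ} (hf : ContDiff ℝ 1 f) : Continuous (dz f) :=
  ((cont_dir hf 1).sub (continuous_const.mul (cont_dir hf I))).div_const _

theorem cont_dzb {f : ℂ → ℂ} (hf : ContDiff ℝ 1 f) : Continuous (dzb f) :=
  ((cont_dir hf 1).add (continuous_const.mul (cont_dir hf I))).div_const _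

theorem mol_dz {s : ℝ} (hs : 0 < s) {f : ℂ → ℂ} (hf : ContDiff ℝ 1 f) (y : ℂ) :
    dz (mol s f) y = mol s (dz f) y := by
  have e : dz f = fun w => (1 / 2) * fderiv ℝ f w 1 + (-I / 2) * fderiv ℝ f w I := by
    funext w; rw [dz]; ring
  rw [e, mol_lin hs (cont_dir hf 1) (cont_dir hf I), dz, mol_fderiv hs hf, mol_fderiv hs hf]
  ring

theorem mol_dzb {s : ℝ} (hs : 0 < s) {f : ℂ → ℂ} (hf : ContDiff ℝ 1 f) (y : ℂ) :
    dzb (mol s f) y = mol s (dzb f) y := by
  have e : dzb f = fun w => (1 / 2) * fderiv ℝ f w 1 + (I / 2) * fderiv ℝ f w I := by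
    funext w; rw [dzb]; ring
  rw [e, mol_lin hs (cont_dir hf 1) (cont_dir hf I), dzb, mol_fderiv hs hf, mol_fderiv hs hf]
  ring

theorem clm_apply (A : ℂ →L[ℝ] ℂ) (v : ℂ) : A v = v.re * A 1 + v.im * A I := by
  have : v = v.re • (1 : ℂ) + v.im • I := by
    simp only [Complex.real_smul, mul_one, Complex.re_add_im]
  conv_lhs => rw [this]
  rw [map_add, map_smul, map_smul, Complex.real_smul, Complex.real_smul]

/-- the integral of a derivative of a compactly supported function vanishes -/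
theorem ibp (hI : St_IBP) {F : ℂ → ℂ} (hF : ContDiff ℝ 1 F) (hc : HasCompactSupport F) :
    ∫ x, fderiv ℝ F x 1 = 0 ∧ ∫ x, fderiv ℝ F x I = 0 := by
  obtain ⟨h1, h2⟩ := hI.2 F hF hc
  have i : ∀ v, Integrable fun x => fderiv ℝ F x v := fun v =>
    (cont_dir hF v).integrable_of_hasCompactSupport (hc.fderiv_apply ℝ v)
  unfold dz at h1
  unfold dzb at h2
  rw [integral_div, integral_sub (i 1) ((i I).const_mul I), integral_const_mul] at h1
  rw [integral_div, integral_add (i 1) ((i I).const_mul I), integral_const_mul] at h2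
  refine ⟨by linear_combination h1 + h2, ?_⟩
  linear_combination I * h1 - I * h2 + (∫ x, fderiv ℝ F x I) * Complex.I_mul_I

/-- the mollifier is radial -/
theorem etas_rot (s : ℝ) (w : ℂ) : fderiv ℝ (etas s) w (I * w) = 0 := by
  have hd : HasFDerivAt (etas s) (fderiv ℝ (etas s) w) (Complex.exp (((0 : ℝ) : ℂ) * I) * w) := by
    rw [Complex.ofReal_zero, zero_mul, Complex.exp_zero, one_mul]
    exact ((MOL.etas_smooth s).differentiable (by simp) w).hasFDerivAt
  have h1 : HasDerivAt (fun t : ℝ => Complex.exp ((t : ℂ) * I) * w)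
      (Complex.exp (((0 : ℝ) : ℂ) * I) * (1 * I) * w) 0 :=
    (((hasDerivAt_id ((0 : ℝ) : ℂ)).mul_const I).cexp.mul_const w).comp_ofReal
  have h2 := hd.comp_hasDerivAt (0 : ℝ) h1
  have e : etas s ∘ (fun t : ℝ => Complex.exp ((t : ℂ) * I) * w) = fun _ => etas s w := by
    funext t
    simp only [Function.comp_apply, etas, eta, bump, norm_div, norm_mul,
      Complex.norm_exp_ofReal_mul_I, one_mul]
  rw [e] at h2
  have := h2.unique (hasDerivAt_const _ _)
  simpa using this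

theorem gen0 (hI : St_IBP) {s : ℝ} (hs : 0 < s) {f : ℂ → ℂ} (hf : ContDiff ℝ 1 f) (y : ℂ) :
    ∫ w, etas s w * fderiv ℝ f (y - w) (I * w) = 0 := by
  have he : ContDiff ℝ 1 (etas s) := (MOL.etas_smooth s).of_le (by simp)
  have hg : ContDiff ℝ 1 fun w => f (y - w) := hf.comp (contDiff_const.sub contDiff_id)
  have hre : ContDiff ℝ 1 fun w : ℂ => ((w.re : ℝ) : ℂ) :=
    (Complex.ofRealCLM.comp Complex.reCLM).contDiff
  have him : ContDiff ℝ 1 fun w : ℂ => ((w.im : ℝ) : ℂ) :=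
    (Complex.ofRealCLM.comp Complex.imCLM).contDiff
  have c1 : ContDiff ℝ 1 fun w : ℂ => etas s w * (f (y - w) * w.im) := he.mul (hg.mul him)
  have c2 : ContDiff ℝ 1 fun w : ℂ => etas s w * (f (y - w) * w.re) := he.mul (hg.mul hre)
  have s1 : HasCompactSupport fun w : ℂ => etas s w * (f (y - w) * w.im) :=
    (MOL.etas_supp hs).mul_right
  have s2 : HasCompactSupport fun w : ℂ => etas s w * (f (y - w) * w.re) :=
    (MOL.etas_supp hs).mul_right
  have h1 := (ibp hI c1 s1).1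
  have h2 := (ibp hI c2 s2).2
  have i1 := (cont_dir c1 1).integrable_of_hasCompactSupport (μ := volume) (s1.fderiv_apply ℝ 1)
  have i2 := (cont_dir c2 I).integrable_of_hasCompactSupport (μ := volume) (s2.fderiv_apply ℝ I)
  rw [← sub_zero (0 : ℂ)]
  nth_rewrite 1 [← h1]
  rw [← h2, ← integral_sub i1 i2]
  refine integral_congr_ae (Eventually.of_forall fun w => ?_)
  have d0 := (he.differentiable one_ne_zero w).hasFDerivAt
  have d1 : HasFDerivAt (fun w => f (y - w)) _ w :=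
    ((hf.differentiable one_ne_zero (y - w)).hasFDerivAt).comp w ((hasFDerivAt_id w).const_sub y)
  have d2 : HasFDerivAt (fun w : ℂ => ((w.re : ℝ) : ℂ)) _ w :=
    (Complex.ofRealCLM.comp Complex.reCLM).hasFDerivAt
  have d3 : HasFDerivAt (fun w : ℂ => ((w.im : ℝ) : ℂ)) _ w :=
    (Complex.ofRealCLM.comp Complex.imCLM).hasFDerivAt
  have e1 : HasFDerivAt (fun w : ℂ => etas s w * (f (y - w) * w.im)) _ w := d0.mul (d1.mul d3)
  have e2 : HasFDerivAt (fun w : ℂ => etas s w * (f (y - w) * w.re)) _ w := d0.mul (d1.mul d2)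
  have r := etas_rot s w
  rw [clm_apply] at r
  show etas s w * fderiv ℝ f (y - w) (I * w) = _
  beta_reduce
  rw [e1.fderiv, e2.fderiv, clm_apply _ (I * w)]
  simp only [Complex.mul_re, Complex.mul_im, Complex.I_re, Complex.I_im, zero_mul, one_mul,
    zero_sub, zero_add, Complex.ofReal_neg] at r ⊢
  simp only [add_apply, smul_apply, smul_eq_mul, ContinuousLinearMap.comp_apply, neg_apply,
    ContinuousLinearMap.id_apply, map_neg, Complex.ofRealCLM_apply, Complex.reCLM_apply,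
    Complex.imCLM_apply, Complex.one_im, Complex.I_re, Complex.ofReal_zero, mul_zero]
  linear_combination (f (y - w)) * r

theorem mol_gen (hI : St_IBP) {s : ℝ} (hs : 0 < s) {f : ℂ → ℂ} (hf : ContDiff ℝ 1 f) (y : ℂ) :
    fderiv ℝ (mol s f) y (I * y) = mol s (fun w => fderiv ℝ f w (I * w)) y := by
  have hc : Continuous (fderiv ℝ f) := hf.continuous_fderiv one_ne_zero
  have i1 : Integrable fun w => etas s w * fderiv ℝ f (y - w) (I * (y - w)) :=
    MOL.intg hs (by fun_prop)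
  have i2 : Integrable fun w => etas s w * fderiv ℝ f (y - w) (I * w) := MOL.intg hs (by fun_prop)
  rw [mol_fderiv hs hf, mol, mol, ← add_zero (∫ w, etas s w * fderiv ℝ f (y - w) (I * (y - w))),
    ← gen0 hI hs hf y, ← integral_add i1 i2]
  refine integral_congr_ae (Eventually.of_forall fun w => ?_)
  beta_reduce
  rw [← mul_add, ← map_add]
  congr 2
  ring

/-- gradient of the real part -/
def gr (f : ℂ → ℂ) (y : ℂ) : ℂ := dzb f y + (starRingEnd ℂ) (dz f y)

theorem grad_re {f : ℂ → ℂ} {y : ℂ} (hf : DifferentiableAt ℝ f y) :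
    grad (fun w => (f w).re) y = gr f y := by
  have h : HasFDerivAt (fun w => (((f w).re : ℝ) : ℂ)) _ y :=
    (Complex.ofRealCLM.comp Complex.reCLM).hasFDerivAt.comp y hf.hasFDerivAt
  rw [grad, dzb, h.fderiv, gr, dzb, dz]
  simp only [ContinuousLinearMap.comp_apply, Complex.ofRealCLM_apply, Complex.reCLM_apply]
  generalize fderiv ℝ f y 1 = A
  generalize fderiv ℝ f y I = B
  rw [map_div₀, Complex.conj_ofNat]
  apply Complex.ext <;> simp <;> ring

theorem mol_gr {s : ℝ} (hs : 0 < s) {f : ℂ → ℂ} (hf : ContDiff ℝ 1 f) (y : ℂ) :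
    gr (mol s f) y = mol s (gr f) y := by
  rw [gr, mol_dz hs hf, mol_dzb hs hf, ← mol_cj]
  exact (mol_add hs (cont_dzb hf) (Complex.continuous_conj.comp (cont_dz hf)) y).symm

/-! ### the raw dipole -/

/-- complex pressure -/
def prs (R : Raw) (a g : ℝ) (w : ℂ) : ℂ :=
  -((a : ℂ) ^ 2 * R.P11 w + a * g * R.P10 w + g ^ 2 * R.P00 w) + a * R.W a g w +
    g * ((starRingEnd ℂ) (I * w) * R.W a g w)

variable {R : Raw}

theorem W_c1 (hR : R.Good) (a g : ℝ) : ContDiff ℝ 1 (R.W a g) :=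
  (contDiff_const.mul hR.c1).add (contDiff_const.mul hR.c0)

theorem ofR {P : ℂ → ℝ} (h : ContDiff ℝ 1 P) : ContDiff ℝ 1 fun w => ((P w : ℝ) : ℂ) :=
  Complex.ofRealCLM.contDiff.comp h

theorem rot_c1 : ContDiff ℝ 1 fun w : ℂ => (starRingEnd ℂ) (I * w) :=
  Complex.conjCLE.contDiff.comp (contDiff_const.mul contDiff_id)

theorem prs_c1 (hR : R.Good) (a g : ℝ) : ContDiff ℝ 1 (prs R a g) :=
  (((((contDiff_const.mul (ofR hR.p11)).add (contDiff_const.mul (ofR hR.p10))).add
    (contDiff_const.mul (ofR hR.p00))).neg).add (contDiff_const.mul (W_c1 hR a g))).add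
    (contDiff_const.mul (rot_c1.mul (W_c1 hR a g)))

theorem real_der {P : ℂ → ℝ} (h : ContDiff ℝ 1 P) (y v : ℂ) :
    (starRingEnd ℂ) (fderiv ℝ (fun w => ((P w : ℝ) : ℂ)) y v) =
      fderiv ℝ (fun w => ((P w : ℝ) : ℂ)) y v := by
  have h1 : HasFDerivAt (fun w => ((P w : ℝ) : ℂ)) _ y :=
    Complex.ofRealCLM.hasFDerivAt.comp y (h.differentiable one_ne_zero y).hasFDerivAt
  rw [h1.fderiv]
  exact Complex.conj_ofReal _

theorem conj_of_re {z : ℂ} (h : z.re = 0) : (starRingEnd ℂ) z = -z := by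
  apply Complex.ext <;> simp [h]

theorem B0 (hR : R.Good) (a g : ℝ) (y : ℂ) :
    -(a : ℂ) * fderiv ℝ (R.W a g) y 1 + g * (I * R.W a g y - fderiv ℝ (R.W a g) y (I * y)) +
      dz (fun w => R.W a g w ^ 2) y + gr (prs R a g) y = 0 := by
  have d1 := (hR.c1.differentiable one_ne_zero y).hasFDerivAt
  have d0 := (hR.c0.differentiable one_ne_zero y).hasFDerivAt
  have q11 := ((ofR hR.p11).differentiable one_ne_zero y).hasFDerivAt
  have q10 := ((ofR hR.p10).differentiable one_ne_zero y).hasFDerivAt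
  have q00 := ((ofR hR.p00).differentiable one_ne_zero y).hasFDerivAt
  have dW : HasFDerivAt (R.W a g) _ y := (d1.const_mul (a : ℂ)).add (d0.const_mul (g : ℂ))
  have dr : HasFDerivAt (fun w : ℂ => (starRingEnd ℂ) (I * w)) _ y :=
    Complex.conjCLE.hasFDerivAt.comp y ((hasFDerivAt_id y).const_mul I)
  have dS := (dW.mul dW).congr_of_eventuallyEq (f₁ := fun w => R.W a g w ^ 2)
    (Eventually.of_forall fun w => sq _)
  have dP : HasFDerivAt (prs R a g) _ y :=
    (((((q11.const_mul ((a : ℂ) ^ 2)).add (q10.const_mul ((a : ℂ) * g))).add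
      (q00.const_mul ((g : ℂ) ^ 2))).neg).add (dW.const_mul (a : ℂ))).add
      ((dr.mul dW).const_mul (g : ℂ))
  have e11 := hR.e11 y
  have e10 := hR.e10 y
  have e00 := hR.e00 y
  have v1 := conj_of_re (hR.div1 y)
  have v0 := conj_of_re (hR.div0 y)
  simp only [dz, dzb] at e11 e10 e00 v1 v0
  simp only [map_div₀, map_sub, map_mul, Complex.conj_I, Complex.conj_ofNat] at v1 v0
  rw [gr, dz, dz, dzb, dS.fderiv, dP.fderiv, clm_apply _ (I * y), dW.fderiv]
  simp only [add_apply, smul_apply, smul_eq_mul, ContinuousLinearMap.comp_apply, neg_apply,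
    ContinuousLinearMap.id_apply, ContinuousLinearEquiv.coe_coe, Complex.conjCLE_apply,
    map_div₀, map_sub, map_add, map_mul, map_neg, map_pow, map_one, Complex.conj_I,
    Complex.conj_ofNat, Complex.conj_ofReal, Complex.conj_conj, real_der hR.p11, real_der hR.p10,
    real_der hR.p00, Complex.mul_re, Complex.mul_im, Complex.I_re, Complex.I_im, zero_mul, one_mul,
    zero_sub, zero_add, Complex.ofReal_neg, Raw.W]
  have ey : (starRingEnd ℂ) y = y.re - y.im * I := by apply Complex.ext <;> simp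
  have ey' : y = y.re + y.im * I := (Complex.re_add_im y).symm
  rw [ey]
  generalize (y.re : ℂ) = x1 at ey' ⊢
  generalize (y.im : ℂ) = x2 at ey' ⊢
  generalize (starRingEnd ℂ) (fderiv ℝ R.W1 y 1) = c11 at v1 ⊢
  generalize (starRingEnd ℂ) (fderiv ℝ R.W1 y I) = c12 at v1 ⊢
  generalize (starRingEnd ℂ) (fderiv ℝ R.W0 y 1) = c01 at v0 ⊢
  generalize (starRingEnd ℂ) (fderiv ℝ R.W0 y I) = c02 at v0 ⊢
  generalize (starRingEnd ℂ) (R.W1 y) = k1
  generalize (starRingEnd ℂ) (R.W0 y) = k0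
  generalize fderiv ℝ R.W1 y 1 = A11 at e11 e10 e00 v1 v0 ⊢
  generalize fderiv ℝ R.W1 y I = A12 at e11 e10 e00 v1 v0 ⊢
  generalize fderiv ℝ R.W0 y 1 = A01 at e11 e10 e00 v1 v0 ⊢
  generalize fderiv ℝ R.W0 y I = A02 at e11 e10 e00 v1 v0 ⊢
  generalize R.W1 y = w1 at e11 e10 e00 ⊢
  generalize R.W0 y = w0 at e11 e10 e00 ⊢
  linear_combination (-2 * (a : ℂ) ^ 2) * e11 - 2 * a * g * e10 - 2 * (g : ℂ) ^ 2 * e00 +
    (a + g * I * y) * (a * v1 + g * v0) +
    g * ((a * A11 + g * A01) * I / 2 - (a * A12 + g * A02) * I ^ 2 / 2) * ey' +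
    g * ((a * A11 + g * A01) * x2 + (a * w1 + g * w0 + a * k1 + g * k0) * I / 2 -
      (a * A12 + g * A02) * x1) * Complex.I_mul_I

theorem cont_gr {f : ℂ → ℂ} (hf : ContDiff ℝ 1 f) : Continuous (gr f) :=
  (cont_dzb hf).add (Complex.continuous_conj.comp (cont_dz hf))

/-- the steady equation after one mollification -/
theorem B1 (hI : St_IBP) (hR : R.Good) (a g : ℝ) {s : ℝ} (hs : 0 < s) (y : ℂ) :
    -(a : ℂ) * fderiv ℝ (mol s (R.W a g)) y 1 +
      g * (I * mol s (R.W a g) y - fderiv ℝ (mol s (R.W a g)) y (I * y)) +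
      dz (mol s fun w => R.W a g w ^ 2) y + gr (mol s (prs R a g)) y = 0 := by
  have hW := W_c1 hR a g
  have hc : Continuous (fderiv ℝ (R.W a g)) := hW.continuous_fderiv one_ne_zero
  have c0 := hW.continuous
  have c1 := cont_dir hW 1
  have c2 : Continuous fun w => fderiv ℝ (R.W a g) w (I * w) := by fun_prop
  have c3 := cont_dz (hW.pow 2)
  have c4 := cont_gr (prs_c1 hR a g)
  have c5 : Continuous fun w => I * R.W a g w + -1 * fderiv ℝ (R.W a g) w (I * w) := by fun_prop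
  have c6 : Continuous fun w => -(a : ℂ) * fderiv ℝ (R.W a g) w 1 +
      g * (I * R.W a g w + -1 * fderiv ℝ (R.W a g) w (I * w)) := by fun_prop
  have c7 : Continuous fun w => -(a : ℂ) * fderiv ℝ (R.W a g) w 1 +
      g * (I * R.W a g w + -1 * fderiv ℝ (R.W a g) w (I * w)) +
      dz (fun w => R.W a g w ^ 2) w := c6.add c3
  have e : (fun w => -(a : ℂ) * fderiv ℝ (R.W a g) w 1 +
      g * (I * R.W a g w + -1 * fderiv ℝ (R.W a g) w (I * w)) +
      dz (fun w => R.W a g w ^ 2) w + gr (prs R a g) w) = fun _ => 0 := by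
    funext w
    linear_combination B0 hR a g w
  have h := mol_zero s y
  rw [← e, mol_add hs c7 c4, mol_add hs c6 c3, mol_lin hs c1 c5, mol_lin hs c0 c2] at h
  rw [mol_fderiv hs hW, mol_gen hI hs hW, mol_dz hs (hW.pow 2), mol_gr hs (prs_c1 hR a g)]
  linear_combination h

/-- antiholomorphic outside the disc of radius `r` -/
def AH (r : ℝ) (f : ℂ → ℂ) : Prop := DifferentiableOn ℂ (cj f) {w | r < ‖w‖}

theorem AH.mol (hM : St_MVP) {r s : ℝ} {f : ℂ → ℂ} (h : AH r f) (hs : 0 < s) {y : ℂ}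
    (hy : s + r < ‖y‖) : mol s f y = f y := by
  have h1 := hM (cj f) y s (‖y‖ - r) hs (by linarith) (h.mono fun w hw => by
    have := mem_ball_iff_norm.1 hw
    have h2 := norm_sub_norm_le y w
    rw [norm_sub_rev] at h2
    show r < ‖w‖
    linarith)
  rw [mol_cj] at h1
  exact (starRingEnd ℂ).injective h1

theorem AH1 (hR : R.Good) : AH R.r0 R.W1 := by
  refine DifferentiableOn.congr (f := fun w => (R.r0 : ℂ) ^ 2 / w ^ 2) (fun w hw => ?_) fun w hw => ?_
  · have : w ≠ 0 := norm_pos_iff.1 (hR.rpos.trans hw)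
    have h2 : DifferentiableAt ℂ (fun w : ℂ => w ^ 2) w := by fun_prop
    exact ((differentiableAt_const ((R.r0 : ℂ) ^ 2)).div h2 (pow_ne_zero 2 this)).differentiableWithinAt
  · rw [cj, hR.out1 w (le_of_lt hw), Complex.conj_conj]

theorem AH0 (hR : R.Good) : AH R.r0 R.W0 := by
  refine DifferentiableOn.congr (f := fun w => -I * ((R.r0 : ℂ) ^ 2 / w)) (fun w hw => ?_) fun w hw => ?_
  · have : w ≠ 0 := norm_pos_iff.1 (hR.rpos.trans hw)
    exact ((DifferentiableAt.div (by fun_prop) (by fun_prop) this).const_mul _).differentiableWithinAt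
  · rw [cj, hR.out0 w (le_of_lt hw), map_mul, Complex.conj_conj, Complex.conj_I]

theorem AHW (hR : R.Good) (a g : ℝ) : AH R.r0 (R.W a g) := by
  refine DifferentiableOn.congr (((AH1 hR).const_mul (a : ℂ)).add ((AH0 hR).const_mul (g : ℂ)))
    fun w _ => ?_
  simp only [cj, Raw.W, map_add, map_mul, Complex.conj_ofReal, Pi.add_apply]

theorem AHS (hR : R.Good) (a g : ℝ) : AH R.r0 fun w => R.W a g w ^ 2 := by
  refine DifferentiableOn.congr ((AHW hR a g).pow 2) fun w _ => ?_
  simp only [cj, map_pow, Pi.pow_apply]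

theorem AHP (hR : R.Good) (a g : ℝ) : AH R.r0 (prs R a g) := by
  have h0 : DifferentiableOn ℂ (fun w : ℂ => I * w) {w | R.r0 < ‖w‖} := by fun_prop
  refine DifferentiableOn.congr (((AHW hR a g).const_mul (a : ℂ)).add
    ((h0.mul (AHW hR a g)).const_mul (g : ℂ))) fun w hw => ?_
  obtain ⟨h1, h2, h3⟩ := hR.outP w (le_of_lt hw)
  simp only [cj, prs, h1, h2, h3, Complex.ofReal_zero, mul_zero, add_zero, neg_zero, zero_add,
    map_add, map_mul (starRingEnd ℂ) (a : ℂ), map_mul (starRingEnd ℂ) (g : ℂ),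
    map_mul (starRingEnd ℂ) _ (R.W a g w), Complex.conj_ofReal, Complex.conj_conj, Pi.add_apply,
    Pi.mul_apply]

/-! ### the difference of two mollifications -/

theorem hat_smooth {e1 e2 : ℝ} (h1 : 0 < e1) (h2 : 0 < e2) {f : ℂ → ℂ} (hf : Continuous f) :
    ContDiff ℝ ∞ (hat e1 e2 f) := (mol_smooth h1 hf).sub (mol_smooth h2 hf)

theorem hat_fderiv {e1 e2 : ℝ} (h1 : 0 < e1) (h2 : 0 < e2) {f : ℂ → ℂ} (hf : Continuous f)
    (y v : ℂ) : fderiv ℝ (hat e1 e2 f) y v = fderiv ℝ (mol e1 f) y v - fderiv ℝ (mol e2 f) y v := by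
  have h : HasFDerivAt (hat e1 e2 f) _ y :=
    (mol_diff h1 hf y).hasFDerivAt.sub (mol_diff h2 hf y).hasFDerivAt
  rw [h.fderiv, sub_apply]

theorem hat_dz {e1 e2 : ℝ} (h1 : 0 < e1) (h2 : 0 < e2) {f : ℂ → ℂ} (hf : Continuous f) (y : ℂ) :
    dz (hat e1 e2 f) y = dz (mol e1 f) y - dz (mol e2 f) y := by
  simp only [dz, hat_fderiv h1 h2 hf]; ring

theorem hat_gr {e1 e2 : ℝ} (h1 : 0 < e1) (h2 : 0 < e2) {f : ℂ → ℂ} (hf : Continuous f) (y : ℂ) :
    gr (hat e1 e2 f) y = gr (mol e1 f) y - gr (mol e2 f) y := by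
  rw [gr, gr, gr, hat_dz h1 h2 hf, map_sub]
  simp only [dzb, hat_fderiv h1 h2 hf]; ring

theorem hat_out (hM : St_MVP) {r e1 e2 : ℝ} {f : ℂ → ℂ} (h : AH r f) (h1 : 0 < e1) (h1' : e1 ≤ 1)
    (hr : 0 < r) (h2 : r + 1 ≤ e2) {y : ℂ} (hy : 2 * e2 < ‖y‖) : hat e1 e2 f y = 0 := by
  rw [hat, h.mol hM h1 (by linarith), h.mol hM (by linarith) (by linarith), sub_self]

theorem mol_div {s : ℝ} (hs : 0 < s) {f : ℂ → ℂ} (hf : ContDiff ℝ 1 f) (h : ∀ y, (dz f y).re = 0)
    (y : ℂ) : (dz (mol s f) y).re = 0 := by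
  have e : cj (dz f) = fun w => -1 * dz f w := by
    funext w; rw [cj, conj_of_re (h w), neg_one_mul]
  have h1 := mol_cj s (dz f) y
  rw [e, mol_mul] at h1
  have h2 := congrArg Complex.re h1
  rw [mol_dz hs hf]
  simp only [neg_mul, one_mul, Complex.neg_re, Complex.conj_re] at h2
  linarith

theorem hat_div {e1 e2 : ℝ} (h1 : 0 < e1) (h2 : 0 < e2) {f : ℂ → ℂ} (hf : ContDiff ℝ 1 f)
    (h : ∀ y, (dz f y).re = 0) (y : ℂ) : (dz (hat e1 e2 f) y).re = 0 := by
  rw [hat_dz h1 h2 hf.continuous, Complex.sub_re, mol_div h1 hf h, mol_div h2 hf h, sub_zero]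

/-- a divergence free field with compact support has mean zero -/
theorem mean_zero (hI : St_IBP) {V : ℂ → ℂ} (hV : ContDiff ℝ 1 V) (hc : HasCompactSupport V)
    (h : ∀ y, (dz V y).re = 0) : ∫ y, V y = 0 := by
  have key : ∀ L : ℂ →L[ℝ] ℝ, ∫ y, ((((L 1 : ℝ) : ℂ) - I * (L I : ℝ)) * V y).re = 0 := fun L => by
    have hL : ContDiff ℝ 1 fun w : ℂ => ((L w : ℝ) : ℂ) := (Complex.ofRealCLM.comp L).contDiff
    have c1 : ContDiff ℝ 1 fun w : ℂ => ((L w : ℝ) : ℂ) * V w := hL.mul hV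
    have s1 : HasCompactSupport fun w : ℂ => ((L w : ℝ) : ℂ) * V w := hc.mul_left
    have i : ∀ v, Integrable fun x => fderiv ℝ (fun w : ℂ => ((L w : ℝ) : ℂ) * V w) x v := fun v =>
      (cont_dir c1 v).integrable_of_hasCompactSupport (s1.fderiv_apply ℝ v)
    have i2 : Integrable (dz fun w : ℂ => ((L w : ℝ) : ℂ) * V w) :=
      ((i 1).sub ((i I).const_mul I)).div_const 2
    have h1 := congrArg Complex.re (hI.2 _ c1 s1).1
    have h2 := (Complex.reCLM.integral_comp_comm i2)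
    simp only [Complex.reCLM_apply] at h2
    rw [← h2, Complex.zero_re] at h1
    rw [← mul_zero (2 : ℝ), ← h1, ← integral_const_mul]
    refine integral_congr_ae (Eventually.of_forall fun y => ?_)
    have d1 : HasFDerivAt (fun w : ℂ => ((L w : ℝ) : ℂ)) _ y := (Complex.ofRealCLM.comp L).hasFDerivAt
    have d2 : HasFDerivAt (fun w : ℂ => ((L w : ℝ) : ℂ) * V w) _ y :=
      d1.mul (hV.differentiable one_ne_zero y).hasFDerivAt
    have e : dz (fun w : ℂ => ((L w : ℝ) : ℂ) * V w) y =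
        (L y : ℝ) * dz V y + (((L 1 : ℝ) : ℂ) - I * (L I : ℝ)) * V y / 2 := by
      rw [dz, dz, d2.fderiv]
      simp only [add_apply, smul_apply, smul_eq_mul, ContinuousLinearMap.comp_apply,
        Complex.ofRealCLM_apply]
      ring
    beta_reduce
    rw [e, Complex.add_re, Complex.re_ofReal_mul, h y, Complex.div_ofNat_re]
    ring
  have i0 : Integrable V := hV.continuous.integrable_of_hasCompactSupport hc
  have k1 := key Complex.reCLM
  have k2 := key Complex.imCLM
  have r1 := Complex.reCLM.integral_comp_comm i0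
  have r2 := Complex.imCLM.integral_comp_comm i0
  simp only [Complex.reCLM_apply, Complex.imCLM_apply] at r1 r2
  apply Complex.ext
  · rw [← r1, Complex.zero_re, ← k1]; simp
  · rw [← r2, Complex.zero_im, ← k2]; simp

theorem supp_of {f : ℂ → ℂ} {r : ℝ} (h : ∀ y, r < ‖y‖ → f y = 0) : HasCompactSupport f :=
  HasCompactSupport.intro (isCompact_closedBall (0 : ℂ) r) fun y hy =>
    h y (not_le.1 fun h' => hy (mem_closedBall_zero_iff.2 h'))

theorem norm_sc {e : ℝ} (he : 0 < e) (y : ℂ) : ‖y / ((2 * e : ℝ) : ℂ)‖ = ‖y‖ / (2 * e) := by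
  rw [norm_div, Complex.norm_real, Real.norm_eq_abs, abs_of_pos (by positivity)]

theorem th_one {e : ℝ} (he : 0 < e) {y : ℂ} (h : ‖y‖ ≤ 2 * e) : th (y / ((2 * e : ℝ) : ℂ)) = 1 := by
  refine Real.smoothTransition.one_of_one_le ?_
  have h1 : ‖y‖ / (2 * e) ≤ 1 := (div_le_one (by positivity)).2 h
  have h0 : 0 ≤ ‖y‖ / (2 * e) := by positivity
  rw [norm_sc he]
  nlinarith

theorem th_zero {e : ℝ} (he : 0 < e) {y : ℂ} (h : 4 * e < ‖y‖) : th (y / ((2 * e : ℝ) : ℂ)) = 0 := by
  refine Real.smoothTransition.zero_of_nonpos ?_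
  have h1 : 2 ≤ ‖y‖ / (2 * e) := (le_div_iff₀ (by positivity)).2 (by linarith)
  rw [norm_sc he]
  nlinarith

theorem th_smooth (c : ℂ) : ContDiff ℝ ∞ fun y : ℂ => ((th (y / c) : ℝ) : ℂ) :=
  Complex.ofRealCLM.contDiff.comp (Real.smoothTransition.contDiff.comp
    ((contDiff_const.sub ((contDiff_norm_sq ℝ).comp (contDiff_id.div_const c))).div_const 3))

theorem molW (hR : R.Good) {s : ℝ} (hs : 0 < s) (a g : ℝ) (y : ℂ) :
    mol s (R.W a g) y = a * mol s R.W1 y + g * mol s R.W0 y :=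
  mol_lin hs hR.c1.continuous hR.c0.continuous _ _ _

theorem molS (hR : R.Good) {s : ℝ} (hs : 0 < s) (a g : ℝ) (y : ℂ) :
    mol s (fun w => R.W a g w ^ 2) y = a ^ 2 * mol s (fun w => R.W1 w ^ 2) y +
      (2 * a * g * mol s (fun w => R.W1 w * R.W0 w) y + g ^ 2 * mol s (fun w => R.W0 w ^ 2) y) := by
  have c1 := hR.c1.continuous
  have c0 := hR.c0.continuous
  have e : (fun w => R.W a g w ^ 2) = fun w => (a : ℂ) ^ 2 * R.W1 w ^ 2 +
      1 * (2 * a * g * (R.W1 w * R.W0 w) + g ^ 2 * R.W0 w ^ 2) := by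
    funext w; rw [Raw.W]; ring
  rw [e, mol_lin hs (f := fun w => R.W1 w ^ 2)
    (g := fun w => 2 * a * g * (R.W1 w * R.W0 w) + g ^ 2 * R.W0 w ^ 2) (by fun_prop) (by fun_prop),
    mol_lin hs (f := fun w => R.W1 w * R.W0 w) (g := fun w => R.W0 w ^ 2) (by fun_prop) (by fun_prop),
    one_mul]

theorem sa : ContDiff ℝ ∞ fun p : ℝ × ℝ × ℂ => ((p.1 : ℝ) : ℂ) :=
  Complex.ofRealCLM.contDiff.comp contDiff_fst

theorem sg : ContDiff ℝ ∞ fun p : ℝ × ℝ × ℂ => ((p.2.1 : ℝ) : ℂ) :=
  Complex.ofRealCLM.contDiff.comp (contDiff_fst.comp contDiff_snd)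

theorem sy {f : ℂ → ℂ} (hf : ContDiff ℝ ∞ f) : ContDiff ℝ ∞ fun p : ℝ × ℝ × ℂ => f p.2.2 :=
  hf.comp (contDiff_snd.comp contDiff_snd)

theorem sW (hR : R.Good) {s : ℝ} (hs : 0 < s) :
    ContDiff ℝ ∞ fun p : ℝ × ℝ × ℂ => mol s (R.W p.1 p.2.1) p.2.2 := by
  simp only [molW hR hs]
  exact (sa.mul (sy (mol_smooth hs hR.c1.continuous))).add
    (sg.mul (sy (mol_smooth hs hR.c0.continuous)))

theorem sS (hR : R.Good) {s : ℝ} (hs : 0 < s) :
    ContDiff ℝ ∞ fun p : ℝ × ℝ × ℂ => mol s (fun w => R.W p.1 p.2.1 w ^ 2) p.2.2 := by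
  have c1 := hR.c1.continuous
  have c0 := hR.c0.continuous
  simp only [molS hR hs]
  exact ((sa.pow 2).mul (sy (mol_smooth hs (c1.pow 2)))).add
    ((((contDiff_const.mul sa).mul sg).mul (sy (mol_smooth hs (c1.mul c0)))).add
      ((sg.pow 2).mul (sy (mol_smooth hs (c0.pow 2)))))

end PID

open PID in
theorem st_PID (hM : St_MVP) (hI : St_IBP) : St_PID := by
  intro R hR e1 e2 h1 h1' h2
  have hr := hR.rpos
  have h2' : 0 < e2 := by linarith
  have one : (1 : WithTop ℕ∞) ≤ ∞ := by simp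
  have s1 := hat_smooth h1 h2' hR.c1.continuous
  have s0 := hat_smooth h1 h2' hR.c0.continuous
  have o1 := fun y => hat_out hM (AH1 hR) h1 h1' hr h2 (y := y)
  have o0 := fun y => hat_out hM (AH0 hR) h1 h1' hr h2 (y := y)
  have v1 := hat_div h1 h2' hR.c1 hR.div1
  have v0 := hat_div h1 h2' hR.c0 hR.div0
  refine ⟨fun a g y => (hat e1 e2 (prs R a g) y).re, s1, s0,
    fun a g => Complex.reCLM.contDiff.comp (hat_smooth h1 h2' (prs_c1 hR a g).continuous),
    ((sW hR h1).pow 2).sub (sS hR h1),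
    ((contDiff_const.mul (sy (th_smooth _))).mul (sW hR h1)).mul (sW hR h2'),
    ((sy (th_smooth _)).mul (((sW hR h2').pow 2).add (sS hR h2'))).sub
      (((sa.pow 2).mul contDiff_const).mul (sy (MOL.etas_smooth e2))),
    fun y hy => ⟨o1 y hy, o0 y hy⟩, fun a g y hy => ⟨?_, ?_, ?_, ?_⟩, fun y => ?_, v1, v0,
    mean_zero hI (s1.of_le one) (supp_of o1) v1, mean_zero hI (s0.of_le one) (supp_of o0) v0,
    fun a g y => ?_⟩
  · rw [hat_out hM (AHP hR a g) h1 h1' hr h2 (by linarith), Complex.zero_re]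
  · rw [Raw.XA, (AHW hR a g).mol hM h1 (by linarith), (AHS hR a g).mol hM h1 (by linarith), sub_self]
  · rw [Raw.XB, th_zero h2' hy]; simp
  · rw [Raw.XC, th_zero h2' hy, MOL.etas_zero h2' (by linarith)]; simp
  · simp only [Raw.XA, Raw.XB, Raw.XC, molW hR h1, molW hR h2', molS hR h1, molS hR h2']
    simp
  · have cW := (W_c1 hR a g).continuous
    have cS : Continuous fun w => R.W a g w ^ 2 := cW.pow 2
    have cP := (prs_c1 hR a g).continuous
    have eW' : ∀ w, (a : ℂ) * hat e1 e2 R.W1 w + g * hat e1 e2 R.W0 w = hat e1 e2 (R.W a g) w :=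
      fun w => by simp only [hat, molW hR h1, molW hR h2']; ring
    have eX : (fun w => (a : ℂ) ^ 2 * R.M0 * etas e2 w + R.XA e1 a g w + R.XB e1 e2 a g w +
        R.XC e2 a g w) = fun w => hat e1 e2 (R.W a g) w ^ 2 -
          hat e1 e2 (fun w => R.W a g w ^ 2) w := by
      funext w
      simp only [Raw.XA, Raw.XB, Raw.XC, hat]
      by_cases hw : ‖w‖ ≤ 2 * e2
      · rw [th_one h2' hw]; push_cast; ring
      · have hw' := not_le.1 hw
        rw [(AHW hR a g).mol hM h1 (by linarith), (AHW hR a g).mol hM h2' (by linarith),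
          (AHS hR a g).mol hM h1 (by linarith), (AHS hR a g).mol hM h2' (by linarith)]
        ring
    have dA : DifferentiableAt ℝ (fun w => hat e1 e2 (R.W a g) w ^ 2) y :=
      ((hat_smooth h1 h2' cW).pow 2).differentiable (by simp) y
    have dB : DifferentiableAt ℝ (hat e1 e2 fun w => R.W a g w ^ 2) y :=
      (hat_smooth h1 h2' cS).differentiable (by simp) y
    have dC : HasFDerivAt (fun w => hat e1 e2 (R.W a g) w ^ 2 -
        hat e1 e2 (fun w => R.W a g w ^ 2) w) _ y := dA.hasFDerivAt.sub dB.hasFDerivAt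
    have eD : dz (fun w => hat e1 e2 (R.W a g) w ^ 2 - hat e1 e2 (fun w => R.W a g w ^ 2) w) y =
        dz (fun w => hat e1 e2 (R.W a g) w ^ 2) y - dz (hat e1 e2 fun w => R.W a g w ^ 2) y := by
      rw [dz, dz, dz, dC.fderiv, sub_apply, sub_apply]; ring
    simp only [eW']
    rw [eX, eD, grad_re ((hat_smooth h1 h2' cP).differentiable (by simp) y), hat_gr h1 h2' cP,
      hat_dz h1 h2' cS]
    have f1 := hat_fderiv h1 h2' cW y 1
    have f2 := hat_fderiv h1 h2' cW y (Complex.I * y)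
    have f3 : hat e1 e2 (R.W a g) y = mol e1 (R.W a g) y - mol e2 (R.W a g) y := rfl
    linear_combination B1 hI hR a g h1 y - B1 hI hR a g h2' y - a * f1 - g * f2 +
      g * Complex.I * f3

end Pool.Agent.Lib.EUL
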