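import Pool.Agent.Lib.EUL.Blue

/-! Block PR: the projection of the three-torus to the period cell preserves measure. -/

set_option autoImplicit false

namespace Pool.Agent.Lib.EUL

open MeasureTheory Set Filter Topology
open scoped ContDiff Classical

namespace PR

lemma circ : MeasurePreserving (fun x : UnitAddCircle => (AddCircle.equivIoc (1 : ℝ) (-1 / 2) x : ℝ))
    AddCircle.haarAddCircle (volume.restrict (Ioc (-1 / 2 : ℝ) (1 / 2))) := by
  have h := (measurePreserving_subtype_coe (μa := volume) measurableSet_Ioc).comp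
    (AddCircle.measurePreserving_equivIoc (1 : ℝ) (a := -1 / 2))
  rw [AddCircle.volume_eq_smul_haarAddCircle, ENNReal.ofReal_one, one_smul] at h
  have e : (-1 / 2 : ℝ) + 1 = 1 / 2 := by norm_num
  rw [← e]
  exact h

lemma two : MeasurePreserving (fun x : UnitAddTorus (Fin 3) => (x 0, x 1)) MP_fea353_an.mu
    ((AddCircle.haarAddCircle : Measure UnitAddCircle).prod AddCircle.haarAddCircle) := by
  refine ⟨by fun_prop, (Measure.prod_eq fun s t hs ht => ?_).symm⟩
  have h : (fun x : UnitAddTorus (Fin 3) => (x 0, x 1)) ⁻¹' s ×ˢ t = Set.pi univ ![s, t, univ] := by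
    ext x
    simp [Fin.forall_fin_succ]
  rw [Measure.map_apply (by fun_prop) (hs.prod ht), h, MP_fea353_an.mu, Measure.pi_pi]
  simp [Fin.prod_univ_three]

lemma cpx : MeasurePreserving (fun p : ℝ × ℝ => (p.1 : ℂ) + (p.2 : ℂ) * Complex.I)
    ((volume.restrict (Ioc (-1 / 2 : ℝ) (1 / 2))).prod (volume.restrict (Ioc (-1 / 2 : ℝ) (1 / 2))))
    (volume.restrict cell) := by
  have hc : MeasurableSet cell :=
    (Complex.measurable_re measurableSet_Ioc).inter (Complex.measurable_im measurableSet_Ioc)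
  have h := (Complex.volume_preserving_equiv_real_prod.symm).restrict_preimage hc
  have h2 : Complex.measurableEquivRealProd.symm ⁻¹' cell =
      Ioc (-1 / 2 : ℝ) (1 / 2) ×ˢ Ioc (-1 / 2 : ℝ) (1 / 2) := by
    ext p
    simp [cell]
  have h3 : (fun p : ℝ × ℝ => (p.1 : ℂ) + (p.2 : ℂ) * Complex.I) = Complex.measurableEquivRealProd.symm := by
    funext p
    apply Complex.ext <;> simp
  rw [h2] at h
  rw [Measure.prod_restrict, h3]
  exact h

lemma rep (y : ℝ) : ∃ n : ℤ, (AddCircle.equivIoc (1 : ℝ) (-1 / 2) (y : UnitAddCircle) : ℝ) = y + n := by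
  have h : (((AddCircle.equivIoc (1 : ℝ) (-1 / 2) (y : UnitAddCircle) : ℝ)) : UnitAddCircle) = y :=
    (AddCircle.equivIoc (1 : ℝ) (-1 / 2)).symm_apply_apply _
  obtain ⟨n, hn⟩ := AddSubgroup.mem_zmultiples_iff.1 (QuotientAddGroup.eq.1 h.symm)
  refine ⟨n, ?_⟩
  rw [zsmul_one] at hn
  linarith

end PR

theorem st_PR : St_PR := by
  refine ⟨PR.cpx.comp ((PR.circ.prod PR.circ).comp PR.two), fun E f hf y => ?_⟩
  obtain ⟨a, ha⟩ := PR.rep (y 0)
  obtain ⟨b, hb⟩ := PR.rep (y 1)
  rw [← hf (a, b) (y 0 + y 1 * Complex.I), pr, ha, hb, lat]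
  congr 1
  push_cast
  ring

end Pool.Agent.Lib.EUL
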