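import Pool.Agent.Lib.EUL.Blue
import Pool.Agent.Lib.EUL.B_MOL

set_option autoImplicit false

namespace Pool.Agent.Lib.EUL

open MeasureTheory Set Filter Topology
open scoped ContDiff Classical

noncomputable section

namespace PROF

lemma mol_smooth {s : ℝ} (hs : 0 < s) {f : ℂ → ℂ} (hf : Continuous f) : ContDiff ℝ ∞ (mol s f) :=
  (MOL.etas_supp hs).contDiff_convolution_left (μ := volume) (ContinuousLinearMap.mul ℝ ℂ)
    (MOL.etas_smooth s) hf.locallyIntegrable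

lemma nD_sub_le {f g : ℂ → ℂ} (hf : ContDiff ℝ ∞ f) (hg : ContDiff ℝ ∞ g) (j : ℕ) (y : ℂ) :
    nD j (fun x => f x - g x) y ≤ nD j f y + nD j g y := by
  have h := iteratedFDeriv_sub_apply (𝕜 := ℝ) (i := j) (x := y) (f := f) (g := g)
    (hf.of_le (by exact_mod_cast le_top)).contDiffAt (hg.of_le (by exact_mod_cast le_top)).contDiffAt
  unfold nD
  rw [show (fun x => f x - g x) = f - g from rfl, h]
  exact norm_sub_le _ _

lemma nD_far {f : ℂ → ℂ} {R : ℝ} (h : ∀ y, R < ‖y‖ → f y = 0) (j : ℕ) {y : ℂ} (hy : R < ‖y‖) :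
    nD j f y = 0 := by
  have e : f =ᶠ[𝓝 y] fun _ => 0 :=
    ((isOpen_lt continuous_const continuous_norm).mem_nhds hy : {y : ℂ | R < ‖y‖} ∈ 𝓝 y)
      |> fun hm => mem_of_superset hm fun z hz => h z hz
  unfold nD
  rw [(e.iteratedFDeriv ℝ j).eq_of_nhds]
  simp

lemma rad {g : ℂ → ℝ} {m : ℝ → ℝ} {R : ℝ} (hR : 0 ≤ R) (hm : Continuous m) (h0 : ∀ y, 0 ≤ g y)
    (h1 : ∀ y, ‖y‖ ≤ R → g y ≤ m ‖y‖) (h2 : ∀ y, R < ‖y‖ → g y = 0) :
    ∫ y, g y ≤ 2 * Real.pi * ∫ r in (0 : ℝ)..R, r * m r := by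
  have e1 : (fun y : ℂ => (Iic R).indicator m ‖y‖) =
      (Metric.closedBall (0 : ℂ) R).indicator fun y => m ‖y‖ := by
    funext y
    by_cases hy : ‖y‖ ≤ R
    · rw [indicator_of_mem (mem_Iic.2 hy), indicator_of_mem (mem_closedBall_zero_iff.2 hy)]
    · rw [indicator_of_notMem (fun h => hy (mem_Iic.1 h)),
        indicator_of_notMem fun h => hy (mem_closedBall_zero_iff.1 h)]
  have hi : Integrable fun y : ℂ => (Iic R).indicator m ‖y‖ := by
    rw [e1, integrable_indicator_iff measurableSet_closedBall]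
    exact (hm.comp continuous_norm).continuousOn.integrableOn_compact (isCompact_closedBall _ _)
  have hle : ∫ y, g y ≤ ∫ y : ℂ, (Iic R).indicator m ‖y‖ := by
    refine integral_mono_of_nonneg (Eventually.of_forall h0) hi (Eventually.of_forall fun y => ?_)
    by_cases hy : ‖y‖ ≤ R
    · show g y ≤ (Iic R).indicator m ‖y‖
      rw [indicator_of_mem (mem_Iic.2 hy)]; exact h1 y hy
    · show g y ≤ (Iic R).indicator m ‖y‖
      rw [indicator_of_notMem (fun h => hy (mem_Iic.1 h)), h2 y (not_le.1 hy)]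
  refine hle.trans (le_of_eq ?_)
  rw [integral_fun_norm_addHaar volume ((Iic R).indicator m)]
  have e2 : ∫ y in Ioi (0 : ℝ), y ^ (Module.finrank ℝ ℂ - 1) • (Iic R).indicator m y =
      ∫ r in (0 : ℝ)..R, r * m r := by
    rw [intervalIntegral.integral_of_le hR, ← Ioi_inter_Iic,
      ← setIntegral_indicator measurableSet_Iic]
    refine integral_congr_ae (Eventually.of_forall fun y => ?_)
    by_cases hy : y ∈ Iic R <;> simp [hy]
  rw [e2]
  simp [Measure.real, Complex.volume_ball, mul_assoc]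

lemma cont_m (A : ℝ) (k : ℕ) : Continuous fun r : ℝ => A / max 1 r ^ k :=
  continuous_const.div ((continuous_const.max continuous_id).pow k) fun _ =>
    (pow_pos (lt_max_of_lt_left one_pos) k).ne'

lemma prim {m u U : ℝ → ℝ} {R : ℝ} (hR : 0 ≤ R) (hm : Continuous m)
    (h : ∀ r ∈ Icc 0 R, m r ≤ u r) (hu : ContinuousOn u (Icc 0 R))
    (hU : ∀ r ∈ Icc 0 R, HasDerivAt U (u r) r) : ∫ r in (0 : ℝ)..R, m r ≤ U R - U 0 := by
  have i : IntervalIntegrable u volume 0 R := hu.intervalIntegrable_of_Icc hR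
  rw [← intervalIntegral.integral_eq_sub_of_hasDerivAt (fun r hr => hU r (by
    rwa [uIcc_of_le hR] at hr)) i]
  exact intervalIntegral.integral_mono_on hR (hm.intervalIntegrable _ _) i h

lemma pt {A r : ℝ} (hA : 0 ≤ A) (hr : 0 ≤ r) (k : ℕ) :
    r * (A / max 1 r ^ (k + 1)) ≤ A * 2 ^ k / (1 + r) ^ k := by
  have h1 : 1 ≤ max 1 r := le_max_left _ _
  have h2 : r ≤ max 1 r := le_max_right _ _
  have h3 : (1 + r) ^ k ≤ (2 * max 1 r) ^ k := pow_le_pow_left₀ (by linarith) (by linarith) k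
  rw [← mul_div_assoc, div_le_div_iff₀ (by positivity) (by positivity), pow_succ]
  rw [mul_pow] at h3
  have h4 : r * (1 + r) ^ k ≤ max 1 r * (2 ^ k * max 1 r ^ k) :=
    mul_le_mul h2 h3 (by positivity) (by linarith)
  nlinarith [mul_le_mul_of_nonneg_left h4 hA]

lemma rad1 {g : ℂ → ℝ} {A R : ℝ} (hA : 0 ≤ A) (hR : 0 ≤ R) (h0 : ∀ y, 0 ≤ g y)
    (h1 : ∀ y, g y ≤ A / max 1 ‖y‖ ^ 1) (h2 : ∀ y, R < ‖y‖ → g y = 0) :
    ∫ y, g y ≤ 8 * (A * R) := by
  refine (rad hR (cont_m A 1) h0 (fun y _ => h1 y) h2).trans ?_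
  have h := prim (m := fun r => r * (A / max 1 r ^ 1)) (u := fun _ => A) (U := fun r => A * r) hR
    (continuous_id.mul (cont_m A 1)) (fun r hr => by simpa using pt hA hr.1 0) continuousOn_const
    (fun r _ => by simpa using (hasDerivAt_id r).const_mul A)
  have hp := Real.pi_le_four
  have hp0 := Real.pi_pos
  have h3 : 0 ≤ A * R := mul_nonneg hA hR
  have h4 := mul_le_mul_of_nonneg_left h (by positivity : 0 ≤ 2 * Real.pi)
  nlinarith

lemma rad2 {g : ℂ → ℝ} {A R : ℝ} (hA : 0 ≤ A) (hR : 0 ≤ R) (h0 : ∀ y, 0 ≤ g y)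
    (h1 : ∀ y, g y ≤ A / max 1 ‖y‖ ^ 2) (h2 : ∀ y, R < ‖y‖ → g y = 0) :
    ∫ y, g y ≤ 16 * (A * Real.log (1 + R)) := by
  refine (rad hR (cont_m A 2) h0 (fun y _ => h1 y) h2).trans ?_
  have h := prim (m := fun r => r * (A / max 1 r ^ 2)) (u := fun r => A * 2 * (1 + r)⁻¹)
    (U := fun r => A * 2 * Real.log (1 + r)) hR
    (continuous_id.mul (cont_m A 2)) (fun r hr => by simpa [div_eq_mul_inv] using pt hA hr.1 1)
    (continuousOn_const.mul (ContinuousOn.inv₀ (by fun_prop) fun r hr => by linarith [hr.1]))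
    (fun r hr => by
      have h1 : HasDerivAt (fun r : ℝ => 1 + r) 1 r := (hasDerivAt_id r).const_add 1
      simpa using (h1.log (by linarith [hr.1])).const_mul (A * 2))
  have hp := Real.pi_le_four
  have hp0 := Real.pi_pos
  have h3 : 0 ≤ A * Real.log (1 + R) := mul_nonneg hA (Real.log_nonneg (by linarith))
  have h4 := mul_le_mul_of_nonneg_left h (by positivity : 0 ≤ 2 * Real.pi)
  simp only [add_zero, Real.log_one, mul_zero, sub_zero] at h4
  nlinarith

lemma rad3 {g : ℂ → ℝ} {A R : ℝ} (hA : 0 ≤ A) (hR : 0 ≤ R) (h0 : ∀ y, 0 ≤ g y)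
    (h1 : ∀ y, g y ≤ A / max 1 ‖y‖ ^ 3) (h2 : ∀ y, R < ‖y‖ → g y = 0) :
    ∫ y, g y ≤ 32 * A := by
  refine (rad hR (cont_m A 3) h0 (fun y _ => h1 y) h2).trans ?_
  have h := prim (m := fun r => r * (A / max 1 r ^ 3)) (u := fun r => A * 2 ^ 2 / (1 + r) ^ 2)
    (U := fun r => -(A * 4) * (1 + r)⁻¹) hR
    (continuous_id.mul (cont_m A 3)) (fun r hr => pt hA hr.1 2)
    (continuousOn_const.div (by fun_prop) fun r hr => by have := hr.1; positivity)
    (fun r hr => by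
      have h1 : HasDerivAt (fun r : ℝ => 1 + r) 1 r := (hasDerivAt_id r).const_add 1
      have h2 := (h1.inv (by linarith [hr.1])).const_mul (-(A * 4))
      refine h2.congr_deriv ?_
      ring)
  have hp := Real.pi_le_four
  have hp0 := Real.pi_pos
  have h3 : 0 ≤ A * (1 + R)⁻¹ := by positivity
  have h5 : -(A * 4) * (1 + R)⁻¹ - -(A * 4) * (1 + 0)⁻¹ ≤ A * 4 := by
    simp only [add_zero, inv_one]; linarith
  have h4 := mul_le_mul_of_nonneg_left (h.trans h5) (by positivity : 0 ≤ 2 * Real.pi)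
  nlinarith

lemma log_le {e : ℝ} (he : 1 ≤ e) : Real.log (1 + 2 * e) ≤ 2 * lg e := by
  have h1 : Real.log (1 + 2 * e) ≤ Real.log (3 * e) := Real.log_le_log (by linarith) (by linarith)
  rw [Real.log_mul (by norm_num) (by linarith)] at h1
  have h2 : Real.log 3 ≤ 2 := by
    have := Real.log_le_sub_one_of_pos (by norm_num : (0 : ℝ) < 3); linarith
  have h3 := le_abs_self (Real.log e)
  have h4 := abs_nonneg (Real.log e)
  unfold lg
  linarith

lemma swap {A e r : ℝ} (hA : 0 ≤ A) (he : 1 ≤ e) (hr : r ≤ 2 * e) {k : ℕ} (hk : k ≤ 4) :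
    A / e ^ k ≤ 16 * A / max 1 r ^ k := by
  have h1 : 1 ≤ max 1 r := le_max_left _ _
  have h2 : max 1 r ≤ 2 * e := max_le (by linarith) hr
  have h3 : max 1 r ^ k ≤ (2 * e) ^ k := pow_le_pow_left₀ (by linarith) h2 k
  have h4 : (2 : ℝ) ^ k ≤ 2 ^ 4 := pow_le_pow_right₀ (by norm_num) hk
  rw [div_le_div_iff₀ (by positivity) (by positivity)]
  rw [mul_pow] at h3
  have h5 : max 1 r ^ k ≤ 16 * e ^ k :=
    h3.trans (mul_le_mul_of_nonneg_right (by linarith) (by positivity))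
  nlinarith [mul_le_mul_of_nonneg_left h5 hA]

end PROF

theorem st_PROF (hRAW : St_RAW) (hPID : St_PID) (hPB1 : St_PB1) (hPB2 : St_PB2) (hPB3 : St_PB3) :
    St_PROF := by
  obtain ⟨R, hR⟩ := hRAW
  obtain ⟨C1, a1, ar, -, ae1, ae2⟩ := hPB1 R hR
  obtain ⟨C2, b1, hb⟩ := hPB2 R hR
  obtain ⟨C3, c1, hc⟩ := hPB3 R hR
  have hM := hR.Mpos
  have hMi : 0 < R.M0⁻¹ := inv_pos.2 hM
  set C : ℝ := 1000 * C1 + C2 + C3 + R.M0 + R.M0⁻¹ with hC
  have k1 : 1000 * C1 ≤ C := by linarith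
  have k2 : C2 ≤ C := by linarith
  have k3 : C3 ≤ C := by linarith
  refine ⟨C, R.M0, by linarith, ?_, by linarith, fun e1 e2 h1 h2 h3 => ?_⟩
  · have h1 : R.M0⁻¹ ≤ C := by linarith
    have h2 := mul_le_mul_of_nonneg_right h1 hM.le
    rwa [inv_mul_cancel₀ hM.ne'] at h2
  have he : 1 ≤ e2 := by linarith
  obtain ⟨p, hp⟩ := hPID R hR e1 e2 h1 h2 (by linarith)
  have hl : 1 ≤ lg e2 := by unfold lg; linarith [abs_nonneg (Real.log e2)]
  have s11 := PROF.mol_smooth h1 hR.c1.continuous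
  have s12 := PROF.mol_smooth (by linarith : 0 < e2) hR.c1.continuous
  have s01 := PROF.mol_smooth h1 hR.c0.continuous
  have s02 := PROF.mol_smooth (by linarith : 0 < e2) hR.c0.continuous
  have f1 : ∀ j y, 2 * e2 < ‖y‖ → nD j (hat e1 e2 R.W1) y = 0 := fun j y hy =>
    PROF.nD_far (fun y hy => (hp.supW y hy).1) j hy
  have f0 : ∀ j y, 2 * e2 < ‖y‖ → nD j (hat e1 e2 R.W0) y = 0 := fun j y hy =>
    PROF.nD_far (fun y hy => (hp.supW y hy).2) j hy
  have p1 : ∀ j ≤ 2, ∀ y, nD j (hat e1 e2 R.W1) y ≤ 17 * C1 * lg e2 / max 1 ‖y‖ ^ (2 + j) := by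
    intro j hj y
    have hm : 0 < max 1 ‖y‖ ^ (2 + j) := pow_pos (lt_max_of_lt_left one_pos) _
    by_cases hy : ‖y‖ ≤ 2 * e2
    · have t1 := (ae1 e1 h1 h2 j hj y).1
      have t2 := (ae2 e2 he j hj y (by linarith)).1
      have t3 := PROF.swap (by positivity : 0 ≤ C1 * lg e2) he hy (by omega : 2 + j ≤ 4)
      have t4 : C1 / max 1 ‖y‖ ^ (2 + j) ≤ C1 * lg e2 / max 1 ‖y‖ ^ (2 + j) :=
        div_le_div_of_nonneg_right (by nlinarith) hm.le
      refine (PROF.nD_sub_le s11 s12 j y).trans ((add_le_add (t1.trans t4) (t2.trans t3)).trans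
        (le_of_eq (by ring)))
    · rw [f1 j y (not_le.1 hy)]; positivity
  have p0 : ∀ j ≤ 2, ∀ y, nD j (hat e1 e2 R.W0) y ≤ 17 * C1 / max 1 ‖y‖ ^ (1 + j) := by
    intro j hj y
    have hm : 0 < max 1 ‖y‖ ^ (1 + j) := pow_pos (lt_max_of_lt_left one_pos) _
    by_cases hy : ‖y‖ ≤ 2 * e2
    · have t1 := (ae1 e1 h1 h2 j hj y).2
      have t2 := (ae2 e2 he j hj y (by linarith)).2
      have t3 := PROF.swap (by positivity : 0 ≤ C1) he hy (by omega : 1 + j ≤ 4)
      refine (PROF.nD_sub_le s01 s02 j y).trans ((add_le_add t1 (t2.trans t3)).trans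
        (le_of_eq (by ring)))
    · rw [f0 j y (not_le.1 hy)]; positivity
  have n0 : ∀ j (f : ℂ → ℂ) y, 0 ≤ nD j f y := fun _ _ _ => norm_nonneg _
  have hlog := PROF.log_le he
  have q : 0 ≤ C1 * lg e2 := by positivity
  refine ⟨_, _, p, _, _, _, hp, fun j hj y => ⟨?_, ?_⟩, ⟨?_, ?_, ?_, ?_⟩, fun a g hg => ?_⟩
  · exact (p1 j hj y).trans (div_le_div_of_nonneg_right (by nlinarith)
      (pow_pos (lt_max_of_lt_left one_pos) _).le)
  · exact (p0 j hj y).trans (div_le_div_of_nonneg_right (by nlinarith)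
      (pow_pos (lt_max_of_lt_left one_pos) _).le)
  · refine (PROF.rad2 (by positivity) (by linarith) (n0 0 _) (p1 0 (by norm_num)) (f1 0)).trans ?_
    have t1 := mul_le_mul_of_nonneg_left hlog q
    have t2 := mul_le_mul_of_nonneg_right k1 (sq_nonneg (lg e2))
    have t3 : 0 ≤ C1 * lg e2 ^ 2 := by positivity
    nlinarith
  · refine (PROF.rad3 (by positivity) (by linarith) (n0 1 _) (p1 1 (by norm_num)) (f1 1)).trans ?_
    have t2 := mul_le_mul_of_nonneg_right k1 (by linarith : 0 ≤ lg e2)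
    nlinarith
  · refine (PROF.rad1 (by positivity) (by linarith) (n0 0 _) (p0 0 (by norm_num)) (f0 0)).trans ?_
    have t2 := mul_le_mul_of_nonneg_right k1 (by linarith : 0 ≤ e2)
    have t3 : 0 ≤ C1 * e2 := by positivity
    nlinarith
  · refine (PROF.rad2 (by positivity) (by linarith) (n0 1 _) (p0 1 (by norm_num)) (f0 1)).trans ?_
    have t1 := mul_le_mul_of_nonneg_left hlog (by linarith : 0 ≤ C1)
    have t2 := mul_le_mul_of_nonneg_right k1 (by linarith : 0 ≤ lg e2)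
    nlinarith
  · obtain ⟨u1, u2, u3, u4⟩ := hb e1 e2 a g h1 h2 (by linarith) hg
    obtain ⟨u5, u6⟩ := hc e2 a g (by linarith) hg
    have e0 : 0 < e2 := by linarith
    refine ⟨u1.trans ?_, u2.trans ?_, u3.trans ?_, u4.trans ?_, u5.trans ?_, u6.trans ?_⟩ <;>
      gcongr

end

end Pool.Agent.Lib.EUL
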