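import Pool.Agent.Lib.EUL.Blue

/-! Block PTS: values at separated points against an integral. -/

namespace Pool.Agent.Lib.EUL

open MeasureTheory Set Filter Topology
open scoped ContDiff Classical

namespace PTS

theorem meas_cell : MeasurableSet cell :=
  (measurableSet_Ioc.preimage Complex.measurable_re).inter (measurableSet_Ioc.preimage Complex.measurable_im)

theorem cell_sub : cell ⊆ Metric.closedBall 0 1 := fun z hz => by
  rw [mem_closedBall_zero_iff]
  have h1 : |z.re| ≤ 1 / 2 := abs_le.2 ⟨by linarith [hz.1.1], hz.1.2⟩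
  have h2 : |z.im| ≤ 1 / 2 := abs_le.2 ⟨by linarith [hz.2.1], hz.2.2⟩
  linarith [Complex.norm_le_abs_re_add_abs_im z]

theorem exists_cell (z : ℂ) : ∃ n, z - lat n ∈ cell := by
  refine ⟨(⌈z.re - 1 / 2⌉, ⌈z.im - 1 / 2⌉), ?_, ?_⟩
  · have h1 := Int.le_ceil (z.re - 1 / 2)
    have h2 := Int.ceil_lt_add_one (z.re - 1 / 2)
    constructor <;> simp [lat] at h1 h2 ⊢ <;> linarith
  · have h1 := Int.le_ceil (z.im - 1 / 2)
    have h2 := Int.ceil_lt_add_one (z.im - 1 / 2)
    constructor <;> simp [lat] at h1 h2 ⊢ <;> linarith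

theorem lat_eq {n m : ℤ × ℤ} (h : ‖lat n - lat m‖ < 1) : n = m := by
  have h1 := (Complex.abs_re_le_norm _).trans_lt h
  have h2 := (Complex.abs_im_le_norm _).trans_lt h
  simp only [lat, Complex.sub_re, Complex.add_re, Complex.intCast_re, Complex.mul_I_re, Complex.intCast_im,
    Complex.sub_im, Complex.add_im, Complex.mul_I_im, neg_zero, add_zero, zero_add] at h1 h2
  exact Prod.ext (sub_eq_zero.1 (Int.abs_lt_one_iff.1 (by exact_mod_cast h1)))
    (sub_eq_zero.1 (Int.abs_lt_one_iff.1 (by exact_mod_cast h2)))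

/-- the periodic disc -/
def A (p : ℂ) (r : ℝ) : Set ℂ := ⋃ n, (fun x => x + lat n) ⁻¹' Metric.closedBall p r

theorem meas_A (p : ℂ) (r : ℝ) : MeasurableSet (A p r) :=
  .iUnion fun _ => measurableSet_closedBall.preimage (measurable_add_const _)

theorem vol_A (p : ℂ) {r : ℝ} (h0 : 0 < r) (h : r ≤ 1 / 4) : r ^ 2 ≤ volume.real (A p r ∩ cell) := by
  have h1 : volume (Metric.closedBall p r) ≤ volume (A p r ∩ cell) := by
    rw [A, iUnion_inter, measure_iUnion (fun n m hn => disjoint_left.2 fun x hx hy => hn (lat_eq ?_))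
      fun _ => (measurableSet_closedBall.preimage (measurable_add_const _)).inter meas_cell]
    · refine le_trans (measure_mono fun x hx => ?_) ((measure_iUnion_le fun n => (fun x => x + -lat n) ⁻¹'
        ((fun x => x + lat n) ⁻¹' Metric.closedBall p r ∩ cell)).trans (le_of_eq ?_))
      · obtain ⟨n, hn⟩ := exists_cell x
        exact mem_iUnion.2 ⟨n, by simpa using hx, by rwa [sub_eq_add_neg] at hn⟩
      · simp only [measure_preimage_add_right]
    · have h2 := dist_triangle_right (x + lat n) (x + lat m) p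
      have h3 : dist (x + lat n) p ≤ r := hx.1
      have h4 : dist (x + lat m) p ≤ r := hy.1
      rw [dist_add_left, dist_eq_norm] at h2
      linarith
  have h2 := ENNReal.toReal_mono
    ((measure_mono (inter_subset_right.trans cell_sub)).trans_lt measure_closedBall_lt_top).ne h1
  rw [Complex.volume_closedBall, ENNReal.toReal_mul, ENNReal.toReal_pow, ENNReal.toReal_ofReal h0.le,
    ENNReal.coe_toReal, NNReal.coe_real_pi] at h2
  exact (le_mul_of_one_le_right (by positivity) (by linarith [Real.pi_gt_three])).trans h2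

end PTS

open PTS in
theorem st_PTS : St_PTS := by
  intro ι _ P p r M f g r0 r1 hM gc gp g0 hf
  have hI : IntegrableOn g cell :=
    (gc.continuousOn.integrableOn_compact (isCompact_closedBall 0 1)).mono_set cell_sub
  have h1 : ∀ i ∈ Finset.univ.filter P, r ^ 2 * f i ≤ ∫ x in cell, (A (p i) r).indicator g x := fun i hi => by
    rw [integral_indicator (meas_A _ _), Measure.restrict_restrict (meas_A _ _)]
    refine le_trans ?_ (setIntegral_ge_of_const_le_real (c := max (f i) 0) ((meas_A _ _).inter meas_cell)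
      ((measure_mono (inter_subset_right.trans cell_sub)).trans_lt measure_closedBall_lt_top).ne
      (fun x hx => max_le ?_ (g0 x)) (hI.mono_set inter_subset_right))
    · rw [mul_comm]
      exact (mul_le_mul_of_nonneg_right (le_max_left _ _) (by positivity)).trans
        (mul_le_mul_of_nonneg_left (vol_A _ r0 r1) (le_max_right _ _))
    · obtain ⟨n, hn⟩ := mem_iUnion.1 hx.1
      exact (hf i (Finset.mem_filter.1 hi).2 _ (mem_closedBall_iff_norm.1 hn)).trans_eq (gp n x)
  rw [Finset.mul_sum, IQ, ← integral_const_mul]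
  refine (Finset.sum_le_sum h1).trans ?_
  rw [← integral_finsetSum _ fun i _ => hI.indicator (meas_A _ _)]
  refine integral_mono (integrable_finsetSum _ fun i _ => hI.indicator (meas_A _ _)) (hI.const_mul M)
    fun x => le_trans ?_ (mul_le_mul_of_nonneg_right (hM x) (g0 x))
  rw [← Finset.filter_filter, ← nsmul_eq_mul, ← Finset.sum_const, Finset.sum_filter (fun i => pn (p i - x) ≤ r)]
  refine Finset.sum_le_sum fun i _ => ?_
  by_cases hx : x ∈ A (p i) r
  · obtain ⟨n, hn⟩ := mem_iUnion.1 hx
    rw [indicator_of_mem hx, if_pos]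
    refine (Metric.infDist_le_dist_of_mem (mem_range_self n)).trans ?_
    rw [dist_eq_norm, sub_sub, ← dist_eq_norm, dist_comm]
    exact hn
  · rw [indicator_of_notMem hx]
    split_ifs
    exacts [g0 x, le_rfl]

end Pool.Agent.Lib.EUL
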