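import Pool.Agent.Lib.EUL.RAWa

/-! Block RAW: the exact dipole. -/

set_option autoImplicit false

namespace Pool.Agent.Lib.EUL

open MeasureTheory Set Filter Topology
open scoped ContDiff Classical ComplexConjugate

namespace RAW

/-- the real linear map `v ↦ a v + b conj v` -/
noncomputable def LL (a b : ℂ) : ℂ →L[ℝ] ℂ :=
  a • ContinuousLinearMap.id ℝ ℂ + b • (Complex.conjCLE : ℂ →L[ℝ] ℂ)

lemma LL_apply (a b v : ℂ) : LL a b v = a * v + b * conj v := by simp [LL]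

/-- derivative in Wirtinger form -/
def HD (f : ℂ → ℂ) (y a b : ℂ) : Prop :=
  ∃ f' : ℂ →L[ℝ] ℂ, HasFDerivAt f f' y ∧ ∀ v, f' v = a * v + b * conj v

variable {f g : ℂ → ℂ} {y a b a' b' : ℂ}

lemma HD.fderiv_eq (h : HD f y a b) : fderiv ℝ f y = LL a b := by
  obtain ⟨f', h1, h2⟩ := h
  rw [h1.fderiv]
  exact ContinuousLinearMap.ext fun v => by rw [h2, LL_apply]

lemma HD.dz_eq (h : HD f y a b) : dz f y = a := by
  unfold dz
  rw [h.fderiv_eq, LL_apply, LL_apply, Complex.conj_I, map_one]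
  linear_combination (-(a - b) / 2) * Complex.I_mul_I

lemma HD.dzb_eq (h : HD f y a b) : dzb f y = b := by
  unfold dzb
  rw [h.fderiv_eq, LL_apply, LL_apply, Complex.conj_I, map_one]
  linear_combination ((a - b) / 2) * Complex.I_mul_I

lemma HD.of_eq (h : HD f y a b) (ha : a = a') (hb : b = b') : HD f y a' b' := ha ▸ hb ▸ h

lemma HD.congr (h : HD f y a b) (e : ∀ w, g w = f w) : HD g y a b := (funext e : g = f) ▸ h

lemma HD.add (h : HD f y a b) (h' : HD g y a' b') :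
    HD (fun w => f w + g w) y (a + a') (b + b') := by
  obtain ⟨f', h1, h2⟩ := h
  obtain ⟨g', h3, h4⟩ := h'
  exact ⟨f' + g', h1.add h3, fun v => by rw [add_apply, h2, h4]; ring⟩

lemma HD.mul (h : HD f y a b) (h' : HD g y a' b') :
    HD (fun w => f w * g w) y (f y * a' + g y * a) (f y * b' + g y * b) := by
  obtain ⟨f', h1, h2⟩ := h
  obtain ⟨g', h3, h4⟩ := h'
  refine ⟨f y • g' + g y • f', h1.mul h3, fun v => ?_⟩
  rw [add_apply, smul_apply,
    smul_apply, h2, h4, smul_eq_mul, smul_eq_mul]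
  ring

lemma hd_const (c y : ℂ) : HD (fun _ => c) y 0 0 := ⟨0, hasFDerivAt_const c y, fun v => by simp⟩

lemma hd_id (y : ℂ) : HD (fun w => w) y 1 0 :=
  ⟨ContinuousLinearMap.id ℝ ℂ, hasFDerivAt_id y, fun v => by simp⟩

lemma hd_conj (y : ℂ) : HD (fun w => conj w) y 0 1 :=
  ⟨Complex.conjCLE, Complex.conjCLE.hasFDerivAt, fun v => by simp⟩

lemma hd_sub (y : ℂ) : HD (fun w => w - conj w) y 1 (-1) :=
  (((hd_id y).add ((hd_const (-1) y).mul (hd_conj y))).congr fun w => by ring).of_eq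
    (by ring) (by ring)

lemma hd_rad {F : ℝ → ℝ} {F' : ℝ} (h : HasDerivAt F F' (‖y‖ ^ 2)) :
    HD (fun w => (F (‖w‖ ^ 2) : ℂ)) y (F' * conj y) (F' * y) := by
  have h1 := (hasStrictFDerivAt_norm_sq y).hasFDerivAt
  have h2 := Complex.ofRealCLM.hasFDerivAt.comp y (h.hasFDerivAt.comp y h1)
  refine ⟨_, h2, fun v => ?_⟩
  apply Complex.ext <;> simp [Complex.inner] <;> ring

lemma nsq (y : ℂ) : ((‖y‖ ^ 2 : ℝ) : ℂ) = y * conj y := by
  rw [Complex.mul_conj, Complex.normSq_eq_norm_sq]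

lemma cd_rad {F F' : ℝ → ℝ} (h : ∀ u, HasDerivAt F (F' u) u) (hc : Continuous F') :
    ContDiff ℝ 1 fun w : ℂ => F (‖w‖ ^ 2) := by
  have h1 : ContDiff ℝ 1 F := contDiff_one_iff_deriv.2 ⟨fun u => (h u).differentiableAt, by
    rw [show deriv F = F' from funext fun u => (h u).deriv]; exact hc⟩
  exact h1.comp (contDiff_norm_sq ℝ)

lemma lip_rad {F : ℝ → ℝ} (h : LocallyLipschitz F) : LocallyLipschitz fun w : ℂ => F (‖w‖ ^ 2) :=
  h.comp (contDiff_norm_sq ℝ (n := 1)).locallyLipschitz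

lemma global_lip {E : Type} [NormedAddCommGroup E] {F : ℂ → E} (h : LocallyLipschitz F) {r K : ℝ}
    (hr : 0 ≤ r) (hK : 0 ≤ K) (ho : ∀ x y, r ≤ ‖x‖ → r ≤ ‖y‖ → ‖F x - F y‖ ≤ K * ‖x - y‖) :
    ∃ C, LipschitzWith C F := by
  obtain ⟨K1, h1⟩ := (h.locallyLipschitzOn (s := Metric.closedBall 0 (r + 1))).exists_lipschitzOnWith_of_compact
    (isCompact_closedBall _ _)
  have h2 : ∀ x y, ‖x‖ ≤ r + 1 → ‖y‖ ≤ r + 1 → ‖F x - F y‖ ≤ K1 * ‖x - y‖ := fun x y hx hy =>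
    h1.norm_sub_le (mem_closedBall_zero_iff.2 hx) (mem_closedBall_zero_iff.2 hy)
  have k1 : (0 : ℝ) ≤ K1 := K1.2
  have h3 : ∀ x y, ‖x‖ < r → r + 1 < ‖y‖ →
      ‖F x - F y‖ ≤ (K1 + K) * (2 * r + 1) * ‖x - y‖ := by
    intro x y hx hy
    have e : ‖(r : ℂ)‖ = r := by rw [Complex.norm_real, Real.norm_of_nonneg hr]
    have a1 := h2 x r (by linarith) (by linarith)
    have a2 := ho r y e.ge (by linarith)
    have a3 : 1 ≤ ‖x - y‖ := by
      have := norm_sub_norm_le y x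
      rw [norm_sub_rev] at this
      linarith
    have a4 : ‖x - r‖ ≤ 2 * r := (norm_sub_le _ _).trans (by linarith)
    have a5 : ‖(r : ℂ) - y‖ ≤ 2 * r + ‖x - y‖ :=
      (norm_sub_le_norm_sub_add_norm_sub _ x _).trans (by rw [norm_sub_rev]; linarith)
    have a6 : 2 * r ≤ 2 * r * ‖x - y‖ := le_mul_of_one_le_right (by linarith) a3
    refine (norm_sub_le_norm_sub_add_norm_sub _ (F r) _).trans ?_
    have a7 := mul_le_mul_of_nonneg_left (a4.trans (by linarith :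
      2 * r ≤ (2 * r + 1) * ‖x - y‖)) k1
    have a8 := mul_le_mul_of_nonneg_left (a5.trans (by linarith :
      2 * r + ‖x - y‖ ≤ (2 * r + 1) * ‖x - y‖)) hK
    linarith
  have hC : 0 ≤ (K1 + K) * (2 * r + 1) := by positivity
  refine ⟨⟨_, hC⟩, LipschitzWith.of_dist_le_mul fun x y => ?_⟩
  rw [dist_eq_norm, dist_eq_norm]
  show _ ≤ (K1 + K) * (2 * r + 1) * ‖x - y‖
  have n0 := norm_nonneg (x - y)
  have b0 : 0 ≤ (K1 + K) * (2 * r) * ‖x - y‖ := by positivity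
  have b1 : K1 * ‖x - y‖ ≤ (K1 + K) * (2 * r + 1) * ‖x - y‖ := by nlinarith [mul_nonneg hK n0]
  have b2 : K * ‖x - y‖ ≤ (K1 + K) * (2 * r + 1) * ‖x - y‖ := by nlinarith [mul_nonneg k1 n0]
  by_cases hx : ‖x‖ ≤ r + 1 <;> by_cases hy : ‖y‖ ≤ r + 1
  · exact (h2 x y hx hy).trans b1
  · by_cases hx' : r ≤ ‖x‖
    · exact (ho x y hx' (by linarith)).trans b2
    · exact h3 x y (by linarith) (by linarith)
  · by_cases hy' : r ≤ ‖y‖
    · exact (ho x y (by linarith) hy').trans b2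
    · rw [norm_sub_rev, norm_sub_rev x]
      exact h3 y x (by linarith) (by linarith)
  · exact (ho x y (by linarith) (by linarith)).trans b2

lemma LL_sub_le (b b' : ℂ) : ‖LL 0 b - LL 0 b'‖ ≤ ‖b - b'‖ := by
  refine ContinuousLinearMap.opNorm_le_bound _ (norm_nonneg _) fun v => ?_
  rw [sub_apply, LL_apply, LL_apply, zero_mul, zero_add, zero_add, ← sub_mul,
    norm_mul, Complex.norm_conj]

lemma inv_pow_lip {r : ℝ} (hr : 0 < r) (k : ℕ) : ∃ K : ℝ, 0 ≤ K ∧ ∀ x y : ℂ, r ≤ ‖x‖ → r ≤ ‖y‖ →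
    ‖x⁻¹ ^ k - y⁻¹ ^ k‖ ≤ K * ‖x - y‖ := by
  have hi : ∀ x : ℂ, r ≤ ‖x‖ → ‖x⁻¹‖ ≤ r⁻¹ := fun x hx => by
    rw [norm_inv]; exact inv_anti₀ hr hx
  induction k with
  | zero => exact ⟨0, le_rfl, fun x y _ _ => by simp⟩
  | succ k ih =>
    obtain ⟨K, hK, h⟩ := ih
    refine ⟨K * r⁻¹ + r⁻¹ ^ k * (r⁻¹ * r⁻¹), by positivity, fun x y hx hy => ?_⟩
    have x0 : x ≠ 0 := norm_pos_iff.1 (hr.trans_le hx)
    have y0 : y ≠ 0 := norm_pos_iff.1 (hr.trans_le hy)
    have e : x⁻¹ ^ (k + 1) - y⁻¹ ^ (k + 1) =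
        (x⁻¹ ^ k - y⁻¹ ^ k) * x⁻¹ - y⁻¹ ^ k * (x⁻¹ * y⁻¹) * (x - y) := by
      rw [pow_succ, pow_succ]
      generalize x⁻¹ ^ k = s
      generalize y⁻¹ ^ k = t
      field_simp
      ring
    rw [e]
    refine (norm_sub_le _ _).trans ?_
    rw [norm_mul, norm_mul, norm_mul, norm_mul, norm_pow]
    have a1 := mul_le_mul (h x y hx hy) (hi x hx) (norm_nonneg _) (by positivity)
    have a2 : ‖y⁻¹‖ ^ k * (‖x⁻¹‖ * ‖y⁻¹‖) * ‖x - y‖ ≤ r⁻¹ ^ k * (r⁻¹ * r⁻¹) * ‖x - y‖ := by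
      have := hi x hx
      have := hi y hy
      gcongr
    linarith

lemma lip_out {F : ℂ → ℂ →L[ℝ] ℂ} (h : LocallyLipschitz F) {r : ℝ} (hr : 0 < r) (c : ℂ) (k : ℕ)
    (ho : ∀ y, r ≤ ‖y‖ → F y = LL 0 (c * (conj y)⁻¹ ^ k)) : ∃ C, LipschitzWith C F := by
  obtain ⟨K, hK, h1⟩ := inv_pow_lip hr k
  refine global_lip h hr.le (K := ‖c‖ * K) (by positivity) fun x y hx hy => ?_
  rw [ho x hx, ho y hy]
  refine (LL_sub_le _ _).trans ?_
  have := h1 (conj x) (conj y) (by rwa [Complex.norm_conj]) (by rwa [Complex.norm_conj])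
  rw [← map_sub, Complex.norm_conj] at this
  rw [← mul_sub, norm_mul, mul_assoc]
  exact mul_le_mul_of_nonneg_left this (norm_nonneg _)

lemma rot (om : ℂ) (h : ‖om‖ = 1) (G : ℂ → ℂ) (hG : Integrable G) :
    Integrable (fun y => G (om * y)) ∧ ∫ y, G (om * y) = ∫ y, G y := by
  have hm := (rotation ⟨om, mem_sphere_zero_iff_norm.2 h⟩).measurePreserving
  have he := (rotation ⟨om, mem_sphere_zero_iff_norm.2 h⟩).toHomeomorph.measurableEmbedding
  exact ⟨(hm.integrable_comp_emb he).2 hG, hm.integral_comp he G⟩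

end RAW

open RAW in
theorem st_RAW (hB : St_BES) : St_RAW := by
  obtain ⟨u0, A, B, B', E, E', p, P⟩ := prof hB
  have hu := P.pos
  have cp := P.lp.continuous
  have cA : Continuous A := continuous_iff_continuousAt.2 fun u => (P.dA u).continuousAt
  have cB : Continuous B := continuous_iff_continuousAt.2 fun u => (P.dB u).continuousAt
  have sA := cd_rad P.dA cp.neg
  have sB := cd_rad P.dB P.lB.continuous
  have sE := cd_rad P.dE P.lE.continuous
  have spp := cd_rad P.dpp (by fun_prop)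
  have spA := cd_rad P.dpA (by fun_prop)
  have r0 : 0 < √u0 := Real.sqrt_pos.2 hu
  have rsq : √u0 ^ 2 = u0 := Real.sq_sqrt hu.le
  have rsq' : ((√u0 : ℝ) : ℂ) ^ 2 = u0 := by rw [← Complex.ofReal_pow, rsq]
  have ou : ∀ y : ℂ, √u0 ≤ ‖y‖ → u0 ≤ ‖y‖ ^ 2 := fun y h => by
    rw [← rsq]; exact pow_le_pow_left₀ r0.le h 2
  have y0 : ∀ y : ℂ, √u0 ≤ ‖y‖ → y ≠ 0 := fun y h => norm_pos_iff.1 (r0.trans_le h)
  have yc : ∀ y : ℂ, √u0 ≤ ‖y‖ → conj y ≠ 0 := fun y h => (map_ne_zero _).2 (y0 y h)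
  let W1 : ℂ → ℂ := fun y => A (‖y‖ ^ 2) + B (‖y‖ ^ 2) * (y * y)
  let W0 : ℂ → ℂ := fun y => Complex.I * y * E (‖y‖ ^ 2)
  have H1 : ∀ y, HD W1 y (p (‖y‖ ^ 2) * (y - conj y))
      (-p (‖y‖ ^ 2) * y + B' (‖y‖ ^ 2) * y ^ 3) := by
    intro y
    refine ((hd_rad (P.dA _)).add ((hd_rad (P.dB _)).mul ((hd_id y).mul (hd_id y)))).of_eq ?_ ?_
    · have e := congrArg (fun x : ℝ => (x : ℂ)) (P.r1 (‖y‖ ^ 2))
      simp only [Complex.ofReal_add, Complex.ofReal_mul, nsq, Complex.ofReal_ofNat] at e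
      rw [Complex.ofReal_neg]
      linear_combination y * e
    · rw [Complex.ofReal_neg]; ring
  have H0 : ∀ y, HD W0 y (Complex.I * A (‖y‖ ^ 2)) (Complex.I * E' (‖y‖ ^ 2) * y ^ 2) := by
    intro y
    refine (((hd_const Complex.I y).mul (hd_id y)).mul (hd_rad (P.dE _))).of_eq ?_ ?_
    · have e := congrArg (fun x : ℝ => (x : ℂ)) (P.r2 (‖y‖ ^ 2))
      simp only [Complex.ofReal_add, Complex.ofReal_mul, nsq] at e
      linear_combination Complex.I * e
    · ring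
  have im2 : ∀ y : ℂ, y - conj y = 2 * y.im * Complex.I := fun y => by
    rw [Complex.sub_conj]; push_cast; ring
  have out1 : ∀ y : ℂ, √u0 ≤ ‖y‖ → W1 y = conj (((√u0 : ℝ) : ℂ) ^ 2 / y ^ 2) := by
    intro y h
    obtain ⟨e1, -, e3, -⟩ := P.out _ (ou y h)
    have := y0 y h
    have := yc y h
    simp only [W1]
    rw [e1, e3, rsq', Complex.ofReal_div, Complex.ofReal_pow, nsq, map_div₀, map_pow,
      Complex.conj_ofReal]
    field_simp
    simp
  have c1 : ContDiff ℝ 1 W1 :=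
    (Complex.ofRealCLM.contDiff.comp sA).add
      ((Complex.ofRealCLM.contDiff.comp sB).mul (contDiff_id.mul contDiff_id))
  have int1 : Integrable fun y => W1 y ^ 2 := by
    have i1 : IntegrableOn (fun y => W1 y ^ 2) (Metric.closedBall 0 √u0) :=
      (c1.continuous.pow 2).continuousOn.integrableOn_compact (isCompact_closedBall _ _)
    have i2 : IntegrableOn (fun y => W1 y ^ 2) (Metric.closedBall 0 √u0)ᶜ := by
      have i3 := ((integrable_one_add_norm (E := ℂ) (μ := volume) (r := 4)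
        (by rw [Complex.finrank_real_complex]; norm_num)).const_mul ((1 + √u0) ^ 4)).integrableOn
        (s := (Metric.closedBall 0 √u0)ᶜ)
      refine i3.mono' (c1.continuous.pow 2).aestronglyMeasurable ?_
      refine (ae_restrict_mem Metric.isClosed_closedBall.measurableSet.compl).mono fun y hy => ?_
      have h : √u0 ≤ ‖y‖ := (not_le.1 fun h => hy (mem_closedBall_zero_iff.2 h)).le
      have hy0 : 0 < ‖y‖ := r0.trans_le h
      rw [out1 y h, norm_pow, Complex.norm_conj, norm_div, norm_pow, norm_pow, Complex.norm_real,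
        Real.norm_of_nonneg r0.le, Real.rpow_neg (by positivity), ← div_eq_mul_inv,
        show (4 : ℝ) = (4 : ℕ) by norm_num, Real.rpow_natCast, ← div_pow, ← div_pow, ← pow_mul]
      refine pow_le_pow_left₀ (by positivity) ?_ 4
      rw [div_le_div_iff₀ hy0 (by positivity)]
      nlinarith
    have := i1.union i2
    rwa [union_compl_self, integrableOn_univ] at this
  have cs : HasCompactSupport fun y : ℂ => A (‖y‖ ^ 2) ^ 2 :=
    HasCompactSupport.intro (isCompact_closedBall (0 : ℂ) √u0) fun y hy => by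
      rw [(P.out _ (ou y (not_le.1 fun h => hy (mem_closedBall_zero_iff.2 h)).le)).1]; simp
  refine ⟨⟨W1, W0, fun y => 8 * y.im ^ 2 * p (‖y‖ ^ 2) ^ 2,
    fun y => 8 * y.im * (p (‖y‖ ^ 2) * A (‖y‖ ^ 2)), fun y => 2 * A (‖y‖ ^ 2) ^ 2, √u0,
    ∫ y : ℂ, A (‖y‖ ^ 2) ^ 2⟩, r0, ?_, c1, ?_, ?_, ?_, ?_, ?_, ?_, out1, ?_, ?_, ?_, ?_, ?_, ?_, ?_,
    int1, ?_⟩
  · obtain ⟨u, h0, h1⟩ := P.ne
    refine (sA.continuous.pow 2).integral_pos_of_hasCompactSupport_nonneg_nonzero cs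
      (fun y => sq_nonneg _) (x := ((√u : ℝ) : ℂ)) ?_
    show A (‖((√u : ℝ) : ℂ)‖ ^ 2) ^ 2 ≠ 0
    rw [Complex.norm_real, Real.norm_of_nonneg (Real.sqrt_nonneg _), Real.sq_sqrt h0]
    exact pow_ne_zero 2 h1
  · exact (contDiff_const.mul contDiff_id).mul (Complex.ofRealCLM.contDiff.comp sE)
  · refine lip_out ?_ r0 (-2 * u0) 3 fun y h => ?_
    · have e : fderiv ℝ W1 = (fun q : ℂ × ℝ × ℝ => LL (q.2.1 * (q.1 - Complex.conjCLE q.1))
          (-q.2.1 * q.1 + q.2.2 * q.1 ^ 3)) ∘ fun y => (y, p (‖y‖ ^ 2), B' (‖y‖ ^ 2)) :=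
        funext fun y => (H1 y).fderiv_eq
      rw [e]
      refine (ContDiff.locallyLipschitz (𝕂 := ℝ) ?_).comp
        (LocallyLipschitz.id.prodMk ((lip_rad P.lp).prodMk (lip_rad P.lB)))
      have o1 : ContDiff ℝ 1 fun q : ℂ × ℝ × ℝ => (q.2.1 : ℂ) :=
        Complex.ofRealCLM.contDiff.comp (by fun_prop)
      have o2 : ContDiff ℝ 1 fun q : ℂ × ℝ × ℝ => (q.2.2 : ℂ) :=
        Complex.ofRealCLM.contDiff.comp (by fun_prop)
      unfold LL
      fun_prop
    · obtain ⟨-, e2, e3, -⟩ := P.out _ (ou y h)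
      have e := P.r1 (‖y‖ ^ 2)
      have hy0 : 0 < ‖y‖ := r0.trans_le h
      have e4 : B' (‖y‖ ^ 2) = -2 * u0 / (‖y‖ ^ 2) ^ 3 := by
        rw [e2, e3] at e
        field_simp at e ⊢
        linarith
      have := y0 y h
      have := yc y h
      rw [(H1 y).fderiv_eq, e2, e4, Complex.ofReal_div, Complex.ofReal_pow, nsq]
      congr 1
      · simp
      · push_cast
        field_simp
        ring
  · refine lip_out ?_ r0 (-Complex.I * u0) 2 fun y h => ?_
    · have e : fderiv ℝ W0 = (fun q : ℂ × ℝ × ℝ => LL (Complex.I * q.2.1)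
          (Complex.I * q.2.2 * q.1 ^ 2)) ∘ fun y => (y, A (‖y‖ ^ 2), E' (‖y‖ ^ 2)) :=
        funext fun y => (H0 y).fderiv_eq
      rw [e]
      refine (ContDiff.locallyLipschitz (𝕂 := ℝ) ?_).comp
        (LocallyLipschitz.id.prodMk (sA.locallyLipschitz.prodMk (lip_rad P.lE)))
      have o1 : ContDiff ℝ 1 fun q : ℂ × ℝ × ℝ => (q.2.1 : ℂ) :=
        Complex.ofRealCLM.contDiff.comp (by fun_prop)
      have o2 : ContDiff ℝ 1 fun q : ℂ × ℝ × ℝ => (q.2.2 : ℂ) :=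
        Complex.ofRealCLM.contDiff.comp (by fun_prop)
      unfold LL
      fun_prop
    · obtain ⟨e1, -, -, e3⟩ := P.out _ (ou y h)
      have e := P.r2 (‖y‖ ^ 2)
      have hy0 : 0 < ‖y‖ := r0.trans_le h
      have e4 : E' (‖y‖ ^ 2) = -u0 / (‖y‖ ^ 2) ^ 2 := by
        rw [e1, e3] at e
        field_simp at e ⊢
        linarith
      have := y0 y h
      have := yc y h
      rw [(H0 y).fderiv_eq, e1, e4, Complex.ofReal_div, Complex.ofReal_pow, nsq]
      congr 1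
      · simp
      · push_cast
        field_simp
  · exact (contDiff_const.mul (Complex.imCLM.contDiff.pow 2)).mul spp
  · exact (contDiff_const.mul Complex.imCLM.contDiff).mul spA
  · exact contDiff_const.mul (sA.pow 2)
  · intro y h
    obtain ⟨-, -, -, e3⟩ := P.out _ (ou y h)
    have := y0 y h
    have := yc y h
    simp only [W0]
    rw [e3, rsq', Complex.ofReal_div, nsq, map_div₀, Complex.conj_ofReal]
    field_simp
  · intro y h
    obtain ⟨e1, e2, -, -⟩ := P.out _ (ou y h)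
    simp only [e1, e2]
    simp
  · intro y
    show (dz W1 y).re = 0
    rw [(H1 y).dz_eq, im2]
    simp
  · intro y
    show (dz W0 y).re = 0
    rw [(H0 y).dz_eq]
    simp
  · intro y
    show dzb (fun w : ℂ => ((8 * w.im ^ 2 * p (‖w‖ ^ 2) ^ 2 : ℝ) : ℂ)) y = dz W1 y * (W1 y - 1)
    have h := (((hd_const (-2) y).mul ((hd_sub y).mul (hd_sub y))).mul (hd_rad (P.dpp _))).congr
      (g := fun w : ℂ => ((8 * w.im ^ 2 * p (‖w‖ ^ 2) ^ 2 : ℝ) : ℂ)) fun w => by
        rw [im2]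
        generalize p (‖w‖ ^ 2) = s
        push_cast
        linear_combination (8 * (w.im : ℂ) ^ 2 * s ^ 2) * Complex.I_mul_I
    rw [h.dzb_eq, (H1 y).dz_eq]
    have e := congrArg (fun x : ℝ => (x : ℂ)) (P.r5 (‖y‖ ^ 2))
    simp only [Complex.ofReal_sub, Complex.ofReal_mul, nsq, Complex.ofReal_ofNat,
      Complex.ofReal_one] at e
    simp only [W1, Complex.ofReal_div, Complex.ofReal_neg, Complex.ofReal_mul,
      Complex.ofReal_ofNat, Complex.ofReal_pow (p _)]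
    linear_combination (conj y - y) * e
  · intro y
    show dzb (fun w : ℂ => ((8 * w.im * (p (‖w‖ ^ 2) * A (‖w‖ ^ 2)) : ℝ) : ℂ)) y =
      dz W1 y * (W0 y - Complex.I * y) + dz W0 y * (W1 y - 1)
    have h := (((hd_const (-4 * Complex.I) y).mul (hd_sub y)).mul (hd_rad (P.dpA _))).congr
      (g := fun w : ℂ => ((8 * w.im * (p (‖w‖ ^ 2) * A (‖w‖ ^ 2)) : ℝ) : ℂ)) fun w => by
        rw [im2]
        generalize p (‖w‖ ^ 2) * A (‖w‖ ^ 2) = s
        push_cast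
        linear_combination (8 * (w.im : ℂ) * s) * Complex.I_mul_I
    rw [h.dzb_eq, (H1 y).dz_eq, (H0 y).dz_eq]
    have e := congrArg (fun x : ℝ => (x : ℂ)) (P.r6 (‖y‖ ^ 2))
    have e' := congrArg (fun x : ℝ => (x : ℂ)) (P.r4 (‖y‖ ^ 2))
    simp only [Complex.ofReal_sub, Complex.ofReal_mul, nsq, Complex.ofReal_ofNat,
      Complex.ofReal_one, Complex.ofReal_pow (p _)] at e e'
    simp only [W1, W0, Complex.ofReal_div, Complex.ofReal_neg, Complex.ofReal_mul,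
      Complex.ofReal_ofNat, Complex.ofReal_pow (p _), Complex.ofReal_sub]
    linear_combination (-Complex.I) * e - Complex.I * y * (y - conj y) * e'
  · intro y
    show dzb (fun w : ℂ => ((2 * A (‖w‖ ^ 2) ^ 2 : ℝ) : ℂ)) y = dz W0 y * (W0 y - Complex.I * y)
    have h := ((hd_const 2 y).mul ((hd_rad (y := y) (P.dA _)).mul (hd_rad (P.dA _)))).congr
      (g := fun w : ℂ => ((2 * A (‖w‖ ^ 2) ^ 2 : ℝ) : ℂ)) fun w => by
        generalize A (‖w‖ ^ 2) = s
        push_cast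
        ring
    rw [h.dzb_eq, (H0 y).dz_eq]
    have e := congrArg (fun x : ℝ => (x : ℂ)) (P.r3 (‖y‖ ^ 2))
    simp only [Complex.ofReal_sub, Complex.ofReal_mul, Complex.ofReal_ofNat,
      Complex.ofReal_one] at e
    simp only [W0, Complex.ofReal_neg]
    linear_combination y * e - (A (‖y‖ ^ 2) : ℂ) * y * (E (‖y‖ ^ 2) - 1) * Complex.I_mul_I
  · show ∫ y, W1 y ^ 2 = ((∫ y : ℂ, A (‖y‖ ^ 2) ^ 2 : ℝ) : ℂ)
    obtain ⟨om, hom⟩ := IsAlgClosed.exists_pow_nat_eq Complex.I (n := 2) (by norm_num)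
    have n1 : ‖om‖ = 1 := by
      have := congrArg norm hom
      rw [norm_pow, Complex.norm_I] at this
      exact (pow_eq_one_iff_of_nonneg (norm_nonneg _) two_ne_zero).1 this
    have n2 : ‖om ^ 2‖ = 1 := by rw [norm_pow, n1, one_pow]
    have n3 : ‖om ^ 3‖ = 1 := by rw [norm_pow, n1, one_pow]
    obtain ⟨i1, j1⟩ := rot om n1 _ int1
    obtain ⟨i2, j2⟩ := rot _ n2 _ int1
    obtain ⟨i3, j3⟩ := rot _ n3 _ int1
    have key : ∀ y, W1 y ^ 2 + W1 (om * y) ^ 2 + W1 (om ^ 2 * y) ^ 2 + W1 (om ^ 3 * y) ^ 2 =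
        4 * ((A (‖y‖ ^ 2) ^ 2 : ℝ) : ℂ) := by
      intro y
      simp only [W1, norm_mul, n1, n2, n3, one_mul]
      generalize A (‖y‖ ^ 2) = s
      generalize B (‖y‖ ^ 2) = t
      have f1 : om * y * (om * y) = Complex.I * (y * y) := by rw [← hom]; ring
      have f2 : om ^ 2 * y * (om ^ 2 * y) = -(y * y) := by
        rw [hom]; linear_combination y * y * Complex.I_mul_I
      have f3 : om ^ 3 * y * (om ^ 3 * y) = -Complex.I * (y * y) := by
        have : om ^ 3 * y * (om ^ 3 * y) = (om ^ 2) ^ 3 * (y * y) := by ring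
        rw [this, hom]; linear_combination Complex.I * y * y * Complex.I_mul_I
      rw [f1, f2, f3]
      push_cast
      linear_combination 2 * (t : ℂ) ^ 2 * y ^ 4 * Complex.I_mul_I
    have e := integral_congr_ae (μ := volume) (Eventually.of_forall key)
    have k1 : Integrable fun y => W1 y ^ 2 + W1 (om * y) ^ 2 := int1.add i1
    have k2 : Integrable fun y => W1 y ^ 2 + W1 (om * y) ^ 2 + W1 (om ^ 2 * y) ^ 2 := k1.add i2
    rw [integral_add k2 i3, integral_add k1 i2, integral_add int1 i1,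
      j1, j2, j3, integral_const_mul, integral_complex_ofReal] at e
    linear_combination e / 4

end Pool.Agent.Lib.EUL
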