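import Pool.Agent.Lib.EUL.Blue

/-! Riemann sums of a convolution. -/

set_option autoImplicit false
set_option linter.unusedSectionVars false

namespace Pool.Agent.Lib.EUL

open MeasureTheory Set Filter Topology
open scoped ContDiff Classical ENNReal

namespace RIEM

variable {E : Type} [NormedAddCommGroup E] [NormedSpace ℝ E] [NormedSpace ℂ E]
  [IsScalarTower ℝ ℂ E] [CompleteSpace E]

/-- the `L¹` modulus of continuity -/
lemma shift {g : ℂ → E} (hg : ContDiff ℝ 1 g) (a b : ℂ) :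
    ∫⁻ y, ‖g (y - a) - g (y - b)‖ₑ ≤ ‖b - a‖ₑ * ∫⁻ y, ‖fderiv ℝ g y‖ₑ := by
  have hc : Continuous (fderiv ℝ g) := hg.continuous_fderiv (by simp)
  have hd : Differentiable ℝ g := hg.differentiable (by simp)
  have h1 : ∀ y, ‖g (y - a) - g (y - b)‖ₑ ≤
      ∫⁻ s in Ioc (0 : ℝ) 1, ‖b - a‖ₑ * ‖fderiv ℝ g (y - (b - s • (b - a)))‖ₑ := by
    intro y
    have hder : ∀ s ∈ uIcc (0 : ℝ) 1, HasDerivAt (fun s : ℝ => g (y - (b - s • (b - a))))
        (fderiv ℝ g (y - (b - s • (b - a))) (b - a)) s := by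
      intro s _
      have h2 : HasDerivAt (fun s : ℝ => y - (b - s • (b - a))) (b - a) s := by
        have := (((hasDerivAt_id s).smul_const (b - a)).const_sub b).const_sub y
        simpa using this
      exact (hd _).hasFDerivAt.comp_hasDerivAt s h2
    have hcont : Continuous fun s : ℝ => fderiv ℝ g (y - (b - s • (b - a))) (b - a) :=
      (hc.comp (by fun_prop)).clm_apply continuous_const
    have h3 := intervalIntegral.integral_eq_sub_of_hasDerivAt hder (hcont.intervalIntegrable _ _)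
    have e1 : y - (b - (1 : ℝ) • (b - a)) = y - a := by simp
    have e0 : y - (b - (0 : ℝ) • (b - a)) = y - b := by simp
    rw [e1, e0, intervalIntegral.integral_of_le zero_le_one] at h3
    rw [← h3]
    refine (enorm_integral_le_lintegral_enorm _).trans (lintegral_mono fun s => ?_)
    rw [mul_comm]
    exact ContinuousLinearMap.le_opENorm _ _
  refine (lintegral_mono h1).trans ?_
  have hm : Measurable (Function.uncurry fun (y : ℂ) (s : ℝ) =>
      ‖b - a‖ₑ * ‖fderiv ℝ g (y - (b - s • (b - a)))‖ₑ) := by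
    have : Continuous fun p : ℂ × ℝ => fderiv ℝ g (p.1 - (b - p.2 • (b - a))) :=
      hc.comp (by fun_prop)
    exact measurable_const.mul this.enorm.measurable
  rw [lintegral_lintegral_swap hm.aemeasurable]
  have h4 : ∀ s : ℝ, ∫⁻ y, ‖b - a‖ₑ * ‖fderiv ℝ g (y - (b - s • (b - a)))‖ₑ =
      ‖b - a‖ₑ * ∫⁻ y, ‖fderiv ℝ g y‖ₑ := by
    intro s
    rw [lintegral_const_mul' _ _ enorm_ne_top,
      lintegral_sub_right_eq_self (fun y => ‖fderiv ℝ g y‖ₑ)]
  simp only [h4]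
  simp

/-- one cell -/
lemma one_cell {β : ℂ → ℂ} {g : ℂ → E} (hβ : Continuous β) (hg : ContDiff ℝ 1 g)
    (hb : ∀ y, ‖β y‖ ≤ 1) {L r : ℝ} (hL : ∀ x y, ‖β x - β y‖ ≤ L * ‖x - y‖) (hL0 : 0 ≤ L)
    {Q : Set ℂ} (hQ : MeasurableSet Q) (c : ℂ) (hr : ∀ w ∈ Q, ‖w - c‖ ≤ r) :
    ∫⁻ y, ∫⁻ w in Q, ‖β c • g (y - c) - β w • g (y - w)‖ₑ ≤
      (ENNReal.ofReal (L * r) * (∫⁻ y, ‖g y‖ₑ) + ENNReal.ofReal r * ∫⁻ y, ‖fderiv ℝ g y‖ₑ) *
        volume Q := by
  have hgc := hg.continuous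
  have hm : Measurable (Function.uncurry fun (y : ℂ) (w : ℂ) =>
      ‖β c • g (y - c) - β w • g (y - w)‖ₑ) := by
    have : Continuous fun p : ℂ × ℂ => β c • g (p.1 - c) - β p.2 • g (p.1 - p.2) := by fun_prop
    exact this.enorm.measurable
  rw [lintegral_lintegral_swap hm.aemeasurable, ← setLIntegral_const]
  refine setLIntegral_mono' hQ fun w hw => ?_
  have h1 : ∀ y, ‖β c • g (y - c) - β w • g (y - w)‖ₑ ≤
      ENNReal.ofReal (L * r) * ‖g (y - c)‖ₑ + ‖g (y - c) - g (y - w)‖ₑ := by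
    intro y
    have e : β c • g (y - c) - β w • g (y - w) =
        (β c - β w) • g (y - c) + β w • (g (y - c) - g (y - w)) := by
      rw [sub_smul, smul_sub]; abel
    rw [e]
    refine (enorm_add_le _ _).trans (add_le_add ?_ ?_)
    · rw [enorm_smul]
      refine mul_le_mul_left ?_ _
      rw [← ofReal_norm]
      refine ENNReal.ofReal_le_ofReal ((hL _ _).trans (mul_le_mul_of_nonneg_left ?_ hL0))
      rw [norm_sub_rev]; exact hr w hw
    · rw [enorm_smul]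
      have : ‖β w‖ₑ ≤ 1 := by
        rw [← ofReal_norm]; exact ENNReal.ofReal_le_one.2 (hb w)
      exact (mul_le_mul_left this _).trans (one_mul _).le
  refine (lintegral_mono h1).trans ?_
  have hm1 : Measurable fun y => ENNReal.ofReal (L * r) * ‖g (y - c)‖ₑ := by
    have : Continuous fun y => g (y - c) := by fun_prop
    exact measurable_const.mul this.enorm.measurable
  rw [lintegral_add_left hm1, lintegral_const_mul' _ _ ENNReal.ofReal_ne_top,
    lintegral_sub_right_eq_self (fun y => ‖g y‖ₑ)]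
  refine add_le_add le_rfl ((shift hg c w).trans (mul_le_mul_left ?_ _))
  rw [← ofReal_norm]; exact ENNReal.ofReal_le_ofReal (hr w hw)

/-- the square with lower left corner `d n` -/
def sq (d : ℝ) (n : ℤ × ℤ) : Set ℂ :=
  Complex.measurableEquivRealProd ⁻¹'
    (Ico (d * n.1) (d * (n.1 + 1)) ×ˢ Ico (d * n.2) (d * (n.2 + 1)))

lemma mem_sq {d : ℝ} {n : ℤ × ℤ} {w : ℂ} : w ∈ sq d n ↔
    (d * n.1 ≤ w.re ∧ w.re < d * (n.1 + 1)) ∧ (d * n.2 ≤ w.im ∧ w.im < d * (n.2 + 1)) := by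
  simp [sq, Complex.measurableEquivRealProd_apply]

lemma meas_sq (d : ℝ) (n : ℤ × ℤ) : MeasurableSet (sq d n) :=
  Complex.measurableEquivRealProd.measurable (measurableSet_Ico.prod measurableSet_Ico)

lemma vol_sq {d : ℝ} (hd : 0 < d) (n : ℤ × ℤ) : volume (sq d n) = ENNReal.ofReal (d ^ 2) := by
  rw [sq, Complex.volume_preserving_equiv_real_prod.measure_preimage
    (measurableSet_Ico.prod measurableSet_Ico).nullMeasurableSet, Measure.volume_eq_prod,
    Measure.prod_prod, Real.volume_Ico, Real.volume_Ico, ← ENNReal.ofReal_mul (by nlinarith)]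
  congr 1; ring

lemma floor_eq {d x : ℝ} (hd : 0 < d) {m : ℤ} : (d * m ≤ x ∧ x < d * (m + 1)) ↔ ⌊x / d⌋ = m := by
  rw [Int.floor_eq_iff, le_div_iff₀ hd, div_lt_iff₀ hd, mul_comm d, mul_comm d]

lemma disj_sq {d : ℝ} (hd : 0 < d) {n m : ℤ × ℤ} (h : n ≠ m) : Disjoint (sq d n) (sq d m) := by
  refine Set.disjoint_left.2 fun w h1 h2 => h ?_
  rw [mem_sq, floor_eq hd, floor_eq hd] at h1 h2
  exact Prod.ext (h1.1.symm.trans h2.1) (h1.2.symm.trans h2.2)

lemma re_pt (d : ℝ) (n : ℤ × ℤ) : ((d : ℂ) * lat n).re = d * n.1 := by simp [lat]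

lemma im_pt (d : ℝ) (n : ℤ × ℤ) : ((d : ℂ) * lat n).im = d * n.2 := by simp [lat]

lemma near_sq {d : ℝ} {n : ℤ × ℤ} {w : ℂ} (hw : w ∈ sq d n) : ‖w - d * lat n‖ ≤ 2 * d := by
  obtain ⟨⟨h1, h2⟩, h3, h4⟩ := mem_sq.1 hw
  refine (Complex.norm_le_abs_re_add_abs_im _).trans ?_
  rw [Complex.sub_re, Complex.sub_im, re_pt, im_pt, abs_of_nonneg (by linarith),
    abs_of_nonneg (by linarith)]
  linarith

/-- the index set -/
noncomputable def box (N : ℕ) : Finset (ℤ × ℤ) :=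
  Finset.Ico (-(N : ℤ)) N ×ˢ Finset.Ico (-(N : ℤ)) N

lemma card_box (N : ℕ) : ((box N).card : ℝ) = (2 * N) ^ 2 := by
  have : ((N : ℤ) - -(N : ℤ)).toNat = 2 * N := by omega
  rw [box, Finset.card_product, Int.card_Ico, this]
  push_cast; ring

lemma floor_mem {d x : ℝ} (hd : 0 < d) {N : ℕ} (h : |x| < d * N) :
    ⌊x / d⌋ ∈ Finset.Ico (-(N : ℤ)) N := by
  obtain ⟨h1, h2⟩ := abs_lt.1 h
  rw [Finset.mem_Ico, Int.le_floor, Int.floor_lt, le_div_iff₀ hd, div_lt_iff₀ hd]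
  push_cast
  constructor <;> linarith

lemma cover {d : ℝ} (hd : 0 < d) {N : ℕ} {w : ℂ} (h : ‖w‖ < d * N) : w ∈ ⋃ n ∈ box N, sq d n := by
  refine mem_iUnion₂.2 ⟨(⌊w.re / d⌋, ⌊w.im / d⌋), Finset.mem_product.2
    ⟨floor_mem hd ((Complex.abs_re_le_norm w).trans_lt h),
      floor_mem hd ((Complex.abs_im_le_norm w).trans_lt h)⟩, ?_⟩
  rw [mem_sq, floor_eq hd, floor_eq hd]
  exact ⟨rfl, rfl⟩

/-- the error of the Riemann sum -/
noncomputable def TT (d : ℝ) (N : ℕ) (β : ℂ → ℂ) (g : ℂ → E) (y : ℂ) : E :=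
  ∑ n ∈ box N, ((d : ℂ) ^ 2 * β (d * lat n)) • g (y - d * lat n) - ∫ w, β w • g (y - w)

lemma TT_eq {d : ℝ} (hd : 0 < d) {N : ℕ} {β : ℂ → ℂ} {g : ℂ → E} (hβ : Continuous β)
    (hg : Continuous g) (hc : HasCompactSupport g) (hs : ∀ w, d * N ≤ ‖w‖ → β w = 0) (y : ℂ) :
    TT d N β g y = ∑ n ∈ box N,
      ∫ w in sq d n, (β (d * lat n) • g (y - d * lat n) - β w • g (y - w)) := by
  have hi : Integrable fun w => β w • g (y - w) := by
    refine Continuous.integrable_of_hasCompactSupport (by fun_prop) ?_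
    exact (hc.comp_homeomorph (Homeomorph.subLeft y)).smul_left
  have h1 : ∫ w, β w • g (y - w) = ∑ n ∈ box N, ∫ w in sq d n, β w • g (y - w) := by
    rw [← integral_biUnion_finset _ (fun n _ => meas_sq d n)
      (fun n _ m _ h => disj_sq hd h) (fun n _ => hi.integrableOn)]
    refine (setIntegral_eq_integral_of_forall_compl_eq_zero fun w hw => ?_).symm
    rw [hs w (not_lt.1 fun h => hw (cover hd h)), zero_smul]
  rw [TT, h1, ← Finset.sum_sub_distrib]
  refine Finset.sum_congr rfl fun n _ => ?_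
  have hfin : volume (sq d n) ≠ ⊤ := by rw [vol_sq hd]; exact ENNReal.ofReal_ne_top
  have hk : Integrable (fun _ : ℂ => β (d * lat n) • g (y - d * lat n))
      (volume.restrict (sq d n)) := integrableOn_const hfin
  rw [integral_sub hk hi.integrableOn, setIntegral_const, Measure.real,
    vol_sq hd, ENNReal.toReal_ofReal (sq_nonneg d), mul_smul, ← Complex.ofReal_pow]
  exact congrArg (· - _) (algebraMap_smul ℂ (d ^ 2) _)

lemma base {d : ℝ} (hd : 0 < d) {N : ℕ} {β : ℂ → ℂ} {g : ℂ → E} (hβ : Continuous β)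
    (hg : ContDiff ℝ 1 g) (hc : HasCompactSupport g) (hs : ∀ w, d * N ≤ ‖w‖ → β w = 0)
    (hb : ∀ y, ‖β y‖ ≤ 1) {L : ℝ} (hL : ∀ x y, ‖β x - β y‖ ≤ L * ‖x - y‖) (hL0 : 0 ≤ L) :
    ∫ y, ‖TT d N β g y‖ ≤
      (2 * N) ^ 2 * d ^ 2 * (2 * d) * (L * (∫ y, ‖g y‖) + ∫ y, ‖fderiv ℝ g y‖) := by
  have hgc := hg.continuous
  have i0 : Integrable g := hgc.integrable_of_hasCompactSupport hc
  have i1 : Integrable (fderiv ℝ g) :=
    (hg.continuous_fderiv (by simp)).integrable_of_hasCompactSupport (hc.fderiv ℝ)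
  have n0 : 0 ≤ ∫ y, ‖g y‖ := integral_nonneg fun _ => norm_nonneg _
  have n1 : 0 ≤ ∫ y, ‖fderiv ℝ g y‖ := integral_nonneg fun _ => norm_nonneg _
  have h1 : ∫⁻ y, ENNReal.ofReal ‖‖TT d N β g y‖‖ ≤ ∫⁻ y, ∑ n ∈ box N,
      ∫⁻ w in sq d n, ‖β (d * lat n) • g (y - d * lat n) - β w • g (y - w)‖ₑ := by
    refine lintegral_mono fun y => ?_
    rw [norm_norm, ofReal_norm, TT_eq hd hβ hgc hc hs]
    exact (enorm_sum_le _ _).trans
      (Finset.sum_le_sum fun n _ => enorm_integral_le_lintegral_enorm _)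
  have hm : ∀ n ∈ box N, Measurable fun y : ℂ =>
      ∫⁻ w in sq d n, ‖β (d * lat n) • g (y - d * lat n) - β w • g (y - w)‖ₑ := by
    intro n _
    have : Continuous fun p : ℂ × ℂ =>
        β (d * lat n) • g (p.1 - d * lat n) - β p.2 • g (p.1 - p.2) := by fun_prop
    exact this.enorm.measurable.lintegral_prod_right'
  rw [lintegral_finsetSum _ hm] at h1
  have h2 := h1.trans (Finset.sum_le_sum fun n _ =>
    one_cell hβ hg hb hL hL0 (meas_sq d n) (d * lat n) fun w hw => near_sq hw)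
  simp only [vol_sq hd] at h2
  rw [Finset.sum_const, ← ofReal_integral_norm_eq_lintegral_enorm i0,
    ← ofReal_integral_norm_eq_lintegral_enorm i1, ← ENNReal.ofReal_mul (by positivity),
    ← ENNReal.ofReal_mul (by positivity), ← ENNReal.ofReal_add (by positivity) (by positivity),
    ← ENNReal.ofReal_mul (by positivity), nsmul_eq_mul, ← ENNReal.ofReal_natCast,
    ← ENNReal.ofReal_mul (by positivity), card_box] at h2
  refine (Real.le_norm_self _).trans ((norm_integral_le_lintegral_norm _).trans ?_)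
  refine ENNReal.toReal_le_of_le_ofReal (by positivity) (h2.trans (le_of_eq ?_))
  congr 1; ring

lemma fderiv_TT (d : ℝ) (N : ℕ) {β : ℂ → ℂ} {g : ℂ → E} (hβ : Continuous β)
    (hg : ContDiff ℝ 1 g) (hc : HasCompactSupport g) :
    fderiv ℝ (TT d N β g) = TT d N β (fderiv ℝ g) := by
  funext y
  have hd : Differentiable ℝ g := hg.differentiable (by simp)
  have h1 := hc.hasFDerivAt_convolution_right (μ := volume) (ContinuousLinearMap.lsmul ℝ ℂ)
    hβ.locallyIntegrable hg y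
  have h2 : HasFDerivAt (fun y => ∫ w, β w • g (y - w)) (∫ w, β w • fderiv ℝ g (y - w)) y := h1
  have h3 : ∀ n ∈ box N, HasFDerivAt
      (fun y => ((d : ℂ) ^ 2 * β (d * lat n)) • g (y - d * lat n))
      (((d : ℂ) ^ 2 * β (d * lat n)) • fderiv ℝ g (y - d * lat n)) y := by
    intro n _
    have := ((hd (y - d * lat n)).hasFDerivAt.comp y ((hasFDerivAt_id y).sub_const (d * lat n)))
    rw [ContinuousLinearMap.comp_id] at this
    exact this.const_smul _
  exact ((HasFDerivAt.fun_sum h3).sub h2).fderiv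

end RIEM

open RIEM in
lemma RIEM.main {d : ℝ} (hd : 0 < d) {N : ℕ} {β : ℂ → ℂ} (hβ : Continuous β)
    (hs : ∀ w, d * N ≤ ‖w‖ → β w = 0)
    (hb : ∀ y, ‖β y‖ ≤ 1) {L : ℝ} (hL : ∀ x y, ‖β x - β y‖ ≤ L * ‖x - y‖) (hL0 : 0 ≤ L) (k : ℕ) :
    ∀ (E : Type) [NormedAddCommGroup E] [NormedSpace ℝ E] [NormedSpace ℂ E]
      [IsScalarTower ℝ ℂ E] [CompleteSpace E] (g : ℂ → E), ContDiff ℝ ∞ g → HasCompactSupport g →
      ∫ y, ‖iteratedFDeriv ℝ k (TT d N β g) y‖ ≤ (2 * N) ^ 2 * d ^ 2 * (2 * d) *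
        (L * (∫ y, ‖iteratedFDeriv ℝ k g y‖) + ∫ y, ‖iteratedFDeriv ℝ (k + 1) g y‖) := by
  induction k with
  | zero =>
    intro E _ _ _ _ _ g hg hc
    simp only [← norm_iteratedFDeriv_fderiv, norm_iteratedFDeriv_zero]
    exact base hd hβ (hg.of_le (by simp)) hc hs hb hL hL0
  | succ k ih =>
    intro E _ _ _ _ _ g hg hc
    have h := ih (ℂ →L[ℝ] E) (fderiv ℝ g) (hg.fderiv_right (by simp)) (hc.fderiv ℝ)
    rw [← fderiv_TT d N hβ (hg.of_le (by simp)) hc] at h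
    simp only [norm_iteratedFDeriv_fderiv] at h
    exact h

open RIEM in
theorem RIEM.fixed :
    ∃ C : ℝ, 1 ≤ C ∧ ∀ l d2 : ℝ, 0 < d2 → d2 ≤ l → ∃ A : Finset (ℤ × ℤ),
    (A.card : ℝ) ≤ C * l ^ 2 / d2 ^ 2 ∧ (∀ n ∈ A, ‖(d2 : ℂ) * lat n‖ ≤ 12 * l) ∧
    ∀ (β g : ℂ → ℂ) (L : ℝ) (k : ℕ), ContDiff ℝ ∞ β → ContDiff ℝ ∞ g → HasCompactSupport g →
      (∀ y, 6 * l < ‖y‖ → β y = 0) → (∀ y, ‖β y‖ ≤ 1) → (∀ y, nD 1 β y ≤ L) →
      ∫ y, nD k (fun y => ∑ n ∈ A, (d2 : ℂ) ^ 2 * β (d2 * lat n) * g (y - d2 * lat n)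
          - ∫ w, β w * g (y - w)) y
        ≤ C * l ^ 2 * d2 * (L * (∫ y, nD k g y) + ∫ y, nD (k + 1) g y) := by
  refine ⟨400, by norm_num, fun l d hd hl => ?_⟩
  set N : ℕ := ⌊6 * l / d⌋₊ + 1 with hN
  have hl0 : 0 < l := hd.trans_le hl
  have hN1 : 6 * l < d * N := by
    have := Nat.lt_floor_add_one (6 * l / d)
    rw [div_lt_iff₀ hd] at this
    rw [hN]; push_cast; linarith
  have hN2 : d * N ≤ 7 * l := by
    have := Nat.floor_le (a := 6 * l / d) (by positivity)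
    rw [le_div_iff₀ hd] at this
    rw [hN]; push_cast; linarith
  have hN0 : 0 ≤ d * N := by positivity
  have hsq : (d * N) ^ 2 ≤ (7 * l) ^ 2 := pow_le_pow_left₀ hN0 hN2 2
  refine ⟨box N, ?_, fun n hn => ?_, fun β g L k hβ hg hc hs hb hL => ?_⟩
  · rw [card_box, le_div_iff₀ (by positivity)]
    nlinarith [sq_nonneg l]
  · obtain ⟨h1, h2⟩ := Finset.mem_product.1 hn
    rw [Finset.mem_Ico] at h1 h2
    have a1 : |(n.1 : ℝ)| ≤ N := by
      rw [abs_le]; exact ⟨by exact_mod_cast h1.1, by exact_mod_cast h1.2.le⟩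
    have a2 : |(n.2 : ℝ)| ≤ N := by
      rw [abs_le]; exact ⟨by exact_mod_cast h2.1, by exact_mod_cast h2.2.le⟩
    have b1 : (d * n.1) ^ 2 ≤ (d * N) ^ 2 := by
      rw [mul_pow, mul_pow, ← sq_abs (n.1 : ℝ)]
      exact mul_le_mul_of_nonneg_left (pow_le_pow_left₀ (abs_nonneg _) a1 2) (sq_nonneg _)
    have b2 : (d * n.2) ^ 2 ≤ (d * N) ^ 2 := by
      rw [mul_pow, mul_pow, ← sq_abs (n.2 : ℝ)]
      exact mul_le_mul_of_nonneg_left (pow_le_pow_left₀ (abs_nonneg _) a2 2) (sq_nonneg _)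
    refine (pow_le_pow_iff_left₀ (norm_nonneg _) (by positivity) two_ne_zero).1 ?_
    rw [Complex.sq_norm, Complex.normSq_apply, re_pt, im_pt]
    nlinarith [sq_nonneg l]
  · have hL' : ∀ y, ‖fderiv ℝ β y‖ ≤ L := fun y => by
      have := hL y
      rwa [nD, norm_iteratedFDeriv_one] at this
    have hL0 : 0 ≤ L := (norm_nonneg _).trans (hL' 0)
    have hlip : ∀ x y, ‖β x - β y‖ ≤ L * ‖x - y‖ := fun x y =>
      convex_univ.norm_image_sub_le_of_norm_fderiv_le (𝕜 := ℝ)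
        (fun z _ => hβ.differentiable (by simp) z) (fun z _ => hL' z) (mem_univ y) (mem_univ x)
    have h := RIEM.main hd hβ.continuous (fun w hw => hs w (hN1.trans_le hw)) hb hlip hL0 k ℂ g hg hc
    refine le_trans (le_of_eq rfl) (h.trans (mul_le_mul_of_nonneg_right ?_ ?_))
    · nlinarith [mul_nonneg (sq_nonneg l) hd.le, mul_le_mul_of_nonneg_right hsq hd.le]
    · exact add_nonneg (mul_nonneg hL0 (integral_nonneg fun _ => norm_nonneg _))
        (integral_nonneg fun _ => norm_nonneg _)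

theorem st_RIEM : St_RIEM := RIEM.fixed

end Pool.Agent.Lib.EUL
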