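import Pool.Agent.Lib.EUL.Blue

/-! Block T3: a planar weak solution is a weak solution on the three-torus. -/

set_option autoImplicit false

namespace Pool.Agent.Lib.EUL

open MeasureTheory Set Filter Topology
open scoped ContDiff Classical

namespace T3

open MP_fea353_an (mu st pd IsTest WeakEuler)

/-- the point of the three-torus above `y` at height `s` -/
def emb (y : ℂ) (s : ℝ) : UnitAddTorus (Fin 3) :=
  fun i => ((![y.re, y.im, s] i : ℝ) : UnitAddCircle)

lemma meas_cell : MeasurableSet cell :=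
  (Complex.measurable_re measurableSet_Ioc).inter (Complex.measurable_im measurableSet_Ioc)

lemma circ (a : ℝ) : MeasurePreserving (fun x : ℝ => (x : UnitAddCircle))
    (volume.restrict (Ioc a (a + 1))) AddCircle.haarAddCircle := by
  have h := AddCircle.measurePreserving_mk (1 : ℝ) a
  rw [AddCircle.volume_eq_smul_haarAddCircle, ENNReal.ofReal_one, one_smul] at h
  exact h

lemma three : MeasurePreserving
    (fun x : (UnitAddCircle × UnitAddCircle) × UnitAddCircle =>
      (![x.1.1, x.1.2, x.2] : UnitAddTorus (Fin 3)))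
    (((AddCircle.haarAddCircle : Measure UnitAddCircle).prod AddCircle.haarAddCircle).prod
      AddCircle.haarAddCircle) mu := by
  have hm : Measurable (fun x : (UnitAddCircle × UnitAddCircle) × UnitAddCircle =>
      (![x.1.1, x.1.2, x.2] : UnitAddTorus (Fin 3))) := by
    refine measurable_pi_lambda _ fun i => ?_
    fin_cases i
    exacts [measurable_fst.fst, measurable_fst.snd, measurable_snd]
  refine ⟨hm, (Measure.pi_eq fun s hs => ?_).symm⟩
  have h : (fun x : (UnitAddCircle × UnitAddCircle) × UnitAddCircle =>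
      (![x.1.1, x.1.2, x.2] : UnitAddTorus (Fin 3))) ⁻¹' Set.pi univ s = (s 0 ×ˢ s 1) ×ˢ s 2 := by
    ext x
    simp [Fin.forall_fin_succ, and_assoc]
  rw [Measure.map_apply hm (MeasurableSet.univ_pi hs), h, Measure.prod_prod, Measure.prod_prod,
    Fin.prod_univ_three]

lemma cpx : MeasurePreserving (fun y : ℂ => (y.re, y.im)) (volume.restrict cell)
    ((volume.restrict (Ioc (-1 / 2 : ℝ) (-1 / 2 + 1))).prod
      (volume.restrict (Ioc (-1 / 2 : ℝ) (-1 / 2 + 1)))) := by
  have h := Complex.volume_preserving_equiv_real_prod.restrict_preimage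
    (s := Ioc (-1 / 2 : ℝ) (-1 / 2 + 1) ×ˢ Ioc (-1 / 2 : ℝ) (-1 / 2 + 1))
    (measurableSet_Ioc.prod measurableSet_Ioc)
  have h2 : Complex.measurableEquivRealProd ⁻¹'
      (Ioc (-1 / 2 : ℝ) (-1 / 2 + 1) ×ˢ Ioc (-1 / 2 : ℝ) (-1 / 2 + 1)) = cell := by
    ext p
    have e : (-1 / 2 : ℝ) + 1 = 1 / 2 := by norm_num
    rw [e]
    rfl
  rw [h2] at h
  rw [Measure.prod_restrict]
  exact h

lemma mp_emb : MeasurePreserving (fun x : ℂ × ℝ => emb x.1 x.2)
    ((volume.restrict cell).prod (volume.restrict (Ioc (0 : ℝ) (0 + 1)))) mu := by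
  have h := three.comp ((((circ (-1 / 2)).prod (circ (-1 / 2))).comp cpx).prod (circ 0))
  have e : (fun x : ℂ × ℝ => emb x.1 x.2) = (fun x : (UnitAddCircle × UnitAddCircle) ×
      UnitAddCircle => (![x.1.1, x.1.2, x.2] : UnitAddTorus (Fin 3))) ∘ Prod.map
      (Prod.map (fun x : ℝ => (x : UnitAddCircle)) (fun x : ℝ => (x : UnitAddCircle)) ∘
        fun y : ℂ => (y.re, y.im)) fun x : ℝ => (x : UnitAddCircle) := by
    funext x i
    fin_cases i <;> rfl
  rw [e]
  exact h

lemma mp_st : MeasurePreserving (fun x : (ℝ × ℂ) × ℝ => (x.1.1, emb x.1.2 x.2))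
    (m2.prod (volume.restrict (Ioc (0 : ℝ) (0 + 1)))) (st 1) :=
  ((MeasurePreserving.id (volume.restrict (Ioo (0 : ℝ) 1))).prod mp_emb).comp
    (measurePreserving_prodAssoc (volume.restrict (Ioo (0 : ℝ) 1)) (volume.restrict cell)
      (volume.restrict (Ioc (0 : ℝ) (0 + 1))))

instance : SFinite m2 := by unfold m2; infer_instance

instance : SFinite mu := by unfold mu; infer_instance

lemma int_eq {F : ℝ × UnitAddTorus (Fin 3) → ℝ} (hF : Integrable F (st 1)) :
    ∫ z, F z ∂(st 1) =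
      ∫ x, F (x.1.1, emb x.1.2 x.2) ∂(m2.prod (volume.restrict (Ioc (0 : ℝ) (0 + 1)))) := by
  have h := integral_map mp_st.measurable.aemeasurable (f := F)
    (by rw [mp_st.map_eq]; exact hF.aestronglyMeasurable)
  rw [mp_st.map_eq] at h
  exact h

lemma slice_zero (F : ℝ × UnitAddTorus (Fin 3) → ℝ)
    (h : ∀ s, ∫ z, F (z.1, emb z.2 s) ∂m2 = 0) : ∫ z, F z ∂(st 1) = 0 := by
  by_cases hF : Integrable F (st 1)
  · rw [int_eq hF, integral_prod_symm (fun x : (ℝ × ℂ) × ℝ => F (x.1.1, emb x.1.2 x.2))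
      (mp_st.integrable_comp_of_integrable hF)]
    simp only [h, integral_zero]
  · exact integral_undef hF

lemma fibre_zero (F : ℝ × UnitAddTorus (Fin 3) → ℝ)
    (h : ∀ z : ℝ × ℂ, ∫ s in Ioc (0 : ℝ) (0 + 1), F (z.1, emb z.2 s) = 0) :
    ∫ z, F z ∂(st 1) = 0 := by
  by_cases hF : Integrable F (st 1)
  · rw [int_eq hF, integral_prod (fun x : (ℝ × ℂ) × ℝ => F (x.1.1, emb x.1.2 x.2))
      (mp_st.integrable_comp_of_integrable hF)]
    simp only [h, integral_zero]
  · exact integral_undef hF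

lemma pr_emb {y : ℂ} (hy : y ∈ cell) (s : ℝ) : pr (emb y s) = y := by
  have e : (-1 / 2 : ℝ) + 1 = 1 / 2 := by norm_num
  have h : ∀ x : ℝ, x ∈ Ioc (-1 / 2 : ℝ) (1 / 2) →
      (AddCircle.equivIoc (1 : ℝ) (-1 / 2) (x : UnitAddCircle) : ℝ) = x := by
    intro x hx
    rw [AddCircle.equivIoc_coe_eq (e ▸ hx)]
  have h0 : emb y s 0 = (y.re : UnitAddCircle) := rfl
  have h1 : emb y s 1 = (y.im : UnitAddCircle) := rfl
  rw [pr, h0, h1, h _ hy.1, h _ hy.2, Complex.re_add_im]

lemma ae_cell : ∀ᵐ z ∂m2, z.2 ∈ cell :=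
  Measure.quasiMeasurePreserving_snd.ae (ae_restrict_mem meas_cell)

variable {ψ : ℝ → UnitAddTorus (Fin 3) → ℝ}

lemma smooth (h : IsTest 1 ψ) : ContDiff ℝ ∞ fun x : (ℝ × ℂ) × ℝ => ψ x.1.1 (emb x.1.2 x.2) := by
  have h1 : ContDiff ℝ ∞ fun x : (ℝ × ℂ) × ℝ =>
      ((x.1.1, ![x.1.2.re, x.1.2.im, x.2]) : ℝ × (Fin 3 → ℝ)) := by
    refine contDiff_fst.fst.prodMk (contDiff_pi.2 fun i => ?_)
    fin_cases i
    exacts [Complex.reCLM.contDiff.comp contDiff_fst.snd,
      Complex.imCLM.contDiff.comp contDiff_fst.snd, contDiff_snd]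
  exact h.1.comp h1

lemma int_coe (x : ℝ) (n : ℤ) : ((x + n : ℝ) : UnitAddCircle) = x := by
  rw [AddCircle.coe_add]
  have : ((n : ℝ) : UnitAddCircle) = 0 := by
    rw [AddCircle.coe_eq_zero_iff]
    exact ⟨n, by simp⟩
  rw [this, add_zero]

lemma emb_lat (y : ℂ) (s : ℝ) (n : ℤ × ℤ) : emb (y + lat n) s = emb y s := by
  funext i
  fin_cases i
  · have : (y + lat n).re = y.re + n.1 := by simp [lat]
    change (((y + lat n).re : ℝ) : UnitAddCircle) = y.re
    rw [this, int_coe]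
  · have : (y + lat n).im = y.im + n.2 := by simp [lat]
    change (((y + lat n).im : ℝ) : UnitAddCircle) = y.im
    rw [this, int_coe]
  · rfl

lemma emb_one (y : ℂ) : emb y (0 + 1) = emb y 0 := by
  funext i
  fin_cases i
  · rfl
  · rfl
  · change (((0 + 1 : ℝ)) : UnitAddCircle) = (0 : ℝ)
    simp

lemma test (h : IsTest 1 ψ) (s : ℝ) : Test fun t y => ψ t (emb y s) := by
  obtain ⟨a, b, ha, hb, hz⟩ := h.2
  refine ⟨⟨(smooth h).comp (contDiff_id.prodMk contDiff_const), fun t n y => ?_⟩, a, b, ha, hb,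
    fun t ht y => ?_⟩
  · simp only [emb_lat]
  · simp only [hz t ht, Pi.zero_apply]

lemma testC {g : ℝ → ℂ → ℝ} (h : Test g) (c : ℂ) : Test fun t y => c * (g t y : ℂ) := by
  obtain ⟨⟨h1, h2⟩, a, b, ha, hb, hz⟩ := h
  refine ⟨⟨contDiff_const.mul (Complex.ofRealCLM.contDiff.comp h1), fun t n y => ?_⟩, a, b, ha, hb,
    fun t ht y => ?_⟩
  · simp only [h2 t n y]
  · simp only [hz t ht y, Complex.ofReal_zero, mul_zero]

lemma diff_x {g : ℝ → ℂ → ℝ} (h : Test g) (t : ℝ) : Differentiable ℝ (g t) :=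
  (ContDiff.comp h.1.1 (contDiff_const.prodMk contDiff_id)).differentiable (by simp)

lemma diff_t {g : ℝ → ℂ → ℝ} (h : Test g) (y : ℂ) : Differentiable ℝ fun t => g t y :=
  (ContDiff.comp h.1.1 (contDiff_id.prodMk contDiff_const)).differentiable (by simp)

lemma line {g : ℂ → ℝ} (hg : Differentiable ℝ g) (y v : ℂ) :
    deriv (fun r : ℝ => g (y + r • v)) 0 = fderiv ℝ g y v :=
  (hg y).lineDeriv_eq_fderiv

lemma pd0 (h : IsTest 1 ψ) (t s : ℝ) (y : ℂ) :
    pd 0 (ψ t) (emb y s) = fderiv ℝ (fun w => ψ t (emb w s)) y 1 := by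
  rw [← line (diff_x (test h s) t), pd]
  congr 1
  funext r
  congr 1
  funext i
  fin_cases i <;> simp [emb]

lemma pd1 (h : IsTest 1 ψ) (t s : ℝ) (y : ℂ) :
    pd 1 (ψ t) (emb y s) = fderiv ℝ (fun w => ψ t (emb w s)) y Complex.I := by
  rw [← line (diff_x (test h s) t), pd]
  congr 1
  funext r
  congr 1
  funext i
  fin_cases i <;> simp [emb]

lemma pd2 (t s : ℝ) (y : ℂ) : pd 2 (ψ t) (emb y s) = deriv (fun r => ψ t (emb y r)) s := by
  have h := deriv_comp_const_add (fun r => ψ t (emb y r)) s 0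
  rw [add_zero] at h
  rw [← h, pd]
  congr 1
  funext r
  congr 1
  funext i
  fin_cases i <;> simp [emb]

lemma fd {g : ℂ → ℝ} (hg : Differentiable ℝ g) (c y v : ℂ) :
    fderiv ℝ (fun w => c * (g w : ℂ)) y v = c * (fderiv ℝ g y v : ℝ) := by
  have h := ((Complex.ofRealCLM.hasFDerivAt.comp y (hg y).hasFDerivAt).const_mul c).fderiv
  have e : (fun w => c * (g w : ℂ)) = fun w => c * (Complex.ofRealCLM ∘ g) w := rfl
  rw [e, h]
  simp

lemma dz_c {g : ℂ → ℝ} (hg : Differentiable ℝ g) (c y : ℂ) :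
    dz (fun w => c * (g w : ℂ)) y =
      c * ((fderiv ℝ g y 1 : ℝ) - Complex.I * (fderiv ℝ g y Complex.I : ℝ)) / 2 := by
  rw [dz, fd hg, fd hg]; ring

lemma grad_eq {g : ℂ → ℝ} (hg : Differentiable ℝ g) (y : ℂ) :
    grad g y = (fderiv ℝ g y 1 : ℝ) + Complex.I * (fderiv ℝ g y Complex.I : ℝ) := by
  have h := fd hg 1 y
  simp only [one_mul] at h
  rw [grad, dzb, h, h]; ring

lemma dt_c {g : ℝ → ℂ → ℝ} (h : Test g) (c : ℂ) (t : ℝ) (y : ℂ) :
    dt (fun t y => c * (g t y : ℂ)) t y = c * (deriv (fun s => g s y) t : ℝ) :=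
  ((diff_t h y t).hasDerivAt.ofReal_comp.const_mul c).deriv

lemma cj_c (g : ℂ → ℝ) (c : ℂ) :
    cj (fun w => c * (g w : ℂ)) = fun w => (starRingEnd ℂ) c * (g w : ℂ) := by
  funext w
  simp [cj]

end T3

open T3 in
theorem st_T3 (hPR : St_PR) : St_T3 := by
  intro u p H
  have hm : MeasurePreserving (fun z : ℝ × UnitAddTorus (Fin 3) => (z.1, pr z.2))
      (MP_fea353_an.st 1) m2 := (MeasurePreserving.id (volume.restrict (Ioo (0 : ℝ) 1))).prod hPR.1
  refine ⟨fun i => ?_, hm.integrable_comp_of_integrable H.p1, fun ψ hψ => ?_, fun ψ hψ i => ?_⟩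
  · have h := H.v2.comp_measurePreserving hm
    fin_cases i
    · exact h.re
    · exact h.im
    · exact MemLp.zero
  · refine slice_zero _ fun s => ?_
    refine (integral_congr_ae (ae_cell.mono fun z hz => ?_)).trans (H.div _ (test hψ s))
    simp only [Fin.sum_univ_three, pd0 hψ, pd1 hψ, liftU, pr_emb hz,
      grad_eq (diff_x (test hψ s) z.1)]
    simp
  · fin_cases i
    · refine slice_zero _ fun s => ?_
      refine (integral_congr_ae (ae_cell.mono fun z hz => ?_)).trans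
        (H.mom _ (testC (test hψ s) 1))
      simp only [Fin.sum_univ_three, Fin.zero_eta, pd0 hψ, pd1 hψ, liftU, pr_emb hz, cj_c,
        dz_c (diff_x (test hψ s) z.1), dt_c (test hψ s), Complex.sq_norm, Complex.normSq_apply]
      simp [pow_two]
      ring
    · refine slice_zero _ fun s => ?_
      refine (integral_congr_ae (ae_cell.mono fun z hz => ?_)).trans
        (H.mom _ (testC (test hψ s) Complex.I))
      simp only [Fin.sum_univ_three, Fin.mk_one, pd0 hψ, pd1 hψ, liftU, pr_emb hz, cj_c,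
        dz_c (diff_x (test hψ s) z.1), dt_c (test hψ s), Complex.sq_norm, Complex.normSq_apply]
      simp [pow_two]
      ring
    · refine fibre_zero _ fun z => ?_
      have hs : ContDiff ℝ ∞ fun r => ψ z.1 (emb z.2 r) :=
        (smooth hψ).comp (contDiff_const.prodMk contDiff_id)
      have h1 := intervalIntegral.integral_deriv_eq_sub (a := 0) (b := 0 + 1)
        (fun r _ => hs.differentiable (by simp) r)
        ((hs.continuous_deriv (by simp)).intervalIntegrable _ _)
      rw [emb_one, sub_self, intervalIntegral.integral_of_le (by norm_num)] at h1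
      have h2 : ∀ s, pr (emb z.2 s) = pr (emb z.2 0) := fun s => rfl
      have h3 : ∫ s in Ioc (0 : ℝ) (0 + 1),
          p z.1 (pr (emb z.2 0)) * deriv (fun r => ψ z.1 (emb z.2 r)) s = 0 := by
        rw [integral_const_mul, h1, mul_zero]
      refine (integral_congr_ae (Eventually.of_forall fun s => ?_)).trans h3
      simp [liftU, pd2, h2 s]

end Pool.Agent.Lib.EUL
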