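import Pool.Agent.Lib.EUL.Blue
import Pool.Agent.Lib.EUL.BasicA

set_option autoImplicit false

namespace Pool.Agent.Lib.EUL

open MeasureTheory Set Filter Topology
open scoped ContDiff Classical

noncomputable section

namespace WIT

/-- stopping interval -/
theorem stop {a : ℝ → ℝ} (ha : Continuous a) {t0 T thr : ℝ} (hT : 0 < T) (hthr : 0 < thr)
    (h : 2 * thr < ∫ t in (t0 - T)..(t0 + T), a t) :
    ∃ α β : ℝ, t0 - T ≤ α ∧ α ≤ t0 ∧ t0 ≤ β ∧ β ≤ t0 + T ∧ β - α ≤ T ∧ ∫ t in α..β, a t = thr := by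
  have hi : ∀ x y, IntervalIntegrable a volume x y := fun x y => ha.intervalIntegrable x y
  have hc : Continuous fun s => ∫ t in t0..s, a t := intervalIntegral.continuous_primitive hi t0
  have hsplit : (∫ t in (t0 - T)..t0, a t) + ∫ t in t0..(t0 + T), a t
      = ∫ t in (t0 - T)..(t0 + T), a t :=
    intervalIntegral.integral_add_adjacent_intervals (hi _ _) (hi _ _)
  by_cases h1 : thr ≤ ∫ t in t0..(t0 + T), a t
  · have h2 := intermediate_value_Icc (show t0 ≤ t0 + T by linarith) hc.continuousOn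
    obtain ⟨β, hβ, hβ2⟩ := h2 (show thr ∈ Icc (∫ t in t0..t0, a t) (∫ t in t0..(t0 + T), a t) from
      ⟨by rw [intervalIntegral.integral_same]; exact hthr.le, h1⟩)
    exact ⟨t0, β, by linarith, le_rfl, hβ.1, hβ.2, by linarith [hβ.2], hβ2⟩
  · have h2 := intermediate_value_Icc (show t0 - T ≤ t0 by linarith) hc.continuousOn
    have h3 : ∫ t in t0..(t0 - T), a t = -∫ t in (t0 - T)..t0, a t :=
      intervalIntegral.integral_symm _ _
    obtain ⟨α, hα, hα2⟩ := h2 (show -thr ∈ Icc (∫ t in t0..(t0 - T), a t) (∫ t in t0..t0, a t) from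
      ⟨by rw [h3]; linarith [not_le.1 h1], by rw [intervalIntegral.integral_same]; linarith⟩)
    refine ⟨α, t0, hα.1, hα.2, le_rfl, by linarith, by linarith [hα.1], ?_⟩
    have h4 : ∫ t in t0..α, a t = -thr := hα2
    rw [intervalIntegral.integral_symm, h4, neg_neg]

/-- two trajectories that are close at an unstopped time are close at the central time -/
theorem close (hAVG : St_AVG) (hGR : St_GR) {u : ℝ → ℂ → ℂ} {F : ℝ → ℂ → ℝ} {l Y : ℝ}
    (H : BoxIn u F l Y) {z x : ℝ → ℂ} (hz : ∀ t, HasDerivAt z (u t (z t)) t)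
    (hx : ∀ t, HasDerivAt x (u t (x t)) t) {α β s t0 T thr : ℝ} (hthr : 0 < thr)
    (hTt : T * thr ≤ 1 / 100) (hs : s ∈ Icc α β) (ht0 : t0 ∈ Icc α β) (hlen : β - α ≤ T)
    (hint : ∫ t in α..β, avg F 501 l t (z t) = thr) (hn : pn (x s - z s) ≤ 2 * l) :
    pn (x t0 - z t0) ≤ 4 * l := by
  obtain ⟨hu, -, hF, hP, hF0, -, hD, hl, hl1, -⟩ := H
  obtain ⟨a1, -, -, -, -, -, a7⟩ := hAVG F l hF hP hF0 hl hl1
  obtain ⟨n, -, hn2⟩ := exists_pn (x s - z s)
  have hzc : Continuous z := continuous_iff_continuousAt.2 fun t => (hz t).continuousAt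
  have hac : Continuous fun t => avg F 501 l t (z t) :=
    (a1 501).comp (continuous_id.prodMk hzc)
  have hGc : Continuous fun t => (avg F 501 l t (z t) / (10 * thr) + 10 * thr) / 2 := by
    fun_prop
  have hGi : ∫ t in α..β, (avg F 501 l t (z t) / (10 * thr) + 10 * thr) / 2
      = (1 / 10 + (β - α) * (10 * thr)) / 2 := by
    rw [intervalIntegral.integral_div, intervalIntegral.integral_add
      ((hac.div_const _).intervalIntegrable _ _) (continuous_const.intervalIntegrable _ _),
      intervalIntegral.integral_div, hint, intervalIntegral.integral_const, smul_eq_mul]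
    field_simp
  have hG1 : ∫ t in α..β, (avg F 501 l t (z t) / (10 * thr) + 10 * thr) / 2 ≤ 1 / 10 := by
    rw [hGi]
    have : (β - α) * thr ≤ T * thr := mul_le_mul_of_nonneg_right hlen hthr.le
    nlinarith
  have hb : 2 * l + (0 + 4 * l) * ∫ t in α..β, (avg F 501 l t (z t) / (10 * thr) + 10 * thr) / 2
      ≤ 3 * l := by nlinarith
  have key := hGR u z (fun t => x t - lat n) (fun _ => 0) (fun _ => 0)
    (fun t => (avg F 501 l t (z t) / (10 * thr) + 10 * thr) / 2) α β s (2 * l) 0 (4 * l) hu.1 hGc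
    continuous_const hz (fun t => hasDerivAt_const t 0)
    (fun t => by
      rw [add_zero, (hu.2 t).sub_lat n (x t)]
      exact (hx t).sub_const _)
    hs (by linarith) (fun t _ => by rw [norm_zero])
    (by
      have e : x s - lat n - z s - 0 = x s - z s - lat n := by ring
      rw [e, ← hn2]
      exact hn)
    (fun t _ y hy => by
      have h1 : nD 1 (u t) y ^ 2 ≤ avg F 501 l t (z t) :=
        a7 501 t (z t) y _ (by linarith) (fun w hw => hD t w y hw)
      have h2 : nD 1 (u t) y ^ 2 / (10 * thr) ≤ avg F 501 l t (z t) / (10 * thr) :=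
        div_le_div_of_nonneg_right h1 (by linarith)
      have h3 : nD 1 (u t) y ≤ (nD 1 (u t) y ^ 2 / (10 * thr) + 10 * thr) / 2 := by
        rw [le_div_iff₀ two_pos, div_add' _ _ _ (by linarith), le_div_iff₀ (by linarith)]
        nlinarith [sq_nonneg (nD 1 (u t) y - 10 * thr)]
      linarith)
    (by linarith) t0 ht0
  have e : x t0 - lat n - z t0 - 0 = x t0 - z t0 - lat n := by ring
  simp only [e] at key
  have := pn_le (x t0 - z t0) n
  linarith

theorem mult_of {ι : Type} [Fintype ι] {P Q : ι → Prop} {p q : ι → ℂ} {r r' M : ℝ}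
    (hM : Mult Q q r' M) (hQ : ∀ i, Q i)
    (h : ∀ i j y, P i → P j → pn (p i - y) ≤ r → pn (p j - y) ≤ r → pn (q i - q j) ≤ r') :
    Mult P p r M := by
  intro y
  rcases (Finset.univ.filter fun i => P i ∧ pn (p i - y) ≤ r).eq_empty_or_nonempty
    with he | ⟨i0, hi0⟩
  · rw [he]
    simpa using hM.nonneg
  · refine le_trans ?_ (hM (q i0))
    refine Nat.cast_le.2 (Finset.card_le_card fun i hi => ?_)
    rw [Finset.mem_filter] at hi hi0 ⊢
    exact ⟨Finset.mem_univ _, hQ i, h i i0 y hi.2.1 hi0.2.1 hi.2.2 hi0.2.2⟩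

theorem sum_ind {ι : Type} [Fintype ι] {P : ι → Prop} {f g : ι → ℝ} (h1 : ∀ i, P i → g i = f i)
    (h2 : ∀ i, ¬ P i → g i = 0) : ∑ i, g i = ∑ i ∈ Finset.univ.filter P, f i := by
  rw [Finset.sum_filter]
  refine Finset.sum_congr rfl fun i _ => ?_
  by_cases hi : P i
  · rw [h1 i hi, if_pos hi]
  · rw [h2 i hi, if_neg hi]

end WIT

open WIT in
theorem st_WIT (hAVG : St_AVG) (hGR : St_GR) (hPTS : St_PTS) : St_WIT := by
  refine ⟨8 * 502 ^ 2, by norm_num, ?_⟩
  intro u F l Y H ι _ X t0 T thr M hT hthr hTt hX hM hbig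
  have H' := H
  obtain ⟨hu, -, hF, hP, hF0, hY, hD, hl, hl1, hY0⟩ := H'
  obtain ⟨a1, a2, a3, a4, -, a6, -⟩ := hAVG F l hF hP hF0 hl hl1
  have hM0 : 0 ≤ M := hM.nonneg
  have hXc : ∀ i, Continuous (X i) := fun i =>
    continuous_iff_continuousAt.2 fun t => (hX i t).continuousAt
  have hac : ∀ i, Continuous fun t => avg F 501 l t (X i t) := fun i =>
    (a1 501).comp (continuous_id.prodMk (hXc i))
  choose α β h1 h2 h3 h4 h5 h6 using fun i => stop (hac i) hT hthr (hbig i)
  have hmult : ∀ s, Mult (fun i => s ∈ Ioc (α i) (β i)) (fun i => X i s) l M := by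
    intro s
    refine mult_of hM (fun _ => trivial) fun i i0 y hi hi0 hy hy0 => ?_
    refine close hAVG hGR H (hX i0) (hX i) hthr hTt (Ioc_subset_Icc_self hi0)
      ⟨h2 i0, h3 i0⟩ (h5 i0) (h6 i0) ?_
    have e1 := pn_triangle (X i s) y (X i0 s)
    have e2 := pn_sub_comm y (X i0 s)
    linarith
  have hpt : ∀ s, ∑ i, (Ioc (α i) (β i)).indicator (fun t => avg F 501 l t (X i t)) s
      ≤ M * (4 * 502 ^ 2 * Y) / l ^ 2 := by
    intro s
    have k1 := hPTS ι (fun i => s ∈ Ioc (α i) (β i)) (fun i => X i s) l M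
      (fun i => avg F 501 l s (X i s)) (avg F 502 l s) hl (by linarith) (hmult s)
      ((a1 502).comp (continuous_const.prodMk continuous_id)) (a2 502 s) (a3 502 s)
      (fun i _ x hx => by
        have e : (502 : ℝ) = 501 + 1 := by norm_num
        rw [e]
        refine a4 501 1 s _ _ ?_
        rw [one_mul, pn_sub_comm]
        exact (pn_le_norm _).trans hx)
    have k2 : IQ (avg F 502 l s) ≤ 4 * 502 ^ 2 * Y :=
      (a6 502 s (by norm_num)).trans (mul_le_mul_of_nonneg_left (hY s) (by norm_num))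
    have k3 := sum_ind (P := fun i => s ∈ Ioc (α i) (β i)) (f := fun i => avg F 501 l s (X i s))
      (g := fun i => (Ioc (α i) (β i)).indicator (fun t => avg F 501 l t (X i t)) s)
      (fun i hi => indicator_of_mem hi _) (fun i hi => indicator_of_notMem hi _)
    rw [k3, le_div_iff₀ (by positivity), mul_comm]
    exact k1.trans (mul_le_mul_of_nonneg_left k2 hM0)
  have hint : ∀ i, IntegrableOn ((Ioc (α i) (β i)).indicator fun t => avg F 501 l t (X i t))
      (Ioc (t0 - T) (t0 + T)) := fun i =>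
    ((hac i).integrableOn_Ioc).indicator measurableSet_Ioc
  have heq : ∀ i, ∫ s in Ioc (t0 - T) (t0 + T),
      (Ioc (α i) (β i)).indicator (fun t => avg F 501 l t (X i t)) s = thr := by
    intro i
    rw [setIntegral_indicator measurableSet_Ioc,
      inter_eq_right.2 (Ioc_subset_Ioc (h1 i) (h4 i)),
      ← intervalIntegral.integral_of_le ((h2 i).trans (h3 i))]
    exact h6 i
  have hsum : (Fintype.card ι : ℝ) * thr = ∫ s in Ioc (t0 - T) (t0 + T),
      ∑ i, (Ioc (α i) (β i)).indicator (fun t => avg F 501 l t (X i t)) s := by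
    rw [integral_finsetSum _ (fun i _ => hint i)]
    simp only [heq, Finset.sum_const, Finset.card_univ, nsmul_eq_mul]
  rw [hsum]
  have hle : ∫ s in Ioc (t0 - T) (t0 + T),
      ∑ i, (Ioc (α i) (β i)).indicator (fun t => avg F 501 l t (X i t)) s
      ≤ ∫ _s in Ioc (t0 - T) (t0 + T), M * (4 * 502 ^ 2 * Y) / l ^ 2 :=
    integral_mono (integrable_finsetSum _ fun i _ => hint i)
      (continuous_const.integrableOn_Ioc) hpt
  refine hle.trans (le_of_eq ?_)
  rw [← intervalIntegral.integral_of_le (by linarith), intervalIntegral.integral_const, smul_eq_mul]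
  ring

end

end Pool.Agent.Lib.EUL
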