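import Pool.Agent.Lib.EUL.Blue

set_option autoImplicit false

namespace Pool.Agent.Lib.EUL

open MeasureTheory Set Filter Topology
open scoped ContDiff Classical

namespace WK

theorem one_le_inf : (1 : WithTop ℕ∞) ≤ ∞ := by exact_mod_cast le_top

theorem inf_add_one : (∞ : WithTop ℕ∞) + 1 ≤ ∞ := by exact_mod_cast le_top

theorem two_le_inf : (2 : WithTop ℕ∞) ≤ ∞ :=
  WithTop.coe_le_coe.2 (le_top : (2 : ℕ∞) ≤ ⊤)

theorem diff {f : ℂ → ℂ} (hf : ContDiff ℝ ∞ f) (x : ℂ) : DifferentiableAt ℝ f x :=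
  (hf.differentiable (by simp)) x

theorem dz_add {f g : ℂ → ℂ} {x : ℂ} (hf : DifferentiableAt ℝ f x) (hg : DifferentiableAt ℝ g x) :
    dz (fun y => f y + g y) x = dz f x + dz g x := by
  unfold dz
  rw [fderiv_fun_add hf hg]
  simp only [add_apply]
  ring

theorem dzb_add {f g : ℂ → ℂ} {x : ℂ} (hf : DifferentiableAt ℝ f x) (hg : DifferentiableAt ℝ g x) :
    dzb (fun y => f y + g y) x = dzb f x + dzb g x := by
  unfold dzb
  rw [fderiv_fun_add hf hg]
  simp only [add_apply]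
  ring

theorem dz_sub {f g : ℂ → ℂ} {x : ℂ} (hf : DifferentiableAt ℝ f x) (hg : DifferentiableAt ℝ g x) :
    dz (fun y => f y - g y) x = dz f x - dz g x := by
  unfold dz
  rw [fderiv_fun_sub hf hg]
  simp only [sub_apply]
  ring

theorem dzb_sub {f g : ℂ → ℂ} {x : ℂ} (hf : DifferentiableAt ℝ f x) (hg : DifferentiableAt ℝ g x) :
    dzb (fun y => f y - g y) x = dzb f x - dzb g x := by
  unfold dzb
  rw [fderiv_fun_sub hf hg]
  simp only [sub_apply]
  ring

theorem dz_mul {f g : ℂ → ℂ} {x : ℂ} (hf : DifferentiableAt ℝ f x) (hg : DifferentiableAt ℝ g x) :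
    dz (fun y => f y * g y) x = dz f x * g x + f x * dz g x := by
  unfold dz
  rw [fderiv_fun_mul hf hg]
  simp only [add_apply, smul_apply, smul_eq_mul]
  ring

theorem dzb_mul {f g : ℂ → ℂ} {x : ℂ} (hf : DifferentiableAt ℝ f x) (hg : DifferentiableAt ℝ g x) :
    dzb (fun y => f y * g y) x = dzb f x * g x + f x * dzb g x := by
  unfold dzb
  rw [fderiv_fun_mul hf hg]
  simp only [add_apply, smul_apply, smul_eq_mul]
  ring

theorem dz_const (c x : ℂ) : dz (fun _ => c) x = 0 := by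
  unfold dz; simp

theorem dzb_const (c x : ℂ) : dzb (fun _ => c) x = 0 := by
  unfold dzb; simp

theorem dz_cmul (c : ℂ) {f : ℂ → ℂ} {x : ℂ} (hf : DifferentiableAt ℝ f x) :
    dz (fun y => c * f y) x = c * dz f x := by
  rw [dz_mul (differentiableAt_const c) hf, dz_const]; ring

theorem dzb_cmul (c : ℂ) {f : ℂ → ℂ} {x : ℂ} (hf : DifferentiableAt ℝ f x) :
    dzb (fun y => c * f y) x = c * dzb f x := by
  rw [dzb_mul (differentiableAt_const c) hf, dzb_const]; ring

theorem fderiv_cj {f : ℂ → ℂ} {x : ℂ} (hf : DifferentiableAt ℝ f x) (w : ℂ) :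
    fderiv ℝ (cj f) x w = (starRingEnd ℂ) (fderiv ℝ f x w) := by
  have h := (Complex.conjCLE.toContinuousLinearMap.hasFDerivAt (x := f x)).comp x hf.hasFDerivAt
  have e : cj f = (Complex.conjCLE.toContinuousLinearMap : ℂ → ℂ) ∘ f := by
    funext y; simp [cj]
  rw [e, h.fderiv]; simp

theorem dz_cj {f : ℂ → ℂ} {x : ℂ} (hf : DifferentiableAt ℝ f x) :
    dz (cj f) x = (starRingEnd ℂ) (dzb f x) := by
  unfold dz dzb
  rw [fderiv_cj hf, fderiv_cj hf]
  simp only [map_div₀, map_add, map_mul, Complex.conj_I, map_ofNat]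
  ring

theorem dzb_cj {f : ℂ → ℂ} {x : ℂ} (hf : DifferentiableAt ℝ f x) :
    dzb (cj f) x = (starRingEnd ℂ) (dz f x) := by
  unfold dz dzb
  rw [fderiv_cj hf, fderiv_cj hf]
  simp only [map_div₀, map_sub, map_mul, Complex.conj_I, map_ofNat]
  ring

theorem cd_cj {f : ℂ → ℂ} (hf : ContDiff ℝ ∞ f) : ContDiff ℝ ∞ (cj f) :=
  Complex.conjCLE.contDiff.comp hf

theorem cd_fd {f : ℂ → ℂ} (hf : ContDiff ℝ ∞ f) (w : ℂ) :
    ContDiff ℝ ∞ (fun x => fderiv ℝ f x w) :=
  (hf.fderiv_right inf_add_one).clm_apply contDiff_const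

theorem cd_dz {f : ℂ → ℂ} (hf : ContDiff ℝ ∞ f) : ContDiff ℝ ∞ (dz f) :=
  ((cd_fd hf 1).sub (contDiff_const.mul (cd_fd hf Complex.I))).div_const 2

theorem cd_dzb {f : ℂ → ℂ} (hf : ContDiff ℝ ∞ f) : ContDiff ℝ ∞ (dzb f) :=
  ((cd_fd hf 1).add (contDiff_const.mul (cd_fd hf Complex.I))).div_const 2

theorem fd_fd {E : Type} [NormedAddCommGroup E] [NormedSpace ℝ E] {f : E → ℂ}
    (hf : ContDiff ℝ ∞ f) (x w w' : E) :
    fderiv ℝ (fun y => fderiv ℝ f y w) x w' = fderiv ℝ (fderiv ℝ f) x w' w := by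
  have h1 : DifferentiableAt ℝ (fderiv ℝ f) x :=
    ((hf.fderiv_right inf_add_one).differentiable (by simp)) x
  rw [fderiv_clm_apply h1 (differentiableAt_const w)]
  simp

theorem fd_symm {E : Type} [NormedAddCommGroup E] [NormedSpace ℝ E] {f : E → ℂ}
    (hf : ContDiff ℝ ∞ f) (x w w' : E) :
    fderiv ℝ (fun y => fderiv ℝ f y w) x w' = fderiv ℝ (fun y => fderiv ℝ f y w') x w := by
  rw [fd_fd hf, fd_fd hf]
  exact (hf.contDiffAt.isSymmSndFDerivAt (by simpa using two_le_inf)) w' w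

theorem fderiv_dz {f : ℂ → ℂ} (hf : ContDiff ℝ ∞ f) (x w : ℂ) :
    fderiv ℝ (dz f) x w = (fderiv ℝ (fun y => fderiv ℝ f y 1) x w
      - Complex.I * fderiv ℝ (fun y => fderiv ℝ f y Complex.I) x w) / 2 := by
  have h1 := (diff (cd_fd hf 1) x).hasFDerivAt
  have h2 := (diff (cd_fd hf Complex.I) x).hasFDerivAt
  have h3 := (h1.sub (h2.const_mul Complex.I)).const_mul (1 / 2 : ℂ)
  have e : dz f = fun y => (1 / 2 : ℂ) * ((fun y => fderiv ℝ f y 1) -
      fun y => Complex.I * fderiv ℝ f y Complex.I) y := by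
    funext y; simp only [dz, Pi.sub_apply]; ring
  rw [e, h3.fderiv]
  simp only [smul_apply, sub_apply, smul_eq_mul]
  ring

theorem fderiv_dzb {f : ℂ → ℂ} (hf : ContDiff ℝ ∞ f) (x w : ℂ) :
    fderiv ℝ (dzb f) x w = (fderiv ℝ (fun y => fderiv ℝ f y 1) x w
      + Complex.I * fderiv ℝ (fun y => fderiv ℝ f y Complex.I) x w) / 2 := by
  have h1 := (diff (cd_fd hf 1) x).hasFDerivAt
  have h2 := (diff (cd_fd hf Complex.I) x).hasFDerivAt
  have h3 := (h1.add (h2.const_mul Complex.I)).const_mul (1 / 2 : ℂ)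
  have e : dzb f = fun y => (1 / 2 : ℂ) * ((fun y => fderiv ℝ f y 1) +
      fun y => Complex.I * fderiv ℝ f y Complex.I) y := by
    funext y; simp only [dzb, Pi.add_apply]; ring
  rw [e, h3.fderiv]
  simp only [smul_apply, add_apply, smul_eq_mul]
  ring

theorem dz_dzb {f : ℂ → ℂ} (hf : ContDiff ℝ ∞ f) (x : ℂ) : dz (dzb f) x = dzb (dz f) x := by
  have e1 : dz (dzb f) x = (fderiv ℝ (dzb f) x 1 - Complex.I * fderiv ℝ (dzb f) x Complex.I) / 2 :=
    rfl
  have e2 : dzb (dz f) x = (fderiv ℝ (dz f) x 1 + Complex.I * fderiv ℝ (dz f) x Complex.I) / 2 :=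
    rfl
  rw [e1, e2, fderiv_dz hf, fderiv_dz hf, fderiv_dzb hf, fderiv_dzb hf, fd_symm hf x 1 Complex.I]
  ring

theorem pe_fd {f : ℂ → ℂ} (hp : Peri f) (n : ℤ × ℤ) (z : ℂ) :
    fderiv ℝ f (z + lat n) = fderiv ℝ f z := by
  have e : (fun y => f (y + lat n)) = f := funext fun y => hp n y
  rw [← fderiv_comp_add_right, e]

theorem pe_dz {f : ℂ → ℂ} (hp : Peri f) : Peri (dz f) := fun n z => by
  unfold dz; rw [pe_fd hp]

theorem pe_dzb {f : ℂ → ℂ} (hp : Peri f) : Peri (dzb f) := fun n z => by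
  unfold dzb; rw [pe_fd hp]

theorem pe_cj {f : ℂ → ℂ} (hp : Peri f) : Peri (cj f) := fun n z => by
  unfold cj; rw [hp]

theorem sm_at {E : Type} [NormedAddCommGroup E] [NormedSpace ℝ E] {f : ℝ → ℂ → E} (hf : Sm f)
    (t : ℝ) : ContDiff ℝ ∞ (f t) :=
  ContDiff.comp (g := fun p : ℝ × ℂ => f p.1 p.2) (f := fun x : ℂ => (t, x)) hf
    (contDiff_const.prodMk contDiff_id)

theorem sm_at' {E : Type} [NormedAddCommGroup E] [NormedSpace ℝ E] {f : ℝ → ℂ → E} (hf : Sm f)
    (x : ℂ) : ContDiff ℝ ∞ (fun s => f s x) :=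
  ContDiff.comp (g := fun p : ℝ × ℂ => f p.1 p.2) (f := fun s : ℝ => (s, x)) hf
    (contDiff_id.prodMk contDiff_const)

theorem fd_at {f : ℝ → ℂ → ℂ} (hf : Sm f) (t : ℝ) (x w : ℂ) :
    fderiv ℝ (f t) x w = fderiv ℝ (fun p : ℝ × ℂ => f p.1 p.2) (t, x) (0, w) := by
  have h1 : HasFDerivAt (fun p : ℝ × ℂ => f p.1 p.2)
      (fderiv ℝ (fun p : ℝ × ℂ => f p.1 p.2) (t, x)) (t, x) :=
    ((ContDiff.differentiable hf (by simp)) (t, x)).hasFDerivAt
  have h2 := h1.comp x (hasFDerivAt_prodMk_right t x)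
  have e : f t = (fun p : ℝ × ℂ => f p.1 p.2) ∘ fun y => (t, y) := rfl
  rw [e, h2.fderiv]; simp

theorem hasDt {f : ℝ → ℂ → ℂ} (hf : Sm f) (t : ℝ) (x : ℂ) :
    HasDerivAt (fun s => f s x) (dt f t x) t :=
  (((sm_at' hf x).differentiable (by simp)) t).hasDerivAt

theorem dt_at {f : ℝ → ℂ → ℂ} (hf : Sm f) (t : ℝ) (x : ℂ) :
    dt f t x = fderiv ℝ (fun p : ℝ × ℂ => f p.1 p.2) (t, x) (1, 0) := by
  have h1 : HasFDerivAt (fun p : ℝ × ℂ => f p.1 p.2)
      (fderiv ℝ (fun p : ℝ × ℂ => f p.1 p.2) (t, x)) (t, x) :=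
    ((ContDiff.differentiable hf (by simp)) (t, x)).hasFDerivAt
  have h2 := (h1.comp t (hasFDerivAt_prodMk_left t x)).hasDerivAt
  have e : (fun s => f s x) = (fun p : ℝ × ℂ => f p.1 p.2) ∘ fun s => (s, x) := rfl
  unfold dt
  rw [e, h2.deriv]; simp

theorem sm_fd {f : ℝ → ℂ → ℂ} (hf : Sm f) (w : ℂ) : Sm (fun t x => fderiv ℝ (f t) x w) := by
  have e : (fun p : ℝ × ℂ => fderiv ℝ (f p.1) p.2 w) =
      fun p : ℝ × ℂ => fderiv ℝ (fun p : ℝ × ℂ => f p.1 p.2) p (0, w) := by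
    funext p; exact fd_at hf p.1 p.2 w
  unfold Sm
  rw [e]
  exact (ContDiff.fderiv_right hf inf_add_one).clm_apply contDiff_const

theorem sm_dt {f : ℝ → ℂ → ℂ} (hf : Sm f) : Sm (dt f) := by
  have e : (fun p : ℝ × ℂ => dt f p.1 p.2) =
      fun p : ℝ × ℂ => fderiv ℝ (fun p : ℝ × ℂ => f p.1 p.2) p (1, 0) := by
    funext p; exact dt_at hf p.1 p.2
  unfold Sm
  rw [e]
  exact (ContDiff.fderiv_right hf inf_add_one).clm_apply contDiff_const

theorem sm_dz {f : ℝ → ℂ → ℂ} (hf : Sm f) : Sm (fun t => dz (f t)) :=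
  (ContDiff.sub (sm_fd hf 1) (contDiff_const.mul (sm_fd hf Complex.I))).div_const 2

theorem sm_dzb {f : ℝ → ℂ → ℂ} (hf : Sm f) : Sm (fun t => dzb (f t)) :=
  (ContDiff.add (sm_fd hf 1) (contDiff_const.mul (sm_fd hf Complex.I))).div_const 2

theorem sm_cj {f : ℝ → ℂ → ℂ} (hf : Sm f) : Sm (fun t => cj (f t)) :=
  Complex.conjCLE.contDiff.comp hf

theorem fd_dt {f : ℝ → ℂ → ℂ} (hf : Sm f) (t : ℝ) (x w : ℂ) :
    fderiv ℝ (dt f t) x w = dt (fun s y => fderiv ℝ (f s) y w) t x := by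
  rw [fd_at (sm_dt hf), dt_at (sm_fd hf w)]
  have e1 : (fun p : ℝ × ℂ => dt f p.1 p.2) =
      fun p : ℝ × ℂ => fderiv ℝ (fun p : ℝ × ℂ => f p.1 p.2) p (1, 0) := by
    funext p; exact dt_at hf p.1 p.2
  have e2 : (fun p : ℝ × ℂ => fderiv ℝ (f p.1) p.2 w) =
      fun p : ℝ × ℂ => fderiv ℝ (fun p : ℝ × ℂ => f p.1 p.2) p (0, w) := by
    funext p; exact fd_at hf p.1 p.2 w
  rw [e1, e2]
  exact fd_symm hf _ _ _

theorem div_dt {v : ℝ → ℂ → ℂ} (hv : Sm v) (hd : DivF v) (t : ℝ) (x : ℂ) :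
    (dz (dt v t) x).re = 0 := by
  have h1 := hasDt (sm_fd hv 1) t x
  have h2 := hasDt (sm_fd hv Complex.I) t x
  have h3 : HasDerivAt (fun s => dz (v s) x) (dz (dt v t) x) t := by
    have h := (h1.sub (h2.const_mul Complex.I)).div_const 2
    have e : dz (dt v t) x = (dt (fun s y => fderiv ℝ (v s) y 1) t x
        - Complex.I * dt (fun s y => fderiv ℝ (v s) y Complex.I) t x) / 2 := by
      unfold dz; rw [fd_dt hv, fd_dt hv]
    rw [e]; exact h
  have h4 := (Complex.reCLM.hasFDerivAt (x := dz (v t) x)).comp_hasDerivAt t h3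
  have e : (Complex.reCLM : ℂ → ℝ) ∘ (fun s => dz (v s) x) = fun _ => 0 := by
    funext s; exact hd s x
  rw [e] at h4
  exact h4.unique (hasDerivAt_const t 0)

theorem pe_dt {f : ℝ → ℂ → ℂ} (hp : ∀ t, Peri (f t)) (t : ℝ) : Peri (dt f t) := fun n z => by
  unfold dt
  have e : (fun s => f s (z + lat n)) = fun s => f s z := funext fun s => hp s n z
  rw [e]

theorem meas_cell : MeasurableSet cell :=
  (Complex.measurable_re measurableSet_Ioc).inter (Complex.measurable_im measurableSet_Ioc)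

theorem cell_sub : cell ⊆ Metric.closedBall 0 1 := by
  intro z hz
  obtain ⟨⟨h1, h2⟩, h3, h4⟩ := hz
  rw [mem_closedBall_zero_iff]
  refine (Complex.norm_le_abs_re_add_abs_im z).trans ?_
  have a1 : |z.re| ≤ 1 / 2 := abs_le.2 ⟨by linarith, h2⟩
  have a2 : |z.im| ≤ 1 / 2 := abs_le.2 ⟨by linarith, h4⟩
  linarith

theorem int_cell {E : Type} [NormedAddCommGroup E] {f : ℂ → E} (hf : Continuous f) :
    IntegrableOn f cell :=
  (hf.continuousOn.integrableOn_compact (isCompact_closedBall 0 1)).mono_set cell_sub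

theorem m2_eq : m2 = (volume : Measure (ℝ × ℂ)).restrict (Ioo (0 : ℝ) 1 ×ˢ cell) := by
  unfold m2
  rw [Measure.prod_restrict]; rfl

theorem int_m2 {f : ℝ × ℂ → ℝ} (hf : Continuous f) : Integrable f m2 := by
  rw [m2_eq]
  exact (hf.continuousOn.integrableOn_compact
    ((isCompact_Icc (a := (0 : ℝ)) (b := 1)).prod (isCompact_closedBall (0 : ℂ) 1))).mono_set
    (prod_mono Ioo_subset_Icc_self cell_sub)

/-- a real part of a sum of total derivatives has zero integral -/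
theorem int_zero (hIBP : St_IBP) {F1 F2 : ℂ → ℂ} (h1 : ContDiff ℝ ∞ F1) (h2 : ContDiff ℝ ∞ F2)
    (p1 : Peri F1) (p2 : Peri F2) {g : ℂ → ℝ} (hg : ∀ x, g x = (dz F1 x + dzb F2 x).re) :
    ∫ x in cell, g x = 0 := by
  have i1 := int_cell (cd_dz h1).continuous
  have i2 := int_cell (cd_dzb h2).continuous
  have e : ∫ x in cell, g x = (∫ x in cell, (dz F1 x + dzb F2 x)).re := by
    rw [funext hg]
    exact integral_re (𝕜 := ℂ) (i1.add i2)
  rw [e, integral_add i1 i2, (hIBP.1 F1 (h1.of_le one_le_inf) p1).1,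
    (hIBP.1 F2 (h2.of_le one_le_inf) p2).2]
  simp

theorem space_zero {f : ℝ × ℂ → ℝ} (hf : Continuous f) (h : ∀ t, ∫ x in cell, f (t, x) = 0) :
    ∫ z, f z ∂m2 = 0 := by
  have hi := int_m2 hf
  unfold m2 at hi ⊢
  rw [integral_prod _ hi]
  simp [h]

theorem time_zero {f : ℝ × ℂ → ℝ} (hf : Continuous f) (g : ℝ → ℂ → ℝ)
    (hg : ∀ t x, HasDerivAt (fun s => g s x) (f (t, x)) t) (h0 : ∀ x, g 0 x = 0)
    (h1 : ∀ x, g 1 x = 0) : ∫ z, f z ∂m2 = 0 := by
  have hi := int_m2 hf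
  unfold m2 at hi ⊢
  rw [integral_prod_symm _ hi]
  have h : ∀ x : ℂ, ∫ t in Ioo (0 : ℝ) 1, f (t, x) = 0 := by
    intro x
    rw [← integral_Ioc_eq_integral_Ioo, ← intervalIntegral.integral_of_le zero_le_one,
      intervalIntegral.integral_eq_sub_of_hasDerivAt (fun t _ => hg t x)
        ((hf.comp (Continuous.prodMk_left x)).intervalIntegrable 0 1), h0, h1, sub_zero]
  simp [h]

/-- real potential of the gradient part of a test field -/
noncomputable def TT (K φ : ℂ → ℂ) (x : ℂ) : ℂ :=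
  (1 / 4 : ℂ) * (Cau K (cj φ) x + cj (Cau K (cj φ)) x)

/-- conjugate of the solenoidal part -/
noncomputable def AA (K φ : ℂ → ℂ) (x : ℂ) : ℂ := cj φ x - 2 * dz (TT K φ) x

noncomputable def XX (K φ : ℂ → ℂ) (x : ℂ) : ℂ := 2 * dz (AA K φ) x

theorem space_id (hCAU : St_CAU) (hIBP : St_IBP) {K : ℂ → ℂ} {CK : ℝ} (hK : IsKer K CK)
    {φ V W Q : ℂ → ℂ} (hφ : ContDiff ℝ ∞ φ) (hV : ContDiff ℝ ∞ V) (hW : ContDiff ℝ ∞ W)
    (hQ : ContDiff ℝ ∞ Q) (pφ : Peri φ) (pV : Peri V) (pW : Peri W) (pQ : Peri Q)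
    (hdiv : ∀ x, (dz W x).re = 0)
    (hG : IsG (fun x => W x + dz (fun y => V y ^ 2) x - 2 * dz Q x)) :
    ∫ x in cell, (-(W x * (starRingEnd ℂ) (φ x)).re + (V x ^ 2 * dz (cj φ) x).re
      + Pr K V x * (2 * (dz φ x).re) - (Q x * XX K φ x).re) = 0 := by
  obtain ⟨p, hp, pp, hpe⟩ := hG
  obtain ⟨-, -, hc, -⟩ := hCAU K CK hK
  have hB := cd_cj hφ
  have pB := pe_cj pφ
  obtain ⟨hGs, pG, -, -, hGd⟩ := hc (cj φ) hB pB
  have hV2 : ContDiff ℝ ∞ (fun y => V y ^ 2) := hV.pow 2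
  have pV2 : Peri (fun y => V y ^ 2) := fun n z => by simp only [pV n z]
  have hU := cd_cj hV2
  have pU := pe_cj pV2
  obtain ⟨hHs, pH, -, -, hHd⟩ := hc _ hU pU
  have hP : ContDiff ℝ ∞ (fun y => (p y : ℂ)) := Complex.ofRealCLM.contDiff.comp hp
  have pP : Peri (fun y => (p y : ℂ)) := fun n z => by simp only [pp n z]
  set G := Cau K (cj φ) with hGdef
  set U := cj (fun y => V y ^ 2) with hUdef
  set H := Cau K U with hHdef
  set T := TT K φ with hTdef
  set A := AA K φ with hAdef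
  have eT : T = fun x => (1 / 4 : ℂ) * (G x + cj G x) := rfl
  have eA : A = fun x => cj φ x - 2 * dz T x := rfl
  have hT : ContDiff ℝ ∞ T := by rw [eT]; exact contDiff_const.mul (hGs.add (cd_cj hGs))
  have pT : Peri T := fun n z => by rw [eT]; simp only [pG n z, pe_cj pG n z]
  have hA : ContDiff ℝ ∞ A := by rw [eA]; exact hB.sub (contDiff_const.mul (cd_dz hT))
  have pA : Peri A := fun n z => by rw [eA]; simp only [pB n z, pe_dz pT n z]
  have cT : cj T = T := by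
    funext x
    rw [eT]
    simp only [cj, map_mul, map_add, map_div₀, map_one, map_ofNat, Complex.conj_conj]
    ring
  have imT : ∀ x, (T x).im = 0 := fun x => Complex.conj_eq_iff_im.1 (congrFun cT x)
  have dzbT : dzb T = cj (dz T) := by
    funext x
    have h := dzb_cj (diff hT x)
    rw [cT] at h
    exact h
  have dG : dz G = fun x => cj φ x - ∫ y in cell, cj φ y := funext hGd
  have dH : dz H = fun x => U x - ∫ y in cell, U y := funext hHd
  have ddG : ∀ x, dz (dzb G) x = (starRingEnd ℂ) (dz φ x) := by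
    intro x
    rw [dz_dzb hGs, dG, dzb_sub (diff hB x) (differentiableAt_const _), dzb_const, sub_zero,
      dzb_cj (diff hφ x)]
  have ddH : ∀ x, dz (dzb H) x = dzb U x := by
    intro x
    rw [dz_dzb hHs, dH, dzb_sub (diff hU x) (differentiableAt_const _), dzb_const, sub_zero]
  have lapT : ∀ x, dz (dzb T) x = (((dz φ x).re / 2 : ℝ) : ℂ) := by
    intro x
    have e1 : dzb T = fun y => (1 / 4 : ℂ) * (dzb G y + cj (dz G) y) := by
      funext y
      rw [eT, dzb_cmul _ ((diff hGs y).fun_add (diff (cd_cj hGs) y)),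
        dzb_add (diff hGs y) (diff (cd_cj hGs) y), dzb_cj (diff hGs y)]
      rfl
    rw [e1, dz_cmul _ ((diff (cd_dzb hGs) x).fun_add (diff (cd_cj (cd_dz hGs)) x)),
      dz_add (diff (cd_dzb hGs) x) (diff (cd_cj (cd_dz hGs)) x), dz_cj (diff (cd_dz hGs) x),
      ← dz_dzb hGs, ddG]
    apply Complex.ext
    · simp; ring
    · simp
  have dA : ∀ x, dz A x = dz (cj φ) x - 2 * dz (dz T) x := by
    intro x
    rw [eA, dz_sub (diff hB x) ((diff (cd_dz hT) x).const_mul 2), dz_cmul _ (diff (cd_dz hT) x)]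
  have dbA : ∀ x, (dzb A x).re = 0 := by
    intro x
    rw [eA, dzb_sub (diff hB x) ((diff (cd_dz hT) x).const_mul 2), dzb_cmul _ (diff (cd_dz hT) x),
      ← dz_dzb hT, lapT, dzb_cj (diff hφ x)]
    simp
    ring
  have ddT : ∀ x, dzb (dzb T) x = (starRingEnd ℂ) (dz (dz T) x) := by
    intro x
    rw [dzbT, dzb_cj (diff (cd_dz hT) x)]
  refine int_zero hIBP
    (F1 := fun x => (-2) * (W x * T x) + V x ^ 2 * A x + (-2) * (Q x * A x)
      + (-2) * (dzb H x * dzb T x))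
    (F2 := fun x => (-2) * ((p x : ℂ) * A x) + 2 * (U x * dzb T x)) ?_ ?_ ?_ ?_ ?_
  · exact (((contDiff_const.mul (hW.mul hT)).add (hV2.mul hA)).add
      (contDiff_const.mul (hQ.mul hA))).add (contDiff_const.mul ((cd_dzb hHs).mul (cd_dzb hT)))
  · exact (contDiff_const.mul (hP.mul hA)).add (contDiff_const.mul (hU.mul (cd_dzb hT)))
  · intro n z
    simp only [pW n z, pT n z, pV n z, pA n z, pQ n z, pe_dzb pH n z, pe_dzb pT n z]
  · intro n z
    simp only [pp n z, pA n z, pU n z, pe_dzb pT n z]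
  · intro x
    have d1 := diff (hW.mul hT) x
    have d2 := diff (hV2.mul hA) x
    have d3 := diff (hQ.mul hA) x
    have d4 := diff ((cd_dzb hHs).mul (cd_dzb hT)) x
    have d5 := diff (hP.mul hA) x
    have d6 := diff (hU.mul (cd_dzb hT)) x
    rw [dz_add (((d1.const_mul _).fun_add d2).fun_add (d3.const_mul _)) (d4.const_mul _),
      dz_add ((d1.const_mul _).fun_add d2) (d3.const_mul _), dz_add (d1.const_mul _) d2,
      dz_cmul _ d1, dz_cmul _ d3, dz_cmul _ d4, dzb_add (d5.const_mul _) (d6.const_mul _),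
      dzb_cmul _ d5, dzb_cmul _ d6, dz_mul (diff hW x) (diff hT x), dz_mul (diff hV2 x) (diff hA x),
      dz_mul (diff hQ x) (diff hA x), dz_mul (diff (cd_dzb hHs) x) (diff (cd_dzb hT) x),
      dzb_mul (diff hP x) (diff hA x), dzb_mul (diff hU x) (diff (cd_dzb hT) x), ddH, lapT, ddT]
    have e1 : XX K φ x = 2 * dz A x := rfl
    have e2 : Pr K V x = -(1 / 2) * (dzb H x).re := rfl
    have e3 : (starRingEnd ℂ) (φ x) = A x + 2 * dz T x := by
      rw [eA]; simp only [cj]; ring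
    have e4 : dz (cj φ) x = dz A x + 2 * dz (dz T) x := by rw [dA]; ring
    have e5 : U x = (starRingEnd ℂ) (V x ^ 2) := rfl
    have e6 : W x = 2 * dzb (fun y => (p y : ℂ)) x - dz (fun y => V y ^ 2) x + 2 * dz Q x := by
      have h := hpe x
      simp only [grad] at h
      rw [← h]; ring
    have e7 := hdiv x
    have e8 := imT x
    have e9 := dbA x
    rw [e1, e2, e3, e4, e5]
    generalize V x ^ 2 = s at *
    generalize dz (dz T) x = r at *
    have key : (-(W x * (A x + 2 * dz T x)) + s * (dz A x + 2 * r)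
        + (-(dzb H x) * (((dz φ x).re : ℝ) : ℂ)) - Q x * (2 * dz A x)) =
        (-2 * (dz W x * T x + W x * dz T x) + (dz (fun y => V y ^ 2) x * A x + s * dz A x)
          + -2 * (dz Q x * A x + Q x * dz A x)
          + -2 * (dzb U x * dzb T x + dzb H x * (((dz φ x).re / 2 : ℝ) : ℂ))
          + (-2 * (dzb (fun y => (p y : ℂ)) x * A x + (p x : ℂ) * dzb A x)
            + 2 * (dzb U x * dzb T x + (starRingEnd ℂ) s * (starRingEnd ℂ) r)))
        + 2 * (dz W x * T x) + 2 * ((p x : ℂ) * dzb A x)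
        + 2 * (s * r - (starRingEnd ℂ) s * (starRingEnd ℂ) r) := by
      rw [e6]; push_cast; ring
    have k2 := congrArg Complex.re key
    have z1 : (2 * (dz W x * T x)).re = 0 := by simp [e7, e8]
    have z2 : (2 * ((p x : ℂ) * dzb A x)).re = 0 := by simp [e9]
    have z3 : (2 * (s * r - (starRingEnd ℂ) s * (starRingEnd ℂ) r)).re = 0 := by simp
    rw [Complex.add_re, Complex.add_re, Complex.add_re _ (2 * (dz W x * T x)), z1, z2, z3] at k2
    rw [add_zero, add_zero, add_zero] at k2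
    rw [← k2]
    simp only [Complex.sub_re, Complex.add_re, Complex.neg_re, neg_mul, Complex.re_mul_ofReal]
    ring

theorem re_mul_cj {f g : ℝ → ℂ} {f' g' : ℂ} {t : ℝ} (hf : HasDerivAt f f' t)
    (hg : HasDerivAt g g' t) : HasDerivAt (fun s => (f s * (starRingEnd ℂ) (g s)).re)
      ((f' * (starRingEnd ℂ) (g t)).re + (f t * (starRingEnd ℂ) g').re) t := by
  have h2 : HasDerivAt (fun s => (starRingEnd ℂ) (g s)) ((starRingEnd ℂ) g') t :=
    (Complex.conjCLE.toContinuousLinearMap.hasFDerivAt (x := g t)).comp_hasDerivAt t hg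
  have h3 := hf.fun_mul h2
  rw [← Complex.add_re]
  exact (Complex.reCLM.hasFDerivAt (x := f t * (starRingEnd ℂ) (g t))).comp_hasDerivAt t h3

/-- clamp to the interval from minus one to one -/
def cl (r : ℝ) : ℝ := max (-1) (min 1 r)

theorem cl_cont : Continuous cl := continuous_const.max (continuous_const.min continuous_id)

theorem cl_abs (r : ℝ) : |cl r| ≤ 1 :=
  abs_le.2 ⟨le_max_left _ _, max_le (by norm_num) (min_le_left _ _)⟩

theorem cl_eq {r : ℝ} (h1 : -1 ≤ r) (h2 : r ≤ 1) : cl r = r := by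
  unfold cl; rw [min_eq_right h2, max_eq_right h1]

def clz (x : ℂ) : ℂ := (cl x.re : ℂ) + (cl x.im : ℂ) * Complex.I

theorem clz_cont : Continuous clz :=
  (Complex.continuous_ofReal.comp (cl_cont.comp Complex.continuous_re)).add
    ((Complex.continuous_ofReal.comp (cl_cont.comp Complex.continuous_im)).mul continuous_const)

theorem clz_norm (x : ℂ) : ‖clz x‖ ≤ 2 := by
  refine (norm_add_le _ _).trans ?_
  rw [norm_mul, Complex.norm_I, mul_one, Complex.norm_real, Complex.norm_real, Real.norm_eq_abs,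
    Real.norm_eq_abs]
  linarith [cl_abs x.re, cl_abs x.im]

theorem clz_eq {x : ℂ} (hx : x ∈ cell) : clz x = x := by
  obtain ⟨⟨h1, h2⟩, h3, h4⟩ := hx
  unfold clz
  rw [cl_eq (by linarith) (by linarith), cl_eq (by linarith) (by linarith)]
  exact Complex.re_add_im x

end WK

open WK in
theorem st_WK (hCAU : St_CAU) (hIBP : St_IBP) : St_WK := by
  intro K CK hK
  have hre : ∀ {f : ℝ → ℂ → ℂ}, Sm f → Continuous (fun z : ℝ × ℂ => (f z.1 z.2).re) :=
    fun hf => Complex.continuous_re.comp (ContDiff.continuous hf)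
  constructor
  · intro ψ v hψ hv hd
    have hΨ : Sm (fun t x => (ψ t x : ℂ)) := Complex.ofRealCLM.contDiff.comp hψ.1.1
    have hc : Sm (fun t x => v t x * (starRingEnd ℂ) (grad (ψ t) x)) :=
      ContDiff.mul hv.1 (sm_cj (f := fun t x => grad (ψ t) x) (contDiff_const.mul (sm_dzb hΨ)))
    refine space_zero (hre hc) fun t => ?_
    have h1 := sm_at hΨ t
    have h2 := sm_at hv.1 t
    refine int_zero hIBP (F1 := fun x => 2 * (v t x * (ψ t x : ℂ))) (F2 := fun _ => 0)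
      (contDiff_const.mul (h2.mul h1)) contDiff_const
      (fun n z => by simp only [hv.2 t n z, hψ.1.2 t n z]) (fun _ _ => rfl) fun x => ?_
    have c1 : cj (fun y => (ψ t y : ℂ)) = fun y => (ψ t y : ℂ) := by
      funext y; simp [cj]
    have c2 := dz_cj (diff h1 x)
    rw [c1] at c2
    rw [dzb_const, add_zero, dz_cmul _ (diff (h2.mul h1) x), dz_mul (diff h2 x) (diff h1 x), c2]
    have e := hd t x
    simp only [grad, map_mul, map_ofNat]
    generalize (starRingEnd ℂ) (dzb (fun y => (ψ t y : ℂ)) x) = s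
    simp [e]
    ring
  · intro Φ hΦ
    obtain ⟨⟨sΦ, pΦ⟩, a, b, ha, hb, hts⟩ := hΦ
    have hc := (hCAU K CK hK).2.1
    have sG := (hc (fun t => cj (Φ t)) ⟨sm_cj sΦ, fun t => pe_cj (pΦ t)⟩).1.1
    have sT : Sm (fun t => TT K (Φ t)) := contDiff_const.mul (ContDiff.add sG (sm_cj sG))
    have sA : Sm (fun t => AA K (Φ t)) := ContDiff.sub (sm_cj sΦ) (contDiff_const.mul (sm_dz sT))
    have sX : Sm (fun t => XX K (Φ t)) := contDiff_const.mul (sm_dz sA)
    have cX : Continuous (fun z : ℝ × ℂ => XX K (Φ z.1) z.2) := ContDiff.continuous sX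
    obtain ⟨B, hB⟩ := ((isCompact_Icc (a := (-1 : ℝ)) (b := 1)).prod
      (isCompact_closedBall (0 : ℂ) 2)).exists_bound_of_continuousOn cX.continuousOn
    refine ⟨fun t x => XX K (Φ (cl t)) (clz x), B, ?_, ?_, ?_⟩
    · exact Continuous.comp (g := fun z : ℝ × ℂ => XX K (Φ z.1) z.2)
        (f := fun z : ℝ × ℂ => (cl z.1, clz z.2)) cX
        ((cl_cont.comp continuous_fst).prodMk (clz_cont.comp continuous_snd))
    · intro t x
      exact hB (cl t, clz x) ⟨abs_le.1 (cl_abs t), mem_closedBall_zero_iff.2 (clz_norm x)⟩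
    · intro v q hER
      obtain ⟨⟨sv, pv⟩, ⟨sq, pq⟩, hd, hg⟩ := hER
      have e0 : ∫ z, (q z.1 z.2 * XX K (Φ (cl z.1)) (clz z.2)).re ∂m2 =
          ∫ z, (q z.1 z.2 * XX K (Φ z.1) z.2).re ∂m2 := by
        rw [m2_eq]
        refine setIntegral_congr_fun (measurableSet_Ioo.prod meas_cell) fun z hz => ?_
        rw [cl_eq (by linarith [hz.1.1]) hz.1.2.le, clz_eq hz.2]
      rw [e0]
      have s2 : Sm (fun t x => v t x ^ 2) := ContDiff.pow sv 2
      have sH := (hc (fun t => cj (fun y => v t y ^ 2))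
        ⟨sm_cj s2, fun t => pe_cj (fun n z => by simp only [pv t n z])⟩).1.1
      have c1 := hre (f := fun t x => v t x * (starRingEnd ℂ) (dt Φ t x))
        (ContDiff.mul sv (sm_cj (sm_dt sΦ)))
      have c2 := hre (f := fun t x => dt v t x * (starRingEnd ℂ) (Φ t x))
        (ContDiff.mul (sm_dt sv) (sm_cj sΦ))
      have c3 := hre (f := fun t x => v t x ^ 2 * dz (cj (Φ t)) x)
        (ContDiff.mul s2 (sm_dz (sm_cj sΦ)))
      have c4 : Continuous (fun z : ℝ × ℂ => Pr K (v z.1) z.2 * (2 * (dz (Φ z.1) z.2).re)) :=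
        (continuous_const.mul (hre (sm_dzb sH))).mul (continuous_const.mul (hre (sm_dz sΦ)))
      have c5 := hre (f := fun t x => q t x * XX K (Φ t) x) (ContDiff.mul sq sX)
      have t0 := time_zero (c2.add c1) (fun t x => (v t x * (starRingEnd ℂ) (Φ t x)).re)
        (fun t x => re_mul_cj (hasDt sv t x) (hasDt sΦ t x))
        (fun x => by rw [hts 0 (fun h => by linarith [h.1]) x]; simp)
        (fun x => by rw [hts 1 (fun h => by linarith [h.2]) x]; simp)
      have t1 := space_zero (((c2.neg.add c3).add c4).sub c5) (fun t =>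
        space_id hCAU hIBP hK (sm_at sΦ t) (sm_at sv t) (sm_at (sm_dt sv) t) (sm_at sq t) (pΦ t)
          (pv t) (pe_dt pv t) (pq t) (div_dt sv hd t) (hg t))
      have i0 := int_m2 (c2.add c1)
      have i1 := int_m2 (((c2.neg.add c3).add c4).sub c5)
      have i5 := int_m2 c5
      have e1 := integral_add (i0.add i1) i5
      rw [integral_add' i0 i1, t0, t1, zero_add, zero_add] at e1
      rw [← e1]
      refine integral_congr_ae (Eventually.of_forall fun z => ?_)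
      simp only [Pi.add_apply, Pi.sub_apply, Pi.neg_apply]
      ring

end Pool.Agent.Lib.EUL
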