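import Pool.Agent.Lib.MP_fea353_an.Defs

/-! Time rescaling of weak solutions, and the passage to an arbitrary time interval. -/

set_option autoImplicit false

namespace Pool.Agent.Lib.EUL.Scale

open MeasureTheory Set Filter Pool.Agent.Lib.MP_fea353_an
open scoped ContDiff ENNReal

instance : SFinite mu := by unfold mu; infer_instance

/-- dilation of time -/
noncomputable def dil (T : ℝ) (hT : T ≠ 0) : ℝ × T3 ≃ᵐ ℝ × T3 :=
  (MeasurableEquiv.mulLeft₀ T hT).prodCongr (MeasurableEquiv.refl T3)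

theorem dil_apply (T : ℝ) (hT : T ≠ 0) (z : ℝ × T3) : dil T hT z = (T * z.1, z.2) := rfl

theorem map_time {T : ℝ} (hT : 0 < T) :
    volume.restrict (Ioo (0 : ℝ) T)
      = ENNReal.ofReal T • Measure.map (fun s : ℝ => T * s) (volume.restrict (Ioo (0 : ℝ) 1)) := by
  have h1 : (fun s : ℝ => T * s) ⁻¹' Ioo 0 T = Ioo (0 : ℝ) 1 := by
    ext s
    simp only [mem_preimage, mem_Ioo]
    constructor
    · rintro ⟨a, b⟩
      exact ⟨pos_of_mul_pos_of_pos' a hT, by nlinarith⟩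
    · rintro ⟨a, b⟩
      exact ⟨mul_pos hT a, by nlinarith⟩
  rw [← h1, ← Measure.restrict_map (measurable_const_mul T) measurableSet_Ioo,
    Real.map_volume_mul_left hT.ne', Measure.restrict_smul, smul_smul, ← ENNReal.ofReal_mul hT.le,
    abs_of_pos (inv_pos.2 hT), mul_inv_cancel₀ hT.ne', ENNReal.ofReal_one, one_smul]
  where
  pos_of_mul_pos_of_pos' {T s : ℝ} (a : 0 < T * s) (hT : 0 < T) : 0 < s := by
    by_contra h
    nlinarith [not_lt.1 h]

theorem st_eq {T : ℝ} (hT : 0 < T) :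
    st T = ENNReal.ofReal T • Measure.map (dil T hT.ne') (st 1) := by
  unfold st
  rw [map_time hT, Measure.prod_smul_left]
  have h := Measure.map_prod_map (volume.restrict (Ioo (0 : ℝ) 1)) mu (measurable_const_mul T)
    (measurable_id (α := T3))
  rw [Measure.map_id] at h
  rw [h]
  rfl

theorem integral_st {T : ℝ} (hT : 0 < T) (F : ℝ × T3 → ℝ) :
    ∫ z, F z ∂(st T) = T * ∫ z, F (T * z.1, z.2) ∂(st 1) := by
  rw [st_eq hT, integral_smul_measure, integral_map_equiv, ENNReal.toReal_ofReal hT.le, smul_eq_mul]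
  rfl

theorem memLp_st {T : ℝ} (hT : 0 < T) {F : ℝ × T3 → ℝ} {r : ℝ≥0∞}
    (h : MemLp (fun z : ℝ × T3 => F (T * z.1, z.2)) r (st 1)) : MemLp F r (st T) := by
  rw [st_eq hT]
  exact ((dil T hT.ne').memLp_map_measure_iff.2 h).smul_measure ENNReal.ofReal_ne_top

theorem test_scale {T : ℝ} (hT : 0 < T) {ψ : ℝ → T3 → ℝ} (h : IsTest T ψ) :
    IsTest 1 (fun s => ψ (T * s)) := by
  obtain ⟨h1, a, b, ha, hb, h2⟩ := h
  refine ⟨h1.comp ((contDiff_const.mul contDiff_fst).prodMk contDiff_snd), a / T, b / T,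
    div_pos ha hT, (div_lt_one hT).2 hb, fun s hs => h2 _ fun hh => hs ⟨?_, ?_⟩⟩
  · rw [div_le_iff₀ hT]; linarith [hh.1]
  · rw [le_div_iff₀ hT]; linarith [hh.2]

theorem weak_scale {T : ℝ} (hT : 0 < T) {v : ℝ → T3 → Fin 3 → ℝ} {p : ℝ → T3 → ℝ}
    (h : WeakEuler 1 v p) :
    WeakEuler T (fun t x i => T⁻¹ * v (T⁻¹ * t) x i) (fun t x => T⁻¹ ^ 2 * p (T⁻¹ * t) x) := by
  have e : ∀ s : ℝ, T⁻¹ * (T * s) = s := fun s => by field_simp
  refine ⟨fun i => memLp_st hT ?_, ?_, fun ψ hψ => ?_, fun ψ hψ i => ?_⟩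
  · simp only [e]
    exact (h.memL2 i).const_mul _
  · rw [← memLp_one_iff_integrable]
    refine memLp_st hT ?_
    simp only [e]
    exact (memLp_one_iff_integrable.2 h.pInt).const_mul _
  · rw [integral_st hT]
    simp only [e, mul_assoc, ← Finset.mul_sum]
    rw [integral_const_mul, h.divFree _ (test_scale hT hψ)]
    simp
  · rw [integral_st hT]
    simp only [e]
    have h0 := h.momentum _ (test_scale hT hψ) i
    have h1 : ∀ z : ℝ × T3, T⁻¹ * v z.1 z.2 i * deriv (fun t => ψ t z.2) (T * z.1)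
        + ∑ j, T⁻¹ * v z.1 z.2 i * (T⁻¹ * v z.1 z.2 j) * pd j (ψ (T * z.1)) z.2
        + T⁻¹ ^ 2 * p z.1 z.2 * pd i (ψ (T * z.1)) z.2
        = T⁻¹ ^ 2 * (v z.1 z.2 i * deriv (fun t => ψ (T * t) z.2) z.1
          + ∑ j, v z.1 z.2 i * v z.1 z.2 j * pd j (ψ (T * z.1)) z.2
          + p z.1 z.2 * pd i (ψ (T * z.1)) z.2) := fun z => by
      rw [deriv_comp_mul_left T (fun t => ψ t z.2) z.1, mul_add, mul_add, Finset.mul_sum, smul_eq_mul]
      refine congrArg₂ (· + ·) (congrArg₂ (· + ·) ?_ (Finset.sum_congr rfl fun j _ => ?_)) ?_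
      · field_simp
      · ring
      · ring
    simp only [h1]
    rw [integral_const_mul, h0]
    simp

theorem hs_mul (s c : ℝ) (f : T3 → ℝ) :
    HsNormSq s (fun x => c * f x) = ENNReal.ofReal (c ^ 2) * HsNormSq s f := by
  unfold HsNormSq
  rw [← ENNReal.tsum_mul_left]
  refine tsum_congr fun k => ?_
  have h : UnitAddTorus.mFourierCoeff (fun x => ((c * f x : ℝ) : ℂ)) k
      = (c : ℂ) * UnitAddTorus.mFourierCoeff (fun x => (f x : ℂ)) k := by
    unfold UnitAddTorus.mFourierCoeff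
    rw [← integral_const_mul]
    refine integral_congr_ae (Eventually.of_forall fun x => ?_)
    simp only [smul_eq_mul]
    push_cast
    ring
  rw [h, ← ENNReal.ofReal_mul (sq_nonneg c), norm_mul, mul_pow, Complex.norm_real, Real.norm_eq_abs,
    sq_abs]
  refine congrArg ENNReal.ofReal ?_
  ring

theorem energy_mul (c : ℝ) (u : T3 → Fin 3 → ℝ) :
    energy (fun x i => c * u x i) = c ^ 2 * energy u := by
  unfold energy
  simp only [mul_pow, ← Finset.mul_sum]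
  rw [integral_const_mul]
  ring

theorem not_const {T a b c : ℝ} (E : ℝ → ℝ) (ha : 0 < a) (hab : a ≤ b) (hc : 0 < c) {b' : ℝ}
    (hb : b < b') (hb' : b' ≤ T) (h0 : ∀ t < a, E t = 0) (h1 : ∀ t ∈ Icc b b', c ≤ E t) :
    ¬ ∃ e : ℝ, ∀ᵐ t ∂(volume.restrict (Ioo 0 T)), E t = e := by
  rintro ⟨e, he⟩
  obtain ⟨t, ht, e1⟩ := Measure.exists_mem_of_measure_ne_zero_of_ae (μ := volume) (s := Ioo 0 a)
    (by simpa using ha) (ae_restrict_of_ae_restrict_of_subset (Ioo_subset_Ioo le_rfl (by linarith)) he)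
  obtain ⟨s, hs, e2⟩ := Measure.exists_mem_of_measure_ne_zero_of_ae (μ := volume) (s := Ioo b b')
    (by simpa using hb) (ae_restrict_of_ae_restrict_of_subset (Ioo_subset_Ioo (by linarith) hb') he)
  have := h1 s (Ioo_subset_Icc_self hs)
  have := h0 t ht.2
  linarith

/-- from the unit interval to any interval -/
theorem any_time {β : ℝ} {v : ℝ → T3 → Fin 3 → ℝ} {p : ℝ → T3 → ℝ} (hw : WeakEuler 1 v p)
    (hL : ∀ t i, MemLp (fun x => v t x i) 2 mu)
    (hH : ∃ M : ℝ, ∀ t i, HsNormSq β (fun x => v t x i) ≤ ENNReal.ofReal M)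
    (h0 : ∀ t < (1 / 8 : ℝ), energy (v t) = 0)
    (h1 : ∃ c : ℝ, 0 < c ∧ ∀ t ∈ Icc (9 / 20 : ℝ) (11 / 20), c ≤ energy (v t))
    {T : ℝ} (hT : 0 < T) :
    ∃ (v : ℝ → T3 → Fin 3 → ℝ) (p : ℝ → T3 → ℝ), WeakEuler T v p ∧
      (∀ t i, MemLp (fun x => v t x i) 2 mu) ∧
      (∃ M : ℝ, ∀ t i, HsNormSq β (fun x => v t x i) ≤ ENNReal.ofReal M) ∧
      ¬ ∃ e : ℝ, ∀ᵐ t ∂(volume.restrict (Ioo 0 T)), energy (v t) = e := by
  obtain ⟨M, hM⟩ := hH
  obtain ⟨c, hc, h1⟩ := h1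
  have hi : 0 < T⁻¹ := inv_pos.2 hT
  have e : T⁻¹ * T = 1 := inv_mul_cancel₀ hT.ne'
  refine ⟨_, _, weak_scale hT hw, fun t i => (hL _ i).const_mul _, ⟨T⁻¹ ^ 2 * M, fun t i => ?_⟩, ?_⟩
  · rw [hs_mul, ENNReal.ofReal_mul (sq_nonneg _)]
    exact mul_le_mul_right (hM _ i) _
  · refine not_const (a := T / 8) (b := 9 / 20 * T) (b' := 11 / 20 * T) (c := T⁻¹ ^ 2 * c) _
      (by positivity) (by linarith) (by positivity) (by linarith) (by linarith)
      (fun t ht => ?_) fun t ht => ?_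
    · rw [energy_mul, h0 _ (by nlinarith), mul_zero]
    · rw [energy_mul]
      exact mul_le_mul_of_nonneg_left (h1 _ ⟨by nlinarith [ht.1], by nlinarith [ht.2]⟩) (sq_nonneg _)

end Pool.Agent.Lib.EUL.Scale
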