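import Pool.Agent.Lib.EUL.Blue

/-! Block AV: avoidance of finitely many moving points by a pigeonhole argument. -/

set_option autoImplicit false

namespace Pool.Agent.Lib.EUL

open MeasureTheory Set Filter Topology
open scoped Classical

noncomputable section

namespace AV

theorem pn_le (z : ℂ) (n : ℤ × ℤ) : pn z ≤ ‖z - lat n‖ := by
  rw [← dist_eq_norm]
  exact Metric.infDist_le_dist_of_mem ⟨n, rfl⟩

theorem ex_lat {z : ℂ} {c : ℝ} (h : pn z < c) : ∃ n, ‖z - lat n‖ < c := by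
  obtain ⟨_, ⟨n, rfl⟩, h⟩ := (Metric.infDist_lt_iff (range_nonempty lat)).1 h
  exact ⟨n, by rwa [← dist_eq_norm]⟩

theorem pn_lip (z w : ℂ) : pn z ≤ pn w + ‖z - w‖ := by
  rw [← dist_eq_norm]
  exact Metric.infDist_le_infDist_add_dist

theorem pn_nonneg (z : ℂ) : 0 ≤ pn z := Metric.infDist_nonneg

theorem cont_pn : Continuous pn := Metric.continuous_infDist_pt _

theorem lat_neg (n : ℤ × ℤ) : lat (-n) = -lat n := by
  simp only [lat, Prod.fst_neg, Prod.snd_neg, Int.cast_neg]; ring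

theorem pn_neg (z : ℂ) : pn (-z) = pn z := by
  have h : ∀ z, pn (-z) ≤ pn z := fun z => le_of_forall_gt fun c hc => by
    obtain ⟨n, hn⟩ := ex_lat hc
    refine (pn_le _ (-n)).trans_lt ?_
    rwa [lat_neg, ← norm_neg, show -(-z - -lat n) = z - lat n by ring]
  exact le_antisymm (h z) (by simpa using h (-z))

theorem lat_sep {n n' : ℤ × ℤ} (h : n ≠ n') : 1 ≤ ‖lat n - lat n'‖ := by
  have h1 := Complex.abs_re_le_norm (lat n - lat n')
  have h2 := Complex.abs_im_le_norm (lat n - lat n')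
  have e1 : (lat n - lat n').re = ((n.1 - n'.1 : ℤ) : ℝ) := by simp [lat]
  have e2 : (lat n - lat n').im = ((n.2 - n'.2 : ℤ) : ℝ) := by simp [lat]
  rw [e1] at h1
  rw [e2] at h2
  by_cases e : n.1 = n'.1
  · have : n.2 - n'.2 ≠ 0 := fun e' => h (Prod.ext e (by omega))
    refine le_trans ?_ h2
    exact_mod_cast Int.one_le_abs this
  · have : n.1 - n'.1 ≠ 0 := by omega
    refine le_trans ?_ h1
    exact_mod_cast Int.one_le_abs this

/-- crossing an annulus costs length -/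
theorem cross {γ γ' : ℝ → ℂ} {lam : ℝ → ℝ} {t1 t2 D r1 : ℝ} {a : ℂ} (_hD : 0 < D)
    (hd : ∀ t, HasDerivAt γ (γ' t) t) (hc : Continuous γ') (hl : Continuous lam)
    (h0 : ∀ t, 0 ≤ lam t) (h12 : t1 ≤ t2) (hb : ∀ t ∈ Icc t1 t2, pn (γ t) ≤ r1 → ‖γ' t‖ ≤ lam t)
    (ha : ‖a‖ ≤ r1 - 6 * D) (h1 : pn (γ t1 - a) < 5 * D) (h2 : 6 * D ≤ pn (γ t2 - a)) :
    D ≤ ∫ t in t1..t2, lam t := by
  obtain ⟨n, hn⟩ := ex_lat h1
  have cγ : Continuous γ := continuous_iff_continuousAt.2 fun t => (hd t).continuousAt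
  have cφ : Continuous fun t => ‖γ t - a - lat n‖ := by fun_prop
  have hK : IsCompact (Icc t1 t2 ∩ {t | 6 * D ≤ ‖γ t - a - lat n‖}) :=
    isCompact_Icc.inter_right (isClosed_le continuous_const cφ)
  obtain ⟨τ, ⟨hτ, hτ6⟩, hmin⟩ := hK.exists_isLeast ⟨t2, ⟨h12, le_rfl⟩, h2.trans (pn_le _ n)⟩
  have hin : ∀ t ∈ Ioo t1 τ, ‖γ' t‖ ≤ lam t := fun t ht => by
    have hm : t ∈ Icc t1 t2 := ⟨ht.1.le, ht.2.le.trans hτ.2⟩
    refine hb t hm ((pn_le _ n).trans ?_)
    have h3 : ‖γ t - a - lat n‖ < 6 * D := by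
      by_contra hh
      exact absurd (hmin ⟨hm, not_lt.1 hh⟩) (not_le.2 ht.2)
    have h4 := norm_add_le (γ t - a - lat n) a
    rw [show γ t - a - lat n + a = γ t - lat n by ring] at h4
    linarith
  have h5 : ∫ t in t1..τ, γ' t = γ τ - γ t1 :=
    intervalIntegral.integral_eq_sub_of_hasDerivAt (fun t _ => hd t) (hc.intervalIntegrable _ _)
  have h6 : ‖γ τ - γ t1‖ ≤ ∫ t in t1..τ, lam t := by
    rw [← h5]
    refine (intervalIntegral.norm_integral_le_integral_norm hτ.1).trans ?_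
    exact intervalIntegral.integral_mono_on_of_le_Ioo hτ.1 (hc.norm.intervalIntegrable _ _)
      (hl.intervalIntegrable _ _) hin
  have h7 : ∫ t in t1..τ, lam t ≤ ∫ t in t1..t2, lam t :=
    intervalIntegral.integral_mono_interval le_rfl hτ.1 hτ.2 (Eventually.of_forall h0)
      (hl.intervalIntegrable _ _)
  have h8 := norm_add_le (γ τ - γ t1) (γ t1 - a - lat n)
  rw [show γ τ - γ t1 + (γ t1 - a - lat n) = γ τ - a - lat n by ring] at h8
  have h9 : 6 * D ≤ ‖γ τ - a - lat n‖ := hτ6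
  linarith

theorem cross' {γ γ' : ℝ → ℂ} {lam : ℝ → ℝ} {t1 t2 D r1 : ℝ} {a : ℂ} (hD : 0 < D)
    (hd : ∀ t, HasDerivAt γ (γ' t) t) (hc : Continuous γ') (hl : Continuous lam)
    (h0 : ∀ t, 0 ≤ lam t) (h12 : t1 ≤ t2) (hb : ∀ t ∈ Icc t1 t2, pn (γ t) ≤ r1 → ‖γ' t‖ ≤ lam t)
    (ha : ‖a‖ ≤ r1 - 6 * D) (h1 : pn (γ t2 - a) < 5 * D) (h2 : 6 * D ≤ pn (γ t1 - a)) :
    D ≤ ∫ t in t1..t2, lam t := by
  have h := cross (γ := fun t => γ (-t)) (γ' := fun t => -γ' (-t)) (lam := fun t => lam (-t))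
    (t1 := -t2) (t2 := -t1) hD (fun t => by
      have := (hd (-t)).scomp t (hasDerivAt_neg t)
      rw [neg_smul, one_smul] at this
      exact this) (by fun_prop) (by fun_prop)
    (fun t => h0 _) (neg_le_neg h12) (fun t ht hp => by
      rw [norm_neg]
      exact hb (-t) ⟨by linarith [ht.2], by linarith [ht.1]⟩ hp) ha (by simpa using h1)
    (by simpa using h2)
  rwa [intervalIntegral.integral_comp_neg, neg_neg, neg_neg] at h

theorem two {z a a' : ℂ} {D r1 : ℝ} (hD : 0 < D) (hr : r1 ≤ 1 / 4) (ha : ‖a‖ ≤ r1 - 6 * D)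
    (ha' : ‖a'‖ ≤ r1 - 6 * D) (hs : 12 * D ≤ ‖a - a'‖) (h : pn (z - a') < 5 * D) :
    6 * D ≤ pn (z - a) := by
  by_contra hh
  obtain ⟨n, hn⟩ := ex_lat (not_le.1 hh)
  obtain ⟨n', hn'⟩ := ex_lat h
  have h1 := norm_sub_le (z - a' - lat n') (z - a - lat n)
  rw [show z - a' - lat n' - (z - a - lat n) = a - a' + (lat n - lat n') by ring] at h1
  by_cases e : n = n'
  · subst e
    rw [sub_self, add_zero] at h1
    linarith
  · have h2 := lat_sep e
    have h3 := norm_sub_le (a - a' + (lat n - lat n')) (a - a')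
    rw [add_sub_cancel_left] at h3
    have h4 := norm_sub_le a a'
    linarith

/-- number of bad points of one path -/
theorem count {γ γ' : ℝ → ℂ} {lam : ℝ → ℝ} {s e D r1 : ℝ} {Gr : Finset ℂ} (hD : 0 < D)
    (hr : r1 ≤ 1 / 4) (hd : ∀ t, HasDerivAt γ (γ' t) t) (hc : Continuous γ') (hl : Continuous lam)
    (h0 : ∀ t, 0 ≤ lam t) (hse : s ≤ e) (hb : ∀ t ∈ Icc s e, pn (γ t) ≤ r1 → ‖γ' t‖ ≤ lam t)
    (ha : ∀ a ∈ Gr, ‖a‖ ≤ r1 - 6 * D) (hs : ∀ a ∈ Gr, ∀ a' ∈ Gr, a ≠ a' → 12 * D ≤ ‖a - a'‖) :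
    ((Gr.filter fun a => ∃ t ∈ Icc s e, pn (γ t - a) < 5 * D).card : ℝ) ≤
      (∫ t in s..e, lam t) / D + 1 := by
  set Bd := Gr.filter fun a => ∃ t ∈ Icc s e, pn (γ t - a) < 5 * D with hB
  have hex : ∀ a : ℂ, ∃ t, a ∈ Bd → t ∈ Icc s e ∧ pn (γ t - a) < 5 * D := fun a => by
    by_cases h : a ∈ Bd
    · obtain ⟨t, ht⟩ := (Finset.mem_filter.1 h).2
      exact ⟨t, fun _ => ht⟩
    · exact ⟨0, fun h' => absurd h' h⟩
  choose τ hτ using hex
  have ii : ∀ a b, IntervalIntegrable lam volume a b := fun a b => hl.intervalIntegrable a b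
  have key : ∀ a ∈ Bd, ∀ a' ∈ Bd, a ≠ a' → τ a ≤ τ a' →
      ⌊(∫ t in s..τ a, lam t) / D⌋₊ < ⌊(∫ t in s..τ a', lam t) / D⌋₊ := by
    intro a h a' h' hne hle
    have m := (Finset.mem_filter.1 h).1
    have m' := (Finset.mem_filter.1 h').1
    have h1 := cross hD hd hc hl h0 hle
      (fun t ht => hb t ⟨(hτ a h).1.1.trans ht.1, ht.2.trans (hτ a' h').1.2⟩) (ha a m) (hτ a h).2
      (two hD hr (ha a m) (ha a' m') (hs a m a' m' hne) (hτ a' h').2)
    have h2 := intervalIntegral.integral_add_adjacent_intervals (ii s (τ a)) (ii (τ a) (τ a'))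
    have h3 : 0 ≤ ∫ t in s..τ a, lam t :=
      intervalIntegral.integral_nonneg (hτ a h).1.1 fun t _ => h0 t
    rw [← Nat.add_one_le_iff, ← Nat.floor_add_one (by positivity)]
    refine Nat.floor_le_floor ?_
    rw [div_add_one hD.ne']
    gcongr
    linarith
  have h4 : Bd.card ≤ (Finset.range (⌊(∫ t in s..e, lam t) / D⌋₊ + 1)).card := by
    refine Finset.card_le_card_of_injOn (fun a => ⌊(∫ t in s..τ a, lam t) / D⌋₊) ?_ ?_
    · intro a h
      rw [Finset.coe_range, mem_Iio, Nat.lt_add_one_iff]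
      refine Nat.floor_le_floor ?_
      gcongr
      exact intervalIntegral.integral_mono_interval le_rfl (hτ a h).1.1 (hτ a h).1.2
        (Eventually.of_forall h0) (ii _ _)
    · intro a h a' h' e
      by_contra hne
      rcases le_total (τ a) (τ a') with hle | hle
      · exact (key a h a' h' hne hle).ne e
      · exact (key a' h' a h (Ne.symm hne) hle).ne e.symm
  rw [Finset.card_range] at h4
  have h5 : 0 ≤ ∫ t in s..e, lam t := intervalIntegral.integral_nonneg hse fun t _ => h0 t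
  have h6 : (⌊(∫ t in s..e, lam t) / D⌋₊ : ℝ) ≤ (∫ t in s..e, lam t) / D :=
    Nat.floor_le (by positivity)
  have h7 : (Bd.card : ℝ) ≤ (⌊(∫ t in s..e, lam t) / D⌋₊ : ℝ) + 1 := by exact_mod_cast h4
  linarith

end AV

open AV in
theorem st_AV : St_AV := by
  intro ι _ γ γ' lam s e Ex Gr D r1 hD hr hd hc hl h0 hse hb ha hs hE hN
  by_contra hh
  push Not at hh
  set Bd : ι → Finset ℂ := fun i =>
    Gr.filter fun a => ∃ t ∈ Icc (s i) (e i), pn (γ i t - a) < 5 * D with hB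
  have hI : ∀ i, 0 ≤ ∫ t in (s i)..(e i), lam i t := fun i =>
    intervalIntegral.integral_nonneg (hse i) fun t _ => h0 i t
  have h1 : ∀ i, ((Bd i).card : ℝ) ≤
      2 * (∫ t in (s i)..(e i), lam i t) / D + if i ∈ Ex then 1 else 0 := by
    intro i
    have h2 := count hD hr (hd i) (hc i) (hl i) (h0 i) (hse i) (hb i) ha hs
    have h3 : 0 ≤ (∫ t in (s i)..(e i), lam i t) / D := div_nonneg (hI i) hD.le
    rw [mul_div_assoc]
    split_ifs with hi
    · exact h2.trans (by linarith)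
    rcases (Bd i).eq_empty_or_nonempty with h4 | ⟨a, h4⟩
    · rw [h4, Finset.card_empty, Nat.cast_zero]; linarith
    obtain ⟨m, t, ht, hp⟩ := Finset.mem_filter.1 h4
    have h5 : D ≤ ∫ t in (s i)..(e i), lam i t := by
      by_cases h6 : ∀ t ∈ Icc (s i) (e i), pn (γ i t) ≤ r1
      · exact hE i hi h6
      push Not at h6
      obtain ⟨t', ht', hp'⟩ := h6
      have h7 : 6 * D ≤ pn (γ i t' - a) := by
        have := pn_lip (γ i t') (γ i t' - a)
        rw [sub_sub_cancel] at this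
        linarith [ha a m]
      rcases le_total t t' with hle | hle
      · exact (cross hD (hd i) (hc i) (hl i) (h0 i) hle
          (fun x hx => hb i x ⟨ht.1.trans hx.1, hx.2.trans ht'.2⟩) (ha a m) hp h7).trans
          (intervalIntegral.integral_mono_interval ht.1 hle ht'.2 (Eventually.of_forall (h0 i))
            ((hl i).intervalIntegrable _ _))
      · exact (cross' hD (hd i) (hc i) (hl i) (h0 i) hle
          (fun x hx => hb i x ⟨ht'.1.trans hx.1, hx.2.trans ht.2⟩) (ha a m) hp h7).trans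
          (intervalIntegral.integral_mono_interval ht'.1 hle ht.2 (Eventually.of_forall (h0 i))
            ((hl i).intervalIntegrable _ _))
    have h8 : 1 ≤ (∫ t in (s i)..(e i), lam i t) / D := by rwa [one_le_div hD]
    exact h2.trans (by linarith)
  have h9 : Gr.card ≤ ∑ i, (Bd i).card := by
    refine le_trans (Finset.card_le_card fun a m => ?_) Finset.card_biUnion_le
    obtain ⟨i, t, ht, hp⟩ := hh a m
    exact Finset.mem_biUnion.2 ⟨i, Finset.mem_univ _, Finset.mem_filter.2 ⟨m, t, ht, hp⟩⟩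
  have h10 : (Gr.card : ℝ) ≤ ∑ i, ((Bd i).card : ℝ) := by exact_mod_cast h9
  have h11 := Finset.sum_le_sum fun i (_ : i ∈ Finset.univ) => h1 i
  rw [Finset.sum_add_distrib, ← Finset.sum_div, ← Finset.mul_sum, Finset.sum_boole] at h11
  simp only [Finset.filter_mem_eq_inter, Finset.univ_inter] at h11
  linarith

end

end Pool.Agent.Lib.EUL
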