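import Pool.Agent.Lib.EUL.Blue
import Pool.Agent.Lib.EUL.BasicA

set_option autoImplicit false

namespace Pool.Agent.Lib.EUL

open MeasureTheory Set Filter Topology
open scoped ContDiff Classical

noncomputable section

namespace BUILD

theorem one_le_lg (r : ℝ) : 1 ≤ lg r := by
  unfold lg; linarith [abs_nonneg (Real.log r)]

theorem lg_anti {r l : ℝ} (hr : 0 < r) (h : r ≤ l) (h1 : l ≤ 1) : lg l ≤ lg r := by
  unfold lg
  have a1 : Real.log l ≤ 0 := Real.log_nonpos (hr.le.trans h) h1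
  have a2 : Real.log r ≤ Real.log l := Real.log_le_log hr h
  rw [abs_of_nonpos a1, abs_of_nonpos (a2.trans a1)]; linarith

theorem env_mono {W : ℂ → ℂ} {p : ℂ} {c c' rho : ℝ} (h : Env W p c rho) (hr : 0 < rho)
    (hc : c ≤ c') : Env W p c' rho := fun j hj y => by
  refine (h j hj y).trans (div_le_div_of_nonneg_right ?_ ?_)
  · exact mul_le_mul_of_nonneg_right hc (sq_nonneg _)
  · exact pow_nonneg (hr.le.trans (le_max_left _ _)) _

theorem dom_mono {k : ℕ} {W : ℂ → ℂ} {p : ℂ} {c c' r s : ℝ} (h : Dom k W p c r s) (hr : 0 < r)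
    (hc : c ≤ c') : Dom k W p c' r s := fun j hj y => by
  refine (h j hj y).trans (mul_le_mul_of_nonneg_right hc ?_)
  unfold tau
  exact pow_nonneg (div_nonneg hr.le (hr.le.trans (le_max_left _ _))) _

theorem int_sqrt {A : ℝ → ℝ} {c T th : ℝ} (hA : Continuous A) (h0 : ∀ t, 0 ≤ A t) (hT : 0 < T)
    (hth : 0 < th) (h : ∫ t in (c - 2 * T)..(c + 2 * T), A t ≤ th ^ 2 / T) :
    ∫ t in (c - 2 * T)..(c + 2 * T), √(A t) ≤ 2 * th := by
  have hle : ∀ t, √(A t) ≤ T / th * A t + th / (4 * T) := fun t => by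
    have e : A t = √(A t) ^ 2 := (Real.sq_sqrt (h0 t)).symm
    set s := √(A t)
    rw [e]
    have : T / th * s ^ 2 + th / (4 * T) - s = (2 * T * s - th) ^ 2 / (4 * T * th) := by
      field_simp; ring
    have h2 : 0 ≤ (2 * T * s - th) ^ 2 / (4 * T * th) := by positivity
    linarith
  have hab : c - 2 * T ≤ c + 2 * T := by linarith
  have c1 : Continuous fun t => √(A t) := hA.sqrt
  have c2 : Continuous fun t => T / th * A t := continuous_const.mul hA
  refine (intervalIntegral.integral_mono_on hab (c1.intervalIntegrable _ _)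
    ((c2.add (continuous_const (y := th / (4 * T)))).intervalIntegrable _ _)
    fun t _ => hle t).trans ?_
  have e := intervalIntegral.integral_add (μ := volume) (c2.intervalIntegrable (c - 2 * T) (c + 2 * T))
    ((continuous_const (y := th / (4 * T))).intervalIntegrable (c - 2 * T) (c + 2 * T))
  simp only [Pi.add_apply]
  rw [e, intervalIntegral.integral_const_mul, intervalIntegral.integral_const, smul_eq_mul]
  have h3 : T / th * ∫ t in (c - 2 * T)..(c + 2 * T), A t ≤ T / th * (th ^ 2 / T) :=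
    mul_le_mul_of_nonneg_left h (by positivity)
  have e1 : T / th * (th ^ 2 / T) = th := by field_simp
  have e2 : (c + 2 * T - (c - 2 * T)) * (th / (4 * T)) = th := by field_simp; ring
  linarith

theorem sm_path {u : ℝ → ℂ → ℂ} (hu : Sm u) {x : ℝ → ℂ} (hx : ContDiff ℝ ∞ x) :
    ContDiff ℝ ∞ fun t => u t (x t) :=
  ContDiff.comp (g := fun p : ℝ × ℂ => u p.1 p.2) (f := fun t => (t, x t)) hu
    (contDiff_id.prodMk hx)

/-- boxes and sources -/
theorem boxes (hA : St_AVG) (hC : St_COVER) (hP : St_POU) (hS : St_SRC) :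
    ∃ C : ℝ, 1 ≤ C ∧ ∀ (u q : ℝ → ℂ → ℂ) (F : ℝ → ℂ → ℝ) (l Y th0 a b kq : ℝ), BoxIn u F l Y →
      0 < th0 → th0 ≤ 1 / 100 → 0 ≤ kq → SP q → TS q a b → (∀ t x, ‖q t x‖ ≤ kq * F t x) →
      ∃ (N : ℕ) (tb Tb : Fin N → ℝ) (z : Fin N → ℝ → ℂ) (S : Fin N → ℝ → ℂ → ℂ),
        (∀ i, 0 < Tb i ∧ Tb i ≤ th0 / √Y ∧ tb i ∈ Icc (a - th0 / √Y) (b + th0 / √Y)) ∧
        (∀ i, ContDiff ℝ ∞ (z i) ∧ ∀ t, HasDerivAt (z i) (u t (z i t)) t) ∧
        (∀ t, ∑ i ∈ Finset.univ.filter (fun i => |t - tb i| ≤ 2 * Tb i), (th0 / Tb i) ^ 2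
          ≤ C * lg l * Y / l ^ 2) ∧
        (∀ t, Mult (fun i => |t - tb i| ≤ 2 * Tb i) (fun i => z i t) (110 * l) (C * lg l)) ∧
        (∀ i, Continuous fun t => √(avg F 500 l t (z i t))) ∧
        (∀ i t y, ‖y - z i t‖ ≤ 400 * l → nD 1 (u t) y ≤ √(avg F 500 l t (z i t))) ∧
        (∀ i, ∫ t in (tb i - 2 * Tb i)..(tb i + 2 * Tb i), √(avg F 500 l t (z i t)) ≤ 2 * th0) ∧
        (∀ i, Loc (S i) (3 * l) ∧ TS (S i) (tb i - Tb i) (tb i + Tb i) ∧
          ∀ k ≤ 4, ∀ y, l ^ k * ∫ t, nD k (S i t) y ≤ C * kq * th0 ^ 2 / Tb i) ∧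
        ∀ t x, ∑ i, mv (S i) (z i) t x = mol l (q t) x := by
  obtain ⟨Cc, hCc, hC⟩ := hC
  obtain ⟨Cs, hCs, hS⟩ := hS
  refine ⟨Cc * Cs, by nlinarith, ?_⟩
  intro u q F l Y th0 a b kq hB hth hth1 hkq hq hqt hqF
  obtain ⟨N, tb, Tb, z, h1, h2, h3, h4, h5, h6⟩ := hC u F l Y th0 a b hB hth hth1
  obtain ⟨-, -, hFc, hFp, hF0, -, hFu, hl, hl1, hY⟩ := hB
  obtain ⟨chi, k1, k2, k3, k4⟩ := hP N tb Tb z l a b hl (by linarith) (fun i => (h1 i).1)
    (fun i => (h2 i).1) h3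
  have hBx : Boxes u F l th0 (th0 / √Y) a b (Cc * lg l) (Cc * lg l * Y / l ^ 2) tb Tb z chi :=
    ⟨fun i => (h1 i).1, fun i => (h1 i).2.1, fun i => (h1 i).2.2, fun i => (h2 i).1,
      fun i => (h2 i).2, k1, fun i t y => (k2 i t y).1, fun i t y => (k2 i t y).2, k3, k4, h4, h5, h6⟩
  obtain ⟨S, s1, s2⟩ := hS u q F l th0 _ a b _ _ kq (Fin N) tb Tb z chi hBx hl hl1 hkq hFc hF0 hq
    hqt hqF
  obtain ⟨a1, -, a3, -, -, -, a7⟩ := hA F l hFc hFp hF0 hl hl1
  have hlg := one_le_lg l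
  have hc : Cc * lg l ≤ Cc * Cs * lg l :=
    mul_le_mul_of_nonneg_right (le_mul_of_one_le_right (by linarith) hCs) (by linarith)
  have hcont : ∀ i, Continuous fun t => avg F 500 l t (z i t) := fun i =>
    Continuous.comp (g := fun p : ℝ × ℂ => avg F 500 l p.1 p.2) (f := fun t => (t, z i t)) (a1 500)
      (continuous_id.prodMk (h2 i).1.continuous)
  refine ⟨N, tb, Tb, z, S, h1, h2, fun t => (h5 t).trans ?_, fun t => (h6 t).mono (fun _ h => h) le_rfl hc,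
    fun i => (hcont i).sqrt, fun i t y hy => ?_, fun i => ?_,
    fun i => ⟨(s1 i).1, (s1 i).2.1, fun k hk y => ((s1 i).2.2 k hk y).trans ?_⟩, s2⟩
  · exact div_le_div_of_nonneg_right (mul_le_mul_of_nonneg_right hc hY.le) (sq_nonneg _)
  · refine Real.le_sqrt_of_sq_le (a7 500 t (z i t) y _ (by linarith) fun x hx => hFu t x y hx)
  · exact int_sqrt (hcont i) (fun t => a3 500 t _) (h1 i).1 hth (h4 i)
  · refine div_le_div_of_nonneg_right (mul_le_mul_of_nonneg_right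
      (mul_le_mul_of_nonneg_right (le_mul_of_one_le_left (by linarith) hCc) hkq) (sq_nonneg _))
      (h1 i).1.le

theorem ok_mono {P : Par} {C C' : ℝ} (h : P.OK C) (hc : C' ≤ C) : P.OK C' :=
  { h with
    big := (mul_le_mul_of_nonneg_right hc (zero_le_one.trans (one_le_lg _))).trans h.big }

theorem gam_nonneg {l rho d h d2 del e1 f Lam : ℝ} (hl : 0 < l) (hr : 0 < rho) (hd : 0 < d)
    (hh : 0 < h) (h2 : 0 < d2) (hdel : 0 ≤ del) (he : 0 < e1) (hf : 0 < f) (hL : 0 < Lam) :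
    0 ≤ Gam l rho d h d2 del e1 f Lam := by
  unfold Gam; positivity

/-- the source bound required by the cell construction -/
theorem src_le {Ce Cb G n th l rho T X : ℝ} (hT : 0 < T) (hCe : 0 ≤ Ce) (hG : Ce * Cb ≤ G ^ 2)
    (hX : X ≤ Cb * (n * rho) ^ 2 * th ^ 2 / T) :
    Ce * l ^ 2 * X ≤ rho ^ 2 * (G * n * th * l / T) ^ 2 * T := by
  refine (mul_le_mul_of_nonneg_left hX (by positivity)).trans ?_
  have e1 : Ce * l ^ 2 * (Cb * (n * rho) ^ 2 * th ^ 2 / T)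
      = Ce * Cb * ((l * n * rho * th) ^ 2 / T) := by field_simp
  have e2 : rho ^ 2 * (G * n * th * l / T) ^ 2 * T = G ^ 2 * ((l * n * rho * th) ^ 2 / T) := by
    field_simp
  rw [e1, e2]
  exact mul_le_mul_of_nonneg_right hG (by positivity)

theorem sumU_le {β : Type} (s : Finset β) {Tb : β → ℝ} {c G n th l rho S : ℝ} (hl : 0 < l)
    (hr : 0 < rho) (hn : 0 < n) (hS : 0 ≤ S) (hc : c ≤ G) (hG : 6 ≤ G)
    (h : ∑ i ∈ s, (th / Tb i) ^ 2 ≤ c * (6 * (S / (n * rho) ^ 2)) / l ^ 2) :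
    ∑ i ∈ s, (G * n * th * l / Tb i) ^ 2 ≤ G ^ 5 * S / rho ^ 2 := by
  have e : ∑ i ∈ s, (G * n * th * l / Tb i) ^ 2 = (G * n * l) ^ 2 * ∑ i ∈ s, (th / Tb i) ^ 2 := by
    rw [Finset.mul_sum]
    exact Finset.sum_congr rfl fun i _ => by ring
  rw [e]
  refine (mul_le_mul_of_nonneg_left h (sq_nonneg _)).trans ?_
  have e1 : (G * n * l) ^ 2 * (c * (6 * (S / (n * rho) ^ 2)) / l ^ 2)
      = G ^ 2 * (6 * c) * (S / rho ^ 2) := by field_simp
  rw [e1, mul_div_assoc]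
  refine mul_le_mul_of_nonneg_right ?_ (by positivity)
  have h1 : 6 * c ≤ G ^ 3 := by
    have : 6 * G ≤ G ^ 2 * G := mul_le_mul_of_nonneg_right (by nlinarith) (by linarith)
    nlinarith
  calc G ^ 2 * (6 * c) ≤ G ^ 2 * G ^ 3 := mul_le_mul_of_nonneg_left h1 (sq_nonneg _)
    _ = G ^ 5 := by ring

theorem cost_le {Ce L G : ℝ} (hCe : 1 ≤ Ce) (hL : 1 ≤ L) (h : Ce * L ≤ G) : Ce * L ^ 3 ≤ G ^ 5 := by
  have h1 : L ≤ G := (le_mul_of_one_le_left (by linarith) hCe).trans h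
  have hG : 1 ≤ G := hL.trans h1
  calc Ce * L ^ 3 = Ce * L * L ^ 2 := by ring
    _ ≤ G * G ^ 2 := mul_le_mul h (pow_le_pow_left₀ (by linarith) h1 2) (sq_nonneg _) (by linarith)
    _ = G ^ 3 := by ring
    _ ≤ G ^ 5 := pow_le_pow_right₀ hG (by norm_num)

end BUILD

open BUILD in
theorem st_BUILD (hPREP : St_PREP) (hAVG : St_AVG) (hCOVER : St_COVER) (hPOU : St_POU)
    (hSRC : St_SRC) (hCELL : St_CELL) (hPLACE : St_PLACE) : St_BUILD := by
  obtain ⟨Cp, hCp, hPREP⟩ := hPREP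
  obtain ⟨Cb, hCb, hB⟩ := boxes hAVG hCOVER hPOU hSRC
  obtain ⟨Ce, hCe, hCELL⟩ := hCELL
  refine ⟨Cp + Cb + Ce + 7442, by linarith, ?_⟩
  intro P v q V ι _ o a b hOK hq hqt hqS hD
  obtain ⟨g, F, lam, -, p2, p3, p4, p5, p6, p7, p8, p9, p10⟩ :=
    hPREP P v q V ι o a b (ok_mono hOK (by linarith)) hq hqS hD
  have hr := hOK.rpos
  have hL := one_le_lg P.rho
  have hbig := hOK.big
  have hGe : Ce * lg P.rho ≤ P.G := (ok_mono hOK (by linarith)).big
  have hGb : Cb * lg P.rho ≤ P.G := (ok_mono hOK (by linarith)).big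
  have hG : Cp + Cb + Ce + 7442 ≤ P.G :=
    (le_mul_of_one_le_right (by linarith) hL).trans hbig
  have hDp : 0 < P.D := hr.trans_le hOK.rD
  have hd2 : 0 < P.d2 := by linarith [hOK.Dd2]
  have hd : 0 < P.d := hd2.trans_le hOK.d2d
  have hGd : 2 * P.d ≤ P.h := (mul_le_mul_of_nonneg_right (by linarith) hd.le).trans hOK.dh
  have hh : 0 < P.h := by linarith
  have hl : 0 < P.l := hh.trans_le hOK.hl
  have h2l : 2 * P.d2 ≤ P.l := by linarith [hOK.d2d, hOK.hl]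
  have hDl : P.D ≤ P.l := by linarith [hOK.Dd2]
  have hn : 0 < P.n := by linarith [hOK.n1]
  have hth := hOK.thpos
  have hG0 : 0 < P.G := by linarith
  have hLam : 0 < P.Lam := by unfold Par.Lam; positivity
  have hth1 : P.th0 ≤ 1 / 100 := by
    have h1 : P.l * (104 * P.th0) ≤ P.l * 1 := by linarith [hOK.thD]
    linarith [le_of_mul_le_mul_left h1 hl]
  have hlg : Cb * lg P.l ≤ P.G :=
    (mul_le_mul_of_nonneg_left (lg_anti hr (hOK.rD.trans hDl) (by linarith [hOK.lsmall]))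
      (by linarith)).trans hGb
  obtain ⟨N, tb, Tb, z, S, b1, b2, b3, b4, b5, b6, b7, b8, b9⟩ :=
    hB (Vh v o P.D) q F P.l (6 * P.Y) P.th0 a b ((P.n * P.rho) ^ 2) p5 hth hth1 (sq_nonneg _) hq hqt p6
  have huT : ∀ i, P.Lam / Tb i * Tb i = P.Lam := fun i => div_mul_cancel₀ _ (b1 i).1.ne'
  have hu : ∀ i, 0 < P.Lam / Tb i := fun i => div_pos hLam (b1 i).1
  have hcell := fun i => hCELL P.l P.rho P.d P.h P.d2 (2 * P.d2) P.e1 P.f (P.Lam / Tb i) (Tb i) (tb i)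
    (lg P.rho) (S i) hr
    ((mul_le_mul_of_nonneg_right ((show Ce ≤ P.G by linarith).trans
      (le_mul_of_one_le_right hG0.le hOK.n1)) hr.le).trans hOK.rd)
    hd2 hOK.d2d ((mul_le_mul_of_nonneg_right (by linarith) hd.le).trans hOK.dh) hOK.hl hOK.lsmall
    (by linarith) h2l hOK.e1pos hOK.e11 hOK.fpos hOK.f4 (hu i) (b1 i).1
    (by rw [huT]; exact hOK.hl.trans hOK.ramp)
    (by rw [huT]; exact (mul_le_mul_of_nonneg_right (by linarith) (by positivity)).trans hOK.rounds)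
    le_rfl (b8 i).1 (b8 i).2.1
    (fun k hk y => src_le (b1 i).1 (by linarith) (by nlinarith) ((b8 i).2.2 k hk y))
  choose ξ Y s e c1 c2 c3 c4 c5 c6 c7 using hcell
  have hse : ∀ i, s i ≤ e i := fun i => by
    linarith [c5 i, mul_pos hOK.fpos (b1 i).1]
  have hlong : ∀ i, P.l ≤ P.Lam / Tb i * (e i - s i) := fun i => by
    refine hOK.ramp.trans ?_
    have h1 : P.Lam / Tb i * (P.f * Tb i) ≤ P.Lam / Tb i * (e i - s i) :=
      mul_le_mul_of_nonneg_left (by linarith [c5 i]) (hu i).le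
    have h2 : P.Lam / Tb i * (P.f * Tb i) = P.f * P.Lam := by
      rw [mul_left_comm, huT]
    linarith
  have hmult : ∀ t, Mult (fun i => |t - tb i| ≤ 2 * Tb i) (fun i => z i t) (110 * P.l) P.G :=
    fun t => (b4 t).mono (fun _ h => h) le_rfl hlg
  have hk := hOK.kpos
  obtain ⟨x, x1, x2, x3, x4⟩ := hPLACE (Vh v o P.D) ι (Fin N) o lam tb Tb s e (fun i => P.Lam / Tb i)
    z ξ Y (fun i t => √(avg F 500 P.l t (z i t)))
    (fun i t => 3721 / P.kap * √(avg F 500 P.l t (z i t))) P.l P.D P.d2 (2 * P.th0)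
    (P.G * P.th0 / P.kap) P.Lam P.G p5.1 p5.2.1 hDp hOK.Dd2 h2l hOK.lsmall
    (by linarith [hOK.thD]) hD.good p7 p8 p9 hD.long hD.mult (fun i => (b1 i).1)
    (fun i => ⟨c4 i, hse i, c6 i⟩) (fun i => (b2 i).2) c1 c2 c3 (fun i => hDl.trans (hlong i))
    (fun i => (huT i).le) b5 (fun i => continuous_const.mul (b5 i)) b6 b7
    (fun i t => p10 t (z i t))
    (fun i => by
      rw [intervalIntegral.integral_const_mul]
      refine (mul_le_mul_of_nonneg_left (b7 i) (by positivity)).trans ?_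
      have e1 : 3721 / P.kap * (2 * P.th0) = 7442 * P.th0 / P.kap := by ring
      rw [e1]
      exact div_le_div_of_nonneg_right (mul_le_mul_of_nonneg_right (by linarith) hth.le) hk.le)
    hmult
    (by
      have e1 : 52 * P.l * (2 * P.th0) = 104 * P.l * P.th0 := by ring
      rw [e1]; exact hOK.grid)
  have hw := fun i => c7 i (x i) (z i) (fun t => Vh v o P.D t (x i t)) (x1 i).1 (b2 i).1
    (sm_path p5.1.1 (x1 i).1) (x1 i).2
    (fun t ht => (x2 i t (by linarith [(b1 i).1])).trans (by linarith [hOK.Dd2]))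
  choose w wb E w1 w2 w3 w4 w5 w6 w7 w8 w9 w10 using hw
  refine ⟨N, ⟨tb, Tb, s, e, z, x, w, wb, E, fun i => mv (S i) (z i), g⟩, p5.1, p2, p3, p4,
    fun i => (b1 i).1, fun i => (b1 i).2.1, fun i => (b1 i).2.2, fun i => ⟨c4 i, hse i, c6 i⟩, hlong,
    fun i => (b2 i).1, fun i => (x1 i).1, fun i t => ?_, fun i t ht => ?_, fun t => ?_, hmult, x3, x4,
    w1, w2, w3, fun i => (b8 i).1.sp_mv (by linarith [hOK.lsmall]) (b2 i).1, w4, w5, w6, w7, w8,
    fun i t => ?_, fun i t => (w9 i t).2.1, fun i t => ?_, fun i t => ?_, b9, fun i => ?_⟩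
  · show ‖deriv (x i) t - Vh v o P.D t (x i t)‖ ≤ P.Lam / Tb i
    rw [((x1 i).2 t).deriv, add_sub_cancel_left]
    exact (c3 i t).1
  · show ‖x i t - z i t‖ ≤ 52 * P.l
    have h1 := x2 i t ht
    have h2 := norm_add_le (x i t - z i t - Y i t) (Y i t)
    rw [sub_add_cancel] at h2
    linarith [(c3 i t).2]
  · exact sumU_le _ hl hr hn hOK.Spos.le hlg (by linarith) (b3 t)
  · refine env_mono (w9 i t).1 hr (mul_le_mul_of_nonneg_right (hGe.trans ?_) (hu i).le)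
    nlinarith
  · refine dom_mono (w9 i t).2.2.1 hl ?_
    show _ ≤ P.G * P.bt * (P.Lam / Tb i)
    have e1 : Ce * P.rho ^ 2 * (P.Lam / Tb i) ^ 2 * Tb i * P.l / P.d ^ 4
        = Ce * P.bt * (P.Lam / Tb i) := by
      have := (b1 i).1
      unfold Par.bt; field_simp
    rw [e1]
    have : 0 ≤ P.bt := by unfold Par.bt; positivity
    exact mul_le_mul_of_nonneg_right (mul_le_mul_of_nonneg_right (by linarith) this) (hu i).le
  · have h1 := (w9 i t).2.2.2
    rw [huT] at h1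
    refine h1.mono hl (mul_le_mul_of_nonneg_right (mul_le_mul_of_nonneg_right
      (mul_le_mul_of_nonneg_right (cost_le hCe hL hGe) (sq_nonneg _)) (sq_nonneg _)) ?_)
    exact gam_nonneg hl hr hd hh hd2 (by linarith) hOK.e1pos hOK.fpos hLam
  · have h1 := w10 i
    rwa [show deriv (z i) = fun t => Vh v o P.D t (z i t) from
      funext fun t => ((b2 i).2 t).deriv] at h1

end

end Pool.Agent.Lib.EUL
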