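import Pool.Agent.Lib.EUL.Blue

set_option autoImplicit false

namespace Pool.Agent.Lib.EUL

open MeasureTheory Set Filter Topology

namespace ENV

theorem closed_lat : IsClosed (range lat) := by
  have : range lat = Complex.re ⁻¹' range ((↑) : ℤ → ℝ) ∩ Complex.im ⁻¹' range ((↑) : ℤ → ℝ) := by
    ext z
    refine ⟨?_, fun ⟨⟨a, ha⟩, b, hb⟩ => ⟨(a, b), Complex.ext (by simp [lat, ha]) (by simp [lat, hb])⟩⟩
    rintro ⟨n, rfl⟩
    exact ⟨⟨n.1, by simp [lat]⟩, n.2, by simp [lat]⟩
  rw [this]
  exact (Int.isClosedEmbedding_coe_real.isClosed_range.preimage Complex.continuous_re).inter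
    (Int.isClosedEmbedding_coe_real.isClosed_range.preimage Complex.continuous_im)

theorem ex_pn (z : ℂ) : ∃ n, pn z = ‖z - lat n‖ := by
  obtain ⟨_, ⟨n, rfl⟩, h⟩ := closed_lat.exists_infDist_eq_dist (range_nonempty _) z
  exact ⟨n, by rw [pn, h, dist_eq_norm]⟩

theorem pn_le1 (z : ℂ) : pn z ≤ 1 := by
  refine (Metric.infDist_le_dist_of_mem (mem_range_self (f := lat) (round z.re, round z.im))).trans ?_
  rw [dist_eq_norm]
  refine (Complex.norm_le_abs_re_add_abs_im _).trans ?_
  have a := abs_sub_round z.re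
  have b := abs_sub_round z.im
  simp only [lat, Complex.sub_re, Complex.add_re, Complex.intCast_re, Complex.mul_re, Complex.I_re,
    Complex.I_im, Complex.intCast_im, Complex.sub_im, Complex.add_im, Complex.mul_im, mul_zero,
    mul_one, sub_zero, add_zero, zero_add]
  linarith

theorem meas_cell : MeasurableSet cell :=
  (measurableSet_Ioc.preimage Complex.measurable_re).inter
    (measurableSet_Ioc.preimage Complex.measurable_im)

theorem win {x p : ℝ} {n : ℤ} (hx : x ∈ Ioc (-1 / 2 : ℝ) (1 / 2)) (h : |x - p - n| ≤ 1) :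
    n ∈ Finset.Icc (⌊-p⌋ - 2) (⌊-p⌋ + 2) := by
  have a := Int.floor_le (-p)
  have b := Int.lt_floor_add_one (-p)
  obtain ⟨c, d⟩ := abs_le.1 h
  have e1 : ((⌊-p⌋ - 2 : ℤ) : ℝ) ≤ n := by push_cast; linarith [hx.1]
  have e2 : (n : ℝ) < ((⌊-p⌋ + 3 : ℤ) : ℝ) := by push_cast; linarith [hx.2]
  have e1 := Int.cast_le.1 e1
  have e2 := Int.cast_lt.1 e2
  rw [Finset.mem_Icc]; omega

/-- reduction to a radial integral -/
theorem red (f : ℝ → ℝ) (h0 : ∀ s, 0 ≤ s → 0 ≤ f s) (hi : IntegrableOn (fun y => y * f y) (Ioc 0 1))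
    (p : ℂ) : IQ (fun x => f (pn (x - p))) ≤ 200 * ∫ y in Ioc (0 : ℝ) 1, y * f y := by
  have e : EqOn (fun y : ℝ => y ^ (Module.finrank ℝ ℂ - 1) • (Iic (1 : ℝ)).indicator f y)
      ((Ioc (0 : ℝ) 1).indicator fun y => y * f y) (Ioi 0) := fun y hy => by
    have hy : 0 < y := hy
    by_cases h : y ≤ 1 <;> simp [indicator, h, hy]
  have i1 : Integrable fun x : ℂ => (Iic (1 : ℝ)).indicator f ‖x‖ := by
    rw [integrable_fun_norm_addHaar, integrableOn_congr_fun e measurableSet_Ioi]
    exact (hi.integrable_indicator measurableSet_Ioc).integrableOn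
  have n1 : ∀ x : ℂ, 0 ≤ (Iic (1 : ℝ)).indicator f ‖x‖ := fun x => by
    unfold indicator; split_ifs
    · exact h0 _ (norm_nonneg _)
    · exact le_rfl
  have v1 : ∫ x : ℂ, (Iic (1 : ℝ)).indicator f ‖x‖ = 2 * Real.pi * ∫ y in Ioc (0 : ℝ) 1, y * f y := by
    rw [integral_fun_norm_addHaar, setIntegral_congr_fun measurableSet_Ioi e,
      setIntegral_indicator measurableSet_Ioc, inter_eq_right.2 Ioc_subset_Ioi_self]
    simp [Measure.real, Complex.volume_ball, mul_assoc]
  have i2 : Integrable fun x : ℂ => ∑ n ∈ Finset.Icc (⌊-p.re⌋ - 2) (⌊-p.re⌋ + 2) ×ˢ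
      Finset.Icc (⌊-p.im⌋ - 2) (⌊-p.im⌋ + 2), (Iic (1 : ℝ)).indicator f ‖x - (p + lat n)‖ :=
    integrable_finsetSum _ fun n _ => i1.comp_sub_right _
  have p0 : 0 ≤ ∫ y in Ioc (0 : ℝ) 1, y * f y :=
    setIntegral_nonneg measurableSet_Ioc fun y hy => mul_nonneg hy.1.le (h0 y hy.1.le)
  refine (integral_mono_of_nonneg (Eventually.of_forall fun x => h0 _ Metric.infDist_nonneg)
    i2.integrableOn (ae_restrict_of_forall_mem meas_cell fun x hx => ?_)).trans
    ((setIntegral_le_integral i2 (Eventually.of_forall fun x =>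
      Finset.sum_nonneg fun n _ => n1 _)).trans ?_)
  · obtain ⟨n, hn⟩ := ex_pn (x - p)
    have h1 := pn_le1 (x - p)
    rw [hn] at h1
    refine le_trans (le_of_eq ?_) (Finset.single_le_sum (a := n) (fun n _ => n1 _)
      (Finset.mem_product.2 ⟨win hx.1 ?_, win hx.2 ?_⟩))
    · rw [← sub_sub, indicator_of_mem (s := Iic (1 : ℝ)) h1]
      exact congrArg f hn
    · simpa [lat] using (Complex.abs_re_le_norm _).trans h1
    · simpa [lat] using (Complex.abs_im_le_norm _).trans h1
  · rw [integral_finsetSum _ fun n _ => i1.comp_sub_right _]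
    simp only [integral_sub_right_eq_self (fun x : ℂ => (Iic (1 : ℝ)).indicator f ‖x‖), v1,
      Finset.sum_const, Finset.card_product, Int.card_Icc, nsmul_eq_mul]
    have c : ∀ a : ℤ, (a + 2 + 1 - (a - 2)).toNat = 5 := fun a => by omega
    rw [c, c]
    push_cast
    nlinarith [Real.pi_le_four]

theorem cont_tau (k : ℕ) {r : ℝ} (hr : 0 < r) : Continuous (tau k r) :=
  (continuous_const.div (continuous_const.max continuous_id) fun _ =>
    (lt_max_of_lt_left hr).ne').pow k

theorem tau0 (k : ℕ) {r : ℝ} (hr : 0 < r) (s : ℝ) : 0 ≤ tau k r s :=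
  pow_nonneg (div_nonneg hr.le (le_max_of_le_left hr.le)) _

theorem tau_le (k : ℕ) {r s : ℝ} (hr : 0 < r) (hs : 0 ≤ s) : tau k r s ≤ (2 * r / (r + s)) ^ k := by
  refine pow_le_pow_left₀ (div_nonneg hr.le (le_max_of_le_left hr.le)) ?_ _
  rw [div_le_div_iff₀ (lt_max_of_lt_left hr) (by linarith)]
  nlinarith [le_max_left r s, le_max_right r s]

theorem prim {g m M : ℝ → ℝ} (hg : Continuous g) (h : ∀ y ∈ Ioc (0 : ℝ) 1, g y ≤ m y)
    (hm : ContinuousOn m (Icc 0 1)) (hM : ∀ y ∈ Icc (0 : ℝ) 1, HasDerivAt M (m y) y) :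
    ∫ y in Ioc (0 : ℝ) 1, g y ≤ M 1 - M 0 := by
  have i : IntervalIntegrable m volume 0 1 := hm.intervalIntegrable_of_Icc zero_le_one
  rw [← intervalIntegral.integral_eq_sub_of_hasDerivAt (by rwa [uIcc_of_le zero_le_one]) i,
    intervalIntegral.integral_of_le zero_le_one]
  exact setIntegral_mono_on (hg.intervalIntegrable 0 1).1 i.1 measurableSet_Ioc h

theorem prim_log {g : ℝ → ℝ} {r c : ℝ} (hr : 0 < r) (h1 : r ≤ 1) (hc : 0 ≤ c) (hg : Continuous g)
    (h : ∀ y ∈ Ioc (0 : ℝ) 1, g y ≤ c * (r + y)⁻¹) : ∫ y in Ioc (0 : ℝ) 1, g y ≤ c * lg r := by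
  refine (prim (M := fun y => c * Real.log (r + y)) hg h
    (continuousOn_const.mul (ContinuousOn.inv₀ (by fun_prop) fun y hy => by linarith [hy.1]))
    fun y hy => ?_).trans ?_
  · have := (((hasDerivAt_id y).const_add r).log (by simp only [id]; linarith [hy.1])).const_mul c
    simpa using this
  · have a := Real.log_le_sub_one_of_pos (by linarith : 0 < r + 1)
    have b := neg_le_abs (Real.log r)
    simp only [add_zero, lg, ← mul_sub]
    exact mul_le_mul_of_nonneg_left (by linarith) hc

end ENV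

open ENV in
theorem st_ENV : St_ENV := by
  refine ⟨1600, by norm_num, fun r p hr h1 => ⟨?_, ?_, ?_, fun R hR => ?_⟩⟩
  · have c : Continuous fun y => y * tau 2 r y := continuous_id.mul (cont_tau 2 hr)
    have a := red (tau 2 r) (fun s _ => tau0 2 hr s) (c.intervalIntegrable 0 1).1 p
    have b := prim_log (c := 4 * r ^ 2) hr h1 (by positivity) c fun y hy => by
      have p : 0 < r + y := by linarith [hy.1]
      refine (mul_le_mul (by linarith : y ≤ r + y) (tau_le 2 hr hy.1.le)
        (tau0 2 hr y) p.le).trans (le_of_eq ?_)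
      field_simp
      ring
    have l : 0 ≤ r ^ 2 * lg r := by unfold lg; positivity
    nlinarith
  · have c : Continuous fun y => y * tau 3 r y := continuous_id.mul (cont_tau 3 hr)
    have a := red (tau 3 r) (fun s _ => tau0 3 hr s) (c.intervalIntegrable 0 1).1 p
    have b := prim (m := fun y => 8 * r ^ 3 * ((r + y) ^ 2)⁻¹) (M := fun y => -(8 * r ^ 3) * (r + y)⁻¹)
      c (fun y hy => by
        have p : 0 < r + y := by linarith [hy.1]
        refine (mul_le_mul (by linarith : y ≤ r + y) (tau_le 3 hr hy.1.le)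
          (tau0 3 hr y) p.le).trans (le_of_eq ?_)
        field_simp
        ring)
      (continuousOn_const.mul (ContinuousOn.inv₀ (by fun_prop) fun y hy =>
        pow_ne_zero _ (by linarith [hy.1])))
      fun y hy => by
        have := (((hasDerivAt_id y).const_add r).inv
          (by simp only [id]; linarith [hy.1])).const_mul (-(8 * r ^ 3))
        refine this.congr_deriv ?_
        simp only [id]
        ring
    have e : -(8 * r ^ 3) * (r + 0)⁻¹ = -(8 * r ^ 2) := by rw [add_zero]; field_simp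
    have l : 0 ≤ 8 * r ^ 3 * (r + 1)⁻¹ := by positivity
    simp only [e] at b
    nlinarith
  · have c : Continuous fun y => y * (y * tau 3 r y) :=
      continuous_id.mul (continuous_id.mul (cont_tau 3 hr))
    have a := red (fun s => s * tau 3 r s) (fun s hs => mul_nonneg hs (tau0 3 hr s))
      (c.intervalIntegrable 0 1).1 p
    have b := prim_log (c := 8 * r ^ 3) hr h1 (by positivity) c fun y hy => by
      have p : 0 < r + y := by linarith [hy.1]
      have q : y ≤ r + y := by linarith
      refine (mul_le_mul q (mul_le_mul q (tau_le 3 hr hy.1.le) (tau0 3 hr y) p.le)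
        (mul_nonneg hy.1.le (tau0 3 hr y)) p.le).trans (le_of_eq ?_)
      field_simp
      ring
    nlinarith
  · have c : Continuous fun y => y * tau 1 r y := continuous_id.mul (cont_tau 1 hr)
    have n0 : ∀ s, 0 ≤ if s ≤ R then tau 1 r s else 0 := fun s => by
      split_ifs
      · exact tau0 1 hr s
      · exact le_rfl
    have a := red (fun s => if s ≤ R then tau 1 r s else 0) (fun s _ => n0 s)
      (((c.intervalIntegrable 0 1).1.indicator (measurableSet_Iic (a := R))).congr_fun
        (fun y _ => by by_cases h : y ≤ R <;> simp [indicator, h]) measurableSet_Ioc) p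
    have i : Integrable ((Ioc (0 : ℝ) R).indicator fun _ => r) :=
      (integrableOn_const measure_Ioc_lt_top.ne).integrable_indicator measurableSet_Ioc
    have b : ∫ y in Ioc (0 : ℝ) 1, y * (if y ≤ R then tau 1 r y else 0) ≤ r * R := by
      refine (integral_mono_of_nonneg (ae_restrict_of_forall_mem measurableSet_Ioc fun y hy =>
        mul_nonneg hy.1.le (n0 y)) i.integrableOn
        (ae_restrict_of_forall_mem measurableSet_Ioc fun y hy => ?_)).trans
        ((setIntegral_le_integral i (Eventually.of_forall fun y =>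
          indicator_nonneg (fun _ _ => hr.le) y)).trans (le_of_eq ?_))
      · by_cases h : y ≤ R
        · simp only [h, if_true, indicator_of_mem (show y ∈ Ioc (0 : ℝ) R from ⟨hy.1, h⟩), tau,
            pow_one]
          rw [← mul_div_assoc, div_le_iff₀ (lt_max_of_lt_left hr)]
          nlinarith [le_max_right r y]
        · simp only [h, if_false, mul_zero]
          exact indicator_nonneg (fun _ _ => hr.le) y
      · rw [integral_indicator_const _ measurableSet_Ioc, Real.volume_real_Ioc_of_le hR.le]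
        simp [mul_comm]
    have l : 0 ≤ r * R := by positivity
    nlinarith

end Pool.Agent.Lib.EUL
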