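import Pool.Agent.Lib.EUL.B_MOL

set_option autoImplicit false

namespace Pool.Agent.Lib.EUL

open MeasureTheory Set Filter Topology
open scoped ContDiff Classical

namespace PB2

theorem le_inf (k : ℕ) : (k : WithTop ℕ∞) ≤ ∞ := by exact_mod_cast le_top

theorem nD_nonneg (k : ℕ) (f : ℂ → ℂ) (y : ℂ) : 0 ≤ nD k f y := norm_nonneg _

theorem nD_zero (f : ℂ → ℂ) (y : ℂ) : nD 0 f y = ‖f y‖ := norm_iteratedFDeriv_zero

theorem nD_one (f : ℂ → ℂ) (y : ℂ) : nD 1 f y = ‖fderiv ℝ f y‖ := norm_iteratedFDeriv_one f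

theorem nD_two (f : ℂ → ℂ) (y : ℂ) : nD 2 f y = ‖fderiv ℝ (fderiv ℝ f) y‖ := by
  rw [← norm_iteratedFDeriv_one, norm_iteratedFDeriv_fderiv]; rfl

theorem nD_ev {f : ℂ → ℂ} {r : ℝ} (h : ∀ y, r < ‖y‖ → f y = 0) (k : ℕ) {y : ℂ} (hy : r < ‖y‖) :
    nD k f y = 0 := by
  have hev : f =ᶠ[𝓝 y] fun _ => (0 : ℂ) := by
    filter_upwards [(isOpen_lt continuous_const continuous_norm).mem_nhds hy] with x hx
    exact h x hx
  unfold nD
  rw [(hev.iteratedFDeriv ℝ k).eq_of_nhds, iteratedFDeriv_fun_zero]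
  simp

theorem nD_const (c : ℂ) (j : ℕ) (y : ℂ) : nD j (fun _ => c) y ≤ ‖c‖ := by
  rcases eq_or_ne j 0 with rfl | h
  · rw [nD_zero]
  · unfold nD
    rw [iteratedFDeriv_const_of_ne h]
    simp

theorem leib {f h : ℂ → ℂ} {F H : ℝ} {y : ℂ} (hf : ContDiff ℝ ∞ f) (hh : ContDiff ℝ ∞ h)
    (h1 : ∀ j ≤ 2, nD j f y ≤ F) (h2 : ∀ j ≤ 2, nD j h y ≤ H) :
    ∀ j ≤ 2, nD j (fun y => f y * h y) y ≤ 4 * (F * H) := by
  intro j hj
  have hF : 0 ≤ F := (nD_nonneg 0 f y).trans (h1 0 (by norm_num))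
  have hH : 0 ≤ H := (nD_nonneg 0 h y).trans (h2 0 (by norm_num))
  refine (norm_iteratedFDeriv_mul_le hf hh y (le_inf j)).trans ?_
  have : ∀ i ∈ Finset.range (j + 1), (j.choose i : ℝ) * ‖iteratedFDeriv ℝ i f y‖ *
      ‖iteratedFDeriv ℝ (j - i) h y‖ ≤ (j.choose i : ℝ) * (F * H) := fun i hi => by
    rw [mul_assoc]
    have hi' := Finset.mem_range.1 hi
    exact mul_le_mul_of_nonneg_left (mul_le_mul (h1 i (by omega)) (h2 (j - i) (by omega))
      (norm_nonneg _) hF) (Nat.cast_nonneg _)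
  refine (Finset.sum_le_sum this).trans ?_
  rw [← Finset.sum_mul, ← Nat.cast_sum, Nat.sum_range_choose]
  refine mul_le_mul_of_nonneg_right ?_ (mul_nonneg hF hH)
  interval_cases j <;> norm_num

theorem nD_sub {f h : ℂ → ℂ} (hf : ContDiff ℝ ∞ f) (hh : ContDiff ℝ ∞ h) (j : ℕ) (y : ℂ) :
    nD j (fun y => f y - h y) y ≤ nD j f y + nD j h y := by
  unfold nD
  rw [fun_iteratedFDeriv_sub_apply (hf.contDiffAt.of_le (le_inf j)) (hh.contDiffAt.of_le (le_inf j))]
  exact norm_sub_le _ _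

theorem nD_lin {f h : ℂ → ℂ} (hf : ContDiff ℝ ∞ f) (hh : ContDiff ℝ ∞ h) (a g : ℝ) (j : ℕ) (y : ℂ) :
    nD j (fun y => a * f y + g * h y) y ≤ |a| * nD j f y + |g| * nD j h y := by
  have e : (fun y => (a : ℂ) * f y + g * h y) = fun y => a • f y + g • h y := by
    funext y; simp only [Complex.real_smul]
  have a1 := hf.contDiffAt.of_le (le_inf j) (x := y)
  have a2 := hh.contDiffAt.of_le (le_inf j) (x := y)
  unfold nD
  rw [e, fun_iteratedFDeriv_add_apply (a1.const_smul a) (a2.const_smul g),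
    iteratedFDeriv_const_smul_apply' a1, iteratedFDeriv_const_smul_apply' a2]
  refine (norm_add_le _ _).trans (le_of_eq ?_)
  rw [norm_smul, norm_smul, Real.norm_eq_abs, Real.norm_eq_abs]

theorem mol_smooth {s : ℝ} (hs : 0 < s) {f : ℂ → ℂ} (hf : Continuous f) :
    ContDiff ℝ ∞ (mol s f) :=
  (MOL.etas_supp hs).contDiff_convolution_left (ContinuousLinearMap.mul ℝ ℂ) (μ := volume)
    (MOL.etas_smooth s) hf.locallyIntegrable

theorem avg_le {E : Type} [NormedAddCommGroup E] [NormedSpace ℝ E] [NormedSpace ℂ E] {s c : ℝ}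
    (hs : 0 < s) {G : ℂ → E} (h : ∀ w, ‖w‖ ≤ s → ‖G w‖ ≤ c) : ‖∫ w, etas s w • G w‖ ≤ c := by
  have h3 : Integrable fun y => ‖etas s y‖ * c :=
    ((MOL.etas_smooth s).continuous.integrable_of_hasCompactSupport
      (MOL.etas_supp hs)).norm.mul_const c
  refine (norm_integral_le_of_norm_le h3 (Eventually.of_forall fun w => ?_)).trans (le_of_eq ?_)
  · rw [norm_smul]
    by_cases hw : ‖w‖ ≤ s
    · exact mul_le_mul_of_nonneg_left (h w hw) (norm_nonneg _)
    · rw [MOL.etas_zero hs (not_le.1 hw).le, norm_zero, zero_mul, zero_mul]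
  · rw [integral_mul_const, MOL.int_norm hs, one_mul]

theorem intE {E : Type} [NormedAddCommGroup E] [NormedSpace ℂ E] {s : ℝ} (hs : 0 < s) {G : ℂ → E}
    (hG : Continuous G) : Integrable fun w => etas s w • G w :=
  ((MOL.etas_smooth s).continuous.smul hG).integrable_of_hasCompactSupport
    (MOL.etas_supp hs).smul_right

theorem csub {E : Type} [TopologicalSpace E] {f : ℂ → E} (hf : Continuous f) (x : ℂ) :
    Continuous fun w => f (x - w) := hf.comp (continuous_const.sub continuous_id)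

theorem der_mol {s : ℝ} (hs : 0 < s) {f : ℂ → ℂ} (hf : ContDiff ℝ 1 f) (x : ℂ) :
    fderiv ℝ (mol s f) x = ∫ w, etas s w • fderiv ℝ f (x - w) := by
  have hc := hf.continuous_fderiv one_ne_zero
  obtain ⟨K, hK⟩ := (isCompact_closedBall x (s + 1)).exists_bound_of_continuousOn hc.continuousOn
  refine (hasFDerivAt_integral_of_dominated_of_fderiv_le (𝕜 := ℝ) (μ := volume)
    (F := fun x w => etas s w * f (x - w)) (F' := fun x w => etas s w • fderiv ℝ f (x - w))
    (bound := fun w => ‖etas s w‖ * K) (Metric.ball_mem_nhds x one_pos)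
    (Eventually.of_forall fun x => (MOL.intg hs (hf.continuous.comp
      (continuous_const.sub continuous_id))).aestronglyMeasurable)
    (MOL.intg hs (hf.continuous.comp (continuous_const.sub continuous_id)))
    (intE hs (hc.comp (continuous_const.sub continuous_id))).aestronglyMeasurable
    (Eventually.of_forall fun w z hz => ?_)
    (((MOL.etas_smooth s).continuous.integrable_of_hasCompactSupport
      (MOL.etas_supp hs)).norm.mul_const K)
    (Eventually.of_forall fun w z _ => ?_)).fderiv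
  · rw [norm_smul]
    by_cases hw : ‖w‖ ≤ s
    · refine mul_le_mul_of_nonneg_left (hK _ ?_) (norm_nonneg _)
      rw [Metric.mem_ball, dist_eq_norm] at hz
      rw [Metric.mem_closedBall, dist_eq_norm, sub_right_comm]
      exact (norm_sub_le _ _).trans (by linarith)
    · rw [MOL.etas_zero hs (not_le.1 hw).le, norm_zero, zero_mul, zero_mul]
  · have h1 : HasFDerivAt (fun x => f (x - w)) (fderiv ℝ f (z - w)) z := by
      have := ((hf.differentiable one_ne_zero) (z - w)).hasFDerivAt.comp z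
        ((hasFDerivAt_id z).sub_const w)
      rw [ContinuousLinearMap.comp_id] at this
      exact this
    exact h1.const_mul (etas s w)

/-- bounds for a function, its derivative and the Lipschitz constant of the derivative on a disc -/
def Tri (f : ℂ → ℂ) (r A : ℝ) : Prop :=
  ContDiff ℝ 1 f ∧ (∀ x, ‖x‖ ≤ r → ‖f x‖ ≤ A ∧ ‖fderiv ℝ f x‖ ≤ A) ∧
    ∀ x x', ‖x‖ ≤ r → ‖x'‖ ≤ r → ‖fderiv ℝ f x - fderiv ℝ f x'‖ ≤ A * ‖x - x'‖

theorem Tri.lip {f : ℂ → ℂ} {r A : ℝ} (h : Tri f r A) {x x' : ℂ} (hx : ‖x‖ ≤ r) (hx' : ‖x'‖ ≤ r) :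
    ‖f x - f x'‖ ≤ A * ‖x - x'‖ :=
  (convex_closedBall (0 : ℂ) r).norm_image_sub_le_of_norm_fderiv_le (𝕜 := ℝ)
    (fun z _ => h.1.differentiable one_ne_zero z)
    (fun z hz => (h.2.1 z (mem_closedBall_zero_iff.1 hz)).2)
    (mem_closedBall_zero_iff.2 hx') (mem_closedBall_zero_iff.2 hx)

theorem ex_tri {f : ℂ → ℂ} (hf : ContDiff ℝ 1 f) (hl : ∃ C, LipschitzWith C (fderiv ℝ f)) (r : ℝ) :
    ∃ K, 0 ≤ K ∧ ∀ A, K ≤ A → Tri f r A := by
  obtain ⟨L, hL⟩ := hl
  obtain ⟨K0, h0⟩ := (isCompact_closedBall (0 : ℂ) r).exists_bound_of_continuousOn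
    hf.continuous.continuousOn
  obtain ⟨K1, h1⟩ := (isCompact_closedBall (0 : ℂ) r).exists_bound_of_continuousOn
    (hf.continuous_fderiv one_ne_zero).continuousOn
  have := L.coe_nonneg
  refine ⟨|K0| + |K1| + L, by positivity, fun A hA => ⟨hf, fun x hx => ⟨?_, ?_⟩, fun x x' _ _ => ?_⟩⟩
  · linarith [h0 x (mem_closedBall_zero_iff.2 hx), le_abs_self K0, abs_nonneg K1]
  · linarith [h1 x (mem_closedBall_zero_iff.2 hx), le_abs_self K1, abs_nonneg K0]
  · refine (hL.norm_sub_le x x').trans (mul_le_mul_of_nonneg_right ?_ (norm_nonneg _))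
    linarith [abs_nonneg K0, abs_nonneg K1]

theorem Tri.lin {f h : ℂ → ℂ} {r K a g : ℝ} (h1 : Tri f r K) (h2 : Tri h r K)
    (hg : |g| ≤ |a|) : Tri (fun y => a * f y + g * h y) r (2 * K * |a|) := by
  have d : ∀ x, fderiv ℝ (fun y => (a : ℂ) * f y + g * h y) x
      = (a : ℂ) • fderiv ℝ f x + (g : ℂ) • fderiv ℝ h x := fun x =>
    (((h1.1.differentiable one_ne_zero x).hasFDerivAt.const_mul (a : ℂ)).add
      ((h2.1.differentiable one_ne_zero x).hasFDerivAt.const_mul (g : ℂ))).fderiv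
  have key : ∀ {E : Type} [NormedAddCommGroup E] [NormedSpace ℂ E] (u v : E) (c : ℝ), 0 ≤ c →
      ‖u‖ ≤ K * c → ‖v‖ ≤ K * c → ‖(a : ℂ) • u + (g : ℂ) • v‖ ≤ 2 * K * |a| * c := by
    intro E _ _ u v c hc hu hv
    refine (norm_add_le _ _).trans ?_
    rw [norm_smul, norm_smul, Complex.norm_real, Complex.norm_real, Real.norm_eq_abs,
      Real.norm_eq_abs]
    have b1 := mul_le_mul_of_nonneg_left hu (abs_nonneg a)
    have b2 := mul_le_mul hg hv (norm_nonneg _) (abs_nonneg a)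
    linarith
  refine ⟨(contDiff_const.mul h1.1).add (contDiff_const.mul h2.1), fun x hx => ⟨?_, ?_⟩,
    fun x x' hx hx' => ?_⟩
  · simpa using key (f x) (h x) 1 zero_le_one (by simpa using (h1.2.1 x hx).1)
      (by simpa using (h2.2.1 x hx).1)
  · rw [d]
    simpa using key (fderiv ℝ f x) (fderiv ℝ h x) 1 zero_le_one (by simpa using (h1.2.1 x hx).2)
      (by simpa using (h2.2.1 x hx).2)
  · rw [d, d, add_sub_add_comm, ← smul_sub, ← smul_sub]
    exact key _ _ _ (norm_nonneg _) (h1.2.2 x x' hx hx') (h2.2.2 x x' hx hx')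

theorem Tri.sq {f : ℂ → ℂ} {r A : ℝ} (hA : 0 ≤ A) (h : Tri f r A) :
    Tri (fun y => f y ^ 2) r (4 * A ^ 2) := by
  have d : ∀ x, fderiv ℝ (fun y => f y ^ 2) x = (2 * f x) • fderiv ℝ f x := fun x => by
    have h1 := (h.1.differentiable one_ne_zero x).hasFDerivAt
    have := (h1.mul h1).fderiv
    have e : (fun y => f y ^ 2) = f * f := funext fun y => pow_two (f y)
    rw [e, this, two_mul, add_smul]
  refine ⟨h.1.pow 2, fun x hx => ⟨?_, ?_⟩, fun x x' hx hx' => ?_⟩
  · rw [norm_pow]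
    nlinarith [(h.2.1 x hx).1, norm_nonneg (f x)]
  · rw [d, norm_smul, norm_mul, Complex.norm_two]
    nlinarith [mul_le_mul (h.2.1 x hx).1 (h.2.1 x hx).2 (norm_nonneg _) hA]
  · have e : (2 * f x) • fderiv ℝ f x - (2 * f x') • fderiv ℝ f x'
        = (2 * f x) • (fderiv ℝ f x - fderiv ℝ f x') + (2 * (f x - f x')) • fderiv ℝ f x' := by
      rw [smul_sub, mul_sub, sub_smul]; abel
    rw [d, d, e]
    refine (norm_add_le _ _).trans ?_
    rw [norm_smul, norm_smul, norm_mul, norm_mul, Complex.norm_two]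
    have b1 := mul_le_mul (h.2.1 x hx).1 (h.2.2 x x' hx hx') (norm_nonneg _) hA
    have b2 := mul_le_mul (h.lip hx hx') (h.2.1 x' hx').2 (norm_nonneg _)
      (mul_nonneg hA (norm_nonneg _))
    nlinarith

theorem Tri.mol {f : ℂ → ℂ} {r A s : ℝ} (hA : 0 ≤ A) (h : Tri f (r + 2) A) (hs : 0 < s)
    (hs1 : s ≤ 1) {y : ℂ} (hy : ‖y‖ ≤ r) :
    ‖mol s f y - f y‖ ≤ A * s ∧ ∀ j ≤ 2, nD j (mol s f) y ≤ A := by
  have near : ∀ x w : ℂ, ‖x‖ ≤ r + 1 → ‖w‖ ≤ s → ‖x - w‖ ≤ r + 2 := fun x w hx hw =>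
    (norm_sub_le _ _).trans (by linarith)
  have hc := h.1.continuous_fderiv one_ne_zero
  refine ⟨?_, fun j hj => ?_⟩
  · have e : EUL.mol s f y - f y = ∫ w, etas s w • (f (y - w) - f y) := by
      simp only [smul_eq_mul, mul_sub]
      rw [integral_sub (MOL.intg hs (csub h.1.continuous y))
        (MOL.intg hs continuous_const), integral_mul_const, MOL.int_etas hs, one_mul]
      rfl
    rw [e]
    refine avg_le hs fun w hw => (h.lip (near y w (by linarith) hw) (by linarith)).trans ?_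
    rw [sub_sub_cancel_left, norm_neg]
    exact mul_le_mul_of_nonneg_left hw hA
  · interval_cases j
    · rw [nD_zero]
      exact avg_le (G := fun w => f (y - w)) hs fun w hw => (h.2.1 _ (near y w (by linarith) hw)).1
    · rw [nD_one, der_mol hs h.1]
      exact avg_le hs fun w hw => (h.2.1 _ (near y w (by linarith) hw)).2
    · rw [nD_two]
      refine norm_fderiv_le_of_lip' ℝ hA ?_
      filter_upwards [Metric.closedBall_mem_nhds y one_pos] with x hx
      have hx' : ‖x‖ ≤ r + 1 := by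
        rw [Metric.mem_closedBall, dist_eq_norm] at hx
        linarith [norm_sub_norm_le x y]
      rw [der_mol hs h.1, der_mol hs h.1, ← integral_sub (intE hs (csub hc x)) (intE hs (csub hc y))]
      simp only [← smul_sub]
      refine avg_le hs fun w hw => (h.2.2 _ _ (near x w hx' hw)
        (near y w (by linarith) hw)).trans (le_of_eq ?_)
      rw [sub_sub_sub_cancel_right]

theorem mvp_conj (hM : St_MVP) {f h : ℂ → ℂ} {r s : ℝ} {y : ℂ} (hs : 0 < s) (hr : 0 < r)
    (hy : r + s < ‖y‖) (hh : ∀ w, w ≠ 0 → DifferentiableAt ℂ h w)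
    (hf : ∀ w, r ≤ ‖w‖ → f w = (starRingEnd ℂ) (h w)) : mol s f y = f y := by
  have h1 := hM h y s (‖y‖ - r) hs (by linarith) fun w hw => (hh w (by
    rintro rfl
    rw [Metric.mem_ball, dist_eq_norm, zero_sub, norm_neg] at hw
    linarith)).differentiableWithinAt
  rw [hf y (by linarith), ← h1]
  unfold mol
  rw [← integral_conj]
  refine integral_congr_ae (Eventually.of_forall fun w => ?_)
  by_cases hw : ‖w‖ ≤ s
  · simp only [map_mul]
    rw [hf (y - w) (by linarith [norm_sub_norm_le y w])]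
    simp [etas]
  · simp only [MOL.etas_zero hs (not_le.1 hw).le, zero_mul, map_zero]

theorem int_le {F T : ℂ → ℝ} {r c : ℝ} (h0 : ∀ y, 0 ≤ F y) (hT : Continuous T)
    (h1 : ∀ y, ‖y‖ ≤ r → F y ≤ c * T y) (h2 : ∀ y, r < ‖y‖ → F y = 0) :
    ∫ y, F y ≤ c * ∫ y in Metric.closedBall (0 : ℂ) r, T y := by
  rw [← setIntegral_eq_integral_of_forall_compl_eq_zero (s := Metric.closedBall (0 : ℂ) r)
    fun y hy => h2 y (not_le.1 fun h => hy (mem_closedBall_zero_iff.2 h)), ← integral_const_mul]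
  exact integral_mono_of_nonneg (Eventually.of_forall h0)
    ((hT.continuousOn.integrableOn_compact (isCompact_closedBall 0 r)).const_mul c)
    ((ae_restrict_iff' measurableSet_closedBall).2
      (Eventually.of_forall fun y hy => h1 y (mem_closedBall_zero_iff.1 hy)))

theorem cont_T : Continuous fun r : ℝ => 1 / max 1 r ^ 2 :=
  continuous_const.div ((continuous_const.max continuous_id).pow 2) fun _ =>
    (pow_pos (lt_max_of_lt_left one_pos) 2).ne'

theorem int_log {e : ℝ} (he : 1 ≤ e) :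
    ∫ y in Metric.closedBall (0 : ℂ) (4 * e), 1 / max 1 ‖y‖ ^ 2 ≤ 64 * lg e := by
  have hR : 0 ≤ 4 * e := by linarith
  have e0 : ∫ y in Metric.closedBall (0 : ℂ) (4 * e), 1 / max 1 ‖y‖ ^ 2
      = ∫ y : ℂ, (Iic (4 * e)).indicator (fun r : ℝ => 1 / max 1 r ^ 2) ‖y‖ := by
    rw [← integral_indicator measurableSet_closedBall]
    refine integral_congr_ae (Eventually.of_forall fun y => ?_)
    by_cases h : ‖y‖ ≤ 4 * e <;> simp [indicator, h]
  have e1 : EqOn (fun y : ℝ => y ^ (Module.finrank ℝ ℂ - 1) •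
      (Iic (4 * e)).indicator (fun r : ℝ => 1 / max 1 r ^ 2) y)
      ((Ioc (0 : ℝ) (4 * e)).indicator fun y => y * (1 / max 1 y ^ 2)) (Ioi 0) := fun y hy => by
    have hy : 0 < y := hy
    by_cases h : y ≤ 4 * e <;> simp [indicator, h, hy]
  have e2 : ∫ y in Ioc (0 : ℝ) (4 * e), y * (1 / max 1 y ^ 2) ≤ 2 * Real.log (1 + 4 * e) := by
    have hc : ContinuousOn (fun y : ℝ => 2 * (1 + y)⁻¹) (Icc 0 (4 * e)) :=
      continuousOn_const.mul (ContinuousOn.inv₀ (by fun_prop) fun y hy => by linarith [hy.1])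
    have i : IntervalIntegrable (fun y : ℝ => 2 * (1 + y)⁻¹) volume 0 (4 * e) :=
      hc.intervalIntegrable_of_Icc hR
    have hd : ∀ y ∈ uIcc (0 : ℝ) (4 * e), HasDerivAt (fun y => 2 * Real.log (1 + y))
        (2 * (1 + y)⁻¹) y := fun y hy => by
      rw [uIcc_of_le hR] at hy
      have := (((hasDerivAt_id y).const_add 1).log (by simp only [id]; linarith [hy.1])).const_mul 2
      simpa using this
    have v := intervalIntegral.integral_eq_sub_of_hasDerivAt hd i
    rw [intervalIntegral.integral_of_le hR] at v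
    simp only [add_zero, Real.log_one, mul_zero, sub_zero] at v
    rw [← v]
    refine setIntegral_mono_on ((continuous_id.mul cont_T).intervalIntegrable 0 (4 * e)).1 i.1
      measurableSet_Ioc fun y hy => ?_
    have hy0 := hy.1
    rw [mul_one_div, ← div_eq_mul_inv, div_le_div_iff₀ (by positivity) (by linarith)]
    nlinarith [le_max_left 1 y, le_max_right 1 y]
  rw [e0, integral_fun_norm_addHaar, setIntegral_congr_fun measurableSet_Ioi e1,
    setIntegral_indicator measurableSet_Ioc, inter_eq_right.2 Ioc_subset_Ioi_self]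
  have l1 : Real.log (1 + 4 * e) ≤ 4 * lg e := by
    have a : Real.log (1 + 4 * e) ≤ Real.log (5 * e) := Real.log_le_log (by linarith) (by linarith)
    rw [Real.log_mul (by norm_num) (by linarith)] at a
    have b := Real.log_le_sub_one_of_pos (show (0 : ℝ) < 5 by norm_num)
    unfold lg
    linarith [le_abs_self (Real.log e), abs_nonneg (Real.log e)]
  have l0 : 0 ≤ ∫ y in Ioc (0 : ℝ) (4 * e), y * (1 / max 1 y ^ 2) :=
    setIntegral_nonneg measurableSet_Ioc fun y hy => by have := hy.1; positivity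
  simp only [Complex.finrank_real_complex, Measure.real, Complex.volume_ball, smul_eq_mul,
    nsmul_eq_mul]
  simp only [ENNReal.ofReal_one, one_pow, one_mul, ENNReal.coe_toReal, NNReal.coe_real_pi,
    Nat.cast_ofNat]
  nlinarith [Real.pi_le_four, Real.pi_pos]

theorem th_smooth : ContDiff ℝ ∞ fun y : ℂ => (th y : ℂ) :=
  Complex.ofRealCLM.contDiff.comp (Real.smoothTransition.contDiff.comp
    ((contDiff_const.sub (contDiff_norm_sq ℝ)).div_const 3))

theorem th_zero {y : ℂ} (h : 2 ≤ ‖y‖) : th y = 0 :=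
  Real.smoothTransition.zero_of_nonpos (by nlinarith)

theorem th_bound : ∃ C : ℝ, 0 ≤ C ∧ ∀ c : ℝ, 1 ≤ c → ∀ y, ∀ j ≤ 2,
    nD j (fun y => (th (y / (c : ℂ)) : ℂ)) y ≤ C := by
  have hs : HasCompactSupport fun y : ℂ => (th y : ℂ) :=
    HasCompactSupport.intro (isCompact_closedBall (0 : ℂ) 2) fun y hy => by
      rw [th_zero (not_le.1 fun h => hy (mem_closedBall_zero_iff.2 h)).le, Complex.ofReal_zero]
  have hb : ∀ j : ℕ, ∃ C, ∀ y, ‖iteratedFDeriv ℝ j (fun y : ℂ => (th y : ℂ)) y‖ ≤ C := fun j =>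
    (th_smooth.continuous_iteratedFDeriv (le_inf j)).bounded_above_of_compact_support
      (hs.iteratedFDeriv j)
  choose B hB using hb
  have B0 : ∀ j, 0 ≤ B j := fun j => (norm_nonneg _).trans (hB j 0)
  refine ⟨B 0 + B 1 + B 2, by linarith [B0 0, B0 1, B0 2], fun c hc y j hj => ?_⟩
  have e : (fun y : ℂ => (th (y / (c : ℂ)) : ℂ))
      = (fun y : ℂ => (th y : ℂ)) ∘ ContinuousLinearMap.mul ℝ ℂ (c : ℂ)⁻¹ := by
    funext y; simp [div_eq_inv_mul]
  have hn : ‖ContinuousLinearMap.mul ℝ ℂ (c : ℂ)⁻¹‖ ≤ 1 := by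
    refine (ContinuousLinearMap.opNorm_mul_apply_le _ _ _).trans ?_
    rw [norm_inv, Complex.norm_real, Real.norm_of_nonneg (by linarith)]
    exact inv_le_one_of_one_le₀ hc
  unfold nD
  rw [e, ContinuousLinearMap.iteratedFDeriv_comp_right _ th_smooth y (le_inf j)]
  refine (ContinuousMultilinearMap.norm_compContinuousLinearMap_le _ _).trans ?_
  refine (mul_le_of_le_one_right (norm_nonneg _)
    (Finset.prod_le_one (fun _ _ => norm_nonneg _) fun _ _ => hn)).trans ((hB j _).trans ?_)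
  interval_cases j <;> linarith [B0 0, B0 1, B0 2]

theorem mol_lin {s : ℝ} (hs : 0 < s) {f h : ℂ → ℂ} (hf : Continuous f) (hh : Continuous h)
    (a g : ℝ) : mol s (fun y => a * f y + g * h y) = fun y => a * mol s f y + g * mol s h y := by
  funext y
  have i1 := MOL.intg hs (csub hf y)
  have i2 := MOL.intg hs (csub hh y)
  unfold mol
  rw [← integral_const_mul, ← integral_const_mul, ← integral_add (i1.const_mul _) (i2.const_mul _)]
  refine integral_congr_ae (Eventually.of_forall fun w => ?_)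
  simp only
  ring

end PB2

open PB2 in
theorem st_PB2 (hM : St_MVP) (hP : St_PB1) : St_PB2 := by
  intro R hR
  obtain ⟨C1, hC1, -, -, hP1, hP2⟩ := hP R hR
  obtain ⟨K1, hK1, hT1⟩ := ex_tri hR.c1 hR.l1 (R.r0 + 1 + 2)
  obtain ⟨K0, hK0, hT0⟩ := ex_tri hR.c0 hR.l0 (R.r0 + 1 + 2)
  obtain ⟨Ct, hCt, hth⟩ := th_bound
  set K := K1 + K0 with hK
  have hKn : 0 ≤ K := by linarith
  set V := ∫ _ in Metric.closedBall (0 : ℂ) (R.r0 + 1), (1 : ℝ) with hV
  have hV0 : 0 ≤ V := integral_nonneg fun _ => zero_le_one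
  have n1 : 0 ≤ 32 * K ^ 2 * V := by positivity
  have n2 : 0 ≤ 81920 * Ct * C1 ^ 2 := by positivity
  refine ⟨1 + 32 * K ^ 2 * V + 81920 * Ct * C1 ^ 2, by linarith, ?_⟩
  intro e1 e2 a g he1 he11 he2 hg
  set C := 1 + 32 * K ^ 2 * V + 81920 * Ct * C1 ^ 2 with hC
  have he21 : 1 ≤ e2 := by linarith
  have he20 : 0 < e2 := by linarith
  have hga : |g| ≤ |a| := le_trans (le_mul_of_one_le_right (abs_nonneg g) he21) hg
  have hW : Tri (R.W a g) (R.r0 + 1 + 2) (2 * K * |a|) :=
    (hT1 K (by linarith)).lin (hT0 K (by linarith)) hga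
  set A := 2 * K * |a| with hA
  have hA0 : 0 ≤ A := by positivity
  have hA2 : A ^ 2 = 4 * K ^ 2 * a ^ 2 := by rw [hA, mul_pow, mul_pow, sq_abs]; norm_num
  have hW2 := hW.sq hA0
  have cW := hW.1.continuous
  have sm1 := mol_smooth he1 cW
  have sm2 := mol_smooth he20 cW
  have out : ∀ w, R.r0 ≤ ‖w‖ → R.W a g w = (starRingEnd ℂ)
      (a * ((R.r0 : ℂ) ^ 2 / w ^ 2) - g * Complex.I * ((R.r0 : ℂ) ^ 2 / w)) := fun w hw => by
    unfold Raw.W
    rw [hR.out1 w hw, hR.out0 w hw]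
    simp only [map_sub, map_mul, Complex.conj_ofReal, Complex.conj_I]
    ring
  have hol : ∀ w : ℂ, w ≠ 0 → DifferentiableAt ℂ (fun w : ℂ =>
      a * ((R.r0 : ℂ) ^ 2 / w ^ 2) - g * Complex.I * ((R.r0 : ℂ) ^ 2 / w)) w := fun w hw => by
    have := pow_ne_zero 2 hw
    fun_prop (disch := assumption)
  have zA : ∀ y, R.r0 + 1 < ‖y‖ → R.XA e1 a g y = 0 := fun y hy => by
    unfold Raw.XA
    rw [mvp_conj hM he1 hR.rpos (by linarith) hol out,
      mvp_conj hM (f := fun w => R.W a g w ^ 2) he1 hR.rpos (by linarith)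
        (fun w hw => (hol w hw).pow 2) (fun w hw => by rw [out w hw, ← map_pow]; rfl), sub_self]
  have zB : ∀ y, 4 * e2 < ‖y‖ → R.XB e1 e2 a g y = 0 := fun y hy => by
    unfold Raw.XB
    rw [th_zero (by
      rw [norm_div, Complex.norm_real, Real.norm_of_nonneg (by linarith), le_div_iff₀ (by linarith)]
      linarith)]
    simp
  have hlg : 1 ≤ lg e2 := by unfold lg; linarith [abs_nonneg (Real.log e2)]
  have bB : ∀ y, ‖y‖ ≤ 4 * e2 → ∀ j ≤ 2, nD j (R.XB e1 e2 a g) y ≤
      1280 * Ct * C1 ^ 2 * a ^ 2 * lg e2 / e2 ^ 2 * (1 / max 1 ‖y‖ ^ 2) := by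
    intro y hy
    set m := max 1 ‖y‖ with hm
    have hm1 : 1 ≤ m := le_max_left _ _
    have hm0 : 0 < m := by linarith
    have hm4 : m ≤ 4 * e2 := max_le (by linarith) hy
    have f1 : ∀ j ≤ 2, nD j (mol e1 (R.W a g)) y ≤ 5 * C1 * |a| / m ^ 2 := fun j hj => by
      have e : mol e1 (R.W a g) = _ := mol_lin he1 hR.c1.continuous hR.c0.continuous a g
      rw [e]
      refine (nD_lin (mol_smooth he1 hR.c1.continuous) (mol_smooth he1 hR.c0.continuous)
        a g j y).trans ?_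
      have p1 : nD j (mol e1 R.W1) y ≤ C1 / m ^ 2 := (hP1 e1 he1 he11 j hj y).1.trans
        (div_le_div_of_nonneg_left (by linarith) (by positivity)
          (pow_le_pow_right₀ hm1 (by omega)))
      have p0 : nD j (mol e1 R.W0) y ≤ C1 / m ^ 1 := (hP1 e1 he1 he11 j hj y).2.trans
        (div_le_div_of_nonneg_left (by linarith) (by positivity)
          (pow_le_pow_right₀ hm1 (by omega)))
      have q : |g| ≤ 4 * |a| / m := by
        rw [le_div_iff₀ hm0]
        nlinarith [mul_le_mul_of_nonneg_left hm4 (abs_nonneg g)]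
      have b1 := mul_le_mul_of_nonneg_left p1 (abs_nonneg a)
      have b2 := mul_le_mul q p0 (nD_nonneg _ _ _) (by positivity)
      have e' : 5 * C1 * |a| / m ^ 2 = |a| * (C1 / m ^ 2) + 4 * |a| / m * (C1 / m ^ 1) := by
        field_simp; ring
      linarith
    have f2 : ∀ j ≤ 2, nD j (mol e2 (R.W a g)) y ≤ 2 * C1 * |a| * lg e2 / e2 ^ 2 := fun j hj => by
      have e : mol e2 (R.W a g) = _ := mol_lin he20 hR.c1.continuous hR.c0.continuous a g
      rw [e]
      refine (nD_lin (mol_smooth he20 hR.c1.continuous) (mol_smooth he20 hR.c0.continuous)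
        a g j y).trans ?_
      have p1 : nD j (mol e2 R.W1) y ≤ C1 * lg e2 / e2 ^ 2 := (hP2 e2 he21 j hj y hy).1.trans
        (div_le_div_of_nonneg_left (by positivity) (by positivity)
          (pow_le_pow_right₀ he21 (by omega)))
      have p0 : nD j (mol e2 R.W0) y ≤ C1 * lg e2 / e2 ^ 1 := (hP2 e2 he21 j hj y hy).2.trans
        (div_le_div₀ (by positivity) (le_mul_of_one_le_right (by linarith) hlg) (by positivity)
          (pow_le_pow_right₀ he21 (by omega)))
      have q : |g| ≤ |a| / e2 := by rwa [le_div_iff₀ he20]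
      have b1 := mul_le_mul_of_nonneg_left p1 (abs_nonneg a)
      have b2 := mul_le_mul q p0 (nD_nonneg _ _ _) (by positivity)
      have e' : 2 * C1 * |a| * lg e2 / e2 ^ 2
          = |a| * (C1 * lg e2 / e2 ^ 2) + |a| / e2 * (C1 * lg e2 / e2 ^ 1) := by
        field_simp; ring
      linarith
    have st : ContDiff ℝ ∞ fun y : ℂ => (th (y / ((2 * e2 : ℝ) : ℂ)) : ℂ) :=
      th_smooth.comp (contDiff_id.div_const _)
    have l1 := leib contDiff_const st (fun j _ => nD_const (-2) j y) (hth (2 * e2) (by linarith) y)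
    have l2 := leib (contDiff_const.mul st) sm1 l1 f1
    have l3 := leib ((contDiff_const.mul st).mul sm1) sm2 l2 f2
    intro j hj
    refine (l3 j hj).trans (le_of_eq ?_)
    rw [norm_neg, Complex.norm_two, ← sq_abs a]
    field_simp; ring
  have iB : ∀ j ≤ 2, ∫ y, nD j (R.XB e1 e2 a g) y ≤ C * a ^ 2 * lg e2 ^ 2 / e2 ^ 2 := fun j hj => by
    refine (int_le (nD_nonneg j _) (cont_T.comp continuous_norm) (fun y hy => bB y hy j hj)
      fun y hy => nD_ev zB j hy).trans ?_
    refine (mul_le_mul_of_nonneg_left (int_log he21) (by positivity)).trans ?_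
    have e : 1280 * Ct * C1 ^ 2 * a ^ 2 * lg e2 / e2 ^ 2 * (64 * lg e2)
        = 81920 * Ct * C1 ^ 2 * (a ^ 2 * lg e2 ^ 2 / e2 ^ 2) := by ring
    rw [e, mul_assoc C, mul_div_assoc C]
    exact mul_le_mul_of_nonneg_right (by linarith) (by positivity)
  refine ⟨?_, ?_, iB 0 (by norm_num), iB 2 le_rfl⟩
  · refine (int_le (T := fun _ => 1) (c := 6 * A ^ 2 * e1) (nD_nonneg 0 _) continuous_const (fun y hy => ?_)
      fun y hy => nD_ev zA 0 hy).trans ?_
    · have m1 := hW.mol hA0 he1 he11 hy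
      have m2 := (hW2.mol (by positivity) he1 he11 hy).1
      have m3 := m1.2 0 (by norm_num)
      rw [nD_zero] at m3 ⊢
      have e : R.XA e1 a g y = (mol e1 (R.W a g) y - R.W a g y) * (mol e1 (R.W a g) y + R.W a g y)
          - (mol e1 (fun w => R.W a g w ^ 2) y - R.W a g y ^ 2) := by
        unfold Raw.XA; ring
      rw [e]
      refine (norm_sub_le _ _).trans ?_
      rw [norm_mul]
      have b := mul_le_mul m1.1 ((norm_add_le _ _).trans
        (add_le_add m3 (hW.2.1 y (by linarith)).1)) (norm_nonneg _) (by positivity)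
      nlinarith
    · rw [← hV, hA2]
      have e : 6 * (4 * K ^ 2 * a ^ 2) * e1 * V = 24 * K ^ 2 * V * (a ^ 2 * e1) := by ring
      rw [e, mul_assoc C]
      exact mul_le_mul_of_nonneg_right (by nlinarith) (by positivity)
  · refine (int_le (T := fun _ => 1) (c := 8 * A ^ 2) (nD_nonneg 2 _) continuous_const (fun y hy => ?_)
      fun y hy => nD_ev zA 2 hy).trans ?_
    · have m1 := (hW.mol hA0 he1 he11 hy).2
      have m2 := (hW2.mol (by positivity) he1 he11 hy).2 2 le_rfl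
      have e : R.XA e1 a g = fun y => mol e1 (R.W a g) y * mol e1 (R.W a g) y
          - mol e1 (fun w => R.W a g w ^ 2) y := by
        funext y; unfold Raw.XA; ring
      rw [e]
      refine (nD_sub (sm1.mul sm1) (mol_smooth he1 hW2.1.continuous) 2 y).trans ?_
      have := leib sm1 sm1 m1 m1 2 le_rfl
      nlinarith
    · rw [← hV, hA2]
      have e : 8 * (4 * K ^ 2 * a ^ 2) * V = 32 * K ^ 2 * V * a ^ 2 := by ring
      rw [e]
      exact mul_le_mul_of_nonneg_right (by linarith) (by positivity)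

end Pool.Agent.Lib.EUL
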