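import Pool.Agent.Lib.EUL.Blue

/-! Block STAGE: assembly of one stage. -/

set_option autoImplicit false

namespace Pool.Agent.Lib.EUL

open MeasureTheory Set Filter Topology
open scoped ContDiff Classical

namespace STAGE

theorem intCell {f : ℂ → ℝ} (hf : Continuous f) : IntegrableOn f cell := by
  refine (hf.continuousOn.integrableOn_compact (isCompact_closedBall (0 : ℂ) 1)).mono_set fun z hz => ?_
  rw [mem_closedBall_zero_iff]
  refine (Complex.norm_le_abs_re_add_abs_im z).trans ?_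
  have h1 : |z.re| ≤ 1 / 2 := abs_le.2 ⟨by linarith [hz.1.1], hz.1.2⟩
  have h2 : |z.im| ≤ 1 / 2 := abs_le.2 ⟨by linarith [hz.2.1], hz.2.2⟩
  linarith

theorem IQ_tri {f g h : ℂ → ℂ} (hf : Continuous f) (hg : Continuous g) (e : ∀ x, h x = f x + g x) :
    IQ (fun x => ‖h x‖) ≤ IQ (fun x => ‖f x‖) + IQ (fun x => ‖g x‖) := by
  have hh : h = fun x => f x + g x := funext e
  unfold IQ
  rw [← integral_add (intCell hf.norm) (intCell hg.norm), hh]
  exact integral_mono (intCell (hf.add hg).norm) ((intCell hf.norm).add (intCell hg.norm))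
    fun x => norm_add_le _ _

/-- continuous with a Besov bound -/
def CB (f : ℂ → ℂ) (S B : ℝ) : Prop := Continuous f ∧ Bes f S B

theorem CB.add {f g : ℂ → ℂ} {S B S' B' : ℝ} (h : CB f S B) (h' : CB g S' B') :
    CB (fun x => f x + g x) (S + S') (B + B') := by
  refine ⟨h.1.add h'.1, (IQ_tri h.1 h'.1 fun _ => rfl).trans (add_le_add h.2.1 h'.2.1), fun y => ?_⟩
  have hf := h.1
  have hg := h'.1
  refine (IQ_tri (f := fun x => f (x + y) + f (x - y) - 2 * f x) (g := fun x => g (x + y) + g (x - y) - 2 * g x)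
    (by fun_prop) (by fun_prop) fun x => by ring).trans ?_
  rw [add_mul]
  exact add_le_add (h.2.2 y) (h'.2.2 y)

theorem cont {f : ℝ → ℂ → ℂ} (h : SP f) (t : ℝ) : Continuous (f t) :=
  h.1.continuous.comp (Continuous.prodMk_right t)

theorem okMono {P : Par} {C C' : ℝ} (h : P.OK C) (hC : C' ≤ C) : P.OK C' :=
  { h with big := (mul_le_mul_of_nonneg_right hC (by unfold lg; positivity)).trans h.big }

theorem along {V : ℝ → ℂ → ℂ} (h : SP V) {x : ℝ → ℂ} (hx : ContDiff ℝ ∞ x) :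
    ContDiff ℝ ∞ fun t => V t (x t) :=
  ContDiff.comp (f := fun t => (t, x t)) h.1 (contDiff_id.prodMk hx)

end STAGE

open STAGE in
theorem st_STAGE (hMOL : St_MOL) (hALG : St_ALG) (hBUILD : St_BUILD) (hC78 : St_C78) (hC13 : St_C13)
    (hNEWD : St_NEWD) : St_STAGE := by
  obtain ⟨C1, c1, H1⟩ := hBUILD
  obtain ⟨C2, c2, H2⟩ := hC78
  obtain ⟨C3, c3, H3⟩ := hC13
  obtain ⟨C4, c4, H4⟩ := hNEWD
  refine ⟨C1 + C2 + C3 + C4, by linarith, fun P v q a b B ok st => ?_⟩
  obtain ⟨er, ts, bes, ι, _, o, V, dec⟩ := st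
  obtain ⟨N, Bd, bu⟩ := H1 P v q V ι o a b (okMono ok (by linarith)) er.2.1 ts (fun t => (bes t).1) dec
  have k78 := H2 P v q ι o a b _ Bd (okMono ok (by linarith)) bu
  have k13 := H3 P v q V ι o a b _ Bd (okMono ok (by linarith)) dec bu
  obtain ⟨nd, inc⟩ := H4 P v q V ι o a b _ Bd (okMono ok (by linarith)) dec bu
  have er' := hALG v q _ Bd.w Bd.wb Bd.E Bd.Sg (fun i t => Vh v o P.D t (Bd.x i t))
    (fun i t => Vh v o P.D t (Bd.z i t)) er fun i => ⟨bu.wsp i, bu.wbsp i, bu.Esp i, bu.Ssp i, bu.wdiv i,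
      bu.wbdiv i, along bu.Vsp (bu.xsm i), along bu.Vsp (bu.zsm i), bu.eq i⟩
  have lpos : 0 < P.l := by
    have h1 := ok.rpos
    have h2 := ok.rD
    have h3 := ok.Dd2
    have h4 := ok.d2d
    have h5 := ok.dh
    have h6 := ok.hl
    have h7 : 0 ≤ P.G := le_trans (mul_nonneg (by linarith) (by unfold lg; positivity)) ok.big
    have h8 : 0 < P.G := lt_of_lt_of_le (mul_pos (by linarith) (by unfold lg; positivity)) ok.big
    have h9 : 0 < P.G * P.d := mul_pos h8 (by linarith)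
    linarith
  have T0 : 0 ≤ P.T0 := div_nonneg ok.thpos.le (Real.sqrt_nonneg _)
  refine ⟨_, _, ⟨er', ?_, fun t => ?_, nd⟩, ?_⟩
  · intro t ht x
    have out : ∀ i, t ∉ Icc (Bd.tb i - Bd.Tb i) (Bd.tb i + Bd.Tb i) := fun i h =>
      ht ⟨by linarith [h.1, bu.Tle i, (bu.tmem i).1], by linarith [h.2, bu.Tle i, (bu.tmem i).2]⟩
    have q0 : q t = fun _ => 0 := funext (ts t fun h => ht ⟨by linarith [h.1], by linarith [h.2]⟩)
    have w0 : ∀ i, Bd.w i t x = 0 := fun i => bu.wts i t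
      (fun h => out i ⟨(bu.life i).1.trans h.1, h.2.trans (bu.life i).2.2⟩) x
    have wb0 : ∀ i, Bd.wb i t x = 0 := fun i => bu.wbts i t (out i) x
    have E0 : ∀ i, Bd.E i t x = 0 := fun i => bu.Ets i t (out i) x
    simp [bu.src, q0, w0, wb0, E0, mol]
  · obtain ⟨a1, a2, a3, a4, a5⟩ := k78 t
    obtain ⟨a6, a7, a8⟩ := k13 t
    obtain ⟨msp, mb⟩ := hMOL q P.l er.2.1 lpos
    have cq := cont er.2.1 t
    have cm := cont msp t
    have cv := cont er.1 t
    have cV := cont bu.Vsp t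
    have cw := fun i => cont (bu.wsp i) t
    have cwb := fun i => cont (bu.wbsp i) t
    have cE := fun i => cont (bu.Esp i) t
    have cW : Continuous (Bd.W t) := continuous_finsetSum _ fun i _ => cw i
    have cWb : Continuous (Bd.Wb t) := continuous_finsetSum _ fun i _ => cwb i
    have eC : Core o P.D t = fun y => v t y - Vh v o P.D t y := by
      funext y; simp [Vh]
    have cC : Continuous (Core o P.D t) := eC ▸ cv.sub cV
    have b0 : CB _ _ _ := ⟨cq.sub cm, mb t _ _ (bes t)⟩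
    have b1 : CB _ _ _ := ⟨by fun_prop, a1⟩
    have b2 : CB _ _ _ := ⟨by fun_prop, a2⟩
    have b3 : CB _ _ _ := ⟨by fun_prop, a3⟩
    have b4 : CB _ _ _ := ⟨by fun_prop, a4⟩
    have b5 : CB _ _ _ := ⟨by fun_prop, a5⟩
    have b6 : CB _ _ _ := ⟨by fun_prop, a6⟩
    have b7 : CB _ _ _ := ⟨by fun_prop, a7⟩
    have b8 : CB _ _ _ := ⟨by fun_prop, a8⟩
    have tot := (b0.add (((((((b1.add b2).add b3).add b4).add b5).add b6).add b7).add b8)).2
    have key : ∀ {f g : ℂ → ℂ} {S B S' B' : ℝ}, Bes f S B → (∀ y, g y = f y) → S' = S → B' = B → Bes g S' B' := by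
      intro f g S B S' B' h e1 e2 e3
      rw [funext e1, e2, e3]; exact h
    refine key tot (fun y => ?_) (by unfold Par.tot; ring) (by unfold Par.tot; ring)
    have s1 : ∀ (u : Fin N → ℂ) (c : Fin N → ℂ), ∑ i, (v t y - c i) * u i =
        ∑ i, (Vh v o P.D t y - c i) * u i + Core o P.D t y * ∑ i, u i := by
      intro u c
      rw [Finset.mul_sum, ← Finset.sum_add_distrib]
      exact Finset.sum_congr rfl fun i _ => by simp only [Vh]; ring
    simp only [bu.src, BD.W, BD.Wb, Pi.sub_apply]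
    rw [s1, s1]
    ring
  · have e : (fun t y => v t y + ∑ i, Bd.w i t y + ∑ i, Bd.wb i t y - v t y) =
        fun t y => Bd.W t y + Bd.Wb t y := by
      funext t y; simp only [BD.W, BD.Wb]; ring
    exact e ▸ inc

end Pool.Agent.Lib.EUL
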