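import Pool.Agent.Lib.EUL.Defs
import Pool.Agent.Lib.MP_fea353_an.Defs

set_option autoImplicit false

namespace Pool.Agent.Lib.EUL

open MeasureTheory Set Filter Topology
open scoped ContDiff Classical

noncomputable section

/-! ## Tools -/

def St_CS : Prop :=
  (∀ (f : ℂ → ℂ) (l s a : ℝ), ContDiff ℝ ∞ f → Peri f → 0 < s → s ≤ l →
    IQ (nD 0 f) ≤ a → IQ (nD 2 f) ≤ a / s ^ 2 → Cst l f (4 * a * (l / s) ^ al)) ∧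
  (∀ (f : ℂ → ℂ) (l s a0 A : ℝ), ContDiff ℝ ∞ f → Peri f → 0 < s → 0 < l →
    IQ (nD 0 f) ≤ a0 → IQ (nD 1 f) ≤ A / s → IQ (nD 2 f) ≤ A / s ^ 2 →
    Cst l f (a0 + 2 * A * (l / s) ^ al))

def St_MOL : Prop :=
  ∀ (q : ℝ → ℂ → ℂ) (l : ℝ), SP q → 0 < l → SP (fun t => mol l (q t)) ∧
    ∀ t S B, Bes (q t) S B → Bes (fun x => q t x - mol l (q t) x) (B * l ^ al / 2) (2 * B)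

def St_ENV : Prop :=
  ∃ C : ℝ, 1 ≤ C ∧ ∀ (r : ℝ) (p : ℂ), 0 < r → r ≤ 1 →
    IQ (fun x => tau 2 r (pn (x - p))) ≤ C * r ^ 2 * lg r ∧
    IQ (fun x => tau 3 r (pn (x - p))) ≤ C * r ^ 2 ∧
    IQ (fun x => pn (x - p) * tau 3 r (pn (x - p))) ≤ C * r ^ 3 * lg r ∧
    ∀ R : ℝ, 0 < R → IQ (fun x => if pn (x - p) ≤ R then tau 1 r (pn (x - p)) else 0) ≤ C * r * R

def St_PTS : Prop :=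
  ∀ (ι : Type) [Fintype ι] (P : ι → Prop) (p : ι → ℂ) (r M : ℝ) (f : ι → ℝ) (g : ℂ → ℝ),
    0 < r → r ≤ 1 / 4 → Mult P p r M → Continuous g → Peri g → (∀ x, 0 ≤ g x) →
    (∀ i, P i → ∀ x, ‖x - p i‖ ≤ r → f i ≤ g x) →
    r ^ 2 * ∑ i ∈ Finset.univ.filter P, f i ≤ M * IQ g

def St_MAJ : Prop :=
  ∃ C : ℝ, 1 ≤ C ∧
  (∀ (ι : Type) [Fintype ι] (c : ι → ℝ) (p : ι → ℂ) (r M Z : ℝ), 0 < r → r ≤ 1 / 4 →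
    (∀ i, 0 ≤ c i) → Mult (fun i => c i ≠ 0) p r M → ∑ i, c i ^ 2 ≤ Z →
    IQ (fun x => (∑ i, c i * tau 2 r (pn (x - p i))) ^ 2) ≤ C * M * lg r ^ 2 * r ^ 2 * Z) ∧
  (∀ (ι : Type) [Fintype ι] (c : ι → ℝ → ℝ) (p : ι → ℝ → ℂ) (B : ι → ℝ → ℂ → ℂ) (r s M Z : ℝ),
    0 < r → r ≤ 1 / 4 → 0 ≤ s → (∀ i, Continuous (c i)) → (∀ i, Continuous (p i)) →
    (∀ i t, 0 ≤ c i t) → (∀ i, Sm (B i)) → (∀ t, Mult (fun i => c i t ≠ 0) (fun i => p i t) r M) →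
    (∀ t, ∑ i, c i t ^ 2 ≤ Z) → (∀ i t, Dom 2 (B i t) (p i t) (c i t) r s) →
    Maj0 (fun t y => ∑ i, B i t y) r s (C * M * lg r ^ 2 * r ^ 2 * Z))

def St_MJ : Prop :=
  (∀ (V : ℝ → ℂ → ℂ) (l D Y l' D' Y' : ℝ), Maj V l D Y → l' ≤ l → 0 ≤ D' → D' ≤ D → Y ≤ Y' →
    Maj V l' D' Y') ∧
  (∀ (V W : ℝ → ℂ → ℂ) (l D Y Y' : ℝ), Sm V → Sm W → 0 ≤ l → 0 ≤ D → Maj V l D Y → Maj W l D Y' →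
    Maj (fun t x => V t x + W t x) l D (2 * Y + 2 * Y')) ∧
  (∀ (B : ℝ → ℂ → ℂ) (l s X D : ℝ), Maj0 B l s X → 0 < s → 0 ≤ D → D ≤ s → Maj B l D (X / s ^ 2)) ∧
  (∀ (B : ℂ → ℂ) (g : ℂ → ℝ) (l s X M : ℝ) (ι : Type) [Fintype ι] (a : ι → ℝ) (p : ι → ℂ),
    GM0 B g l s X → 0 < l → l ≤ 1 / 4 → (∀ i, 0 ≤ a i) → (∀ i, a i ≤ 1) →
    Mult (fun i => a i ≠ 0) p l M → ∑ i, (a i * ‖B (p i)‖) ^ 2 ≤ M * X / l ^ 2) ∧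
  (∀ (B : ℂ → ℂ) (g : ℂ → ℝ) (l s X : ℝ), ContDiff ℝ ∞ B → GM0 B g l s X → 0 < l → l ≤ 1 / 4 → 0 < s →
    IQ (fun x => ‖B x‖ ^ 2) ≤ X ∧ IQ (fun x => nD 1 B x ^ 2) ≤ X / s ^ 2 ∧ ∀ x, ‖B x‖ ^ 2 ≤ X / l ^ 2)

def St_KER : Prop := ∃ (K : ℂ → ℂ) (C : ℝ), IsKer K C

def St_CAU : Prop :=
  ∀ (K : ℂ → ℂ) (C : ℝ), IsKer K C → IntegrableOn K cell ∧
    (∀ F : ℝ → ℂ → ℂ, SP F → SP (fun t => Cau K (F t)) ∧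
      ∀ t x, dt (fun s => Cau K (F s)) t x = Cau K (dt F t) x) ∧
    (∀ F : ℂ → ℂ, ContDiff ℝ ∞ F → Peri F → ContDiff ℝ ∞ (Cau K F) ∧ Peri (Cau K F) ∧
      (∀ x, dz (Cau K F) x = Cau K (dz F) x) ∧ (∀ x, dzb (Cau K F) x = Cau K (dzb F) x) ∧
      ∀ x, dz (Cau K F) x = F x - ∫ y in cell, F y) ∧
    (∀ (f : ℂ → ℂ) (r : ℝ), Continuous f → r ≤ 1 / 4 → (∀ y, r < ‖y‖ → f y = 0) → ∀ x,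
      Integrable (fun y => K (x - y) * f y) ∧ Cau K (Per f) x = ∫ y, K (x - y) * f y)

def St_K5 : Prop :=
  ∀ (K : ℂ → ℂ) (CK : ℝ), IsKer K CK → ∃ C : ℝ, 1 ≤ C ∧ ∀ y : ℂ,
    IQ (fun x => ‖K (x + y) - K x‖) ≤ C ∧
    (‖y‖ ≤ 1 → IQ (fun x => ‖K (x + y) - K x‖) ≤ C * ‖y‖ * lg ‖y‖)

def St_CSC : Prop :=
  ∀ (K : ℂ → ℂ) (CK : ℝ), IsKer K CK → ∃ C : ℝ, 1 ≤ C ∧
    ∀ (f : ℂ → ℂ) (r s l A : ℝ) (p : ℂ), ContDiff ℝ ∞ f → (∀ y, r < ‖y‖ → f y = 0) →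
      0 < s → s ≤ r → r ≤ l → l ≤ 1 / 4 → ∫ y, f y = 0 → ∫ y, nD 0 f y ≤ A → ∫ y, nD 1 f y ≤ A / s →
      Cst l (Cau K fun y => Per f (y - p)) (C * A * lg s * l * (l / s) ^ (al - 1))

def St_LERA : Prop :=
  ∀ (K : ℂ → ℂ) (CK : ℝ), IsKer K CK → ∀ Q : ℝ → ℂ → ℂ, SP Q →
    SP (fun t => Ler K (Q t)) ∧ DivF (fun t => Ler K (Q t)) ∧
    IsGrad (fun t x => 2 * dz (Q t) x - Ler K (Q t) x) ∧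
    ∀ t x, dt (fun s => Ler K (Q s)) t x = Ler K (dt Q t) x

def St_LERB : Prop :=
  ∀ (K : ℂ → ℂ) (CK : ℝ), IsKer K CK → ∃ C : ℝ, 1 ≤ C ∧
    ∀ (Q : ℂ → ℂ) (R d a : ℝ), ContDiff ℝ ∞ Q → (∀ y, R < ‖y‖ → Q y = 0) → 0 < d → d ≤ R →
      R ≤ 1 / 8 → (∀ k ≤ 4, ∀ y, d ^ k * nD k Q y ≤ a) →
      Dom 3 (Ler K (Per Q)) 0 (C * a * R / d ^ 2) R d

def St_IBP : Prop :=
  (∀ F : ℂ → ℂ, ContDiff ℝ 1 F → Peri F → ∫ x in cell, dz F x = 0 ∧ ∫ x in cell, dzb F x = 0) ∧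
  (∀ F : ℂ → ℂ, ContDiff ℝ 1 F → HasCompactSupport F → ∫ x, dz F x = 0 ∧ ∫ x, dzb F x = 0)

def St_BEU : Prop :=
  ∀ (K : ℂ → ℂ) (CK : ℝ), IsKer K CK → ∀ F : ℂ → ℂ, ContDiff ℝ ∞ F → Peri F →
    IQ (fun x => ‖dzb (Cau K F) x‖ ^ 2) ≤ IQ (fun x => ‖F x‖ ^ 2)

def St_ODE : Prop :=
  ∀ (u : ℝ → ℂ → ℂ) (a b : ℝ) (ξ : ℝ → ℂ) (t0 : ℝ) (x0 : ℂ), SP u → TS u a b → ContDiff ℝ ∞ ξ →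
    ∃ x : ℝ → ℂ, ContDiff ℝ ∞ x ∧ x t0 = x0 ∧ ∀ t, HasDerivAt x (u t (x t) + ξ t) t

def St_GR : Prop :=
  ∀ (u : ℝ → ℂ → ℂ) (z x p p' : ℝ → ℂ) (G : ℝ → ℝ) (a b s r0 r1 r : ℝ), Sm u → Continuous G →
    Continuous p' → (∀ t, HasDerivAt z (u t (z t)) t) → (∀ t, HasDerivAt p (p' t) t) →
    (∀ t, HasDerivAt x (u t (x t) + p' t) t) → s ∈ Icc a b → 0 < r → (∀ t ∈ Icc a b, ‖p t‖ ≤ r1) →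
    ‖x s - z s - p s‖ ≤ r0 → (∀ t ∈ Icc a b, ∀ y, ‖y - z t‖ ≤ r1 + r → nD 1 (u t) y ≤ G t) →
    r0 + (r1 + r) * ∫ t in a..b, G t < r →
    ∀ t ∈ Icc a b, ‖x t - z t - p t‖ ≤ r0 + (r1 + r) * ∫ t in a..b, G t

def St_MVP : Prop :=
  ∀ (g : ℂ → ℂ) (x : ℂ) (s R : ℝ), 0 < s → s < R → DifferentiableOn ℂ g (Metric.ball x R) →
    mol s g x = g x

/-! ## The block -/

def St_BES : Prop :=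
  ∃ (j : ℝ → ℝ) (u0 : ℝ), ContDiff ℝ ∞ j ∧
    (∀ u, 4 * (u * deriv (deriv j) u + deriv j u) + j u = 0) ∧ j 0 = 1 ∧ 0 < u0 ∧ deriv j u0 = 0 ∧
    j u0 ≠ 0

def St_RAW : Prop := ∃ R : Raw, R.Good

def St_PID : Prop :=
  ∀ R : Raw, R.Good → ∀ e1 e2 : ℝ, 0 < e1 → e1 ≤ 1 → R.r0 + 1 ≤ e2 → ∃ p : ℝ → ℝ → ℂ → ℝ,
    ProfId R.M0 e2 (hat e1 e2 R.W1) (hat e1 e2 R.W0) p (R.XA e1) (R.XB e1 e2) (R.XC e2)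

/-- envelopes of the two mollifications -/
def St_PB1 : Prop :=
  ∀ R : Raw, R.Good → ∃ C : ℝ, 1 ≤ C ∧ R.r0 + 1 ≤ C ∧
    (∀ y, ‖R.W1 y‖ ≤ C / max 1 ‖y‖ ^ 2 ∧ ‖R.W0 y‖ ≤ C / max 1 ‖y‖) ∧
    (∀ e1 : ℝ, 0 < e1 → e1 ≤ 1 → ∀ j ≤ 2, ∀ y,
      nD j (mol e1 R.W1) y ≤ C / max 1 ‖y‖ ^ (2 + j) ∧ nD j (mol e1 R.W0) y ≤ C / max 1 ‖y‖ ^ (1 + j)) ∧
    (∀ e2 : ℝ, 1 ≤ e2 → ∀ j ≤ 2, ∀ y, ‖y‖ ≤ 4 * e2 →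
      nD j (mol e2 R.W1) y ≤ C * lg e2 / e2 ^ (2 + j) ∧ nD j (mol e2 R.W0) y ≤ C / e2 ^ (1 + j))

def St_PB2 : Prop :=
  ∀ R : Raw, R.Good → ∃ C : ℝ, 1 ≤ C ∧ ∀ e1 e2 a g : ℝ, 0 < e1 → e1 ≤ 1 → C ≤ e2 → |g| * e2 ≤ |a| →
    ∫ y, nD 0 (R.XA e1 a g) y ≤ C * a ^ 2 * e1 ∧ ∫ y, nD 2 (R.XA e1 a g) y ≤ C * a ^ 2 ∧
    ∫ y, nD 0 (R.XB e1 e2 a g) y ≤ C * a ^ 2 * lg e2 ^ 2 / e2 ^ 2 ∧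
    ∫ y, nD 2 (R.XB e1 e2 a g) y ≤ C * a ^ 2 * lg e2 ^ 2 / e2 ^ 2

def St_PB3 : Prop :=
  ∀ R : Raw, R.Good → ∃ C : ℝ, 1 ≤ C ∧ ∀ e2 a g : ℝ, C ≤ e2 → |g| * e2 ≤ |a| →
    ∫ y, nD 0 (R.XC e2 a g) y ≤ C * a ^ 2 * lg e2 ^ 2 / e2 ∧
    ∫ y, nD 2 (R.XC e2 a g) y ≤ C * a ^ 2 * lg e2 ^ 2 / e2 ^ 3

def St_PROF : Prop :=
  ∃ C M0 : ℝ, 1 ≤ C ∧ 1 ≤ C * M0 ∧ M0 ≤ C ∧ ∀ e1 e2 : ℝ, 0 < e1 → e1 ≤ 1 → C ≤ e2 →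
    ∃ (W1 W0 : ℂ → ℂ) (p : ℝ → ℝ → ℂ → ℝ) (XA XB XC : ℝ → ℝ → ℂ → ℂ),
      ProfId M0 e2 W1 W0 p XA XB XC ∧
      (∀ j ≤ 2, ∀ y, nD j W1 y ≤ C * lg e2 / max 1 ‖y‖ ^ (2 + j) ∧
        nD j W0 y ≤ C / max 1 ‖y‖ ^ (1 + j)) ∧
      (∫ y, nD 0 W1 y ≤ C * lg e2 ^ 2 ∧ ∫ y, nD 1 W1 y ≤ C * lg e2 ∧
        ∫ y, nD 0 W0 y ≤ C * e2 ∧ ∫ y, nD 1 W0 y ≤ C * lg e2) ∧
      ∀ a g : ℝ, |g| * e2 ≤ |a| →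
        ∫ y, nD 0 (XA a g) y ≤ C * a ^ 2 * e1 ∧ ∫ y, nD 2 (XA a g) y ≤ C * a ^ 2 ∧
        ∫ y, nD 0 (XB a g) y ≤ C * a ^ 2 * lg e2 ^ 2 / e2 ^ 2 ∧
        ∫ y, nD 2 (XB a g) y ≤ C * a ^ 2 * lg e2 ^ 2 / e2 ^ 2 ∧
        ∫ y, nD 0 (XC a g) y ≤ C * a ^ 2 * lg e2 ^ 2 / e2 ∧
        ∫ y, nD 2 (XC a g) y ≤ C * a ^ 2 * lg e2 ^ 2 / e2 ^ 3

def St_DIP : Prop :=
  ∃ C M0 : ℝ, 1 ≤ C ∧ 1 ≤ C * M0 ∧ M0 ≤ C ∧ ∀ (rho d e1 L : ℝ) (U φ : ℝ → ℝ), 0 < rho →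
    C * rho ≤ d → d ≤ 1 / 16 → 0 < e1 → e1 ≤ 1 → lg (d / rho) ≤ L → ContDiff ℝ ∞ U →
    ContDiff ℝ ∞ φ → (∀ t, |deriv φ t| * d ≤ |U t|) →
    ∃ w1 w0 XA XB XC : ℝ → ℂ → ℂ, Loc w1 (2 * d) ∧ Loc w0 (2 * d) ∧ Loc XA (4 * d) ∧
      Loc XB (4 * d) ∧ Loc XC (4 * d) ∧
      (∀ t, ∫ y, w1 t y = 0 ∧ ∫ y, w0 t y = 0 ∧
        ∫ y, nD 0 (w1 t) y ≤ C * rho ^ 2 * L ^ 2 ∧ ∫ y, nD 1 (w1 t) y ≤ C * rho * L ∧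
        ∫ y, nD 0 (w0 t) y ≤ C * rho ^ 2 * d ∧ ∫ y, nD 1 (w0 t) y ≤ C * rho ^ 2 * L) ∧
      (∀ t, ∫ y, nD 0 (XA t) y ≤ C * U t ^ 2 * rho ^ 2 * e1 ∧ ∫ y, nD 2 (XA t) y ≤ C * U t ^ 2 ∧
        ∫ y, nD 0 (XB t) y ≤ C * U t ^ 2 * rho ^ 2 * L ^ 2 * (rho / d) ^ 2 ∧
        ∫ y, nD 2 (XB t) y ≤ C * U t ^ 2 * L ^ 2 * (rho / d) ^ 2 ∧
        ∫ y, nD 0 (XC t) y ≤ C * U t ^ 2 * rho ^ 2 * L ^ 2 * (rho / d) ∧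
        ∫ y, nD 2 (XC t) y ≤ C * U t ^ 2 * rho ^ 2 * L ^ 2 * (rho / d) / d ^ 2) ∧
      (∀ t, U t = 0 → ∀ y, XA t y = 0 ∧ XB t y = 0 ∧ XC t y = 0) ∧
      (∀ t, ∀ j ≤ 2, ∀ y, nD j (fun y => U t * w1 t y + deriv φ t * w0 t y) y
        ≤ C * L * |U t| * rho ^ 2 / max rho ‖y‖ ^ (2 + j)) ∧
      ∀ x c : ℝ → ℂ, ContDiff ℝ ∞ x → ContDiff ℝ ∞ c →
        (∀ t, HasDerivAt x (c t + U t * ex (φ t)) t) →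
        DivF (mv (fun t y => U t * w1 t y + deriv φ t * w0 t y) x) ∧
        IsGrad (fun t y => dt (mv (fun t y => U t * w1 t y + deriv φ t * w0 t y) x) t y
          + dz (fun w => 2 * c t * mv (fun t y => U t * w1 t y + deriv φ t * w0 t y) x t w) y
          + dz (fun w => mv (fun t y => U t * w1 t y + deriv φ t * w0 t y) x t w ^ 2) y
          - dz (mv (fun t y => U t ^ 2 * rho ^ 2 * M0 * ex (2 * φ t) * etas d y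
              + XA t y + XB t y + XC t y) x t) y
          - (deriv U t * mv w1 x t y + deriv (deriv φ) t * mv w0 x t y))

/-! ## The path -/

def St_ROUND : Prop :=
  ∃ C : ℝ, 1 ≤ C ∧ ∀ (h : ℝ) (σ : Fin 6 → ℝ), 0 < h → (∀ j, 0 ≤ σ j) → ∃ φ : ℝ → ℝ,
    ContDiff ℝ ∞ φ ∧ (∀ s ≤ 0, φ s = 0) ∧ (∀ s, ∑ j, σ j + 6 * h ≤ s → φ s = 2 * Real.pi) ∧
    (∀ s, |deriv φ s| ≤ C / h ∧ |deriv (deriv φ) s| ≤ C / h ^ 2) ∧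
    ∫ s in (0 : ℝ)..(∑ j, σ j + 6 * h), ex (φ s) = ∑ j : Fin 6, σ j * ej j ∧
    ∫ s in (0 : ℝ)..(∑ j, σ j + 6 * h), ex (2 * φ s) = ∑ j : Fin 6, σ j * ej j ^ 2

def St_TOUR : Prop :=
  ∃ C : ℝ, 1 ≤ C ∧ ∀ h : ℝ, 0 < h → ∃ (φk : Fin 3 → ℝ → ℝ) (Yk : Fin 3 → ℝ → ℂ),
    (∀ k, Continuous (φk k) ∧ Continuous (Yk k) ∧ (∀ s ∈ Icc 0 (8 * h), ‖Yk k s‖ ≤ 8 * h) ∧
      ∫ s in (0 : ℝ)..(8 * h), ex (2 * φk k s) = 2 * h * ej k ^ 2) ∧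
    ∀ (ι : Type) [Fintype ι] (c : ι → ℂ) (N : ι → Fin 3 → ℕ) (R : ℝ), 0 ≤ R → (∀ i, ‖c i‖ ≤ R) →
      ∃ (Λ : ℝ) (φ : ℝ → ℝ) (Y : ℝ → ℂ) (L : ι × Bool → ℝ) (ψ : ι × Bool → ℝ → ℝ)
        (Z : ι × Bool → ℝ → ℂ), 0 ≤ Λ ∧ Λ ≤ ∑ i, (8 * h * ∑ k, (N i k : ℝ) + 12 * h + 4 * R) ∧
        ContDiff ℝ ∞ φ ∧ (∀ s, |deriv φ s| ≤ C / h ∧ |deriv (deriv φ) s| ≤ C / h ^ 2) ∧
        (∀ s, HasDerivAt Y (ex (φ s)) s) ∧ (∀ s ∈ Icc 0 Λ, ‖Y s‖ ≤ 3 * R + 8 * h) ∧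
        (∀ j, 0 ≤ L j ∧ L j ≤ 6 * h + 2 * R ∧ Continuous (ψ j) ∧ Continuous (Z j) ∧
          ∀ s ∈ Icc 0 (L j), ‖Z j s‖ ≤ 3 * R + 8 * h) ∧
        ∀ g : ℂ → ℂ, Continuous g → ∫ s in (0 : ℝ)..Λ, ex (2 * φ s) * g (Y s) =
          (∑ i, ∑ k, (N i k : ℂ) * ∫ s in (0 : ℝ)..(8 * h), ex (2 * φk k s) * g (c i + Yk k s))
          + ∑ j, ∫ s in (0 : ℝ)..(L j), ex (2 * ψ j s) * g (Z j s)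

def St_RIEM : Prop :=
  ∃ C : ℝ, 1 ≤ C ∧ ∀ l d2 : ℝ, 0 < d2 → d2 ≤ l → ∃ A : Finset (ℤ × ℤ),
    (A.card : ℝ) ≤ C * l ^ 2 / d2 ^ 2 ∧ (∀ n ∈ A, ‖(d2 : ℂ) * lat n‖ ≤ 12 * l) ∧
    ∀ (β g : ℂ → ℂ) (L : ℝ) (k : ℕ), ContDiff ℝ ∞ β → ContDiff ℝ ∞ g → HasCompactSupport g →
      (∀ y, 6 * l < ‖y‖ → β y = 0) → (∀ y, ‖β y‖ ≤ 1) → (∀ y, nD 1 β y ≤ L) →
      ∫ y, nD k (fun y => ∑ n ∈ A, (d2 : ℂ) ^ 2 * β (d2 * lat n) * g (y - d2 * lat n)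
          - ∫ w, β w * g (y - w)) y
        ≤ C * l ^ 2 * d2 * (L * (∫ y, nD k g y) + ∫ y, nD (k + 1) g y)

def St_PATH0 : Prop :=
  ∃ C : ℝ, 1 ≤ C ∧ ∀ (l h d d2 N0 : ℝ) (μ : ℂ → ℂ), 0 < d2 → d2 ≤ d → d ≤ h → h ≤ l → l ≤ N0 * h →
    ContDiff ℝ ∞ μ → (∀ y, 3 * l < ‖y‖ → μ y = 0) → (∀ k ≤ 3, ∀ y, l ^ k * nD k μ y ≤ 1 / 2) →
    ∃ (Λ : ℝ) (φ : ℝ → ℝ) (Y : ℝ → ℂ) (R1 R2 : ℂ → ℂ), 0 ≤ Λ ∧ Λ ≤ C * N0 * h * l ^ 2 / d2 ^ 2 ∧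
      ContDiff ℝ ∞ φ ∧ (∀ s, |deriv φ s| ≤ C / h ∧ |deriv (deriv φ) s| ≤ C / h ^ 2) ∧
      (∀ s, HasDerivAt Y (ex (φ s)) s) ∧ (∀ s ∈ Icc 0 Λ, ‖Y s‖ ≤ 50 * l) ∧
      ContDiff ℝ ∞ R1 ∧ ContDiff ℝ ∞ R2 ∧ (∀ y, 60 * l < ‖y‖ → R1 y = 0 ∧ R2 y = 0) ∧
      (∀ y, ∫ s in (0 : ℝ)..Λ, ex (2 * φ s) * etas d (y - Y s)
        = (2 * h * N0 / d2 ^ 2 : ℝ) * μ y + R1 y + R2 y) ∧
      ∀ k : ℕ, k = 0 ∨ k = 2 →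
        ∫ y, nD k R1 y ≤ C * (N0 * h * l ^ 2 / d2 ^ 2) * (h / l) / l ^ k ∧
        ∫ y, nD k R2 y ≤ C * (N0 * h * l ^ 2 / d2 ^ 2) * (l / (N0 * h) + d2 / d) / d ^ k

def St_PATH : Prop :=
  ∃ C : ℝ, 1 ≤ C ∧ ∀ (l h d d2 u T τ c0 A t0 : ℝ) (m : ℂ → ℂ), 0 < d2 → d2 ≤ d → d ≤ h → h ≤ l →
    0 < u → 0 < τ → τ ≤ T / 4 → 0 < c0 → h ≤ u * τ → C * l ^ 3 ≤ u * T * d2 ^ 2 →
    ContDiff ℝ ∞ m → (∀ y, 3 * l < ‖y‖ → m y = 0) → (∀ k ≤ 3, ∀ y, l ^ k * nD k m y ≤ A) →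
    C * A * l ^ 2 ≤ c0 * u ^ 2 * T →
    ∃ (U φ : ℝ → ℝ) (Y : ℝ → ℂ) (e0 : ℝ) (R1 R2 : ℂ → ℂ), ContDiff ℝ ∞ U ∧ ContDiff ℝ ∞ φ ∧
      ContDiff ℝ ∞ Y ∧ t0 + τ ≤ e0 ∧ e0 ≤ t0 + T ∧ (∀ t, 0 ≤ U t ∧ U t ≤ u) ∧
      (∀ t, t ∉ Icc t0 e0 → U t = 0) ∧
      (∀ t, |deriv U t| ≤ C * u / τ ∧ |deriv φ t| * h ≤ C * U t ∧
        |deriv (deriv φ) t| ≤ C * u ^ 2 / h ^ 2) ∧
      (∀ t, HasDerivAt Y (U t * ex (φ t)) t) ∧ (∀ t, ‖Y t‖ ≤ 50 * l) ∧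
      ContDiff ℝ ∞ R1 ∧ ContDiff ℝ ∞ R2 ∧ (∀ y, 60 * l < ‖y‖ → R1 y = 0 ∧ R2 y = 0) ∧
      (∀ y, m y + c0 * ∫ t, U t ^ 2 * ex (2 * φ t) * etas d (y - Y t) = R1 y + R2 y) ∧
      ∀ k : ℕ, k = 0 ∨ k = 2 →
        ∫ y, nD k R1 y ≤ C * c0 * u ^ 2 * T * (h / l) / l ^ k ∧
        ∫ y, nD k R2 y ≤ C * c0 * u ^ 2 * T * (l ^ 3 / (u * T * d2 ^ 2) + d2 / d + τ / T) / d ^ k

/-! ## Boxes -/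

/-- facts on local averages -/
def St_AVG : Prop :=
  ∀ (F : ℝ → ℂ → ℝ) (l : ℝ), Continuous (fun p : ℝ × ℂ => F p.1 p.2) → (∀ t, Peri (F t)) →
    (∀ t x, 0 ≤ F t x) → 0 < l → l ≤ 1 / 10000 →
    (∀ r, Continuous fun p : ℝ × ℂ => avg F r l p.1 p.2) ∧ (∀ r t, Peri (avg F r l t)) ∧
    (∀ r t z, 0 ≤ avg F r l t z) ∧
    (∀ r s t z z', pn (z - z') ≤ s * l → avg F r l t z ≤ avg F (r + s) l t z') ∧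
    (∀ r t z, r ≤ 1000 → avg F r l t z ≤ IQ (F t) / l ^ 2) ∧
    (∀ r t, 0 ≤ r → IQ (avg F r l t) ≤ 4 * r ^ 2 * IQ (F t)) ∧
    (∀ r t (z y : ℂ) (c : ℝ), ‖y - z‖ ≤ (r - 1) * l → (∀ x, ‖x - y‖ ≤ l → c ≤ F t x) → c ≤ avg F r l t z)

/-- hypotheses of the box construction -/
def BoxIn (u : ℝ → ℂ → ℂ) (F : ℝ → ℂ → ℝ) (l Y : ℝ) : Prop :=
  SP u ∧ (∃ a b, TS u a b) ∧ Continuous (fun p : ℝ × ℂ => F p.1 p.2) ∧ (∀ t, Peri (F t)) ∧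
    (∀ t x, 0 ≤ F t x) ∧ (∀ t, IQ (F t) ≤ Y) ∧ (∀ t x y, ‖x - y‖ ≤ l → nD 1 (u t) y ^ 2 ≤ F t x) ∧
    0 < l ∧ l ≤ 1 / 10000 ∧ 0 < Y

def St_WIT : Prop :=
  ∃ C : ℝ, 1 ≤ C ∧ ∀ (u : ℝ → ℂ → ℂ) (F : ℝ → ℂ → ℝ) (l Y : ℝ), BoxIn u F l Y →
    ∀ (ι : Type) [Fintype ι] (X : ι → ℝ → ℂ) (t0 T thr M : ℝ), 0 < T → 0 < thr → T * thr ≤ 1 / 100 →
      (∀ i t, HasDerivAt (X i) (u t (X i t)) t) → Mult (fun _ => True) (fun i => X i t0) (4 * l) M →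
      (∀ i, 2 * thr < ∫ t in (t0 - T)..(t0 + T), avg F 501 l t (X i t)) →
      (Fintype.card ι : ℝ) * thr ≤ C * T * M * Y / l ^ 2

def St_COVER : Prop :=
  ∃ C : ℝ, 1 ≤ C ∧ ∀ (u : ℝ → ℂ → ℂ) (F : ℝ → ℂ → ℝ) (l Y th0 a b : ℝ), BoxIn u F l Y → 0 < th0 →
    th0 ≤ 1 / 100 → ∃ (N : ℕ) (tb Tb : Fin N → ℝ) (z : Fin N → ℝ → ℂ),
      (∀ i, 0 < Tb i ∧ Tb i ≤ th0 / √Y ∧ tb i ∈ Icc (a - th0 / √Y) (b + th0 / √Y)) ∧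
      (∀ i, ContDiff ℝ ∞ (z i) ∧ ∀ t, HasDerivAt (z i) (u t (z i t)) t) ∧
      (∀ t ∈ Icc a b, ∀ x, ∃ i, |t - tb i| ≤ Tb i / 2 ∧ pn (x - z i t) ≤ l) ∧
      (∀ i, ∫ t in (tb i - 2 * Tb i)..(tb i + 2 * Tb i), avg F 500 l t (z i t) ≤ th0 ^ 2 / Tb i) ∧
      (∀ t, ∑ i ∈ Finset.univ.filter (fun i => |t - tb i| ≤ 2 * Tb i), (th0 / Tb i) ^ 2
        ≤ C * lg l * Y / l ^ 2) ∧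
      ∀ t, Mult (fun i => |t - tb i| ≤ 2 * Tb i) (fun i => z i t) (110 * l) (C * lg l)

def St_POU : Prop :=
  ∀ (N : ℕ) (tb Tb : Fin N → ℝ) (z : Fin N → ℝ → ℂ) (l a b : ℝ), 0 < l → l ≤ 1 / 8 → (∀ i, 0 < Tb i) →
    (∀ i, ContDiff ℝ ∞ (z i)) → (∀ t ∈ Icc a b, ∀ x, ∃ i, |t - tb i| ≤ Tb i / 2 ∧ pn (x - z i t) ≤ l) →
    ∃ chi : Fin N → ℝ → ℂ → ℝ, (∀ i, Loc (chi i) (2 * l)) ∧ (∀ i t y, 0 ≤ chi i t y ∧ chi i t y ≤ 1) ∧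
      (∀ i, TS (chi i) (tb i - Tb i) (tb i + Tb i)) ∧
      ∀ t ∈ Icc a b, ∀ x, ∑ i, mv (chi i) (z i) t x = 1

def St_SRC : Prop :=
  ∃ C : ℝ, 1 ≤ C ∧ ∀ (u q : ℝ → ℂ → ℂ) (F : ℝ → ℂ → ℝ) (l th0 T0 a b Mz Zg kq : ℝ) (β : Type)
    [Fintype β] (tb Tb : β → ℝ) (z : β → ℝ → ℂ) (chi : β → ℝ → ℂ → ℝ),
    Boxes u F l th0 T0 a b Mz Zg tb Tb z chi → 0 < l → l ≤ 1 / 10000 → 0 ≤ kq →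
    Continuous (fun p : ℝ × ℂ => F p.1 p.2) → (∀ t x, 0 ≤ F t x) → SP q → TS q a b →
    (∀ t x, ‖q t x‖ ≤ kq * F t x) →
    ∃ S : β → ℝ → ℂ → ℂ, (∀ i, Loc (S i) (3 * l) ∧ TS (S i) (tb i - Tb i) (tb i + Tb i) ∧
        ∀ k ≤ 4, ∀ y, l ^ k * ∫ t, nD k (S i t) y ≤ C * kq * th0 ^ 2 / Tb i) ∧
      ∀ t x, ∑ i, mv (S i) (z i) t x = mol l (q t) x

/-! ## Avoidance -/

def St_AV : Prop :=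
  ∀ (ι : Type) [Fintype ι] (γ γ' : ι → ℝ → ℂ) (lam : ι → ℝ → ℝ) (s e : ι → ℝ) (Ex : Finset ι)
    (Gr : Finset ℂ) (D r1 : ℝ), 0 < D → r1 ≤ 1 / 4 → (∀ i t, HasDerivAt (γ i) (γ' i t) t) →
    (∀ i, Continuous (γ' i)) → (∀ i, Continuous (lam i)) → (∀ i t, 0 ≤ lam i t) → (∀ i, s i ≤ e i) →
    (∀ i, ∀ t ∈ Icc (s i) (e i), pn (γ i t) ≤ r1 → ‖γ' i t‖ ≤ lam i t) →
    (∀ a ∈ Gr, ‖a‖ ≤ r1 - 6 * D) → (∀ a ∈ Gr, ∀ a' ∈ Gr, a ≠ a' → 12 * D ≤ ‖a - a'‖) →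
    (∀ i, i ∉ Ex → (∀ t ∈ Icc (s i) (e i), pn (γ i t) ≤ r1) → D ≤ ∫ t in (s i)..(e i), lam i t) →
    2 * (∑ i, ∫ t in (s i)..(e i), lam i t) / D + Ex.card < Gr.card →
    ∃ a ∈ Gr, ∀ i, ∀ t ∈ Icc (s i) (e i), 5 * D ≤ pn (γ i t - a)

def St_PLACE : Prop :=
  ∀ (u : ℝ → ℂ → ℂ) (ι β : Type) [Fintype ι] [Fintype β] (o : ι → Ob) (lam : ι → ℝ → ℝ)
    (tb Tb s e ub : β → ℝ) (z ξ Y : β → ℝ → ℂ) (G H : β → ℝ → ℝ) (l D d0 th1 LL Lam M : ℝ),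
    SP u → (∃ a b, TS u a b) → 0 < D → 12 * D ≤ d0 → 2 * d0 ≤ l → l ≤ 1 / 10000 → 52 * l * th1 ≤ D →
    (∀ j, (o j).Good) → (∀ j, Continuous (lam j)) → (∀ j t, 0 ≤ lam j t) →
    (∀ j, ∀ t ∈ Icc (o j).s (o j).e, ‖deriv (o j).x t - u t ((o j).x t)‖ ≤ lam j t ∧ (o j).u ≤ lam j t) →
    (∀ j, D ≤ (o j).u * ((o j).e - (o j).s)) →
    (∀ t, Mult (fun j => (o j).a t ≠ 0) (fun j => (o j).x t) (60 * l) M) →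
    (∀ i, 0 < Tb i) → (∀ i, tb i - Tb i ≤ s i ∧ s i ≤ e i ∧ e i ≤ tb i + Tb i) →
    (∀ i t, HasDerivAt (z i) (u t (z i t)) t) → (∀ i, ContDiff ℝ ∞ (ξ i)) →
    (∀ i t, HasDerivAt (Y i) (ξ i t) t) → (∀ i t, ‖ξ i t‖ ≤ ub i ∧ ‖Y i t‖ ≤ 50 * l) →
    (∀ i, D ≤ ub i * (e i - s i)) → (∀ i, ub i * Tb i ≤ Lam) →
    (∀ i, Continuous (G i)) → (∀ i, Continuous (H i)) →
    (∀ i t y, ‖y - z i t‖ ≤ 400 * l → nD 1 (u t) y ≤ G i t) →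
    (∀ i, ∫ t in (tb i - 2 * Tb i)..(tb i + 2 * Tb i), G i t ≤ th1) →
    (∀ i t, ∑ j ∈ Finset.univ.filter (fun j => pn ((o j).x t - z i t) ≤ 52 * l), lam j t ≤ H i t) →
    (∀ i, ∫ t in (tb i - 2 * Tb i)..(tb i + 2 * Tb i), H i t ≤ LL) →
    (∀ t, Mult (fun i => |t - tb i| ≤ 2 * Tb i) (fun i => z i t) (110 * l) M) →
    2 * (LL + 2 * M * (52 * l * th1 + 4 * Lam)) / D + 4 * M < (d0 / (50 * D)) ^ 2 →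
    ∃ x : β → ℝ → ℂ, (∀ i, ContDiff ℝ ∞ (x i) ∧ ∀ t, HasDerivAt (x i) (u t (x i t) + ξ i t) t) ∧
      (∀ i t, |t - tb i| ≤ 2 * Tb i → ‖x i t - z i t - Y i t‖ ≤ d0 + D) ∧
      (∀ i j t, t ∈ Icc (s i) (e i) → t ∈ Icc (o j).s (o j).e → 4 * D ≤ pn (x i t - (o j).x t)) ∧
      ∀ i j t, i ≠ j → t ∈ Icc (s i) (e i) → t ∈ Icc (s j) (e j) → 4 * D ≤ pn (x i t - x j t)

/-! ## One box -/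

def St_CORR : Prop :=
  ∃ C : ℝ, 1 ≤ C ∧ ∀ (Z : ℝ → ℂ → ℂ) (z : ℝ → ℂ) (R d a tb T : ℝ), Loc Z R → TS Z (tb - T) (tb + T) →
    0 < T → 0 < d → d ≤ R → R ≤ 1 / 8 → ContDiff ℝ ∞ z →
    (∀ k ≤ 4, ∀ y, d ^ k * ∫ t, nD k (Z t) y ≤ a) →
    ∃ (wb : ℝ → ℂ → ℂ) (fb : ℝ → ℝ), ContDiff ℝ ∞ fb ∧ (∀ t, 0 ≤ fb t ∧ fb t ≤ C / T) ∧
      (∀ t, t ∉ Icc (tb - T) (tb + T) → fb t = 0) ∧ ContDiff ℝ ∞ (fun y => ∫ t, Z t y) ∧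
      SP wb ∧ DivF wb ∧ TS wb (tb - T) (tb + T) ∧
      (∀ t, Dom 3 (wb t) (z t) (C * a * R / d ^ 2) R d) ∧
      IsGrad (fun t y => dt wb t y + dz (fun x => 2 * deriv z t * wb t x) y + 2 * dz (mv Z z t) y
        - 2 * dz (mv (fun t y => fb t * ∫ s, Z s y) z t) y)

def St_CELL : Prop :=
  ∃ C : ℝ, 1 ≤ C ∧ ∀ (l rho d h d2 del e1 f u T tb L : ℝ) (S : ℝ → ℂ → ℂ), 0 < rho → C * rho ≤ d →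
    0 < d2 → d2 ≤ d → C * d ≤ h → h ≤ l → l ≤ 1 / 10000 → 0 ≤ del → del ≤ l → 0 < e1 → e1 ≤ 1 →
    0 < f → f ≤ 1 / 4 → 0 < u → 0 < T → h ≤ f * (u * T) → C * l ^ 3 ≤ u * T * d2 ^ 2 → lg rho ≤ L →
    Loc S (3 * l) → TS S (tb - T) (tb + T) →
    (∀ k ≤ 4, ∀ y, C * l ^ 2 * (l ^ k * ∫ t, nD k (S t) y) ≤ rho ^ 2 * u ^ 2 * T) →
    ∃ (ξ Y : ℝ → ℂ) (s e : ℝ), ContDiff ℝ ∞ ξ ∧ (∀ t, HasDerivAt Y (ξ t) t) ∧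
      (∀ t, ‖ξ t‖ ≤ u ∧ ‖Y t‖ ≤ 50 * l) ∧ tb - T ≤ s ∧ s + f * T ≤ e ∧ e ≤ tb + T ∧
      ∀ x z c : ℝ → ℂ, ContDiff ℝ ∞ x → ContDiff ℝ ∞ z → ContDiff ℝ ∞ c →
        (∀ t, HasDerivAt x (c t + ξ t) t) → (∀ t, |t - tb| ≤ T → ‖x t - z t - Y t‖ ≤ del) →
        ∃ w wb E : ℝ → ℂ → ℂ, SP w ∧ SP wb ∧ SP E ∧ DivF w ∧ DivF wb ∧ TS w s e ∧
          TS wb (tb - T) (tb + T) ∧ TS E (tb - T) (tb + T) ∧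
          (∀ t, Env (w t) (x t) (C * L * u) rho ∧ Supp (w t) (x t) (2 * d) ∧
            Dom 3 (wb t) (z t) (C * rho ^ 2 * u ^ 2 * T * l / d ^ 4) l d ∧
            Cst l (E t) (C * L ^ 3 * u ^ 2 * rho ^ 2 * Gam l rho d h d2 del e1 f (u * T))) ∧
          CellEq w wb E (mv S z) c (deriv z)

/-! ## Interaction errors, at a fixed time -/

def St_CORE : Prop :=
  ∃ C : ℝ, 1 ≤ C ∧ ∀ (o : Ob) (D l : ℝ), o.Good → o.rho ≤ D → D ≤ l → D ≤ 1 / 8 →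
    SP (o.core D) ∧ ∀ t, Supp (o.core D t) (o.x t) (2 * D) ∧
      Dom 2 (o.core D t) (o.x t) (C * (o.a t * o.u)) o.rho o.rho ∧
      Dom 2 (fun y => o.W t y - o.core D t y) (o.x t) (C * (o.a t * o.u) * (o.rho / D) ^ 2) l D

def St_SHEAR : Prop :=
  ∃ C : ℝ, 1 ≤ C ∧ ∀ (ι : Type) [Fintype ι] (W : ι → ℂ → ℂ) (p : ι → ℂ) (c : ι → ℝ) (V : ℂ → ℂ)
    (g : ℂ → ℝ) (l D Y rho M Z : ℝ), 0 < rho → rho ≤ D → rho ≤ l → l ≤ 1 / 4 →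
    ContDiff ℝ ∞ V → Peri V → GM V g l D Y → (∀ i, ContDiff ℝ ∞ (W i) ∧ Peri (W i) ∧ 0 ≤ c i ∧
      Env (W i) (p i) (c i) rho ∧ Supp (W i) (p i) (l / 2)) →
    Mult (fun i => c i ≠ 0) p l M → ∑ i, c i ^ 2 ≤ Z →
    Cst l (fun y => ∑ i, (V y - V (p i)) * W i y)
      (C * lg rho * √(M * Y * Z) * rho ^ 2 * (l / rho) ^ (al - 1))

def St_FAR : Prop :=
  ∃ C : ℝ, 1 ≤ C ∧ ∀ (ι : Type) [Fintype ι] (B : ι → ℂ → ℂ) (p : ι → ℂ) (c : ι → ℝ) (V : ℂ → ℂ)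
    (g : ℂ → ℝ) (l d D Y M Z : ℝ), 0 < D → D ≤ d → d ≤ l → l ≤ 1 / 4 →
    ContDiff ℝ ∞ V → Peri V → GM V g l D Y → (∀ i, ContDiff ℝ ∞ (B i) ∧ Peri (B i) ∧ 0 ≤ c i ∧
      Dom 3 (B i) (p i) (c i) l d) → Mult (fun i => c i ≠ 0) p l M → ∑ i, c i ^ 2 ≤ Z →
    Cst l (fun y => ∑ i, (V y - V (p i)) * B i y)
      (C * lg l * l ^ 2 * √(M * Y * Z) * (l / d) * (l / D) ^ (al - 1))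

def St_SQ : Prop :=
  ∃ C : ℝ, 1 ≤ C ∧ ∀ (B : ℂ → ℂ) (g : ℂ → ℝ) (l s X : ℝ), 0 < s → s ≤ l → ContDiff ℝ ∞ B → Peri B →
    GM0 B g l s X → Cst l (fun y => B y ^ 2 / 2) (C * X * (l / s) ^ al)

def St_FF : Prop :=
  ∃ C : ℝ, 1 ≤ C ∧ ∀ (ι : Type) [Fintype ι] (W : ι → ℂ → ℂ) (p : ι → ℂ) (c r : ι → ℝ) (B : ℂ → ℂ)
    (g : ℂ → ℝ) (l s X M L Om : ℝ), 0 ≤ L → s ≤ l → 0 < l → l ≤ 1 / 4 → ContDiff ℝ ∞ B → Peri B →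
    GM0 B g l s X → (∀ i, ContDiff ℝ ∞ (W i) ∧ Peri (W i) ∧ 0 ≤ c i ∧ 0 < r i ∧ r i ≤ s ∧
      lg (r i) ≤ L ∧ Dom 2 (W i) (p i) (c i) (r i) (r i) ∧ Supp (W i) (p i) (l / 2)) →
    Mult (fun i => c i ≠ 0) p l M → ∑ i, (c i * r i ^ (2 - al)) ^ 2 ≤ Om →
    Cst l (fun y => (∑ i, W i y) * B y) (C * L * l ^ al * √(Om * M * X) / l)

def St_PAIR : Prop :=
  ∃ C : ℝ, 1 ≤ C ∧ ∀ (ι κ : Type) [Fintype ι] [Fintype κ] (W : ι → ℂ → ℂ) (p : ι → ℂ) (c r : ι → ℝ)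
    (W' : κ → ℂ → ℂ) (p' : κ → ℂ) (c' : κ → ℝ) (A : Finset (ι × κ)) (l D rho R M L Om Z : ℝ),
    0 < rho → rho ≤ D → D ≤ l → l ≤ 1 / 4 → R ≤ l / 2 → lg rho ≤ L →
    (∀ i, ContDiff ℝ ∞ (W i) ∧ Peri (W i) ∧ 0 ≤ c i ∧ 0 < r i ∧ r i ≤ D ∧ lg (r i) ≤ L ∧
      Dom 2 (W i) (p i) (c i) (r i) (r i) ∧ Supp (W i) (p i) R) →
    (∀ k, ContDiff ℝ ∞ (W' k) ∧ Peri (W' k) ∧ 0 ≤ c' k ∧ Env (W' k) (p' k) (c' k) rho ∧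
      Supp (W' k) (p' k) (l / 2)) →
    (R ≤ 2 * D ∨ ∀ i, r i = rho) →
    (∀ a ∈ A, (∀ y, W a.1 y = 0) ∨ (∀ y, W' a.2 y = 0) ∨ 4 * D ≤ pn (p a.1 - p' a.2)) →
    Mult (fun i => c i ≠ 0) p l M → Mult (fun k => c' k ≠ 0) p' l M →
    ∑ i, (c i * r i ^ (2 - al)) ^ 2 ≤ Om → ∑ k, c' k ^ 2 ≤ Z →
    Cst l (fun y => ∑ a ∈ A, W a.1 y * W' a.2 y) (C * L * M * (rho / D) ^ 2 * l ^ al * √(Om * Z))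

def St_ALG : Prop :=
  ∀ (v q : ℝ → ℂ → ℂ) (β : Type) [Fintype β] (w wb E Sg : β → ℝ → ℂ → ℂ) (c cb : β → ℝ → ℂ),
    ER v q → (∀ i, SP (w i) ∧ SP (wb i) ∧ SP (E i) ∧ SP (Sg i) ∧ DivF (w i) ∧ DivF (wb i) ∧
      ContDiff ℝ ∞ (c i) ∧ ContDiff ℝ ∞ (cb i) ∧ CellEq (w i) (wb i) (E i) (Sg i) (c i) (cb i)) →
    ER (fun t y => v t y + ∑ i, w i t y + ∑ i, wb i t y)
      (fun t y => q t y - ∑ i, Sg i t y + ∑ i, E i t y + ∑ i, (v t y - c i t) * w i t y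
        + ∑ i, (v t y - cb i t) * wb i t y + ((∑ i, w i t y) ^ 2 - ∑ i, w i t y ^ 2) / 2
        + (∑ i, w i t y) * (∑ i, wb i t y) + (∑ i, wb i t y) ^ 2 / 2)

/-! ## The stage -/

def St_PREP : Prop :=
  ∃ C : ℝ, 1 ≤ C ∧ ∀ (P : Par) (v q V : ℝ → ℂ → ℂ) (ι : Type) [Fintype ι] (o : ι → Ob) (a b : ℝ),
    P.OK C → SP q → (∀ t, IQ (fun x => ‖q t x‖) ≤ P.S) →
    Dec v V o a b P.l P.D P.rho P.Y P.Xi P.Z P.G →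
    ∃ (g F : ℝ → ℂ → ℝ) (lam : ι → ℝ → ℝ), TS (Vh v o P.D) a b ∧
      Continuous (fun p : ℝ × ℂ => g p.1 p.2) ∧ (∀ t, GM (Vh v o P.D t) (g t) P.l P.D (4 * P.Y)) ∧
      Maj0 (Ot o P.D) P.l P.D (P.G ^ 16 * P.l ^ 2 * P.D ^ (al - 2) * P.S / P.rho ^ al) ∧
      BoxIn (Vh v o P.D) F P.l (6 * P.Y) ∧ (∀ t x, ‖q t x‖ ≤ (P.n * P.rho) ^ 2 * F t x) ∧
      (∀ j, Continuous (lam j)) ∧ (∀ j t, 0 ≤ lam j t) ∧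
      (∀ j, ∀ t ∈ Icc (o j).s (o j).e,
        ‖deriv (o j).x t - Vh v o P.D t ((o j).x t)‖ ≤ lam j t ∧ (o j).u ≤ lam j t) ∧
      ∀ t z, ∑ j ∈ Finset.univ.filter (fun j => pn ((o j).x t - z) ≤ 52 * P.l), lam j t
        ≤ 3721 / P.kap * √(avg F 500 P.l t z)

def St_BUILD : Prop :=
  ∃ C : ℝ, 1 ≤ C ∧ ∀ (P : Par) (v q V : ℝ → ℂ → ℂ) (ι : Type) [Fintype ι] (o : ι → Ob) (a b : ℝ),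
    P.OK C → SP q → TS q a b → (∀ t, IQ (fun x => ‖q t x‖) ≤ P.S) →
    Dec v V o a b P.l P.D P.rho P.Y P.Xi P.Z P.G →
    ∃ (N : ℕ) (B : BD (Fin N)), Built P v q o a b B

/-- majorants of the new fields -/
def St_NMAJ : Prop :=
  ∃ C : ℝ, 1 ≤ C ∧ ∀ (P : Par) (v q : ℝ → ℂ → ℂ) (ι : Type) [Fintype ι] (o : ι → Ob) (a b : ℝ)
    (β : Type) [Fintype β] (B : BD β), P.OK C → Built P v q o a b B →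
    Maj0 B.Wb P.l P.d (P.G ^ 12 * P.bt ^ 2 * P.l ^ 2 * P.S / P.rho ^ 2) ∧
    Maj0 B.W P.rho P.rho (P.G ^ 13 * P.S) ∧
    ∀ t, Mult (fun i => B.act i t) (fun i => B.x i t) P.l P.G

def St_C78 : Prop :=
  ∃ C : ℝ, 1 ≤ C ∧ ∀ (P : Par) (v q : ℝ → ℂ → ℂ) (ι : Type) [Fintype ι] (o : ι → Ob) (a b : ℝ)
    (β : Type) [Fintype β] (B : BD β), P.OK C → Built P v q o a b B → ∀ t,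
    Cst P.l (fun y => ∑ i, B.E i t y)
      (P.S * P.G ^ 15 * Gam P.l P.rho P.d P.h P.d2 (2 * P.d2) P.e1 P.f P.Lam) ∧
    Cst P.l (fun y => ∑ i, (Vh v o P.D t y - Vh v o P.D t (B.x i t)) * B.w i t y)
      (P.S * P.G ^ 15 * ((P.l / P.rho) ^ (al - 1) / P.n)) ∧
    Cst P.l (fun y => ∑ i, (Vh v o P.D t y - Vh v o P.D t (B.z i t)) * B.wb i t y)
      (P.S * P.G ^ 15 * (P.bt * (P.l / P.rho) ^ 2 / P.n * (P.l / P.d) * (P.l / P.D) ^ (al - 1))) ∧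
    Cst P.l (fun y => B.Wb t y ^ 2 / 2)
      (P.S * P.G ^ 15 * (P.bt ^ 2 * (P.l / P.rho) ^ 2 * (P.l / P.d) ^ al)) ∧
    Cst P.l (fun y => B.W t y * B.Wb t y) (P.S * P.G ^ 15 * (P.bt * (P.l / P.rho) ^ al))

def St_C13 : Prop :=
  ∃ C : ℝ, 1 ≤ C ∧ ∀ (P : Par) (v q V : ℝ → ℂ → ℂ) (ι : Type) [Fintype ι] (o : ι → Ob) (a b : ℝ)
    (β : Type) [Fintype β] (B : BD β), P.OK C → Dec v V o a b P.l P.D P.rho P.Y P.Xi P.Z P.G →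
    Built P v q o a b B → ∀ t,
    Cst P.l (fun y => Core o P.D t y * B.Wb t y)
      (P.S * P.G ^ 15 * (P.bt * P.l ^ al * √(P.D ^ (2 - al) / P.rho ^ al) / P.rho)) ∧
    Cst P.l (fun y => Core o P.D t y * B.W t y)
      (P.S * P.G ^ 15 * (P.rho / P.D ^ 2 * P.l ^ al * √(P.D ^ (2 - al) / P.rho ^ al))) ∧
    Cst P.l (fun y => (B.W t y ^ 2 - ∑ i, B.w i t y ^ 2) / 2)
      (P.S * P.G ^ 15 * ((P.rho / P.D) ^ 2 * (P.l / P.rho) ^ al))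

def St_NEWD : Prop :=
  ∃ C : ℝ, 1 ≤ C ∧ ∀ (P : Par) (v q V : ℝ → ℂ → ℂ) (ι : Type) [Fintype ι] (o : ι → Ob) (a b : ℝ)
    (β : Type) [Fintype β] (B : BD β), P.OK C → Dec v V o a b P.l P.D P.rho P.Y P.Xi P.Z P.G →
    Built P v q o a b B →
    HasDec (fun t y => v t y + B.W t y + B.Wb t y) (a - 2 * P.T0) (b + 2 * P.T0) (P.l / 60) P.D P.rho
      (4 * P.Y) (2 * P.Xi) (P.G ^ 19 * P.S / P.rho ^ 2) (2 * P.G) ∧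
    Inc (fun t y => B.W t y + B.Wb t y) (P.G ^ 7 * √P.S) P.rho

def St_STAGE : Prop :=
  ∃ C : ℝ, 1 ≤ C ∧ ∀ (P : Par) (v q : ℝ → ℂ → ℂ) (a b B : ℝ), P.OK C →
    State v q a b P.l P.D P.rho P.S B P.Y P.Xi P.Z P.G →
    ∃ v' q' : ℝ → ℂ → ℂ, State v' q' (a - 2 * P.T0) (b + 2 * P.T0) (P.l / 60) P.D P.rho
        (B * P.l ^ al / 2 + P.S * P.G ^ 15 * P.tot) (2 * B + P.S * P.G ^ 15 * P.tot / P.l ^ al)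
        (4 * P.Y) (2 * P.Xi) (P.G ^ 19 * P.S / P.rho ^ 2) (2 * P.G) ∧
      Inc (fun t y => v' t y - v t y) (P.G ^ 7 * √P.S) P.rho

def St_ABS : Prop :=
  ∃ C : ℝ, 1 ≤ C ∧ ∀ (v : ℝ → ℂ → ℂ) (a b l D rho Y Xi Z M l' D' rho' Y' Xi' Z' M' : ℝ),
    HasDec v a b l D rho Y Xi Z M → 0 < D' → D' ≤ D → D ≤ l' → l' ≤ l → l ≤ 1 / 4 → rho' ≤ rho →
    2 * Y + C * M * lg l' ^ 2 * l' ^ 2 * D' ^ (al - 4) * Xi ≤ Y' → Xi ≤ Xi' →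
    2 * Z + C * M ^ 2 * lg l' ^ 2 * D' ^ (al - 2) * Xi ≤ Z' → M ≤ M' →
    HasDec v a b l' D' rho' Y' Xi' Z' M'

def St_START : Prop :=
  ∃ C : ℝ, 1 ≤ C ∧ ∀ (δ : ℝ) (k : ℕ) (l D rho S B Y Xi Z M : ℝ), 0 < δ → 1 ≤ k → 0 ≤ D → D * k ≤ 1 →
    C * δ / k ≤ S → C * δ * (k : ℝ) ^ (al - 1) ≤ B → (C * δ * k) ^ 2 ≤ Y → 0 ≤ Xi → 0 ≤ Z → 0 ≤ M →
    ∃ v q : ℝ → ℂ → ℂ, State v q (1 / 4) (3 / 4) l D rho S B Y Xi Z M ∧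
      ∀ t ∈ Icc (9 / 20 : ℝ) (11 / 20), (δ / 2) ^ 2 ≤ IQ fun x => ‖v t x‖ ^ 2

def St_NUM : Prop :=
  ∀ C : ℝ, 1 ≤ C → ∃ (P : ℕ → Par) (B : ℕ → ℝ) (δ : ℝ) (k : ℕ), (∀ m, (P m).OK C) ∧
    (∀ m, B m * (P m).l ^ al / 2 + (P m).S * (P m).G ^ 15 * (P m).tot ≤ (P (m + 1)).S ∧
      2 * B m + (P m).S * (P m).G ^ 15 * (P m).tot / (P m).l ^ al ≤ B (m + 1) ∧
      (P (m + 1)).D ≤ (P m).D ∧ (P m).D ≤ (P (m + 1)).l ∧ (P (m + 1)).l ≤ (P m).l / 60 ∧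
      (P (m + 1)).rho ≤ (P m).rho ∧
      2 * (4 * (P m).Y) + C * (2 * (P m).G) * lg (P (m + 1)).l ^ 2 * (P (m + 1)).l ^ 2
        * (P (m + 1)).D ^ (al - 4) * (2 * (P m).Xi) ≤ (P (m + 1)).Y ∧
      2 * (P m).Xi ≤ (P (m + 1)).Xi ∧
      2 * ((P m).G ^ 19 * (P m).S / (P m).rho ^ 2) + C * (2 * (P m).G) ^ 2 * lg (P (m + 1)).l ^ 2
        * (P (m + 1)).D ^ (al - 2) * (2 * (P m).Xi) ≤ (P (m + 1)).Z ∧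
      2 * (P m).G ≤ (P (m + 1)).G) ∧
    (∀ N, ∑ m ∈ Finset.range N, (P m).T0 ≤ 1 / 16) ∧
    Tendsto (fun m => (P m).S) atTop (𝓝 0) ∧
    Summable (fun m => (P m).G ^ 7 * √(P m).S * (P m).rho ^ (-(11 / 20 : ℝ))) ∧
    0 < δ ∧ 1 ≤ k ∧ (P 0).D * k ≤ 1 ∧ C * δ / k ≤ (P 0).S ∧ C * δ * (k : ℝ) ^ (al - 1) ≤ B 0 ∧
    (C * δ * k) ^ 2 ≤ (P 0).Y ∧ ∑' m, (P m).G ^ 7 * √(P m).S < δ / 2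

def St_SEQ : Prop := ∃ (v q : ℕ → ℝ → ℂ → ℂ) (S A rho : ℕ → ℝ), Seq v q S A rho

/-! ## The limit -/

def St_WK : Prop :=
  ∀ (K : ℂ → ℂ) (CK : ℝ), IsKer K CK →
    (∀ (ψ : ℝ → ℂ → ℝ) (v : ℝ → ℂ → ℂ), Test ψ → SP v → DivF v →
      ∫ z, (v z.1 z.2 * (starRingEnd ℂ) (grad (ψ z.1) z.2)).re ∂m2 = 0) ∧
    ∀ Φ : ℝ → ℂ → ℂ, Test Φ → ∃ (Ξ : ℝ → ℂ → ℂ) (b : ℝ), Continuous (fun p : ℝ × ℂ => Ξ p.1 p.2) ∧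
      (∀ t x, ‖Ξ t x‖ ≤ b) ∧ ∀ v q : ℝ → ℂ → ℂ, ER v q →
        ∫ z, ((v z.1 z.2 * (starRingEnd ℂ) (dt Φ z.1 z.2)).re
          + (v z.1 z.2 ^ 2 * dz (cj (Φ z.1)) z.2).re
          + Pr K (v z.1) z.2 * (2 * (dz (Φ z.1) z.2).re)) ∂m2 = ∫ z, (q z.1 z.2 * Ξ z.1 z.2).re ∂m2

/-- the limit velocity -/
def St_LIMV : Prop :=
  ∀ (v q : ℕ → ℝ → ℂ → ℂ) (S A rho : ℕ → ℝ), Seq v q S A rho → ∃ u : ℝ → ℂ → ℂ,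
    Measurable (fun z : ℝ × ℂ => u z.1 z.2) ∧ MemLp (fun z : ℝ × ℂ => u z.1 z.2) 2 m2 ∧
    Tendsto (fun N => ∫ z, ‖u z.1 z.2 - v N z.1 z.2‖ ^ 2 ∂m2) atTop (𝓝 0) ∧
    ∀ t, MemLp (u t) 2 (volume.restrict cell) ∧
      Tendsto (fun N => IQ fun x => ‖u t x - v N t x‖ ^ 2) atTop (𝓝 0)

/-- the limit pressure -/
def St_LIMP : Prop :=
  ∀ (K : ℂ → ℂ) (CK : ℝ), IsKer K CK →
    ∀ (v q : ℕ → ℝ → ℂ → ℂ) (S A rho : ℕ → ℝ), Seq v q S A rho → ∃ Pl : ℝ → ℂ → ℝ,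
      Measurable (fun z : ℝ × ℂ => Pl z.1 z.2) ∧ Integrable (fun z : ℝ × ℂ => Pl z.1 z.2) m2 ∧
      Tendsto (fun N => ∫ z, |Pl z.1 z.2 - Pr K (v N z.1) z.2| ∂m2) atTop (𝓝 0)

def St_LIM : Prop :=
  ∀ (v q : ℕ → ℝ → ℂ → ℂ) (S A rho : ℕ → ℝ), Seq v q S A rho → ∃ (u : ℝ → ℂ → ℂ) (p : ℝ → ℂ → ℝ),
    Weak2 u p ∧ ∀ t, MemLp (u t) 2 (volume.restrict cell) ∧
      Tendsto (fun N => IQ fun x => ‖u t x - v N t x‖ ^ 2) atTop (𝓝 0)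

/-- the projection to the cell preserves measure -/
def St_PR : Prop :=
  MeasurePreserving pr MP_fea353_an.mu (volume.restrict cell) ∧
    ∀ (E : Type) (f : ℂ → E), Peri f → ∀ y : Fin 3 → ℝ,
      f (pr fun i => (y i : UnitAddCircle)) = f (y 0 + y 1 * Complex.I)

def St_T3 : Prop :=
  ∀ (u : ℝ → ℂ → ℂ) (p : ℝ → ℂ → ℝ), Weak2 u p →
    MP_fea353_an.WeakEuler 1 (fun t => liftU (u t)) (fun t x => p t (pr x))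

/-- `H^{11/20}` bound of one smooth increment -/
def St_HS1 : Prop :=
  ∀ (f : ℂ → ℂ) (A rho : ℝ) (i : Fin 3), ContDiff ℝ ∞ f → Peri f → 0 < rho → rho ≤ 1 → 0 ≤ A →
    IQ (fun x => ‖f x‖ ^ 2) ≤ A ^ 2 → IQ (fun x => nD 1 f x ^ 2) ≤ A ^ 2 / rho ^ 2 →
    MP_fea353_an.HsNormSq (11 / 20) (fun x => liftU f x i)
      ≤ ENNReal.ofReal ((2 * A * rho ^ (-(11 / 20 : ℝ))) ^ 2)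

def St_HS : Prop :=
  ∀ (v q : ℕ → ℝ → ℂ → ℂ) (S A rho : ℕ → ℝ) (u : ℝ → ℂ → ℂ), Seq v q S A rho →
    (∀ t, MemLp (u t) 2 (volume.restrict cell) ∧
      Tendsto (fun N => IQ fun x => ‖u t x - v N t x‖ ^ 2) atTop (𝓝 0)) →
    ∃ M : ℝ, ∀ t i, MP_fea353_an.HsNormSq (11 / 20) (fun x => liftU (u t) x i) ≤ ENNReal.ofReal M

def St_EN : Prop :=
  ∀ (v q : ℕ → ℝ → ℂ → ℂ) (S A rho : ℕ → ℝ) (u : ℝ → ℂ → ℂ), Seq v q S A rho →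
    (∀ t, MemLp (u t) 2 (volume.restrict cell) ∧
      Tendsto (fun N => IQ fun x => ‖u t x - v N t x‖ ^ 2) atTop (𝓝 0)) →
    (∀ t < (1 / 8 : ℝ), MP_fea353_an.energy (liftU (u t)) = 0) ∧
    ∃ c : ℝ, 0 < c ∧ ∀ t ∈ Icc (9 / 20 : ℝ) (11 / 20), c ≤ MP_fea353_an.energy (liftU (u t))

def St_MAIN : Prop :=
  ∃ (v : ℝ → MP_fea353_an.T3 → Fin 3 → ℝ) (p : ℝ → MP_fea353_an.T3 → ℝ),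
    MP_fea353_an.WeakEuler 1 v p ∧
    (∃ M : ℝ, ∀ t i, MP_fea353_an.HsNormSq (11 / 20) (fun x => v t x i) ≤ ENNReal.ofReal M) ∧
    (∀ t < (1 / 8 : ℝ), MP_fea353_an.energy (v t) = 0) ∧
    ∃ c : ℝ, 0 < c ∧ ∀ t ∈ Icc (9 / 20 : ℝ) (11 / 20), c ≤ MP_fea353_an.energy (v t)

theorem st_main (h1 : St_SEQ) (h2 : St_LIM) (h3 : St_T3) (h4 : St_HS) (h5 : St_EN) : St_MAIN := by
  obtain ⟨v, q, S, A, rho, H⟩ := h1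
  obtain ⟨u, p, hw, hl⟩ := h2 v q S A rho H
  exact ⟨_, _, h3 u p hw, h4 v q S A rho u H hl, h5 v q S A rho u H hl⟩

end

end Pool.Agent.Lib.EUL
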