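import Pool.Agent.Lib.EUL.Blue

set_option autoImplicit false

namespace Pool.Agent.Lib.EUL

open MeasureTheory Set Filter Topology
open scoped ContDiff Classical

namespace DIP

/-! ### rotation and scaling -/

theorem polar {A : ℂ} (hA : A ≠ 0) : ∃ u : Circle, ∀ y, A * y = ‖A‖ • rotation u y := by
  have h : (‖A‖ : ℂ) ≠ 0 := by simpa using hA
  refine ⟨⟨A / ‖A‖, by simp [Submonoid.unitSphere, hA]⟩, fun y => ?_⟩
  rw [rotation_apply, Complex.real_smul]
  show A * y = ‖A‖ * (A / ‖A‖ * y)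
  field_simp

theorem integral_sc {E : Type} [NormedAddCommGroup E] [NormedSpace ℝ E] (g : ℂ → E) {A : ℂ}
    (hA : A ≠ 0) : ∫ y, g (A * y) = (‖A‖ ^ 2)⁻¹ • ∫ y, g y := by
  obtain ⟨u, hu⟩ := polar hA
  simp only [hu]
  rw [(rotation u).measurePreserving.integral_comp (rotation u).toHomeomorph.measurableEmbedding
    (fun z => g (‖A‖ • z)), Measure.integral_comp_smul, Complex.finrank_real_complex,
    abs_of_nonneg (by positivity)]

theorem nD_sc {f : ℂ → ℂ} (hf : ContDiff ℝ ∞ f) (b : ℂ) {A : ℂ} (hA : A ≠ 0) (j : ℕ) (y : ℂ) :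
    nD j (fun x => b * f (A * x)) y = ‖b‖ * ‖A‖ ^ j * nD j f (A * y) := by
  obtain ⟨u, hu⟩ := polar hA
  have hj : ContDiff ℝ j f := hf.of_le (by exact_mod_cast le_top)
  have h1 : ContDiffAt ℝ j (fun x => f (A * x)) y :=
    (hj.comp (contDiff_const.mul contDiff_id)).contDiffAt
  have h2 := iteratedFDeriv_const_smul_apply' (a := b) h1
  simp only [smul_eq_mul] at h2
  unfold nD
  rw [h2, norm_smul, mul_assoc]
  refine congrArg (fun r => ‖b‖ * r) ?_
  have h3 := (rotation u).norm_iteratedFDeriv_comp_right (fun z => f (‖A‖ • z)) y j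
  simp only [hu]
  refine h3.trans ?_
  rw [iteratedFDeriv_comp_const_smul _ hj, norm_smul, norm_pow, norm_norm]

theorem integral_nD_sc {f : ℂ → ℂ} (hf : ContDiff ℝ ∞ f) (b : ℂ) {A : ℂ} (hA : A ≠ 0) (j : ℕ) :
    ∫ y, nD j (fun x => b * f (A * x)) y = ‖b‖ * ‖A‖ ^ j * (‖A‖ ^ 2)⁻¹ * ∫ y, nD j f y := by
  simp only [nD_sc hf b hA]
  rw [integral_const_mul, integral_sc (nD j f) hA, smul_eq_mul]
  ring

theorem nD_add {f g : ℂ → ℂ} (hf : ContDiff ℝ ∞ f) (hg : ContDiff ℝ ∞ g) (j : ℕ) (y : ℂ) :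
    nD j (fun x => f x + g x) y ≤ nD j f y + nD j g y := by
  unfold nD
  rw [fun_iteratedFDeriv_add_apply (hf.of_le (by exact_mod_cast le_top)).contDiffAt
    (hg.of_le (by exact_mod_cast le_top)).contDiffAt]
  exact norm_add_le _ _

theorem nD_zero {f : ℂ → ℂ} {r : ℝ} (hf : ∀ y, r < ‖y‖ → f y = 0) (j : ℕ) {y : ℂ} (hy : r < ‖y‖) :
    nD j f y = 0 := by
  have h : f =ᶠ[𝓝 y] fun _ => 0 := by
    filter_upwards [(isOpen_lt continuous_const continuous_norm).mem_nhds hy] with x hx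
      using hf x hx
  unfold nD
  rw [(h.iteratedFDeriv ℝ j).self_of_nhds, iteratedFDeriv_fun_zero]
  simp

/-! ### Wirtinger calculus -/

theorem fderiv_eq (f : ℂ → ℂ) (x v : ℂ) :
    fderiv ℝ f x v = v * dz f x + (starRingEnd ℂ) v * dzb f x := by
  have h : v = v.re • (1 : ℂ) + v.im • Complex.I := by simp
  have h1 : fderiv ℝ f x v = v.re * fderiv ℝ f x 1 + v.im * fderiv ℝ f x Complex.I := by
    conv_lhs => rw [h]
    rw [map_add, map_smul, map_smul, Complex.real_smul, Complex.real_smul]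
  have h2 : (starRingEnd ℂ) v = v.re - v.im * Complex.I := by
    apply Complex.ext <;> simp
  have h3 : v = v.re + v.im * Complex.I := (Complex.re_add_im v).symm
  rw [h1, h2, dz, dzb]
  generalize (v.re : ℂ) = a at *
  generalize (v.im : ℂ) = b at *
  rw [h3]
  linear_combination (b * fderiv ℝ f x Complex.I) * Complex.I_mul_I

theorem fderiv_sc {f : ℂ → ℂ} (b A y : ℂ) (hf : DifferentiableAt ℝ f (A * y)) (v : ℂ) :
    fderiv ℝ (fun x => b * f (A * x)) y v = b * fderiv ℝ f (A * y) (A * v) := by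
  have h : HasFDerivAt (fun x : ℂ => A * x) (A • ContinuousLinearMap.id ℝ ℂ) y :=
    (hasFDerivAt_id y).const_smul A
  have h2 := (hf.hasFDerivAt.comp y h).const_mul b
  rw [show (fun x => b * f (A * x)) = fun x => b * (f ∘ fun x => A * x) x from rfl, h2.fderiv]
  simp

theorem dz_sc {f : ℂ → ℂ} (b A y : ℂ) (hf : DifferentiableAt ℝ f (A * y)) :
    dz (fun x => b * f (A * x)) y = b * A * dz f (A * y) := by
  rw [dz, fderiv_sc b A y hf, fderiv_sc b A y hf, fderiv_eq, fderiv_eq]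
  simp only [map_mul, map_one, Complex.conj_I]
  linear_combination (-(b * A * dz f (A * y)) / 2 +
    b * (starRingEnd ℂ) A * dzb f (A * y) / 2) * Complex.I_mul_I

theorem dzb_sc {f : ℂ → ℂ} (b A y : ℂ) (hf : DifferentiableAt ℝ f (A * y)) :
    dzb (fun x => b * f (A * x)) y = b * (starRingEnd ℂ) A * dzb f (A * y) := by
  rw [dzb, fderiv_sc b A y hf, fderiv_sc b A y hf, fderiv_eq, fderiv_eq]
  simp only [map_mul, map_one, Complex.conj_I]
  linear_combination ((b * A * dz f (A * y)) / 2 -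
    b * (starRingEnd ℂ) A * dzb f (A * y) / 2) * Complex.I_mul_I

theorem grad_re {f : ℂ → ℂ} {y : ℂ} (hf : DifferentiableAt ℝ f y) :
    grad (fun x => (f x).re) y = dzb f y + (starRingEnd ℂ) (dz f y) := by
  have h := (Complex.ofRealCLM.hasFDerivAt.comp y
    (Complex.reCLM.hasFDerivAt.comp y hf.hasFDerivAt)).fderiv
  unfold grad dzb dz
  rw [show (fun x => (((f x).re : ℝ) : ℂ)) = Complex.ofRealCLM ∘ Complex.reCLM ∘ f from rfl, h]
  rw [map_div₀, map_ofNat]
  apply Complex.ext <;> simp <;> ring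

theorem grad_neg_sub {p q : ℂ → ℝ} {y : ℂ} (hp : DifferentiableAt ℝ p y)
    (hq : DifferentiableAt ℝ q y) : grad (fun x => -p x - q x) y = -grad p y - grad q y := by
  have a := Complex.ofRealCLM.hasFDerivAt.comp y hp.hasFDerivAt
  have b := Complex.ofRealCLM.hasFDerivAt.comp y hq.hasFDerivAt
  have c := (a.neg.sub b).fderiv
  unfold grad dzb
  rw [show (fun x => (p x : ℂ)) = Complex.ofRealCLM ∘ p from rfl,
    show (fun x => (q x : ℂ)) = Complex.ofRealCLM ∘ q from rfl, a.fderiv, b.fderiv,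
    show (fun x => ((-p x - q x : ℝ) : ℂ)) = -Complex.ofRealCLM ∘ p - Complex.ofRealCLM ∘ q from
      funext fun x => by simp, c]
  simp only [sub_apply, neg_apply]
  ring

theorem grad_sc {p : ℂ → ℝ} (A y : ℂ) (hp : DifferentiableAt ℝ p (A * y)) :
    grad (fun x => p (A * x)) y = (starRingEnd ℂ) A * grad p (A * y) := by
  have h := dzb_sc (f := fun x => (p x : ℂ)) 1 A y
    (Complex.ofRealCLM.differentiableAt.comp _ hp)
  simp only [one_mul] at h
  unfold grad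
  rw [h]; ring

theorem dz_shift {F g : ℂ → ℂ} {a y : ℂ} (h : F =ᶠ[𝓝 y] fun x => g (x - a)) :
    dz F y = dz g (y - a) := by
  unfold dz
  rw [h.fderiv_eq, fderiv_comp_sub]

theorem grad_shift {F g : ℂ → ℝ} {a y : ℂ} (h : F =ᶠ[𝓝 y] fun x => g (x - a)) :
    grad F y = grad g (y - a) := by
  have h' : (fun x => (F x : ℂ)) =ᶠ[𝓝 y] fun x => (fun w => (g w : ℂ)) (x - a) := by
    filter_upwards [h] with x hx using congrArg _ hx
  unfold grad dzb
  rw [h'.fderiv_eq, fderiv_comp_sub (f := fun w => (g w : ℂ))]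

/-! ### periodisation -/

theorem one_le_lat {n m : ℤ × ℤ} (h : n ≠ m) : 1 ≤ ‖lat n - lat m‖ := by
  by_cases h1 : n.1 = m.1
  · have h2 : n.2 - m.2 ≠ 0 := fun a => h (Prod.ext h1 (sub_eq_zero.1 a))
    refine le_trans ?_ (Complex.abs_im_le_norm _)
    have : (lat n - lat m).im = ((n.2 - m.2 : ℤ) : ℝ) := by simp [lat]
    rw [this]
    exact_mod_cast Int.one_le_abs h2
  · refine le_trans ?_ (Complex.abs_re_le_norm _)
    have : (lat n - lat m).re = ((n.1 - m.1 : ℤ) : ℝ) := by simp [lat]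
    rw [this]
    exact_mod_cast Int.one_le_abs (sub_ne_zero.2 h1)

theorem exists_n (z0 : ℂ) : ∃ m, ∀ᶠ z in 𝓝 z0, ∀ n, n ≠ m → 1 / 4 < ‖z - lat n‖ := by
  have h : ∃ m, ∀ n, n ≠ m → 1 / 2 ≤ ‖z0 - lat n‖ := by
    by_cases h : ∃ m, ‖z0 - lat m‖ < 1 / 2
    · obtain ⟨m, hm⟩ := h
      refine ⟨m, fun n hn => ?_⟩
      have a := one_le_lat hn
      have b := norm_sub_le (z0 - lat m) (z0 - lat n)
      rw [show z0 - lat m - (z0 - lat n) = lat n - lat m by ring] at b
      linarith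
    · exact ⟨0, fun n _ => not_lt.1 fun a => h ⟨n, a⟩⟩
  obtain ⟨m, hm⟩ := h
  refine ⟨m, ?_⟩
  filter_upwards [Metric.ball_mem_nhds z0 (by norm_num : (0 : ℝ) < 1 / 4)] with z hz n hn
  have a := hm n hn
  have b := norm_sub_le (z - lat n) (z - z0)
  rw [show z - lat n - (z - z0) = z0 - lat n by ring] at b
  rw [mem_ball_iff_norm] at hz
  linarith

theorem per_eq {E : Type} [NormedAddCommGroup E] {f : ℂ → E} {r : ℝ} (hr : r ≤ 1 / 4)
    (hf : ∀ y, r < ‖y‖ → f y = 0) {z : ℂ} {m : ℤ × ℤ} (h : ∀ n, n ≠ m → 1 / 4 < ‖z - lat n‖) :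
    Per f z = f (z - lat m) :=
  tsum_eq_single m fun n hn => hf _ (hr.trans_lt (h n hn))

theorem peri_per {E : Type} [NormedAddCommGroup E] (f : ℂ → E) (a : ℂ) :
    Peri fun y => Per f (y - a) := by
  intro n z
  unfold Per
  beta_reduce
  rw [← (Equiv.addRight n).tsum_eq]
  refine tsum_congr fun m => congrArg f ?_
  simp [lat]; ring

theorem isG_per {P : ℂ → ℝ} (hP : ContDiff ℝ ∞ P) {r : ℝ} (hr : r ≤ 1 / 4)
    (h0 : ∀ y, r < ‖y‖ → P y = 0) (a : ℂ) {F : ℂ → ℂ}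
    (h : ∀ y m, (∀ᶠ z in 𝓝 (y - a), ∀ n, n ≠ m → 1 / 4 < ‖z - lat n‖) →
      F y = grad P (y - (a + lat m))) : IsG F := by
  have k : ∀ y m, (∀ᶠ z in 𝓝 (y - a), ∀ n, n ≠ m → 1 / 4 < ‖z - lat n‖) →
      (fun x => Per P (x - a)) =ᶠ[𝓝 y] fun x => P (x - (a + lat m)) := by
    intro y m hm
    have c : ContinuousAt (fun x : ℂ => x - a) y := by fun_prop
    filter_upwards [c.eventually hm] with x hx
    rw [per_eq hr h0 hx, sub_sub]
  refine ⟨fun x => Per P (x - a), contDiff_iff_contDiffAt.2 fun y => ?_, peri_per P a, fun y => ?_⟩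
  · obtain ⟨m, hm⟩ := exists_n (y - a)
    exact (hP.comp (contDiff_id.sub contDiff_const)).contDiffAt.congr_of_eventuallyEq (k y m hm)
  · obtain ⟨m, hm⟩ := exists_n (y - a)
    rw [h y m hm, grad_shift (k y m hm)]

/-! ### the phase and the mollifier -/

theorem norm_ex (a : ℝ) : ‖ex a‖ = 1 := Complex.norm_exp_ofReal_mul_I a

theorem ex_mul_neg (a : ℝ) : ex a * ex (-a) = 1 := by
  unfold ex; rw [← Complex.exp_add]; simp

theorem conj_ex (a : ℝ) : (starRingEnd ℂ) (ex (-a)) = ex a := by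
  unfold ex; rw [← Complex.exp_conj]; simp

theorem ex_two (a : ℝ) : ex (2 * a) = ex a ^ 2 := by
  unfold ex; rw [sq, ← Complex.exp_add]; push_cast; ring_nf

theorem contDiff_ex : ContDiff ℝ ∞ ex :=
  Complex.contDiff_exp.comp (Complex.ofRealCLM.contDiff.mul contDiff_const)

theorem hasDerivAt_ex {φ : ℝ → ℝ} {φ' t : ℝ} (h : HasDerivAt φ φ' t) :
    HasDerivAt (fun s => ex (φ s)) (ex (φ t) * (φ' * Complex.I)) t :=
  (h.ofReal_comp.mul_const Complex.I).cexp

theorem contDiff_etas (s : ℝ) : ContDiff ℝ ∞ (etas s) := by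
  unfold etas eta bump
  refine Complex.ofRealCLM.contDiff.comp (ContDiff.div_const (ContDiff.div_const ?_ _) _)
  exact expNegInvGlue.contDiff.comp
    (contDiff_const.sub ((contDiff_norm_sq ℝ).comp (contDiff_id.div_const _)))

theorem etas_zero {s : ℝ} (hs : 0 < s) {y : ℂ} (hy : s < ‖y‖) : etas s y = 0 := by
  have h : 1 < ‖y / (s : ℂ)‖ := by
    rw [norm_div, Complex.norm_real, Real.norm_of_nonneg hs.le, one_lt_div hs]; exact hy
  unfold etas eta bump
  rw [expNegInvGlue.zero_of_nonpos (by nlinarith)]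
  simp

theorem etas_sc {d rho : ℝ} (hd : 0 < d) (hr : 0 < rho) {A : ℂ} (hA : ‖A‖ = rho⁻¹) (y : ℂ) :
    etas (d / rho) (A * y) = rho ^ 2 * etas d y := by
  have h : ‖A * y / ((d / rho : ℝ) : ℂ)‖ = ‖y / (d : ℂ)‖ := by
    rw [norm_div, norm_div, norm_mul, hA, Complex.norm_real, Complex.norm_real,
      Real.norm_of_nonneg hd.le, Real.norm_of_nonneg (by positivity)]
    field_simp
  unfold etas eta bump
  rw [h]
  have : (rho : ℂ) ≠ 0 := by exact_mod_cast hr.ne'
  have : (d : ℂ) ≠ 0 := by exact_mod_cast hd.ne'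
  push_cast
  field_simp

end DIP

end Pool.Agent.Lib.EUL
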