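import Mathlib

set_option autoImplicit false

namespace Pool.Agent.Lib.EUL

open MeasureTheory Set
open scoped ContDiff Classical

noncomputable section

/-- lattice points of `ℤ + iℤ` -/
def lat (n : ℤ × ℤ) : ℂ := (n.1 : ℂ) + (n.2 : ℂ) * Complex.I

/-- the centred period cell -/
def cell : Set ℂ := {z | z.re ∈ Ioc (-1 / 2 : ℝ) (1 / 2) ∧ z.im ∈ Ioc (-1 / 2 : ℝ) (1 / 2)}

/-- distance to the lattice -/
def pn (z : ℂ) : ℝ := Metric.infDist z (range lat)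

def Peri {E : Type} (f : ℂ → E) : Prop := ∀ (n : ℤ × ℤ) (z : ℂ), f (z + lat n) = f z

/-- jointly smooth in time and space -/
def Sm {E : Type} [NormedAddCommGroup E] [NormedSpace ℝ E] (f : ℝ → ℂ → E) : Prop :=
  ContDiff ℝ ∞ (fun p : ℝ × ℂ => f p.1 p.2)

/-- smooth and periodic -/
def SP {E : Type} [NormedAddCommGroup E] [NormedSpace ℝ E] (f : ℝ → ℂ → E) : Prop :=
  Sm f ∧ ∀ t, Peri (f t)

/-- smooth, vanishing outside the disc of radius `r` -/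
def Loc {E : Type} [NormedAddCommGroup E] [NormedSpace ℝ E] (f : ℝ → ℂ → E) (r : ℝ) : Prop :=
  Sm f ∧ ∀ t y, r < ‖y‖ → f t y = 0

def dz (f : ℂ → ℂ) (x : ℂ) : ℂ := (fderiv ℝ f x 1 - Complex.I * fderiv ℝ f x Complex.I) / 2

def dzb (f : ℂ → ℂ) (x : ℂ) : ℂ := (fderiv ℝ f x 1 + Complex.I * fderiv ℝ f x Complex.I) / 2

def dt (f : ℝ → ℂ → ℂ) (t : ℝ) (x : ℂ) : ℂ := deriv (fun s => f s x) t

def grad (p : ℂ → ℝ) (x : ℂ) : ℂ := 2 * dzb (fun y => (p y : ℂ)) x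

def cj (f : ℂ → ℂ) (x : ℂ) : ℂ := (starRingEnd ℂ) (f x)

/-- gradient of a smooth periodic real function -/
def IsG (E : ℂ → ℂ) : Prop := ∃ p : ℂ → ℝ, ContDiff ℝ ∞ p ∧ Peri p ∧ ∀ x, E x = grad p x

def IsGrad (E : ℝ → ℂ → ℂ) : Prop := ∀ t, IsG (E t)

def DivF (v : ℝ → ℂ → ℂ) : Prop := ∀ t x, (dz (v t) x).re = 0

/-- the Euler-Reynolds system -/
def ER (v q : ℝ → ℂ → ℂ) : Prop :=
  SP v ∧ SP q ∧ DivF v ∧
    IsGrad (fun t x => dt v t x + dz (fun y => v t y ^ 2) x - 2 * dz (q t) x)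

/-- norm of the `k`-th derivative -/
def nD (k : ℕ) (f : ℂ → ℂ) (x : ℂ) : ℝ := ‖iteratedFDeriv ℝ k f x‖

def lg (r : ℝ) : ℝ := 1 + |Real.log r|

def tau (k : ℕ) (r s : ℝ) : ℝ := (r / max r s) ^ k

def al : ℝ := 10 / 9

/-- integral over the cell -/
def IQ (f : ℂ → ℝ) : ℝ := ∫ x in cell, f x

def Bes (f : ℂ → ℂ) (S B : ℝ) : Prop :=
  IQ (fun x => ‖f x‖) ≤ S ∧ ∀ y : ℂ, IQ (fun x => ‖f (x + y) + f (x - y) - 2 * f x‖) ≤ B * ‖y‖ ^ al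

def Cst (l : ℝ) (f : ℂ → ℂ) (c : ℝ) : Prop := Bes f c (c / l ^ al)

/-- at most `M` of the active points lie in any periodic disc of radius `r` -/
def Mult {ι : Type} [Fintype ι] (P : ι → Prop) (p : ι → ℂ) (r M : ℝ) : Prop :=
  ∀ y : ℂ, ((Finset.univ.filter fun i => P i ∧ pn (p i - y) ≤ r).card : ℝ) ≤ M

/-- gradient majorant at one time -/
def GM (V : ℂ → ℂ) (g : ℂ → ℝ) (l D Y : ℝ) : Prop :=
  Continuous g ∧ Peri g ∧ (∀ x y : ℂ, ‖x - y‖ ≤ l → nD 1 V y ≤ g x ∧ D * nD 2 V y ≤ g x) ∧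
    IQ (fun x => g x ^ 2) ≤ Y

/-- majorant of the field and two derivatives at one time -/
def GM0 (B : ℂ → ℂ) (g : ℂ → ℝ) (l s X : ℝ) : Prop :=
  Continuous g ∧ Peri g ∧ (∀ x y : ℂ, ‖x - y‖ ≤ l → ∀ j ≤ 2, s ^ j * nD j B y ≤ g x) ∧
    IQ (fun x => g x ^ 2) ≤ X

def Maj (V : ℝ → ℂ → ℂ) (l D Y : ℝ) : Prop :=
  ∃ g : ℝ → ℂ → ℝ, Continuous (fun p : ℝ × ℂ => g p.1 p.2) ∧ ∀ t, GM (V t) (g t) l D Y

def Maj0 (B : ℝ → ℂ → ℂ) (l s X : ℝ) : Prop :=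
  ∃ g : ℝ → ℂ → ℝ, Continuous (fun p : ℝ × ℂ => g p.1 p.2) ∧ ∀ t, GM0 (B t) (g t) l s X

/-- radial cutoff, one on the unit disc, zero outside the disc of radius two -/
def th (y : ℂ) : ℝ := Real.smoothTransition ((4 - ‖y‖ ^ 2) / 3)

def bump (y : ℂ) : ℝ := expNegInvGlue (1 - ‖y‖ ^ 2)

/-- radial mollifier -/
def eta (y : ℂ) : ℝ := bump y / ∫ w, bump w

def etas (s : ℝ) (y : ℂ) : ℂ := ((eta (y / (s : ℂ)) / s ^ 2 : ℝ) : ℂ)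

def mol (s : ℝ) (f : ℂ → ℂ) (x : ℂ) : ℂ := ∫ y, etas s y * f (x - y)

/-- periodisation -/
def Per {E : Type} [NormedAddCommGroup E] (f : ℂ → E) (x : ℂ) : E := ∑' n : ℤ × ℤ, f (x - lat n)

/-- a local field, periodised and carried along the path `z` -/
def mv {E : Type} [NormedAddCommGroup E] (f : ℝ → ℂ → E) (z : ℝ → ℂ) (t : ℝ) (x : ℂ) : E :=
  Per (f t) (x - z t)

/-- periodic Cauchy kernel -/
structure IsKer (K : ℂ → ℂ) (C : ℝ) : Prop where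
  one_le : 1 ≤ C
  per : Peri K
  meas : Measurable K
  smooth : ContDiffOn ℝ ∞ K {y | 0 < pn y}
  bound : ∀ j ≤ 4, ∀ y, 0 < pn y → nD j K y ≤ C / pn y ^ (1 + j)
  solve : ∀ F : ℂ → ℂ, ContDiff ℝ ∞ F → Peri F → ∀ x,
    ∫ y in cell, K y * dz F (x - y) = F x - ∫ y in cell, F y

def Cau (K F : ℂ → ℂ) (x : ℂ) : ℂ := ∫ y in cell, K y * F (x - y)

/-- Leray projection of the divergence of the periodic stress `Q` -/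
def Ler (K Q : ℂ → ℂ) (x : ℂ) : ℂ := dz Q x - dzb (dzb (Cau K (cj Q))) x

/-- local average over the disc of radius `r l` -/
def avg (F : ℝ → ℂ → ℝ) (r l t : ℝ) (z : ℂ) : ℝ := (∫ x in Metric.closedBall z (r * l), F t x) / l ^ 2

/-- compact time support -/
def TS {E : Type} [Zero E] (f : ℝ → ℂ → E) (a b : ℝ) : Prop := ∀ t, t ∉ Icc a b → ∀ x, f t x = 0

/-- full dipole envelope -/
def Env (W : ℂ → ℂ) (p : ℂ) (c rho : ℝ) : Prop :=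
  ∀ j ≤ 2, ∀ y, nD j W y ≤ c * rho ^ 2 / max rho (pn (y - p)) ^ (2 + j)

/-- crude envelope, derivatives at scale `s` -/
def Dom (k : ℕ) (W : ℂ → ℂ) (p : ℂ) (c r s : ℝ) : Prop :=
  ∀ j ≤ 2, ∀ y, s ^ j * nD j W y ≤ c * tau k r (pn (y - p))

def Supp (W : ℂ → ℂ) (p : ℂ) (r : ℝ) : Prop := ∀ y, r < pn (y - p) → W y = 0

/-- an obstacle: a dipole of an earlier stage -/
structure Ob where
  s : ℝ
  e : ℝ
  a : ℝ → ℝ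
  u : ℝ
  rho : ℝ
  x : ℝ → ℂ
  W : ℝ → ℂ → ℂ

structure Ob.Good (o : Ob) : Prop where
  le : o.s ≤ o.e
  acont : Continuous o.a
  a0 : ∀ t, 0 ≤ o.a t
  a1 : ∀ t, o.a t ≤ 1
  aone : ∀ t ∈ Icc o.s o.e, o.a t = 1
  u0 : 0 ≤ o.u
  rpos : 0 < o.rho
  xsm : ContDiff ℝ ∞ o.x
  Wsp : SP o.W
  Wts : TS o.W o.s o.e
  env : ∀ t, Env (o.W t) (o.x t) o.u o.rho

/-- the core of an obstacle, cut at distance `D` -/
def Ob.core (o : Ob) (D t : ℝ) (y : ℂ) : ℂ :=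
  ((Per (fun w => th (w / (D : ℂ))) (y - o.x t) : ℝ) : ℂ) * o.W t y

/-- decomposition of the velocity into a tame part and obstacles -/
structure Dec (v V : ℝ → ℂ → ℂ) {ι : Type} [Fintype ι] (o : ι → Ob)
    (a b l D rho Y Xi Z M : ℝ) : Prop where
  Vsp : SP V
  Vts : TS V a b
  eq : ∀ t x, v t x = V t x + ∑ i, (o i).W t x
  maj : Maj V l D Y
  good : ∀ i, (o i).Good
  life : ∀ i, a ≤ (o i).s ∧ (o i).e ≤ b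
  size : ∀ i, rho ≤ (o i).rho ∧ (o i).rho ≤ D
  long : ∀ i, D ≤ (o i).u * ((o i).e - (o i).s)
  mult : ∀ t, Mult (fun i => (o i).a t ≠ 0) (fun i => (o i).x t) (60 * l) M
  xi : ∀ t, ∑ i, ((o i).a t * (o i).u) ^ 2 * (o i).rho ^ (2 - al) ≤ Xi
  drift : ∀ t, ∑ i, ((o i).a t * ‖deriv (o i).x t - V t ((o i).x t)‖) ^ 2 ≤ Z

def HasDec (v : ℝ → ℂ → ℂ) (a b l D rho Y Xi Z M : ℝ) : Prop :=
  ∃ (ι : Type) (_ : Fintype ι) (o : ι → Ob) (V : ℝ → ℂ → ℂ), Dec v V o a b l D rho Y Xi Z M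

def State (v q : ℝ → ℂ → ℂ) (a b l D rho S B Y Xi Z M : ℝ) : Prop :=
  ER v q ∧ TS q a b ∧ (∀ t, Bes (q t) S B) ∧ HasDec v a b l D rho Y Xi Z M

/-- size of a velocity increment -/
def Inc (w : ℝ → ℂ → ℂ) (A rho : ℝ) : Prop :=
  ∀ t, IQ (fun x => ‖w t x‖ ^ 2) ≤ A ^ 2 ∧ IQ (fun x => nD 1 (w t) x ^ 2) ≤ A ^ 2 / rho ^ 2 ∧
    ∀ x, ‖w t x‖ ≤ A / rho

/-- output of the box construction; `chi` is written in the frame of `z` -/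
structure Boxes (u : ℝ → ℂ → ℂ) (F : ℝ → ℂ → ℝ) (l th0 T0 a b Mz Zg : ℝ) {β : Type} [Fintype β]
    (tb Tb : β → ℝ) (z : β → ℝ → ℂ) (chi : β → ℝ → ℂ → ℝ) : Prop where
  Tpos : ∀ i, 0 < Tb i
  Tle : ∀ i, Tb i ≤ T0
  tmem : ∀ i, tb i ∈ Icc (a - T0) (b + T0)
  zsm : ∀ i, ContDiff ℝ ∞ (z i)
  zode : ∀ i t, HasDerivAt (z i) (u t (z i t)) t
  loc : ∀ i, Loc (chi i) (2 * l)
  chi0 : ∀ i t y, 0 ≤ chi i t y
  chi1 : ∀ i t y, chi i t y ≤ 1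
  ts : ∀ i, TS (chi i) (tb i - Tb i) (tb i + Tb i)
  part : ∀ t ∈ Icc a b, ∀ x, ∑ i, mv (chi i) (z i) t x = 1
  acc : ∀ i, ∫ t in (tb i - 2 * Tb i)..(tb i + 2 * Tb i), avg F 500 l t (z i t) ≤ th0 ^ 2 / Tb i
  sumG : ∀ t, ∑ i ∈ Finset.univ.filter (fun i => |t - tb i| ≤ 2 * Tb i), (th0 / Tb i) ^ 2 ≤ Zg
  mult : ∀ t, Mult (fun i => |t - tb i| ≤ 2 * Tb i) (fun i => z i t) (110 * l) Mz

/-- relative cost of the errors made inside one box; `Lam` is speed times life -/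
def Gam (l rho d h d2 del e1 f Lam : ℝ) : ℝ :=
  h / l + (l ^ 3 / (Lam * d2 ^ 2) + (d2 + del) / d + f + rho / d) * (l / d) ^ al
    + e1 * (l / (rho * √e1)) ^ al + (rho / d) ^ 2 * (l / rho) ^ al
    + l * (l / rho) ^ (al - 1) / (f * Lam) + d * l * (l / d) ^ (al - 1) / h ^ 2

/-- parameters of a stage -/
structure Par where
  l : ℝ
  rho : ℝ
  D : ℝ
  d : ℝ
  h : ℝ
  d2 : ℝ
  th0 : ℝ
  kap : ℝ
  f : ℝ
  e1 : ℝ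
  n : ℝ
  G : ℝ
  S : ℝ

def Par.Lam (P : Par) : ℝ := P.G * P.n * P.th0 * P.l
def Par.bt (P : Par) : ℝ := P.rho ^ 2 * P.Lam * P.l / P.d ^ 4
def Par.Y (P : Par) : ℝ := P.S / (P.n * P.rho) ^ 2
def Par.Xi (P : Par) : ℝ := P.G ^ 10 * P.S / P.rho ^ al
def Par.Z (P : Par) : ℝ := P.G ^ 10 * P.S / P.rho ^ 2
def Par.T0 (P : Par) : ℝ := P.th0 / √(6 * P.Y)

/-- relative cost of the whole stage -/
def Par.tot (P : Par) : ℝ :=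
  Gam P.l P.rho P.d P.h P.d2 (2 * P.d2) P.e1 P.f P.Lam
    + (P.l / P.rho) ^ (al - 1) / P.n
    + P.bt * (P.l / P.rho) ^ 2 / P.n * (P.l / P.d) * (P.l / P.D) ^ (al - 1)
    + P.bt ^ 2 * (P.l / P.rho) ^ 2 * (P.l / P.d) ^ al
    + P.bt * (P.l / P.rho) ^ al
    + P.bt * P.l ^ al * √(P.D ^ (2 - al) / P.rho ^ al) / P.rho
    + P.rho / P.D ^ 2 * P.l ^ al * √(P.D ^ (2 - al) / P.rho ^ al)
    + (P.rho / P.D) ^ 2 * (P.l / P.rho) ^ al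

structure Par.OK (P : Par) (C : ℝ) : Prop where
  rpos : 0 < P.rho
  Spos : 0 < P.S
  n1 : 1 ≤ P.n
  big : C * lg P.rho ≤ P.G
  rD : P.rho ≤ P.D
  Dd2 : 12 * P.D ≤ P.d2
  d2d : P.d2 ≤ P.d
  dh : P.G * P.d ≤ P.h
  hl : P.h ≤ P.l
  lsmall : P.l ≤ 1 / 10000
  rd : P.G * P.n * P.rho ≤ P.d
  thpos : 0 < P.th0
  thD : 104 * P.l * P.th0 ≤ P.D
  fpos : 0 < P.f
  f4 : P.f ≤ 1 / 4
  e1pos : 0 < P.e1
  e11 : P.e1 ≤ 1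
  kpos : 0 < P.kap
  ramp : P.l ≤ P.f * P.Lam
  rounds : P.G * P.l ^ 3 ≤ P.Lam * P.d2 ^ 2
  far : P.G ^ 16 * P.l ^ 2 * P.D ^ (al - 4) * P.rho ^ (2 - al) * P.n ^ 2 ≤ 1
  kapp : P.G ^ 22 * P.kap ^ 2 * P.l ^ 2 * P.n ^ 2 ≤ 1
  grid : 2 * (P.G * P.th0 / P.kap + 2 * P.G * (104 * P.l * P.th0 + 4 * P.Lam)) / P.D + 4 * P.G
    < (P.d2 / (50 * P.D)) ^ 2
  corr : P.G ^ 12 * P.bt ^ 2 * P.l ^ 2 ≤ P.rho ^ 2

/-- test fields on the time interval `(0,1)` -/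
def Test {E : Type} [NormedAddCommGroup E] [NormedSpace ℝ E] (f : ℝ → ℂ → E) : Prop :=
  SP f ∧ ∃ a b : ℝ, 0 < a ∧ b < 1 ∧ TS f a b

/-- Lebesgue measure on `(0,1)` times the cell -/
def m2 : Measure (ℝ × ℂ) := (volume.restrict (Ioo (0 : ℝ) 1)).prod (volume.restrict cell)

/-- planar periodic weak solutions in complex form -/
structure Weak2 (v : ℝ → ℂ → ℂ) (p : ℝ → ℂ → ℝ) : Prop where
  vmeas : Measurable (fun z : ℝ × ℂ => v z.1 z.2)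
  pmeas : Measurable (fun z : ℝ × ℂ => p z.1 z.2)
  v2 : MemLp (fun z : ℝ × ℂ => v z.1 z.2) 2 m2
  p1 : Integrable (fun z : ℝ × ℂ => p z.1 z.2) m2
  div : ∀ ψ : ℝ → ℂ → ℝ, Test ψ →
    ∫ z, (v z.1 z.2 * (starRingEnd ℂ) (grad (ψ z.1) z.2)).re ∂m2 = 0
  mom : ∀ Φ : ℝ → ℂ → ℂ, Test Φ →
    ∫ z, ((v z.1 z.2 * (starRingEnd ℂ) (dt Φ z.1 z.2)).re + (v z.1 z.2 ^ 2 * dz (cj (Φ z.1)) z.2).re
      + (‖v z.1 z.2‖ ^ 2 / 2 + p z.1 z.2) * (2 * (dz (Φ z.1) z.2).re)) ∂m2 = 0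

/-- directions of the hexagon -/
def ej (j : ℕ) : ℂ := Complex.exp (((j : ℝ) * Real.pi / 3 : ℝ) * Complex.I)

def ex (a : ℝ) : ℂ := Complex.exp ((a : ℝ) * Complex.I)

/-- activity function: one on `|t - c| ≤ T`, zero on `2 T ≤ |t - c|` -/
def actf (c T t : ℝ) : ℝ := max 0 (min 1 (2 - |t - c| / T))

/-- the exact dipole of Chaplygin: translation part, rotation part and pressure parts -/
structure Raw where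
  W1 : ℂ → ℂ
  W0 : ℂ → ℂ
  P11 : ℂ → ℝ
  P10 : ℂ → ℝ
  P00 : ℂ → ℝ
  r0 : ℝ
  M0 : ℝ

structure Raw.Good (R : Raw) : Prop where
  rpos : 0 < R.r0
  Mpos : 0 < R.M0
  c1 : ContDiff ℝ 1 R.W1
  c0 : ContDiff ℝ 1 R.W0
  l1 : ∃ C, LipschitzWith C (fderiv ℝ R.W1)
  l0 : ∃ C, LipschitzWith C (fderiv ℝ R.W0)
  p11 : ContDiff ℝ 1 R.P11
  p10 : ContDiff ℝ 1 R.P10
  p00 : ContDiff ℝ 1 R.P00
  out1 : ∀ y, R.r0 ≤ ‖y‖ → R.W1 y = (starRingEnd ℂ) ((R.r0 : ℂ) ^ 2 / y ^ 2)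
  out0 : ∀ y, R.r0 ≤ ‖y‖ → R.W0 y = Complex.I * (starRingEnd ℂ) ((R.r0 : ℂ) ^ 2 / y)
  outP : ∀ y, R.r0 ≤ ‖y‖ → R.P11 y = 0 ∧ R.P10 y = 0 ∧ R.P00 y = 0
  div1 : ∀ y, (dz R.W1 y).re = 0
  div0 : ∀ y, (dz R.W0 y).re = 0
  e11 : ∀ y, dzb (fun w => (R.P11 w : ℂ)) y = dz R.W1 y * (R.W1 y - 1)
  e10 : ∀ y, dzb (fun w => (R.P10 w : ℂ)) y =
    dz R.W1 y * (R.W0 y - Complex.I * y) + dz R.W0 y * (R.W1 y - 1)
  e00 : ∀ y, dzb (fun w => (R.P00 w : ℂ)) y = dz R.W0 y * (R.W0 y - Complex.I * y)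
  int : Integrable (fun y => R.W1 y ^ 2)
  mass : ∫ y, R.W1 y ^ 2 = (R.M0 : ℂ)

def Raw.W (R : Raw) (a g : ℝ) (y : ℂ) : ℂ := a * R.W1 y + g * R.W0 y

def hat (e1 e2 : ℝ) (f : ℂ → ℂ) (y : ℂ) : ℂ := mol e1 f y - mol e2 f y

def Raw.XA (R : Raw) (e1 a g : ℝ) (y : ℂ) : ℂ :=
  mol e1 (R.W a g) y ^ 2 - mol e1 (fun w => R.W a g w ^ 2) y

def Raw.XB (R : Raw) (e1 e2 a g : ℝ) (y : ℂ) : ℂ :=
  -2 * (th (y / (2 * e2 : ℝ)) : ℂ) * mol e1 (R.W a g) y * mol e2 (R.W a g) y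

def Raw.XC (R : Raw) (e2 a g : ℝ) (y : ℂ) : ℂ :=
  (th (y / (2 * e2 : ℝ)) : ℂ) * (mol e2 (R.W a g) y ^ 2 + mol e2 (fun w => R.W a g w ^ 2) y)
    - a ^ 2 * R.M0 * etas e2 y

/-- smooth in two real parameters and the space variable -/
def Sm3 {E : Type} [NormedAddCommGroup E] [NormedSpace ℝ E] (f : ℝ → ℝ → ℂ → E) : Prop :=
  ContDiff ℝ ∞ (fun p : ℝ × ℝ × ℂ => f p.1 p.2.1 p.2.2)

/-- qualitative part of the smooth profile -/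
structure ProfId (M0 e2 : ℝ) (W1 W0 : ℂ → ℂ) (p : ℝ → ℝ → ℂ → ℝ) (XA XB XC : ℝ → ℝ → ℂ → ℂ) :
    Prop where
  s1 : ContDiff ℝ ∞ W1
  s0 : ContDiff ℝ ∞ W0
  sp : ∀ a g, ContDiff ℝ ∞ (p a g)
  sA : Sm3 XA
  sB : Sm3 XB
  sC : Sm3 XC
  supW : ∀ y, 2 * e2 < ‖y‖ → W1 y = 0 ∧ W0 y = 0
  supX : ∀ a g y, 4 * e2 < ‖y‖ → p a g y = 0 ∧ XA a g y = 0 ∧ XB a g y = 0 ∧ XC a g y = 0
  zero : ∀ y, XA 0 0 y = 0 ∧ XB 0 0 y = 0 ∧ XC 0 0 y = 0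
  div1 : ∀ y, (dz W1 y).re = 0
  div0 : ∀ y, (dz W0 y).re = 0
  mean1 : ∫ y, W1 y = 0
  mean0 : ∫ y, W0 y = 0
  eq : ∀ (a g : ℝ) (y : ℂ),
    -(a : ℂ) * fderiv ℝ (fun w => a * W1 w + g * W0 w) y 1
      + g * (Complex.I * (a * W1 y + g * W0 y)
        - fderiv ℝ (fun w => a * W1 w + g * W0 w) y (Complex.I * y))
      + dz (fun w => (a * W1 w + g * W0 w) ^ 2) y + grad (p a g) y
      = dz (fun w => a ^ 2 * M0 * etas e2 w + XA a g w + XB a g w + XC a g w) y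

/-- sum of the cores -/
def Core {ι : Type} [Fintype ι] (o : ι → Ob) (D t : ℝ) (y : ℂ) : ℂ := ∑ i, (o i).core D t y

/-- velocity without the cores -/
def Vh {ι : Type} [Fintype ι] (v : ℝ → ℂ → ℂ) (o : ι → Ob) (D t : ℝ) (y : ℂ) : ℂ :=
  v t y - Core o D t y

/-- far field of the obstacles -/
def Ot {ι : Type} [Fintype ι] (o : ι → Ob) (D t : ℝ) (y : ℂ) : ℂ :=
  ∑ i, (o i).W t y - Core o D t y

/-- the objects attached to the boxes of a stage -/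
structure BD (β : Type) where
  tb : β → ℝ
  Tb : β → ℝ
  s : β → ℝ
  e : β → ℝ
  z : β → ℝ → ℂ
  x : β → ℝ → ℂ
  w : β → ℝ → ℂ → ℂ
  wb : β → ℝ → ℂ → ℂ
  E : β → ℝ → ℂ → ℂ
  Sg : β → ℝ → ℂ → ℂ
  g : ℝ → ℂ → ℝ

def BD.W {β : Type} [Fintype β] (B : BD β) (t : ℝ) (y : ℂ) : ℂ := ∑ i, B.w i t y
def BD.Wb {β : Type} [Fintype β] (B : BD β) (t : ℝ) (y : ℂ) : ℂ := ∑ i, B.wb i t y
def BD.u {β : Type} (B : BD β) (P : Par) (i : β) : ℝ := P.Lam / B.Tb i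
def BD.act {β : Type} (B : BD β) (i : β) (t : ℝ) : Prop := |t - B.tb i| ≤ 2 * B.Tb i

/-- the identity satisfied by the dipole and the corrector of one box -/
def CellEq (w wb E Sg : ℝ → ℂ → ℂ) (c cb : ℝ → ℂ) : Prop :=
  IsGrad (fun t y => dt w t y + dz (fun x => 2 * c t * w t x) y + dz (fun x => w t x ^ 2) y
    + dt wb t y + dz (fun x => 2 * cb t * wb t x) y + 2 * dz (Sg t) y - 2 * dz (E t) y)

structure Built (P : Par) (v q : ℝ → ℂ → ℂ) {ι : Type} [Fintype ι] (o : ι → Ob) (a b : ℝ)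
    {β : Type} [Fintype β] (B : BD β) : Prop where
  Vsp : SP (Vh v o P.D)
  gcont : Continuous (fun p : ℝ × ℂ => B.g p.1 p.2)
  gm : ∀ t, GM (Vh v o P.D t) (B.g t) P.l P.D (4 * P.Y)
  far : Maj0 (Ot o P.D) P.l P.D (P.G ^ 16 * P.l ^ 2 * P.D ^ (al - 2) * P.S / P.rho ^ al)
  Tpos : ∀ i, 0 < B.Tb i
  Tle : ∀ i, B.Tb i ≤ P.T0
  tmem : ∀ i, B.tb i ∈ Icc (a - P.T0) (b + P.T0)
  life : ∀ i, B.tb i - B.Tb i ≤ B.s i ∧ B.s i ≤ B.e i ∧ B.e i ≤ B.tb i + B.Tb i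
  long : ∀ i, P.l ≤ B.u P i * (B.e i - B.s i)
  zsm : ∀ i, ContDiff ℝ ∞ (B.z i)
  xsm : ∀ i, ContDiff ℝ ∞ (B.x i)
  xdrift : ∀ i t, ‖deriv (B.x i) t - Vh v o P.D t (B.x i t)‖ ≤ B.u P i
  near : ∀ i t, B.act i t → ‖B.x i t - B.z i t‖ ≤ 52 * P.l
  sumU : ∀ t, ∑ i ∈ Finset.univ.filter (fun i => B.act i t), B.u P i ^ 2 ≤ P.G ^ 5 * P.S / P.rho ^ 2
  mult : ∀ t, Mult (fun i => B.act i t) (fun i => B.z i t) (110 * P.l) P.G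
  sepO : ∀ i j t, t ∈ Icc (B.s i) (B.e i) → t ∈ Icc (o j).s (o j).e →
    4 * P.D ≤ pn (B.x i t - (o j).x t)
  sepN : ∀ i j t, i ≠ j → t ∈ Icc (B.s i) (B.e i) → t ∈ Icc (B.s j) (B.e j) →
    4 * P.D ≤ pn (B.x i t - B.x j t)
  wsp : ∀ i, SP (B.w i)
  wbsp : ∀ i, SP (B.wb i)
  Esp : ∀ i, SP (B.E i)
  Ssp : ∀ i, SP (B.Sg i)
  wdiv : ∀ i, DivF (B.w i)
  wbdiv : ∀ i, DivF (B.wb i)
  wts : ∀ i, TS (B.w i) (B.s i) (B.e i)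
  wbts : ∀ i, TS (B.wb i) (B.tb i - B.Tb i) (B.tb i + B.Tb i)
  Ets : ∀ i, TS (B.E i) (B.tb i - B.Tb i) (B.tb i + B.Tb i)
  env : ∀ i t, Env (B.w i t) (B.x i t) (P.G ^ 2 * B.u P i) P.rho
  supp : ∀ i t, Supp (B.w i t) (B.x i t) (2 * P.d)
  dom : ∀ i t, Dom 3 (B.wb i t) (B.z i t) (P.G * P.bt * B.u P i) P.l P.d
  cost : ∀ i t, Cst P.l (B.E i t)
    (P.G ^ 5 * B.u P i ^ 2 * P.rho ^ 2 * Gam P.l P.rho P.d P.h P.d2 (2 * P.d2) P.e1 P.f P.Lam)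
  src : ∀ t y, ∑ i, B.Sg i t y = mol P.l (q t) y
  eq : ∀ i, CellEq (B.w i) (B.wb i) (B.E i) (B.Sg i) (fun t => Vh v o P.D t (B.x i t))
    (fun t => Vh v o P.D t (B.z i t))

/-- pressure of the stress `v ⊗ v` -/
def Pr (K v : ℂ → ℂ) (x : ℂ) : ℝ := -(1 / 2) * (dzb (Cau K (cj fun y => v y ^ 2)) x).re

/-- the sequence produced by the iteration -/
structure Seq (v q : ℕ → ℝ → ℂ → ℂ) (S A rho : ℕ → ℝ) : Prop where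
  er : ∀ m, ER (v m) (q m)
  small : ∀ m t, IQ (fun x => ‖q m t x‖) ≤ S m
  lim : Filter.Tendsto S Filter.atTop (nhds 0)
  rpos : ∀ m, 0 < rho m
  r1 : ∀ m, rho m ≤ 1
  A0 : ∀ m, 0 ≤ A m
  inc : ∀ m, Inc (fun t x => v (m + 1) t x - v m t x) (A m) (rho m)
  sum : Summable fun m => A m * rho m ^ (-(11 / 20 : ℝ))
  ts : ∀ m, TS (v m) (1 / 8) (7 / 8)
  big : ∃ c : ℝ, ∑' m, A m < c ∧ ∀ t ∈ Icc (9 / 20 : ℝ) (11 / 20), c ^ 2 ≤ IQ fun x => ‖v 0 t x‖ ^ 2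

/-- the point of the cell above the first two coordinates of a point of the three-torus -/
def pr (x : UnitAddTorus (Fin 3)) : ℂ :=
  ((AddCircle.equivIoc (1 : ℝ) (-1 / 2) (x 0) : ℝ) : ℂ)
    + ((AddCircle.equivIoc (1 : ℝ) (-1 / 2) (x 1) : ℝ) : ℂ) * Complex.I

def liftU (u : ℂ → ℂ) (x : UnitAddTorus (Fin 3)) : Fin 3 → ℝ := ![(u (pr x)).re, (u (pr x)).im, 0]

end

end Pool.Agent.Lib.EUL
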