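import Pool.Agent.Lib.EUL.B_ABS
import Pool.Agent.Lib.EUL.B_ALG
import Pool.Agent.Lib.EUL.B_AV
import Pool.Agent.Lib.EUL.B_AVG
import Pool.Agent.Lib.EUL.B_BES
import Pool.Agent.Lib.EUL.B_BEU
import Pool.Agent.Lib.EUL.B_BUILD
import Pool.Agent.Lib.EUL.B_C13
import Pool.Agent.Lib.EUL.B_C78
import Pool.Agent.Lib.EUL.B_CAU
import Pool.Agent.Lib.EUL.B_CELL
import Pool.Agent.Lib.EUL.B_CORE
import Pool.Agent.Lib.EUL.B_CORR
import Pool.Agent.Lib.EUL.B_COVER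
import Pool.Agent.Lib.EUL.B_CS
import Pool.Agent.Lib.EUL.B_CSC
import Pool.Agent.Lib.EUL.B_DIP
import Pool.Agent.Lib.EUL.B_EN
import Pool.Agent.Lib.EUL.B_ENV
import Pool.Agent.Lib.EUL.B_FAR
import Pool.Agent.Lib.EUL.B_FF
import Pool.Agent.Lib.EUL.B_GR
import Pool.Agent.Lib.EUL.B_HS
import Pool.Agent.Lib.EUL.B_HS1
import Pool.Agent.Lib.EUL.B_IBP
import Pool.Agent.Lib.EUL.B_K5
import Pool.Agent.Lib.EUL.B_KER
import Pool.Agent.Lib.EUL.B_LERA
import Pool.Agent.Lib.EUL.B_LERB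
import Pool.Agent.Lib.EUL.B_LIM
import Pool.Agent.Lib.EUL.B_LIMP
import Pool.Agent.Lib.EUL.B_LIMV
import Pool.Agent.Lib.EUL.B_MAJ
import Pool.Agent.Lib.EUL.B_MJ
import Pool.Agent.Lib.EUL.B_MOL
import Pool.Agent.Lib.EUL.B_MVP
import Pool.Agent.Lib.EUL.B_NEWD
import Pool.Agent.Lib.EUL.B_NMAJ
import Pool.Agent.Lib.EUL.B_NUM
import Pool.Agent.Lib.EUL.B_ODE
import Pool.Agent.Lib.EUL.B_PAIR
import Pool.Agent.Lib.EUL.B_PATH
import Pool.Agent.Lib.EUL.B_PATH0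
import Pool.Agent.Lib.EUL.B_PB1
import Pool.Agent.Lib.EUL.B_PB2
import Pool.Agent.Lib.EUL.B_PB3
import Pool.Agent.Lib.EUL.B_PID
import Pool.Agent.Lib.EUL.B_PLACE
import Pool.Agent.Lib.EUL.B_POU
import Pool.Agent.Lib.EUL.B_PR
import Pool.Agent.Lib.EUL.B_PREP
import Pool.Agent.Lib.EUL.B_PROF
import Pool.Agent.Lib.EUL.B_PTS
import Pool.Agent.Lib.EUL.B_RAW
import Pool.Agent.Lib.EUL.B_RIEM
import Pool.Agent.Lib.EUL.B_ROUND
import Pool.Agent.Lib.EUL.B_SEQ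
import Pool.Agent.Lib.EUL.B_SHEAR
import Pool.Agent.Lib.EUL.B_SQ
import Pool.Agent.Lib.EUL.B_SRC
import Pool.Agent.Lib.EUL.B_STAGE
import Pool.Agent.Lib.EUL.B_START
import Pool.Agent.Lib.EUL.B_T3
import Pool.Agent.Lib.EUL.B_TOUR
import Pool.Agent.Lib.EUL.B_WIT
import Pool.Agent.Lib.EUL.B_WK
import Pool.Agent.Lib.EUL.Scale

set_option autoImplicit false

namespace Pool.Agent.Lib.EUL

open MeasureTheory Set Filter Topology
open scoped ContDiff Classical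

namespace Final

theorem maj : St_MAJ := st_MAJ st_ENV st_PTS
theorem mj : St_MJ := st_MJ st_PTS
theorem csc : St_CSC := st_CSC st_CAU (st_K5 st_CAU)
theorem beu : St_BEU := st_BEU st_CAU st_IBP
theorem pb1 : St_PB1 := st_PB1 st_MVP
theorem prof : St_PROF :=
  st_PROF (st_RAW st_BES) (st_PID st_MVP st_IBP) pb1 (st_PB2 st_MVP pb1) (st_PB3 pb1)
theorem path : St_PATH := st_PATH (st_PATH0 (st_TOUR st_ROUND) st_RIEM)
theorem corr : St_CORR := st_CORR st_KER (st_LERA st_CAU) (st_LERB st_CAU st_ENV)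
theorem cel : St_CELL := st_CELL st_KER st_CAU st_CS csc (st_DIP prof) path corr
theorem cover : St_COVER := st_COVER st_AVG st_GR st_ODE (st_WIT st_AVG st_GR st_PTS)
theorem place : St_PLACE := st_PLACE st_AV st_GR st_ODE
theorem prep : St_PREP := st_PREP st_CORE maj mj st_AVG
theorem nmaj : St_NMAJ := st_NMAJ maj
theorem ff : St_FF := st_FF st_CS st_ENV st_PTS
theorem c78 : St_C78 :=
  st_C78 nmaj (st_SHEAR st_CS st_ENV st_PTS) (st_FAR st_CS st_ENV st_PTS) (st_SQ st_CS) ff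
theorem c13 : St_C13 := st_C13 nmaj st_CORE ff (st_PAIR st_CS st_ENV)
theorem lim : St_LIM :=
  st_LIM st_KER st_CAU (st_WK st_CAU st_IBP) st_LIMV (st_LIMP st_CAU beu)

theorem build : St_BUILD := st_BUILD prep st_AVG cover st_POU st_SRC cel place

theorem seq : St_SEQ :=
  st_SEQ st_NUM (st_STAGE st_MOL st_ALG build c78 c13 (st_NEWD nmaj mj)) (st_ABS maj mj) st_START

theorem memLp_lift {f : ℂ → ℂ} (hf : MemLp f 2 (volume.restrict cell)) (i : Fin 3) :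
    MemLp (fun x => liftU f x i) 2 MP_fea353_an.mu := by
  have h : MemLp (fun x => f (pr x)) 2 MP_fea353_an.mu := hf.comp_measurePreserving st_PR.1
  fin_cases i
  · exact h.re
  · exact h.im
  · exact memLp_const 0

end Final

open Final MP_fea353_an in
theorem main_strong : ∃ (v : ℝ → T3 → Fin 3 → ℝ) (p : ℝ → T3 → ℝ),
    WeakEuler 1 v p ∧ (∀ t i, MemLp (fun x => v t x i) 2 mu) ∧
    (∃ M : ℝ, ∀ t i, HsNormSq (11 / 20) (fun x => v t x i) ≤ ENNReal.ofReal M) ∧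
    (∀ t < (1 / 8 : ℝ), energy (v t) = 0) ∧
    ∃ c : ℝ, 0 < c ∧ ∀ t ∈ Icc (9 / 20 : ℝ) (11 / 20), c ≤ energy (v t) := by
  obtain ⟨v, q, S, A, rho, H⟩ := Final.seq
  obtain ⟨u, p, hw, hl⟩ := lim v q S A rho H
  exact ⟨_, _, st_T3 st_PR u p hw, fun t i => memLp_lift (hl t).1 i,
    st_HS st_PR (st_HS1 st_PR) v q S A rho u H hl, st_EN st_PR v q S A rho u H hl⟩

end Pool.Agent.Lib.EUL
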