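import Pool.Agent.Lib.EUL.H69Smear
import Pool.Agent.Lib.EUL.B_MOL

/-! Smooth functions supported in a disc and the `L¹` norms of their derivatives. -/

open MeasureTheory Set Filter Topology
open scoped ContDiff ComplexConjugate

namespace Pool.Agent.Lib.EUL.SM

noncomputable section

variable {f g : ℂ → ℂ} {r r' : ℝ}

lemma le_top' (n : ℕ) : (n : WithTop ℕ∞) ≤ ∞ := by exact_mod_cast le_top

lemma nD_add (hf : ContDiff ℝ ∞ f) (hg : ContDiff ℝ ∞ g) (k : ℕ) (y : ℂ) :
    nD k (fun y => f y + g y) y ≤ nD k f y + nD k g y := by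
  unfold nD
  rw [show (fun y => f y + g y) = f + g from rfl, iteratedFDeriv_add_apply
    (hf.contDiffAt.of_le (le_top' k)) (hg.contDiffAt.of_le (le_top' k))]
  exact norm_add_le _ _

lemma nD_cmul (hf : ContDiff ℝ ∞ f) (c : ℂ) (k : ℕ) (y : ℂ) :
    nD k (fun y => c * f y) y = ‖c‖ * nD k f y := by
  unfold nD
  rw [← norm_smul, ← iteratedFDeriv_const_smul_apply (hf.contDiffAt.of_le (le_top' k))]
  rfl

lemma nD_conj (f : ℂ → ℂ) (k : ℕ) (y : ℂ) : nD k (fun y => conj (f y)) y = nD k f y :=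
  Complex.conjLIE.norm_iteratedFDeriv_comp_left f y k

lemma nD_shift (f : ℂ → ℂ) (c : ℂ) (k : ℕ) (y : ℂ) :
    nD k (fun y => f (y - c)) y = nD k f (y - c) := by
  unfold nD
  rw [iteratedFDeriv_comp_sub]

lemma nD_scale (hf : ContDiff ℝ ∞ f) {s : ℝ} (hs : 0 < s) (k : ℕ) (y : ℂ) :
    nD k (fun y => f (y / s)) y ≤ nD k f (y / s) / s ^ k := by
  let A : ℂ →L[ℝ] ℂ := s⁻¹ • ContinuousLinearMap.id ℝ ℂ
  have hA : ∀ y, A y = y / s := fun y => by
    change s⁻¹ • y = _
    rw [Complex.real_smul, Complex.ofReal_inv, div_eq_inv_mul]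
  have hn : ‖A‖ ≤ s⁻¹ := by
    refine (norm_smul_le s⁻¹ (ContinuousLinearMap.id ℝ ℂ)).trans ?_
    rw [ContinuousLinearMap.norm_id, mul_one, Real.norm_of_nonneg (inv_nonneg.2 hs.le)]
  have e : (fun y => f (y / s)) = f ∘ A := funext fun y => by simp [hA]
  unfold nD
  rw [e, A.iteratedFDeriv_comp_right hf y (le_top' k), ← hA]
  refine (ContinuousMultilinearMap.norm_compContinuousLinearMap_le _ _).trans ?_
  rw [Finset.prod_const, Finset.card_univ, Fintype.card_fin, div_eq_mul_inv, ← inv_pow]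
  exact mul_le_mul_of_nonneg_left (pow_le_pow_left₀ (norm_nonneg _) hn k) (norm_nonneg _)

/-- smooth and supported in the closed disc of radius `r` -/
def Nice (f : ℂ → ℂ) (r : ℝ) : Prop := ContDiff ℝ ∞ f ∧ ∀ y, r < ‖y‖ → f y = 0

/-- `L¹` norm of the `k`-th derivative -/
def IN (k : ℕ) (f : ℂ → ℂ) : ℝ := ∫ y, nD k f y

lemma IN_nonneg (k : ℕ) (f : ℂ → ℂ) : 0 ≤ IN k f := integral_nonneg fun y => nD_nonneg k f y

lemma Nice.cs (h : Nice f r) : HasCompactSupport f := cs_of h.2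
lemma Nice.int (h : Nice f r) : Integrable f :=
  h.1.continuous.integrable_of_hasCompactSupport h.cs
lemma Nice.mono (h : Nice f r) (hr : r ≤ r') : Nice f r' := ⟨h.1, fun y hy => h.2 y (by linarith)⟩
lemma Nice.add (h : Nice f r) (h' : Nice g r) : Nice (fun y => f y + g y) r :=
  ⟨h.1.add h'.1, fun y hy => by simp only [h.2 y hy, h'.2 y hy, add_zero]⟩
lemma Nice.sub (h : Nice f r) (h' : Nice g r) : Nice (fun y => f y - g y) r :=
  ⟨h.1.sub h'.1, fun y hy => by simp only [h.2 y hy, h'.2 y hy, sub_zero]⟩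
lemma Nice.cmul (h : Nice f r) (c : ℂ) : Nice (fun y => c * f y) r :=
  ⟨contDiff_const.mul h.1, fun y hy => by simp only [h.2 y hy, mul_zero]⟩
lemma Nice.conj (h : Nice f r) : Nice (fun y => conj (f y)) r :=
  ⟨Complex.conjCLE.contDiff.comp h.1, fun y hy => by simp only [h.2 y hy, map_zero]⟩
lemma Nice.shift (h : Nice f r) {c : ℂ} (hc : ‖c‖ ≤ r') : Nice (fun y => f (y - c)) (r + r') :=
  ⟨h.1.comp (contDiff_id.sub contDiff_const), fun y hy => h.2 _ (by
    have := norm_sub_norm_le y c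
    linarith)⟩
lemma nice_sum {ι : Type} (s : Finset ι) {F : ι → ℂ → ℂ} (h : ∀ i ∈ s, Nice (F i) r) :
    Nice (fun y => ∑ i ∈ s, F i y) r :=
  ⟨ContDiff.sum fun i hi => (h i hi).1, fun y hy => Finset.sum_eq_zero fun i hi => (h i hi).2 y hy⟩
lemma Nice.sm {S : Type} [MeasurableSpace S] {ν : Measure S} {a Z : S → ℂ} (h : Nice f r)
    (ha : Integrable a ν) (hZ : Measurable Z) (hR : ∀ᵐ s ∂ν, a s = 0 ∨ ‖Z s‖ ≤ r') :
    Nice (sm ν a Z f) (r + r') :=
  ⟨contDiff_sm ha hZ h.1 h.cs, fun _ hy => sm_eq_zero h.2 hR hy⟩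

lemma IN_add (h : Nice f r) (h' : Nice g r') (k : ℕ) :
    IN k (fun y => f y + g y) ≤ IN k f + IN k g := by
  unfold IN
  rw [← integral_add (int_nD h.1 h.cs k) (int_nD h'.1 h'.cs k)]
  exact integral_mono_of_nonneg (Eventually.of_forall fun y => nD_nonneg _ _ y)
    ((int_nD h.1 h.cs k).add (int_nD h'.1 h'.cs k))
    (Eventually.of_forall fun y => nD_add h.1 h'.1 k y)

lemma IN_cmul (h : ContDiff ℝ ∞ f) (c : ℂ) (k : ℕ) : IN k (fun y => c * f y) = ‖c‖ * IN k f := by
  unfold IN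
  simp only [nD_cmul h]
  exact integral_const_mul _ _

lemma IN_shift (f : ℂ → ℂ) (c : ℂ) (k : ℕ) : IN k (fun y => f (y - c)) = IN k f := by
  unfold IN
  simp only [nD_shift]
  exact integral_sub_right_eq_self (nD k f) c

lemma IN_sum {ι : Type} (s : Finset ι) {F : ι → ℂ → ℂ} (h : ∀ i ∈ s, Nice (F i) r) (k : ℕ)
    {B : ℝ} (hB : ∀ i ∈ s, IN k (F i) ≤ B) : IN k (fun y => ∑ i ∈ s, F i y) ≤ s.card * B := by
  classical
  induction s using Finset.induction_on with
  | empty => simp [IN, nD]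
  | insert i s hi ih =>
    simp only [Finset.sum_insert hi, Finset.card_insert_of_notMem hi]
    have h1 := fun j hj => h j (Finset.mem_insert_of_mem (s := s) hj)
    have h2 := IN_add (h i (Finset.mem_insert_self _ _)) (nice_sum s h1) k
    have h3 := ih h1 fun j hj => hB j (Finset.mem_insert_of_mem hj)
    have h4 := hB i (Finset.mem_insert_self _ _)
    push_cast
    linarith

lemma IN_le_sup (h : Nice f r) (hr : 0 ≤ r) (k : ℕ) {M : ℝ} (hM : ∀ y, nD k f y ≤ M) :
    IN k f ≤ 4 * r ^ 2 * M := by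
  have hM0 : 0 ≤ M := (nD_nonneg _ _ 0).trans (hM 0)
  have hs : ∀ y, y ∉ Metric.closedBall (0 : ℂ) r → nD k f y = 0 := fun y hy => by
    have h1 : tsupport f ⊆ Metric.closedBall (0 : ℂ) r :=
      closure_minimal (fun z hz => by
        by_contra hc
        exact hz (h.2 z (by simpa using hc))) Metric.isClosed_closedBall
    have h2 : iteratedFDeriv ℝ k f y = 0 := by
      by_contra hc
      exact hy (h1 (support_iteratedFDeriv_subset k hc))
    simp [nD, h2]
  unfold IN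
  rw [← setIntegral_eq_integral_of_forall_compl_eq_zero hs]
  have h1 := norm_setIntegral_le_of_norm_le_const (μ := volume) (s := Metric.closedBall (0 : ℂ) r)
    (f := nD k f) (C := M) measure_closedBall_lt_top
    fun y _ => by rw [Real.norm_of_nonneg (nD_nonneg _ _ _)]; exact hM y
  have h2 : (volume : Measure ℂ).real (Metric.closedBall 0 r) = r ^ 2 * Real.pi := by
    rw [Measure.real, Complex.volume_closedBall]
    simp [ENNReal.toReal_ofReal hr]
  rw [h2] at h1
  have h3 := mul_le_mul_of_nonneg_left Real.pi_le_four (mul_nonneg hM0 (sq_nonneg r))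
  refine (le_abs_self _).trans (h1.trans ?_)
  nlinarith

lemma nice_etas {d : ℝ} (hd : 0 < d) : Nice (etas d) d :=
  ⟨MOL.etas_smooth d, fun _ hy => MOL.etas_zero hd hy.le⟩

lemma IN_etas {d : ℝ} (hd : 0 < d) (k : ℕ) : IN k (etas d) ≤ IN k (etas 1) / d ^ k := by
  have h1 := nice_etas one_pos
  have e : etas d = fun y => ((d ^ 2)⁻¹ : ℝ) * etas 1 (y / d) := funext fun y => by
    simp [etas, div_eq_inv_mul]
  have e2 : ∀ y : ℂ, y / (d : ℂ) = d⁻¹ • y := fun y => by
    rw [Complex.real_smul, Complex.ofReal_inv, div_eq_inv_mul]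
  have hs : ContDiff ℝ ∞ fun y : ℂ => etas 1 (y / d) := h1.1.comp (contDiff_id.div_const _)
  have hi : Integrable fun y : ℂ => nD k (etas 1) (y / d) / d ^ k := by
    simp only [e2]
    exact ((int_nD h1.1 h1.cs k).comp_smul (inv_ne_zero hd.ne')).div_const _
  have h2 : IN k (fun y => etas 1 (y / d)) ≤ d ^ 2 * IN k (etas 1) / d ^ k := by
    refine (integral_mono_of_nonneg (Eventually.of_forall fun y => nD_nonneg _ _ y) hi
      (Eventually.of_forall fun y => nD_scale h1.1 hd k y)).trans (le_of_eq ?_)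
    simp only [e2]
    rw [integral_div, Measure.integral_comp_inv_smul_of_nonneg volume (nD k (etas 1)) hd.le,
      Complex.finrank_real_complex, smul_eq_mul]
    rfl
  rw [e, IN_cmul hs, Complex.norm_real, Real.norm_of_nonneg (by positivity)]
  refine (mul_le_mul_of_nonneg_left h2 (by positivity)).trans (le_of_eq ?_)
  field_simp

lemma exists_etas : ∃ C : ℝ, 1 ≤ C ∧ ∀ d : ℝ, 0 < d → ∀ k ≤ 3, IN k (etas d) ≤ C / d ^ k := by
  refine ⟨1 + ∑ k ∈ Finset.range 4, IN k (etas 1),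
    le_add_of_nonneg_right (Finset.sum_nonneg fun k _ => IN_nonneg _ _), fun d hd k hk => ?_⟩
  refine (IN_etas hd k).trans (div_le_div_of_nonneg_right ?_ (by positivity))
  have := Finset.single_le_sum (f := fun k => IN k (etas 1)) (fun k _ => IN_nonneg _ _)
    (Finset.mem_range.2 (by omega : k < 4))
  linarith

lemma th_zero {y : ℂ} (h : 2 ≤ ‖y‖) : th y = 0 :=
  Real.smoothTransition.zero_of_nonpos (by nlinarith)

lemma th_one {y : ℂ} (h : ‖y‖ ≤ 1) : th y = 1 :=
  Real.smoothTransition.one_of_one_le (by nlinarith [norm_nonneg y])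

lemma nice_th : Nice (fun y => (th y : ℂ)) 2 :=
  ⟨Complex.ofRealCLM.contDiff.comp (Real.smoothTransition.contDiff.comp
    ((contDiff_const.sub (contDiff_norm_sq ℝ)).div_const _)), fun y hy => by simp [th_zero hy.le]⟩

lemma exists_th : ∃ C : ℝ, 1 ≤ C ∧ ∀ s : ℝ, 0 < s → ∀ k ≤ 3, ∀ y,
    nD k (fun y => (th (y / s) : ℂ)) y ≤ C / s ^ k := by
  choose B hB using fun k : ℕ => (cont_D nice_th.1 k).bounded_above_of_compact_support
    (nice_th.cs.iteratedFDeriv k)
  have h0 : ∀ k, 0 ≤ B k := fun k => (norm_nonneg _).trans (hB k 0)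
  refine ⟨1 + ∑ k ∈ Finset.range 4, B k, le_add_of_nonneg_right (Finset.sum_nonneg fun k _ => h0 k),
    fun s hs k hk y => ?_⟩
  refine (nD_scale nice_th.1 hs k y).trans (div_le_div_of_nonneg_right ?_ (by positivity))
  have := Finset.single_le_sum (f := B) (fun k _ => h0 k) (Finset.mem_range.2 (by omega : k < 4))
  have h1 : nD k (fun y => (th y : ℂ)) (y / s) ≤ B k := hB k _
  linarith

/-- superposition along a curve of length `L` with unimodular weights -/
lemma curve {d L R : ℝ} (hd : 0 < d) (hL : 0 ≤ L) {ψ : ℝ → ℝ} {Z : ℝ → ℂ} (hψ : Continuous ψ)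
    (hZ : Continuous Z) (hR : ∀ s ∈ Icc 0 L, ‖Z s‖ ≤ R) :
    ∃ G : ℂ → ℂ, (∀ y, G y = ∫ s in (0 : ℝ)..L, ex (2 * ψ s) * etas d (y - Z s)) ∧
      Nice G (d + R) ∧ (∀ k, IN k G ≤ L * IN k (etas d)) ∧
      ∫ y, G y = ∫ s in (0 : ℝ)..L, ex (2 * ψ s) := by
  have hc : Continuous fun s => ex (2 * ψ s) := by unfold ex; fun_prop
  have ha : Integrable (fun s => ex (2 * ψ s)) (volume.restrict (Ioc 0 L)) :=
    hc.integrableOn_Ioc
  have h1 := nice_etas hd
  refine ⟨sm (volume.restrict (Ioc 0 L)) (fun s => ex (2 * ψ s)) Z (etas d),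
    fun y => (intervalIntegral.integral_of_le hL).symm, h1.sm ha hZ.measurable ?_, fun k => ?_, ?_⟩
  · exact (ae_restrict_mem measurableSet_Ioc).mono fun s hs => Or.inr (hR s (Ioc_subset_Icc_self hs))
  · refine (int_nD_sm ha hZ.measurable h1.1 h1.cs k).trans (le_of_eq ?_)
    have : ∀ s, ‖ex (2 * ψ s)‖ = 1 := fun s => Complex.norm_exp_ofReal_mul_I _
    simp only [this]
    simp [IN, hL]
  · rw [int_sm ha hZ.measurable h1.1.continuous h1.cs, MOL.int_etas hd, mul_one,
      intervalIntegral.integral_of_le hL]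

end

end Pool.Agent.Lib.EUL.SM
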