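import Pool.Agent.Lib.EUL.Blue

/-! Block RAW, part a: the radial profiles of the dipole. -/

set_option autoImplicit false

namespace Pool.Agent.Lib.EUL.RAW

open MeasureTheory Set Filter Topology
open scoped ContDiff Classical

/-- `f` left of `c`, `g` right of `c` -/
noncomputable def gl (c : ℝ) (f g : ℝ → ℝ) (u : ℝ) : ℝ := if u ≤ c then f u else g u

lemma gl_le {c u : ℝ} {f g : ℝ → ℝ} (h : u ≤ c) : gl c f g u = f u := if_pos h

lemma gl_gt {c u : ℝ} {f g : ℝ → ℝ} (h : c < u) : gl c f g u = g u := if_neg (not_le.2 h)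

lemma gl_ge {c u : ℝ} {f g : ℝ → ℝ} (e : f c = g c) (h : c ≤ u) : gl c f g u = g u := by
  rcases h.eq_or_lt with rfl | h
  · rw [gl_le le_rfl, e]
  · exact gl_gt h

lemma gl_deriv {c : ℝ} {f g f' g' : ℝ → ℝ} (hf : ∀ u, HasDerivAt f (f' u) u)
    (hg : ∀ u, c ≤ u → HasDerivAt g (g' u) u) (e : f c = g c) (e' : f' c = g' c) (u : ℝ) :
    HasDerivAt (gl c f g) (gl c f' g' u) u := by
  rcases lt_trichotomy u c with h | rfl | h
  · rw [gl_le h.le]
    exact (hf u).congr_of_eventuallyEq
      ((eventually_lt_nhds h).mono fun v hv => gl_le hv.le)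
  · rw [gl_le le_rfl]
    have h1 : HasDerivWithinAt (gl u f g) (f' u) (Iic u) u :=
      (hf u).hasDerivWithinAt.congr (fun v hv => gl_le hv) (gl_le le_rfl)
    have h2 : HasDerivWithinAt (gl u f g) (f' u) (Ici u) u := by
      rw [e']
      exact (hg u le_rfl).hasDerivWithinAt.congr (fun v hv => gl_ge e hv) (gl_ge e le_rfl)
    have h3 := h1.union h2
    rwa [Iic_union_Ici, hasDerivWithinAt_univ] at h3
  · rw [gl_gt h]
    exact (hg u h.le).congr_of_eventuallyEq
      ((eventually_gt_nhds h).mono fun v hv => gl_gt hv)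

lemma gl_lip {c : ℝ} {f g : ℝ → ℝ} (hf : ContDiff ℝ 1 f) (hg : ∀ u, c ≤ u → ContDiffAt ℝ 1 g u)
    (e : f c = g c) : LocallyLipschitz (gl c f g) := by
  have h0 : gl c f g = (fun p : ℝ × ℝ => p.1 + p.2 - f c) ∘
      fun u => (f (min u c), g (max u c)) := by
    funext u
    rcases le_total u c with h | h
    · simp [gl_le h, min_eq_left h, max_eq_right h, e]
    · simp [gl_ge e h, min_eq_right h, max_eq_left h]
  have h1 : LocallyLipschitz fun u => f (min u c) :=
    hf.locallyLipschitz.comp (LipschitzWith.id.min_const c).locallyLipschitz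
  have h2 : LocallyLipschitz fun u => g (max u c) := by
    intro u
    obtain ⟨K, t, ht, hK⟩ := (hg (max u c) (le_max_right _ _)).exists_lipschitzOnWith
    have hm : LipschitzWith 1 fun u : ℝ => max u c := LipschitzWith.id.max_const c
    refine ⟨K * 1, (fun u => max u c) ⁻¹' t, hm.continuous.continuousAt.preimage_mem_nhds ht, ?_⟩
    exact hK.comp (hm.lipschitzOnWith) fun _ h => h
  rw [h0]
  exact (ContDiff.locallyLipschitz (𝕂 := ℝ) (by fun_prop)).comp (h1.prodMk h2)

/-- the radial profiles -/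
structure Prof (u0 : ℝ) (A B B' E E' p : ℝ → ℝ) : Prop where
  pos : 0 < u0
  dA : ∀ u, HasDerivAt A (-p u) u
  dB : ∀ u, HasDerivAt B (B' u) u
  dE : ∀ u, HasDerivAt E (E' u) u
  dpp : ∀ u, HasDerivAt (fun u => p u ^ 2) (-(p u * B u) / 2) u
  dpA : ∀ u, HasDerivAt (fun u => p u * A u) (-(B u * A u) / 4 - p u ^ 2) u
  lp : LocallyLipschitz p
  lB : LocallyLipschitz B'
  lE : LocallyLipschitz E'
  r1 : ∀ u, B' u * u + 2 * B u = p u
  r2 : ∀ u, E u + u * E' u = A u
  r3 : ∀ u, A u * (E u - 1) = 4 * A u * p u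
  r4 : ∀ u, p u * (E u - 1) = 4 * p u ^ 2
  r5 : ∀ u, p u * (A u - 1) = p u * (4 * p u - u * B u)
  r6 : ∀ u, A u * (A u - 1) = A u * (4 * p u - u * B u)
  out : ∀ u, u0 ≤ u → A u = 0 ∧ p u = 0 ∧ B u = u0 / u ^ 2 ∧ E u = u0 / u
  ne : ∃ u, 0 ≤ u ∧ A u ≠ 0

theorem prof (h : St_BES) : ∃ (u0 : ℝ) (A B B' E E' p : ℝ → ℝ), Prof u0 A B B' E E' p := by
  obtain ⟨j, u0, hj, ode, j0, hu, hj1, ha⟩ := h
  set a := j u0 with hadef
  set j1 := deriv j with h1
  set j2 := deriv j1 with h2
  set j3 := deriv j2 with h3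
  have s1 : ContDiff ℝ ∞ j1 := (contDiff_infty_iff_deriv.1 hj).2
  have s2 : ContDiff ℝ ∞ j2 := (contDiff_infty_iff_deriv.1 s1).2
  have s3 : ContDiff ℝ ∞ j3 := (contDiff_infty_iff_deriv.1 s2).2
  have d0 : ∀ u, HasDerivAt j (j1 u) u := fun u =>
    ((contDiff_infty_iff_deriv.1 hj).1 u).hasDerivAt
  have d1 : ∀ u, HasDerivAt j1 (j2 u) u := fun u =>
    ((contDiff_infty_iff_deriv.1 s1).1 u).hasDerivAt
  have d2 : ∀ u, HasDerivAt j2 (j3 u) u := fun u =>
    ((contDiff_infty_iff_deriv.1 s2).1 u).hasDerivAt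
  have c1 : ContDiff ℝ 1 j1 := s1.of_le (by simp)
  have c2 : ContDiff ℝ 1 j2 := s2.of_le (by simp)
  have c3 : ContDiff ℝ 1 j3 := s3.of_le (by simp)
  have ode' : ∀ u, 4 * (u * j3 u + 2 * j2 u) + j1 u = 0 := by
    intro u
    have e1 := (((((hasDerivAt_id' u).mul (d2 u)).add (d1 u)).const_mul 4).add (d0 u))
    have e2 : (fun u => 4 * (u * j2 u + j1 u) + j u) = fun _ => (0 : ℝ) := funext ode
    have e3 : HasDerivAt (fun u => 4 * (u * j2 u + j1 u) + j u)
      (4 * (1 * j2 u + u * j3 u + j2 u) + j1 u) u := e1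
    rw [e2] at e3
    have := e3.unique (hasDerivAt_const u 0)
    linarith
  have v2 : j2 u0 = -a / (4 * u0) := by
    have := ode u0
    rw [hj1] at this
    field_simp
    linarith
  have v3 : j3 u0 = a / (2 * u0 ^ 2) := by
    have := ode' u0
    rw [hj1, v2] at this
    field_simp at this ⊢
    linarith
  have z1 : ∀ {u}, u0 ≤ u → u ≠ 0 := fun h => (hu.trans_le h).ne'
  have eA : (fun u => 1 - j u / a) u0 = (fun _ => (0 : ℝ)) u0 := by
    simp only [← hadef]; field_simp; ring
  have ep : (fun u => j1 u / a) u0 = (fun _ => (0 : ℝ)) u0 := by simp [hj1]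
  have eB : (fun u => -4 * j2 u / a) u0 = (fun u => u0 / u ^ 2) u0 := by
    simp only [v2]; field_simp
  have eB' : (fun u => -4 * j3 u / a) u0 = (fun u => -2 * u0 / u ^ 3) u0 := by
    simp only [v3]; field_simp; ring
  have eE : (fun u => 1 + 4 * j1 u / a) u0 = (fun u => u0 / u) u0 := by
    simp only [hj1]; field_simp; ring
  have eE' : (fun u => 4 * j2 u / a) u0 = (fun u => -u0 / u ^ 2) u0 := by
    simp only [v2]; field_simp
  refine ⟨u0, gl u0 (fun u => 1 - j u / a) fun _ => 0,
    gl u0 (fun u => -4 * j2 u / a) fun u => u0 / u ^ 2,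
    gl u0 (fun u => -4 * j3 u / a) fun u => -2 * u0 / u ^ 3,
    gl u0 (fun u => 1 + 4 * j1 u / a) fun u => u0 / u,
    gl u0 (fun u => 4 * j2 u / a) fun u => -u0 / u ^ 2,
    gl u0 (fun u => j1 u / a) fun _ => 0, ?_⟩
  have dA : ∀ u, HasDerivAt (gl u0 (fun u => 1 - j u / a) fun _ => 0)
      (-gl u0 (fun u => j1 u / a) (fun _ => 0) u) u := by
    intro u
    have := gl_deriv (c := u0) (f' := fun u => -(j1 u / a)) (g' := fun _ => 0)
      (fun u => ((d0 u).div_const a).const_sub 1) (fun u _ => hasDerivAt_const u (0 : ℝ)) eA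
      (by simp [hj1]) u
    refine this.congr_deriv ?_
    unfold gl
    split_ifs <;> simp
  refine ⟨hu, dA, ?_, ?_, ?_, ?_, ?_, ?_, ?_, ?_, ?_, ?_, ?_, ?_, ?_, ?_, ?_⟩
  · refine gl_deriv (fun u => ((d2 u).const_mul (-4)).div_const a) (fun u h => ?_) eB eB'
    have := (hasDerivAt_const u u0).div (hasDerivAt_pow 2 u) (pow_ne_zero 2 (z1 h))
    refine this.congr_deriv ?_
    have := z1 h
    field_simp
    norm_num
    ring
  · refine gl_deriv (fun u => (((d1 u).const_mul 4).div_const a).const_add 1) (fun u h => ?_) eE eE'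
    have := (hasDerivAt_const u u0).div (hasDerivAt_id' u) (z1 h)
    refine this.congr_deriv ?_
    simp
  · intro u
    have := gl_deriv (c := u0) (f := fun u => (j1 u / a) ^ 2) (g := fun _ => 0)
      (f' := fun u => 2 * (j1 u / a) * (j2 u / a)) (g' := fun _ => 0)
      (fun u => (((d1 u).div_const a).pow 2).congr_deriv (by simp))
      (fun u _ => hasDerivAt_const u (0 : ℝ)) (by simp [hj1]) (by simp [hj1]) u
    refine (this.congr_of_eventuallyEq (Eventually.of_forall fun v => ?_)).congr_deriv ?_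
    · unfold gl
      split_ifs <;> simp
    · unfold gl
      split_ifs
      · ring
      · simp
  · intro u
    have := gl_deriv (c := u0) (f := fun u => j1 u / a * (1 - j u / a)) (g := fun _ => 0)
      (f' := fun u => j2 u / a * (1 - j u / a) + j1 u / a * -(j1 u / a)) (g' := fun _ => 0)
      (fun u => ((d1 u).div_const a).mul (((d0 u).div_const a).const_sub 1))
      (fun u _ => hasDerivAt_const u (0 : ℝ)) (by simp [hj1])
      (by have := eA; simp only at this; simp [hj1, this]) u
    refine (this.congr_of_eventuallyEq (Eventually.of_forall fun v => ?_)).congr_deriv ?_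
    · unfold gl
      split_ifs <;> simp
    · unfold gl
      split_ifs
      · ring
      · simp
  · exact gl_lip (by fun_prop) (fun _ _ => contDiffAt_const) ep
  · exact gl_lip (by fun_prop) (fun u h => contDiffAt_const.div (by fun_prop)
      (pow_ne_zero 3 (z1 h))) eB'
  · exact gl_lip (by fun_prop) (fun u h => contDiffAt_const.div (by fun_prop)
      (pow_ne_zero 2 (z1 h))) eE'
  · intro u
    rcases le_or_gt u u0 with h | h
    · simp only [gl_le h]
      field_simp
      linarith [ode' u]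
    · simp only [gl_gt h]
      have := z1 h.le
      field_simp
      ring
  · intro u
    rcases le_or_gt u u0 with h | h
    · simp only [gl_le h]
      field_simp
      linarith [ode u]
    · simp only [gl_gt h]
      have := z1 h.le
      field_simp
      ring
  · intro u
    rcases le_or_gt u u0 with h | h
    · simp only [gl_le h]; ring
    · simp only [gl_gt h]; ring
  · intro u
    rcases le_or_gt u u0 with h | h
    · simp only [gl_le h]; ring
    · simp only [gl_gt h]; ring
  · intro u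
    rcases le_or_gt u u0 with h | h
    · simp only [gl_le h]
      linear_combination (-(j1 u / a) / a) * ode u
    · simp only [gl_gt h]; ring
  · intro u
    rcases le_or_gt u u0 with h | h
    · simp only [gl_le h]
      linear_combination (-(1 - j u / a) / a) * ode u
    · simp only [gl_gt h]; ring
  · exact fun u h => ⟨gl_ge eA h, gl_ge ep h, gl_ge eB h, gl_ge eE h⟩
  · by_contra hc
    push Not at hc
    have e1 := (dA 0).hasDerivWithinAt (s := Ici 0)
    have e2 : HasDerivWithinAt (gl u0 (fun u => 1 - j u / a) fun _ => 0) 0 (Ici 0) 0 :=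
      (hasDerivWithinAt_const (0 : ℝ) (Ici 0) (0 : ℝ)).congr (fun v hv => hc v hv) (hc 0 le_rfl)
    have e3 := (uniqueDiffWithinAt_Ici (0 : ℝ)).eq_deriv _ e1 e2
    rw [gl_le hu.le, neg_eq_zero, div_eq_zero_iff] at e3
    have e4 := ode 0
    rcases e3 with e3 | e3
    · rw [e3, j0] at e4; norm_num at e4
    · exact ha e3

end Pool.Agent.Lib.EUL.RAW
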